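import Mathlib
import Pool.Agent.Work.MP_787500_nt.PA.ParityDefs

/-!
Selmer groups with local conditions at a family of subgroups: definitions used in the final statement
(fixed, do not change). `IsConjDual`, `IsCocycle`, `IsPerp`, `cocycles`, `coboundaries`, `Between`,
`dimModulo`, `cyclo` are in `PA/ParityDefs.lean`.
-/

set_option autoImplicit false

namespace Pool.Agent.Work.MP_787500_nt.Parity

open NumberField Matrix

variable {G : Type*} [Group G] [TopologicalSpace G]
variable {E : Type*} [NormedField E]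
variable {n : ℕ}

/-- `x` is a cocycle of `G` that vanishes on `I`; for every index `w` its restriction to the subgroup
`D w` lies in `L w` and the restriction to `D w` of `x ∘ κ` is orthogonal to `L w` under the cup product
given by `b`. -/
def IsSelmerF (I : Set G) (χ : G → E) (κ : G → G) (ρ : G →* Matrix (Fin n) (Fin n) E)
    (b : Matrix (Fin n) (Fin n) E) {Φ : Type*} (D : Φ → Subgroup G)
    (L : ∀ w, Set (D w → Fin n → E)) (x : G → Fin n → E) : Prop :=
  IsCocycle ρ x ∧ (∀ σ ∈ I, x σ = 0) ∧ ∀ w, (fun σ : D w => x σ) ∈ L w ∧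
    IsPerp (fun σ : D w => χ σ) (fun σ : D w => ρ (κ σ)) b (L w) (fun σ : D w => x (κ σ))

/-- the Selmer cocycles, as a vector space -/
def selmerF (I : Set G) (χ : G → E) (κ : G → G) (ρ : G →* Matrix (Fin n) (Fin n) E)
    (b : Matrix (Fin n) (Fin n) E) {Φ : Type*} (D : Φ → Subgroup G)
    (L : ∀ w, Submodule E (D w → Fin n → E)) : Submodule E (G → Fin n → E) where
  carrier := {x | IsSelmerF I χ κ ρ b D (fun w => L w) x}
  add_mem' := fun {x y} hx hy => ⟨hx.1.add hy.1, fun σ hσ => by
    rw [Pi.add_apply, hx.2.1 σ hσ, hy.2.1 σ hσ, add_zero],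
    fun w => ⟨(L w).add_mem (hx.2.2 w).1 (hy.2.2 w).1, (hx.2.2 w).2.add (hy.2.2 w).2⟩⟩
  zero_mem' := ⟨IsCocycle.zero ρ, fun _ _ => rfl, fun w => ⟨(L w).zero_mem, IsPerp.zero _ _ _ _⟩⟩
  smul_mem' := fun a x hx => ⟨hx.1.smul a, fun σ hσ => by
    rw [Pi.smul_apply, hx.2.1 σ hσ, smul_zero],
    fun w => ⟨(L w).smul_mem a (hx.2.2 w).1, (hx.2.2 w).2.smul a⟩⟩

/-- the vectors fixed by all `A σ` -/
def fixedBy {G : Type*} (A : G → Matrix (Fin n) (Fin n) E) : Submodule E (Fin n → E) where
  carrier := {x | ∀ σ, A σ *ᵥ x = x}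
  add_mem' := fun {x y} hx hy σ => by rw [mulVec_add, hx σ, hy σ]
  zero_mem' := fun σ => mulVec_zero _
  smul_mem' := fun a x hx σ => by rw [mulVec_smul, hx σ]

/-- For every family of subspaces `L w` between the coboundaries and the cocycles of `D w`, the spaces
are finite dimensional, and the dimension of the Selmer group (Selmer cocycles modulo coboundaries)
plus the dimension of the fixed vectors of `G` has the same parity as the sum over `w` of the
dimensions of `L w` modulo coboundaries and of the fixed vectors of `D w`. -/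
def ParityFormula (I : Set G) (χ : G → E) (κ : G → G) (ρ : G →* Matrix (Fin n) (Fin n) E)
    (b : Matrix (Fin n) (Fin n) E) {Φ : Type*} [Fintype Φ] (D : Φ → Subgroup G) : Prop :=
  ∀ L : ∀ w, Submodule E (D w → Fin n → E),
    (∀ w, Between (coboundaries (fun σ : D w => ρ σ)) (L w) (cocycles (fun σ : D w => ρ σ))) →
    (∀ w, FiniteDimensional E (L w)) ∧ FiniteDimensional E (selmerF I χ κ ρ b D L) ∧
    coboundaries ρ ≤ selmerF I χ κ ρ b D L ∧
    Even (dimModulo (selmerF I χ κ ρ b D L) (coboundaries ρ) +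
      Module.finrank E (fixedBy (fun σ : G => ρ σ)) +
      ∑ w, (dimModulo (L w) (coboundaries (fun σ : D w => ρ σ)) +
        Module.finrank E (fixedBy (fun σ : D w => ρ σ))))

end Pool.Agent.Work.MP_787500_nt.Parity
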