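import Mathlib
import Pool.Agent.Work.MP_787500_nt.H10_CohDefs

/-!
Definitions used in the statement of the final theorem, besides those of `PA/ParityDefs.lean`,
`FinDefs.lean` and `FinDefs2.lean`.
-/

set_option autoImplicit false
set_option linter.unusedSectionVars false

namespace Pool.Agent.Work.MP_787500_nt.GP

open IsDedekindDomain NumberField

universe u

/-- the inertia groups at the primes that contain neither 2 nor an element of `T` -/
def inT (K : Type u) [Field K] (T : Finset ℕ) : Set (AbsGal K) :=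
  {σ | ∃ Q : Ideal (𝓞 (AlgebraicClosure K)), Q.IsPrime ∧ (2 : 𝓞 (AlgebraicClosure K)) ∉ Q ∧
    (∀ l ∈ T, (l : 𝓞 (AlgebraicClosure K)) ∉ Q) ∧ σ ∈ Q.inertia (AbsGal K)}

/-- the decomposition group of a prime of the ring of all algebraic integers -/
def stabD {K : Type u} [Field K] (Q : Ideal (𝓞 (AlgebraicClosure K))) : Subgroup (AbsGal K) where
  carrier := {g | ∀ x, x ∈ Q ↔ g • x ∈ Q}
  mul_mem' := by
    intro g h hg hh x
    rw [mul_smul, ← hg, ← hh]
  one_mem' := fun x => by rw [one_smul]
  inv_mem' := by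
    intro g hg x
    rw [hg (g⁻¹ • x), smul_inv_smul]

/-- `l` is an odd prime number, different from `q`, that splits in the quadratic field of
discriminant `-q` -/
def SplitPr (q l : ℕ) : Prop := l.Prime ∧ l ≠ 2 ∧ l ≠ q ∧ ∃ A : ℤ, (l : ℤ) ∣ A ^ 2 + q

/-- the local groups: the decomposition group at the place over 2 and the decomposition groups of the
primes `P l`, `l ∈ T` -/
noncomputable def DD {K : Type u} [Field K] [NumberField K] {v : HeightOneSpectrum (𝓞 K)}
    (ι : AlgebraicClosure K →ₐ[K] AlgebraicClosure (v.adicCompletion K)) {T : Finset ℕ}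
    (P : ℕ → Ideal (𝓞 (AlgebraicClosure K))) : Option T → Subgroup (AbsGal K)
  | none => decomp ι
  | some l => stabD (P l)

/-- the inertia group of `Q` acts by scalars, not all of them 1, and `det (1 - ρ g)` generates the
maximal ideal of the ring of integers of `E` for some `g` in the decomposition group of `Q` -/
structure TwistAt {K : Type u} [Field K] {E : Type*} [NormedField E] {n : ℕ}
    (ρ : AbsGal K →* Matrix (Fin n) (Fin n) E) (Q : Ideal (𝓞 (AlgebraicClosure K))) : Prop where
  scal : ∀ τ ∈ Q.inertia (AbsGal K), ∃ c : E, ρ τ = c • 1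
  ram : ∃ τ ∈ Q.inertia (AbsGal K), ρ τ ≠ 1
  unif : ∃ g ∈ stabD Q, (1 - ρ g).det ≠ 0 ∧ ∀ a : E, ‖a‖ < 1 → ‖a‖ ≤ ‖(1 - ρ g).det‖

end Pool.Agent.Work.MP_787500_nt.GP
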