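import Mathlib
import Pool.Agent.Work.MP_787500_nt.PA.Defs

/-!
Duality for finite modules over a group with local subgroups: working definitions (fixed, do not
change). All cochains are plain functions; `Sm1`, `Sm2` (from `PA/Defs.lean`) say that a function of one
or two variables is constant on the cosets of a member of the system.
-/

set_option autoImplicit false

namespace Pool.Agent.Work.MP_787500_nt.GP

open Pool.Agent.Work.MP_787500_nt.PA (TwoSys Sm1 Sm2 homs Coc Cob IsChar)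

/-- the group `ℚ_2 / ℤ_2` -/
def A0 : Type := ℚ_[2] ⧸ LinearMap.range (Algebra.linearMap ℤ_[2] ℚ_[2])

noncomputable instance : AddCommGroup A0 :=
  inferInstanceAs (AddCommGroup (ℚ_[2] ⧸ LinearMap.range (Algebra.linearMap ℤ_[2] ℚ_[2])))

noncomputable instance : Module ℤ_[2] A0 :=
  inferInstanceAs (Module ℤ_[2] (ℚ_[2] ⧸ LinearMap.range (Algebra.linearMap ℤ_[2] ℚ_[2])))

/-- the projection `ℚ_2 → ℚ_2 / ℤ_2` -/
noncomputable def pr0 : ℚ_[2] →ₗ[ℤ_[2]] A0 :=
  Submodule.mkQ (LinearMap.range (Algebra.linearMap ℤ_[2] ℚ_[2]))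

theorem pr0_surj : Function.Surjective pr0 := Submodule.mkQ_surjective _

theorem pr0_eq_zero {x : ℚ_[2]} : pr0 x = 0 ↔ ∃ a : ℤ_[2], (a : ℚ_[2]) = x := by
  have h : pr0 x = 0 ↔ x ∈ LinearMap.range (Algebra.linearMap ℤ_[2] ℚ_[2]) :=
    Submodule.Quotient.mk_eq_zero _
  rw [h, LinearMap.mem_range]
  rfl

/-- the element of order two -/
noncomputable def half : A0 := pr0 (1 / 2)

/-- the embedding of `ZMod 2` -/
noncomputable def hf (a : ZMod 2) : A0 := if a = 0 then 0 else half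

section cochains

variable {G : Type*} [Group G] {M : Type*} [AddCommGroup M]

/-- `ρ` is an action by additive maps -/
structure IsAct (ρ : G → M → M) : Prop where
  one : ∀ m, ρ 1 m = m
  mul : ∀ g h m, ρ (g * h) m = ρ g (ρ h m)
  add : ∀ g m m', ρ g (m + m') = ρ g m + ρ g m'

/-- some member of the system acts trivially -/
def Smooth (S : TwoSys G) (ρ : G → M → M) : Prop := ∃ W, S.mem W ∧ ∀ w ∈ W, ∀ m, ρ w m = m

/-- the coboundary of a 0-cochain -/
def d0 (ρ : G → M → M) (m : M) : G → M := fun a => ρ a m - m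

/-- the coboundary of a 1-cochain -/
def d1 (ρ : G → M → M) (x : G → M) : G → G → M := fun a b => x a + ρ a (x b) - x (a * b)

/-- the coboundary of a 2-cochain -/
def d2 (ρ : G → M → M) (f : G → G → M) : G → G → G → M :=
  fun a b c => ρ a (f b c) - f (a * b) c + f a (b * c) - f a b

/-- smooth 1-cocycles -/
def Z1 (S : TwoSys G) (ρ : G → M → M) (x : G → M) : Prop :=
  Sm1 S x ∧ ∀ a b, x (a * b) = x a + ρ a (x b)

/-- smooth 2-cocycles -/
def Z2 (S : TwoSys G) (ρ : G → M → M) (f : G → G → M) : Prop := Sm2 S f ∧ ∀ a b c, d2 ρ f a b c = 0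

/-- coboundaries of smooth 1-cochains -/
def B2 (S : TwoSys G) (ρ : G → M → M) (f : G → G → M) : Prop := ∃ x, Sm1 S x ∧ f = d1 ρ x

/-- `ℚ_2 / ℤ_2` twisted by the character `χ` -/
noncomputable def tw (χ : G → ℤ_[2]) : G → A0 → A0 := fun a t => χ a • t

end cochains

section cups

variable {G : Type*} [Group G] {M M' : Type*} [AddCommGroup M] [AddCommGroup M']

/-- cup product, degrees 1 and 1 -/
noncomputable def cup11 (ρ' : G → M' → M') (B : M →+ M' →+ A0) (x : G → M) (y : G → M') : G → G → A0 :=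
  fun a b => B (x a) (ρ' a (y b))

/-- cup product, degrees 2 and 1 -/
noncomputable def cup21 (ρ' : G → M' → M') (B : M →+ M' →+ A0) (F : G → G → M) (y : G → M') : G → G → G → A0 :=
  fun a b c => B (F a b) (ρ' (a * b) (y c))

/-- cup product, degrees 1 and 2 -/
noncomputable def cup12 (ρ' : G → M' → M') (B : M →+ M' →+ A0) (x : G → M) (F : G → G → M') : G → G → G → A0 :=
  fun a b c => B (x a) (ρ' a (F b c))

/-- cup product, degrees 0 and 1 -/
noncomputable def cup01 {G : Type*} (B : M →+ M' →+ A0) (z : M) (y : G → M') : G → A0 := fun a => B z (y a)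

/-- cup product, degrees 0 and 2 -/
noncomputable def cup02 {G : Type*} (B : M →+ M' →+ A0) (z : M) (F : G → G → M') : G → G → A0 :=
  fun a b => B z (F a b)

end cups

/-- Local hypotheses: `inv` is additive on cocycles with values in `A0` twisted by `χ` and kills
coboundaries; there are finitely many homomorphisms to `ZMod 2`, their cup product pairing is
nondegenerate, and a cocycle with values in `ZMod 2` with invariant 0 is a coboundary. -/
structure LocH {D : Type*} [Group D] (SD : TwoSys D) (χ : D → ℤ_[2]) (inv : (D → D → A0) → A0) :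
    Prop where
  char : IsChar SD χ
  add : ∀ f f', Z2 SD (tw χ) f → Z2 SD (tw χ) f' → inv (fun a b => f a b + f' a b) = inv f + inv f'
  cob : ∀ z, Sm1 SD z → inv (d1 (tw χ) z) = 0
  fin : FiniteDimensional (ZMod 2) (homs SD ⊤)
  nondeg : ∀ ψ ∈ homs SD ⊤, (∀ φ ∈ homs SD ⊤, inv (fun a b => hf (ψ a * φ b)) = 0) → ψ = 0
  one : ∀ f, Coc SD ⊤ f → inv (fun a b => hf (f a b)) = 0 → Cob SD ⊤ f

section glob

variable {G : Type*} [Group G] (S : TwoSys G) {I : Type*} [Fintype I] {D : I → Type*}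
  [∀ i, Group (D i)] (SD : ∀ i, TwoSys (D i)) (j : ∀ i, D i →* G) (χ : G → ℤ_[2])
  (inv : ∀ i, (D i → D i → A0) → A0)

/-- Global hypotheses. -/
structure GlobH : Prop where
  char : IsChar S χ
  jsm : ∀ i W, S.mem W → ∃ W', (SD i).mem W' ∧ ∀ w ∈ W', j i w ∈ W
  loc : ∀ i, LocH (SD i) (fun d => χ (j i d)) (inv i)
  fin : FiniteDimensional (ZMod 2) (homs S ⊤)
  inj : ∀ ω ∈ homs S ⊤, (∀ i d, ω (j i d) = 0) → ω = 0
  sha : ∀ f, Coc S ⊤ f → (∀ i, Cob (SD i) ⊤ (fun a b => f (j i a) (j i b))) → Cob S ⊤ f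
  recip : ∀ f, Z2 S (tw χ) f → ∑ i, inv i (fun a b => f (j i a) (j i b)) = 0
  mid : ∀ ψ : ∀ i, D i → ZMod 2, (∀ i, ψ i ∈ homs (SD i) ⊤) →
    (∀ ω ∈ homs S ⊤, ∑ i, inv i (fun a b => hf (ψ i a * ω (j i b))) = 0) →
    ∃ ω ∈ homs S ⊤, ∀ i d, ω (j i d) = ψ i d

/-- `tr` is a trace functional: on a pair `(d b, c)` with `c i - b|D i` a cocycle for all `i` it is the
sum of the invariants of `c i - b|D i`. -/
def IsTr (tr : ((G → G → G → A0) × (∀ i, D i → D i → A0)) →+ A0) : Prop :=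
  ∀ (b : G → G → A0) (c : ∀ i, D i → D i → A0), Sm2 S b →
    (∀ i, Z2 (SD i) (tw fun d => χ (j i d)) (fun u v => c i u v - b (j i u) (j i v))) →
    tr (d2 (tw χ) b, c) = ∑ i, inv i (fun u v => c i u v - b (j i u) (j i v))

variable {M M' : Type*} [AddCommGroup M] [AddCommGroup M']

/-- a perfect pair of smooth modules -/
structure Pair (ρ : G → M → M) (ρ' : G → M' → M') (B : M →+ M' →+ A0) : Prop where
  act : IsAct ρ
  act' : IsAct ρ'
  sm : Smooth S ρ
  sm' : Smooth S ρ'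
  eqv : ∀ g m m', B (ρ g m) (ρ' g m') = χ g • B m m'
  nd : ∀ m, (∀ m', B m m' = 0) → m = 0
  nd' : ∀ m', (∀ m, B m m' = 0) → m' = 0

/-- Duality, first form: a pair `(F, g)` with `d F = 0`, `d (g i) = F|D i` that is orthogonal to all
1-cocycles with values in `M'` is a coboundary `(d X, X|D i - d (Y i))`. -/
def PP (tr : ((G → G → G → A0) × (∀ i, D i → D i → A0)) →+ A0) (ρ : G → M → M) (ρ' : G → M' → M')
    (B : M →+ M' →+ A0) : Prop :=
  ∀ (F : G → G → M) (g : ∀ i, D i → M), Z2 S ρ F → (∀ i, Sm1 (SD i) (g i)) →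
    (∀ i a b, d1 (fun d => ρ (j i d)) (g i) a b = F (j i a) (j i b)) →
    (∀ x, Z1 S ρ' x → tr (cup21 ρ' B F x,
      fun i => cup11 (fun d => ρ' (j i d)) B (g i) (fun d => x (j i d))) = 0) →
    ∃ (X : G → M) (Y : I → M), Sm1 S X ∧ F = d1 ρ X ∧
      ∀ i d, g i d = X (j i d) - d0 (fun d => ρ (j i d)) (Y i) d

/-- Duality, second form: a 2-cocycle `F` with values in `M'` that is orthogonal to all pairs `(x, z)`,
`x` a 1-cocycle with values in `M`, `x|D i = d (z i)`, is a coboundary. -/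
def QQ (tr : ((G → G → G → A0) × (∀ i, D i → D i → A0)) →+ A0) (ρ : G → M → M) (ρ' : G → M' → M')
    (B : M →+ M' →+ A0) : Prop :=
  ∀ F : G → G → M', Z2 S ρ' F →
    (∀ (x : G → M) (z : I → M), Z1 S ρ x → (∀ i d, x (j i d) = d0 (fun d => ρ (j i d)) (z i) d) →
      tr (cup12 ρ' B x F, fun i => cup02 B (z i) (fun a b => F (j i a) (j i b))) = 0) →
    B2 S ρ' F

end glob

/-- A filtration of a pair `(M, M')`: `0 → ZMod 2 → M → Q → 0` (maps `e`, `p`) and dually
`0 → Q' → M' → ZMod 2 → 0` (maps `e'`, `p'`); `G` acts trivially on `ZMod 2`. -/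
structure Filt {G M M' Q Q' : Type*} [Group G] [AddCommGroup M] [AddCommGroup M'] [AddCommGroup Q]
    [AddCommGroup Q'] (ρ : G → M → M) (ρ' : G → M' → M') (B : M →+ M' →+ A0) (σ : G → Q → Q)
    (σ' : G → Q' → Q') (C : Q →+ Q' →+ A0) (e : ZMod 2 →+ M) (p : M →+ Q) (e' : Q' →+ M')
    (p' : M' →+ ZMod 2) : Prop where
  einj : Function.Injective e
  pe : ∀ a, p (e a) = 0
  ker : ∀ m, p m = 0 → ∃ a, m = e a
  psurj : Function.Surjective p
  einj' : Function.Injective e'
  pe' : ∀ a, p' (e' a) = 0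
  ker' : ∀ m, p' m = 0 → ∃ a, m = e' a
  psurj' : Function.Surjective p'
  eqv_e : ∀ g a, ρ g (e a) = e a
  eqv_p : ∀ g m, p (ρ g m) = σ g (p m)
  eqv_e' : ∀ g a, ρ' g (e' a) = e' (σ' g a)
  eqv_p' : ∀ g m, p' (ρ' g m) = p' m
  pair1 : ∀ a m, B (e a) m = hf (a * p' m)
  pair2 : ∀ m a, B m (e' a) = C (p m) a

section lemmas

variable {G : Type*} [Group G] {M : Type*} [AddCommGroup M] {ρ : G → M → M}

theorem IsAct.zero (h : IsAct ρ) (g : G) : ρ g 0 = 0 := by
  have := h.add g 0 0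
  rw [add_zero] at this
  exact left_eq_add.1 this

theorem IsAct.neg (h : IsAct ρ) (g : G) (m : M) : ρ g (-m) = -ρ g m := by
  have := h.add g m (-m)
  rw [add_neg_cancel, h.zero] at this
  exact (neg_eq_of_add_eq_zero_right this.symm).symm

theorem IsAct.sub (h : IsAct ρ) (g : G) (m m' : M) : ρ g (m - m') = ρ g m - ρ g m' := by
  rw [sub_eq_add_neg, h.add, h.neg, sub_eq_add_neg]

theorem IsAct.comp {D : Type*} [Group D] (h : IsAct ρ) (j : D →* G) :
    IsAct (fun d => ρ (j d)) :=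
  ⟨fun m => by rw [map_one, h.one], fun g k m => by rw [map_mul, h.mul], fun g => h.add _⟩

end lemmas

end Pool.Agent.Work.MP_787500_nt.GP
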