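import Mathlib
import Pool.Agent.Work.MP_787500_nt.GP.Defs

/-!
# Module T01_A0 (size S-M): the group `ℚ_2 / ℤ_2`

Everything from `pr0_surj`, `pr0_eq_zero` (an element `x : ℚ_[2]` is in `ℤ_[2]` iff `‖x‖ ≤ 1`).
* `half_ne`: `‖1 / 2‖ = 2`. `two_half`: `1 / 2 + 1 / 2 = 1`.
* `eq_hf`: `t = pr0 x`, `2 x = a` integral, `a = 2 b` or `a = 2 b + 1`, so `x = b` or `x = b + 1 / 2`.
* `smul_hf`: `u = 1 + 2 b`, `u * (1 / 2) = 1 / 2 + b`.
* `a0_div`: `pr0 (x / 2)`; `a0_div_pow`: `pr0 (x / 2 ^ k)`.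
* `a0_tors`: `2 ^ k * x` is integral for large `k` (`Padic` norm of `2 ^ k x` is `2 ^ (-k) ‖x‖`).
* `a0_smul`: with `k` from `a0_tors`, `u = 1 + 2 ^ k b`.
* `a0_killed`: elements killed by `2 ^ k` (finite version of `a0_tors`, for a finite set): take the
  maximum of the exponents.
-/

set_option autoImplicit false
set_option linter.unusedSectionVars false

namespace Pool.Agent.Work.MP_787500_nt.GP

open Pool.Agent.Work.MP_787500_nt.PA (TwoSys Sm1 Sm2 homs Coc Cob IsChar)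

private theorem t01_norm_two : ‖(2 : ℚ_[2])‖ = 2⁻¹ := by
  have := Padic.norm_p (p := 2)
  simpa using this

private theorem t01_cases (a : ZMod 2) : a = 0 ∨ a = 1 := by
  revert a
  decide

theorem half_ne : half ≠ 0 := by
  intro h
  obtain ⟨a, ha⟩ := pr0_eq_zero.1 h
  have h2 : ‖(a : ℚ_[2])‖ ≤ 1 := a.2
  rw [ha, norm_div, norm_one, t01_norm_two] at h2
  norm_num at h2

theorem two_half : half + half = 0 := by
  unfold half
  rw [← map_add, pr0_eq_zero]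
  refine ⟨1, ?_⟩
  rw [PadicInt.coe_one]
  norm_num

theorem hf_zero : hf 0 = 0 := by
  simp [hf]

theorem hf_one : hf 1 = half := by
  simp [hf]

theorem hf_add (a b : ZMod 2) : hf (a + b) = hf a + hf b := by
  rcases t01_cases a with rfl | rfl <;> rcases t01_cases b with rfl | rfl
  · rw [add_zero, hf_zero, add_zero]
  · rw [zero_add, hf_zero, zero_add]
  · rw [add_zero, hf_zero, add_zero]
  · have : (1 : ZMod 2) + 1 = 0 := by decide
    rw [this, hf_zero, hf_one, two_half]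

theorem hf_inj : Function.Injective hf := by
  intro a b hab
  rcases t01_cases a with rfl | rfl <;> rcases t01_cases b with rfl | rfl
  · rfl
  · rw [hf_zero, hf_one] at hab
    exact absurd hab.symm half_ne
  · rw [hf_zero, hf_one] at hab
    exact absurd hab half_ne
  · rfl

theorem hf_two (a : ZMod 2) : hf a + hf a = 0 := by
  rw [← hf_add, CharTwo.add_self_eq_zero, hf_zero]

theorem hf_neg (a : ZMod 2) : -hf a = hf a :=
  neg_eq_of_add_eq_zero_left (hf_two a)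

private theorem t01_two (a : ℤ_[2]) : ∃ b : ℤ_[2], a = 2 * b ∨ a = 2 * b + 1 := by
  obtain ⟨n, hn, hm⟩ := PadicInt.exists_mem_range (p := 2) a
  rw [PadicInt.maximalIdeal_eq_span_p, Ideal.mem_span_singleton] at hm
  obtain ⟨b, hb⟩ := hm
  refine ⟨b, ?_⟩
  have e2 : ((2 : ℕ) : ℤ_[2]) = 2 := by norm_num
  rw [e2] at hb
  have h01 : n = 0 ∨ n = 1 := by omega
  rcases h01 with rfl | rfl
  · left
    rw [Nat.cast_zero, sub_zero] at hb
    exact hb
  · right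
    rw [Nat.cast_one, sub_eq_iff_eq_add] at hb
    exact hb

theorem eq_hf {t : A0} (h : t + t = 0) : ∃ a, t = hf a := by
  obtain ⟨x, rfl⟩ := pr0_surj t
  rw [← map_add, pr0_eq_zero] at h
  obtain ⟨a, ha⟩ := h
  obtain ⟨b, hb | hb⟩ := t01_two a
  · refine ⟨0, ?_⟩
    rw [hf_zero, pr0_eq_zero]
    refine ⟨b, ?_⟩
    rw [hb, PadicInt.coe_mul] at ha
    have e2 : ((2 : ℤ_[2]) : ℚ_[2]) = 2 := rfl
    rw [e2] at ha
    linear_combination ha / 2
  · refine ⟨1, ?_⟩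
    rw [hf_one, half, ← sub_eq_zero, ← map_sub, pr0_eq_zero]
    refine ⟨b, ?_⟩
    rw [hb, PadicInt.coe_add, PadicInt.coe_mul, PadicInt.coe_one] at ha
    have e2 : ((2 : ℤ_[2]) : ℚ_[2]) = 2 := rfl
    rw [e2] at ha
    linear_combination ha / 2

private theorem t01_smul (t : A0) (k : ℕ) (h : (2 ^ k) • t = 0) (u : ℤ_[2])
    (hu : (2 : ℤ_[2]) ^ k ∣ u - 1) : u • t = t := by
  obtain ⟨b, hb⟩ := hu
  have e : u = 1 + b * (2 : ℤ_[2]) ^ k := by linear_combination hb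
  rw [e, add_smul, one_smul, mul_smul]
  have e2 : ((2 : ℤ_[2]) ^ k) • t = (2 ^ k) • t := by
    have : (2 : ℤ_[2]) ^ k = ((2 ^ k : ℕ) : ℤ_[2]) := by push_cast; rfl
    rw [this, Nat.cast_smul_eq_nsmul]
  rw [e2, h, smul_zero, add_zero]

theorem smul_hf {u : ℤ_[2]} (hu : (2 : ℤ_[2]) ∣ u - 1) (a : ZMod 2) : u • hf a = hf a := by
  refine t01_smul (hf a) 1 ?_ u (by rwa [pow_one])
  rw [pow_one, two_nsmul, hf_two]

theorem a0_div (t : A0) : ∃ s : A0, s + s = t := by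
  obtain ⟨x, rfl⟩ := pr0_surj t
  refine ⟨pr0 (x / 2), ?_⟩
  rw [← map_add]
  congr 1
  ring

theorem a0_div_pow (k : ℕ) (t : A0) : ∃ s : A0, (2 ^ k) • s = t := by
  obtain ⟨x, rfl⟩ := pr0_surj t
  refine ⟨pr0 (x / 2 ^ k), ?_⟩
  rw [← map_nsmul]
  congr 1
  rw [nsmul_eq_mul]
  push_cast
  field_simp

theorem a0_tors (t : A0) : ∃ k : ℕ, (2 ^ k) • t = 0 := by
  obtain ⟨x, rfl⟩ := pr0_surj t
  obtain ⟨k, hk⟩ := pow_unbounded_of_one_lt ‖x‖ (by norm_num : (1 : ℝ) < 2)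
  refine ⟨k, ?_⟩
  rw [← map_nsmul, pr0_eq_zero, nsmul_eq_mul]
  have h1 : ‖((2 ^ k : ℕ) : ℚ_[2]) * x‖ ≤ 1 := by
    rw [norm_mul]
    push_cast
    rw [norm_pow, t01_norm_two, inv_pow, inv_mul_le_one₀ (by positivity)]
    exact hk.le
  exact ⟨⟨_, h1⟩, rfl⟩

theorem a0_smul (t : A0) : ∃ k : ℕ, ∀ u : ℤ_[2], (2 : ℤ_[2]) ^ k ∣ u - 1 → u • t = t := by
  obtain ⟨k, hk⟩ := a0_tors t
  exact ⟨k, t01_smul t k hk⟩

theorem a0_killed {X : Type*} [Finite X] (f : X → A0) :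
    ∃ k : ℕ, (∀ x, (2 ^ k) • f x = 0) ∧
      ∀ u : ℤ_[2], (2 : ℤ_[2]) ^ k ∣ u - 1 → ∀ x, u • f x = f x := by
  have := Fintype.ofFinite X
  choose k hk using fun x => a0_tors (f x)
  have h1 : ∀ x, (2 ^ (Finset.univ.sup k)) • f x = 0 := by
    intro x
    have hle : k x ≤ Finset.univ.sup k := Finset.le_sup (Finset.mem_univ x)
    obtain ⟨d, hd⟩ := Nat.exists_eq_add_of_le hle
    rw [hd, pow_add, mul_comm, mul_smul, hk x, smul_zero]
  exact ⟨_, h1, fun u hu x => t01_smul (f x) _ (h1 x) u hu⟩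

end Pool.Agent.Work.MP_787500_nt.GP
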