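import Mathlib
import Pool.Agent.Work.MP_787500_nt.GP.T01_A0

/-!
# Module T03_COCH (size M): elementary facts on smooth cochains

* `sm1_fin`: a smooth function has finitely many values: `W` has finite index (`S.index`), `f` factors
  through `G ⧸ W`.
* `sm1_left`: for a smooth `f` there is `W` in the system with also `f (w * g) = f g` (the same `W`:
  `w * g = g * (g⁻¹ * w * g)`, `W` normal).
* `isAct_tw`: `χ (g h) = χ g χ h`, `χ 1 = 1`.
* `d1_sm`: `d1 ρ x (g w) (h w') = x (g w) + ρ g (ρ w (x (h w'))) - x (g h (h⁻¹ w h) w')`, with `W` inside the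
  subgroups for `x` and for the action.
* `d1_tw_sm`: same, with `χ w • t = t` for the finitely many values `t` of `x`: `a0_killed` gives `k`,
  `IsChar.cont` gives `W` with `2 ^ k ∣ χ w - χ 1`.
* `d1_Z2`, `d1_tw_Z2`: `d2 (d1 x) = 0` (expand with `IsAct`).
* `Z2.comp`: restriction of cocycles along `j` (`hj` as in `GlobH.jsm`).
-/

set_option autoImplicit false
set_option linter.unusedSectionVars false

namespace Pool.Agent.Work.MP_787500_nt.GP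

open Pool.Agent.Work.MP_787500_nt.PA (TwoSys Sm1 Sm2 homs Coc Cob IsChar)

variable {G : Type*} [Group G] {S : TwoSys G} {M : Type*} [AddCommGroup M] {ρ : G → M → M}
  {χ : G → ℤ_[2]}

theorem sm1_fin {A : Type*} {x : G → A} (h : Sm1 S x) : (Set.range x).Finite := by
  obtain ⟨W, hW, hx⟩ := h
  obtain ⟨k, hk⟩ := S.index hW
  have hfi : W.FiniteIndex := ⟨by rw [hk]; positivity⟩
  have hfin : Finite (G ⧸ W) := Subgroup.finite_quotient_of_finiteIndex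
  refine (Set.finite_range (fun q : G ⧸ W => x q.out)).subset ?_
  rintro _ ⟨g, rfl⟩
  refine ⟨(g : G ⧸ W), ?_⟩
  obtain ⟨w, hw⟩ := QuotientGroup.mk_out_eq_mul W g
  show x ((g : G ⧸ W).out) = x g
  rw [hw, hx g w w.2]

theorem sm1_left {A : Type*} {x : G → A} (h : Sm1 S x) :
    ∃ W, S.mem W ∧ ∀ g, ∀ w ∈ W, x (g * w) = x g ∧ x (w * g) = x g := by
  obtain ⟨W, hW, hx⟩ := h
  refine ⟨W, hW, fun g w hw => ⟨hx g w hw, ?_⟩⟩
  have h1 : g⁻¹ * w * g ∈ W := by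
    have := (S.normal hW).conj_mem w hw g⁻¹
    rwa [inv_inv] at this
  have e : w * g = g * (g⁻¹ * w * g) := by group
  rw [e, hx g _ h1]

theorem sm2_pair {A B C : Type*} {x : G → A} {y : G → B} (hx : Sm1 S x) (hy : Sm1 S y)
    (F : A → B → C) : Sm2 S (fun g h => F (x g) (y h)) := by
  obtain ⟨W, hW, hx⟩ := hx
  obtain ⟨W', hW', hy⟩ := hy
  refine ⟨W ⊓ W', S.inf hW hW', fun g h w hw w' hw' => ?_⟩
  show F (x (g * w)) (y (h * w')) = F (x g) (y h)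
  rw [hx g w hw.1, hy h w' hw'.2]

theorem isAct_tw (h : IsChar S χ) : IsAct (tw χ) where
  one m := by
    show χ 1 • m = m
    rw [h.one, one_smul]
  mul a b m := by
    show χ (a * b) • m = χ a • χ b • m
    rw [h.mul, mul_smul]
  add a m m' := smul_add _ _ _

private theorem t03_sm (hρ : IsAct ρ) {x : G → M} {W : Subgroup G} (hW : S.mem W)
    (hx : ∀ g, ∀ w ∈ W, x (g * w) = x g) (ha : ∀ w ∈ W, ∀ h, ρ w (x h) = x h) :
    Sm2 S (d1 ρ x) := by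
  refine ⟨W, hW, fun g h w hw w' hw' => ?_⟩
  have h1 : h⁻¹ * w * h ∈ W := by
    have := (S.normal hW).conj_mem w hw h⁻¹
    rwa [inv_inv] at this
  have e : g * w * (h * w') = g * h * (h⁻¹ * w * h * w') := by group
  show x (g * w) + ρ (g * w) (x (h * w')) - x (g * w * (h * w')) = x g + ρ g (x h) - x (g * h)
  rw [e, hx g w hw, hx h w' hw', hx (g * h) _ (W.mul_mem h1 hw'), hρ.mul, ha w hw h]

theorem d1_sm (hρ : IsAct ρ) (hs : Smooth S ρ) {x : G → M} (hx : Sm1 S x) : Sm2 S (d1 ρ x) := by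
  obtain ⟨W, hW, hx⟩ := hx
  obtain ⟨W', hW', hs⟩ := hs
  exact t03_sm hρ (S.inf hW hW') (fun g w hw => hx g w hw.1) (fun w hw h => hs w hw.2 _)

theorem d1_tw_sm (h : IsChar S χ) {x : G → A0} (hx : Sm1 S x) : Sm2 S (d1 (tw χ) x) := by
  have hfin := sm1_fin hx
  have : Finite (Set.range x) := hfin
  obtain ⟨k, -, hk⟩ := a0_killed (fun t : Set.range x => (t : A0))
  obtain ⟨W, hW, hx⟩ := hx
  obtain ⟨W', hW', hs⟩ := h.cont k
  refine t03_sm (isAct_tw h) (S.inf hW hW') (fun g w hw => hx g w hw.1) (fun w hw g => ?_)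
  have h1 := hs 1 w hw.2
  rw [one_mul, h.one] at h1
  exact hk (χ w) h1 ⟨x g, ⟨g, rfl⟩⟩

theorem d2_d1 (hρ : IsAct ρ) (x : G → M) (a b c : G) : d2 ρ (d1 ρ x) a b c = 0 := by
  unfold d2 d1
  rw [hρ.sub, hρ.add, hρ.mul, mul_assoc]
  abel

theorem d1_Z2 (hρ : IsAct ρ) (hs : Smooth S ρ) {x : G → M} (hx : Sm1 S x) : Z2 S ρ (d1 ρ x) :=
  ⟨d1_sm hρ hs hx, d2_d1 hρ x⟩

theorem d1_tw_Z2 (h : IsChar S χ) {x : G → A0} (hx : Sm1 S x) : Z2 S (tw χ) (d1 (tw χ) x) :=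
  ⟨d1_tw_sm h hx, d2_d1 (isAct_tw h) x⟩

private theorem t03_sm1_op {A B C : Type*} {x : G → A} {y : G → B} (hx : Sm1 S x) (hy : Sm1 S y)
    (F : A → B → C) : Sm1 S (fun g => F (x g) (y g)) := by
  obtain ⟨W, hW, hx⟩ := hx
  obtain ⟨W', hW', hy⟩ := hy
  refine ⟨W ⊓ W', S.inf hW hW', fun g w hw => ?_⟩
  show F (x (g * w)) (y (g * w)) = F (x g) (y g)
  rw [hx g w hw.1, hy g w hw.2]

private theorem t03_sm2_op {A B C : Type*} {x : G → G → A} {y : G → G → B} (hx : Sm2 S x)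
    (hy : Sm2 S y) (F : A → B → C) : Sm2 S (fun g h => F (x g h) (y g h)) := by
  obtain ⟨W, hW, hx⟩ := hx
  obtain ⟨W', hW', hy⟩ := hy
  refine ⟨W ⊓ W', S.inf hW hW', fun g h w hw w' hw' => ?_⟩
  show F (x (g * w) (h * w')) (y (g * w) (h * w')) = F (x g h) (y g h)
  rw [hx g h w hw.1 w' hw'.1, hy g h w hw.2 w' hw'.2]

theorem Z2.add (hρ : IsAct ρ) {f f' : G → G → M} (h : Z2 S ρ f) (h' : Z2 S ρ f') :
    Z2 S ρ (fun a b => f a b + f' a b) := by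
  refine ⟨t03_sm2_op h.1 h'.1 (fun a b => a + b), fun a b c => ?_⟩
  have h1 := h.2 a b c
  have h2 := h'.2 a b c
  unfold d2 at h1 h2 ⊢
  rw [hρ.add]
  beta_reduce
  calc _ = (ρ a (f b c) - f (a * b) c + f a (b * c) - f a b) +
      (ρ a (f' b c) - f' (a * b) c + f' a (b * c) - f' a b) := by abel
    _ = 0 := by rw [h1, h2, add_zero]

theorem Z2.neg (hρ : IsAct ρ) {f : G → G → M} (h : Z2 S ρ f) : Z2 S ρ (fun a b => -f a b) := by
  refine ⟨t03_sm2_op h.1 h.1 (fun a _ => -a), fun a b c => ?_⟩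
  have h1 := h.2 a b c
  unfold d2 at h1 ⊢
  rw [hρ.neg]
  beta_reduce
  calc _ = -(ρ a (f b c) - f (a * b) c + f a (b * c) - f a b) := by abel
    _ = 0 := by rw [h1, neg_zero]

theorem Z1.add (hρ : IsAct ρ) {x x' : G → M} (h : Z1 S ρ x) (h' : Z1 S ρ x') :
    Z1 S ρ (fun a => x a + x' a) := by
  refine ⟨t03_sm1_op h.1 h'.1 (fun a b => a + b), fun a b => ?_⟩
  beta_reduce
  rw [h.2, h'.2, hρ.add]
  abel

theorem Z1.neg (hρ : IsAct ρ) {x : G → M} (h : Z1 S ρ x) : Z1 S ρ (fun a => -x a) := by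
  refine ⟨t03_sm1_op h.1 h.1 (fun a _ => -a), fun a b => ?_⟩
  beta_reduce
  rw [h.2, hρ.neg]
  abel

theorem d0_Z1 (hρ : IsAct ρ) (hs : Smooth S ρ) (m : M) : Z1 S ρ (d0 ρ m) := by
  obtain ⟨W, hW, hs⟩ := hs
  refine ⟨⟨W, hW, fun g w hw => ?_⟩, fun a b => ?_⟩
  · show ρ (g * w) m - m = ρ g m - m
    rw [hρ.mul, hs w hw]
  · show ρ (a * b) m - m = ρ a m - m + ρ a (ρ b m - m)
    rw [hρ.mul, hρ.sub]
    abel

section comp

variable {D : Type*} [Group D] {SD : TwoSys D} {j : D →* G}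

theorem Sm1.comp (hj : ∀ W, S.mem W → ∃ W', SD.mem W' ∧ ∀ w ∈ W', j w ∈ W) {A : Type*} {x : G → A}
    (h : Sm1 S x) : Sm1 SD (fun d => x (j d)) := by
  obtain ⟨W, hW, hx⟩ := h
  obtain ⟨W', hW', hj⟩ := hj W hW
  refine ⟨W', hW', fun g w hw => ?_⟩
  show x (j (g * w)) = x (j g)
  rw [map_mul, hx _ _ (hj w hw)]

theorem Sm2.comp (hj : ∀ W, S.mem W → ∃ W', SD.mem W' ∧ ∀ w ∈ W', j w ∈ W) {A : Type*}
    {x : G → G → A} (h : Sm2 S x) : Sm2 SD (fun a b => x (j a) (j b)) := by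
  obtain ⟨W, hW, hx⟩ := h
  obtain ⟨W', hW', hj⟩ := hj W hW
  refine ⟨W', hW', fun g h w hw w' hw' => ?_⟩
  show x (j (g * w)) (j (h * w')) = x (j g) (j h)
  rw [map_mul, map_mul, hx _ _ _ (hj w hw) _ (hj w' hw')]

theorem Z2.comp (hj : ∀ W, S.mem W → ∃ W', SD.mem W' ∧ ∀ w ∈ W', j w ∈ W) {f : G → G → M}
    (h : Z2 S ρ f) : Z2 SD (fun d => ρ (j d)) (fun a b => f (j a) (j b)) := by
  refine ⟨Sm2.comp hj h.1, fun a b c => ?_⟩
  have h1 := h.2 (j a) (j b) (j c)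
  unfold d2 at h1 ⊢
  beta_reduce
  rw [map_mul, map_mul]
  exact h1

theorem Z1.comp (hj : ∀ W, S.mem W → ∃ W', SD.mem W' ∧ ∀ w ∈ W', j w ∈ W) {x : G → M}
    (h : Z1 S ρ x) : Z1 SD (fun d => ρ (j d)) (fun a => x (j a)) := by
  refine ⟨Sm1.comp hj h.1, fun a b => ?_⟩
  beta_reduce
  rw [map_mul]
  exact h.2 _ _

theorem Smooth.comp (hj : ∀ W, S.mem W → ∃ W', SD.mem W' ∧ ∀ w ∈ W', j w ∈ W)
    (h : Smooth S ρ) : Smooth SD (fun d => ρ (j d)) := by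
  obtain ⟨W, hW, hx⟩ := h
  obtain ⟨W', hW', hj⟩ := hj W hW
  exact ⟨W', hW', fun w hw m => hx _ (hj w hw) m⟩

end comp

end Pool.Agent.Work.MP_787500_nt.GP
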