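import Mathlib
import Pool.Agent.Work.MP_787500_nt.GP.FDefs
import Pool.Agent.Work.MP_787500_nt.Gn.SmallX

/-!
From finite modules to vector spaces over a 2-adic field: definitions (fixed, do not change).
-/

set_option autoImplicit false
set_option linter.unusedSectionVars false

namespace Pool.Agent.Work.MP_787500_nt.GP

open Matrix
open Pool.Agent.Work.MP_787500_nt.PA (TwoSys Sm1 Sm2 homs Coc Cob IsChar toE)

section ring

variable (E : Type*) [NormedField E] [NormedAlgebra ℚ_[2] E]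

/-- the ring of integers of `E` -/
def OE : Subring E where
  carrier := {x | ‖x‖ ≤ 1}
  mul_mem' := fun {x y} hx hy => by
    show ‖x * y‖ ≤ 1
    rw [norm_mul]
    exact mul_le_one₀ hx (norm_nonneg _) hy
  one_mem' := by simp
  add_mem' := fun {x y} hx hy => by
    have := Gn.ultra 2 E
    exact (IsUltrametricDist.norm_add_le_max x y).trans (max_le hx hy)
  zero_mem' := by simp
  neg_mem' := fun {x} hx => by
    show ‖-x‖ ≤ 1
    rw [norm_neg]
    exact hx

end ring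

variable {E : Type*} [NormedField E] [NormedAlgebra ℚ_[2] E] {n : ℕ}

theorem mem_OE {x : E} : x ∈ OE E ↔ ‖x‖ ≤ 1 := Iff.rfl

/-- the bilinear form with matrix `b` -/
def bil (b : Matrix (Fin n) (Fin n) E) (x y : Fin n → E) : E := x ⬝ᵥ (b *ᵥ y)

/-- `l` is a uniformizer of `E`, `t` a functional such that `O` is its own dual for the pairing
`t (x y)`, and `T` is a lattice in `E ^ n` which is its own dual for the symmetric form `b`. -/
structure Lat (b : Matrix (Fin n) (Fin n) E) (l : OE E) (t : E →ₗ[ℚ_[2]] ℚ_[2])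
    (T : Submodule (OE E) (Fin n → E)) : Prop where
  lne : (l : E) ≠ 0
  llt : ‖(l : E)‖ < 1
  lmax : ∀ x : E, ‖x‖ < 1 → ‖x‖ ≤ ‖(l : E)‖
  tint : ∀ x : E, ‖x‖ ≤ 1 → ‖t x‖ ≤ 1
  tdual : ∀ x : E, (∀ a : E, ‖a‖ ≤ 1 → ‖t (a * x)‖ ≤ 1) → ‖x‖ ≤ 1
  trep : ∀ f : E →ₗ[ℚ_[2]] ℚ_[2], ∃ a : E, ∀ x, f x = t (a * x)
  symm : bᵀ = b
  dual : ∀ x, x ∈ T ↔ ∀ y ∈ T, ‖bil b x y‖ ≤ 1
  bdd : ∃ R : ℝ, ∀ x ∈ T, ‖x‖ ≤ R
  opn : ∃ r : ℝ, 0 < r ∧ ∀ x : Fin n → E, ‖x‖ < r → x ∈ T

/-- `E ^ n` modulo the lattice `T` -/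
abbrev Wq (T : Submodule (OE E) (Fin n → E)) : Type _ := (Fin n → E) ⧸ T

/-- the class of a vector -/
def mq (T : Submodule (OE E) (Fin n → E)) (x : Fin n → E) : Wq T := Submodule.Quotient.mk x

/-- a chosen lift -/
noncomputable def lft {T : Submodule (OE E) (Fin n → E)} (q : Wq T) : Fin n → E :=
  Function.surjInv (Submodule.Quotient.mk_surjective T) q

theorem mq_lft {T : Submodule (OE E) (Fin n → E)} (q : Wq T) : mq T (lft q) = q :=
  Function.surjInv_eq _ q

theorem mq_eq {T : Submodule (OE E) (Fin n → E)} {x y : Fin n → E} :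
    mq T x = mq T y ↔ x - y ∈ T := Submodule.Quotient.eq T

theorem mq_eq_zero {T : Submodule (OE E) (Fin n → E)} {x : Fin n → E} :
    mq T x = 0 ↔ x ∈ T := Submodule.Quotient.mk_eq_zero T

theorem mq_add {T : Submodule (OE E) (Fin n → E)} (x y : Fin n → E) :
    mq T (x + y) = mq T x + mq T y := rfl

theorem mq_sub {T : Submodule (OE E) (Fin n → E)} (x y : Fin n → E) :
    mq T (x - y) = mq T x - mq T y := rfl

theorem mq_smul {T : Submodule (OE E) (Fin n → E)} (a : OE E) (x : Fin n → E) :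
    mq T ((a : E) • x) = a • mq T x := rfl

/-- the action of a matrix on `E ^ n` modulo `T` -/
noncomputable def actQ (T : Submodule (OE E) (Fin n → E)) (A : Matrix (Fin n) (Fin n) E)
    (q : Wq T) : Wq T := mq T (A *ᵥ lft q)

theorem actQ_mq {T : Submodule (OE E) (Fin n → E)} {A : Matrix (Fin n) (Fin n) E}
    (hA : ∀ x ∈ T, A *ᵥ x ∈ T) (x : Fin n → E) : actQ T A (mq T x) = mq T (A *ᵥ x) := by
  rw [actQ, mq_eq, ← mulVec_sub]
  exact hA _ (mq_eq.1 (mq_lft _))

/-- the elements killed by `l ^ N` -/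
abbrev MN (T : Submodule (OE E) (Fin n → E)) (l : OE E) (N : ℕ) : Type _ :=
  ↥(Submodule.torsionBy (OE E) (Wq T) (l ^ N))

theorem MN.mem {T : Submodule (OE E) (Fin n → E)} {l : OE E} {N : ℕ} (m : MN T l N) :
    l ^ N • (m : Wq T) = 0 := m.2

theorem MN.lft_mem {T : Submodule (OE E) (Fin n → E)} {l : OE E} {N : ℕ} (m : MN T l N) :
    (l : E) ^ N • lft (m : Wq T) ∈ T := by
  have h := m.2
  rw [Submodule.mem_torsionBy_iff] at h
  have h1 : l ^ N • mq T (lft (m : Wq T)) = 0 := by rw [mq_lft]; exact h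
  rw [← mq_smul, mq_eq_zero] at h1
  simpa using h1

/-- the action on `MN T l N` of a family of matrices that preserve `T` -/
noncomputable def actN {X : Type*} {T : Submodule (OE E) (Fin n → E)} (l : OE E) (N : ℕ)
    (ρ : X → Matrix (Fin n) (Fin n) E) (hst : ∀ d, ∀ x ∈ T, ρ d *ᵥ x ∈ T) (d : X)
    (m : MN T l N) : MN T l N :=
  ⟨actQ T (ρ d) m, by
    rw [Submodule.mem_torsionBy_iff, actQ, ← mq_smul, mq_eq_zero, ← mulVec_smul]
    refine hst d _ ?_
    have := m.lft_mem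
    simpa using this⟩

theorem coe_actN {X : Type*} {T : Submodule (OE E) (Fin n → E)} (l : OE E) (N : ℕ)
    (ρ : X → Matrix (Fin n) (Fin n) E) (hst : ∀ d, ∀ x ∈ T, ρ d *ᵥ x ∈ T) (d : X)
    (m : MN T l N) : (actN l N ρ hst d m : Wq T) = actQ T (ρ d) m := rfl

section pairing

variable {b : Matrix (Fin n) (Fin n) E} {l : OE E} {t : E →ₗ[ℚ_[2]] ℚ_[2]}
  {T : Submodule (OE E) (Fin n → E)}

theorem bil_add_left (x x' y : Fin n → E) : bil b (x + x') y = bil b x y + bil b x' y := by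
  simp only [bil, add_dotProduct]

theorem bil_add_right (x y y' : Fin n → E) : bil b x (y + y') = bil b x y + bil b x y' := by
  simp only [bil, mulVec_add, dotProduct_add]

theorem bil_sub_left (x x' y : Fin n → E) : bil b (x - x') y = bil b x y - bil b x' y := by
  simp only [bil, sub_dotProduct]

theorem bil_sub_right (x y y' : Fin n → E) : bil b x (y - y') = bil b x y - bil b x y' := by
  simp only [bil, mulVec_sub, dotProduct_sub]

theorem bil_smul_left (a : E) (x y : Fin n → E) : bil b (a • x) y = a * bil b x y := by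
  simp only [bil, smul_dotProduct, smul_eq_mul]

theorem bil_smul_right (a : E) (x y : Fin n → E) : bil b x (a • y) = a * bil b x y := by
  simp only [bil, mulVec_smul, dotProduct_smul, smul_eq_mul]

theorem bil_symm (hb : bᵀ = b) (x y : Fin n → E) : bil b x y = bil b y x := by
  rw [bil, bil, Matrix.dotProduct_mulVec, ← Matrix.mulVec_transpose, hb, dotProduct_comm]

theorem pr0_zero_of_norm {x : ℚ_[2]} (h : ‖x‖ ≤ 1) : pr0 x = 0 := pr0_eq_zero.2 ⟨⟨x, h⟩, rfl⟩

/-- the value of the pairing only depends on the classes -/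
theorem pair_val (h : Lat b l t T) (N : ℕ) {x x' y y' : Fin n → E} (hx : x - x' ∈ T)
    (hy : y - y' ∈ T) (hx1 : (l : E) ^ N • x ∈ T) (hy1 : (l : E) ^ N • y' ∈ T) :
    pr0 (t ((l : E) ^ N * bil b x y)) = pr0 (t ((l : E) ^ N * bil b x' y')) := by
  have h1 : (l : E) ^ N * bil b x y - (l : E) ^ N * bil b x' y' =
      bil b ((l : E) ^ N • x) (y - y') + bil b (x - x') ((l : E) ^ N • y') := by
    rw [bil_smul_left, bil_smul_right, bil_sub_left, bil_sub_right]
    ring
  rw [← sub_eq_zero, ← map_sub, ← map_sub, h1]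
  refine pr0_zero_of_norm (h.tint _ ?_)
  have := Gn.ultra 2 E
  exact (IsUltrametricDist.norm_add_le_max _ _).trans
    (max_le ((h.dual _).1 hx1 _ hy) ((h.dual _).1 hx _ hy1))

/-- the pairing on `MN T l N`: `(x, y) ↦ t (l ^ N b (x, y))` -/
noncomputable def bN (h : Lat b l t T) (N : ℕ) : MN T l N →+ MN T l N →+ A0 :=
  AddMonoidHom.mk' (fun x => AddMonoidHom.mk'
    (fun y => pr0 (t ((l : E) ^ N * bil b (lft (x : Wq T)) (lft (y : Wq T)))))
    (fun y y' => by
      have e : pr0 (t ((l : E) ^ N * bil b (lft (x : Wq T)) (lft ((y + y' : MN T l N) : Wq T)))) =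
          pr0 (t ((l : E) ^ N * bil b (lft (x : Wq T)) (lft (y : Wq T) + lft (y' : Wq T)))) := by
        refine pair_val h N (by rw [sub_self]; exact T.zero_mem) ?_ x.lft_mem ?_
        · rw [← mq_eq, mq_lft, mq_add, mq_lft, mq_lft]
          rfl
        · rw [smul_add]
          exact T.add_mem y.lft_mem y'.lft_mem
      rw [e, bil_add_right, mul_add, map_add, map_add]))
    (fun x x' => by
      ext y
      show pr0 (t ((l : E) ^ N * bil b (lft ((x + x' : MN T l N) : Wq T)) (lft (y : Wq T)))) =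
        pr0 (t ((l : E) ^ N * bil b (lft (x : Wq T)) (lft (y : Wq T)))) +
        pr0 (t ((l : E) ^ N * bil b (lft (x' : Wq T)) (lft (y : Wq T))))
      have e : pr0 (t ((l : E) ^ N * bil b (lft ((x + x' : MN T l N) : Wq T)) (lft (y : Wq T)))) =
          pr0 (t ((l : E) ^ N * bil b (lft (x : Wq T) + lft (x' : Wq T)) (lft (y : Wq T)))) := by
        refine pair_val h N ?_ (by rw [sub_self]; exact T.zero_mem) (x + x').lft_mem y.lft_mem
        rw [← mq_eq, mq_lft, mq_add, mq_lft, mq_lft]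
        rfl
      rw [e, bil_add_left, mul_add, map_add, map_add])

theorem bN_val (h : Lat b l t T) (N : ℕ) (x y : MN T l N) {x' y' : Fin n → E}
    (hx : mq T x' = x) (hy : mq T y' = y) :
    bN h N x y = pr0 (t ((l : E) ^ N * bil b x' y')) := by
  refine pair_val h N ?_ ?_ x.lft_mem ?_
  · rw [← mq_eq, mq_lft, hx]
  · rw [← mq_eq, mq_lft, hy]
  · have h1 := y.2
    rw [Submodule.mem_torsionBy_iff, ← hy, ← mq_smul, mq_eq_zero] at h1
    simpa using h1

end pairing

section local_defs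

variable {D : Type*} [Group D]

/-- local data: two representations on `E ^ n` that preserve `T`, close to the identity on small
members of the system, and dual to each other for the form `b`, up to the character `χ` -/
structure LocRep (SD : TwoSys D) (χ : D → ℤ_[2]) (T : Submodule (OE E) (Fin n → E))
    (b : Matrix (Fin n) (Fin n) E) (ρ ρ' : D → Matrix (Fin n) (Fin n) E) : Prop where
  one : ρ 1 = 1
  mul : ∀ s t, ρ (s * t) = ρ s * ρ t
  one' : ρ' 1 = 1
  mul' : ∀ s t, ρ' (s * t) = ρ' s * ρ' t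
  st : ∀ d, ∀ x ∈ T, ρ d *ᵥ x ∈ T
  st' : ∀ d, ∀ x ∈ T, ρ' d *ᵥ x ∈ T
  sm : ∀ ε : ℝ, 0 < ε → ∃ W, SD.mem W ∧ ∀ w ∈ W, ∀ x : Fin n → E, ‖ρ w *ᵥ x - x‖ ≤ ε * ‖x‖
  sm' : ∀ ε : ℝ, 0 < ε → ∃ W, SD.mem W ∧ ∀ w ∈ W, ∀ x : Fin n → E, ‖ρ' w *ᵥ x - x‖ ≤ ε * ‖x‖
  dual : ∀ d x y, bil b (ρ d *ᵥ x) (ρ' d *ᵥ y) = toE E (χ d) * bil b x y

/-- continuous cocycles with values in `E ^ n` -/
def ZV (SD : TwoSys D) (ρ : D → Matrix (Fin n) (Fin n) E) (X : D → Fin n → E) : Prop :=
  PA.N1 SD X ∧ ∀ s t, X (s * t) = X s + ρ s *ᵥ X t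

/-- the cup product with values in `E` -/
def cupE (ρ' : D → Matrix (Fin n) (Fin n) E) (b : Matrix (Fin n) (Fin n) E)
    (X Y : D → Fin n → E) : D → D → E := fun s t => bil b (X s) (ρ' s *ᵥ Y t)

/-- continuous cocycles for `ρ'` orthogonal to `L` -/
def PerpV (SD : TwoSys D) (χ : D → ℤ_[2]) (b : Matrix (Fin n) (Fin n) E)
    (ρ' : D → Matrix (Fin n) (Fin n) E) (L : Submodule E (D → Fin n → E))
    (Y : D → Fin n → E) : Prop :=
  ZV SD ρ' Y ∧ ∀ X ∈ L, PA.BE SD χ (cupE ρ' b X Y)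

/-- the local condition at level `N` attached to `L` -/
def lamN (T : Submodule (OE E) (Fin n → E)) (l : OE E) (N : ℕ)
    (L : Submodule E (D → Fin n → E)) : Submodule (OE E) (D → MN T l N) where
  carrier := {x | ∃ X ∈ L, ∀ d, (x d : Wq T) = mq T (X d)}
  add_mem' := by
    rintro x y ⟨X, hX, h1⟩ ⟨Y, hY, h2⟩
    refine ⟨X + Y, L.add_mem hX hY, fun d => ?_⟩
    show ((x d + y d : MN T l N) : Wq T) = _
    rw [Submodule.coe_add, h1, h2]
    rfl
  zero_mem' := ⟨0, L.zero_mem, fun d => rfl⟩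
  smul_mem' := by
    rintro a x ⟨X, hX, h1⟩
    refine ⟨(a : E) • X, L.smul_mem _ hX, fun d => ?_⟩
    show ((a • x d : MN T l N) : Wq T) = _
    rw [Submodule.coe_smul, h1]
    rfl

end local_defs

end Pool.Agent.Work.MP_787500_nt.GP
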