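import Mathlib
import Pool.Agent.Work.MP_787500_nt.PA.DecCl
import Pool.Agent.Work.MP_787500_nt.PA.CycK
import Pool.Agent.Work.MP_787500_nt.PA.FixedF
import Pool.Agent.Work.MP_787500_nt.PA.ActHom
import Pool.Agent.Work.MP_787500_nt.Gn.SmallRho
import Pool.Agent.Work.MP_787500_nt.GP.Defs
import Pool.Agent.Work.MP_787500_nt.GP.StDefs

/-!
Arithmetic part: definitions (fixed, do not change).
-/

set_option autoImplicit false
set_option linter.unusedSectionVars false

namespace Pool.Agent.Work.MP_787500_nt.GP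

open IsDedekindDomain NumberField
open Pool.Agent.Work.MP_787500_nt.PA (TwoSys Sm1 Sm2 homs Coc Cob IsChar goodSys core cyc Opn SU)
open Pool.Agent.Work.MP_787500_nt.Gn (GoodG)

universe u

section arith

variable (K : Type u) [Field K]

theorem baseT (T : Finset ℕ) : Gn.Base (⊤ : Subgroup (AbsGal K)) (inT K T) := by
  refine ⟨inferInstance, isOpen_univ, fun _ _ => trivial, fun g σ hσ => ?_⟩
  obtain ⟨Q, hQ, hQ2, hQT, h⟩ := hσ
  let C : 𝓞 (AlgebraicClosure K) ≃+* 𝓞 (AlgebraicClosure K) :=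
    MulSemiringAction.toRingEquiv (AbsGal K) (𝓞 (AlgebraicClosure K)) g
  have hC : ∀ x, C x = g • x := fun x => rfl
  refine ⟨Q.comap (C : 𝓞 (AlgebraicClosure K) →+* 𝓞 (AlgebraicClosure K)),
    Ideal.comap_isPrime _ _, ?_, fun l hl h3 => ?_, ?_⟩
  · intro h3
    apply hQ2
    have h5 : (C : 𝓞 (AlgebraicClosure K) →+* 𝓞 (AlgebraicClosure K)) 2 ∈ Q := h3
    rwa [map_ofNat] at h5
  · apply hQT l hl
    have h5 : (C : 𝓞 (AlgebraicClosure K) →+* 𝓞 (AlgebraicClosure K)) l ∈ Q := h3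
    rwa [map_natCast] at h5
  · intro x
    show (C : 𝓞 (AlgebraicClosure K) →+* 𝓞 (AlgebraicClosure K)) ((g⁻¹ * σ * g) • x - x) ∈ Q
    have h3 : (C : 𝓞 (AlgebraicClosure K) →+* 𝓞 (AlgebraicClosure K)) ((g⁻¹ * σ * g) • x - x) =
        σ • (g • x) - g • x := by
      show C _ = _
      rw [hC, smul_sub, smul_smul, smul_smul]
      congr 2
      group
    rw [h3]
    exact h (g • x)

/-- open normal subgroups with quotient a 2-group that contain the inertia groups at the primes that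
contain neither 2 nor an element of `T` -/
abbrev GoodT (T : Finset ℕ) (W : Subgroup (AbsGal K)) : Prop := GoodG 2 ⊤ (inT K T) W

/-- the intersection of all `GoodT` subgroups -/
noncomputable abbrev coreT (T : Finset ℕ) : Subgroup (AbsGal K) := Gn.core 2 ⊤ (inT K T)

theorem goodG_index {G : Type*} [Group G] [TopologicalSpace G] [IsTopologicalGroup G]
    [CompactSpace G] {I : Set G} {W : Subgroup G} (h : GoodG 2 ⊤ I W) :
    ∃ k : ℕ, W.index = 2 ^ k := by
  have hn := h.normal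
  have hfin : Finite (G ⧸ W) := Subgroup.quotient_finite_of_isOpen W h.isOpen
  have : Fact (Nat.Prime 2) := ⟨Nat.prime_two⟩
  have hp : IsPGroup 2 (G ⧸ W) := by
    intro x
    obtain ⟨g, rfl⟩ := QuotientGroup.mk_surjective x
    obtain ⟨k, hk⟩ := h.pow g trivial
    exact ⟨k, by rw [← QuotientGroup.mk_pow, QuotientGroup.eq_one_iff]; exact hk⟩
  obtain ⟨k, hk⟩ := (IsPGroup.iff_card (p := 2)).1 hp
  exact ⟨k, hk⟩

/-- the system of the `GoodT` subgroups -/
noncomputable def sysT [NumberField K] (T : Finset ℕ) : TwoSys (AbsGal K) where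
  mem := GoodT K T
  ex := ⟨⊤, Gn.GoodG.top (baseT K T)⟩
  inf := fun h h' => h.inf h'
  normal := fun h => h.normal
  index := fun h => goodG_index h

end arith

section fields

variable {K : Type u} [Field K]

/-- the elements of the algebraic closure fixed by `U` -/
noncomputable def Fx (U : Subgroup (AbsGal K)) : IntermediateField K (AlgebraicClosure K) :=
  IntermediateField.fixedField U

theorem mem_Fx {U : Subgroup (AbsGal K)} {x : AlgebraicClosure K} :
    x ∈ Fx U ↔ ∀ u ∈ U, u x = x := by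
  constructor
  · intro h u hu
    exact h ⟨u, hu⟩
  · intro h u
    exact h u u.2

/-- every form `x ^ 2 - a y ^ 2` represents every nonzero element of `L` -/
def PQ {Ω : Type*} [Field Ω] (L : Subfield Ω) : Prop :=
  ∀ a ∈ L, ∀ b ∈ L, a ≠ 0 → b ≠ 0 → ∃ x ∈ L, ∃ y ∈ L, x ^ 2 - a * y ^ 2 = b

/-- `y` has odd valuation at `v` and is a unit at all other primes not above 2 -/
def OddAt {F : Type*} [Field F] [NumberField F] (v : HeightOneSpectrum (𝓞 F)) (y : F) : Prop :=
  y ≠ 0 ∧ ¬ IsSquare (v.valuation F y) ∧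
    ∀ w : HeightOneSpectrum (𝓞 F), w ≠ v → (2 : 𝓞 F) ∉ w.asIdeal → w.valuation F y = 1

theorem mem_stabD {Q : Ideal (𝓞 (AlgebraicClosure K))} {g : AbsGal K} :
    g ∈ stabD Q ↔ ∀ x, x ∈ Q ↔ g • x ∈ Q := Iff.rfl

/-- open subgroups of a closed subgroup `C`, of 2-power index and normal in `C` -/
def subSys {G : Type*} [Group G] [TopologicalSpace G] [IsTopologicalGroup G] (C : Subgroup G) :
    TwoSys C where
  mem W := (∃ U : Subgroup G, IsOpen (U : Set G) ∧ U.subgroupOf C ≤ W) ∧ W.Normal ∧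
    ∃ k : ℕ, W.index = 2 ^ k
  ex := ⟨⊤, ⟨⊤, isOpen_univ, le_top⟩, inferInstance, 0, by simp⟩
  inf := by
    rintro W W' ⟨⟨U, hU, h1⟩, h2, k, h3⟩ ⟨⟨U', hU', h1'⟩, h2', k', h3'⟩
    refine ⟨⟨U ⊓ U', hU.inter hU', fun x hx => ⟨h1 hx.1, h1' hx.2⟩⟩, inferInstance, ?_⟩
    have h4 : (W ⊓ W').index ∣ W.index * W'.index := by
      rw [← Subgroup.relIndex_mul_index (inf_le_right : W ⊓ W' ≤ W'), Subgroup.inf_relIndex_right]
      exact mul_dvd_mul (Subgroup.relIndex_dvd_index_of_normal W W') dvd_rfl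
    rw [h3, h3', ← pow_add] at h4
    obtain ⟨m, _, hm⟩ := (Nat.dvd_prime_pow Nat.prime_two).1 h4
    exact ⟨m, hm⟩
  normal := fun h => h.2.1
  index := fun h => h.2.2

end fields

end Pool.Agent.Work.MP_787500_nt.GP
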