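import Mathlib
import Pool.Agent.Work.MP_787500_nt.GP.ADefs
import Pool.Agent.Work.MP_787500_nt.PA.SunitRank

/-!
# Module N2_RANK (size M-L, Mathlib; see also `PA/SunitRank.lean`): the rank of groups of S-units

`sUnit A` is the group of the `x ∈ Fˣ` that are units at all places outside the finite set `A`.
The map `x ↦ (valuations at the v ∈ A)` to `A → Multiplicative ℤ` (`HeightOneSpectrum.valuationOfNeZero`,
see `SunitRank.o` in `PA/SunitRank.lean`) has kernel the units of the ring of integers (an element with
all valuations 1 is an integral unit), and its image contains `h (A → ℤ)`, `h` the class number: the ideal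
`v ^ h` is principal (`exists_gen` in `PA/SunitRank.lean` does this for dyadic `v`). So `sUnit A` is
finitely generated and its rank is the rank of the units plus `A.card`. For a totally complex field the unit
rank is `finrank ℚ F / 2 - 1` (`NumberField.Units.rank`, the number of infinite places is
`finrank ℚ F / 2`; see the proof of `exists_units` in `PA/SunitRank.lean`).
`sUnit_torsion`: `x ^ 2 = 1` in a field.
-/

set_option autoImplicit false
set_option linter.unusedSectionVars false

namespace Pool.Agent.Work.MP_787500_nt.GP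

open IsDedekindDomain NumberField
open Pool.Agent.Work.MP_787500_nt.PA (TwoSys Sm1 Sm2 homs Coc Cob IsChar goodSys core cyc Opn SU)
open Pool.Agent.Work.MP_787500_nt.Gn (GoodG)

private theorem N2_Rank_gen {F : Type*} [Field F] [NumberField F] (w : HeightOneSpectrum (𝓞 F)) :
    ∃ g : F, g ≠ 0 ∧ w.valuation F g < 1 ∧
      ∀ w' : HeightOneSpectrum (𝓞 F), w' ≠ w → w'.valuation F g = 1 := by
  classical
  let I : nonZeroDivisors (Ideal (𝓞 F)) := ⟨w.asIdeal, mem_nonZeroDivisors_of_ne_zero w.ne_bot⟩
  set h := Nat.card (ClassGroup (𝓞 F)) with hh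
  have hpos : 0 < h := Nat.card_pos
  have h1 : ClassGroup.mk0 (I ^ h) = 1 := by
    rw [map_pow]; exact pow_card_eq_one'
  have h2 : (w.asIdeal ^ h).IsPrincipal := by
    have := (ClassGroup.mk0_eq_one_iff (I ^ h).2).1 h1
    simpa [I] using this
  obtain ⟨g, hg⟩ := h2.principal
  have hg' : w.asIdeal ^ h = Ideal.span {g} := hg
  have hg0 : g ≠ 0 := by
    rintro rfl
    rw [Ideal.span_singleton_zero] at hg'
    exact pow_ne_zero h w.ne_bot hg'
  have hgF : algebraMap (𝓞 F) F g ≠ 0 := by
    intro h0
    exact hg0 ((FaithfulSMul.algebraMap_injective (𝓞 F) F) (by rw [h0, map_zero]))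
  have hgw : g ∈ w.asIdeal := by
    have : g ∈ w.asIdeal ^ h := by rw [hg']; exact Ideal.mem_span_singleton_self g
    exact Ideal.pow_le_self hpos.ne' this
  refine ⟨algebraMap (𝓞 F) F g, hgF, (HeightOneSpectrum.valuation_lt_one_iff_mem _ _).2 hgw, ?_⟩
  intro w' hne
  refine le_antisymm (w'.valuation_le_one g) (not_lt.1 fun hlt => hne ?_)
  rw [HeightOneSpectrum.valuation_lt_one_iff_mem] at hlt
  have hle : w.asIdeal ≤ w'.asIdeal := by
    have : w.asIdeal ^ h ≤ w'.asIdeal := by
      rw [hg', Ideal.span_singleton_le_iff_mem]; exact hlt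
    exact w'.isPrime.le_of_pow_le this
  have := w.isMaximal.eq_of_le w'.isPrime.ne_top hle
  exact HeightOneSpectrum.ext this.symm


/-- the units outside a finite set of places -/
def sUnit {F : Type*} [Field F] [NumberField F] (A : Finset (HeightOneSpectrum (𝓞 F))) :
    Subgroup Fˣ where
  carrier := {x | ∀ v : HeightOneSpectrum (𝓞 F), v ∉ A → v.valuation F (x : F) = 1}
  mul_mem' := by
    intro x y hx hy v hv
    rw [Units.val_mul, map_mul, hx v hv, hy v hv, one_mul]
  one_mem' := fun v _ => by rw [Units.val_one, map_one]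
  inv_mem' := by
    intro x hx v hv
    rw [Units.val_inv_eq_inv_val, map_inv₀, hx v hv, inv_one]

theorem mem_sUnit {F : Type*} [Field F] [NumberField F] {A : Finset (HeightOneSpectrum (𝓞 F))}
    {x : Fˣ} : x ∈ sUnit A ↔
      ∀ v : HeightOneSpectrum (𝓞 F), v ∉ A → v.valuation F (x : F) = 1 := Iff.rfl

private theorem N2_Rank_unit {F : Type*} [Field F] [NumberField F] (u : (𝓞 F)ˣ)
    (v : HeightOneSpectrum (𝓞 F)) :
    v.valuation F ((Units.map (algebraMap (𝓞 F) F : 𝓞 F →* F) u : Fˣ) : F) = 1 := by
  rw [← PA.SunitRank.o_eq_zero]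
  unfold PA.SunitRank.o
  rw [v.valuation_of_unit_eq u]
  rfl

/-- the exponents of the valuations at the places of `A` -/
private noncomputable def N2_Rank_f {F : Type*} [Field F] [NumberField F]
    (A : Finset (HeightOneSpectrum (𝓞 F))) : Additive (sUnit A) →ₗ[ℤ] (A → ℤ) :=
  AddMonoidHom.toIntLinearMap
    { toFun := fun x v => PA.SunitRank.o v.1 (x.toMul : Fˣ)
      map_zero' := by
        funext v
        exact PA.SunitRank.o_one _
      map_add' := by
        intro x y
        funext v
        exact PA.SunitRank.o_mul _ _ _ }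

/-- the units as S-units -/
private noncomputable def N2_Rank_u {F : Type*} [Field F] [NumberField F]
    (A : Finset (HeightOneSpectrum (𝓞 F))) : Additive (𝓞 F)ˣ →ₗ[ℤ] Additive (sUnit A) :=
  AddMonoidHom.toIntLinearMap
    { toFun := fun x => Additive.ofMul ⟨Units.map (algebraMap (𝓞 F) F : 𝓞 F →* F) x.toMul,
        fun v _ => N2_Rank_unit _ v⟩
      map_zero' := by
        apply Additive.toMul.injective
        apply Subtype.ext
        exact map_one (Units.map (algebraMap (𝓞 F) F : 𝓞 F →* F))
      map_add' := by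
        intro x y
        apply Additive.toMul.injective
        apply Subtype.ext
        exact map_mul (Units.map (algebraMap (𝓞 F) F : 𝓞 F →* F)) _ _ }

private theorem N2_Rank_inj {F : Type*} [Field F] [NumberField F]
    (A : Finset (HeightOneSpectrum (𝓞 F))) : Function.Injective (N2_Rank_u A) := by
  intro x y h
  have h1 : Units.map (algebraMap (𝓞 F) F : 𝓞 F →* F) x.toMul =
      Units.map (algebraMap (𝓞 F) F : 𝓞 F →* F) y.toMul :=
    congrArg (fun z : Additive (sUnit A) => (z.toMul : Fˣ)) h
  apply Additive.toMul.injective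
  apply Units.ext
  exact FaithfulSMul.algebraMap_injective (𝓞 F) F (congrArg Units.val h1)

private theorem N2_Rank_ker {F : Type*} [Field F] [NumberField F]
    (A : Finset (HeightOneSpectrum (𝓞 F))) :
    LinearMap.ker (N2_Rank_f A) = LinearMap.range (N2_Rank_u A) := by
  ext x
  constructor
  · intro hx
    have h1 : ∀ v : HeightOneSpectrum (𝓞 F), v.valuation F ((x.toMul : Fˣ) : F) = 1 := by
      intro v
      by_cases hv : v ∈ A
      · rw [← PA.SunitRank.o_eq_zero]
        exact congrFun (show (N2_Rank_f A) x = 0 from hx) ⟨v, hv⟩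
      · exact x.toMul.2 v hv
    obtain ⟨a, ha⟩ := HeightOneSpectrum.mem_integers_of_valuation_le_one F ((x.toMul : Fˣ) : F)
      (fun v => (h1 v).le)
    obtain ⟨b, hb⟩ := HeightOneSpectrum.mem_integers_of_valuation_le_one F (((x.toMul : Fˣ) : F)⁻¹)
      (fun v => by rw [map_inv₀, h1 v, inv_one])
    have hab : a * b = 1 := by
      apply FaithfulSMul.algebraMap_injective (𝓞 F) F
      rw [map_mul, ha, hb, map_one]
      exact mul_inv_cancel₀ (Units.ne_zero _)
    refine ⟨Additive.ofMul ⟨a, b, hab, by rw [mul_comm]; exact hab⟩, ?_⟩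
    apply Additive.toMul.injective
    apply Subtype.ext
    apply Units.ext
    exact ha
  · rintro ⟨y, rfl⟩
    show (N2_Rank_f A) (N2_Rank_u A y) = 0
    funext v
    show PA.SunitRank.o v.1 (Units.map (algebraMap (𝓞 F) F : 𝓞 F →* F) y.toMul) = 0
    rw [PA.SunitRank.o_eq_zero]
    exact N2_Rank_unit _ _

theorem sUnit_fg {F : Type*} [Field F] [NumberField F] (A : Finset (HeightOneSpectrum (𝓞 F))) :
    Group.FG (sUnit A) := by
  have h1 : Module.Finite ℤ (Additive (sUnit A)) := by
    refine ⟨Submodule.fg_of_fg_map_of_fg_inf_ker (N2_Rank_f A) (IsNoetherian.noetherian _) ?_⟩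
    rw [top_inf_eq, N2_Rank_ker, LinearMap.range_eq_map]
    exact Submodule.FG.map _ Module.Finite.fg_top
  exact GroupFG.iff_add_fg.2 (Module.Finite.iff_addGroup_fg.1 h1)

theorem sUnit_rank {F : Type*} [Field F] [NumberField F] [IsTotallyComplex F]
    (A : Finset (HeightOneSpectrum (𝓞 F))) :
    2 * (Module.finrank ℤ (Additive (sUnit A)) + 1) = Module.finrank ℚ F + 2 * A.card := by
  classical
  have hfin : Module.Finite ℤ (Additive (sUnit A)) :=
    Module.Finite.iff_addGroup_fg.2 (GroupFG.iff_add_fg.1 (sUnit_fg A))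
  have e1 := (LinearMap.ker (N2_Rank_f A)).finrank_quotient_add_finrank
  rw [(N2_Rank_f A).quotKerEquivRange.finrank_eq, N2_Rank_ker,
    LinearMap.finrank_range_of_inj (N2_Rank_inj A)] at e1
  have e2 : Module.finrank ℤ (LinearMap.range (N2_Rank_f A)) = A.card := by
    apply le_antisymm
    · have := Submodule.finrank_le (LinearMap.range (N2_Rank_f A))
      simpa using this
    · choose g hg0 hg1 hg2 using fun v : HeightOneSpectrum (𝓞 F) => N2_Rank_gen v
      have hmem : ∀ v : A, Units.mk0 (g v.1) (hg0 v.1) ∈ sUnit A := by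
        intro v w hw
        exact hg2 v.1 w (fun h => hw (h ▸ v.2))
      let b : A → LinearMap.range (N2_Rank_f A) := fun v =>
        ⟨N2_Rank_f A (Additive.ofMul ⟨_, hmem v⟩), ⟨_, rfl⟩⟩
      have hb : LinearIndependent ℤ b := by
        rw [linearIndependent_iff']
        intro s c hc v hv
        have h1 := congrArg (fun z : LinearMap.range (N2_Rank_f A) => (z : A → ℤ) v) hc
        simp only [Submodule.coe_sum, Submodule.coe_smul, Finset.sum_apply, Pi.smul_apply,
          ZeroMemClass.coe_zero, Pi.zero_apply] at h1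
        rw [Finset.sum_eq_single v] at h1
        · rcases smul_eq_zero.1 h1 with h2 | h2
          · exact h2
          · exfalso
            have h3 : PA.SunitRank.o v.1 (Units.mk0 (g v.1) (hg0 v.1)) = 0 := h2
            rw [PA.SunitRank.o_eq_zero] at h3
            exact (hg1 v.1).ne h3
        · intro w _ hwv
          have h3 : PA.SunitRank.o v.1 (Units.mk0 (g w.1) (hg0 w.1)) = 0 := by
            rw [PA.SunitRank.o_eq_zero]
            exact hg2 w.1 v.1 (fun h => hwv (Subtype.ext h.symm))
          have h4 : (b w : A → ℤ) v = 0 := h3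
          rw [h4, smul_zero]
        · intro h
          exact absurd hv h
      have := hb.fintype_card_le_finrank
      simpa using this
  rw [e2] at e1
  have e3 : Module.finrank ℤ (Additive (𝓞 F)ˣ) = InfinitePlace.nrComplexPlaces F - 1 := by
    rw [NumberField.Units.finrank_eq, NumberField.Units.rank,
      NumberField.InfinitePlace.card_eq_nrRealPlaces_add_nrComplexPlaces,
      NumberField.IsTotallyComplex.nrRealPlaces_eq_zero, zero_add]
  have e4 := NumberField.IsTotallyComplex.finrank F
  have e5 : 0 < Module.finrank ℚ F := Module.finrank_pos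
  omega

end Pool.Agent.Work.MP_787500_nt.GP
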