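import Mathlib
import Pool.Agent.Work.MP_787500_nt.GP.ADefs
import Pool.Agent.Work.MP_787500_nt.H10_Gal
import Pool.Agent.Work.MP_787500_nt.H10_Step
import Pool.Agent.Work.MP_787500_nt.PA.FixedF

/-!
# Module C6_IN (size M-L): quadratic characters of inertia groups

`Q` is a prime of the ring of all algebraic integers, `2 ∉ Q`.
* `unit_fix`: if `w ≠ 0` is a unit at `Q` (`w = x / y`, `x, y` integral, not in `Q`) and `n ∈ Q.inertia` with
  `n w = ± w` then `n w = w`: otherwise `n w = -w`, `n x · y = - x · n y`; modulo `Q`, `n x = x`, `n y = y`, so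
  `2 x y ∈ Q`, contradiction.
* `inertia_uniq`: `t₁`, `t₂` are in a number field `L ⊂ Kbar`; let `p = Q ∩ 𝓞 L` (if `Q = ⊥` the inertia group is
  trivial, `eq_one_of_inertia_bot`, and `h₁` is impossible). There are integers `A`, `B`, not both even,
  such that `w = t₁ ^ A t₂ ^ B` has valuation 1 at `p` (if `t_i` has valuation `exp n_i`: `(A, B) = (1, 0)` if
  `n₁ = 0`, otherwise `(n₂ / g, -n₁ / g)`, `g = gcd`); an element of valuation 1 is a quotient of
  integers not in `Q`. For `n` in the inertia group, `n w = ± w`, so `n w = w`. Let `λ_i n ∈ ZMod 2`,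
  `λ_i n = 0 ↔ n t_i = t_i`: `A λ₁ + B λ₂ = 0`. As `λ₁` and `λ₂` are not zero (`h₁`, `h₂`), `A` and `B` are
  both odd, and `λ₁ = λ₂`.
* `ram_iff`: `F = Fx U`, `b ∈ F`, `t ^ 2 = b`, `v = Q ∩ 𝓞 F`. If `b` has even valuation at `v`: let `π ∈ F` be such that
  `b / π ^ (2 k)` has valuation 1 (`π` of valuation `exp (-1)`), `w = t / π ^ k` is a unit at `Q` (`w ^ 2` is one),
  `unit_fix`. If `b` has odd valuation: `exists_inertia_of_odd` (`H10_Gal.lean`), with base field `F` and `Ω = Kbar`,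
  gives some prime `Q'` above... a prime `Q'` and `σ ∈ Q'.inertia` with `σ t = -t`; in the proof `Q'` lies above
  `v` (check; if the statement is not precise enough repeat its proof), and all primes
  above `v` are conjugate under `U` (`exists_smul_eq`): conjugate `σ` (`conj_mem_inertia`); `g t = ± t` for
  `g ∈ U`.
-/

set_option autoImplicit false
set_option linter.unusedSectionVars false

namespace Pool.Agent.Work.MP_787500_nt.GP

open IsDedekindDomain NumberField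
open Pool.Agent.Work.MP_787500_nt.PA (TwoSys Sm1 Sm2 homs Coc Cob IsChar goodSys core cyc Opn SU)
open Pool.Agent.Work.MP_787500_nt.Gn (GoodG)

universe u

private theorem inertia_of_odd {F : Type*} [Field F] [NumberField F] {Ω : Type*} [Field Ω]
    [Algebra F Ω] [IsGalois F Ω] {d : F} {s : Ω} (hs : s ^ 2 = algebraMap F Ω d)
    {v : HeightOneSpectrum (𝓞 F)} {Q : Ideal (𝓞 Ω)} (hQ : Q.IsPrime)
    (hQv : Q.comap (algebraMap (𝓞 F) (𝓞 Ω)) = v.asIdeal)
    (hd : ¬ IsSquare (v.valuation F d)) :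
    ∃ σ ∈ Q.inertia (Ω ≃ₐ[F] Ω), σ s = -s := by
  have hd0 : d ≠ 0 := by
    rintro rfl
    exact hd ⟨0, by rw [map_zero, mul_zero]⟩
  have hs0 : s ≠ 0 := by
    rintro rfl
    rw [zero_pow (by norm_num)] at hs
    exact hd0 ((map_eq_zero (algebraMap F Ω)).1 hs.symm)
  have hsign : ∀ σ : Ω ≃ₐ[F] Ω, σ s = s ∨ σ s = -s := by
    intro σ
    apply sq_eq_sq_iff_eq_or_eq_neg.1
    rw [← map_pow, hs, AlgEquiv.commutes]
  have hmem : ∀ z : 𝓞 F, algebraMap (𝓞 F) (𝓞 Ω) z ∈ Q ↔ z ∈ v.asIdeal := by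
    intro z
    rw [← hQv, Ideal.mem_comap]
  obtain ⟨σ₀, hσ₀⟩ : ∃ σ : Ω ≃ₐ[F] Ω, σ s ≠ s := by
    by_contra hcon
    push Not at hcon
    obtain ⟨a, ha⟩ := mem_base_of_fixed hcon
    have : a ^ 2 = d := by
      apply (algebraMap F Ω).injective
      rw [map_pow, ha, hs]
    apply hd
    rw [← this, map_pow]
    exact ⟨_, pow_two _⟩
  have hσ₀' : σ₀ s = -s := (hsign σ₀).resolve_left hσ₀
  have h2Ω : (2 : Ω) ≠ 0 := by
    rw [← map_ofNat (algebraMap F Ω) 2]
    exact (map_ne_zero _).2 two_ne_zero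
  have hne : ∀ σ : Ω ≃ₐ[F] Ω, ¬ (σ s = s ∧ σ s = -s) := by
    rintro σ ⟨h1, h2⟩
    have : (2 : Ω) * s = 0 := by rw [h1] at h2; linear_combination h2
    exact mul_ne_zero h2Ω hs0 this
  let H : Subgroup (Ω ≃ₐ[F] Ω) := MulAction.stabilizer (Ω ≃ₐ[F] Ω) s
  have hHmem : ∀ σ : Ω ≃ₐ[F] Ω, σ ∈ H ↔ σ s = s := fun σ => Iff.rfl
  have hHopen : IsOpen (H : Set (Ω ≃ₐ[F] Ω)) := stabilizer_isOpen_of_isIntegral s
  have hHcl : IsClosed (H : Set (Ω ≃ₐ[F] Ω)) := Subgroup.isClosed_of_isOpen H hHopen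
  let _ : TopologicalSpace (𝓞 Ω) := ⊥
  have : DiscreteTopology (𝓞 Ω) := ⟨rfl⟩
  have : ContinuousSMul (Ω ≃ₐ[F] Ω) (𝓞 Ω) := by
    rw [continuousSMul_iff_stabilizer_isOpen]
    intro x
    have h1 : IsOpen (MulAction.stabilizer (Ω ≃ₐ[F] Ω) (algebraMap (𝓞 Ω) Ω x) :
      Set (Ω ≃ₐ[F] Ω)) := stabilizer_isOpen_of_isIntegral _
    convert h1 using 1
    ext σ
    simp only [SetLike.mem_coe, MulAction.mem_stabilizer_iff]
    constructor
    · intro h
      have := congrArg (algebraMap (𝓞 Ω) Ω) h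
      exact this
    · intro h
      apply RingOfIntegers.ext
      exact h
  have key : ∀ (σ : Ω ≃ₐ[F] Ω), σ s = -s → ∀ x : 𝓞 Ω, (∀ h ∈ H, h • x = x) → σ • x - x ∈ Q := by
    intro σ hσ x hx
    have hx' : ∀ τ : Ω ≃ₐ[F] Ω, τ s = s → τ (algebraMap (𝓞 Ω) Ω x) = algebraMap (𝓞 Ω) Ω x := by
      intro τ hτ
      have := congrArg (algebraMap (𝓞 Ω) Ω) (hx τ hτ)
      exact this
    set X := algebraMap (𝓞 Ω) Ω x with hX
    set y := σ X - X with hy
    have hσinv : σ⁻¹ s = -s := by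
      have : σ⁻¹ (σ s) = s := by
        rw [← AlgEquiv.mul_apply, inv_mul_cancel]; rfl
      rw [hσ, map_neg] at this
      exact neg_eq_iff_eq_neg.1 this
    have hys : ∀ τ : Ω ≃ₐ[F] Ω, τ (y * s) = y * s := by
      intro τ
      rcases hsign τ with h | h
      · have h1 : τ (σ X) = σ X := by
          have h2 := hx' (σ⁻¹ * (τ * σ)) (by
            rw [AlgEquiv.mul_apply, AlgEquiv.mul_apply, hσ, map_neg, h, map_neg, hσinv, neg_neg])
          have h3 := congrArg σ h2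
          rw [← AlgEquiv.mul_apply, mul_inv_cancel_left, AlgEquiv.mul_apply] at h3
          exact h3
        rw [hy, map_mul, map_sub, h1, hx' τ h, h]
      · have h1 : τ (σ X) = X := by
          rw [← AlgEquiv.mul_apply]
          exact hx' _ (by rw [AlgEquiv.mul_apply, hσ, map_neg, h, neg_neg])
        have h2 : τ X = σ X := by
          have h2 := hx' (σ⁻¹ * τ) (by rw [AlgEquiv.mul_apply, h, map_neg, hσinv, neg_neg])
          have h3 := congrArg σ h2
          rw [← AlgEquiv.mul_apply, mul_inv_cancel_left] at h3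
          exact h3
        rw [hy, map_mul, map_sub, h1, h2, h]
        ring
    obtain ⟨a, ha⟩ := mem_base_of_fixed hys
    have hy2 : y ^ 2 = algebraMap F Ω (a ^ 2 / d) := by
      rw [map_div₀, map_pow, ha, ← hs]
      field_simp
    have hYy : algebraMap (𝓞 Ω) Ω ((σ • x - x) ^ 2) = y ^ 2 := by
      rw [map_pow, map_sub, coe_smul_int]
    have hint : IsIntegral ℤ (a ^ 2 / d) := by
      have h1 : IsIntegral ℤ (algebraMap F Ω (a ^ 2 / d)) := by
        rw [← hy2, ← hYy]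
        exact RingOfIntegers.isIntegral_coe _
      exact (isIntegral_algebraMap_iff (algebraMap F Ω).injective).1 h1
    obtain ⟨z, hz⟩ : ∃ z : 𝓞 F, algebraMap (𝓞 F) F z = a ^ 2 / d := ⟨⟨_, hint⟩, rfl⟩
    have hYz : (σ • x - x) ^ 2 = algebraMap (𝓞 F) (𝓞 Ω) z := by
      apply RingOfIntegers.ext
      show algebraMap (𝓞 Ω) Ω _ = algebraMap (𝓞 Ω) Ω _
      rw [hYy, hy2, ← hz]
      rfl
    have hzv : z ∈ v.asIdeal := by
      by_contra hcon
      have h1 := (HeightOneSpectrum.valuation_eq_one_iff_notMem (K := F) v).2 hcon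
      rw [hz, map_div₀] at h1
      apply hd
      have h2 : v.valuation F d ≠ 0 := (v.valuation F).ne_zero_iff.2 hd0
      have h3 : v.valuation F (a ^ 2) = v.valuation F d := (div_eq_one_iff_eq h2).1 h1
      rw [← h3, map_pow]
      exact ⟨_, pow_two _⟩
    have h5 : (σ • x - x) ^ 2 ∈ Q := by
      rw [hYz, hmem]
      exact hzv
    exact hQ.mem_of_pow_mem _ h5
  have hσinv : σ₀⁻¹ s = -s := by
    have : σ₀⁻¹ (σ₀ s) = s := by
      rw [← AlgEquiv.mul_apply, inv_mul_cancel]; rfl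
    rw [hσ₀', map_neg] at this
    exact neg_eq_iff_eq_neg.1 this
  obtain ⟨h, hh, hin⟩ := exists_inertia H hHcl Q σ₀ (key _ hσinv)
  refine ⟨h * σ₀, hin, ?_⟩
  rw [AlgEquiv.mul_apply, hσ₀', map_neg, (hHmem h).1 hh]

variable {K : Type u} [Field K] [NumberField K]

/-- `w` is a quotient of integers that are not in `Q` -/
def UnitAt (Q : Ideal (𝓞 (AlgebraicClosure K))) (w : AlgebraicClosure K) : Prop :=
  ∃ x y : 𝓞 (AlgebraicClosure K), x ∉ Q ∧ y ∉ Q ∧ w * y = x

theorem unit_fix {Q : Ideal (𝓞 (AlgebraicClosure K))} (hQ : Q.IsPrime)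
    (h2 : (2 : 𝓞 (AlgebraicClosure K)) ∉ Q) {w : AlgebraicClosure K} (hw : UnitAt Q w)
    {n : AbsGal K} (hn : n ∈ Q.inertia (AbsGal K)) (h : n w = w ∨ n w = -w) : n w = w := by
  rcases h with h | h
  · exact h
  · exfalso
    obtain ⟨x, y, hx, hy, hxy⟩ := hw
    have hnx : n • x - x ∈ Q := hn x
    have hny : n • y - y ∈ Q := hn y
    have e1 := congrArg n hxy
    rw [map_mul, h] at e1
    -- e1 : -w * n y = n x
    have cx : ((n • x : 𝓞 (AlgebraicClosure K)) : AlgebraicClosure K) =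
      n (x : AlgebraicClosure K) := rfl
    have cy : ((n • y : 𝓞 (AlgebraicClosure K)) : AlgebraicClosure K) =
      n (y : AlgebraicClosure K) := rfl
    have e2 : -(x * (n • y)) = (n • x) * y := by
      apply RingOfIntegers.ext
      show -((x : AlgebraicClosure K) * ((n • y : 𝓞 (AlgebraicClosure K)) : AlgebraicClosure K)) =
        ((n • x : 𝓞 (AlgebraicClosure K)) : AlgebraicClosure K) * (y : AlgebraicClosure K)
      rw [cx, cy]
      linear_combination (y : AlgebraicClosure K) * e1 + n (y : AlgebraicClosure K) * hxy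
    have e3 : 2 * (x * y) = -(x * (n • y - y)) - (n • x - x) * y := by
      linear_combination -e2
    have h3 : 2 * (x * y) ∈ Q := by
      rw [e3]
      exact Q.sub_mem (Q.neg_mem (Q.mul_mem_left _ hny)) (Q.mul_mem_right _ hnx)
    rcases hQ.mem_or_mem h3 with h4 | h4
    · exact h2 h4
    · rcases hQ.mem_or_mem h4 with h5 | h5
      · exact hx h5
      · exact hy h5

private theorem unitAt_of_val {F : IntermediateField K (AlgebraicClosure K)} [NumberField F]
    {Q : Ideal (𝓞 (AlgebraicClosure K))} {v : HeightOneSpectrum (𝓞 F)}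
    (hv : Q.comap (algebraMap (𝓞 F) (𝓞 (AlgebraicClosure K))) = v.asIdeal) {w : F}
    (hw : v.valuation F w = 1) : UnitAt Q (w : AlgebraicClosure K) := by
  obtain ⟨n, d, hnd⟩ := v.exists_primeCompl_mul_eq_of_integer w hw.le
  have hd : (d : 𝓞 F) ∉ v.asIdeal := d.2
  have hvd : v.valuation F (algebraMap (𝓞 F) F d) = 1 :=
    (HeightOneSpectrum.valuation_eq_one_iff_notMem (K := F) v).2 hd
  have hvn : v.valuation F (algebraMap (𝓞 F) F n) = 1 := by
    rw [← hnd, map_mul, hw, hvd, one_mul]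
  have hn : n ∉ v.asIdeal := (HeightOneSpectrum.valuation_eq_one_iff_notMem (K := F) v).1 hvn
  refine ⟨algebraMap (𝓞 F) (𝓞 (AlgebraicClosure K)) n,
    algebraMap (𝓞 F) (𝓞 (AlgebraicClosure K)) d, ?_, ?_, ?_⟩
  · exact fun h => hn (hv.le h)
  · exact fun h => hd (hv.le h)
  · exact congrArg (fun z : F => (z : AlgebraicClosure K)) hnd

private theorem exists_AB (a b : ℤ) : ∃ A B : ℤ, A * a + B * b = 0 ∧ ¬ (Even A ∧ Even B) := by
  rcases eq_or_ne a 0 with rfl | ha
  · exact ⟨1, 0, by ring, fun h => by simpa using h.1⟩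
  · have hg : (Int.gcd a b : ℤ) ≠ 0 := by
      intro h
      have h1 : Int.gcd a b = 0 := by exact_mod_cast h
      exact ha (Int.gcd_eq_zero_iff.1 h1).1
    obtain ⟨a', ha'⟩ : (Int.gcd a b : ℤ) ∣ a := Int.gcd_dvd_left ..
    obtain ⟨b', hb'⟩ : (Int.gcd a b : ℤ) ∣ b := Int.gcd_dvd_right ..
    have hbz : (Int.gcd a b : ℤ) = a * Int.gcdA a b + b * Int.gcdB a b := Int.gcd_eq_gcd_ab a b
    set g : ℤ := (Int.gcd a b : ℤ) with hgdef
    refine ⟨b', -a', ?_, ?_⟩
    · rw [ha', hb']; ring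
    · rintro ⟨⟨r, hr⟩, ⟨s, hs⟩⟩
      have h1 : g * 1 = g * (a' * Int.gcdA a b + b' * Int.gcdB a b) := by
        rw [mul_one, mul_add]
        calc g = a * Int.gcdA a b + b * Int.gcdB a b := hbz
          _ = (g * a') * Int.gcdA a b + (g * b') * Int.gcdB a b := by rw [← ha', ← hb']
          _ = _ := by ring
      have h2 := mul_left_cancel₀ hg h1
      have h3 : a' = 2 * (-s) := by linarith
      rw [h3, hr] at h2
      have h4 : (2 : ℤ) ∣ 1 := ⟨-s * Int.gcdA a b + r * Int.gcdB a b, by rw [h2]; ring⟩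
      omega

private theorem exp_of_ne_zero {x : WithZero (Multiplicative ℤ)} (hx : x ≠ 0) :
    ∃ n : ℤ, x = WithZero.exp n := ⟨WithZero.log x, (WithZero.exp_log hx).symm⟩

private theorem sgn_zpow {w : AlgebraicClosure K} {n : AbsGal K} (h : n w = w ∨ n w = -w) (A : ℤ) :
    (Even A → n (w ^ A) = w ^ A) ∧ (Odd A → (n w = -w → n (w ^ A) = -(w ^ A))) ∧
      (n w = w → n (w ^ A) = w ^ A) := by
  refine ⟨fun hA => ?_, fun hA h' => ?_, fun h' => ?_⟩
  · rw [map_zpow₀]
    rcases h with h | h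
    · rw [h]
    · rw [h, hA.neg_zpow]
  · rw [map_zpow₀, h', hA.neg_zpow]
  · rw [map_zpow₀, h']

theorem inertia_uniq {Q : Ideal (𝓞 (AlgebraicClosure K))} (hQ : Q.IsPrime)
    (h2 : (2 : 𝓞 (AlgebraicClosure K)) ∉ Q) {t₁ t₂ : AlgebraicClosure K} (h01 : t₁ ≠ 0)
    (h02 : t₂ ≠ 0) (hs₁ : ∀ n ∈ Q.inertia (AbsGal K), n t₁ = t₁ ∨ n t₁ = -t₁)
    (hs₂ : ∀ n ∈ Q.inertia (AbsGal K), n t₂ = t₂ ∨ n t₂ = -t₂)
    (h₁ : ∃ n ∈ Q.inertia (AbsGal K), n t₁ ≠ t₁) (h₂ : ∃ n ∈ Q.inertia (AbsGal K), n t₂ ≠ t₂)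
    {n : AbsGal K} (hn : n ∈ Q.inertia (AbsGal K)) : n t₁ = t₁ ↔ n t₂ = t₂ := by
  let F : IntermediateField K (AlgebraicClosure K) := IntermediateField.adjoin K {t₁, t₂}
  have hfin : FiniteDimensional K F :=
    IntermediateField.finiteDimensional_adjoin fun x _ => Algebra.IsIntegral.isIntegral x
  have hNF : NumberField F := NumberField.of_module_finite K F
  obtain ⟨τ₁, hτ₁⟩ : ∃ τ : F, (τ : AlgebraicClosure K) = t₁ :=
    ⟨⟨t₁, IntermediateField.subset_adjoin K _ (by simp)⟩, rfl⟩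
  obtain ⟨τ₂, hτ₂⟩ : ∃ τ : F, (τ : AlgebraicClosure K) = t₂ :=
    ⟨⟨t₂, IntermediateField.subset_adjoin K _ (by simp)⟩, rfl⟩
  have hprime : (Q.comap (algebraMap (𝓞 F) (𝓞 (AlgebraicClosure K)))).IsPrime :=
    Ideal.comap_isPrime _ _
  have hbot : Q.comap (algebraMap (𝓞 F) (𝓞 (AlgebraicClosure K))) ≠ ⊥ := by
    intro hb
    have : Algebra.IsIntegral (𝓞 F) (𝓞 (AlgebraicClosure K)) := inferInstance
    have hQb : Q = ⊥ := Ideal.eq_bot_of_comap_eq_bot hb
    obtain ⟨m, hm, hmt⟩ := h₁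
    rw [hQb] at hm
    rw [eq_one_of_inertia_bot (F := K) hm] at hmt
    exact hmt rfl
  let v : HeightOneSpectrum (𝓞 F) :=
    ⟨Q.comap (algebraMap (𝓞 F) (𝓞 (AlgebraicClosure K))), hprime, hbot⟩
  have hv : Q.comap (algebraMap (𝓞 F) (𝓞 (AlgebraicClosure K))) = v.asIdeal := rfl
  have hτ₁0 : τ₁ ≠ 0 := by
    rintro rfl
    exact h01 hτ₁.symm
  have hτ₂0 : τ₂ ≠ 0 := by
    rintro rfl
    exact h02 hτ₂.symm
  obtain ⟨a, ha⟩ := exp_of_ne_zero ((v.valuation F).ne_zero_iff.2 hτ₁0)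
  obtain ⟨b, hb⟩ := exp_of_ne_zero ((v.valuation F).ne_zero_iff.2 hτ₂0)
  obtain ⟨A, B, hAB, hpar⟩ := exists_AB a b
  have hval : v.valuation F (τ₁ ^ A * τ₂ ^ B) = 1 := by
    rw [map_mul, map_zpow₀, map_zpow₀, ha, hb, ← WithZero.exp_zsmul, ← WithZero.exp_zsmul,
      ← WithZero.exp_add, smul_eq_mul, smul_eq_mul, hAB, WithZero.exp_zero]
  have hunit := unitAt_of_val hv hval
  have hcoe : ((τ₁ ^ A * τ₂ ^ B : F) : AlgebraicClosure K) = t₁ ^ A * t₂ ^ B := by
    rw [← hτ₁, ← hτ₂]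
    push_cast
    rfl
  rw [hcoe] at hunit
  have hw0 : t₁ ^ A * t₂ ^ B ≠ 0 := mul_ne_zero (zpow_ne_zero _ h01) (zpow_ne_zero _ h02)
  have hneg : ∀ z : AlgebraicClosure K, z ≠ 0 → -z ≠ z := by
    intro z hz h
    have : (2 : AlgebraicClosure K) * z = 0 := by linear_combination -h
    exact mul_ne_zero two_ne_zero hz this
  -- the sign of w
  have hsgn : ∀ m ∈ Q.inertia (AbsGal K), m (t₁ ^ A * t₂ ^ B) = t₁ ^ A * t₂ ^ B := by
    intro m hm
    refine unit_fix hQ h2 hunit hm ?_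
    rw [map_mul]
    obtain ⟨p1, p2, p3⟩ := sgn_zpow (hs₁ m hm) A
    obtain ⟨q1, q2, q3⟩ := sgn_zpow (hs₂ m hm) B
    have c1 : m (t₁ ^ A) = t₁ ^ A ∨ m (t₁ ^ A) = -(t₁ ^ A) := by
      rcases Int.even_or_odd A with hA | hA
      · exact Or.inl (p1 hA)
      · rcases hs₁ m hm with h | h
        · exact Or.inl (p3 h)
        · exact Or.inr (p2 hA h)
    have c2 : m (t₂ ^ B) = t₂ ^ B ∨ m (t₂ ^ B) = -(t₂ ^ B) := by
      rcases Int.even_or_odd B with hA | hA
      · exact Or.inl (q1 hA)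
      · rcases hs₂ m hm with h | h
        · exact Or.inl (q3 h)
        · exact Or.inr (q2 hA h)
    rcases c1 with c1 | c1 <;> rcases c2 with c2 | c2 <;> rw [c1, c2]
    · exact Or.inl rfl
    · exact Or.inr (by ring)
    · exact Or.inr (by ring)
    · exact Or.inl (by ring)
  have hz1 : t₁ ^ A ≠ 0 := zpow_ne_zero _ h01
  have hz2 : t₂ ^ B ≠ 0 := zpow_ne_zero _ h02
  rcases Int.even_or_odd A with hA | hA
  · -- B odd : t₂ is fixed, contradiction
    exfalso
    have hB : Odd B := by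
      rw [← Int.not_even_iff_odd]
      exact fun hB => hpar ⟨hA, hB⟩
    obtain ⟨m, hm, hmt⟩ := h₂
    have h3 := hsgn m hm
    rw [map_mul, (sgn_zpow (hs₁ m hm) A).1 hA] at h3
    have h4 := mul_left_cancel₀ hz1 h3
    rw [(sgn_zpow (hs₂ m hm) B).2.1 hB ((hs₂ m hm).resolve_left hmt)] at h4
    exact hneg _ hz2 h4
  · rcases Int.even_or_odd B with hB | hB
    · exfalso
      obtain ⟨m, hm, hmt⟩ := h₁
      have h3 := hsgn m hm
      rw [map_mul, (sgn_zpow (hs₂ m hm) B).1 hB] at h3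
      have h4 := mul_right_cancel₀ hz2 h3
      rw [(sgn_zpow (hs₁ m hm) A).2.1 hA ((hs₁ m hm).resolve_left hmt)] at h4
      exact hneg _ hz1 h4
    · have h3 := hsgn n hn
      rw [map_mul] at h3
      constructor
      · intro h
        rw [(sgn_zpow (hs₁ n hn) A).2.2 h] at h3
        have h4 := mul_left_cancel₀ hz1 h3
        by_contra hne
        rw [(sgn_zpow (hs₂ n hn) B).2.1 hB ((hs₂ n hn).resolve_left hne)] at h4
        exact hneg _ hz2 h4
      · intro h
        rw [(sgn_zpow (hs₂ n hn) B).2.2 h] at h3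
        have h4 := mul_right_cancel₀ hz2 h3
        by_contra hne
        rw [(sgn_zpow (hs₁ n hn) A).2.1 hA ((hs₁ n hn).resolve_left hne)] at h4
        exact hneg _ hz1 h4

theorem ram_iff {U : Subgroup (AbsGal K)} [NumberField (Fx U)] (hU : (Fx U).fixingSubgroup = U)
    {Q : Ideal (𝓞 (AlgebraicClosure K))} (hQ : Q.IsPrime) (h2 : (2 : 𝓞 (AlgebraicClosure K)) ∉ Q)
    {v : HeightOneSpectrum (𝓞 (Fx U))}
    (hv : Q.comap (algebraMap (𝓞 (Fx U)) (𝓞 (AlgebraicClosure K))) = v.asIdeal)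
    (hin : Q.inertia (AbsGal K) ≤ U) {b : Fx U} (hb : b ≠ 0) {t : AlgebraicClosure K}
    (ht : t ^ 2 = (b : AlgebraicClosure K)) :
    (∀ n ∈ Q.inertia (AbsGal K), n t = t) ↔ IsSquare (v.valuation (Fx U) b) := by
  have hb0 : (b : AlgebraicClosure K) ≠ 0 := fun h => hb (ZeroMemClass.coe_eq_zero.1 h)
  have ht0 : t ≠ 0 := by
    rintro rfl
    rw [zero_pow two_ne_zero] at ht
    exact hb0 ht.symm
  have hneg : ∀ z : AlgebraicClosure K, z ≠ 0 → -z ≠ z := by
    intro z hz h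
    have : (2 : AlgebraicClosure K) * z = 0 := by linear_combination -h
    exact mul_ne_zero two_ne_zero hz this
  constructor
  · intro h
    by_contra hcon
    obtain ⟨σ, hσ, hσt⟩ := inertia_of_odd (F := Fx U) (Ω := AlgebraicClosure K)
      (d := b) (s := t) ht hQ hv hcon
    have h1 : σ.restrictScalars K ∈ Q.inertia (AbsGal K) := by
      intro x
      exact hσ x
    have h3 : σ t = t := h _ h1
    rw [hσt] at h3
    exact hneg t ht0 h3
  · rintro ⟨γ, hγ⟩ n hn
    have hvb : v.valuation (Fx U) b ≠ 0 := (v.valuation (Fx U)).ne_zero_iff.2 hb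
    have hγ0 : γ ≠ 0 := by
      rintro rfl
      exact hvb (by rw [hγ, mul_zero])
    obtain ⟨k, rfl⟩ := exp_of_ne_zero hγ0
    obtain ⟨π, hπ⟩ := v.valuation_exists_uniformizer (Fx U)
    have hπ0 : π ≠ 0 := by
      rintro rfl
      rw [map_zero] at hπ
      exact WithZero.exp_ne_zero hπ.symm
    set c : Fx U := π ^ (-k) with hc
    have hc0 : c ≠ 0 := zpow_ne_zero _ hπ0
    have hvc : v.valuation (Fx U) c = WithZero.exp k := by
      rw [hc, map_zpow₀, hπ, ← WithZero.exp_zsmul]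
      congr 1
      simp
    have hval : v.valuation (Fx U) (b / c ^ 2) = 1 := by
      rw [map_div₀, map_pow, hvc, hγ, pow_two, div_self]
      exact mul_ne_zero WithZero.exp_ne_zero WithZero.exp_ne_zero
    obtain ⟨x, y, hx, hy, hxy⟩ := unitAt_of_val hv hval
    have hc0' : (c : AlgebraicClosure K) ≠ 0 := fun h => hc0 (ZeroMemClass.coe_eq_zero.1 h)
    have hcoe : ((b / c ^ 2 : Fx U) : AlgebraicClosure K) = (t / c) ^ 2 := by
      rw [div_pow, ht]
      push_cast
      rfl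
    rw [hcoe] at hxy
    -- t / c is a unit at Q
    have hunit : UnitAt Q (t / (c : AlgebraicClosure K)) := by
      have hint : IsIntegral ℤ (t / (c : AlgebraicClosure K) * (y : AlgebraicClosure K)) := by
        have e1 : (t / (c : AlgebraicClosure K) * (y : AlgebraicClosure K)) ^ 2 =
            ((x * y : 𝓞 (AlgebraicClosure K)) : AlgebraicClosure K) := by
          rw [mul_pow, pow_two (y : AlgebraicClosure K), ← mul_assoc, hxy]
          rfl
        exact IsIntegral.of_pow two_pos (by rw [e1]; exact RingOfIntegers.isIntegral_coe _)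
      obtain ⟨z, hz⟩ : ∃ z : 𝓞 (AlgebraicClosure K), (z : AlgebraicClosure K) =
        t / (c : AlgebraicClosure K) * (y : AlgebraicClosure K) := ⟨⟨_, hint⟩, rfl⟩
      refine ⟨z, y, ?_, hy, hz.symm⟩
      intro hmem
      have e2 : z ^ 2 = x * y := by
        apply RingOfIntegers.ext
        show (z : AlgebraicClosure K) ^ 2 = (x : AlgebraicClosure K) * (y : AlgebraicClosure K)
        rw [hz, mul_pow, pow_two (y : AlgebraicClosure K), ← mul_assoc, hxy]
      have e3 : z ^ 2 ∈ Q := Ideal.pow_mem_of_mem Q hmem 2 two_pos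
      rw [e2] at e3
      rcases hQ.mem_or_mem e3 with h | h
      · exact hx h
      · exact hy h
    have hfix : ∀ z : Fx U, n (z : AlgebraicClosure K) = z := fun z => mem_Fx.1 z.2 n (hin hn)
    have hsg : n t = t ∨ n t = -t := by
      apply sq_eq_sq_iff_eq_or_eq_neg.1
      rw [← map_pow, ht, hfix]
    have h3 := unit_fix hQ h2 hunit hn (by
      rw [map_div₀, hfix c]
      rcases hsg with h | h
      · exact Or.inl (by rw [h])
      · exact Or.inr (by rw [h, neg_div]))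
    rw [map_div₀, hfix c] at h3
    have h4 := (div_left_inj' hc0').1 h3
    exact h4

end Pool.Agent.Work.MP_787500_nt.GP
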