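import Mathlib
import Pool.Agent.Work.MP_787500_nt.GP.ADefs
import Pool.Agent.Work.MP_787500_nt.PA.LocA

/-!
# Module C2_KUM (size M): Kummer theory for closed subgroups

`V = {g ∈ C | lam g = 0}` is a closed subgroup (`C` is closed, `V` is open in `C` by `hcont`), normal in `C`.
If `V = C` take `t = 1`. Otherwise let `g₀ ∈ C`, `lam g₀ ≠ 0`. As `V` is closed and different from `C`, the fixed
fields are different (`InfiniteGalois.fixingSubgroup_fixedField`), so there is `x` fixed by `V`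
and not fixed by `g₀` (if `g₀ x = x` for all `x ∈ Fx V` then `g₀ ∈ V`). Let `t = x - g₀ x ≠ 0`. For `v ∈ V`:
`v t = t` (`g₀⁻¹ v g₀ ∈ V`). `g₀ t = g₀ x - g₀ ^ 2 x = -t` (`g₀ ^ 2 ∈ V`). Every `g ∈ C` is in `V` or in `g₀ V`. So
`g t = t` if `lam g = 0` and `g t = -t` otherwise.
-/

set_option autoImplicit false
set_option linter.unusedSectionVars false

namespace Pool.Agent.Work.MP_787500_nt.GP

open IsDedekindDomain NumberField
open Pool.Agent.Work.MP_787500_nt.PA (TwoSys Sm1 Sm2 homs Coc Cob IsChar goodSys core cyc Opn SU)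
open Pool.Agent.Work.MP_787500_nt.Gn (GoodG)

universe u

variable {K : Type u} [Field K] [NumberField K]

theorem exists_kum {C : Subgroup (AbsGal K)} (hC : IsClosed (C : Set (AbsGal K)))
    (lam : AbsGal K → ZMod 2) (hmul : ∀ g ∈ C, ∀ h ∈ C, lam (g * h) = lam g + lam h)
    (hcont : ∃ U' : Subgroup (AbsGal K), IsOpen (U' : Set (AbsGal K)) ∧ ∀ g ∈ C ⊓ U', lam g = 0) :
    ∃ t : AlgebraicClosure K, t ≠ 0 ∧ (∀ g ∈ C, g t = t ∨ g t = -t) ∧
      ∀ g ∈ C, (lam g = 0 ↔ g t = t) := by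
  obtain ⟨U', hU', hlamU⟩ := hcont
  have hone : lam 1 = 0 := by
    have := hmul 1 C.one_mem 1 C.one_mem
    rw [mul_one] at this
    simpa using this
  have hinv : ∀ g ∈ C, lam g⁻¹ = lam g := by
    intro g hg
    have h1 := hmul g hg g⁻¹ (C.inv_mem hg)
    rw [mul_inv_cancel, hone] at h1
    have h2 : ∀ a b : ZMod 2, 0 = a + b → b = a := by decide
    exact h2 _ _ h1
  let V : Subgroup (AbsGal K) :=
    { carrier := {g | g ∈ C ∧ lam g = 0}
      mul_mem' := by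
        rintro g h ⟨hg, hg0⟩ ⟨hh, hh0⟩
        exact ⟨C.mul_mem hg hh, by rw [hmul g hg h hh, hg0, hh0, add_zero]⟩
      one_mem' := ⟨C.one_mem, hone⟩
      inv_mem' := by
        rintro g ⟨hg, hg0⟩
        exact ⟨C.inv_mem hg, by rw [hinv g hg, hg0]⟩ }
  have hV : ∀ g, g ∈ V ↔ g ∈ C ∧ lam g = 0 := fun g => Iff.rfl
  have hVcl : IsClosed (V : Set (AbsGal K)) := by
    rw [← isOpen_compl_iff, isOpen_iff_mem_nhds]
    intro g hg
    by_cases hgC : g ∈ C
    · have h1 : IsOpen ((fun x => g⁻¹ * x) ⁻¹' (U' : Set (AbsGal K))) :=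
        hU'.preimage (continuous_const_mul g⁻¹)
      refine Filter.mem_of_superset (h1.mem_nhds ?_) ?_
      · show g⁻¹ * g ∈ U'
        rw [inv_mul_cancel]
        exact U'.one_mem
      · intro x hx hxV
        have hxV' : x ∈ C ∧ lam x = 0 := hxV
        have hx' : g⁻¹ * x ∈ U' := hx
        have h2 : g⁻¹ * x ∈ C := C.mul_mem (C.inv_mem hgC) hxV'.1
        have h3 := hlamU _ ⟨h2, hx'⟩
        rw [hmul _ (C.inv_mem hgC) _ hxV'.1, hinv g hgC, hxV'.2, add_zero] at h3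
        exact hg ⟨hgC, h3⟩
    · refine Filter.mem_of_superset (hC.isOpen_compl.mem_nhds hgC) ?_
      intro x hx hxV
      exact hx (show x ∈ C ∧ lam x = 0 from hxV).1
  by_cases hall : ∀ g ∈ C, lam g = 0
  · refine ⟨1, one_ne_zero, fun g _ => Or.inl (map_one g), fun g hg => ⟨fun _ => map_one g,
      fun _ => hall g hg⟩⟩
  push Not at hall
  obtain ⟨g₀, hg₀, hlg₀⟩ := hall
  have htwo : ∀ a : ZMod 2, a ≠ 0 → a = 1 := by decide
  have hlg1 := htwo _ hlg₀
  obtain ⟨x, hx, hgx⟩ : ∃ x ∈ Fx V, g₀ x ≠ x := by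
    by_contra hcon
    push Not at hcon
    have h1 := InfiniteGalois.fixingSubgroup_fixedField (k := K) (K := AlgebraicClosure K)
      (⟨V, hVcl⟩ : ClosedSubgroup (AbsGal K))
    have h2 : g₀ ∈ (IntermediateField.fixedField V).fixingSubgroup := by
      rw [IntermediateField.mem_fixingSubgroup_iff]
      intro y hy
      exact hcon y hy
    have h3 : g₀ ∈ V := by
      rw [← show (IntermediateField.fixedField V).fixingSubgroup = V from h1]
      exact h2
    exact hlg₀ ((hV g₀).1 h3).2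
  have hxV : ∀ u ∈ V, u x = x := mem_Fx.1 hx
  have hvt : ∀ u ∈ V, u (x - g₀ x) = x - g₀ x := by
    intro u hu
    have hu' := (hV u).1 hu
    have h1 : g₀⁻¹ * u * g₀ ∈ V := by
      rw [hV]
      refine ⟨C.mul_mem (C.mul_mem (C.inv_mem hg₀) hu'.1) hg₀, ?_⟩
      rw [hmul _ (C.mul_mem (C.inv_mem hg₀) hu'.1) _ hg₀, hmul _ (C.inv_mem hg₀) _ hu'.1,
        hinv g₀ hg₀, hu'.2, hlg1]
      decide
    have h2 := hxV _ h1
    have h3 : g₀ ((g₀⁻¹ * u * g₀) x) = u (g₀ x) := by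
      rw [← AlgEquiv.mul_apply, ← AlgEquiv.mul_apply]
      congr 1
      group
    rw [h2] at h3
    rw [map_sub, hxV u hu, ← h3]
  have hg₀2 : g₀ * g₀ ∈ V := by
    rw [hV]
    refine ⟨C.mul_mem hg₀ hg₀, ?_⟩
    rw [hmul _ hg₀ _ hg₀, hlg1]
    decide
  have hgt : g₀ (x - g₀ x) = -(x - g₀ x) := by
    have h1 : g₀ (g₀ x) = x := hxV _ hg₀2
    rw [map_sub, h1]
    ring
  have ht0 : x - g₀ x ≠ 0 := fun h => hgx (sub_eq_zero.1 h).symm
  have hneg : ∀ g ∈ C, lam g ≠ 0 → g (x - g₀ x) = -(x - g₀ x) := by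
    intro g hg hl
    have h1 : g₀⁻¹ * g ∈ V := by
      rw [hV]
      refine ⟨C.mul_mem (C.inv_mem hg₀) hg, ?_⟩
      rw [hmul _ (C.inv_mem hg₀) _ hg, hinv g₀ hg₀, hlg1, htwo _ hl]
      decide
    have h2 := hvt _ h1
    have h3 : g₀ ((g₀⁻¹ * g) (x - g₀ x)) = g (x - g₀ x) := by
      rw [← AlgEquiv.mul_apply]
      congr 1
      group
    rw [← h3, h2, hgt]
  refine ⟨x - g₀ x, ht0, fun g hg => ?_, fun g hg => ⟨fun hl => hvt g ((hV g).2 ⟨hg, hl⟩),
    fun h => ?_⟩⟩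
  · by_cases hl : lam g = 0
    · exact Or.inl (hvt g ((hV g).2 ⟨hg, hl⟩))
    · exact Or.inr (hneg g hg hl)
  · by_contra hl
    have h1 := hneg g hg hl
    rw [h] at h1
    have h2 : (2 : AlgebraicClosure K) * (x - g₀ x) = 0 := by linear_combination h1
    exact (mul_ne_zero two_ne_zero ht0) h2

end Pool.Agent.Work.MP_787500_nt.GP
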