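import Mathlib
import Pool.Agent.Work.MP_787500_nt.GP.ADefs
import Pool.Agent.Work.MP_787500_nt.Gn.Stab

/-!
# Module C5_COREHOM (size M): homomorphisms of the core that vanish on inertia

`C = Gn.core 2 ⊤ I`, closed and normal. `M = {c ∈ C | ∀ g, lam (g * c * g⁻¹) = 0}`, a subgroup, normal in `G`,
which contains `I` (`I ⊆ C` and `I` is stable under conjugation, `hB.conj`). Let `N` be an open normal
subgroup with `lam = 0` on `C ⊓ N` (`G` is compact: every open subgroup contains an open normal one,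
its normal core); then `C ⊓ N ≤ M`. `c ^ 2 ∈ M` for `c ∈ C`. By compactness there is `W₀` with
`GoodG 2 ⊤ I W₀` and `W₀ ⊆ N * C`: the set `N * C` is open and contains the intersection `C` of the closed
sets `W` (`GoodG`), which are directed (`GoodG.inf`). So `W₀ = (N ⊓ W₀) C`. Let `W = M ⊔ (N ⊓ W₀)`; it is
normal and open, contains `I`, and for `g ∈ G` some `g ^ (2 ^ k) ∈ W₀`, `= n c` with `n ∈ N ⊓ W₀`, `c ∈ C`,
and modulo the normal subgroup `N ⊓ W₀` the element `g ^ (2 ^ (k + 1))` is `c ^ 2`, which is in `M`. So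
`GoodG 2 ⊤ I W`, hence `C ≤ W`: for `c ∈ C`, `c = m n`, `n = m⁻¹ c ∈ C ⊓ N ≤ M`, so `c ∈ M` and
`lam c = lam (1 * c * 1⁻¹) = 0`.
-/

set_option autoImplicit false
set_option linter.unusedSectionVars false

namespace Pool.Agent.Work.MP_787500_nt.GP

open IsDedekindDomain NumberField
open Pool.Agent.Work.MP_787500_nt.PA (TwoSys Sm1 Sm2 homs Coc Cob IsChar goodSys core cyc Opn SU)
open Pool.Agent.Work.MP_787500_nt.Gn (GoodG)

variable {G : Type*} [Group G] [TopologicalSpace G] [IsTopologicalGroup G] [CompactSpace G]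

/-- an open subgroup that contains the core contains a member of the family -/
theorem core_basis {I : Set G} (hB : Gn.Base (⊤ : Subgroup G) I) {O : Set G} (hO : IsOpen O)
    (h : (Gn.core 2 ⊤ I : Set G) ⊆ O) : ∃ W, GoodG 2 ⊤ I W ∧ (W : Set G) ⊆ O := by
  by_contra hcon
  push Not at hcon
  let t : {W : Subgroup G // GoodG 2 ⊤ I W} → Set G := fun W => Oᶜ ∩ W.1
  have hcl : ∀ W, IsClosed (t W) := fun W =>
    hO.isClosed_compl.inter (Subgroup.isClosed_of_isOpen W.1 W.2.isOpen)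
  have hne : Nonempty {W : Subgroup G // GoodG 2 ⊤ I W} := ⟨⟨⊤, Gn.GoodG.top hB⟩⟩
  have hh := IsCompact.nonempty_iInter_of_directed_nonempty_isCompact_isClosed t
    (fun W W' => ⟨⟨W.1 ⊓ W'.1, W.2.inf W'.2⟩, fun d hd => ⟨hd.1, hd.2.1⟩,
      fun d hd => ⟨hd.1, hd.2.2⟩⟩)
    (fun W => by
      have h1 := hcon W.1 W.2
      rw [Set.not_subset] at h1
      obtain ⟨d, hd, hd'⟩ := h1
      exact ⟨d, hd', hd⟩)
    (fun W => (hcl W).isCompact) hcl
  obtain ⟨d, hd⟩ := hh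
  rw [Set.mem_iInter] at hd
  have h1 : d ∉ O := (hd ⟨⊤, Gn.GoodG.top hB⟩).1
  apply h1
  apply h
  show d ∈ Gn.core 2 ⊤ I
  rw [Gn.core, Subgroup.mem_sInf]
  intro W hW
  exact (hd ⟨W, hW⟩).2

open scoped Pointwise in
theorem core_hom {I : Set G} (hB : Gn.Base (⊤ : Subgroup G) I) (lam : G → ZMod 2)
    (hmul : ∀ g ∈ Gn.core 2 ⊤ I, ∀ h ∈ Gn.core 2 ⊤ I, lam (g * h) = lam g + lam h)
    (hcont : ∃ U' : Subgroup G, IsOpen (U' : Set G) ∧ ∀ g ∈ Gn.core 2 ⊤ I ⊓ U', lam g = 0)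
    (hI : ∀ σ ∈ I, lam σ = 0) {g : G} (hg : g ∈ Gn.core 2 ⊤ I) : lam g = 0 := by
  classical
  have hCn : (Gn.core 2 ⊤ I).Normal := Gn.core_normal
  obtain ⟨U', hU', hz⟩ := hcont
  -- an open normal subgroup
  have hfin : U'.FiniteIndex := by
    have : Finite (G ⧸ U') := Subgroup.quotient_finite_of_isOpen U' hU'
    exact Subgroup.finiteIndex_of_finite_quotient
  have hNo : IsOpen (U'.normalCore : Set G) :=
    Subgroup.isOpen_of_isClosed_of_finiteIndex _
      (U'.normalCore_isClosed (Subgroup.isClosed_of_isOpen U' hU'))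
  have hNn : U'.normalCore.Normal := inferInstance
  have hNz : ∀ c ∈ Gn.core 2 ⊤ I, c ∈ U'.normalCore → lam c = 0 := fun c hc hc' =>
    hz c ⟨hc, U'.normalCore_le hc'⟩
  -- basic facts on `lam`
  have h1 : lam 1 = 0 := by
    have h2 := hmul 1 (one_mem _) 1 (one_mem _)
    rw [mul_one] at h2
    simpa using h2
  have h2z : ∀ a : ZMod 2, a + a = 0 := by decide
  have hinv : ∀ c ∈ Gn.core 2 ⊤ I, lam c⁻¹ = lam c := by
    intro c hc
    have h2 := hmul c hc c⁻¹ (inv_mem hc)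
    rw [mul_inv_cancel, h1] at h2
    exact add_left_cancel (h2.symm.trans (h2z _).symm)
  -- the subgroup `M`
  let M : Subgroup G :=
    { carrier := {c | c ∈ Gn.core 2 ⊤ I ∧ ∀ x, lam (x * c * x⁻¹) = 0}
      mul_mem' := by
        rintro a b ⟨ha, ha'⟩ ⟨hb, hb'⟩
        refine ⟨mul_mem ha hb, fun x => ?_⟩
        have e : x * (a * b) * x⁻¹ = (x * a * x⁻¹) * (x * b * x⁻¹) := by group
        rw [e, hmul _ (hCn.conj_mem a ha x) _ (hCn.conj_mem b hb x), ha', hb', add_zero]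
      one_mem' := ⟨one_mem _, fun x => by rw [mul_one, mul_inv_cancel]; exact h1⟩
      inv_mem' := by
        rintro a ⟨ha, ha'⟩
        refine ⟨inv_mem ha, fun x => ?_⟩
        have e : x * a⁻¹ * x⁻¹ = (x * a * x⁻¹)⁻¹ := by group
        rw [e, hinv _ (hCn.conj_mem a ha x), ha'] }
  have hMn : M.Normal := by
    constructor
    rintro n ⟨hn, hn'⟩ x
    refine ⟨hCn.conj_mem n hn x, fun y => ?_⟩
    have e : y * (x * n * x⁻¹) * y⁻¹ = (y * x) * n * (y * x)⁻¹ := by group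
    rw [e]
    exact hn' _
  have hMsq : ∀ c ∈ Gn.core 2 ⊤ I, c * c ∈ M := by
    intro c hc
    refine ⟨mul_mem hc hc, fun x => ?_⟩
    have e : x * (c * c) * x⁻¹ = (x * c * x⁻¹) * (x * c * x⁻¹) := by group
    rw [e, hmul _ (hCn.conj_mem c hc x) _ (hCn.conj_mem c hc x)]
    exact h2z _
  have hMI : ∀ σ ∈ I, σ ∈ M := by
    intro σ hσ
    refine ⟨Gn.inertia_le_core hσ, fun x => ?_⟩
    have h3 := hB.conj x⁻¹ σ hσ
    rw [inv_inv] at h3
    exact hI _ h3
  -- the subgroup `W₀`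
  obtain ⟨W₀, hW₀, hsub⟩ := core_basis hB
    (O := (U'.normalCore : Set G) * (Gn.core 2 ⊤ I : Set G)) hNo.mul_right
    (fun c hc => ⟨1, one_mem _, c, hc, one_mul c⟩)
  have hW₀n := hW₀.normal
  have hNW : (U'.normalCore ⊓ W₀).Normal := inferInstance
  have hgood : GoodG 2 ⊤ I (M ⊔ (U'.normalCore ⊓ W₀)) := by
    refine ⟨inferInstance, ?_, le_top, fun x _ => ?_, fun σ hσ =>
      (le_sup_left : M ≤ M ⊔ (U'.normalCore ⊓ W₀)) (hMI σ hσ)⟩
    · refine Subgroup.isOpen_mono (le_sup_right : U'.normalCore ⊓ W₀ ≤ _) ?_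
      exact hNo.inter hW₀.isOpen
    · obtain ⟨k, hk⟩ := hW₀.pow x trivial
      obtain ⟨n, hn, c, hc, hnc⟩ := hsub hk
      have hcW : c ∈ W₀ := Gn.core_le hW₀ hc
      have hn' : n ∈ U'.normalCore ⊓ W₀ := by
        refine ⟨hn, ?_⟩
        have h3 : n = x ^ 2 ^ k * c⁻¹ := by
          rw [← hnc]
          show n = n * c * c⁻¹
          rw [mul_inv_cancel_right]
        rw [h3]
        exact W₀.mul_mem hk (W₀.inv_mem hcW)
      refine ⟨k + 1, ?_⟩
      have e : x ^ 2 ^ (k + 1) = (n * (c * n * c⁻¹)) * (c * c) := by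
        rw [pow_succ, pow_mul, pow_two, ← hnc]
        show n * c * (n * c) = _
        group
      rw [e]
      refine mul_mem ((le_sup_right : U'.normalCore ⊓ W₀ ≤ _) ?_)
        ((le_sup_left : M ≤ _) (hMsq c hc))
      exact mul_mem hn' (hNW.conj_mem n hn' c)
  have hgW := Gn.core_le hgood hg
  rw [← SetLike.mem_coe, Subgroup.mul_normal] at hgW
  obtain ⟨m, hm, n, hn, hmn⟩ := hgW
  have hnC : n ∈ Gn.core 2 ⊤ I := by
    have h3 : n = m⁻¹ * g := by
      rw [← hmn]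
      show n = m⁻¹ * (m * n)
      rw [inv_mul_cancel_left]
    rw [h3]
    exact mul_mem (inv_mem hm.1) hg
  have h3 : lam g = lam m + lam n := by
    rw [← hmn]
    exact hmul m hm.1 n hnC
  have h4 := hm.2 1
  rw [one_mul, inv_one, mul_one] at h4
  rw [h3, h4, hNz n hnC hn.1, add_zero]

end Pool.Agent.Work.MP_787500_nt.GP
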