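import Mathlib
import Pool.Agent.Work.MP_787500_nt.GP.C6_In
import Pool.Agent.Work.MP_787500_nt.PA.CycK

/-!
Kummer cocycles with values in the 2-adic integers: definitions (fixed, do not change).
-/

set_option autoImplicit false
set_option linter.unusedSectionVars false

namespace Pool.Agent.Work.MP_787500_nt.GP

open IsDedekindDomain NumberField
open Pool.Agent.Work.MP_787500_nt.PA (TwoSys Sm1 Sm2 homs Coc Cob IsChar goodSys core cyc Opn SU)
open Pool.Agent.Work.MP_787500_nt.Gn (GoodG)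

universe u

section

variable (K : Type u) [Field K]

/-- a square root -/
noncomputable def rt {K : Type u} [Field K] (x : AlgebraicClosure K) : AlgebraicClosure K :=
  Classical.choose (IsAlgClosed.exists_pow_nat_eq x (n := 2) (by norm_num))

theorem rt_sq {K : Type u} [Field K] (x : AlgebraicClosure K) : rt x ^ 2 = x :=
  Classical.choose_spec (IsAlgClosed.exists_pow_nat_eq x (n := 2) (by norm_num))

/-- `zt K (k + 1)` is the square root of `zt K k`, `zt K 1 = -1`, `zt K 0 = 1` -/
noncomputable def zt : ℕ → AlgebraicClosure K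
  | 0 => 1
  | 1 => -1
  | (k + 2) => rt (zt (k + 1))

theorem zt_zero : zt K 0 = 1 := rfl

theorem zt_one : zt K 1 = -1 := rfl

theorem zt_sq (k : ℕ) : zt K (k + 1) ^ 2 = zt K k := by
  rcases k with _ | k
  · rw [zt_zero, zt_one]
    norm_num
  · exact rt_sq _

/-- `zt K k ^ a` for a 2-adic integer `a` -/
noncomputable def zp (k : ℕ) (a : ℤ_[2]) : AlgebraicClosure K :=
  zt K k ^ (PadicInt.toZModPow k a).val

end

section

variable {K : Type u} [Field K]

/-- `r` is a coherent sequence of roots of `r 0 ∈ K`, and `a` the Kummer cocycle that describes the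
action on it -/
structure IsKum (r : ℕ → AlgebraicClosure K) (a : AbsGal K → ℤ_[2]) : Prop where
  ne : r 0 ≠ 0
  sq : ∀ k, r (k + 1) ^ 2 = r k
  act : ∀ g k, g (r k) = zp K k (a g) * r k

/-- `x` is fixed by a subgroup of the system of `T` -/
def InMT (T : Finset ℕ) (x : AlgebraicClosure K) : Prop := ∃ W, GoodT K T W ∧ ∀ w ∈ W, w x = x

/-- `x` is a unit at all primes that contain neither 2 nor an element of `T` -/
def UT (T : Finset ℕ) (x : AlgebraicClosure K) : Prop :=
  x ≠ 0 ∧ ∀ Q : Ideal (𝓞 (AlgebraicClosure K)), Q.IsPrime → (2 : 𝓞 (AlgebraicClosure K)) ∉ Q →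
    (∀ l ∈ T, (l : 𝓞 (AlgebraicClosure K)) ∉ Q) → UnitAt Q x

end

/-- The homomorphism `lam` from the 2-adic units to the 2-adic integers: `x = ± 5 ^ (lam x)`. -/
structure IsLam (lam : ℤ_[2] → ℤ_[2]) : Prop where
  mul : ∀ x y, IsUnit x → IsUnit y → lam (x * y) = lam x + lam y
  neg : lam (-1) = 0
  five : lam 5 = 1
  dvd : ∀ x, IsUnit x → ∀ n : ℕ, (2 : ℤ_[2]) ^ n ∣ lam x ↔
    (2 : ℤ_[2]) ^ (n + 2) ∣ x - 1 ∨ (2 : ℤ_[2]) ^ (n + 2) ∣ x + 1

end Pool.Agent.Work.MP_787500_nt.GP
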