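import Mathlib
import Pool.Agent.Work.MP_787500_nt.GP.KDefs
import Pool.Agent.Work.MP_787500_nt.GP.C5_CoreHom
import Pool.Agent.Work.MP_787500_nt.PA.RootM

/-!
# Module K1_UNIT (size M): units at a prime, square roots

* `UnitAt.mul`, `inv`: clear. `unitAt_val`: for `x ∈ K` (or in a number field inside the closure), `Q` above `v`: if
  the valuation is 1, `x = a / b` with `a, b ∈ 𝓞 K`, `b ∉ v` (localization at `v`), so `a ∉ v`; conversely if
  `x * y = z`, `y, z ∉ Q`, work in the number field generated by `y`, `z` over `K`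
  (`exists_valuation_below`).
* `UnitAt.of_pow`: `w ^ n` unit at `Q`: work in the number field `K (w)`, with the prime below `Q`: an element of
  valuation 1 is a quotient of integers not in the prime (if `Q = ⊥`, every nonzero element is a unit at `Q`).
* `InMT.sqrt`: `x ^ 2 = y`, `y` fixed by `W`, `GoodT K T W`. Let `W' = {w ∈ W | w (h x) = h x for all h}`, open normal
  in `AbsGal K` (finitely many conjugates), `W / W'` embeds in a product of groups of order 2: for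
  `w ∈ W`, `w (h x) = ± h x`. For `n ∈ Q.inertia` (`Q` as in `inT K T`): `n ∈ W`, `n (h x) = ± h x`, `h x` is a
  unit at `Q` (`UT` is stable under `h`, `UnitAt.of_pow`), so `unit_fix` gives `n (h x) = h x`.
* `InMT.mono`: `T ⊆ T'`: `inT K T' ⊆ inT K T`, so `GoodT K T W → GoodT K T' W`.
* `inMT_empty`: `GoodT K ∅ W ↔ PA.Good W`. `inMT_core`: an element fixed by `coreT K T` is in `InMT T`: its
  stabilizer is open and contains the core: `core_basis`.
-/

set_option autoImplicit false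
set_option linter.unusedSectionVars false

namespace Pool.Agent.Work.MP_787500_nt.GP

open IsDedekindDomain NumberField
open Pool.Agent.Work.MP_787500_nt.PA (TwoSys Sm1 Sm2 homs Coc Cob IsChar goodSys core cyc Opn SU)
open Pool.Agent.Work.MP_787500_nt.Gn (GoodG)

universe u

variable {K : Type u} [Field K] [NumberField K]

private theorem k1_not_mul {Q : Ideal (𝓞 (AlgebraicClosure K))} (hQ : Q.IsPrime)
    {x y : 𝓞 (AlgebraicClosure K)} (hx : x ∉ Q) (hy : y ∉ Q) : x * y ∉ Q := fun h =>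
  (hQ.mem_or_mem h).elim hx hy

private theorem k1_ne {Q : Ideal (𝓞 (AlgebraicClosure K))}
    {x : 𝓞 (AlgebraicClosure K)} (hx : x ∉ Q) : (x : AlgebraicClosure K) ≠ 0 := by
  intro h
  apply hx
  have : x = 0 := RingOfIntegers.ext h
  rw [this]
  exact Q.zero_mem

theorem UnitAt.mul {Q : Ideal (𝓞 (AlgebraicClosure K))} (hQ : Q.IsPrime) {w w' : AlgebraicClosure K}
    (h : UnitAt Q w) (h' : UnitAt Q w') : UnitAt Q (w * w') := by
  obtain ⟨x, y, hx, hy, hxy⟩ := h
  obtain ⟨x', y', hx', hy', hxy'⟩ := h'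
  refine ⟨x * x', y * y', k1_not_mul hQ hx hx', k1_not_mul hQ hy hy', ?_⟩
  have e1 : ((y * y' : 𝓞 (AlgebraicClosure K)) : AlgebraicClosure K) =
    (y : AlgebraicClosure K) * y' := rfl
  have e2 : ((x * x' : 𝓞 (AlgebraicClosure K)) : AlgebraicClosure K) =
    (x : AlgebraicClosure K) * x' := rfl
  rw [e1, e2, ← hxy, ← hxy']
  ring

theorem UnitAt.inv {Q : Ideal (𝓞 (AlgebraicClosure K))} {w : AlgebraicClosure K}
    (h : UnitAt Q w) : UnitAt Q w⁻¹ := by
  obtain ⟨x, y, hx, hy, hxy⟩ := h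
  refine ⟨y, x, hy, hx, ?_⟩
  have hw : w ≠ 0 := by
    rintro rfl
    rw [zero_mul] at hxy
    exact k1_ne hx hxy.symm
  rw [← hxy, inv_mul_cancel_left₀ hw]

private theorem k1_val_lt {Q : Ideal (𝓞 (AlgebraicClosure K))} (hQ : Q.IsPrime)
    {v : HeightOneSpectrum (𝓞 K)}
    (hv : Q.comap (algebraMap (𝓞 K) (𝓞 (AlgebraicClosure K))) = v.asIdeal) {x : K}
    (h : UnitAt Q (algebraMap K (AlgebraicClosure K) x)) : ¬ v.valuation K x < 1 := by
  intro hlt
  obtain ⟨n, d, hnd⟩ := v.exists_primeCompl_mul_eq_of_integer x hlt.le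
  have hd : (d : 𝓞 K) ∉ v.asIdeal := d.2
  have hvd : v.valuation K (algebraMap (𝓞 K) K d) = 1 :=
    (HeightOneSpectrum.valuation_eq_one_iff_notMem (K := K) v).2 hd
  have hvn : v.valuation K (algebraMap (𝓞 K) K n) < 1 := by
    rw [← hnd, map_mul, hvd, mul_one]
    exact hlt
  have hn : n ∈ v.asIdeal := by
    by_contra hcon
    rw [(HeightOneSpectrum.valuation_eq_one_iff_notMem (K := K) v).2 hcon] at hvn
    exact lt_irrefl _ hvn
  obtain ⟨z, y, hz, hy, hzy⟩ := h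
  have hnQ : algebraMap (𝓞 K) (𝓞 (AlgebraicClosure K)) n ∈ Q := hv.ge hn
  have hdQ : algebraMap (𝓞 K) (𝓞 (AlgebraicClosure K)) d ∉ Q := fun h => hd (hv.le h)
  have e1 : algebraMap (𝓞 K) (𝓞 (AlgebraicClosure K)) n * y =
      algebraMap (𝓞 K) (𝓞 (AlgebraicClosure K)) d * z := by
    apply RingOfIntegers.ext
    show algebraMap K (AlgebraicClosure K) (algebraMap (𝓞 K) K n) * (y : AlgebraicClosure K) =
      algebraMap K (AlgebraicClosure K) (algebraMap (𝓞 K) K d) * (z : AlgebraicClosure K)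
    rw [← hnd, map_mul, ← hzy]
    ring
  have h2 : algebraMap (𝓞 K) (𝓞 (AlgebraicClosure K)) d * z ∈ Q := by
    rw [← e1]
    exact Q.mul_mem_right _ hnQ
  exact k1_not_mul hQ hdQ hz h2

theorem unitAt_val {Q : Ideal (𝓞 (AlgebraicClosure K))} (hQ : Q.IsPrime)
    {v : HeightOneSpectrum (𝓞 K)}
    (hv : Q.comap (algebraMap (𝓞 K) (𝓞 (AlgebraicClosure K))) = v.asIdeal) {x : K} :
    UnitAt Q (algebraMap K (AlgebraicClosure K) x) ↔ v.valuation K x = 1 := by
  constructor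
  · intro h
    have h1 := k1_val_lt hQ hv h
    have h2 : UnitAt Q (algebraMap K (AlgebraicClosure K) x⁻¹) := by
      rw [map_inv₀]
      exact h.inv
    have h3 := k1_val_lt hQ hv h2
    apply le_antisymm
    · by_contra h4
      push Not at h4
      apply h3
      rw [map_inv₀]
      exact inv_lt_one_of_one_lt₀ h4
    · exact not_lt.1 h1
  · intro hw
    obtain ⟨n, d, hnd⟩ := v.exists_primeCompl_mul_eq_of_integer x hw.le
    have hd : (d : 𝓞 K) ∉ v.asIdeal := d.2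
    have hvd : v.valuation K (algebraMap (𝓞 K) K d) = 1 :=
      (HeightOneSpectrum.valuation_eq_one_iff_notMem (K := K) v).2 hd
    have hvn : v.valuation K (algebraMap (𝓞 K) K n) = 1 := by
      rw [← hnd, map_mul, hw, hvd, one_mul]
    have hn : n ∉ v.asIdeal := (HeightOneSpectrum.valuation_eq_one_iff_notMem (K := K) v).1 hvn
    refine ⟨algebraMap (𝓞 K) (𝓞 (AlgebraicClosure K)) n,
      algebraMap (𝓞 K) (𝓞 (AlgebraicClosure K)) d, fun h => hn (hv.le h),
      fun h => hd (hv.le h), ?_⟩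
    show algebraMap K (AlgebraicClosure K) x *
      algebraMap K (AlgebraicClosure K) (algebraMap (𝓞 K) K d) =
      algebraMap K (AlgebraicClosure K) (algebraMap (𝓞 K) K n)
    rw [← map_mul, hnd]

theorem UnitAt.of_pow {Q : Ideal (𝓞 (AlgebraicClosure K))} (hQ : Q.IsPrime)
    {w : AlgebraicClosure K} {n : ℕ} (hn : n ≠ 0) (h : UnitAt Q (w ^ n)) : UnitAt Q w := by
  obtain ⟨x, y, hx, hy, hxy⟩ := h
  obtain ⟨m, rfl⟩ := Nat.exists_eq_succ_of_ne_zero hn
  have e1 : (w * (y : AlgebraicClosure K)) ^ (m + 1) =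
      ((x * y ^ m : 𝓞 (AlgebraicClosure K)) : AlgebraicClosure K) := by
    have e2 : ((x * y ^ m : 𝓞 (AlgebraicClosure K)) : AlgebraicClosure K) =
      (x : AlgebraicClosure K) * (y : AlgebraicClosure K) ^ m :=
      (map_mul (algebraMap (𝓞 (AlgebraicClosure K)) (AlgebraicClosure K)) x (y ^ m)).trans
        (congrArg _ (map_pow (algebraMap (𝓞 (AlgebraicClosure K)) (AlgebraicClosure K)) y m))
    rw [e2, ← hxy, mul_pow, Nat.succ_eq_add_one]
    ring
  have hint : IsIntegral ℤ (w * (y : AlgebraicClosure K)) :=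
    IsIntegral.of_pow (Nat.succ_pos m) (by rw [e1]; exact RingOfIntegers.isIntegral_coe _)
  obtain ⟨z, hz⟩ : ∃ z : 𝓞 (AlgebraicClosure K), (z : AlgebraicClosure K) =
    w * (y : AlgebraicClosure K) := ⟨⟨_, hint⟩, rfl⟩
  refine ⟨z, y, ?_, hy, hz.symm⟩
  intro hmem
  have e3 : z ^ (m + 1) = x * y ^ m := by
    apply RingOfIntegers.ext
    rw [← e1, ← hz]
    exact map_pow (algebraMap (𝓞 (AlgebraicClosure K)) (AlgebraicClosure K)) z (m + 1)
  have e4 : z ^ (m + 1) ∈ Q := Ideal.pow_mem_of_mem Q hmem _ (Nat.succ_pos m)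
  rw [e3] at e4
  rcases hQ.mem_or_mem e4 with h | h
  · exact hx h
  · exact hy (hQ.mem_of_pow_mem _ h)

theorem UT.mul {T : Finset ℕ} {x y : AlgebraicClosure K} (hx : UT T x) (hy : UT T y) :
    UT T (x * y) :=
  ⟨mul_ne_zero hx.1 hy.1, fun Q hQ h2 hT => (hx.2 Q hQ h2 hT).mul hQ (hy.2 Q hQ h2 hT)⟩

theorem UT.of_pow {T : Finset ℕ} {x : AlgebraicClosure K} {n : ℕ} (hn : n ≠ 0)
    (h : UT T (x ^ n)) : UT T x :=
  ⟨fun h0 => h.1 (by rw [h0, zero_pow hn]), fun Q hQ h2 hT => (h.2 Q hQ h2 hT).of_pow hQ hn⟩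

theorem SU.ut {x : AlgebraicClosure K} (h : SU x) (T : Finset ℕ) : UT T x := by
  obtain ⟨h0, ⟨N, hN⟩, ⟨M, hM⟩⟩ := h
  refine ⟨h0, fun Q hQ h2 _ => ?_⟩
  let X : 𝓞 (AlgebraicClosure K) := ⟨_, hN⟩
  let Y : 𝓞 (AlgebraicClosure K) := ⟨_, hM⟩
  have h5 : X * Y = 2 ^ (N + M) := by
    apply RingOfIntegers.ext
    show ((2 : AlgebraicClosure K) ^ N * x) * ((2 : AlgebraicClosure K) ^ M * x⁻¹) =
      algebraMap (𝓞 (AlgebraicClosure K)) (AlgebraicClosure K) (2 ^ (N + M))
    have : ((2 : AlgebraicClosure K) ^ N * x) * ((2 : AlgebraicClosure K) ^ M * x⁻¹) =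
        2 ^ (N + M) * (x * x⁻¹) := by ring
    rw [this, mul_inv_cancel₀ h0, mul_one, map_pow]
    congr 1
  have h6 : ∀ n, (2 : 𝓞 (AlgebraicClosure K)) ^ n ∉ Q := fun n h => h2 (hQ.mem_of_pow_mem _ h)
  refine ⟨X, 2 ^ N, fun h => h6 (N + M) ?_, h6 N, ?_⟩
  · rw [← h5]
    exact Q.mul_mem_right _ h
  · show x * algebraMap (𝓞 (AlgebraicClosure K)) (AlgebraicClosure K) (2 ^ N) =
      (2 : AlgebraicClosure K) ^ N * x
    rw [map_pow, map_ofNat, mul_comm]

private theorem k1_conj {W : Subgroup (AbsGal K)} (hn : W.Normal) {x : AlgebraicClosure K}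
    (h : ∀ w ∈ W, w x = x) (g : AbsGal K) : ∀ w ∈ W, w (g x) = g x := by
  intro w hw
  have h1 : g⁻¹ * w * g ∈ W := by
    have := hn.conj_mem w hw g⁻¹
    rwa [inv_inv] at this
  have h2 := congrArg g (h _ h1)
  have h3 : g ((g⁻¹ * w * g) x) = w (g x) := by
    have : g * (g⁻¹ * w * g) = w * g := by group
    calc g ((g⁻¹ * w * g) x) = (g * (g⁻¹ * w * g)) x := rfl
      _ = (w * g) x := by rw [this]
      _ = w (g x) := rfl
  rw [← h3]
  exact h2

private theorem k1_core_open (x : AlgebraicClosure K) :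
    IsOpen ((MulAction.stabilizer (AbsGal K) x).normalCore : Set (AbsGal K)) := by
  have h1 : IsOpen (MulAction.stabilizer (AbsGal K) x : Set (AbsGal K)) :=
    stabilizer_isOpen_of_isIntegral x
  have : Finite (AbsGal K ⧸ MulAction.stabilizer (AbsGal K) x) :=
    Subgroup.quotient_finite_of_isOpen _ h1
  have : (MulAction.stabilizer (AbsGal K) x).FiniteIndex :=
    Subgroup.finiteIndex_of_finite_quotient
  have hcl : IsClosed (MulAction.stabilizer (AbsGal K) x : Set (AbsGal K)) :=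
    Subgroup.isClosed_of_isOpen _ h1
  apply Subgroup.isOpen_of_isClosed_of_finiteIndex
  have : ((MulAction.stabilizer (AbsGal K) x).normalCore : Set (AbsGal K)) =
      ⋂ b : AbsGal K, (fun a => b * a * b⁻¹) ⁻¹' (MulAction.stabilizer (AbsGal K) x) := by
    ext a
    simp only [Set.mem_iInter, Set.mem_preimage]
    rfl
  rw [this]
  exact isClosed_iInter fun b => hcl.preimage (by fun_prop)

/-- units at `Q` and the Galois group -/
private theorem k1_gal {Q : Ideal (𝓞 (AlgebraicClosure K))} {w : AlgebraicClosure K}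
    (g : AbsGal K) {Q' : Ideal (𝓞 (AlgebraicClosure K))} (hQ : ∀ x, x ∈ Q' ↔ g • x ∈ Q)
    (h : UnitAt Q' w) : UnitAt Q (g w) := by
  obtain ⟨x, y, hx, hy, hxy⟩ := h
  refine ⟨g • x, g • y, fun h => hx ((hQ x).2 h), fun h => hy ((hQ y).2 h), ?_⟩
  have := congrArg g hxy
  rw [map_mul] at this
  exact this

private theorem k1_UT_gal {T : Finset ℕ} {x : AlgebraicClosure K} (h : UT T x) (g : AbsGal K) :
    UT T (g x) := by
  refine ⟨(map_ne_zero g).2 h.1, fun Q hQ h2 hT => ?_⟩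
  let C : 𝓞 (AlgebraicClosure K) ≃+* 𝓞 (AlgebraicClosure K) :=
    MulSemiringAction.toRingEquiv (AbsGal K) (𝓞 (AlgebraicClosure K)) g
  refine k1_gal g (Q' := Q.comap (C : 𝓞 (AlgebraicClosure K) →+* 𝓞 (AlgebraicClosure K)))
    (fun x => Iff.rfl) (h.2 _ (Ideal.comap_isPrime _ _) ?_ ?_)
  · intro h3
    apply h2
    have h5 : (C : 𝓞 (AlgebraicClosure K) →+* 𝓞 (AlgebraicClosure K)) 2 ∈ Q := h3
    rwa [map_ofNat] at h5
  · intro l hl h3
    apply hT l hl
    have h5 : (C : 𝓞 (AlgebraicClosure K) →+* 𝓞 (AlgebraicClosure K)) l ∈ Q := h3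
    rwa [map_natCast] at h5

theorem InMT.sqrt {T : Finset ℕ} {x y : AlgebraicClosure K} (hy : InMT T y) (hu : UT T y)
    (h : x ^ 2 = y) : InMT T x := by
  obtain ⟨W, hW, hWy⟩ := hy
  have hmem : ∀ g : AbsGal K, g ∈ (MulAction.stabilizer (AbsGal K) x).normalCore ↔
      ∀ b : AbsGal K, g (b x) = b x := by
    intro g
    constructor
    · intro hg b
      have h1 : (b⁻¹ * g * b⁻¹⁻¹) x = x := hg b⁻¹
      rw [inv_inv] at h1
      have h2 := congrArg b h1
      have h3 : b ((b⁻¹ * g * b) x) = g (b x) := by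
        have : b * (b⁻¹ * g * b) = g * b := by group
        calc b ((b⁻¹ * g * b) x) = (b * (b⁻¹ * g * b)) x := rfl
          _ = (g * b) x := by rw [this]
          _ = g (b x) := rfl
      rw [← h3]
      exact h2
    · intro hg b
      show (b * g * b⁻¹) x = x
      have h1 := congrArg b (hg b⁻¹)
      have h3 : b (b⁻¹ x) = x := by
        have : b * b⁻¹ = 1 := mul_inv_cancel b
        calc b (b⁻¹ x) = (b * b⁻¹) x := rfl
          _ = x := by rw [this]; rfl
      rw [h3] at h1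
      exact h1
  have hsq : ∀ b : AbsGal K, (b x) ^ 2 = b y := by
    intro b
    rw [← map_pow, h]
  have hsign : ∀ w ∈ W, ∀ b : AbsGal K, w (b x) = b x ∨ w (b x) = - b x := by
    intro w hw b
    apply sq_eq_sq_iff_eq_or_eq_neg.1
    rw [← map_pow, hsq, k1_conj hW.normal hWy b w hw]
  refine ⟨W ⊓ (MulAction.stabilizer (AbsGal K) x).normalCore, ⟨?_, ?_, le_top, ?_, ?_⟩, ?_⟩
  · have := hW.normal
    infer_instance
  · exact hW.isOpen.inter (k1_core_open x)
  · intro g _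
    obtain ⟨k, hk⟩ := hW.pow g trivial
    refine ⟨k + 1, ?_⟩
    rw [pow_succ, pow_mul, pow_two]
    refine Subgroup.mem_inf.2 ⟨W.mul_mem hk hk, (hmem _).2 fun b => ?_⟩
    show (g ^ 2 ^ k) ((g ^ 2 ^ k) (b x)) = b x
    rcases hsign _ hk b with h1 | h1
    · rw [h1, h1]
    · rw [h1, map_neg, h1, neg_neg]
  · rintro g ⟨Q, hQ, hQ2, hQT, hg⟩
    have hgW := hW.inertia g ⟨Q, hQ, hQ2, hQT, hg⟩
    refine Subgroup.mem_inf.2 ⟨hgW, (hmem _).2 fun b => ?_⟩
    refine unit_fix hQ hQ2 ?_ hg (hsign _ hgW b)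
    refine UnitAt.of_pow hQ (n := 2) two_ne_zero ?_
    rw [hsq]
    exact (k1_UT_gal hu b).2 Q hQ hQ2 hQT
  · intro w hw
    exact (hmem w).1 hw.2 1

theorem goodT_empty {W : Subgroup (AbsGal K)} : GoodT K ∅ W ↔ PA.Good W := by
  constructor
  · intro h
    exact ⟨h.normal, h.isOpen, fun g => h.pow g trivial, fun Q hQ h2 σ hσ =>
      h.inertia σ ⟨Q, hQ, h2, fun l hl => absurd hl (Finset.notMem_empty l), hσ⟩⟩
  · intro h
    exact ⟨h.normal, h.isOpen, le_top, fun g _ => h.pow g, fun σ ⟨Q, hQ, h2, _, hσ⟩ =>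
      h.inertia Q hQ h2 hσ⟩

theorem GoodT.mono {T T' : Finset ℕ} (h : T ⊆ T') {W : Subgroup (AbsGal K)} (hW : GoodT K T W) :
    GoodT K T' W :=
  ⟨hW.normal, hW.isOpen, le_top, hW.pow, fun σ ⟨Q, hQ, h2, hT, hσ⟩ =>
    hW.inertia σ ⟨Q, hQ, h2, fun l hl => hT l (h hl), hσ⟩⟩

theorem Good.goodT {W : Subgroup (AbsGal K)} (hW : PA.Good W) (T : Finset ℕ) : GoodT K T W :=
  GoodT.mono (Finset.empty_subset T) (goodT_empty.2 hW)

theorem inMT_core {T : Finset ℕ} {x : AlgebraicClosure K} (h : ∀ g ∈ coreT K T, g x = x) :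
    InMT T x := by
  have h1 : IsOpen (MulAction.stabilizer (AbsGal K) x : Set (AbsGal K)) :=
    stabilizer_isOpen_of_isIntegral x
  obtain ⟨W, hW, hWx⟩ := core_basis (baseT K T) h1 (fun g hg => h g hg)
  exact ⟨W, hW, fun w hw => hWx hw⟩

end Pool.Agent.Work.MP_787500_nt.GP
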