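import Mathlib
import Pool.Agent.Work.MP_787500_nt.GP.K1_Unit
import Pool.Agent.Work.MP_787500_nt.GP.C2_Kum

/-!
# Module S0_KUMT (size M): homomorphisms for the T-system and square roots

`act2 U t` (`PA/Defs.lean`): 0 where `g ∈ U` fixes `t`. Follow `PA/ActHom.lean`.
* `act2_memT`: `t` is fixed by a member `W`; `W ⊓ W'` with `W' ≤ U`.
* `exists_act2T`: `exists_kum` for the open (hence closed) subgroup `U` and `ψ` gives `t` with `g t = ± t` on `U`,
  `ψ g = 0 ↔ g t = t`. `InMT`: `ψ` is invariant under a member `W ≤ U`: `ψ w = ψ 1 = 0` for `w ∈ W`, so `W` fixes `t`.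
* `ram_T`: `Q` as in `inT K T`: its inertia group is in every `GoodT` subgroup, in particular it is in
  `U` and fixes `t`.
* `homs_of_T`: `ω ∈ homs (sysT K T) U` that vanishes on `Q.inertia` for all primes `Q` not containing 2 is in
  `homs (goodSys K) U`: `ω = act2 U t`; `t ^ 2` is fixed by a `Good` subgroup `W₀ ≤ U`; as in the proof of `InMT.sqrt` let
  `W' = {w ∈ W₀ | w (h t) = h t for all h}` (for `h ∈ AbsGal K`, `h t` is moved by `w ∈ h Q.inertia h⁻¹` only by a sign...):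
  for `n ∈ Q.inertia`, `n (h t) = h (h⁻¹ n h) t`, and `h⁻¹ n h` is in the inertia group of `h⁻¹ Q`, where
  `ω` vanishes; so `n` fixes `h t`. So `W'` is `Good`, and `ω` is invariant under `W'`.
-/

set_option autoImplicit false
set_option linter.unusedSectionVars false

namespace Pool.Agent.Work.MP_787500_nt.GP

open IsDedekindDomain NumberField
open Pool.Agent.Work.MP_787500_nt.PA (TwoSys Sm1 Sm2 homs Coc Cob IsChar goodSys core cyc Opn SU)
open Pool.Agent.Work.MP_787500_nt.Gn (GoodG)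

universe u

variable {K : Type u} [Field K] [NumberField K]

private theorem S0_KumT_sign {g : AbsGal K} {t : AlgebraicClosure K} (h : g (t ^ 2) = t ^ 2) :
    g t = t ∨ g t = -t := by
  apply sq_eq_sq_iff_eq_or_eq_neg.1
  rw [← map_pow, h]

private theorem S0_KumT_ne {t : AlgebraicClosure K} (ht : t ≠ 0) : -t ≠ t := by
  intro h
  have h2 : (2 : AlgebraicClosure K) * t = 0 := by linear_combination -h
  exact mul_ne_zero two_ne_zero ht h2

private theorem S0_KumT_fix {U : Subgroup (AbsGal K)} {g : AbsGal K} {t : AlgebraicClosure K}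
    (h : g t = t) : PA.act2 U t g = 0 := by
  classical
  unfold PA.act2
  rw [if_neg]
  rintro ⟨_, h2⟩
  exact h2 h

private theorem S0_KumT_neg {U : Subgroup (AbsGal K)} {g : AbsGal K} {t : AlgebraicClosure K}
    (ht : t ≠ 0) (hg : g ∈ U) (h : g t = -t) : PA.act2 U t g = 1 := by
  classical
  unfold PA.act2
  rw [if_pos]
  refine ⟨hg, ?_⟩
  rw [h]
  exact S0_KumT_ne ht

private theorem S0_KumT_off {U : Subgroup (AbsGal K)} {g : AbsGal K} {t : AlgebraicClosure K}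
    (hg : g ∉ U) : PA.act2 U t g = 0 := by
  classical
  unfold PA.act2
  rw [if_neg]
  rintro ⟨h1, _⟩
  exact hg h1

private theorem S0_KumT_z2 (a : ZMod 2) : a = 0 ∨ a = 1 := by
  revert a; decide

theorem act2_memT {T : Finset ℕ} {U : Subgroup (AbsGal K)} (hU : Opn (sysT K T) U)
    {t : AlgebraicClosure K} (ht0 : t ≠ 0) (ht : InMT T t) (hfix : ∀ g ∈ U, g (t ^ 2) = t ^ 2) :
    PA.act2 U t ∈ homs (sysT K T) U := by
  obtain ⟨WU, hWU, hle⟩ := hU
  obtain ⟨W, hW, hWt⟩ := ht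
  refine ⟨⟨W ⊓ WU, (sysT K T).inf hW hWU, ?_⟩, fun g hg => S0_KumT_off hg, ?_⟩
  · intro g w hw
    have hwU : w ∈ U := hle hw.2
    have hwt : w t = t := hWt w hw.1
    by_cases hg : g ∈ U
    · have hgw : (g * w) t = g t := by
        rw [AlgEquiv.mul_apply, hwt]
      rcases S0_KumT_sign (hfix g hg) with h | h
      · rw [S0_KumT_fix h, S0_KumT_fix (by rw [hgw, h])]
      · rw [S0_KumT_neg ht0 hg h, S0_KumT_neg ht0 (U.mul_mem hg hwU) (by rw [hgw, h])]
    · have hgw : g * w ∉ U := fun h => hg (by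
        have := U.mul_mem h (U.inv_mem hwU)
        rwa [mul_inv_cancel_right] at this)
      rw [S0_KumT_off hg, S0_KumT_off hgw]
  · intro g hg h hh
    have hgh := U.mul_mem hg hh
    rcases S0_KumT_sign (hfix g hg) with h1 | h1 <;> rcases S0_KumT_sign (hfix h hh) with h2 | h2
    · rw [S0_KumT_fix h1, S0_KumT_fix h2, S0_KumT_fix (by rw [AlgEquiv.mul_apply, h2, h1]), add_zero]
    · rw [S0_KumT_fix h1, S0_KumT_neg ht0 hh h2,
        S0_KumT_neg ht0 hgh (by rw [AlgEquiv.mul_apply, h2, map_neg, h1]), zero_add]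
    · rw [S0_KumT_neg ht0 hg h1, S0_KumT_fix h2,
        S0_KumT_neg ht0 hgh (by rw [AlgEquiv.mul_apply, h2, h1]), add_zero]
    · rw [S0_KumT_neg ht0 hg h1, S0_KumT_neg ht0 hh h2,
        S0_KumT_fix (by rw [AlgEquiv.mul_apply, h2, map_neg, h1, neg_neg])]
      decide

theorem exists_act2T {T : Finset ℕ} {U : Subgroup (AbsGal K)} (hU : Opn (sysT K T) U)
    {ψ : AbsGal K → ZMod 2} (hψ : ψ ∈ homs (sysT K T) U) :
    ∃ t : AlgebraicClosure K, t ≠ 0 ∧ InMT T t ∧ (∀ g ∈ U, g (t ^ 2) = t ^ 2) ∧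
      ψ = PA.act2 U t := by
  classical
  obtain ⟨WU, hWU, hle⟩ := hU
  obtain ⟨⟨W, hW, hsm⟩, hoff, hmul⟩ := hψ
  have h1 : ψ 1 = 0 := by
    have := hmul 1 U.one_mem 1 U.one_mem
    rw [mul_one] at this
    simpa using this
  have hUo : IsOpen (U : Set (AbsGal K)) := Subgroup.isOpen_mono hle (Gn.GoodG.isOpen hWU)
  have hsm1 : ∀ w ∈ W, ψ w = 0 := by
    intro w hw
    have := hsm 1 w hw
    rwa [one_mul, h1] at this
  obtain ⟨t, ht0, ht1, ht2⟩ := exists_kum (C := U) (Subgroup.isClosed_of_isOpen U hUo) ψ hmul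
    ⟨W, Gn.GoodG.isOpen hW, fun g hg => hsm1 g hg.2⟩
  refine ⟨t, ht0, ⟨W ⊓ WU, (sysT K T).inf hW hWU, fun w hw => ?_⟩, fun g hg => ?_, ?_⟩
  · exact (ht2 w (hle hw.2)).1 (hsm1 w hw.1)
  · rcases ht1 g hg with h | h
    · rw [map_pow, h]
    · rw [map_pow, h, neg_sq]
  · funext g
    by_cases hg : g ∈ U
    · rcases ht1 g hg with h | h
      · rw [(ht2 g hg).2 h, S0_KumT_fix h]
      · rw [S0_KumT_neg ht0 hg h]
        refine (S0_KumT_z2 _).resolve_left (fun h3 => ?_)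
        have h4 := (ht2 g hg).1 h3
        rw [h] at h4
        exact S0_KumT_ne ht0 h4
    · rw [hoff g hg, S0_KumT_off hg]

theorem homs_mono {T : Finset ℕ} {U : Subgroup (AbsGal K)} {ψ : AbsGal K → ZMod 2}
    (hψ : ψ ∈ homs (goodSys K) U) : ψ ∈ homs (sysT K T) U := by
  obtain ⟨⟨W, hW, h1⟩, h2, h3⟩ := hψ
  exact ⟨⟨W, Good.goodT hW T, h1⟩, h2, h3⟩

theorem homs_of_T {T : Finset ℕ} {U : Subgroup (AbsGal K)} (hU : Opn (goodSys K) U)
    {ω : AbsGal K → ZMod 2} (hω : ω ∈ homs (sysT K T) U)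
    (h0 : ∀ Q : Ideal (𝓞 (AlgebraicClosure K)), Q.IsPrime → (2 : 𝓞 (AlgebraicClosure K)) ∉ Q →
      ∀ n ∈ Q.inertia (AbsGal K), ω n = 0) : ω ∈ homs (goodSys K) U := by
  classical
  obtain ⟨W₀, hW₀, hle⟩ := hU
  have hW₀' : PA.Good W₀ := hW₀
  have hUT : Opn (sysT K T) U := ⟨W₀, Good.goodT hW₀' T, hle⟩
  obtain ⟨t, ht0, ⟨WT, hWT, hWTt⟩, hfix, hωt⟩ := exists_act2T hUT hω
  have hn0 := hW₀'.normal
  have hnT : WT.Normal := Gn.GoodG.normal hWT
  have hsgn : ∀ w ∈ W₀, ∀ h : AbsGal K, w (h t) = h t ∨ w (h t) = -(h t) := by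
    intro w hw h
    have h1 : h⁻¹ * w * h ∈ W₀ := by
      have := hn0.conj_mem w hw h⁻¹
      rwa [inv_inv] at this
    have h2 : h ((h⁻¹ * w * h) t) = w (h t) := by
      rw [← AlgEquiv.mul_apply, ← AlgEquiv.mul_apply]
      congr 1
      group
    rcases S0_KumT_sign (hfix _ (hle h1)) with h3 | h3
    · left
      rw [← h2, h3]
    · right
      rw [← h2, h3, map_neg]
  let W' : Subgroup (AbsGal K) :=
    { carrier := {w | w ∈ W₀ ∧ ∀ h : AbsGal K, w (h t) = h t}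
      mul_mem' := by
        rintro a b ⟨ha, ha'⟩ ⟨hb, hb'⟩
        exact ⟨W₀.mul_mem ha hb, fun h => by rw [AlgEquiv.mul_apply, hb', ha']⟩
      one_mem' := ⟨W₀.one_mem, fun h => rfl⟩
      inv_mem' := by
        rintro a ⟨ha, ha'⟩
        refine ⟨W₀.inv_mem ha, fun h => ?_⟩
        have h1 : a⁻¹ (a (h t)) = h t := by
          rw [← AlgEquiv.mul_apply, inv_mul_cancel]
          rfl
        rw [ha'] at h1
        exact h1 }
  have hW' : ∀ w, w ∈ W' ↔ w ∈ W₀ ∧ ∀ h : AbsGal K, w (h t) = h t := fun w => Iff.rfl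
  have hgood : PA.Good W' := by
    refine ⟨⟨fun w hw g => ?_⟩, ?_, fun g => ?_, fun Q hQ hQ2 n hn => ?_⟩
    · rw [hW'] at hw ⊢
      refine ⟨hn0.conj_mem w hw.1 g, fun h => ?_⟩
      have h1 := hw.2 (g⁻¹ * h)
      have h2 : (g * w * g⁻¹) (h t) = g (w ((g⁻¹ * h) t)) := rfl
      rw [h2, h1, ← AlgEquiv.mul_apply]
      congr 1
      group
    · refine Subgroup.isOpen_mono (H₁ := W₀ ⊓ WT) ?_ (hW₀'.isOpen.inter (Gn.GoodG.isOpen hWT))
      intro w hw
      rw [hW']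
      refine ⟨hw.1, fun h => ?_⟩
      have h1 : h⁻¹ * w * h ∈ WT := by
        have := hnT.conj_mem w hw.2 h⁻¹
        rwa [inv_inv] at this
      have h2 : h ((h⁻¹ * w * h) t) = w (h t) := by
        rw [← AlgEquiv.mul_apply, ← AlgEquiv.mul_apply]
        congr 1
        group
      rw [← h2, hWTt _ h1]
    · obtain ⟨k, hk⟩ := hW₀'.pow g
      refine ⟨k + 1, ?_⟩
      rw [hW']
      have h1 : g ^ 2 ^ (k + 1) = g ^ 2 ^ k * g ^ 2 ^ k := by
        rw [← pow_add]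
        congr 1
        ring
      rw [h1]
      refine ⟨W₀.mul_mem hk hk, fun h => ?_⟩
      rw [AlgEquiv.mul_apply]
      rcases hsgn _ hk h with h2 | h2
      · rw [h2, h2]
      · rw [h2, map_neg, h2, neg_neg]
    · have hn0' := hW₀'.inertia Q hQ hQ2 hn
      rw [hW']
      refine ⟨hn0', fun h => ?_⟩
      obtain ⟨Q', hQ', hQ2', -, hn'⟩ := (baseT K ∅).conj h n ⟨Q, hQ, hQ2, by simp, hn⟩
      have h1 := h0 Q' hQ' hQ2' _ hn'
      have h3 : h⁻¹ * n * h ∈ W₀ := by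
        have := hn0.conj_mem n hn0' h⁻¹
        rwa [inv_inv] at this
      have h2 : h ((h⁻¹ * n * h) t) = n (h t) := by
        rw [← AlgEquiv.mul_apply, ← AlgEquiv.mul_apply]
        congr 1
        group
      rcases S0_KumT_sign (hfix _ (hle h3)) with h4 | h4
      · rw [← h2, h4]
      · rw [hωt, S0_KumT_neg ht0 (hle h3) h4] at h1
        exact absurd h1 one_ne_zero
  refine ⟨⟨W', hgood, fun g w hw => ?_⟩, hω.2.1, hω.2.2⟩
  have hw' := (hW' w).1 hw
  have hwU : w ∈ U := hle hw'.1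
  have hwt : w t = t := hw'.2 1
  rw [hωt]
  by_cases hg : g ∈ U
  · have hgw : (g * w) t = g t := by
      rw [AlgEquiv.mul_apply, hwt]
    rcases S0_KumT_sign (hfix g hg) with h | h
    · rw [S0_KumT_fix h, S0_KumT_fix (by rw [hgw, h])]
    · rw [S0_KumT_neg ht0 hg h, S0_KumT_neg ht0 (U.mul_mem hg hwU) (by rw [hgw, h])]
  · have hgw : g * w ∉ U := fun h => hg (by
      have := U.mul_mem h (U.inv_mem hwU)
      rwa [mul_inv_cancel_right] at this)
    rw [S0_KumT_off hg, S0_KumT_off hgw]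

end Pool.Agent.Work.MP_787500_nt.GP
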