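import Mathlib
import Pool.Agent.Work.MP_787500_nt.GP.Defs

/-!
Local groups of tame type: definitions (fixed, do not change).
-/

set_option autoImplicit false
set_option linter.unusedSectionVars false

namespace Pool.Agent.Work.MP_787500_nt.GP

open Pool.Agent.Work.MP_787500_nt.PA (TwoSys Sm1 Sm2 homs Coc Cob IsChar)

/-- the explicit invariant -/
def iota {D A : Type*} [Group D] [AddCommGroup A] (σ τ : D) (l : ℕ) (f : D → D → A) : A :=
  f σ τ - f (τ ^ l) σ - ∑ i ∈ Finset.Ico 1 l, f (τ ^ i) τ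

/-- `D` is generated, modulo every member of the system, by `σ` and `τ`, `σ τ σ⁻¹ = τ ^ l`; the members of
the system are described by the character `χ` and the cocycle `a`. -/
structure TameD {D : Type*} [Group D] (SD : TwoSys D) (χ a : D → ℤ_[2]) (σ τ : D) (l : ℕ) :
    Prop where
  char : IsChar SD χ
  c1 : PA.C1 SD a
  coc : ∀ g h, a (g * h) = a g + χ g * a h
  odd : Odd l
  lt : 2 < l
  σχ : χ σ = l
  σa : a σ = 0
  τχ : χ τ = 1
  τa : a τ = 1
  dens : ∀ (g : D) (n : ℕ), ∃ i : ℕ, (2 : ℤ_[2]) ^ n ∣ χ g - (l : ℤ_[2]) ^ i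
  sep : ∀ W, SD.mem W → ∃ n : ℕ, ∀ g, (2 : ℤ_[2]) ^ n ∣ χ g - 1 → (2 : ℤ_[2]) ^ n ∣ a g → g ∈ W

end Pool.Agent.Work.MP_787500_nt.GP
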