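import Mathlib
import Pool.Agent.Work.MP_787500_nt.GP.KDefs
import Pool.Agent.Work.MP_787500_nt.GP.GDefs
import Pool.Agent.Work.MP_787500_nt.GP.FDefs

/-!
Explicit classes: definitions (fixed, do not change).
-/

set_option autoImplicit false
set_option linter.unusedSectionVars false

namespace Pool.Agent.Work.MP_787500_nt.GP

open IsDedekindDomain NumberField
open Pool.Agent.Work.MP_787500_nt.PA (TwoSys Sm1 Sm2 homs Coc Cob IsChar goodSys core cyc Opn SU)
open Pool.Agent.Work.MP_787500_nt.Gn (GoodG)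

universe u

section sys

variable (K : Type u) [Field K] [NumberField K]

/-- the system of `T`, restricted to a subgroup -/
noncomputable def sysD (T : Finset ℕ) (D : Subgroup (AbsGal K)) : TwoSys D where
  mem W' := ∃ W, GoodT K T W ∧ W' = W.subgroupOf D
  ex := ⟨_, ⊤, Gn.GoodG.top (baseT K T), rfl⟩
  inf := by
    rintro _ _ ⟨W, hW, rfl⟩ ⟨W', hW', rfl⟩
    exact ⟨W ⊓ W', hW.inf hW', rfl⟩
  normal := by
    rintro _ ⟨W, hW, rfl⟩
    have := hW.normal
    infer_instance
  index := by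
    rintro _ ⟨W, hW, rfl⟩
    have := hW.normal
    obtain ⟨k, hk⟩ := goodG_index hW
    have h4 : (W.subgroupOf D).index ∣ W.index := Subgroup.relIndex_dvd_index_of_normal W D
    rw [hk] at h4
    obtain ⟨m, _, hm⟩ := (Nat.dvd_prime_pow Nat.prime_two).1 h4
    exact ⟨m, hm⟩

end sys

variable {K : Type u} [Field K] [NumberField K]

/-- the invariant of the cup product of `a` with the logarithm of the cyclotomic character is `x` -/
def HasV (lam : ℤ_[2] → ℤ_[2]) {D : Subgroup (AbsGal K)} (inv : (D → D → A0) → A0)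
    (a : AbsGal K → ℤ_[2]) (x : ℤ_[2]) : Prop :=
  ∀ t : A0, inv (fun d e : D => (a d * lam (cyc (e : AbsGal K))) • t) = x • t

/-- hypotheses for the explicit classes, in terms of groups only: `N none` and `N (some l)` are 2-cocycles
with 2-adic values, `inv (some l)` of `N (some l)` is `e l ≠ 0`, `inv none` of `N none` is 1, all other invariants
of `N w` and `N w ∘ κ` at the places `some l` are zero, and the sum of all invariants of `N w` is zero. -/
structure RecH {G : Type*} [Group G] (S : TwoSys G) {Λ : Type*} [Fintype Λ]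
    {D : Option Λ → Type*} [∀ w, Group (D w)] (SD : ∀ w, TwoSys (D w)) (j : ∀ w, D w →* G)
    (χ : G → ℤ_[2]) (inv : ∀ w, (D w → D w → A0) → A0) (κ : G →* G)
    (N : Option Λ → G → G → ℤ_[2]) (e : Λ → ℤ_[2]) : Prop where
  char : IsChar S χ
  loc : ∀ w, LocH (SD w) (fun d => χ (j w d)) (inv w)
  jsm : ∀ w W, S.mem W → ∃ W', (SD w).mem W' ∧ ∀ v ∈ W', j w v ∈ W
  kk : ∀ g, κ (κ g) = g
  ksys : ∀ W, S.mem W → ∃ W', S.mem W' ∧ ∀ v ∈ W', κ v ∈ W
  kchi : ∀ g, χ (κ g) = χ g
  inj : ∀ f, Z2 S (tw χ) f → (∀ w, inv w (fun a b => f (j w a) (j w b)) = 0) →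
    (∀ l : Λ, inv (some l) (fun a b => f (κ (j _ a)) (κ (j _ b))) = 0) → B2 S (tw χ) f
  z2 : ∀ w, PA.Z2 S χ (N w)
  norm : ∀ w g, N w g 1 = 0 ∧ N w 1 g = 0
  ne : ∀ l, e l ≠ 0
  valn : ∀ t : A0, inv none (fun a b => N none (j _ a) (j _ b) • t) = t
  vals : ∀ l (t : A0), inv (some l) (fun a b => N (some l) (j _ a) (j _ b) • t) = e l • t
  off : ∀ l w, w ≠ some l → ∀ t : A0, inv (some l) (fun a b => N w (j _ a) (j _ b) • t) = 0
  offk : ∀ l w (t : A0), inv (some l) (fun a b => N w (κ (j _ a)) (κ (j _ b)) • t) = 0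
  sum : ∀ w (t : A0), ∑ w', (inv w' (fun a b => N w (j w' a) (j w' b) • t) -
    inv w' (fun a b => N w (κ (j w' a)) (κ (j w' b)) • t)) = 0

/-- the invariant of a pair `(z, u)` with `z (κ a) (κ b) + z a b = - d1 u a b` -/
noncomputable def Dta {G : Type*} [Group G] (κ : G → G) (θ φ : G) (m : ℤ) (z : G → G → A0)
    (u : G → A0) : A0 :=
  m • (u θ - z θ (κ θ)) - u φ + z θ (κ φ) - z φ θ

end Pool.Agent.Work.MP_787500_nt.GP
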