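import Mathlib
import Pool.Agent.Work.MP_787500_nt.GP.K1_Unit
import Pool.Agent.Work.MP_787500_nt.PA.ConjA

/-!
# Module K2_KUMZ (size M-L): Kummer cocycles with values in the 2-adic integers

`zt K k` is a primitive root of unity of order `2 ^ k` (`zt K 1 = -1`; its square is `zt K (k - 1)`); so
`zp K k a = zp K k b` iff `2 ^ k ∣ a - b`; `zp K k (a + b) = zp K k a * zp K k b`; `g (zt K k) = zp K k (cyc g)` (see
`cycK_spec` in `PA/CycK.lean`, private, copy), `g (zp K k a) = zp K k (cyc g * a)`; `zp K (k + 1) a ^ 2 = zp K k a`.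
* `exists_isKum`: `g (r k) / r k` is a `2 ^ k`-th root of unity (`(r k) ^ (2 ^ k) = r 0` is fixed), so equal to `zp K k (a_k)`
  for some `a_k`, and `2 ^ k ∣ a_(k + 1) - a_k` (squares); take the limit in `ℤ_[2]`.
* `IsKum.coc`: `g (h (r k)) = g (zp K k (a h)) * g (r k) = zp K k (cyc g * a h + a g) * r k`.
* `IsKum.mul`, `IsKum.inv`: products of sequences.
* `IsKum.uniq`: `r' 0 = r 0`: `r' k = zp K k (m) * r k` for one `m : ℤ_[2]` (as above), and
  `g (r' k) = zp K k (cyc g * m + a g) r k = zp K k (a g + (cyc g - 1) m) r' k`.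
* `IsKum.even`: `2 ∣ a g` iff `g (r 1) = r 1` (`zp K 1 a = (-1) ^ a`).
* `IsKum.kap`: `g (c (r k)) = c (κ g (r k)) = c (zp K k (a (κ g))) * c (r k)`, and `c (zt K k) = (zt K k)⁻¹`: `c` acts on the
  roots of unity of 2-power order by a 2-adic unit `e` with `e ^ 2 = 1`, so `e = ± 1`, and `c` moves the
  fourth roots of unity (`conj_imI` in `PA/ConjA.lean`, for `IsConj s c`), so `e = -1`.
* `IsKum.c1`: every `r k` is in `InMT T`: induction (`InMT.sqrt`, `UT.of_pow`; `r 0` is fixed by everything). If `W` fixes `r k`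
  and `zt K k` (`W` in the system) then `zp K k (a (g w)) r k = g w (r k) = g (r k)`, so
  `2 ^ k ∣ a (g w) - a g`.
* `IsKum.inertia`: `r 0` is a unit at `Q`: so are all `r k` (`UnitAt.of_pow`); `n ∈ Q.inertia`: `cyc n = 1` (roots of
  unity of 2-power order are different modulo `Q`); induction on `k`: if `n (r k) = r k` then
  `n (r (k + 1)) = ± r (k + 1)`, `unit_fix`. So `a n = 0`.
-/

set_option autoImplicit false
set_option linter.unusedSectionVars false

namespace Pool.Agent.Work.MP_787500_nt.GP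

open IsDedekindDomain NumberField
open Pool.Agent.Work.MP_787500_nt.PA (TwoSys Sm1 Sm2 homs Coc Cob IsChar goodSys core cyc Opn SU)
open Pool.Agent.Work.MP_787500_nt.Gn (GoodG)

universe u

variable {K : Type u} [Field K] [NumberField K]

private theorem k2_zt_pow (k j : ℕ) : zt K (k + j) ^ 2 ^ j = zt K k := by
  induction j generalizing k with
  | zero => simp
  | succ j ih =>
    rw [pow_succ, mul_comm, pow_mul, ← add_assoc, zt_sq, ih]

private theorem k2_zt_one (k : ℕ) : zt K k ^ 2 ^ k = 1 := by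
  have h := k2_zt_pow (K := K) 0 k
  rwa [zero_add, zt_zero] at h

private theorem k2_prim (k : ℕ) : IsPrimitiveRoot (zt K k) (2 ^ k) := by
  rcases k with _ | k
  · rw [zt_zero, pow_zero]
    exact IsPrimitiveRoot.one
  · have h1 : zt K (k + 1) ^ 2 ^ k = -1 := by
      have h := k2_zt_pow (K := K) 1 k
      rwa [add_comm 1 k, zt_one] at h
    have h2 : ¬ zt K (k + 1) ^ 2 ^ k = 1 := by
      rw [h1]
      intro h
      have h3 : (2 : AlgebraicClosure K) = 0 := by linear_combination -h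
      have h4 : CharZero (AlgebraicClosure K) :=
        charZero_of_injective_algebraMap (algebraMap K (AlgebraicClosure K)).injective
      exact two_ne_zero h3
    have h3 := orderOf_eq_prime_pow h2 (k2_zt_one (K := K) (k + 1))
    rw [← h3]
    exact IsPrimitiveRoot.orderOf _

private theorem k2_zt_ne (k : ℕ) : zt K k ≠ 0 := by
  intro h
  have h1 := k2_zt_one (K := K) k
  rw [h, zero_pow (by positivity)] at h1
  exact zero_ne_one h1

private theorem k2_ker {k : ℕ} {a : ℤ_[2]} : PadicInt.toZModPow k a = 0 ↔ (2 : ℤ_[2]) ^ k ∣ a := by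
  rw [← RingHom.mem_ker, PadicInt.ker_toZModPow, Ideal.mem_span_singleton]
  push_cast
  rfl

private theorem k2_nat {k : ℕ} {a : ℤ_[2]} {m : ℕ} (h : (2 : ℤ_[2]) ^ k ∣ a - m) :
    zp K k a = zt K k ^ m := by
  have h1 := k2_ker.2 h
  rw [map_sub, map_natCast, sub_eq_zero] at h1
  unfold zp
  rw [h1, ZMod.val_natCast]
  exact (pow_eq_pow_mod m (k2_zt_one k)).symm

private theorem k2_ex (k : ℕ) (a : ℤ_[2]) : ∃ m : ℕ, (2 : ℤ_[2]) ^ k ∣ a - m := by
  refine ⟨(PadicInt.toZModPow k a).val, ?_⟩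
  rw [← k2_ker, map_sub, map_natCast, sub_eq_zero, ZMod.natCast_zmod_val]

private theorem k2_zero {x : ℤ_[2]} (h : ∀ n : ℕ, (2 : ℤ_[2]) ^ n ∣ x) : x = 0 := by
  rw [← PadicInt.ext_of_toZModPow]
  intro n
  rw [map_zero, k2_ker]
  exact h n

theorem zp_add (k : ℕ) (a b : ℤ_[2]) : zp K k (a + b) = zp K k a * zp K k b := by
  obtain ⟨m, hm⟩ := k2_ex k a
  obtain ⟨n, hn⟩ := k2_ex k b
  have h : (2 : ℤ_[2]) ^ k ∣ (a + b) - (m + n : ℕ) := by
    have h1 := dvd_add hm hn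
    push_cast
    rwa [sub_add_sub_comm] at h1
  rw [k2_nat hm, k2_nat hn, k2_nat h, pow_add]

theorem zp_eq_one {k : ℕ} {a : ℤ_[2]} : zp K k a = 1 ↔ (2 : ℤ_[2]) ^ k ∣ a := by
  obtain ⟨m, hm⟩ := k2_ex k a
  rw [k2_nat hm, (k2_prim k).pow_eq_one_iff_dvd]
  constructor
  · intro h
    have h1 : (2 : ℤ_[2]) ^ k ∣ (m : ℤ_[2]) := by
      have := map_dvd (Nat.castRingHom ℤ_[2]) h
      simpa using this
    have h2 := dvd_add hm h1
    rwa [sub_add_cancel] at h2
  · intro h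
    have h1 := dvd_sub h hm
    rw [sub_sub_cancel, ← k2_ker, map_natCast, ZMod.natCast_eq_zero_iff] at h1
    exact h1

private theorem k2_zero_arg (k : ℕ) : zp K k 0 = 1 := zp_eq_one.2 (dvd_zero _)

private theorem k2_neg (k : ℕ) (a : ℤ_[2]) : zp K k a * zp K k (-a) = 1 := by
  rw [← zp_add, add_neg_cancel, k2_zero_arg]

private theorem k2_ne (k : ℕ) (a : ℤ_[2]) : zp K k a ≠ 0 := left_ne_zero_of_mul_eq_one (k2_neg k a)

private theorem k2_inj {k : ℕ} {a b : ℤ_[2]} : zp K k a = zp K k b ↔ (2 : ℤ_[2]) ^ k ∣ a - b := by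
  rw [← zp_eq_one (K := K)]
  have h1 := zp_add (K := K) k (a - b) b
  rw [sub_add_cancel] at h1
  rw [h1]
  constructor
  · intro h
    exact mul_right_cancel₀ (k2_ne k b) (h.trans (one_mul _).symm)
  · intro h
    rw [h, one_mul]

private theorem k2_sq (k : ℕ) (a : ℤ_[2]) : zp K (k + 1) a ^ 2 = zp K k a := by
  obtain ⟨m, hm⟩ := k2_ex (k + 1) a
  have h1 : (2 : ℤ_[2]) ^ k ∣ a - m := (pow_dvd_pow _ (Nat.le_succ k)).trans hm
  rw [k2_nat hm, k2_nat h1, ← pow_mul, mul_comm, pow_mul, zt_sq]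

private theorem k2_pow (k m : ℕ) (a : ℤ_[2]) : zp K k a ^ m = zp K k (m * a) := by
  induction m with
  | zero => rw [pow_zero, Nat.cast_zero, zero_mul, k2_zero_arg]
  | succ m ih => rw [pow_succ, ih, ← zp_add]; congr 1; push_cast; ring

private theorem k2_one (k : ℕ) : zp K k 1 = zt K k := by
  have h : (2 : ℤ_[2]) ^ k ∣ 1 - (1 : ℕ) := by simp
  rw [k2_nat h, pow_one]

theorem gal_zp (g : AbsGal K) (k : ℕ) (a : ℤ_[2]) : g (zp K k a) = zp K k (cyc g * a) := by
  obtain ⟨m, hm⟩ := k2_ex k a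
  have h1 : g (zt K k) = zp K k (cyc g) :=
    cyclotomicCharacter.spec 2 (g : AlgebraicClosure K ≃+* AlgebraicClosure K) (zt K k)
      (k2_zt_one k)
  rw [k2_nat hm, map_pow, h1, k2_pow, k2_inj]
  have h2 := hm.mul_left (cyc g)
  rw [← dvd_neg]
  rw [show -((m : ℤ_[2]) * cyc g - cyc g * a) = cyc g * (a - m) by ring]
  exact h2

private theorem k2_unitAt_one {Q : Ideal (𝓞 (AlgebraicClosure K))} (hQ : Q.IsPrime) :
    UnitAt Q (1 : AlgebraicClosure K) :=
  ⟨1, 1, fun h => hQ.ne_top ((Ideal.eq_top_iff_one Q).2 h),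
    fun h => hQ.ne_top ((Ideal.eq_top_iff_one Q).2 h), by simp⟩

/-- elements of the inertia group fix coherent sequences of units -/
private theorem k2_fix {Q : Ideal (𝓞 (AlgebraicClosure K))} (hQ : Q.IsPrime)
    (h2 : (2 : 𝓞 (AlgebraicClosure K)) ∉ Q) {r : ℕ → AlgebraicClosure K}
    (hr : ∀ k, r (k + 1) ^ 2 = r k) (h0 : UnitAt Q (r 0)) {n : AbsGal K}
    (hn : n ∈ Q.inertia (AbsGal K)) (hn0 : n (r 0) = r 0) (k : ℕ) :
    UnitAt Q (r k) ∧ n (r k) = r k := by
  induction k with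
  | zero => exact ⟨h0, hn0⟩
  | succ k ih =>
    have h1 : UnitAt Q (r (k + 1)) := UnitAt.of_pow hQ two_ne_zero (by rw [hr]; exact ih.1)
    refine ⟨h1, unit_fix hQ h2 h1 hn ?_⟩
    apply sq_eq_sq_iff_eq_or_eq_neg.1
    rw [← map_pow, hr, ih.2]

theorem cyc_inertia {Q : Ideal (𝓞 (AlgebraicClosure K))} (hQ : Q.IsPrime)
    (h2 : (2 : 𝓞 (AlgebraicClosure K)) ∉ Q) {n : AbsGal K} (hn : n ∈ Q.inertia (AbsGal K)) :
    cyc n = 1 := by
  rw [← sub_eq_zero]
  refine k2_zero fun k => ?_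
  rw [← k2_inj (K := K), k2_one]
  have h1 := (k2_fix hQ h2 (r := zt K) (zt_sq K) (by rw [zt_zero]; exact k2_unitAt_one hQ) hn
    (by rw [zt_zero, map_one]) k).2
  have h3 := gal_zp n k 1
  rw [mul_one, k2_one] at h3
  rw [← h3, h1]

/-- every nonzero element of `K` has a coherent sequence of roots -/
theorem exists_roots (x : AlgebraicClosure K) :
    ∃ r : ℕ → AlgebraicClosure K, r 0 = x ∧ ∀ k, r (k + 1) ^ 2 = r k :=
  ⟨fun k => Nat.rec x (fun _ y => rt y) k, rfl, fun _ => rt_sq _⟩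

private theorem k2_lim (f : ℕ → ℤ_[2]) (hf : ∀ n, (2 : ℤ_[2]) ^ n ∣ f (n + 1) - f n) :
    ∃ L, ∀ n, (2 : ℤ_[2]) ^ n ∣ f n - L := by
  have h0 : ∀ n, IsLocalRing.maximalIdeal ℤ_[2] ^ n = Ideal.span {(2 : ℤ_[2]) ^ n} := fun n => by
    rw [PadicInt.maximalIdeal_eq_span_p, Ideal.span_singleton_pow]
    push_cast
    rfl
  have h1 : IsPrecomplete (IsLocalRing.maximalIdeal ℤ_[2]) ℤ_[2] := inferInstance
  obtain ⟨L, hL⟩ := h1.prec (f := f) (by
    intro m n hmn
    rw [SModEq.sub_mem, smul_eq_mul, Ideal.mul_top, h0, Ideal.mem_span_singleton]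
    induction n, hmn using Nat.le_induction with
    | base => rw [sub_self]; exact dvd_zero _
    | succ n hmn ih =>
      have h2 := dvd_sub ih ((pow_dvd_pow _ hmn).trans (hf n))
      rwa [show f m - f n - (f (n + 1) - f n) = f m - f (n + 1) by ring] at h2)
  refine ⟨L, fun n => ?_⟩
  have h2 := hL n
  rw [SModEq.sub_mem, smul_eq_mul, Ideal.mul_top, h0, Ideal.mem_span_singleton] at h2
  exact h2

private theorem k2_seq {r : ℕ → AlgebraicClosure K} (h0 : r 0 = 1) (hr : ∀ k, r (k + 1) ^ 2 = r k) :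
    ∃ m : ℤ_[2], ∀ k, r k = zp K k m := by
  have h1 : ∀ k, r k ^ 2 ^ k = 1 := by
    intro k
    induction k with
    | zero => rw [h0, one_pow]
    | succ k ih => rw [pow_succ, mul_comm, pow_mul, hr, ih]
  have h2 : ∀ k, ∃ i : ℕ, zt K k ^ i = r k := by
    intro k
    have hn : NeZero (2 ^ k) := ⟨by positivity⟩
    obtain ⟨i, _, hi⟩ := (k2_prim (K := K) k).eq_pow_of_pow_eq_one (h1 k)
    exact ⟨i, hi⟩
  choose i hi using h2
  have h3 : ∀ k, r k = zp K k (i k) := fun k => by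
    rw [k2_nat (m := i k) (by simp), hi]
  obtain ⟨L, hL⟩ := k2_lim (fun k => (i k : ℤ_[2])) (fun k => by
    rw [← k2_inj (K := K), ← k2_sq, ← h3, hr, h3])
  refine ⟨L, fun k => ?_⟩
  rw [h3, k2_inj]
  exact hL k

private theorem k2_ne_zero {r : ℕ → AlgebraicClosure K} (h0 : r 0 ≠ 0)
    (hr : ∀ k, r (k + 1) ^ 2 = r k) (k : ℕ) : r k ≠ 0 := by
  induction k with
  | zero => exact h0
  | succ k ih =>
    intro h
    have h1 := hr k
    rw [h, zero_pow two_ne_zero] at h1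
    exact ih h1.symm

theorem exists_isKum {r : ℕ → AlgebraicClosure K} (h0 : r 0 ≠ 0) (hfix : ∀ g : AbsGal K, g (r 0) = r 0)
    (hr : ∀ k, r (k + 1) ^ 2 = r k) : ∃ a, IsKum r a := by
  have hne := k2_ne_zero h0 hr
  have h1 : ∀ g : AbsGal K, ∃ m : ℤ_[2], ∀ k, g (r k) / r k = zp K k m := by
    intro g
    refine k2_seq ?_ fun k => ?_
    · rw [hfix, div_self h0]
    · rw [div_pow, ← map_pow, hr]
  choose a ha using h1
  refine ⟨a, h0, hr, fun g k => ?_⟩
  rw [← ha, div_mul_cancel₀ _ (hne k)]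

private theorem k2_kne {r : ℕ → AlgebraicClosure K} {a : AbsGal K → ℤ_[2]} (h : IsKum r a) (k : ℕ) :
    r k ≠ 0 := k2_ne_zero h.ne h.sq k

theorem IsKum.coc {r : ℕ → AlgebraicClosure K} {a : AbsGal K → ℤ_[2]} (h : IsKum r a)
    (g k : AbsGal K) : a (g * k) = a g + cyc g * a k := by
  rw [← sub_eq_zero]
  refine k2_zero fun n => ?_
  rw [← k2_inj (K := K)]
  refine mul_right_cancel₀ (k2_kne h n) ?_
  rw [← h.act, zp_add, ← gal_zp, mul_comm (zp K n (a g)), mul_assoc, ← h.act, ← map_mul, ← h.act]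
  rfl

theorem IsKum.mul {r r' : ℕ → AlgebraicClosure K} {a a' : AbsGal K → ℤ_[2]} (h : IsKum r a)
    (h' : IsKum r' a') : IsKum (fun k => r k * r' k) (fun g => a g + a' g) := by
  refine ⟨mul_ne_zero h.ne h'.ne, fun k => ?_, fun g k => ?_⟩
  · rw [mul_pow, h.sq, h'.sq]
  · rw [map_mul, h.act, h'.act, zp_add]
    ring

theorem IsKum.inv {r : ℕ → AlgebraicClosure K} {a : AbsGal K → ℤ_[2]} (h : IsKum r a) :
    IsKum (fun k => (r k)⁻¹) (fun g => -a g) := by
  refine ⟨inv_ne_zero h.ne, fun k => ?_, fun g k => ?_⟩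
  · rw [inv_pow, h.sq]
  · rw [map_inv₀, h.act, mul_inv, inv_eq_of_mul_eq_one_right (k2_neg k (a g))]

theorem IsKum.uniq {r r' : ℕ → AlgebraicClosure K} {a a' : AbsGal K → ℤ_[2]} (h : IsKum r a)
    (h' : IsKum r' a') (h0 : r' 0 = r 0) : ∃ m : ℤ_[2], ∀ g, a' g = a g + (cyc g - 1) * m := by
  obtain ⟨m, hm⟩ := k2_seq (r := fun k => r' k / r k) (by
    rw [h0, div_self h.ne]) (fun k => by
    rw [div_pow, h.sq, h'.sq])
  have hm' : ∀ k, r' k = zp K k m * r k := by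
    intro k
    have h1 : r' k / r k = zp K k m := hm k
    rw [← h1, div_mul_cancel₀ _ (k2_kne h k)]
  refine ⟨m, fun g => ?_⟩
  rw [← sub_eq_zero]
  refine k2_zero fun k => ?_
  rw [← k2_inj (K := K)]
  have h1 : g (r' k) = zp K k (cyc g * m + a g) * r k := by
    rw [hm', map_mul, gal_zp, h.act, zp_add, mul_assoc]
  rw [h'.act, hm', ← mul_assoc, ← zp_add] at h1
  have h2 := mul_right_cancel₀ (k2_kne h k) h1
  rw [k2_inj] at h2 ⊢
  rwa [show a' g - (a g + (cyc g - 1) * m) = a' g + m - (cyc g * m + a g) by ring]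

theorem IsKum.even {r : ℕ → AlgebraicClosure K} {a : AbsGal K → ℤ_[2]} (h : IsKum r a)
    (g : AbsGal K) : (2 : ℤ_[2]) ∣ a g ↔ g (r 1) = r 1 := by
  have h1 : (2 : ℤ_[2]) ∣ a g ↔ zp K 1 (a g) = 1 := by
    rw [zp_eq_one, pow_one]
  rw [h1, h.act]
  constructor
  · intro h2
    rw [h2, one_mul]
  · intro h2
    exact mul_right_cancel₀ (k2_kne h 1) (h2.trans (one_mul _).symm)

theorem conj_zp {q : ℕ} {s : K} (hK : IsBase K q s)
    {c : AlgebraicClosure K ≃+* AlgebraicClosure K} (hc : PA.IsConj s c) (k : ℕ) (a : ℤ_[2]) :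
    c (zp K k a) = zp K k (-a) := by
  have hz : CharZero (AlgebraicClosure K) :=
    charZero_of_injective_algebraMap (algebraMap K (AlgebraicClosure K)).injective
  obtain ⟨e, he⟩ := k2_seq (r := fun k => c (zt K k)) (by
    change c (zt K 0) = 1
    rw [zt_zero, map_one]) (fun k => by
    change c (zt K (k + 1)) ^ 2 = c (zt K k)
    rw [← map_pow, zt_sq])
  have he' : ∀ k, c (zt K k) = zp K k e := he
  have h1 : ∀ (k : ℕ) (a : ℤ_[2]), c (zp K k a) = zp K k (a * e) := by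
    intro k a
    obtain ⟨m, hm⟩ := k2_ex k a
    rw [k2_nat hm, map_pow, he', k2_pow, k2_inj, ← dvd_neg,
      show -((m : ℤ_[2]) * e - a * e) = (a - m) * e by ring]
    exact hm.mul_right _
  have h2 : e * e = 1 := by
    rw [← sub_eq_zero]
    refine k2_zero fun k => ?_
    rw [← k2_inj (K := K), ← h1, ← he', hc.sq, k2_one]
  have h3 : e = -1 := by
    rcases mul_self_eq_one_iff.1 h2 with h3 | h3
    · exfalso
      have h4 : c (zt K 2) = zt K 2 := by rw [he', h3, k2_one]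
      have h5 : zt K 2 ^ 2 = PA.imI K ^ 2 := by
        rw [PA.imI_sq, zt_sq, zt_one]
      have h6 : c (zt K 2) = - zt K 2 := by
        rcases sq_eq_sq_iff_eq_or_eq_neg.1 h5 with h7 | h7
        · rw [h7, PA.conj_imI hK hc]
        · rw [h7, map_neg, PA.conj_imI hK hc]
      rw [h4] at h6
      have h7 : (2 : AlgebraicClosure K) * zt K 2 = 0 := by linear_combination h6
      rcases mul_eq_zero.1 h7 with h8 | h8
      · exact two_ne_zero h8
      · exact k2_zt_ne 2 h8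
    · exact h3
  rw [h1, h3, mul_neg, mul_one]

theorem IsKum.kap {q : ℕ} {s : K} (hK : IsBase K q s)
    {c : AlgebraicClosure K ≃+* AlgebraicClosure K} (hc : PA.IsConj s c) {κ : AbsGal K → AbsGal K}
    (hκ : ∀ (σ : AbsGal K) (x : AlgebraicClosure K), κ σ x = c (σ (c x)))
    {r : ℕ → AlgebraicClosure K} {a : AbsGal K → ℤ_[2]} (h : IsKum r a) :
    IsKum (fun k => c (r k)) (fun g => -a (κ g)) := by
  refine ⟨?_, fun k => ?_, fun g k => ?_⟩
  · exact (map_ne_zero_iff c c.injective).2 h.ne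
  · rw [← map_pow, h.sq]
  · rw [← conj_zp hK hc, ← map_mul, ← h.act, hκ, hc.sq]

private theorem k2_fix0 {r : ℕ → AlgebraicClosure K} {a : AbsGal K → ℤ_[2]} (h : IsKum r a)
    (g : AbsGal K) : g (r 0) = r 0 := by
  have h1 : zp K 0 (a g) = 1 := zp_eq_one.2 (by rw [pow_zero]; exact one_dvd _)
  rw [h.act, h1, one_mul]

theorem IsKum.c1 {r : ℕ → AlgebraicClosure K} {a : AbsGal K → ℤ_[2]} (h : IsKum r a)
    {T : Finset ℕ} (hT : UT T (r 0)) : PA.C1 (sysT K T) a := by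
  have h1 : ∀ k, UT T (r k) ∧ InMT T (r k) := by
    intro k
    induction k with
    | zero => exact ⟨hT, ⊤, Gn.GoodG.top (baseT K T), fun w _ => k2_fix0 h w⟩
    | succ k ih =>
      exact ⟨UT.of_pow two_ne_zero (by rw [h.sq]; exact ih.1), InMT.sqrt ih.2 ih.1 (h.sq k)⟩
  intro n
  obtain ⟨W, hW, hw⟩ := (h1 n).2
  refine ⟨W, hW, fun g w hwW => ?_⟩
  rw [← k2_inj (K := K)]
  refine mul_right_cancel₀ (k2_kne h n) ?_
  rw [← h.act, ← h.act]
  change g (w (r n)) = g (r n)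
  rw [hw w hwW]

theorem IsKum.inertia {r : ℕ → AlgebraicClosure K} {a : AbsGal K → ℤ_[2]} (h : IsKum r a)
    {Q : Ideal (𝓞 (AlgebraicClosure K))} (hQ : Q.IsPrime) (h2 : (2 : 𝓞 (AlgebraicClosure K)) ∉ Q)
    (h0 : UnitAt Q (r 0)) {n : AbsGal K} (hn : n ∈ Q.inertia (AbsGal K)) : a n = 0 := by
  refine k2_zero fun k => ?_
  rw [← zp_eq_one (K := K)]
  refine mul_right_cancel₀ (k2_kne h k) ?_
  rw [← h.act, one_mul]
  exact (k2_fix hQ h2 h.sq h0 hn (k2_fix0 h n) k).2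

end Pool.Agent.Work.MP_787500_nt.GP
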