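import Mathlib
import Pool.Agent.Work.MP_787500_nt.GP.K2_KumZ

/-!
# Module LT1_TAME (size M): the tame part of a decomposition group

`P` is a prime of the ring of all algebraic integers that contains the odd prime number `l`, so it is a
maximal ideal, and the residue field `k = 𝓞 / P` is algebraic over `ZMod l`: every nonzero element of `k` has
finite order.
* `unit_stab`: `g` induces an automorphism `g'` of `k`. Let `w = x / y`, `x, y ∉ P`, and suppose
  `g w = -w`: in `k`, the class `ω` of `x / y` satisfies `g' ω = -ω`. Let `2 ^ s M`, `M` odd, be the order of `ω`,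
  `ω = ω₂ ω₁` with `ω₂` a power of `ω` of order `2 ^ s` and `ω₁` of order `M`. `g' ω₂ = ω₂`: `ω₂` is the class of
  a root of unity `ζ` of order `2 ^ s` of the closure (reduction is injective on the roots of unity of
  2-power order, `2 ∉ P`, so the `2 ^ s` roots of `X ^ (2 ^ s) = 1` in `k` are all reductions), and `g ζ = ζ` since
  `cyc g = 1`. So `g' ω₁ = -ω₁`. But `g' ω₁` has order `M`, odd, and `(-ω₁) ^ M = -1 ≠ 1` (`2 ∉ P`).
  Contradiction.
* `tame`: suppose `g ∉ U`. There is an algebraic integer `x` fixed by `U` with `g x ≠ x`. `y = x - g x ≠ 0` is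
  fixed by `U` (normal) and `g y = g x - g (g x) = -y` (`g * g ∈ U`). Let `L` be the fixed field of `U`, a number
  field, `p = P ∩ 𝓞 L`, `y` of valuation `exp (-b')`, `l` of valuation `exp (-e)`, `e > 0`. There are `A > 0` and `B`
  with `A b' = B e` and `A = 2 ^ b A'`, `A'` odd, and we may take `2 ^ b` and `B` with no condition: put
  `w = y ^ A' / (r b) ^ B`; `w ^ (2 ^ b) = y ^ A / l ^ B` has valuation 1, so it is a unit at `P`, and `w` is a
  unit at `P` (`UnitAt.of_pow`). `g (r b) = r b` (`a g = 0`), so `g w = (-1) ^ A' w = -w`: contradiction to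
  `unit_stab`.
-/

set_option autoImplicit false
set_option linter.unusedSectionVars false

namespace Pool.Agent.Work.MP_787500_nt.GP

open IsDedekindDomain NumberField
open Pool.Agent.Work.MP_787500_nt.PA (TwoSys Sm1 Sm2 homs Coc Cob IsChar goodSys core cyc Opn SU)
open Pool.Agent.Work.MP_787500_nt.Gn (GoodG)

universe u

variable {K : Type u} [Field K] [NumberField K]

/-- elements outside `P` have finite order modulo `P` -/
private theorem lt1_fin {P : Ideal (𝓞 (AlgebraicClosure K))} (hP : P.IsPrime) {l : ℕ}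
    (hl : l.Prime) (hlP : (l : 𝓞 (AlgebraicClosure K)) ∈ P) {x : 𝓞 (AlgebraicClosure K)}
    (hx : x ∉ P) : ∃ n : ℕ, 0 < n ∧ x ^ n - 1 ∈ P := by
  let k := 𝓞 (AlgebraicClosure K) ⧸ P
  let π : 𝓞 (AlgebraicClosure K) →+* k := Ideal.Quotient.mk P
  have hint : IsIntegral ℤ (π x) := (Algebra.IsIntegral.isIntegral (R := ℤ) x).map π.toIntAlgHom
  let A := Algebra.adjoin ℤ {π x}
  have hfin : Module.Finite ℤ A := Algebra.finite_adjoin_simple_of_isIntegral hint
  have htor : Module.IsTorsion ℤ A := by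
    intro a
    refine ⟨⟨(l : ℤ), by
      rw [mem_nonZeroDivisors_iff_ne_zero]
      exact_mod_cast hl.ne_zero⟩, ?_⟩
    apply Subtype.ext
    show (l : ℤ) • (a : k) = 0
    rw [zsmul_eq_mul]
    have : (((l : ℤ) : k)) = 0 := by
      rw [Int.cast_natCast, ← map_natCast π]
      exact Ideal.Quotient.eq_zero_iff_mem.2 hlP
    rw [this, zero_mul]
  have hA : Finite A := Module.finite_of_fg_torsion A htor
  have hdom : IsDomain k := Ideal.Quotient.isDomain P
  let ξ : A := ⟨π x, Algebra.self_mem_adjoin_singleton ℤ _⟩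
  obtain ⟨i, j, hij, he⟩ := Finite.exists_ne_map_eq_of_infinite (fun n : ℕ => ξ ^ n)
  have he' : (π x) ^ i = (π x) ^ j := congrArg (fun a : A => (a : k)) he
  have hx0 : π x ≠ 0 := fun h => hx (Ideal.Quotient.eq_zero_iff_mem.1 h)
  have key : ∀ i j : ℕ, i < j → (π x) ^ i = (π x) ^ j → ∃ n : ℕ, 0 < n ∧ x ^ n - 1 ∈ P := by
    intro i j hij he
    refine ⟨j - i, Nat.sub_pos_of_lt hij, ?_⟩
    have h1 : (π x) ^ j = (π x) ^ i * (π x) ^ (j - i) := by
      rw [← pow_add, Nat.add_sub_cancel' hij.le]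
    rw [h1] at he
    have h2 : (π x) ^ (j - i) = 1 := (left_eq_mul₀ (pow_ne_zero _ hx0)).1 he
    apply Ideal.Quotient.eq_zero_iff_mem.1
    show π (x ^ (j - i) - 1) = 0
    rw [map_sub, map_pow, h2, map_one, sub_self]
  rcases lt_or_gt_of_ne hij with h | h
  · exact key i j h he'
  · exact key j i h he'.symm

/-- roots of unity of 2-power order -/
private def Lt1R (ζ : 𝓞 (AlgebraicClosure K)) : Prop := ∃ n : ℕ, ζ ^ 2 ^ n = 1

private theorem lt1_sqrt {η : 𝓞 (AlgebraicClosure K)} (h : Lt1R η) :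
    ∃ θ : 𝓞 (AlgebraicClosure K), Lt1R θ ∧ θ ^ 2 = η := by
  obtain ⟨z, hz⟩ := IsAlgClosed.exists_pow_nat_eq (η : AlgebraicClosure K) (n := 2) two_pos
  have hint : IsIntegral ℤ z := IsIntegral.of_pow two_pos (by
    rw [hz]
    exact RingOfIntegers.isIntegral_coe _)
  obtain ⟨θ, hθ⟩ : ∃ θ : 𝓞 (AlgebraicClosure K), (θ : AlgebraicClosure K) = z := ⟨⟨z, hint⟩, rfl⟩
  have h1 : θ ^ 2 = η := by
    apply RingOfIntegers.ext
    rw [← hz, ← hθ]
    exact map_pow (algebraMap (𝓞 (AlgebraicClosure K)) (AlgebraicClosure K)) θ 2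
  refine ⟨θ, ?_, h1⟩
  obtain ⟨n, hn⟩ := h
  refine ⟨n + 1, ?_⟩
  rw [pow_succ', pow_mul, h1, hn]

private theorem lt1_lift {P : Ideal (𝓞 (AlgebraicClosure K))} (hP : P.IsPrime) (s : ℕ) :
    ∀ η : 𝓞 (AlgebraicClosure K), Lt1R η → ∀ z : 𝓞 (AlgebraicClosure K), z ^ 2 ^ s - η ∈ P →
      ∃ ζ, Lt1R ζ ∧ z - ζ ∈ P := by
  induction s with
  | zero =>
    intro η hη z hz
    exact ⟨η, hη, by simpa using hz⟩
  | succ s ih =>
    intro η hη z hz
    obtain ⟨θ, ⟨n, hn⟩, hθ⟩ := lt1_sqrt hη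
    have h1 : (z ^ 2 ^ s - θ) * (z ^ 2 ^ s - -θ) ∈ P := by
      have e : (z ^ 2 ^ s - θ) * (z ^ 2 ^ s - -θ) = z ^ 2 ^ (s + 1) - η := by
        rw [← hθ, pow_succ 2 s, pow_mul]
        ring
      rw [e]
      exact hz
    rcases hP.mem_or_mem h1 with h | h
    · exact ih θ ⟨n, hn⟩ z h
    · refine ih (-θ) ⟨n + 1, ?_⟩ z h
      rw [pow_succ', pow_mul, neg_sq, hθ]
      obtain ⟨m, hm⟩ := hη
      rw [← hθ, ← pow_mul, mul_comm, pow_mul, hn, one_pow]

private theorem lt1_fix {g : AbsGal K} (hc : cyc g = 1) {ζ : 𝓞 (AlgebraicClosure K)}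
    (h : Lt1R ζ) : g • ζ = ζ := by
  obtain ⟨n, hn⟩ := h
  have hn' : (ζ : AlgebraicClosure K) ^ 2 ^ n = 1 := by
    have := congrArg (algebraMap (𝓞 (AlgebraicClosure K)) (AlgebraicClosure K)) hn
    rwa [map_pow, map_one] at this
  have h1 : g (ζ : AlgebraicClosure K) =
      (ζ : AlgebraicClosure K) ^ (PadicInt.toZModPow n (cyc g)).val :=
    cyclotomicCharacter.spec 2 (g : AlgebraicClosure K ≃+* AlgebraicClosure K) _ hn'
  rw [hc, map_one, ZMod.val_one_eq_one_mod] at h1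
  apply RingOfIntegers.ext
  show g (ζ : AlgebraicClosure K) = ζ
  rw [h1]
  rcases n with _ | n
  · rw [pow_zero, pow_one] at hn'
    rw [hn', one_pow]
  · rw [Nat.mod_eq_of_lt (Nat.one_lt_two_pow (Nat.succ_ne_zero n)), pow_one]

theorem unit_stab {P : Ideal (𝓞 (AlgebraicClosure K))} (hP : P.IsPrime) {l : ℕ} (hl : l.Prime)
    (hlP : (l : 𝓞 (AlgebraicClosure K)) ∈ P) (h2 : (2 : 𝓞 (AlgebraicClosure K)) ∉ P) {g : AbsGal K}
    (hg : g ∈ stabD P) (hc : cyc g = 1) {w : AlgebraicClosure K} (hw : UnitAt P w) : g w ≠ -w := by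
  intro hgw
  obtain ⟨x, y, hx, hy, hxy⟩ := hw
  obtain ⟨n, hn, hyn⟩ := lt1_fin hP hl hlP hy
  -- `y * y' = 1` modulo `P`
  have hy' : y * y ^ (n - 1) - 1 ∈ P := by
    rw [← pow_succ', Nat.sub_add_cancel hn]
    exact hyn
  set y' := y ^ (n - 1) with hy'def
  have hst := mem_stabD.1 hg
  have e0 : (g • x) * y + x * (g • y) = 0 := by
    apply RingOfIntegers.ext
    show g (x : AlgebraicClosure K) * (y : AlgebraicClosure K) +
      (x : AlgebraicClosure K) * g (y : AlgebraicClosure K) = 0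
    rw [← hxy, map_mul, hgw]
    ring
  have hgy' : (g • y) * (g • y') - 1 ∈ P := by
    have := (hst _).1 hy'
    rwa [smul_sub, smul_mul', smul_one] at this
  set t := x * y' with ht
  -- `g t = - t` modulo `P`
  have h3 : g • t + t ∈ P := by
    have e1 : g • t = (g • x) * (g • y') := smul_mul' _ _ _
    have e2 : g • t + t = -((g • x) * (g • y')) * (y * y' - 1) - x * y' * ((g • y) * (g • y') - 1) := by
      rw [e1]
      linear_combination (g • y') * y' * e0
    rw [e2]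
    exact P.sub_mem (P.mul_mem_left _ hy') (P.mul_mem_left _ hgy')
  have hy'P : y' ∉ P := fun h => by
    have h4 : (1 : 𝓞 (AlgebraicClosure K)) ∈ P := by
      have e : (1 : 𝓞 (AlgebraicClosure K)) = y * y' - (y * y' - 1) := by ring
      rw [e]
      exact P.sub_mem (P.mul_mem_left _ h) hy'
    exact hP.ne_top ((Ideal.eq_top_iff_one _).2 h4)
  have htP : t ∉ P := fun h => (hP.mem_or_mem h).elim hx hy'P
  obtain ⟨N, hN, htN⟩ := lt1_fin hP hl hlP htP
  obtain ⟨s, M, hM, rfl⟩ := Nat.exists_eq_two_pow_mul_odd hN.ne'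
  have h5 : (t ^ M) ^ 2 ^ s - 1 ∈ P := by
    rw [← pow_mul, mul_comm]
    exact htN
  obtain ⟨ζ, hζ, h6⟩ := lt1_lift hP s 1 ⟨0, one_pow _⟩ _ h5
  have h7 : g • (t ^ M) - ζ ∈ P := by
    have := (hst _).1 h6
    rwa [smul_sub, lt1_fix hc hζ] at this
  have h8 : g • (t ^ M) + t ^ M ∈ P := by
    rw [smul_pow', ← sub_neg_eq_add, ← hM.neg_pow]
    refine P.mem_of_dvd (sub_dvd_pow_sub_pow _ _ M) ?_
    rw [sub_neg_eq_add]
    exact h3
  have h9 : 2 * t ^ M ∈ P := by
    have e : 2 * t ^ M = (g • (t ^ M) + t ^ M) - (g • (t ^ M) - ζ) + (t ^ M - ζ) := by ring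
    rw [e]
    exact P.add_mem (P.sub_mem h8 h7) h6
  rcases hP.mem_or_mem h9 with h | h
  · exact h2 h
  · exact htP (hP.mem_of_pow_mem _ h)

private theorem lt1_unitAt_of_val {F : IntermediateField K (AlgebraicClosure K)} [NumberField F]
    {Q : Ideal (𝓞 (AlgebraicClosure K))} {v : HeightOneSpectrum (𝓞 F)}
    (hv : Q.comap (algebraMap (𝓞 F) (𝓞 (AlgebraicClosure K))) = v.asIdeal) {w : F}
    (hw : v.valuation F w = 1) : UnitAt Q (w : AlgebraicClosure K) := by
  obtain ⟨n, d, hnd⟩ := v.exists_primeCompl_mul_eq_of_integer w hw.le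
  have hd : (d : 𝓞 F) ∉ v.asIdeal := d.2
  have hvd : v.valuation F (algebraMap (𝓞 F) F d) = 1 :=
    (HeightOneSpectrum.valuation_eq_one_iff_notMem (K := F) v).2 hd
  have hvn : v.valuation F (algebraMap (𝓞 F) F n) = 1 := by
    rw [← hnd, map_mul, hw, hvd, one_mul]
  have hn : n ∉ v.asIdeal := (HeightOneSpectrum.valuation_eq_one_iff_notMem (K := F) v).1 hvn
  refine ⟨algebraMap (𝓞 F) (𝓞 (AlgebraicClosure K)) n,
    algebraMap (𝓞 F) (𝓞 (AlgebraicClosure K)) d, ?_, ?_, ?_⟩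
  · exact fun h => hn (hv.le h)
  · exact fun h => hd (hv.le h)
  · exact congrArg (fun z : F => (z : AlgebraicClosure K)) hnd

private theorem lt1_exp {x : WithZero (Multiplicative ℤ)} (hx : x ≠ 0) :
    ∃ n : ℤ, x = WithZero.exp n := ⟨WithZero.log x, (WithZero.exp_log hx).symm⟩

/-- an element outside an open normal subgroup `U` moves an element fixed by `U` -/
private theorem lt1_move {U : Subgroup (AbsGal K)} (hU : IsOpen (U : Set (AbsGal K)))
    {g : AbsGal K} (hg : g ∉ U) : ∃ x : AlgebraicClosure K, (∀ u ∈ U, u x = x) ∧ g x ≠ x := by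
  by_contra hcon
  push Not at hcon
  apply hg
  have hcl : IsClosed (U : Set (AbsGal K)) := Subgroup.isClosed_of_isOpen U hU
  have h1 : (IntermediateField.fixedField U).fixingSubgroup = U :=
    InfiniteGalois.fixingSubgroup_fixedField ⟨U, hcl⟩
  rw [← h1, IntermediateField.mem_fixingSubgroup_iff]
  intro x hx
  exact hcon x (fun u hu => hx ⟨u, hu⟩)

theorem tame {P : Ideal (𝓞 (AlgebraicClosure K))} (hP : P.IsPrime) {l : ℕ} (hl : l.Prime)
    (hlP : (l : 𝓞 (AlgebraicClosure K)) ∈ P) (h2 : (2 : 𝓞 (AlgebraicClosure K)) ∉ P)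
    {r : ℕ → AlgebraicClosure K} {a : AbsGal K → ℤ_[2]} (hr : IsKum r a)
    (h0 : r 0 = (l : AlgebraicClosure K)) {g : AbsGal K} (hg : g ∈ stabD P) (hc : cyc g = 1)
    (ha : a g = 0) {U : Subgroup (AbsGal K)} (hU : IsOpen (U : Set (AbsGal K))) (hn : U.Normal)
    (hgg : g * g ∈ U) : g ∈ U := by
  by_contra hgU
  obtain ⟨x, hx, hgx⟩ := lt1_move hU hgU
  set y := x - g x with hy
  have hy0 : y ≠ 0 := fun h => hgx (sub_eq_zero.1 h).symm
  have hgy : g y = -y := by
    have h3 : g (g x) = x := hx _ hgg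
    rw [hy, map_sub, h3]
    ring
  -- the number field generated by `y`
  let L : IntermediateField K (AlgebraicClosure K) := IntermediateField.adjoin K {y}
  have hfin : FiniteDimensional K L :=
    IntermediateField.finiteDimensional_adjoin fun x _ => Algebra.IsIntegral.isIntegral x
  have hNF : NumberField L := NumberField.of_module_finite K L
  obtain ⟨η, hη⟩ : ∃ η : L, (η : AlgebraicClosure K) = y :=
    ⟨⟨y, IntermediateField.subset_adjoin K _ (by simp)⟩, rfl⟩
  have hη0 : η ≠ 0 := by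
    rintro rfl
    exact hy0 hη.symm
  have hprime : (P.comap (algebraMap (𝓞 L) (𝓞 (AlgebraicClosure K)))).IsPrime :=
    Ideal.comap_isPrime _ _
  have hlp : (l : 𝓞 L) ∈ P.comap (algebraMap (𝓞 L) (𝓞 (AlgebraicClosure K))) := by
    rw [Ideal.mem_comap, map_natCast]
    exact hlP
  have hbot : P.comap (algebraMap (𝓞 L) (𝓞 (AlgebraicClosure K))) ≠ ⊥ := by
    intro hb
    rw [hb, Ideal.mem_bot] at hlp
    exact hl.ne_zero (by exact_mod_cast hlp)
  let v : HeightOneSpectrum (𝓞 L) :=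
    ⟨P.comap (algebraMap (𝓞 L) (𝓞 (AlgebraicClosure K))), hprime, hbot⟩
  have hv : P.comap (algebraMap (𝓞 L) (𝓞 (AlgebraicClosure K))) = v.asIdeal := rfl
  have hl0 : (l : L) ≠ 0 := by exact_mod_cast hl.ne_zero
  obtain ⟨β, hβ⟩ := lt1_exp ((v.valuation L).ne_zero_iff.2 hη0)
  obtain ⟨e, he⟩ := lt1_exp ((v.valuation L).ne_zero_iff.2 hl0)
  have he0 : e < 0 := by
    have h3 : v.valuation L (algebraMap (𝓞 L) L (l : 𝓞 L)) < 1 := by
      rw [HeightOneSpectrum.valuation_lt_one_iff_mem]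
      exact hlp
    rw [map_natCast, he, ← WithZero.exp_zero, WithZero.exp_lt_exp] at h3
    exact h3
  obtain ⟨E, hE⟩ : ∃ E : ℕ, e = -(E : ℤ) := ⟨e.toNat.succ - 1 + (-e).toNat, by omega⟩
  have hE0 : E ≠ 0 := by omega
  obtain ⟨b, A', hA', hEb⟩ := Nat.exists_eq_two_pow_mul_odd hE0
  have hval : v.valuation L (η ^ E * (l : L) ^ β) = 1 := by
    rw [map_mul, map_zpow₀, map_pow, hβ, he, ← WithZero.exp_nsmul, ← WithZero.exp_zsmul,
      ← WithZero.exp_add, smul_eq_mul, nsmul_eq_mul, hE]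
    rw [← WithZero.exp_zero]
    congr 1
    ring
  have hunit := lt1_unitAt_of_val hv hval
  -- the element `w`
  have hrb : r b ^ 2 ^ b = (l : AlgebraicClosure K) := by
    rw [← h0]
    clear hEb
    induction b with
    | zero => rw [pow_zero, pow_one]
    | succ b ih => rw [pow_succ', pow_mul, hr.sq, ih]
  set w := y ^ A' * (r b) ^ β with hw
  have hwpow : w ^ 2 ^ b = ((η ^ E * (l : L) ^ β : L) : AlgebraicClosure K) := by
    have h3 : ((η ^ E * (l : L) ^ β : L) : AlgebraicClosure K) =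
        y ^ E * (l : AlgebraicClosure K) ^ β := by
      rw [← hη]
      push_cast
      rfl
    have h4 : (r b ^ β) ^ (2 ^ b) = (r b ^ 2 ^ b) ^ β := by
      rw [← zpow_natCast (r b ^ β), ← zpow_natCast (r b), ← zpow_mul, ← zpow_mul, mul_comm]
    rw [h3, hw, mul_pow, ← pow_mul, mul_comm A', ← hEb, ← hrb, h4]
  have hwu : UnitAt P w := by
    refine UnitAt.of_pow hP (n := 2 ^ b) (by positivity) ?_
    rw [hwpow]
    exact hunit
  refine unit_stab hP hl hlP h2 hg hc hwu ?_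
  have hgr : g (r b) = r b := by
    rw [hr.act, ha]
    unfold zp
    rw [map_zero, ZMod.val_zero, pow_zero, one_mul]
  rw [hw, map_mul, map_pow, map_zpow₀, hgr, hgy, hA'.neg_pow, neg_mul]

end Pool.Agent.Work.MP_787500_nt.GP
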