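import Mathlib
import Pool.Agent.Work.MP_787500_nt.GP.LT1_Tame

/-!
# Module LT2_SEP (size M): separation, no homomorphisms

* `stabD_closed`: `g ∈ stabD P` iff for all integers `x`: `x ∈ P ↔ g x ∈ P`; each condition is open and closed.
* `tame_mem`: `g ^ (2 ^ k) ∈ U` for some `k`; take the smallest `k`. If `k > 0` put `g' = g ^ (2 ^ (k - 1))`:
  `cyc g' = 1`, `a g' = 0` (`IsKum.coc`), `g' * g' ∈ U`, so `g' ∈ U` by `tame`, a contradiction.
* `tame_sep`: compactness of `stabD P` (closed in the compact group): the closed sets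
  `{g ∈ stabD P | 2 ^ n ∣ cyc g - 1, 2 ^ n ∣ a g, g ∉ U}` decrease, and their intersection is empty by
  `tame_mem`; `cyc` and `a` are continuous (locally constant modulo `2 ^ n`: `isChar_cyc`, `IsKum.c1` for `T = {l}`).
* `tame_nohom`: `g ∈ stabD P ⊓ coreT K T`, `l ∈ T`: `cyc g = 1` (`cyc_core`; `coreT K T ≤ core K`, as `PA.Good`
  subgroups are `GoodT`) and `a g = 0` (`IsKum.c1`: `a (1 * g) - a 1` is divisible by all `2 ^ n`). Suppose
  `μ g = 1`. Let `U'` be open normal with `μ = 0` on `stabD P ⊓ coreT K T ⊓ U'`. Let `g ^ (2 ^ k m) ∈ U'`, `m` odd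
  (finite quotient), `g₁ = g ^ m`, `μ g₁ = 1`. Let `j` be minimal with `g₁ ^ (2 ^ j) ∈ U'`; `j > 0` (`μ g₁ ≠ 0`), and
  `g₂ = g₁ ^ (2 ^ (j - 1))` satisfies the hypotheses of `tame`, so `g₂ ∈ U'`: contradiction.
-/

set_option autoImplicit false
set_option linter.unusedSectionVars false

namespace Pool.Agent.Work.MP_787500_nt.GP

open IsDedekindDomain NumberField
open Pool.Agent.Work.MP_787500_nt.PA (TwoSys Sm1 Sm2 homs Coc Cob IsChar goodSys core cyc Opn SU)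
open Pool.Agent.Work.MP_787500_nt.Gn (GoodG)

universe u

variable {K : Type u} [Field K] [NumberField K]

private theorem lt2_smul : letI : TopologicalSpace (𝓞 (AlgebraicClosure K)) := ⊥
    ContinuousSMul (AbsGal K) (𝓞 (AlgebraicClosure K)) := by
  let _ : TopologicalSpace (𝓞 (AlgebraicClosure K)) := ⊥
  have : DiscreteTopology (𝓞 (AlgebraicClosure K)) := ⟨rfl⟩
  rw [continuousSMul_iff_stabilizer_isOpen]
  intro x
  have h1 : IsOpen (MulAction.stabilizer (AbsGal K)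
      (algebraMap (𝓞 (AlgebraicClosure K)) (AlgebraicClosure K) x) : Set (AbsGal K)) :=
    stabilizer_isOpen_of_isIntegral _
  convert h1 using 1
  ext σ
  simp only [SetLike.mem_coe, MulAction.mem_stabilizer_iff]
  constructor
  · intro h
    have := congrArg (algebraMap (𝓞 (AlgebraicClosure K)) (AlgebraicClosure K)) h
    exact this
  · intro h
    apply RingOfIntegers.ext
    exact h

theorem stabD_closed (P : Ideal (𝓞 (AlgebraicClosure K))) : IsClosed (stabD P : Set (AbsGal K)) := by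
  let _ : TopologicalSpace (𝓞 (AlgebraicClosure K)) := ⊥
  have : DiscreteTopology (𝓞 (AlgebraicClosure K)) := ⟨rfl⟩
  have : ContinuousSMul (AbsGal K) (𝓞 (AlgebraicClosure K)) := lt2_smul
  have h : (stabD P : Set (AbsGal K)) = ⋂ x : 𝓞 (AlgebraicClosure K),
      (fun g : AbsGal K => g • x) ⁻¹' {y | x ∈ P ↔ y ∈ P} := by
    ext g
    simp only [SetLike.mem_coe, Set.mem_iInter, Set.mem_preimage, Set.mem_ofPred_eq]
    exact mem_stabD
  rw [h]
  exact isClosed_iInter fun x => (isClosed_discrete _).preimage (by fun_prop)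

private theorem closed_of_cosets {S : Set (AbsGal K)} {W : Subgroup (AbsGal K)}
    (hW : IsOpen (W : Set (AbsGal K))) (h : ∀ g ∈ S, ∀ w ∈ W, g * w ∈ S) : IsClosed S := by
  rw [← isOpen_compl_iff, isOpen_iff_mem_nhds]
  intro g hg
  have h1 : (fun x : AbsGal K => g * x) '' (W : Set (AbsGal K)) ∈ nhds g := by
    have h2 : IsOpen ((fun x : AbsGal K => g * x) '' (W : Set (AbsGal K))) :=
      isOpenMap_mul_left g _ hW
    exact h2.mem_nhds ⟨1, W.one_mem, mul_one g⟩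
  refine Filter.mem_of_superset h1 ?_
  rintro _ ⟨w, hw, rfl⟩ hmem
  apply hg
  have := h _ hmem w⁻¹ (W.inv_mem hw)
  simp only [mul_inv_cancel_right] at this
  exact this

private theorem lt2_pow {r : ℕ → AlgebraicClosure K} {a : AbsGal K → ℤ_[2]} (hr : IsKum r a)
    {g : AbsGal K} (hc : cyc g = 1) (ha : a g = 0) (n : ℕ) : cyc (g ^ n) = 1 ∧ a (g ^ n) = 0 := by
  have hc1 : cyc (1 : AbsGal K) = 1 := PA.isChar_cyc.one
  induction n with
  | zero =>
    rw [pow_zero]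
    refine ⟨hc1, ?_⟩
    have h := hr.coc 1 1
    rw [mul_one, hc1, one_mul] at h
    exact left_eq_add.1 h
  | succ n ih =>
    rw [pow_succ]
    refine ⟨?_, ?_⟩
    · rw [PA.isChar_cyc.mul, ih.1, hc, one_mul]
    · rw [hr.coc, ih.2, ha, mul_zero, add_zero]

private theorem tame_pow {P : Ideal (𝓞 (AlgebraicClosure K))} (hP : P.IsPrime) {l : ℕ} (hl : l.Prime)
    (hlP : (l : 𝓞 (AlgebraicClosure K)) ∈ P) (h2 : (2 : 𝓞 (AlgebraicClosure K)) ∉ P)
    {r : ℕ → AlgebraicClosure K} {a : AbsGal K → ℤ_[2]} (hr : IsKum r a)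
    (h0 : r 0 = (l : AlgebraicClosure K)) {g : AbsGal K} (hg : g ∈ stabD P) (hc : cyc g = 1)
    (ha : a g = 0) {U : Subgroup (AbsGal K)} (hU : IsOpen (U : Set (AbsGal K))) (hn : U.Normal)
    (k : ℕ) (hk : g ^ 2 ^ k ∈ U) : g ∈ U := by
  induction k with
  | zero => simpa using hk
  | succ k ih =>
    apply ih
    obtain ⟨h3, h4⟩ := lt2_pow hr hc ha (2 ^ k)
    refine tame hP hl hlP h2 hr h0 (Subgroup.pow_mem _ hg _) h3 h4 hU hn ?_
    rw [← pow_add, ← two_mul, ← pow_succ']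
    exact hk

theorem tame_mem {P : Ideal (𝓞 (AlgebraicClosure K))} (hP : P.IsPrime) {l : ℕ} (hl : l.Prime)
    (hlP : (l : 𝓞 (AlgebraicClosure K)) ∈ P) (h2 : (2 : 𝓞 (AlgebraicClosure K)) ∉ P)
    {r : ℕ → AlgebraicClosure K} {a : AbsGal K → ℤ_[2]} (hr : IsKum r a)
    (h0 : r 0 = (l : AlgebraicClosure K)) {g : AbsGal K} (hg : g ∈ stabD P) (hc : cyc g = 1)
    (ha : a g = 0) {U : Subgroup (AbsGal K)} (hU : IsOpen (U : Set (AbsGal K))) (hn : U.Normal)
    (hpow : ∀ x : AbsGal K, ∃ k : ℕ, x ^ 2 ^ k ∈ U) : g ∈ U := by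
  obtain ⟨k, hk⟩ := hpow g
  exact tame_pow hP hl hlP h2 hr h0 hg hc ha hU hn k hk

private theorem eq_zero_of_dvd {x : ℤ_[2]} (h : ∀ n : ℕ, (2 : ℤ_[2]) ^ n ∣ x) : x = 0 := by
  refine PadicInt.ext_of_toZModPow.mp fun n => ?_
  rw [map_zero]
  obtain ⟨c, hc⟩ := h n
  rw [hc, map_mul, map_pow, map_ofNat]
  have : (2 : ZMod (2 ^ n)) ^ n = 0 := by
    have h1 : ((2 ^ n : ℕ) : ZMod (2 ^ n)) = 0 := ZMod.natCast_self _
    exact_mod_cast h1
  rw [this, zero_mul]

private theorem ut_l {l : ℕ} (hl : l.Prime) {T : Finset ℕ} (hlT : l ∈ T) :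
    UT (K := K) T (l : AlgebraicClosure K) := by
  refine ⟨by exact_mod_cast hl.ne_zero, ?_⟩
  intro Q hQ _ hT
  refine ⟨(l : 𝓞 (AlgebraicClosure K)), 1, hT l hlT, fun h => hQ.ne_top ((Ideal.eq_top_iff_one Q).2 h),
    ?_⟩
  have e1 : ((1 : 𝓞 (AlgebraicClosure K)) : AlgebraicClosure K) = 1 := rfl
  have e2 : ((l : 𝓞 (AlgebraicClosure K)) : AlgebraicClosure K) = l :=
    map_natCast (algebraMap (𝓞 (AlgebraicClosure K)) (AlgebraicClosure K)) l
  rw [e1, e2, mul_one]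

theorem tame_sep {P : Ideal (𝓞 (AlgebraicClosure K))} (hP : P.IsPrime) {l : ℕ} (hl : l.Prime)
    (hlP : (l : 𝓞 (AlgebraicClosure K)) ∈ P) (h2 : (2 : 𝓞 (AlgebraicClosure K)) ∉ P)
    {r : ℕ → AlgebraicClosure K} {a : AbsGal K → ℤ_[2]} (hr : IsKum r a)
    (h0 : r 0 = (l : AlgebraicClosure K)) {U : Subgroup (AbsGal K)}
    (hU : IsOpen (U : Set (AbsGal K))) (hn : U.Normal)
    (hpow : ∀ x : AbsGal K, ∃ k : ℕ, x ^ 2 ^ k ∈ U) :
    ∃ n : ℕ, ∀ g ∈ stabD P, (2 : ℤ_[2]) ^ n ∣ cyc g - 1 → (2 : ℤ_[2]) ^ n ∣ a g → g ∈ U := by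
  by_contra hno
  push Not at hno
  have hut : UT (K := K) {l} (r 0) := by
    rw [h0]
    exact ut_l hl (Finset.mem_singleton_self l)
  have ha1 := hr.c1 hut
  have hc1 := (PA.isChar_cyc (K := K)).cont
  let F : ℕ → Set (AbsGal K) := fun n => {g | g ∈ stabD P ∧ (2 : ℤ_[2]) ^ n ∣ cyc g - 1 ∧
    (2 : ℤ_[2]) ^ n ∣ a g ∧ g ∉ U}
  have hFc : ∀ n, IsClosed (F n) := by
    intro n
    have e : F n = (stabD P : Set (AbsGal K)) ∩ ({g | (2 : ℤ_[2]) ^ n ∣ cyc g - 1} ∩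
        ({g | (2 : ℤ_[2]) ^ n ∣ a g} ∩ (U : Set (AbsGal K))ᶜ)) := by
      ext g; rfl
    rw [e]
    refine (stabD_closed P).inter (IsClosed.inter ?_ (IsClosed.inter ?_ hU.isClosed_compl))
    · obtain ⟨W, hW, h⟩ := hc1 n
      refine closed_of_cosets (PA.Good.isOpen hW) ?_
      intro g hg w hw
      have h3 := h g w hw
      have h4 := dvd_add h3 hg
      have e1 : cyc (g * w) - cyc g + (cyc g - 1) = cyc (g * w) - 1 := by ring
      rw [e1] at h4
      exact h4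
    · obtain ⟨W, hW, h⟩ := ha1 n
      have hW' : GoodT K {l} W := hW
      refine closed_of_cosets hW'.isOpen ?_
      intro g hg w hw
      have h3 := h g w hw
      have h4 := dvd_add h3 hg
      rwa [sub_add_cancel] at h4
  have hmono : ∀ n, F (n + 1) ⊆ F n := by
    rintro n g ⟨h3, h4, h5, h6⟩
    exact ⟨h3, (pow_dvd_pow 2 (Nat.le_succ n)).trans h4, (pow_dvd_pow 2 (Nat.le_succ n)).trans h5, h6⟩
  have hne : ∀ n, (F n).Nonempty := by
    intro n
    obtain ⟨g, h3, h4, h5, h6⟩ := hno n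
    exact ⟨g, h3, h4, h5, h6⟩
  have hcomp : CompactSpace (AbsGal K) := inferInstance
  obtain ⟨g, hg⟩ := IsCompact.nonempty_iInter_of_sequence_nonempty_isCompact_isClosed F hmono hne
    (hFc 0).isCompact hFc
  rw [Set.mem_iInter] at hg
  have hcg : cyc g = 1 := by
    have := eq_zero_of_dvd (x := cyc g - 1) fun n => (hg n).2.1
    exact sub_eq_zero.1 this
  have hag : a g = 0 := eq_zero_of_dvd fun n => (hg n).2.2.1
  exact (hg 0).2.2.2 (tame_mem hP hl hlP h2 hr h0 (hg 0).1 hcg hag hU hn hpow)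

theorem tame_nohom {P : Ideal (𝓞 (AlgebraicClosure K))} (hP : P.IsPrime) {l : ℕ} (hl : l.Prime)
    (hlP : (l : 𝓞 (AlgebraicClosure K)) ∈ P) (h2 : (2 : 𝓞 (AlgebraicClosure K)) ∉ P)
    {T : Finset ℕ} (hlT : l ∈ T) (μ : AbsGal K → ZMod 2)
    (hmul : ∀ g ∈ stabD P ⊓ coreT K T, ∀ h ∈ stabD P ⊓ coreT K T, μ (g * h) = μ g + μ h)
    (hcont : ∃ U' : Subgroup (AbsGal K), IsOpen (U' : Set (AbsGal K)) ∧
      ∀ g ∈ stabD P ⊓ coreT K T ⊓ U', μ g = 0) {g : AbsGal K} (hg : g ∈ stabD P ⊓ coreT K T) :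
    μ g = 0 := by
  obtain ⟨U', hU', hμ⟩ := hcont
  obtain ⟨r, h0, hsq⟩ := exists_roots (K := K) (l : AlgebraicClosure K)
  have hl0 : r 0 ≠ 0 := by
    rw [h0]
    exact_mod_cast hl.ne_zero
  obtain ⟨a, hr⟩ := exists_isKum (K := K) hl0 (fun g => by rw [h0, map_natCast]) hsq
  have hcg : cyc g = 1 := by
    refine PA.cyc_core ?_
    rw [core, Subgroup.mem_sInf]
    intro W hW
    exact (Subgroup.mem_sInf.1 hg.2) W (Good.goodT hW T)
  have hut : UT (K := K) T (r 0) := by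
    rw [h0]
    exact ut_l hl hlT
  have ha1 := hr.c1 hut
  have ha_one : a 1 = 0 := by
    have h := hr.coc 1 1
    rw [mul_one, (PA.isChar_cyc (K := K)).one, one_mul] at h
    exact left_eq_add.1 h
  have hag : a g = 0 := by
    refine eq_zero_of_dvd fun n => ?_
    obtain ⟨W, hW, h⟩ := ha1 n
    have hW' : GoodT K T W := hW
    have h3 := h 1 g (Gn.core_le hW' hg.2)
    rwa [one_mul, ha_one, sub_zero] at h3
  -- an open normal subgroup
  have hfq : Finite (AbsGal K ⧸ U') := Subgroup.quotient_finite_of_isOpen U' hU'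
  have hfi : U'.FiniteIndex := Subgroup.finiteIndex_of_finite_quotient
  obtain ⟨V, hVdef⟩ : ∃ V, V = U'.normalCore := ⟨_, rfl⟩
  have hVo : IsOpen (V : Set (AbsGal K)) := by
    rw [hVdef]
    exact Subgroup.isOpen_of_isClosed_of_finiteIndex _
      (U'.normalCore_isClosed (Subgroup.isClosed_of_isOpen U' hU'))
  have hVle : V ≤ U' := by rw [hVdef]; exact U'.normalCore_le
  have hVn : V.Normal := by rw [hVdef]; exact U'.normalCore_normal
  have hfV : Finite (AbsGal K ⧸ V) := Subgroup.quotient_finite_of_isOpen V hVo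
  obtain ⟨N, hN0, hN⟩ : ∃ N : ℕ, N ≠ 0 ∧ g ^ N ∈ V := by
    refine ⟨Nat.card (AbsGal K ⧸ V), Nat.card_pos.ne', ?_⟩
    rw [← QuotientGroup.eq_one_iff, QuotientGroup.mk_pow]
    exact pow_card_eq_one'
  obtain ⟨k, m, hm, hkm⟩ := Nat.exists_eq_two_pow_mul_odd hN0
  have hμ1 : μ 1 = 0 := by
    have h := hmul 1 (Subgroup.one_mem _) 1 (Subgroup.one_mem _)
    rw [mul_one] at h
    exact left_eq_add.1 h
  have hμpow : ∀ n : ℕ, μ (g ^ n) = n * μ g := by
    intro n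
    induction n with
    | zero => rw [pow_zero, hμ1]; simp
    | succ n ih =>
      rw [pow_succ, hmul _ (Subgroup.pow_mem _ hg n) g hg, ih]
      push_cast
      ring
  have hm1 : ((m : ℕ) : ZMod 2) = 1 := by
    obtain ⟨c, rfl⟩ := hm
    push_cast
    have : (2 : ZMod 2) = 0 := by decide
    rw [this, zero_mul, zero_add]
  obtain ⟨h3, h4⟩ := lt2_pow hr hcg hag m
  have h5 : g ^ m ∈ V := by
    refine tame_pow hP hl hlP h2 hr h0 (Subgroup.pow_mem _ hg.1 m) h3 h4 hVo hVn k ?_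
    rw [← pow_mul, mul_comm, ← hkm]
    exact hN
  have h6 := hμ (g ^ m) ⟨Subgroup.pow_mem _ hg m, hVle h5⟩
  rw [hμpow, hm1, one_mul] at h6
  exact h6

end Pool.Agent.Work.MP_787500_nt.GP
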