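import Mathlib
import Pool.Agent.Work.MP_787500_nt.GP.ADefs
import Pool.Agent.Work.MP_787500_nt.H10_Step
import Pool.Agent.Work.MP_787500_nt.H10_Tower

/-!
# Module N3_QUAD (size M-L): places in a quadratic extension

`E = F (t)`, `t ^ 2 = d`, `σ` the nontrivial automorphism of `E` over `F`. `x = a + b t`, `σ x = a - b t`.
Use `below`, `exists_valuation_below` (`Q.valuation E (algebraMap x) = (below F Q).valuation F x ^ e`),
`conjPrime`, `valuation_conjPrime`, `exists_above` (`H10_Val.lean`, `H10_Tower.lean`).
* `quad_split`: let `Q` be a place above `v` (`exists_above`) and suppose that `Q` is the only one. Then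
  `conjPrime σ Q = Q`, so `Q.valuation (t - y) = Q.valuation (σ (t - y)) = Q.valuation (t + y)` for `y ∈ F`.
  Choose `y` with `v.valuation (d - y ^ 2) < v.valuation (4 * d)`: then, with `e` as above,
  `Q.valuation ((t - y) (t + y)) < Q.valuation (2 t) ^ 2`, so both factors have valuation smaller than
  `Q.valuation (2 t)`, but `2 t = (t - y) + (t + y)`.
* `quad_unram`: let `d ∈ F` have even valuation at `v`; dividing `d` by the square of an element of `F` we
  may suppose that `d` is a unit at `v` (this changes `t` to `t / c`). Suppose `e ≥ 2`. Choose `x ∈ E` with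
  `Q.valuation x = (conjPrime σ Q).valuation x = exp (-1)` (approximation, or a suitable element of the
  ideal; if the two primes are equal this is just a uniformizer). Then `2 a = x + σ x` and `2 b t = x - σ x`
  have `Q`-valuation at most `exp (-1)`; as `2`, `t` are units at `Q`, `a` and `b` have `Q`-valuation at
  most `exp (-1)`, hence at most `exp (-e)`, as they are in `F`; so `x` has valuation at most `exp (-e)`.
  Contradiction. So `e = 1`.
* `quad_ram`: `N x = a ^ 2 - d b ^ 2 = u` with `v.valuation u = 1`. The valuation of `d b ^ 2` is 0 or not a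
  square, that of `a ^ 2` is a square, so they are different or both 0 and the maximum is
  `v.valuation u = 1`, attained by `a ^ 2`; `v.valuation (u - a ^ 2) = v.valuation (d b ^ 2) < 1`.
-/

set_option autoImplicit false
set_option linter.unusedSectionVars false

namespace Pool.Agent.Work.MP_787500_nt.GP

open IsDedekindDomain NumberField
open Pool.Agent.Work.MP_787500_nt.PA (TwoSys Sm1 Sm2 homs Coc Cob IsChar goodSys core cyc Opn SU)
open Pool.Agent.Work.MP_787500_nt.Gn (GoodG)

private theorem N3_Quad_below {F E : Type*} [Field F] [NumberField F] [Field E] [NumberField E]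
    [Algebra F E] (g : E ≃ₐ[F] E) (Q : HeightOneSpectrum (𝓞 E)) :
    below F (conjPrime (g : E ≃+* E) Q) = below F Q := by
  apply HeightOneSpectrum.ext
  ext x
  show RingOfIntegers.mapRingEquiv (g : E ≃+* E) (algebraMap (𝓞 F) (𝓞 E) x) ∈ Q.asIdeal ↔
    algebraMap (𝓞 F) (𝓞 E) x ∈ Q.asIdeal
  have : RingOfIntegers.mapRingEquiv (g : E ≃+* E) (algebraMap (𝓞 F) (𝓞 E) x) =
      algebraMap (𝓞 F) (𝓞 E) x := by
    apply RingOfIntegers.ext
    show g (algebraMap F E (algebraMap (𝓞 F) F x)) = algebraMap F E (algebraMap (𝓞 F) F x)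
    exact g.commutes _
  rw [this]

private theorem N3_Quad_le_exp {x : WithZero (Multiplicative ℤ)} (hx : x < 1) :
    x ≤ WithZero.exp (-1 : ℤ) := by
  rcases eq_or_ne x 0 with rfl | h0
  · exact zero_le
  · rw [← WithZero.exp_log h0] at hx ⊢
    rw [← WithZero.exp_zero, WithZero.exp_lt_exp] at hx
    rw [WithZero.exp_le_exp]
    omega


variable {F E : Type*} [Field F] [NumberField F] [Field E] [NumberField E] [Algebra F E]

theorem quad_split {t : E} {d : F} (ht : t ^ 2 = algebraMap F E d) (hd : d ≠ 0)
    (hE : ∀ x : E, ∃ a b : F, x = algebraMap F E a + algebraMap F E b * t) (σ : E ≃ₐ[F] E)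
    (hσ : σ t = -t) {v : HeightOneSpectrum (𝓞 F)}
    (hv : ∃ y : F, v.valuation F (d - y ^ 2) < v.valuation F (4 * d)) :
    ∃ Q Q' : HeightOneSpectrum (𝓞 E), Q ≠ Q' ∧ below F Q = v ∧ below F Q' = v := by
  obtain ⟨Q, hQ⟩ := exists_above (K := F) (L := E) v
  by_cases hne : Q = conjPrime (σ : E ≃+* E) Q
  · exfalso
    obtain ⟨y, hy⟩ := hv
    obtain ⟨e, he, hval⟩ := exists_valuation_below (K := F) Q
    rw [hQ] at hval
    have h1 : Q.valuation E (t - algebraMap F E y) = Q.valuation E (t + algebraMap F E y) := by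
      have h2 := valuation_conjPrime (σ : E ≃+* E) Q (t - algebraMap F E y)
      rw [← hne] at h2
      have h3 : (σ : E ≃+* E) (t - algebraMap F E y) = -(t + algebraMap F E y) := by
        show σ (t - algebraMap F E y) = _
        rw [map_sub, hσ, AlgEquiv.commutes]
        ring
      rw [h2, h3, Valuation.map_neg]
    have h2 : Q.valuation E (t - algebraMap F E y) ^ 2 < Q.valuation E (2 * t) ^ 2 := by
      calc Q.valuation E (t - algebraMap F E y) ^ 2
          = Q.valuation E (t - algebraMap F E y) * Q.valuation E (t + algebraMap F E y) := by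
            rw [← h1, sq]
        _ = Q.valuation E (algebraMap F E (d - y ^ 2)) := by
            rw [← map_mul]
            congr 1
            rw [map_sub, ← ht, map_pow]
            ring
        _ = v.valuation F (d - y ^ 2) ^ e := (hval _).symm
        _ < v.valuation F (4 * d) ^ e := pow_lt_pow_left₀ hy zero_le he
        _ = Q.valuation E (algebraMap F E (4 * d)) := hval _
        _ = Q.valuation E (2 * t) ^ 2 := by
            rw [← map_pow]
            congr 1
            rw [map_mul, ← ht, map_ofNat]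
            ring
    have h3 : Q.valuation E (t - algebraMap F E y) < Q.valuation E (2 * t) :=
      lt_of_pow_lt_pow_left₀ _ zero_le h2
    have h4 : Q.valuation E (2 * t) < Q.valuation E (2 * t) := by
      have h5 : (2 * t : E) = (t - algebraMap F E y) + (t + algebraMap F E y) := by ring
      calc Q.valuation E (2 * t) = Q.valuation E ((t - algebraMap F E y) + (t + algebraMap F E y)) := by
            rw [← h5]
        _ ≤ max (Q.valuation E (t - algebraMap F E y)) (Q.valuation E (t + algebraMap F E y)) :=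
            Valuation.map_add _ _ _
        _ = Q.valuation E (t - algebraMap F E y) := by rw [← h1, max_self]
        _ < _ := h3
    exact lt_irrefl _ h4
  · exact ⟨Q, _, hne, hQ, by rw [N3_Quad_below, hQ]⟩

theorem quad_unram {t : E} {d : F} (ht : t ^ 2 = algebraMap F E d) (hd : d ≠ 0)
    (hE : ∀ x : E, ∃ a b : F, x = algebraMap F E a + algebraMap F E b * t) (σ : E ≃ₐ[F] E)
    (hσ : σ t = -t) {v : HeightOneSpectrum (𝓞 F)} (h2 : (2 : 𝓞 F) ∉ v.asIdeal)
    (hv : IsSquare (v.valuation F d)) {Q : HeightOneSpectrum (𝓞 E)} (hQ : below F Q = v) (x : F) :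
    Q.valuation E (algebraMap F E x) = v.valuation F x := by
  obtain ⟨e, he, hval⟩ := exists_valuation_below (K := F) Q
  rw [hQ] at hval
  suffices h : e = 1 by
    rw [← hval x, h, pow_one]
  by_contra hne1
  have he2 : 2 ≤ e := by omega
  set Q' := conjPrime (σ : E ≃+* E) Q with hQ'
  -- normalise `t`
  obtain ⟨g, hg⟩ := hv
  obtain ⟨c, hc⟩ := v.valuation_surjective F g
  have hg0 : g ≠ 0 := by
    rintro rfl
    rw [mul_zero] at hg
    exact hd ((Valuation.zero_iff _).1 hg)
  have hc0 : c ≠ 0 := by
    rintro rfl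
    rw [map_zero] at hc
    exact hg0 hc.symm
  have hcE : algebraMap F E c ≠ 0 := (map_ne_zero _).2 hc0
  have ht1 : Q.valuation E (t / algebraMap F E c) = 1 := by
    have h1 : Q.valuation E (t / algebraMap F E c) ^ 2 = 1 := by
      rw [← map_pow, div_pow, ht, ← map_pow, ← map_div₀, ← hval, map_div₀, map_pow, hc, hg, sq,
        div_self (mul_ne_zero hg0 hg0), one_pow]
    exact (pow_eq_one_iff_of_nonneg zero_le (by norm_num)).1 h1
  have h2F : v.valuation F (2 : F) = 1 := by
    refine le_antisymm (val_two_le_one v) (not_lt.1 (fun hlt => h2 ?_))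
    have : v.valuation F (algebraMap (𝓞 F) F 2) < 1 := by rwa [map_ofNat]
    exact (HeightOneSpectrum.valuation_lt_one_iff_mem _ _).1 this
  have h2E : Q.valuation E (2 : E) = 1 := by
    have := hval 2
    rw [h2F, one_pow, map_ofNat] at this
    exact this.symm
  -- a suitable element
  obtain ⟨π, hπ⟩ := Q.valuation_exists_uniformizer' E
  obtain ⟨y, hy1, hy2⟩ : ∃ y : 𝓞 E, Q.valuation E (algebraMap (𝓞 E) E y) = 1 ∧
      Q'.valuation E (algebraMap (𝓞 E) E (π * y)) ≤ WithZero.exp (-1 : ℤ) := by
    by_cases hQQ : Q' = Q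
    · refine ⟨1, by rw [map_one, map_one], ?_⟩
      rw [hQQ, mul_one]
      exact hπ.le
    · have h3 : ¬ Q'.asIdeal ≤ Q.asIdeal := by
        intro hle
        exact hQQ (HeightOneSpectrum.ext (Q'.isMaximal.eq_of_le Q.isPrime.ne_top hle))
      obtain ⟨y, hy, hyQ⟩ := Set.not_subset.1 h3
      refine ⟨y, ?_, ?_⟩
      · refine le_antisymm (Q.valuation_le_one y) (not_lt.1 (fun hlt => hyQ ?_))
        exact (HeightOneSpectrum.valuation_lt_one_iff_mem _ _).1 hlt
      · have h4 : Q'.valuation E (algebraMap (𝓞 E) E (π * y)) < 1 := by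
          rw [HeightOneSpectrum.valuation_lt_one_iff_mem]
          exact Ideal.mul_mem_left _ _ hy
        exact N3_Quad_le_exp h4
  obtain ⟨z, hz⟩ : ∃ z : E, z = algebraMap (𝓞 E) E (π * y) := ⟨_, rfl⟩
  have hz1 : Q.valuation E z = WithZero.exp (-1 : ℤ) := by
    rw [hz, map_mul, map_mul, hy1, mul_one]
    exact hπ
  have hz2 : Q.valuation E (σ z) ≤ WithZero.exp (-1 : ℤ) := by
    have h3 := valuation_conjPrime (σ : E ≃+* E) Q z
    have h4 : Q.valuation E (σ z) = Q'.valuation E z := h3.symm
    rw [h4, hz]
    exact hy2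
  obtain ⟨a, b, hab⟩ := hE z
  have hσz : σ z = algebraMap F E a - algebraMap F E b * t := by
    rw [hab, map_add, map_mul, hσ, AlgEquiv.commutes, AlgEquiv.commutes]
    ring
  have hexp : ∀ w : F, Q.valuation E (algebraMap F E w) ≤ WithZero.exp (-1 : ℤ) →
      Q.valuation E (algebraMap F E w) ≤ WithZero.exp (-2 : ℤ) := by
    intro w hw
    rw [← hval] at hw ⊢
    have h3 : v.valuation F w < 1 := by
      by_contra h4
      push Not at h4
      have h5 : (1 : WithZero (Multiplicative ℤ)) ≤ v.valuation F w ^ e := one_le_pow₀ h4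
      have h6 : (1 : WithZero (Multiplicative ℤ)) ≤ WithZero.exp (-1 : ℤ) := h5.trans hw
      rw [← WithZero.exp_zero, WithZero.exp_le_exp] at h6
      omega
    have h4 := N3_Quad_le_exp h3
    calc v.valuation F w ^ e ≤ v.valuation F w ^ 2 := pow_le_pow_right_of_le_one' h3.le he2
      _ ≤ WithZero.exp (-1 : ℤ) ^ 2 := pow_le_pow_left' h4 2
      _ = WithZero.exp (-2 : ℤ) := by
          rw [← WithZero.exp_nsmul]
          norm_num
  have ha : Q.valuation E (algebraMap F E a) ≤ WithZero.exp (-2 : ℤ) := by
    apply hexp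
    have h3 : Q.valuation E (2 * algebraMap F E a) ≤ WithZero.exp (-1 : ℤ) := by
      have h4 : 2 * algebraMap F E a = z + σ z := by
        rw [hσz, hab]
        ring
      rw [h4]
      exact (Valuation.map_add _ _ _).trans (max_le hz1.le hz2)
    rwa [map_mul, h2E, one_mul] at h3
  have hb : Q.valuation E (algebraMap F E b * t) ≤ WithZero.exp (-2 : ℤ) := by
    have h3 : algebraMap F E b * t = algebraMap F E (b * c) * (t / algebraMap F E c) := by
      rw [map_mul]
      field_simp
    have h5 : Q.valuation E (algebraMap F E b * t) = Q.valuation E (algebraMap F E (b * c)) := by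
      rw [h3, map_mul, ht1, mul_one]
    rw [h5]
    apply hexp
    rw [← h5]
    have h6 : Q.valuation E (2 * (algebraMap F E b * t)) ≤ WithZero.exp (-1 : ℤ) := by
      have h4 : 2 * (algebraMap F E b * t) = z - σ z := by
        rw [hσz, hab]
        ring
      rw [h4]
      exact (Valuation.map_sub _ _ _).trans (max_le hz1.le hz2)
    rwa [map_mul, h2E, one_mul] at h6
  have h3 : Q.valuation E z ≤ WithZero.exp (-2 : ℤ) := by
    rw [hab]
    exact (Valuation.map_add _ _ _).trans (max_le ha hb)
  rw [hz1, WithZero.exp_le_exp] at h3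
  omega

theorem quad_ram {d : F} {v : HeightOneSpectrum (𝓞 F)} (hv : ¬ IsSquare (v.valuation F d))
    {a b u : F} (h : a ^ 2 - d * b ^ 2 = u) (hu : v.valuation F u = 1) :
    v.valuation F (u - a ^ 2) < 1 := by
  have h1 : u - a ^ 2 = -(d * b ^ 2) := by linear_combination -h
  rw [h1, Valuation.map_neg]
  by_contra hcon
  push Not at hcon
  have hb0 : b ≠ 0 := by
    rintro rfl
    rw [zero_pow (by norm_num), mul_zero, map_zero] at hcon
    exact absurd hcon (not_le.2 zero_lt_one)
  have hnsq : ¬ IsSquare (v.valuation F (d * b ^ 2)) := by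
    rintro ⟨r, hr⟩
    apply hv
    refine ⟨r / v.valuation F b, ?_⟩
    have hvb : v.valuation F b ≠ 0 := (Valuation.ne_zero_iff _).2 hb0
    rw [div_mul_div_comm, ← hr, map_mul, map_pow, sq, mul_div_assoc,
      div_self (mul_ne_zero hvb hvb), mul_one]
  have h2 : (1 : WithZero (Multiplicative ℤ)) < v.valuation F (d * b ^ 2) := by
    refine lt_of_le_of_ne hcon (fun h3 => hnsq ⟨1, ?_⟩)
    rw [← h3, one_mul]
  have h3 : v.valuation F (u + d * b ^ 2) = v.valuation F (d * b ^ 2) :=
    Valuation.map_add_eq_of_lt_right _ (by rw [hu]; exact h2)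
  have h4 : u + d * b ^ 2 = a ^ 2 := by linear_combination -h
  rw [h4] at h3
  apply hnsq
  rw [← h3, map_pow, sq]
  exact ⟨_, rfl⟩

end Pool.Agent.Work.MP_787500_nt.GP
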