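import Mathlib
import Pool.Agent.Work.MP_787500_nt.GP.T01_A0

/-!
# Module T02_EXT (size S): homomorphisms to `A0` extend

`A0` is divisible (`a0_div` gives division by 2; division by an odd integer: it is a unit of `ℤ_[2]`, so
multiplication by it on the `ℤ_[2]`-module `A0` is bijective; or directly: `pr0 (x / n)` divides
`pr0 x` by `n`), so it is an injective abelian group: `Module.Baer.of_divisible` (or the like, in
`Mathlib/Algebra/Category/Grp/Injective.lean`) and `Module.Baer.extension_property`.
-/

set_option autoImplicit false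
set_option linter.unusedSectionVars false

namespace Pool.Agent.Work.MP_787500_nt.GP

open Pool.Agent.Work.MP_787500_nt.PA (TwoSys Sm1 Sm2 homs Coc Cob IsChar)

private theorem t02_surj {n : ℤ} (hn : n ≠ 0) : Function.Surjective (fun a : A0 => n • a) := by
  intro t
  obtain ⟨x, rfl⟩ := pr0_surj t
  refine ⟨pr0 (x / n), ?_⟩
  show n • pr0 (x / n) = pr0 x
  rw [← map_zsmul]
  congr 1
  rw [zsmul_eq_mul]
  have : (n : ℚ_[2]) ≠ 0 := by exact_mod_cast hn
  field_simp

theorem ext_hom {X : Type*} [AddCommGroup X] (N : AddSubgroup X) (f : N →+ A0) :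
    ∃ g : X →+ A0, ∀ n : N, g n = f n := by
  let _ : DivisibleBy A0 ℤ := divisibleByOfSMulRightSurj A0 ℤ (fun {n} hn => t02_surj hn)
  obtain ⟨g, hg⟩ := Module.Baer.extension_property_addMonoidHom (Module.Baer.of_divisible A0)
    N.subtype (AddSubgroup.subtype_injective N) f
  exact ⟨g, fun n => DFunLike.congr_fun hg n⟩

end Pool.Agent.Work.MP_787500_nt.GP
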