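import Mathlib
import Pool.Agent.Work.MP_787500_nt.GP.ADefs
import Pool.Agent.Work.MP_787500_nt.H10_Gal

/-!
# Module N7_INERT (size M): cyclotomic values on decomposition groups

`F` = fixed field of `U`, finite over `K`. `Q ≠ ⊥` is a maximal ideal; `Q ∩ 𝓞 F` has finite residue field with
`N` elements, `N` odd (`2 ∉ Q`), `N ≥ 3`. The decomposition group of `Q` in `U = Gal (Kbar / F)` maps onto the
automorphism group of the residue field `𝓞 Kbar / Q` over that of `Q ∩ 𝓞 F` (Mathlib: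
`Ideal.Quotient.stabilizerHom_surjective` and its profinite version; or use `exists_inertia` in
`H10_Gal.lean`, and compactness), so there is `g ∈ stabD Q ⊓ U` with `g x - x ^ N ∈ Q` for all `x`. For a root of
unity `ζ` of order `2 ^ k`: `g ζ = ζ ^ (cyc g mod 2 ^ k)` and different roots of unity of 2-power order are
different modulo `Q` (`2 ∉ Q`: the product of `1 - ζ'` over the nontrivial ones divides a power of 2), so
`cyc g = N` in the 2-adic integers. Let `m = v_2 (N ^ 2 - 1) ≥ 3`. Then for `j ≥ 0` the exact power of 2 that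
divides `N ^ (2 ^ (j + 1)) - 1` is `m + j`: `x ^ 2 - 1 = (x - 1) (x + 1)` and `x + 1` is 2 times an odd number if
`x` is 1 modulo 4. For `n ≥ m` take `g ^ (2 ^ (n - m + 1))`.
-/

set_option autoImplicit false
set_option linter.unusedSectionVars false

namespace Pool.Agent.Work.MP_787500_nt.GP

open IsDedekindDomain NumberField
open Pool.Agent.Work.MP_787500_nt.PA (TwoSys Sm1 Sm2 homs Coc Cob IsChar goodSys core cyc Opn SU)
open Pool.Agent.Work.MP_787500_nt.Gn (GoodG)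

universe u

open scoped Pointwise

variable {K : Type u} [Field K] [NumberField K]

private theorem inert_spec (g : AbsGal K) {n : ℕ} {ζ : AlgebraicClosure K} (h : ζ ^ 2 ^ n = 1) :
    g ζ = ζ ^ (PadicInt.toZModPow n (cyc g)).val :=
  cyclotomicCharacter.spec 2 (g : AlgebraicClosure K ≃+* AlgebraicClosure K) ζ h

private theorem inert_pow_neg {R : Type*} [CommRing R] [IsDomain R] {x : R} {k : ℕ}
    (h : x ^ 2 ^ k = 1) (h1 : x ≠ 1) : ∃ m : ℕ, x ^ 2 ^ m = -1 := by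
  induction k generalizing x with
  | zero =>
    rw [pow_zero, pow_one] at h
    exact absurd h h1
  | succ k ih =>
    by_cases h2 : x ^ 2 = 1
    · refine ⟨0, ?_⟩
      rw [pow_zero, pow_one]
      have h3 : (x - 1) * (x + 1) = 0 := by linear_combination h2
      rcases mul_eq_zero.1 h3 with h4 | h4
      · exact absurd (sub_eq_zero.1 h4) h1
      · exact eq_neg_of_add_eq_zero_left h4
    · obtain ⟨m, hm⟩ := ih (x := x ^ 2) (by rw [← pow_mul, ← pow_succ']; exact h) h2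
      exact ⟨m + 1, by rw [pow_succ', pow_mul]; exact hm⟩

/-- different roots of unity of 2-power order are different modulo `Q` -/
private theorem inert_root {B : Type*} [CommRing B] [IsDomain B] {Q : Ideal B}
    (h2 : (2 : B) ∉ Q) {ζ : B} {k a b : ℕ} (hζ : ζ ^ 2 ^ k = 1) (h : ζ ^ a - ζ ^ b ∈ Q) :
    ζ ^ a = ζ ^ b := by
  -- `ω = ζ ^ (a + (2 ^ k - 1) b)`
  have hpos : 1 ≤ 2 ^ k := Nat.one_le_two_pow
  have hinv : ζ ^ b * ζ ^ ((2 ^ k - 1) * b) = 1 := by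
    rw [← pow_add]
    have : b + (2 ^ k - 1) * b = 2 ^ k * b := by
      conv_lhs => rw [← one_mul b, ← mul_assoc, mul_one, ← add_mul]
      congr 1
      omega
    rw [this, pow_mul, hζ, one_pow]
  by_contra hne
  have hω1 : ζ ^ a * ζ ^ ((2 ^ k - 1) * b) ≠ 1 := by
    intro h3
    apply hne
    calc ζ ^ a = ζ ^ a * (ζ ^ b * ζ ^ ((2 ^ k - 1) * b)) := by rw [hinv, mul_one]
      _ = (ζ ^ a * ζ ^ ((2 ^ k - 1) * b)) * ζ ^ b := by ring
      _ = ζ ^ b := by rw [h3, one_mul]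
  have hωk : (ζ ^ a * ζ ^ ((2 ^ k - 1) * b)) ^ 2 ^ k = 1 := by
    rw [← pow_add, ← pow_mul, mul_comm, pow_mul, hζ, one_pow]
  obtain ⟨m, hm⟩ := inert_pow_neg hωk hω1
  have h4 : ζ ^ a * ζ ^ ((2 ^ k - 1) * b) - 1 ∈ Q := by
    have : ζ ^ a * ζ ^ ((2 ^ k - 1) * b) - 1 = (ζ ^ a - ζ ^ b) * ζ ^ ((2 ^ k - 1) * b) := by
      rw [sub_mul, hinv]
    rw [this]
    exact Q.mul_mem_right _ h
  have h5 : (ζ ^ a * ζ ^ ((2 ^ k - 1) * b)) ^ 2 ^ m - 1 ∈ Q := by
    have h6 := sub_dvd_pow_sub_pow (ζ ^ a * ζ ^ ((2 ^ k - 1) * b)) 1 (2 ^ m)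
    rw [one_pow] at h6
    exact Ideal.mem_of_dvd Q h6 h4
  rw [hm] at h5
  apply h2
  have h7 : (2 : B) = -(-1 - 1) := by ring
  rw [h7]
  exact Q.neg_mem h5

private theorem inert_stab {Q : Ideal (𝓞 (AlgebraicClosure K))} {g : AbsGal K} (h : g • Q = Q) :
    g ∈ stabD Q := by
  rw [mem_stabD]
  intro x
  conv_rhs => rw [← h]
  exact Ideal.smul_mem_pointwise_smul_iff.symm

theorem exists_frob {U : Subgroup (AbsGal K)} (hU : IsOpen (U : Set (AbsGal K)))
    {Q : Ideal (𝓞 (AlgebraicClosure K))} (hQ : Q.IsPrime) (hb : Q ≠ ⊥)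
    (h2 : (2 : 𝓞 (AlgebraicClosure K)) ∉ Q) :
    ∃ g ∈ stabD Q ⊓ U, ∃ N : ℕ, 3 ≤ N ∧ Odd N ∧ cyc g = N ∧ ∀ x, g • x - x ^ N ∈ Q := by
  classical
  have hcl : IsClosed (U : Set (AbsGal K)) := Subgroup.isClosed_of_isOpen U hU
  have hfix : (Fx U).fixingSubgroup = U :=
    InfiniteGalois.fixingSubgroup_fixedField (k := K) (K := AlgebraicClosure K) ⟨U, hcl⟩
  have hfin : FiniteDimensional K (Fx U) := by
    rw [← InfiniteGalois.isOpen_iff_finite, hfix]
    exact hU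
  have hNF : NumberField (Fx U) := NumberField.of_module_finite K _
  have : CompactSpace U := isCompact_iff_compactSpace.1 hcl.isCompact
  let _ : TopologicalSpace (𝓞 (AlgebraicClosure K)) := ⊥
  have : DiscreteTopology (𝓞 (AlgebraicClosure K)) := ⟨rfl⟩
  have : ContinuousSMul (AbsGal K) (𝓞 (AlgebraicClosure K)) := by
    rw [continuousSMul_iff_stabilizer_isOpen]
    intro x
    have h1 : IsOpen (MulAction.stabilizer (AbsGal K)
        (algebraMap (𝓞 (AlgebraicClosure K)) (AlgebraicClosure K) x) : Set (AbsGal K)) :=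
      stabilizer_isOpen_of_isIntegral _
    convert h1 using 1
    ext σ
    simp only [SetLike.mem_coe, MulAction.mem_stabilizer_iff]
    constructor
    · intro h
      have := congrArg (algebraMap (𝓞 (AlgebraicClosure K)) (AlgebraicClosure K)) h
      exact this
    · intro h
      apply RingOfIntegers.ext
      exact h
  have hcoe : ∀ z : 𝓞 (Fx U), algebraMap (𝓞 (AlgebraicClosure K)) (AlgebraicClosure K)
      (algebraMap (𝓞 (Fx U)) (𝓞 (AlgebraicClosure K)) z) =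
      ((algebraMap (𝓞 (Fx U)) (Fx U) z : Fx U) : AlgebraicClosure K) := fun z => rfl
  have hcomm : SMulCommClass U (𝓞 (Fx U)) (𝓞 (AlgebraicClosure K)) := ⟨fun g a b => by
    rw [Algebra.smul_def, Algebra.smul_def, MulSemiringAction.smul_mul]
    congr 1
    apply RingOfIntegers.ext
    show (g : AbsGal K) (algebraMap (𝓞 (AlgebraicClosure K)) (AlgebraicClosure K)
      (algebraMap (𝓞 (Fx U)) (𝓞 (AlgebraicClosure K)) a)) = algebraMap (𝓞 (AlgebraicClosure K))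
      (AlgebraicClosure K) (algebraMap (𝓞 (Fx U)) (𝓞 (AlgebraicClosure K)) a)
    rw [hcoe]
    exact mem_Fx.1 (algebraMap (𝓞 (Fx U)) (Fx U) a).2 g g.2⟩
  have hinv : Algebra.IsInvariant (𝓞 (Fx U)) (𝓞 (AlgebraicClosure K)) U := ⟨fun b hb => by
    have hbF : algebraMap (𝓞 (AlgebraicClosure K)) (AlgebraicClosure K) b ∈ Fx U := by
      rw [mem_Fx]
      intro u hu
      have := congrArg (algebraMap (𝓞 (AlgebraicClosure K)) (AlgebraicClosure K)) (hb ⟨u, hu⟩)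
      exact this
    have hint : IsIntegral ℤ (⟨_, hbF⟩ : Fx U) := by
      have h1 : IsIntegral ℤ (algebraMap (Fx U) (AlgebraicClosure K) ⟨_, hbF⟩) :=
        RingOfIntegers.isIntegral_coe b
      exact (isIntegral_algebraMap_iff (algebraMap (Fx U) (AlgebraicClosure K)).injective).1 h1
    exact ⟨⟨⟨_, hbF⟩, hint⟩, RingOfIntegers.ext rfl⟩⟩
  let p : Ideal (𝓞 (Fx U)) := Q.under (𝓞 (Fx U))
  have hover : Q.LiesOver p := ⟨rfl⟩
  have hp : p.IsPrime := inferInstance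
  have hp0 : p ≠ ⊥ := by
    intro h
    apply hb
    exact Ideal.eq_bot_of_comap_eq_bot (R := 𝓞 (Fx U)) h
  have hpm : p.IsMaximal := hp.isMaximal hp0
  have hQm : Q.IsMaximal := Ideal.IsMaximal.of_liesOver_isMaximal Q p
  have hfinq : Finite (𝓞 (Fx U) ⧸ p) := Ideal.finiteQuotientOfFreeOfNeBot p hp0
  let _ : Field (𝓞 (Fx U) ⧸ p) := Ideal.Quotient.field p
  let _ : Field (𝓞 (AlgebraicClosure K) ⧸ Q) := Ideal.Quotient.field Q
  let _ : Fintype (𝓞 (Fx U) ⧸ p) := Fintype.ofFinite _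
  have halg : Algebra.IsAlgebraic (𝓞 (Fx U) ⧸ p) (𝓞 (AlgebraicClosure K) ⧸ Q) := by
    have h1 : Algebra.IsIntegral (𝓞 (Fx U) ⧸ p) (𝓞 (AlgebraicClosure K) ⧸ Q) := inferInstance
    exact h1.isAlgebraic
  obtain ⟨τ, hτ⟩ := Ideal.Quotient.stabilizerHom_surjective_of_profinite (A := 𝓞 (Fx U))
    (B := 𝓞 (AlgebraicClosure K)) (G := U) p Q
    (FiniteField.frobeniusAlgEquivOfAlgebraic (𝓞 (Fx U) ⧸ p) (𝓞 (AlgebraicClosure K) ⧸ Q))
  set N := Fintype.card (𝓞 (Fx U) ⧸ p) with hN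
  have hfrob : ∀ x : 𝓞 (AlgebraicClosure K), ((τ : U) : AbsGal K) • x - x ^ N ∈ Q := by
    intro x
    have h6 := DFunLike.congr_fun hτ (Ideal.Quotient.mk Q x)
    rw [Ideal.Quotient.stabilizerHom_apply] at h6
    have h7 : Ideal.Quotient.mk Q (((τ : U) : AbsGal K) • x) = Ideal.Quotient.mk Q x ^ N := h6
    rw [← map_pow] at h7
    exact Ideal.Quotient.eq.1 h7
  have h2p : (2 : 𝓞 (Fx U) ⧸ p) ≠ 0 := by
    intro h
    apply h2
    have h3 : Ideal.Quotient.mk p (2 : 𝓞 (Fx U)) = 0 := by rw [map_ofNat]; exact h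
    have h4 : (2 : 𝓞 (Fx U)) ∈ p := Ideal.Quotient.eq_zero_iff_mem.1 h3
    have h5 : algebraMap (𝓞 (Fx U)) (𝓞 (AlgebraicClosure K)) 2 ∈ Q := h4
    rwa [map_ofNat] at h5
  have hodd : Odd N := by
    have h3 : ringChar (𝓞 (Fx U) ⧸ p) ≠ 2 := by
      intro h
      apply h2p
      have := ringChar.Nat.cast_ringChar (R := 𝓞 (Fx U) ⧸ p)
      rw [h] at this
      exact_mod_cast this
    exact Nat.odd_iff.2 (FiniteField.odd_card_of_char_ne_two h3)
  have hN2 : 1 < N := Fintype.one_lt_card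
  have hmem : ((τ : U) : AbsGal K) ∈ stabD Q := by
    have hs : (τ : U) • Q = Q := τ.2
    exact inert_stab hs
  refine ⟨((τ : U) : AbsGal K), ⟨hmem, (τ : U).2⟩, N, ?_, hodd, ?_, hfrob⟩
  · obtain ⟨c, hc⟩ := hodd
    omega
  · refine PadicInt.ext_of_toZModPow.mp fun k => ?_
    obtain ⟨ζ, hζ⟩ : ∃ ζ : AlgebraicClosure K, IsPrimitiveRoot ζ (2 ^ k) :=
      HasEnoughRootsOfUnity.exists_primitiveRoot _ _
    have hζi : IsIntegral ℤ ζ := hζ.isIntegral (by positivity)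
    let z : 𝓞 (AlgebraicClosure K) := ⟨ζ, hζi⟩
    have hz : z ^ 2 ^ k = 1 := by
      apply RingOfIntegers.ext
      show ζ ^ 2 ^ k = 1
      exact hζ.pow_eq_one
    have hg : ((τ : U) : AbsGal K) • z = z ^ (PadicInt.toZModPow k (cyc ((τ : U) : AbsGal K))).val := by
      apply RingOfIntegers.ext
      exact inert_spec _ hζ.pow_eq_one
    have h3 := hfrob z
    rw [hg] at h3
    have h4 := inert_root h2 hz h3
    have h5 : ζ ^ (PadicInt.toZModPow k (cyc ((τ : U) : AbsGal K))).val = ζ ^ N :=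
      congrArg (algebraMap (𝓞 (AlgebraicClosure K)) (AlgebraicClosure K)) h4
    have : NeZero (2 ^ k) := ⟨by positivity⟩
    have h7 : ζ ^ N = ζ ^ (N % 2 ^ k) := by
      conv_lhs => rw [← Nat.mod_add_div N (2 ^ k), pow_add, pow_mul, hζ.pow_eq_one, one_pow, mul_one]
    rw [h7] at h5
    have h8 := hζ.pow_inj (ZMod.val_lt _) (Nat.mod_lt _ (by positivity)) h5
    have h9 : ((PadicInt.toZModPow k (cyc ((τ : U) : AbsGal K))).val : ZMod (2 ^ k)) = N := by
      rw [h8, ZMod.natCast_mod]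
    rw [ZMod.natCast_zmod_val] at h9
    rw [h9, map_natCast]

private theorem cyc_pow (g : AbsGal K) (n : ℕ) : cyc (g ^ n) = cyc g ^ n := by
  induction n with
  | zero => rw [pow_zero, pow_zero, PA.isChar_cyc.one]
  | succ n ih => rw [pow_succ, pow_succ, PA.isChar_cyc.mul, ih]

theorem exists_chi {U : Subgroup (AbsGal K)} (hU : IsOpen (U : Set (AbsGal K)))
    {Q : Ideal (𝓞 (AlgebraicClosure K))} (hQ : Q.IsPrime) (hb : Q ≠ ⊥)
    (h2 : (2 : 𝓞 (AlgebraicClosure K)) ∉ Q) :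
    ∃ m : ℕ, ∀ n ≥ m, ∃ g ∈ stabD Q ⊓ U, (2 : ℤ_[2]) ^ n ∣ cyc g - 1 ∧
      ¬ (2 : ℤ_[2]) ^ (n + 1) ∣ cyc g - 1 := by
  obtain ⟨g, hg, N, hN3, hodd, hcyc, -⟩ := exists_frob hU hQ hb h2
  have hN1 : N ^ 2 - 1 ≠ 0 := by
    have : 3 ^ 2 ≤ N ^ 2 := Nat.pow_le_pow_left hN3 2
    omega
  obtain ⟨m, c, hc, hm⟩ := Nat.exists_eq_two_pow_mul_odd hN1
  have hmod : N ^ 2 % 4 = 1 := by
    obtain ⟨d, hd⟩ := hodd
    have : N ^ 2 = 4 * (d ^ 2 + d) + 1 := by rw [hd]; ring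
    omega
  have hm2 : 2 ≤ m := by
    by_contra hcon
    obtain ⟨d, hd⟩ := hc
    interval_cases m
    · omega
    · omega
  have hN2 : N ^ 2 = 1 + 2 ^ m * c := by
    have : 3 ^ 2 ≤ N ^ 2 := Nat.pow_le_pow_left hN3 2
    omega
  have key : ∀ j : ℕ, ∃ d : ℕ, Odd d ∧ N ^ (2 ^ (j + 1)) = 1 + 2 ^ (m + j) * d := by
    intro j
    induction j with
    | zero => exact ⟨c, hc, by simpa using hN2⟩
    | succ j ih =>
      obtain ⟨d, hd, hj⟩ := ih
      obtain ⟨m', rfl⟩ : ∃ m', m = m' + 2 := ⟨m - 2, by omega⟩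
      refine ⟨d + 2 * (2 ^ (m' + j) * d ^ 2), hd.add_even (even_two_mul _), ?_⟩
      rw [pow_succ 2 (j + 1), pow_mul, hj]
      have e1 : m' + 2 + j = m' + j + 2 := by ring
      have e2 : m' + 2 + (j + 1) = m' + j + 3 := by ring
      rw [e1, e2]
      ring
  refine ⟨m, fun n hn => ?_⟩
  obtain ⟨j, rfl⟩ := Nat.exists_eq_add_of_le hn
  obtain ⟨d, hd, hj⟩ := key j
  refine ⟨g ^ (2 ^ (j + 1)), Subgroup.pow_mem _ hg _, ?_⟩
  have h3 : cyc (g ^ (2 ^ (j + 1))) - 1 = (2 : ℤ_[2]) ^ (m + j) * d := by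
    rw [cyc_pow, hcyc, ← Nat.cast_pow, hj]
    push_cast
    ring
  rw [h3]
  refine ⟨dvd_mul_right _ _, ?_⟩
  intro h4
  rw [pow_succ] at h4
  have h20 : (2 : ℤ_[2]) ≠ 0 := two_ne_zero
  have h5 : (2 : ℤ_[2]) ∣ d := (mul_dvd_mul_iff_left (pow_ne_zero _ h20)).1 h4
  obtain ⟨e, rfl⟩ := hd
  push_cast at h5
  have h6 : (2 : ℤ_[2]) ∣ 1 := (dvd_add_right (dvd_mul_right _ _)).1 h5
  have h7 : Prime ((2 : ℕ) : ℤ_[2]) := PadicInt.prime_p
  exact h7.not_dvd_one (by exact_mod_cast h6)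

end Pool.Agent.Work.MP_787500_nt.GP
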