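import Mathlib
import Pool.Agent.Work.MP_787500_nt.GP.LT2_Sep
import Pool.Agent.Work.MP_787500_nt.GP.N7_Inert

/-!
# Module LT3_GEN (size M-L): generators of the decomposition group

`l` is a prime number, `l ≠ 2, q`, that divides some `A ^ 2 + q`; `P` a prime of the ring of all algebraic
integers containing `l`, `p = P ∩ 𝓞 K`, a place of `K`.
(1) `p.valuation K l = exp (-1)` and the residue field of `p` has `l` elements: let `p'` be the conjugate of
`p` under the nontrivial automorphism of `K`. `(A + s) (A - s) = A ^ 2 + q ∈ l 𝓞`, so one of `A + s`, `A - s` is in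
`p`, and not both (`2 s ∈ p`, `s ^ 2 = -q`, `l` would give `1 ∈ p`); so `p ≠ p'`; both divide `l`, the norm of
`l` is `l ^ 2` and the norms of `p` and `p'` are powers of `l`, so `(l) = p p'`, both of norm `l`.
* `exists_tau`: by `ram_iff` with `U = ⊤` (`Fx ⊤` is `K`; or by `exists_inertia_of_odd` and conjugation) there is
  `n ∈ P.inertia` with `n (r 1) ≠ r 1`, so `a n` is odd (`IsKum.even`). On `P.inertia` `cyc = 1`
  (`cyc_inertia`), so `a` is an additive, continuous map from the compact group `P.inertia` to `ℤ_[2]`; the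
  image is closed and contains all integer multiples of the unit `a n`, hence everything. In particular
  every value, also `-a σ₀` below. `P.inertia ≤ stabD P`.
* `exists_sigma`: as in `exists_frob` (`N7_Inert.lean`) with `U = ⊤`: there is `σ₀ ∈ stabD P` with
  `σ₀ x - x ^ N ∈ P` for all `x`, `N = l` the number of elements of the residue field of `p`; `cyc σ₀ = l`. Choose
  `τ' ∈ P.inertia` with `a τ' = -a σ₀`, `σ = τ' σ₀`: `a σ = a τ' + a σ₀ = 0`, `cyc σ = l`.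
* `stab_dens`: `g ∈ stabD P` acts on the residue field of `P`, which contains the finite field generated by the
  reduction of a root of unity `ζ` of order `2 ^ n`; its automorphisms are `x ↦ x ^ (l ^ i)`, so
  `g ζ = ζ ^ (l ^ i)` modulo `P`, so in the closure.
-/

set_option autoImplicit false
set_option linter.unusedSectionVars false

namespace Pool.Agent.Work.MP_787500_nt.GP

open IsDedekindDomain NumberField
open Pool.Agent.Work.MP_787500_nt.PA (TwoSys Sm1 Sm2 homs Coc Cob IsChar goodSys core cyc Opn SU)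
open Pool.Agent.Work.MP_787500_nt.Gn (GoodG)

universe u

open scoped Pointwise

variable {K : Type u} [Field K] [NumberField K]

private theorem inertia_of_odd {F : Type*} [Field F] [NumberField F] {Ω : Type*} [Field Ω]
    [Algebra F Ω] [IsGalois F Ω] {d : F} {s : Ω} (hs : s ^ 2 = algebraMap F Ω d)
    {v : HeightOneSpectrum (𝓞 F)} {Q : Ideal (𝓞 Ω)} (hQ : Q.IsPrime)
    (hQv : Q.comap (algebraMap (𝓞 F) (𝓞 Ω)) = v.asIdeal)
    (hd : ¬ IsSquare (v.valuation F d)) :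
    ∃ σ ∈ Q.inertia (Ω ≃ₐ[F] Ω), σ s = -s := by
  have hd0 : d ≠ 0 := by
    rintro rfl
    exact hd ⟨0, by rw [map_zero, mul_zero]⟩
  have hs0 : s ≠ 0 := by
    rintro rfl
    rw [zero_pow (by norm_num)] at hs
    exact hd0 ((map_eq_zero (algebraMap F Ω)).1 hs.symm)
  have hsign : ∀ σ : Ω ≃ₐ[F] Ω, σ s = s ∨ σ s = -s := by
    intro σ
    apply sq_eq_sq_iff_eq_or_eq_neg.1
    rw [← map_pow, hs, AlgEquiv.commutes]
  have hmem : ∀ z : 𝓞 F, algebraMap (𝓞 F) (𝓞 Ω) z ∈ Q ↔ z ∈ v.asIdeal := by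
    intro z
    rw [← hQv, Ideal.mem_comap]
  obtain ⟨σ₀, hσ₀⟩ : ∃ σ : Ω ≃ₐ[F] Ω, σ s ≠ s := by
    by_contra hcon
    push Not at hcon
    obtain ⟨a, ha⟩ := mem_base_of_fixed hcon
    have : a ^ 2 = d := by
      apply (algebraMap F Ω).injective
      rw [map_pow, ha, hs]
    apply hd
    rw [← this, map_pow]
    exact ⟨_, pow_two _⟩
  have hσ₀' : σ₀ s = -s := (hsign σ₀).resolve_left hσ₀
  have h2Ω : (2 : Ω) ≠ 0 := by
    rw [← map_ofNat (algebraMap F Ω) 2]
    exact (map_ne_zero _).2 two_ne_zero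
  have hne : ∀ σ : Ω ≃ₐ[F] Ω, ¬ (σ s = s ∧ σ s = -s) := by
    rintro σ ⟨h1, h2⟩
    have : (2 : Ω) * s = 0 := by rw [h1] at h2; linear_combination h2
    exact mul_ne_zero h2Ω hs0 this
  let H : Subgroup (Ω ≃ₐ[F] Ω) := MulAction.stabilizer (Ω ≃ₐ[F] Ω) s
  have hHmem : ∀ σ : Ω ≃ₐ[F] Ω, σ ∈ H ↔ σ s = s := fun σ => Iff.rfl
  have hHopen : IsOpen (H : Set (Ω ≃ₐ[F] Ω)) := stabilizer_isOpen_of_isIntegral s
  have hHcl : IsClosed (H : Set (Ω ≃ₐ[F] Ω)) := Subgroup.isClosed_of_isOpen H hHopen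
  let _ : TopologicalSpace (𝓞 Ω) := ⊥
  have : DiscreteTopology (𝓞 Ω) := ⟨rfl⟩
  have : ContinuousSMul (Ω ≃ₐ[F] Ω) (𝓞 Ω) := by
    rw [continuousSMul_iff_stabilizer_isOpen]
    intro x
    have h1 : IsOpen (MulAction.stabilizer (Ω ≃ₐ[F] Ω) (algebraMap (𝓞 Ω) Ω x) :
      Set (Ω ≃ₐ[F] Ω)) := stabilizer_isOpen_of_isIntegral _
    convert h1 using 1
    ext σ
    simp only [SetLike.mem_coe, MulAction.mem_stabilizer_iff]
    constructor
    · intro h
      have := congrArg (algebraMap (𝓞 Ω) Ω) h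
      exact this
    · intro h
      apply RingOfIntegers.ext
      exact h
  have key : ∀ (σ : Ω ≃ₐ[F] Ω), σ s = -s → ∀ x : 𝓞 Ω, (∀ h ∈ H, h • x = x) → σ • x - x ∈ Q := by
    intro σ hσ x hx
    have hx' : ∀ τ : Ω ≃ₐ[F] Ω, τ s = s → τ (algebraMap (𝓞 Ω) Ω x) = algebraMap (𝓞 Ω) Ω x := by
      intro τ hτ
      have := congrArg (algebraMap (𝓞 Ω) Ω) (hx τ hτ)
      exact this
    set X := algebraMap (𝓞 Ω) Ω x with hX
    set y := σ X - X with hy
    have hσinv : σ⁻¹ s = -s := by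
      have : σ⁻¹ (σ s) = s := by
        rw [← AlgEquiv.mul_apply, inv_mul_cancel]; rfl
      rw [hσ, map_neg] at this
      exact neg_eq_iff_eq_neg.1 this
    have hys : ∀ τ : Ω ≃ₐ[F] Ω, τ (y * s) = y * s := by
      intro τ
      rcases hsign τ with h | h
      · have h1 : τ (σ X) = σ X := by
          have h2 := hx' (σ⁻¹ * (τ * σ)) (by
            rw [AlgEquiv.mul_apply, AlgEquiv.mul_apply, hσ, map_neg, h, map_neg, hσinv, neg_neg])
          have h3 := congrArg σ h2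
          rw [← AlgEquiv.mul_apply, mul_inv_cancel_left, AlgEquiv.mul_apply] at h3
          exact h3
        rw [hy, map_mul, map_sub, h1, hx' τ h, h]
      · have h1 : τ (σ X) = X := by
          rw [← AlgEquiv.mul_apply]
          exact hx' _ (by rw [AlgEquiv.mul_apply, hσ, map_neg, h, neg_neg])
        have h2 : τ X = σ X := by
          have h2 := hx' (σ⁻¹ * τ) (by rw [AlgEquiv.mul_apply, h, map_neg, hσinv, neg_neg])
          have h3 := congrArg σ h2
          rw [← AlgEquiv.mul_apply, mul_inv_cancel_left] at h3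
          exact h3
        rw [hy, map_mul, map_sub, h1, h2, h]
        ring
    obtain ⟨a, ha⟩ := mem_base_of_fixed hys
    have hy2 : y ^ 2 = algebraMap F Ω (a ^ 2 / d) := by
      rw [map_div₀, map_pow, ha, ← hs]
      field_simp
    have hYy : algebraMap (𝓞 Ω) Ω ((σ • x - x) ^ 2) = y ^ 2 := by
      rw [map_pow, map_sub, coe_smul_int]
    have hint : IsIntegral ℤ (a ^ 2 / d) := by
      have h1 : IsIntegral ℤ (algebraMap F Ω (a ^ 2 / d)) := by
        rw [← hy2, ← hYy]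
        exact RingOfIntegers.isIntegral_coe _
      exact (isIntegral_algebraMap_iff (algebraMap F Ω).injective).1 h1
    obtain ⟨z, hz⟩ : ∃ z : 𝓞 F, algebraMap (𝓞 F) F z = a ^ 2 / d := ⟨⟨_, hint⟩, rfl⟩
    have hYz : (σ • x - x) ^ 2 = algebraMap (𝓞 F) (𝓞 Ω) z := by
      apply RingOfIntegers.ext
      show algebraMap (𝓞 Ω) Ω _ = algebraMap (𝓞 Ω) Ω _
      rw [hYy, hy2, ← hz]
      rfl
    have hzv : z ∈ v.asIdeal := by
      by_contra hcon
      have h1 := (HeightOneSpectrum.valuation_eq_one_iff_notMem (K := F) v).2 hcon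
      rw [hz, map_div₀] at h1
      apply hd
      have h2 : v.valuation F d ≠ 0 := (v.valuation F).ne_zero_iff.2 hd0
      have h3 : v.valuation F (a ^ 2) = v.valuation F d := (div_eq_one_iff_eq h2).1 h1
      rw [← h3, map_pow]
      exact ⟨_, pow_two _⟩
    have h5 : (σ • x - x) ^ 2 ∈ Q := by
      rw [hYz, hmem]
      exact hzv
    exact hQ.mem_of_pow_mem _ h5
  have hσinv : σ₀⁻¹ s = -s := by
    have : σ₀⁻¹ (σ₀ s) = s := by
      rw [← AlgEquiv.mul_apply, inv_mul_cancel]; rfl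
    rw [hσ₀', map_neg] at this
    exact neg_eq_iff_eq_neg.1 this
  obtain ⟨h, hh, hin⟩ := exists_inertia H hHcl Q σ₀ (key _ hσinv)
  refine ⟨h * σ₀, hin, ?_⟩
  rw [AlgEquiv.mul_apply, hσ₀', map_neg, (hHmem h).1 hh]

private theorem inert_spec (g : AbsGal K) {n : ℕ} {ζ : AlgebraicClosure K} (h : ζ ^ 2 ^ n = 1) :
    g ζ = ζ ^ (PadicInt.toZModPow n (cyc g)).val :=
  cyclotomicCharacter.spec 2 (g : AlgebraicClosure K ≃+* AlgebraicClosure K) ζ h

private theorem inert_pow_neg {R : Type*} [CommRing R] [IsDomain R] {x : R} {k : ℕ}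
    (h : x ^ 2 ^ k = 1) (h1 : x ≠ 1) : ∃ m : ℕ, x ^ 2 ^ m = -1 := by
  induction k generalizing x with
  | zero =>
    rw [pow_zero, pow_one] at h
    exact absurd h h1
  | succ k ih =>
    by_cases h2 : x ^ 2 = 1
    · refine ⟨0, ?_⟩
      rw [pow_zero, pow_one]
      have h3 : (x - 1) * (x + 1) = 0 := by linear_combination h2
      rcases mul_eq_zero.1 h3 with h4 | h4
      · exact absurd (sub_eq_zero.1 h4) h1
      · exact eq_neg_of_add_eq_zero_left h4
    · obtain ⟨m, hm⟩ := ih (x := x ^ 2) (by rw [← pow_mul, ← pow_succ']; exact h) h2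
      exact ⟨m + 1, by rw [pow_succ', pow_mul]; exact hm⟩

/-- different roots of unity of 2-power order are different modulo `Q` -/
private theorem inert_root {B : Type*} [CommRing B] [IsDomain B] {Q : Ideal B}
    (h2 : (2 : B) ∉ Q) {ζ : B} {k a b : ℕ} (hζ : ζ ^ 2 ^ k = 1) (h : ζ ^ a - ζ ^ b ∈ Q) :
    ζ ^ a = ζ ^ b := by
  -- `ω = ζ ^ (a + (2 ^ k - 1) b)`
  have hpos : 1 ≤ 2 ^ k := Nat.one_le_two_pow
  have hinv : ζ ^ b * ζ ^ ((2 ^ k - 1) * b) = 1 := by
    rw [← pow_add]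
    have : b + (2 ^ k - 1) * b = 2 ^ k * b := by
      conv_lhs => rw [← one_mul b, ← mul_assoc, mul_one, ← add_mul]
      congr 1
      omega
    rw [this, pow_mul, hζ, one_pow]
  by_contra hne
  have hω1 : ζ ^ a * ζ ^ ((2 ^ k - 1) * b) ≠ 1 := by
    intro h3
    apply hne
    calc ζ ^ a = ζ ^ a * (ζ ^ b * ζ ^ ((2 ^ k - 1) * b)) := by rw [hinv, mul_one]
      _ = (ζ ^ a * ζ ^ ((2 ^ k - 1) * b)) * ζ ^ b := by ring
      _ = ζ ^ b := by rw [h3, one_mul]
  have hωk : (ζ ^ a * ζ ^ ((2 ^ k - 1) * b)) ^ 2 ^ k = 1 := by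
    rw [← pow_add, ← pow_mul, mul_comm, pow_mul, hζ, one_pow]
  obtain ⟨m, hm⟩ := inert_pow_neg hωk hω1
  have h4 : ζ ^ a * ζ ^ ((2 ^ k - 1) * b) - 1 ∈ Q := by
    have : ζ ^ a * ζ ^ ((2 ^ k - 1) * b) - 1 = (ζ ^ a - ζ ^ b) * ζ ^ ((2 ^ k - 1) * b) := by
      rw [sub_mul, hinv]
    rw [this]
    exact Q.mul_mem_right _ h
  have h5 : (ζ ^ a * ζ ^ ((2 ^ k - 1) * b)) ^ 2 ^ m - 1 ∈ Q := by
    have h6 := sub_dvd_pow_sub_pow (ζ ^ a * ζ ^ ((2 ^ k - 1) * b)) 1 (2 ^ m)
    rw [one_pow] at h6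
    exact Ideal.mem_of_dvd Q h6 h4
  rw [hm] at h5
  apply h2
  have h7 : (2 : B) = -(-1 - 1) := by ring
  rw [h7]
  exact Q.neg_mem h5

private theorem inert_stab {Q : Ideal (𝓞 (AlgebraicClosure K))} {g : AbsGal K} (h : g • Q = Q) :
    g ∈ stabD Q := by
  rw [mem_stabD]
  intro x
  conv_rhs => rw [← h]
  exact Ideal.smul_mem_pointwise_smul_iff.symm

private theorem lt2_smul : letI : TopologicalSpace (𝓞 (AlgebraicClosure K)) := ⊥
    ContinuousSMul (AbsGal K) (𝓞 (AlgebraicClosure K)) := by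
  let _ : TopologicalSpace (𝓞 (AlgebraicClosure K)) := ⊥
  have : DiscreteTopology (𝓞 (AlgebraicClosure K)) := ⟨rfl⟩
  rw [continuousSMul_iff_stabilizer_isOpen]
  intro x
  have h1 : IsOpen (MulAction.stabilizer (AbsGal K)
      (algebraMap (𝓞 (AlgebraicClosure K)) (AlgebraicClosure K) x) : Set (AbsGal K)) :=
    stabilizer_isOpen_of_isIntegral _
  convert h1 using 1
  ext σ
  simp only [SetLike.mem_coe, MulAction.mem_stabilizer_iff]
  constructor
  · intro h
    have := congrArg (algebraMap (𝓞 (AlgebraicClosure K)) (AlgebraicClosure K)) h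
    exact this
  · intro h
    apply RingOfIntegers.ext
    exact h

private theorem closed_of_cosets {S : Set (AbsGal K)} {W : Subgroup (AbsGal K)}
    (hW : IsOpen (W : Set (AbsGal K))) (h : ∀ g ∈ S, ∀ w ∈ W, g * w ∈ S) : IsClosed S := by
  rw [← isOpen_compl_iff, isOpen_iff_mem_nhds]
  intro g hg
  have h1 : (fun x : AbsGal K => g * x) '' (W : Set (AbsGal K)) ∈ nhds g := by
    have h2 : IsOpen ((fun x : AbsGal K => g * x) '' (W : Set (AbsGal K))) :=
      isOpenMap_mul_left g _ hW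
    exact h2.mem_nhds ⟨1, W.one_mem, mul_one g⟩
  refine Filter.mem_of_superset h1 ?_
  rintro _ ⟨w, hw, rfl⟩ hmem
  apply hg
  have := h _ hmem w⁻¹ (W.inv_mem hw)
  simp only [mul_inv_cancel_right] at this
  exact this

private theorem eq_zero_of_dvd {x : ℤ_[2]} (h : ∀ n : ℕ, (2 : ℤ_[2]) ^ n ∣ x) : x = 0 := by
  refine PadicInt.ext_of_toZModPow.mp fun n => ?_
  rw [map_zero]
  obtain ⟨c, hc⟩ := h n
  rw [hc, map_mul, map_pow, map_ofNat]
  have : (2 : ZMod (2 ^ n)) ^ n = 0 := by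
    have h1 : ((2 ^ n : ℕ) : ZMod (2 ^ n)) = 0 := ZMod.natCast_self _
    exact_mod_cast h1
  rw [this, zero_mul]

private theorem ut_l {l : ℕ} (hl : l.Prime) {T : Finset ℕ} (hlT : l ∈ T) :
    UT (K := K) T (l : AlgebraicClosure K) := by
  refine ⟨by exact_mod_cast hl.ne_zero, ?_⟩
  intro Q hQ _ hT
  refine ⟨(l : 𝓞 (AlgebraicClosure K)), 1, hT l hlT, fun h => hQ.ne_top ((Ideal.eq_top_iff_one Q).2 h),
    ?_⟩
  have e1 : ((1 : 𝓞 (AlgebraicClosure K)) : AlgebraicClosure K) = 1 := rfl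
  have e2 : ((l : 𝓞 (AlgebraicClosure K)) : AlgebraicClosure K) = l :=
    map_natCast (algebraMap (𝓞 (AlgebraicClosure K)) (AlgebraicClosure K)) l
  rw [e1, e2, mul_one]

private theorem trace_s {q : ℕ} {s : K} (hK : IsBase K q s) : Algebra.trace ℚ K s = 0 := by
  have hq0 : (0 : ℚ) < q := by exact_mod_cast hK.2.2.1.pos
  have hdeg : (Polynomial.X ^ 2 + Polynomial.C (q : ℚ)).natDegree = 2 := by compute_degree!
  have hirr : Irreducible (Polynomial.X ^ 2 + Polynomial.C (q : ℚ)) := by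
    refine Polynomial.irreducible_of_degree_le_three_of_not_isRoot (by rw [hdeg]; decide) ?_
    intro x hx
    have h1 : x ^ 2 + (q : ℚ) = 0 := by
      simpa using hx
    nlinarith [sq_nonneg x]
  have hmon : (Polynomial.X ^ 2 + Polynomial.C (q : ℚ)).Monic := by
    monicity!
  have hmin : Polynomial.X ^ 2 + Polynomial.C (q : ℚ) = minpoly ℚ s := by
    refine minpoly.eq_of_irreducible_of_monic hirr ?_ hmon
    simp [hK.2.1]
  rw [trace_eq_finrank_mul_minpoly_nextCoeff, ← hmin]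
  have : (Polynomial.X ^ 2 + Polynomial.C (q : ℚ)).nextCoeff = 0 := by
    rw [Polynomial.nextCoeff_of_natDegree_pos (by rw [hdeg]; decide), hdeg]
    simp [Polynomial.coeff_X_pow]
  rw [this]
  simp

private theorem split_main {q : ℕ} {s : K} (hK : IsBase K q s) {l : ℕ} (hl : SplitPr q l)
    {p : HeightOneSpectrum (𝓞 K)} (hp : (l : 𝓞 K) ∈ p.asIdeal) :
    (l : 𝓞 K) ∉ p.asIdeal ^ 2 ∧ Nat.card (𝓞 K ⧸ p.asIdeal) = l := by
  obtain ⟨hlp, hl2, hlq, A, hA⟩ := hl
  have hqp := hK.2.2.1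
  have hlA : ¬ (l : ℤ) ∣ A := by
    intro h
    have h1 : (l : ℤ) ∣ q := (Int.dvd_add_right (dvd_pow h two_ne_zero)).1 hA
    have h2 : l ∣ q := by exact_mod_cast h1
    exact hlq ((Nat.prime_dvd_prime_iff_eq hlp hqp).1 h2)
  have hl2A : IsCoprime (l : ℤ) (2 * A) := by
    have h2 : ¬ (l : ℤ) ∣ 2 * A := by
      intro h
      rcases Int.Prime.dvd_mul' hlp h with h | h
      · have h3 : l ∣ 2 := by exact_mod_cast h
        exact hl2 ((Nat.prime_dvd_prime_iff_eq hlp Nat.prime_two).1 h3)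
      · exact hlA h
    exact (Nat.prime_iff_prime_int.1 hlp).irreducible.coprime_iff_not_dvd.2 h2
  obtain ⟨c, d, hcd⟩ := hl2A
  -- the integral element `t`
  have hsi : IsIntegral ℤ s := by
    refine ⟨Polynomial.X ^ 2 + Polynomial.C (q : ℤ), by monicity!, ?_⟩
    simp [hK.2.1]
  obtain ⟨t, ht⟩ : ∃ t : 𝓞 K, (t : K) = s := ⟨⟨s, hsi⟩, rfl⟩
  have htt : t ^ 2 = -(q : 𝓞 K) := by
    apply RingOfIntegers.ext
    have : ((t ^ 2 : 𝓞 K) : K) = (t : K) ^ 2 := map_pow (algebraMap (𝓞 K) K) t 2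
    rw [this, ht, hK.2.1]
    simp
  have htr : Algebra.trace ℤ (𝓞 K) t = 0 := by
    have h := Algebra.coe_trace_int t
    rw [ht, trace_s hK] at h
    exact_mod_cast h
  obtain ⟨m, hm⟩ := hA
  -- the sign
  obtain ⟨ε, hε, hu⟩ : ∃ ε : 𝓞 K, ε ^ 2 = 1 ∧ (∃ e : ℤ, ε = e) ∧ ((A : 𝓞 K) + ε * t) ∈ p.asIdeal := by
    have h1 : ((A : 𝓞 K) + 1 * t) * ((A : 𝓞 K) + -1 * t) ∈ p.asIdeal := by
      have : ((A : 𝓞 K) + 1 * t) * ((A : 𝓞 K) + -1 * t) = (m : 𝓞 K) * l := by
        have h2 : ((A ^ 2 + q : ℤ) : 𝓞 K) = ((l * m : ℤ) : 𝓞 K) := by rw [hm]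
        push_cast at h2
        linear_combination h2 - htt
      rw [this]
      exact p.asIdeal.mul_mem_left _ hp
    rcases p.isPrime.mem_or_mem h1 with h | h
    · exact ⟨1, by ring, ⟨1, by simp⟩, h⟩
    · exact ⟨-1, by ring, ⟨-1, by simp⟩, h⟩
  obtain ⟨⟨e, he⟩, hu⟩ := hu
  set u : 𝓞 K := (A : 𝓞 K) + ε * t with hudef
  set u' : 𝓞 K := (A : 𝓞 K) - ε * t with hu'def
  have huu : u * u' = (m : 𝓞 K) * l := by
    have h2 : ((A ^ 2 + q : ℤ) : 𝓞 K) = ((l * m : ℤ) : 𝓞 K) := by rw [hm]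
    push_cast at h2
    rw [hudef, hu'def]
    linear_combination h2 - ε ^ 2 * htt + (q : 𝓞 K) * hε
  have hsum : u + u' = 2 * (A : 𝓞 K) := by rw [hudef, hu'def]; ring
  have hcd' : (c : 𝓞 K) * l + d * (2 * A) = 1 := by exact_mod_cast congrArg (fun z : ℤ => (z : 𝓞 K)) hcd
  have hu' : u' ∉ p.asIdeal := by
    intro h
    apply p.isPrime.ne_top
    rw [Ideal.eq_top_iff_one, ← hcd', ← hsum]
    exact p.asIdeal.add_mem (p.asIdeal.mul_mem_left _ hp)
      (p.asIdeal.mul_mem_left _ (p.asIdeal.add_mem hu h))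
  let I : Ideal (𝓞 K) := Ideal.span {(l : 𝓞 K), u}
  let I' : Ideal (𝓞 K) := Ideal.span {(l : 𝓞 K), u'}
  have hII : I * I' = Ideal.span {(l : 𝓞 K)} := by
    apply le_antisymm
    · rw [Ideal.span_mul_span', Ideal.span_le]
      rintro _ ⟨x, hx, y, hy, rfl⟩
      simp only [Set.mem_insert_iff, Set.mem_singleton_iff] at hx hy
      show x * y ∈ Ideal.span {(l : 𝓞 K)}
      rw [Ideal.mem_span_singleton]
      rcases hx with rfl | rfl
      · exact dvd_mul_right _ _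
      · rcases hy with rfl | rfl
        · exact dvd_mul_left _ _
        · rw [huu]; exact dvd_mul_left _ _
    · rw [Ideal.span_singleton_le_iff_mem]
      have hl1 : (l : 𝓞 K) ∈ I := Ideal.subset_span (by simp)
      have hl1' : (l : 𝓞 K) ∈ I' := Ideal.subset_span (by simp)
      have h1 : u ∈ I := Ideal.subset_span (by simp)
      have h1' : u' ∈ I' := Ideal.subset_span (by simp)
      have h2 : (l : 𝓞 K) = c * (l * l) + d * (u * l + l * u') := by
        linear_combination (-(l : 𝓞 K)) * hcd' - (d : 𝓞 K) * l * hsum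
      rw [h2]
      exact (I * I').add_mem ((I * I').mul_mem_left _ (Ideal.mul_mem_mul hl1 hl1'))
        ((I * I').mul_mem_left _ ((I * I').add_mem (Ideal.mul_mem_mul h1 hl1')
          (Ideal.mul_mem_mul hl1 h1')))
  have hIp : I ≤ p.asIdeal := by
    rw [Ideal.span_le]
    intro x hx
    simp only [Set.mem_insert_iff, Set.mem_singleton_iff] at hx
    rcases hx with rfl | rfl
    · exact hp
    · exact hu
  have hI1 : I ≠ ⊤ := fun h => p.isPrime.ne_top (top_le_iff.1 (h ▸ hIp))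
  have hI'1 : I' ≠ ⊤ := by
    intro h
    rw [h, Ideal.mul_top] at hII
    have h1 : u ∈ I := Ideal.subset_span (by simp)
    rw [hII, Ideal.mem_span_singleton] at h1
    obtain ⟨w, hw⟩ := h1
    have h2 := congrArg (Algebra.trace ℤ (𝓞 K)) hw
    have e1 : u = algebraMap ℤ (𝓞 K) A + e • t := by
      rw [hudef, he]
      simp
    have e2 : (l : 𝓞 K) * w = (l : ℤ) • w := by
      simp
    have hfr : Module.finrank ℤ (𝓞 K) = 2 := by
      rw [RingOfIntegers.rank, hK.1]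
    rw [e1, e2, map_add, map_smul, map_smul, htr, Algebra.trace_algebraMap, hfr] at h2
    simp only [smul_eq_mul, mul_zero, add_zero, nsmul_eq_mul] at h2
    have h3 : (l : ℤ) ∣ 1 := by
      rw [← hcd]
      refine dvd_add (dvd_mul_left _ _) (Dvd.dvd.mul_left ?_ _)
      exact ⟨_, by exact_mod_cast h2⟩
    exact (Nat.prime_iff_prime_int.1 hlp).not_dvd_one h3
  have hnorm : Ideal.absNorm I * Ideal.absNorm I' = l ^ 2 := by
    rw [← map_mul, hII, Ideal.absNorm_span_natCast, RingOfIntegers.rank, hK.1]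
  have hn1 : Ideal.absNorm I ≠ 1 := fun h => hI1 (Ideal.absNorm_eq_one_iff.1 h)
  have hn2 : Ideal.absNorm I' ≠ 1 := fun h => hI'1 (Ideal.absNorm_eq_one_iff.1 h)
  obtain ⟨hn, hn'⟩ := (hlp.mul_eq_prime_sq_iff hn1 hn2).1 hnorm
  have hIprime : I.IsPrime := Ideal.isPrime_of_irreducible_absNorm (by rw [hn]; exact hlp.prime.irreducible)
  have hI0 : I ≠ ⊥ := by
    intro h
    rw [h, Ideal.absNorm_bot] at hn
    exact hlp.ne_zero hn.symm
  have hIm : I.IsMaximal := hIprime.isMaximal hI0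
  have hIeq : I = p.asIdeal := hIm.eq_of_le p.isPrime.ne_top hIp
  refine ⟨?_, ?_⟩
  · intro hmem
    have h1 : Ideal.span {(l : 𝓞 K)} ≤ p.asIdeal * p.asIdeal := by
      rw [Ideal.span_singleton_le_iff_mem, ← pow_two]
      exact hmem
    rw [← hII, hIeq, ← Ideal.dvd_iff_le, mul_dvd_mul_iff_left p.ne_bot] at h1
    rw [Ideal.dvd_iff_le] at h1
    exact hu' (h1 (Ideal.subset_span (by simp)))
  · rw [← hIeq]
    have : Ideal.absNorm I = Nat.card (𝓞 K ⧸ I) := by
      rw [Ideal.absNorm_apply, Submodule.cardQuot_apply]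
    rw [← this, hn]

theorem split_val {q : ℕ} {s : K} (hK : IsBase K q s) {l : ℕ} (hl : SplitPr q l)
    {p : HeightOneSpectrum (𝓞 K)} (hp : (l : 𝓞 K) ∈ p.asIdeal) :
    p.valuation K (l : K) = WithZero.exp (-1 : ℤ) := by
  obtain ⟨h2, -⟩ := split_main hK hl hp
  have h0 : (l : 𝓞 K) ≠ 0 := by exact_mod_cast hl.1.ne_zero
  have e : (l : K) = algebraMap (𝓞 K) K (l : 𝓞 K) := by simp
  rw [e, HeightOneSpectrum.valuation_of_algebraMap]
  have h3 : p.intValuation (l : 𝓞 K) ≤ WithZero.exp (-((1 : ℕ) : ℤ)) := by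
    rw [HeightOneSpectrum.intValuation_le_pow_iff_mem, pow_one]
    exact hp
  have h4 : ¬ p.intValuation (l : 𝓞 K) ≤ WithZero.exp (-((2 : ℕ) : ℤ)) := by
    rw [HeightOneSpectrum.intValuation_le_pow_iff_mem]
    exact h2
  have hne : p.intValuation (l : 𝓞 K) ≠ 0 := by
    intro h
    rw [h] at h4
    exact h4 zero_le
  obtain ⟨n, hn⟩ : ∃ n : ℤ, p.intValuation (l : 𝓞 K) = WithZero.exp n :=
    ⟨WithZero.log _, (WithZero.exp_log hne).symm⟩
  rw [hn] at h3 h4 ⊢
  rw [WithZero.exp_le_exp] at h3 h4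
  congr 1
  push_cast at h3 h4
  omega


private theorem two_notMem {l : ℕ} (hl : l.Prime) (hl2 : l ≠ 2)
    {P : Ideal (𝓞 (AlgebraicClosure K))} (hP : P.IsPrime)
    (hlP : (l : 𝓞 (AlgebraicClosure K)) ∈ P) : (2 : 𝓞 (AlgebraicClosure K)) ∉ P := by
  intro h
  obtain ⟨k, hk⟩ := hl.odd_of_ne_two hl2
  apply hP.ne_top
  rw [Ideal.eq_top_iff_one]
  have : (1 : 𝓞 (AlgebraicClosure K)) = l - 2 * k := by rw [hk]; push_cast; ring
  rw [this]
  exact P.sub_mem hlP (P.mul_mem_right _ h)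

private theorem inertia_closed (P : Ideal (𝓞 (AlgebraicClosure K))) :
    IsClosed (P.inertia (AbsGal K) : Set (AbsGal K)) := by
  let _ : TopologicalSpace (𝓞 (AlgebraicClosure K)) := ⊥
  have : DiscreteTopology (𝓞 (AlgebraicClosure K)) := ⟨rfl⟩
  have : ContinuousSMul (AbsGal K) (𝓞 (AlgebraicClosure K)) := lt2_smul
  have h : (P.inertia (AbsGal K) : Set (AbsGal K)) = ⋂ x : 𝓞 (AlgebraicClosure K),
      (fun g : AbsGal K => g • x) ⁻¹' {y | y - x ∈ P} := by
    ext g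
    simp only [SetLike.mem_coe, Set.mem_iInter, Set.mem_preimage, Set.mem_ofPred_eq]
    exact Iff.rfl
  rw [h]
  exact isClosed_iInter fun x => (isClosed_discrete _).preimage (by fun_prop)

/-- the place below -/
private theorem exists_place {l : ℕ} (hl : l.Prime) {P : Ideal (𝓞 (AlgebraicClosure K))}
    (hP : P.IsPrime) (hlP : (l : 𝓞 (AlgebraicClosure K)) ∈ P) :
    ∃ v : HeightOneSpectrum (𝓞 K), P.comap (algebraMap (𝓞 K) (𝓞 (AlgebraicClosure K))) = v.asIdeal ∧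
      (l : 𝓞 K) ∈ v.asIdeal := by
  have hmem : (l : 𝓞 K) ∈ P.comap (algebraMap (𝓞 K) (𝓞 (AlgebraicClosure K))) := by
    rw [Ideal.mem_comap, map_natCast]
    exact hlP
  have hne : P.comap (algebraMap (𝓞 K) (𝓞 (AlgebraicClosure K))) ≠ ⊥ := by
    intro h
    rw [h, Ideal.mem_bot] at hmem
    exact hl.ne_zero (by exact_mod_cast hmem)
  exact ⟨⟨_, Ideal.comap_isPrime _ _, hne⟩, rfl, hmem⟩

private theorem nonsq_exp : ¬ IsSquare (WithZero.exp (-1 : ℤ)) := by
  rintro ⟨r, hr⟩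
  have hr0 : r ≠ 0 := by
    rintro rfl
    rw [mul_zero] at hr
    exact WithZero.exp_ne_zero hr
  obtain ⟨n, rfl⟩ : ∃ n : ℤ, r = WithZero.exp n := ⟨WithZero.log r, (WithZero.exp_log hr0).symm⟩
  rw [← WithZero.exp_add] at hr
  have := WithZero.exp_injective hr
  omega

private theorem lt3_nat (x : ℤ_[2]) (n : ℕ) : ∃ j : ℕ, (2 : ℤ_[2]) ^ n ∣ x - j := by
  refine ⟨x.appr n, ?_⟩
  have := PadicInt.appr_spec n x
  rw [Ideal.mem_span_singleton] at this
  exact_mod_cast this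

theorem exists_tau {q : ℕ} {s : K} (hK : IsBase K q s) {l : ℕ} (hl : SplitPr q l)
    {P : Ideal (𝓞 (AlgebraicClosure K))} (hP : P.IsPrime)
    (hlP : (l : 𝓞 (AlgebraicClosure K)) ∈ P) {r : ℕ → AlgebraicClosure K} {a : AbsGal K → ℤ_[2]}
    (hr : IsKum r a) (h0 : r 0 = (l : AlgebraicClosure K)) (x : ℤ_[2]) :
    ∃ τ ∈ P.inertia (AbsGal K), τ ∈ stabD P ∧ cyc τ = 1 ∧ a τ = x := by
  have h2 := two_notMem hl.1 hl.2.1 hP hlP
  obtain ⟨v, hv, hlv⟩ := exists_place (K := K) hl.1 hP hlP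
  have hns : ¬ IsSquare (v.valuation K (l : K)) := by
    rw [split_val hK hl hlv]
    exact nonsq_exp
  obtain ⟨n, hn, hnr⟩ := inertia_of_odd (F := K) (Ω := AlgebraicClosure K) (d := (l : K)) (s := r 1)
    (by rw [hr.sq 0, h0, map_natCast]) hP hv hns
  have hr1 : r 1 ≠ 0 := by
    intro h
    have := hr.sq 0
    rw [zero_add, h, zero_pow two_ne_zero] at this
    exact hr.ne this.symm
  have hodd : ¬ (2 : ℤ_[2]) ∣ a n := by
    rw [hr.even, hnr]
    intro h
    have : (2 : AlgebraicClosure K) * r 1 = 0 := by linear_combination -h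
    exact mul_ne_zero two_ne_zero hr1 this
  have hunit : IsUnit (a n) := by
    by_contra hc
    have h1 : a n ∈ IsLocalRing.maximalIdeal ℤ_[2] := (IsLocalRing.mem_maximalIdeal _).2 hc
    rw [PadicInt.maximalIdeal_eq_span_p, Ideal.mem_span_singleton] at h1
    exact hodd (by exact_mod_cast h1)
  obtain ⟨w, hw⟩ := hunit
  have hut : UT (K := K) {l} (r 0) := by
    rw [h0]
    exact ut_l hl.1 (Finset.mem_singleton_self l)
  have ha1 := hr.c1 hut
  have ha_one : a 1 = 0 := by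
    have h := hr.coc 1 1
    rw [mul_one, (PA.isChar_cyc (K := K)).one, one_mul] at h
    exact left_eq_add.1 h
  have hpow : ∀ m : ℕ, a (n ^ m) = m * a n := by
    intro m
    induction m with
    | zero => rw [pow_zero, ha_one]; simp
    | succ m ih =>
      rw [pow_succ, hr.coc, ih, cyc_inertia hP h2 (Subgroup.pow_mem _ hn m)]
      push_cast
      ring
  let F : ℕ → Set (AbsGal K) := fun k => {g | g ∈ P.inertia (AbsGal K) ∧ (2 : ℤ_[2]) ^ k ∣ a g - x}
  have hFc : ∀ k, IsClosed (F k) := by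
    intro k
    have e : F k = (P.inertia (AbsGal K) : Set (AbsGal K)) ∩ {g | (2 : ℤ_[2]) ^ k ∣ a g - x} := by
      ext g; rfl
    rw [e]
    refine (inertia_closed P).inter ?_
    obtain ⟨W, hW, h⟩ := ha1 k
    have hW' : GoodT K {l} W := hW
    refine closed_of_cosets hW'.isOpen ?_
    intro g hg w hw
    have h3 := h g w hw
    have h4 := dvd_add h3 hg
    have e1 : a (g * w) - a g + (a g - x) = a (g * w) - x := by ring
    rw [e1] at h4
    exact h4
  have hmono : ∀ k, F (k + 1) ⊆ F k := by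
    rintro k g ⟨h3, h4⟩
    exact ⟨h3, (pow_dvd_pow 2 (Nat.le_succ k)).trans h4⟩
  have hne : ∀ k, (F k).Nonempty := by
    intro k
    obtain ⟨m, hm⟩ := lt3_nat (x * ((w⁻¹ : (ℤ_[2])ˣ) : ℤ_[2])) k
    refine ⟨n ^ m, Subgroup.pow_mem _ hn m, ?_⟩
    rw [hpow, ← hw]
    have e1 : (m : ℤ_[2]) * w - x = -((x * ((w⁻¹ : (ℤ_[2])ˣ) : ℤ_[2]) - m) * w) := by
      have : ((w⁻¹ : (ℤ_[2])ˣ) : ℤ_[2]) * w = 1 := w.inv_mul
      linear_combination x * this
    rw [e1]
    exact (Dvd.dvd.mul_right hm _).neg_right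
  have hcomp : CompactSpace (AbsGal K) := inferInstance
  obtain ⟨g, hg⟩ := IsCompact.nonempty_iInter_of_sequence_nonempty_isCompact_isClosed F hmono hne
    (hFc 0).isCompact hFc
  rw [Set.mem_iInter] at hg
  have hgi : g ∈ P.inertia (AbsGal K) := (hg 0).1
  refine ⟨g, hgi, ?_, cyc_inertia hP h2 hgi, sub_eq_zero.1 (eq_zero_of_dvd fun k => (hg k).2)⟩
  rw [mem_stabD]
  intro y
  have h3 : g • y - y ∈ P := hgi y
  constructor
  · intro hy
    have := P.add_mem h3 hy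
    rwa [sub_add_cancel] at this
  · intro hy
    have := P.sub_mem hy h3
    rwa [sub_sub_cancel] at this

private theorem frobK {l : ℕ} {P : Ideal (𝓞 (AlgebraicClosure K))} (hP : P.IsPrime)
    (h2 : (2 : 𝓞 (AlgebraicClosure K)) ∉ P) {v : HeightOneSpectrum (𝓞 K)}
    (hv : P.comap (algebraMap (𝓞 K) (𝓞 (AlgebraicClosure K))) = v.asIdeal)
    (hcard : Nat.card (𝓞 K ⧸ v.asIdeal) = l) :
    ∃ g ∈ stabD P, cyc g = l := by
  classical
  let _ : TopologicalSpace (𝓞 (AlgebraicClosure K)) := ⊥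
  have : DiscreteTopology (𝓞 (AlgebraicClosure K)) := ⟨rfl⟩
  have : ContinuousSMul (AbsGal K) (𝓞 (AlgebraicClosure K)) := lt2_smul
  have hcomm : SMulCommClass (AbsGal K) (𝓞 K) (𝓞 (AlgebraicClosure K)) := ⟨fun g a b => by
    rw [Algebra.smul_def, Algebra.smul_def, MulSemiringAction.smul_mul]
    congr 1
    apply RingOfIntegers.ext
    exact (g : AbsGal K).commutes (algebraMap (𝓞 K) K a)⟩
  have hinv : Algebra.IsInvariant (𝓞 K) (𝓞 (AlgebraicClosure K)) (AbsGal K) := ⟨fun b hb => by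
    obtain ⟨c, hc⟩ := mem_base_of_fixed (F := K) (Ω := AlgebraicClosure K)
      (x := algebraMap (𝓞 (AlgebraicClosure K)) (AlgebraicClosure K) b) (fun σ => by
        have := congrArg (algebraMap (𝓞 (AlgebraicClosure K)) (AlgebraicClosure K)) (hb σ)
        exact this)
    have hint : IsIntegral ℤ c := by
      have h1 : IsIntegral ℤ (algebraMap K (AlgebraicClosure K) c) := by
        rw [hc]
        exact RingOfIntegers.isIntegral_coe b
      exact (isIntegral_algebraMap_iff (algebraMap K (AlgebraicClosure K)).injective).1 h1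
    exact ⟨⟨c, hint⟩, RingOfIntegers.ext hc⟩⟩
  let p : Ideal (𝓞 K) := P.under (𝓞 K)
  have hpv : p = v.asIdeal := hv
  have hover : P.LiesOver p := ⟨rfl⟩
  have hp : p.IsPrime := inferInstance
  have hp0 : p ≠ ⊥ := by rw [hpv]; exact v.ne_bot
  have hpm : p.IsMaximal := hp.isMaximal hp0
  have hPm : P.IsMaximal := Ideal.IsMaximal.of_liesOver_isMaximal P p
  have hfinq : Finite (𝓞 K ⧸ p) := Ideal.finiteQuotientOfFreeOfNeBot p hp0
  let _ : Field (𝓞 K ⧸ p) := Ideal.Quotient.field p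
  let _ : Field (𝓞 (AlgebraicClosure K) ⧸ P) := Ideal.Quotient.field P
  let _ : Fintype (𝓞 K ⧸ p) := Fintype.ofFinite _
  have halg : Algebra.IsAlgebraic (𝓞 K ⧸ p) (𝓞 (AlgebraicClosure K) ⧸ P) := by
    have h1 : Algebra.IsIntegral (𝓞 K ⧸ p) (𝓞 (AlgebraicClosure K) ⧸ P) := inferInstance
    exact h1.isAlgebraic
  obtain ⟨τ, hτ⟩ := Ideal.Quotient.stabilizerHom_surjective_of_profinite (A := 𝓞 K)
    (B := 𝓞 (AlgebraicClosure K)) (G := AbsGal K) p P
    (FiniteField.frobeniusAlgEquivOfAlgebraic (𝓞 K ⧸ p) (𝓞 (AlgebraicClosure K) ⧸ P))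
  have hN : Fintype.card (𝓞 K ⧸ p) = l := by
    rw [← Nat.card_eq_fintype_card, hpv]
    exact hcard
  have hfrob : ∀ x : 𝓞 (AlgebraicClosure K), (τ : AbsGal K) • x - x ^ l ∈ P := by
    intro x
    have h6 := DFunLike.congr_fun hτ (Ideal.Quotient.mk P x)
    rw [Ideal.Quotient.stabilizerHom_apply] at h6
    have h7 : Ideal.Quotient.mk P ((τ : AbsGal K) • x) =
      Ideal.Quotient.mk P x ^ Fintype.card (𝓞 K ⧸ p) := h6
    rw [← map_pow, hN] at h7
    exact Ideal.Quotient.eq.1 h7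
  have hmem : (τ : AbsGal K) ∈ stabD P := by
    have hs : (τ : AbsGal K) • P = P := τ.2
    exact inert_stab hs
  refine ⟨(τ : AbsGal K), hmem, ?_⟩
  refine PadicInt.ext_of_toZModPow.mp fun k => ?_
  obtain ⟨ζ, hζ⟩ : ∃ ζ : AlgebraicClosure K, IsPrimitiveRoot ζ (2 ^ k) :=
    HasEnoughRootsOfUnity.exists_primitiveRoot _ _
  have hζi : IsIntegral ℤ ζ := hζ.isIntegral (by positivity)
  let z : 𝓞 (AlgebraicClosure K) := ⟨ζ, hζi⟩
  have hz : z ^ 2 ^ k = 1 := by
    apply RingOfIntegers.ext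
    show ζ ^ 2 ^ k = 1
    exact hζ.pow_eq_one
  have hg : (τ : AbsGal K) • z = z ^ (PadicInt.toZModPow k (cyc (τ : AbsGal K))).val := by
    apply RingOfIntegers.ext
    exact inert_spec _ hζ.pow_eq_one
  have h3 := hfrob z
  rw [hg] at h3
  have h4 := inert_root h2 hz h3
  have h5 : ζ ^ (PadicInt.toZModPow k (cyc (τ : AbsGal K))).val = ζ ^ l :=
    congrArg (algebraMap (𝓞 (AlgebraicClosure K)) (AlgebraicClosure K)) h4
  have : NeZero (2 ^ k) := ⟨by positivity⟩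
  have h7 : ζ ^ l = ζ ^ (l % 2 ^ k) := by
    conv_lhs => rw [← Nat.mod_add_div l (2 ^ k), pow_add, pow_mul, hζ.pow_eq_one, one_pow, mul_one]
  rw [h7] at h5
  have h8 := hζ.pow_inj (ZMod.val_lt _) (Nat.mod_lt _ (by positivity)) h5
  have h9 : ((PadicInt.toZModPow k (cyc (τ : AbsGal K))).val : ZMod (2 ^ k)) = l := by
    rw [h8, ZMod.natCast_mod]
  rw [ZMod.natCast_zmod_val] at h9
  rw [h9, map_natCast]

theorem exists_sigma {q : ℕ} {s : K} (hK : IsBase K q s) {l : ℕ} (hl : SplitPr q l)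
    {P : Ideal (𝓞 (AlgebraicClosure K))} (hP : P.IsPrime)
    (hlP : (l : 𝓞 (AlgebraicClosure K)) ∈ P) {r : ℕ → AlgebraicClosure K} {a : AbsGal K → ℤ_[2]}
    (hr : IsKum r a) (h0 : r 0 = (l : AlgebraicClosure K)) :
    ∃ σ ∈ stabD P, cyc σ = l ∧ a σ = 0 := by
  have h2 := two_notMem hl.1 hl.2.1 hP hlP
  obtain ⟨v, hv, hlv⟩ := exists_place (K := K) hl.1 hP hlP
  obtain ⟨σ₀, hσ₀, hc⟩ := frobK hP h2 hv (split_main hK hl hlv).2
  obtain ⟨τ, -, hτ, hτc, hτa⟩ := exists_tau hK hl hP hlP hr h0 (-a σ₀)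
  refine ⟨τ * σ₀, Subgroup.mul_mem _ hτ hσ₀, ?_, ?_⟩
  · rw [PA.isChar_cyc.mul, hτc, hc, one_mul]
  · rw [hr.coc, hτa, hτc, one_mul, neg_add_cancel]

/-- in a field of characteristic `l`, an endomorphism maps an element `z` with `z ^ (l ^ d) = z` to a
power `z ^ (l ^ j)` -/
private theorem endo_pow {k : Type*} [Field k] {l : ℕ} [Fact l.Prime] [CharP k l] (φ : k →+* k)
    {z : k} {d : ℕ} (hd : d ≠ 0) (hz : z ^ l ^ d = z) : ∃ j : ℕ, φ z = z ^ l ^ j := by
  classical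
  let f : Polynomial k := ∏ j ∈ Finset.range d, (Polynomial.X - Polynomial.C (z ^ l ^ j))
  have hfr : f.map (frobenius k l) = f := by
    have e1 : f.map (frobenius k l) =
        ∏ j ∈ Finset.range d, (Polynomial.X - Polynomial.C (z ^ l ^ (j + 1))) := by
      rw [Polynomial.map_prod]
      refine Finset.prod_congr rfl fun j _ => ?_
      rw [Polynomial.map_sub, Polynomial.map_X, Polynomial.map_C, frobenius_def, ← pow_mul,
        ← pow_succ]
    have e2 : (∏ j ∈ Finset.range d, (Polynomial.X - Polynomial.C (z ^ l ^ (j + 1)))) *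
        (Polynomial.X - Polynomial.C (z ^ l ^ 0)) = f * (Polynomial.X - Polynomial.C (z ^ l ^ d)) := by
      rw [← Finset.prod_range_succ' (fun j => Polynomial.X - Polynomial.C (z ^ l ^ j)) d,
        Finset.prod_range_succ]
    rw [pow_zero, pow_one, hz] at e2
    rw [e1]
    exact mul_right_cancel₀ (Polynomial.X_sub_C_ne_zero z) e2
  have hcoef : ∀ i, φ (f.coeff i) = f.coeff i := by
    intro i
    have h1 : (f.coeff i) ^ l = f.coeff i := by
      have := congrArg (fun g : Polynomial k => g.coeff i) hfr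
      simp only [Polynomial.coeff_map, frobenius_def] at this
      exact this
    have h2 : f.coeff i ∈ (⊥ : Subfield k) := (Subfield.mem_bot_iff_pow_eq_self k l).2 h1
    have h3 : (⊥ : Subfield k) ≤ φ.eqLocusField (RingHom.id k) := bot_le
    exact h3 h2
  have hmap : f.map φ = f := by
    ext i
    rw [Polynomial.coeff_map, hcoef]
  have hroot : f.eval z = 0 := by
    rw [Polynomial.eval_prod]
    refine Finset.prod_eq_zero (Finset.mem_range.2 (Nat.pos_of_ne_zero hd)) ?_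
    rw [pow_zero, pow_one, Polynomial.eval_sub, Polynomial.eval_X, Polynomial.eval_C, sub_self]
  have h4 : f.eval (φ z) = 0 := by
    have : (f.map φ).eval (φ z) = φ (f.eval z) := by
      rw [Polynomial.eval_map, Polynomial.eval₂_hom]
    rw [hmap, hroot, map_zero] at this
    exact this
  rw [Polynomial.eval_prod, Finset.prod_eq_zero_iff] at h4
  obtain ⟨j, -, hj⟩ := h4
  rw [Polynomial.eval_sub, Polynomial.eval_X, Polynomial.eval_C] at hj
  exact ⟨j, sub_eq_zero.1 hj⟩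

theorem stab_dens {q : ℕ} {s : K} (hK : IsBase K q s) {l : ℕ} (hl : SplitPr q l)
    {P : Ideal (𝓞 (AlgebraicClosure K))} (hP : P.IsPrime)
    (hlP : (l : 𝓞 (AlgebraicClosure K)) ∈ P) {g : AbsGal K} (hg : g ∈ stabD P) (n : ℕ) :
    ∃ i : ℕ, (2 : ℤ_[2]) ^ n ∣ cyc g - (l : ℤ_[2]) ^ i := by
  have h2 := two_notMem hl.1 hl.2.1 hP hlP
  obtain ⟨v, hv, hlv⟩ := exists_place (K := K) hl.1 hP hlP
  have hover : P.LiesOver v.asIdeal := ⟨hv.symm⟩
  have hPm : P.IsMaximal := by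
    have := v.isMaximal
    exact Ideal.IsMaximal.of_liesOver_isMaximal P v.asIdeal
  let _ : Field (𝓞 (AlgebraicClosure K) ⧸ P) := Ideal.Quotient.field P
  have hlF : Fact l.Prime := ⟨hl.1⟩
  have hchar : CharP (𝓞 (AlgebraicClosure K) ⧸ P) l := by
    refine (CharP.charP_iff_prime_eq_zero hl.1).2 ?_
    rw [← map_natCast (Ideal.Quotient.mk P)]
    exact Ideal.Quotient.eq_zero_iff_mem.2 hlP
  -- the action on the residue field
  let C : 𝓞 (AlgebraicClosure K) ≃+* 𝓞 (AlgebraicClosure K) :=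
    MulSemiringAction.toRingEquiv (AbsGal K) (𝓞 (AlgebraicClosure K)) g
  have hC : ∀ x, (C : 𝓞 (AlgebraicClosure K) →+* 𝓞 (AlgebraicClosure K)) x = g • x := fun x => rfl
  let φ : 𝓞 (AlgebraicClosure K) ⧸ P →+* 𝓞 (AlgebraicClosure K) ⧸ P :=
    Ideal.quotientMap P (C : 𝓞 (AlgebraicClosure K) →+* 𝓞 (AlgebraicClosure K))
      (fun x hx => by rw [Ideal.mem_comap, hC]; exact (mem_stabD.1 hg x).1 hx)
  have hφ : ∀ x, φ (Ideal.Quotient.mk P x) = Ideal.Quotient.mk P (g • x) := fun x => rfl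
  obtain ⟨ζ, hζ⟩ : ∃ ζ : AlgebraicClosure K, IsPrimitiveRoot ζ (2 ^ n) :=
    HasEnoughRootsOfUnity.exists_primitiveRoot _ _
  have hζi : IsIntegral ℤ ζ := hζ.isIntegral (by positivity)
  let z : 𝓞 (AlgebraicClosure K) := ⟨ζ, hζi⟩
  have hz : z ^ 2 ^ n = 1 := by
    apply RingOfIntegers.ext
    show ζ ^ 2 ^ n = 1
    exact hζ.pow_eq_one
  have hgz : g • z = z ^ (PadicInt.toZModPow n (cyc g)).val := by
    apply RingOfIntegers.ext
    exact inert_spec _ hζ.pow_eq_one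
  -- `l ^ d = 1` modulo `2 ^ n`
  have hd0 : Nat.totient (2 ^ n) ≠ 0 := (Nat.totient_pos.2 (by positivity)).ne'
  have hcop : Nat.Coprime l (2 ^ n) :=
    Nat.Coprime.pow_right n ((Nat.coprime_primes hl.1 Nat.prime_two).2 hl.2.1)
  have hmod : l ^ Nat.totient (2 ^ n) ≡ 1 [MOD 2 ^ n] := Nat.ModEq.pow_totient hcop
  have key : ∀ m : ℕ, z ^ m = z ^ (m % 2 ^ n) := fun m => by
    conv_lhs => rw [← Nat.mod_add_div m (2 ^ n), pow_add, pow_mul, hz, one_pow, mul_one]
  have hpow : z ^ l ^ Nat.totient (2 ^ n) = z := by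
    rw [key, hmod, ← key, pow_one]
  obtain ⟨j, hj⟩ := endo_pow φ (z := Ideal.Quotient.mk P z) hd0 (by rw [← map_pow, hpow])
  refine ⟨j, ?_⟩
  rw [hφ, ← map_pow] at hj
  have h3 := Ideal.Quotient.eq.1 hj
  rw [hgz] at h3
  have h4 := inert_root h2 hz h3
  have h5 : ζ ^ (PadicInt.toZModPow n (cyc g)).val = ζ ^ l ^ j :=
    congrArg (algebraMap (𝓞 (AlgebraicClosure K)) (AlgebraicClosure K)) h4
  have : NeZero (2 ^ n) := ⟨by positivity⟩
  have h7 : ζ ^ l ^ j = ζ ^ (l ^ j % 2 ^ n) := by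
    conv_lhs => rw [← Nat.mod_add_div (l ^ j) (2 ^ n), pow_add, pow_mul, hζ.pow_eq_one, one_pow,
      mul_one]
  rw [h7] at h5
  have h8 := hζ.pow_inj (ZMod.val_lt _) (Nat.mod_lt _ (by positivity)) h5
  have h9 : ((PadicInt.toZModPow n (cyc g)).val : ZMod (2 ^ n)) = (l ^ j : ℕ) := by
    rw [h8, ZMod.natCast_mod]
  rw [ZMod.natCast_zmod_val] at h9
  have h10 : cyc g - (l : ℤ_[2]) ^ j ∈ RingHom.ker (PadicInt.toZModPow (p := 2) n) := by
    rw [RingHom.mem_ker, map_sub, h9, map_pow, map_natCast]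
    push_cast
    exact sub_self _
  rw [PadicInt.ker_toZModPow, Ideal.mem_span_singleton] at h10
  exact_mod_cast h10

end Pool.Agent.Work.MP_787500_nt.GP
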