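import Mathlib
import Pool.Agent.Work.MP_787500_nt.GP.T02_Ext

/-!
# Module F01_CARD (size M): counting with pairings into `A0`

* `card_hom_le`: induction on `Nat.card A`. If `A` is trivial there is one homomorphism. Otherwise let
  `a ≠ 0`, `C = zmultiples a`, of order `n`; restriction `(A →+ A0) → (C →+ A0)` has kernel
  `(A ⧸ C) →+ A0`, and a homomorphism of `C` is determined by the image of `a`, an element killed by `n`:
  at most `n` of them (`pr0 (k / 2 ^ v)`, `0 ≤ k < 2 ^ v`, `n = 2 ^ v * odd`; or: `{t | n • t = 0}` injects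
  into roots of a polynomial/`ZMod`: the elements killed by `n` form a group in which every finite
  subgroup is cyclic; the simplest way: `t = pr0 x`, `n x = c ∈ ℤ_[2]`, map `t ↦ c` modulo `n`, injective
  into `ℤ_[2] ⧸ (n)` which has `2 ^ v ≤ n` elements).
* `card_eq_of_nondeg`: `a ↦ β a` is an injection `A → (A' →+ A0)`, so `card A ≤ card A'`; symmetric.
* `perpL`, `perpR` are the annihilators. `card_perp`: let `K` be the left kernel, `K ≤ Λ`. The pairing
  `(Λ ⧸ K) × (A' ⧸ perpL Λ)` is nondegenerate on both sides (for `a ∈ Λ` with `β a a' = 0` for all `a'`: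
  `a ∈ K`), so `card Λ / card K = card A' / card (perpL Λ)`.
* `perp_perp`: `Λ ≤ perpR (perpL Λ)`; both contain `K`, and `perpL (perpR (perpL Λ)) = perpL Λ`, so by
  `card_perp` for both they have the same number of elements.
-/

set_option autoImplicit false
set_option linter.unusedSectionVars false

namespace Pool.Agent.Work.MP_787500_nt.GP

open Pool.Agent.Work.MP_787500_nt.PA (TwoSys Sm1 Sm2 homs Coc Cob IsChar)

/-- integers represent the classes modulo `n` -/
private theorem f01_rep (c : ℤ_[2]) {n : ℕ} (hn : 0 < n) : ∃ m : ℕ, m < n ∧ ∃ b : ℤ_[2], c = m + n * b := by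
  obtain ⟨v, u, hu, rfl⟩ := Nat.exists_eq_two_pow_mul_odd hn.ne'
  have hu0 : 0 < u := hu.pos
  have hunit : IsUnit (u : ℤ_[2]) := by
    rw [PadicInt.isUnit_iff, PadicInt.norm_def]
    have h1 : ‖((u : ℤ_[2]) : ℚ_[2])‖ = 1 := by
      have h2 : ((u : ℤ_[2]) : ℚ_[2]) = ((u : ℤ) : ℚ_[2]) := by push_cast; rfl
      rw [h2]
      refine le_antisymm (Padic.norm_int_le_one _) ?_
      by_contra hc
      push Not at hc
      rw [Padic.norm_intCast_lt_one_iff] at hc
      obtain ⟨k, hk⟩ := hu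
      omega
    exact h1
  obtain ⟨w, hw⟩ := hunit
  have h1 := PadicInt.appr_spec v c
  rw [Ideal.mem_span_singleton] at h1
  obtain ⟨b, hb⟩ := h1
  refine ⟨c.appr v, ?_, ((w⁻¹ : ℤ_[2]ˣ) : ℤ_[2]) * b, ?_⟩
  · calc c.appr v < 2 ^ v := PadicInt.appr_lt c v
      _ ≤ 2 ^ v * u := Nat.le_mul_of_pos_right _ hu0
  · have h2 : ((w⁻¹ : ℤ_[2]ˣ) : ℤ_[2]) * (u : ℤ_[2]) = 1 := by rw [← hw, Units.inv_mul]
    push_cast at hb ⊢
    linear_combination hb - (2 : ℤ_[2]) ^ v * b * h2

private theorem f01_tors {n : ℕ} (hn : 0 < n) :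
    Finite {t : A0 // n • t = 0} ∧ Nat.card {t : A0 // n • t = 0} ≤ n := by
  let F : Fin n → A0 := fun m => pr0 ((m : ℕ) / n)
  have hn0 : (n : ℚ_[2]) ≠ 0 := by exact_mod_cast hn.ne'
  have hF : ∀ t : {t : A0 // n • t = 0}, ∃ m, F m = t.1 := by
    rintro ⟨t, ht⟩
    obtain ⟨x, rfl⟩ := pr0_surj t
    rw [← map_nsmul, pr0_eq_zero, nsmul_eq_mul] at ht
    obtain ⟨c, hc⟩ := ht
    obtain ⟨m, hm, b, hb⟩ := f01_rep c hn
    refine ⟨⟨m, hm⟩, ?_⟩
    show pr0 ((m : ℕ) / n) = pr0 x
    rw [eq_comm, ← sub_eq_zero, ← map_sub, pr0_eq_zero]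
    refine ⟨b, ?_⟩
    rw [hb] at hc
    push_cast at hc
    field_simp
    linear_combination hc
  choose g hg using hF
  have hinj : Function.Injective g := by
    intro a b h
    apply Subtype.ext
    rw [← hg a, ← hg b, h]
  refine ⟨Finite.of_injective g hinj, ?_⟩
  have := Nat.card_le_card_of_injective g hinj
  rwa [Nat.card_fin] at this

theorem card_hom_le (A : Type*) [AddCommGroup A] [Finite A] :
    Finite (A →+ A0) ∧ Nat.card (A →+ A0) ≤ Nat.card A := by
  classical
  obtain ⟨ι, hι, p, hp, e, ⟨E⟩⟩ := AddCommGroup.equiv_directSum_zmod_of_finite A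
  have hpos : ∀ i, 0 < p i ^ e i := fun i => pow_pos (hp i).pos _
  let F : (A →+ A0) → ∀ i, {t : A0 // (p i ^ e i) • t = 0} := fun f i =>
    ⟨f (E.symm (DirectSum.of (fun i => ZMod (p i ^ e i)) i 1)), by
      rw [← map_nsmul, ← map_nsmul, ← map_nsmul]
      have : (p i ^ e i) • (1 : ZMod (p i ^ e i)) = 0 := by
        rw [nsmul_eq_mul, ZMod.natCast_self, zero_mul]
      rw [this, map_zero, map_zero, map_zero]⟩
  have hF : Function.Injective F := by
    intro f g h
    have h1 : f.comp (E.symm : (DirectSum ι fun i => ZMod (p i ^ e i)) →+ A) =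
        g.comp (E.symm : (DirectSum ι fun i => ZMod (p i ^ e i)) →+ A) := by
      apply DirectSum.addHom_ext
      intro i y
      obtain ⟨k, rfl⟩ := ZMod.intCast_surjective y
      have h2 : f (E.symm (DirectSum.of (fun i => ZMod (p i ^ e i)) i 1)) =
          g (E.symm (DirectSum.of (fun i => ZMod (p i ^ e i)) i 1)) :=
        congrArg Subtype.val (congrFun h i)
      have h3 : (k : ZMod (p i ^ e i)) = k • (1 : ZMod (p i ^ e i)) := by
        rw [zsmul_eq_mul, mul_one]
      rw [h3]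
      show f (E.symm (DirectSum.of (fun i => ZMod (p i ^ e i)) i (k • 1))) =
        g (E.symm (DirectSum.of (fun i => ZMod (p i ^ e i)) i (k • 1)))
      rw [map_zsmul, map_zsmul, map_zsmul, map_zsmul, h2]
    ext a
    have h2 := DFunLike.congr_fun h1 (E a)
    simpa using h2
  have hfin : ∀ i, Finite {t : A0 // (p i ^ e i) • t = 0} := fun i => (f01_tors (hpos i)).1
  refine ⟨Finite.of_injective F hF, ?_⟩
  have hne : ∀ i, NeZero (p i ^ e i) := fun i => ⟨(hpos i).ne'⟩
  calc Nat.card (A →+ A0) ≤ Nat.card (∀ i, {t : A0 // (p i ^ e i) • t = 0}) :=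
        Nat.card_le_card_of_injective F hF
    _ = ∏ i, Nat.card {t : A0 // (p i ^ e i) • t = 0} := Nat.card_pi
    _ ≤ ∏ i, p i ^ e i := Finset.prod_le_prod' fun i _ => (f01_tors (hpos i)).2
    _ = ∏ i, Nat.card (ZMod (p i ^ e i)) := by simp_rw [Nat.card_zmod]
    _ = Nat.card (∀ i, ZMod (p i ^ e i)) := Nat.card_pi.symm
    _ = Nat.card A := by
      refine Nat.card_congr ?_
      exact (DirectSum.addEquivProd _).symm.toEquiv.trans E.symm.toEquiv

private theorem f01_inj {A A' : Type*} [AddCommGroup A] [AddCommGroup A'] [Finite A] [Finite A']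
    (β : A →+ A' →+ A0) (h : ∀ a, (∀ a', β a a' = 0) → a = 0) : Nat.card A ≤ Nat.card A' := by
  have hinj : Function.Injective β := by
    rw [injective_iff_map_eq_zero]
    intro a ha
    exact h a fun a' => by rw [ha]; rfl
  have := (card_hom_le A').1
  exact (Nat.card_le_card_of_injective β hinj).trans (card_hom_le A').2

theorem card_eq_of_nondeg {A A' : Type*} [AddCommGroup A] [AddCommGroup A'] [Finite A] [Finite A']
    (β : A →+ A' →+ A0) (h : ∀ a, (∀ a', β a a' = 0) → a = 0)
    (h' : ∀ a', (∀ a, β a a' = 0) → a' = 0) : Nat.card A = Nat.card A' := by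
  exact le_antisymm (f01_inj β h) (f01_inj β.flip fun a' ha' => h' a' fun a => ha' a)

/-- the annihilator in `A'` of a subgroup of `A` -/
def perpL {A A' : Type*} [AddCommGroup A] [AddCommGroup A'] (β : A →+ A' →+ A0)
    (Λ : AddSubgroup A) : AddSubgroup A' where
  carrier := {a' | ∀ a ∈ Λ, β a a' = 0}
  add_mem' := fun h h' a ha => by rw [map_add, h a ha, h' a ha, add_zero]
  zero_mem' := fun a _ => map_zero _
  neg_mem' := fun h a ha => by rw [map_neg, h a ha, neg_zero]

/-- the induced map to the dual of the quotient by the right kernel -/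
private noncomputable def f01_quo {A A' : Type*} [AddCommGroup A] [AddCommGroup A'] (β : A →+ A' →+ A0) :
    A →+ ((A' ⧸ perpL β ⊤) →+ A0) where
  toFun a := QuotientAddGroup.lift (perpL β ⊤) (β a) (fun a' ha' => ha' a trivial)
  map_zero' := by
    ext a'
    show β 0 a' = 0
    rw [map_zero]
    rfl
  map_add' a b := by
    ext a'
    show β (a + b) a' = β a a' + β b a'
    rw [map_add]
    rfl

private theorem f01_quo_apply {A A' : Type*} [AddCommGroup A] [AddCommGroup A'] (β : A →+ A' →+ A0)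
    (a : A) (a' : A') : f01_quo β a (QuotientAddGroup.mk a') = β a a' := rfl

private theorem f01_ker {A A' : Type*} [AddCommGroup A] [AddCommGroup A'] (β : A →+ A' →+ A0) :
    (f01_quo β).ker = perpL β.flip ⊤ := by
  ext a
  rw [AddMonoidHom.mem_ker]
  constructor
  · intro h a' _
    have := DFunLike.congr_fun h (QuotientAddGroup.mk a')
    exact this
  · intro h
    ext a'
    exact h a' trivial

private theorem f01_mul {A : Type*} [AddCommGroup A] (Λ : AddSubgroup A) :
    Nat.card A = Nat.card (A ⧸ Λ) * Nat.card Λ := Λ.card_eq_card_quotient_mul_card_addSubgroup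

private theorem f01_le {A A' : Type*} [AddCommGroup A] [AddCommGroup A'] [Finite A] [Finite A']
    (β : A →+ A' →+ A0) :
    Nat.card A * Nat.card (perpL β ⊤) ≤ Nat.card A' * Nat.card (perpL β.flip ⊤) := by
  have h1 : Nat.card (A ⧸ (f01_quo β).ker) ≤ Nat.card (A' ⧸ perpL β ⊤) := by
    have := (card_hom_le (A' ⧸ perpL β ⊤)).1
    exact (Nat.card_le_card_of_injective _ (QuotientAddGroup.kerLift_injective (f01_quo β))).trans
      (card_hom_le (A' ⧸ perpL β ⊤)).2
  rw [f01_ker] at h1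
  rw [f01_mul (perpL β.flip ⊤), f01_mul (A := A') (perpL β ⊤)]
  calc Nat.card (A ⧸ perpL β.flip ⊤) * Nat.card (perpL β.flip ⊤) * Nat.card (perpL β ⊤)
      = Nat.card (A ⧸ perpL β.flip ⊤) * (Nat.card (perpL β.flip ⊤) * Nat.card (perpL β ⊤)) := by ring
    _ ≤ Nat.card (A' ⧸ perpL β ⊤) * (Nat.card (perpL β.flip ⊤) * Nat.card (perpL β ⊤)) :=
      Nat.mul_le_mul_right _ h1
    _ = _ := by ring

private theorem f01_eq {A A' : Type*} [AddCommGroup A] [AddCommGroup A'] [Finite A] [Finite A']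
    (β : A →+ A' →+ A0) :
    Nat.card A * Nat.card (perpL β ⊤) = Nat.card A' * Nat.card (perpL β.flip ⊤) :=
  le_antisymm (f01_le β) (f01_le β.flip)

variable {A A' : Type*} [AddCommGroup A] [AddCommGroup A'] [Finite A] [Finite A']
  (β : A →+ A' →+ A0)

theorem card_perp (Λ : AddSubgroup A) (hK : ∀ a, (∀ a', β a a' = 0) → a ∈ Λ) :
    Nat.card Λ * Nat.card (perpL β Λ) = Nat.card A' * Nat.card (perpL β.flip ⊤) := by
  have h1 := f01_eq (β.comp Λ.subtype)
  have h2 : perpL (β.comp Λ.subtype) ⊤ = perpL β Λ := by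
    ext a'
    constructor
    · intro h a ha
      exact h ⟨a, ha⟩ trivial
    · intro h a _
      exact h a a.2
  have h3 : Nat.card (perpL (β.comp Λ.subtype).flip ⊤) = Nat.card (perpL β.flip ⊤) := by
    refine Nat.card_congr ⟨fun a => ⟨a.1.1, fun a' _ => a.2 a' trivial⟩,
      fun a => ⟨⟨a.1, hK a.1 fun a' => a.2 a' trivial⟩, fun a' _ => a.2 a' trivial⟩,
      fun a => rfl, fun a => rfl⟩
  rw [h2, h3] at h1
  exact h1

theorem perp_perp (Λ : AddSubgroup A) (hK : ∀ a, (∀ a', β a a' = 0) → a ∈ Λ) :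
    perpL β.flip (perpL β Λ) = Λ := by
  have hle : Λ ≤ perpL β.flip (perpL β Λ) := fun a ha a' ha' => ha' a ha
  have h3 : perpL β (perpL β.flip (perpL β Λ)) = perpL β Λ := by
    apply le_antisymm
    · intro a' ha' a ha
      exact ha' a (hle ha)
    · intro a' ha' a ha
      exact ha a' ha'
  have h1 := card_perp β Λ hK
  have h2 := card_perp β (perpL β.flip (perpL β Λ)) fun a ha => hle (hK a ha)
  rw [h3, ← h1] at h2
  have hpos : 0 < Nat.card (perpL β Λ) := Nat.card_pos
  have h4 := Nat.eq_of_mul_eq_mul_right hpos h2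
  symm
  exact AddSubgroup.eq_of_le_of_card_ge hle h4.le

/-- every functional on `A` that vanishes on the left kernel comes from `A'` -/
theorem exists_rep (f : A →+ A0) (hf' : ∀ a, (∀ a', β a a' = 0) → f a = 0) :
    ∃ a', ∀ a, β a a' = f a := by
  have h1 := f01_eq β
  rw [f01_mul (perpL β.flip ⊤), f01_mul (A := A') (perpL β ⊤)] at h1
  have hp1 : 0 < Nat.card (perpL β.flip ⊤) := Nat.card_pos
  have hp2 : 0 < Nat.card (perpL β ⊤) := Nat.card_pos
  have h2 : Nat.card (A ⧸ perpL β.flip ⊤) = Nat.card (A' ⧸ perpL β ⊤) := by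
    have h3 : Nat.card (A ⧸ perpL β.flip ⊤) * (Nat.card (perpL β.flip ⊤) * Nat.card (perpL β ⊤)) =
        Nat.card (A' ⧸ perpL β ⊤) * (Nat.card (perpL β.flip ⊤) * Nat.card (perpL β ⊤)) := by
      calc _ = Nat.card (A ⧸ perpL β.flip ⊤) * Nat.card (perpL β.flip ⊤) *
            Nat.card (perpL β ⊤) := by ring
        _ = _ := h1
        _ = _ := by ring
    exact Nat.eq_of_mul_eq_mul_right (Nat.mul_pos hp1 hp2) h3
  have hfin := (card_hom_le (A ⧸ perpL β.flip ⊤)).1
  have hle : Nat.card ((A ⧸ perpL β.flip ⊤) →+ A0) ≤ Nat.card (A' ⧸ (f01_quo β.flip).ker) := by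
    rw [f01_ker]
    have h4 : perpL β.flip.flip ⊤ = perpL β ⊤ := rfl
    rw [h4, ← h2]
    exact (card_hom_le (A ⧸ perpL β.flip ⊤)).2
  have hbij := Function.Injective.bijective_of_nat_card_le
    (QuotientAddGroup.kerLift_injective (f01_quo β.flip)) hle
  obtain ⟨q, hq⟩ := hbij.2 (QuotientAddGroup.lift (perpL β.flip ⊤) f
    (fun a ha => hf' a fun a' => ha a' trivial))
  obtain ⟨a', rfl⟩ := QuotientAddGroup.mk_surjective q
  refine ⟨a', fun a => ?_⟩
  have := DFunLike.congr_fun hq (QuotientAddGroup.mk a)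
  exact this

end Pool.Agent.Work.MP_787500_nt.GP
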