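import Mathlib
import Pool.Agent.Work.MP_787500_nt.GP.T04_Leib

/-!
# Module T13_FILT (size M-L): a nontrivial pair has a filtration

* There is `e₀ ∈ M`, `e₀ ≠ 0`, `e₀ + e₀ = 0`, fixed by `G`: `M` is 2-primary (`B m m' ∈ A0`, `M'` finite:
  by `a0_killed` there is `k` with `2 ^ k • B m m' = 0` for all `m, m'`, so `2 ^ k • m = 0` by `nd`). The set
  `M₂ = {m | m + m = 0}` is a nonzero finite 2-group, `G` acts on it through the finite 2-group `G ⧸ W`
  (`sm`, `S.index`): the number of fixed points is congruent to the order of `M₂` modulo 2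
  (`IsPGroup.card_modEq_card_fixedPoints`), so it is even and `0` is not the only fixed point. (An
  alternative: the action homomorphism `G → Equiv.Perm M₂` has image a 2-group.)
* `e a = a.val • e₀` (or `if a = 0 then 0 else e₀`), `Q = M ⧸ range e`, `Q' = {m' | B e₀ m' = 0}` (an
  `AddSubgroup M'`), `p' m' = ` the `a` with `B e₀ m' = hf a` (`eq_hf`). `σ`, `σ'` induced; `C (p m) q' =
  B m q'` (well defined on `Q'`).
* `psurj'`: `p'` is not zero by `nd`. `nd` for `C`: if `B m q' = 0` for all `q' ∈ Q'`, the functional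
  `B m` on `M'` vanishes on `Q' = ker p'`, so it factors through `p'`: `B m m' = hf (a * p' m')` for a
  constant `a : ZMod 2` (choose `m₁` with `p' m₁ = 1`; `m' - (p' m').val • m₁ ∈ Q'`;
  `B m m₁ + B m m₁ = B m (2 m₁) = 0` since `2 m₁ ∈ Q'`) `= B (e a) m'`, so `m = e a` by `nd`, `p m = 0`.
  `nd'` for `C`: `B m q' = 0` for all `m`.
* Cards: `Nat.card Q < Nat.card M` (the kernel `range e` is not trivial) and
  `Nat.card Q' < Nat.card M'` (proper subgroup).
-/

set_option autoImplicit false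
set_option linter.unusedSectionVars false

namespace Pool.Agent.Work.MP_787500_nt.GP

open Pool.Agent.Work.MP_787500_nt.PA (TwoSys Sm1 Sm2 homs Coc Cob IsChar)

universe u v

/-- a smooth action by additive maps on a nontrivial finite 2-primary group has a nonzero fixed
element of order two -/
private theorem t13_fixed {G : Type*} [Group G] {S : TwoSys G} {M : Type*} [AddCommGroup M]
    [Finite M] {ρ : G → M → M} (h : IsAct ρ) (hs : Smooth S ρ) (k : ℕ)
    (hk : ∀ m : M, (2 ^ k) • m = 0) (hne : Nontrivial M) :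
    ∃ e₀ : M, e₀ ≠ 0 ∧ e₀ + e₀ = 0 ∧ ∀ g, ρ g e₀ = e₀ := by
  classical
  let T : AddSubgroup M :=
    { carrier := {m | m + m = 0}
      add_mem' := by
        intro a b ha hb
        have ha' : a + a = 0 := ha
        have hb' : b + b = 0 := hb
        show a + b + (a + b) = 0
        calc a + b + (a + b) = (a + a) + (b + b) := by abel
          _ = 0 := by rw [ha', hb', add_zero]
      zero_mem' := add_zero 0
      neg_mem' := by
        intro a ha
        have ha' : a + a = 0 := ha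
        show -a + -a = 0
        rw [← neg_add, ha', neg_zero] }
  have hT : ∀ m : M, m ∈ T ↔ m + m = 0 := fun _ => Iff.rfl
  have hρT : ∀ g, ∀ m ∈ T, ρ g m ∈ T := by
    intro g m hm
    rw [hT] at hm ⊢
    rw [← h.add, hm, h.zero]
  -- a nonzero element of `T`
  obtain ⟨x, hxT, hx0⟩ : ∃ x : M, x ∈ T ∧ x ≠ 0 := by
    obtain ⟨m, hm⟩ := exists_ne (0 : M)
    have hex : ∃ n : ℕ, (2 ^ n) • m = 0 := ⟨k, hk m⟩
    have hpos : Nat.find hex ≠ 0 := by
      intro h0
      have := Nat.find_spec hex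
      rw [h0, pow_zero, one_smul] at this
      exact hm this
    obtain ⟨n, hn⟩ := Nat.exists_eq_succ_of_ne_zero hpos
    refine ⟨(2 ^ n) • m, ?_, Nat.find_min hex (by omega)⟩
    rw [hT, ← two_nsmul, smul_smul, ← pow_succ', ← Nat.succ_eq_add_one, ← hn]
    exact Nat.find_spec hex
  have hdvd : 2 ∣ Nat.card T := by
    have h2 : addOrderOf (⟨x, hxT⟩ : T) = 2 := by
      refine addOrderOf_eq_prime ?_ ?_
      · rw [two_nsmul]
        exact Subtype.ext ((hT x).1 hxT)
      · intro h0
        exact hx0 (congrArg Subtype.val h0)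
    rw [← h2]
    exact addOrderOf_dvd_natCard _
  -- the action homomorphism
  let φ : G →* Equiv.Perm T :=
    { toFun := fun g =>
        { toFun := fun m => ⟨ρ g m, hρT g m m.2⟩
          invFun := fun m => ⟨ρ g⁻¹ m, hρT g⁻¹ m m.2⟩
          left_inv := fun m => Subtype.ext (by
            show ρ g⁻¹ (ρ g m) = m
            rw [← h.mul, inv_mul_cancel, h.one])
          right_inv := fun m => Subtype.ext (by
            show ρ g (ρ g⁻¹ m) = m
            rw [← h.mul, mul_inv_cancel, h.one]) }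
      map_one' := Equiv.ext fun m => Subtype.ext (h.one m)
      map_mul' := fun a b => Equiv.ext fun m => Subtype.ext (h.mul a b m) }
  have hφ : ∀ g (m : T), ((φ g) m : M) = ρ g m := fun _ _ => rfl
  have hp : IsPGroup 2 φ.range := by
    obtain ⟨W, hW, hw⟩ := hs
    have hle : W ≤ φ.ker := by
      intro w hwW
      rw [MonoidHom.mem_ker]
      exact Equiv.ext fun m => Subtype.ext (hw w hwW m)
    obtain ⟨r, hr⟩ := S.index hW
    have h1 : Nat.card φ.range ∣ 2 ^ r := by
      rw [← Subgroup.index_ker, ← hr]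
      exact Subgroup.index_dvd_of_le hle
    obtain ⟨t, -, ht⟩ := (Nat.dvd_prime_pow Nat.prime_two).1 h1
    exact IsPGroup.of_card ht
  obtain ⟨b, hb, hb0⟩ := hp.exists_fixed_point_of_prime_dvd_card_of_fixed_point T hdvd
    (a := (0 : T)) (by
      rintro ⟨_, g, rfl⟩
      exact Subtype.ext (h.zero g))
  refine ⟨b, fun h0 => hb0 (Subtype.ext h0.symm), (hT b).1 b.2, fun g => ?_⟩
  have := hb ⟨φ g, g, rfl⟩
  exact congrArg Subtype.val this

private theorem t13_zmod2 (a : ZMod 2) : a = 0 ∨ a = 1 := by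
  revert a
  decide

theorem exists_filt {G : Type*} [Group G] {S : TwoSys G} {χ : G → ℤ_[2]} (hχ : IsChar S χ)
    {M : Type u} {M' : Type v} [AddCommGroup M] [AddCommGroup M'] [Finite M] [Finite M']
    {ρ : G → M → M} {ρ' : G → M' → M'} {B : M →+ M' →+ A0} (h : Pair S χ ρ ρ' B)
    (hne : Nontrivial M) :
    ∃ (Q : Type u) (_ : AddCommGroup Q) (Q' : Type v) (_ : AddCommGroup Q') (σ : G → Q → Q)
      (σ' : G → Q' → Q') (C : Q →+ Q' →+ A0) (e : ZMod 2 →+ M) (p : M →+ Q) (e' : Q' →+ M')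
      (p' : M' →+ ZMod 2), Finite Q ∧ Finite Q' ∧ Pair S χ σ σ' C ∧
      Filt ρ ρ' B σ σ' C e p e' p' ∧ Nat.card Q < Nat.card M ∧ Nat.card Q' < Nat.card M' := by
  classical
  obtain ⟨k, hk, -⟩ := a0_killed (fun x : M × M' => B x.1 x.2)
  have hk' : ∀ m : M, (2 ^ k) • m = 0 := fun m => h.nd _ fun m' => by
    rw [map_nsmul, AddMonoidHom.nsmul_apply]
    exact hk (m, m')
  obtain ⟨e₀, he0, he2, hefix⟩ := t13_fixed h.act h.sm k hk' hne
  -- `e`
  let e : ZMod 2 →+ M := AddMonoidHom.mk' (fun a => if a = 0 then 0 else e₀) (by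
    intro a b
    rcases t13_zmod2 a with rfl | rfl <;> rcases t13_zmod2 b with rfl | rfl
    · simp
    · simp
    · simp
    · have : (1 : ZMod 2) + 1 = 0 := by decide
      simp [this, he2])
  have hezero : e 0 = 0 := map_zero e
  have heone : e 1 = e₀ := by
    show (if (1 : ZMod 2) = 0 then 0 else e₀) = e₀
    exact if_neg (by decide)
  have heinj : Function.Injective e := by
    rw [injective_iff_map_eq_zero]
    intro a ha
    rcases t13_zmod2 a with rfl | rfl
    · rfl
    · rw [heone] at ha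
      exact absurd ha he0
  -- `p'`
  have hhalf : ∀ m' : M', ∃ a, B e₀ m' = hf a := fun m' => eq_hf (by
    rw [← AddMonoidHom.add_apply, ← map_add, he2, map_zero, AddMonoidHom.zero_apply])
  choose c hc using hhalf
  let p' : M' →+ ZMod 2 := AddMonoidHom.mk' c (by
    intro a b
    apply hf_inj
    rw [hf_add, ← hc, ← hc, ← hc, map_add])
  have hp' : ∀ m', hf (p' m') = B e₀ m' := fun m' => (hc m').symm
  have hp'0 : ∀ m', p' m' = 0 ↔ B e₀ m' = 0 := by
    intro m'
    constructor
    · intro h0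
      rw [← hp', h0, hf_zero]
    · intro h0
      apply hf_inj
      rw [hp', h0, hf_zero]
  obtain ⟨m₁, hm₁⟩ : ∃ m₁, p' m₁ = 1 := by
    by_contra hcon
    push Not at hcon
    exact he0 (h.nd e₀ fun m' => (hp'0 m').1 ((t13_zmod2 (p' m')).resolve_right (hcon m')))
  -- `Q'`
  let Q' : AddSubgroup M' := (B e₀).ker
  have hQ' : ∀ m', m' ∈ Q' ↔ B e₀ m' = 0 := fun m' => AddMonoidHom.mem_ker
  have hσ' : ∀ g, ∀ q ∈ Q', ρ' g q ∈ Q' := by
    intro g q hq
    rw [hQ'] at hq ⊢
    rw [← hefix g, h.eqv, hq, smul_zero]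
  let σ' : G → Q' → Q' := fun g q => ⟨ρ' g q, hσ' g q q.2⟩
  -- `Q`
  let N : AddSubgroup M := e.range
  let ρh : G → M →+ M := fun g => AddMonoidHom.mk' (ρ g) (h.act.add g)
  have hefix' : ∀ g a, ρ g (e a) = e a := by
    intro g a
    rcases t13_zmod2 a with rfl | rfl
    · rw [hezero, h.act.zero]
    · rw [heone, hefix]
  have hN : ∀ g, N ≤ N.comap (ρh g) := by
    rintro g _ ⟨a, rfl⟩
    exact ⟨a, (hefix' g a).symm⟩
  let σ : G → M ⧸ N → M ⧸ N := fun g => QuotientAddGroup.map N N (ρh g) (hN g)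
  have hσ : ∀ g (m : M), σ g (m : M ⧸ N) = ((ρ g m : M) : M ⧸ N) := fun _ _ => rfl
  -- `C`
  let C₁ : M →+ Q' →+ A0 := AddMonoidHom.mk' (fun m => (B m).comp Q'.subtype) (by
    intro a b
    refine AddMonoidHom.ext fun q => ?_
    show B (a + b) q = B a q + B b q
    rw [map_add, AddMonoidHom.add_apply])
  have hC₁ : ∀ n ∈ N, C₁ n = 0 := by
    rintro _ ⟨a, rfl⟩
    refine AddMonoidHom.ext fun q => ?_
    show B (e a) q = 0
    rcases t13_zmod2 a with rfl | rfl
    · rw [hezero, map_zero, AddMonoidHom.zero_apply]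
    · rw [heone]
      exact (hQ' q).1 q.2
  let C : M ⧸ N →+ Q' →+ A0 := QuotientAddGroup.lift N C₁ hC₁
  have hC : ∀ (m : M) (q : Q'), C (m : M ⧸ N) q = B m q := fun _ _ => rfl
  have hpair1 : ∀ a m, B (e a) m = hf (a * p' m) := by
    intro a m
    rcases t13_zmod2 a with rfl | rfl
    · rw [hezero, map_zero, AddMonoidHom.zero_apply, zero_mul, hf_zero]
    · rw [heone, one_mul, hp']
  refine ⟨M ⧸ N, inferInstance, Q', inferInstance, σ, σ', C, e, QuotientAddGroup.mk' N, Q'.subtype,
    p', inferInstance, inferInstance, ?_, ?_, ?_, ?_⟩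
  · refine ⟨⟨?_, ?_, ?_⟩, ⟨?_, ?_, ?_⟩, ?_, ?_, ?_, ?_, ?_⟩
    · intro q
      obtain ⟨m, rfl⟩ := QuotientAddGroup.mk_surjective q
      rw [hσ, h.act.one]
    · intro a b q
      obtain ⟨m, rfl⟩ := QuotientAddGroup.mk_surjective q
      rw [hσ, hσ, hσ, h.act.mul]
    · intro a q q'
      exact map_add (QuotientAddGroup.map N N (ρh a) (hN a)) q q'
    · intro q
      exact Subtype.ext (h.act'.one q)
    · intro a b q
      exact Subtype.ext (h.act'.mul a b q)
    · intro a q q'
      exact Subtype.ext (h.act'.add a q q')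
    · obtain ⟨W, hW, hw⟩ := h.sm
      refine ⟨W, hW, fun w hwW q => ?_⟩
      obtain ⟨m, rfl⟩ := QuotientAddGroup.mk_surjective q
      rw [hσ, hw w hwW]
    · obtain ⟨W, hW, hw⟩ := h.sm'
      exact ⟨W, hW, fun w hwW q => Subtype.ext (hw w hwW q)⟩
    · intro g q q'
      obtain ⟨m, rfl⟩ := QuotientAddGroup.mk_surjective q
      rw [hσ, hC, hC]
      exact h.eqv g m q'
    · intro q hq
      obtain ⟨m, rfl⟩ := QuotientAddGroup.mk_surjective q
      have hq' : ∀ m' ∈ Q', B m m' = 0 := fun m' hm' => hq ⟨m', hm'⟩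
      have hmem : ∀ m', p' m' = 0 → m' ∈ Q' := fun m' h0 => (hQ' m').2 ((hp'0 m').1 h0)
      have h2 : B m m₁ + B m m₁ = 0 := by
        rw [← map_add]
        refine hq' _ (hmem _ ?_)
        rw [map_add, hm₁]
        decide
      obtain ⟨a, ha⟩ := eq_hf h2
      have key : m = e a := by
        rw [← sub_eq_zero]
        refine h.nd _ fun m' => ?_
        rw [map_sub, AddMonoidHom.sub_apply, hpair1, sub_eq_zero]
        rcases t13_zmod2 (p' m') with h0 | h0
        · rw [h0, mul_zero, hf_zero]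
          exact hq' _ (hmem _ h0)
        · rw [h0, mul_one, ← ha, ← sub_eq_zero, ← map_sub]
          refine hq' _ (hmem _ ?_)
          rw [map_sub, h0, hm₁, sub_self]
      rw [key]
      exact (QuotientAddGroup.eq_zero_iff _).2 ⟨a, rfl⟩
    · intro q hq
      exact Subtype.ext (h.nd' q fun m => hq (m : M ⧸ N))
  · refine ⟨heinj, ?_, ?_, QuotientAddGroup.mk'_surjective N, Subtype.val_injective, ?_, ?_, ?_,
      hefix', ?_, ?_, ?_, hpair1, ?_⟩
    · intro a
      exact (QuotientAddGroup.eq_zero_iff _).2 ⟨a, rfl⟩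
    · intro m hm
      obtain ⟨a, ha⟩ := (QuotientAddGroup.eq_zero_iff _).1 hm
      exact ⟨a, ha.symm⟩
    · intro a
      exact (hp'0 _).2 ((hQ' a).1 a.2)
    · intro m hm
      exact ⟨⟨m, (hQ' m).2 ((hp'0 m).1 hm)⟩, rfl⟩
    · intro a
      rcases t13_zmod2 a with rfl | rfl
      · exact ⟨0, map_zero p'⟩
      · exact ⟨m₁, hm₁⟩
    · intro g m
      rfl
    · intro g a
      rfl
    · intro g m
      apply hf_inj
      rw [hp', ← hefix g, h.eqv, ← hp', smul_hf (hχ.odd g)]
    · intro m a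
      rfl
  · rw [AddSubgroup.card_eq_card_quotient_mul_card_addSubgroup N]
    have h1 : 0 < Nat.card (M ⧸ N) := Nat.card_pos
    have h2 : 1 < Nat.card N := by
      rw [Finite.one_lt_card_iff_nontrivial]
      refine ⟨⟨0, N.zero_mem⟩, ⟨e₀, 1, heone⟩, fun h0 => he0 ?_⟩
      exact (congrArg Subtype.val h0).symm
    nlinarith
  · refine Finite.card_subtype_lt (x := m₁) ?_
    intro hmem
    have : p' m₁ = 0 := (hp'0 _).2 ((hQ' _).1 hmem)
    rw [hm₁] at this
    exact absurd this (by decide)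

end Pool.Agent.Work.MP_787500_nt.GP
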