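import Mathlib
import Pool.Agent.Work.MP_787500_nt.GP.FDefs
import Pool.Agent.Work.MP_787500_nt.PA.Gens

/-!
# Module F05_FINZ (size S-M): finitely many cocycles

`homs T ⊤` is finite dimensional, so by `PA.exists_gens` (`PA/Gens.lean`, to be imported) there is a finite set
`Y ⊆ X` such that the only subgroup of `X` that contains a member of the system and `Y` is `X`. A cocycle
`x ∈ Z1 T σ` is determined by its values on `Y`: if `x = x'` on `Y` then `y = x - x'` is a cocycle that is
0 on `Y`, `{g | y g = 0}` is a subgroup (`y (g h) = y g + σ g (y h)`), and it contains a member of the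
system (`y` smooth and `y 1 = 0`). So `zM` (or the set of cocycles) injects into `Y → M`.
-/

set_option autoImplicit false
set_option linter.unusedSectionVars false

namespace Pool.Agent.Work.MP_787500_nt.GP

open Pool.Agent.Work.MP_787500_nt.PA (TwoSys Sm1 Sm2 homs Coc Cob IsChar)

private theorem f05_one {X : Type*} [Group X] {T : TwoSys X} {M : Type*} [AddCommGroup M]
    {σ : X → M → M} (hact : IsAct σ) {x : X → M} (hx : Z1 T σ x) : x 1 = 0 := by
  have h := hx.2 1 1
  rw [mul_one, hact.one] at h
  exact left_eq_add.1 h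

private theorem f05_inv {X : Type*} [Group X] {T : TwoSys X} {M : Type*} [AddCommGroup M]
    {σ : X → M → M} (hact : IsAct σ) {x : X → M} (hx : Z1 T σ x) (g : X) :
    x g⁻¹ = -σ g⁻¹ (x g) := by
  have h := hx.2 g⁻¹ g
  rw [inv_mul_cancel, f05_one hact hx] at h
  exact eq_neg_of_add_eq_zero_left h.symm

theorem finite_z1 {X : Type*} [Group X] {T : TwoSys X} {M : Type*} [AddCommGroup M] [Finite M]
    {σ : X → M → M} (hact : IsAct σ) (hfin : FiniteDimensional (ZMod 2) (homs T ⊤)) :
    Finite {x : X → M // Z1 T σ x} := by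
  obtain ⟨Y, hY⟩ := Pool.Agent.Work.MP_787500_nt.PA.exists_gens hfin
  let F : {x : X → M // Z1 T σ x} → (Y → M) := fun x y => x.1 y.1
  refine Finite.of_injective F ?_
  intro x x' h
  let H : Subgroup X :=
    { carrier := {g | x.1 g = x'.1 g}
      mul_mem' := fun {a b} ha hb => by
        show x.1 (a * b) = x'.1 (a * b)
        rw [x.2.2, x'.2.2, show x.1 a = x'.1 a from ha, show x.1 b = x'.1 b from hb]
      one_mem' := by
        show x.1 1 = x'.1 1
        rw [f05_one hact x.2, f05_one hact x'.2]
      inv_mem' := fun {a} ha => by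
        show x.1 a⁻¹ = x'.1 a⁻¹
        rw [f05_inv hact x.2, f05_inv hact x'.2, show x.1 a = x'.1 a from ha] }
  have hH : Pool.Agent.Work.MP_787500_nt.PA.Opn T H := by
    obtain ⟨W, hW, h1⟩ := x.2.1
    obtain ⟨W', hW', h1'⟩ := x'.2.1
    refine ⟨W ⊓ W', T.inf hW hW', fun w hw => ?_⟩
    show x.1 w = x'.1 w
    rw [← one_mul w, h1 1 w hw.1, h1' 1 w hw.2, f05_one hact x.2, f05_one hact x'.2]
  have hT := hY H hH fun g hg => congrFun h ⟨g, hg⟩
  apply Subtype.ext
  funext g
  have hg : g ∈ H := by rw [hT]; trivial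
  exact hg

theorem finite_zM {X : Type*} [Group X] {T : TwoSys X} {O : Type*} [CommRing O] {M : Type*}
    [AddCommGroup M] [Module O M] [Finite M] {σ : X → M → M} (hact : IsAct σ)
    (hlin : ∀ g (a : O) m, σ g (a • m) = a • σ g m)
    (hfin : FiniteDimensional (ZMod 2) (homs T ⊤)) : Finite (zM (O := O) T hact hlin) :=
  finite_z1 hact hfin

end Pool.Agent.Work.MP_787500_nt.GP
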