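import Mathlib
import Pool.Agent.Work.MP_787500_nt.GP.T01_A0

/-!
# Module T06_ANN (size S-M): double annihilator

`V` is a finite vector space over `ZMod 2`, so `φ a v + φ a v = φ a (v + v) = 0` and `φ a v = hf (l a v)`
for a unique `l a v : ZMod 2` (`eq_hf`, `hf_inj`, `hf_add`); `l a` is a linear functional on `V`, and
`a ↦ l a` is additive. Let `L ≤ Module.Dual (ZMod 2) V` be the image of `C` (a subgroup of a vector space
over `ZMod 2` is a subspace). If `l a ∉ L` then, `V` being finite dimensional, there is `v : V` with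
`c v = 0` for all `c ∈ L` and `l a v ≠ 0` (`Subspace.dualAnnihilator`/`dualCoannihilator` duality:
`Subspace.dualCoannihilator_dualAnnihilator_eq` or `Submodule.exists_le_ker_of_notMem` and
reflexivity). Contradiction to `h`.
-/

set_option autoImplicit false
set_option linter.unusedSectionVars false

namespace Pool.Agent.Work.MP_787500_nt.GP

open Pool.Agent.Work.MP_787500_nt.PA (TwoSys Sm1 Sm2 homs Coc Cob IsChar)

theorem ann {A V : Type*} [AddCommGroup A] [AddCommGroup V] [Module (ZMod 2) V]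
    [FiniteDimensional (ZMod 2) V] (φ : A → V → A0)
    (hadd : ∀ a a' v, φ (a + a') v = φ a v + φ a' v)
    (hadd' : ∀ a v v', φ a (v + v') = φ a v + φ a v')
    (C : AddSubgroup A) (a : A) (h : ∀ v, (∀ c ∈ C, φ c v = 0) → φ a v = 0) :
    ∃ c ∈ C, ∀ v, φ c v = φ a v := by
  have h0 : ∀ a, φ a 0 = 0 := by
    intro a
    have := hadd' a 0 0
    rw [add_zero] at this
    exact left_eq_add.1 this
  have h1 : ∀ a v, ∃ t : ZMod 2, φ a v = hf t := by
    intro a v
    apply eq_hf
    rw [← hadd', ZModModule.add_self, h0]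
  choose l hl using h1
  have hl1 : ∀ a v v', l a (v + v') = l a v + l a v' := by
    intro a v v'
    apply hf_inj
    rw [hf_add, ← hl, ← hl, ← hl, hadd']
  have hl2 : ∀ a a' v, l (a + a') v = l a v + l a' v := by
    intro a a' v
    apply hf_inj
    rw [hf_add, ← hl, ← hl, ← hl, hadd]
  obtain ⟨L, hL⟩ : ∃ L : A →+ Module.Dual (ZMod 2) V, ∀ a v, L a v = l a v :=
    ⟨AddMonoidHom.mk' (fun a => AddMonoidHom.toZModLinearMap 2 (AddMonoidHom.mk' (l a) (hl1 a)))
      (fun a a' => LinearMap.ext fun v => hl2 a a' v), fun _ _ => rfl⟩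
  obtain ⟨W, hW⟩ : ∃ W : Subspace (ZMod 2) (Module.Dual (ZMod 2) V), ∀ f, f ∈ W ↔ f ∈ C.map L :=
    ⟨AddSubgroup.toZModSubmodule 2 (C.map L), fun f => Iff.rfl⟩
  have h2 : L a ∈ W := by
    rw [← Subspace.dualCoannihilator_dualAnnihilator_eq (W := W), Submodule.mem_dualAnnihilator]
    intro v hv
    rw [Submodule.mem_dualCoannihilator] at hv
    have h3 : φ a v = 0 := by
      apply h
      intro c hc
      have h4 := hv (L c) ((hW _).2 ⟨c, hc, rfl⟩)
      rw [hL] at h4
      rw [hl, h4, hf_zero]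
    rw [hL]
    apply hf_inj
    rw [← hl, h3, hf_zero]
  obtain ⟨c, hc, hca⟩ := (hW _).1 h2
  refine ⟨c, hc, fun v => ?_⟩
  rw [hl, hl, ← hL, ← hL, hca]

end Pool.Agent.Work.MP_787500_nt.GP
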