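import Mathlib
import Pool.Agent.Work.MP_787500_nt.GP.T03_Coch

/-!
# Module T07_BASE (size M): duality for `ZMod 2`

* `baseP`: By `GlobH.sha`, `F = X₀ g + X₀ h + X₀ (g h)` with `X₀` smooth (restrict to `D i`: `F|D i` is the
  coboundary of `g i`). `ψ i d = g i d + X₀ (j i d)` is in `homs (SD i) ⊤`. For `ω ∈ homs S ⊤` let
  `b a c = hf (X₀ a * ω c)`: `d2 (tw χ) b a b' c = hf (F a b' * ω c)` (all signs are irrelevant, `hf_neg`;
  `χ a • hf t = hf t` by `smul_hf` and `IsChar.odd`), and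
  `hf (g i a * ω (j b)) - hf (X₀ (j a) * ω (j b)) = hf (ψ i a * ω (j b))`, which is a cocycle for `tw`. So
  `IsTr` gives `∑ i, inv i (hf (ψ i a * ω (j b))) = 0` for all `ω`; by `GlobH.mid` there is `ω₀ ∈ homs S ⊤`
  with `ω₀ (j i d) = ψ i d`. Take `X = X₀ + ω₀`.
* `baseQ`: for fixed `i₀` take `z` the indicator of `i₀`: `IsTr` with `b = 0`,
  `c i = hf (z i * F|D i)`: `tr (0, c) = ∑ i, inv i (c i) = inv i₀ (hf (F|D i₀))` (`inv i 0 = 0` follows
  from `LocH.add`). So `LocH.one` gives `Cob (SD i₀) ⊤ (F|D i₀)` for all `i₀`; now `GlobH.sha`.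
-/

set_option autoImplicit false
set_option linter.unusedSectionVars false

namespace Pool.Agent.Work.MP_787500_nt.GP

open Pool.Agent.Work.MP_787500_nt.PA (TwoSys Sm1 Sm2 homs Coc Cob IsChar)

variable {G : Type*} [Group G] {S : TwoSys G} {I : Type*} [Fintype I] {D : I → Type*}
  [∀ i, Group (D i)] {SD : ∀ i, TwoSys (D i)} {j : ∀ i, D i →* G} {χ : G → ℤ_[2]}
  {inv : ∀ i, (D i → D i → A0) → A0}
  {tr : ((G → G → G → A0) × (∀ i, D i → D i → A0)) →+ A0}

private theorem t07_coc {G : Type*} [Group G] {S : TwoSys G} {χ : G → ℤ_[2]} (h : IsChar S χ)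
    {f : G → G → ZMod 2} (hf' : Coc S ⊤ f) : Z2 S (tw χ) (fun a b => hf (f a b)) := by
  obtain ⟨⟨W, hW, hx⟩, hc⟩ := hf'
  refine ⟨⟨W, hW, fun a b w hw w' hw' => ?_⟩, fun u v w => ?_⟩
  · show hf (f (a * w) (b * w')) = hf (f a b)
    rw [hx a b w hw w' hw']
  · show χ u • hf (f v w) - hf (f (u * v) w) + hf (f u (v * w)) - hf (f u v) = 0
    rw [smul_hf (h.odd u), sub_eq_add_neg, sub_eq_add_neg, hf_neg, hf_neg, ← hf_add, ← hf_add,
      ← hf_add]
    have h1 := hc u (Subgroup.mem_top _) v (Subgroup.mem_top _) w (Subgroup.mem_top _)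
    have e : f v w + f (u * v) w + f u (v * w) + f u v =
        (f u v + f (u * v) w) + (f v w + f u (v * w)) := by ring
    rw [e, h1, CharTwo.add_self_eq_zero, hf_zero]

private theorem t07_hom_cup {G : Type*} [Group G] {S : TwoSys G} {χ : G → ℤ_[2]} (h : IsChar S χ)
    {a b : G → ZMod 2} (ha : a ∈ homs S ⊤) (hb : b ∈ homs S ⊤) :
    Z2 S (tw χ) (fun u v => hf (a u * b v)) := by
  refine t07_coc h ⟨sm2_pair ha.1 hb.1 (fun s t => s * t), fun u _ v _ w _ => ?_⟩
  show a u * b v + a (u * v) * b w = a v * b w + a u * b (v * w)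
  rw [ha.2.2 u (Subgroup.mem_top _) v (Subgroup.mem_top _),
    hb.2.2 v (Subgroup.mem_top _) w (Subgroup.mem_top _)]
  ring

private theorem t07_sm1_op {G : Type*} [Group G] {S : TwoSys G} {A B C : Type*} {x : G → A}
    {y : G → B} (hx : Sm1 S x) (hy : Sm1 S y)
    (F : A → B → C) : Sm1 S (fun g => F (x g) (y g)) := by
  obtain ⟨W, hW, hx⟩ := hx
  obtain ⟨W', hW', hy⟩ := hy
  refine ⟨W ⊓ W', S.inf hW hW', fun g w hw => ?_⟩
  show F (x (g * w)) (y (g * w)) = F (x g) (y g)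
  rw [hx g w hw.1, hy g w hw.2]

private theorem t07_hom_comp (H : GlobH S SD j χ inv) (i : I) {ω : G → ZMod 2}
    (hω : ω ∈ homs S ⊤) : (fun d => ω (j i d)) ∈ homs (SD i) ⊤ := by
  refine ⟨Sm1.comp (H.jsm i) hω.1, fun g hg => absurd (Subgroup.mem_top _) hg, fun a _ b _ => ?_⟩
  show ω (j i (a * b)) = ω (j i a) + ω (j i b)
  rw [map_mul]
  exact hω.2.2 _ (Subgroup.mem_top _) _ (Subgroup.mem_top _)

theorem baseP (H : GlobH S SD j χ inv) (htr : IsTr S SD j χ inv tr) (F : G → G → ZMod 2)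
    (g : ∀ i, D i → ZMod 2) (hF : Coc S ⊤ F) (hg : ∀ i, Sm1 (SD i) (g i))
    (hFg : ∀ i a b, F (j i a) (j i b) = g i a + g i b + g i (a * b))
    (h0 : ∀ ω ∈ homs S ⊤,
      tr (fun a b c => hf (F a b * ω c), fun i a b => hf (g i a * ω (j i b))) = 0) :
    ∃ X : G → ZMod 2, Sm1 S X ∧ (∀ a b, F a b = X a + X b + X (a * b)) ∧
      ∀ i d, g i d = X (j i d) := by
  obtain ⟨X₀, hX₀, hFX⟩ := H.sha F hF (fun i => ⟨g i, hg i, fun a _ b _ => hFg i a b⟩)
  have hFX' : ∀ a b, F a b = X₀ a + X₀ b + X₀ (a * b) := fun a b =>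
    hFX a (Subgroup.mem_top _) b (Subgroup.mem_top _)
  obtain ⟨ψ, hψ⟩ : ∃ ψ : ∀ i, D i → ZMod 2, ψ = fun i d => g i d + X₀ (j i d) := ⟨_, rfl⟩
  have hψv : ∀ i d, ψ i d = g i d + X₀ (j i d) := by
    intro i d
    rw [hψ]
  have hψh : ∀ i, ψ i ∈ homs (SD i) ⊤ := by
    intro i
    have e : ψ i = fun d => g i d + X₀ (j i d) := by
      funext d
      exact hψv i d
    refine ⟨?_, fun g hg => absurd (Subgroup.mem_top _) hg, fun a _ b _ => ?_⟩
    · rw [e]
      exact t07_sm1_op (hg i) (Sm1.comp (H.jsm i) hX₀) (fun s t => s + t)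
    · rw [hψv, hψv, hψv, map_mul]
      have h1 := hFg i a b
      rw [hFX' (j i a) (j i b)] at h1
      have h2 : g i (a * b) = X₀ (j i a) + X₀ (j i b) + X₀ (j i a * j i b) + (g i a + g i b) := by
        rw [h1]
        have : g i a + g i b + g i (a * b) + (g i a + g i b) =
            g i (a * b) + ((g i a + g i b) + (g i a + g i b)) := by ring
        rw [this, CharTwo.add_self_eq_zero, add_zero]
      rw [h2]
      have : X₀ (j i a) + X₀ (j i b) + X₀ (j i a * j i b) + (g i a + g i b) + X₀ (j i a * j i b) =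
          g i a + X₀ (j i a) + (g i b + X₀ (j i b)) +
            (X₀ (j i a * j i b) + X₀ (j i a * j i b)) := by ring
      rw [this, CharTwo.add_self_eq_zero, add_zero]
  have hmid : ∀ ω ∈ homs S ⊤, ∑ i, inv i (fun a b => hf (ψ i a * ω (j i b))) = 0 := by
    intro ω hω
    have hd2 : d2 (tw χ) (fun a c => hf (X₀ a * ω c)) = fun a b c => hf (F a b * ω c) := by
      funext u v w
      show χ u • hf (X₀ v * ω w) - hf (X₀ (u * v) * ω w) + hf (X₀ u * ω (v * w)) -
        hf (X₀ u * ω v) = hf (F u v * ω w)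
      rw [smul_hf (H.char.odd u), sub_eq_add_neg, sub_eq_add_neg, hf_neg, hf_neg, ← hf_add,
        ← hf_add, ← hf_add, hFX' u v, hω.2.2 v (Subgroup.mem_top _) w (Subgroup.mem_top _)]
      congr 1
      have : X₀ v * ω w + X₀ (u * v) * ω w + X₀ u * (ω v + ω w) + X₀ u * ω v =
          (X₀ u + X₀ v + X₀ (u * v)) * ω w + (X₀ u * ω v + X₀ u * ω v) := by ring
      rw [this, CharTwo.add_self_eq_zero, add_zero]
    have hfun : ∀ i, (fun u v => hf (g i u * ω (j i v)) - hf (X₀ (j i u) * ω (j i v))) =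
        fun u v => hf (ψ i u * ω (j i v)) := by
      intro i
      funext u v
      rw [sub_eq_add_neg, hf_neg, ← hf_add, hψv, ← add_mul]
    have h1 := htr (fun a c => hf (X₀ a * ω c)) (fun i a b => hf (g i a * ω (j i b)))
      (sm2_pair hX₀ hω.1 (fun s t => hf (s * t))) (fun i => by
        rw [hfun i]
        exact t07_hom_cup (H.loc i).char (hψh i) (t07_hom_comp H i hω))
    rw [hd2, h0 ω hω] at h1
    rw [h1]
    refine Finset.sum_congr rfl fun i _ => ?_
    rw [hfun i]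
  obtain ⟨ω₀, hω₀, hω₀'⟩ := H.mid ψ hψh hmid
  refine ⟨fun a => X₀ a + ω₀ a, t07_sm1_op hX₀ hω₀.1 (fun s t => s + t), fun a b => ?_,
    fun i d => ?_⟩
  · show F a b = X₀ a + ω₀ a + (X₀ b + ω₀ b) + (X₀ (a * b) + ω₀ (a * b))
    rw [hFX', hω₀.2.2 a (Subgroup.mem_top _) b (Subgroup.mem_top _)]
    have : X₀ a + ω₀ a + (X₀ b + ω₀ b) + (X₀ (a * b) + (ω₀ a + ω₀ b)) =
        X₀ a + X₀ b + X₀ (a * b) + ((ω₀ a + ω₀ b) + (ω₀ a + ω₀ b)) := by ring
    rw [this, CharTwo.add_self_eq_zero, add_zero]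
  · show g i d = X₀ (j i d) + ω₀ (j i d)
    rw [hω₀', hψv]
    have : X₀ (j i d) + (g i d + X₀ (j i d)) = g i d + (X₀ (j i d) + X₀ (j i d)) := by ring
    rw [this, CharTwo.add_self_eq_zero, add_zero]

theorem baseQ (H : GlobH S SD j χ inv) (htr : IsTr S SD j χ inv tr) (F : G → G → ZMod 2)
    (hF : Coc S ⊤ F)
    (h0 : ∀ z : I → ZMod 2,
      tr (fun _ _ _ => 0, fun i a b => hf (z i * F (j i a) (j i b))) = 0) :
    Cob S ⊤ F := by
  classical
  refine H.sha F hF (fun i₀ => ?_)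
  have hcoc : ∀ i, Coc (SD i) ⊤ (fun a b => F (j i a) (j i b)) := by
    intro i
    refine ⟨Sm2.comp (H.jsm i) hF.1, fun u _ v _ w _ => ?_⟩
    show F (j i u) (j i v) + F (j i (u * v)) (j i w) = F (j i v) (j i w) + F (j i u) (j i (v * w))
    rw [map_mul, map_mul]
    exact hF.2 _ (Subgroup.mem_top _) _ (Subgroup.mem_top _) _ (Subgroup.mem_top _)
  have hcocz : ∀ i (z : ZMod 2), Coc (SD i) ⊤ (fun a b => z * F (j i a) (j i b)) := by
    intro i z
    obtain ⟨⟨W, hW, hx⟩, hc⟩ := hcoc i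
    refine ⟨⟨W, hW, fun a b w hw w' hw' => ?_⟩, fun u hu v hv w hw => ?_⟩
    · show z * F (j i (a * w)) (j i (b * w')) = z * F (j i a) (j i b)
      have := hx a b w hw w' hw'
      simp only at this
      rw [this]
    · show z * F (j i u) (j i v) + z * F (j i (u * v)) (j i w) =
        z * F (j i v) (j i w) + z * F (j i u) (j i (v * w))
      rw [← mul_add, ← mul_add]
      congr 1
      exact hc u hu v hv w hw
  have hinv0 : ∀ i, inv i (fun _ _ => 0) = 0 := by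
    intro i
    have hz : Z2 (SD i) (tw fun d => χ (j i d)) (fun _ _ => 0) := by
      obtain ⟨W, hW⟩ := (SD i).ex
      refine ⟨⟨W, hW, fun _ _ _ _ _ _ => rfl⟩, fun u v w => ?_⟩
      show χ (j i u) • (0 : A0) - 0 + 0 - 0 = 0
      simp
    have h1 := (H.loc i).add _ _ hz hz
    have e : (fun (_ _ : D i) => (0 : A0) + 0) = fun _ _ => 0 := by
      funext _ _
      rw [add_zero]
    rw [e] at h1
    exact left_eq_add.1 h1
  refine (H.loc i₀).one _ (hcoc i₀) ?_
  obtain ⟨z, hz⟩ : ∃ z : I → ZMod 2, z = fun i => if i = i₀ then 1 else 0 := ⟨_, rfl⟩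
  obtain ⟨W, hW⟩ := S.ex
  have h1 := htr (fun _ _ => 0) (fun i a b => hf (z i * F (j i a) (j i b)))
    ⟨W, hW, fun _ _ _ _ _ _ => rfl⟩ (fun i => by
      have := t07_coc (H.loc i).char (hcocz i (z i))
      simpa only [sub_zero] using this)
  have hd2 : d2 (tw χ) (fun _ _ => (0 : A0)) = fun _ _ _ => 0 := by
    funext u v w
    show χ u • (0 : A0) - 0 + 0 - 0 = 0
    simp
  rw [hd2, h0 z] at h1
  simp only [sub_zero] at h1
  rw [Finset.sum_eq_single i₀] at h1
  · have e : (fun a b => hf (z i₀ * F (j i₀ a) (j i₀ b))) = fun a b => hf (F (j i₀ a) (j i₀ b)) := by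
      funext a b
      rw [hz]
      simp
    rw [e] at h1
    exact h1.symm
  · intro i _ hi
    have e : (fun a b => hf (z i * F (j i a) (j i b))) = fun _ _ => 0 := by
      funext a b
      rw [hz]
      simp [hi, hf_zero]
    rw [e, hinv0]
  · intro hi
    exact absurd (Finset.mem_univ _) hi

end Pool.Agent.Work.MP_787500_nt.GP
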