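import Mathlib
import Pool.Agent.Work.MP_787500_nt.GP.T04b_Tr

/-!
# Module T08_LIFTP (size M): the step for `PP`, first part

`(F, g)` as in `PP` for `(M, M')`. The pair `(p F, p g)` satisfies the hypotheses of `PP` for `(Q, Q')`: for
`x' ∈ Z1 S σ' `, `x = e' x' ∈ Z1 S ρ'` and `B (m, e' a) = C (p m, a)` (`pair2`), so
`cup21 σ' C (p F) x' = cup21 ρ' B F x`, etc. So `p F = d1 σ X'`, `p (g i) = X'|D i - d0 (Y' i)`. Let
`s : Q → M` be a map with `p (s q) = q`, `X = s ∘ X'` (smooth), `Y i = s (Y' i)`. Then `F - d1 ρ X` and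
`g i - X|D i + d0 (Y i)` have image 0 in `Q`, so they are `e ∘ F₁`, `e ∘ g₁ i` (`ker`); `F₁`, `g₁ i` are
smooth (`e` injective) and `F₁ a b + F₁ (a b) c = F₁ b c + F₁ a (b c)`,
`F₁|D i (a, b) = g₁ a + g₁ b + g₁ (a b)` (apply `e`, which is injective and equivariant; use
`d2_d1` and `d1 (d0 Y) = 0`; in `ZMod 2` signs do not matter).
Orthogonality: for `x ∈ Z1 S ρ'`: `hf (F₁ a b * p' (x c)) = B (e (F₁ a b)) (ρ' (a b) (x c))` (`pair1`,
`eqv_p'`), so the pair in question is `(F ∪ x, g ∪ x) - (d1 X ∪ x, (X|D i - d0 (Y i)) ∪ x)`. The first has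
trace 0 by hypothesis. For the second: `d1 X ∪ x = d2 (X ∪ x)` (`leib11`, `d1 x = 0`) and
`(X| - d0 Y) ∪ x = (X ∪ x)| - d1 (Y ∪ x|)` (`leib01`), so by `IsTr` its trace is
`∑ i, inv i (-d1 (Y i ∪ x|)) = 0` (`LocH.cob` applied to `-(Y i ∪ x|)`).
-/

set_option autoImplicit false
set_option linter.unusedSectionVars false

namespace Pool.Agent.Work.MP_787500_nt.GP

open Pool.Agent.Work.MP_787500_nt.PA (TwoSys Sm1 Sm2 homs Coc Cob IsChar)

variable {G : Type*} [Group G] {S : TwoSys G} {I : Type*} [Fintype I] {D : I → Type*}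
  [∀ i, Group (D i)] {SD : ∀ i, TwoSys (D i)} {j : ∀ i, D i →* G} {χ : G → ℤ_[2]}
  {inv : ∀ i, (D i → D i → A0) → A0}
  {tr : ((G → G → G → A0) × (∀ i, D i → D i → A0)) →+ A0}
  {M M' Q Q' : Type*} [AddCommGroup M] [AddCommGroup M'] [AddCommGroup Q] [AddCommGroup Q']
  {ρ : G → M → M} {ρ' : G → M' → M'} {B : M →+ M' →+ A0}
  {σ : G → Q → Q} {σ' : G → Q' → Q'} {C : Q →+ Q' →+ A0}

private theorem liftP_orth (H : GlobH S SD j χ inv) (htr : IsTr S SD j χ inv tr)
    (hM : Pair S χ ρ ρ' B) {e : ZMod 2 →+ M} {p : M →+ Q} {e' : Q' →+ M'} {p' : M' →+ ZMod 2}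
    (hf' : Filt ρ ρ' B σ σ' C e p e' p')
    {F : G → G → M} {g : ∀ i, D i → M} {X : G → M} {Y : I → M} {F₁ : G → G → ZMod 2}
    {g₁ : ∀ i, D i → ZMod 2} (hX : Sm1 S X)
    (h1 : ∀ a b, F a b = d1 ρ X a b + e (F₁ a b))
    (h2 : ∀ i d, g i d = X (j i d) - d0 (fun d => ρ (j i d)) (Y i) d + e (g₁ i d))
    (x : G → M') (hx : Z1 S ρ' x)
    (h0 : tr (cup21 ρ' B F x,
      fun i => cup11 (fun d => ρ' (j i d)) B (g i) (fun d => x (j i d))) = 0) :
    tr (fun a b c => hf (F₁ a b * p' (x c)),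
        fun i a b => hf (g₁ i a * p' (x (j i b)))) = 0 := by
  have hb : Sm2 S (cup11 ρ' B X x) := cup11_sm hM.sm' hM.act' hX hx.1
  have hyi : ∀ i, Sm1 (SD i) (fun d => x (j i d)) := fun i => Sm1.comp (H.jsm i) hx.1
  have ht : ∀ i, Sm1 (SD i) (cup01 B (Y i) (fun d => x (j i d))) := fun i => cup01_sm (hyi i)
  have h3 := tr_cob H htr hb ht
  have h4 : (cup21 ρ' B F x, fun i => cup11 (fun d => ρ' (j i d)) B (g i) (fun d => x (j i d))) =
      (fun a b c => hf (F₁ a b * p' (x c)), fun i a b => hf (g₁ i a * p' (x (j i b)))) +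
      ((d2 (tw χ) (cup11 ρ' B X x), fun i u v => cup11 ρ' B X x (j i u) (j i v) -
        d1 (tw fun d => χ (j i d)) (cup01 B (Y i) (fun d => x (j i d))) u v) :
        (G → G → G → A0) × (∀ i, D i → D i → A0)) := by
    refine Prod.ext ?_ ?_
    · funext a b c
      simp only [Prod.mk_add_mk, Pi.add_apply]
      have h5 : d1 ρ' x b c = 0 := by simp only [d1, hx.2 b c, sub_self]
      rw [leib11 hM.act' hM.eqv]
      simp only [cup21, cup12, h1, h5, hM.act'.zero, map_zero, sub_zero, map_add,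
        AddMonoidHom.add_apply, hf'.pair1, hf'.eqv_p']
      rw [add_comm]
    · funext i a b
      simp only [Prod.mk_add_mk, Pi.add_apply]
      have h5 : d1 (fun d => ρ' (j i d)) (fun d => x (j i d)) a b = 0 := by
        simp only [d1, map_mul, hx.2 (j i a) (j i b), sub_self]
      have h6 := leib01 (ρ := fun d => ρ (j i d)) (ρ' := fun d => ρ' (j i d))
        (χ := fun d => χ (j i d)) (B := B) (fun g => hM.eqv (j i g)) (Y i) (fun d => x (j i d)) a b
      rw [h6]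
      simp only [cup11, cup02, h2, h5, map_zero, add_zero, map_add, map_sub,
        AddMonoidHom.add_apply, AddMonoidHom.sub_apply, hf'.pair1, hf'.eqv_p']
      rw [add_comm]
  rw [h4, map_add, h3, add_zero] at h0
  exact h0

private theorem liftP_sm2 {A A' : Type*} {f : G → G → A} {k : A → A'} (hk : Function.Injective k)
    (h : Sm2 S (fun a b => k (f a b))) : Sm2 S f := by
  obtain ⟨W, hW, h1⟩ := h
  exact ⟨W, hW, fun g h w hw w' hw' => hk (h1 g h w hw w' hw')⟩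

private theorem liftP_sm1 {D : Type*} [Group D] {S : TwoSys D} {A A' : Type*} {f : D → A}
    {k : A → A'} (hk : Function.Injective k)
    (h : Sm1 S (fun a => k (f a))) : Sm1 S f := by
  obtain ⟨W, hW, h1⟩ := h
  exact ⟨W, hW, fun g w hw => hk (h1 g w hw)⟩

private theorem liftP_d0 {D M : Type*} [Group D] [AddCommGroup M] {ρ : D → M → M} (h : IsAct ρ)
    (m : M) (a b : D) : d1 ρ (d0 ρ m) a b = 0 := by
  simp only [d1, d0, h.sub, h.mul]
  abel

theorem liftP (H : GlobH S SD j χ inv) (htr : IsTr S SD j χ inv tr) (hM : Pair S χ ρ ρ' B)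
    (hQ : Pair S χ σ σ' C) {e : ZMod 2 →+ M} {p : M →+ Q} {e' : Q' →+ M'} {p' : M' →+ ZMod 2}
    (hf' : Filt ρ ρ' B σ σ' C e p e' p') (hP : PP S SD j tr σ σ' C)
    (F : G → G → M) (g : ∀ i, D i → M) (hF : Z2 S ρ F) (hg : ∀ i, Sm1 (SD i) (g i))
    (hFg : ∀ i a b, d1 (fun d => ρ (j i d)) (g i) a b = F (j i a) (j i b))
    (h0 : ∀ x, Z1 S ρ' x → tr (cup21 ρ' B F x,
      fun i => cup11 (fun d => ρ' (j i d)) B (g i) (fun d => x (j i d))) = 0) :
    ∃ (X : G → M) (Y : I → M) (F₁ : G → G → ZMod 2) (g₁ : ∀ i, D i → ZMod 2),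
      Sm1 S X ∧ Coc S ⊤ F₁ ∧ (∀ i, Sm1 (SD i) (g₁ i)) ∧
      (∀ i a b, F₁ (j i a) (j i b) = g₁ i a + g₁ i b + g₁ i (a * b)) ∧
      (∀ a b, F a b = d1 ρ X a b + e (F₁ a b)) ∧
      (∀ i d, g i d = X (j i d) - d0 (fun d => ρ (j i d)) (Y i) d + e (g₁ i d)) ∧
      ∀ x, Z1 S ρ' x → tr (fun a b c => hf (F₁ a b * p' (x c)),
        fun i a b => hf (g₁ i a * p' (x (j i b)))) = 0 := by
  -- the image in `Q`
  have hpF : Z2 S σ (fun a b => p (F a b)) := by
    refine ⟨?_, fun a b c => ?_⟩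
    · obtain ⟨W, hW, h⟩ := hF.1
      exact ⟨W, hW, fun g h' w hw w' hw' => by simp only [h g h' w hw w' hw']⟩
    · have h1 := hF.2 a b c
      have h2 := congrArg p h1
      simpa only [d2, map_add, map_sub, hf'.eqv_p, map_zero] using h2
  have hpg : ∀ i, Sm1 (SD i) (fun d => p (g i d)) := by
    intro i
    obtain ⟨W, hW, h⟩ := hg i
    exact ⟨W, hW, fun g w hw => by simp only [h g w hw]⟩
  have hpFg : ∀ i a b, d1 (fun d => σ (j i d)) (fun d => p (g i d)) a b =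
      p (F (j i a) (j i b)) := by
    intro i a b
    rw [← hFg i a b]
    simp only [d1, map_add, map_sub, hf'.eqv_p]
  have hp0 : ∀ x, Z1 S σ' x → tr (cup21 σ' C (fun a b => p (F a b)) x,
      fun i => cup11 (fun d => σ' (j i d)) C (fun d => p (g i d)) (fun d => x (j i d))) = 0 := by
    intro x' hx'
    have hx : Z1 S ρ' (fun a => e' (x' a)) := by
      refine ⟨?_, fun a b => ?_⟩
      · obtain ⟨W, hW, h⟩ := hx'.1
        exact ⟨W, hW, fun g w hw => by simp only [h g w hw]⟩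
      · simp only [hx'.2 a b, map_add, hf'.eqv_e']
    have h1 := h0 _ hx
    rw [← h1]
    congr 1
    refine Prod.ext ?_ ?_
    · funext a b c
      simp only [cup21, hf'.eqv_e', hf'.pair2]
    · funext i a b
      simp only [cup11, hf'.eqv_e', hf'.pair2]
  obtain ⟨X', Y', hX', hFX, hgX⟩ := hP _ _ hpF hpg hpFg hp0
  obtain ⟨s, hs⟩ := hf'.psurj.hasRightInverse
  have hX : Sm1 S (fun a => s (X' a)) := by
    obtain ⟨W, hW, h⟩ := hX'
    exact ⟨W, hW, fun g w hw => by simp only [h g w hw]⟩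
  have hk1 : ∀ a b, ∃ t, F a b - d1 ρ (fun a => s (X' a)) a b = e t := by
    intro a b
    refine hf'.ker _ ?_
    have h1 : p (F a b) = d1 σ X' a b := congrFun (congrFun hFX a) b
    have hs' := hs
    unfold Function.RightInverse Function.LeftInverse at hs'
    simp only [map_sub, h1, d1, map_add, hf'.eqv_p, hs', sub_self]
  choose F₁ hF₁ using hk1
  have hk2 : ∀ i d, ∃ t, g i d - (s (X' (j i d)) - d0 (fun d => ρ (j i d)) (s (Y' i)) d) = e t := by
    intro i d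
    refine hf'.ker _ ?_
    have hs' := hs
    unfold Function.RightInverse Function.LeftInverse at hs'
    simp only [map_sub, hgX i d, d0, hf'.eqv_p, hs', sub_self]
  choose g₁ hg₁ using hk2
  have e1 : ∀ a b, F a b = d1 ρ (fun a => s (X' a)) a b + e (F₁ a b) := by
    intro a b
    rw [← hF₁ a b]
    abel
  have e2 : ∀ i d, g i d = s (X' (j i d)) - d0 (fun d => ρ (j i d)) (s (Y' i)) d + e (g₁ i d) := by
    intro i d
    rw [← hg₁ i d]
    abel
  have hd1 := d1_Z2 hM.act hM.sm hX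
  refine ⟨fun a => s (X' a), fun i => s (Y' i), F₁, g₁, hX, ⟨?_, ?_⟩, ?_, ?_, e1, e2, fun x hx =>
    liftP_orth H htr hM hf' hX e1 e2 x hx (h0 x hx)⟩
  · refine liftP_sm2 hf'.einj ?_
    simp only [← hF₁]
    obtain ⟨W, hW, h⟩ := hF.1
    obtain ⟨W', hW', h'⟩ := hd1.1
    exact ⟨W ⊓ W', S.inf hW hW', fun a b w hw w' hw' => by
      simp only [h a b w hw.1 w' hw'.1, h' a b w hw.2 w' hw'.2]⟩
  · intro a _ b _ c _
    have h1 : d2 ρ (fun a b => e (F₁ a b)) a b c = 0 := by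
      have h2 := hF.2 a b c
      have h3 := hd1.2 a b c
      simp only [← hF₁]
      have h4 : d2 ρ (fun a b => F a b - d1 ρ (fun a => s (X' a)) a b) a b c =
          d2 ρ F a b c - d2 ρ (d1 ρ (fun a => s (X' a))) a b c := by
        simp only [d2, hM.act.sub]
        abel
      rw [h4, h2, h3, sub_zero]
    simp only [d2, hf'.eqv_e, ← map_sub, ← map_add] at h1
    have h2 := hf'.einj (h1.trans (map_zero e).symm)
    linear_combination -h2
  · intro i
    refine liftP_sm1 hf'.einj ?_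
    simp only [← hg₁]
    obtain ⟨W, hW, h⟩ := hg i
    obtain ⟨W', hW', h'⟩ := Sm1.comp (H.jsm i) hX'
    obtain ⟨W'', hW'', h''⟩ := hM.sm.comp (H.jsm i)
    refine ⟨W ⊓ (W' ⊓ W''), (SD i).inf hW ((SD i).inf hW' hW''), fun a w hw => ?_⟩
    have h4 : ρ (j i (a * w)) (s (Y' i)) = ρ (j i a) (s (Y' i)) := by
      have h5 : ρ (j i w) (s (Y' i)) = s (Y' i) := h'' w hw.2.2 _
      rw [map_mul, hM.act.mul, h5]
    have h6 : X' (j i (a * w)) = X' (j i a) := h' a w hw.2.1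
    simp only [h a w hw.1, h6, d0, h4]
  · intro i a b
    have h1 := hFg i a b
    have h2 : e (F₁ (j i a) (j i b)) = e (g₁ i a + g₁ i b - g₁ i (a * b)) := by
      have h5 : ρ (j i a) (e (g₁ i b)) = e (g₁ i b) := hf'.eqv_e _ _
      rw [← hF₁, ← h1, map_sub, map_add, ← h5, ← hg₁, ← hg₁, ← hg₁]
      simp only [d1, d0, map_mul, hM.act.sub, hM.act.mul]
      abel
    rw [hf'.einj h2, sub_eq_add_neg, ZMod.neg_eq_self_mod_two]

end Pool.Agent.Work.MP_787500_nt.GP
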