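import Mathlib
import Pool.Agent.Work.MP_787500_nt.GP.T04_Leib

/-!
# Module T09b_INJ: cocycles through an injective equivariant map (used in T10, T12)

If `d1 ρ y = e ∘ F` with `e` injective and equivariant then `F` is a smooth 2-cocycle.
-/

set_option autoImplicit false
set_option linter.unusedSectionVars false

namespace Pool.Agent.Work.MP_787500_nt.GP

open Pool.Agent.Work.MP_787500_nt.PA (TwoSys Sm1 Sm2 homs Coc Cob IsChar)

variable {G : Type*} [Group G] {S : TwoSys G} {M Q : Type*} [AddCommGroup M] [AddCommGroup Q]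
  {ρ : G → M → M} {σ : G → Q → Q} {e : Q →+ M}

theorem inj_Sm1 {A A' : Type*} {f : G → A} {k : A → A'} (hk : Function.Injective k)
    (h : Sm1 S (fun a => k (f a))) : Sm1 S f := by
  obtain ⟨W, hW, h1⟩ := h
  exact ⟨W, hW, fun g w hw => hk (h1 g w hw)⟩

theorem inj_Sm2 {A A' : Type*} {f : G → G → A} {k : A → A'} (hk : Function.Injective k)
    (h : Sm2 S (fun a b => k (f a b))) : Sm2 S f := by
  obtain ⟨W, hW, h1⟩ := h
  exact ⟨W, hW, fun g h w hw w' hw' => hk (h1 g h w hw w' hw')⟩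

theorem inj_Sm1_map {A A' : Type*} {f : G → A} (k : A → A') (h : Sm1 S f) :
    Sm1 S (fun a => k (f a)) := by
  obtain ⟨W, hW, h1⟩ := h
  exact ⟨W, hW, fun g w hw => congrArg k (h1 g w hw)⟩

theorem inj_Sm1_map2 {A A' A'' : Type*} {f : G → A} {f' : G → A'} (k : A → A' → A'')
    (h : Sm1 S f) (h' : Sm1 S f') : Sm1 S (fun a => k (f a) (f' a)) := by
  obtain ⟨W, hW, h1⟩ := h
  obtain ⟨W', hW', h1'⟩ := h'
  exact ⟨W ⊓ W', S.inf hW hW', fun g w hw => by simp only [h1 g w hw.1, h1' g w hw.2]⟩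

theorem inj_Z2 (he : Function.Injective e) (heq : ∀ g a, ρ g (e a) = e (σ g a)) (hρ : IsAct ρ)
    (hs : Smooth S ρ) {y : G → M} (hy : Sm1 S y) {F : G → G → Q}
    (hF : ∀ a b, d1 ρ y a b = e (F a b)) : Z2 S σ F := by
  have h1 := d1_Z2 hρ hs hy
  refine ⟨?_, fun a b c => ?_⟩
  · refine inj_Sm2 he ?_
    simp only [← hF]
    exact h1.1
  · have h2 := h1.2 a b c
    simp only [d2, hF, heq, ← map_sub, ← map_add] at h2
    exact he (h2.trans (map_zero e).symm)

theorem inj_Coc {e : ZMod 2 →+ M} (he : Function.Injective e) (heq : ∀ g a, ρ g (e a) = e a)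
    (hρ : IsAct ρ) (hs : Smooth S ρ) {y : G → M} (hy : Sm1 S y) {F : G → G → ZMod 2}
    (hF : ∀ a b, d1 ρ y a b = e (F a b)) : Coc S ⊤ F := by
  have h1 := inj_Z2 (σ := fun _ a => a) he heq hρ hs hy hF
  refine ⟨h1.1, fun a _ b _ c _ => ?_⟩
  have h2 := h1.2 a b c
  simp only [d2] at h2
  linear_combination -h2

theorem inj_d0 (hρ : IsAct ρ) (m : M) (a b : G) : d1 ρ (d0 ρ m) a b = 0 := by
  simp only [d1, d0, hρ.sub, hρ.mul]
  abel

theorem inj_coc_add {f f' : G → G → ZMod 2} (h : Coc S ⊤ f) (h' : Coc S ⊤ f') :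
    Coc S ⊤ (fun a b => f a b + f' a b) := by
  obtain ⟨⟨W, hW, h1⟩, h2⟩ := h
  obtain ⟨⟨W', hW', h1'⟩, h2'⟩ := h'
  refine ⟨⟨W ⊓ W', S.inf hW hW', fun g k w hw w' hw' => by
    simp only [h1 g k w hw.1 w' hw'.1, h1' g k w hw.2 w' hw'.2]⟩, fun a ha b hb c hc => ?_⟩
  have h3 := h2 a ha b hb c hc
  have h4 := h2' a ha b hb c hc
  linear_combination h3 + h4

end Pool.Agent.Work.MP_787500_nt.GP
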