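import Mathlib
import Pool.Agent.Work.MP_787500_nt.GP.T06_Ann
import Pool.Agent.Work.MP_787500_nt.GP.T07_Base
import Pool.Agent.Work.MP_787500_nt.GP.T08_LiftP
import Pool.Agent.Work.MP_787500_nt.GP.T09_ClaimP
import Pool.Agent.Work.MP_787500_nt.GP.T09b_Inj

/-!
# Module T10_STEPP (size M-L): the step for `PP`

Take `X, Y, F₁, g₁` from `liftP`. It suffices to find `x : G → M` smooth, `z : I → M` and `F_x, g_x`, `X₁`
with `d1 ρ x = e F_x`, `x|D i - d0 (z i) = e (g_x i)`, `F₁ = F_x + d X₁`, `g₁ = g_x + X₁|`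
(`X₁ : G → ZMod 2` smooth): then `F = d1 (X + x + e X₁)` and
`g i = (X + x + e X₁)|D i - d0 (Y i + z i)`.
Let `A` be the group of pairs of functions `(F₁, g₁)`, `V = homs S ⊤`, and
`φ (F₁, g₁) ω = tr (hf (F₁ a b * ω c), hf (g₁ i a * ω (j b)))` (biadditive: `hf_add`, `tr` additive). Let
`C₀ ≤ A` be the subgroup generated by (or equal to the sum of) the pairs `(F_x, g_x)` for which there are
`x`, `z` as above with `Sm1 S x`, and the pairs `(d X₁, X₁|)` (both sets are subgroups: sums of `x`, `z`;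
zero). By `ann`, applied to `a = (F₁, g₁)`, there is `c ∈ C₀` with `φ c = φ a`, so `a - c` is orthogonal to
`homs S ⊤`; it satisfies the hypotheses of `baseP` (cocycle conditions: clear for `F_x = e⁻¹ (d1 x)`),
so `a - c = (d X₁, X₁|)` and we are done.
Hypothesis of `ann`: let `ω ∈ homs S ⊤` be orthogonal to `C₀`. Let `s' : ZMod 2 → M'` be a section of `p'`
and `y = s' ∘ ω` (smooth). `p' (d1 ρ' y) = d ω = 0`, so `d1 ρ' y = e' F'` with `F' ∈ Z2 S σ'` (`e'`
injective). For every `(x', z')` with `x' ∈ Z1 S σ`, `x'|D i = d0 (z' i)`: lift to `x = s x'`,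
`z = s z'`; `d1 ρ x = e F_x` and `x| - d0 z = e g_x`; so `(F_x, g_x) ∈ C₀` and by `claimP`
`0 = φ (F_x, g_x) ω = tr (cup12 σ' C x' F', cup02 C z' F'|)`. By `QQ` for `(Q, Q')`: `F' = d1 σ' X'`, so
`x₀ = y - e' X' ∈ Z1 S ρ'` with `p' x₀ = ω`. By `liftP` (last clause) `φ (F₁, g₁) ω = 0`.
-/

set_option autoImplicit false
set_option linter.unusedSectionVars false

namespace Pool.Agent.Work.MP_787500_nt.GP

open Pool.Agent.Work.MP_787500_nt.PA (TwoSys Sm1 Sm2 homs Coc Cob IsChar)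

variable {G : Type*} [Group G] {S : TwoSys G} {I : Type*} [Fintype I] {D : I → Type*}
  [∀ i, Group (D i)] {SD : ∀ i, TwoSys (D i)} {j : ∀ i, D i →* G} {χ : G → ℤ_[2]}
  {inv : ∀ i, (D i → D i → A0) → A0}
  {tr : ((G → G → G → A0) × (∀ i, D i → D i → A0)) →+ A0}
  {M M' Q Q' : Type*} [AddCommGroup M] [AddCommGroup M'] [AddCommGroup Q] [AddCommGroup Q']
  {ρ : G → M → M} {ρ' : G → M' → M'} {B : M →+ M' →+ A0}
  {σ : G → Q → Q} {σ' : G → Q' → Q'} {C : Q →+ Q' →+ A0}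

/-- the pairing of pairs with homomorphisms -/
private noncomputable def ph10 (j : ∀ i, D i →* G)
    (tr : ((G → G → G → A0) × (∀ i, D i → D i → A0)) →+ A0)
    (a : (G → G → ZMod 2) × (∀ i, D i → ZMod 2)) (ω : G → ZMod 2) : A0 :=
  tr (fun x y z => hf (a.1 x y * ω z), fun i x y => hf (a.2 i x * ω (j i y)))

private theorem ph10_add (a a' : (G → G → ZMod 2) × (∀ i, D i → ZMod 2)) (ω : G → ZMod 2) :
    ph10 j tr (a + a') ω = ph10 j tr a ω + ph10 j tr a' ω := by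
  unfold ph10
  rw [← map_add]
  congr 1
  refine Prod.ext ?_ ?_
  · funext x y z
    simp only [Prod.fst_add, Prod.mk_add_mk, Pi.add_apply, add_mul, hf_add]
  · funext i x y
    simp only [Prod.snd_add, Prod.mk_add_mk, Pi.add_apply, add_mul, hf_add]

private theorem ph10_add' (a : (G → G → ZMod 2) × (∀ i, D i → ZMod 2)) (ω ω' : G → ZMod 2) :
    ph10 j tr a (ω + ω') = ph10 j tr a ω + ph10 j tr a ω' := by
  unfold ph10
  rw [← map_add]
  congr 1
  refine Prod.ext ?_ ?_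
  · funext x y z
    simp only [Prod.mk_add_mk, Pi.add_apply, mul_add, hf_add]
  · funext i x y
    simp only [Prod.mk_add_mk, Pi.add_apply, mul_add, hf_add]

/-- the subgroup of pairs that come from cochains of `M` -/
private def sub10 (S : TwoSys G) (j : ∀ i, D i →* G) (ρ : G → M → M) (hρ : IsAct ρ)
    (e : ZMod 2 →+ M) : AddSubgroup ((G → G → ZMod 2) × (∀ i, D i → ZMod 2)) where
  carrier := {c | ∃ (x : G → M) (z : I → M), Sm1 S x ∧ (∀ a b, d1 ρ x a b = e (c.1 a b)) ∧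
    ∀ i d, x (j i d) - d0 (fun d => ρ (j i d)) (z i) d = e (c.2 i d)}
  add_mem' := by
    rintro c c' ⟨x, z, hx, h1, h2⟩ ⟨x', z', hx', h1', h2'⟩
    refine ⟨fun a => x a + x' a, fun i => z i + z' i, inj_Sm1_map2 (· + ·) hx hx', ?_, ?_⟩
    · intro a b
      simp only [Prod.fst_add, Pi.add_apply, map_add, ← h1, ← h1', d1, hρ.add]
      abel
    · intro i d
      simp only [Prod.snd_add, Pi.add_apply, map_add, ← h2, ← h2', d0, hρ.add]
      abel
  zero_mem' := by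
    refine ⟨fun _ => 0, fun _ => 0, ?_, ?_, ?_⟩
    · obtain ⟨W, hW⟩ := S.ex
      exact ⟨W, hW, fun _ _ _ => rfl⟩
    · intro a b
      simp [d1, hρ.zero]
    · intro i d
      simp [d0, hρ.zero]
  neg_mem' := by
    rintro c ⟨x, z, hx, h1, h2⟩
    refine ⟨fun a => -x a, fun i => -z i, inj_Sm1_map Neg.neg hx, ?_, ?_⟩
    · intro a b
      simp only [Prod.fst_neg, Pi.neg_apply, map_neg, ← h1, d1, hρ.neg]
      abel
    · intro i d
      simp only [Prod.snd_neg, Pi.neg_apply, map_neg, ← h2, d0, hρ.neg]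
      abel

private theorem orth10 (H : GlobH S SD j χ inv) (htr : IsTr S SD j χ inv tr)
    (hM : Pair S χ ρ ρ' B) (hQ : Pair S χ σ σ' C) {e : ZMod 2 →+ M} {p : M →+ Q}
    {e' : Q' →+ M'} {p' : M' →+ ZMod 2}
    (hf' : Filt ρ ρ' B σ σ' C e p e' p') (hQQ : QQ S j tr σ σ' C)
    (ω : G → ZMod 2) (hω : ω ∈ homs S ⊤)
    (h : ∀ c ∈ sub10 S j ρ hM.act e, ph10 j tr c ω = 0) :
    ∃ x, Z1 S ρ' x ∧ ∀ a, p' (x a) = ω a := by
  obtain ⟨hω1, -, hω2⟩ := hω
  obtain ⟨s', hs'⟩ := hf'.psurj'.hasRightInverse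
  obtain ⟨s, hs⟩ := hf'.psurj.hasRightInverse
  unfold Function.RightInverse Function.LeftInverse at hs hs'
  have hy : Sm1 S (fun a => s' (ω a)) := inj_Sm1_map s' hω1
  have h1 : ∀ a b, ∃ t, d1 ρ' (fun a => s' (ω a)) a b = e' t := by
    intro a b
    refine hf'.ker' _ ?_
    simp only [d1, map_add, map_sub, hf'.eqv_p', hs', hω2 a (Subgroup.mem_top a) b
      (Subgroup.mem_top b), sub_self]
  choose F' hF' using h1
  have hZ : Z2 S σ' F' := inj_Z2 hf'.einj' hf'.eqv_e' hM.act' hM.sm' hy hF'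
  obtain ⟨X', hX', hFX⟩ := hQQ F' hZ (fun x' z' hx' hz' => by
    have hx : Sm1 S (fun a => s (x' a)) := inj_Sm1_map s hx'.1
    have h2 : ∀ a b, ∃ t, d1 ρ (fun a => s (x' a)) a b = e t := by
      intro a b
      refine hf'.ker _ ?_
      simp only [d1, map_add, map_sub, hf'.eqv_p, hs, hx'.2 a b, sub_self]
    choose Fx hFx using h2
    have h3 : ∀ i d, ∃ t, s (x' (j i d)) - d0 (fun d => ρ (j i d)) (s (z' i)) d = e t := by
      intro i d
      refine hf'.ker _ ?_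
      simp only [hz' i d, map_sub, d0, hf'.eqv_p, hs, sub_self]
    choose gx hgx using h3
    have h4 := h (Fx, gx) ⟨fun a => s (x' a), fun i => s (z' i), hx, hFx, hgx⟩
    have h5 := claimP H htr hM hQ hf' hx hy hFx (z := fun i => s (z' i)) hgx hF'
    simp only [hs'] at h5
    have h6 : ph10 j tr (Fx, gx) ω = tr (fun a b c => hf (Fx a b * ω c),
        fun i a b => hf (gx i a * ω (j i b))) := rfl
    rw [← h6, h4] at h5
    simp only [hs] at h5
    exact h5.symm)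
  refine ⟨fun a => s' (ω a) - e' (X' a), ⟨inj_Sm1_map2 (· - ·) hy (inj_Sm1_map e' hX'), ?_⟩, ?_⟩
  · intro a b
    have h2 := hF' a b
    rw [hFX] at h2
    simp only [d1, map_sub, map_add, ← hf'.eqv_e'] at h2
    simp only [hM.act'.sub]
    rw [← sub_eq_zero] at h2 ⊢
    rw [← neg_eq_zero, ← h2]
    abel
  · intro a
    simp only [map_sub, hs', hf'.pe', sub_zero]

theorem stepP (H : GlobH S SD j χ inv) (htr : IsTr S SD j χ inv tr) (hM : Pair S χ ρ ρ' B)
    (hQ : Pair S χ σ σ' C) {e : ZMod 2 →+ M} {p : M →+ Q} {e' : Q' →+ M'} {p' : M' →+ ZMod 2}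
    (hf' : Filt ρ ρ' B σ σ' C e p e' p') (hP : PP S SD j tr σ σ' C) (hQQ : QQ S j tr σ σ' C) :
    PP S SD j tr ρ ρ' B := by
  intro F g hF hg hFg h0
  obtain ⟨X, Y, F₁, g₁, hX, hF₁, hg₁, hFg₁, e1, e2, horth⟩ :=
    liftP H htr hM hQ hf' hP F g hF hg hFg h0
  haveI : FiniteDimensional (ZMod 2) (homs S ⊤) := H.fin
  obtain ⟨c, hc, hcv⟩ := ann (A := (G → G → ZMod 2) × (∀ i, D i → ZMod 2)) (V := homs S ⊤)
    (fun a ω => ph10 j tr a ω.1) (fun a a' v => ph10_add a a' v.1)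
    (fun a v v' => ph10_add' a v.1 v'.1) (sub10 S j ρ hM.act e) (F₁, g₁) (fun v hv => by
      obtain ⟨x, hx, hxv⟩ := orth10 H htr hM hQ hf' hQQ v.1 v.2 hv
      have h1 := horth x hx
      simp only [hxv] at h1
      exact h1)
  obtain ⟨x, z, hx, hc1, hc2⟩ := hc
  have hcC : Coc S ⊤ c.1 := inj_Coc hf'.einj hf'.eqv_e hM.act hM.sm hx hc1
  have hcS : ∀ i, Sm1 (SD i) (c.2 i) := by
    intro i
    refine inj_Sm1 hf'.einj ?_
    simp only [← hc2]
    exact inj_Sm1_map2 (· - ·) (Sm1.comp (H.jsm i) hx)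
      (d0_Z1 (hM.act.comp (j i)) (hM.sm.comp (H.jsm i)) (z i)).1
  have hcF : ∀ i a b, c.1 (j i a) (j i b) = c.2 i a + c.2 i b + c.2 i (a * b) := by
    intro i a b
    have h2 : e (c.1 (j i a) (j i b)) = e (c.2 i a + c.2 i b - c.2 i (a * b)) := by
      have h5 : ρ (j i a) (e (c.2 i b)) = e (c.2 i b) := hf'.eqv_e _ _
      rw [map_sub, map_add, ← h5, ← hc1, ← hc2, ← hc2, ← hc2]
      simp only [d1, d0, map_mul, hM.act.sub, hM.act.mul]
      abel
    rw [hf'.einj h2, sub_eq_add_neg, ZMod.neg_eq_self_mod_two]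
  have hz2 : ∀ a : ZMod 2, -a = a := fun a => ZMod.neg_eq_self_mod_two a
  obtain ⟨X₁, hX₁, hFX, hgX⟩ := baseP H htr (fun a b => F₁ a b + c.1 a b)
    (fun i d => g₁ i d + c.2 i d) (inj_coc_add hF₁ hcC)
    (fun i => inj_Sm1_map2 (· + ·) (hg₁ i) (hcS i)) (fun i a b => by
      simp only [hFg₁, hcF]
      ring) (fun ω hω => by
      have h3 := hcv ⟨ω, hω⟩
      have h4 : ph10 j tr ((F₁, g₁) + c) ω = ph10 j tr (F₁, g₁) ω + ph10 j tr c ω := ph10_add _ _ _
      have h5 : ph10 j tr (c + c) ω = ph10 j tr c ω + ph10 j tr c ω := ph10_add _ _ _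
      have h6 : c + c = 0 := by
        refine Prod.ext ?_ ?_
        · funext a b
          simp only [Prod.fst_add, Pi.add_apply, CharTwo.add_self_eq_zero]
          rfl
        · funext i a
          simp only [Prod.snd_add, Pi.add_apply, CharTwo.add_self_eq_zero]
          rfl
      have h7 : ph10 j tr (0 : (G → G → ZMod 2) × (∀ i, D i → ZMod 2)) ω = 0 := by
        have h8 : ph10 j tr ((0 : (G → G → ZMod 2) × (∀ i, D i → ZMod 2)) + 0) ω = _ :=
          ph10_add _ _ _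
        rw [add_zero] at h8
        exact left_eq_add.1 h8
      rw [h6, h7] at h5
      change ph10 j tr ((F₁, g₁) + c) ω = 0
      rw [h4, ← h3, ← h5])
  refine ⟨fun a => X a + x a + e (X₁ a), fun i => Y i + z i,
    inj_Sm1_map2 (· + ·) (inj_Sm1_map2 (· + ·) hX hx) (inj_Sm1_map e hX₁), ?_, ?_⟩
  · funext a b
    have h1 : F₁ a b = c.1 a b + (X₁ a + X₁ b - X₁ (a * b)) := by
      have h2 := hFX a b
      rw [sub_eq_add_neg, hz2, ← h2, add_comm (F₁ a b), ← add_assoc, CharTwo.add_self_eq_zero,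
        zero_add]
    rw [e1, h1, map_add, ← hc1, map_sub, map_add]
    simp only [d1, hM.act.add, hf'.eqv_e]
    abel
  · intro i d
    have h1 : g₁ i d = c.2 i d + X₁ (j i d) := by
      rw [← hgX i d, add_comm (g₁ i d), ← add_assoc, CharTwo.add_self_eq_zero, zero_add]
    rw [e2, h1, map_add, ← hc2]
    simp only [d0, hM.act.add]
    abel

end Pool.Agent.Work.MP_787500_nt.GP
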