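import Mathlib
import Pool.Agent.Work.MP_787500_nt.GP.T06_Ann
import Pool.Agent.Work.MP_787500_nt.GP.T07_Base
import Pool.Agent.Work.MP_787500_nt.GP.T11_ClaimQ
import Pool.Agent.Work.MP_787500_nt.GP.T09b_Inj

/-!
# Module T12_STEPQ (size M-L): the step for `QQ`

Take `X, F₁` from `liftQ`. It suffices to find `x : G → M'` smooth with `d1 ρ' x = e F_x` and
`X₁ : G → ZMod 2` smooth with `F₁ = F_x + d X₁`: then `F = d1 (X + x + e X₁)`.
Let `A` be the group of functions `F₁ : G → G → ZMod 2`, `V` the `ZMod 2`-vector space of the pairs `(ω, z)`,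
`ω ∈ homs S ⊤`, `ω|D i = 0`, `z : I → ZMod 2` (finite dimensional, a submodule of
`homs S ⊤ × (I → ZMod 2)`), `φ F₁ (ω, z) = tr (hf (ω a * F₁ b c), hf (z i * F₁|))`. `C₀ ≤ A`: the sum of
the subgroup of the `F_x` (`x : G → M'`, `Sm1 S x`, `d1 ρ' x = e F_x`) and of the `d X₁`. By `ann` there is
`c ∈ C₀` with `φ c = φ F₁`; then `F₁ - c` satisfies the hypotheses of `baseQ` (`ω = 0`), so
`F₁ - c = d X₁`.
Hypothesis of `ann`: let `(ω, z)` be orthogonal to `C₀`. Lift to `M` by a section `s'` of `p'`: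
`y = s' ω`, `ζ = s' z`; `d1 ρ y = e' F'`, `y| - d0 ζ = e' g'` (their images in `ZMod 2` are 0; trivial
action), with `F' ∈ Z2 S σ`, `g' i` smooth and `d1 (g' i) = F'|` (`e'` injective). For every
`x' ∈ Z1 S σ'` lift to `x = s x'` in `M'`: `d1 ρ' x = e F_x`, so by `claimQ`
`0 = tr (cup21 σ' C F' x', cup11 C g' x'|)`. By `PP` for `(Q, Q')`: `F' = d1 σ X'`,
`g' = X'| - d0 Y'`. Then `(y - e' X', ζ - e' Y')` satisfies `y - e' X' ∈ Z1 S ρ` and
`(y - e' X')|D i = d0 (ζ i - e' (Y' i))`, and its image under `p'` is `(ω, z)`. By `liftQ` (last clause)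
`φ F₁ (ω, z) = 0`.
-/

set_option autoImplicit false
set_option linter.unusedSectionVars false

namespace Pool.Agent.Work.MP_787500_nt.GP

open Pool.Agent.Work.MP_787500_nt.PA (TwoSys Sm1 Sm2 homs Coc Cob IsChar)

variable {G : Type*} [Group G] {S : TwoSys G} {I : Type*} [Fintype I] {D : I → Type*}
  [∀ i, Group (D i)] {SD : ∀ i, TwoSys (D i)} {j : ∀ i, D i →* G} {χ : G → ℤ_[2]}
  {inv : ∀ i, (D i → D i → A0) → A0}
  {tr : ((G → G → G → A0) × (∀ i, D i → D i → A0)) →+ A0}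
  {M M' Q Q' : Type*} [AddCommGroup M] [AddCommGroup M'] [AddCommGroup Q] [AddCommGroup Q']
  {ρ : G → M → M} {ρ' : G → M' → M'} {B : M →+ M' →+ A0}
  {σ : G → Q → Q} {σ' : G → Q' → Q'} {C : Q →+ Q' →+ A0}

/-- the pairing of functions with pairs -/
private noncomputable def ph12 (j : ∀ i, D i →* G)
    (tr : ((G → G → G → A0) × (∀ i, D i → D i → A0)) →+ A0)
    (f : G → G → ZMod 2) (v : (G → ZMod 2) × (I → ZMod 2)) : A0 :=
  tr (fun x y z => hf (v.1 x * f y z), fun i x y => hf (v.2 i * f (j i x) (j i y)))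

private theorem ph12_add (a a' : G → G → ZMod 2) (v : (G → ZMod 2) × (I → ZMod 2)) :
    ph12 j tr (a + a') v = ph12 j tr a v + ph12 j tr a' v := by
  unfold ph12
  rw [← map_add]
  congr 1
  refine Prod.ext ?_ ?_
  · funext x y z
    simp only [Prod.mk_add_mk, Pi.add_apply, mul_add, hf_add]
  · funext i x y
    simp only [Prod.mk_add_mk, Pi.add_apply, mul_add, hf_add]

private theorem ph12_add' (a : G → G → ZMod 2) (v v' : (G → ZMod 2) × (I → ZMod 2)) :
    ph12 j tr a (v + v') = ph12 j tr a v + ph12 j tr a v' := by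
  unfold ph12
  rw [← map_add]
  congr 1
  refine Prod.ext ?_ ?_
  · funext x y z
    simp only [Prod.mk_add_mk, Prod.fst_add, Pi.add_apply, add_mul, hf_add]
  · funext i x y
    simp only [Prod.mk_add_mk, Prod.snd_add, Pi.add_apply, add_mul, hf_add]

/-- the subgroup of functions that come from cochains of `M'` -/
private def sub12 (S : TwoSys G) (ρ' : G → M' → M') (hρ : IsAct ρ') (e : ZMod 2 →+ M') :
    AddSubgroup (G → G → ZMod 2) where
  carrier := {c | ∃ x : G → M', Sm1 S x ∧ ∀ a b, d1 ρ' x a b = e (c a b)}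
  add_mem' := by
    rintro c c' ⟨x, hx, h1⟩ ⟨x', hx', h1'⟩
    refine ⟨fun a => x a + x' a, inj_Sm1_map2 (· + ·) hx hx', ?_⟩
    intro a b
    simp only [Pi.add_apply, map_add, ← h1, ← h1', d1, hρ.add]
    abel
  zero_mem' := by
    refine ⟨fun _ => 0, ?_, ?_⟩
    · obtain ⟨W, hW⟩ := S.ex
      exact ⟨W, hW, fun _ _ _ => rfl⟩
    · intro a b
      simp [d1, hρ.zero]
  neg_mem' := by
    rintro c ⟨x, hx, h1⟩
    refine ⟨fun a => -x a, inj_Sm1_map Neg.neg hx, ?_⟩
    intro a b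
    simp only [Pi.neg_apply, map_neg, ← h1, d1, hρ.neg]
    abel

/-- the space of pairs -/
private def V12 (S : TwoSys G) (j : ∀ i, D i →* G) :
    Submodule (ZMod 2) (homs S ⊤ × (I → ZMod 2)) where
  carrier := {v | ∀ i d, v.1.1 (j i d) = 0}
  add_mem' := by
    intro v v' h h' i d
    have h1 := h i d
    have h2 := h' i d
    change v.1.1 (j i d) + v'.1.1 (j i d) = 0
    rw [h1, h2, add_zero]
  zero_mem' := fun _ _ => rfl
  smul_mem' := by
    intro c v h i d
    change c • v.1.1 (j i d) = 0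
    rw [h i d, smul_zero]

private theorem orth12 (H : GlobH S SD j χ inv) (htr : IsTr S SD j χ inv tr)
    (hM : Pair S χ ρ ρ' B) (hQ : Pair S χ σ σ' C) {e : ZMod 2 →+ M'} {p : M' →+ Q'}
    {e' : Q →+ M} {p' : M →+ ZMod 2}
    (hf' : Filt ρ' ρ B.flip σ' σ C.flip e p e' p') (hP : PP S SD j tr σ σ' C)
    (ω : G → ZMod 2) (hω : ω ∈ homs S ⊤) (hω0 : ∀ i d, ω (j i d) = 0) (z : I → ZMod 2)
    (h : ∀ c ∈ sub12 S ρ' hM.act' e, ph12 j tr c (ω, z) = 0) :
    ∃ (x : G → M) (ζ : I → M), Z1 S ρ x ∧ (∀ i d, x (j i d) = d0 (fun d => ρ (j i d)) (ζ i) d) ∧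
      (∀ a, p' (x a) = ω a) ∧ ∀ i, p' (ζ i) = z i := by
  obtain ⟨hω1, -, hω2⟩ := hω
  obtain ⟨s', hs'⟩ := hf'.psurj'.hasRightInverse
  obtain ⟨s, hs⟩ := hf'.psurj.hasRightInverse
  unfold Function.RightInverse Function.LeftInverse at hs hs'
  have hy : Sm1 S (fun a => s' (ω a)) := inj_Sm1_map s' hω1
  have h1 : ∀ a b, ∃ t, d1 ρ (fun a => s' (ω a)) a b = e' t := by
    intro a b
    refine hf'.ker' _ ?_
    simp only [d1, map_add, map_sub, hf'.eqv_p', hs', hω2 a (Subgroup.mem_top a) b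
      (Subgroup.mem_top b), sub_self]
  choose F' hF' using h1
  have h1' : ∀ i d, ∃ t, s' (ω (j i d)) - d0 (fun d => ρ (j i d)) (s' (z i)) d = e' t := by
    intro i d
    refine hf'.ker' _ ?_
    simp only [d0, map_sub, hf'.eqv_p', hs', hω0, sub_self]
  choose g' hg' using h1'
  have hZ : Z2 S σ F' := inj_Z2 hf'.einj' hf'.eqv_e' hM.act hM.sm hy hF'
  have hgS : ∀ i, Sm1 (SD i) (g' i) := by
    intro i
    refine inj_Sm1 hf'.einj' ?_
    simp only [← hg']
    exact inj_Sm1_map2 (· - ·) (Sm1.comp (H.jsm i) hy)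
      (d0_Z1 (hM.act.comp (j i)) (hM.sm.comp (H.jsm i)) (s' (z i))).1
  have hgF : ∀ i a b, d1 (fun d => σ (j i d)) (g' i) a b = F' (j i a) (j i b) := by
    intro i a b
    refine hf'.einj' ?_
    simp only [d1, map_sub, map_add, ← hf'.eqv_e', ← hg', ← hF']
    simp only [d0, map_mul, hM.act.sub, hM.act.mul]
    abel
  obtain ⟨X', Y', hX', hFX, hgX⟩ := hP F' g' hZ hgS hgF (fun x' hx' => by
    have hx : Sm1 S (fun a => s (x' a)) := inj_Sm1_map s hx'.1
    have h2 : ∀ a b, ∃ t, d1 ρ' (fun a => s (x' a)) a b = e t := by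
      intro a b
      refine hf'.ker _ ?_
      simp only [d1, map_add, map_sub, hf'.eqv_p, hs, hx'.2 a b, sub_self]
    choose Fx hFx using h2
    have h4 := h Fx ⟨fun a => s (x' a), hx, hFx⟩
    have h5 := claimQ H htr hM hQ hf' hy (ζ := fun i => s' (z i)) hx hF' hg' hFx
    simp only [hs'] at h5
    have h6 : ph12 j tr Fx (ω, z) = tr (fun a b c => hf (ω a * Fx b c),
        fun i a b => hf (z i * Fx (j i a) (j i b))) := rfl
    rw [← h6, h4] at h5
    simp only [hs] at h5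
    exact h5.symm)
  refine ⟨fun a => s' (ω a) - e' (X' a), fun i => s' (z i) - e' (Y' i),
    ⟨inj_Sm1_map2 (· - ·) hy (inj_Sm1_map e' hX'), ?_⟩, ?_, ?_, ?_⟩
  · intro a b
    have h2 := hF' a b
    rw [hFX] at h2
    simp only [d1, map_sub, map_add, ← hf'.eqv_e'] at h2
    simp only [hM.act.sub]
    rw [← sub_eq_zero] at h2 ⊢
    rw [← neg_eq_zero, ← h2]
    abel
  · intro i d
    have h2 := hg' i d
    rw [hgX i d] at h2
    simp only [d0, map_sub, ← hf'.eqv_e'] at h2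
    simp only [d0, hM.act.sub]
    rw [← sub_eq_zero] at h2 ⊢
    rw [← h2]
    abel
  · intro a
    simp only [map_sub, hs', hf'.pe', sub_zero]
  · intro i
    simp only [map_sub, hs', hf'.pe', sub_zero]

theorem stepQ (H : GlobH S SD j χ inv) (htr : IsTr S SD j χ inv tr) (hM : Pair S χ ρ ρ' B)
    (hQ : Pair S χ σ σ' C) {e : ZMod 2 →+ M'} {p : M' →+ Q'} {e' : Q →+ M} {p' : M →+ ZMod 2}
    (hf' : Filt ρ' ρ B.flip σ' σ C.flip e p e' p') (hP : PP S SD j tr σ σ' C)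
    (hQQ : QQ S j tr σ σ' C) : QQ S j tr ρ ρ' B := by
  intro F hF h0
  obtain ⟨X, F₁, hX, hF₁, e1, horth⟩ := liftQ H htr hM hQ hf' hQQ F hF h0
  haveI : FiniteDimensional (ZMod 2) (homs S ⊤) := H.fin
  obtain ⟨c, hc, hcv⟩ := ann (A := G → G → ZMod 2) (V := V12 S j)
    (fun a v => ph12 j tr a (v.1.1.1, v.1.2)) (fun a a' v => ph12_add a a' _)
    (fun a v v' => ph12_add' a (v.1.1.1, v.1.2) (v'.1.1.1, v'.1.2)) (sub12 S ρ' hM.act' e) F₁
    (fun v hv => by
      obtain ⟨x, ζ, hx, hxz, hxv, hzv⟩ := orth12 H htr hM hQ hf' hP v.1.1.1 v.1.1.2 v.2 v.1.2 hv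
      have h1 := horth x ζ hx hxz
      simp only [hxv, hzv] at h1
      exact h1)
  obtain ⟨x, hx, hc1⟩ := hc
  have hcC : Coc S ⊤ c := inj_Coc hf'.einj hf'.eqv_e hM.act' hM.sm' hx hc1
  have hz2 : ∀ a : ZMod 2, -a = a := fun a => ZMod.neg_eq_self_mod_two a
  obtain ⟨X₁, hX₁, hFX⟩ := baseQ H htr (fun a b => F₁ a b + c a b) (inj_coc_add hF₁ hcC) (fun z => by
      have h3 := hcv ⟨(0, z), fun i d => rfl⟩
      have h4 : ph12 j tr (F₁ + c) (0, z) = ph12 j tr F₁ (0, z) + ph12 j tr c (0, z) :=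
        ph12_add _ _ _
      have h5 : ph12 j tr (c + c) (0, z) = ph12 j tr c (0, z) + ph12 j tr c (0, z) :=
        ph12_add _ _ _
      have h6 : c + c = 0 := by
        funext a b
        simp only [Pi.add_apply, CharTwo.add_self_eq_zero]
        rfl
      have h7 : ph12 j tr (0 : G → G → ZMod 2) (0, z) = 0 := by
        have h8 : ph12 j tr ((0 : G → G → ZMod 2) + 0) (0, z) = _ := ph12_add _ _ _
        rw [add_zero] at h8
        exact left_eq_add.1 h8
      rw [h6, h7] at h5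
      have h9 : ph12 j tr (F₁ + c) (0, z) =
          tr (fun _ _ _ => 0, fun i a b => hf (z i * (F₁ (j i a) (j i b) + c (j i a) (j i b)))) := by
        unfold ph12
        congr 1
        refine Prod.ext ?_ rfl
        funext a b d
        show hf ((0 : G → ZMod 2) a * _) = 0
        rw [Pi.zero_apply, zero_mul, hf_zero]
      rw [← h9, h4]
      change _ = ph12 j tr F₁ (0, z) at h3
      change ph12 j tr c (0, z) = _ at h3
      rw [← h3, ← h5])
  refine ⟨fun a => X a + x a + e (X₁ a),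
    inj_Sm1_map2 (· + ·) (inj_Sm1_map2 (· + ·) hX hx) (inj_Sm1_map e hX₁), ?_⟩
  funext a b
  have h1 : F₁ a b = c a b + (X₁ a + X₁ b - X₁ (a * b)) := by
    have h2 : F₁ a b + c a b = X₁ a + X₁ b + X₁ (a * b) :=
      hFX a (Subgroup.mem_top a) b (Subgroup.mem_top b)
    rw [sub_eq_add_neg, hz2, ← h2, add_comm (F₁ a b), ← add_assoc, CharTwo.add_self_eq_zero,
      zero_add]
  rw [e1, h1, map_add, ← hc1, map_sub, map_add]
  simp only [d1, hM.act'.add, hf'.eqv_e]
  abel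

end Pool.Agent.Work.MP_787500_nt.GP
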