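import Mathlib
import Pool.Agent.Work.MP_787500_nt.GP.T05_Trace
import Pool.Agent.Work.MP_787500_nt.GP.T10_StepP
import Pool.Agent.Work.MP_787500_nt.GP.T12_StepQ
import Pool.Agent.Work.MP_787500_nt.GP.T13_Filt

/-!
# Module T14_MAIN (size S-M): duality for all finite modules

Strong induction on `Nat.card M + Nat.card M'`. If `M` is trivial then `M'` is trivial (`nd'`) and both
statements are clear (all functions are equal). Otherwise `M'` is nontrivial as well (`nd`), and
`stepP` with `exists_filt h` (smaller pair `(Q, Q')`) gives `PP`; `stepQ` with `exists_filt h.flip`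
(`Pair.flip`; the pair `(Q', Q)` with its flipped form is a pair for the flipped data, use
`AddMonoidHom.flip_flip`/`Pair.flip` again to turn it into the shape needed) gives `QQ`.
-/

set_option autoImplicit false
set_option linter.unusedSectionVars false

namespace Pool.Agent.Work.MP_787500_nt.GP

open Pool.Agent.Work.MP_787500_nt.PA (TwoSys Sm1 Sm2 homs Coc Cob IsChar)

universe u v

private theorem t14_aux {G : Type*} [Group G] {S : TwoSys G} {I : Type*} [Fintype I] {D : I → Type*}
    [∀ i, Group (D i)] {SD : ∀ i, TwoSys (D i)} {j : ∀ i, D i →* G} {χ : G → ℤ_[2]}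
    {inv : ∀ i, (D i → D i → A0) → A0}
    {tr : ((G → G → G → A0) × (∀ i, D i → D i → A0)) →+ A0}
    (H : GlobH S SD j χ inv) (htr : IsTr S SD j χ inv tr) (n : ℕ) :
    ∀ (M : Type u) (M' : Type v) [AddCommGroup M] [AddCommGroup M'] [Finite M] [Finite M']
    (ρ : G → M → M) (ρ' : G → M' → M') (B : M →+ M' →+ A0), Pair S χ ρ ρ' B →
    Nat.card M + Nat.card M' = n → PP S SD j tr ρ ρ' B ∧ QQ S j tr ρ ρ' B := by
  induction n using Nat.strong_induction_on with
  | _ n ih =>
  intro M M' _ _ _ _ ρ ρ' B h hn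
  rcases subsingleton_or_nontrivial M with hs | hne
  · have hs' : Subsingleton M' := by
      refine ⟨fun a b => ?_⟩
      have : ∀ m' : M', m' = 0 := fun m' => h.nd' m' fun m => by
        rw [Subsingleton.elim m 0, map_zero, AddMonoidHom.zero_apply]
      rw [this a, this b]
    obtain ⟨W, hW⟩ := S.ex
    constructor
    · intro F g _ _ _ _
      exact ⟨fun _ => 0, fun _ => 0, ⟨W, hW, fun _ _ _ => rfl⟩, by
        funext a b
        exact Subsingleton.elim _ _, fun i d => Subsingleton.elim _ _⟩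
    · intro F _ _
      refine ⟨fun _ => 0, ⟨W, hW, fun _ _ _ => rfl⟩, ?_⟩
      funext a b
      exact Subsingleton.elim _ _
  · have hne' : Nontrivial M' := by
      by_contra hc
      rw [not_nontrivial_iff_subsingleton] at hc
      obtain ⟨m, hm⟩ := exists_ne (0 : M)
      exact hm (h.nd m fun m' => by rw [Subsingleton.elim m' 0, map_zero])
    constructor
    · obtain ⟨Q, _, Q', _, σ, σ', C, e, p, e', p', _, _, hQ, hF, c1, c2⟩ := exists_filt H.char h hne
      obtain ⟨k1, k2⟩ := ih (Nat.card Q + Nat.card Q') (by omega) Q Q' σ σ' C hQ rfl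
      exact stepP H htr h hQ hF k1 k2
    · obtain ⟨Q, _, Q', _, σ, σ', C, e, p, e', p', _, _, hQ, hF, c1, c2⟩ :=
        exists_filt H.char h.flip hne'
      obtain ⟨k1, k2⟩ := ih (Nat.card Q' + Nat.card Q) (by omega) Q' Q σ' σ C.flip hQ.flip rfl
      exact stepQ H htr h hQ.flip hF k1 k2

theorem duality {G : Type*} [Group G] {S : TwoSys G} {I : Type*} [Fintype I] {D : I → Type*}
    [∀ i, Group (D i)] {SD : ∀ i, TwoSys (D i)} {j : ∀ i, D i →* G} {χ : G → ℤ_[2]}
    {inv : ∀ i, (D i → D i → A0) → A0}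
    {tr : ((G → G → G → A0) × (∀ i, D i → D i → A0)) →+ A0}
    (H : GlobH S SD j χ inv) (htr : IsTr S SD j χ inv tr)
    {M : Type u} {M' : Type v} [AddCommGroup M] [AddCommGroup M'] [Finite M] [Finite M']
    {ρ : G → M → M} {ρ' : G → M' → M'} {B : M →+ M' →+ A0} (h : Pair S χ ρ ρ' B) :
    PP S SD j tr ρ ρ' B ∧ QQ S j tr ρ ρ' B :=
  t14_aux H htr _ M M' ρ ρ' B h rfl

end Pool.Agent.Work.MP_787500_nt.GP
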