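import Mathlib
import Pool.Agent.Work.MP_787500_nt.GP.T14_Main

/-!
# Module T15_MID (size S-M): the middle exactness

`tr` from `exists_tr`, `PP` from `duality`, applied to `F = 0`, `g = c`: `d1 (c i) = 0` since `c i` is a
cocycle; for `x ∈ Z1 S ρ'`: `cup21 ρ' B 0 x = 0 = d2 (tw χ) 0` and `IsTr` with `b = 0` says that the trace is
`∑ i, inv i (c i ∪ x|)` (`cup11_Z2` for the restricted pair, `Pair.comp`), which is 0 by hypothesis. So
`0 = d1 ρ X`, that is `X ∈ Z1 S ρ`, and `c i = X|D i - d0 (Y i)`.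
-/

set_option autoImplicit false
set_option linter.unusedSectionVars false

namespace Pool.Agent.Work.MP_787500_nt.GP

open Pool.Agent.Work.MP_787500_nt.PA (TwoSys Sm1 Sm2 homs Coc Cob IsChar)

variable {G : Type*} [Group G] {S : TwoSys G} {I : Type*} [Fintype I] {D : I → Type*}
  [∀ i, Group (D i)] {SD : ∀ i, TwoSys (D i)} {j : ∀ i, D i →* G} {χ : G → ℤ_[2]}
  {inv : ∀ i, (D i → D i → A0) → A0}
  {M M' : Type*} [AddCommGroup M] [AddCommGroup M'] [Finite M] [Finite M']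
  {ρ : G → M → M} {ρ' : G → M' → M'} {B : M →+ M' →+ A0}

theorem middle (H : GlobH S SD j χ inv) (h : Pair S χ ρ ρ' B) (c : ∀ i, D i → M)
    (hc : ∀ i, Z1 (SD i) (fun d => ρ (j i d)) (c i))
    (h0 : ∀ x, Z1 S ρ' x →
      ∑ i, inv i (cup11 (fun d => ρ' (j i d)) B (c i) (fun d => x (j i d))) = 0) :
    ∃ (X : G → M) (Y : I → M), Z1 S ρ X ∧
      ∀ i d, c i d = X (j i d) - d0 (fun d => ρ (j i d)) (Y i) d := by
  obtain ⟨tr, htr⟩ := exists_tr H
  obtain ⟨W₀, hW₀⟩ := S.ex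
  have sm0 : Sm2 S (fun _ _ : G => (0 : M)) := ⟨W₀, hW₀, fun _ _ _ _ _ _ => rfl⟩
  have sm0' : Sm2 S (fun _ _ : G => (0 : A0)) := ⟨W₀, hW₀, fun _ _ _ _ _ _ => rfl⟩
  have key := (duality H htr h).1 (fun _ _ => 0) c ⟨sm0, fun a b c => by
      simp [d2, h.act.zero]⟩ (fun i => (hc i).1) (fun i a b => by
      simp only [d1, (hc i).2 a b, sub_self]) (fun x hx => by
      have e : cup21 ρ' B (fun _ _ => (0 : M)) x = d2 (tw χ) (fun _ _ : G => (0 : A0)) := by
        funext a b c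
        simp [cup21, d2, tw]
      have hz : ∀ i, Z2 (SD i) (tw fun d => χ (j i d))
          (fun u v => cup11 (fun d => ρ' (j i d)) B (c i) (fun d => x (j i d)) u v -
            (fun _ _ : G => (0 : A0)) (j i u) (j i v)) := by
        intro i
        have := cup11_Z2 (h.comp (H.jsm i)) (hc i) (hx.comp (H.jsm i))
        simpa only [sub_zero] using this
      rw [e, htr (fun _ _ => 0) (fun i => cup11 (fun d => ρ' (j i d)) B (c i) (fun d => x (j i d)))
        sm0' hz]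
      simpa only [sub_zero] using h0 x hx)
  obtain ⟨X, Y, hX, h1, h2⟩ := key
  refine ⟨X, Y, ⟨hX, fun a b => ?_⟩, h2⟩
  have := congrFun (congrFun h1 a) b
  simp only [d1] at this
  exact (sub_eq_zero.1 this.symm).symm

end Pool.Agent.Work.MP_787500_nt.GP
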