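import Mathlib
import Pool.Agent.Work.MP_787500_nt.GP.T03_Coch

/-!
# Module T16_DOUBLE (size S-M): a local group, doubled, satisfies the global hypotheses

`I = Bool`, both local groups are `D` itself with `j = id`, the invariants are `inv` and `-inv`.
* `loc`: for `-inv` all clauses of `LocH` are clear from those of `inv`.
* `inj`, `sha`: take `i = false`. `recip`: `inv f - inv f = 0`.
* `mid`: `ψ false`, `ψ true`; the hypothesis says `inv (hf (ψ false ∪ ω)) - inv (hf (ψ true ∪ ω)) = 0`, so
  `inv (hf ((ψ false + ψ true) ∪ ω)) = 0` for all `ω` (`LocH.add`, `hf_add`, `hf_neg`; note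
  `hf (ψ ∪ ω) ∈ Z2 SD (tw χ)` for homomorphisms `ψ`, `ω`; `inv (-f) = -inv f` on cocycles); by `nondeg`
  `ψ false + ψ true = 0`, so `ψ false = ψ true =: ω₀`.
-/

set_option autoImplicit false
set_option linter.unusedSectionVars false

namespace Pool.Agent.Work.MP_787500_nt.GP

open Pool.Agent.Work.MP_787500_nt.PA (TwoSys Sm1 Sm2 homs Coc Cob IsChar)

private theorem t16_hf_sub (a b : ZMod 2) : hf (a - b) = hf a - hf b := by
  rw [sub_eq_add_neg, ZMod.neg_eq_self_mod_two, hf_add, sub_eq_add_neg, hf_neg]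

private theorem t16_cup_Z2 {D : Type*} [Group D] {SD : TwoSys D} {χ : D → ℤ_[2]}
    (hχ : IsChar SD χ) {ψ ω : D → ZMod 2} (hψ : ψ ∈ homs SD ⊤) (hω : ω ∈ homs SD ⊤) :
    Z2 SD (tw χ) (fun a b => hf (ψ a * ω b)) := by
  obtain ⟨h1, -, h3⟩ := hψ
  obtain ⟨k1, -, k3⟩ := hω
  refine ⟨sm2_pair h1 k1 (fun x y => hf (x * y)), fun a b c => ?_⟩
  show χ a • hf (ψ b * ω c) - hf (ψ (a * b) * ω c) + hf (ψ a * ω (b * c)) - hf (ψ a * ω b) = 0
  rw [smul_hf (hχ.odd a), ← t16_hf_sub, ← hf_add, ← t16_hf_sub,
    h3 a (Subgroup.mem_top a) b (Subgroup.mem_top b),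
    k3 b (Subgroup.mem_top b) c (Subgroup.mem_top c)]
  have : ψ b * ω c - (ψ a + ψ b) * ω c + ψ a * (ω b + ω c) - ψ a * ω b = 0 := by ring
  rw [this, hf_zero]

private theorem t16_neg {D : Type*} [Group D] {SD : TwoSys D} {χ : D → ℤ_[2]}
    {inv : (D → D → A0) → A0} (L : LocH SD χ inv) : LocH SD χ (fun f => -inv f) where
  char := L.char
  add f f' h h' := by
    show -inv _ = -inv f + -inv f'
    rw [L.add f f' h h', neg_add]
  cob z hz := by
    show -inv _ = 0
    rw [L.cob z hz, neg_zero]
  fin := L.fin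
  nondeg ψ hψ h := L.nondeg ψ hψ fun φ hφ => neg_eq_zero.1 (h φ hφ)
  one f hf h := L.one f hf (neg_eq_zero.1 h)

theorem globH_double {D : Type*} [Group D] {SD : TwoSys D} {χ : D → ℤ_[2]}
    {inv : (D → D → A0) → A0} (L : LocH SD χ inv) :
    GlobH SD (fun _ : Bool => SD) (fun _ : Bool => MonoidHom.id D) χ
      (fun i f => if i then -inv f else inv f) := by
  refine ⟨L.char, fun _ W hW => ⟨W, hW, fun w hw => hw⟩, ?_, L.fin, ?_, ?_, ?_, ?_⟩
  · intro i
    cases i
    · simpa using L
    · simpa using t16_neg L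
  · intro ω _ h
    funext d
    exact h false d
  · intro f _ h
    exact h false
  · intro f _
    rw [Fintype.sum_bool]
    simp
  · intro ψ hψ h
    have key : ψ false + ψ true = 0 := by
      refine L.nondeg _ ((homs SD ⊤).add_mem (hψ false) (hψ true)) fun φ hφ => ?_
      have h1 := h φ hφ
      rw [Fintype.sum_bool] at h1
      simp only [if_true, Bool.false_eq_true, if_false, MonoidHom.id_apply] at h1
      have e : (fun a b => hf ((ψ false + ψ true) a * φ b)) =
          fun a b => (fun a b => hf (ψ false a * φ b)) a b + (fun a b => hf (ψ true a * φ b)) a b := by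
        funext a b
        rw [Pi.add_apply, add_mul, hf_add]
      rw [e, L.add _ _ (t16_cup_Z2 L.char (hψ false) hφ) (t16_cup_Z2 L.char (hψ true) hφ)]
      have z0 : inv (fun _ _ => 0) = 0 := by
        have := L.cob (fun _ => 0) (by
          obtain ⟨W, hW⟩ := SD.ex
          exact ⟨W, hW, fun _ _ _ => rfl⟩)
        convert this using 2
        funext a b
        simp [d1, tw]
      have h2 : inv (fun a b => hf (ψ true a * φ b)) + inv (fun a b => hf (ψ true a * φ b)) = 0 := by
        rw [← L.add _ _ (t16_cup_Z2 L.char (hψ true) hφ) (t16_cup_Z2 L.char (hψ true) hφ)]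
        simp only [hf_two]
        exact z0
      have h3 : inv (fun a b => hf (ψ false a * φ b)) = inv (fun a b => hf (ψ true a * φ b)) := by
        rw [neg_add_eq_zero] at h1
        exact h1.symm
      rw [h3, h2]
    refine ⟨ψ false, hψ false, fun i d => ?_⟩
    cases i
    · rfl
    · have := congrFun key d
      rw [Pi.add_apply, Pi.zero_apply] at this
      show ψ false d = ψ true d
      rw [add_eq_zero_iff_eq_neg, ZMod.neg_eq_self_mod_two] at this
      exact this

end Pool.Agent.Work.MP_787500_nt.GP
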