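import Mathlib
import Pool.Agent.Work.MP_787500_nt.GP.T15_Mid
import Pool.Agent.Work.MP_787500_nt.GP.T16_Double

/-!
# Module T17_LOC (size M): local duality

Apply the global results to the doubled local group (`globH_double`).
* `local_one`: `middle` with `c false = x`, `c true = 0`: for `y ∈ Z1 SD ρ'` the sum is
  `inv (x ∪ y) - inv (0 ∪ y) = 0`. So there are `X ∈ Z1 SD ρ`, `Y` with `x = X - d0 (Y false)`,
  `0 = X - d0 (Y true)`: `x = d0 (Y true - Y false)`.
* `local_one'`: the flipped pair and `cup_anti`: `inv (x ∪ y) = -inv (y ∪ x)` (`LocH.add`, `LocH.cob`).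
* `local_two`: `QQ` (from `duality`, `exists_tr`): let `x ∈ Z1 SD ρ`, `z : Bool → M`, `x = d0 (z false)
  = d0 (z true)`. `z₀ = z false - z true` is fixed by `D`. `cup12 ρ' B x F = d2 (cup02 B (z false) F)`
  (`leib02`, `F` a cocycle), so by `IsTr` with `b = cup02 B (z false) F` the trace is
  `inv 0 - inv (cup02 B (z true) F - cup02 B (z false) F) = inv (cup02 B z₀ F) = 0` (`inv 0 = 0`;
  `cup02 B z₀ F ∈ Z2` by `leib02`, `d0 z₀ = 0`).
-/

set_option autoImplicit false
set_option linter.unusedSectionVars false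

namespace Pool.Agent.Work.MP_787500_nt.GP

open Pool.Agent.Work.MP_787500_nt.PA (TwoSys Sm1 Sm2 homs Coc Cob IsChar)

variable {D : Type*} [Group D] {SD : TwoSys D} {χ : D → ℤ_[2]} {inv : (D → D → A0) → A0}
  {M M' : Type*} [AddCommGroup M] [AddCommGroup M'] [Finite M] [Finite M']
  {ρ : D → M → M} {ρ' : D → M' → M'} {B : M →+ M' →+ A0}

theorem inv_anti (L : LocH SD χ inv) (h : Pair SD χ ρ ρ' B) {x : D → M} {y : D → M'}
    (hx : Z1 SD ρ x) (hy : Z1 SD ρ' y) :
    inv (cup11 ρ' B x y) = -inv (cup11 ρ B.flip y x) := by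
  have h1 := L.add _ _ (cup11_Z2 h hx hy) (cup11_Z2 h.flip hy hx)
  have e : (fun a b => cup11 ρ' B x y a b + cup11 ρ B.flip y x a b) =
      d1 (tw χ) (fun g => -B (x g) (y g)) := by
    funext a b
    rw [cup_anti h hx hy a b]
    simp only [d1, tw, smul_neg]
    abel
  rw [e, L.cob] at h1
  · exact eq_neg_of_add_eq_zero_left h1.symm
  · obtain ⟨⟨W, hW, h1⟩, -⟩ := hx
    obtain ⟨⟨W', hW', h1'⟩, -⟩ := hy
    refine ⟨W ⊓ W', SD.inf hW hW', fun g w hw => ?_⟩
    show -(B (x (g * w))) (y (g * w)) = -(B (x g)) (y g)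
    rw [h1 g w hw.1, h1' g w hw.2]

private theorem t17_inv0 (L : LocH SD χ inv) : inv (fun _ _ => 0) = 0 := by
  have := L.cob (fun _ => 0) (by
    obtain ⟨W, hW⟩ := SD.ex
    exact ⟨W, hW, fun _ _ _ => rfl⟩)
  convert this using 2
  funext a b
  simp [d1, tw]

theorem local_one (L : LocH SD χ inv) (h : Pair SD χ ρ ρ' B) {x : D → M} (hx : Z1 SD ρ x)
    (h0 : ∀ y, Z1 SD ρ' y → inv (cup11 ρ' B x y) = 0) : ∃ m, x = d0 ρ m := by
  have hz : Z1 SD ρ (fun _ => (0 : M)) := by
    obtain ⟨W, hW⟩ := SD.ex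
    exact ⟨⟨W, hW, fun _ _ _ => rfl⟩, fun a b => by rw [h.act.zero, add_zero]⟩
  obtain ⟨X, Y, -, hY⟩ := middle (globH_double L) h
    (fun i => if i then fun _ => 0 else x)
    (fun i => by cases i <;> simp only [MonoidHom.id_apply, if_true, Bool.false_eq_true, if_false] <;>
      assumption)
    (fun y hy => by
      rw [Fintype.sum_bool]
      simp only [MonoidHom.id_apply, if_true, Bool.false_eq_true, if_false]
      have e : cup11 (fun d => ρ' d) B (fun _ : D => (0 : M)) (fun d => y d) =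
          fun _ _ => (0 : A0) := by
        funext a b
        simp [cup11]
      rw [e, t17_inv0 L, neg_zero, zero_add]
      exact h0 y hy)
  refine ⟨Y true - Y false, ?_⟩
  funext d
  have h1 := hY false d
  have h2 := hY true d
  simp only [MonoidHom.id_apply, if_true, Bool.false_eq_true, if_false] at h1 h2
  rw [h1, sub_eq_zero.1 h2.symm]
  simp only [d0, h.act.sub]
  abel

theorem local_one' (L : LocH SD χ inv) (h : Pair SD χ ρ ρ' B) {y : D → M'} (hy : Z1 SD ρ' y)
    (h0 : ∀ x, Z1 SD ρ x → inv (cup11 ρ' B x y) = 0) : ∃ m, y = d0 ρ' m := by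
  refine local_one L h.flip hy fun x hx => ?_
  rw [← neg_eq_zero, ← inv_anti L h hx hy]
  exact h0 x hx

theorem local_two (L : LocH SD χ inv) (h : Pair SD χ ρ ρ' B) {F : D → D → M'} (hF : Z2 SD ρ' F)
    (h0 : ∀ z, (∀ d, ρ d z = z) → inv (cup02 B z F) = 0) : B2 SD ρ' F := by
  obtain ⟨tr, htr⟩ := exists_tr (globH_double L)
  refine (duality (globH_double L) htr h).2 F hF fun x z hx hz => ?_
  have hz' : ∀ i d, x d = d0 ρ (z i) d := fun i d => hz i d
  have cz : ∀ w : M, (∀ d, ρ d w = w) → Z2 SD (tw χ) (cup02 B w F) := by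
    intro w hw
    refine ⟨cup02_sm hF.1, fun a b c => ?_⟩
    rw [leib02 h.eqv, hF.2 a b c, map_zero, add_zero]
    have : d0 ρ w = fun _ => 0 := by
      funext d
      simp only [d0, hw d, sub_self]
    rw [this]
    simp [cup12]
  have fx : ∀ d, ρ d (z true - z false) = z true - z false := by
    intro d
    have h1 := hz' true d
    have h2 := hz' false d
    rw [h1] at h2
    simp only [d0] at h2
    rw [h.act.sub]
    rw [sub_eq_sub_iff_sub_eq_sub]
    exact h2
  have e : cup12 ρ' B x F = d2 (tw χ) (cup02 B (z false) F) := by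
    funext a b c
    rw [leib02 h.eqv, hF.2 a b c, map_zero, add_zero]
    have : x = d0 ρ (z false) := funext fun d => hz' false d
    rw [this]
  have e2 : ∀ i, (fun u v => cup02 B (z i) (fun a b => F a b) u v - cup02 B (z false) F u v) =
      cup02 B (z i - z false) F := by
    intro i
    funext u v
    simp only [cup02, map_sub, AddMonoidHom.sub_apply]
  have hcz : ∀ i : Bool, ∀ d, ρ d (z i - z false) = z i - z false := by
    intro i d
    cases i
    · rw [sub_self, h.act.zero]
    · exact fx d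
  have hall : ∀ i, Z2 SD (tw χ)
      (fun u v => cup02 B (z i) (fun a b => F a b) u v - cup02 B (z false) F u v) := by
    intro i
    rw [e2 i]
    exact cz _ (hcz i)
  rw [e]
  refine (htr (cup02 B (z false) F) (fun i => cup02 B (z i) (fun a b => F a b)) (cup02_sm hF.1)
    hall).trans ?_
  rw [Fintype.sum_bool]
  simp only [MonoidHom.id_apply, if_true, Bool.false_eq_true, if_false]
  rw [e2 true, e2 false, h0 _ (hcz true), h0 _ (hcz false)]
  simp

end Pool.Agent.Work.MP_787500_nt.GP
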