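import Mathlib
import Pool.Agent.Work.MP_787500_nt.GP.FDefs

/-!
# Module F03_POW (size M): finite modules over a local ring with finite residue field

`𝔪` the maximal ideal, `q = Nat.card (ResidueField O)`.
* `exists_simple`: a minimal nonzero submodule `N` of the finite module `M` (`IsAtomic`/well-founded:
  finite) is generated by each nonzero element; `𝔪 N = N` is impossible (Nakayama, or: `N` simple, so
  `N ≅ O ⧸ 𝔪`), so `𝔪 N = 0`.
* `card_pow`: induction on `Nat.card M` with `exists_simple`: `a ↦ a • e` induces `O ⧸ 𝔪 ≃ span {e}`, of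
  card `q`; `card M = q * card (M ⧸ span {e})`.
* `exists_fixed`: `M₁ = {m | ∀ a ∈ 𝔪, a • m = 0}` is nonzero by `exists_simple`, stable under `G` (`lin`).
  It is a 2-group, since `2 ∈ 𝔪` (hypothesis `h2`); `G` acts on it through a finite 2-group
  (`sm`, `S.index`), so the number of fixed points is congruent to its order modulo 2
  (`IsPGroup.card_modEq_card_fixedPoints`), so even: there is a nonzero fixed point.
* `card_span`: `Nat.card (span {e}) = q`.
* `isPow_mul`, `evPow_...`: arithmetic of powers of `q ≥ 2`.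
-/

set_option autoImplicit false
set_option linter.unusedSectionVars false

namespace Pool.Agent.Work.MP_787500_nt.GP

open Pool.Agent.Work.MP_787500_nt.PA (TwoSys Sm1 Sm2 homs Coc Cob IsChar)

variable {O : Type*} [CommRing O] [IsLocalRing O] [Finite (IsLocalRing.ResidueField O)]

theorem q_two_le : 2 ≤ Nat.card (IsLocalRing.ResidueField O) :=
  Finite.one_lt_card

theorem exists_simple {M : Type*} [AddCommGroup M] [Module O M] [Finite M] [Nontrivial M] :
    ∃ e : M, e ≠ 0 ∧ ∀ a ∈ IsLocalRing.maximalIdeal O, a • e = 0 := by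
  obtain ⟨N, hN⟩ := IsAtomic.exists_atom (Submodule O M)
  have hle : IsLocalRing.maximalIdeal O • N ≤ N := Submodule.smul_le_right
  have hbot : IsLocalRing.maximalIdeal O • N = ⊥ := by
    rcases hN.le_iff.1 hle with h | h
    · exact h
    · exfalso
      apply hN.1
      refine Submodule.eq_bot_of_le_smul_of_le_jacobson_bot (IsLocalRing.maximalIdeal O) N ?_
        h.ge ?_
      · exact Module.Finite.iff_fg.1 inferInstance
      · exact IsLocalRing.maximalIdeal_le_jacobson _
  obtain ⟨e, he, he0⟩ := N.ne_bot_iff.1 hN.1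
  refine ⟨e, he0, fun a ha => ?_⟩
  have h1 : a • e ∈ IsLocalRing.maximalIdeal O • N := Submodule.smul_mem_smul ha he
  rw [hbot] at h1
  exact (Submodule.mem_bot O).1 h1

theorem card_span {M : Type*} [AddCommGroup M] [Module O M] {e : M} (he : e ≠ 0)
    (hm : ∀ a ∈ IsLocalRing.maximalIdeal O, a • e = 0) :
    Nat.card (Submodule.span O {e}) = Nat.card (IsLocalRing.ResidueField O) := by
  have hker : LinearMap.ker (LinearMap.toSpanSingleton O M e) = IsLocalRing.maximalIdeal O := by
    have hle : IsLocalRing.maximalIdeal O ≤ LinearMap.ker (LinearMap.toSpanSingleton O M e) := by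
      intro a ha
      rw [LinearMap.mem_ker, LinearMap.toSpanSingleton_apply]
      exact hm a ha
    have hne : LinearMap.ker (LinearMap.toSpanSingleton O M e) ≠ ⊤ := by
      intro h
      have h1 : (1 : O) ∈ LinearMap.ker (LinearMap.toSpanSingleton O M e) := by
        rw [h]; trivial
      rw [LinearMap.mem_ker, LinearMap.toSpanSingleton_apply, one_smul] at h1
      exact he h1
    exact ((IsLocalRing.maximalIdeal.isMaximal O).eq_of_le hne hle).symm
  have h1 := Nat.card_congr (LinearMap.quotKerEquivRange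
    (LinearMap.toSpanSingleton O M e)).toEquiv
  rw [hker, LinearMap.range_toSpanSingleton] at h1
  exact h1.symm

private theorem f03_card_pow (n : ℕ) : ∀ (M : Type*) [AddCommGroup M] [Module O M] [Finite M],
    Nat.card M = n → IsPow (Nat.card (IsLocalRing.ResidueField O)) n := by
  induction n using Nat.strong_induction_on with
  | _ n ih =>
    intro M _ _ _ hn
    rcases subsingleton_or_nontrivial M with hs | hs
    · refine ⟨0, ?_⟩
      rw [← hn, pow_zero]
      exact Nat.card_of_subsingleton 0
    · obtain ⟨e, he, hm⟩ := exists_simple (O := O) (M := M)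
      have h1 := Submodule.card_eq_card_quotient_mul_card (Submodule.span O {e})
      rw [card_span he hm] at h1
      have hq := q_two_le (O := O)
      have hfq : Finite (M ⧸ Submodule.span O {e}) :=
        Finite.of_surjective _ (Submodule.mkQ_surjective (Submodule.span O {e}))
      have hpos : 0 < Nat.card (M ⧸ Submodule.span O {e}) := Nat.card_pos
      have hlt : Nat.card (M ⧸ Submodule.span O {e}) < n := by
        rw [← hn, h1]
        nlinarith
      obtain ⟨m, hm'⟩ := ih _ hlt (M ⧸ Submodule.span O {e}) rfl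
      refine ⟨m + 1, ?_⟩
      rw [← hn, h1, hm', pow_succ']

theorem card_pow (M : Type*) [AddCommGroup M] [Module O M] [Finite M] :
    IsPow (Nat.card (IsLocalRing.ResidueField O)) (Nat.card M) :=
  f03_card_pow _ M rfl

theorem exists_fixed {G : Type*} [Group G] {S : TwoSys G} {M : Type*} [AddCommGroup M] [Module O M]
    [Finite M] [Nontrivial M] {ρ : G → M → M} (hact : IsAct ρ)
    (hlin : ∀ g (a : O) m, ρ g (a • m) = a • ρ g m) (hs : Smooth S ρ)
    (h2 : (2 : O) ∈ IsLocalRing.maximalIdeal O) :
    ∃ e : M, e ≠ 0 ∧ (∀ a ∈ IsLocalRing.maximalIdeal O, a • e = 0) ∧ ∀ g, ρ g e = e := by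
  classical
  let M₁ : Submodule O M :=
    { carrier := {m | ∀ a ∈ IsLocalRing.maximalIdeal O, a • m = 0}
      add_mem' := fun {x y} hx hy a ha => by rw [smul_add, hx a ha, hy a ha, add_zero]
      zero_mem' := fun a _ => smul_zero a
      smul_mem' := fun c x hx a ha => by rw [smul_comm, hx a ha, smul_zero] }
  have hM₁ : ∀ m, m ∈ M₁ ↔ ∀ a ∈ IsLocalRing.maximalIdeal O, a • m = 0 := fun m => Iff.rfl
  obtain ⟨e, he, hem⟩ := exists_simple (O := O) (M := M)
  have heM : e ∈ M₁ := hem
  have hstab : ∀ g, ∀ m ∈ M₁, ρ g m ∈ M₁ := by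
    intro g m hm a ha
    rw [← hlin, hm a ha, hact.zero]
  obtain ⟨W, hW, hWt⟩ := hs
  have hn := S.normal hW
  let f : G →* Equiv.Perm M₁ :=
    { toFun := fun g =>
        { toFun := fun m => ⟨ρ g m, hstab g m m.2⟩
          invFun := fun m => ⟨ρ g⁻¹ m, hstab g⁻¹ m m.2⟩
          left_inv := fun m => Subtype.ext (by
            show ρ g⁻¹ (ρ g m) = m
            rw [← hact.mul, inv_mul_cancel, hact.one])
          right_inv := fun m => Subtype.ext (by
            show ρ g (ρ g⁻¹ m) = m
            rw [← hact.mul, mul_inv_cancel, hact.one]) }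
      map_one' := by
        ext m
        exact hact.one _
      map_mul' := fun g h => by
        ext m
        exact hact.mul _ _ _ }
  have hfW : ∀ w ∈ W, f w = 1 := by
    intro w hw
    ext m
    exact hWt w hw m
  let F : G ⧸ W →* Equiv.Perm M₁ := QuotientGroup.lift W f hfW
  let _ : MulAction (G ⧸ W) M₁ := MulAction.compHom M₁ F
  have hact' : ∀ (g : G) (m : M₁), (((QuotientGroup.mk g : G ⧸ W) • m : M₁) : M) = ρ g m :=
    fun g m => rfl
  have hP : IsPGroup 2 (G ⧸ W) := by
    obtain ⟨k, hk⟩ := S.index hW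
    exact IsPGroup.of_card (n := k) hk
  have h2e : (2 : ℕ) ∣ Nat.card M₁ := by
    have h3 : addOrderOf (⟨e, heM⟩ : M₁) = 2 := by
      apply addOrderOf_eq_prime
      · apply Subtype.ext
        show (2 : ℕ) • e = 0
        have h4 := hem 2 h2
        rw [two_smul] at h4
        rw [two_nsmul]
        exact h4
      · intro h
        exact he (congrArg Subtype.val h)
    rw [← h3]
    exact addOrderOf_dvd_natCard _
  have h0 : (0 : M₁) ∈ MulAction.fixedPoints (G ⧸ W) M₁ := by
    intro g
    obtain ⟨g, rfl⟩ := QuotientGroup.mk_surjective g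
    apply Subtype.ext
    rw [hact']
    exact hact.zero g
  obtain ⟨x, hx, hx0⟩ := hP.exists_fixed_point_of_prime_dvd_card_of_fixed_point M₁ h2e h0
  refine ⟨x, fun h => hx0 (Subtype.ext h.symm), x.2, fun g => ?_⟩
  have h5 := hx (QuotientGroup.mk g : G ⧸ W)
  have h6 := congrArg Subtype.val h5
  exact h6

omit [IsLocalRing O] [Finite (IsLocalRing.ResidueField O)] in
theorem isPow_mul {q a b : ℕ} (ha : IsPow q a) (hb : IsPow q b) : IsPow q (a * b) := by
  obtain ⟨m, rfl⟩ := ha
  obtain ⟨n, rfl⟩ := hb
  exact ⟨m + n, by rw [pow_add]⟩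

/-- cancellation: if `a * b` is an even power of `q ≥ 2` and `b` is an even power and `a` is a power
then `a` is an even power -/
theorem evPow_cancel {q a b : ℕ} (hq : 2 ≤ q) (ha : IsPow q a) (hb : EvPow q b)
    (hab : EvPow q (a * b)) : EvPow q a := by
  obtain ⟨m, rfl⟩ := ha
  obtain ⟨k, rfl⟩ := hb
  obtain ⟨l, hl⟩ := hab
  rw [← pow_add] at hl
  have h1 := Nat.pow_right_injective hq hl
  refine ⟨l - k, ?_⟩
  congr 1
  have h2 : m + 2 * k = 2 * l := h1
  omega

theorem evPow_sq {q a : ℕ} (ha : IsPow q a) : EvPow q (a ^ 2) := by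
  obtain ⟨m, rfl⟩ := ha
  exact ⟨m, by rw [← pow_mul, mul_comm]⟩

theorem evPow_mul {q a b : ℕ} (ha : EvPow q a) (hb : EvPow q b) : EvPow q (a * b) := by
  obtain ⟨m, rfl⟩ := ha
  obtain ⟨n, rfl⟩ := hb
  exact ⟨m + n, by rw [← pow_add]; congr 1; ring⟩

end Pool.Agent.Work.MP_787500_nt.GP
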