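import Mathlib
import Pool.Agent.Work.MP_787500_nt.GP.LDefs
import Pool.Agent.Work.MP_787500_nt.GP.F03_Pow

/-!
# Module L03_RING (size M): the ring of integers of a finite extension of `ℚ_2`

`E` is a finite dimensional normed space over `ℚ_[2]`: proper (`FiniteDimensional.proper ℚ_[2] E`), complete.
* `exists_unif`: the set `{x | ‖x‖ < 1}` is closed (ultrametric: it is an open subgroup) and bounded,
  so compact, and contains `2 ≠ 0` (`‖2‖ = 1/2`, `Gn.norm_p`): the norm attains its maximum on it at some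
  `l`, `‖l‖ ≥ 1/2`.
* `norm_zpow`: for `x ≠ 0` let `k` be the integer with `‖l‖ ^ (k + 1) < ‖x‖ ≤ ‖l‖ ^ k`; then
  `y = x / l ^ k` has `‖l‖ < ‖y‖ ≤ 1`, so `‖y‖ = 1` by `lmax`.
* `isLocal`: units of `OE E` are the elements of norm 1; nonunits are closed under addition.
* `res_finite`: `OE E` is compact, `{x | ‖x‖ < 1}` open: finitely many cosets.
* `card_quot`: `x ↦ l ^ N x` gives `O / l ≃ l ^ N O / l ^ (N + 1) O`; induction.
-/

set_option autoImplicit false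
set_option linter.unusedSectionVars false

namespace Pool.Agent.Work.MP_787500_nt.GP

open Matrix
open Pool.Agent.Work.MP_787500_nt.PA (TwoSys Sm1 Sm2 homs Coc Cob IsChar toE)

variable (E : Type*) [NormedField E] [NormedAlgebra ℚ_[2] E] [FiniteDimensional ℚ_[2] E]

private theorem l03_proper : ProperSpace E := FiniteDimensional.proper ℚ_[2] E

omit [FiniteDimensional ℚ_[2] E] in
private theorem l03_two : ‖(2 : E)‖ = 2⁻¹ := by
  have h := Gn.norm_p 2 E
  push_cast at h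
  exact h

theorem exists_unif : ∃ l : OE E, (l : E) ≠ 0 ∧ ‖(l : E)‖ < 1 ∧
    ∀ x : E, ‖x‖ < 1 → ‖x‖ ≤ ‖(l : E)‖ := by
  have hpr := l03_proper E
  have hu := Gn.ultra 2 E
  have hc : IsCompact (Metric.ball (0 : E) 1) :=
    Metric.isCompact_of_isClosed_isBounded (IsUltrametricDist.isClosed_ball _ _)
      Metric.isBounded_ball
  have h2 : (2 : E) ∈ Metric.ball (0 : E) 1 := by
    rw [mem_ball_zero_iff, l03_two]
    norm_num
  obtain ⟨l, hl, hmax⟩ := hc.exists_isMaxOn ⟨2, h2⟩ (continuous_norm.continuousOn)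
  rw [mem_ball_zero_iff] at hl
  refine ⟨⟨l, hl.le⟩, ?_, hl, fun x hx => hmax (mem_ball_zero_iff.2 hx)⟩
  have h3 : ‖(2 : E)‖ ≤ ‖l‖ := hmax h2
  rw [l03_two] at h3
  intro h4
  have h5 : ‖l‖ = 0 := by
    rw [show l = 0 from h4, norm_zero]
  rw [h5] at h3
  norm_num at h3

variable {E} in
omit [FiniteDimensional ℚ_[2] E] in
private theorem l03_unit (a : OE E) : IsUnit a ↔ ‖(a : E)‖ = 1 := by
  constructor
  · intro h
    obtain ⟨b, hb⟩ := h.exists_right_inv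
    have h1 : ‖(a : E)‖ * ‖(b : E)‖ = 1 := by
      rw [← norm_mul, ← Subring.coe_mul, hb]
      simp
    have ha : ‖(a : E)‖ ≤ 1 := a.2
    have hb' : ‖(b : E)‖ ≤ 1 := b.2
    refine le_antisymm ha ?_
    calc 1 = ‖(a : E)‖ * ‖(b : E)‖ := h1.symm
      _ ≤ ‖(a : E)‖ * 1 := mul_le_mul_of_nonneg_left hb' (norm_nonneg _)
      _ = ‖(a : E)‖ := mul_one _
  · intro h
    have h0 : (a : E) ≠ 0 := by
      intro h0
      rw [h0, norm_zero] at h
      exact zero_ne_one h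
    refine IsUnit.of_mul_eq_one ⟨(a : E)⁻¹, ?_⟩ ?_
    · show ‖(a : E)⁻¹‖ ≤ 1
      rw [norm_inv, h, inv_one]
    · apply Subtype.ext
      exact mul_inv_cancel₀ h0

theorem isLocal : IsLocalRing (OE E) := by
  have hu := Gn.ultra 2 E
  refine IsLocalRing.of_nonunits_add fun a b ha hb => ?_
  rw [mem_nonunits_iff, l03_unit] at ha hb ⊢
  have ha' : ‖(a : E)‖ < 1 := lt_of_le_of_ne a.2 ha
  have hb' : ‖(b : E)‖ < 1 := lt_of_le_of_ne b.2 hb
  refine ne_of_lt ?_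
  exact (IsUltrametricDist.norm_add_le_max (a : E) b).trans_lt (max_lt ha' hb')

variable {E}

theorem mem_maximal [IsLocalRing (OE E)] (a : OE E) :
    a ∈ IsLocalRing.maximalIdeal (OE E) ↔ ‖(a : E)‖ < 1 := by
  rw [IsLocalRing.mem_maximalIdeal, mem_nonunits_iff, l03_unit]
  exact ⟨fun h => lt_of_le_of_ne a.2 h, fun h => h.ne⟩

theorem two_mem [IsLocalRing (OE E)] : (2 : OE E) ∈ IsLocalRing.maximalIdeal (OE E) := by
  rw [mem_maximal]
  have h : (((2 : OE E)) : E) = 2 := rfl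
  rw [h, l03_two]
  norm_num

theorem res_finite [IsLocalRing (OE E)] : Finite (IsLocalRing.ResidueField (OE E)) := by
  have hpr := l03_proper E
  have hc : IsCompact (Metric.closedBall (0 : E) 1) := isCompact_closedBall _ _
  obtain ⟨t, hts, htf, ht⟩ := hc.finite_cover_balls one_pos
  have hf : Finite t := htf
  let f : t → IsLocalRing.ResidueField (OE E) := fun x =>
    IsLocalRing.residue (OE E) ⟨x, by
      have := hts x.2
      rw [mem_closedBall_zero_iff] at this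
      exact this⟩
  refine Finite.of_surjective f fun r => ?_
  obtain ⟨a, rfl⟩ := IsLocalRing.residue_surjective r
  have ha : (a : E) ∈ Metric.closedBall (0 : E) 1 := mem_closedBall_zero_iff.2 a.2
  obtain ⟨x, hx, hax⟩ := Set.mem_iUnion₂.1 (ht ha)
  refine ⟨⟨x, hx⟩, ?_⟩
  rw [← sub_eq_zero, ← map_sub, IsLocalRing.residue_eq_zero_iff, mem_maximal]
  show ‖x - (a : E)‖ < 1
  rw [norm_sub_rev, ← dist_eq_norm]
  exact hax

theorem norm_zpow {l : OE E} (hl : (l : E) ≠ 0) (h1 : ‖(l : E)‖ < 1)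
    (h2 : ∀ x : E, ‖x‖ < 1 → ‖x‖ ≤ ‖(l : E)‖) {x : E} (hx : x ≠ 0) :
    ∃ k : ℤ, ‖x‖ = ‖(l : E)‖ ^ k := by
  have hl0 : 0 < ‖(l : E)‖ := norm_pos_iff.2 hl
  have hx0 : 0 < ‖x‖ := norm_pos_iff.2 hx
  obtain ⟨m, hm1, hm2⟩ := exists_mem_Ioc_zpow hx0 ((one_lt_inv₀ hl0).2 h1)
  refine ⟨-(m + 1), ?_⟩
  rw [_root_.inv_zpow'] at hm1 hm2
  set k : ℤ := -(m + 1) with hk
  have hk1 : -m = k + 1 := by rw [hk]; ring
  rw [hk1] at hm1
  have hlk : 0 < ‖(l : E)‖ ^ k := zpow_pos hl0 k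
  have h3 : ‖x / (l : E) ^ k‖ = ‖x‖ / ‖(l : E)‖ ^ k := by rw [norm_div, _root_.norm_zpow]
  by_contra hne
  have h4 : ‖x‖ < ‖(l : E)‖ ^ k := lt_of_le_of_ne hm2 hne
  have h5 : ‖x / (l : E) ^ k‖ < 1 := by
    rw [h3, div_lt_one hlk]
    exact h4
  have h6 := h2 _ h5
  rw [h3, div_le_iff₀ hlk, ← zpow_one_add₀ hl0.ne', add_comm] at h6
  exact absurd hm1 (not_lt.2 h6)

theorem card_quot [IsLocalRing (OE E)] {l : OE E} (hl : (l : E) ≠ 0) (h1 : ‖(l : E)‖ < 1)
    (h2 : ∀ x : E, ‖x‖ < 1 → ‖x‖ ≤ ‖(l : E)‖) (N : ℕ) :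
    Nat.card (OE E ⧸ Ideal.span {l ^ N}) =
      Nat.card (IsLocalRing.ResidueField (OE E)) ^ N := by
  have hfin := res_finite (E := E)
  have hl0 : 0 < ‖(l : E)‖ := norm_pos_iff.2 hl
  induction N with
  | zero =>
    rw [pow_zero, pow_zero, Ideal.span_singleton_one]
    exact Nat.card_unique
  | succ N ih =>
    have hle : Ideal.span {l ^ (N + 1)} ≤ Ideal.span {l ^ N} := by
      rw [Ideal.span_singleton_le_span_singleton]
      exact pow_dvd_pow _ (Nat.le_succ N)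
    have h3 := Submodule.card_quotient_mul_card_quotient (Ideal.span {l ^ N})
      (Ideal.span {l ^ (N + 1)}) hle
    rw [ih] at h3
    have h4 : Submodule.map (Submodule.mkQ (Ideal.span {l ^ (N + 1)})) (Ideal.span {l ^ N}) =
        Submodule.span (OE E) {Submodule.Quotient.mk (l ^ N)} := by
      rw [Ideal.span, Submodule.map_span, Set.image_singleton]
      rfl
    rw [h4, card_span] at h3
    · rw [← h3, pow_succ']
    · intro h5
      rw [Submodule.Quotient.mk_eq_zero, Ideal.mem_span_singleton] at h5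
      obtain ⟨a, ha⟩ := h5
      have h6 := congrArg (fun z : OE E => ‖(z : E)‖) ha
      simp only [Subring.coe_mul, Subring.coe_pow, norm_mul, norm_pow] at h6
      have ha1 : ‖(a : E)‖ ≤ 1 := a.2
      have h7 : 0 < ‖(l : E)‖ ^ N := pow_pos hl0 N
      rw [pow_succ] at h6
      have h8 : ‖(l : E)‖ ^ N * ‖(l : E)‖ * ‖(a : E)‖ ≤ ‖(l : E)‖ ^ N * ‖(l : E)‖ := by
        refine mul_le_of_le_one_right ?_ ha1
        positivity
      have h9 : ‖(l : E)‖ ^ N * ‖(l : E)‖ < ‖(l : E)‖ ^ N := mul_lt_of_lt_one_right h7 h1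
      linarith
    · intro a ha
      rw [mem_maximal] at ha
      rw [← Submodule.Quotient.mk_smul, Submodule.Quotient.mk_eq_zero, Ideal.mem_span_singleton]
      refine ⟨⟨(a : E) / l, ?_⟩, ?_⟩
      · show ‖(a : E) / l‖ ≤ 1
        rw [norm_div, div_le_one hl0]
        exact h2 _ ha
      · apply Subtype.ext
        simp only [smul_eq_mul, Subring.coe_mul, Subring.coe_pow]
        field_simp
        ring

theorem isPID {l : OE E} (hl : (l : E) ≠ 0) (h1 : ‖(l : E)‖ < 1)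
    (h2 : ∀ x : E, ‖x‖ < 1 → ‖x‖ ≤ ‖(l : E)‖) : IsPrincipalIdealRing (OE E) := by
  classical
  have hl0 : 0 < ‖(l : E)‖ := norm_pos_iff.2 hl
  refine ⟨fun I => ?_⟩
  by_cases hI : I = ⊥
  · rw [hI]
    exact bot_isPrincipal
  have key : ∀ y : OE E, y ≠ 0 → ∃ k : ℕ, ‖(y : E)‖ = ‖(l : E)‖ ^ k := by
    intro y hy
    have hy' : (y : E) ≠ 0 := fun h => hy (Subtype.ext h)
    obtain ⟨k, hk⟩ := norm_zpow hl h1 h2 hy'
    have hk0 : 0 ≤ k := by
      by_contra hk0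
      have hy1 : ‖(y : E)‖ ≤ 1 := y.2
      rw [hk] at hy1
      have h3 : 1 < ‖(l : E)‖ ^ k := one_lt_zpow_of_neg₀ hl0 h1 (not_le.1 hk0)
      linarith
    obtain ⟨n, rfl⟩ := Int.eq_ofNat_of_zero_le hk0
    exact ⟨n, by rw [hk]; exact zpow_natCast _ _⟩
  have hex : ∃ k : ℕ, ∃ x ∈ I, x ≠ 0 ∧ ‖(x : E)‖ = ‖(l : E)‖ ^ k := by
    obtain ⟨x, hx, hx0⟩ := I.ne_bot_iff.1 hI
    obtain ⟨k, hk⟩ := key x hx0
    exact ⟨k, x, hx, hx0, hk⟩
  obtain ⟨x, hx, hx0, hk⟩ := Nat.find_spec hex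
  have hx0' : (x : E) ≠ 0 := fun h => hx0 (Subtype.ext h)
  refine ⟨⟨x, le_antisymm (fun y hy => ?_) ?_⟩⟩
  · rw [Submodule.mem_span_singleton]
    by_cases hy0 : y = 0
    · exact ⟨0, by rw [hy0, zero_smul]⟩
    obtain ⟨j, hj⟩ := key y hy0
    have hjk : Nat.find hex ≤ j := Nat.find_min' hex ⟨y, hy, hy0, hj⟩
    have hle : ‖(y : E)‖ ≤ ‖(x : E)‖ := by
      rw [hj, hk]
      exact pow_le_pow_of_le_one hl0.le h1.le hjk
    refine ⟨⟨(y : E) / x, ?_⟩, ?_⟩
    · show ‖(y : E) / x‖ ≤ 1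
      rw [norm_div, div_le_one (norm_pos_iff.2 hx0')]
      exact hle
    · apply Subtype.ext
      simp only [smul_eq_mul, Subring.coe_mul]
      field_simp
  · rw [Submodule.span_singleton_le_iff_mem]
    exact hx

end Pool.Agent.Work.MP_787500_nt.GP
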