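import Mathlib
import Pool.Agent.Work.MP_787500_nt.GP.L03_Ring
import Pool.Agent.Work.MP_787500_nt.Gn.PairZE

/-!
# Module L05_LAT0 (size M): a small stable lattice

* `rep_bdd`: let `W` be a member with `‖ρ w x - x‖ ≤ ‖x‖` for `w ∈ W`, so `‖ρ w x‖ ≤ ‖x‖` (ultrametric; or
  `≤ 2 ‖x‖`). `G ⧸ W` is finite, `g = r w` with `r` one of finitely many representatives, and each
  `ρ r` is bounded.
* `exists_lat0`: `T₀ = {x | ∀ g, ‖ρ g *ᵥ x‖ ≤ ε}` with `ε > 0` such that `‖bil b x y‖ ≤ 1` whenever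
  `‖x‖, ‖y‖ ≤ ε` (`bil` is bounded: `Gn.pair_bound`). It is a submodule over `OE E` (ultrametric), stable
  (`ρ g (ρ h x) = ρ (g h) x`), contains the ball of radius `ε / C`, is contained in the ball of radius
  `ε` (`g = 1`).
-/

set_option autoImplicit false
set_option linter.unusedSectionVars false

namespace Pool.Agent.Work.MP_787500_nt.GP

open Matrix
open Pool.Agent.Work.MP_787500_nt.PA (TwoSys Sm1 Sm2 homs Coc Cob IsChar toE)

variable {E : Type*} [NormedField E] [NormedAlgebra ℚ_[2] E] [FiniteDimensional ℚ_[2] E] {n : ℕ}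
variable {G : Type*} [Group G] {S : TwoSys G}

/-- a family of matrices which is a representation, close to the identity on small members of `S` -/
structure SmallRep {E : Type*} [NormedField E] {n : ℕ} {G : Type*} [Group G] (S : TwoSys G)
    (ρ : G → Matrix (Fin n) (Fin n) E) : Prop where
  one : ρ 1 = 1
  mul : ∀ s t, ρ (s * t) = ρ s * ρ t
  sm : ∀ ε : ℝ, 0 < ε → ∃ W, S.mem W ∧ ∀ w ∈ W, ∀ x : Fin n → E, ‖ρ w *ᵥ x - x‖ ≤ ε * ‖x‖

private theorem l05_ultra (x y : Fin n → E) {c : ℝ} (hc : 0 ≤ c) (hx : ‖x‖ ≤ c) (hy : ‖y‖ ≤ c) :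
    ‖x + y‖ ≤ c := by
  have hu := Gn.ultra 2 E
  refine (pi_norm_le_iff_of_nonneg hc).2 fun i => ?_
  exact (IsUltrametricDist.norm_add_le_max _ _).trans
    (max_le ((norm_le_pi_norm x i).trans hx) ((norm_le_pi_norm y i).trans hy))

private theorem l05_mat (A : Matrix (Fin n) (Fin n) E) :
    ∃ C : ℝ, 0 ≤ C ∧ ∀ x, ‖A *ᵥ x‖ ≤ C * ‖x‖ := by
  refine ⟨n * ∑ i, ∑ j, ‖A i j‖, ?_, fun x => Gn.mulVec_norm_le A ?_ (fun i j => ?_) x⟩
  · positivity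
  · exact Finset.sum_nonneg fun i _ => Finset.sum_nonneg fun j _ => norm_nonneg _
  · refine le_trans ?_ (Finset.single_le_sum (f := fun i => ∑ j, ‖A i j‖)
      (fun i _ => Finset.sum_nonneg fun j _ => norm_nonneg _) (Finset.mem_univ i))
    exact Finset.single_le_sum (f := fun j => ‖A i j‖) (fun j _ => norm_nonneg _)
      (Finset.mem_univ j)

theorem rep_bdd {ρ : G → Matrix (Fin n) (Fin n) E} (hρ : SmallRep S ρ) :
    ∃ C : ℝ, 0 < C ∧ ∀ g x, ‖ρ g *ᵥ x‖ ≤ C * ‖x‖ := by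
  classical
  obtain ⟨W, hW, hsm⟩ := hρ.sm 1 one_pos
  have hfi : Finite (G ⧸ W) := by
    obtain ⟨k, hk⟩ := S.index hW
    have h1 : W.index ≠ 0 := by
      rw [hk]
      positivity
    have h2 : W.FiniteIndex := ⟨h1⟩
    exact Subgroup.finite_quotient_of_finiteIndex
  have hft : Fintype (G ⧸ W) := Fintype.ofFinite _
  choose c hc0 hc using fun q : G ⧸ W => l05_mat (ρ q.out)
  refine ⟨(∑ q, c q) + 1, by
    have := Finset.sum_nonneg fun q (_ : q ∈ Finset.univ) => hc0 q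
    linarith, fun g x => ?_⟩
  set r : G := (QuotientGroup.mk g : G ⧸ W).out with hr
  have hw : r⁻¹ * g ∈ W := by
    rw [← QuotientGroup.eq]
    exact Quotient.out_eq' _
  have hg : ρ g = ρ r * ρ (r⁻¹ * g) := by
    rw [← hρ.mul, mul_inv_cancel_left]
  rw [hg, ← Matrix.mulVec_mulVec]
  have h1 : ‖ρ (r⁻¹ * g) *ᵥ x‖ ≤ ‖x‖ := by
    have h2 := hsm _ hw x
    rw [one_mul] at h2
    have h3 : ρ (r⁻¹ * g) *ᵥ x = (ρ (r⁻¹ * g) *ᵥ x - x) + x := by rw [sub_add_cancel]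
    rw [h3]
    exact l05_ultra _ _ (norm_nonneg _) h2 le_rfl
  have h4 : c (QuotientGroup.mk g) ≤ ∑ q, c q :=
    Finset.single_le_sum (fun q _ => hc0 q) (Finset.mem_univ _)
  calc ‖ρ r *ᵥ (ρ (r⁻¹ * g) *ᵥ x)‖ ≤ c (QuotientGroup.mk g) * ‖ρ (r⁻¹ * g) *ᵥ x‖ := hc _ _
    _ ≤ c (QuotientGroup.mk g) * ‖x‖ := mul_le_mul_of_nonneg_left h1 (hc0 _)
    _ ≤ ((∑ q, c q) + 1) * ‖x‖ := mul_le_mul_of_nonneg_right (by linarith) (norm_nonneg _)

theorem exists_lat0 {ρ : G → Matrix (Fin n) (Fin n) E} (hρ : SmallRep S ρ)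
    (b : Matrix (Fin n) (Fin n) E) :
    ∃ T : Submodule (OE E) (Fin n → E), (∀ g, ∀ x ∈ T, ρ g *ᵥ x ∈ T) ∧
      (∀ x ∈ T, ∀ y ∈ T, ‖bil b x y‖ ≤ 1) ∧ (∃ R : ℝ, ∀ x ∈ T, ‖x‖ ≤ R) ∧
      ∃ r : ℝ, 0 < r ∧ ∀ x : Fin n → E, ‖x‖ < r → x ∈ T := by
  obtain ⟨C, hC0, hC⟩ := rep_bdd hρ
  obtain ⟨B, hB0, hB⟩ := Gn.pair_bound b
  obtain ⟨ε, hε0, hε⟩ : ∃ ε : ℝ, 0 < ε ∧ B * ε * ε ≤ 1 := by
    refine ⟨(B + 1)⁻¹, by positivity, ?_⟩
    have h1 : 0 < B + 1 := by linarith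
    have h2 : (B + 1)⁻¹ ≤ 1 := inv_le_one_of_one_le₀ (by linarith)
    have h3 : (B + 1) * (B + 1)⁻¹ = 1 := mul_inv_cancel₀ h1.ne'
    have h4 : 0 < (B + 1)⁻¹ := inv_pos.2 h1
    nlinarith
  let T : Submodule (OE E) (Fin n → E) :=
    { carrier := {x | ∀ g, ‖ρ g *ᵥ x‖ ≤ ε}
      add_mem' := fun {x y} hx hy g => by
        rw [mulVec_add]
        exact l05_ultra _ _ hε0.le (hx g) (hy g)
      zero_mem' := fun g => by
        rw [mulVec_zero, norm_zero]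
        exact hε0.le
      smul_mem' := fun a x hx g => by
        have h1 : a • x = (a : E) • x := rfl
        rw [h1, mulVec_smul, norm_smul]
        calc ‖(a : E)‖ * ‖ρ g *ᵥ x‖ ≤ 1 * ε :=
              mul_le_mul a.2 (hx g) (norm_nonneg _) zero_le_one
          _ = ε := one_mul ε }
  have hT : ∀ x, x ∈ T ↔ ∀ g, ‖ρ g *ᵥ x‖ ≤ ε := fun x => Iff.rfl
  have hTe : ∀ x ∈ T, ‖x‖ ≤ ε := by
    intro x hx
    have h1 := (hT x).1 hx 1
    rwa [hρ.one, one_mulVec] at h1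
  refine ⟨T, fun g x hx => ?_, fun x hx y hy => ?_, ⟨ε, hTe⟩, ε / C, by positivity, fun x hx => ?_⟩
  · rw [hT]
    intro h
    rw [mulVec_mulVec, ← hρ.mul]
    exact (hT x).1 hx _
  · refine (hB x y).trans (le_trans ?_ hε)
    exact mul_le_mul (mul_le_mul_of_nonneg_left (hTe x hx) hB0) (hTe y hy) (norm_nonneg _)
      (by positivity)
  · rw [hT]
    intro g
    refine (hC g x).trans ?_
    rw [lt_div_iff₀ hC0] at hx
    linarith

end Pool.Agent.Work.MP_787500_nt.GP
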