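import Mathlib
import Pool.Agent.Work.MP_787500_nt.GP.F01_Card
import Pool.Agent.Work.MP_787500_nt.GP.F03_Pow

/-!
# Module F04_ALT (size M): alternating balanced forms have even length

`β` is balanced (`β (a • x) y = β x (a • y)`) and alternating (`β (a • x) x = 0`), so
`β x y = -β y x` (expand `β (x + y) (x + y)`). Strong induction on `Nat.card X`, for the statement:
`card X = q ^ (2 m) * card N` where `N` is the radical. Passing to `X ⧸ N` (the form descends, with radical
0, and `card X = card (X ⧸ N) * card N`) we may assume `N = 0`. If `X = 0`: `m = 0`. Otherwise take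
`e ≠ 0` killed by the maximal ideal (`exists_simple`), `E = span {e}`, card `q`. `E⊥ = {x | β (a e) x = 0
for all a}` is a submodule containing `E` (`β (a e) (a' e) = β (a a' e) e = 0`), and
`card X = card E⊥ * card E` (`card_perp` with trivial kernels). The form restricted to `E⊥` has radical
`E` (`perp_perp`), and `card E⊥ < card X`; by induction `card E⊥ = q ^ (2 m) * card E`. So
`card X = q ^ (2 m) * q * q`.
-/

set_option autoImplicit false
set_option linter.unusedSectionVars false

namespace Pool.Agent.Work.MP_787500_nt.GP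

open Pool.Agent.Work.MP_787500_nt.PA (TwoSys Sm1 Sm2 homs Coc Cob IsChar)

variable {O : Type*} [CommRing O] [IsLocalRing O] [Finite (IsLocalRing.ResidueField O)]

private theorem f04_rk {A B : Type*} [AddCommGroup A] [Module O A] [AddCommGroup B] [Module O B]
    (g : A →ₗ[O] B) : Nat.card A = Nat.card (LinearMap.ker g) * Nat.card (LinearMap.range g) := by
  rw [Submodule.card_eq_card_quotient_mul_card (LinearMap.ker g),
    Nat.card_congr g.quotKerEquivRange.toEquiv]

private theorem f04_main (n : ℕ) : ∀ (X : Type*) [AddCommGroup X] [Module O X] [Finite X]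
    (β : X →+ X →+ A0) (_ : ∀ (a : O) x y, β (a • x) y = β x (a • y))
    (_ : ∀ (a : O) x, β (a • x) x = 0) (N : Submodule O X) (_ : ∀ x, x ∈ N ↔ ∀ y, β x y = 0),
    Nat.card X = n →
    ∃ m : ℕ, Nat.card X = Nat.card (IsLocalRing.ResidueField O) ^ (2 * m) * Nat.card N := by
  induction n using Nat.strong_induction_on with
  | _ n ih =>
    intro X _ _ _ β hbal halt N hN hn
    have hself : ∀ x, β x x = 0 := fun x => by
      have := halt 1 x
      rwa [one_smul] at this
    have hskew : ∀ x y, β x y = -β y x := by
      intro x y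
      have h1 := hself (x + y)
      rw [map_add, map_add] at h1
      have h2 : β x x + β y x + (β x y + β y y) = 0 := h1
      rw [hself, hself, zero_add, add_zero] at h2
      exact (neg_eq_of_add_eq_zero_right h2).symm
    by_cases htop : N = ⊤
    · refine ⟨0, ?_⟩
      rw [htop, mul_zero, pow_zero, one_mul]
      exact (Nat.card_congr Submodule.topEquiv.toEquiv).symm
    have hnt : Nontrivial (X ⧸ N) := Submodule.Quotient.nontrivial_iff.2 htop
    have hfq : Finite (X ⧸ N) := Finite.of_surjective _ (Submodule.mkQ_surjective N)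
    obtain ⟨ē, hē, hēm⟩ := exists_simple (O := O) (M := X ⧸ N)
    obtain ⟨e, rfl⟩ := Submodule.mkQ_surjective N ē
    let E : Submodule O X := (Submodule.span O {N.mkQ e}).comap N.mkQ
    have hE : ∀ x, x ∈ E ↔ ∃ a : O, x - a • e ∈ N := by
      intro x
      show N.mkQ x ∈ Submodule.span O {N.mkQ e} ↔ _
      rw [Submodule.mem_span_singleton]
      constructor
      · rintro ⟨a, ha⟩
        refine ⟨a, ?_⟩
        rw [← Submodule.ker_mkQ N, LinearMap.mem_ker, map_sub, map_smul, ha, sub_self]
      · rintro ⟨a, ha⟩
        refine ⟨a, ?_⟩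
        rw [← Submodule.ker_mkQ N, LinearMap.mem_ker, map_sub, map_smul, sub_eq_zero] at ha
        exact ha.symm
    have hNE : N ≤ E := fun x hx => (hE x).2 ⟨0, by rw [zero_smul, sub_zero]; exact hx⟩
    let T : Submodule O X :=
      { carrier := {t | ∀ x ∈ E, β x t = 0}
        add_mem' := fun {s t} hs ht x hx => by rw [map_add, hs x hx, ht x hx, add_zero]
        zero_mem' := fun x _ => map_zero _
        smul_mem' := fun a t ht x hx => by
          rw [← hbal]
          exact ht _ (E.smul_mem a hx) }
    have hNl : ∀ x ∈ N, ∀ y, β x y = 0 := fun x hx => (hN x).1 hx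
    have hNr : ∀ x ∈ N, ∀ y, β y x = 0 := fun x hx y => by rw [hskew, hNl x hx, neg_zero]
    have hET : E ≤ T := by
      intro y hy x hx
      obtain ⟨a, ha⟩ := (hE x).1 hx
      obtain ⟨a', ha'⟩ := (hE y).1 hy
      have h1 : β x y = β (a • e) y := by
        have := hNl _ ha y
        rw [map_sub] at this
        exact sub_eq_zero.1 this
      have h2 : β (a • e) y = β (a • e) (a' • e) := by
        have := hNr _ ha' (a • e)
        rw [map_sub] at this
        exact sub_eq_zero.1 this
      rw [h1, h2, ← hbal, smul_smul]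
      exact halt _ e
    have hcE : Nat.card E = Nat.card N * Nat.card (IsLocalRing.ResidueField O) := by
      have h1 := f04_rk (N.mkQ.comp E.subtype)
      have h2 : Nat.card (LinearMap.ker (N.mkQ.comp E.subtype)) = Nat.card N := by
        refine Nat.card_congr ⟨fun x => ⟨x.1.1, ?_⟩, fun x => ⟨⟨x.1, hNE x.2⟩, ?_⟩,
          fun x => rfl, fun x => rfl⟩
        · have h3 := x.2
          rw [LinearMap.mem_ker] at h3
          exact (Submodule.Quotient.mk_eq_zero N).1 h3
        · rw [LinearMap.mem_ker]
          exact (Submodule.Quotient.mk_eq_zero N).2 x.2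
      have h3 : LinearMap.range (N.mkQ.comp E.subtype) = Submodule.span O {N.mkQ e} := by
        rw [LinearMap.range_comp, Submodule.range_subtype]
        exact Submodule.map_comap_eq_of_surjective (Submodule.mkQ_surjective N) _
      rw [h2, h3, card_span hē hēm] at h1
      exact h1
    have hperp : perpL β E.toAddSubgroup = T.toAddSubgroup := rfl
    have hKE : ∀ x, (∀ y, β x y = 0) → x ∈ E.toAddSubgroup := fun x hx => hNE ((hN x).2 hx)
    have hrad : Nat.card (perpL β.flip ⊤) = Nat.card N :=
      Nat.card_congr ⟨fun x => ⟨x.1, (hN x.1).2 fun y => x.2 y trivial⟩,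
        fun x => ⟨x.1, fun y _ => (hN x.1).1 x.2 y⟩, fun x => rfl, fun x => rfl⟩
    have hc := card_perp β E.toAddSubgroup hKE
    rw [hperp, hrad] at hc
    have hc' : Nat.card E * Nat.card T = Nat.card X * Nat.card N := hc
    have hposN : 0 < Nat.card N := Nat.card_pos
    have hXT : Nat.card X = Nat.card (IsLocalRing.ResidueField O) * Nat.card T := by
      rw [hcE] at hc'
      have h1 : Nat.card N * Nat.card X =
          Nat.card N * (Nat.card (IsLocalRing.ResidueField O) * Nat.card T) := by
        rw [mul_comm (Nat.card N) (Nat.card X), ← hc']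
        ring
      exact Nat.eq_of_mul_eq_mul_left hposN h1
    have hq := q_two_le (O := O)
    have hposT : 0 < Nat.card T := Nat.card_pos
    have hlt : Nat.card T < n := by
      rw [← hn, hXT]
      nlinarith
    have hpp := perp_perp β E.toAddSubgroup hKE
    rw [hperp] at hpp
    let βT : T →+ T →+ A0 :=
      ((β.comp T.toAddSubgroup.subtype).flip.comp T.toAddSubgroup.subtype).flip
    have hβT : ∀ x y : T, βT x y = β (x : X) (y : X) := fun x y => rfl
    obtain ⟨m, hm⟩ := ih _ hlt T βT (fun a x y => hbal a x y) (fun a x => halt a x)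
      (E.comap T.subtype) (by
        intro x
        show (x : X) ∈ E ↔ _
        constructor
        · intro hx y
          rw [hβT]
          exact y.2 x hx
        · intro hx
          have h1 : (x : X) ∈ perpL β.flip T.toAddSubgroup := fun y hy => hx ⟨y, hy⟩
          rw [hpp] at h1
          exact h1) rfl
    have hcc : Nat.card (E.comap T.subtype) = Nat.card E :=
      Nat.card_congr ⟨fun x => ⟨x.1.1, x.2⟩, fun x => ⟨⟨x.1, hET x.2⟩, x.2⟩, fun x => rfl,
        fun x => rfl⟩
    refine ⟨m + 1, ?_⟩
    rw [hXT, hm, hcc, hcE]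
    ring

theorem alt_card {X : Type*} [AddCommGroup X] [Module O X] [Finite X] (β : X →+ X →+ A0)
    (hbal : ∀ (a : O) x y, β (a • x) y = β x (a • y)) (halt : ∀ (a : O) x, β (a • x) x = 0)
    (N : Submodule O X) (hN : ∀ x, x ∈ N ↔ ∀ y, β x y = 0) :
    ∃ m : ℕ, Nat.card X = Nat.card (IsLocalRing.ResidueField O) ^ (2 * m) * Nat.card N :=
  f04_main _ X β hbal halt N hN rfl

end Pool.Agent.Work.MP_787500_nt.GP
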