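import Mathlib
import Pool.Agent.Work.MP_787500_nt.GP.F01_Card

/-!
# Module F02_LAG (size M): an abstract Lagrangian lemma

`β` a symmetric pairing on the finite group `Z` with radical `R = perpL β ⊤` (`β.flip = β`), `X ≤ Z` with
`perpL β X = X ⊔ R`, `R ≤ V ≤ Z`. Put `X₁ = X ⊔ R`; `perpL β X₁ = perpL β X = X₁`.
* `X₁ ⊓ V = (X ⊓ V) ⊔ R` (modular law), so `perpL β (X ⊓ V) = perpL β (X₁ ⊓ V)`. As `X₁` and `V` are double
  annihilators (`perp_perp`), `X₁ ⊓ V = perpL β (X₁ ⊔ perpL β V)`, and the double annihilator of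
  `X₁ ⊔ perpL β V` (it contains `R`) is itself: `perpL β (X ⊓ V) = X₁ ⊔ perpL β V = X ⊔ perpL β V`
  (`R ≤ perpL β V`). This is `lag_perp`.
* Cards: `card_perp`: `|V| |V⊥| = |Z| |R|`, `|X₁|² = |Z| |R|`, `|X₁ ⊓ V| |X₁ ⊔ V⊥| = |Z| |R|`; and
  `|X₁ ⊔ V⊥| |X₁ ⊓ V⊥| = |X₁| |V⊥|`. So `|X₁ ⊓ V| |V⊥| = |X₁ ⊓ V⊥| |X₁|`, and squaring,
  `|X₁ ⊓ V|² |V⊥| = |X₁ ⊓ V⊥|² |V|`. Finally `|X₁ ⊓ V| |X ⊓ R| = |X ⊓ V| |R|` (`X₁ ⊓ V = (X ⊓ V) ⊔ R`,
  `(X ⊓ V) ⊓ R = X ⊓ R`) and the same with `V⊥`.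
(`|A ⊔ B| |A ⊓ B| = |A| |B|` for finite subgroups: `AddSubgroup.card_sup_mul_card_inf` or via
`relIndex`.)
-/

set_option autoImplicit false
set_option linter.unusedSectionVars false

namespace Pool.Agent.Work.MP_787500_nt.GP

open Pool.Agent.Work.MP_787500_nt.PA (TwoSys Sm1 Sm2 homs Coc Cob IsChar)

private theorem f02_card {Z : Type*} [AddCommGroup Z] [Finite Z] (A B : AddSubgroup Z) :
    Nat.card ↥(A ⊔ B) * Nat.card ↥(A ⊓ B) = Nat.card A * Nat.card B := by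
  have h1 : B.relIndex (A ⊔ B) = B.relIndex A := AddSubgroup.relIndex_sup_right _ _
  have h2 : B.relIndex (A ⊔ B) * Nat.card B = Nat.card ↥(A ⊔ B) := by
    have h3 := AddSubgroup.relIndex_mul_relIndex (⊥ : AddSubgroup Z) B (A ⊔ B) bot_le le_sup_right
    rwa [AddSubgroup.relIndex_bot_left, AddSubgroup.relIndex_bot_left, mul_comm] at h3
  have h4 : B.relIndex A * Nat.card ↥(A ⊓ B) = Nat.card A := by
    have h3 := AddSubgroup.relIndex_mul_relIndex (⊥ : AddSubgroup Z) (A ⊓ B) A bot_le inf_le_left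
    rwa [AddSubgroup.relIndex_bot_left, AddSubgroup.relIndex_bot_left, mul_comm,
      AddSubgroup.inf_relIndex_left] at h3
  rw [← h2, ← h4, h1]
  ring

variable {Z : Type*} [AddCommGroup Z] [Finite Z] (β : Z →+ Z →+ A0)

private theorem f02_pp (hsymm : ∀ x y, β x y = β y x) {Λ : AddSubgroup Z}
    (h : perpL β ⊤ ≤ Λ) : perpL β (perpL β Λ) = Λ := by
  have hflip : β.flip = β := by
    ext x y
    exact hsymm y x
  have h1 := perp_perp β Λ fun a ha => h fun a' _ => by rw [hsymm]; exact ha a'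
  rwa [hflip] at h1

private theorem f02_cp (hsymm : ∀ x y, β x y = β y x) {Λ : AddSubgroup Z}
    (h : perpL β ⊤ ≤ Λ) :
    Nat.card Λ * Nat.card (perpL β Λ) = Nat.card Z * Nat.card (perpL β ⊤) := by
  have hflip : β.flip = β := by
    ext x y
    exact hsymm y x
  have h1 := card_perp β Λ fun a ha => h fun a' _ => by rw [hsymm]; exact ha a'
  rwa [hflip] at h1

private theorem f02_sup (A B : AddSubgroup Z) : perpL β (A ⊔ B) = perpL β A ⊓ perpL β B := by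
  apply le_antisymm
  · intro x hx
    exact ⟨fun a ha => hx a (AddSubgroup.mem_sup_left ha),
      fun a ha => hx a (AddSubgroup.mem_sup_right ha)⟩
  · rintro x ⟨h1, h2⟩ a ha
    obtain ⟨y, hy, z, hz, rfl⟩ := AddSubgroup.mem_sup.1 ha
    rw [map_add]
    show β y x + β z x = 0
    rw [h1 y hy, h2 z hz, add_zero]

private theorem f02_rad (hsymm : ∀ x y, β x y = β y x) : perpL β (perpL β ⊤) = ⊤ := by
  rw [eq_top_iff]
  intro x _ a ha
  rw [hsymm]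
  exact ha x trivial

theorem lag_perp (hsymm : ∀ x y, β x y = β y x) (X V : AddSubgroup Z)
    (hX : perpL β X = X ⊔ perpL β ⊤) (hV : perpL β ⊤ ≤ V) :
    perpL β (X ⊓ V) = X ⊔ perpL β V := by
  have hX1 : perpL β (X ⊔ perpL β ⊤) = X ⊔ perpL β ⊤ := by
    rw [f02_sup, f02_rad β hsymm, inf_top_eq, hX]
  have hRV : perpL β ⊤ ≤ perpL β V := fun x hx a _ => hx a trivial
  have hmod : (X ⊔ perpL β ⊤) ⊓ V = (X ⊓ V) ⊔ perpL β ⊤ := by
    rw [sup_comm X, sup_comm (X ⊓ V)]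
    exact (sup_inf_assoc_of_le X hV)
  have h1 : perpL β (X ⊓ V) = perpL β ((X ⊔ perpL β ⊤) ⊓ V) := by
    rw [hmod, f02_sup, f02_rad β hsymm, inf_top_eq]
  have h2 : (X ⊔ perpL β ⊤) ⊓ V = perpL β ((X ⊔ perpL β ⊤) ⊔ perpL β V) := by
    rw [f02_sup, hX1, f02_pp β hsymm hV]
  rw [h1, h2, f02_pp β hsymm (le_sup_right.trans le_sup_left), sup_assoc, sup_eq_right.2 hRV]

theorem lag_card (hsymm : ∀ x y, β x y = β y x) (X V : AddSubgroup Z)
    (hX : perpL β X = X ⊔ perpL β ⊤) (hV : perpL β ⊤ ≤ V) :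
    Nat.card ↥(X ⊓ V) ^ 2 * Nat.card (perpL β V) =
      Nat.card ↥(X ⊓ perpL β V) ^ 2 * Nat.card V := by
  have hX1 : perpL β (X ⊔ perpL β ⊤) = X ⊔ perpL β ⊤ := by
    rw [f02_sup, f02_rad β hsymm, inf_top_eq, hX]
  have hRV : perpL β ⊤ ≤ perpL β V := fun x hx a _ => hx a trivial
  have hmod : ∀ T : AddSubgroup Z, perpL β ⊤ ≤ T →
      (X ⊔ perpL β ⊤) ⊓ T = (X ⊓ T) ⊔ perpL β ⊤ := by
    intro T hT
    rw [sup_comm X, sup_comm (X ⊓ T)]
    exact (sup_inf_assoc_of_le X hT)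
  have h3p : perpL β ((X ⊔ perpL β ⊤) ⊓ V) = (X ⊔ perpL β ⊤) ⊔ perpL β V := by
    have h2 : (X ⊔ perpL β ⊤) ⊓ V = perpL β ((X ⊔ perpL β ⊤) ⊔ perpL β V) := by
      rw [f02_sup, hX1, f02_pp β hsymm hV]
    rw [h2, f02_pp β hsymm (le_sup_right.trans le_sup_left)]
  have c1 := f02_cp β hsymm hV
  have c2 := f02_cp β hsymm (Λ := X ⊔ perpL β ⊤) le_sup_right
  rw [hX1] at c2
  have c3 := f02_cp β hsymm (Λ := (X ⊔ perpL β ⊤) ⊓ V) (le_inf le_sup_right hV)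
  rw [h3p] at c3
  have c4 := f02_card (X ⊔ perpL β ⊤) (perpL β V)
  have c6 := f02_card (X ⊓ V) (perpL β ⊤)
  rw [← hmod V hV, inf_assoc, inf_eq_right.2 hV] at c6
  have c7 := f02_card (X ⊓ perpL β V) (perpL β ⊤)
  rw [← hmod _ hRV, inf_assoc, inf_eq_right.2 hRV] at c7
  have p1 : 0 < Nat.card ↥(X ⊔ perpL β ⊤) := Nat.card_pos
  have p2 : 0 < Nat.card (perpL β V) := Nat.card_pos
  have p3 : 0 < Nat.card (perpL β ⊤) := Nat.card_pos
  have p4 : 0 < Nat.card ↥(X ⊔ perpL β ⊤ ⊔ perpL β V) := Nat.card_pos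
  generalize Nat.card ↥((X ⊔ perpL β ⊤) ⊓ V) = a at *
  generalize Nat.card ↥((X ⊔ perpL β ⊤) ⊓ perpL β V) = a' at *
  generalize Nat.card ↥(X ⊔ perpL β ⊤) = x₁ at *
  generalize Nat.card ↥(X ⊔ perpL β ⊤ ⊔ perpL β V) = t at *
  generalize Nat.card ↥(X ⊓ V) = y at *
  generalize Nat.card ↥(X ⊓ perpL β V) = y' at *
  generalize Nat.card ↥(X ⊓ perpL β ⊤) = w at *
  generalize Nat.card ↥(perpL β ⊤) = r at *
  generalize Nat.card ↥(perpL β V) = v' at *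
  generalize Nat.card ↥V = v at *
  generalize Nat.card Z = z at *
  have e1 : a * v' = x₁ * a' := by
    have : x₁ * (a * v') = x₁ * (x₁ * a') := by
      calc x₁ * (a * v') = a * (x₁ * v') := by ring
        _ = a * (t * a') := by rw [c4]
        _ = (a * t) * a' := by ring
        _ = (x₁ * x₁) * a' := by rw [c3, c2]
        _ = x₁ * (x₁ * a') := by ring
    exact Nat.eq_of_mul_eq_mul_left p1 this
  have e2 : a ^ 2 * v' = a' ^ 2 * v := by
    have : v' * (a ^ 2 * v') = v' * (a' ^ 2 * v) := by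
      calc v' * (a ^ 2 * v') = (a * v') ^ 2 := by ring
        _ = (x₁ * a') ^ 2 := by rw [e1]
        _ = (x₁ * x₁) * a' ^ 2 := by ring
        _ = (v * v') * a' ^ 2 := by rw [c2, c1]
        _ = v' * (a' ^ 2 * v) := by ring
    exact Nat.eq_of_mul_eq_mul_left p2 this
  have e3 : r ^ 2 * (y ^ 2 * v') = r ^ 2 * (y' ^ 2 * v) := by
    calc r ^ 2 * (y ^ 2 * v') = (y * r) ^ 2 * v' := by ring
      _ = (a * w) ^ 2 * v' := by rw [c6]
      _ = (a ^ 2 * v') * w ^ 2 := by ring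
      _ = (a' ^ 2 * v) * w ^ 2 := by rw [e2]
      _ = (a' * w) ^ 2 * v := by ring
      _ = (y' * r) ^ 2 * v := by rw [c7]
      _ = _ := by ring
  exact Nat.eq_of_mul_eq_mul_left (pow_pos p3 2) e3

end Pool.Agent.Work.MP_787500_nt.GP
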