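import Mathlib
import Pool.Agent.Work.MP_787500_nt.GP.F02_Lag
import Pool.Agent.Work.MP_787500_nt.GP.F06_Perp
import Pool.Agent.Work.MP_787500_nt.GP.F07_Glob

/-!
# Module F09_SPACE (size L): the Lagrangian argument

Let `Z` be the group of pairs of families `(c, c')`, `c w` a cocycle for `ρ ∘ j w`, `c' w` a cocycle for
`ρ ∘ κ ∘ j w` (finite), with the symmetric pairing
`β ((c, c'), (e, e')) = ∑ w, inv w (c w ∪ e' w) + inv w (e w ∪ c' w)`.
Its radical `R` is the group of pairs of families of coboundaries (`local_one`, `local_one'`, testing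
with families supported at one `w`; conversely coboundaries pair to zero, as in F06). `X ≤ Z` is the
image of the global cocycles, `x ↦ (x ∘ j w, x ∘ κ ∘ j w)`. `perpL β X = X ⊔ R`: `⊇` `recip_sel`; `⊆`
`middle_sel`. For `Λ ≤ Λ'` let `V = {c w ∈ Λ' w, c' w ∈ perpM (Λ w)}`. Then
`perpL β V = {e w ∈ Λ w, e' w ∈ perpM (Λ' w)}` (`perp_double`, definition of `perpM`), `R ≤ V`.
* `sel_count`: `lag_card`: `|X ⊓ V|² |V⊥| = |X ⊓ V⊥|² |V|`, and
  `|V| = ∏ w, |Λ' w| |perpM (Λ w)|`, `|V⊥| = ∏ w, |Λ w| |perpM (Λ' w)|`. By `perp_card`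
  `|Λ w| |perpM (Λ w)| = |Λ' w| |perpM (Λ' w)|`; so `|V| ∏ |Λ w|² = |V⊥| ∏ |Λ' w|²` and
  `|X ⊓ V| ∏ |Λ w| = |X ⊓ V⊥| ∏ |Λ' w|` (cancel squares of positive numbers). The map from
  `selM Λ' (perpM Λ)` onto `X ⊓ V` and the map from `selM Λ (perpM Λ')` onto `X ⊓ V⊥` have the same
  kernel (the cocycles that restrict to 0 everywhere).
* `sel_rad`: let `y ∈ selM Λ' (perpM Λ)` be orthogonal to all `x` in it. Then
  `(0, (y ∘ κ ∘ j w)) ∈ Z` is orthogonal to `X ⊓ V`, so by `lag_perp` it is in `X ⊔ V⊥`: there is a global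
  cocycle `x₀` with `x₀ ∘ j w ∈ Λ w` and `y ∘ κ ∘ j w - x₀ ∘ κ ∘ j w ∈ perpM (Λ' w)`. So
  `x₀ ∈ selM Λ (perpM Λ)` (`perpM (Λ' w) ≤ perpM (Λ w)`) and `y - x₀ ∈ selM Λ' (perpM Λ')`.
-/

set_option autoImplicit false
set_option linter.unusedSectionVars false

namespace Pool.Agent.Work.MP_787500_nt.GP

open Pool.Agent.Work.MP_787500_nt.PA (TwoSys Sm1 Sm2 homs Coc Cob IsChar)

variable {G : Type*} [Group G] {S : TwoSys G} {Φ : Type*} [Fintype Φ] {D : Φ → Type*}
  [∀ w, Group (D w)] {SD : ∀ w, TwoSys (D w)} {j : ∀ w, D w →* G} {χ : G → ℤ_[2]}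
  {inv : ∀ w, (D w → D w → A0) → A0} {κ : G →* G} {θ φ : G}
  {O : Type*} [CommRing O] {M : Type*} [AddCommGroup M] [Module O M] [Finite M]
  {ρ : G → M → M} {b : M →+ M →+ A0}

/-- the space of pairs of families -/
abbrev f09_Z (S : TwoSys G) (h : SDual S χ κ θ O ρ b) (SD : ∀ w, TwoSys (D w))
    (j : ∀ w, D w →* G) : Type _ :=
  (∀ w, f06_A S h SD j w) × (∀ w, f06_A' S h SD j w)

/-- the pairing on the space of pairs of families -/
noncomputable def f09_B (H : ParH S SD j χ inv κ θ φ) (h : SDual S χ κ θ O ρ b) :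
    f09_Z S h SD j →+ f09_Z S h SD j →+ A0 :=
  AddMonoidHom.mk' (fun z => AddMonoidHom.mk'
    (fun y => ∑ w, (f06_B H h w (z.1 w) (y.2 w) + f06_B H h w (y.1 w) (z.2 w)))
    (fun y y' => by
      rw [← Finset.sum_add_distrib]
      refine Finset.sum_congr rfl fun w _ => ?_
      show f06_B H h w (z.1 w) (y.2 w + y'.2 w) + f06_B H h w (y.1 w + y'.1 w) (z.2 w) = _
      rw [map_add, map_add, AddMonoidHom.add_apply]
      abel))
    (fun z z' => by
      ext y
      show ∑ w, (f06_B H h w (z.1 w + z'.1 w) (y.2 w) + f06_B H h w (y.1 w) (z.2 w + z'.2 w)) =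
        ∑ w, (f06_B H h w (z.1 w) (y.2 w) + f06_B H h w (y.1 w) (z.2 w)) +
          ∑ w, (f06_B H h w (z'.1 w) (y.2 w) + f06_B H h w (y.1 w) (z'.2 w))
      rw [← Finset.sum_add_distrib]
      refine Finset.sum_congr rfl fun w _ => ?_
      rw [map_add, map_add, AddMonoidHom.add_apply]
      abel)

theorem f09_B_apply (H : ParH S SD j χ inv κ θ φ) (h : SDual S χ κ θ O ρ b)
    (z y : f09_Z S h SD j) : f09_B H h z y =
      ∑ w, (f06_B H h w (z.1 w) (y.2 w) + f06_B H h w (y.1 w) (z.2 w)) := rfl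

private theorem f09_symm (H : ParH S SD j χ inv κ θ φ) (h : SDual S χ κ θ O ρ b)
    (z y : f09_Z S h SD j) : f09_B H h z y = f09_B H h y z := by
  rw [f09_B_apply, f09_B_apply]
  exact Finset.sum_congr rfl fun w _ => add_comm _ _

/-- the restriction of the global cocycles -/
def f09_res (H : ParH S SD j χ inv κ θ φ) (h : SDual S χ κ θ O ρ b) :
    zM (O := O) S h.act (fun g => h.lin _) →+ f09_Z S h SD j where
  toFun x := (fun w => ⟨fun d => (x : G → M) (j w d), Z1.comp (H.jsm w) x.2⟩,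
    fun w => ⟨fun d => (x : G → M) (κ (j w d)),
      Z1.comp (ρ := fun g => ρ (κ g)) (H.jsm w) (Z1.comp (j := κ) H.ksys x.2)⟩)
  map_zero' := rfl
  map_add' x y := rfl

/-- the subgroup given by local conditions -/
def f09_V (H : ParH S SD j χ inv κ θ φ) (h : SDual S χ κ θ O ρ b)
    (Λ' Λ : ∀ w, Submodule O (D w → M)) : AddSubgroup (f09_Z S h SD j) where
  carrier := {z | (∀ w, (z.1 w : D w → M) ∈ Λ' w) ∧ ∀ w, (z.2 w : D w → M) ∈ perpM H h w (Λ w)}
  add_mem' := fun hz hy => ⟨fun w => (Λ' w).add_mem (hz.1 w) (hy.1 w),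
    fun w => (perpM H h w (Λ w)).add_mem (hz.2 w) (hy.2 w)⟩
  zero_mem' := ⟨fun w => (Λ' w).zero_mem, fun w => (perpM H h w (Λ w)).zero_mem⟩
  neg_mem' := fun hz => ⟨fun w => (Λ' w).neg_mem (hz.1 w),
    fun w => (perpM H h w (Λ w)).neg_mem (hz.2 w)⟩

private theorem f09_fin (H : ParH S SD j χ inv κ θ φ) (h : SDual S χ κ θ O ρ b) :
    Finite (f09_Z S h SD j) := by
  have h1 : ∀ w, Finite (f06_A S h SD j w) := fun w => finite_zM _ _ (H.loc w).fin
  have h2 : ∀ w, Finite (f06_A' S h SD j w) := fun w => finite_zM _ _ (H.loc w).fin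
  infer_instance

private theorem f09_perpV (H : ParH S SD j χ inv κ θ φ) (h : SDual S χ κ θ O ρ b)
    {Λ Λ' : ∀ w, Submodule O (D w → M)} (hΛ : ∀ w, Betw (SD w) (fun d => ρ (j w d)) (Λ w))
    (hΛ' : ∀ w, Betw (SD w) (fun d => ρ (j w d)) (Λ' w)) :
    perpL (f09_B H h) (f09_V H h Λ' Λ) = f09_V H h Λ Λ' := by
  classical
  ext e
  constructor
  · intro he
    refine ⟨fun w => ?_, fun w => ⟨(e.2 w).2, fun x hx hx1 => ?_⟩⟩
    · refine perp_double H h w (hΛ w) (e.1 w).2 fun y hy => ?_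
      have h1 : ((0, Pi.single w ⟨y, hy.1⟩) : f09_Z S h SD j) ∈ f09_V H h Λ' Λ := by
        refine ⟨fun w' => (Λ' w').zero_mem, fun w' => ?_⟩
        by_cases hw : w' = w
        · subst hw
          show ((Pi.single w' (⟨y, hy.1⟩ : f06_A' S h SD j w') :
            ∀ w, f06_A' S h SD j w) w' : D w' → M) ∈ _
          rw [Pi.single_eq_same]
          exact hy
        · show ((Pi.single w (⟨y, hy.1⟩ : f06_A' S h SD j w) :
            ∀ w, f06_A' S h SD j w) w' : D w' → M) ∈ _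
          rw [Pi.single_eq_of_ne hw]
          exact (perpM H h w' (Λ w')).zero_mem
      have h2 := he _ h1
      rw [f09_B_apply, Finset.sum_eq_single w] at h2
      · simp only [Pi.zero_apply, map_zero, AddMonoidHom.zero_apply, zero_add,
          Pi.single_eq_same] at h2
        exact h2
      · intro w' _ hw
        simp only [Pi.zero_apply, map_zero, AddMonoidHom.zero_apply, zero_add,
          Pi.single_eq_of_ne hw]
      · intro hw
        exact absurd (Finset.mem_univ w) hw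
    · have h1 : ((Pi.single w ⟨x, hx1⟩, 0) : f09_Z S h SD j) ∈ f09_V H h Λ' Λ := by
        refine ⟨fun w' => ?_, fun w' => (perpM H h w' (Λ w')).zero_mem⟩
        by_cases hw : w' = w
        · subst hw
          show ((Pi.single w' (⟨x, hx1⟩ : f06_A S h SD j w') :
            ∀ w, f06_A S h SD j w) w' : D w' → M) ∈ _
          rw [Pi.single_eq_same]
          exact hx
        · show ((Pi.single w (⟨x, hx1⟩ : f06_A S h SD j w) :
            ∀ w, f06_A S h SD j w) w' : D w' → M) ∈ _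
          rw [Pi.single_eq_of_ne hw]
          exact (Λ' w').zero_mem
      have h2 := he _ h1
      rw [f09_B_apply, Finset.sum_eq_single w] at h2
      · simp only [Pi.zero_apply, map_zero, add_zero, Pi.single_eq_same] at h2
        exact h2
      · intro w' _ hw
        simp only [Pi.zero_apply, map_zero, AddMonoidHom.zero_apply, add_zero,
          Pi.single_eq_of_ne hw]
      · intro hw
        exact absurd (Finset.mem_univ w) hw
  · intro he z hz
    rw [f09_B_apply]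
    refine Finset.sum_eq_zero fun w _ => ?_
    have h1 : f06_B H h w (z.1 w) (e.2 w) = 0 := (he.2 w).2 _ (hz.1 w) (z.1 w).2
    have h2 : f06_B H h w (e.1 w) (z.2 w) = 0 := (hz.2 w).2 _ (he.1 w) (e.1 w).2
    rw [h1, h2, add_zero]

private theorem f09_R (H : ParH S SD j χ inv κ θ φ) (h : SDual S χ κ θ O ρ b)
    {Λ Λ' : ∀ w, Submodule O (D w → M)} (hΛ : ∀ w, Betw (SD w) (fun d => ρ (j w d)) (Λ w))
    (hΛ' : ∀ w, Betw (SD w) (fun d => ρ (j w d)) (Λ' w)) :
    perpL (f09_B H h) ⊤ ≤ f09_V H h Λ' Λ := by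
  rw [← f09_perpV H h hΛ' hΛ]
  exact fun x hx z _ => hx z trivial

private theorem f09_X (H : ParH S SD j χ inv κ θ φ) (h : SDual S χ κ θ O ρ b) :
    perpL (f09_B H h) (f09_res H h).range = (f09_res H h).range ⊔ perpL (f09_B H h) ⊤ := by
  apply le_antisymm
  · intro y hy
    obtain ⟨X, m, m', hX, h1, h2⟩ := middle_sel H h (fun w => (y.1 w : D w → M))
      (fun w => (y.2 w : D w → M)) (fun w => (y.1 w).2) (fun w => (y.2 w).2) (by
        intro x hx
        have h3 := hy _ ⟨⟨x, hx⟩, rfl⟩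
        rw [f09_B_apply] at h3
        rw [← h3]
        exact Finset.sum_congr rfl fun w _ => add_comm _ _)
    have h4 : y = f09_res H h ⟨X, hX⟩ + (y - f09_res H h ⟨X, hX⟩) := by abel
    rw [h4]
    refine AddSubgroup.add_mem_sup ⟨_, rfl⟩ ?_
    intro z _
    rw [f09_B_apply]
    refine Finset.sum_eq_zero fun w _ => ?_
    have hp := h.locPair H w
    have e1 : ((y - f09_res H h ⟨X, hX⟩).1 w : D w → M) = d0 (fun d => ρ (j w d)) (-m w) := by
      funext d
      show (y.1 w : D w → M) d - X (j w d) = _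
      rw [h1 w d]
      simp only [d0, hp.act.neg]
      abel
    have e2 : ((y - f09_res H h ⟨X, hX⟩).2 w : D w → M) =
        d0 (fun d => ρ (κ (j w d))) (-m' w) := by
      funext d
      show (y.2 w : D w → M) d - X (κ (j w d)) = _
      rw [h2 w d]
      simp only [d0, hp.act'.neg]
      abel
    rw [f06_B_apply, f06_B_apply, e1, e2, f06_left (H.loc w) hp _ (z.2 w).2,
      f06_right (H.loc w) hp _ (z.1 w).2, add_zero]
  · rw [sup_le_iff]
    constructor
    · rintro _ ⟨y, rfl⟩ _ ⟨x, rfl⟩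
      rw [f09_B_apply]
      exact recip_sel H h x.2 y.2
    · exact fun x hx z _ => hx z trivial

private theorem f09_comap {A B : Type*} [AddCommGroup A] [AddCommGroup B] (f : A →+ B)
    (V : AddSubgroup B) :
    Nat.card (V.comap f) = Nat.card f.ker * Nat.card ↥(f.range ⊓ V) := by
  have h1 : Nat.card (V.comap f) =
      Nat.card ((V.comap f) ⧸ (f.comp (V.comap f).subtype).ker) *
        Nat.card (f.comp (V.comap f).subtype).ker :=
    AddSubgroup.card_eq_card_quotient_mul_card_addSubgroup _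
  rw [Nat.card_congr (QuotientAddGroup.quotientKerEquivRange
    (f.comp (V.comap f).subtype)).toEquiv] at h1
  have h2 : (f.comp (V.comap f).subtype).range = f.range ⊓ V := by
    ext y
    constructor
    · rintro ⟨x, rfl⟩
      exact ⟨⟨x.1, rfl⟩, x.2⟩
    · rintro ⟨⟨x, rfl⟩, hy⟩
      exact ⟨⟨x, hy⟩, rfl⟩
  have h3 : Nat.card (f.comp (V.comap f).subtype).ker = Nat.card f.ker := by
    refine Nat.card_congr ⟨fun x => ⟨x.1.1, x.2⟩, fun x => ⟨⟨x.1, ?_⟩, x.2⟩,
      fun x => rfl, fun x => rfl⟩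
    show f x.1 ∈ V
    rw [show f x.1 = 0 from x.2]
    exact V.zero_mem
  rw [h2, h3, mul_comm] at h1
  exact h1

private theorem f09_sel (H : ParH S SD j χ inv κ θ φ) (h : SDual S χ κ θ O ρ b)
    (Λ Λ' : ∀ w, Submodule O (D w → M)) :
    Nat.card (selM h j Λ' fun w => perpM H h w (Λ w)) =
      Nat.card (f09_res H h).ker * Nat.card ↥((f09_res H h).range ⊓ f09_V H h Λ' Λ) := by
  rw [← f09_comap]
  exact Nat.card_congr ⟨fun x => ⟨⟨x.1, x.2.1⟩, x.2.2⟩, fun x => ⟨x.1.1, x.1.2, x.2⟩,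
    fun x => rfl, fun x => rfl⟩

private theorem f09_cardV (H : ParH S SD j χ inv κ θ φ) (h : SDual S χ κ θ O ρ b)
    {Λ Λ' : ∀ w, Submodule O (D w → M)}
    (hΛ' : ∀ w, Betw (SD w) (fun d => ρ (j w d)) (Λ' w)) :
    Nat.card (f09_V H h Λ' Λ) =
      (∏ w, Nat.card (Λ' w)) * ∏ w, Nat.card (perpM H h w (Λ w)) := by
  rw [← Nat.card_pi, ← Nat.card_pi, ← Nat.card_prod]
  exact Nat.card_congr ⟨fun z => (fun w => ⟨z.1.1 w, z.2.1 w⟩, fun w => ⟨z.1.2 w, z.2.2 w⟩),
    fun z => ⟨(fun w => ⟨z.1 w, (hΛ' w).coc _ (z.1 w).2⟩, fun w => ⟨z.2 w, (z.2 w).2.1⟩),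
      fun w => (z.1 w).2, fun w => (z.2 w).2⟩, fun x => rfl, fun x => rfl⟩

theorem sel_count (H : ParH S SD j χ inv κ θ φ) (h : SDual S χ κ θ O ρ b)
    {Λ Λ' : ∀ w, Submodule O (D w → M)} (hΛ : ∀ w, Betw (SD w) (fun d => ρ (j w d)) (Λ w))
    (hΛ' : ∀ w, Betw (SD w) (fun d => ρ (j w d)) (Λ' w)) (hle : ∀ w, Λ w ≤ Λ' w) :
    Nat.card (selM h j Λ' fun w => perpM H h w (Λ w)) * ∏ w, Nat.card (Λ w) =
      Nat.card (selM h j Λ fun w => perpM H h w (Λ' w)) * ∏ w, Nat.card (Λ' w) := by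
  have := f09_fin H h
  have h1 := lag_card (f09_B H h) (f09_symm H h) (f09_res H h).range (f09_V H h Λ' Λ)
    (f09_X H h) (f09_R H h hΛ hΛ')
  rw [f09_perpV H h hΛ hΛ', f09_cardV H h hΛ, f09_cardV H h hΛ'] at h1
  rw [f09_sel, f09_sel]
  have h2 : (∏ w, Nat.card (Λ w)) * ∏ w, Nat.card (perpM H h w (Λ w)) =
      (∏ w, Nat.card (Λ' w)) * ∏ w, Nat.card (perpM H h w (Λ' w)) := by
    rw [← Finset.prod_mul_distrib, ← Finset.prod_mul_distrib]
    exact Finset.prod_congr rfl fun w _ => perp_card H h w (hΛ w) (hΛ' w)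
  have hpos : 0 < ∏ w, Nat.card (perpM H h w (Λ' w)) := by
    refine Finset.prod_pos fun w _ => ?_
    have := perp_finite H h w (Λ' w)
    exact Nat.card_pos
  generalize Nat.card ↥((f09_res H h).range ⊓ f09_V H h Λ' Λ) = a at *
  generalize Nat.card ↥((f09_res H h).range ⊓ f09_V H h Λ Λ') = a' at *
  generalize ∏ w, Nat.card (perpM H h w (Λ' w)) = q2 at *
  generalize ∏ w, Nat.card (perpM H h w (Λ w)) = p2 at *
  generalize ∏ w, Nat.card (Λ w) = q1 at *
  generalize ∏ w, Nat.card (Λ' w) = p1 at *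
  have h3 : q2 * (a * q1) ^ 2 = q2 * (a' * p1) ^ 2 := by
    calc q2 * (a * q1) ^ 2 = (a ^ 2 * (q1 * q2)) * q1 := by ring
      _ = (a' ^ 2 * (p1 * p2)) * q1 := by rw [h1]
      _ = a' ^ 2 * p1 * (q1 * p2) := by ring
      _ = a' ^ 2 * p1 * (p1 * q2) := by rw [h2]
      _ = q2 * (a' * p1) ^ 2 := by ring
  have h4 : a * q1 = a' * p1 :=
    Nat.pow_left_injective (n := 2) (by norm_num) (Nat.eq_of_mul_eq_mul_left hpos h3)
  calc _ = Nat.card (f09_res H h).ker * (a * q1) := by ring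
    _ = Nat.card (f09_res H h).ker * (a' * p1) := by rw [h4]
    _ = _ := by ring

theorem sel_rad (H : ParH S SD j χ inv κ θ φ) (h : SDual S χ κ θ O ρ b)
    {Λ Λ' : ∀ w, Submodule O (D w → M)} (hΛ : ∀ w, Betw (SD w) (fun d => ρ (j w d)) (Λ w))
    (hΛ' : ∀ w, Betw (SD w) (fun d => ρ (j w d)) (Λ' w)) (hle : ∀ w, Λ w ≤ Λ' w) {y : G → M}
    (hy : y ∈ selM h j Λ' fun w => perpM H h w (Λ w))
    (h0 : ∀ x ∈ selM h j Λ' fun w => perpM H h w (Λ w),
      ∑ w, inv w (cup11 (fun d => ρ (κ (j w d))) b (fun d => x (j w d))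
        (fun d => y (κ (j w d)))) = 0) :
    y ∈ (selM h j Λ fun w => perpM H h w (Λ w)) ⊔ selM h j Λ' fun w => perpM H h w (Λ' w) := by
  have := f09_fin H h
  have h1 := lag_perp (f09_B H h) (f09_symm H h) (f09_res H h).range (f09_V H h Λ' Λ)
    (f09_X H h) (f09_R H h hΛ hΛ')
  rw [f09_perpV H h hΛ hΛ'] at h1
  have h2 : ((0, fun w => ⟨fun d => y (κ (j w d)), (hy.2.2 w).1⟩) : f09_Z S h SD j) ∈
      perpL (f09_B H h) ((f09_res H h).range ⊓ f09_V H h Λ' Λ) := by
    rintro _ ⟨⟨x, rfl⟩, hx⟩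
    rw [f09_B_apply]
    refine Eq.trans (Finset.sum_congr rfl fun w _ => ?_) (h0 x ⟨x.2, hx⟩)
    simp only [Pi.zero_apply, map_zero, AddMonoidHom.zero_apply, add_zero]
    rfl
  rw [h1] at h2
  obtain ⟨_, ⟨x₀, rfl⟩, v, hv, hxv⟩ := AddSubgroup.mem_sup.1 h2
  have e1 : ∀ w d, (x₀ : G → M) (j w d) + (v.1 w : D w → M) d = 0 := by
    intro w d
    have h3 := congrFun (congrArg Prod.fst hxv) w
    have h4 := congrArg (fun z : f06_A S h SD j w => (z : D w → M) d) h3
    exact h4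
  have e2 : ∀ w d, (x₀ : G → M) (κ (j w d)) + (v.2 w : D w → M) d = y (κ (j w d)) := by
    intro w d
    have h3 := congrFun (congrArg Prod.snd hxv) w
    have h4 := congrArg (fun z : f06_A' S h SD j w => (z : D w → M) d) h3
    exact h4
  have f1 : ∀ w, (fun d => (x₀ : G → M) (j w d)) ∈ Λ w := by
    intro w
    have h3 : (fun d => (x₀ : G → M) (j w d)) = -(v.1 w : D w → M) := by
      funext d
      exact eq_neg_of_add_eq_zero_left (e1 w d)
    rw [h3]
    exact (Λ w).neg_mem (hv.1 w)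
  have f2 : ∀ w, (fun d => (x₀ : G → M) (κ (j w d))) ∈ perpM H h w (Λ w) := by
    intro w
    have h3 : (fun d => (x₀ : G → M) (κ (j w d))) =
        (fun d => y (κ (j w d))) - (v.2 w : D w → M) := by
      funext d
      exact eq_sub_of_add_eq (e2 w d)
    rw [h3]
    exact (perpM H h w (Λ w)).sub_mem (hy.2.2 w) (perp_anti H h w (hle w) (hv.2 w))
  have hx0 : (x₀ : G → M) ∈ selM h j Λ fun w => perpM H h w (Λ w) := ⟨x₀.2, f1, f2⟩
  have hyx : y - (x₀ : G → M) ∈ selM h j Λ' fun w => perpM H h w (Λ' w) := by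
    refine ⟨?_, fun w => ?_, fun w => ?_⟩
    · exact (zM (O := O) S h.act (fun g => h.lin _)).sub_mem hy.1 x₀.2
    · exact (Λ' w).sub_mem (hy.2.1 w) (hle w (f1 w))
    · have h3 : (fun d => (y - (x₀ : G → M)) (κ (j w d))) = (v.2 w : D w → M) := by
        funext d
        show y (κ (j w d)) - (x₀ : G → M) (κ (j w d)) = _
        rw [← e2 w d]
        abel
      rw [h3]
      exact hv.2 w
  have h5 : y = (x₀ : G → M) + (y - (x₀ : G → M)) := by abel
  rw [h5]
  exact Submodule.add_mem_sup hx0 hyx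

end Pool.Agent.Work.MP_787500_nt.GP
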