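import Mathlib
import Pool.Agent.Work.MP_787500_nt.GP.F04_Alt
import Pool.Agent.Work.MP_787500_nt.GP.F08_AltZ
import Pool.Agent.Work.MP_787500_nt.GP.F09_Space

/-!
# Module F10_CHANGE (size M): changing the local conditions

Let `Λ ≤ Λ'`, `A = selM Λ (perpM Λ)`, `A' = selM Λ' (perpM Λ')`, `U = selM Λ' (perpM Λ)`,
`L = selM Λ (perpM Λ') = A ⊓ A'`. On `U` the form
`β x y = ∑ w, inv w (x ∘ j w ∪ y ∘ κ ∘ j w)` is biadditive (`LocH.add`, `cup11_Z2`), balanced (`bal`, `lin`)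
and alternating: `β (a • x) x = 0` by `alt_zero`. Its (left = right) radical is `A ⊔ A'`: `⊆` is `sel_rad`;
`⊇`: for `x ∈ U`: if `y ∈ A'` then `y ∘ κ ∘ j w ∈ perpM (Λ' w)` and `x ∘ j w ∈ Λ' w`, so `β x y = 0`; if
`y ∈ A`: `β x y = -β y x` (`recip_sel`) and `y ∘ j w ∈ Λ w`, `x ∘ κ ∘ j w ∈ perpM (Λ w)`, so 0.
By `alt_card` `|U| = q ^ (2 m) |A ⊔ A'|`; `|A ⊔ A'| |L| = |A| |A'|`; `sel_count`:
`|U| ∏ |Λ w| = |L| ∏ |Λ' w|`. So
`|A| |A'| q ^ (2 m) ∏ |Λ w| = |A ⊔ A'| |L| q ^ (2 m) ∏ |Λ w| = |U| |L| ∏ |Λ w| = |L|² ∏ |Λ' w|`, and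
`(|A| ∏ |Λ w|) (|A'| ∏ |Λ' w|) q ^ (2 m) = (|L| ∏ |Λ' w|)²`. All cards are powers of `q` (`card_pow`):
`evPow_cancel`, `evPow_sq`.
-/

set_option autoImplicit false
set_option linter.unusedSectionVars false

namespace Pool.Agent.Work.MP_787500_nt.GP

open Pool.Agent.Work.MP_787500_nt.PA (TwoSys Sm1 Sm2 homs Coc Cob IsChar)

variable {G : Type*} [Group G] {S : TwoSys G} {Φ : Type*} [Fintype Φ] {D : Φ → Type*}
  [∀ w, Group (D w)] {SD : ∀ w, TwoSys (D w)} {j : ∀ w, D w →* G} {χ : G → ℤ_[2]}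
  {inv : ∀ w, (D w → D w → A0) → A0} {κ : G →* G} {θ φ : G}
  {O : Type*} [CommRing O] {M : Type*} [AddCommGroup M] [Module O M] [Finite M]
  {ρ : G → M → M} {b : M →+ M →+ A0}

private theorem f10_card {Z : Type*} [AddCommGroup Z] (A B : AddSubgroup Z) :
    Nat.card ↥(A ⊔ B) * Nat.card ↥(A ⊓ B) = Nat.card A * Nat.card B := by
  have h1 : B.relIndex (A ⊔ B) = B.relIndex A := AddSubgroup.relIndex_sup_right _ _
  have h2 : B.relIndex (A ⊔ B) * Nat.card B = Nat.card ↥(A ⊔ B) := by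
    have h3 := AddSubgroup.relIndex_mul_relIndex (⊥ : AddSubgroup Z) B (A ⊔ B) bot_le le_sup_right
    rwa [AddSubgroup.relIndex_bot_left, AddSubgroup.relIndex_bot_left, mul_comm] at h3
  have h4 : B.relIndex A * Nat.card ↥(A ⊓ B) = Nat.card A := by
    have h3 := AddSubgroup.relIndex_mul_relIndex (⊥ : AddSubgroup Z) (A ⊓ B) A bot_le inf_le_left
    rwa [AddSubgroup.relIndex_bot_left, AddSubgroup.relIndex_bot_left, mul_comm,
      AddSubgroup.inf_relIndex_left] at h3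
  rw [← h2, ← h4, h1]
  ring

private theorem f10_cards {Z : Type*} [AddCommGroup Z] [Module O Z] (A B : Submodule O Z) :
    Nat.card ↥(A ⊔ B) * Nat.card ↥(A ⊓ B) = Nat.card A * Nat.card B := by
  have h := f10_card A.toAddSubgroup B.toAddSubgroup
  have e1 : A.toAddSubgroup ⊔ B.toAddSubgroup = (A ⊔ B).toAddSubgroup := by
    ext x
    rw [AddSubgroup.mem_sup]
    show _ ↔ x ∈ A ⊔ B
    rw [Submodule.mem_sup]
    rfl
  rw [e1] at h
  exact h

/-- the form on the cocycles with local conditions -/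
private noncomputable def f10_B (H : ParH S SD j χ inv κ θ φ) (h : SDual S χ κ θ O ρ b)
    (Λ Γ : ∀ w, Submodule O (D w → M)) :
    selM h j Λ Γ →+ selM h j Λ Γ →+ A0 :=
  AddMonoidHom.mk' (fun x => AddMonoidHom.mk'
    (fun y => ∑ w, f06_B H h w ((f09_res H h ⟨x.1, x.2.1⟩).1 w) ((f09_res H h ⟨y.1, y.2.1⟩).2 w))
    (fun y y' => by
      rw [← Finset.sum_add_distrib]
      exact Finset.sum_congr rfl fun w _ => map_add (f06_B H h w _)
        ((f09_res H h ⟨y.1, y.2.1⟩).2 w) ((f09_res H h ⟨y'.1, y'.2.1⟩).2 w)))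
    (fun x x' => by
      ext y
      show ∑ w, f06_B H h w ((f09_res H h ⟨x.1, x.2.1⟩).1 w + (f09_res H h ⟨x'.1, x'.2.1⟩).1 w)
          ((f09_res H h ⟨y.1, y.2.1⟩).2 w) =
        ∑ w, f06_B H h w ((f09_res H h ⟨x.1, x.2.1⟩).1 w) ((f09_res H h ⟨y.1, y.2.1⟩).2 w) +
        ∑ w, f06_B H h w ((f09_res H h ⟨x'.1, x'.2.1⟩).1 w) ((f09_res H h ⟨y.1, y.2.1⟩).2 w)
      rw [← Finset.sum_add_distrib]
      refine Finset.sum_congr rfl fun w _ => ?_
      rw [map_add, AddMonoidHom.add_apply])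

private theorem f10_B_apply (H : ParH S SD j χ inv κ θ φ) (h : SDual S χ κ θ O ρ b)
    (Λ Γ : ∀ w, Submodule O (D w → M)) (x y : selM h j Λ Γ) : f10_B H h Λ Γ x y =
      ∑ w, inv w (cup11 (fun d => ρ (κ (j w d))) b (fun d => (x : G → M) (j w d))
        (fun d => (y : G → M) (κ (j w d)))) := rfl

private theorem f10_symm (H : ParH S SD j χ inv κ θ φ) (h : SDual S χ κ θ O ρ b)
    (Λ Γ : ∀ w, Submodule O (D w → M)) (x y : selM h j Λ Γ) :
    f10_B H h Λ Γ x y = -f10_B H h Λ Γ y x := by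
  have h1 := recip_sel H h x.2.1 y.2.1
  rw [Finset.sum_add_distrib] at h1
  rw [f10_B_apply, f10_B_apply]
  exact eq_neg_of_add_eq_zero_left h1

private theorem f10_bal (H : ParH S SD j χ inv κ θ φ) (h : SDual S χ κ θ O ρ b)
    (Λ Γ : ∀ w, Submodule O (D w → M)) (a : O) (x y : selM h j Λ Γ) :
    f10_B H h Λ Γ (a • x) y = f10_B H h Λ Γ x (a • y) := by
  rw [f10_B_apply, f10_B_apply]
  refine Finset.sum_congr rfl fun w _ => congrArg (inv w) ?_
  funext s t
  show b (a • (x : G → M) (j w s)) (ρ (κ (j w s)) ((y : G → M) (κ (j w t)))) =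
    b ((x : G → M) (j w s)) (ρ (κ (j w s)) (a • (y : G → M) (κ (j w t))))
  rw [h.lin, h.bal]

theorem change [IsLocalRing O] [Finite (IsLocalRing.ResidueField O)]
    (H : ParH S SD j χ inv κ θ φ) (h : SDual S χ κ θ O ρ b)
    {Λ Λ' : ∀ w, Submodule O (D w → M)} (hΛ : ∀ w, Betw (SD w) (fun d => ρ (j w d)) (Λ w))
    (hΛ' : ∀ w, Betw (SD w) (fun d => ρ (j w d)) (Λ' w)) (hle : ∀ w, Λ w ≤ Λ' w) :
    EvPow (Nat.card (IsLocalRing.ResidueField O))
      ((Nat.card (selM h j Λ fun w => perpM H h w (Λ w)) * ∏ w, Nat.card (Λ w)) *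
        (Nat.card (selM h j Λ' fun w => perpM H h w (Λ' w)) * ∏ w, Nat.card (Λ' w))) := by
  classical
  have hAU : (selM h j Λ fun w => perpM H h w (Λ w)) ≤ selM h j Λ' fun w => perpM H h w (Λ w) :=
    fun x hx => ⟨hx.1, fun w => hle w (hx.2.1 w), hx.2.2⟩
  have hAU' : (selM h j Λ' fun w => perpM H h w (Λ' w)) ≤ selM h j Λ' fun w => perpM H h w (Λ w) :=
    fun x hx => ⟨hx.1, hx.2.1, fun w => perp_anti H h w (hle w) (hx.2.2 w)⟩
  have hinf : (selM h j Λ fun w => perpM H h w (Λ w)) ⊓ (selM h j Λ' fun w => perpM H h w (Λ' w)) =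
      selM h j Λ fun w => perpM H h w (Λ' w) := by
    apply le_antisymm
    · rintro x ⟨h1, h2⟩
      exact ⟨h1.1, h1.2.1, h2.2.2⟩
    · intro x hx
      exact ⟨⟨hx.1, hx.2.1, fun w => perp_anti H h w (hle w) (hx.2.2 w)⟩,
        ⟨hx.1, fun w => hle w (hx.2.1 w), hx.2.2⟩⟩
  have hfU := sel_finite H h Λ' fun w => perpM H h w (Λ w)
  have hfA := sel_finite H h Λ fun w => perpM H h w (Λ w)
  have hfA' := sel_finite H h Λ' fun w => perpM H h w (Λ' w)
  have hfL := sel_finite H h Λ fun w => perpM H h w (Λ' w)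
  have hfΛ : ∀ w, Finite (Λ w) := fun w => betw_finite H h w (hΛ w)
  have hfΛ' : ∀ w, Finite (Λ' w) := fun w => betw_finite H h w (hΛ' w)
  obtain ⟨m, hm⟩ := alt_card (O := O) (f10_B H h Λ' fun w => perpM H h w (Λ w))
    (fun a x y => f10_bal H h _ _ a x y)
    (fun a x => alt_zero H h x.2.1 a)
    (((selM h j Λ fun w => perpM H h w (Λ w)) ⊔
      selM h j Λ' fun w => perpM H h w (Λ' w)).comap
        (selM h j Λ' fun w => perpM H h w (Λ w)).subtype) (by
      intro x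
      constructor
      · intro hx y
        obtain ⟨x₁, hx₁, x₂, hx₂, hxx⟩ := Submodule.mem_sup.1 hx
        have e1 : x = ⟨x₁, hAU hx₁⟩ + ⟨x₂, hAU' hx₂⟩ := Subtype.ext hxx.symm
        rw [e1, map_add, AddMonoidHom.add_apply]
        have e2 : f10_B H h Λ' (fun w => perpM H h w (Λ w)) ⟨x₁, hAU hx₁⟩ y = 0 := by
          rw [f10_B_apply]
          refine Finset.sum_eq_zero fun w _ => ?_
          exact (y.2.2.2 w).2 _ (hx₁.2.1 w) (Z1.comp (H.jsm w) hx₁.1)
        have e3 : f10_B H h Λ' (fun w => perpM H h w (Λ w)) ⟨x₂, hAU' hx₂⟩ y = 0 := by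
          rw [f10_symm, neg_eq_zero, f10_B_apply]
          refine Finset.sum_eq_zero fun w _ => ?_
          exact (hx₂.2.2 w).2 _ (y.2.2.1 w) (Z1.comp (H.jsm w) y.2.1)
        rw [e2, e3, add_zero]
      · intro hx
        refine sel_rad H h hΛ hΛ' hle x.2 fun y hy => ?_
        have h1 := hx ⟨y, hy⟩
        rw [f10_symm, neg_eq_zero, f10_B_apply] at h1
        exact h1)
  have hN : Nat.card (((selM h j Λ fun w => perpM H h w (Λ w)) ⊔
      selM h j Λ' fun w => perpM H h w (Λ' w)).comap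
        (selM h j Λ' fun w => perpM H h w (Λ w)).subtype) =
      Nat.card ↥((selM h j Λ fun w => perpM H h w (Λ w)) ⊔
        selM h j Λ' fun w => perpM H h w (Λ' w)) :=
    Nat.card_congr ⟨fun x => ⟨x.1.1, x.2⟩, fun x => ⟨⟨x.1, sup_le hAU hAU' x.2⟩, x.2⟩,
      fun x => rfl, fun x => rfl⟩
  rw [hN] at hm
  have h2 := f10_cards (selM h j Λ fun w => perpM H h w (Λ w))
    (selM h j Λ' fun w => perpM H h w (Λ' w))
  rw [hinf] at h2
  have h3 := sel_count H h hΛ hΛ' hle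
  have pw := fun (N : Submodule O (G → M)) (_ : Finite N) => card_pow (O := O) N
  have pA := pw _ hfA
  have pA' := pw _ hfA'
  have pL := pw _ hfL
  have pΛ : ∀ {Λ : ∀ w, Submodule O (D w → M)}, (∀ w, Finite (Λ w)) →
      IsPow (Nat.card (IsLocalRing.ResidueField O)) (∏ w, Nat.card (Λ w)) := by
    intro Λ hf
    refine Finset.prod_induction _ (IsPow _) (fun a b => isPow_mul) ⟨0, by simp⟩ fun w _ => ?_
    have := hf w
    exact card_pow (O := O) (Λ w)
  have p1 := pΛ hfΛ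
  have p2 := pΛ hfΛ'
  have hposL : 0 < Nat.card (selM h j Λ fun w => perpM H h w (Λ' w)) := Nat.card_pos
  have hposS : 0 < Nat.card ↥((selM h j Λ fun w => perpM H h w (Λ w)) ⊔
        selM h j Λ' fun w => perpM H h w (Λ' w)) := by
    rcases Nat.eq_zero_or_pos (Nat.card ↥((selM h j Λ fun w => perpM H h w (Λ w)) ⊔
        selM h j Λ' fun w => perpM H h w (Λ' w))) with h0 | h0
    · exfalso
      rw [h0, mul_zero] at hm
      exact Nat.card_pos.ne' hm
    · exact h0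
  generalize Nat.card (selM h j Λ fun w => perpM H h w (Λ w)) = A at *
  generalize Nat.card (selM h j Λ' fun w => perpM H h w (Λ' w)) = A' at *
  generalize Nat.card (selM h j Λ' fun w => perpM H h w (Λ w)) = U at *
  generalize Nat.card (selM h j Λ fun w => perpM H h w (Λ' w)) = L at *
  generalize ∏ w, Nat.card (Λ w) = P at *
  generalize ∏ w, Nat.card (Λ' w) = P' at *
  refine evPow_cancel (b := Nat.card (IsLocalRing.ResidueField O) ^ (2 * m)) q_two_le
    (isPow_mul (isPow_mul pA p1) (isPow_mul pA' p2)) ⟨m, rfl⟩ ?_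
  have e : A * P * (A' * P') * Nat.card (IsLocalRing.ResidueField O) ^ (2 * m) = (L * P') ^ 2 := by
    calc A * P * (A' * P') * Nat.card (IsLocalRing.ResidueField O) ^ (2 * m)
        = (A * A') * P * P' * Nat.card (IsLocalRing.ResidueField O) ^ (2 * m) := by ring
      _ = (Nat.card (IsLocalRing.ResidueField O) ^ (2 * m) *
          Nat.card ↥((selM h j Λ fun w => perpM H h w (Λ w)) ⊔
            selM h j Λ' fun w => perpM H h w (Λ' w))) * P * L * P' := by
        rw [← h2]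
        ring
      _ = (U * P) * L * P' := by rw [← hm]
      _ = (L * P') ^ 2 := by
        rw [h3]
        ring
  rw [e]
  exact evPow_sq (isPow_mul pL p2)

end Pool.Agent.Work.MP_787500_nt.GP
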