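import Mathlib
import Pool.Agent.Work.MP_787500_nt.GP.F01_Card
import Pool.Agent.Work.MP_787500_nt.GP.F03_Pow

/-!
# Module F11_SUB (size M-L): a nonzero self-dual module has a smaller self-dual subquotient

`SubQ`: `e ∈ M` is a nonzero fixed vector killed by the maximal ideal, `i : M₁ → M` is the inclusion of
`{m | b (a e) m = 0 for all a ∈ O}` (the annihilator of `N = O e`) and `π : M₁ → Mb` is the quotient by `N`.
Existence: `e` from `exists_fixed`. `M₁ = {m | ∀ a : O, b (a • e) m = 0}` is a submodule (`bal`), stable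
under `ρ g`: `b (a e) (ρ g m) = b (ρ (κ g) (a e)) (ρ (κ (κ g)) m) = χ (κ g) b (a e) m = 0` (`eqv`, `lin`,
`kk`). `N ≤ M₁`: `b (a e) (a' e) = b (a a' e) (ρ θ e) = 0` (`bal`, `symm`, `SDual.alt`). `Mb = M₁ ⧸ N`
(with `N` as a submodule of `M₁`), `ρb` induced, `bb (π m) (π m') = b m m'` well defined. `nd` for `bb`: if
`b m m' = 0` for all `m' ∈ M₁ = perpL b N` then `m ∈ N` by `perp_perp` (`b.flip = b`, trivial kernels).
The remaining clauses of `SDual` are inherited. `Nat.card Mb < Nat.card M`: `card Mb * card N = card M₁`,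
`card N > 1`.
-/

set_option autoImplicit false
set_option linter.unusedSectionVars false

namespace Pool.Agent.Work.MP_787500_nt.GP

open Pool.Agent.Work.MP_787500_nt.PA (TwoSys Sm1 Sm2 homs Coc Cob IsChar)

universe u v

/-- the subquotient `N⊥ / N` of `M`, `N = O e` -/
structure SubQ {G : Type*} [Group G] {O : Type*} [CommRing O] [IsLocalRing O] {M M₁ Mb : Type*}
    [AddCommGroup M] [Module O M] [AddCommGroup M₁] [Module O M₁] [AddCommGroup Mb] [Module O Mb]
    (ρ : G → M → M) (b : M →+ M →+ A0) (ρ₁ : G → M₁ → M₁) (ρb : G → Mb → Mb)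
    (bb : Mb →+ Mb →+ A0) (e : M) (i : M₁ →ₗ[O] M) (π : M₁ →ₗ[O] Mb) : Prop where
  ene : e ≠ 0
  em : ∀ a ∈ IsLocalRing.maximalIdeal O, a • e = 0
  efix : ∀ g, ρ g e = e
  iinj : Function.Injective i
  iran : ∀ m, (∀ a : O, b (a • e) m = 0) ↔ ∃ m₁, i m₁ = m
  psurj : Function.Surjective π
  pker : ∀ m₁, π m₁ = 0 ↔ ∃ a : O, i m₁ = a • e
  act₁ : IsAct ρ₁
  eqi : ∀ g m₁, i (ρ₁ g m₁) = ρ g (i m₁)
  eqp : ∀ g m₁, π (ρ₁ g m₁) = ρb g (π m₁)
  pair : ∀ m m', bb (π m) (π m') = b (i m) (i m')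

private theorem f11_bb {A B : Type*} [AddCommGroup A] [AddCommGroup B] (π : A →+ B)
    (hπ : Function.Surjective π) (β : A →+ A →+ A0) (h1 : ∀ x y, π x = 0 → β x y = 0)
    (h2 : ∀ x y, π y = 0 → β x y = 0) :
    ∃ bb : B →+ B →+ A0, ∀ x y, bb (π x) (π y) = β x y := by
  let s := Function.surjInv hπ
  have hs : ∀ y, π (s y) = y := Function.surjInv_eq hπ
  have e1 : ∀ x x' y, π x = π x' → β x y = β x' y := by
    intro x x' y h
    have h3 := h1 (x - x') y (by rw [map_sub, h, sub_self])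
    rw [map_sub, AddMonoidHom.sub_apply] at h3
    exact sub_eq_zero.1 h3
  have e2 : ∀ x y y', π y = π y' → β x y = β x y' := by
    intro x y y' h
    have h3 := h2 x (y - y') (by rw [map_sub, h, sub_self])
    rw [map_sub] at h3
    exact sub_eq_zero.1 h3
  refine ⟨AddMonoidHom.mk' (fun x => AddMonoidHom.mk' (fun y => β (s x) (s y)) ?_) ?_, ?_⟩
  · intro y y'
    rw [← map_add]
    exact e2 _ _ _ (by rw [map_add, hs, hs, hs])
  · intro x x'
    ext y
    show β (s (x + x')) (s y) = β (s x) (s y) + β (s x') (s y)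
    rw [← AddMonoidHom.add_apply, ← map_add]
    exact e1 _ _ _ (by rw [map_add, hs, hs, hs])
  · intro x y
    show β (s (π x)) (s (π y)) = β x y
    rw [e1 _ x _ (hs _), e2 _ _ y (hs _)]

theorem exists_sub {G : Type*} [Group G] {S : TwoSys G} {χ : G → ℤ_[2]} {κ : G →* G} {θ : G}
    (kk : ∀ g, κ (κ g) = g) {O : Type v} [CommRing O] [IsLocalRing O]
    [Finite (IsLocalRing.ResidueField O)] (h2 : (2 : O) ∈ IsLocalRing.maximalIdeal O)
    {M : Type u} [AddCommGroup M] [Module O M] [Finite M] [Nontrivial M]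
    {ρ : G → M → M} {b : M →+ M →+ A0} (h : SDual S χ κ θ O ρ b) :
    ∃ (M₁ : Type u) (_ : AddCommGroup M₁) (_ : Module O M₁) (Mb : Type u) (_ : AddCommGroup Mb)
      (_ : Module O Mb) (ρ₁ : G → M₁ → M₁) (ρb : G → Mb → Mb) (bb : Mb →+ Mb →+ A0) (e : M)
      (i : M₁ →ₗ[O] M) (π : M₁ →ₗ[O] Mb), Finite M₁ ∧ Finite Mb ∧ SDual S χ κ θ O ρb bb ∧
      SubQ ρ b ρ₁ ρb bb e i π ∧ Nat.card Mb < Nat.card M := by
  classical
  obtain ⟨e, he0, hem, hef⟩ := exists_fixed (O := O) (S := S) h.act h.lin h.sm h2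
  let M₁ : Submodule O M :=
    { carrier := {m | ∀ a : O, b (a • e) m = 0}
      add_mem' := fun hx hy a => by rw [map_add, hx a, hy a, add_zero]
      zero_mem' := fun a => map_zero _
      smul_mem' := fun c x hx a => by
        rw [← h.bal, smul_smul]
        exact hx _ }
  have hM₁ : ∀ m, m ∈ M₁ ↔ ∀ a : O, b (a • e) m = 0 := fun m => Iff.rfl
  have hst : ∀ g, ∀ m ∈ M₁, ρ g m ∈ M₁ := by
    intro g m hm a
    have h1 := h.eqv (κ g) (a • e) m
    rw [h.lin, hef, kk, hm a, smul_zero] at h1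
    exact h1
  have heM : e ∈ M₁ := by
    intro a
    have h1 := h.alt a e
    rwa [hef] at h1
  let r₁ : G → M₁ →ₗ[O] M₁ := fun g =>
    { toFun := fun m => ⟨ρ g m, hst g m m.2⟩
      map_add' := fun x y => Subtype.ext (h.act.add g x y)
      map_smul' := fun a x => Subtype.ext (h.lin g a x) }
  have hr₁ : ∀ g (m : M₁), ((r₁ g m : M₁) : M) = ρ g m := fun g m => rfl
  let N : Submodule O M₁ := Submodule.span O {⟨e, heM⟩}
  have hN : ∀ m : M₁, m ∈ N ↔ ∃ a : O, (m : M) = a • e := by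
    intro m
    rw [Submodule.mem_span_singleton]
    constructor
    · rintro ⟨a, rfl⟩
      exact ⟨a, rfl⟩
    · rintro ⟨a, ha⟩
      exact ⟨a, Subtype.ext ha.symm⟩
  have hNst : ∀ g, N ≤ N.comap (r₁ g) := by
    intro g m hm
    obtain ⟨a, ha⟩ := (hN m).1 hm
    refine (hN _).2 ⟨a, ?_⟩
    rw [hr₁, ha, h.lin, hef]
  let β : M₁ →+ M₁ →+ A0 :=
    ((b.comp M₁.toAddSubgroup.subtype).flip.comp M₁.toAddSubgroup.subtype).flip
  have hβ : ∀ x y : M₁, β x y = b (x : M) (y : M) := fun x y => rfl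
  have hπs : Function.Surjective N.mkQ := Submodule.mkQ_surjective _
  have hker : ∀ m, N.mkQ m = 0 ↔ ∃ a : O, (m : M) = a • e := by
    intro m
    rw [← hN, Submodule.mkQ_apply, Submodule.Quotient.mk_eq_zero]
  obtain ⟨bb, hbb⟩ := f11_bb N.mkQ.toAddMonoidHom hπs β
    (by
      intro x y hx
      obtain ⟨a, ha⟩ := (hker x).1 hx
      rw [hβ, ha]
      exact y.2 a)
    (by
      intro x y hy
      obtain ⟨a, ha⟩ := (hker y).1 hy
      rw [hβ, ha, h.symm]
      exact x.2 a)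
  have hbb' : ∀ x y : M₁, bb (N.mkQ x) (N.mkQ y) = b (x : M) (y : M) := hbb
  let rb : G → (M₁ ⧸ N) →ₗ[O] (M₁ ⧸ N) := fun g => N.mapQ N (r₁ g) (hNst g)
  have hrb : ∀ g m, rb g (N.mkQ m) = N.mkQ (r₁ g m) := fun g m => Submodule.mapQ_apply _ _ _ _
  have hact₁ : IsAct fun g m => r₁ g m :=
    ⟨fun m => Subtype.ext (h.act.one m), fun g k m => Subtype.ext (h.act.mul g k m),
      fun g m m' => map_add _ _ _⟩
  have hpp := perp_perp b (Submodule.span O {e}).toAddSubgroup fun a ha => by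
    rw [h.nd a ha]
    exact AddSubgroup.zero_mem _
  refine ⟨M₁, inferInstance, inferInstance, M₁ ⧸ N, inferInstance, inferInstance,
    fun g m => r₁ g m, fun g m => rb g m, bb, e, M₁.subtype, N.mkQ, inferInstance,
    Finite.of_surjective _ hπs, ?_, ?_, ?_⟩
  · constructor
    · refine ⟨fun m => ?_, fun g k m => ?_, fun g m m' => map_add _ _ _⟩
      · obtain ⟨m, rfl⟩ := hπs m
        show rb 1 (N.mkQ m) = _
        rw [hrb]
        exact congrArg N.mkQ (hact₁.one m)
      · obtain ⟨m, rfl⟩ := hπs m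
        show rb (g * k) (N.mkQ m) = rb g (rb k (N.mkQ m))
        rw [hrb, hrb, hrb]
        exact congrArg N.mkQ (hact₁.mul g k m)
    · exact fun g a m => map_smul _ _ _
    · obtain ⟨W, hW, h1⟩ := h.sm
      refine ⟨W, hW, fun w hw m => ?_⟩
      obtain ⟨m, rfl⟩ := hπs m
      show rb w (N.mkQ m) = _
      rw [hrb]
      exact congrArg N.mkQ (Subtype.ext (h1 w hw m))
    · intro m m'
      obtain ⟨m, rfl⟩ := hπs m
      obtain ⟨m', rfl⟩ := hπs m'
      rw [hbb', hbb', h.symm]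
    · intro a m m'
      obtain ⟨m, rfl⟩ := hπs m
      obtain ⟨m', rfl⟩ := hπs m'
      rw [← map_smul, ← map_smul, hbb', hbb']
      exact h.bal a m m'
    · intro g m m'
      obtain ⟨m, rfl⟩ := hπs m
      obtain ⟨m', rfl⟩ := hπs m'
      show bb (rb g (N.mkQ m)) (rb (κ g) (N.mkQ m')) = _
      rw [hrb, hrb, hbb', hbb']
      exact h.eqv g m m'
    · intro m hm
      obtain ⟨m, rfl⟩ := hπs m
      rw [hker]
      have h3 : (m : M) ∈ perpL b.flip (perpL b (Submodule.span O {e}).toAddSubgroup) := by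
        intro a' ha'
        show b (m : M) a' = 0
        have h4 : a' ∈ M₁ := fun a => ha' _ (Submodule.mem_span_singleton.2 ⟨a, rfl⟩)
        have h5 := hm (N.mkQ ⟨a', h4⟩)
        rw [hbb'] at h5
        exact h5
      rw [hpp] at h3
      obtain ⟨a, ha⟩ := Submodule.mem_span_singleton.1 h3
      exact ⟨a, ha.symm⟩
    · intro a m
      obtain ⟨m, rfl⟩ := hπs m
      show bb (a • N.mkQ m) (rb θ (N.mkQ m)) = 0
      rw [hrb, ← map_smul, hbb']
      exact h.alt a m
  · refine ⟨he0, hem, hef, Subtype.val_injective, fun m => ?_, hπs, hker, hact₁, fun g m => rfl,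
      fun g m => (hrb g m).symm, hbb'⟩
    constructor
    · intro hm
      exact ⟨⟨m, hm⟩, rfl⟩
    · rintro ⟨m₁, rfl⟩
      exact m₁.2
  · have h3 := Submodule.card_eq_card_quotient_mul_card N
    have h4 : Nat.card M₁ ≤ Nat.card M := Nat.card_le_card_of_injective _ Subtype.val_injective
    have hfq : Finite (M₁ ⧸ N) := Finite.of_surjective _ hπs
    have h5 : 0 < Nat.card (M₁ ⧸ N) := Nat.card_pos
    have h6 : 1 < Nat.card N := by
      rw [Finite.one_lt_card_iff_nontrivial]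
      refine ⟨0, ⟨⟨e, heM⟩, Submodule.mem_span_singleton_self _⟩, fun h7 => he0 ?_⟩
      exact (congrArg (fun z : N => ((z : M₁) : M)) h7).symm
    nlinarith

end Pool.Agent.Work.MP_787500_nt.GP
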