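import Mathlib
import Pool.Agent.Work.MP_787500_nt.GP.T02_Ext
import Pool.Agent.Work.MP_787500_nt.GP.F03_Pow

/-!
# Module F12_HOMS (size M): homomorphisms to `O e`

`N = O e` is killed by 2 (`h2`, `em`), finite, of card `q` (`card_span`): a vector space over `ZMod 2` of
dimension `f`, `q = 2 ^ f`. Choose a basis: `N ≃ (Fin f → ZMod 2)` (additive). The set in question is in
bijection with `Fin f → homs T ⊤` (coordinates; a function to `N` is smooth iff its coordinates are), of
card `(2 ^ h) ^ f = q ^ h`, `h = finrank (homs T ⊤)`.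
-/

set_option autoImplicit false
set_option linter.unusedSectionVars false

namespace Pool.Agent.Work.MP_787500_nt.GP

open Pool.Agent.Work.MP_787500_nt.PA (TwoSys Sm1 Sm2 homs Coc Cob IsChar)

private theorem f12_sm {ι : Type*} [Finite ι] {X : Type*} [Group X] {T : TwoSys X} {A : ι → Type*}
    {x : ∀ i, X → A i} (h : ∀ i, Sm1 T (x i)) : Sm1 T (fun s i => x i s) := by
  classical
  have := Fintype.ofFinite ι
  have key : ∀ s : Finset ι, ∃ W, T.mem W ∧ ∀ i ∈ s, ∀ g, ∀ w ∈ W, x i (g * w) = x i g := by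
    intro s
    induction s using Finset.induction_on with
    | empty =>
      obtain ⟨W, hW⟩ := T.ex
      exact ⟨W, hW, fun i hi => absurd hi (Finset.notMem_empty i)⟩
    | insert a s ha ih =>
      obtain ⟨W, hW, h1⟩ := ih
      obtain ⟨W', hW', h2⟩ := h a
      refine ⟨W ⊓ W', T.inf hW hW', fun i hi g w hw => ?_⟩
      rcases Finset.mem_insert.1 hi with rfl | hi
      · exact h2 g w hw.2
      · exact h1 i hi g w hw.1
  obtain ⟨W, hW, h1⟩ := key Finset.univ
  exact ⟨W, hW, fun g w hw => funext fun i => h1 i (Finset.mem_univ i) g w hw⟩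

private theorem f12_coord {O : Type*} [CommRing O] [IsLocalRing O]
    [Finite (IsLocalRing.ResidueField O)] (h2 : (2 : O) ∈ IsLocalRing.maximalIdeal O)
    {M : Type*} [AddCommGroup M] [Module O M] {e : M} (he : e ≠ 0)
    (hm : ∀ a ∈ IsLocalRing.maximalIdeal O, a • e = 0) :
    ∃ (f : ℕ) (_ : Submodule.span O {e} ≃+ (Fin f → ZMod 2)),
      Nat.card (IsLocalRing.ResidueField O) = 2 ^ f := by
  have hc := card_span he hm
  have hq := q_two_le (O := O)
  have hfin : Finite (Submodule.span O {e}) := Nat.finite_of_card_ne_zero (by omega)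
  have htwo : ∀ x : Submodule.span O {e}, 2 • x = 0 := by
    intro x
    obtain ⟨a, ha⟩ := Submodule.mem_span_singleton.1 x.2
    apply Subtype.ext
    show (2 : ℕ) • (x : M) = 0
    rw [← ha, two_nsmul, ← add_smul]
    apply hm
    rw [← two_mul]
    exact Ideal.mul_mem_right _ _ h2
  let _ : Module (ZMod 2) (Submodule.span O {e}) := AddCommGroup.zmodModule htwo
  have : Module.Finite (ZMod 2) (Submodule.span O {e}) := Module.Finite.of_finite
  have B := Module.finBasis (ZMod 2) (Submodule.span O {e})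
  refine ⟨_, B.equivFun.toAddEquiv, ?_⟩
  rw [← hc, Nat.card_congr B.equivFun.toEquiv, Nat.card_fun, Nat.card_zmod, Nat.card_fin]

theorem card_homs_span {O : Type*} [CommRing O] [IsLocalRing O]
    [Finite (IsLocalRing.ResidueField O)] (h2 : (2 : O) ∈ IsLocalRing.maximalIdeal O)
    {M : Type*} [AddCommGroup M] [Module O M] {e : M} (he : e ≠ 0)
    (hm : ∀ a ∈ IsLocalRing.maximalIdeal O, a • e = 0) {X : Type*} [Group X] {T : TwoSys X}
    (hfin : FiniteDimensional (ZMod 2) (homs T ⊤)) :
    Nat.card {x : X → M // (Sm1 T x ∧ ∀ s t, x (s * t) = x s + x t) ∧ ∀ s, ∃ a : O, x s = a • e} =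
      Nat.card (IsLocalRing.ResidueField O) ^ Module.finrank (ZMod 2) (homs T ⊤) := by
  obtain ⟨f, E, hf⟩ := f12_coord h2 he hm
  have hmem : ∀ (x : X → M), (∀ s, ∃ a : O, x s = a • e) → ∀ s, x s ∈ Submodule.span O {e} := by
    intro x hx s
    obtain ⟨a, ha⟩ := hx s
    rw [ha]
    exact Submodule.mem_span_singleton.2 ⟨a, rfl⟩
  have key : {x : X → M // (Sm1 T x ∧ ∀ s t, x (s * t) = x s + x t) ∧ ∀ s, ∃ a : O, x s = a • e} ≃
      (Fin f → homs T ⊤) :=
    { toFun := fun x i => ⟨fun s => E ⟨x.1 s, hmem x.1 x.2.2 s⟩ i, by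
        obtain ⟨x, ⟨⟨W, hW, h3⟩, h4⟩, h5⟩ := x
        refine ⟨⟨W, hW, fun g w hw => ?_⟩, fun g hg => absurd trivial hg, fun g _ h _ => ?_⟩
        · simp only [h3 g w hw]
        · have h6 : (⟨x (g * h), hmem x h5 _⟩ : Submodule.span O {e}) =
              ⟨x g, hmem x h5 _⟩ + ⟨x h, hmem x h5 _⟩ := Subtype.ext (h4 g h)
          simp only [h6, map_add, Pi.add_apply]⟩
      invFun := fun φ => ⟨fun s => (E.symm (fun i => (φ i : X → ZMod 2) s) : M), by
        refine ⟨⟨?_, fun s t => ?_⟩, fun s => ?_⟩
        · obtain ⟨W, hW, h3⟩ := f12_sm (T := T) (x := fun i => (φ i : X → ZMod 2))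
            (fun i => (φ i).2.1)
          refine ⟨W, hW, fun g w hw => ?_⟩
          have h4 := h3 g w hw
          simp only at h4
          simp only [h4]
        · have h4 : (fun i => (φ i : X → ZMod 2) (s * t)) =
              (fun i => (φ i : X → ZMod 2) s) + fun i => (φ i : X → ZMod 2) t := by
            funext i
            exact (φ i).2.2.2 s trivial t trivial
          simp only [h4, map_add]
          rfl
        · obtain ⟨a, ha⟩ := Submodule.mem_span_singleton.1
            (E.symm (fun i => (φ i : X → ZMod 2) s)).2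
          exact ⟨a, ha.symm⟩⟩
      left_inv := fun x => by
        apply Subtype.ext
        funext s
        show ((E.symm (fun i => E ⟨x.1 s, hmem x.1 x.2.2 s⟩ i) : Submodule.span O {e}) : M) = x.1 s
        rw [E.symm_apply_apply]
      right_inv := fun φ => by
        funext i
        apply Subtype.ext
        funext s
        show E ⟨(E.symm (fun i => (φ i : X → ZMod 2) s) : M), _⟩ i = _
        rw [Subtype.coe_eta, E.apply_symm_apply] }
  rw [Nat.card_congr key, Nat.card_fun, Nat.card_fin, hf, Module.natCard_eq_pow_finrank (K := ZMod 2),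
    Nat.card_zmod, ← pow_mul, ← pow_mul, mul_comm]

/-- every additive functional on `O e` with values in `A0` has values in `{0, 1/2}`; the functions
`x` with values in `O e` all of whose images under the functionals `b (·) m` are coboundaries are
coboundaries: a 2-cocycle `F` with values in `O e` (trivial action) such that for every `m` with
`hf (F_m s t) = b (F s t) m` the cocycle `F_m` is a coboundary is itself the coboundary of a smooth
function with values in `O e`. (Coordinates: the coordinate functionals of `O e ≃ (Fin f → ZMod 2)` are of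
the form `b (·) m`, by `hrep`.) -/
theorem cob_span {O : Type*} [CommRing O] [IsLocalRing O]
    [Finite (IsLocalRing.ResidueField O)] (h2 : (2 : O) ∈ IsLocalRing.maximalIdeal O)
    {M : Type*} [AddCommGroup M] [Module O M] {e : M} (he : e ≠ 0)
    (hm : ∀ a ∈ IsLocalRing.maximalIdeal O, a • e = 0) {b : M →+ M →+ A0}
    (hrep : ∀ f : M →+ A0, ∃ m, ∀ x, b x m = f x) {X : Type*} [Group X] {T : TwoSys X}
    {F : X → X → M} (hF : Sm2 T F) (hFe : ∀ s t, ∃ a : O, F s t = a • e)
    (hFc : ∀ r s t, F r s + F (r * s) t = F s t + F r (s * t))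
    (h0 : ∀ (m : M) (f : X → X → ZMod 2), Coc T ⊤ f → (∀ s t, hf (f s t) = b (F s t) m) →
      Cob T ⊤ f) :
    ∃ y : X → M, Sm1 T y ∧ (∀ s, ∃ a : O, y s = a • e) ∧ ∀ s t, F s t = y s + y t - y (s * t) := by
  obtain ⟨f, E, -⟩ := f12_coord h2 he hm
  have hmem : ∀ s t, F s t ∈ Submodule.span O {e} := by
    intro s t
    obtain ⟨a, ha⟩ := hFe s t
    rw [ha]
    exact Submodule.mem_span_singleton.2 ⟨a, rfl⟩
  have key : ∀ i : Fin f, Cob T ⊤ (fun s t => E ⟨F s t, hmem s t⟩ i) := by
    intro i
    obtain ⟨g, hg⟩ := ext_hom (Submodule.span O {e}).toAddSubgroup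
      (AddMonoidHom.mk' (fun n => hf (E n i)) (fun n n' => by
        show hf (E (n + n') i) = hf (E n i) + hf (E n' i)
        rw [map_add, Pi.add_apply, hf_add]))
    obtain ⟨m, hm'⟩ := hrep g
    refine h0 m _ ⟨?_, fun r _ s _ t _ => ?_⟩ (fun s t => ?_)
    · obtain ⟨W, hW, h3⟩ := hF
      refine ⟨W, hW, fun g h w hw w' hw' => ?_⟩
      simp only [h3 g h w hw w' hw']
    · have h4 : (⟨F r s, hmem r s⟩ : Submodule.span O {e}) + ⟨F (r * s) t, hmem _ _⟩ =
          ⟨F s t, hmem s t⟩ + ⟨F r (s * t), hmem _ _⟩ := Subtype.ext (hFc r s t)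
      have h5 := congrArg (fun n => E n i) h4
      simp only [map_add, Pi.add_apply] at h5
      exact h5
    · rw [hm']
      exact (hg ⟨F s t, hmem s t⟩).symm
  choose z hz1 hz2 using key
  refine ⟨fun s => (E.symm (fun i => z i s) : M), ?_, fun s => ?_, fun s t => ?_⟩
  · obtain ⟨W, hW, h3⟩ := f12_sm hz1
    refine ⟨W, hW, fun g w hw => ?_⟩
    have h4 := h3 g w hw
    simp only at h4
    simp only [h4]
  · obtain ⟨a, ha⟩ := Submodule.mem_span_singleton.1 (E.symm (fun i => z i s)).2
    exact ⟨a, ha.symm⟩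
  · have h4 : (⟨F s t, hmem s t⟩ : Submodule.span O {e}) =
        E.symm (fun i => z i s) + E.symm (fun i => z i t) - E.symm (fun i => z i (s * t)) := by
      apply E.injective
      rw [map_sub, map_add, E.apply_symm_apply, E.apply_symm_apply, E.apply_symm_apply]
      funext i
      show _ = z i s + z i t - z i (s * t)
      rw [CharTwo.sub_eq_add]
      exact hz2 i s trivial t trivial
    exact congrArg Subtype.val h4

end Pool.Agent.Work.MP_787500_nt.GP
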