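import Mathlib
import Pool.Agent.Work.MP_787500_nt.GP.F13_LocStep

/-!
# Module F14_GLOBSTEP (size M-L): the Selmer groups of `M` and of the subquotient

`A = selM Λ⁰ (perpM Λ⁰)` for `M` and `Λ⁰ = lam0`, `A' = selM Λ¹ (perpM Λ¹)` for `Mb` and `Λ¹ = lam1`.
* For `x ∈ A`, `b (a e) (x g) = 0` for all `g`: `hf (f g) = b (a e) (x g)` defines `f ∈ homs S ⊤` (see the
  first remark of F13), which vanishes on all `j w d` (`lam0`) and on all `κ (j w d)` (`val_perp`), so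
  `f = 0` by `GlobH.inj`. So `x = i ∘ x₁`, `x₁` a cocycle for `ρ₁`.
* `π ∘ x₁ ∈ A'`: `π ∘ x₁ ∘ j w ∈ lam1`; for `x' = π ∘ x₂ ∈ lam1`, `inv w (x' ∪ π x₁ ∘ κ ∘ j w)` is the
  invariant of `i x₂ ∪ x ∘ κ ∘ j w` (`SubQ.pair`), which is 0 since `i ∘ x₂ ∈ lam0`.
* Onto: let `x' ∈ A'`; `x₁ : G → M₁` smooth with `π ∘ x₁ = x'`; `F = i ∘ d1 ρ₁ x₁` has values in `O e` and
  is a cocycle (trivial action). Its components are coboundaries (`cob_span`, `GlobH.sha`): on `D w` since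
  `x' ∘ j w ∈ lam1` lifts to a cocycle `x₂`, so `F| = d (x₁ ∘ j w - x₂)` with `x₁ ∘ j w - x₂` with values in
  `O e`; on `κ (D w)` by `lift_perp`. So `x₁` can be corrected by a function with values in `O e` to a
  cocycle for `ρ₁`; `x = i ∘ x₁ ∈ A`: `x ∘ j w ∈ lam0`, and for `x'' ∈ lam0`, `x'' = i ∘ x₂`,
  `inv w (x'' ∪ x ∘ κ ∘ j w) = inv w (π x₂ ∪ x' ∘ κ ∘ j w) = 0`.
* The kernel of `A → A'` is the group of cocycles (homomorphisms) with values in `O e`: all of them are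
  in `A` (`O e` pairs to zero with `M₁`; `O e ≤ M₁`). Its card: `card_homs_span`.
-/

set_option autoImplicit false
set_option linter.unusedSectionVars false

namespace Pool.Agent.Work.MP_787500_nt.GP

open Pool.Agent.Work.MP_787500_nt.PA (TwoSys Sm1 Sm2 homs Coc Cob IsChar)

variable {G : Type*} [Group G] {S : TwoSys G} {Φ : Type*} [Fintype Φ] {D : Φ → Type*}
  [∀ w, Group (D w)] {SD : ∀ w, TwoSys (D w)} {j : ∀ w, D w →* G} {χ : G → ℤ_[2]}
  {inv : ∀ w, (D w → D w → A0) → A0} {κ : G →* G} {θ φ : G}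
  {O : Type*} [CommRing O] [IsLocalRing O] [Finite (IsLocalRing.ResidueField O)]
  {M : Type*} [AddCommGroup M] [Module O M] [Finite M]
  {ρ : G → M → M} {b : M →+ M →+ A0}

variable {M₁ Mb : Type*} [AddCommGroup M₁] [Module O M₁] [AddCommGroup Mb] [Module O Mb]
  [Finite M₁] [Finite Mb] {ρ₁ : G → M₁ → M₁} {ρb : G → Mb → Mb} {bb : Mb →+ Mb →+ A0} {e : M}
  {i : M₁ →ₗ[O] M} {π : M₁ →ₗ[O] Mb}

private theorem f14_kc (H : ParH S SD j χ inv κ θ φ) (w : Φ) :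
    ∀ W, S.mem W → ∃ W', (SD w).mem W' ∧ ∀ v ∈ W', (κ.comp (j w)) v ∈ W := by
  intro W hW
  obtain ⟨W', hW', h3⟩ := H.ksys W hW
  obtain ⟨W'', hW'', h4⟩ := H.jsm w W' hW'
  exact ⟨W'', hW'', fun v hv => h3 _ (h4 v hv)⟩

private theorem f14_val (H : ParH S SD j χ inv κ θ φ) (h2 : (2 : O) ∈ IsLocalRing.maximalIdeal O)
    (h : SDual S χ κ θ O ρ b) (hb : SDual S χ κ θ O ρb bb) (hs : SubQ ρ b ρ₁ ρb bb e i π)
    {x : G → M} (hx : x ∈ selM h j (lam0 h SD j e) fun w => perpM H h w (lam0 h SD j e w))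
    (a : O) (g : G) : b (a • e) (x g) = 0 := by
  obtain ⟨f, hf1, hf2⟩ := f13_hom (c := MonoidHom.id G) H h2 h hs a hx.1
  have hf0 : f = 0 := by
    refine H.glob.inj f hf1 ?_
    rintro ⟨w, _ | _⟩ d
    · apply hf_inj
      rw [hf_zero, ← hf2]
      exact (hx.2.1 w).2 a d
    · apply hf_inj
      rw [hf_zero, ← hf2]
      exact val_perp H h2 h hb hs w (hx.2.2 w) a d
  rw [hf2, hf0]
  exact hf_zero

/-- the sets of cocycles with values in `M₁` -/
private theorem f14_mem (H : ParH S SD j χ inv κ θ φ) (h2 : (2 : O) ∈ IsLocalRing.maximalIdeal O)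
    (h : SDual S χ κ θ O ρ b) (hb : SDual S χ κ θ O ρb bb) (hs : SubQ ρ b ρ₁ ρb bb e i π)
    {x : G → M₁} (hx : Z1 S ρ₁ x) :
    (fun g => i (x g)) ∈ selM h j (lam0 h SD j e) (fun w => perpM H h w (lam0 h SD j e w)) ↔
      (fun g => π (x g)) ∈ selM hb j (lam1 SD j hs.act₁ (lin₁ h hs) π)
        fun w => perpM H hb w (lam1 SD j hs.act₁ (lin₁ h hs) π w) := by
  have hk := f14_kc H
  have hxj : ∀ w, Z1 (SD w) (fun d => ρ₁ (j w d)) (fun d => x (j w d)) := fun w =>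
    Z1.comp (H.jsm w) hx
  have hxk : ∀ w, Z1 (SD w) (fun d => ρ₁ ((κ.comp (j w)) d)) (fun d => x ((κ.comp (j w)) d)) :=
    fun w => Z1.comp (hk w) hx
  constructor
  · intro h1
    refine ⟨f13_pZ (c := MonoidHom.id G) hs hx, fun w => ⟨fun d => x (j w d), hxj w, rfl⟩,
      fun w => ⟨f13_pZ (c := κ.comp (j w)) hs (hxk w), ?_⟩⟩
    rintro _ ⟨x₂, hx₂, rfl⟩ -
    have h3 := (h1.2.2 w).2 (fun d => i (x₂ d))
      ⟨f13_iZ (c := j w) hs hx₂, fun a d => (hs.iran _).2 ⟨_, rfl⟩ a⟩ (f13_iZ (c := j w) hs hx₂)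
    rw [← h3]
    exact congrArg (inv w) (f13_cup (c := κ.comp (j w)) hs x₂ fun d => x (κ (j w d)))
  · intro h1
    refine ⟨f13_iZ (c := MonoidHom.id G) hs hx, fun w => ⟨f13_iZ (c := j w) hs (hxj w),
      fun a d => (hs.iran _).2 ⟨_, rfl⟩ a⟩, fun w => ⟨f13_iZ (c := κ.comp (j w)) hs (hxk w), ?_⟩⟩
    intro x₂ hx₂ _
    obtain ⟨x₃, h4, h5⟩ := f13_lift (c := j w) hs hx₂.1 hx₂.2
    have h6 : x₂ = fun d => i (x₃ d) := funext fun d => (h5 d).symm
    have h3 := (h1.2.2 w).2 (fun d => π (x₃ d)) ⟨x₃, h4, rfl⟩ (f13_pZ (c := j w) hs h4)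
    rw [← h3, h6]
    exact congrArg (inv w) (f13_cup (c := κ.comp (j w)) hs x₃ fun d => x (κ (j w d))).symm

private theorem f14_onto (H : ParH S SD j χ inv κ θ φ)
    (h2 : (2 : O) ∈ IsLocalRing.maximalIdeal O)
    (h : SDual S χ κ θ O ρ b) (hb : SDual S χ κ θ O ρb bb) (hs : SubQ ρ b ρ₁ ρb bb e i π)
    {x : G → Mb} (hx : x ∈ selM hb j (lam1 SD j hs.act₁ (lin₁ h hs) π)
        fun w => perpM H hb w (lam1 SD j hs.act₁ (lin₁ h hs) π w)) :
    ∃ x₁, Z1 S ρ₁ x₁ ∧ ∀ g, π (x₁ g) = x g := by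
  have hk := f14_kc H
  let y₁ : G → M₁ := fun d => Function.surjInv hs.psurj (x d)
  have hy₁ : ∀ d, π (y₁ d) = x d := fun d => Function.surjInv_eq hs.psurj (x d)
  have hy₁s : Sm1 S y₁ := by
    obtain ⟨W, hW, h3⟩ := hx.1.1
    exact ⟨W, hW, fun g v hv => congrArg (Function.surjInv hs.psurj) (h3 g v hv)⟩
  obtain ⟨y₂, h3, h4⟩ := f13_corr (c := MonoidHom.id G) (T := S) h2 h hs
    (fun W hW => ⟨W, hW, fun v hv => hv⟩) hy₁s (by
      have e1 : (fun d => π (y₁ d)) = x := funext hy₁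
      rw [e1]
      exact hx.1) (by
      intro m f hf1 hf2
      apply H.glob.sha f hf1
      rintro ⟨w, _ | _⟩
      · obtain ⟨x₂, hx₂, hx₃⟩ := hx.2.1 w
        refine f13_cob (c := j w) (x₂ := x₂) (y₁ := fun d => y₁ (j w d)) (m := m) h2 h hs
          (Sm1.comp (H.jsm w) hy₁s) hx₂ (fun d => ?_) (fun s t => ?_)
        · rw [hy₁]
          exact (congrFun hx₃ d).symm
        · refine (hf2 (j w s) (j w t)).trans ?_
          simp only [d1, map_mul, MonoidHom.id_apply]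
      · obtain ⟨x₂, hx₂, hx₃⟩ := lift_perp H h2 h hb hs w (hx.2.2 w)
        refine f13_cob (c := κ.comp (j w)) (x₂ := x₂) (y₁ := fun d => y₁ ((κ.comp (j w)) d))
          (m := m) h2 h hs (Sm1.comp (hk w) hy₁s) hx₂ (fun d => ?_) (fun s t => ?_)
        · rw [hy₁]
          exact hx₃ d
        · refine (hf2 ((κ.comp (j w)) s) ((κ.comp (j w)) t)).trans ?_
          simp only [d1, map_mul, MonoidHom.id_apply])
  exact ⟨y₂, h3, fun g => by rw [h4, hy₁]⟩

theorem sel_step (H : ParH S SD j χ inv κ θ φ) (h2 : (2 : O) ∈ IsLocalRing.maximalIdeal O)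
    (h : SDual S χ κ θ O ρ b) (hb : SDual S χ κ θ O ρb bb) (hs : SubQ ρ b ρ₁ ρb bb e i π) :
    Nat.card (selM h j (lam0 h SD j e) fun w => perpM H h w (lam0 h SD j e w)) =
      Nat.card (selM hb j (lam1 SD j hs.act₁ (lin₁ h hs) π)
        fun w => perpM H hb w (lam1 SD j hs.act₁ (lin₁ h hs) π w)) *
      Nat.card (IsLocalRing.ResidueField O) ^ Module.finrank (ZMod 2) (homs S ⊤) := by
  let A' := selM hb j (lam1 SD j hs.act₁ (lin₁ h hs) π)
        fun w => perpM H hb w (lam1 SD j hs.act₁ (lin₁ h hs) π w)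
  let Z := zM (O := O) S hs.act₁ (fun g => lin₁ h hs _)
  let K : Submodule O (G → M₁) := Z ⊓ A'.comap (π.compLeft G)
  have e1 : Nat.card (selM h j (lam0 h SD j e) fun w => perpM H h w (lam0 h SD j e w)) =
      Nat.card K := by
    refine (Nat.card_congr (Equiv.ofBijective (fun x => ⟨fun s => i (x.1 s),
      (f14_mem H h2 h hb hs x.2.1).2 x.2.2⟩) ⟨?_, ?_⟩)).symm
    · intro x y hxy
      apply Subtype.ext
      funext s
      apply hs.iinj
      exact congrFun (congrArg Subtype.val hxy) s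
    · rintro ⟨x, hx⟩
      obtain ⟨x₁, h1, h3⟩ := f13_lift (c := MonoidHom.id G) hs hx.1
        (fun a d => f14_val H h2 h hb hs hx a d)
      have h4 : x = fun g => i (x₁ g) := funext fun g => (h3 g).symm
      refine ⟨⟨x₁, h1, (f14_mem H h2 h hb hs h1).1 (h4 ▸ hx)⟩, Subtype.ext h4.symm⟩
  have e2 := Submodule.card_eq_card_quotient_mul_card (LinearMap.ker
    ((π.compLeft G).domRestrict K))
  rw [Nat.card_congr (LinearMap.quotKerEquivRange _).toEquiv] at e2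
  have e3 : LinearMap.range ((π.compLeft G).domRestrict K) = A' := by
    rw [LinearMap.range_domRestrict]
    apply le_antisymm
    · rintro _ ⟨x, hx, rfl⟩
      exact hx.2
    · intro x hx
      obtain ⟨x₁, h1, h3⟩ := f14_onto H h2 h hb hs hx
      have h4 : (π.compLeft G) x₁ = x := funext h3
      exact ⟨x₁, ⟨h1, by show (π.compLeft G) x₁ ∈ A'; rw [h4]; exact hx⟩, h4⟩
  have e4 : Nat.card (LinearMap.ker ((π.compLeft G).domRestrict K)) =
      Nat.card {x : G → M₁ // Z1 S (fun d => ρ₁ ((MonoidHom.id G) d)) x ∧ ∀ s, π (x s) = 0} := by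
    refine Nat.card_congr ⟨fun x => ⟨x.1.1, x.1.2.1, fun s => congrFun x.2 s⟩,
      fun x => ⟨⟨x.1, x.2.1, ?_⟩, funext x.2.2⟩, fun x => rfl, fun x => rfl⟩
    have h4 : (π.compLeft G) x.1 = 0 := funext x.2.2
    show (π.compLeft G) x.1 ∈ A'
    rw [h4]
    exact A'.zero_mem
  rw [e1, e2, e3, e4, f13_ker h hs, card_homs_span h2 hs.ene hs.em H.glob.fin, mul_comm]

end Pool.Agent.Work.MP_787500_nt.GP
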