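import Mathlib
import Pool.Agent.Work.MP_787500_nt.GP.F10_Change
import Pool.Agent.Work.MP_787500_nt.GP.F14_GlobStep

/-!
# Module F15_MAIN (size M): parity for finite self-dual modules

Strong induction on `Nat.card M`. Let `s Λ = |selM Λ (perpM Λ)| ∏ |Λ w|`, a power of `q` (`card_pow`,
`isPow_mul`; finiteness: `sel_finite`, `betw_finite`).
If `M` is trivial all these groups have one element. Otherwise take the subquotient `Mb` (`exists_sub`).
For `Λ` and `Λ⁰ = lam0` let `Λ₂ w = Λ w ⊓ Λ⁰ w` (`Betw`). `change` for `Λ₂ ≤ Λ` and `Λ₂ ≤ Λ⁰`: `s Λ₂ * s Λ` and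
`s Λ₂ * s Λ⁰` are even powers. By `sel_step`, `card0` and `ParH.count`:
`s Λ⁰ = s Λ¹ * q ^ (2 h)`, `Λ¹ = lam1` (for `Mb`), `h = finrank (homs S ⊤)`, and `s Λ¹` is an even power by
induction. So `s Λ⁰`, then `s Λ₂`, then `s Λ` are even powers (`evPow_cancel`, `evPow_mul`).
-/

set_option autoImplicit false
set_option linter.unusedSectionVars false

namespace Pool.Agent.Work.MP_787500_nt.GP

open Pool.Agent.Work.MP_787500_nt.PA (TwoSys Sm1 Sm2 homs Coc Cob IsChar)

universe u v

private theorem f15_pow {G : Type*} [Group G] {S : TwoSys G} {Φ : Type*} [Fintype Φ]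
    {D : Φ → Type*} [∀ w, Group (D w)] {SD : ∀ w, TwoSys (D w)} {j : ∀ w, D w →* G}
    {χ : G → ℤ_[2]} {inv : ∀ w, (D w → D w → A0) → A0} {κ : G →* G} {θ φ : G}
    (H : ParH S SD j χ inv κ θ φ)
    {O : Type*} [CommRing O] [IsLocalRing O] [Finite (IsLocalRing.ResidueField O)]
    {M : Type*} [AddCommGroup M] [Module O M] [Finite M]
    {ρ : G → M → M} {b : M →+ M →+ A0} (h : SDual S χ κ θ O ρ b)
    (Λ : ∀ w, Submodule O (D w → M)) (hΛ : ∀ w, Betw (SD w) (fun d => ρ (j w d)) (Λ w)) :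
    IsPow (Nat.card (IsLocalRing.ResidueField O))
      (Nat.card (selM h j Λ fun w => perpM H h w (Λ w)) * ∏ w, Nat.card (Λ w)) := by
  have h1 := sel_finite H h Λ fun w => perpM H h w (Λ w)
  refine isPow_mul (card_pow (O := O) _) ?_
  refine Finset.prod_induction _ (IsPow _) (fun a b => isPow_mul) ⟨0, by simp⟩ fun w _ => ?_
  have h2 := betw_finite H h w (hΛ w)
  exact card_pow (O := O) (Λ w)

private theorem f15_main {G : Type*} [Group G] {S : TwoSys G} {Φ : Type*} [Fintype Φ]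
    {D : Φ → Type*} [∀ w, Group (D w)] {SD : ∀ w, TwoSys (D w)} {j : ∀ w, D w →* G}
    {χ : G → ℤ_[2]} {inv : ∀ w, (D w → D w → A0) → A0} {κ : G →* G} {θ φ : G}
    (H : ParH S SD j χ inv κ θ φ)
    {O : Type v} [CommRing O] [IsLocalRing O] [Finite (IsLocalRing.ResidueField O)]
    (h2 : (2 : O) ∈ IsLocalRing.maximalIdeal O) (n : ℕ) :
    ∀ {M : Type u} [AddCommGroup M] [Module O M] [Finite M]
    {ρ : G → M → M} {b : M →+ M →+ A0} (h : SDual S χ κ θ O ρ b)
    (Λ : ∀ w, Submodule O (D w → M)) (_ : ∀ w, Betw (SD w) (fun d => ρ (j w d)) (Λ w)),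
    Nat.card M = n →
    EvPow (Nat.card (IsLocalRing.ResidueField O))
      (Nat.card (selM h j Λ fun w => perpM H h w (Λ w)) * ∏ w, Nat.card (Λ w)) := by
  induction n using Nat.strong_induction_on with
  | _ n ih =>
    intro M _ _ _ ρ b h Λ hΛ hn
    rcases subsingleton_or_nontrivial M with hM | hM
    · have e1 : Nat.card (selM h j Λ fun w => perpM H h w (Λ w)) = 1 :=
        Nat.card_of_subsingleton 0
      have e2 : ∏ w, Nat.card (Λ w) = 1 :=
        Finset.prod_eq_one fun w _ => Nat.card_of_subsingleton 0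
      rw [e1, e2]
      exact ⟨0, by simp⟩
    · obtain ⟨M₁, _, _, Mb, _, _, ρ₁, ρb, bb, e, i, π, _, _, hb, hs, hlt⟩ :=
        exists_sub H.kk h2 h
      have b0 := fun w => betw0 H h2 h hb hs w
      have b1 := fun w => betw1 H h2 h hb hs w
      have b2 : ∀ w, Betw (SD w) (fun d => ρ (j w d)) (Λ w ⊓ lam0 h SD j e w) := fun w =>
        ⟨fun m => ⟨(hΛ w).cob m, (b0 w).cob m⟩, fun x hx => (hΛ w).coc x hx.1⟩
      have c1 := change H h (Λ := fun w => Λ w ⊓ lam0 h SD j e w) b2 hΛ fun w => inf_le_left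
      have c2 := change H h (Λ := fun w => Λ w ⊓ lam0 h SD j e w) b2 b0 fun w => inf_le_right
      have c3 := ih _ (by rw [← hn]; exact hlt) hb (lam1 SD j hs.act₁ (lin₁ h hs) π) b1 rfl
      have c4 := sel_step H h2 h hb hs
      have c5 : ∏ w, Nat.card (lam0 h SD j e w) =
          (∏ w, Nat.card (lam1 SD j hs.act₁ (lin₁ h hs) π w)) *
            Nat.card (IsLocalRing.ResidueField O) ^ Module.finrank (ZMod 2) (homs S ⊤) := by
        rw [H.count, ← Finset.prod_pow_eq_pow_sum, ← Finset.prod_mul_distrib]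
        exact Finset.prod_congr rfl fun w _ => card0 H h2 h hb hs w
      have c6 : EvPow (Nat.card (IsLocalRing.ResidueField O))
          (Nat.card (selM h j (lam0 h SD j e) fun w => perpM H h w (lam0 h SD j e w)) *
            ∏ w, Nat.card (lam0 h SD j e w)) := by
        rw [c4, c5]
        have c7 := evPow_mul c3 (⟨Module.finrank (ZMod 2) (homs S ⊤), rfl⟩ :
          EvPow (Nat.card (IsLocalRing.ResidueField O))
            (Nat.card (IsLocalRing.ResidueField O) ^
              (2 * Module.finrank (ZMod 2) (homs S ⊤))))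
        convert c7 using 1
        rw [two_mul, pow_add]
        ring
      have p1 := f15_pow H h _ b2
      have p2 := f15_pow H h _ hΛ
      have c8 := evPow_cancel q_two_le p1 c6 c2
      rw [mul_comm] at c1
      exact evPow_cancel q_two_le p2 c8 c1

theorem finite_parity {G : Type*} [Group G] {S : TwoSys G} {Φ : Type*} [Fintype Φ] {D : Φ → Type*}
    [∀ w, Group (D w)] {SD : ∀ w, TwoSys (D w)} {j : ∀ w, D w →* G} {χ : G → ℤ_[2]}
    {inv : ∀ w, (D w → D w → A0) → A0} {κ : G →* G} {θ φ : G}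
    (H : ParH S SD j χ inv κ θ φ)
    {O : Type v} [CommRing O] [IsLocalRing O] [Finite (IsLocalRing.ResidueField O)]
    (h2 : (2 : O) ∈ IsLocalRing.maximalIdeal O)
    {M : Type u} [AddCommGroup M] [Module O M] [Finite M]
    {ρ : G → M → M} {b : M →+ M →+ A0} (h : SDual S χ κ θ O ρ b)
    (Λ : ∀ w, Submodule O (D w → M)) (hΛ : ∀ w, Betw (SD w) (fun d => ρ (j w d)) (Λ w)) :
    EvPow (Nat.card (IsLocalRing.ResidueField O))
      (Nat.card (selM h j Λ fun w => perpM H h w (Λ w)) * ∏ w, Nat.card (Λ w)) :=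
  f15_main H h2 _ h Λ hΛ rfl

end Pool.Agent.Work.MP_787500_nt.GP
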