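import Mathlib
import Pool.Agent.Work.MP_787500_nt.GP.LDefs2
import Pool.Agent.Work.MP_787500_nt.PA.Gens

/-!
# Module L15_FINV (size M): finite dimension, closedness

* `zV_fd`: by `PA.exists_gens` there is a finite set `F` with `closure F ⊔ W = ⊤` for all members `W`; a
  cocycle that vanishes on `F` vanishes on `closure F` and, being uniformly continuous, everywhere.
  Complete proof of the same statement for another setting: `Gn/FinDim.lean` (`zg_finite`), copy it.
* `fd_closed`: `V` is finite dimensional over `ℚ_2` (`restrictScalars`), hence closed in the product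
  `D → Fin n → E` (`Submodule.closed_of_finiteDimensional`, ambient space with the product topology,
  Hausdorff), and `Y` is the pointwise limit of the `l ^ k X_k ∈ V`: `Y d - l ^ k X_k d ∈ l ^ k T`, and
  elements of `l ^ k T` have norm at most `‖l‖ ^ k R` (`Lat.bdd`), `‖l‖ < 1`.
-/

set_option autoImplicit false
set_option linter.unusedSectionVars false

namespace Pool.Agent.Work.MP_787500_nt.GP

open Matrix
open Pool.Agent.Work.MP_787500_nt.PA (TwoSys Sm1 Sm2 homs Coc Cob IsChar toE)

variable {E : Type*} [NormedField E] [NormedAlgebra ℚ_[2] E] [FiniteDimensional ℚ_[2] E] {n : ℕ}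
  {b : Matrix (Fin n) (Fin n) E} {l : OE E} {t : E →ₗ[ℚ_[2]] ℚ_[2]}
  {T : Submodule (OE E) (Fin n → E)}


variable {D : Type*} [Group D] {SD : TwoSys D}

theorem zV_fd (hfin : FiniteDimensional (ZMod 2) (homs SD ⊤)) {σ : D → Matrix (Fin n) (Fin n) E}
    (h1 : σ 1 = 1) (hm : ∀ s u, σ (s * u) = σ s * σ u) : FiniteDimensional E (zV SD σ) := by
  obtain ⟨F, hF⟩ := PA.exists_gens hfin
  let ev : zV SD σ →ₗ[E] (F → Fin n → E) :=
    { toFun := fun X t => (X : D → Fin n → E) t
      map_add' := fun X Y => rfl
      map_smul' := fun a X => rfl }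
  refine FiniteDimensional.of_injective ev ?_
  rw [injective_iff_map_eq_zero]
  rintro ⟨X, hX1, hX2⟩ hz
  have hzT : ∀ t ∈ F, X t = 0 := fun t ht => congrFun hz ⟨t, ht⟩
  have h2 : X 1 = 0 := by
    have h := hX2 1 1
    rw [mul_one, h1, one_mulVec] at h
    exact left_eq_add.1 h
  have hH : ∀ g ∈ Subgroup.closure (F : Set D), X g = 0 := by
    intro g hg
    induction hg using Subgroup.closure_induction with
    | mem x hx => exact hzT x hx
    | one => exact h2
    | mul x y _ _ hx hy => rw [hX2, hx, hy, mulVec_zero, add_zero]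
    | inv x _ hx =>
      have h := hX2 x x⁻¹
      rw [mul_inv_cancel, h2, hx, zero_add] at h
      have h3 := congrArg (fun v => σ x⁻¹ *ᵥ v) h
      simp only [mulVec_zero, mulVec_mulVec] at h3
      rw [← hm, inv_mul_cancel, h1, one_mulVec] at h3
      exact h3.symm
  have hall : ∀ g, X g = 0 := by
    intro g
    rw [← norm_le_zero_iff]
    refine le_of_forall_pos_lt_add fun ε hε => ?_
    obtain ⟨W, hW, hWX⟩ := hX1 ε hε
    have hn := SD.normal hW
    have hg : g ∈ Subgroup.closure (F : Set D) ⊔ W := by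
      rw [hF (Subgroup.closure (F : Set D) ⊔ W) ⟨W, hW, le_sup_right⟩
        (fun x hx => (le_sup_left : Subgroup.closure (F : Set D) ≤ _)
          (Subgroup.subset_closure hx))]
      trivial
    obtain ⟨h, hh, w, hw, rfl⟩ := Subgroup.mem_sup_of_normal_right.1 hg
    have h4 := hWX h w hw
    rw [hH h hh, sub_zero] at h4
    rw [zero_add]
    exact h4
  exact Subtype.ext (funext hall)

theorem fd_closed (h : Lat b l t T) {X : Type*} (V : Submodule E (X → Fin n → E))
    [FiniteDimensional E V] (Y : X → Fin n → E)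
    (hY : ∀ k : ℕ, ∃ Z ∈ V, ∀ d, ∃ v ∈ T, Y d - (l : E) ^ k • Z d = (l : E) ^ k • v) : Y ∈ V := by
  have hfd : FiniteDimensional ℚ_[2] V := Module.Finite.trans E V
  have hfd' : FiniteDimensional ℚ_[2] (V.restrictScalars ℚ_[2]) := hfd
  have hcl : IsClosed ((V.restrictScalars ℚ_[2] : Submodule ℚ_[2] (X → Fin n → E)) :
      Set (X → Fin n → E)) := Submodule.closed_of_finiteDimensional _
  choose Z hZ v hv hZv using hY
  obtain ⟨R, hR⟩ := h.bdd
  have hlim : Filter.Tendsto (fun k : ℕ => (l : E) ^ k • Z k) Filter.atTop (nhds Y) := by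
    rw [tendsto_pi_nhds]
    intro d
    rw [tendsto_iff_norm_sub_tendsto_zero]
    have h0 : Filter.Tendsto (fun k : ℕ => ‖(l : E)‖ ^ k * R) Filter.atTop (nhds 0) := by
      have := (tendsto_pow_atTop_nhds_zero_of_lt_one (norm_nonneg (l : E)) h.llt).mul_const R
      simpa using this
    refine squeeze_zero (fun k => norm_nonneg _) (fun k => ?_) h0
    have h1 : ((l : E) ^ k • Z k) d - Y d = -((l : E) ^ k • v k d) := by
      rw [← hZv k d, Pi.smul_apply]
      abel
    rw [h1, norm_neg, norm_smul, norm_pow]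
    exact mul_le_mul_of_nonneg_left (hR _ (hv k d)) (by positivity)
  have : Y ∈ ((V.restrictScalars ℚ_[2] : Submodule ℚ_[2] (X → Fin n → E)) :
      Set (X → Fin n → E)) :=
    hcl.mem_of_tendsto hlim (Filter.Eventually.of_forall fun k => V.smul_mem _ (hZ k))
  exact this

end Pool.Agent.Work.MP_787500_nt.GP
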