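import Mathlib
import Pool.Agent.Work.MP_787500_nt.GP.GDefs
import Pool.Agent.Work.MP_787500_nt.GP.T04_Leib

/-!
# Module G1_IOTA (size M): the explicit invariant

Basic: `a (g⁻¹) = -χ(g)⁻¹ a g`; the element `ρ₀ = σ τ (τ ^ l σ)⁻¹` has `χ ρ₀ = 1` and `a ρ₀ = 0`: `a (σ τ) = l`,
`a (τ ^ l σ) = l`, `χ (σ τ) = χ (τ ^ l σ) = l`, so `a (σ τ) = a (ρ₀ (τ ^ l σ)) = a ρ₀ + χ ρ₀ l`. So `ρ₀` is in all members of
the system (`sep`), which are normal: `z (σ τ) = z (τ ^ l σ)` for all smooth `z`.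
* `tame_gen`: for `g` and `W` choose `n` (`sep`), `i` with `2 ^ n ∣ χ g - l ^ i` (`dens`), `j : ℕ` with
  `2 ^ n ∣ a g - j`; then `(τ ^ j σ ^ i)⁻¹ g ∈ W` (`a (τ ^ j) = j`, `a (σ ^ i) = 0`, `a (τ ^ j σ ^ i) = j`; for
  `h = (τ ^ j σ ^ i)⁻¹ g`: `χ h = l ^ (-i) χ g`, `a g = a (τ ^ j σ ^ i) + l ^ i a h`).
* `iota_cob`: with `z (τ ^ (i + 1))` telescoping:
  `d1 z σ τ = z σ + l z τ - z (σ τ)`, `d1 z (τ ^ l) σ = z (τ ^ l) + z σ - z (τ ^ l σ)` (`χ (τ ^ l) = 1`),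
  `∑ (i from 1 to l - 1) (z (τ ^ i) + z τ - z (τ ^ (i + 1))) = l z τ - z (τ ^ l)`; the total is
  `z (τ ^ l σ) - z (σ τ) = 0`. In `A0` the action is `χ g • z`, and `(l : ℤ_[2]) • t = l • t`.
* `iota_cob2`: the same computation in `ZMod 2`.
-/

set_option autoImplicit false
set_option linter.unusedSectionVars false

namespace Pool.Agent.Work.MP_787500_nt.GP

open Pool.Agent.Work.MP_787500_nt.PA (TwoSys Sm1 Sm2 homs Coc Cob IsChar)

variable {D : Type*} [Group D] {SD : TwoSys D} {χ a : D → ℤ_[2]} {σ τ : D} {l : ℕ}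

private theorem g1_a_one (h : TameD SD χ a σ τ l) : a 1 = 0 := by
  have := h.coc 1 1
  rw [mul_one, h.char.one, one_mul] at this
  exact left_eq_add.1 this

private theorem g1_tau_pow (h : TameD SD χ a σ τ l) (j : ℕ) : χ (τ ^ j) = 1 ∧ a (τ ^ j) = j := by
  induction j with
  | zero =>
    rw [pow_zero]
    exact ⟨h.char.one, by rw [g1_a_one h, Nat.cast_zero]⟩
  | succ j ih =>
    rw [pow_succ]
    refine ⟨by rw [h.char.mul, ih.1, h.τχ, mul_one], ?_⟩
    rw [h.coc, ih.1, ih.2, h.τa, mul_one]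
    push_cast
    ring

private theorem g1_sig_pow (h : TameD SD χ a σ τ l) (i : ℕ) :
    χ (σ ^ i) = (l : ℤ_[2]) ^ i ∧ a (σ ^ i) = 0 := by
  induction i with
  | zero =>
    rw [pow_zero, pow_zero]
    exact ⟨h.char.one, g1_a_one h⟩
  | succ i ih =>
    rw [pow_succ, pow_succ]
    refine ⟨by rw [h.char.mul, ih.1, h.σχ], ?_⟩
    rw [h.coc, ih.1, ih.2, h.σa, mul_zero, add_zero]

/-- the values of the word `τ ^ j σ ^ i` -/
theorem g1_word (h : TameD SD χ a σ τ l) (i j : ℕ) :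
    χ (τ ^ j * σ ^ i) = (l : ℤ_[2]) ^ i ∧ a (τ ^ j * σ ^ i) = j := by
  refine ⟨?_, ?_⟩
  · rw [h.char.mul, (g1_tau_pow h j).1, (g1_sig_pow h i).1, one_mul]
  · rw [h.coc, (g1_tau_pow h j).2, (g1_sig_pow h i).2, mul_zero, add_zero]

/-- `u` with `2 ∣ u - 1` is a unit -/
private theorem g1_unit {u : ℤ_[2]} (hu : (2 : ℤ_[2]) ∣ u - 1) : IsUnit u := by
  by_contra hc
  have h1 : u ∈ IsLocalRing.maximalIdeal ℤ_[2] := (IsLocalRing.mem_maximalIdeal u).2 hc
  have h2 : (u - 1) ∈ IsLocalRing.maximalIdeal ℤ_[2] := by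
    rw [PadicInt.maximalIdeal_eq_span_p, Ideal.mem_span_singleton]
    exact_mod_cast hu
  have h3 : (1 : ℤ_[2]) ∈ IsLocalRing.maximalIdeal ℤ_[2] := by
    have := Ideal.sub_mem _ h1 h2
    rwa [sub_sub_cancel] at this
  exact (IsLocalRing.mem_maximalIdeal (1 : ℤ_[2])).1 h3 isUnit_one

/-- two elements with the same values modulo `2 ^ n` -/
theorem g1_close (h : TameD SD χ a σ τ l) {g k : D} {n : ℕ}
    (h1 : (2 : ℤ_[2]) ^ n ∣ χ g - χ k) (h2 : (2 : ℤ_[2]) ^ n ∣ a g - a k) :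
    (2 : ℤ_[2]) ^ n ∣ χ (k⁻¹ * g) - 1 ∧ (2 : ℤ_[2]) ^ n ∣ a (k⁻¹ * g) := by
  have hu : IsUnit (χ k) := g1_unit (h.char.odd k)
  have e1 : χ g = χ k * χ (k⁻¹ * g) := by
    rw [← h.char.mul, mul_inv_cancel_left]
  have e2 : a g = a k + χ k * a (k⁻¹ * g) := by
    rw [← h.coc, mul_inv_cancel_left]
  constructor
  · have : χ g - χ k = χ k * (χ (k⁻¹ * g) - 1) := by
      rw [e1]
      ring
    rw [this] at h1
    exact (hu.dvd_mul_left).1 h1
  · have : a g - a k = χ k * a (k⁻¹ * g) := by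
      rw [e2]
      ring
    rw [this] at h2
    exact (hu.dvd_mul_left).1 h2

theorem tame_rel (h : TameD SD χ a σ τ l) {A : Type*} {z : D → A} (hz : Sm1 SD z) :
    z (σ * τ) = z (τ ^ l * σ) := by
  obtain ⟨W, hW, hz⟩ := hz
  obtain ⟨n, hn⟩ := h.sep W hW
  have hw := g1_word h 1 l
  rw [pow_one, pow_one] at hw
  have e1 : χ (σ * τ) = l := by rw [h.char.mul, h.σχ, h.τχ, mul_one]
  have e2 : a (σ * τ) = l := by rw [h.coc, h.σa, h.σχ, h.τa, mul_one, zero_add]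
  have hc := g1_close h (g := σ * τ) (k := τ ^ l * σ) (n := n)
    (by rw [e1, hw.1, sub_self]; exact dvd_zero _) (by rw [e2, hw.2, sub_self]; exact dvd_zero _)
  have := hz (τ ^ l * σ) _ (hn _ hc.1 hc.2)
  rw [mul_inv_cancel_left] at this
  exact this

theorem g1_nat (x : ℤ_[2]) (n : ℕ) : ∃ j : ℕ, (2 : ℤ_[2]) ^ n ∣ x - j := by
  refine ⟨x.appr n, ?_⟩
  have := PadicInt.appr_spec n x
  rw [Ideal.mem_span_singleton] at this
  exact_mod_cast this

theorem tame_gen (h : TameD SD χ a σ τ l) {W : Subgroup D} (hW : SD.mem W) (g : D) :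
    ∃ i j : ℕ, (τ ^ j * σ ^ i)⁻¹ * g ∈ W := by
  obtain ⟨n, hn⟩ := h.sep W hW
  obtain ⟨i, hi⟩ := h.dens g n
  obtain ⟨j, hj⟩ := g1_nat (a g) n
  refine ⟨i, j, ?_⟩
  have hw := g1_word h i j
  have hc := g1_close h (g := g) (k := τ ^ j * σ ^ i) (n := n)
    (by rw [hw.1]; exact hi) (by rw [hw.2]; exact hj)
  exact hn _ hc.1 hc.2

theorem iota_add {A : Type*} [AddCommGroup A] (f f' : D → D → A) :
    iota σ τ l (fun g k => f g k + f' g k) = iota σ τ l f + iota σ τ l f' := by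
  simp only [iota, Finset.sum_add_distrib]
  abel

private theorem g1_tele {A : Type*} [AddCommGroup A] (w : ℕ → A) {l : ℕ} (hl : 1 ≤ l) :
    ∑ i ∈ Finset.Ico 1 l, (w i + w 1 - w (i + 1)) = l • w 1 - w l := by
  induction l, hl using Nat.le_induction with
  | base => simp
  | succ l hl ih =>
    rw [Finset.sum_Ico_succ_top hl, ih, succ_nsmul]
    abel

theorem iota_cob (h : TameD SD χ a σ τ l) {z : D → A0} (hz : Sm1 SD z) :
    iota σ τ l (d1 (tw χ) z) = 0 := by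
  have hrel := tame_rel h hz
  have hl : 1 ≤ l := by have := h.lt; omega
  have e1 : ∑ i ∈ Finset.Ico 1 l, d1 (tw χ) z (τ ^ i) τ = l • z τ - z (τ ^ l) := by
    have := g1_tele (fun i => z (τ ^ i)) hl
    simp only [pow_one] at this
    rw [← this]
    refine Finset.sum_congr rfl fun i _ => ?_
    simp only [d1, tw, (g1_tau_pow h i).1, one_smul, pow_succ]
  have e2 : d1 (tw χ) z σ τ = z σ + l • z τ - z (σ * τ) := by
    simp only [d1, tw, h.σχ, Nat.cast_smul_eq_nsmul]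
  have e3 : d1 (tw χ) z (τ ^ l) σ = z (τ ^ l) + z σ - z (τ ^ l * σ) := by
    simp only [d1, tw, (g1_tau_pow h l).1, one_smul]
  rw [iota, e1, e2, e3, hrel]
  abel

theorem iota_cob2 (h : TameD SD χ a σ τ l) {z : D → ZMod 2} (hz : Sm1 SD z) :
    iota σ τ l (fun g k => z g + z k + z (g * k)) = 0 := by
  have hrel := tame_rel h hz
  have hl : 1 ≤ l := by have := h.lt; omega
  have h2 : ∀ x : ZMod 2, -x = x := fun x => CharTwo.neg_eq x
  have e1 : ∑ i ∈ Finset.Ico 1 l, (z (τ ^ i) + z τ + z (τ ^ i * τ)) = z τ - z (τ ^ l) := by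
    have := g1_tele (fun i => z (τ ^ i)) hl
    simp only [pow_one] at this
    have hodd : l • z τ = z τ := by
      obtain ⟨m, hm⟩ := h.odd
      rw [hm, succ_nsmul, mul_comm, mul_smul, two_nsmul, CharTwo.add_self_eq_zero, smul_zero,
        zero_add]
    rw [hodd] at this
    rw [← this]
    refine Finset.sum_congr rfl fun i _ => ?_
    rw [pow_succ, sub_eq_add_neg, h2]
  simp only [iota]
  rw [e1, hrel]
  generalize z (τ ^ l * σ) = x1
  generalize z (τ ^ l) = x2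
  generalize z σ = x3
  generalize z τ = x4
  revert x1 x2 x3 x4
  decide

theorem iota_hf {f : D → D → ZMod 2} :
    iota σ τ l (fun g k => hf (f g k)) = hf (iota σ τ l f) := by
  have hsum : ∀ s : Finset ℕ, ∑ i ∈ s, hf (f (τ ^ i) τ) = hf (∑ i ∈ s, f (τ ^ i) τ) := by
    intro s
    induction s using Finset.induction_on with
    | empty => simp [hf_zero]
    | insert i s hi ih => rw [Finset.sum_insert hi, Finset.sum_insert hi, ih, hf_add]
  have hsub : ∀ x y : ZMod 2, hf (x - y) = hf x - hf y := by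
    intro x y
    rw [sub_eq_add_neg, CharTwo.neg_eq, hf_add, sub_eq_add_neg, hf_neg]
  simp only [iota]
  rw [hsum, hsub, hsub]

theorem iota_smul {f : D → D → ℤ_[2]} (t : A0) :
    iota σ τ l (fun g k => f g k • t) = iota σ τ l f • t := by
  simp only [iota, sub_smul, Finset.sum_smul]

end Pool.Agent.Work.MP_787500_nt.GP
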