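import Mathlib
import Pool.Agent.Work.MP_787500_nt.GP.G1_Iota

/-!
# Module G2_TAMEHOMS (size M): homomorphisms of a tame group to `ZMod 2`

A smooth homomorphism `ψ` is determined by `ψ σ`, `ψ τ` (`tame_gen`: `ψ g = j ψ τ + i ψ σ`). Two of them:
`ψ₁ g = a g mod 2` (`PadicInt.toZMod`; a homomorphism because `χ` is 1 modulo 2, smooth by `c1`), `ψ₁ σ = 0`,
`ψ₁ τ = 1`; and `ψ₂` with `ψ₂ σ = 1`, `ψ₂ τ = 0`: let `n` be such that `2 ^ n` does not divide `l - 1` (`l ≠ 1`, `n ≥ 2`);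
the order of `l` modulo `2 ^ n` is a power of 2 (it divides the order of the units of `ZMod (2 ^ n)`),
different from 1, so even; so for `g ∈ D` the `i` with `2 ^ n ∣ χ g - l ^ i` (`dens`) is well defined modulo 2:
`ψ₂ g = i`. So evaluation at `(σ, τ)` is an isomorphism from `homs SD ⊤` onto `ZMod 2 × ZMod 2`.
* `tame_nondeg`: `iota (ψ ∪ φ) = ψ σ φ τ - ψ (τ ^ l) φ σ - ∑ ψ (τ ^ i) φ τ = ψ σ φ τ + ψ τ φ σ + c ψ τ φ τ`
  with `c = ∑ (i from 1 to l - 1) i`. If `ψ ≠ 0` and `ψ τ = 0`, then `ψ σ = 1`, take `φ = ψ₁`: the value is 1. If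
  `ψ τ = 1` take `φ = ψ₂`: the value is `ψ τ φ σ = 1`. Use `iota_hf`, `hf 1 ≠ 0`.
-/

set_option autoImplicit false
set_option linter.unusedSectionVars false

namespace Pool.Agent.Work.MP_787500_nt.GP

open Pool.Agent.Work.MP_787500_nt.PA (TwoSys Sm1 Sm2 homs Coc Cob IsChar)

variable {D : Type*} [Group D] {SD : TwoSys D} {χ a : D → ℤ_[2]} {σ τ : D} {l : ℕ}

private theorem g2_geom_odd (x : ℤ_[2]) (hx : (2 : ℤ_[2]) ∣ x - 1) (m : ℕ) :
    (2 : ℤ_[2]) ∣ (∑ i ∈ Finset.range m, x ^ i) - m := by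
  induction m with
  | zero => simp
  | succ m ih =>
    rw [Finset.sum_range_succ]
    have h1 : (2 : ℤ_[2]) ∣ x ^ m - 1 := by
      have := sub_dvd_pow_sub_pow x 1 m
      rw [one_pow] at this
      exact hx.trans this
    have := dvd_add ih h1
    have e : (∑ i ∈ Finset.range m, x ^ i) - (m : ℤ_[2]) + (x ^ m - 1) =
        (∑ i ∈ Finset.range m, x ^ i) + x ^ m - ((m + 1 : ℕ) : ℤ_[2]) := by
      push_cast
      ring
    rwa [e] at this

private theorem g2_unit {u : ℤ_[2]} (hu : (2 : ℤ_[2]) ∣ u - 1) : IsUnit u := by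
  by_contra hc
  have h1 : u ∈ IsLocalRing.maximalIdeal ℤ_[2] := (IsLocalRing.mem_maximalIdeal u).2 hc
  have h2 : (u - 1) ∈ IsLocalRing.maximalIdeal ℤ_[2] := by
    rw [PadicInt.maximalIdeal_eq_span_p, Ideal.mem_span_singleton]
    exact_mod_cast hu
  have h3 : (1 : ℤ_[2]) ∈ IsLocalRing.maximalIdeal ℤ_[2] := by
    have := Ideal.sub_mem _ h1 h2
    rwa [sub_sub_cancel] at this
  exact (IsLocalRing.mem_maximalIdeal (1 : ℤ_[2])).1 h3 isUnit_one

private theorem g2_pow_odd (x : ℤ_[2]) (hx : (2 : ℤ_[2]) ∣ x - 1) {m n : ℕ} (hm : Odd m)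
    (h : (2 : ℤ_[2]) ^ n ∣ x ^ m - 1) : (2 : ℤ_[2]) ^ n ∣ x - 1 := by
  have h1 := g2_geom_odd x hx m
  have h2 : (2 : ℤ_[2]) ∣ (∑ i ∈ Finset.range m, x ^ i) - 1 := by
    obtain ⟨k, hk⟩ := hm
    have h3 : (2 : ℤ_[2]) ∣ (m : ℤ_[2]) - 1 := by
      refine ⟨k, ?_⟩
      rw [hk]
      push_cast
      ring
    have := dvd_add h1 h3
    have e : (∑ i ∈ Finset.range m, x ^ i) - (m : ℤ_[2]) + ((m : ℤ_[2]) - 1) =
        (∑ i ∈ Finset.range m, x ^ i) - 1 := by ring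
    rwa [e] at this
  have hg := geom_sum_mul x m
  rw [← hg] at h
  exact ((g2_unit h2).dvd_mul_left).1 h

/-- a power of `2` dividing `l ^ i - l ^ j` makes `i` and `j` congruent -/
theorem g2_ord {l : ℕ} (hodd : Odd l) (hlt : 2 < l) (e : ℕ) :
    ∃ n : ℕ, ∀ m, n ≤ m → ∀ i j : ℕ, (2 : ℤ_[2]) ^ m ∣ (l : ℤ_[2]) ^ i - (l : ℤ_[2]) ^ j →
      i ≡ j [MOD 2 ^ e] := by
  have hl2 : (2 : ℤ_[2]) ∣ (l : ℤ_[2]) - 1 := by
    obtain ⟨k, hk⟩ := hodd
    refine ⟨k, ?_⟩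
    rw [hk]
    push_cast
    ring
  have hlp : ∀ i : ℕ, (2 : ℤ_[2]) ∣ (l : ℤ_[2]) ^ i - 1 := by
    intro i
    have := sub_dvd_pow_sub_pow (l : ℤ_[2]) 1 i
    rw [one_pow] at this
    exact hl2.trans this
  -- the main step
  have key : ∀ m, l ^ (2 ^ e) ≤ m → ∀ d : ℕ, (2 : ℤ_[2]) ^ m ∣ (l : ℤ_[2]) ^ d - 1 → 2 ^ e ∣ d := by
    intro m hm d hd
    by_cases hd0 : d = 0
    · rw [hd0]
      exact dvd_zero _
    obtain ⟨k, c, hc, hkc⟩ := Nat.exists_eq_two_pow_mul_odd hd0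
    by_cases hke : e ≤ k
    · rw [hkc]
      exact (pow_dvd_pow 2 hke).mul_right c
    · exfalso
      have h1 : (2 : ℤ_[2]) ^ m ∣ ((l : ℤ_[2]) ^ (2 ^ k)) - 1 := by
        refine g2_pow_odd _ (hlp _) hc ?_
        rw [← pow_mul, ← hkc]
        exact hd
      have h2 : ((2 ^ m : ℕ) : ℤ) ∣ ((l : ℤ) ^ (2 ^ k) - 1) := by
        have h3 := (PadicInt.pow_p_dvd_int_iff (p := 2) m ((l : ℤ) ^ (2 ^ k) - 1)).1 (by
          push_cast
          exact h1)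
        exact_mod_cast h3
      have h4 : (1 : ℤ) ≤ (l : ℤ) ^ (2 ^ k) - 1 := by
        have : (2 : ℤ) ≤ (l : ℤ) ^ (2 ^ k) := by
          calc (2 : ℤ) ≤ (l : ℤ) := by exact_mod_cast hlt.le
            _ = (l : ℤ) ^ 1 := (pow_one _).symm
            _ ≤ (l : ℤ) ^ (2 ^ k) := by
              refine pow_le_pow_right₀ (by exact_mod_cast (by omega : 1 ≤ l)) Nat.one_le_two_pow
        linarith
      have h5 := Int.le_of_dvd (by linarith) h2
      have h6 : (l : ℤ) ^ (2 ^ k) ≤ (m : ℤ) := by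
        calc (l : ℤ) ^ (2 ^ k) ≤ (l : ℤ) ^ (2 ^ e) := by
              refine pow_le_pow_right₀ (by exact_mod_cast (by omega : 1 ≤ l)) ?_
              exact Nat.pow_le_pow_right (by norm_num) (by omega)
          _ ≤ (m : ℤ) := by exact_mod_cast hm
      have h7 : (m : ℤ) < ((2 ^ m : ℕ) : ℤ) := by exact_mod_cast Nat.lt_two_pow_self
      linarith
  refine ⟨l ^ (2 ^ e), fun m hm => ?_⟩
  have main : ∀ i j : ℕ, j ≤ i → (2 : ℤ_[2]) ^ m ∣ (l : ℤ_[2]) ^ i - (l : ℤ_[2]) ^ j →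
      i ≡ j [MOD 2 ^ e] := by
    intro i j hij h
    obtain ⟨d, rfl⟩ := Nat.exists_eq_add_of_le hij
    have e1 : (l : ℤ_[2]) ^ (j + d) - (l : ℤ_[2]) ^ j = (l : ℤ_[2]) ^ j * ((l : ℤ_[2]) ^ d - 1) := by
      rw [pow_add]
      ring
    rw [e1] at h
    have h1 := ((g2_unit (hlp j)).dvd_mul_left).1 h
    have h2 := key m hm d h1
    have : j + d ≡ j + 0 [MOD 2 ^ e] := Nat.ModEq.add_left j ((Nat.modEq_zero_iff_dvd).2 h2)
    simpa using this
  intro i j h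
  rcases le_total j i with hij | hij
  · exact main i j hij h
  · refine (main j i hij ?_).symm
    have := (dvd_neg (a := (2 : ℤ_[2]) ^ m)).2 h
    rwa [neg_sub] at this

private theorem g2_psi1 (h : TameD SD χ a σ τ l) :
    ∃ ψ ∈ homs SD ⊤, ψ σ = 0 ∧ ψ τ = 1 := by
  have hχ : ∀ g, PadicInt.toZMod (χ g) = (1 : ZMod 2) := by
    intro g
    obtain ⟨b, hb⟩ := h.char.odd g
    have e : χ g = 1 + 2 * b := by linear_combination hb
    rw [e, map_add, map_one, map_mul]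
    have : PadicInt.toZMod (2 : ℤ_[2]) = (0 : ZMod 2) := by
      rw [map_ofNat]
      decide
    rw [this, zero_mul, add_zero]
  refine ⟨fun g => PadicInt.toZMod (a g), ⟨?_, fun g hg => absurd (Subgroup.mem_top g) hg, ?_⟩,
    ?_, ?_⟩
  · obtain ⟨W, hW, hc⟩ := h.c1 1
    refine ⟨W, hW, fun g w hw => ?_⟩
    obtain ⟨b, hb⟩ := hc g w hw
    have e : a (g * w) = a g + 2 * b := by
      rw [pow_one] at hb
      linear_combination hb
    simp only
    rw [e, map_add, map_mul]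
    have : PadicInt.toZMod (2 : ℤ_[2]) = (0 : ZMod 2) := by
      rw [map_ofNat]
      decide
    rw [this, zero_mul, add_zero]
  · intro g _ k _
    simp only
    rw [h.coc, map_add, map_mul, hχ, one_mul]
  · simp only
    rw [h.σa, map_zero]
  · simp only
    rw [h.τa, map_one]

private theorem g2_psi2 (h : TameD SD χ a σ τ l) :
    ∃ ψ ∈ homs SD ⊤, ψ σ = 1 ∧ ψ τ = 0 := by
  obtain ⟨n, hn⟩ := g2_ord h.odd h.lt 1
  have hn := hn n le_rfl
  choose i hi using fun g => h.dens g n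
  have uniq : ∀ (g : D) (j : ℕ), (2 : ℤ_[2]) ^ n ∣ χ g - (l : ℤ_[2]) ^ j → ((i g : ℕ) : ZMod 2) = (j : ZMod 2) := by
    intro g j hj
    have : (2 : ℤ_[2]) ^ n ∣ (l : ℤ_[2]) ^ (i g) - (l : ℤ_[2]) ^ j := by
      have := dvd_sub hj (hi g)
      have e : χ g - (l : ℤ_[2]) ^ j - (χ g - (l : ℤ_[2]) ^ (i g)) =
        (l : ℤ_[2]) ^ (i g) - (l : ℤ_[2]) ^ j := by ring
      rwa [e] at this
    have h2 := hn _ _ this
    rw [pow_one] at h2
    exact (ZMod.natCast_eq_natCast_iff _ _ _).2 h2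
  refine ⟨fun g => ((i g : ℕ) : ZMod 2), ⟨?_, fun g hg => absurd (Subgroup.mem_top g) hg, ?_⟩,
    ?_, ?_⟩
  · obtain ⟨W, hW, hc⟩ := h.char.cont n
    refine ⟨W, hW, fun g w hw => ?_⟩
    refine uniq (g * w) (i g) ?_
    have := dvd_add (hc g w hw) (hi g)
    have e : χ (g * w) - χ g + (χ g - (l : ℤ_[2]) ^ (i g)) = χ (g * w) - (l : ℤ_[2]) ^ (i g) := by
      ring
    rwa [e] at this
  · intro g _ k _
    simp only
    rw [← Nat.cast_add]
    refine uniq (g * k) (i g + i k) ?_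
    have e : χ (g * k) - (l : ℤ_[2]) ^ (i g + i k) =
        (χ g - (l : ℤ_[2]) ^ (i g)) * χ k + (l : ℤ_[2]) ^ (i g) * (χ k - (l : ℤ_[2]) ^ (i k)) := by
      rw [h.char.mul, pow_add]
      ring
    rw [e]
    exact dvd_add ((hi g).mul_right _) ((hi k).mul_left _)
  · have := uniq σ 1 (by rw [h.σχ, pow_one, sub_self]; exact dvd_zero _)
    simp only
    rw [this, Nat.cast_one]
  · have := uniq τ 0 (by rw [h.τχ, pow_zero, sub_self]; exact dvd_zero _)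
    simp only
    rw [this, Nat.cast_zero]

private theorem g2_pow {ψ : D → ZMod 2} (hψ : ψ ∈ homs SD ⊤) (g : D) (j : ℕ) :
    ψ (g ^ j) = j * ψ g := by
  have hm : ∀ g k, ψ (g * k) = ψ g + ψ k := fun g k =>
    hψ.2.2 g (Subgroup.mem_top g) k (Subgroup.mem_top k)
  have h1 : ψ 1 = 0 := by
    have := hm 1 1
    rw [mul_one] at this
    exact left_eq_add.1 this
  induction j with
  | zero => rw [pow_zero, h1, Nat.cast_zero, zero_mul]
  | succ j ih =>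
    rw [pow_succ, hm, ih]
    push_cast
    ring

private theorem g2_inj (h : TameD SD χ a σ τ l) {ψ : D → ZMod 2} (hψ : ψ ∈ homs SD ⊤)
    (h1 : ψ σ = 0) (h2 : ψ τ = 0) : ψ = 0 := by
  obtain ⟨W, hW, hc⟩ := hψ.1
  funext g
  obtain ⟨i, j, hw⟩ := tame_gen h hW g
  have := hc (τ ^ j * σ ^ i) _ hw
  rw [mul_inv_cancel_left] at this
  rw [this, hψ.2.2 _ (Subgroup.mem_top _) _ (Subgroup.mem_top _), g2_pow hψ, g2_pow hψ, h1, h2,
    mul_zero, mul_zero, add_zero]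
  rfl

theorem tame_homs (h : TameD SD χ a σ τ l) : FiniteDimensional (ZMod 2) (homs SD ⊤) ∧
    Module.finrank (ZMod 2) (homs SD ⊤) = 2 := by
  obtain ⟨ψ₁, m1, s1, t1⟩ := g2_psi1 h
  obtain ⟨ψ₂, m2, s2, t2⟩ := g2_psi2 h
  let ev : homs SD ⊤ →ₗ[ZMod 2] (ZMod 2 × ZMod 2) :=
    { toFun := fun ψ => (ψ.1 σ, ψ.1 τ)
      map_add' := fun _ _ => rfl
      map_smul' := fun _ _ => rfl }
  have hinj : Function.Injective ev := by
    rw [← LinearMap.ker_eq_bot, LinearMap.ker_eq_bot']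
    intro ψ hψ
    have e1 : ψ.1 σ = 0 := congrArg Prod.fst hψ
    have e2 : ψ.1 τ = 0 := congrArg Prod.snd hψ
    exact Subtype.ext (g2_inj h ψ.2 e1 e2)
  have hsurj : Function.Surjective ev := by
    rintro ⟨x, y⟩
    refine ⟨x • ⟨ψ₂, m2⟩ + y • ⟨ψ₁, m1⟩, ?_⟩
    refine Prod.ext ?_ ?_
    · change x * ψ₂ σ + y * ψ₁ σ = x
      rw [s1, s2, mul_one, mul_zero, add_zero]
    · change x * ψ₂ τ + y * ψ₁ τ = y
      rw [t1, t2, mul_one, mul_zero, zero_add]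
  let E := LinearEquiv.ofBijective ev ⟨hinj, hsurj⟩
  refine ⟨Module.Finite.equiv E.symm, ?_⟩
  rw [E.finrank_eq, Module.finrank_prod, Module.finrank_self]

theorem tame_nondeg (h : TameD SD χ a σ τ l) {ψ : D → ZMod 2} (hψ : ψ ∈ homs SD ⊤)
    (h0 : ∀ φ ∈ homs SD ⊤, iota σ τ l (fun g k => hf (ψ g * φ k)) = 0) : ψ = 0 := by
  have hi : ∀ φ ∈ homs SD ⊤, ψ σ * φ τ - ψ τ * φ σ
      - ∑ i ∈ Finset.Ico 1 l, ((i : ℕ) : ZMod 2) * ψ τ * φ τ = 0 := by
    intro φ hφ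
    have h1 := h0 φ hφ
    rw [iota_hf (f := fun g k => ψ g * φ k), ← hf_zero] at h1
    have h2 := hf_inj h1
    simp only [iota, g2_pow hψ] at h2
    have hl : ((l : ℕ) : ZMod 2) = 1 := by
      obtain ⟨m, hm⟩ := h.odd
      rw [hm]
      push_cast
      have : (2 : ZMod 2) = 0 := by decide
      rw [this, zero_mul, zero_add]
    rw [hl, one_mul] at h2
    exact h2
  rcases (by decide : ∀ x : ZMod 2, x = 0 ∨ x = 1) (ψ τ) with h1 | h1
  · obtain ⟨ψ₁, m1, s1, t1⟩ := g2_psi1 h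
    have := hi ψ₁ m1
    simp only [h1, t1, s1, mul_zero, Finset.sum_const_zero, sub_zero, mul_one] at this
    exact g2_inj h hψ this h1
  · obtain ⟨ψ₂, m2, s2, t2⟩ := g2_psi2 h
    have := hi ψ₂ m2
    simp only [h1, t2, s2, mul_zero, Finset.sum_const_zero, sub_zero, mul_one, zero_sub] at this
    exact absurd this (by decide)

end Pool.Agent.Work.MP_787500_nt.GP
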