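import Mathlib
import Pool.Agent.Work.MP_787500_nt.GP.G2_TameHoms

/-!
# Module G3_TAMEONE (size M-L): a cocycle with invariant 0 is a coboundary

`f : D → D → ZMod 2`, `Coc SD ⊤ f`, `iota f = 0`. Subtract a constant: `f 1 1 = 0` (a constant `c` is the
coboundary of `z = c`, `iota_cob2`), so `f g 1 = f 1 g = 0`. Let `W` be a member with `f (g w) (h w') = f g h`.
The extension group `E = D × ZMod 2` with `(g, x) (h, y) = (g h, x + y + f g h)`. `W × 0` is a normal subgroup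
(`f` vanishes on `W × W`; `(g, x) (w, 0) (g, x)⁻¹ = (g w g⁻¹, 0)`, as `f g w = f g 1 = 0` and
`f (g w) g⁻¹ = f g g⁻¹`: note `g w = (g w g⁻¹) g` and `W` is normal, `f (w' g) h = f (g (g⁻¹ w' g)) h = f g h`). The
quotient `E' = E / (W × 0)` is a finite 2-group. `s = (σ, 0)`, `t = (τ, 0)` in `E'`.
`s t = (σ τ, f σ τ)`, `t ^ l = (τ ^ l, ∑ (i from 1 to l - 1) f (τ ^ i) τ)`,
`t ^ l s = (τ ^ l σ, that + f (τ ^ l) σ)`. So `iota f = 0` gives `s t = t ^ l s` in `E'` (`σ τ` and `τ ^ l σ` are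
congruent modulo `W`, `tame_rel`).
Let `2 ^ e` be the exponent of `E'`, and choose `n ≥ e` as in `sep` for `W` such that, in addition,
`2 ^ n ∣ l ^ i - 1` implies `2 ^ e ∣ i` (the order of `l` modulo `2 ^ n` is a power of 2 and tends to infinity as
`l ≥ 3`). For `g ∈ D` choose `i`, `j` with `2 ^ n ∣ χ g - l ^ i`, `2 ^ n ∣ a g - j`, and put
`S g = t ^ j s ^ i ∈ E'`: independent of the choice (`t ^ (2 ^ n) = 1`; if `l ^ i = l ^ i'` modulo `2 ^ n` then
`i = i'` modulo `2 ^ e`, `s ^ (2 ^ e) = 1`). `S (g h) = S g S h`: `χ (g h) = l ^ (i + i')`,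
`a (g h) = j + l ^ i j'` modulo `2 ^ n`, and `s ^ i t ^ j' = t ^ (l ^ i j') s ^ i`. `S g = (τ ^ j σ ^ i, x)`, and
`τ ^ j σ ^ i = g` modulo `W` (as in `tame_gen`), so `S g = (g, x)` in `E'` with a unique `x =: z g` (two
representatives `(g w, x)` and `(g, x)` are equal in `E'`; `(g, x) = (g, y)` in `E'` only if `x = y`). Then
`z (g h) = z g + z h + f g h`, and `z` is smooth: it depends only on `χ g`, `a g` modulo `2 ^ n` and on `g W`:
`IsChar`, `c1`.
-/

set_option autoImplicit false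
set_option linter.unusedSectionVars false

namespace Pool.Agent.Work.MP_787500_nt.GP

open Pool.Agent.Work.MP_787500_nt.PA (TwoSys Sm1 Sm2 homs Coc Cob IsChar)

variable {D : Type*} [Group D] {SD : TwoSys D} {χ a : D → ℤ_[2]} {σ τ : D} {l : ℕ}

/-- the extension given by a 2-cocycle -/
@[ext] private structure G3Ext (f : D → D → ZMod 2) where
  fst : D
  snd : ZMod 2

private instance (f : D → D → ZMod 2) : Mul (G3Ext f) :=
  ⟨fun p q => ⟨p.fst * q.fst, p.snd + q.snd + f p.fst q.fst⟩⟩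

private instance (f : D → D → ZMod 2) : One (G3Ext f) := ⟨⟨1, 0⟩⟩

private instance (f : D → D → ZMod 2) : Inv (G3Ext f) :=
  ⟨fun p => ⟨p.fst⁻¹, p.snd + f p.fst⁻¹ p.fst⟩⟩

private theorem g3_mul (f : D → D → ZMod 2) (g k : D) (x y : ZMod 2) :
    (⟨g, x⟩ : G3Ext f) * ⟨k, y⟩ = ⟨g * k, x + y + f g k⟩ := rfl

private theorem g3_mul_fst {f : D → D → ZMod 2} (p q : G3Ext f) : (p * q).fst = p.fst * q.fst := rfl

private theorem g3_mul_snd {f : D → D → ZMod 2} (p q : G3Ext f) :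
    (p * q).snd = p.snd + q.snd + f p.fst q.fst := rfl

private abbrev g3Group (f : D → D → ZMod 2)
    (hc : ∀ g h k, f g h + f (g * h) k = f h k + f g (h * k)) (h1 : f 1 1 = 0) :
    Group (G3Ext f) :=
  Group.ofLeftAxioms
    (by
      intro p q r
      refine G3Ext.ext ?_ ?_
      · simp only [g3_mul_fst, mul_assoc]
      · simp only [g3_mul_fst, g3_mul_snd]
        have := hc p.fst q.fst r.fst
        linear_combination this)
    (by
      intro p
      refine G3Ext.ext ?_ ?_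
      · change 1 * p.fst = p.fst
        rw [one_mul]
      · change 0 + p.snd + f 1 p.fst = p.snd
        have := hc 1 1 p.fst
        rw [one_mul, h1, zero_add, one_mul] at this
        have : f 1 p.fst = 0 := left_eq_add.1 this
        rw [this, zero_add, add_zero])
    (by
      intro p
      refine G3Ext.ext ?_ ?_
      · change p.fst⁻¹ * p.fst = 1
        rw [inv_mul_cancel]
      · change p.snd + f p.fst⁻¹ p.fst + p.snd + f p.fst⁻¹ p.fst = 0
        have h2 : ∀ x y : ZMod 2, x + y + x + y = 0 := by decide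
        exact h2 _ _)

private theorem g3_norm (h : TameD SD χ a σ τ l) {f : D → D → ZMod 2} (hf : Coc SD ⊤ f)
    (h11 : f 1 1 = 0) (h0 : iota σ τ l f = 0) : Cob SD ⊤ f := by
  obtain ⟨⟨W, hW, hs⟩, hc0⟩ := hf
  have hc : ∀ g h k, f g h + f (g * h) k = f h k + f g (h * k) := fun g h k =>
    hc0 g (Subgroup.mem_top g) h (Subgroup.mem_top h) k (Subgroup.mem_top k)
  have hl1 : ∀ g, f 1 g = 0 := by
    intro g
    have := hc 1 1 g
    rw [one_mul, h11, zero_add, one_mul] at this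
    exact left_eq_add.1 this
  have hr1 : ∀ g, f g 1 = 0 := by
    intro g
    have := hc g 1 1
    rw [mul_one, h11, zero_add, mul_one] at this
    exact add_eq_left.1 this
  have hWr : ∀ g, ∀ w ∈ W, f g w = 0 := by
    intro g w hw
    have := hs g 1 1 W.one_mem w hw
    rw [mul_one, one_mul, hr1] at this
    exact this
  have hWl : ∀ g, ∀ w ∈ W, f w g = 0 := by
    intro g w hw
    have := hs 1 g w hw 1 W.one_mem
    rw [mul_one, one_mul, hl1] at this
    exact this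
  have hWn : W.Normal := SD.normal hW
  let _ : Group (G3Ext f) := g3Group f hc h11
  have m1 : ∀ (g k : D) (x y : ZMod 2), (⟨g, x⟩ : G3Ext f) * ⟨k, y⟩ = ⟨g * k, x + y + f g k⟩ :=
    fun g k x y => rfl
  have one1 : (1 : G3Ext f) = ⟨1, 0⟩ := rfl
  let N : Subgroup (G3Ext f) :=
    { carrier := {p | p.fst ∈ W ∧ p.snd = 0}
      one_mem' := ⟨W.one_mem, rfl⟩
      mul_mem' := by
        rintro ⟨g, x⟩ ⟨k, y⟩ ⟨hg, hx⟩ ⟨hk, hy⟩
        simp only at hg hx hk hy
        refine ⟨W.mul_mem hg hk, ?_⟩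
        change x + y + f g k = 0
        rw [hx, hy, hWr g k hk, add_zero, add_zero]
      inv_mem' := by
        rintro ⟨g, x⟩ ⟨hg, hx⟩
        simp only at hg hx
        refine ⟨W.inv_mem hg, ?_⟩
        change x + f g⁻¹ g = 0
        rw [hx, hWr _ g hg, add_zero] }
  have memN : ∀ (g : D) (x : ZMod 2), (⟨g, x⟩ : G3Ext f) ∈ N ↔ g ∈ W ∧ x = 0 := fun g x => Iff.rfl
  have hN : N.Normal := by
    refine ⟨?_⟩
    rintro ⟨w, y⟩ hwy ⟨g, x⟩
    obtain ⟨hw, hy⟩ := (memN _ _).1 hwy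
    subst hy
    have hgw : g * w * g⁻¹ ∈ W := hWn.conj_mem w hw g
    have e : (⟨g, x⟩ : G3Ext f) * ⟨w, 0⟩ = ⟨g * w * g⁻¹, 0⟩ * ⟨g, x⟩ := by
      rw [m1, m1, hWr g w hw, hWl g _ hgw, inv_mul_cancel_right, add_zero, add_zero, zero_add,
        add_zero]
    rw [e, mul_inv_cancel_right]
    exact (memN _ _).2 ⟨hgw, rfl⟩
  have mkeq : ∀ (g k : D) (x : ZMod 2), g⁻¹ * k ∈ W →
      QuotientGroup.mk' N ⟨g, x⟩ = QuotientGroup.mk' N ⟨k, x⟩ := by
    intro g k x hgk
    have e : (⟨k, x⟩ : G3Ext f) = ⟨g, x⟩ * ⟨g⁻¹ * k, 0⟩ := by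
      rw [m1, hWr g _ hgk, mul_inv_cancel_left, add_zero, add_zero]
    rw [e, map_mul]
    have : QuotientGroup.mk' N ⟨g⁻¹ * k, 0⟩ = 1 := by
      rw [← MonoidHom.mem_ker, QuotientGroup.ker_mk']
      exact (memN _ _).2 ⟨hgk, rfl⟩
    rw [this, mul_one]
  have mkinj : ∀ (g : D) (x y : ZMod 2),
      QuotientGroup.mk' N ⟨g, x⟩ = QuotientGroup.mk' N ⟨g, y⟩ → x = y := by
    intro g x y hxy
    have e : (⟨g, y⟩ : G3Ext f) = ⟨1, x + y⟩ * ⟨g, x⟩ := by
      rw [m1, hl1, one_mul, add_zero, add_assoc, add_comm y x, ← add_assoc,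
        CharTwo.add_self_eq_zero, zero_add]
    rw [e, map_mul, eq_comm, mul_eq_right, ← MonoidHom.mem_ker, QuotientGroup.ker_mk'] at hxy
    have := ((memN _ _).1 hxy).2
    have h2 : ∀ x y : ZMod 2, x + y = 0 → x = y := by decide
    exact h2 _ _ this
  have fstpow : ∀ (p : G3Ext f) (m : ℕ), (p ^ m).fst = p.fst ^ m := by
    intro p m
    induction m with
    | zero => rw [pow_zero, pow_zero, one1]
    | succ m ih =>
      rw [pow_succ, pow_succ, ← ih]
      rfl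
  obtain ⟨k, hk⟩ := SD.index hW
  have hexp : ∀ p : G3Ext f ⧸ N, p ^ (2 ^ (k + 1)) = 1 := by
    intro p
    obtain ⟨q, rfl⟩ := QuotientGroup.mk'_surjective N p
    rw [← map_pow, ← MonoidHom.mem_ker, QuotientGroup.ker_mk', pow_succ, pow_mul]
    have h1 : (q ^ (2 ^ k)).fst ∈ W := by
      rw [fstpow, ← hk]
      exact Subgroup.pow_index_mem W q.fst
    generalize hr : q ^ (2 ^ k) = r at h1
    obtain ⟨r1, r2⟩ := r
    simp only at h1
    rw [pow_two, m1, hWr _ _ h1, CharTwo.add_self_eq_zero, add_zero]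
    exact (memN _ _).2 ⟨W.mul_mem h1 h1, rfl⟩
  -- the relation
  have tpow : ∀ m : ℕ, 1 ≤ m → (⟨τ, 0⟩ : G3Ext f) ^ m =
      ⟨τ ^ m, ∑ i ∈ Finset.Ico 1 m, f (τ ^ i) τ⟩ := by
    intro m hm
    induction m, hm using Nat.le_induction with
    | base => simp
    | succ m hm ih =>
      rw [pow_succ, ih, m1, Finset.sum_Ico_succ_top hm, add_zero, ← pow_succ]
  set s : G3Ext f ⧸ N := QuotientGroup.mk' N ⟨σ, 0⟩ with hs'
  set t : G3Ext f ⧸ N := QuotientGroup.mk' N ⟨τ, 0⟩ with ht'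
  have hl : 1 ≤ l := by have := h.lt; omega
  have hrel : s * t = t ^ l * s := by
    rw [hs', ht', ← map_pow, ← map_mul, ← map_mul, tpow l hl, m1, m1, add_zero, add_zero, zero_add]
    have e1 : f σ τ = ∑ i ∈ Finset.Ico 1 l, f (τ ^ i) τ + f (τ ^ l) σ := by
      have := h0
      simp only [iota] at this
      linear_combination this
    rw [← e1]
    refine (mkeq _ _ _ ?_).symm
    have hz : Sm1 SD (fun g : D => (QuotientGroup.mk g : D ⧸ W)) := by
      refine ⟨W, hW, fun g w hw => ?_⟩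
      exact (QuotientGroup.eq.2 (by rw [inv_mul_cancel_left]; exact hw)).symm
    have := tame_rel h hz
    exact QuotientGroup.eq.1 this.symm
  have hst : ∀ i m : ℕ, s ^ i * t ^ m = t ^ (l ^ i * m) * s ^ i := by
    have h1 : ∀ m : ℕ, s * t ^ m = t ^ (l * m) * s := by
      intro m
      induction m with
      | zero => rw [pow_zero, mul_one, mul_zero, pow_zero, one_mul]
      | succ m ih =>
        rw [pow_succ, ← mul_assoc, ih, mul_assoc, hrel, ← mul_assoc, ← pow_add, Nat.mul_succ]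
    intro i
    induction i with
    | zero => intro m; rw [pow_zero, one_mul, pow_zero, one_mul, mul_one]
    | succ i ih =>
      intro m
      rw [pow_succ, mul_assoc, h1, ← mul_assoc, ih, mul_assoc, pow_succ l i, mul_assoc]
  -- the level
  obtain ⟨n1, hn1⟩ := h.sep W hW
  obtain ⟨n2, hn2⟩ := g2_ord h.odd h.lt (k + 1)
  obtain ⟨n, hn, hn', hn''⟩ : ∃ n : ℕ, n1 ≤ n ∧ n2 ≤ n ∧ k + 1 ≤ n :=
    ⟨n1 + n2 + (k + 1), by omega, by omega, by omega⟩
  have spow : ∀ i j : ℕ, i ≡ j [MOD 2 ^ (k + 1)] → s ^ i = s ^ j := by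
    intro i j hij
    exact pow_eq_pow_iff_modEq.2 (hij.of_dvd (orderOf_dvd_of_pow_eq_one (hexp s)))
  have tpow' : ∀ i j : ℕ, (2 : ℤ_[2]) ^ n ∣ (i : ℤ_[2]) - (j : ℤ_[2]) → t ^ i = t ^ j := by
    intro i j hij
    have h1 := (PadicInt.pow_p_dvd_int_iff (p := 2) n ((i : ℤ) - (j : ℤ))).1 (by
      push_cast
      exact hij)
    have h2 : i ≡ j [MOD 2 ^ n] := by
      refine (Nat.modEq_iff_dvd.2 ?_).symm
      exact_mod_cast h1
    have h3 : i ≡ j [MOD 2 ^ (k + 1)] := h2.of_dvd (pow_dvd_pow 2 hn'')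
    exact pow_eq_pow_iff_modEq.2 (h3.of_dvd (orderOf_dvd_of_pow_eq_one (hexp t)))
  choose I hI using fun g => h.dens g n
  choose J hJ using fun g => g1_nat (a g) n
  set T : D → G3Ext f ⧸ N := fun g => t ^ (J g) * s ^ (I g) with hT
  have uniq : ∀ (g : D) (i j : ℕ), (2 : ℤ_[2]) ^ n ∣ χ g - (l : ℤ_[2]) ^ i →
      (2 : ℤ_[2]) ^ n ∣ a g - j → T g = t ^ j * s ^ i := by
    intro g i j hi hj
    have h1 : (2 : ℤ_[2]) ^ n ∣ (l : ℤ_[2]) ^ (I g) - (l : ℤ_[2]) ^ i := by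
      have := dvd_sub hi (hI g)
      have e : χ g - (l : ℤ_[2]) ^ i - (χ g - (l : ℤ_[2]) ^ (I g)) =
        (l : ℤ_[2]) ^ (I g) - (l : ℤ_[2]) ^ i := by ring
      rwa [e] at this
    have h2 : (2 : ℤ_[2]) ^ n ∣ ((J g : ℕ) : ℤ_[2]) - (j : ℤ_[2]) := by
      have := dvd_sub hj (hJ g)
      have e : a g - (j : ℤ_[2]) - (a g - ((J g : ℕ) : ℤ_[2])) =
        ((J g : ℕ) : ℤ_[2]) - (j : ℤ_[2]) := by ring
      rwa [e] at this
    rw [hT]
    simp only
    rw [tpow' _ _ h2, spow _ _ (hn2 n hn' _ _ h1)]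
  have Tmul : ∀ g k, T (g * k) = T g * T k := by
    intro g k
    have h1 : T (g * k) = t ^ (J g + l ^ (I g) * J k) * s ^ (I g + I k) := by
      refine uniq _ _ _ ?_ ?_
      · have e : χ (g * k) - (l : ℤ_[2]) ^ (I g + I k) =
            (χ g - (l : ℤ_[2]) ^ (I g)) * χ k + (l : ℤ_[2]) ^ (I g) * (χ k - (l : ℤ_[2]) ^ (I k)) := by
          rw [h.char.mul, pow_add]
          ring
        rw [e]
        exact dvd_add ((hI g).mul_right _) ((hI k).mul_left _)
      · have e : a (g * k) - ((J g + l ^ (I g) * J k : ℕ) : ℤ_[2]) =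
            (a g - ((J g : ℕ) : ℤ_[2])) + (χ g - (l : ℤ_[2]) ^ (I g)) * a k +
              (l : ℤ_[2]) ^ (I g) * (a k - ((J k : ℕ) : ℤ_[2])) := by
          rw [h.coc]
          push_cast
          ring
        rw [e]
        exact dvd_add (dvd_add (hJ g) ((hI g).mul_right _)) ((hJ k).mul_left _)
    rw [h1, pow_add, pow_add, mul_assoc, ← mul_assoc (t ^ (l ^ I g * J k)), ← hst]
    simp only [hT, mul_assoc]
  have hz : ∀ g, ∃ x : ZMod 2, T g = QuotientGroup.mk' N ⟨g, x⟩ := by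
    intro g
    refine ⟨((⟨τ, 0⟩ : G3Ext f) ^ (J g) * ⟨σ, 0⟩ ^ (I g)).snd, ?_⟩
    have e1 : T g = QuotientGroup.mk' N ((⟨τ, 0⟩ : G3Ext f) ^ (J g) * ⟨σ, 0⟩ ^ (I g)) := by
      rw [map_mul, map_pow, map_pow]
    rw [e1]
    generalize hq : ((⟨τ, 0⟩ : G3Ext f) ^ (J g) * ⟨σ, 0⟩ ^ (I g)) = q
    have hfst : q.fst = τ ^ (J g) * σ ^ (I g) := by
      rw [← hq]
      change ((⟨τ, 0⟩ : G3Ext f) ^ (J g)).fst * ((⟨σ, 0⟩ : G3Ext f) ^ (I g)).fst = _
      rw [fstpow, fstpow]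
    obtain ⟨q1, q2⟩ := q
    simp only at hfst
    refine mkeq _ _ _ ?_
    rw [hfst]
    have hw := g1_word h (I g) (J g)
    have hcl := g1_close h (g := g) (k := τ ^ (J g) * σ ^ (I g)) (n := n)
      (by rw [hw.1]; exact hI g) (by rw [hw.2]; exact hJ g)
    exact hn1 _ ((pow_dvd_pow 2 hn).trans hcl.1) ((pow_dvd_pow 2 hn).trans hcl.2)
  choose z hz using hz
  refine ⟨z, ?_, fun g _ k _ => ?_⟩
  · obtain ⟨W1, hW1, hc1⟩ := h.char.cont n
    obtain ⟨W2, hW2, hc2⟩ := h.c1 n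
    refine ⟨W ⊓ (W1 ⊓ W2), SD.inf hW (SD.inf hW1 hW2), fun g w hw => ?_⟩
    have h1 : T (g * w) = T g := by
      refine uniq (g * w) (I g) (J g) ?_ ?_
      · have := dvd_add (hc1 g w hw.2.1) (hI g)
        have e : χ (g * w) - χ g + (χ g - (l : ℤ_[2]) ^ (I g)) =
          χ (g * w) - (l : ℤ_[2]) ^ (I g) := by ring
        rwa [e] at this
      · have := dvd_add (hc2 g w hw.2.2) (hJ g)
        have e : a (g * w) - a g + (a g - ((J g : ℕ) : ℤ_[2])) =
          a (g * w) - ((J g : ℕ) : ℤ_[2]) := by ring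
        rwa [e] at this
    rw [hz, hz] at h1
    have h2 : QuotientGroup.mk' N ⟨g, z (g * w)⟩ = QuotientGroup.mk' N ⟨g * w, z (g * w)⟩ :=
      mkeq _ _ _ (by rw [inv_mul_cancel_left]; exact hw.1)
    rw [← h2] at h1
    exact mkinj _ _ _ h1
  · have h1 := Tmul g k
    rw [hz, hz, hz, ← map_mul, m1] at h1
    have h2 := mkinj _ _ _ h1
    have h3 : ∀ u v w x : ZMod 2, u = v + w + x → x = v + w + u := by decide
    exact h3 _ _ _ _ h2

theorem tame_one (h : TameD SD χ a σ τ l) {f : D → D → ZMod 2} (hf : Coc SD ⊤ f)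
    (h0 : iota σ τ l f = 0) : Cob SD ⊤ f := by
  set c : ZMod 2 := f 1 1 with hcdef
  obtain ⟨W0, hW0⟩ := SD.ex
  have hconst : Sm1 SD (fun _ : D => c) := ⟨W0, hW0, fun _ _ _ => rfl⟩
  have h3 : ∀ c : ZMod 2, c + c + c = c := by decide
  have hic : iota σ τ l (fun _ _ : D => c) = 0 := by
    have := iota_cob2 h hconst
    simp only [h3] at this
    exact this
  have hf' : Coc SD ⊤ (fun g k => f g k + c) := by
    obtain ⟨⟨W, hW, hs⟩, hc⟩ := hf
    refine ⟨⟨W, hW, fun g k w hw w' hw' => ?_⟩, fun g hg k hk m hm => ?_⟩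
    · simp only
      rw [hs g k w hw w' hw']
    · have := hc g hg k hk m hm
      simp only
      linear_combination this
  have h0' : iota σ τ l (fun g k => f g k + c) = 0 := by
    rw [iota_add, h0, hic, add_zero]
  have h11 : (fun g k => f g k + c) 1 1 = 0 := by
    simp only
    rw [hcdef, CharTwo.add_self_eq_zero]
  obtain ⟨z, hz, hc⟩ := g3_norm h hf' h11 h0'
  obtain ⟨W, hW, hs⟩ := hz
  refine ⟨fun g => z g + c, ⟨W, hW, fun g w hw => by simp only; rw [hs g w hw]⟩, fun g hg k hk => ?_⟩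
  have := hc g hg k hk
  simp only at this ⊢
  have h4 : ∀ F c x y w : ZMod 2, F + c = x + y + w → F = x + c + (y + c) + (w + c) := by decide
  exact h4 _ _ _ _ _ this

end Pool.Agent.Work.MP_787500_nt.GP
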