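import Mathlib
import Pool.Agent.Work.MP_787500_nt.GP.G2_TameHoms
import Pool.Agent.Work.MP_787500_nt.GP.G3_TameOne

/-!
# Module G4_TAMELOC (size S-M): the local hypotheses for a tame group

`inv f = u • iota σ τ l f`, `u` a unit. `add`: `iota_add`; `cob`: `iota_cob`; `fin`: `tame_homs`; `nondeg`:
`tame_nondeg` (`u • t = 0 → t = 0`); `one`: `iota_hf`, `tame_one`.
-/

set_option autoImplicit false
set_option linter.unusedSectionVars false

namespace Pool.Agent.Work.MP_787500_nt.GP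

open Pool.Agent.Work.MP_787500_nt.PA (TwoSys Sm1 Sm2 homs Coc Cob IsChar)

variable {D : Type*} [Group D] {SD : TwoSys D} {χ a : D → ℤ_[2]} {σ τ : D} {l : ℕ}

theorem tame_locH (h : TameD SD χ a σ τ l) {u : ℤ_[2]} (hu : IsUnit u) :
    LocH SD χ (fun f => u • iota σ τ l f) := by
  have hu0 : ∀ t : A0, u • t = 0 → t = 0 := by
    intro t ht
    obtain ⟨v, rfl⟩ := hu
    have h1 : ((v⁻¹ : ℤ_[2]ˣ) : ℤ_[2]) • ((v : ℤ_[2]) • t) = 0 := by rw [ht, smul_zero]
    rwa [smul_smul, Units.inv_mul, one_smul] at h1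
  refine ⟨h.char, fun f f' _ _ => ?_, fun z hz => ?_, (tame_homs h).1, fun ψ hψ h0 => ?_,
    fun f hf' h0 => ?_⟩
  · show u • iota σ τ l (fun a b => f a b + f' a b) = u • iota σ τ l f + u • iota σ τ l f'
    rw [iota_add, smul_add]
  · show u • iota σ τ l (d1 (tw χ) z) = 0
    rw [iota_cob h hz, smul_zero]
  · exact tame_nondeg h hψ fun φ hφ => hu0 _ (h0 φ hφ)
  · have h1 := hu0 _ h0
    rw [iota_hf, ← hf_zero] at h1
    exact tame_one h hf' (hf_inj h1)

end Pool.Agent.Work.MP_787500_nt.GP
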