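import Mathlib
import Pool.Agent.Work.MP_787500_nt.GP.T03_Coch

/-!
# Module L01_LOCINJ (size M): local cocycles with values in `ℚ_2 / ℤ_2`

* `a0_inj`: `F` has finitely many values (`Sm2`), so `2 ^ m • F = 0` for some `m`; induction on `m`. `m = 0`:
  `F = 0 = d1 0`. Step: `2 ^ (m - 1) • F` is killed by 2, so it is `hf ∘ f₁` (`eq_hf`), with
  `f₁` in `Coc SD ⊤` (`hf_inj`, `smul_hf`, `IsChar.odd`). `inv (hf ∘ f₁) = 2 ^ (m - 1) • inv F = 0`
  (`LocH.add`, induction), so by `LocH.one` `f₁ s t = x s + x t + x (s t)`, `x` smooth. Choose a smooth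
  `x' : D → A0` with `2 ^ (m - 1) • x' = hf ∘ x` (`a0_div_pow` applied to `hf 0`, `hf 1`). Then
  `F' = F - d1 (tw χ) x'` satisfies `2 ^ (m - 1) • F' = 0` and `inv F' = 0` (`LocH.cob`); induct.
* `z1_div`: choose `y` smooth with `y d + y d = z d` (`a0_div`, compose `z` with a section of doubling).
  `d1 (tw χ) y` is killed by 2, so it is `hf ∘ f₁`, `f₁ ∈ Coc`, and
  `inv (hf ∘ f₁) = inv (d1 (tw χ) y) = 0` (`LocH.cob`), so `f₁ = d x` by `LocH.one` and
  `z' = y - hf ∘ x` is a cocycle with `2 z' = z`.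
-/

set_option autoImplicit false
set_option linter.unusedSectionVars false

namespace Pool.Agent.Work.MP_787500_nt.GP

open Matrix
open Pool.Agent.Work.MP_787500_nt.PA (TwoSys Sm1 Sm2 homs Coc Cob IsChar toE)

variable {D : Type*} [Group D] {SD : TwoSys D} {χ : D → ℤ_[2]} {inv : (D → D → A0) → A0}

private theorem l01_killed {F : D → D → A0} (hF : Sm2 SD F) :
    ∃ m : ℕ, ∀ a b, (2 ^ m) • F a b = 0 := by
  obtain ⟨W, hW, h⟩ := hF
  obtain ⟨k, hk⟩ := SD.index hW
  have hfi : W.FiniteIndex := ⟨by rw [hk]; positivity⟩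
  have hfin : Finite (D ⧸ W) := Subgroup.finite_quotient_of_finiteIndex
  obtain ⟨m, hm, -⟩ := a0_killed (fun q : (D ⧸ W) × (D ⧸ W) => F q.1.out q.2.out)
  refine ⟨m, fun a b => ?_⟩
  obtain ⟨w, hw⟩ := QuotientGroup.mk_out_eq_mul W a
  obtain ⟨w', hw'⟩ := QuotientGroup.mk_out_eq_mul W b
  have h1 := hm ((a : D ⧸ W), (b : D ⧸ W))
  rw [hw, hw', h a b w w.2 w' w'.2] at h1
  exact h1

private theorem l01_zero : Z2 SD (tw χ) (fun _ _ => (0 : A0)) := by
  obtain ⟨W, hW⟩ := SD.ex
  refine ⟨⟨W, hW, fun _ _ _ _ _ _ => rfl⟩, fun a b c => ?_⟩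
  show χ a • (0 : A0) - 0 + 0 - 0 = 0
  rw [smul_zero]
  abel

private theorem l01_nsmul (L : LocH SD χ inv) {F : D → D → A0} (hF : Z2 SD (tw χ) F) (n : ℕ) :
    Z2 SD (tw χ) (fun a b => n • F a b) ∧ inv (fun a b => n • F a b) = n • inv F := by
  induction n with
  | zero =>
    have h0 : inv (fun _ _ => (0 : A0)) = 0 := by
      have h1 := L.add _ _ (l01_zero (SD := SD) (χ := χ)) l01_zero
      simp only [add_zero] at h1
      exact left_eq_add.1 h1
    simp only [zero_smul]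
    exact ⟨l01_zero, h0⟩
  | succ n ih =>
    simp only [add_smul, one_smul]
    refine ⟨Z2.add (isAct_tw L.char) ih.1 hF, ?_⟩
    rw [L.add _ _ ih.1 hF, ih.2]

/-- a cocycle killed by 2 with invariant 0 -/
private theorem l01_coc (L : LocH SD χ inv) {F : D → D → A0} (hF : Z2 SD (tw χ) F)
    (h2 : ∀ a b, F a b + F a b = 0) (h : inv F = 0) :
    ∃ z : D → ZMod 2, Sm1 SD z ∧ ∀ a b, F a b = hf (z a + z b + z (a * b)) := by
  choose f hf' using fun a b => eq_hf (h2 a b)
  have hc : Coc SD ⊤ f := by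
    obtain ⟨⟨W, hW, h3⟩, h4⟩ := hF
    refine ⟨⟨W, hW, fun g k w hw w' hw' => hf_inj ?_⟩, fun g _ k _ l _ => hf_inj ?_⟩
    · rw [← hf', ← hf', h3 g k w hw w' hw']
    · have h5 := h4 g k l
      have h6 : χ g • F k l - F (g * k) l + F g (k * l) - F g k = 0 := h5
      rw [hf' k l, smul_hf (L.char.odd g), hf' (g * k) l, hf' g (k * l), hf' g k] at h6
      rw [hf_add, hf_add]
      have h7 : hf (f k l) + hf (f g (k * l)) = hf (f g k) + hf (f (g * k) l) := by
        rw [← sub_eq_zero, ← h6]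
        abel
      exact h7.symm
  have e : (fun a b => hf (f a b)) = F := by
    funext a b
    exact (hf' a b).symm
  obtain ⟨z, hz, h3⟩ := L.one f hc (by rw [e]; exact h)
  refine ⟨z, hz, fun a b => ?_⟩
  rw [hf' a b, h3 a (Subgroup.mem_top _) b (Subgroup.mem_top _)]

private theorem l01_comp {A B : Type*} {z : D → A} (hz : Sm1 SD z) (s : A → B) :
    Sm1 SD (fun d => s (z d)) := by
  obtain ⟨W, hW, h⟩ := hz
  refine ⟨W, hW, fun g w hw => ?_⟩
  show s (z (g * w)) = s (z g)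
  rw [h g w hw]

private theorem l01_add {z z' : D → A0} (hz : Sm1 SD z) (hz' : Sm1 SD z') :
    Sm1 SD (fun d => z d + z' d) := by
  obtain ⟨W, hW, h⟩ := hz
  obtain ⟨W', hW', h'⟩ := hz'
  refine ⟨W ⊓ W', SD.inf hW hW', fun g w hw => ?_⟩
  show z (g * w) + z' (g * w) = z g + z' g
  rw [h g w hw.1, h' g w hw.2]

private theorem l01_ind (L : LocH SD χ inv) (m : ℕ) : ∀ F : D → D → A0, Z2 SD (tw χ) F →
    inv F = 0 → (∀ a b, (2 ^ m) • F a b = 0) → B2 SD (tw χ) F := by
  induction m with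
  | zero =>
    intro F hF h h0
    obtain ⟨W, hW⟩ := SD.ex
    refine ⟨fun _ => 0, ⟨W, hW, fun _ _ _ => rfl⟩, ?_⟩
    funext a b
    have h1 := h0 a b
    rw [pow_zero, one_smul] at h1
    rw [h1]
    show (0 : A0) = 0 + χ a • (0 : A0) - 0
    rw [smul_zero]
    abel
  | succ m ih =>
    intro F hF h h0
    obtain ⟨h1, h2⟩ := l01_nsmul L hF (2 ^ m)
    rw [h, smul_zero] at h2
    obtain ⟨z, hz, h3⟩ := l01_coc L h1 (fun a b => by
      rw [← two_nsmul, ← mul_smul, ← pow_succ']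
      exact h0 a b) h2
    choose s hs using fun a : ZMod 2 => a0_div_pow m (hf a)
    have hx : Sm1 SD (fun d => -s (z d)) := l01_comp hz (fun a => -s a)
    have hF' : Z2 SD (tw χ) (fun a b => F a b + d1 (tw χ) (fun d => -s (z d)) a b) :=
      Z2.add (isAct_tw L.char) hF (d1_tw_Z2 L.char hx)
    obtain ⟨y, hy, h4⟩ := ih _ hF' (by
      rw [L.add _ _ hF (d1_tw_Z2 L.char hx), h, zero_add]
      exact L.cob _ hx) (fun a b => by
      have e1 : (2 ^ m) • d1 (tw χ) (fun d => -s (z d)) a b =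
          -(hf (z a) + χ a • hf (z b) - hf (z (a * b))) := by
        rw [← hs (z a), ← hs (z b), ← hs (z (a * b))]
        show (2 ^ m) • (-s (z a) + χ a • (-s (z b)) - -s (z (a * b))) = _
        rw [smul_sub, smul_add, smul_neg, smul_neg, smul_neg, smul_neg, smul_comm (χ a) (2 ^ m)]
        abel
      rw [smul_add, e1, h3 a b, smul_hf (L.char.odd a), hf_add, hf_add]
      have e2 := hf_two (z (a * b))
      calc _ = hf (z (a * b)) + hf (z (a * b)) := by abel
        _ = 0 := e2)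
    refine ⟨fun d => y d + s (z d), l01_add hy (l01_comp hz s), ?_⟩
    funext a b
    have h5 := congrFun (congrFun h4 a) b
    have h6 : F a b + (-s (z a) + χ a • (-s (z b)) - -s (z (a * b))) =
        y a + χ a • y b - y (a * b) := h5
    show F a b = (y a + s (z a)) + χ a • (y b + s (z b)) - (y (a * b) + s (z (a * b)))
    rw [smul_add]
    rw [smul_neg] at h6
    calc F a b = (F a b + (-s (z a) + -(χ a • s (z b)) - -s (z (a * b)))) +
        (s (z a) + χ a • s (z b) - s (z (a * b))) := by abel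
      _ = _ := by rw [h6]; abel

theorem a0_inj (L : LocH SD χ inv) {F : D → D → A0} (hF : Z2 SD (tw χ) F) (h : inv F = 0) :
    B2 SD (tw χ) F := by
  obtain ⟨m, hm⟩ := l01_killed hF.1
  exact l01_ind L m F hF h hm

theorem z1_div (L : LocH SD χ inv) {z : D → A0} (hz : Z1 SD (tw χ) z) :
    ∃ z', Z1 SD (tw χ) z' ∧ ∀ d, z' d + z' d = z d := by
  choose s hs using a0_div
  have hy : Sm1 SD (fun d => s (z d)) := l01_comp hz.1 s
  obtain ⟨x, hx, h1⟩ := l01_coc L (d1_tw_Z2 L.char hy) (fun a b => by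
    show (s (z a) + χ a • s (z b) - s (z (a * b))) + (s (z a) + χ a • s (z b) - s (z (a * b))) = 0
    have h1 : z (a * b) = z a + χ a • z b := hz.2 a b
    calc _ = (s (z a) + s (z a)) + χ a • (s (z b) + s (z b)) - (s (z (a * b)) + s (z (a * b))) := by
          rw [smul_add]
          abel
      _ = 0 := by rw [hs, hs, hs, h1, sub_self]) (L.cob _ hy)
  refine ⟨fun d => s (z d) + hf (x d), ⟨l01_add hy (l01_comp hx hf), fun a b => ?_⟩, fun d => ?_⟩
  · have h2 : s (z a) + χ a • s (z b) - s (z (a * b)) = hf (x a + x b + x (a * b)) := h1 a b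
    show s (z (a * b)) + hf (x (a * b)) = s (z a) + hf (x a) + χ a • (s (z b) + hf (x b))
    rw [smul_add, smul_hf (L.char.odd a)]
    rw [hf_add, hf_add] at h2
    have e1 := hf_two (x a)
    have e2 := hf_two (x b)
    have e3 : s (z (a * b)) = s (z a) + χ a • s (z b) - (hf (x a) + hf (x b) + hf (x (a * b))) := by
      rw [← h2]
      abel
    rw [e3]
    have e4 : -hf (x a) = hf (x a) := hf_neg _
    have e5 : -hf (x b) = hf (x b) := hf_neg _
    calc _ = s (z a) + χ a • s (z b) + -hf (x a) + -hf (x b) := by abel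
      _ = _ := by rw [e4, e5]; abel
  · show s (z d) + hf (x d) + (s (z d) + hf (x d)) = z d
    calc _ = (s (z d) + s (z d)) + (hf (x d) + hf (x d)) := by abel
      _ = z d := by rw [hs, hf_two, add_zero]

end Pool.Agent.Work.MP_787500_nt.GP
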