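import Mathlib
import Pool.Agent.Work.MP_787500_nt.GP.L03_Ring

/-!
# Module L08_MN (size M): the finite modules `MN T l N`

Everything through lifts (`lft`, `mq_lft`, `mq_eq_zero`, `bN_val`, `actQ_mq`).
* `MN_finite`: the classes modulo `T` (open) of the bounded set `l ^ (-N) T`: compactness of closed balls.
* `MN_lift`: `l` is invertible in `E`: the class of `l⁻¹ lft m`.
* `bN_one`/`bN_succ`: `l ^ (N + 1) bil x y = l ^ N bil x (l y)`. (`x'` is `x` as an element killed by `l ^ N`.)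
* `bN_nd`: if `t (l ^ N bil x y) ∈ ℤ_2` for all `y ∈ l ^ (-N) T` then for `y' ∈ T`, `‖a‖ ≤ 1`:
  `‖t (a bil x y')‖ ≤ 1` (take `y = a l ^ (-N) y'`), so `‖bil x y'‖ ≤ 1` (`tdual`) and `x ∈ T` (`dual`).
* `pair_MN`: `IsAct` from `one`, `mul`; smooth: `‖ρ w x - x‖ ≤ ε ‖x‖` for `x` in the bounded set `l ^ (-N) T`,
  so in `T` for small `ε` (`opn`); equivariance from `dual`, `t (toE E (χ d) * x) = χ d • t x`.
* `sdual_MN`: `lin` clear; `symm` from `bil_symm`; `bal`; `alt` from `hal`.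
-/

set_option autoImplicit false
set_option linter.unusedSectionVars false

namespace Pool.Agent.Work.MP_787500_nt.GP

open Matrix
open Pool.Agent.Work.MP_787500_nt.PA (TwoSys Sm1 Sm2 homs Coc Cob IsChar toE)

variable {E : Type*} [NormedField E] [NormedAlgebra ℚ_[2] E] [FiniteDimensional ℚ_[2] E] {n : ℕ}
  {b : Matrix (Fin n) (Fin n) E} {l : OE E} {t : E →ₗ[ℚ_[2]] ℚ_[2]}
  {T : Submodule (OE E) (Fin n → E)}

private theorem l08_bdd (h : Lat b l t T) (N : ℕ) :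
    ∃ C : ℝ, 0 ≤ C ∧ ∀ m : MN T l N, ‖lft (m : Wq T)‖ ≤ C := by
  obtain ⟨R, hR⟩ := h.bdd
  have hl : 0 < ‖(l : E)‖ ^ N := pow_pos (norm_pos_iff.2 h.lne) N
  refine ⟨max 0 (R / ‖(l : E)‖ ^ N), le_max_left _ _, fun m => le_max_of_le_right ?_⟩
  have h1 := hR _ m.lft_mem
  rw [norm_smul, norm_pow] at h1
  rw [le_div_iff₀ hl]
  linarith

theorem MN_finite (h : Lat b l t T) (N : ℕ) : Finite (MN T l N) := by
  obtain ⟨C, hC0, hC⟩ := l08_bdd h N
  obtain ⟨r, hr, hopn⟩ := h.opn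
  have hp : ProperSpace E := FiniteDimensional.proper ℚ_[2] E
  obtain ⟨s, -, hs, hcov⟩ := (isCompact_closedBall (0 : Fin n → E) C).finite_cover_balls
    (half_pos hr)
  have hex : ∀ m : MN T l N, ∃ y : s, lft (m : Wq T) ∈ Metric.ball (y : Fin n → E) (r / 2) := by
    intro m
    have h1 : lft (m : Wq T) ∈ Metric.closedBall (0 : Fin n → E) C := by
      rw [mem_closedBall_zero_iff]
      exact hC m
    have h2 := hcov h1
    rw [Set.mem_iUnion₂] at h2
    obtain ⟨y, hy, h3⟩ := h2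
    exact ⟨⟨y, hy⟩, h3⟩
  choose f hf using hex
  have : Finite s := hs
  refine Finite.of_injective f fun m m' hm => ?_
  have h1 := hf m
  have h2 := hf m'
  rw [hm] at h1
  rw [Metric.mem_ball] at h1 h2
  have h3 : ‖lft (m : Wq T) - lft (m' : Wq T)‖ < r := by
    rw [← dist_eq_norm]
    calc dist (lft (m : Wq T)) (lft (m' : Wq T)) ≤
        dist (lft (m : Wq T)) (f m' : Fin n → E) + dist (lft (m' : Wq T)) (f m' : Fin n → E) :=
          dist_triangle_right _ _ _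
      _ < r / 2 + r / 2 := add_lt_add h1 h2
      _ = r := by ring
  have h4 := mq_eq.2 (hopn _ h3)
  rw [mq_lft, mq_lft] at h4
  exact Subtype.ext h4

private theorem l08_pow_ne (h : Lat b l t T) (N : ℕ) : (l : E) ^ N ≠ 0 := pow_ne_zero _ h.lne

private theorem l08_mem {N : ℕ} {x : Fin n → E} (hx : (l : E) ^ N • x ∈ T) :
    mq T x ∈ Submodule.torsionBy (OE E) (Wq T) (l ^ N) := by
  rw [Submodule.mem_torsionBy_iff, ← mq_smul, mq_eq_zero]
  simpa using hx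

private theorem l08_memT {N : ℕ} {x : Fin n → E}
    (hx : mq T x ∈ Submodule.torsionBy (OE E) (Wq T) (l ^ N)) : (l : E) ^ N • x ∈ T := by
  rw [Submodule.mem_torsionBy_iff, ← mq_smul, mq_eq_zero] at hx
  simpa using hx

theorem MN_lift_pow (h : Lat b l t T) (N k : ℕ) (m : MN T l k) :
    ∃ m' : MN T l (N + k), l ^ N • (m' : Wq T) = m := by
  have hl := l08_pow_ne h N
  refine ⟨⟨mq T (((l : E) ^ N)⁻¹ • lft (m : Wq T)), l08_mem ?_⟩, ?_⟩
  · have := m.lft_mem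
    rw [smul_smul, pow_add, mul_comm ((l : E) ^ N), mul_assoc, mul_inv_cancel₀ hl, mul_one]
    exact this
  · show l ^ N • mq T (((l : E) ^ N)⁻¹ • lft (m : Wq T)) = m
    rw [← mq_smul]
    push_cast
    rw [smul_smul, mul_inv_cancel₀ hl, one_smul, mq_lft]

theorem MN_lift (h : Lat b l t T) (N : ℕ) (m : MN T l N) :
    ∃ m' : MN T l (N + 1), l • (m' : Wq T) = m := by
  have hl := h.lne
  refine ⟨⟨mq T ((l : E)⁻¹ • lft (m : Wq T)), l08_mem ?_⟩, ?_⟩
  · have := m.lft_mem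
    rw [smul_smul, pow_succ, mul_assoc, mul_inv_cancel₀ hl, mul_one]
    exact this
  · show l • mq T ((l : E)⁻¹ • lft (m : Wq T)) = m
    rw [← mq_smul, smul_smul, mul_inv_cancel₀ hl, one_smul, mq_lft]

theorem bN_succ (h : Lat b l t T) (N : ℕ) (x y : MN T l (N + 1)) (x' y' : MN T l N)
    (hx : (x' : Wq T) = x) (hy : (y' : Wq T) = l • (y : Wq T)) :
    bN h (N + 1) x y = bN h N x' y' := by
  rw [bN_val h (N + 1) x y (mq_lft _) (mq_lft _),
    bN_val h N x' y' (x' := lft (x : Wq T)) (y' := (l : E) • lft (y : Wq T))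
      (by rw [mq_lft, hx]) (by rw [mq_smul, mq_lft, hy]), bil_smul_right, pow_succ, mul_assoc]

/-- the same with `l` on the left -/
theorem bN_succ' (h : Lat b l t T) (N : ℕ) (x y : MN T l (N + 1)) (x' y' : MN T l N)
    (hx : (x' : Wq T) = l • (x : Wq T)) (hy : (y' : Wq T) = y) :
    bN h (N + 1) x y = bN h N x' y' := by
  rw [bN_val h (N + 1) x y (mq_lft _) (mq_lft _),
    bN_val h N x' y' (x' := (l : E) • lft (x : Wq T)) (y' := lft (y : Wq T))
      (by rw [mq_smul, mq_lft, hx]) (by rw [mq_lft, hy]), bil_smul_left, pow_succ, mul_assoc]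

/-- `x` at level `N + 1`, `y` at level 1 -/
theorem bN_one (h : Lat b l t T) (N : ℕ) (x : MN T l (N + 1)) (y : MN T l (N + 1))
    (x' y' : MN T l 1) (hx : (x' : Wq T) = l ^ N • (x : Wq T)) (hy : (y' : Wq T) = y) :
    bN h (N + 1) x y = bN h 1 x' y' := by
  rw [bN_val h (N + 1) x y (mq_lft _) (mq_lft _),
    bN_val h 1 x' y' (x' := (l : E) ^ N • lft (x : Wq T)) (y' := lft (y : Wq T))
      (by rw [hx, ← mq_lft (x : Wq T), ← mq_smul, mq_lft]; push_cast; rfl) (by rw [mq_lft, hy]),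
    bil_smul_left, pow_succ', pow_one, mul_assoc]

theorem bN_nd (h : Lat b l t T) (N : ℕ) (x : MN T l N) (h0 : ∀ y, bN h N x y = 0) : x = 0 := by
  have hl := l08_pow_ne h N
  apply Subtype.ext
  show (x : Wq T) = 0
  rw [← mq_lft (x : Wq T), mq_eq_zero, h.dual]
  intro y' hy'
  refine h.tdual _ fun a ha => ?_
  have h1 : (l : E) ^ N • ((a * ((l : E) ^ N)⁻¹) • y') ∈ T := by
    rw [smul_smul, mul_comm a, ← mul_assoc, mul_inv_cancel₀ hl, one_mul]
    exact T.smul_mem (⟨a, ha⟩ : OE E) hy'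
  have h2 := h0 ⟨mq T ((a * ((l : E) ^ N)⁻¹) • y'), l08_mem h1⟩
  rw [bN_val h N x _ (mq_lft _) (y' := (a * ((l : E) ^ N)⁻¹) • y') rfl, bil_smul_right] at h2
  have h3 : (l : E) ^ N * (a * ((l : E) ^ N)⁻¹ * bil b (lft (x : Wq T)) y') =
      a * bil b (lft (x : Wq T)) y' := by
    field_simp
  rw [h3, pr0_eq_zero] at h2
  obtain ⟨c, hc⟩ := h2
  rw [← hc]
  exact c.2

theorem bN_symm (h : Lat b l t T) (N : ℕ) (x y : MN T l N) : bN h N x y = bN h N y x := by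
  rw [bN_val h N x y (mq_lft _) (mq_lft _), bN_val h N y x (mq_lft _) (mq_lft _),
    bil_symm h.symm]

theorem bN_bal (h : Lat b l t T) (N : ℕ) (a : OE E) (x y : MN T l N) :
    bN h N (a • x) y = bN h N x (a • y) := by
  rw [bN_val h N (a • x) y (x' := (a : E) • lft (x : Wq T)) (by rw [mq_smul, mq_lft]; rfl)
      (mq_lft _),
    bN_val h N x (a • y) (y' := (a : E) • lft (y : Wq T)) (mq_lft _)
      (by rw [mq_smul, mq_lft]; rfl), bil_smul_left, bil_smul_right]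

private theorem l08_act {D : Type*} [Group D] {ρ : D → Matrix (Fin n) (Fin n) E} {l : OE E}
    (h1 : ρ 1 = 1) (hm : ∀ s t, ρ (s * t) = ρ s * ρ t) (hst : ∀ d, ∀ x ∈ T, ρ d *ᵥ x ∈ T) (N : ℕ) :
    IsAct (actN l N ρ hst) := by
  refine ⟨fun m => Subtype.ext ?_, fun g k m => Subtype.ext ?_, fun g m m' => Subtype.ext ?_⟩
  · rw [coe_actN, actQ, h1, one_mulVec, mq_lft]
  · rw [coe_actN, coe_actN, coe_actN, actQ, hm, ← mulVec_mulVec, actQ.eq_def T (ρ k),
      actQ_mq (hst g)]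
  · rw [Submodule.coe_add, coe_actN, coe_actN, coe_actN, Submodule.coe_add]
    conv_lhs => rw [← mq_lft (m : Wq T), ← mq_lft (m' : Wq T)]
    rw [← mq_add, actQ_mq (hst g), mulVec_add, mq_add]
    rfl

private theorem l08_sm (h : Lat b l t T) {D : Type*} [Group D] {SD : TwoSys D}
    {ρ : D → Matrix (Fin n) (Fin n) E} (hst : ∀ d, ∀ x ∈ T, ρ d *ᵥ x ∈ T)
    (hsm : ∀ ε : ℝ, 0 < ε → ∃ W, SD.mem W ∧ ∀ w ∈ W, ∀ x : Fin n → E, ‖ρ w *ᵥ x - x‖ ≤ ε * ‖x‖)
    (N : ℕ) : Smooth SD (actN l N ρ hst) := by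
  obtain ⟨C, hC0, hC⟩ := l08_bdd h N
  obtain ⟨r, hr, hopn⟩ := h.opn
  obtain ⟨W, hW, h1⟩ := hsm (r / (C + 1)) (by positivity)
  refine ⟨W, hW, fun w hw m => Subtype.ext ?_⟩
  rw [coe_actN, actQ]
  conv_rhs => rw [← mq_lft (m : Wq T)]
  rw [mq_eq]
  apply hopn
  calc ‖ρ w *ᵥ lft (m : Wq T) - lft (m : Wq T)‖ ≤ r / (C + 1) * ‖lft (m : Wq T)‖ := h1 w hw _
    _ ≤ r / (C + 1) * C := mul_le_mul_of_nonneg_left (hC m) (by positivity)
    _ < r := by
      rw [div_mul_eq_mul_div, div_lt_iff₀ (by linarith)]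
      nlinarith

private theorem l08_eqv (h : Lat b l t T) {D : Type*} [Group D] {SD : TwoSys D} {χ : D → ℤ_[2]}
    {ρ ρ' : D → Matrix (Fin n) (Fin n) E} (hr : LocRep SD χ T b ρ ρ') (N : ℕ) (g : D)
    (m m' : MN T l N) : bN h N (actN l N ρ hr.st g m) (actN l N ρ' hr.st' g m') =
      χ g • bN h N m m' := by
  rw [bN_val h N _ _ (x' := ρ g *ᵥ lft (m : Wq T)) (y' := ρ' g *ᵥ lft (m' : Wq T)) rfl rfl,
    bN_val h N m m' (mq_lft _) (mq_lft _), hr.dual, ← map_smul]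
  congr 1
  have e : (l : E) ^ N * (toE E (χ g) * bil b (lft (m : Wq T)) (lft (m' : Wq T))) =
      (χ g : ℚ_[2]) • ((l : E) ^ N * bil b (lft (m : Wq T)) (lft (m' : Wq T))) := by
    rw [toE, Algebra.smul_def]
    ring
  rw [e, map_smul]
  rfl

theorem pair_MN (h : Lat b l t T) {D : Type*} [Group D] {SD : TwoSys D} {χ : D → ℤ_[2]}
    {ρ ρ' : D → Matrix (Fin n) (Fin n) E} (hr : LocRep SD χ T b ρ ρ') (N : ℕ) :
    Pair SD χ (actN l N ρ hr.st) (actN l N ρ' hr.st') (bN h N) where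
  act := l08_act hr.one hr.mul hr.st N
  act' := l08_act hr.one' hr.mul' hr.st' N
  sm := l08_sm h hr.st hr.sm N
  sm' := l08_sm h hr.st' hr.sm' N
  eqv := l08_eqv h hr N
  nd := bN_nd h N
  nd' := fun m' hm => bN_nd h N m' fun m => by rw [bN_symm]; exact hm m

theorem sdual_MN (h : Lat b l t T) {G : Type*} [Group G] {S : TwoSys G} {χ : G → ℤ_[2]}
    {κ : G →* G} {θ : G} {ρ : G → Matrix (Fin n) (Fin n) E}
    (hr : LocRep S χ T b ρ (fun g => ρ (κ g)))
    (hal : ∀ x : Fin n → E, bil b x (ρ θ *ᵥ x) = 0) (N : ℕ) :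
    SDual S χ κ θ (OE E) (actN l N ρ hr.st) (bN h N) where
  act := l08_act hr.one hr.mul hr.st N
  lin := fun g a m => Subtype.ext (by
    rw [Submodule.coe_smul, coe_actN, coe_actN, Submodule.coe_smul]
    conv_lhs => rw [← mq_lft (m : Wq T)]
    rw [← mq_smul, actQ_mq (hr.st g), mulVec_smul, mq_smul]
    rfl)
  sm := l08_sm h hr.st hr.sm N
  symm := bN_symm h N
  bal := bN_bal h N
  eqv := fun g m m' => l08_eqv h hr N g m m'
  nd := bN_nd h N
  alt := fun a m => by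
    rw [bN_val h N (a • m) _ (x' := (a : E) • lft (m : Wq T)) (y' := ρ θ *ᵥ lft (m : Wq T))
      (by rw [mq_smul, mq_lft]; rfl) rfl, bil_smul_left, hal, mul_zero, mul_zero, map_zero,
      map_zero]

end Pool.Agent.Work.MP_787500_nt.GP
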