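import Mathlib
import Pool.Agent.Work.MP_787500_nt.Gn.PairZE
import Pool.Agent.Work.MP_787500_nt.GP.L02_BeInv
import Pool.Agent.Work.MP_787500_nt.GP.L08_MN

/-!
# Module L09_CUPV (size M): cup products with values in `E` and at finite level

* `zv_bdd`: `N1` and finite index: finitely many values up to norm 1.
* `cupE_ZE`: `N2` as in `Gn/PairZE.lean` (bounded, `sm'`, `N1`); the cocycle identity from `LocRep.dual`,
  `mul'`.
* `cup_level`: `bN_val` with the lifts `X s` and `ρ' s Y u` (`actQ_mq`):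
  `cup11 .. x y s u = pr0 (t (l ^ N * cupE ρ' b X Y s u))`.
* `perpV_level`: for `x ∈ lamN T l N L`, `x = mq ∘ X`: `cupE ρ' b X Y ∈ BE` (`PerpV`), so by `be_inv_zero`
  with `φ = t (l ^ N ·)` the invariant is 0.
* `zv_level`: `x d = mq (X d)`, killed by `l ^ N`, is smooth (`N1`, `opn`) and a cocycle.
* `cob_perpV`: for `Y = ρ' v - v`: `cupE X Y = -dE χ (fun s => bil b (X s) (ρ' s v))` up to sign, as
  `om_cob` in `Gn/PairZE.lean`.
-/

set_option autoImplicit false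
set_option linter.unusedSectionVars false

namespace Pool.Agent.Work.MP_787500_nt.GP

open Matrix
open Pool.Agent.Work.MP_787500_nt.PA (TwoSys Sm1 Sm2 homs Coc Cob IsChar toE)

variable {E : Type*} [NormedField E] [NormedAlgebra ℚ_[2] E] [FiniteDimensional ℚ_[2] E] {n : ℕ}
  {b : Matrix (Fin n) (Fin n) E} {l : OE E} {t : E →ₗ[ℚ_[2]] ℚ_[2]}
  {T : Submodule (OE E) (Fin n → E)}

variable {D : Type*} [Group D] {SD : TwoSys D} {χ : D → ℤ_[2]} {inv : (D → D → A0) → A0}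
  {ρ ρ' : D → Matrix (Fin n) (Fin n) E}

/-- a function close to its values at finitely many points is bounded -/
private theorem l09_bdd {W : Subgroup D} (hW : SD.mem W) (f : D → ℝ) (g : D → ℝ)
    (h : ∀ d, ∀ w ∈ W, f d ≤ g (d * w)) : ∃ C : ℝ, ∀ d, f d ≤ C := by
  obtain ⟨k, hk⟩ := SD.index hW
  have hfi : W.FiniteIndex := ⟨by rw [hk]; positivity⟩
  have hfin : Finite (D ⧸ W) := Subgroup.finite_quotient_of_finiteIndex
  obtain ⟨C, hC⟩ := (Set.finite_range (fun q : D ⧸ W => g q.out)).bddAbove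
  refine ⟨C, fun d => ?_⟩
  obtain ⟨w, hw⟩ := QuotientGroup.mk_out_eq_mul W d
  have h2 := h d w w.2
  rw [← hw] at h2
  exact h2.trans (hC ⟨_, rfl⟩)

private theorem l09_n1_bdd {A : Type*} [NormedAddCommGroup A] {X : D → A} (hX : PA.N1 SD X) :
    ∃ C : ℝ, ∀ d, ‖X d‖ ≤ C := by
  obtain ⟨W, hW, h1⟩ := hX 1 one_pos
  refine l09_bdd hW _ (fun d => ‖X d‖ + 1) fun d w hw => ?_
  have h2 := (h1 d w hw).le
  have h3 : ‖X d‖ ≤ ‖X (d * w)‖ + ‖X (d * w) - X d‖ := by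
    have := norm_sub_le (X (d * w)) (X (d * w) - X d)
    rwa [sub_sub_cancel] at this
  show ‖X d‖ ≤ ‖X (d * w)‖ + 1
  linarith

theorem zv_bdd {σ : D → Matrix (Fin n) (Fin n) E} {X : D → Fin n → E} (hX : ZV SD σ X) :
    ∃ C : ℝ, ∀ d, ‖X d‖ ≤ C := l09_n1_bdd hX.1

private theorem l09_mat (A : Matrix (Fin n) (Fin n) E) :
    ∃ C : ℝ, ∀ x : Fin n → E, ‖A *ᵥ x‖ ≤ C * ‖x‖ := by
  refine ⟨∑ i, ∑ j, ‖A i j‖, fun x => ?_⟩
  refine (pi_norm_le_iff_of_nonneg (by positivity)).2 fun i => ?_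
  show ‖∑ j, A i j * x j‖ ≤ _
  refine (norm_sum_le _ _).trans ?_
  calc ∑ j, ‖A i j * x j‖ ≤ ∑ j, ‖A i j‖ * ‖x‖ := by
        refine Finset.sum_le_sum fun j _ => ?_
        rw [norm_mul]
        exact mul_le_mul_of_nonneg_left (norm_le_pi_norm x j) (norm_nonneg _)
    _ = (∑ j, ‖A i j‖) * ‖x‖ := by rw [Finset.sum_mul]
    _ ≤ (∑ i, ∑ j, ‖A i j‖) * ‖x‖ := by
        refine mul_le_mul_of_nonneg_right ?_ (norm_nonneg _)
        exact Finset.single_le_sum (f := fun i => ∑ j, ‖A i j‖)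
          (fun i _ => Finset.sum_nonneg fun j _ => norm_nonneg _) (Finset.mem_univ i)

private theorem l09_rho_bdd (hr : LocRep SD χ T b ρ ρ') :
    ∃ C : ℝ, 0 < C ∧ ∀ d (x : Fin n → E), ‖ρ' d *ᵥ x‖ ≤ C * ‖x‖ := by
  obtain ⟨W, hW, h1⟩ := hr.sm' 1 one_pos
  choose g hg using fun d => l09_mat (ρ' d)
  have h2 : ∀ w ∈ W, ∀ x : Fin n → E, ‖ρ' w *ᵥ x‖ ≤ 2 * ‖x‖ := by
    intro w hw x
    have h3 := h1 w hw x
    have h4 : ‖ρ' w *ᵥ x‖ ≤ ‖ρ' w *ᵥ x - x‖ + ‖x‖ := by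
      have := norm_add_le (ρ' w *ᵥ x - x) x
      rwa [sub_add_cancel] at this
    linarith
  obtain ⟨k, hk⟩ := SD.index hW
  have hfi : W.FiniteIndex := ⟨by rw [hk]; positivity⟩
  have hfin : Finite (D ⧸ W) := Subgroup.finite_quotient_of_finiteIndex
  obtain ⟨C, hC⟩ := (Set.finite_range (fun q : D ⧸ W => g q.out)).bddAbove
  refine ⟨(|C| + 1) * 2, by positivity, fun d x => ?_⟩
  obtain ⟨w, hw⟩ := QuotientGroup.mk_out_eq_mul W d
  have e : ρ' d *ᵥ x = ρ' ((d : D ⧸ W).out) *ᵥ (ρ' (w : D)⁻¹ *ᵥ x) := by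
    rw [hw, mulVec_mulVec, ← hr.mul', mul_inv_cancel_right]
  rw [e]
  refine (hg _ _).trans ?_
  have h3 : g ((d : D ⧸ W).out) ≤ |C| + 1 := by
    have := hC ⟨(d : D ⧸ W), rfl⟩
    have h4 := le_abs_self C
    simp only at this
    linarith
  calc g ((d : D ⧸ W).out) * ‖ρ' (w : D)⁻¹ *ᵥ x‖ ≤ (|C| + 1) * ‖ρ' (w : D)⁻¹ *ᵥ x‖ :=
        mul_le_mul_of_nonneg_right h3 (norm_nonneg _)
    _ ≤ (|C| + 1) * (2 * ‖x‖) := mul_le_mul_of_nonneg_left (h2 _ (W.inv_mem w.2) x) (by positivity)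
    _ = (|C| + 1) * 2 * ‖x‖ := by ring

private theorem l09_n1_pair (b : Matrix (Fin n) (Fin n) E) {P Q : D → Fin n → E}
    (hP : PA.N1 SD P) (hQ : PA.N1 SD Q) : PA.N1 SD (fun g => bil b (P g) (Q g)) := by
  obtain ⟨C, hC, hb⟩ := Gn.pair_bound b
  obtain ⟨A, hPb⟩ := l09_n1_bdd hP
  obtain ⟨B, hQb⟩ := l09_n1_bdd hQ
  have hA : 0 ≤ A := (norm_nonneg _).trans (hPb 1)
  have hB : 0 ≤ B := (norm_nonneg _).trans (hQb 1)
  intro ε hε
  set M : ℝ := C * (A + B) + 1 with hM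
  have hM0 : 0 < M := by positivity
  obtain ⟨W, hW, hsm⟩ := hP (ε / M) (by positivity)
  obtain ⟨W', hW', hsm'⟩ := hQ (ε / M) (by positivity)
  refine ⟨W ⊓ W', SD.inf hW hW', fun g w hw => ?_⟩
  have h1 : bil b (P (g * w)) (Q (g * w)) - bil b (P g) (Q g) =
      bil b (P (g * w) - P g) (Q (g * w)) + bil b (P g) (Q (g * w) - Q g) := by
    rw [bil_sub_left, bil_sub_right]
    ring
  show ‖bil b (P (g * w)) (Q (g * w)) - bil b (P g) (Q g)‖ < ε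
  rw [h1]
  have h2 : ‖bil b (P (g * w) - P g) (Q (g * w))‖ ≤ _ := hb (P (g * w) - P g) (Q (g * w))
  have h3 : ‖bil b (P g) (Q (g * w) - Q g)‖ ≤ _ := hb (P g) (Q (g * w) - Q g)
  have h4 := (hsm g w hw.1).le
  have h5 := (hsm' g w hw.2).le
  have h6 : C * ‖P (g * w) - P g‖ * ‖Q (g * w)‖ ≤ C * (ε / M) * B :=
    mul_le_mul (mul_le_mul_of_nonneg_left h4 hC) (hQb _) (norm_nonneg _) (by positivity)
  have h7 : C * ‖P g‖ * ‖Q (g * w) - Q g‖ ≤ C * A * (ε / M) :=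
    mul_le_mul (mul_le_mul_of_nonneg_left (hPb _) hC) h5 (norm_nonneg _) (by positivity)
  have h8 : C * (ε / M) * B + C * A * (ε / M) = (M - 1) * (ε / M) := by
    rw [hM]
    ring
  have h9 : (M - 1) * (ε / M) < ε := by
    rw [mul_div_assoc', div_lt_iff₀ hM0]
    nlinarith
  calc ‖bil b (P (g * w) - P g) (Q (g * w)) + bil b (P g) (Q (g * w) - Q g)‖
      ≤ ‖bil b (P (g * w) - P g) (Q (g * w))‖ + ‖bil b (P g) (Q (g * w) - Q g)‖ :=
        norm_add_le _ _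
    _ < ε := by linarith

theorem cupE_ZE (hr : LocRep SD χ T b ρ ρ') {X Y : D → Fin n → E} (hX : ZV SD ρ X)
    (hY : ZV SD ρ' Y) : PA.ZE SD χ (cupE ρ' b X Y) := by
  constructor
  · obtain ⟨Cb, hCb, hb⟩ := Gn.pair_bound b
    obtain ⟨A, hXb⟩ := zv_bdd hX
    obtain ⟨B, hYb⟩ := zv_bdd hY
    have hA : 0 ≤ A := (norm_nonneg _).trans (hXb 1)
    have hB : 0 ≤ B := (norm_nonneg _).trans (hYb 1)
    obtain ⟨C, hC, hrb⟩ := l09_rho_bdd hr
    intro ε hε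
    set M : ℝ := Cb * (C * B + A * C * B + A * C) + 1 with hM
    have hM0 : 0 < M := by positivity
    obtain ⟨W1, hW1, hs1⟩ := hX.1 (ε / M) (by positivity)
    obtain ⟨W2, hW2, hs2⟩ := hr.sm' (ε / M) (by positivity)
    obtain ⟨W3, hW3, hs3⟩ := hY.1 (ε / M) (by positivity)
    refine ⟨W1 ⊓ (W2 ⊓ W3), SD.inf hW1 (SD.inf hW2 hW3), fun g h w hw w' hw' => ?_⟩
    have h1 : cupE ρ' b X Y (g * w) (h * w') - cupE ρ' b X Y g h =
        bil b (X (g * w) - X g) (ρ' (g * w) *ᵥ Y (h * w')) +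
        bil b (X g) (ρ' g *ᵥ (ρ' w *ᵥ Y (h * w') - Y (h * w'))) +
        bil b (X g) (ρ' g *ᵥ (Y (h * w') - Y h)) := by
      simp only [cupE, hr.mul', Matrix.mulVec_sub, bil_sub_left, bil_sub_right,
        ← Matrix.mulVec_mulVec]
      ring
    rw [h1]
    have h2 : ‖bil b (X (g * w) - X g) (ρ' (g * w) *ᵥ Y (h * w'))‖ ≤ _ :=
      hb (X (g * w) - X g) (ρ' (g * w) *ᵥ Y (h * w'))
    have h3 : ‖bil b (X g) (ρ' g *ᵥ (ρ' w *ᵥ Y (h * w') - Y (h * w')))‖ ≤ _ :=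
      hb (X g) (ρ' g *ᵥ (ρ' w *ᵥ Y (h * w') - Y (h * w')))
    have h4 : ‖bil b (X g) (ρ' g *ᵥ (Y (h * w') - Y h))‖ ≤ _ :=
      hb (X g) (ρ' g *ᵥ (Y (h * w') - Y h))
    have e1 := (hs1 g w hw.1).le
    have e2 := hs2 w hw.2.1 (Y (h * w'))
    have e3 := (hs3 h w' hw'.2.2).le
    have e4 := hrb (g * w) (Y (h * w'))
    have e5 := hrb g (Y (h * w') - Y h)
    have e5' := hrb g (ρ' w *ᵥ Y (h * w') - Y (h * w'))
    have e6 : C * ‖Y (h * w')‖ ≤ C * B := mul_le_mul_of_nonneg_left (hYb _) hC.le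
    have e7 : C * ‖ρ' w *ᵥ Y (h * w') - Y (h * w')‖ ≤ C * (ε / M * B) :=
      mul_le_mul_of_nonneg_left (e2.trans (mul_le_mul_of_nonneg_left (hYb _) (by positivity))) hC.le
    have e8 : C * ‖Y (h * w') - Y h‖ ≤ C * (ε / M) :=
      mul_le_mul_of_nonneg_left e3 hC.le
    have f1 : Cb * ‖X (g * w) - X g‖ * ‖ρ' (g * w) *ᵥ Y (h * w')‖ ≤
        Cb * (ε / M) * (C * B) :=
      mul_le_mul (mul_le_mul_of_nonneg_left e1 hCb) (e4.trans e6) (norm_nonneg _) (by positivity)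
    have f2 : Cb * ‖X g‖ * ‖ρ' g *ᵥ (ρ' w *ᵥ Y (h * w') - Y (h * w'))‖ ≤
        Cb * A * (C * (ε / M * B)) :=
      mul_le_mul (mul_le_mul_of_nonneg_left (hXb _) hCb) (e5'.trans e7) (norm_nonneg _)
        (by positivity)
    have f3 : Cb * ‖X g‖ * ‖ρ' g *ᵥ (Y (h * w') - Y h)‖ ≤
        Cb * A * (C * (ε / M)) :=
      mul_le_mul (mul_le_mul_of_nonneg_left (hXb _) hCb) (e5.trans e8) (norm_nonneg _)
        (by positivity)
    have f4 : Cb * (ε / M) * (C * B) + Cb * A * (C * (ε / M * B)) + Cb * A * (C * (ε / M)) =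
        (M - 1) * (ε / M) := by
      rw [hM]
      ring
    have f5 : (M - 1) * (ε / M) < ε := by
      rw [mul_div_assoc', div_lt_iff₀ hM0]
      nlinarith
    refine (norm_add₃_le).trans_lt ?_
    linarith
  · intro g h k
    have e : bil b (ρ g *ᵥ X h) (ρ' g *ᵥ (ρ' h *ᵥ Y k)) =
        toE E (χ g) * bil b (X h) (ρ' h *ᵥ Y k) := hr.dual g _ _
    simp only [cupE, hX.2, hY.2, hr.mul', Matrix.mulVec_add, bil_add_left, bil_add_right,
      ← Matrix.mulVec_mulVec, e]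
    ring

theorem cup_level (h : Lat b l t T) (hr : LocRep SD χ T b ρ ρ') (N : ℕ) {x y : D → MN T l N}
    {X Y : D → Fin n → E} (hx : ∀ d, (x d : Wq T) = mq T (X d))
    (hy : ∀ d, (y d : Wq T) = mq T (Y d)) (s u : D) :
    cup11 (actN l N ρ' hr.st') (bN h N) x y s u =
      pr0 (t ((l : E) ^ N * cupE ρ' b X Y s u)) := by
  refine bN_val h N (x s) _ (hx s).symm ?_
  rw [coe_actN, hy, actQ_mq (hr.st' s)]

private theorem l09_level (h : Lat b l t T) (N : ℕ) {σ : D → Matrix (Fin n) (Fin n) E}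
    (hst : ∀ d, ∀ x ∈ T, σ d *ᵥ x ∈ T) {x : D → MN T l N}
    {X : D → Fin n → E} (hX : ZV SD σ X) (hx : ∀ d, (x d : Wq T) = mq T (X d)) :
    Z1 SD (actN l N σ hst) x := by
  constructor
  · obtain ⟨r, hr, hT⟩ := h.opn
    obtain ⟨W, hW, h1⟩ := hX.1 r hr
    refine ⟨W, hW, fun g w hw => Subtype.ext ?_⟩
    rw [hx, hx, mq_eq]
    exact hT _ (h1 g w hw)
  · intro s u
    refine Subtype.ext ?_
    rw [hx, hX.2, mq_add, Submodule.coe_add, coe_actN, hx, hx, actQ_mq (hst s)]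

theorem zv_level (h : Lat b l t T) (hr : LocRep SD χ T b ρ ρ') (N : ℕ) {x : D → MN T l N}
    {X : D → Fin n → E} (hX : ZV SD ρ X) (hx : ∀ d, (x d : Wq T) = mq T (X d)) :
    Z1 SD (actN l N ρ hr.st) x := l09_level h N hr.st hX hx

theorem zv_level' (h : Lat b l t T) (hr : LocRep SD χ T b ρ ρ') (N : ℕ) {x : D → MN T l N}
    {X : D → Fin n → E} (hX : ZV SD ρ' X) (hx : ∀ d, (x d : Wq T) = mq T (X d)) :
    Z1 SD (actN l N ρ' hr.st') x := l09_level h N hr.st' hX hx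

theorem perpV_level (H : LocH SD χ inv) (h : Lat b l t T) (hr : LocRep SD χ T b ρ ρ')
    {L : Submodule E (D → Fin n → E)} {Y : D → Fin n → E} (hY : PerpV SD χ b ρ' L Y) (N : ℕ)
    {y : D → MN T l N} (hy : ∀ d, (y d : Wq T) = mq T (Y d)) {x : D → MN T l N}
    (hx : x ∈ lamN T l N L) : inv (cup11 (actN l N ρ' hr.st') (bN h N) x y) = 0 := by
  obtain ⟨X, hX, h1⟩ := hx
  have h2 := be_inv_zero H (hY.2 X hX) (t.comp (LinearMap.mulLeft ℚ_[2] ((l : E) ^ N)))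
  rw [← h2]
  congr 1
  funext s u
  rw [cup_level h hr N h1 hy]
  rfl

theorem cob_perpV (hr : LocRep SD χ T b ρ ρ') {L : Submodule E (D → Fin n → E)}
    (hL : ∀ X ∈ L, ZV SD ρ X) (v : Fin n → E) :
    PerpV SD χ b ρ' L (fun d => ρ' d *ᵥ v - v) := by
  obtain ⟨C, hC, hrb⟩ := l09_rho_bdd hr
  have hQ : PA.N1 SD (fun d => ρ' d *ᵥ v) := by
    intro ε hε
    obtain ⟨W, hW, hsm⟩ := hr.sm' (ε / (C * (‖v‖ + 1))) (by positivity)
    refine ⟨W, hW, fun g w hw => ?_⟩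
    have e : ρ' (g * w) *ᵥ v - ρ' g *ᵥ v = ρ' g *ᵥ (ρ' w *ᵥ v - v) := by
      rw [mulVec_sub, mulVec_mulVec, ← hr.mul']
    show ‖ρ' (g * w) *ᵥ v - ρ' g *ᵥ v‖ < ε
    rw [e]
    refine ((hrb g _).trans (mul_le_mul_of_nonneg_left (hsm w hw v) hC.le)).trans_lt ?_
    have h4 : 0 ≤ ‖v‖ := norm_nonneg v
    have e2 : C * (ε / (C * (‖v‖ + 1)) * ‖v‖) = ε * (‖v‖ / (‖v‖ + 1)) := by
      field_simp
    rw [e2]
    have h5 : ‖v‖ / (‖v‖ + 1) < 1 := by rw [div_lt_one (by positivity)]; linarith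
    nlinarith
  refine ⟨⟨?_, fun s u => ?_⟩, fun X hX => ?_⟩
  · intro ε hε
    obtain ⟨W, hW, hsm⟩ := hQ ε hε
    refine ⟨W, hW, fun g w hw => ?_⟩
    rw [sub_sub_sub_cancel_right]
    exact hsm g w hw
  · beta_reduce
    rw [hr.mul', ← mulVec_mulVec, mulVec_sub]
    abel
  · refine ⟨fun s => -bil b (X s) (ρ' s *ᵥ v), ?_, ?_⟩
    · intro ε hε
      obtain ⟨W, hW, hsm⟩ := l09_n1_pair b (hL X hX).1 hQ ε hε
      refine ⟨W, hW, fun g w hw => ?_⟩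
      rw [neg_sub_neg, norm_sub_rev]
      exact hsm g w hw
    · funext s u
      have e : bil b (ρ s *ᵥ X u) (ρ' s *ᵥ (ρ' u *ᵥ v)) =
          toE E (χ s) * bil b (X u) (ρ' u *ᵥ v) := hr.dual s _ _
      simp only [cupE, PA.dE, (hL X hX).2, hr.mul', Matrix.mulVec_sub, bil_add_left,
        bil_sub_right, ← Matrix.mulVec_mulVec, e]
      ring

end Pool.Agent.Work.MP_787500_nt.GP
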