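import Mathlib
import Pool.Agent.Work.MP_787500_nt.GP.FinDefs
import Pool.Agent.Work.MP_787500_nt.GP.LDefs

/-!
# Module L20A_DIM (size M): dimensions

`dimModulo M B + finrank B = finrank M` for `B ≤ M` finite dimensional
(`Submodule.finrank_quotient_add_finrank`, `B.submoduleOf M ≃ B`), and
`finrank (coboundaries A) + finrank (fixedBy A) = n` (rank-nullity for `v ↦ (σ ↦ A σ v - v)`).
`even_n`: the form `(x, y) ↦ bil b x (A y)` is alternating, so the matrix `b * A` is skew-symmetric with
zero diagonal, `(b * A)ᵀ = -(b * A)`, `det = (-1) ^ n det`, so `n` is even because `det (b * A) ≠ 0`, char 0.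
`even_count`: with `s = finrank M`, `a = dimModulo`, `c = finrank` of the coboundaries, `f` = fixed vectors:
`a + c = s`, `c + f = n` even, so `a + f ≡ s` modulo 2, for `M` and for all `L w`.
-/

set_option autoImplicit false
set_option linter.unusedSectionVars false

namespace Pool.Agent.Work.MP_787500_nt.GP

open Matrix
open Pool.Agent.Work.MP_787500_nt.PA (toE)

variable {E : Type*} [NormedField E] {n : ℕ}

theorem dimModulo_add {A : Type*} [AddCommGroup A] [Module E A] {M B : Submodule E A} (h : B ≤ M)
    (hM : FiniteDimensional E M) :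
    Parity.dimModulo M B + Module.finrank E B = Module.finrank E M := by

  have : FiniteDimensional E M := hM
  unfold Parity.dimModulo
  rw [← Submodule.finrank_quotient_add_finrank (B.submoduleOf M),
    (Submodule.submoduleOfEquivOfLe h).finrank_eq]


/-- the coboundary map -/
private def l20_map {X : Type*} (A : X → Matrix (Fin n) (Fin n) E) :
    (Fin n → E) →ₗ[E] (X → Fin n → E) where
  toFun v := fun σ => A σ *ᵥ v - v
  map_add' v w := by
    funext σ
    simp only [Pi.add_apply, mulVec_add]
    abel
  map_smul' a v := by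
    funext σ
    simp only [Pi.smul_apply, mulVec_smul, RingHom.id_apply, smul_sub]

private theorem l20_range {X : Type*} (A : X → Matrix (Fin n) (Fin n) E) :
    LinearMap.range (l20_map A) = Parity.coboundaries A := by
  ext x
  constructor
  · rintro ⟨v, rfl⟩
    exact ⟨v, fun σ => rfl⟩
  · rintro ⟨v, hv⟩
    exact ⟨v, funext fun σ => (hv σ).symm⟩

private theorem l20_ker {X : Type*} (A : X → Matrix (Fin n) (Fin n) E) :
    LinearMap.ker (l20_map A) = Parity.fixedBy A := by
  ext x
  rw [LinearMap.mem_ker]
  constructor
  · intro h σ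
    exact sub_eq_zero.1 (congrFun h σ)
  · intro h
    funext σ
    exact sub_eq_zero.2 (h σ)

theorem cob_fd {X : Type*} (A : X → Matrix (Fin n) (Fin n) E) :
    FiniteDimensional E (Parity.coboundaries A) := by

  rw [← l20_range]
  infer_instance

theorem finrank_cob {X : Type*} (A : X → Matrix (Fin n) (Fin n) E) :
    Module.finrank E (Parity.coboundaries A) + Module.finrank E (Parity.fixedBy A) = n := by

  rw [← l20_range, ← l20_ker, LinearMap.finrank_range_add_finrank_ker, Module.finrank_fin_fun]

theorem even_n [CharZero E] {b A : Matrix (Fin n) (Fin n) E} (hb : b.det ≠ 0) (hA : A.det ≠ 0)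
    (hal : ∀ x : Fin n → E, bil b x (A *ᵥ x) = 0) : Even n := by

  by_contra hodd
  rw [Nat.not_even_iff_odd] at hodd
  have h1 : ∀ x : Fin n → E, x ⬝ᵥ ((b * A) *ᵥ x) = 0 := by
    intro x
    rw [← mulVec_mulVec]
    exact hal x
  have h2 : ∀ i j, (Pi.single i 1 : Fin n → E) ⬝ᵥ ((b * A) *ᵥ Pi.single j 1) = (b * A) i j := by
    intro i j
    rw [mulVec_single_one, single_one_dotProduct]
    rfl
  have h3 : (b * A)ᵀ = -(b * A) := by
    ext i j
    rw [transpose_apply, neg_apply]
    have h4 := h1 (Pi.single i 1 + Pi.single j 1)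
    rw [mulVec_add, add_dotProduct, dotProduct_add, dotProduct_add, h2, h2, h2, h2] at h4
    have h5 := h1 (Pi.single i 1)
    have h6 := h1 (Pi.single j 1)
    rw [h2] at h5 h6
    rw [h5, h6] at h4
    linear_combination h4
  have h4 : (b * A).det = -(b * A).det := by
    have h5 := congrArg Matrix.det h3
    rw [det_transpose, det_neg, Fintype.card_fin, hodd.neg_one_pow, neg_one_mul] at h5
    exact h5
  have h5 : (2 : E) * (b * A).det = 0 := by linear_combination h4
  rcases mul_eq_zero.1 h5 with h6 | h6
  · exact two_ne_zero h6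
  · rw [det_mul] at h6
    rcases mul_eq_zero.1 h6 with h7 | h7
    · exact hb h7
    · exact hA h7

theorem even_count (hn : Even n) {X Φ : Type*} [Fintype Φ] {D : Φ → Type*}
    (A : X → Matrix (Fin n) (Fin n) E) (B : ∀ w, D w → Matrix (Fin n) (Fin n) E)
    {M : Submodule E (X → Fin n → E)} {L : ∀ w, Submodule E (D w → Fin n → E)}
    (hM : FiniteDimensional E M) (hL : ∀ w, FiniteDimensional E (L w))
    (hcM : Parity.coboundaries A ≤ M) (hcL : ∀ w, Parity.coboundaries (B w) ≤ L w)
    (h : Even (Module.finrank E M + ∑ w, Module.finrank E (L w))) :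
    Even (Parity.dimModulo M (Parity.coboundaries A) + Module.finrank E (Parity.fixedBy A) +
      ∑ w, (Parity.dimModulo (L w) (Parity.coboundaries (B w)) +
        Module.finrank E (Parity.fixedBy (B w)))) := by

  have h1 := dimModulo_add hcM hM
  have h2 := finrank_cob A
  have h3 : ∀ w, Parity.dimModulo (L w) (Parity.coboundaries (B w)) +
      Module.finrank E (Parity.fixedBy (B w)) + 2 * Module.finrank E (Parity.coboundaries (B w)) =
      Module.finrank E (L w) + n := by
    intro w
    have h4 := dimModulo_add (hcL w) (hL w)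
    have h5 := finrank_cob (B w)
    omega
  have h4 : ∑ w, (Parity.dimModulo (L w) (Parity.coboundaries (B w)) +
      Module.finrank E (Parity.fixedBy (B w))) +
      2 * ∑ w, Module.finrank E (Parity.coboundaries (B w)) =
      ∑ w, Module.finrank E (L w) + Fintype.card Φ * n := by
    rw [Finset.mul_sum, ← Finset.sum_add_distrib, Finset.sum_congr rfl fun w _ => h3 w,
      Finset.sum_add_distrib, Finset.sum_const, Finset.card_univ, smul_eq_mul]
  have h5 : Even (Fintype.card Φ * n) := hn.mul_left _
  generalize ∑ w, (Parity.dimModulo (L w) (Parity.coboundaries (B w)) +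
    Module.finrank E (Parity.fixedBy (B w))) = s1 at *
  generalize ∑ w, Module.finrank E (Parity.coboundaries (B w)) = s2 at *
  generalize ∑ w, Module.finrank E (L w) = s3 at *
  generalize Fintype.card Φ * n = s4 at *
  rw [Nat.even_iff] at *
  omega

end Pool.Agent.Work.MP_787500_nt.GP
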