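import Mathlib
import Pool.Agent.Work.MP_787500_nt.GP.KDefs

/-!
# Module K3_LAM (size M, Mathlib only): the logarithm of the 2-adic units

For a 2-adic unit `x` and `n`: there is `m : ℕ`, unique modulo `2 ^ n`, with `x = ± 5 ^ m` modulo `2 ^ (n + 2)`: the units of
`ZMod (2 ^ (n + 2))` have `2 ^ (n + 1)` elements, `5` has order `2 ^ n` (Mathlib: `ZMod.orderOf_five` or similar in
`Mathlib/RingTheory/ZMod/UnitsCyclic.lean`; or: `5 ^ (2 ^ k) = 1 + 2 ^ (k + 2) (odd)`), and `-1` is not a power of 5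
(`5 ^ m = 1` modulo 4). The `m` for `n + 1` is congruent to the `m` for `n` modulo `2 ^ n`; `lam x` is the limit.
* `mul`: clear modulo `2 ^ n` for all `n`. * `dvd`: `2 ^ n ∣ lam x` iff `m = 0` works for `n`.
-/

set_option autoImplicit false
set_option linter.unusedSectionVars false

namespace Pool.Agent.Work.MP_787500_nt.GP

open IsDedekindDomain NumberField
open Pool.Agent.Work.MP_787500_nt.PA (TwoSys Sm1 Sm2 homs Coc Cob IsChar goodSys core cyc Opn SU)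
open Pool.Agent.Work.MP_787500_nt.Gn (GoodG)

private theorem k3_five (n : ℕ) : ∃ u : ℤ, (5 : ℤ) ^ (2 ^ n) = 1 + 2 ^ (n + 2) * u ∧ Odd u := by
  induction n with
  | zero => exact ⟨1, by norm_num, odd_one⟩
  | succ n ih =>
    obtain ⟨u, hu, ho⟩ := ih
    refine ⟨u + 2 ^ (n + 1) * u ^ 2, ?_, ?_⟩
    · rw [pow_succ 2 n, pow_mul, hu]
      ring
    · refine ho.add_even ?_
      rw [pow_succ]
      exact ⟨2 ^ n * u ^ 2, by ring⟩

private theorem k3_ex (a : ℤ) (ha : Odd a) (n : ℕ) :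
    ∃ m : ℕ, (2 : ℤ) ^ (n + 2) ∣ a - 5 ^ m ∨ (2 : ℤ) ^ (n + 2) ∣ a + 5 ^ m := by
  induction n with
  | zero =>
    refine ⟨0, ?_⟩
    obtain ⟨k, hk⟩ := ha
    norm_num
    omega
  | succ n ih =>
    obtain ⟨m, hm⟩ := ih
    obtain ⟨u, hu, ho⟩ := k3_five n
    have h5 : Odd ((5 : ℤ) ^ m * u) := (Odd.pow (by decide)).mul ho
    obtain ⟨v, hv⟩ := h5
    rcases hm with ⟨c, hc⟩ | ⟨c, hc⟩
    · rcases Int.even_or_odd c with ⟨d, hd⟩ | ⟨d, hd⟩
      · refine ⟨m, Or.inl ⟨d, ?_⟩⟩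
        rw [hc, hd]
        ring
      · refine ⟨m + 2 ^ n, Or.inl ⟨d - v, ?_⟩⟩
        have h1 : a = 5 ^ m + 2 ^ (n + 2) * (2 * d + 1) := by rw [← hd]; linarith
        have h2 : (5 : ℤ) ^ (m + 2 ^ n) = 5 ^ m + 2 ^ (n + 2) * (2 * v + 1) := by
          rw [pow_add, hu, ← hv]; ring
        rw [h1, h2]
        ring
    · rcases Int.even_or_odd c with ⟨d, hd⟩ | ⟨d, hd⟩
      · refine ⟨m, Or.inr ⟨d, ?_⟩⟩
        rw [hc, hd]
        ring
      · refine ⟨m + 2 ^ n, Or.inr ⟨d + v + 1, ?_⟩⟩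
        have h1 : a = -5 ^ m + 2 ^ (n + 2) * (2 * d + 1) := by rw [← hd]; linarith
        have h2 : (5 : ℤ) ^ (m + 2 ^ n) = 5 ^ m + 2 ^ (n + 2) * (2 * v + 1) := by
          rw [pow_add, hu, ← hv]; ring
        rw [h1, h2]
        ring

private theorem k3_lte (n k : ℕ) : (2 : ℤ) ^ (n + 2) ∣ 5 ^ k - 1 ↔ (2 : ℤ) ^ n ∣ (k : ℤ) := by
  have h1 := Int.two_pow_sub_pow' (x := 5) (y := 1) k (by norm_num) (by norm_num)
  rw [one_pow] at h1
  have h2 : emultiplicity (2 : ℤ) (5 - 1) = 2 := by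
    have h3 : (5 : ℤ) - 1 = 2 ^ 2 := by norm_num
    rw [h3]
    exact emultiplicity_pow_self_of_prime Int.prime_two 2
  rw [h2] at h1
  rw [pow_dvd_iff_le_emultiplicity, pow_dvd_iff_le_emultiplicity, h1]
  push_cast
  rw [add_comm]
  exact ENat.add_le_add_iff_left (by simp)

private theorem k3_odd_dvd {n : ℕ} {a b : ℤ} (ha : Odd a) (h : (2 : ℤ) ^ n ∣ a * b) :
    (2 : ℤ) ^ n ∣ b := by
  refine IsCoprime.dvd_of_dvd_mul_left ?_ h
  refine IsCoprime.pow_left ?_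
  obtain ⟨k, hk⟩ := ha
  exact ⟨-k, 1, by rw [hk]; ring⟩

private theorem k3_diff {n m m' : ℕ} (h : (2 : ℤ) ^ (n + 2) ∣ 5 ^ m - 5 ^ m') :
    (2 : ℤ) ^ n ∣ (m : ℤ) - m' := by
  have key : ∀ {m m' : ℕ}, m ≤ m' → (2 : ℤ) ^ (n + 2) ∣ 5 ^ m' - 5 ^ m →
      (2 : ℤ) ^ n ∣ (m' : ℤ) - m := by
    intro m m' hle h
    obtain ⟨k, rfl⟩ := Nat.exists_eq_add_of_le hle
    have h1 : (5 : ℤ) ^ (m + k) - 5 ^ m = 5 ^ m * (5 ^ k - 1) := by rw [pow_add]; ring
    rw [h1] at h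
    have h2 := (k3_lte n k).1 (k3_odd_dvd (Odd.pow (by decide)) h)
    push_cast
    rwa [add_sub_cancel_left]
  rcases le_total m m' with hle | hle
  · have h1 := key hle (by rw [← dvd_neg, neg_sub]; exact h)
    rw [← dvd_neg, neg_sub] at h1
    exact h1
  · exact key hle h

private theorem k3_sum {n m m' : ℕ} (h : (2 : ℤ) ^ (n + 2) ∣ 5 ^ m + 5 ^ m') : False := by
  have h1 : (4 : ℤ) ∣ 5 ^ m + 5 ^ m' := by
    refine dvd_trans ?_ h
    rw [pow_add]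
    exact ⟨2 ^ n, by ring⟩
  have h2 : ∀ m : ℕ, (4 : ℤ) ∣ 5 ^ m - 1 := fun m => by
    have := sub_dvd_pow_sub_pow (5 : ℤ) 1 m
    rw [one_pow] at this
    norm_num at this
    exact this
  have h3 := h2 m
  have h4 := h2 m'
  omega

private theorem k3_dvd {n : ℕ} {a : ℤ} : (2 : ℤ_[2]) ^ n ∣ (a : ℤ_[2]) ↔ (2 : ℤ) ^ n ∣ a := by
  have h := PadicInt.pow_p_dvd_int_iff (p := 2) n a
  push_cast at h
  exact h

/-- `x = ± 5 ^ m` modulo `2 ^ (n + 2)` -/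
private def K3P (n : ℕ) (x : ℤ_[2]) (m : ℕ) : Prop :=
  (2 : ℤ_[2]) ^ (n + 2) ∣ x - 5 ^ m ∨ (2 : ℤ_[2]) ^ (n + 2) ∣ x + 5 ^ m

private theorem k3_uniq {n : ℕ} {x : ℤ_[2]} {m m' : ℕ} (h : K3P n x m) (h' : K3P n x m') :
    (2 : ℤ_[2]) ^ n ∣ (m : ℤ_[2]) - m' := by
  have e1 : ((5 ^ m - 5 ^ m' : ℤ) : ℤ_[2]) = 5 ^ m - 5 ^ m' := by push_cast; ring
  have e2 : ((5 ^ m + 5 ^ m' : ℤ) : ℤ_[2]) = 5 ^ m + 5 ^ m' := by push_cast; ring
  have e3 : (((m : ℤ) - m' : ℤ) : ℤ_[2]) = (m : ℤ_[2]) - m' := by push_cast; ring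
  have g1 : (2 : ℤ_[2]) ^ (n + 2) ∣ 5 ^ m - 5 ^ m' → (2 : ℤ_[2]) ^ n ∣ (m : ℤ_[2]) - m' := by
    intro h
    rw [← e3, k3_dvd]
    exact k3_diff (k3_dvd.1 (by rw [e1]; exact h))
  have g2 : ¬ (2 : ℤ_[2]) ^ (n + 2) ∣ 5 ^ m + 5 ^ m' := by
    intro h
    exact k3_sum (k3_dvd.1 (by rw [e2]; exact h))
  rcases h with h | h <;> rcases h' with h' | h'
  · refine g1 ?_
    have := dvd_sub h' h
    rwa [sub_sub_sub_cancel_left] at this
  · refine absurd ?_ g2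
    have := dvd_sub h' h
    rw [show x + 5 ^ m' - (x - 5 ^ m) = 5 ^ m + 5 ^ m' by ring] at this
    exact this
  · refine absurd ?_ g2
    have := dvd_sub h h'
    rw [show x + 5 ^ m - (x - 5 ^ m') = 5 ^ m + 5 ^ m' by ring] at this
    exact this
  · refine g1 ?_
    have := dvd_sub h h'
    rwa [add_sub_add_left_eq_sub] at this

private theorem k3_mono {n n' : ℕ} (h : n ≤ n') {x : ℤ_[2]} {m : ℕ} (hx : K3P n' x m) :
    K3P n x m := by
  have h1 : (2 : ℤ_[2]) ^ (n + 2) ∣ 2 ^ (n' + 2) := pow_dvd_pow _ (by omega)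
  rcases hx with hx | hx
  · exact Or.inl (h1.trans hx)
  · exact Or.inr (h1.trans hx)

private theorem k3_exp {x : ℤ_[2]} (hx : IsUnit x) (n : ℕ) : ∃ m, K3P n x m := by
  obtain ⟨c, hc⟩ : (2 : ℤ_[2]) ^ (n + 2) ∣ x - (x.appr (n + 2) : ℤ_[2]) := by
    have h1 := PadicInt.appr_spec (n + 2) x
    rw [Ideal.mem_span_singleton] at h1
    push_cast at h1
    exact h1
  have h2 : Odd ((x.appr (n + 2) : ℕ) : ℤ) := by
    by_contra h
    rw [Int.not_odd_iff_even] at h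
    obtain ⟨k, hk⟩ := h
    have h3 : (2 : ℤ_[2]) ∣ x := by
      have h4 : ((x.appr (n + 2) : ℕ) : ℤ_[2]) = 2 * (k : ℤ_[2]) := by
        have := congrArg (fun z : ℤ => (z : ℤ_[2])) hk
        push_cast at this
        rw [this]
        ring
      refine ⟨k + 2 ^ (n + 1) * c, ?_⟩
      rw [h4] at hc
      linear_combination hc
    have h5 : IsUnit (2 : ℤ_[2]) := isUnit_of_dvd_unit h3 hx
    have h6 := PadicInt.prime_p (p := 2)
    push_cast at h6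
    exact h6.not_isUnit h5
  obtain ⟨m, hm⟩ := k3_ex _ h2 n
  refine ⟨m, ?_⟩
  rcases hm with hm | hm
  · refine Or.inl ?_
    have h3 := k3_dvd.2 hm
    push_cast at h3
    have h4 := dvd_add (Dvd.intro c hc.symm) h3
    rwa [sub_add_sub_cancel] at h4
  · refine Or.inr ?_
    have h3 := k3_dvd.2 hm
    push_cast at h3
    have h4 := dvd_add (Dvd.intro c hc.symm) h3
    rwa [← add_assoc, sub_add_cancel] at h4

private theorem k3_lim (f : ℕ → ℤ_[2]) (hf : ∀ m n, m ≤ n → (2 : ℤ_[2]) ^ m ∣ f m - f n) :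
    ∃ L, ∀ n, (2 : ℤ_[2]) ^ n ∣ f n - L := by
  have h0 : ∀ n, IsLocalRing.maximalIdeal ℤ_[2] ^ n = Ideal.span {(2 : ℤ_[2]) ^ n} := fun n => by
    rw [PadicInt.maximalIdeal_eq_span_p, Ideal.span_singleton_pow]
    push_cast
    rfl
  have h1 : IsPrecomplete (IsLocalRing.maximalIdeal ℤ_[2]) ℤ_[2] := inferInstance
  obtain ⟨L, hL⟩ := h1.prec (f := f) (by
    intro m n hmn
    rw [SModEq.sub_mem, smul_eq_mul, Ideal.mul_top, h0, Ideal.mem_span_singleton]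
    exact hf m n hmn)
  refine ⟨L, fun n => ?_⟩
  have h2 := hL n
  rw [SModEq.sub_mem, smul_eq_mul, Ideal.mul_top, h0, Ideal.mem_span_singleton] at h2
  exact h2

private theorem k3_zero {x : ℤ_[2]} (h : ∀ n : ℕ, (2 : ℤ_[2]) ^ n ∣ x) : x = 0 := by
  rw [← PadicInt.ext_of_toZModPow]
  intro n
  rw [map_zero]
  have h1 : x ∈ RingHom.ker (PadicInt.toZModPow (p := 2) n) := by
    rw [PadicInt.ker_toZModPow, Ideal.mem_span_singleton]
    push_cast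
    exact h n
  exact h1

private theorem k3_log (x : ℤ_[2]) : ∃ L : ℤ_[2], IsUnit x →
    ∀ n, ∃ m : ℕ, K3P n x m ∧ (2 : ℤ_[2]) ^ n ∣ (m : ℤ_[2]) - L := by
  by_cases hx : IsUnit x
  · choose m hm using k3_exp hx
    obtain ⟨L, hL⟩ := k3_lim (fun n => (m n : ℤ_[2])) (fun a b hab =>
      k3_uniq (hm a) (k3_mono hab (hm b)))
    exact ⟨L, fun _ n => ⟨m n, hm n, hL n⟩⟩
  · exact ⟨0, fun h => absurd h hx⟩

private theorem k3_key {x L : ℤ_[2]} (h : ∀ n, ∃ m : ℕ, K3P n x m ∧ (2 : ℤ_[2]) ^ n ∣ (m : ℤ_[2]) - L)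
    {n m : ℕ} (hm : K3P n x m) : (2 : ℤ_[2]) ^ n ∣ (m : ℤ_[2]) - L := by
  obtain ⟨m', h1, h2⟩ := h n
  have h3 := dvd_add (k3_uniq hm h1) h2
  rwa [sub_add_sub_cancel] at h3

private theorem k3_unit_neg : IsUnit (-1 : ℤ_[2]) := isUnit_one.neg

private theorem k3_unit_five : IsUnit (5 : ℤ_[2]) := by
  by_contra h
  have h1 : (5 : ℤ_[2]) ∈ IsLocalRing.maximalIdeal ℤ_[2] := h
  rw [PadicInt.maximalIdeal_eq_span_p, Ideal.mem_span_singleton] at h1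
  have h2 : (2 : ℤ_[2]) ^ 1 ∣ ((5 : ℤ) : ℤ_[2]) := by
    push_cast at h1 ⊢
    rwa [pow_one]
  have h3 := k3_dvd.1 h2
  norm_num at h3

private theorem k3_mul {n : ℕ} {x y : ℤ_[2]} {a b : ℕ} (hx : K3P n x a) (hy : K3P n y b) :
    K3P n (x * y) (a + b) := by
  unfold K3P
  rw [pow_add 5]
  rcases hx with ⟨c, hc⟩ | ⟨c, hc⟩ <;> rcases hy with ⟨d, hd⟩ | ⟨d, hd⟩
  · exact Or.inl ⟨c * y + 5 ^ a * d, by linear_combination y * hc + 5 ^ a * hd⟩
  · exact Or.inr ⟨c * y + 5 ^ a * d, by linear_combination y * hc + 5 ^ a * hd⟩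
  · exact Or.inr ⟨c * y - 5 ^ a * d, by linear_combination y * hc - 5 ^ a * hd⟩
  · exact Or.inl ⟨c * y - 5 ^ a * d, by linear_combination y * hc - 5 ^ a * hd⟩

theorem exists_lam : ∃ lam : ℤ_[2] → ℤ_[2], IsLam lam := by
  choose lam hlam using k3_log
  refine ⟨lam, ?_, ?_, ?_, ?_⟩
  · intro x y hx hy
    have h1 := hlam x hx
    have h2 := hlam y hy
    have h3 := hlam (x * y) (hx.mul hy)
    rw [← sub_eq_zero]
    refine k3_zero fun n => ?_
    obtain ⟨a, ha, ha'⟩ := h1 n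
    obtain ⟨b, hb, hb'⟩ := h2 n
    have h4 := k3_key h3 (k3_mul ha hb)
    have h5 := dvd_sub (dvd_add ha' hb') h4
    push_cast at h5
    rw [show (a : ℤ_[2]) - lam x + (b - lam y) - (a + b - lam (x * y))
      = lam (x * y) - (lam x + lam y) by ring] at h5
    exact h5
  · refine k3_zero fun n => ?_
    have h1 := k3_key (hlam (-1) k3_unit_neg) (n := n) (m := 0) (Or.inr (by simp))
    rw [Nat.cast_zero, zero_sub, dvd_neg] at h1
    exact h1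
  · rw [← sub_eq_zero]
    refine k3_zero fun n => ?_
    have h1 := k3_key (hlam 5 k3_unit_five) (n := n) (m := 1) (Or.inl (by simp))
    rw [Nat.cast_one, ← dvd_neg, neg_sub] at h1
    exact h1
  · intro x hx n
    constructor
    · intro h
      obtain ⟨m, hm, hm'⟩ := hlam x hx n
      have h1 : (2 : ℤ_[2]) ^ n ∣ ((m : ℤ) : ℤ_[2]) := by
        have := dvd_add hm' h
        rw [sub_add_cancel] at this
        exact_mod_cast this
      have h2 := (k3_lte n m).2 (k3_dvd.1 h1)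
      have h3 := k3_dvd.2 h2
      push_cast at h3
      rcases hm with hm | hm
      · left
        have := dvd_add hm h3
        rwa [sub_add_sub_cancel] at this
      · right
        have := dvd_sub hm h3
        rw [show x + 5 ^ m - (5 ^ m - 1) = x + 1 by ring] at this
        exact this
    · intro h
      have h1 : K3P n x 0 := by
        unfold K3P
        rw [pow_zero]
        exact h
      have h2 := k3_key (hlam x hx) h1
      rw [Nat.cast_zero, zero_sub, dvd_neg] at h2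
      exact h2

theorem IsLam.one {lam : ℤ_[2] → ℤ_[2]} (h : IsLam lam) : lam 1 = 0 := by
  have h1 := h.mul 1 1 isUnit_one isUnit_one
  rw [mul_one] at h1
  exact left_eq_add.mp h1

/-- congruent units have congruent logarithms -/
theorem IsLam.sub {lam : ℤ_[2] → ℤ_[2]} (h : IsLam lam) {x y : ℤ_[2]} (hx : IsUnit x) (hy : IsUnit y)
    {n : ℕ} (hxy : (2 : ℤ_[2]) ^ (n + 2) ∣ x - y) : (2 : ℤ_[2]) ^ n ∣ lam x - lam y := by
  obtain ⟨u, rfl⟩ := hy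
  have h1 : x = (x * ((u⁻¹ : ℤ_[2]ˣ) : ℤ_[2])) * u := by
    rw [mul_assoc, Units.inv_mul, mul_one]
  have h2 : IsUnit (x * ((u⁻¹ : ℤ_[2]ˣ) : ℤ_[2])) := hx.mul (u⁻¹).isUnit
  have h3 := h.mul _ _ h2 u.isUnit
  rw [← h1] at h3
  rw [h3, add_sub_cancel_right]
  refine (h.dvd _ h2 n).2 (Or.inl ?_)
  have h4 : x * ((u⁻¹ : ℤ_[2]ˣ) : ℤ_[2]) - 1 = (x - u) * ((u⁻¹ : ℤ_[2]ˣ) : ℤ_[2]) := by
    rw [sub_mul, Units.mul_inv]
  rw [h4]
  exact hxy.mul_right _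

/-- `lam x` is not 0 for a natural number different from 1 -/
theorem IsLam.ne_zero {lam : ℤ_[2] → ℤ_[2]} (h : IsLam lam) {l : ℕ} (hl : Odd l) (h1 : l ≠ 1) :
    lam (l : ℤ_[2]) ≠ 0 := by
  intro h0
  have hu : IsUnit (l : ℤ_[2]) := by
    by_contra hc
    have h2 : (l : ℤ_[2]) ∈ IsLocalRing.maximalIdeal ℤ_[2] := hc
    rw [PadicInt.maximalIdeal_eq_span_p, Ideal.mem_span_singleton] at h2
    have h3 : (2 : ℤ_[2]) ^ 1 ∣ ((l : ℤ) : ℤ_[2]) := by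
      push_cast at h2 ⊢
      rwa [pow_one]
    have h4 := k3_dvd.1 h3
    obtain ⟨k, hk⟩ := hl
    omega
  have h2 := (h.dvd _ hu l).1 (by rw [h0]; exact dvd_zero _)
  have h3 : l < 2 ^ l := Nat.lt_two_pow_self
  have h4 : ((2 : ℤ) ^ (l + 2)) = 4 * 2 ^ l := by ring
  have h5 : (l : ℤ) < 2 ^ l := by exact_mod_cast h3
  obtain ⟨k, hk⟩ := hl
  rcases h2 with h2 | h2
  · have h6 : (2 : ℤ) ^ (l + 2) ∣ (l : ℤ) - 1 := by
      rw [← k3_dvd]
      push_cast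
      exact h2
    have h7 := Int.le_of_dvd (by omega) h6
    omega
  · have h6 : (2 : ℤ) ^ (l + 2) ∣ (l : ℤ) + 1 := by
      rw [← k3_dvd]
      push_cast
      exact h2
    have h7 := Int.le_of_dvd (by omega) h6
    omega

end Pool.Agent.Work.MP_787500_nt.GP
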