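import Mathlib
import Pool.Agent.Work.MP_787500_nt.GP.L03_Ring

/-!
# Module L13_CARDN (size M-L): the number of elements of a local condition at level `N`

`L` finite dimensional over `E`, with bounded members. `L₀ = {X ∈ L | X d ∈ T for all d}`, an
`OE E`-submodule. `lamN T l N L ≃ l ^ (-N) L₀ / L₀` (`X ↦ mq ∘ X` from `l ^ (-N) L₀ = {X ∈ L | l ^ N X d ∈ T}`,
with kernel `L₀`) `≃ L₀ / l ^ N L₀`. `L₀` is a free `OE E`-module of rank `r = finrank E L`: there is a finite
set `F ⊆ D` such that evaluation at `F` is injective on `L` (finite dimension); `T` is a finitely generated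
`OE E`-module (bounded, so contained in `c O ^ n`, which is free of finite rank over the principal
ideal ring `OE E`, `isPID`), so `L₀ ↪ T ^ F` is finitely generated and torsion-free, hence free; its rank is
`r`: an `O`-basis of `L₀` is linearly independent over `E` (clear denominators: `a = l ^ (-k) u`), and spans
`L`: every `X ∈ L` is bounded, so `l ^ k X ∈ L₀` for large `k` (`opn`). So
`card (L₀ / l ^ N L₀) = card (O / l ^ N) ^ r = q ^ (N r)` (`card_quot`).
-/

set_option autoImplicit false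
set_option linter.unusedSectionVars false

namespace Pool.Agent.Work.MP_787500_nt.GP

open Matrix
open Pool.Agent.Work.MP_787500_nt.PA (TwoSys Sm1 Sm2 homs Coc Cob IsChar toE)

variable {E : Type*} [NormedField E] [NormedAlgebra ℚ_[2] E] [FiniteDimensional ℚ_[2] E] {n : ℕ}
  {b : Matrix (Fin n) (Fin n) E} {l : OE E} {t : E →ₗ[ℚ_[2]] ℚ_[2]}
  {T : Submodule (OE E) (Fin n → E)}

variable {D : Type*} [Group D]

/-- every functional on `L` is bounded on the members with values in `T` -/
private theorem l13_bdd (h : Lat b l t T) (L : Submodule E (D → Fin n → E)) [FiniteDimensional E L]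
    (f : Module.Dual E L) : ∃ C : ℝ, ∀ X : L, (∀ d, X.1 d ∈ T) → ‖f X‖ ≤ C := by
  let ev : D × Fin n → Module.Dual E L := fun p =>
    (LinearMap.proj (R := E) (φ := fun _ : Fin n => E) p.2 ∘ₗ
      LinearMap.proj (R := E) (φ := fun _ : D => Fin n → E) p.1) ∘ₗ L.subtype
  have hev : ∀ d i (X : L), ev (d, i) X = X.1 d i := fun _ _ _ => rfl
  let W : Submodule E (Module.Dual E L) := Submodule.span E (Set.range ev)
  have hW : W = ⊤ := by
    have h1 : W.dualCoannihilator = ⊥ := by
      rw [eq_bot_iff]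
      intro X hX
      rw [Submodule.mem_dualCoannihilator] at hX
      rw [Submodule.mem_bot]
      refine Subtype.ext (funext fun d => funext fun i => ?_)
      exact hX (ev (d, i)) (Submodule.subset_span ⟨(d, i), rfl⟩)
    have h2 := Subspace.finrank_add_finrank_dualCoannihilator_eq W
    rw [h1, finrank_bot, add_zero, ← Subspace.dual_finrank_eq] at h2
    exact Submodule.eq_top_of_finrank_eq h2
  have hf : f ∈ W := by
    rw [hW]
    trivial
  obtain ⟨R, hR⟩ := h.bdd
  induction hf using Submodule.span_induction with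
  | mem x hx =>
    obtain ⟨⟨d, i⟩, rfl⟩ := hx
    exact ⟨R, fun X hX => (norm_le_pi_norm (X.1 d) i).trans (hR _ (hX d))⟩
  | zero => exact ⟨0, fun X _ => by simp⟩
  | add x y _ _ hx hy =>
    obtain ⟨C, hC⟩ := hx
    obtain ⟨C', hC'⟩ := hy
    exact ⟨C + C', fun X hX => (norm_add_le _ _).trans (add_le_add (hC X hX) (hC' X hX))⟩
  | smul a x _ hx =>
    obtain ⟨C, hC⟩ := hx
    refine ⟨‖a‖ * C, fun X hX => ?_⟩
    rw [LinearMap.smul_apply, smul_eq_mul, norm_mul]
    exact mul_le_mul_of_nonneg_left (hC X hX) (norm_nonneg _)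

/-- a power of `l` makes a bounded quantity small -/
private theorem l13_pow (h : Lat b l t T) (C ε : ℝ) (hε : 0 < ε) :
    ∃ k : ℕ, ‖(l : E)‖ ^ k * C < ε := by
  have h1 : Filter.Tendsto (fun k : ℕ => ‖(l : E)‖ ^ k * C) Filter.atTop (nhds (0 * C)) :=
    (tendsto_pow_atTop_nhds_zero_of_lt_one (norm_nonneg _) h.llt).mul_const C
  rw [zero_mul] at h1
  exact (h1.eventually (gt_mem_nhds hε)).exists

/-- the members of `L` with values in `T` -/
private def l13_L0 (T : Submodule (OE E) (Fin n → E)) (L : Submodule E (D → Fin n → E)) :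
    Submodule (OE E) (D → Fin n → E) where
  carrier := {X | X ∈ L ∧ ∀ d, X d ∈ T}
  add_mem' := by
    rintro X Y ⟨h1, h2⟩ ⟨k1, k2⟩
    exact ⟨L.add_mem h1 k1, fun d => T.add_mem (h2 d) (k2 d)⟩
  zero_mem' := ⟨L.zero_mem, fun _ => T.zero_mem⟩
  smul_mem' := by
    rintro a X ⟨h1, h2⟩
    exact ⟨L.smul_mem (a : E) h1, fun d => T.smul_mem a (h2 d)⟩

private theorem l13_mem (L : Submodule E (D → Fin n → E)) (X : D → Fin n → E) :
    X ∈ l13_L0 T L ↔ X ∈ L ∧ ∀ d, X d ∈ T := Iff.rfl

/-- `L₀` has a basis -/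
private theorem l13_basis (h : Lat b l t T) (L : Submodule E (D → Fin n → E))
    [FiniteDimensional E L] : ∃ m : ℕ, Nonempty (Module.Basis (Fin m) (OE E) (l13_L0 T L)) := by
  have hpid : IsPrincipalIdealRing (OE E) := isPID h.lne h.llt h.lmax
  let e := Module.finBasis E L
  choose C hC using fun i => l13_bdd h L (e.coord i)
  obtain ⟨k, hk⟩ := l13_pow h (∑ i, |C i|) 1 one_pos
  have hle : ∀ i, ∀ X : l13_L0 T L, ‖(l : E) ^ k * e.coord i ⟨X.1, X.2.1⟩‖ ≤ 1 := by
    intro i X
    rw [norm_mul, norm_pow]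
    refine le_trans ?_ hk.le
    refine mul_le_mul_of_nonneg_left ((hC i _ X.2.2).trans ?_) (by positivity)
    exact (le_abs_self _).trans
      (Finset.single_le_sum (f := fun i => |C i|) (fun _ _ => abs_nonneg _) (Finset.mem_univ i))
  let Φ : l13_L0 T L →ₗ[OE E] (Fin (Module.finrank E L) → OE E) :=
    { toFun := fun X i => ⟨(l : E) ^ k * e.coord i ⟨X.1, X.2.1⟩, hle i X⟩
      map_add' := by
        intro X Y
        funext i
        apply Subtype.ext
        show (l : E) ^ k * e.coord i (⟨X.1, X.2.1⟩ + ⟨Y.1, Y.2.1⟩) =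
          (l : E) ^ k * e.coord i ⟨X.1, X.2.1⟩ + (l : E) ^ k * e.coord i ⟨Y.1, Y.2.1⟩
        rw [map_add, mul_add]
      map_smul' := by
        intro a X
        funext i
        apply Subtype.ext
        show (l : E) ^ k * e.coord i ((a : E) • ⟨X.1, X.2.1⟩) =
          (a : E) * ((l : E) ^ k * e.coord i ⟨X.1, X.2.1⟩)
        rw [map_smul, smul_eq_mul]
        ring }
  have hΦ : Function.Injective Φ := by
    rw [injective_iff_map_eq_zero]
    intro X hX
    have h1 : (⟨X.1, X.2.1⟩ : L) = 0 := by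
      apply e.ext_elem
      intro i
      have h2 : (l : E) ^ k * e.coord i ⟨X.1, X.2.1⟩ = 0 :=
        congrArg Subtype.val (congrFun hX i)
      have h3 := (mul_eq_zero.1 h2).resolve_left (pow_ne_zero _ h.lne)
      rw [map_zero]
      exact h3
    exact Subtype.ext (congrArg (fun Z : L => Z.1) h1)
  obtain ⟨m, ⟨β⟩⟩ := Submodule.nonempty_basis_of_pid
    (Pi.basisFun (OE E) (Fin (Module.finrank E L))) (LinearMap.range Φ)
  exact ⟨m, ⟨β.map (LinearEquiv.ofInjective Φ hΦ).symm⟩⟩

private theorem l13_frac (h : Lat b l t T) : IsFractionRing (OE E) E := by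
  refine IsFractionRing.of_field (R := OE E) (K := E) fun z => ?_
  obtain ⟨k, hk⟩ := l13_pow h ‖z‖ 1 one_pos
  refine ⟨⟨(l : E) ^ k * z, ?_⟩, l ^ k, ?_⟩
  · rw [mem_OE, norm_mul, norm_pow]
    exact hk.le
  · show z = ((l : E) ^ k * z) / (((l ^ k : OE E)) : E)
    rw [Subring.coe_pow, mul_div_cancel_left₀ _ (pow_ne_zero _ h.lne)]

/-- some multiple of a bounded function has values in `T` -/
private theorem l13_scale (h : Lat b l t T) {X : D → Fin n → E} {C : ℝ} (hX : ∀ d, ‖X d‖ ≤ C) :
    ∃ k : ℕ, ∀ d, (l : E) ^ k • X d ∈ T := by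
  obtain ⟨r, hr, hT⟩ := h.opn
  obtain ⟨k, hk⟩ := l13_pow h C r hr
  refine ⟨k, fun d => hT _ ?_⟩
  rw [norm_smul, norm_pow]
  exact (mul_le_mul_of_nonneg_left (hX d) (by positivity)).trans_lt hk

/-- the rank of `L₀` -/
private theorem l13_rank (h : Lat b l t T) (L : Submodule E (D → Fin n → E))
    (hb : ∀ X ∈ L, ∃ C : ℝ, ∀ d, ‖X d‖ ≤ C) {m : ℕ}
    (β : Module.Basis (Fin m) (OE E) (l13_L0 T L)) : Module.finrank E L = m := by
  have hfrac := l13_frac h
  let v : Fin m → L := fun i => ⟨(β i).1, (β i).2.1⟩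
  have hli : LinearIndependent E v := by
    apply LinearIndependent.of_comp L.subtype
    rw [← LinearIndependent.iff_fractionRing (R := OE E)]
    have := β.linearIndependent.map' (l13_L0 T L).subtype (Submodule.ker_subtype _)
    exact this
  have hsp : ⊤ ≤ Submodule.span E (Set.range v) := by
    rintro X -
    obtain ⟨C, hC⟩ := hb X.1 X.2
    obtain ⟨k, hk⟩ := l13_scale h hC
    let Y : l13_L0 T L := ⟨(l : E) ^ k • X.1, L.smul_mem _ X.2, hk⟩
    have h1 := β.sum_repr Y
    have h2 : X = ((l : E) ^ k)⁻¹ • ∑ i, ((β.repr Y i : OE E) : E) • v i := by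
      apply Subtype.ext
      have h3 : ((∑ i, β.repr Y i • β i : l13_L0 T L) : D → Fin n → E) = (l : E) ^ k • X.1 :=
        congrArg Subtype.val h1
      show X.1 = ((l : E) ^ k)⁻¹ • ((∑ i, ((β.repr Y i : OE E) : E) • v i : L) :
        D → Fin n → E)
      have h4 : ((∑ i, ((β.repr Y i : OE E) : E) • v i : L) : D → Fin n → E) =
          ((∑ i, β.repr Y i • β i : l13_L0 T L) : D → Fin n → E) := by
        rw [Submodule.coe_sum, Submodule.coe_sum]
        rfl
      rw [h4, h3, smul_smul, inv_mul_cancel₀ (pow_ne_zero _ h.lne), one_smul]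
    rw [h2]
    exact Submodule.smul_mem _ _ (Submodule.sum_mem _ fun i _ =>
      Submodule.smul_mem _ _ (Submodule.subset_span ⟨i, rfl⟩))
  rw [Module.finrank_eq_card_basis (Module.Basis.mk hli hsp), Fintype.card_fin]

private theorem l13_card {R A B C : Type*} [CommRing R] [AddCommGroup A] [AddCommGroup B]
    [AddCommGroup C] [Module R A] [Module R B] [Module R C] (f : A →ₗ[R] B) (g : A →ₗ[R] C)
    (hf : Function.Surjective f) (hg : Function.Surjective g)
    (h : LinearMap.ker f = LinearMap.ker g) : Nat.card B = Nat.card C :=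
  Nat.card_congr ((LinearMap.quotKerEquivOfSurjective f hf).symm.trans
      ((Submodule.quotEquivOfEq _ _ h).trans
        (LinearMap.quotKerEquivOfSurjective g hg))).toEquiv

theorem card_lamN [IsLocalRing (OE E)] (h : Lat b l t T) (N : ℕ)
    (L : Submodule E (D → Fin n → E)) [FiniteDimensional E L]
    (hb : ∀ X ∈ L, ∃ C : ℝ, ∀ d, ‖X d‖ ≤ C) :
    Nat.card (lamN T l N L) =
      Nat.card (IsLocalRing.ResidueField (OE E)) ^ (N * Module.finrank E L) := by
  obtain ⟨m, ⟨β⟩⟩ := l13_basis h L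
  have hlN : ((l : E) ^ N) ≠ 0 := pow_ne_zero _ h.lne
  -- the map from `L₀`
  let Ψ₀ : l13_L0 T L →ₗ[OE E] lamN T l N L :=
    { toFun := fun X => ⟨fun d => ⟨mq T (((l : E) ^ N)⁻¹ • X.1 d), by
          rw [Submodule.mem_torsionBy_iff, ← mq_smul, mq_eq_zero, Subring.coe_pow, smul_smul,
            mul_inv_cancel₀ hlN, one_smul]
          exact X.2.2 d⟩, ((l : E) ^ N)⁻¹ • X.1, L.smul_mem _ X.2.1, fun _ => rfl⟩
      map_add' := by
        intro X Y
        apply Subtype.ext
        funext d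
        apply Subtype.ext
        show mq T (((l : E) ^ N)⁻¹ • (X.1 d + Y.1 d)) =
          mq T (((l : E) ^ N)⁻¹ • X.1 d) + mq T (((l : E) ^ N)⁻¹ • Y.1 d)
        rw [smul_add, mq_add]
      map_smul' := by
        intro a X
        apply Subtype.ext
        funext d
        apply Subtype.ext
        show mq T (((l : E) ^ N)⁻¹ • ((a : E) • X.1 d)) = a • mq T (((l : E) ^ N)⁻¹ • X.1 d)
        rw [← mq_smul, smul_comm] }
  have hΨ₀ : ∀ X d, (((Ψ₀ X).1 d : MN T l N) : Wq T) = mq T (((l : E) ^ N)⁻¹ • X.1 d) :=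
    fun _ _ => rfl
  have hsurj₀ : Function.Surjective Ψ₀ := by
    rintro ⟨x, X, hX, hx⟩
    refine ⟨⟨(l : E) ^ N • X, L.smul_mem _ hX, fun d => ?_⟩, ?_⟩
    · have := MN.mem (x d)
      rw [hx d, ← mq_smul, mq_eq_zero, Subring.coe_pow] at this
      exact this
    · apply Subtype.ext
      funext d
      apply Subtype.ext
      rw [hΨ₀]
      show mq T (((l : E) ^ N)⁻¹ • ((l : E) ^ N • X d)) = _
      rw [smul_smul, inv_mul_cancel₀ hlN, one_smul]
      exact (hx d).symm
  have hker₀ : ∀ X, Ψ₀ X = 0 ↔ ∃ Y : l13_L0 T L, X = l ^ N • Y := by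
    intro X
    constructor
    · intro h0
      refine ⟨⟨((l : E) ^ N)⁻¹ • X.1, L.smul_mem _ X.2.1, fun d => ?_⟩, ?_⟩
      · have h1 : (((Ψ₀ X).1 d : MN T l N) : Wq T) = 0 := by
          rw [h0]
          rfl
        rw [hΨ₀, mq_eq_zero] at h1
        exact h1
      · apply Subtype.ext
        show X.1 = ((l ^ N : OE E) : E) • (((l : E) ^ N)⁻¹ • X.1)
        rw [Subring.coe_pow, smul_smul, mul_inv_cancel₀ hlN, one_smul]
    · rintro ⟨Y, rfl⟩
      apply Subtype.ext
      funext d
      apply Subtype.ext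
      rw [hΨ₀]
      show mq T (((l : E) ^ N)⁻¹ • (((l ^ N : OE E) : E) • Y.1 d)) = 0
      rw [mq_eq_zero, Subring.coe_pow, smul_smul, inv_mul_cancel₀ hlN, one_smul]
      exact Y.2.2 d
  let Ψ : (Fin m → OE E) →ₗ[OE E] lamN T l N L := Ψ₀ ∘ₗ β.equivFun.symm.toLinearMap
  have hsurj : Function.Surjective Ψ := hsurj₀.comp β.equivFun.symm.surjective
  let I : Ideal (OE E) := Ideal.span {l ^ N}
  let Θ : (Fin m → OE E) →ₗ[OE E] (Fin m → OE E ⧸ I) :=
    LinearMap.pi fun i => (Submodule.mkQ I) ∘ₗ LinearMap.proj i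
  have hΘ : Function.Surjective Θ := by
    intro y
    choose x hx using fun i => Submodule.mkQ_surjective I (y i)
    exact ⟨x, funext hx⟩
  have hker : LinearMap.ker Ψ = LinearMap.ker Θ := by
    ext a
    rw [LinearMap.mem_ker, LinearMap.mem_ker]
    have h1 : Θ a = 0 ↔ ∀ i, a i ∈ I := by
      constructor
      · intro h0 i
        exact (Submodule.Quotient.mk_eq_zero I).1 (congrFun h0 i)
      · intro h0
        funext i
        exact (Submodule.Quotient.mk_eq_zero I).2 (h0 i)
    rw [h1]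
    show Ψ₀ (β.equivFun.symm a) = 0 ↔ _
    rw [hker₀]
    constructor
    · rintro ⟨Y, hY⟩ i
      rw [Ideal.mem_span_singleton]
      refine ⟨β.equivFun Y i, ?_⟩
      have h2 : a = β.equivFun (l ^ N • Y) := by
        rw [← hY, LinearEquiv.apply_symm_apply]
      rw [h2, map_smul]
      rfl
    · intro h0
      choose c hc using fun i => Ideal.mem_span_singleton.1 (h0 i)
      refine ⟨β.equivFun.symm c, ?_⟩
      rw [← map_smul]
      congr 1
      funext i
      exact hc i
  have e1 : Nat.card (lamN T l N L) = Nat.card (Fin m → OE E ⧸ I) :=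
    l13_card Ψ Θ hsurj hΘ hker
  rw [e1, Nat.card_fun, Nat.card_fin, card_quot h.lne h.llt h.lmax, ← pow_mul,
    l13_rank h L hb β]

end Pool.Agent.Work.MP_787500_nt.GP
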