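import Mathlib
import Pool.Agent.Work.MP_787500_nt.GP.L03_Ring

/-!
# Module L04_FUNC (size M): a functional for which the ring of integers is self-dual

Let `t₀ : E → ℚ_2` be a nonzero linear functional. `a ↦ t₀ (a ·)` is injective from `E` to the dual space
(if `a ≠ 0`, `t₀ (a ·) ≠ 0`), so bijective by dimension: this gives `trep` for `t₀`, and for every
`t = t₀ (c ·)`, `c ≠ 0`. Let `𝔡 = {x | ‖t₀ (a x)‖ ≤ 1 for all ‖a‖ ≤ 1}`. `t₀` is continuous, so `𝔡` contains a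
ball; if `x ∈ 𝔡` and `‖y‖ ≤ ‖x‖` then `y ∈ 𝔡`; `𝔡 ≠ E` (`t₀` unbounded), so `𝔡` is bounded, and by
`norm_zpow` (discrete set of norms) there is `c ∈ 𝔡` of maximal norm, `c ≠ 0`. Put `t x = t₀ (c x)`.
`tint`: `‖x‖ ≤ 1`: take `a = x`. `tdual`: if `‖t (a x)‖ ≤ 1` for all `‖a‖ ≤ 1` then `c x ∈ 𝔡`, so
`‖c x‖ ≤ ‖c‖`.
-/

set_option autoImplicit false
set_option linter.unusedSectionVars false

namespace Pool.Agent.Work.MP_787500_nt.GP

open Matrix
open Pool.Agent.Work.MP_787500_nt.PA (TwoSys Sm1 Sm2 homs Coc Cob IsChar toE)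

theorem exists_func (E : Type*) [NormedField E] [NormedAlgebra ℚ_[2] E]
    [FiniteDimensional ℚ_[2] E] :
    ∃ t : E →ₗ[ℚ_[2]] ℚ_[2], (∀ x : E, ‖x‖ ≤ 1 → ‖t x‖ ≤ 1) ∧
      (∀ x : E, (∀ a : E, ‖a‖ ≤ 1 → ‖t (a * x)‖ ≤ 1) → ‖x‖ ≤ 1) ∧
      ∀ f : E →ₗ[ℚ_[2]] ℚ_[2], ∃ a : E, ∀ x, f x = t (a * x) := by
  have hpr : ProperSpace E := FiniteDimensional.proper ℚ_[2] E
  obtain ⟨t₀, ht₀⟩ : ∃ t₀ : E →ₗ[ℚ_[2]] ℚ_[2], t₀ 1 ≠ 0 := by
    by_contra hne
    push Not at hne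
    exact one_ne_zero ((Module.forall_dual_apply_eq_zero_iff ℚ_[2] (1 : E)).1 hne)
  obtain ⟨C, hC0, hC⟩ : ∃ C : ℝ, 0 < C ∧ ∀ x, ‖t₀ x‖ ≤ C * ‖x‖ := by
    refine ⟨‖LinearMap.toContinuousLinearMap t₀‖ + 1, by positivity, fun x => ?_⟩
    have h1 := (LinearMap.toContinuousLinearMap t₀).le_opNorm x
    have h2 : ‖t₀ x‖ ≤ ‖LinearMap.toContinuousLinearMap t₀‖ * ‖x‖ := h1
    have h3 := norm_nonneg x
    nlinarith
  have hcont : Continuous t₀ := t₀.continuous_of_finiteDimensional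
  set 𝔡 : Set E := {x | ∀ a : E, ‖a‖ ≤ 1 → ‖t₀ (a * x)‖ ≤ 1} with h𝔡
  have hcl : IsClosed 𝔡 := by
    have h1 : 𝔡 = ⋂ a : E, ⋂ _ : ‖a‖ ≤ 1, {x | ‖t₀ (a * x)‖ ≤ 1} := by
      ext x
      simp [h𝔡]
    rw [h1]
    refine isClosed_iInter fun a => isClosed_iInter fun _ => isClosed_le ?_ continuous_const
    exact (hcont.comp (continuous_const.mul continuous_id)).norm
  have hup : ∀ x ∈ 𝔡, ∀ y : E, ‖y‖ ≤ ‖x‖ → ‖t₀ y‖ ≤ 1 := by
    intro x hx y hy
    by_cases hx0 : x = 0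
    · rw [hx0, norm_zero] at hy
      have : y = 0 := norm_le_zero_iff.1 hy
      rw [this, map_zero, norm_zero]
      exact zero_le_one
    · have h1 := hx (y / x) (by
        rw [norm_div, div_le_one (norm_pos_iff.2 hx0)]
        exact hy)
      rwa [div_mul_cancel₀ _ hx0] at h1
  obtain ⟨c₀, hc₀⟩ := NormedField.exists_lt_norm ℚ_[2] (1 / ‖t₀ 1‖)
  have hbig : 1 < ‖t₀ (c₀ • (1 : E))‖ := by
    rw [map_smul, smul_eq_mul, norm_mul]
    rwa [div_lt_iff₀ (norm_pos_iff.2 ht₀)] at hc₀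
  have hbd : Bornology.IsBounded 𝔡 := by
    refine (Metric.isBounded_ball (x := (0 : E)) (r := ‖c₀ • (1 : E)‖)).subset fun x hx => ?_
    rw [mem_ball_zero_iff]
    by_contra hx'
    exact absurd (hup x hx _ (not_lt.1 hx')) (not_le.2 hbig)
  have hcomp : IsCompact 𝔡 := Metric.isCompact_of_isClosed_isBounded hcl hbd
  have hsmall : ∀ x : E, ‖x‖ ≤ C⁻¹ → x ∈ 𝔡 := by
    intro x hx a ha
    refine (hC _).trans ?_
    rw [norm_mul]
    calc C * (‖a‖ * ‖x‖) ≤ C * (1 * C⁻¹) :=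
          mul_le_mul_of_nonneg_left (mul_le_mul ha hx (norm_nonneg _) zero_le_one) hC0.le
      _ = 1 := by rw [one_mul, mul_inv_cancel₀ hC0.ne']
  obtain ⟨c, hc, hmax⟩ := hcomp.exists_isMaxOn ⟨0, hsmall 0 (by
    rw [norm_zero]; positivity)⟩ (continuous_norm.continuousOn)
  have hc0 : c ≠ 0 := by
    obtain ⟨e, he0, he⟩ := NormedField.exists_norm_lt ℚ_[2] (inv_pos.2 hC0)
    have h1 : e • (1 : E) ∈ 𝔡 := hsmall _ (by
      rw [norm_smul, norm_one, mul_one]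
      exact he.le)
    have h2 : ‖e • (1 : E)‖ ≤ ‖c‖ := hmax h1
    rw [norm_smul, norm_one, mul_one] at h2
    intro h3
    rw [h3, norm_zero] at h2
    exact absurd he0 (not_lt.2 h2)
  refine ⟨t₀ ∘ₗ LinearMap.mulLeft ℚ_[2] c, ?_, ?_, ?_⟩
  · intro x hx
    have h1 := hc x hx
    rw [LinearMap.comp_apply, LinearMap.mulLeft_apply, mul_comm]
    exact h1
  · intro x hx
    have h1 : c * x ∈ 𝔡 := by
      intro a ha
      have h2 := hx a ha
      rw [LinearMap.comp_apply, LinearMap.mulLeft_apply] at h2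
      rw [mul_left_comm]
      exact h2
    have h3 : ‖c * x‖ ≤ ‖c‖ := hmax h1
    rw [norm_mul] at h3
    have h4 : 0 < ‖c‖ := norm_pos_iff.2 hc0
    exact (mul_le_iff_le_one_right h4).1 h3
  · intro f
    let L : E →ₗ[ℚ_[2]] Module.Dual ℚ_[2] E := (LinearMap.mul ℚ_[2] E).compr₂ t₀
    have hL : ∀ a x, L a x = t₀ (a * x) := fun a x => rfl
    have hinj : Function.Injective L := by
      rw [injective_iff_map_eq_zero]
      intro a ha
      by_contra ha0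
      apply ht₀
      have h1 := LinearMap.congr_fun ha a⁻¹
      rw [hL, mul_inv_cancel₀ ha0] at h1
      exact h1
    have hsur : Function.Surjective L :=
      (LinearMap.injective_iff_surjective_of_finrank_eq_finrank
        (Subspace.dual_finrank_eq (K := ℚ_[2]) (V := E)).symm).1 hinj
    obtain ⟨a, ha⟩ := hsur f
    refine ⟨a / c, fun x => ?_⟩
    rw [LinearMap.comp_apply, LinearMap.mulLeft_apply, ← ha, hL]
    congr 1
    field_simp

end Pool.Agent.Work.MP_787500_nt.GP
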