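import Mathlib
import Pool.Agent.Work.MP_787500_nt.GP.Defs
import Pool.Agent.Work.MP_787500_nt.GP.T01_A0
import Pool.Agent.Work.MP_787500_nt.GP.T03_Coch

/-!
# Module H2_TRANSFER (size M): transfer of the local hypotheses

`φ : D → G` induces an isomorphism of the completions: `h₁`: preimages of members contain members (`φ W' ≤ W`);
`h₂`: every member of `SD` contains the preimage of a member of `S`; `h₃`: density. A smooth function `F` on `D`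
(invariant under `W' ⊇ φ⁻¹ W`) comes from a unique smooth function on `G`: `F' g = F d` for any `d` with
`(φ d)⁻¹ g ∈ W` (well defined: if `(φ d)⁻¹ φ d' ∈ W` then `d⁻¹ d' ∈ φ⁻¹ W`). The same in two variables; cocycles and
coboundaries correspond. Put `inv' F = inv F'` for smooth `F` (`F'` independent of `W`), so
`inv' (f ∘ φ) = inv f` for smooth `f`. All clauses of `LocH` transfer; `homs SD ⊤ ≃ homs S ⊤`.
-/

set_option autoImplicit false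
set_option linter.unusedSectionVars false

namespace Pool.Agent.Work.MP_787500_nt.GP

open Pool.Agent.Work.MP_787500_nt.PA (TwoSys Sm1 Sm2 homs Coc Cob IsChar)

section tr

variable {G D : Type*} [Group G] [Group D] {S : TwoSys G} {SD : TwoSys D} {φ : D →* G}

private theorem h2_ext1 (h₂ : ∀ W', SD.mem W' → ∃ W, S.mem W ∧ ∀ d, φ d ∈ W → d ∈ W')
    (h₃ : ∀ W, S.mem W → ∀ g, ∃ d, (φ d)⁻¹ * g ∈ W) {A : Type*} {F : D → A} (hF : Sm1 SD F) :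
    ∃ f : G → A, Sm1 S f ∧ ∀ d, F d = f (φ d) := by
  obtain ⟨W', hW', h4⟩ := hF
  obtain ⟨W, hW, h5⟩ := h₂ W' hW'
  choose s hs using h₃ W hW
  have key : ∀ d d', (φ d)⁻¹ * φ d' ∈ W → F d' = F d := by
    intro d d' h6
    have h7 : d⁻¹ * d' ∈ W' := h5 _ (by rwa [map_mul, map_inv])
    have h8 := h4 d _ h7
    rwa [mul_inv_cancel_left] at h8
  refine ⟨fun g => F (s g), ⟨W, hW, fun g w hw => ?_⟩, fun d => ?_⟩
  · show F (s (g * w)) = F (s g)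
    refine key _ _ ?_
    have e : (φ (s g))⁻¹ * φ (s (g * w)) = ((φ (s g))⁻¹ * g) * w * ((φ (s (g * w)))⁻¹ * (g * w))⁻¹ := by
      group
    rw [e]
    exact W.mul_mem (W.mul_mem (hs g) hw) (W.inv_mem (hs _))
  · exact key _ _ (hs (φ d))

private theorem h2_ext2 (h₂ : ∀ W', SD.mem W' → ∃ W, S.mem W ∧ ∀ d, φ d ∈ W → d ∈ W')
    (h₃ : ∀ W, S.mem W → ∀ g, ∃ d, (φ d)⁻¹ * g ∈ W) {A : Type*} {F : D → D → A} (hF : Sm2 SD F) :
    ∃ f : G → G → A, Sm2 S f ∧ ∀ a b, F a b = f (φ a) (φ b) := by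
  obtain ⟨W', hW', h4⟩ := hF
  obtain ⟨W, hW, h5⟩ := h₂ W' hW'
  choose s hs using h₃ W hW
  have key : ∀ a a' b b', (φ a)⁻¹ * φ a' ∈ W → (φ b)⁻¹ * φ b' ∈ W → F a' b' = F a b := by
    intro a a' b b' h6 h6'
    have h7 : a⁻¹ * a' ∈ W' := h5 _ (by rwa [map_mul, map_inv])
    have h7' : b⁻¹ * b' ∈ W' := h5 _ (by rwa [map_mul, map_inv])
    have h8 := h4 a b _ h7 _ h7'
    rwa [mul_inv_cancel_left, mul_inv_cancel_left] at h8
  have key2 : ∀ g w, w ∈ W → (φ (s g))⁻¹ * φ (s (g * w)) ∈ W := by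
    intro g w hw
    have e : (φ (s g))⁻¹ * φ (s (g * w)) = ((φ (s g))⁻¹ * g) * w * ((φ (s (g * w)))⁻¹ * (g * w))⁻¹ := by
      group
    rw [e]
    exact W.mul_mem (W.mul_mem (hs g) hw) (W.inv_mem (hs _))
  refine ⟨fun g h => F (s g) (s h), ⟨W, hW, fun g h w hw w' hw' => ?_⟩, fun a b => ?_⟩
  · exact key _ _ _ _ (key2 g w hw) (key2 h w' hw')
  · exact key _ _ _ _ (hs (φ a)) (hs (φ b))

/-- approximation of an element -/
private theorem h2_app (h₃ : ∀ W, S.mem W → ∀ g, ∃ d, (φ d)⁻¹ * g ∈ W) {W : Subgroup G}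
    (hW : S.mem W) (g : G) : ∃ d, ∃ w ∈ W, g = φ d * w := by
  obtain ⟨d, hd⟩ := h₃ W hW g
  exact ⟨d, _, hd, by group⟩

private theorem h2_uniq1 (h₃ : ∀ W, S.mem W → ∀ g, ∃ d, (φ d)⁻¹ * g ∈ W) {A : Type*} {f f' : G → A}
    (hf' : Sm1 S f) (hf'' : Sm1 S f') (h : ∀ d, f (φ d) = f' (φ d)) : f = f' := by
  obtain ⟨W, hW, h4⟩ := hf'
  obtain ⟨W', hW', h4'⟩ := hf''
  funext g
  obtain ⟨d, w, hw, rfl⟩ := h2_app h₃ (S.inf hW hW') g
  rw [h4 _ w hw.1, h4' _ w hw.2, h]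

private theorem h2_uniq2 (h₃ : ∀ W, S.mem W → ∀ g, ∃ d, (φ d)⁻¹ * g ∈ W) {A : Type*}
    {f f' : G → G → A}
    (hf' : Sm2 S f) (hf'' : Sm2 S f') (h : ∀ a b, f (φ a) (φ b) = f' (φ a) (φ b)) : f = f' := by
  obtain ⟨W, hW, h4⟩ := hf'
  obtain ⟨W', hW', h4'⟩ := hf''
  funext g g'
  obtain ⟨d, w, hw, rfl⟩ := h2_app h₃ (S.inf hW hW') g
  obtain ⟨d', w', hw', rfl⟩ := h2_app h₃ (S.inf hW hW') g'
  rw [h4 _ _ w hw.1 w' hw'.1, h4' _ _ w hw.2 w' hw'.2, h]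

private theorem h2_smulk (t : A0) : ∃ k : ℕ, ∀ u v : ℤ_[2], (2 : ℤ_[2]) ^ k ∣ u - v → u • t = v • t := by
  obtain ⟨k, hk⟩ := a0_smul t
  refine ⟨k, fun u v h => ?_⟩
  have h1 : (1 + (u - v)) • t = t := hk _ (by rwa [add_sub_cancel_left])
  rw [add_smul, one_smul, sub_smul] at h1
  exact sub_eq_zero.1 (left_eq_add.1 h1.symm)

private theorem h2_mulw {W : Subgroup G} (hW : S.mem W) (a b w w' : G) (hw : w ∈ W) (hw' : w' ∈ W) :
    ∃ v ∈ W, a * w * (b * w') = a * b * v := by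
  refine ⟨b⁻¹ * w * b * w', W.mul_mem ?_ hw', by group⟩
  have := (S.normal hW).conj_mem w hw b⁻¹
  rwa [inv_inv] at this

private theorem h2_Z2 (h₃ : ∀ W, S.mem W → ∀ g, ∃ d, (φ d)⁻¹ * g ∈ W) {χ : G → ℤ_[2]}
    (hχ : IsChar S χ) {f : G → G → A0} (hf' : Sm2 S f)
    (h : ∀ a b c, d2 (tw fun d => χ (φ d)) (fun a b => f (φ a) (φ b)) a b c = 0) :
    Z2 S (tw χ) f := by
  refine ⟨hf', fun a b c => ?_⟩
  obtain ⟨W, hW, h4⟩ := hf'
  obtain ⟨k, hk⟩ := h2_smulk (f b c)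
  obtain ⟨W', hW', h5⟩ := hχ.cont k
  have hWW := S.inf hW hW'
  obtain ⟨d1, w1, hw1, rfl⟩ := h2_app h₃ hWW a
  obtain ⟨d2', w2, hw2, rfl⟩ := h2_app h₃ hWW b
  obtain ⟨d3, w3, hw3, rfl⟩ := h2_app h₃ hWW c
  obtain ⟨v, hv, e1⟩ := h2_mulw hWW (φ d1) (φ d2') w1 w2 hw1 hw2
  obtain ⟨v', hv', e2⟩ := h2_mulw hWW (φ d2') (φ d3) w2 w3 hw2 hw3
  have h6 := h d1 d2' d3
  simp only [d2, tw] at h6 ⊢
  rw [e1, e2, h4 _ _ v hv.1 w3 hw3.1, h4 _ _ w1 hw1.1 v' hv'.1, h4 _ _ w1 hw1.1 w2 hw2.1,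
    hk _ (χ (φ d1)) (h5 _ w1 hw1.2), h4 _ _ w2 hw2.1 w3 hw3.1]
  rw [map_mul, map_mul] at h6
  exact h6

private theorem h2_coc (h₃ : ∀ W, S.mem W → ∀ g, ∃ d, (φ d)⁻¹ * g ∈ W) {f : G → G → ZMod 2}
    (hf' : Sm2 S f) (h : Coc SD ⊤ (fun a b => f (φ a) (φ b))) : Coc S ⊤ f := by
  refine ⟨hf', fun a _ b _ c _ => ?_⟩
  obtain ⟨W, hW, h4⟩ := hf'
  obtain ⟨d1, w1, hw1, rfl⟩ := h2_app h₃ hW a
  obtain ⟨d2', w2, hw2, rfl⟩ := h2_app h₃ hW b
  obtain ⟨d3, w3, hw3, rfl⟩ := h2_app h₃ hW c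
  obtain ⟨v, hv, e1⟩ := h2_mulw hW (φ d1) (φ d2') w1 w2 hw1 hw2
  obtain ⟨v', hv', e2⟩ := h2_mulw hW (φ d2') (φ d3) w2 w3 hw2 hw3
  have h6 := h.2 d1 trivial d2' trivial d3 trivial
  simp only at h6
  rw [e1, e2, h4 _ _ v hv w3 hw3, h4 _ _ w1 hw1 v' hv', h4 _ _ w1 hw1 w2 hw2,
    h4 _ _ w2 hw2 w3 hw3]
  rw [map_mul, map_mul] at h6
  exact h6

private theorem h2_homs (h₃ : ∀ W, S.mem W → ∀ g, ∃ d, (φ d)⁻¹ * g ∈ W) {f : G → ZMod 2}
    (hf' : Sm1 S f) (h : (fun a => f (φ a)) ∈ homs SD ⊤) : f ∈ homs S ⊤ := by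
  refine ⟨hf', fun g hg => absurd trivial hg, fun a _ b _ => ?_⟩
  obtain ⟨W, hW, h4⟩ := hf'
  obtain ⟨d1, w1, hw1, rfl⟩ := h2_app h₃ hW a
  obtain ⟨d2', w2, hw2, rfl⟩ := h2_app h₃ hW b
  obtain ⟨v, hv, e1⟩ := h2_mulw hW (φ d1) (φ d2') w1 w2 hw1 hw2
  have h6 := h.2.2 d1 trivial d2' trivial
  simp only at h6
  rw [e1, h4 _ v hv, h4 _ w1 hw1, h4 _ w2 hw2]
  rw [map_mul] at h6
  exact h6

end tr

theorem locH_transfer {G D : Type*} [Group G] [Group D] {S : TwoSys G} {SD : TwoSys D} (φ : D →* G)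
    (h₁ : ∀ W, S.mem W → ∃ W', SD.mem W' ∧ ∀ w ∈ W', φ w ∈ W)
    (h₂ : ∀ W', SD.mem W' → ∃ W, S.mem W ∧ ∀ d, φ d ∈ W → d ∈ W')
    (h₃ : ∀ W, S.mem W → ∀ g, ∃ d, (φ d)⁻¹ * g ∈ W) {χ : G → ℤ_[2]} {inv : (G → G → A0) → A0}
    (h : LocH S χ inv) :
    ∃ inv' : (D → D → A0) → A0, LocH SD (fun d => χ (φ d)) inv' ∧
      (∀ f : G → G → A0, Sm2 S f → inv' (fun a b => f (φ a) (φ b)) = inv f) ∧
      (∀ F : D → D → A0, Sm2 SD F → ∃ f : G → G → A0, Sm2 S f ∧ ∀ a b, F a b = f (φ a) (φ b)) ∧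
      Module.finrank (ZMod 2) (homs SD ⊤) = Module.finrank (ZMod 2) (homs S ⊤) := by
  classical
  let inv' : (D → D → A0) → A0 := fun F =>
    if h : ∃ f : G → G → A0, Sm2 S f ∧ ∀ a b, F a b = f (φ a) (φ b) then inv h.choose else 0
  have hinv : ∀ f : G → G → A0, Sm2 S f → inv' (fun a b => f (φ a) (φ b)) = inv f := by
    intro f hf'
    have hex : ∃ f' : G → G → A0, Sm2 S f' ∧ ∀ a b, f (φ a) (φ b) = f' (φ a) (φ b) :=
      ⟨f, hf', fun _ _ => rfl⟩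
    show (if h : ∃ f' : G → G → A0, Sm2 S f' ∧ ∀ a b, f (φ a) (φ b) = f' (φ a) (φ b) then
      inv h.choose else 0) = inv f
    rw [dif_pos hex]
    congr 1
    exact (h2_uniq2 h₃ hf' hex.choose_spec.1 hex.choose_spec.2).symm
  have hinv' : ∀ (F : D → D → A0) (f : G → G → A0), Sm2 S f → (∀ a b, F a b = f (φ a) (φ b)) →
      inv' F = inv f := by
    intro F f hf' hF
    have : F = fun a b => f (φ a) (φ b) := funext fun a => funext fun b => hF a b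
    rw [this, hinv f hf']
  -- the homomorphisms
  let e : homs S ⊤ →ₗ[ZMod 2] homs SD ⊤ :=
    { toFun := fun ψ => ⟨fun d => ψ.1 (φ d), ⟨Sm1.comp h₁ ψ.2.1, fun g hg => absurd trivial hg,
        fun a _ b _ => by
          show ψ.1 (φ (a * b)) = _
          rw [map_mul, ψ.2.2.2 (φ a) trivial (φ b) trivial]⟩⟩
      map_add' := fun a b => rfl
      map_smul' := fun c a => rfl }
  have he : Function.Bijective e := by
    constructor
    · intro a b hab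
      apply Subtype.ext
      refine h2_uniq1 h₃ a.2.1 b.2.1 fun d => ?_
      exact congrFun (congrArg Subtype.val hab) d
    · intro b
      obtain ⟨f, hf', h4⟩ := h2_ext1 h₂ h₃ b.2.1
      have h5 : (fun a => f (φ a)) = b.1 := funext fun d => (h4 d).symm
      refine ⟨⟨f, h2_homs (SD := SD) h₃ hf' (by rw [h5]; exact b.2)⟩, ?_⟩
      exact Subtype.ext h5
  have E : homs S ⊤ ≃ₗ[ZMod 2] homs SD ⊤ := LinearEquiv.ofBijective e he
  refine ⟨inv', ⟨?_, fun f f' hf' hf'' => ?_, fun z hz => ?_, ?_, fun ψ hψ h0 => ?_,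
    fun f hf' h0 => ?_⟩, hinv, fun F hF => h2_ext2 h₂ h₃ hF, E.symm.finrank_eq⟩
  · refine ⟨by rw [map_one, h.char.one], fun a b => by rw [map_mul, h.char.mul], fun n => ?_,
      fun g => h.char.odd _⟩
    obtain ⟨W, hW, h4⟩ := h.char.cont n
    obtain ⟨W', hW', h5⟩ := h₁ W hW
    refine ⟨W', hW', fun g w hw => ?_⟩
    have := h4 (φ g) (φ w) (h5 w hw)
    rw [map_mul]
    exact this
  · obtain ⟨F, hF, h4⟩ := h2_ext2 h₂ h₃ hf'.1
    obtain ⟨F', hF', h4'⟩ := h2_ext2 h₂ h₃ hf''.1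
    have e1 : f = fun a b => F (φ a) (φ b) := funext fun a => funext fun b => h4 a b
    have e2 : f' = fun a b => F' (φ a) (φ b) := funext fun a => funext fun b => h4' a b
    have z1 : Z2 S (tw χ) F := h2_Z2 h₃ h.char hF (by rw [← e1]; exact hf'.2)
    have z2 : Z2 S (tw χ) F' := h2_Z2 h₃ h.char hF' (by rw [← e2]; exact hf''.2)
    rw [hinv' f F hF h4, hinv' f' F' hF' h4', ← h.add F F' z1 z2]
    refine hinv' _ _ (Z2.add (isAct_tw h.char) z1 z2).1 fun a b => ?_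
    rw [h4, h4']
  · obtain ⟨Z, hZ, h4⟩ := h2_ext1 h₂ h₃ hz
    rw [← h.cob Z hZ]
    refine hinv' _ _ (d1_tw_sm h.char hZ) fun a b => ?_
    simp only [d1, tw]
    rw [h4, h4, h4, map_mul]
  · have := h.fin
    exact E.finiteDimensional
  · obtain ⟨Ψ, hΨ, h4⟩ := h2_ext1 h₂ h₃ hψ.1
    have e1 : (fun a => Ψ (φ a)) = ψ := funext fun d => (h4 d).symm
    have hΨm : Ψ ∈ homs S ⊤ := h2_homs (SD := SD) h₃ hΨ (by rw [e1]; exact hψ)
    have h5 := h.nondeg Ψ hΨm fun ω hω => by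
      have h6 := h0 (fun d => ω (φ d)) (e ⟨ω, hω⟩).2
      rw [← h6]
      refine (hinv' _ _ (sm2_pair hΨ hω.1 (fun a b => hf (a * b))) fun a b => ?_).symm
      rw [h4]
    funext d
    rw [h4, h5]
    rfl
  · obtain ⟨F, hF, h4⟩ := h2_ext2 h₂ h₃ hf'.1
    have e1 : f = fun a b => F (φ a) (φ b) := funext fun a => funext fun b => h4 a b
    have hc : Coc S ⊤ F := h2_coc (SD := SD) h₃ hF (by rw [← e1]; exact hf')
    have hs : Sm2 S (fun a b => hf (F a b)) := by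
      obtain ⟨W, hW, h5⟩ := hF
      exact ⟨W, hW, fun g k w hw w' hw' => by
        show hf (F (g * w) (k * w')) = hf (F g k)
        rw [h5 g k w hw w' hw']⟩
    obtain ⟨z, hz, h5⟩ := h.one F hc (by
      rw [← h0]
      exact (hinv' _ _ hs fun a b => by rw [h4]).symm)
    refine ⟨fun d => z (φ d), Sm1.comp h₁ hz, fun a _ b _ => ?_⟩
    show f a b = z (φ a) + z (φ b) + z (φ (a * b))
    rw [h4, h5 (φ a) trivial (φ b) trivial, map_mul]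

private theorem h2_two : ((2 : ℤ_[2]) : ℚ_[2]) = 2 := rfl

private theorem h2_norm (k : ℕ) : ‖((2 : ℚ_[2]) ^ k)‖ = (2 : ℝ)⁻¹ ^ k := by
  rw [norm_pow]
  congr 1
  have := Padic.norm_p (p := 2)
  simpa using this

/-- every element is a natural multiple of the class of `1 / 2 ^ k` -/
private theorem h2_gen (t : A0) : ∃ (k n : ℕ), t = n • pr0 (1 / 2 ^ k) := by
  obtain ⟨k, hk⟩ := a0_tors t
  obtain ⟨x, rfl⟩ := pr0_surj t
  rw [← map_nsmul, pr0_eq_zero, nsmul_eq_mul] at hk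
  obtain ⟨c, hc⟩ := hk
  have h1 := PadicInt.appr_spec k c
  rw [Ideal.mem_span_singleton] at h1
  obtain ⟨b, hb⟩ := h1
  refine ⟨k, c.appr k, ?_⟩
  rw [← map_nsmul, ← sub_eq_zero, ← map_sub, pr0_eq_zero, nsmul_eq_mul]
  refine ⟨b, ?_⟩
  have h2 : (c : ℚ_[2]) = (c.appr k : ℚ_[2]) + 2 ^ k * (b : ℚ_[2]) := by
    have h3 := congrArg (fun x : ℤ_[2] => (x : ℚ_[2])) hb
    push_cast at h3
    rw [h2_two] at h3
    linear_combination h3
  rw [h2] at hc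
  push_cast at hc
  have h4 : (2 : ℚ_[2]) ^ k ≠ 0 := pow_ne_zero _ two_ne_zero
  field_simp
  linear_combination hc

private theorem h2_smul_pr (a : ℤ_[2]) (x : ℚ_[2]) : a • pr0 x = pr0 ((a : ℚ_[2]) * x) := by
  rw [← map_smul]
  rfl

private theorem h2_unit (a : ℤ_[2]) (k : ℕ) (h : a • pr0 (1 / 2 ^ k) = 0) : (2 : ℤ_[2]) ^ k ∣ a := by
  rw [h2_smul_pr, pr0_eq_zero] at h
  obtain ⟨b, hb⟩ := h
  refine ⟨b, ?_⟩
  have h4 : (2 : ℚ_[2]) ^ k ≠ 0 := pow_ne_zero _ two_ne_zero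
  apply Subtype.ext
  push_cast
  rw [hb, h2_two]
  field_simp

/-- an additive endomorphism of `A0` is multiplication by a 2-adic integer -/
theorem end_A0 (φ : A0 →+ A0) : ∃ a : ℤ_[2], ∀ t, φ t = a • t := by
  have h1 : ∀ k : ℕ, ∃ c : ℤ_[2], φ (pr0 (1 / 2 ^ k)) = c • pr0 (1 / 2 ^ k) := by
    intro k
    obtain ⟨x, hx⟩ := pr0_surj (φ (pr0 (1 / 2 ^ k)))
    have h2 : (2 ^ k) • φ (pr0 (1 / 2 ^ k)) = 0 := by
      rw [← map_nsmul, ← map_nsmul]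
      have h3 : pr0 ((2 ^ k) • (1 / 2 ^ k : ℚ_[2])) = 0 := by
        rw [pr0_eq_zero]
        refine ⟨1, ?_⟩
        rw [nsmul_eq_mul]
        push_cast
        have h4 : (2 : ℚ_[2]) ^ k ≠ 0 := pow_ne_zero _ two_ne_zero
        field_simp
      rw [h3, map_zero]
    rw [← hx, ← map_nsmul, pr0_eq_zero, nsmul_eq_mul] at h2
    obtain ⟨c, hc⟩ := h2
    refine ⟨c, ?_⟩
    rw [← hx, h2_smul_pr, hc]
    congr 1
    push_cast
    have h4 : (2 : ℚ_[2]) ^ k ≠ 0 := pow_ne_zero _ two_ne_zero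
    field_simp
  choose c hc using h1
  have hstep : ∀ k, (2 : ℤ_[2]) ^ k ∣ c (k + 1) - c k := by
    intro k
    refine h2_unit _ k ?_
    rw [sub_smul, ← hc k]
    have h2 : pr0 (1 / 2 ^ k) = 2 • pr0 (1 / 2 ^ (k + 1)) := by
      rw [← map_nsmul]
      congr 1
      rw [nsmul_eq_mul, pow_succ]
      push_cast
      have h4 : (2 : ℚ_[2]) ^ k ≠ 0 := pow_ne_zero _ two_ne_zero
      field_simp
    rw [h2, map_nsmul, hc (k + 1), smul_comm, sub_self]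
  have hnorm : ∀ k, dist (c k) (c (k + 1)) ≤ 1 * (2 : ℝ)⁻¹ ^ k := by
    intro k
    obtain ⟨b, hb⟩ := hstep k
    rw [dist_comm, dist_eq_norm, hb, one_mul, norm_mul, norm_pow]
    have h2 : ‖(2 : ℤ_[2])‖ = 2⁻¹ := by
      have := PadicInt.norm_p (p := 2)
      simpa using this
    rw [h2]
    exact mul_le_of_le_one_right (by positivity) (PadicInt.norm_le_one b)
  have hcau := cauchySeq_of_le_geometric (2 : ℝ)⁻¹ 1 (by norm_num) hnorm
  obtain ⟨a, ha⟩ := cauchySeq_tendsto_of_complete hcau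
  have hlim : ∀ k, (2 : ℤ_[2]) ^ k ∣ a - c k := by
    intro k
    have h2 := dist_le_of_le_geometric_of_tendsto (2 : ℝ)⁻¹ 1 (by norm_num) hnorm ha (k + 1)
    have h3 : dist (c (k + 1)) a ≤ (2 : ℝ)⁻¹ ^ k := by
      refine h2.trans_eq ?_
      rw [pow_succ]
      ring
    have h4 : (2 : ℤ_[2]) ^ k ∣ a - c (k + 1) := by
      rw [dist_comm, dist_eq_norm] at h3
      have h5 : ‖a - c (k + 1)‖ ≤ ((2 : ℕ) : ℝ) ^ (-(k : ℤ)) := by
        rw [zpow_neg, zpow_natCast]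
        push_cast
        rw [← inv_pow]
        exact h3
      rw [PadicInt.norm_le_pow_iff_mem_span_pow, Ideal.mem_span_singleton] at h5
      simpa using h5
    have h6 := dvd_add h4 (hstep k)
    have e : a - c (k + 1) + (c (k + 1) - c k) = a - c k := by ring
    rwa [e] at h6
  refine ⟨a, fun t => ?_⟩
  obtain ⟨k, n, rfl⟩ := h2_gen t
  rw [map_nsmul, hc k, smul_comm a n]
  congr 1
  obtain ⟨b, hb⟩ := hlim k
  have e : a = c k + b * 2 ^ k := by linear_combination hb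
  rw [e, add_smul, mul_smul]
  have h5 : ((2 : ℤ_[2]) ^ k) • pr0 (1 / 2 ^ k) = 0 := by
    rw [h2_smul_pr, pr0_eq_zero]
    refine ⟨1, ?_⟩
    push_cast
    rw [h2_two]
    have h4 : (2 : ℚ_[2]) ^ k ≠ 0 := pow_ne_zero _ two_ne_zero
    field_simp
  rw [h5, smul_zero, add_zero]

theorem smul_inj {a b : ℤ_[2]} (h : ∀ t : A0, a • t = b • t) : a = b := by
  have h1 : ∀ k : ℕ, (2 : ℤ_[2]) ^ k ∣ a - b := fun k => h2_unit _ k (by rw [sub_smul, h, sub_self])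
  rw [← sub_eq_zero, ← norm_le_zero_iff]
  have h2 : Filter.Tendsto (fun k : ℕ => (2 : ℝ)⁻¹ ^ k) Filter.atTop (nhds 0) :=
    tendsto_pow_atTop_nhds_zero_of_lt_one (by norm_num) (by norm_num)
  refine ge_of_tendsto' h2 fun k => ?_
  obtain ⟨c, hc⟩ := h1 k
  rw [hc, norm_mul, norm_pow]
  have h2 : ‖(2 : ℤ_[2])‖ = 2⁻¹ := by
    have := PadicInt.norm_p (p := 2)
    simpa using this
  rw [h2]
  exact mul_le_of_le_one_right (by positivity) (PadicInt.norm_le_one c)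

end Pool.Agent.Work.MP_787500_nt.GP
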