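import Mathlib
import Pool.Agent.Work.MP_787500_nt.GP.BDefs
import Pool.Agent.Work.MP_787500_nt.GP.T01_A0
import Pool.Agent.Work.MP_787500_nt.GP.T03_Coch
import Pool.Agent.Work.MP_787500_nt.GP.H2_Transfer
import Pool.Agent.Work.MP_787500_nt.PA.Divide

/-!
# Module B0_SMUL (size S-M, generic): cochains with 2-adic values times an element of `A0`

`t : A0` is killed by some `2 ^ n` (`a0_tors`), and `a • t = 0` if `2 ^ n ∣ a` and `2 ^ n • t = 0`.
* `sm1_smul`, `z2_smul`, `b2_smul`, `z1_smul`: choose the member of the system that belongs to `2 ^ n`.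
* `a0_dvd`: `a = unit * 2 ^ k`, `a0_div_pow`.
* `LocH.zero`: `add` with `f = f' = 0` (or `cob` with `z = 0`). `LocH.sub`, `LocH.sum`: from `add`, `Z2.add`, `Z2.neg`.
* `LocH.b2`: `cob`. `LocH.neg`: the local hypotheses for `-inv`.
-/

set_option autoImplicit false
set_option linter.unusedSectionVars false

namespace Pool.Agent.Work.MP_787500_nt.GP

open Pool.Agent.Work.MP_787500_nt.PA (TwoSys Sm1 Sm2 homs Coc Cob IsChar)

variable {G : Type*} [Group G] {S : TwoSys G} {χ : G → ℤ_[2]}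

private theorem b0_cast (n : ℕ) (t : A0) : ((2 : ℤ_[2]) ^ n) • t = (2 ^ n) • t := by
  have : (2 : ℤ_[2]) ^ n = ((2 ^ n : ℕ) : ℤ_[2]) := by push_cast; rfl
  rw [this, Nat.cast_smul_eq_nsmul]

private theorem b0_two (a : ℤ_[2]) : ∃ b : ℤ_[2], a = 2 * b ∨ a = 2 * b + 1 := by
  obtain ⟨n, hn, hm⟩ := PadicInt.exists_mem_range (p := 2) a
  rw [PadicInt.maximalIdeal_eq_span_p, Ideal.mem_span_singleton] at hm
  obtain ⟨b, hb⟩ := hm
  refine ⟨b, ?_⟩
  have e2 : ((2 : ℕ) : ℤ_[2]) = 2 := by norm_num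
  rw [e2] at hb
  have h01 : n = 0 ∨ n = 1 := by omega
  rcases h01 with rfl | rfl
  · left
    rw [Nat.cast_zero, sub_zero] at hb
    exact hb
  · right
    rw [Nat.cast_one, sub_eq_iff_eq_add] at hb
    exact hb

theorem smul_zero_of_dvd {n : ℕ} {t : A0} (h : (2 ^ n) • t = 0) {a : ℤ_[2]}
    (ha : (2 : ℤ_[2]) ^ n ∣ a) : a • t = 0 := by
  obtain ⟨b, rfl⟩ := ha
  rw [mul_comm, mul_smul, b0_cast, h, smul_zero]

theorem smul_half (a : ℤ_[2]) : a • half = hf (PadicInt.toZMod a) := by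
  have h2 : (PadicInt.toZMod (2 : ℤ_[2]) : ZMod 2) = 0 := by
    rw [map_ofNat]
    rfl
  obtain ⟨b, rfl | rfl⟩ := b0_two a
  · rw [map_mul, h2, zero_mul, hf_zero, mul_comm, mul_smul, two_smul, two_half, smul_zero]
  · rw [map_add, map_mul, h2, zero_mul, zero_add, map_one, hf_one, add_smul, one_smul, mul_comm,
      mul_smul, two_smul, two_half, smul_zero, zero_add]

theorem a0_dvd {a : ℤ_[2]} (ha : a ≠ 0) (t : A0) : ∃ s : A0, a • s = t := by
  obtain ⟨s, hs⟩ := a0_div_pow a.valuation t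
  have h1 : a = (PadicInt.unitCoeff ha : ℤ_[2]) * (2 : ℤ_[2]) ^ a.valuation :=
    PadicInt.unitCoeff_spec ha
  generalize PadicInt.unitCoeff ha = u at h1
  refine ⟨(u⁻¹ : ℤ_[2]ˣ).1 • s, ?_⟩
  rw [smul_smul]
  have h2 : a * (u⁻¹ : ℤ_[2]ˣ).1 = (2 : ℤ_[2]) ^ a.valuation := by
    have h3 : a * (u⁻¹ : ℤ_[2]ˣ).1 = (u : ℤ_[2]) * (2 : ℤ_[2]) ^ a.valuation * (u⁻¹ : ℤ_[2]ˣ).1 :=
      congrArg (fun r => r * (u⁻¹ : ℤ_[2]ˣ).1) h1
    rw [h3, mul_right_comm, Units.mul_inv, one_mul]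
  rw [h2, b0_cast, hs]

theorem sm1_smul {z : G → ℤ_[2]} (hz : PA.C1 S z) (t : A0) : Sm1 S (fun g => z g • t) := by
  obtain ⟨k, hk⟩ := a0_tors t
  obtain ⟨W, hW, h1⟩ := hz k
  refine ⟨W, hW, fun g w hw => ?_⟩
  have h2 := smul_zero_of_dvd hk (h1 g w hw)
  rw [sub_smul] at h2
  exact sub_eq_zero.1 h2

theorem z1_smul {a : G → ℤ_[2]} (ha : PA.C1 S a) (hc : ∀ g h, a (g * h) = a g + χ g * a h)
    (t : A0) : Z1 S (tw χ) (fun g => a g • t) := by
  refine ⟨sm1_smul ha t, fun g h => ?_⟩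
  show a (g * h) • t = a g • t + χ g • (a h • t)
  rw [hc, add_smul, mul_smul]

theorem z2_smul {F : G → G → ℤ_[2]} (hF : PA.Z2 S χ F) (t : A0) :
    Z2 S (tw χ) (fun g h => F g h • t) := by
  refine ⟨?_, fun a b c => ?_⟩
  · obtain ⟨k, hk⟩ := a0_tors t
    obtain ⟨W, hW, h1⟩ := hF.1 k
    refine ⟨W, hW, fun g h w hw w' hw' => ?_⟩
    have h2 := smul_zero_of_dvd hk (h1 g h w hw w' hw')
    rw [sub_smul] at h2
    exact sub_eq_zero.1 h2
  · show χ a • (F b c • t) - F (a * b) c • t + F a (b * c) • t - F a b • t = 0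
    rw [smul_smul, ← sub_smul, ← add_smul, ← sub_smul]
    have h1 : χ a * F b c - F (a * b) c + F a (b * c) - F a b = 0 := by
      linear_combination -(hF.2 a b c)
    rw [h1, zero_smul]

theorem b2_smul {F : G → G → ℤ_[2]} (hF : PA.B2 S χ F) (t : A0) :
    B2 S (tw χ) (fun g h => F g h • t) := by
  obtain ⟨z, hz, rfl⟩ := hF
  refine ⟨fun g => z g • t, sm1_smul hz t, ?_⟩
  funext g h
  show (z g + χ g * z h - z (g * h)) • t = z g • t + χ g • (z h • t) - z (g * h) • t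
  rw [sub_smul, add_smul, mul_smul]

theorem z2_cup (hχ : IsChar S χ) {a ψ : G → ℤ_[2]} (ha : PA.C1 S a)
    (hc : ∀ g h, a (g * h) = a g + χ g * a h) (hψ : PA.C1 S ψ)
    (hm : ∀ g h, ψ (g * h) = ψ g + ψ h) : PA.Z2 S χ (fun g h => a g * ψ h) := by
  refine ⟨fun n => ?_, fun g h k => ?_⟩
  · obtain ⟨W, hW, h1⟩ := ha n
    obtain ⟨W', hW', h1'⟩ := hψ n
    refine ⟨W ⊓ W', S.inf hW hW', fun g h w hw w' hw' => ?_⟩
    have e : a (g * w) * ψ (h * w') - a g * ψ h =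
        (a (g * w) - a g) * ψ h + a (g * w) * (ψ (h * w') - ψ h) := by ring
    show (2 : ℤ_[2]) ^ n ∣ a (g * w) * ψ (h * w') - a g * ψ h
    rw [e]
    exact dvd_add (Dvd.dvd.mul_right (h1 g w hw.1) _) (Dvd.dvd.mul_left (h1' h w' hw'.2) _)
  · show a g * ψ h + a (g * h) * ψ k = χ g * (a h * ψ k) + a g * ψ (h * k)
    rw [hc, hm]
    ring

theorem c1_comp {D : Type*} [Group D] {SD : TwoSys D} {j : D →* G}
    (hj : ∀ W, S.mem W → ∃ W', SD.mem W' ∧ ∀ w ∈ W', j w ∈ W) {z : G → ℤ_[2]} (hz : PA.C1 S z) :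
    PA.C1 SD (fun d => z (j d)) := by
  intro n
  obtain ⟨W, hW, h1⟩ := hz n
  obtain ⟨W', hW', h2⟩ := hj W hW
  refine ⟨W', hW', fun g w hw => ?_⟩
  show (2 : ℤ_[2]) ^ n ∣ z (j (g * w)) - z (j g)
  rw [map_mul]
  exact h1 _ _ (h2 w hw)

theorem paZ2_comp {D : Type*} [Group D] {SD : TwoSys D} {j : D →* G}
    (hj : ∀ W, S.mem W → ∃ W', SD.mem W' ∧ ∀ w ∈ W', j w ∈ W) {F : G → G → ℤ_[2]}
    (hF : PA.Z2 S χ F) : PA.Z2 SD (fun d => χ (j d)) (fun a b => F (j a) (j b)) := by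
  refine ⟨fun n => ?_, fun g h k => ?_⟩
  · obtain ⟨W, hW, h1⟩ := hF.1 n
    obtain ⟨W', hW', h2⟩ := hj W hW
    refine ⟨W', hW', fun g h w hw w' hw' => ?_⟩
    show (2 : ℤ_[2]) ^ n ∣ F (j (g * w)) (j (h * w')) - F (j g) (j h)
    rw [map_mul, map_mul]
    exact h1 _ _ _ (h2 w hw) _ (h2 w' hw')
  · show F (j g) (j h) + F (j (g * h)) (j k) = χ (j g) * F (j h) (j k) + F (j g) (j (h * k))
    rw [map_mul, map_mul]
    exact hF.2 _ _ _

section loc

variable {inv : (G → G → A0) → A0}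

theorem LocH.zero (L : LocH S χ inv) : inv (fun _ _ => 0) = 0 := by
  obtain ⟨W, hW⟩ := S.ex
  have h1 := L.cob (fun _ => 0) ⟨W, hW, fun _ _ _ => rfl⟩
  have h2 : d1 (tw χ) (fun _ : G => (0 : A0)) = fun _ _ => 0 := by
    funext a b
    show (0 : A0) + χ a • (0 : A0) - 0 = 0
    rw [smul_zero, add_zero, sub_zero]
  rwa [h2] at h1

theorem LocH.b2 (L : LocH S χ inv) {f : G → G → A0} (hf : B2 S (tw χ) f) : inv f = 0 := by
  obtain ⟨x, hx, rfl⟩ := hf
  exact L.cob x hx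

theorem LocH.neg_map (L : LocH S χ inv) {f : G → G → A0} (hf : Z2 S (tw χ) f) :
    inv (fun a b => -f a b) = -inv f := by
  have h1 := L.add f (fun a b => -f a b) hf (hf.neg (isAct_tw L.char))
  have h2 : (fun a b : G => f a b + -f a b) = fun _ _ => 0 := by
    funext a b
    rw [add_neg_cancel]
  rw [h2, L.zero] at h1
  exact (neg_eq_of_add_eq_zero_right h1.symm).symm

theorem LocH.sub_map (L : LocH S χ inv) {f f' : G → G → A0} (hf : Z2 S (tw χ) f)
    (hf' : Z2 S (tw χ) f') : inv (fun a b => f a b - f' a b) = inv f - inv f' := by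
  have h1 := L.add f (fun a b => -f' a b) hf (hf'.neg (isAct_tw L.char))
  rw [L.neg_map hf', ← sub_eq_add_neg] at h1
  rw [← h1]
  congr 1
  funext a b
  rw [sub_eq_add_neg]

private theorem b0_zero_Z2 (L : LocH S χ inv) : Z2 S (tw χ) (fun _ _ : G => (0 : A0)) := by
  obtain ⟨W, hW⟩ := S.ex
  refine ⟨⟨W, hW, fun _ _ _ _ _ _ => rfl⟩, fun a b c => ?_⟩
  show χ a • (0 : A0) - 0 + 0 - 0 = 0
  rw [smul_zero, sub_zero, add_zero, sub_zero]

private theorem b0_sum (L : LocH S χ inv) {ι : Type*} (s : Finset ι) {f : ι → G → G → A0}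
    (hf : ∀ i, Z2 S (tw χ) (f i)) :
    Z2 S (tw χ) (fun a b => ∑ i ∈ s, f i a b) ∧
      inv (fun a b => ∑ i ∈ s, f i a b) = ∑ i ∈ s, inv (f i) := by
  classical
  induction s using Finset.induction_on with
  | empty =>
    simp only [Finset.sum_empty]
    exact ⟨b0_zero_Z2 L, L.zero⟩
  | insert i s hi ih =>
    have e : (fun a b : G => ∑ l ∈ insert i s, f l a b) =
        fun a b => f i a b + ∑ l ∈ s, f l a b := by
      funext a b
      rw [Finset.sum_insert hi]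
    rw [e, Finset.sum_insert hi]
    refine ⟨(hf i).add (isAct_tw L.char) ih.1, ?_⟩
    rw [L.add _ _ (hf i) ih.1, ih.2]

theorem LocH.sum_map (L : LocH S χ inv) {ι : Type*} (s : Finset ι) {f : ι → G → G → A0}
    (hf : ∀ i, Z2 S (tw χ) (f i)) :
    inv (fun a b => ∑ i ∈ s, f i a b) = ∑ i ∈ s, inv (f i) := (b0_sum L s hf).2

/-- congruent cocycles (modulo coboundaries) have the same invariant -/
theorem LocH.congr (L : LocH S χ inv) {f f' : G → G → A0} (hf : Z2 S (tw χ) f)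
    (hf' : Z2 S (tw χ) f') (h : B2 S (tw χ) (fun a b => f a b - f' a b)) : inv f = inv f' := by
  have h1 := L.b2 h
  rw [L.sub_map hf hf'] at h1
  exact sub_eq_zero.1 h1

private theorem b0_nsmul (L : LocH S χ inv) {f : G → G → A0} (hf : Z2 S (tw χ) f) (n : ℕ) :
    Z2 S (tw χ) (fun a b => n • f a b) ∧ inv (fun a b => n • f a b) = n • inv f := by
  induction n with
  | zero =>
    simp only [zero_smul]
    exact ⟨b0_zero_Z2 L, L.zero⟩
  | succ n ih =>
    have e : (fun a b : G => (n + 1) • f a b) = fun a b => n • f a b + f a b := by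
      funext a b
      rw [add_smul, one_smul]
    rw [e, add_smul, one_smul]
    refine ⟨ih.1.add (isAct_tw L.char) hf, ?_⟩
    rw [L.add _ _ ih.1 hf, ih.2]

theorem LocH.nsmul_map (L : LocH S χ inv) {f : G → G → A0} (hf : Z2 S (tw χ) f) (n : ℕ) :
    inv (fun a b => n • f a b) = n • inv f := (b0_nsmul L hf n).2

theorem LocH.negInv (L : LocH S χ inv) : LocH S χ (fun f => -inv f) where
  char := L.char
  add f f' hf hf' := by
    show -inv (fun a b => f a b + f' a b) = -inv f + -inv f'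
    rw [L.add f f' hf hf', neg_add]
  cob z hz := by
    show -inv _ = 0
    rw [L.cob z hz, neg_zero]
  fin := L.fin
  nondeg ψ hψ h := L.nondeg ψ hψ fun φ hφ => neg_eq_zero.1 (h φ hφ)
  one f hf h := L.one f hf (neg_eq_zero.1 h)

end loc

end Pool.Agent.Work.MP_787500_nt.GP
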