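import Mathlib
import Pool.Agent.Work.MP_787500_nt.GP.BDefs
import Pool.Agent.Work.MP_787500_nt.GP.K2_KumZ
import Pool.Agent.Work.MP_787500_nt.GP.K3_Lam
import Pool.Agent.Work.MP_787500_nt.PA.GoodSys
import Pool.Agent.Work.MP_787500_nt.PA.CycK
import Pool.Agent.Work.MP_787500_nt.PA.CountsK
import Pool.Agent.Work.MP_787500_nt.H10_Quad
import Pool.Agent.Work.MP_787500_nt.PA.Four

/-!
# Module B0_PSI (size M): the logarithm of the cyclotomic character

`ψ g = lam (cyc g)`; `cyc g` is a unit (`isChar_cyc`: odd; or `cyc g * cyc g⁻¹ = 1`).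
* `psi_mul`: `IsLam.mul`. `psi_c1`: `IsLam.sub` and `isChar_cyc.cont` (with `n + 2`).
* `psi2_mem`: `g ↦ lam (cyc g)` modulo 2 is in `homs (goodSys K) ⊤`.
* `psi2_iff`: `2 ∣ lam x` iff `8 ∣ x - 1` or `8 ∣ x + 1` (`IsLam.dvd`, `n = 1`). Let `ζ` be a root of unity of order 8 (for
  example `zt K 3`), `r = ζ + ζ⁻¹`, `r ^ 2 = 2`; `g r = ζ ^ (cyc g) + ζ ^ (-cyc g)`, which is `r` if `cyc g = ± 1` modulo 8, and
  `-r` if `cyc g = ± 3`. Any square root `t` of 2 is `± r`.
* `psi2_ne`: there is no `x ∈ K` with `x ^ 2 = 2` (`exists_coords`, `not_rat` in `H10_Quad.lean`: `x = a + b s`, so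
  `2 a b = 0` and `a ^ 2 - q b ^ 2 = 2`, impossible for rational numbers if `a = 0` or `b = 0`), so a square root `t` of 2 in
  the algebraic closure is moved by some `g` (Galois theory: an element fixed by all of `AbsGal K` is in
  `K`), and `lam (cyc g)` is odd.
-/

set_option autoImplicit false
set_option linter.unusedSectionVars false

namespace Pool.Agent.Work.MP_787500_nt.GP

open IsDedekindDomain NumberField
open Pool.Agent.Work.MP_787500_nt.PA (TwoSys Sm1 Sm2 homs Coc Cob IsChar goodSys core cyc Opn SU)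
open Pool.Agent.Work.MP_787500_nt.Gn (GoodG)

universe u

variable {K : Type u} [Field K] [NumberField K]

private theorem b0_zmod (x : ℤ_[2]) : PadicInt.toZMod x = (0 : ZMod 2) ↔ (2 : ℤ_[2]) ∣ x := by
  rw [← RingHom.mem_ker, PadicInt.ker_toZMod, PadicInt.maximalIdeal_eq_span_p,
    Ideal.mem_span_singleton]
  push_cast
  rfl

private theorem b0_ker {k : ℕ} {a : ℤ_[2]} : PadicInt.toZModPow k a = 0 ↔ (2 : ℤ_[2]) ^ k ∣ a := by
  rw [← RingHom.mem_ker, PadicInt.ker_toZModPow, Ideal.mem_span_singleton]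
  push_cast
  rfl

theorem isUnit_cyc (g : AbsGal K) : IsUnit (cyc g) := Units.isUnit _

theorem psi_mul {lam : ℤ_[2] → ℤ_[2]} (hlam : IsLam lam) (g h : AbsGal K) :
    lam (cyc (g * h)) = lam (cyc g) + lam (cyc h) := by
  rw [(PA.isChar_cyc (K := K)).mul g h]
  exact hlam.mul _ _ (isUnit_cyc g) (isUnit_cyc h)

theorem psi_c1 {lam : ℤ_[2] → ℤ_[2]} (hlam : IsLam lam) :
    PA.C1 (goodSys K) (fun g => lam (cyc g)) := by
  intro n
  obtain ⟨W, hW, h⟩ := (PA.isChar_cyc (K := K)).cont (n + 2)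
  exact ⟨W, hW, fun g w hw => hlam.sub (isUnit_cyc _) (isUnit_cyc _) (h g w hw)⟩

theorem psi2_mem {lam : ℤ_[2] → ℤ_[2]} (hlam : IsLam lam) :
    (fun g : AbsGal K => (PadicInt.toZMod (lam (cyc g)) : ZMod 2)) ∈ homs (goodSys K) ⊤ := by
  refine ⟨?_, fun g hg => absurd trivial hg, fun g _ h _ => ?_⟩
  · obtain ⟨W, hW, h⟩ := psi_c1 (K := K) hlam 1
    refine ⟨W, hW, fun g w hw => ?_⟩
    have h1 := h g w hw
    rw [pow_one, ← b0_zmod, map_sub, sub_eq_zero] at h1
    exact h1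
  · show (PadicInt.toZMod (lam (cyc (g * h))) : ZMod 2) = _
    rw [psi_mul hlam, map_add]

private theorem b0_zt4 : zt K 3 ^ 4 = -1 := by
  have h1 : zt K 3 ^ 2 = zt K 2 := zt_sq K 2
  have h2 : zt K 2 ^ 2 = zt K 1 := zt_sq K 1
  rw [show (4 : ℕ) = 2 * 2 from rfl, pow_mul, h1, h2, zt_one]

private theorem b0_act (g : AbsGal K) :
    g (zt K 3) = zt K 3 ^ (PadicInt.toZModPow 3 (cyc g)).val := by
  have h0 : zt K 3 ^ 2 ^ 3 = 1 := by
    rw [show (2 : ℕ) ^ 3 = 4 * 2 from rfl, pow_mul, b0_zt4]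
    norm_num
  exact cyclotomicCharacter.spec 2 (g : AlgebraicClosure K ≃+* AlgebraicClosure K) (zt K 3) h0

theorem psi2_iff {lam : ℤ_[2] → ℤ_[2]} (hlam : IsLam lam) {t : AlgebraicClosure K}
    (ht : t ^ 2 = 2) (g : AbsGal K) : (PadicInt.toZMod (lam (cyc g)) : ZMod 2) = 0 ↔ g t = t := by
  have hchar : CharZero (AlgebraicClosure K) :=
    charZero_of_injective_algebraMap (algebraMap K (AlgebraicClosure K)).injective
  set z := zt K 3 with hz
  have hz4 : z ^ 4 = -1 := b0_zt4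
  have hz7 : z ^ 7 = -z ^ 3 := by linear_combination z ^ 3 * hz4
  have hz5 : z ^ 5 = -z := by linear_combination z * hz4
  have hr2 : (z + z ^ 7) ^ 2 = 2 := by
    rw [hz7]
    linear_combination (-2 + z ^ 2) * hz4
  have hr0 : z + z ^ 7 ≠ 0 := by
    intro h
    rw [h] at hr2
    norm_num at hr2
  have hrn : z + z ^ 7 ≠ -(z + z ^ 7) := by
    intro h
    apply hr0
    have h2 : (2 : AlgebraicClosure K) * (z + z ^ 7) = 0 := by linear_combination h
    exact (mul_eq_zero.1 h2).resolve_left two_ne_zero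
  have htr : g t = t ↔ g (z + z ^ 7) = z + z ^ 7 := by
    have h1 : (t - (z + z ^ 7)) * (t + (z + z ^ 7)) = 0 := by
      linear_combination ht - hr2
    rcases mul_eq_zero.1 h1 with h2 | h2
    · rw [sub_eq_zero.1 h2]
    · rw [eq_neg_of_add_eq_zero_left h2, map_neg, neg_inj]
  have hact := b0_act (K := K) g
  rw [← hz] at hact
  rw [htr, b0_zmod]
  have hd := hlam.dvd (cyc g) (isUnit_cyc g) 1
  rw [pow_one] at hd
  rw [hd, map_add, map_pow, hact]
  have e1 : (2 : ℤ_[2]) ^ (1 + 2) ∣ cyc g - 1 ↔ PadicInt.toZModPow 3 (cyc g) = 1 := by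
    rw [show 1 + 2 = 3 from rfl, ← b0_ker, map_sub, map_one, sub_eq_zero]
  have e2 : (2 : ℤ_[2]) ^ (1 + 2) ∣ cyc g + 1 ↔ PadicInt.toZModPow 3 (cyc g) = -1 := by
    rw [show 1 + 2 = 3 from rfl, ← b0_ker, map_add, map_one, add_eq_zero_iff_eq_neg]
  rw [e1, e2]
  have hu : IsUnit (PadicInt.toZModPow 3 (cyc g)) := (isUnit_cyc g).map _
  generalize PadicInt.toZModPow 3 (cyc g) = y at hu
  have hy : y = 1 ∨ y = 3 ∨ y = 5 ∨ y = 7 := by
    revert hu
    revert y
    show ∀ y : ZMod 8, IsUnit y → (y = 1 ∨ y = 3 ∨ y = 5 ∨ y = 7)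
    decide
  have v1 : (1 : ZMod (2 ^ 3)).val = 1 := rfl
  have v3 : (3 : ZMod (2 ^ 3)).val = 3 := rfl
  have v5 : (5 : ZMod (2 ^ 3)).val = 5 := rfl
  have v7 : (7 : ZMod (2 ^ 3)).val = 7 := rfl
  rcases hy with rfl | rfl | rfl | rfl
  · simp [v1]
  · rw [v3]
    constructor
    · rintro (h | h)
      · exact absurd h (by decide)
      · exact absurd h (by decide)
    · intro h
      exfalso
      apply hrn
      have : (z ^ 3) ^ 7 = z ^ 5 := by
        linear_combination (z ^ 17 - z ^ 13 + z ^ 9 - z ^ 5) * hz4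
      rw [this] at h
      linear_combination (-1 : AlgebraicClosure K) * h + hz5 + (1 : AlgebraicClosure K) * hz7
  · rw [v5]
    constructor
    · rintro (h | h)
      · exact absurd h (by decide)
      · exact absurd h (by decide)
    · intro h
      exfalso
      apply hrn
      have : (z ^ 5) ^ 7 = z ^ 3 := by
        linear_combination (z ^ 31 - z ^ 27 + z ^ 23 - z ^ 19 + z ^ 15 - z ^ 11 + z ^ 7 - z ^ 3) * hz4
      rw [this] at h
      linear_combination (-1 : AlgebraicClosure K) * h + hz5 + (1 : AlgebraicClosure K) * hz7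
  · rw [v7]
    constructor
    · intro _
      have : (z ^ 7) ^ 7 = z := by
        linear_combination (z ^ 45 - z ^ 41 + z ^ 37 - z ^ 33 + z ^ 29 - z ^ 25 + z ^ 21 - z ^ 17 +
          z ^ 13 - z ^ 9 + z ^ 5 - z) * hz4
      rw [this, add_comm]
    · intro _
      right
      decide

theorem psi2_ne {q : ℕ} {s : K} (hK : IsBase K q s) {lam : ℤ_[2] → ℤ_[2]} (hlam : IsLam lam) :
    ∃ g : AbsGal K, (PadicInt.toZMod (lam (cyc g)) : ZMod 2) ≠ 0 := by
  by_contra hcon
  push Not at hcon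
  obtain ⟨t, ht⟩ := IsAlgClosed.exists_pow_nat_eq (2 : AlgebraicClosure K) (n := 2) (by norm_num)
  have hfix : ∀ g : AbsGal K, g t = t := fun g => (psi2_iff hlam ht g).1 (hcon g)
  obtain ⟨x, hx⟩ := (InfiniteGalois.mem_range_algebraMap_iff_fixed t).2 hfix
  have hx2 : x ^ 2 = 2 := by
    apply (algebraMap K (AlgebraicClosure K)).injective
    rw [map_pow, hx, ht, map_ofNat]
  obtain ⟨hdeg, hs, hq, hq16⟩ := hK
  obtain ⟨a, b, hab⟩ := Quad.exists_coords hdeg hs hq.pos x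
  have h1 : (((a ^ 2 - q * b ^ 2 - 2 : ℚ)) : K) + ((2 * a * b : ℚ) : K) * s = 0 := by
    push_cast
    rw [hab] at hx2
    linear_combination hx2 - (b : K) ^ 2 * hs
  obtain ⟨h2, h3⟩ := Quad.not_rat hs hq.pos _ _ h1
  have hirr : ∀ c : ℚ, c ^ 2 ≠ 2 := by
    intro c hc
    have h4 : IsSquare (2 : ℚ) := ⟨c, by rw [← hc]; ring⟩
    have h5 : IsSquare ((2 : ℕ) : ℚ) := by exact_mod_cast h4
    rw [Rat.isSquare_natCast_iff] at h5
    obtain ⟨m, hm⟩ := h5
    have : m < 2 := by nlinarith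
    interval_cases m <;> omega
  have hb : b ≠ 0 := by
    intro hb
    rw [hb] at h2
    exact hirr a (by linarith)
  have ha : a = 0 := by
    have h6 : a * b = 0 := by linarith
    exact (mul_eq_zero.1 h6).resolve_right hb
  rw [ha] at h2
  have hq0 : (0 : ℚ) < q := by exact_mod_cast hq.pos
  nlinarith [mul_nonneg hq0.le (sq_nonneg b)]

end Pool.Agent.Work.MP_787500_nt.GP
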