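import Mathlib
import Pool.Agent.Work.MP_787500_nt.GP.B0_Psi
import Pool.Agent.Work.MP_787500_nt.GP.K1_Unit

/-!
# Module B1_LIFT (size S): homomorphisms to `ZMod 2` lift to Kummer cocycles

`ψ = act2 ⊤ t` with `SU t`, `t ^ 2` fixed by all `g` (`PA.exists_su` for `U = ⊤`). Let `r 0 = t ^ 2`, `r (k + 1) = r' k` with
`r' 0 = t` (`exists_roots t`). `exists_isKum` gives `a`. `IsKum.even`: `2 ∣ a g` iff `g t = t` iff `ψ g = 0`. `SU (r 0)`,
so `UT ∅ (r 0)` (`SU.ut`), and `IsKum.c1` for `T = ∅` with `goodT_empty` gives `C1 (goodSys K) a`.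
* `kum_c1_good`: the same for any `IsKum r a` with `SU (r 0)`.
-/

set_option linter.unusedSectionVars false

namespace Pool.Agent.Work.MP_787500_nt.GP

open IsDedekindDomain NumberField
open Pool.Agent.Work.MP_787500_nt.PA (TwoSys Sm1 Sm2 homs Coc Cob IsChar goodSys core cyc Opn SU)
open Pool.Agent.Work.MP_787500_nt.Gn (GoodG)

universe u

variable {K : Type u} [Field K] [NumberField K]

private theorem b1_toZMod (x : ℤ_[2]) : PadicInt.toZMod x = (0 : ZMod 2) ↔ (2 : ℤ_[2]) ∣ x := by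
  have h1 : x ∈ RingHom.ker (PadicInt.toZMod (p := 2)) ↔ PadicInt.toZMod x = (0 : ZMod 2) :=
    RingHom.mem_ker
  rw [← h1, PadicInt.ker_toZMod, PadicInt.maximalIdeal_eq_span_p, Ideal.mem_span_singleton]
  rfl

theorem kum_c1_good {r : ℕ → AlgebraicClosure K} {a : AbsGal K → ℤ_[2]} (h : IsKum r a)
    (hs : SU (r 0)) : PA.C1 (goodSys K) a := by
  intro n
  obtain ⟨W, hW, h1⟩ := h.c1 (T := ∅) (SU.ut hs ∅) n
  exact ⟨W, goodT_empty.1 hW, h1⟩

theorem lift_good {q : ℕ} {s : K} (hK : IsBase K q s) {ψ : AbsGal K → ZMod 2}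
    (hψ : ψ ∈ homs (goodSys K) ⊤) : ∃ (r : ℕ → AlgebraicClosure K) (a : AbsGal K → ℤ_[2]),
      IsKum r a ∧ SU (r 0) ∧ PA.C1 (goodSys K) a ∧ ∀ g, ψ g = PadicInt.toZMod (a g) := by
  obtain ⟨t, ht, -, hfix, hψt⟩ := PA.exists_su hK (U := ⊤)
    ⟨(goodSys K).ex.choose, (goodSys K).ex.choose_spec, le_top⟩ hψ
  obtain ⟨r', hr0, hr⟩ := exists_roots t
  let r : ℕ → AlgebraicClosure K := fun k => match k with
    | 0 => t ^ 2
    | k + 1 => r' k
  have hrsq : ∀ k, r (k + 1) ^ 2 = r k := by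
    intro k
    rcases k with _ | k
    · show r' 0 ^ 2 = t ^ 2
      rw [hr0]
    · exact hr k
  have hr00 : r 0 = t ^ 2 := rfl
  have hr1 : r 1 = t := hr0
  have h0 : r 0 ≠ 0 := by rw [hr00]; exact pow_ne_zero 2 ht.1
  obtain ⟨a, ha⟩ := exists_isKum h0 (fun g => by rw [hr00]; exact hfix g trivial) hrsq
  have hs : SU (r 0) := by rw [hr00]; exact PA.SU.pow ht 2
  refine ⟨r, a, ha, hs, kum_c1_good ha hs, fun g => ?_⟩
  have h2 : (PadicInt.toZMod (a g) : ZMod 2) = 0 ↔ g t = t := by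
    rw [b1_toZMod, ha.even g, hr1]
  rw [hψt]
  unfold PA.act2
  by_cases h3 : g t = t
  · rw [if_neg (fun h => h.2 h3), h2.2 h3]
  · rw [if_pos ⟨trivial, h3⟩]
    have h4 : (PadicInt.toZMod (a g) : ZMod 2) ≠ 0 := fun h => h3 (h2.1 h)
    have h5 : ∀ x : ZMod 2, x ≠ 0 → x = 1 := by decide
    exact (h5 _ h4).symm

end Pool.Agent.Work.MP_787500_nt.GP
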