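import Mathlib
import Pool.Agent.Work.MP_787500_nt.GP.T05_Trace
import Pool.Agent.Work.MP_787500_nt.GP.GDefs
import Pool.Agent.Work.MP_787500_nt.PA.Divide

/-!
# Module H1_LOCDATA (size M-L): an invariant map from one 2-cocycle

`S`, `χ` with `IsChar S χ`, `homs S ⊤` finite dimensional; `n0 : G → G → ℤ_[2]` a 2-cocycle with values in the twist by
`χ`, not a coboundary modulo 2, such that every 2-cocycle `f` modulo 2 is `Cob` or `f + n0` is
(`one`); every homomorphism to `ZMod 2` lifts to a 1-cocycle with values in `ℤ_[2]` (`lift`).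
For `t : A0` let `n0 • t` be the 2-cocycle `g h ↦ n0 g h • t` (smooth: `t` is killed by a power of 2).
(1) Every `f ∈ Z2 S (tw χ)` is `n0 • t` plus `d1 (tw χ) z`, `z` smooth, for some `t`. `f` has finitely many values, so
`2 ^ n • f = 0` for some `n`; induction on `n`. If `n ≥ 1`, `2 ^ (n - 1) • f = hf f₁` with
`f₁ : G → G → ZMod 2`, `Coc S ⊤ f₁` (`A0` has exactly one element of order 2, `T01_A0`, `eq_hf`). By `one`
`f₁ = ε n0 + δ z₁`, `ε ∈ {0, 1}`. Let `t` with `2 ^ (n - 1) • t = half`, `z = (z₁ as 0, 1) • t`; then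
`f - ε n0 • t - d1 z` is killed by `2 ^ (n - 1)`.
(2) `n0 • t ∈ B2` implies `t = 0`. Suppose not; multiply by a power of 2: `n0 • half = d1 (tw χ) z`, `z : G → A0`
smooth. `w = 2 • z` is a smooth 1-cocycle for `tw χ` (`d1 w = 2 • (n0 • half) = 0`). Claim: `w = 2 • w' + d0 m`
for a smooth cocycle `w'`, in fact `w = 2 • w'`: with `2 ^ n • w = 0`, show by induction on `n` that every such `w` is
`∑ i, a_i • t_i` with `a_i` cocycles with values in `ℤ_[2]` (`C1`) and `t_i ∈ A0`: `2 ^ (n - 1) • w = hf ψ`, `ψ ∈ homs S ⊤`,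
lift `ψ` to `a`, `t` with `2 ^ (n - 1) • t = half`, then `w - a • t` is killed by `2 ^ (n - 1)`. Divide the `t_i` by 2.
So `z' = z - w'` has `2 • z' = 0`, `z' = hf z''`, `d1 z' = n0 • half`, so `n0` modulo 2 is `δ z''`: contradiction.
So `inv f` = the unique `t` in (1) is well defined for `f ∈ Z2 S (tw χ)` (put 0 otherwise), additive, zero on
coboundaries, `inv (n0 • t) = t`, and `inv f = 0` implies `f ∈ B2`.
`LocH`: `nondeg`: if `ψ ≠ 0` there is `φ` with `¬ Cob S ⊤ (cup ψ φ)`; if `inv (hf (ψ ∪ φ)) = 0` then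
`hf (ψ ∪ φ) = d1 z`, and as in (2) `ψ ∪ φ` would be `Cob`. `one`: the same argument.
-/

set_option autoImplicit false
set_option linter.unusedSectionVars false

namespace Pool.Agent.Work.MP_787500_nt.GP

open Pool.Agent.Work.MP_787500_nt.PA (TwoSys Sm1 Sm2 homs Coc Cob IsChar)

private theorem h1_zmod (a : ZMod 2) : a = 0 ∨ a = 1 := by
  revert a
  decide

private theorem h1_dvd (a : ℤ_[2]) : PadicInt.toZMod a = 0 ↔ (2 : ℤ_[2]) ∣ a := by
  rw [← RingHom.mem_ker, PadicInt.ker_toZMod, PadicInt.maximalIdeal_eq_span_p,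
    Ideal.mem_span_singleton]
  norm_num

private theorem h1_hf (a : ℤ_[2]) (e : ZMod 2) : a • hf e = hf (PadicInt.toZMod a * e) := by
  rcases h1_zmod (PadicInt.toZMod a) with h | h
  · rw [h, zero_mul, hf_zero]
    obtain ⟨b, rfl⟩ := (h1_dvd a).1 h
    rw [mul_comm, mul_smul]
    have e2 : (2 : ℤ_[2]) • hf e = 0 := by
      rw [two_smul, hf_two]
    rw [e2, smul_zero]
  · rw [h, one_mul]
    refine smul_hf ?_ e
    rw [← h1_dvd, map_sub, h, map_one, sub_self]

private theorem h1_half (a : ℤ_[2]) : a • half = hf (PadicInt.toZMod a) := by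
  rw [← hf_one, h1_hf, mul_one]

section

variable {G : Type*} [Group G] {S : TwoSys G} {χ : G → ℤ_[2]}

private theorem h1_smulk (t : A0) : ∃ k : ℕ, ∀ u v : ℤ_[2], (2 : ℤ_[2]) ^ k ∣ u - v → u • t = v • t := by
  obtain ⟨k, hk⟩ := a0_smul t
  refine ⟨k, fun u v h => ?_⟩
  have h1 : (1 + (u - v)) • t = t := hk _ (by rwa [add_sub_cancel_left])
  rw [add_smul, one_smul, sub_smul] at h1
  have h2 : u • t - v • t = 0 := by
    have := left_eq_add.1 h1.symm
    exact this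
  exact sub_eq_zero.1 h2

private theorem h1_op {A B C : Type*} {x : G → A} {y : G → B} (hx : Sm1 S x) (hy : Sm1 S y)
    (F : A → B → C) : Sm1 S (fun g => F (x g) (y g)) := by
  obtain ⟨W, hW, hx⟩ := hx
  obtain ⟨W', hW', hy⟩ := hy
  refine ⟨W ⊓ W', S.inf hW hW', fun g w hw => ?_⟩
  show F (x (g * w)) (y (g * w)) = F (x g) (y g)
  rw [hx g w hw.1, hy g w hw.2]

private theorem h1_op1 {A C : Type*} {x : G → A} (hx : Sm1 S x)
    (F : A → C) : Sm1 S (fun g => F (x g)) := by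
  obtain ⟨W, hW, hx⟩ := hx
  exact ⟨W, hW, fun g w hw => by show F (x (g * w)) = F (x g); rw [hx g w hw]⟩

private theorem h1_inj {A C : Type*} {x : G → A} (F : A → C) (hF : Function.Injective F)
    (hx : Sm1 S (fun g => F (x g))) : Sm1 S x := by
  obtain ⟨W, hW, hx⟩ := hx
  exact ⟨W, hW, fun g w hw => hF (hx g w hw)⟩

private theorem h1_sm0 {A : Type*} (c : A) : Sm1 S (fun _ => c) := by
  obtain ⟨W, hW⟩ := S.ex
  exact ⟨W, hW, fun _ _ _ => rfl⟩

private theorem h1_d1_add (χ : G → ℤ_[2]) (z z' : G → A0) (g h : G) :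
    d1 (tw χ) (fun g => z g + z' g) g h = d1 (tw χ) z g h + d1 (tw χ) z' g h := by
  simp only [d1, tw, smul_add]
  abel

private theorem h1_d1_sub (χ : G → ℤ_[2]) (z z' : G → A0) (g h : G) :
    d1 (tw χ) (fun g => z g - z' g) g h = d1 (tw χ) z g h - d1 (tw χ) z' g h := by
  simp only [d1, tw, smul_sub]
  abel

private theorem h1_d1_nsmul (χ : G → ℤ_[2]) (n : ℕ) (z : G → A0) (g h : G) :
    d1 (tw χ) (fun g => n • z g) g h = n • d1 (tw χ) z g h := by
  simp only [d1, tw, smul_add, smul_sub]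
  rw [smul_comm (χ g) n (z h)]

private theorem h1_d1_zero (χ : G → ℤ_[2]) (g h : G) :
    d1 (tw χ) (fun _ => (0 : A0)) g h = 0 := by
  simp [d1, tw]

private theorem h1_d1_hf (hχ : IsChar S χ) (z : G → ZMod 2) (g h : G) :
    d1 (tw χ) (fun g => hf (z g)) g h = hf (z g + z h + z (g * h)) := by
  simp only [d1, tw]
  rw [smul_hf (hχ.odd g), hf_add, hf_add, sub_eq_add_neg, hf_neg]

private theorem h1_coc (hχ : IsChar S χ) {f : G → G → ZMod 2} (hf' : Coc S ⊤ f) :
    Z2 S (tw χ) (fun a b => hf (f a b)) := by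
  obtain ⟨⟨W, hW, h1⟩, h2⟩ := hf'
  refine ⟨⟨W, hW, fun g h w hw w' hw' => ?_⟩, fun a b c => ?_⟩
  · show hf (f (g * w) (h * w')) = hf (f g h)
    rw [h1 g h w hw w' hw']
  · have h3 := h2 a trivial b trivial c trivial
    simp only [d2, tw]
    rw [smul_hf (hχ.odd a)]
    have e1 : hf (f b c) - hf (f (a * b) c) + hf (f a (b * c)) - hf (f a b) =
        hf (f b c + f (a * b) c + f a (b * c) + f a b) := by
      rw [hf_add, hf_add, hf_add, sub_eq_add_neg, sub_eq_add_neg, hf_neg, hf_neg]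
    rw [e1]
    have e2 : f b c + f (a * b) c + f a (b * c) + f a b =
        (f a b + f (a * b) c) + (f b c + f a (b * c)) := by ring
    rw [e2, h3, CharTwo.add_self_eq_zero, hf_zero]

private theorem h1_coc' (hχ : IsChar S χ) {f : G → G → ZMod 2}
    (h : Z2 S (tw χ) (fun a b => hf (f a b))) : Coc S ⊤ f := by
  obtain ⟨⟨W, hW, h1⟩, h2⟩ := h
  refine ⟨⟨W, hW, fun g h w hw w' hw' => hf_inj (h1 g h w hw w' hw')⟩, fun a _ b _ c _ => ?_⟩
  have h3 := h2 a b c
  simp only [d2, tw] at h3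
  rw [smul_hf (hχ.odd a)] at h3
  have e1 : hf (f b c) - hf (f (a * b) c) + hf (f a (b * c)) - hf (f a b) =
      hf (f b c + f (a * b) c + f a (b * c) + f a b) := by
    rw [hf_add, hf_add, hf_add, sub_eq_add_neg, sub_eq_add_neg, hf_neg, hf_neg]
  rw [e1, ← hf_zero] at h3
  have h4 := hf_inj h3
  have e2 : f b c + f (a * b) c + f a (b * c) + f a b =
        (f a b + f (a * b) c) + (f b c + f a (b * c)) := by ring
  rw [e2] at h4
  exact CharTwo.add_eq_zero.1 h4

/-- twisted multiples of a 2-adic 2-cocycle -/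
private theorem h1_n0 {n0 : G → G → ℤ_[2]} (hn0 : PA.Z2 S χ n0) (t : A0) :
    Z2 S (tw χ) (fun g h => n0 g h • t) := by
  refine ⟨?_, fun a b c => ?_⟩
  · obtain ⟨k, hk⟩ := h1_smulk t
    obtain ⟨W, hW, h1⟩ := hn0.1 k
    exact ⟨W, hW, fun g h w hw w' hw' => hk _ _ (h1 g h w hw w' hw')⟩
  · have h1 := hn0.2 a b c
    simp only [d2, tw]
    rw [smul_smul, ← sub_smul, ← add_smul, ← sub_smul]
    have e : χ a * n0 b c - n0 (a * b) c + n0 a (b * c) - n0 a b = 0 := by
      linear_combination -h1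
    rw [e, zero_smul]

/-- every smooth 1-cocycle is twice a smooth 1-cocycle -/
private theorem h1_divide (hχ : IsChar S χ)
    (lift : ∀ ψ ∈ homs S ⊤, ∃ a : G → ℤ_[2], PA.C1 S a ∧ (∀ g h, a (g * h) = a g + χ g * a h) ∧
      ∀ g, ψ g = PadicInt.toZMod (a g)) (n : ℕ) :
    ∀ w : G → A0, Z1 S (tw χ) w → (∀ g, (2 ^ n) • w g = 0) →
      ∃ w' : G → A0, Z1 S (tw χ) w' ∧ ∀ g, w' g + w' g = w g := by
  induction n with
  | zero =>
    intro w _ h0
    refine ⟨fun _ => 0, ⟨h1_sm0 0, fun a b => ?_⟩, fun g => ?_⟩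
    · simp [tw]
    · have := h0 g
      rw [pow_zero, one_smul] at this
      rw [this, add_zero]
  | succ n ih =>
    intro w hw h0
    have h1 : ∀ g, ∃ a, (2 ^ n) • w g = hf a := fun g => by
      refine eq_hf ?_
      rw [← add_smul]
      have := h0 g
      rwa [pow_succ, mul_two] at this
    choose ψ hψ using h1
    have hψm : ψ ∈ homs S ⊤ := by
      refine ⟨h1_inj hf hf_inj ?_, fun g hg => absurd trivial hg, fun g _ h _ => ?_⟩
      · have := h1_op1 hw.1 (fun t => (2 ^ n) • t)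
        simp only [hψ] at this
        exact this
      · apply hf_inj
        rw [hf_add, ← hψ, ← hψ, ← hψ, hw.2, smul_add]
        congr 1
        show (2 ^ n) • χ g • w h = (2 ^ n) • w h
        rw [smul_comm, hψ, smul_hf (hχ.odd g)]
    obtain ⟨a, ha1, ha2, ha3⟩ := lift ψ hψm
    have key : ∀ t : A0, Z1 S (tw χ) (fun g => a g • t) := by
      intro t
      refine ⟨?_, fun g h => ?_⟩
      · obtain ⟨k, hk⟩ := h1_smulk t
        obtain ⟨W, hW, h2⟩ := ha1 k
        exact ⟨W, hW, fun g w hw => hk _ _ (h2 g w hw)⟩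
      · show a (g * h) • t = a g • t + χ g • a h • t
        rw [ha2, add_smul, mul_smul]
    obtain ⟨t₀, ht₀⟩ := a0_div_pow n half
    obtain ⟨s, hs⟩ := a0_div t₀
    obtain ⟨w₂, hw₂, hw₂'⟩ := ih (fun g => w g + -(a g • t₀))
      (Z1.add (isAct_tw hχ) hw (Z1.neg (isAct_tw hχ) (key t₀))) (fun g => by
        rw [smul_add, smul_neg, hψ, smul_comm, ht₀, h1_half, ← ha3, hf_neg, hf_two])
    refine ⟨fun g => w₂ g + a g • s, Z1.add (isAct_tw hχ) hw₂ (key s), fun g => ?_⟩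
    have h5 := hw₂' g
    have h6 : a g • t₀ = a g • s + a g • s := by rw [← smul_add, hs]
    calc w₂ g + a g • s + (w₂ g + a g • s) = (w₂ g + w₂ g) + (a g • s + a g • s) := by abel
      _ = w g := by rw [h5, ← h6]; abel

/-- a coboundary with values of order two is a coboundary modulo 2 -/
private theorem h1_cob (hχ : IsChar S χ)
    (lift : ∀ ψ ∈ homs S ⊤, ∃ a : G → ℤ_[2], PA.C1 S a ∧ (∀ g h, a (g * h) = a g + χ g * a h) ∧
      ∀ g, ψ g = PadicInt.toZMod (a g)) {f : G → G → ZMod 2} {z : G → A0} (hz : Sm1 S z)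
    (h : ∀ a b, hf (f a b) = d1 (tw χ) z a b) : Cob S ⊤ f := by
  have hw : Z1 S (tw χ) (fun g => z g + z g) := by
    refine ⟨h1_op1 hz (fun t => t + t), fun a b => ?_⟩
    have h1 := h1_d1_add χ z z a b
    rw [← h, hf_two] at h1
    simp only [d1] at h1
    exact (sub_eq_zero.1 h1).symm
  obtain ⟨k, hk, -⟩ := by
    have hfin := sm1_fin hw.1
    have : Finite (Set.range fun g => z g + z g) := hfin
    exact a0_killed (fun t : Set.range (fun g => z g + z g) => (t : A0))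
  obtain ⟨w', hw', hw2⟩ := h1_divide hχ lift k _ hw (fun g => hk ⟨_, g, rfl⟩)
  have h2 : ∀ g, ∃ a, z g - w' g = hf a := fun g => by
    refine eq_hf ?_
    have := hw2 g
    calc z g - w' g + (z g - w' g) = (z g + z g) - (w' g + w' g) := by abel
      _ = 0 := by rw [this, sub_self]
  choose z'' hz'' using h2
  refine ⟨z'', h1_inj hf hf_inj ?_, fun g _ k _ => hf_inj ?_⟩
  · have := h1_op hz hw'.1 (fun a b => a - b)
    simp only [hz''] at this
    exact this
  · rw [h, ← h1_d1_hf hχ]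
    have h3 : (fun g => hf (z'' g)) = fun g => z g - w' g := funext fun g => (hz'' g).symm
    rw [h3, h1_d1_sub]
    have h4 : d1 (tw χ) w' g k = 0 := by
      simp only [d1]
      rw [sub_eq_zero]
      exact (hw'.2 g k).symm
    rw [h4, sub_zero]

private theorem h1_sm2_fin {A : Type*} {x : G → G → A} (h : Sm2 S x) :
    (Set.range (fun p : G × G => x p.1 p.2)).Finite := by
  obtain ⟨W, hW, hx⟩ := h
  obtain ⟨k, hk⟩ := S.index hW
  have hfi : W.FiniteIndex := ⟨by rw [hk]; positivity⟩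
  have hfin : Finite (G ⧸ W) := Subgroup.finite_quotient_of_finiteIndex
  refine (Set.finite_range (fun q : (G ⧸ W) × (G ⧸ W) => x q.1.out q.2.out)).subset ?_
  rintro _ ⟨⟨g, g'⟩, rfl⟩
  refine ⟨((g : G ⧸ W), (g' : G ⧸ W)), ?_⟩
  obtain ⟨w, hw⟩ := QuotientGroup.mk_out_eq_mul W g
  obtain ⟨w', hw'⟩ := QuotientGroup.mk_out_eq_mul W g'
  show x ((g : G ⧸ W).out) ((g' : G ⧸ W).out) = x g g'
  rw [hw, hw', hx g g' w w.2 w' w'.2]

/-- every smooth 2-cocycle is a multiple of `n0` up to a coboundary -/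
private theorem h1_span (hχ : IsChar S χ) {n0 : G → G → ℤ_[2]} (hn0 : PA.Z2 S χ n0)
    (one : ∀ f, Coc S ⊤ f → Cob S ⊤ f ∨ Cob S ⊤ (fun g h => f g h + PadicInt.toZMod (n0 g h)))
    (n : ℕ) : ∀ f : G → G → A0, Z2 S (tw χ) f → (∀ g h, (2 ^ n) • f g h = 0) →
      ∃ (t : A0) (z : G → A0), Sm1 S z ∧ ∀ g h, f g h = n0 g h • t + d1 (tw χ) z g h := by
  induction n with
  | zero =>
    intro f _ h0
    refine ⟨0, fun _ => 0, h1_sm0 0, fun g h => ?_⟩
    have := h0 g h
    rw [pow_zero, one_smul] at this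
    rw [this, smul_zero, h1_d1_zero, add_zero]
  | succ n ih =>
    intro f hf' h0
    have h1 : ∀ g h, ∃ a, (2 ^ n) • f g h = hf a := fun g h => by
      refine eq_hf ?_
      rw [← add_smul]
      have := h0 g h
      rwa [pow_succ, mul_two] at this
    choose f₁ hf₁ using h1
    have hc : Coc S ⊤ f₁ := by
      refine h1_coc' hχ ⟨?_, fun a b c => ?_⟩
      · obtain ⟨W, hW, h2⟩ := hf'.1
        refine ⟨W, hW, fun g h w hw w' hw' => ?_⟩
        show hf (f₁ (g * w) (h * w')) = hf (f₁ g h)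
        rw [← hf₁, ← hf₁, h2 g h w hw w' hw']
      · have h2 := hf'.2 a b c
        simp only [d2, tw] at h2 ⊢
        rw [← hf₁, ← hf₁, ← hf₁, ← hf₁, smul_comm, ← smul_sub, ← smul_add, ← smul_sub, h2, smul_zero]
    obtain ⟨t₀, ht₀⟩ := a0_div_pow n half
    -- `e` and `z₁` with `f₁ = e n0 + δ z₁`
    obtain ⟨e, z₁, hz₁, he⟩ : ∃ (e : ZMod 2) (z₁ : G → ZMod 2), Sm1 S z₁ ∧
        ∀ g h, f₁ g h = PadicInt.toZMod (n0 g h) * e + (z₁ g + z₁ h + z₁ (g * h)) := by
      rcases one f₁ hc with ⟨z, hz, h2⟩ | ⟨z, hz, h2⟩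
      · exact ⟨0, z, hz, fun g h => by rw [mul_zero, zero_add, h2 g trivial h trivial]⟩
      · refine ⟨1, z, hz, fun g h => ?_⟩
        have h3 := h2 g trivial h trivial
        simp only at h3
        rw [← h3, mul_one]
        have h4 : PadicInt.toZMod (n0 g h) + (f₁ g h + PadicInt.toZMod (n0 g h)) =
            f₁ g h + (PadicInt.toZMod (n0 g h) + PadicInt.toZMod (n0 g h)) := by ring
        rw [h4, CharTwo.add_self_eq_zero, add_zero]
    -- multiples of `t₀`
    set m : ZMod 2 → A0 := fun a => if a = 0 then 0 else t₀ with hm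
    have hm2 : ∀ a, (2 ^ n) • m a = hf a := by
      intro a
      rcases h1_zmod a with rfl | rfl
      · simp [hm, hf_zero]
      · simp [hm, hf_one, ht₀]
    set f' : G → G → A0 := fun g h => (f g h + -(n0 g h • m e)) + -(d1 (tw χ) (fun g => m (z₁ g)) g h)
      with hf'd
    have hzm : Sm1 S (fun g => m (z₁ g)) := h1_op1 hz₁ m
    have hf'Z : Z2 S (tw χ) f' :=
      Z2.add (isAct_tw hχ) (Z2.add (isAct_tw hχ) hf' (Z2.neg (isAct_tw hχ) (h1_n0 hn0 (m e))))
        (Z2.neg (isAct_tw hχ) (d1_tw_Z2 hχ hzm))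
    obtain ⟨t, z, hz, h5⟩ := ih f' hf'Z (fun g h => by
      rw [hf'd]
      simp only
      rw [smul_add, smul_add, smul_neg, smul_neg, hf₁, smul_comm, hm2, ← h1_d1_nsmul]
      simp only [hm2]
      rw [h1_d1_hf hχ, h1_hf, he g h, hf_neg, hf_neg, ← hf_add, ← hf_add]
      have : PadicInt.toZMod (n0 g h) * e + (z₁ g + z₁ h + z₁ (g * h)) +
          PadicInt.toZMod (n0 g h) * e + (z₁ g + z₁ h + z₁ (g * h)) =
          (PadicInt.toZMod (n0 g h) * e + (z₁ g + z₁ h + z₁ (g * h))) +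
          (PadicInt.toZMod (n0 g h) * e + (z₁ g + z₁ h + z₁ (g * h))) := by ring
      rw [this, CharTwo.add_self_eq_zero, hf_zero])
    refine ⟨t + m e, fun g => z g + m (z₁ g), h1_op hz hzm (fun a b => a + b), fun g h => ?_⟩
    have h6 := h5 g h
    rw [hf'd] at h6
    simp only at h6
    rw [h1_d1_add, smul_add]
    calc f g h = ((f g h + -(n0 g h • m e)) + -(d1 (tw χ) (fun g => m (z₁ g)) g h)) +
          n0 g h • m e + d1 (tw χ) (fun g => m (z₁ g)) g h := by abel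
      _ = _ := by rw [h6]; abel

end

theorem locH_of_data {G : Type*} [Group G] {S : TwoSys G} {χ : G → ℤ_[2]} (hχ : IsChar S χ)
    (hfin : FiniteDimensional (ZMod 2) (homs S ⊤))
    (lift : ∀ ψ ∈ homs S ⊤, ∃ a : G → ℤ_[2], PA.C1 S a ∧ (∀ g h, a (g * h) = a g + χ g * a h) ∧
      ∀ g, ψ g = PadicInt.toZMod (a g))
    {n0 : G → G → ℤ_[2]} (hn0 : PA.Z2 S χ n0)
    (hnc : ¬ Cob S ⊤ (fun g h => PadicInt.toZMod (n0 g h)))
    (one : ∀ f, Coc S ⊤ f → Cob S ⊤ f ∨ Cob S ⊤ (fun g h => f g h + PadicInt.toZMod (n0 g h)))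
    (nondeg : ∀ ψ ∈ homs S ⊤, ψ ≠ 0 → ∃ φ ∈ homs S ⊤, ¬ Cob S ⊤ (fun g h => ψ g * φ h)) :
    ∃ inv : (G → G → A0) → A0, LocH S χ inv ∧ (∀ t : A0, inv (fun g h => n0 g h • t) = t) ∧
      ∀ f, Z2 S (tw χ) f → inv f = 0 → B2 S (tw χ) f := by
  classical
  -- representations
  have ex : ∀ f, Z2 S (tw χ) f → ∃ (t : A0) (z : G → A0), Sm1 S z ∧
      ∀ g h, f g h = n0 g h • t + d1 (tw χ) z g h := by
    intro f hf'
    have hfin := h1_sm2_fin hf'.1
    have : Finite (Set.range fun p : G × G => f p.1 p.2) := hfin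
    obtain ⟨k, hk, -⟩ := a0_killed (fun t : Set.range (fun p : G × G => f p.1 p.2) => (t : A0))
    exact h1_span hχ hn0 one k f hf' fun g h => hk ⟨_, (g, h), rfl⟩
  -- uniqueness
  have uq0 : ∀ (t : A0) (z : G → A0), Sm1 S z → (∀ g h, n0 g h • t = d1 (tw χ) z g h) → t = 0 := by
    intro t z hz h1
    by_contra ht
    have hex : ∃ k, (2 ^ k) • t = 0 := a0_tors t
    have hmin := Nat.find_spec hex
    have hpos : Nat.find hex ≠ 0 := by
      intro h0
      rw [h0, pow_zero, one_smul] at hmin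
      exact ht hmin
    obtain ⟨k, hk⟩ := Nat.exists_eq_succ_of_ne_zero hpos
    have hne : (2 ^ k) • t ≠ 0 := Nat.find_min hex (by omega)
    have h2 : (2 ^ k) • t + (2 ^ k) • t = 0 := by
      rw [← add_smul]
      rw [hk, Nat.succ_eq_add_one, pow_succ, mul_two] at hmin
      exact hmin
    obtain ⟨a, ha⟩ := eq_hf h2
    have ha1 : a = 1 := by
      rcases h1_zmod a with rfl | rfl
      · rw [hf_zero] at ha
        exact absurd ha hne
      · rfl
    rw [ha1, hf_one] at ha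
    refine hnc (h1_cob hχ lift (z := fun g => (2 ^ k) • z g) (h1_op1 hz _) fun g h => ?_)
    rw [h1_d1_nsmul, ← h1, smul_comm, ha, h1_half]
  have uq : ∀ (t t' : A0) (z z' : G → A0), Sm1 S z → Sm1 S z' →
      (∀ g h, n0 g h • t + d1 (tw χ) z g h = n0 g h • t' + d1 (tw χ) z' g h) → t = t' := by
    intro t t' z z' hz hz' h1
    refine sub_eq_zero.1 (uq0 (t - t') (fun g => z' g - z g) (h1_op hz' hz (fun a b => a - b))
      fun g h => ?_)
    rw [h1_d1_sub, smul_sub]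
    have h2 := h1 g h
    calc n0 g h • t - n0 g h • t' = (n0 g h • t + d1 (tw χ) z g h) - d1 (tw χ) z g h -
          n0 g h • t' := by abel
      _ = _ := by rw [h2]; abel
  let inv : (G → G → A0) → A0 := fun f =>
    if h : ∃ t : A0, ∃ z : G → A0, Sm1 S z ∧ ∀ g h, f g h = n0 g h • t + d1 (tw χ) z g h then
      h.choose else 0
  have hinv : ∀ (f : G → G → A0) (t : A0) (z : G → A0), Sm1 S z →
      (∀ g h, f g h = n0 g h • t + d1 (tw χ) z g h) → inv f = t := by
    intro f t z hz h1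
    have h : ∃ t : A0, ∃ z : G → A0, Sm1 S z ∧ ∀ g h, f g h = n0 g h • t + d1 (tw χ) z g h :=
      ⟨t, z, hz, h1⟩
    show (if h : ∃ t : A0, ∃ z : G → A0, Sm1 S z ∧ ∀ g h, f g h = n0 g h • t + d1 (tw χ) z g h then
      h.choose else 0) = t
    rw [dif_pos h]
    obtain ⟨z', hz', h2⟩ := h.choose_spec
    exact uq _ _ z' z hz' hz fun g k => by rw [← h2, ← h1]
  have hspec : ∀ f, Z2 S (tw χ) f → inv f = 0 → ∃ z : G → A0, Sm1 S z ∧
      ∀ g h, f g h = d1 (tw χ) z g h := by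
    intro f hf' h0
    obtain ⟨t, z, hz, h1⟩ := ex f hf'
    have h2 := hinv f t z hz h1
    rw [h0] at h2
    refine ⟨z, hz, fun g h => ?_⟩
    rw [h1, ← h2, smul_zero, zero_add]
  refine ⟨inv, ⟨hχ, fun f f' h h' => ?_, fun z hz => ?_, hfin, fun ψ hψ h0 => ?_,
    fun f hf' h0 => ?_⟩, fun t => ?_, fun f hf' h0 => ?_⟩
  · obtain ⟨t, z, hz, h1⟩ := ex f h
    obtain ⟨t', z', hz', h1'⟩ := ex f' h'
    rw [hinv f t z hz h1, hinv f' t' z' hz' h1']
    refine hinv _ (t + t') (fun g => z g + z' g) (h1_op hz hz' (fun a b => a + b)) fun g k => ?_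
    rw [h1_d1_add, smul_add, h1, h1']
    abel
  · exact hinv _ 0 z hz fun g h => by rw [smul_zero, zero_add]
  · by_contra hne
    obtain ⟨φ, hφ, hc⟩ := nondeg ψ hψ hne
    apply hc
    have hcoc : Coc S ⊤ (fun g h => ψ g * φ h) := by
      refine ⟨sm2_pair hψ.1 hφ.1 (fun a b => a * b), fun g _ h _ k _ => ?_⟩
      simp only
      rw [hψ.2.2 g trivial h trivial, hφ.2.2 h trivial k trivial]
      ring
    obtain ⟨z, hz, h1⟩ := hspec _ (h1_coc hχ hcoc) (h0 φ hφ)
    exact h1_cob hχ lift hz h1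
  · obtain ⟨z, hz, h1⟩ := hspec _ (h1_coc hχ hf') h0
    exact h1_cob hχ lift hz h1
  · exact hinv _ t (fun _ => 0) (h1_sm0 0) fun g h => by rw [h1_d1_zero, add_zero]
  · obtain ⟨z, hz, h1⟩ := hspec f hf' h0
    exact ⟨z, hz, funext fun g => funext fun h => h1 g h⟩

end Pool.Agent.Work.MP_787500_nt.GP
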