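import Mathlib
import Pool.Agent.Work.MP_787500_nt.GP.K1_Unit
import Pool.Agent.Work.MP_787500_nt.PA.Stab
import Pool.Agent.Work.MP_787500_nt.PA.NoHom
import Pool.Agent.Work.MP_787500_nt.PA.Chain

/-!
# Module S3_VLOC (size M): cocycles at the place `v`

`D = decomp ι`, `C = core K`.
* `v_cof`: `W` with `GoodT K T W`. `D ⊓ C ≤ W`: otherwise the image of `D ⊓ C` in the finite 2-group
  `AbsGal K / W` is a nontrivial 2-group, which has a nonzero homomorphism to `ZMod 2`; its composition with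
  the projection is a continuous homomorphism on `D ⊓ C`: contradiction to `PA.no_hom`. By `PA.stab`
  (`U' = W`) there is a `Good` subgroup `W₀` such that every `d ∈ D ⊓ W₀` is `d₀ u` with `d₀ ∈ D ⊓ C`, `u ∈ W`; so
  `D ⊓ W₀ ≤ W`.
* `v_cob`: let `z` be smooth for the system of `T` with `α g h = z g + z h + z (g h)` on `D ⊓ U`. Let `W` be a member under
  which `z` is invariant, `W₀` as above, contained in `U`, and `α` invariant under `W₀` (in both variables).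
  For `g ∈ U` there is `d ∈ D` with `d⁻¹ g ∈ W₀` (`PA.decomp_mul_good`), `d ∈ U`; put `z' g = z d` (well defined: if
  `d₂` is another one then `d⁻¹ d₂ ∈ D ⊓ W₀ ≤ W`), and 0 outside `U`. `z'` is invariant under `W₀`, and
  `α g h = α d e = z d + z e + z (d e) = z' g + z' h + z' (g h)`: `(d e)⁻¹ g h ∈ W₀` (normal).
-/

set_option autoImplicit false
set_option linter.unusedSectionVars false

namespace Pool.Agent.Work.MP_787500_nt.GP

open IsDedekindDomain NumberField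
open Pool.Agent.Work.MP_787500_nt.PA (TwoSys Sm1 Sm2 homs Coc Cob IsChar goodSys core cyc Opn SU)
open Pool.Agent.Work.MP_787500_nt.Gn (GoodG)

universe u

variable {K : Type u} [Field K] [NumberField K]

private theorem S3_VLoc_le {q : ℕ} {s : K} (hK : IsBase K q s) {v : HeightOneSpectrum (𝓞 K)}
    (hv : (2 : 𝓞 K) ∈ v.asIdeal)
    (ι : AlgebraicClosure K →ₐ[K] AlgebraicClosure (v.adicCompletion K)) {T : Finset ℕ}
    {W : Subgroup (AbsGal K)} (hW : GoodT K T W) : decomp ι ⊓ core K ≤ W := by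
  classical
  intro g₀ hg₀
  by_contra hgW
  have hn : W.Normal := Gn.GoodG.normal hW
  obtain ⟨k, hk⟩ := goodG_index hW
  have hmem : (subSys (decomp ι ⊓ core K)).mem (W.subgroupOf (decomp ι ⊓ core K)) := by
    refine ⟨⟨W, Gn.GoodG.isOpen hW, le_rfl⟩, inferInstance, ?_⟩
    obtain ⟨m, -, hm⟩ := (Nat.dvd_prime_pow Nat.prime_two).1
      (hk ▸ Subgroup.relIndex_dvd_index_of_normal W (decomp ι ⊓ core K))
    exact ⟨m, hm⟩
  obtain ⟨ω, hω, hω0, hωW⟩ := PA.exists_index_two (S := subSys (decomp ι ⊓ core K))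
    (H := W.subgroupOf (decomp ι ⊓ core K)) ⟨_, hmem, le_rfl⟩ (by
      intro h
      have h1 : (⟨g₀, hg₀⟩ : (decomp ι ⊓ core K : Subgroup (AbsGal K))) ∈
          W.subgroupOf (decomp ι ⊓ core K) := by
        rw [h]
        exact Subgroup.mem_top _
      exact hgW h1)
  obtain ⟨μ, hμ⟩ : ∃ μ : AbsGal K → ZMod 2, ∀ (g : AbsGal K) (hg : g ∈ decomp ι ⊓ core K),
      μ g = ω ⟨g, hg⟩ :=
    ⟨fun g => if hg : g ∈ decomp ι ⊓ core K then ω ⟨g, hg⟩ else 0, fun g hg => dif_pos hg⟩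
  apply hω0
  funext ⟨g, hg⟩
  rw [← hμ g hg]
  refine PA.no_hom hK hv ι μ ?_ ⟨W, Gn.GoodG.isOpen hW, ?_⟩ hg
  · intro x hx y hy
    rw [hμ _ (Subgroup.mul_mem _ hx hy), hμ x hx, hμ y hy]
    exact hω.2.2 ⟨x, hx⟩ trivial ⟨y, hy⟩ trivial
  · intro x hx
    rw [hμ x hx.1]
    exact hωW ⟨x, hx.1⟩ hx.2

theorem v_cof {q : ℕ} {s : K} (hK : IsBase K q s) {v : HeightOneSpectrum (𝓞 K)}
    (hv : (2 : 𝓞 K) ∈ v.asIdeal)
    (ι : AlgebraicClosure K →ₐ[K] AlgebraicClosure (v.adicCompletion K)) {T : Finset ℕ}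
    {W : Subgroup (AbsGal K)} (hW : GoodT K T W) :
    ∃ W₀, PA.Good W₀ ∧ decomp ι ⊓ W₀ ≤ W := by
  obtain ⟨W₀, hW₀, h⟩ := PA.stab ι (Gn.GoodG.isOpen hW)
  refine ⟨W₀, hW₀, fun d hd => ?_⟩
  obtain ⟨d₀, hd₀, h1⟩ := h d hd
  have h2 := W.mul_mem (S3_VLoc_le hK hv ι hW hd₀) h1
  rwa [mul_inv_cancel_left] at h2

theorem v_cob {q : ℕ} {s : K} (hK : IsBase K q s) {v : HeightOneSpectrum (𝓞 K)}
    (hv : (2 : 𝓞 K) ∈ v.asIdeal)
    (ι : AlgebraicClosure K →ₐ[K] AlgebraicClosure (v.adicCompletion K)) {T : Finset ℕ}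
    {U : Subgroup (AbsGal K)} (hU : Opn (goodSys K) U) {α : AbsGal K → AbsGal K → ZMod 2}
    (hα : Coc (goodSys K) U α) (h : Cob (sysT K T) (decomp ι ⊓ U) α) : Cob (goodSys K) U α := by
  classical
  obtain ⟨z, ⟨W, hW, hzW⟩, hz⟩ := h
  obtain ⟨W₁, hW₁, hDW⟩ := v_cof hK hv ι (T := T) hW
  obtain ⟨WU, hWU, hWUU⟩ := hU
  obtain ⟨⟨Wα, hWα, hαW⟩, -⟩ := hα
  have hW₀ : PA.Good (W₁ ⊓ WU ⊓ Wα) := (hW₁.inf hWU).inf hWα
  have hn : (W₁ ⊓ WU ⊓ Wα).Normal := hW₀.normal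
  have hW₀U : W₁ ⊓ WU ⊓ Wα ≤ U := fun x hx => hWUU hx.1.2
  choose d hdD hdW using fun g : AbsGal K => PA.decomp_mul_good hK hv ι hW₀ g
  have hdU : ∀ g ∈ U, d g ∈ U := by
    intro g hg
    have h1 := U.mul_mem hg (U.inv_mem (hW₀U (hdW g)))
    have h2 : g * ((d g)⁻¹ * g)⁻¹ = d g := by group
    rwa [h2] at h1
  have hzz : ∀ x ∈ decomp ι, ∀ y ∈ decomp ι, x⁻¹ * y ∈ W₁ ⊓ WU ⊓ Wα → z y = z x := by
    intro x hx y hy hxy
    have h1 : x⁻¹ * y ∈ W := hDW ⟨(decomp ι).mul_mem ((decomp ι).inv_mem hx) hy, hxy.1.1⟩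
    have h2 := hzW x _ h1
    rwa [mul_inv_cancel_left] at h2
  refine ⟨fun g => if g ∈ U then z (d g) else 0, ⟨W₁ ⊓ WU ⊓ Wα, hW₀, fun g w hw => ?_⟩, ?_⟩
  · have h1 : g * w ∈ U ↔ g ∈ U := Subgroup.mul_mem_cancel_right U (hW₀U hw)
    simp only [h1]
    by_cases hg : g ∈ U
    · rw [if_pos hg, if_pos hg]
      refine hzz _ (hdD g) _ (hdD _) ?_
      have h2 := Subgroup.mul_mem _ (Subgroup.mul_mem _ (hdW g) hw) (Subgroup.inv_mem _ (hdW (g * w)))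
      have h3 : (d g)⁻¹ * g * w * ((d (g * w))⁻¹ * (g * w))⁻¹ = (d g)⁻¹ * d (g * w) := by group
      rwa [h3] at h2
    · rw [if_neg hg, if_neg hg]
  · intro g hg k hk
    have hgk := U.mul_mem hg hk
    simp only [if_pos hg, if_pos hk, if_pos hgk]
    have h1 : α g k = α (d g) (d k) := by
      have h2 := hαW (d g) (d k) _ (hdW g).2 _ (hdW k).2
      rwa [mul_inv_cancel_left, mul_inv_cancel_left] at h2
    rw [h1, hz _ ⟨hdD g, hdU g hg⟩ _ ⟨hdD k, hdU k hk⟩]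
    congr 1
    refine hzz _ (hdD _) _ ((decomp ι).mul_mem (hdD g) (hdD k)) ?_
    have h3 := Subgroup.mul_mem _ (hdW (g * k)) (Subgroup.inv_mem _ (Subgroup.mul_mem _
      (hn.conj_mem _ (hdW g) (d k)⁻¹) (hdW k)))
    have h4 : (d (g * k))⁻¹ * (g * k) * ((d k)⁻¹ * ((d g)⁻¹ * g) * (d k)⁻¹⁻¹ * ((d k)⁻¹ * k))⁻¹ =
        (d (g * k))⁻¹ * (d g * d k) := by group
    rwa [h4] at h3

/-- no homomorphisms for the system of `T` -/
theorem v_nohom {q : ℕ} {s : K} (hK : IsBase K q s) {v : HeightOneSpectrum (𝓞 K)}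
    (hv : (2 : 𝓞 K) ∈ v.asIdeal)
    (ι : AlgebraicClosure K →ₐ[K] AlgebraicClosure (v.adicCompletion K)) {T : Finset ℕ}
    (μ : AbsGal K → ZMod 2)
    (hmul : ∀ g ∈ decomp ι ⊓ coreT K T, ∀ h ∈ decomp ι ⊓ coreT K T, μ (g * h) = μ g + μ h)
    (hcont : ∃ U' : Subgroup (AbsGal K), IsOpen (U' : Set (AbsGal K)) ∧
      ∀ g ∈ decomp ι ⊓ coreT K T ⊓ U', μ g = 0) {g : AbsGal K} (hg : g ∈ decomp ι ⊓ coreT K T) :
    μ g = 0 := by
  have h1 : decomp ι ⊓ core K ≤ coreT K T := by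
    intro x hx
    show x ∈ sInf {W | GoodG 2 ⊤ (inT K T) W}
    rw [Subgroup.mem_sInf]
    intro W hW
    exact S3_VLoc_le hK hv ι hW hx
  have h2 : coreT K T ≤ core K := by
    intro x hx
    rw [core, Subgroup.mem_sInf]
    intro W hW
    exact Gn.core_le (Good.goodT hW T) hx
  have h3 : decomp ι ⊓ core K ≤ decomp ι ⊓ coreT K T := le_inf inf_le_left h1
  refine PA.no_hom hK hv ι μ (fun x hx y hy => hmul x (h3 hx) y (h3 hy)) ?_ ⟨hg.1, h2 hg.2⟩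
  obtain ⟨U', hU', h4⟩ := hcont
  exact ⟨U', hU', fun x hx => h4 x ⟨h3 hx.1, hx.2⟩⟩

end Pool.Agent.Work.MP_787500_nt.GP
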