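import Mathlib
import Pool.Agent.Work.MP_787500_nt.GP.B1_Lift
import Pool.Agent.Work.MP_787500_nt.GP.B0_Smul
import Pool.Agent.Work.MP_787500_nt.GP.H1_LocData
import Pool.Agent.Work.MP_787500_nt.GP.H2_Transfer
import Pool.Agent.Work.MP_787500_nt.GP.S3_VLoc
import Pool.Agent.Work.MP_787500_nt.PA.Climb

/-!
# Module B1_INVV (size M): the invariant map at the place above 2

`S = goodSys K`, `ψ g = lam (cyc g)`, `ψ₂` its reduction modulo 2, `ψ₂ ≠ 0` (`psi2_mem`, `psi2_ne`). `localType (countsK hK)`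
gives `ω ∈ homs S ⊤` with `¬ Cob S ⊤ (cup ψ₂ ω)`, so `¬ Cob S ⊤ (cup ω ψ₂)` (`cup ψ ω + cup ω ψ` is the coboundary of
`g ↦ ψ g ω g`). Lift `ω` to `a` (`lift_good`). `n0 g h = a g * ψ h` is in `PA.Z2 S cyc` (`z2_cup`). `locH_of_data`: `hfin` and
the dimension 3 from `countsK` (`U = ⊤`, index 1); `lift` from `lift_good`; `hnc`, `one`, `nondeg` from `localType`. This
gives `inv₀` with `inv₀ (n0 • t) = t`. Transfer to `D = decomp ι` by `locH_transfer` with `φ = D.subtype`: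
`h₁`: a `Good` subgroup is `GoodT` (`Good.goodT`); `h₂`: `v_cof` (`W₀ ⊓ D ≤ W`); `h₃`: `PA.decomp_mul_good`.
`inv' (f|D) = inv₀ f` for `f = n0 • t` gives `HasV lam inv a 1` (`1 • t = t`).
-/

set_option linter.unusedSectionVars false

namespace Pool.Agent.Work.MP_787500_nt.GP

open IsDedekindDomain NumberField
open Pool.Agent.Work.MP_787500_nt.PA (TwoSys Sm1 Sm2 homs Coc Cob IsChar goodSys core cyc Opn SU)
open Pool.Agent.Work.MP_787500_nt.Gn (GoodG)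

universe u

variable {K : Type u} [Field K] [NumberField K]

private theorem invV_coc {G : Type*} [Group G] {S : TwoSys G} {ω ψ : G → ZMod 2}
    (hω : ω ∈ homs S ⊤) (hψ : ψ ∈ homs S ⊤) : Coc S ⊤ (fun g h => ω g * ψ h) := by
  refine ⟨?_, fun g _ h _ k _ => ?_⟩
  · obtain ⟨W, hW, h1⟩ := hω.1
    obtain ⟨W', hW', h1'⟩ := hψ.1
    refine ⟨W ⊓ W', S.inf hW hW', fun g h w hw w' hw' => ?_⟩
    show ω (g * w) * ψ (h * w') = ω g * ψ h
    rw [h1 g w hw.1, h1' h w' hw'.2]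
  · have e1 : ω (g * h) = ω g + ω h := hω.2.2 g trivial h trivial
    have e2 : ψ (h * k) = ψ h + ψ k := hψ.2.2 h trivial k trivial
    show ω g * ψ h + ω (g * h) * ψ k = ω h * ψ k + ω g * ψ (h * k)
    rw [e1, e2]
    ring

private theorem invV_swap {G : Type*} [Group G] {S : TwoSys G} {ω ψ : G → ZMod 2}
    (hω : ω ∈ homs S ⊤) (hψ : ψ ∈ homs S ⊤) (h : Cob S ⊤ (fun g h => ω g * ψ h)) :
    Cob S ⊤ (PA.cup ψ ω) := by
  obtain ⟨z, hz, hz2⟩ := h
  refine ⟨fun g => z g + ψ g * ω g, ?_, fun g hg h hh => ?_⟩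
  · obtain ⟨W, hW, h1⟩ := hω.1
    obtain ⟨W', hW', h1'⟩ := hψ.1
    obtain ⟨W'', hW'', h1''⟩ := hz
    refine ⟨(W ⊓ W') ⊓ W'', S.inf (S.inf hW hW') hW'', fun g w hw => ?_⟩
    show z (g * w) + ψ (g * w) * ω (g * w) = z g + ψ g * ω g
    rw [h1 g w hw.1.1, h1' g w hw.1.2, h1'' g w hw.2]
  · have e1 : ω (g * h) = ω g + ω h := hω.2.2 g trivial h trivial
    have e2 : ψ (g * h) = ψ g + ψ h := hψ.2.2 g trivial h trivial
    have e3 : ω g * ψ h = z g + z h + z (g * h) := hz2 g hg h hh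
    show ψ g * ω h = z g + ψ g * ω g + (z h + ψ h * ω h) + (z (g * h) + ψ (g * h) * ω (g * h))
    rw [e1, e2]
    have h2 : ∀ x : ZMod 2, x + x = 0 := by decide
    have h3 := h2 (ψ g * ω g)
    have h4 := h2 (ψ h * ω h)
    have h5 := h2 (ω g * ψ h)
    linear_combination e3 - h3 - h4 - h5

private theorem invV_hj {T : Finset ℕ} {D : Subgroup (AbsGal K)} (W : Subgroup (AbsGal K))
    (hW : (goodSys K).mem W) : ∃ W', (sysD K T D).mem W' ∧ ∀ w ∈ W', D.subtype w ∈ W :=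
  ⟨W.subgroupOf D, ⟨W, Good.goodT hW T, rfl⟩, fun _ hw => hw⟩

theorem exists_invV {q : ℕ} {s : K} (hK : IsBase K q s) {v : HeightOneSpectrum (𝓞 K)}
    (hv : (2 : 𝓞 K) ∈ v.asIdeal)
    (ι : AlgebraicClosure K →ₐ[K] AlgebraicClosure (v.adicCompletion K)) (T : Finset ℕ)
    {lam : ℤ_[2] → ℤ_[2]} (hlam : IsLam lam) :
    ∃ (r : ℕ → AlgebraicClosure K) (a : AbsGal K → ℤ_[2])
      (inv : (decomp ι → decomp ι → A0) → A0), IsKum r a ∧ SU (r 0) ∧
      LocH (sysD K T (decomp ι)) (fun d => cyc (d : AbsGal K)) inv ∧ HasV lam inv a 1 ∧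
      Module.finrank (ZMod 2) (homs (sysD K T (decomp ι)) ⊤) = 3 := by
  have hS := PA.countsK hK
  have hL := PA.localType hS
  have hO : Opn (goodSys K) ⊤ := ⟨(goodSys K).ex.choose, (goodSys K).ex.choose_spec, le_top⟩
  have hψ := psi2_mem (K := K) hlam
  set ψ : AbsGal K → ZMod 2 := fun g => PadicInt.toZMod (lam (cyc g)) with hψd
  have hψ0 : ψ ≠ 0 := by
    obtain ⟨g, hg⟩ := psi2_ne hK hlam
    exact fun h => hg (congrFun h g)
  obtain ⟨ω, hω, hωn⟩ := hL.nondeg ψ hψ hψ0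
  obtain ⟨r, a, hr, hsu, ha, hωa⟩ := lift_good hK hω
  have hn0 : PA.Z2 (goodSys K) cyc (fun g h => a g * lam (cyc h)) :=
    z2_cup PA.isChar_cyc ha hr.coc (psi_c1 hlam) (psi_mul hlam)
  have hred : (fun g h : AbsGal K => (PadicInt.toZMod (a g * lam (cyc h)) : ZMod 2)) =
      fun g h => ω g * ψ h := by
    funext g h
    rw [map_mul, ← hωa g]
  have hnc : ¬ Cob (goodSys K) ⊤
      (fun g h : AbsGal K => (PadicInt.toZMod (a g * lam (cyc h)) : ZMod 2)) := by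
    rw [hred]
    exact fun h => hωn (invV_swap hω hψ h)
  have hcc : Coc (goodSys K) ⊤
      (fun g h : AbsGal K => (PadicInt.toZMod (a g * lam (cyc h)) : ZMod 2)) := by
    rw [hred]
    exact invV_coc hω hψ
  obtain ⟨inv0, hloc0, hval, -⟩ := locH_of_data (S := goodSys K) PA.isChar_cyc (hS ⊤ hO).1
    (fun ψ' hψ' => by
      obtain ⟨r', a', hr', -, ha', hψa'⟩ := lift_good hK hψ'
      exact ⟨a', ha', hr'.coc, hψa'⟩) hn0 hnc
    (fun f hf => by
      by_cases h : Cob (goodSys K) ⊤ f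
      · exact Or.inl h
      · exact Or.inr (hL.one f _ hf hcc h hnc))
    (fun ψ' hψ' h0 => hL.nondeg ψ' hψ' h0)
  obtain ⟨inv', hloc', hres, -, hfr⟩ := locH_transfer (S := goodSys K)
    (SD := sysD K T (decomp ι)) (decomp ι).subtype (invV_hj (T := T) (D := decomp ι))
    (by
      rintro _ ⟨W, hW, rfl⟩
      obtain ⟨W₀, hW₀, h⟩ := v_cof hK hv ι hW
      exact ⟨W₀, hW₀, fun d hd => h ⟨d.2, hd⟩⟩)
    (by
      intro W hW g
      obtain ⟨d, hd, h⟩ := PA.decomp_mul_good hK hv ι hW g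
      exact ⟨⟨d, hd⟩, h⟩) hloc0
  refine ⟨r, a, inv', hr, hsu, hloc', fun t => ?_, ?_⟩
  · have h1 := hres (fun g h => (a g * lam (cyc h)) • t) (z2_smul hn0 t).1
    rw [one_smul]
    exact h1.trans (hval t)
  · rw [hfr, (hS ⊤ hO).2, Subgroup.index_top]

end Pool.Agent.Work.MP_787500_nt.GP
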