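import Mathlib
import Pool.Agent.Work.MP_787500_nt.GP.B0_Smul
import Pool.Agent.Work.MP_787500_nt.GP.K1_Unit
import Pool.Agent.Work.MP_787500_nt.PA.Inv

/-!
# Module B1_SYM (size S-M): the invariant at the place above 2 does not change under `κ`

* `kap_b2`: proof given (it is part of the proof of `PA.exists_inv`).
* `inv_sym`: let `k` be as in `kap_b2`, `2 ^ k • t' = t` (`a0_div_pow`). The cocycle
  `(F (κ d) (κ e) - F d e) • t = (2 ^ k * (F (κ d) (κ e) - F d e)) • t'` is the restriction to `D` of an element of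
  `B2 (goodSys K) (tw cyc)` (`b2_smul`), so it is in `B2 (sysD K T D)` (a `Good` subgroup is `GoodT`). Now `LocH.congr`. `F • t` and
  `(F ∘ κ) • t` are cocycles for `goodSys K` (`z2_smul`; `F ∘ κ`: `PA.isInvol`, its field `sys`), restrict them to `D`.
-/

set_option linter.unusedSectionVars false

namespace Pool.Agent.Work.MP_787500_nt.GP

open IsDedekindDomain NumberField
open Pool.Agent.Work.MP_787500_nt.PA (TwoSys Sm1 Sm2 homs Coc Cob IsChar goodSys core cyc Opn SU)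
open Pool.Agent.Work.MP_787500_nt.Gn (GoodG)

universe u

variable {K : Type u} [Field K] [NumberField K]

theorem kap_b2 {q : ℕ} {s : K} (hK : IsBase K q s)
    {c : AlgebraicClosure K ≃+* AlgebraicClosure K} (hc : PA.IsConj s c)
    {κ : AbsGal K → AbsGal K}
    (hκ : ∀ (σ : AbsGal K) (x : AlgebraicClosure K), κ σ x = c (σ (c x)))
    {F : AbsGal K → AbsGal K → ℤ_[2]} (hF : PA.Z2 (goodSys K) cyc F) :
    ∃ k : ℕ, PA.B2 (goodSys K) cyc (fun g h => 2 ^ k * (F (κ g) (κ h) - F g h)) := by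
  have hS := PA.countsK hK
  have hL := PA.localType hS
  have hχ := PA.isChar_cyc (K := K)
  obtain ⟨X, hX⟩ := PA.exists_gens (S := goodSys K)
    (hS ⊤ ⟨(goodSys K).ex.choose, (goodSys K).ex.choose_spec, le_top⟩).1
  obtain ⟨n0, hn0, hcyc, htriv⟩ := PA.cyclic hL hχ hX
  exact PA.sign hL hχ (PA.isInvol hc.sq hκ) hn0 hcyc htriv (PA.exists_k0 hK hc hκ) (PA.injI hK) hF

private theorem sym_hj {T : Finset ℕ} {D : Subgroup (AbsGal K)} (W : Subgroup (AbsGal K))
    (hW : (goodSys K).mem W) : ∃ W', (sysD K T D).mem W' ∧ ∀ w ∈ W', D.subtype w ∈ W :=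
  ⟨W.subgroupOf D, ⟨W, Good.goodT hW T, rfl⟩, fun _ hw => hw⟩

theorem inv_sym {q : ℕ} {s : K} (hK : IsBase K q s)
    {c : AlgebraicClosure K ≃+* AlgebraicClosure K} (hc : PA.IsConj s c)
    {κ : AbsGal K → AbsGal K}
    (hκ : ∀ (σ : AbsGal K) (x : AlgebraicClosure K), κ σ x = c (σ (c x)))
    {T : Finset ℕ} {D : Subgroup (AbsGal K)} {inv : (D → D → A0) → A0}
    (L : LocH (sysD K T D) (fun d => cyc (d : AbsGal K)) inv)
    {F : AbsGal K → AbsGal K → ℤ_[2]} (hF : PA.Z2 (goodSys K) cyc F) (t : A0) :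
    inv (fun d e => F (κ d) (κ e) • t) = inv (fun d e => F d e • t) := by
  have hI := PA.isInvol hc.sq hκ
  have hFk : PA.Z2 (goodSys K) cyc (fun g h => F (κ g) (κ h)) := by
    refine ⟨fun n => ?_, fun g h k => ?_⟩
    · obtain ⟨W, hW, h1⟩ := hF.1 n
      obtain ⟨W', hW', h2⟩ := hI.sys W hW
      refine ⟨W', hW', fun g h w hw w' hw' => ?_⟩
      show (2 : ℤ_[2]) ^ n ∣ F (κ (g * w)) (κ (h * w')) - F (κ g) (κ h)
      rw [hI.mul, hI.mul]
      exact h1 _ _ _ (h2 w hw) _ (h2 w' hw')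
    · have := hF.2 (κ g) (κ h) (κ k)
      rw [hI.chi] at this
      show F (κ g) (κ h) + F (κ (g * h)) (κ k) = cyc g * F (κ h) (κ k) + F (κ g) (κ (h * k))
      rw [hI.mul, hI.mul]
      exact this
  obtain ⟨k, hk⟩ := kap_b2 hK hc hκ hF
  obtain ⟨t', ht'⟩ := a0_div_pow k t
  have ht2 : ((2 : ℤ_[2]) ^ k) • t' = t := by
    rw [← ht', ← Nat.cast_smul_eq_nsmul ℤ_[2]]
    push_cast
    rfl
  have hb := b2_smul hk t'
  have h1 : Z2 (sysD K T D) (tw fun d => cyc (d : AbsGal K))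
      (fun d e => F (κ d) (κ e) • t) :=
    (z2_smul hFk t).comp (j := D.subtype) (sym_hj (T := T) (D := D))
  have h2 : Z2 (sysD K T D) (tw fun d => cyc (d : AbsGal K)) (fun d e => F d e • t) :=
    (z2_smul hF t).comp (j := D.subtype) (sym_hj (T := T) (D := D))
  refine L.congr h1 h2 ?_
  obtain ⟨x, hx, hx2⟩ := hb
  refine ⟨fun d => x d, Sm1.comp (j := D.subtype) (sym_hj (T := T) (D := D)) hx, ?_⟩
  funext d e
  have h3 := congrFun (congrFun hx2 (d : AbsGal K)) (e : AbsGal K)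
  simp only [d1, tw] at h3 ⊢
  rw [mul_comm, mul_smul, ht2, sub_smul] at h3
  rw [h3]
  simp

end Pool.Agent.Work.MP_787500_nt.GP
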