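import Mathlib
import Pool.Agent.Work.MP_787500_nt.GP.B0_Psi
import Pool.Agent.Work.MP_787500_nt.GP.B0_Smul
import Pool.Agent.Work.MP_787500_nt.GP.B1_Lift
import Pool.Agent.Work.MP_787500_nt.PA.Stab
import Pool.Agent.Work.MP_787500_nt.PA.NoHom

/-!
# Module B2_VEX (size M): the values at the place above 2

`D = decomp ι`, `C = core K`.
* `kum_c1D`: fix `n`. The subgroup `U'` of all `w` that fix `r n` and `zt K n`: open, and its normal core is open;
  for `w` in it `a (g w) ≡ a g` modulo `2 ^ n`: `zp K n (a (g w)) r n = g w (r n) = g (r n)`. On `D ⊓ C` `cyc = 1`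
  (`PA.cyc_core`), so `a` is additive. Claim: `2 ^ n ∣ a` on `D ⊓ C`: otherwise let `m < n` be maximal with `2 ^ m ∣ a` on
  `D ⊓ C`; `g ↦ a g / 2 ^ m` modulo 2 is a continuous homomorphism on `D ⊓ C`, nonzero: contradiction to `PA.no_hom`.
  By `PA.stab` for `U'` there is a `Good` subgroup `W` such that every `d ∈ D ⊓ W` is `d₀ u` with `d₀ ∈ D ⊓ C`, `u ∈ U'`; so
  `a (d' d) ≡ a (d' d₀) = a d' + cyc d' * a d₀ ≡ a d'` modulo `2 ^ n`. (`W` is `GoodT`.)
* `kumV_z2`: `z2_cup` for `sysD K T D`, with `c1_comp` for `ψ` (`psi_c1`), then `z2_smul`.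
* `hasV_ex`: `t ↦ inv ((a ∪ ψ) • t)` is additive (`LocH.add`), `end_A0`. `hasV_uniq`: `smul_inj`.
* `hasV_add`, `hasV_neg`, `hasV_nsmul`: `LocH.add`, `LocH.neg_map`.
* `hasV_uniqK`: two Kummer cocycles of the same element: `a' = a + (cyc - 1) m` (`IsKum.uniq`), and
  `(cyc d - 1) m ψ e = dd (m ψ) d e` (`ψ (d e) = ψ d + ψ e`), so the difference of the cocycles is in `B2`.
* `hasV_one`: the constant sequence 1 with `a = 0` is `IsKum`. `hasV_negOne`: `2 V(-1) = V(1) = 0` and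
  `ℤ_[2]` has no torsion.
-/

set_option autoImplicit false
set_option linter.unusedSectionVars false

namespace Pool.Agent.Work.MP_787500_nt.GP

open IsDedekindDomain NumberField
open Pool.Agent.Work.MP_787500_nt.PA (TwoSys Sm1 Sm2 homs Coc Cob IsChar goodSys core cyc Opn SU)
open Pool.Agent.Work.MP_787500_nt.Gn (GoodG)

universe u

variable {K : Type u} [Field K] [NumberField K]

private theorem ve_ker {k : ℕ} {a : ℤ_[2]} : PadicInt.toZModPow k a = 0 ↔ (2 : ℤ_[2]) ^ k ∣ a := by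
  rw [← RingHom.mem_ker, PadicInt.ker_toZModPow, Ideal.mem_span_singleton]
  push_cast
  rfl

private theorem ve_zmod (x : ℤ_[2]) : PadicInt.toZMod x = (0 : ZMod 2) ↔ (2 : ℤ_[2]) ∣ x := by
  rw [← RingHom.mem_ker, PadicInt.ker_toZMod, PadicInt.maximalIdeal_eq_span_p,
    Ideal.mem_span_singleton]
  push_cast
  rfl

private theorem ve_zp_ne (k : ℕ) (a : ℤ_[2]) : zp K k a ≠ 0 := by
  intro h
  have h1 : zp K k (a + -a) = zp K k a * zp K k (-a) := zp_add k a (-a)
  rw [h, zero_mul, add_neg_cancel, zp_eq_one.2 (dvd_zero _)] at h1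
  exact one_ne_zero h1

private theorem ve_zp_inj {k : ℕ} {a b : ℤ_[2]} (h : zp K k a = zp K k b) :
    (2 : ℤ_[2]) ^ k ∣ a - b := by
  rw [← zp_eq_one (K := K)]
  have h1 : zp K k (a - b) * zp K k b = zp K k a := by rw [← zp_add, sub_add_cancel]
  rw [h] at h1
  exact mul_right_cancel₀ (ve_zp_ne k b) (by rw [h1, one_mul])

private theorem ve_ne {r : ℕ → AlgebraicClosure K} {a : AbsGal K → ℤ_[2]} (h : IsKum r a) (k : ℕ) :
    r k ≠ 0 := by
  induction k with
  | zero => exact h.ne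
  | succ k ih =>
    intro h0
    have h1 := h.sq k
    rw [h0, zero_pow two_ne_zero] at h1
    exact ih h1.symm

private theorem ve_dvd {r : ℕ → AlgebraicClosure K} {a : AbsGal K → ℤ_[2]} (h : IsKum r a)
    {g g' : AbsGal K} {n : ℕ} (hg : g (r n) = g' (r n)) : (2 : ℤ_[2]) ^ n ∣ a g - a g' := by
  rw [h.act, h.act] at hg
  exact ve_zp_inj (mul_right_cancel₀ (ve_ne h n) hg)

private theorem ve_one {r : ℕ → AlgebraicClosure K} {a : AbsGal K → ℤ_[2]} (h : IsKum r a) :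
    a 1 = 0 := by
  have h1 := h.coc 1 1
  rw [mul_one, (PA.isChar_cyc (K := K)).one, one_mul] at h1
  exact left_eq_add.1 h1

/-- `a` vanishes on the intersection of the decomposition group and the core -/
private theorem ve_core {q : ℕ} {s : K} (hK : IsBase K q s) {v : HeightOneSpectrum (𝓞 K)}
    (hv : (2 : 𝓞 K) ∈ v.asIdeal)
    (ι : AlgebraicClosure K →ₐ[K] AlgebraicClosure (v.adicCompletion K))
    {r : ℕ → AlgebraicClosure K} {a : AbsGal K → ℤ_[2]} (h : IsKum r a) (m : ℕ) :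
    ∀ g ∈ decomp ι ⊓ core K, (2 : ℤ_[2]) ^ m ∣ a g := by
  classical
  induction m with
  | zero => intro g _; simp
  | succ m ih =>
    choose! b hb using ih
    have hadd : ∀ g ∈ decomp ι ⊓ core K, ∀ k ∈ decomp ι ⊓ core K, b (g * k) = b g + b k := by
      intro g hg k hk
      have h1 := h.coc g k
      rw [PA.cyc_core hg.2, one_mul, hb _ (Subgroup.mul_mem _ hg hk), hb g hg, hb k hk,
        ← mul_add] at h1
      exact mul_left_cancel₀ (pow_ne_zero _ two_ne_zero) h1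
    intro g hg
    have h0 := PA.no_hom hK hv ι (fun g => (PadicInt.toZMod (b g) : ZMod 2))
      (fun g hg k hk => by
        show (PadicInt.toZMod (b (g * k)) : ZMod 2) = _
        rw [hadd g hg k hk, map_add])
      ⟨MulAction.stabilizer (AbsGal K) (r (m + 1)), stabilizer_isOpen_of_isIntegral _,
        fun k hk => by
          have hk2 : k (r (m + 1)) = (1 : AbsGal K) (r (m + 1)) := hk.2
          have h1 := ve_dvd h hk2
          rw [ve_one h, sub_zero, hb k hk.1, pow_succ] at h1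
          exact (ve_zmod _).2 ((mul_dvd_mul_iff_left (pow_ne_zero _ two_ne_zero)).1 h1)⟩ hg
    rw [hb g hg, pow_succ]
    exact mul_dvd_mul_left _ ((ve_zmod _).1 h0)

private theorem ve_char (T : Finset ℕ) (D : Subgroup (AbsGal K)) :
    IsChar (sysD K T D) (fun d => cyc (d : AbsGal K)) := by
  have h := PA.isChar_cyc (K := K)
  refine ⟨h.one, fun g k => h.mul g k, ?_, fun g => h.odd g⟩
  intro n
  obtain ⟨W, hW, hw⟩ := h.cont n
  exact ⟨W.subgroupOf D, ⟨W, Good.goodT hW T, rfl⟩, fun g w hwW =>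
    hw g w (Subgroup.mem_subgroupOf.1 hwW)⟩

private theorem ve_psi (T : Finset ℕ) (D : Subgroup (AbsGal K)) {lam : ℤ_[2] → ℤ_[2]}
    (hlam : IsLam lam) : PA.C1 (sysD K T D) (fun d => lam (cyc (d : AbsGal K))) := by
  intro n
  obtain ⟨W, hW, hw⟩ := psi_c1 (K := K) hlam n
  exact ⟨W.subgroupOf D, ⟨W, Good.goodT hW T, rfl⟩, fun g w hwW =>
    hw g w (Subgroup.mem_subgroupOf.1 hwW)⟩

theorem kum_c1D {q : ℕ} {s : K} (hK : IsBase K q s) {v : HeightOneSpectrum (𝓞 K)}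
    (hv : (2 : 𝓞 K) ∈ v.asIdeal)
    (ι : AlgebraicClosure K →ₐ[K] AlgebraicClosure (v.adicCompletion K)) (T : Finset ℕ)
    {r : ℕ → AlgebraicClosure K} {a : AbsGal K → ℤ_[2]} (h : IsKum r a) :
    PA.C1 (sysD K T (decomp ι)) (fun d => a (d : AbsGal K)) := by
  intro n
  obtain ⟨W, hW, hw⟩ := PA.stab ι (U' := MulAction.stabilizer (AbsGal K) (r n))
    (stabilizer_isOpen_of_isIntegral _)
  refine ⟨W.subgroupOf (decomp ι), ⟨W, Good.goodT hW T, rfl⟩, fun g w hwW => ?_⟩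
  obtain ⟨d₀, hd₀, hu⟩ := hw (w : AbsGal K) ⟨w.2, Subgroup.mem_subgroupOf.1 hwW⟩
  have hu' : (d₀⁻¹ * (w : AbsGal K)) (r n) = r n := hu
  have hw' : (w : AbsGal K) (r n) = d₀ (r n) := by
    conv_rhs => rw [← hu']
    show (w : AbsGal K) (r n) = (d₀ * (d₀⁻¹ * (w : AbsGal K))) (r n)
    rw [mul_inv_cancel_left]
  have h1 : ((g : AbsGal K) * (w : AbsGal K)) (r n) = ((g : AbsGal K) * d₀) (r n) := by
    show (g : AbsGal K) ((w : AbsGal K) (r n)) = (g : AbsGal K) (d₀ (r n))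
    rw [hw']
  have h2 := ve_dvd h h1
  have h3 := h.coc (g : AbsGal K) d₀
  have h4 := ve_core hK hv ι h n d₀ hd₀
  show (2 : ℤ_[2]) ^ n ∣ a ((g : AbsGal K) * (w : AbsGal K)) - a (g : AbsGal K)
  have h5 : a ((g : AbsGal K) * (w : AbsGal K)) - a (g : AbsGal K) =
      (a ((g : AbsGal K) * (w : AbsGal K)) - a ((g : AbsGal K) * d₀)) + cyc (g : AbsGal K) * a d₀ := by
    rw [h3]
    ring
  rw [h5]
  exact dvd_add h2 (h4.mul_left _)

theorem kumV_z2 {q : ℕ} {s : K} (hK : IsBase K q s) {v : HeightOneSpectrum (𝓞 K)}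
    (hv : (2 : 𝓞 K) ∈ v.asIdeal)
    (ι : AlgebraicClosure K →ₐ[K] AlgebraicClosure (v.adicCompletion K)) (T : Finset ℕ)
    {lam : ℤ_[2] → ℤ_[2]} (hlam : IsLam lam)
    {r : ℕ → AlgebraicClosure K} {a : AbsGal K → ℤ_[2]} (h : IsKum r a) (t : A0) :
    Z2 (sysD K T (decomp ι)) (tw fun d => cyc (d : AbsGal K))
      (fun d e => (a (d : AbsGal K) * lam (cyc (e : AbsGal K))) • t) := by
  have h1 : ∀ g k : decomp ι, a ((g * k : decomp ι) : AbsGal K) =
      a (g : AbsGal K) + cyc (g : AbsGal K) * a (k : AbsGal K) := fun g k => h.coc g k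
  have h2 : ∀ g k : decomp ι, lam (cyc ((g * k : decomp ι) : AbsGal K)) =
      lam (cyc (g : AbsGal K)) + lam (cyc (k : AbsGal K)) := fun g k => by
    rw [Subgroup.coe_mul]
    exact psi_mul hlam (g : AbsGal K) (k : AbsGal K)
  have h3 := kum_c1D hK hv ι T h
  have h4 := ve_psi T (decomp ι) hlam
  have h5 := ve_char T (decomp ι)
  have h6 := z2_cup h5 h3 h1 h4 h2
  exact z2_smul h6 t

variable {q : ℕ} {s : K} {v : HeightOneSpectrum (𝓞 K)}
  {ι : AlgebraicClosure K →ₐ[K] AlgebraicClosure (v.adicCompletion K)} {T : Finset ℕ}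
  {lam : ℤ_[2] → ℤ_[2]} {inv : (decomp ι → decomp ι → A0) → A0}

theorem hasV_ex (hK : IsBase K q s) (hv : (2 : 𝓞 K) ∈ v.asIdeal) (hlam : IsLam lam)
    (L : LocH (sysD K T (decomp ι)) (fun d => cyc (d : AbsGal K)) inv)
    {r : ℕ → AlgebraicClosure K} {a : AbsGal K → ℤ_[2]} (h : IsKum r a) :
    ∃ x, HasV lam inv a x := by
  let φ : A0 →+ A0 := AddMonoidHom.mk'
    (fun t => inv (fun d e : decomp ι => (a d * lam (cyc (e : AbsGal K))) • t)) (fun t t' => by
      rw [← L.add _ _ (kumV_z2 hK hv ι T hlam h t) (kumV_z2 hK hv ι T hlam h t')]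
      congr 1
      funext d e
      rw [smul_add])
  obtain ⟨x, hx⟩ := end_A0 φ
  exact ⟨x, hx⟩

theorem hasV_uniq {a : AbsGal K → ℤ_[2]} {x y : ℤ_[2]} (h : HasV lam inv a x)
    (h' : HasV lam inv a y) : x = y :=
  smul_inj fun t => by rw [← h t, ← h' t]

theorem hasV_uniqK (hK : IsBase K q s) (hv : (2 : 𝓞 K) ∈ v.asIdeal) (hlam : IsLam lam)
    (L : LocH (sysD K T (decomp ι)) (fun d => cyc (d : AbsGal K)) inv)
    {r r' : ℕ → AlgebraicClosure K} {a a' : AbsGal K → ℤ_[2]} (h : IsKum r a) (h' : IsKum r' a')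
    (h0 : r' 0 = r 0) {x : ℤ_[2]} (hx : HasV lam inv a x) : HasV lam inv a' x := by
  obtain ⟨m, hm⟩ := h.uniq h' h0
  intro t
  rw [← hx t]
  refine L.congr (kumV_z2 hK hv ι T hlam h' t) (kumV_z2 hK hv ι T hlam h t)
    ⟨fun e => lam (cyc (e : AbsGal K)) • (m • t), sm1_smul (ve_psi T (decomp ι) hlam) _, ?_⟩
  funext d e
  show (a' d * lam (cyc (e : AbsGal K))) • t - (a d * lam (cyc (e : AbsGal K))) • t =
    lam (cyc (d : AbsGal K)) • (m • t) + cyc (d : AbsGal K) • (lam (cyc (e : AbsGal K)) • (m • t)) -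
      lam (cyc ((d * e : decomp ι) : AbsGal K)) • (m • t)
  have h1 : lam (cyc ((d * e : decomp ι) : AbsGal K)) =
      lam (cyc (d : AbsGal K)) + lam (cyc (e : AbsGal K)) := by
    rw [Subgroup.coe_mul]
    exact psi_mul hlam (d : AbsGal K) (e : AbsGal K)
  rw [h1, hm, ← sub_smul]
  simp only [smul_smul]
  rw [← add_smul, ← sub_smul]
  congr 1
  ring

/-- multiples -/
private theorem ve_smul {a : AbsGal K → ℤ_[2]} {x : ℤ_[2]} (hx : HasV lam inv a x) (c : ℤ_[2]) :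
    HasV lam inv (fun g => c * a g) (c * x) := by
  intro t
  have h1 := hx (c • t)
  rw [smul_smul, mul_comm] at h1
  rw [← h1]
  congr 1
  funext d e
  rw [smul_smul]
  congr 1
  ring

theorem hasV_add (hK : IsBase K q s) (hv : (2 : 𝓞 K) ∈ v.asIdeal) (hlam : IsLam lam)
    (L : LocH (sysD K T (decomp ι)) (fun d => cyc (d : AbsGal K)) inv)
    {r r' : ℕ → AlgebraicClosure K} {a a' : AbsGal K → ℤ_[2]} (h : IsKum r a) (h' : IsKum r' a')
    {x x' : ℤ_[2]} (hx : HasV lam inv a x) (hx' : HasV lam inv a' x') :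
    HasV lam inv (fun g => a g + a' g) (x + x') := by
  intro t
  rw [add_smul, ← hx t, ← hx' t, ← L.add _ _ (kumV_z2 hK hv ι T hlam h t)
    (kumV_z2 hK hv ι T hlam h' t)]
  congr 1
  funext d e
  rw [← add_smul, add_mul]

theorem hasV_neg (hK : IsBase K q s) (hv : (2 : 𝓞 K) ∈ v.asIdeal) (hlam : IsLam lam)
    (L : LocH (sysD K T (decomp ι)) (fun d => cyc (d : AbsGal K)) inv)
    {r : ℕ → AlgebraicClosure K} {a : AbsGal K → ℤ_[2]} (h : IsKum r a)
    {x : ℤ_[2]} (hx : HasV lam inv a x) : HasV lam inv (fun g => -a g) (-x) := by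
  have h1 := ve_smul hx (-1)
  rw [neg_one_mul] at h1
  have h2 : (fun g : AbsGal K => (-1 : ℤ_[2]) * a g) = fun g => -a g := by
    funext g
    rw [neg_one_mul]
  rwa [h2] at h1

private theorem ve_zp_zpow (k : ℕ) (a : ℤ_[2]) (m : ℤ) : zp K k a ^ m = zp K k (m * a) := by
  have hnat : ∀ n : ℕ, zp K k a ^ n = zp K k (n * a) := by
    intro n
    induction n with
    | zero =>
      rw [pow_zero, Nat.cast_zero, zero_mul]
      exact (zp_eq_one.2 (dvd_zero _)).symm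
    | succ n ih =>
      rw [pow_succ, ih, ← zp_add]
      congr 1
      push_cast
      ring
  obtain ⟨n, rfl | rfl⟩ := m.eq_nat_or_neg
  · rw [zpow_natCast, hnat]
    norm_cast
  · rw [zpow_neg, zpow_natCast, hnat]
    apply inv_eq_of_mul_eq_one_right
    rw [← zp_add, zp_eq_one]
    push_cast
    rw [neg_mul, add_neg_cancel]
    exact dvd_zero _

private theorem ve_zpow {r : ℕ → AlgebraicClosure K} {a : AbsGal K → ℤ_[2]} (h : IsKum r a)
    (m : ℤ) : IsKum (fun k => r k ^ m) (fun g => (m : ℤ_[2]) * a g) := by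
  refine ⟨zpow_ne_zero _ h.ne, fun k => ?_, fun g k => ?_⟩
  · rw [← h.sq k, ← zpow_natCast, ← zpow_mul, mul_comm, zpow_mul, zpow_natCast]
  · rw [map_zpow₀, h.act, mul_zpow, ve_zp_zpow]

/-- the value of a product `x ^ m y ^ n` -/
theorem hasV_zpow (hK : IsBase K q s) (hv : (2 : 𝓞 K) ∈ v.asIdeal) (hlam : IsLam lam)
    (L : LocH (sysD K T (decomp ι)) (fun d => cyc (d : AbsGal K)) inv)
    {r r' r'' : ℕ → AlgebraicClosure K} {a a' a'' : AbsGal K → ℤ_[2]} (h : IsKum r a)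
    (h' : IsKum r' a') (h'' : IsKum r'' a'') {m n : ℤ} (h0 : r'' 0 = r 0 ^ m * r' 0 ^ n)
    {x y : ℤ_[2]} (hx : HasV lam inv a x) (hy : HasV lam inv a' y) :
    HasV lam inv a'' (m * x + n * y) :=
  hasV_uniqK hK hv hlam L ((ve_zpow h m).mul (ve_zpow h' n)) h'' h0
    (hasV_add hK hv hlam L (ve_zpow h m) (ve_zpow h' n) (ve_smul hx m) (ve_smul hy n))

theorem hasV_negOne (hK : IsBase K q s) (hv : (2 : 𝓞 K) ∈ v.asIdeal) (hlam : IsLam lam)
    (L : LocH (sysD K T (decomp ι)) (fun d => cyc (d : AbsGal K)) inv)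
    {r : ℕ → AlgebraicClosure K} {a : AbsGal K → ℤ_[2]} (h : IsKum r a) (h0 : r 0 = -1) :
    HasV lam inv a 0 := by
  obtain ⟨x, hx⟩ := hasV_ex hK hv hlam L h
  have h1 : IsKum (fun _ : ℕ => (1 : AlgebraicClosure K)) (fun _ : AbsGal K => (0 : ℤ_[2])) :=
    ⟨one_ne_zero, fun _ => one_pow 2, fun g k => by
      rw [map_one, zp_eq_one.2 (dvd_zero _), one_mul]⟩
  have h2 : HasV lam inv (fun _ : AbsGal K => (0 : ℤ_[2])) 0 := by
    intro t
    rw [zero_smul, ← L.zero]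
    congr 1
    funext d e
    rw [zero_mul, zero_smul]
  have h3 := hasV_uniqK hK hv hlam L h1 (h.mul h) (by rw [h0]; norm_num) h2
  have h4 := hasV_uniq h3 (hasV_add hK hv hlam L h h hx hx)
  have h5 : x = 0 := by
    have h6 : (2 : ℤ_[2]) * x = 0 := by rw [two_mul, ← h4]
    exact (mul_eq_zero.1 h6).resolve_left two_ne_zero
  rwa [h5] at hx

end Pool.Agent.Work.MP_787500_nt.GP
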