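import Mathlib
import Pool.Agent.Work.MP_787500_nt.GP.B2_VEx
import Pool.Agent.Work.MP_787500_nt.PA.LocA

/-!
# Module B2_VCONT (size M-L): continuity of the values

Let `N` be the norm on the algebraic closure of the completion from `PA.exists_N_locA v` (multiplicative, ultrametric,
invariant under automorphisms over the completion, `N x ≤ 1` iff `v x ≤ 1` for `x` in the completion). `N 2 < 1`
(`2 ∈ v`: `N 2 ≤ 1`, and not `N (1 / 2) ≤ 1`).
(1) `z - 1 = 2 ^ M w`, `v.valuation w ≤ 1`, `M = 2 ^ n + 1`: `N (ι (z - 1)) ≤ N 2 ^ M < N 2 ^ (2 ^ n)` (`z ∈ K`, `ι` is a map over `K`).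
(2) The `2 ^ n`-th roots of `z` in the algebraic closure `Ω` of the completion are `ζ ρ`, `ζ` a `2 ^ n`-th root of unity, `ρ = ι (r n)`
a fixed one; `∏ ζ, (1 - ζ ρ) = 1 - z` (the polynomial `X ^ (2 ^ n) - z` at `X = 1`), so `N (1 - ζ ρ) < N 2` for one of them. It is
`ρ₁ = ι (zp K n j * r n)` for some `j : ℤ_[2]` (all roots of unity are images of powers of `zt K n`).
(3) For a root of unity `ζ ≠ 1` of 2-power order, `N (1 - ζ) ≥ N 2`: let `2 ^ k`, `k ≥ 1`, be its order; `ζ ^ (2 ^ (k - 1)) = -1`,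
and `2 = 1 - (-1) = (1 - ζ) (1 + ζ + ...)`, the second factor has norm at most 1.
(4) For `d ∈ D`, `d = res τ`: `τ ρ₁ = ι (d (...))` is a root again, `τ ρ₁ = ζ ρ₁`, `N (1 - τ ρ₁) = N (τ (1 - ρ₁)) < N 2`, so
`N ((1 - ζ) ρ₁) < N 2`, `N ρ₁ = 1`, so `ζ = 1` by (3). So `d (zp K n j * r n) = zp K n j * r n`, i.e.
`zp K n (cyc d * j + a d) = zp K n j` (`gal_zp`, `IsKum.act`, `zp_add`): `2 ^ n ∣ a d + (cyc d - 1) j` for all `d ∈ D` (`zp_eq_one`).
(5) `a d * ψ e ≡ -(cyc d - 1) j ψ e = -dd (j ψ) d e` modulo `2 ^ n` on `D`. So for `t` with `2 ^ n • t = 0` the cocycle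
`(a ∪ ψ) • t` is `-d1 ((j ψ) • t)`, in `B2`, so `x • t = 0`. If `2 ^ n` does not divide `x` then `x • t ≠ 0` for a suitable `t`
(`x = unit * 2 ^ k`, `k < n`, and `t` with `2 ^ k • t = half`): contradiction.
-/

set_option autoImplicit false
set_option linter.unusedSectionVars false

namespace Pool.Agent.Work.MP_787500_nt.GP

open IsDedekindDomain NumberField
open Pool.Agent.Work.MP_787500_nt.PA (TwoSys Sm1 Sm2 homs Coc Cob IsChar goodSys core cyc Opn SU)
open Pool.Agent.Work.MP_787500_nt.Gn (GoodG)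

universe u

variable {K : Type u} [Field K] [NumberField K]

private theorem vc_zp_ne (k : ℕ) (a : ℤ_[2]) : zp K k a ≠ 0 := by
  intro h
  have h1 : zp K k (a + -a) = zp K k a * zp K k (-a) := zp_add k a (-a)
  rw [h, zero_mul, add_neg_cancel, zp_eq_one.2 (dvd_zero _)] at h1
  exact one_ne_zero h1

private theorem vc_zp_inj {k : ℕ} {a b : ℤ_[2]} (h : zp K k a = zp K k b) :
    (2 : ℤ_[2]) ^ k ∣ a - b := by
  rw [← zp_eq_one (K := K)]
  have h1 : zp K k (a - b) * zp K k b = zp K k a := by rw [← zp_add, sub_add_cancel]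
  rw [h] at h1
  exact mul_right_cancel₀ (vc_zp_ne k b) (by rw [h1, one_mul])

private theorem vc_ne {r : ℕ → AlgebraicClosure K} {a : AbsGal K → ℤ_[2]} (h : IsKum r a) (k : ℕ) :
    r k ≠ 0 := by
  induction k with
  | zero => exact h.ne
  | succ k ih =>
    intro h0
    have h1 := h.sq k
    rw [h0, zero_pow two_ne_zero] at h1
    exact ih h1.symm

private theorem vc_pow {r : ℕ → AlgebraicClosure K} {a : AbsGal K → ℤ_[2]} (h : IsKum r a)
    (n : ℕ) : r n ^ 2 ^ n = r 0 := by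
  induction n with
  | zero => rw [pow_zero, pow_one]
  | succ n ih => rw [pow_succ, mul_comm, pow_mul, h.sq, ih]

private theorem vc_zt_pow (k j : ℕ) : zt K (k + j) ^ 2 ^ j = zt K k := by
  induction j generalizing k with
  | zero => simp
  | succ j ih =>
    rw [pow_succ, mul_comm, pow_mul, ← add_assoc, zt_sq, ih]

private theorem vc_zt_one (k : ℕ) : zt K k ^ 2 ^ k = 1 := by
  have h := vc_zt_pow (K := K) 0 k
  rwa [zero_add, zt_zero] at h

private theorem vc_prim (k : ℕ) : IsPrimitiveRoot (zt K k) (2 ^ k) := by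
  rcases k with _ | k
  · rw [zt_zero, pow_zero]
    exact IsPrimitiveRoot.one
  · have h1 : zt K (k + 1) ^ 2 ^ k = -1 := by
      have h := vc_zt_pow (K := K) 1 k
      rwa [add_comm 1 k, zt_one] at h
    have h2 : ¬ zt K (k + 1) ^ 2 ^ k = 1 := by
      rw [h1]
      intro h
      have h3 : (2 : AlgebraicClosure K) = 0 := by linear_combination -h
      have h4 : CharZero (AlgebraicClosure K) :=
        charZero_of_injective_algebraMap (algebraMap K (AlgebraicClosure K)).injective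
      exact two_ne_zero h3
    have h3 := orderOf_eq_prime_pow h2 (vc_zt_one (K := K) (k + 1))
    rw [← h3]
    exact IsPrimitiveRoot.orderOf _

/-- a root of unity of 2-power order different from 1 is at distance at least `N 2` from 1 -/
private theorem vc_root {L : Type*} [Field L] (N : L → ℝ)
    (hmul : ∀ x y, N (x * y) = N x * N y) (hadd : ∀ x y, N (x + y) ≤ max (N x) (N y))
    (hnn : ∀ x, 0 ≤ N x) (h1 : N 1 = 1) {ξ : L} : ∀ n : ℕ, ξ ^ 2 ^ n = 1 → ξ ≠ 1 →
      N 2 ≤ N (1 - ξ) := by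
  intro n hn hne
  have hpow : ∀ (x : L) (m : ℕ), N (x ^ m) = N x ^ m := by
    intro x m
    induction m with
    | zero => rw [pow_zero, pow_zero, h1]
    | succ m ih => rw [pow_succ, hmul, ih, pow_succ]
  have hξ : N ξ = 1 := by
    have h2 : N ξ ^ 2 ^ n = 1 := by rw [← hpow, hn, h1]
    exact (pow_eq_one_iff_of_nonneg (hnn ξ) (by positivity)).1 h2
  have hgeom : ∀ m : ℕ, 0 < m → N (∑ i ∈ Finset.range m, ξ ^ i) ≤ 1 := by
    intro m hm
    induction m with
    | zero => exact absurd hm (lt_irrefl 0)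
    | succ m ih =>
      rcases Nat.eq_zero_or_pos m with rfl | hm0
      · simp [h1]
      · rw [Finset.sum_range_succ]
        refine (hadd _ _).trans (max_le (ih hm0) ?_)
        rw [hpow, hξ, one_pow]
  obtain ⟨i, hi1, hi2⟩ : ∃ i, ξ ^ 2 ^ i ≠ 1 ∧ ξ ^ 2 ^ (i + 1) = 1 := by
    by_contra hcon
    push Not at hcon
    have : ∀ i, ξ ^ 2 ^ i ≠ 1 := by
      intro i
      induction i with
      | zero => rw [pow_zero, pow_one]; exact hne
      | succ i ih => exact hcon i ih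
    exact this n hn
  have hm1 : ξ ^ 2 ^ i = -1 := by
    rw [pow_succ, pow_mul] at hi2
    have h3 : (ξ ^ 2 ^ i - 1) * (ξ ^ 2 ^ i + 1) = 0 := by linear_combination hi2
    exact eq_neg_of_add_eq_zero_left ((mul_eq_zero.1 h3).resolve_left (sub_ne_zero.2 hi1))
  have h2 : (2 : L) = (1 - ξ) * ∑ j ∈ Finset.range (2 ^ i), ξ ^ j := by
    rw [mul_neg_geom_sum, hm1]
    norm_num
  rw [h2, hmul]
  exact mul_le_of_le_one_right (hnn _) (hgeom _ (by positivity))

/-- if the `2 ^ n`-th power of `ρ` is close to 1 then so is one of the numbers `ζ ρ` -/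
private theorem vc_close {L : Type*} [Field L] (N : L → ℝ)
    (hmul : ∀ x y, N (x * y) = N x * N y)
    (h1 : N 1 = 1) (h2 : 0 < N 2) {n : ℕ} {ζ : L} (hζ : IsPrimitiveRoot ζ (2 ^ n))
    {ρ : L} (hρ : N (1 - ρ ^ 2 ^ n) < N 2 ^ 2 ^ n) : ∃ i < 2 ^ n, N (1 - ζ ^ i * ρ) < N 2 := by
  classical
  by_contra hcon
  push Not at hcon
  have h3 := hζ.pow_sub_pow_eq_prod_sub_mul (1 : L) ρ (by positivity)
  rw [one_pow] at h3
  have hprod : ∀ s : Finset L, N (∏ x ∈ s, (1 - x * ρ)) = ∏ x ∈ s, N (1 - x * ρ) := by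
    intro s
    induction s using Finset.induction_on with
    | empty => simp [h1]
    | insert x s hx ih => rw [Finset.prod_insert hx, Finset.prod_insert hx, hmul, ih]
  rw [h3, hprod] at hρ
  have h4 : N 2 ^ 2 ^ n ≤ ∏ x ∈ Polynomial.nthRootsFinset (2 ^ n) (1 : L), N (1 - x * ρ) := by
    have h5 : N 2 ^ 2 ^ n = ∏ _x ∈ Polynomial.nthRootsFinset (2 ^ n) (1 : L), N 2 := by
      rw [Finset.prod_const, hζ.card_nthRootsFinset]
    rw [h5]
    refine Finset.prod_le_prod (fun _ _ => h2.le) fun x hx => ?_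
    rw [Polynomial.mem_nthRootsFinset (by positivity)] at hx
    have : NeZero (2 ^ n) := ⟨by positivity⟩
    obtain ⟨i, hi, rfl⟩ := hζ.eq_pow_of_pow_eq_one hx
    exact hcon i hi
  exact absurd hρ (not_lt.2 h4)

private theorem vc_nat (n i : ℕ) (hi : i < 2 ^ n) : zp K n (i : ℤ_[2]) = zt K n ^ i := by
  unfold zp
  rw [map_natCast, ZMod.val_natCast, Nat.mod_eq_of_lt hi]

/-- the main step -/
private theorem vc_main {v : HeightOneSpectrum (𝓞 K)} (hv : (2 : 𝓞 K) ∈ v.asIdeal)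
    (ι : AlgebraicClosure K →ₐ[K] AlgebraicClosure (v.adicCompletion K))
    {r : ℕ → AlgebraicClosure K} {a : AbsGal K → ℤ_[2]} (h : IsKum r a) {z : K}
    (hz : r 0 = algebraMap K (AlgebraicClosure K) z) (n : ℕ)
    (hzv : v.valuation K (z - 1) ≤ v.valuation K ((2 : K) ^ (2 ^ n + 1))) :
    ∃ j : ℤ_[2], ∀ d ∈ decomp ι, (2 : ℤ_[2]) ^ n ∣ a d + (cyc d - 1) * j := by
  obtain ⟨N, hmul, hadd, hnn, h0, hval, hinv, -⟩ := PA.exists_N_locA v
  have h1 : N 1 = 1 := by
    have h2 := hmul 1 1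
    rw [mul_one] at h2
    have h3 : N 1 ≠ 0 := fun h4 => one_ne_zero ((h0 1).1 h4)
    exact (mul_eq_left₀ h3).1 h2.symm
  have hneg : ∀ x, N (-x) = N x := PA.norm_neg_locA N hmul hnn h0
  have halg : ∀ k : K, ι (algebraMap K (AlgebraicClosure K) k) =
      algebraMap (v.adicCompletion K) _ (algebraMap K (v.adicCompletion K) k) := by
    intro k
    rw [AlgHom.commutes]
    exact IsScalarTower.algebraMap_apply K (v.adicCompletion K) _ k
  have hvalK : ∀ k : K, N (ι (algebraMap K (AlgebraicClosure K) k)) ≤ 1 ↔ v.valuation K k ≤ 1 := by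
    intro k
    rw [halg, hval]
    exact (HeightOneSpectrum.valuedAdicCompletion_eq_valuation' v k) ▸ Iff.rfl
  have hK0 : CharZero K := inferInstance
  have hpow : ∀ x (m : ℕ), N (x ^ m) = N x ^ m := by
    intro x m
    induction m with
    | zero => rw [pow_zero, pow_zero, h1]
    | succ m ih => rw [pow_succ, hmul, ih, pow_succ]
  have hinvN : ∀ x, x ≠ 0 → N x⁻¹ = (N x)⁻¹ := by
    intro x hx
    have h2 := hmul x x⁻¹
    rw [mul_inv_cancel₀ hx, h1] at h2
    exact eq_inv_of_mul_eq_one_right h2.symm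
  have h2K : v.valuation K (2 : K) < 1 := by
    have h2 : algebraMap (𝓞 K) K 2 = 2 := map_ofNat _ 2
    rw [← h2, HeightOneSpectrum.valuation_lt_one_iff_mem]
    exact hv
  have hι2 : ι (algebraMap K (AlgebraicClosure K) 2) = 2 := by
    rw [map_ofNat, map_ofNat]
  have hL0 : CharZero (AlgebraicClosure (v.adicCompletion K)) :=
    charZero_of_injective_ringHom
      (ι.toRingHom.comp (algebraMap K (AlgebraicClosure K))).injective
  have hN2pos : 0 < N 2 := lt_of_le_of_ne (hnn 2) fun h2 => two_ne_zero ((h0 2).1 h2.symm)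
  have hN2 : N 2 < 1 := by
    have h2 : N 2 ≤ 1 := by
      rw [← hι2, hvalK]
      exact h2K.le
    refine lt_of_le_of_ne h2 fun h3 => ?_
    have h4 : N (ι (algebraMap K (AlgebraicClosure K) (2 : K)⁻¹)) ≤ 1 := by
      rw [map_inv₀, map_inv₀, hι2, hinvN _ two_ne_zero, h3, inv_one]
    rw [hvalK, map_inv₀] at h4
    have h5 := (inv_le_one₀ (by
      rw [zero_lt_iff, ne_eq, map_eq_zero]
      exact two_ne_zero)).1 h4
    exact absurd h2K (not_lt.2 h5)
  -- step 1
  have hz1 : N (1 - ι (r 0)) < N 2 ^ 2 ^ n := by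
    have h2 : N (ι (algebraMap K (AlgebraicClosure K) ((z - 1) / 2 ^ (2 ^ n + 1)))) ≤ 1 := by
      rw [hvalK, map_div₀]
      exact div_le_one_of_le₀ hzv zero_le
    rw [map_div₀, map_div₀, map_pow, map_pow, hι2, div_eq_mul_inv, hmul,
      hinvN _ (pow_ne_zero _ two_ne_zero), hpow, mul_inv_le_iff₀ (pow_pos hN2pos _), one_mul,
      map_sub, map_sub, map_one, map_one, ← hz] at h2
    have h3 : N (1 - ι (r 0)) = N (ι (r 0) - 1) := by rw [← hneg, neg_sub]
    rw [h3]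
    refine lt_of_le_of_lt h2 ?_
    rw [pow_succ]
    exact mul_lt_of_lt_one_right (pow_pos hN2pos _) hN2
  -- step 2
  have hζ : IsPrimitiveRoot (ι (zt K n)) (2 ^ n) :=
    (vc_prim n).map_of_injective (f := ι) ι.toRingHom.injective
  have hρ : N (1 - ι (r n) ^ 2 ^ n) < N 2 ^ 2 ^ n := by
    rw [← map_pow, vc_pow h]
    exact hz1
  obtain ⟨i, hi, hclose⟩ := vc_close N hmul h1 hN2pos hζ hρ
  refine ⟨(i : ℤ_[2]), fun d hd => ?_⟩
  obtain ⟨τ, hτ⟩ := hd
  let y : AlgebraicClosure K := zp K n (i : ℤ_[2]) * r n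
  have hy0 : y ≠ 0 := mul_ne_zero (vc_zp_ne _ _) (vc_ne h n)
  have hιy : ι y = ι (zt K n) ^ i * ι (r n) := by
    show ι (zp K n (i : ℤ_[2]) * r n) = _
    rw [map_mul, vc_nat n i hi, map_pow]
  rw [← hιy] at hclose
  have hyN : N (ι y) = 1 := by
    apply le_antisymm
    · have h3 := hadd (ι y - 1) 1
      rw [sub_add_cancel, h1] at h3
      refine h3.trans (max_le ?_ le_rfl)
      rw [← hneg, neg_sub]
      exact (hclose.trans hN2).le
    · by_contra hlt
      push Not at hlt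
      have h3 := hadd (1 - ι y) (ι y)
      rw [sub_add_cancel, h1] at h3
      exact absurd h3 (not_le.2 (max_lt (hclose.trans hN2) hlt))
  have hdy : d y = zp K n ((cyc d - 1) * i + a d) * y := by
    show d (zp K n (i : ℤ_[2]) * r n) = zp K n ((cyc d - 1) * i + a d) * (zp K n (i : ℤ_[2]) * r n)
    rw [map_mul, gal_zp, h.act, ← mul_assoc, ← mul_assoc, ← zp_add, ← zp_add]
    congr 2
    ring
  set ξ := zp K n ((cyc d - 1) * i + a d) with hξ
  have hξ1 : ξ ^ 2 ^ n = 1 := by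
    rw [hξ]
    unfold zp
    rw [← pow_mul, mul_comm, pow_mul, vc_zt_one, one_pow]
  have hfin : ξ = 1 := by
    by_contra hne
    have h3 : ι ξ ^ 2 ^ n = 1 := by rw [← map_pow, hξ1, map_one]
    have h4 : ι ξ ≠ 1 := fun h5 => hne (ι.toRingHom.injective (by
      show ι ξ = ι 1
      rw [h5, map_one]))
    have h5 := vc_root N hmul hadd hnn h1 n h3 h4
    have h6 : N (1 - ι ξ) = N ((1 - ι ξ) * ι y) := by rw [hmul, hyN, mul_one]
    have h7 : (1 - ι ξ) * ι y = (1 - τ (ι y)) + -(1 - ι y) := by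
      have h8 : ι (ξ * y) = ι ξ * ι y := map_mul ι ξ y
      rw [hτ, hdy, h8]
      ring
    have h8 : N (1 - τ (ι y)) = N (1 - ι y) := by
      rw [← hinv τ (1 - ι y), map_sub, map_one]
    have h9 := hadd (1 - τ (ι y)) (-(1 - ι y))
    rw [← h7, ← h6, hneg, h8, max_self] at h9
    exact absurd (h5.trans h9) (not_le.2 hclose)
  rw [hξ, zp_eq_one, add_comm] at hfin
  exact hfin

private theorem vc_dvd {x : ℤ_[2]} {n : ℕ} (h : x • pr0 (1 / 2 ^ n) = 0) :
    (2 : ℤ_[2]) ^ n ∣ x := by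
  rw [← map_smul, pr0_eq_zero] at h
  obtain ⟨b, hb⟩ := h
  refine ⟨b, ?_⟩
  have h2 : (2 : ℚ_[2]) ^ n ≠ 0 := pow_ne_zero _ two_ne_zero
  have h3 : (x • (1 / 2 ^ n : ℚ_[2])) = (x : ℚ_[2]) * (1 / 2 ^ n) := rfl
  rw [h3] at hb
  have h5 : ((2 : ℤ_[2]) : ℚ_[2]) = 2 := rfl
  apply Subtype.ext
  push_cast
  rw [hb, h5]
  field_simp

theorem v_cont {q : ℕ} {s : K} (hK : IsBase K q s) {v : HeightOneSpectrum (𝓞 K)}
    (hv : (2 : 𝓞 K) ∈ v.asIdeal)
    {ι : AlgebraicClosure K →ₐ[K] AlgebraicClosure (v.adicCompletion K)} {T : Finset ℕ}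
    {lam : ℤ_[2] → ℤ_[2]} (hlam : IsLam lam) {inv : (decomp ι → decomp ι → A0) → A0}
    (L : LocH (sysD K T (decomp ι)) (fun d => cyc (d : AbsGal K)) inv)
    {r : ℕ → AlgebraicClosure K} {a : AbsGal K → ℤ_[2]} (h : IsKum r a) {z : K}
    (hz : r 0 = algebraMap K (AlgebraicClosure K) z) (n : ℕ)
    (hzv : v.valuation K (z - 1) ≤ v.valuation K ((2 : K) ^ (2 ^ n + 1))) {x : ℤ_[2]}
    (hx : HasV lam inv a x) : (2 : ℤ_[2]) ^ n ∣ x := by
  obtain ⟨j, hj⟩ := vc_main hv ι h hz n hzv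
  apply vc_dvd
  rw [← hx (pr0 (1 / 2 ^ n))]
  set t := pr0 (1 / 2 ^ n) with ht
  have ht0 : (2 ^ n) • t = 0 := by
    rw [ht, ← map_nsmul, pr0_eq_zero]
    refine ⟨1, ?_⟩
    rw [nsmul_eq_mul]
    push_cast
    field_simp
  have hpsi : PA.C1 (sysD K T (decomp ι)) (fun d => lam (cyc (d : AbsGal K))) := by
    intro n
    obtain ⟨W, hW, hw⟩ := psi_c1 (K := K) hlam n
    exact ⟨W.subgroupOf (decomp ι), ⟨W, Good.goodT hW T, rfl⟩, fun g w hwW =>
      hw g w (Subgroup.mem_subgroupOf.1 hwW)⟩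
  refine L.b2 ⟨fun e => lam (cyc (e : AbsGal K)) • (-(j • t)), sm1_smul hpsi _, ?_⟩
  funext d e
  have h1 : lam (cyc ((d * e : decomp ι) : AbsGal K)) =
      lam (cyc (d : AbsGal K)) + lam (cyc (e : AbsGal K)) := by
    rw [Subgroup.coe_mul]
    exact psi_mul hlam (d : AbsGal K) (e : AbsGal K)
  show (a d * lam (cyc (e : AbsGal K))) • t = lam (cyc (d : AbsGal K)) • (-(j • t)) +
    cyc (d : AbsGal K) • (lam (cyc (e : AbsGal K)) • (-(j • t))) -
      lam (cyc ((d * e : decomp ι) : AbsGal K)) • (-(j • t))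
  rw [h1, ← sub_eq_zero]
  have h2 : (a d * lam (cyc (e : AbsGal K))) • t - (lam (cyc (d : AbsGal K)) • (-(j • t)) +
      cyc (d : AbsGal K) • (lam (cyc (e : AbsGal K)) • (-(j • t))) -
      (lam (cyc (d : AbsGal K)) + lam (cyc (e : AbsGal K))) • (-(j • t))) =
      ((a d + (cyc (d : AbsGal K) - 1) * j) * lam (cyc (e : AbsGal K))) • t := by
    simp only [smul_smul, ← neg_smul]
    rw [← add_smul, ← sub_smul, ← sub_smul]
    congr 1
    ring
  rw [h2]
  exact smul_zero_of_dvd ht0 ((hj d d.2).mul_right _)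

end Pool.Agent.Work.MP_787500_nt.GP
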