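import Mathlib
import Pool.Agent.Work.MP_787500_nt.GP.B2_VCont
import Pool.Agent.Work.MP_787500_nt.GP.B1_Sym
import Pool.Agent.Work.MP_787500_nt.H10_Quad

/-!
# Module B2_VVAL (size M-L): the values of integers

Write `V x` for the value at `x ∈ K`, `x ≠ 0` (`exists_roots`, `exists_isKum`, `hasV_ex`; independent of the choices,
`hasV_uniqK`). `V (x ^ m y ^ n) = m V x + n V y` (`hasV_zpow`), `V (-1) = 0`.
* `hasV_two`: let `a₂` be the Kummer cocycle, `ψ = lam ∘ cyc`, `F g h = a₂ g * ψ h`, `PA.Z2 (goodSys K) cyc F` (`z2_cup`,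
  `kum_c1_good`: `SU 2`). `F (κ d) (κ e) = a₂ (κ d) * ψ e` (`cyc (κ g) = cyc g`: `(PA.isInvol ..).chi`), and `-(a₂ ∘ κ)` is a Kummer
  cocycle of `c 2 = 2` (`IsKum.kap`), so its value is `V 2`. By `inv_sym`, `V 2 = -V 2`, `V 2 = 0`.
* `c' = V 5`. Let `l` be odd (a natural number), `n` arbitrary, `M = 2 ^ n + 1`; choose `m : ℕ` with `2 ^ M ∣ lam l - m`. By
  `IsLam.mul`, `five`: `lam l - m = lam (l * 5⁻¹ ^ m)` (units of `ℤ_[2]`), so by `IsLam.dvd` `2 ^ (M + 2)` divides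
  `l - e 5 ^ m` in `ℤ_[2]`, so in `ℤ`, `e = ± 1`. `z = l / (e 5 ^ m) ∈ K` satisfies
  `v.valuation (z - 1) ≤ v.valuation (2 ^ M)` (`5`, `e` are units at `v`), so by `v_cont` `2 ^ n ∣ V z`;
  `V l = m c' + V e + V z ≡ m c' ≡ lam l * c'` modulo `2 ^ n`. For all `n`: `V l = lam l * c'`.
* `c'` is a unit: `x₀ = r₀ 0 ∈ K`. `v.valuation 2 = exp (-1)` (`dyadic` in `H10_Quad.lean`, `q % 8 = 7`), so
  `x₀ = 2 ^ e * u` with `e : ℤ`, `v.valuation u = 1`, and `1 = V x₀ = V u`. Approximation: for every `M` there is an integer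
  `j` with `v.valuation (u - j) ≤ exp (-M)`: induction on `M`; `(u - j) / 2 ^ M` has valuation at most 1, so it is in the
  maximal ideal or congruent to 1 (`dyadic`, `sub_one_lt`): take `j` or `j + 2 ^ M`. For `M = 3`, `j` is odd,
  may suppose `j > 0` (add a multiple of 8), `z = u / j`, `2 ∣ V z` (`v_cont`, `n = 1`), so `1 = V u ≡ V j = lam j * c'`
  modulo 2. So `c'` is odd.
-/

set_option autoImplicit false
set_option linter.unusedSectionVars false

namespace Pool.Agent.Work.MP_787500_nt.GP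

open IsDedekindDomain NumberField
open Pool.Agent.Work.MP_787500_nt.PA (TwoSys Sm1 Sm2 homs Coc Cob IsChar goodSys core cyc Opn SU)
open Pool.Agent.Work.MP_787500_nt.Gn (GoodG)

universe u

variable {K : Type u} [Field K] [NumberField K]

variable {q : ℕ} {s : K} {v : HeightOneSpectrum (𝓞 K)}
  {ι : AlgebraicClosure K →ₐ[K] AlgebraicClosure (v.adicCompletion K)} {T : Finset ℕ}
  {lam : ℤ_[2] → ℤ_[2]} {inv : (decomp ι → decomp ι → A0) → A0}

private theorem vv_ex (hK : IsBase K q s) (hv : (2 : 𝓞 K) ∈ v.asIdeal) (hlam : IsLam lam)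
    (L : LocH (sysD K T (decomp ι)) (fun d => cyc (d : AbsGal K)) inv) {z : K} (hz : z ≠ 0) :
    ∃ (r : ℕ → AlgebraicClosure K) (a : AbsGal K → ℤ_[2]) (x : ℤ_[2]), IsKum r a ∧
      r 0 = algebraMap K (AlgebraicClosure K) z ∧ HasV lam inv a x := by
  obtain ⟨r, hr0, hr⟩ := exists_roots (algebraMap K (AlgebraicClosure K) z)
  obtain ⟨a, ha⟩ := exists_isKum (r := r)
    (by rw [hr0]; exact (map_ne_zero_iff _ (algebraMap K (AlgebraicClosure K)).injective).2 hz)
    (fun g => by rw [hr0]; exact g.commutes z) hr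
  obtain ⟨x, hx⟩ := hasV_ex hK hv hlam L ha
  exact ⟨r, a, x, ha, hr0, hx⟩

private theorem vv_ker {k : ℕ} {a : ℤ_[2]} : PadicInt.toZModPow k a = 0 ↔ (2 : ℤ_[2]) ^ k ∣ a := by
  rw [← RingHom.mem_ker, PadicInt.ker_toZModPow, Ideal.mem_span_singleton]
  push_cast
  rfl

private theorem vv_zero {x : ℤ_[2]} (h : ∀ n : ℕ, (2 : ℤ_[2]) ^ n ∣ x) : x = 0 := by
  rw [← PadicInt.ext_of_toZModPow]
  intro n
  rw [map_zero, vv_ker]
  exact h n

theorem hasV_two (hK : IsBase K q s) (hv : (2 : 𝓞 K) ∈ v.asIdeal) (hlam : IsLam lam)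
    {c : AlgebraicClosure K ≃+* AlgebraicClosure K} (hc : PA.IsConj s c)
    {κ : AbsGal K → AbsGal K}
    (hκ : ∀ (σ : AbsGal K) (x : AlgebraicClosure K), κ σ x = c (σ (c x)))
    (L : LocH (sysD K T (decomp ι)) (fun d => cyc (d : AbsGal K)) inv)
    {r : ℕ → AlgebraicClosure K} {a : AbsGal K → ℤ_[2]} (h : IsKum r a) (h0 : r 0 = 2) :
    HasV lam inv a 0 := by
  have hchar : CharZero (AlgebraicClosure K) :=
    charZero_of_injective_algebraMap (algebraMap K (AlgebraicClosure K)).injective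
  obtain ⟨x, hx⟩ := hasV_ex hK hv hlam L h
  have hSU : SU (r 0) := by
    rw [h0]
    refine ⟨two_ne_zero, ⟨0, ?_⟩, ⟨1, ?_⟩⟩
    · rw [pow_zero, one_mul]
      have h3 := isIntegral_algebraMap (R := ℤ) (A := AlgebraicClosure K) (x := 2)
      rwa [map_ofNat] at h3
    · rw [pow_one, mul_inv_cancel₀ two_ne_zero]
      exact isIntegral_one
  have hF : PA.Z2 (goodSys K) cyc (fun g k => a g * lam (cyc k)) :=
    z2_cup PA.isChar_cyc (kum_c1_good h hSU) (fun g k => h.coc g k) (psi_c1 hlam)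
      (fun g k => psi_mul hlam g k)
  have hk := h.kap hK hc hκ
  have h1 : HasV lam inv (fun g => -a (κ g)) x :=
    hasV_uniqK hK hv hlam L h hk (by
      show c (r 0) = r 0
      rw [h0, map_ofNat]) hx
  have h2 := hasV_neg hK hv hlam L hk h1
  have hI := PA.isInvol hc.sq hκ
  have h3 : -x = x := by
    refine smul_inj fun t => ?_
    rw [← h2 t, ← hx t]
    have h4 := inv_sym hK hc hκ L hF t
    rw [← h4]
    congr 1
    funext d e
    show (- -a (κ d) * lam (cyc (e : AbsGal K))) • t = (a (κ d) * lam (cyc (κ (e : AbsGal K)))) • t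
    rw [neg_neg, hI.chi]
  have h5 : x = 0 := by
    have h6 : (2 : ℤ_[2]) * x = 0 := by
      rw [two_mul]
      nth_rewrite 1 [← h3]
      exact neg_add_cancel x
    exact (mul_eq_zero.1 h6).resolve_left two_ne_zero
  rwa [h5] at hx

private theorem vv_odd {l : ℕ} (hl : Odd l) : IsUnit (l : ℤ_[2]) := by
  by_contra hc
  have h2 : (l : ℤ_[2]) ∈ IsLocalRing.maximalIdeal ℤ_[2] := hc
  rw [PadicInt.maximalIdeal_eq_span_p, Ideal.mem_span_singleton] at h2
  have h3 : (2 : ℤ_[2]) ^ 1 ∣ ((l : ℤ) : ℤ_[2]) := by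
    push_cast at h2 ⊢
    rwa [pow_one]
  have h4 := (PadicInt.pow_p_dvd_int_iff (p := 2) 1 (l : ℤ)).1 (by exact_mod_cast h3)
  have h5 : (2 : ℤ) ∣ l := by simpa using h4
  have h6 : 2 ∣ l := by exact_mod_cast h5
  exact absurd (even_iff_two_dvd.2 h6) (Nat.not_even_iff_odd.2 hl)

private theorem vv_five : IsUnit (5 : ℤ_[2]) := by
  have h := vv_odd (l := 5) (by decide)
  exact_mod_cast h

private theorem vv_lam_five (hlam : IsLam lam) (m : ℕ) : lam (5 ^ m) = m := by
  induction m with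
  | zero => rw [pow_zero, hlam.one, Nat.cast_zero]
  | succ m ih => rw [pow_succ, hlam.mul _ _ (vv_five.pow m) vv_five, ih, hlam.five, Nat.cast_succ]

/-- an odd integer is close to `± 5 ^ m` -/
private theorem vv_near (hlam : IsLam lam) {l : ℕ} (hl : Odd l) {M m : ℕ}
    (hm : (2 : ℤ_[2]) ^ M ∣ lam l - m) :
    (2 : ℤ) ^ (M + 2) ∣ (l : ℤ) - 5 ^ m ∨ (2 : ℤ) ^ (M + 2) ∣ (l : ℤ) + 5 ^ m := by
  obtain ⟨w, hw⟩ := vv_five.pow m
  have hlu := vv_odd hl
  have h1 : (l : ℤ_[2]) = (l * ((w⁻¹ : ℤ_[2]ˣ) : ℤ_[2])) * 5 ^ m := by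
    rw [← hw, mul_assoc, Units.inv_mul, mul_one]
  have h2 : IsUnit ((l : ℤ_[2]) * ((w⁻¹ : ℤ_[2]ˣ) : ℤ_[2])) := hlu.mul (w⁻¹).isUnit
  have h3 := hlam.mul _ _ h2 (vv_five.pow m)
  rw [← h1, vv_lam_five hlam] at h3
  rw [h3, add_sub_cancel_right, hlam.dvd _ h2] at hm
  have hcast : ∀ z : ℤ, (2 : ℤ_[2]) ^ (M + 2) ∣ (z : ℤ_[2]) → (2 : ℤ) ^ (M + 2) ∣ z := by
    intro z hz
    have h4 := (PadicInt.pow_p_dvd_int_iff (p := 2) (M + 2) z).1 (by exact_mod_cast hz)
    exact_mod_cast h4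
  rcases hm with h | h
  · left
    apply hcast
    have h5 := h.mul_right (5 ^ m)
    rw [sub_mul, ← h1, one_mul] at h5
    exact_mod_cast h5
  · right
    apply hcast
    have h5 := h.mul_right (5 ^ m)
    rw [add_mul, ← h1, one_mul] at h5
    exact_mod_cast h5

private theorem vv_val (hv : (2 : 𝓞 K) ∈ v.asIdeal) {n : ℤ} (hn : ¬ (2 : ℤ) ∣ n) :
    v.valuation K (n : K) = 1 :=
  Quad.val_int_eq_one Nat.prime_two (by exact_mod_cast hv) (by exact_mod_cast hn)

/-- the value at an odd natural number in terms of the value at 5 -/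
private theorem vv_int (hK : IsBase K q s) (hv : (2 : 𝓞 K) ∈ v.asIdeal) (hlam : IsLam lam)
    (L : LocH (sysD K T (decomp ι)) (fun d => cyc (d : AbsGal K)) inv)
    {r₅ : ℕ → AlgebraicClosure K} {a₅ : AbsGal K → ℤ_[2]} (h₅ : IsKum r₅ a₅) (h50 : r₅ 0 = 5)
    {c' : ℤ_[2]} (hc' : HasV lam inv a₅ c') {l : ℕ} (hl : Odd l)
    {r : ℕ → AlgebraicClosure K} {a : AbsGal K → ℤ_[2]} (h : IsKum r a)
    (h0 : r 0 = (l : AlgebraicClosure K)) : HasV lam inv a (lam (l : ℤ_[2]) * c') := by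
  obtain ⟨x, hx⟩ := hasV_ex hK hv hlam L h
  suffices hxx : x = lam (l : ℤ_[2]) * c' by rwa [hxx] at hx
  rw [← sub_eq_zero]
  refine vv_zero fun n => ?_
  set M := 2 ^ n + 1 with hM
  have hnM : n ≤ M := (Nat.lt_two_pow_self (n := n)).le.trans (Nat.le_succ _)
  set m := (PadicInt.toZModPow M (lam l)).val with hmdef
  have hm : (2 : ℤ_[2]) ^ M ∣ lam l - m := by
    rw [← vv_ker, map_sub, map_natCast, sub_eq_zero, hmdef, ZMod.natCast_zmod_val]
  have h2K : v.valuation K (2 : K) ≤ 1 := by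
    have := Quad.val_int_le_one (v := v) (K := K) 2
    exact_mod_cast this
  have h5K : v.valuation K (5 : K) = 1 := by
    have := vv_val (K := K) hv (n := 5) (by decide)
    exact_mod_cast this
  have hK0 : (5 : K) ≠ 0 := by norm_num
  have hl0 : (l : K) ≠ 0 := by
    rw [Nat.cast_ne_zero]
    exact fun h => by rw [h] at hl; exact absurd hl (by decide)
  -- the common argument, with a sign
  have key : ∀ e : ℤ, (e = 1 ∨ e = -1) → (2 : ℤ) ^ (M + 2) ∣ (l : ℤ) - e * 5 ^ m →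
      (2 : ℤ_[2]) ^ n ∣ x - lam (l : ℤ_[2]) * c' := by
    intro e he hd
    obtain ⟨w, hw⟩ := hd
    have he2 : (e : K) * e = 1 := by
      rcases he with rfl | rfl <;> norm_num
    have hze : v.valuation K (e : K) = 1 := by
      rcases he with rfl | rfl
      · rw [Int.cast_one, map_one]
      · rw [Int.cast_neg, Int.cast_one, Valuation.map_neg, map_one]
    have he0 : (e : K) ≠ 0 := fun h => by rw [h, zero_mul] at he2; exact zero_ne_one he2
    set z : K := l / (e * 5 ^ m) with hz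
    have hden : (e : K) * 5 ^ m ≠ 0 := mul_ne_zero he0 (pow_ne_zero _ hK0)
    have hz0 : z ≠ 0 := div_ne_zero hl0 hden
    have hz1 : z - 1 = (2 ^ (2 ^ n + 1)) * (2 ^ 2 * w) / (e * 5 ^ m) := by
      rw [hz, div_sub_one hden]
      congr 1
      have h1 : ((l : ℤ) : K) - (e : K) * 5 ^ m = ((2 : ℤ) ^ (M + 2) * w : ℤ) := by
        rw [← hw]
        push_cast
        ring
      rw [Int.cast_natCast] at h1
      rw [h1]
      push_cast
      rw [hM]
      ring
    have hzv : v.valuation K (z - 1) ≤ v.valuation K ((2 : K) ^ (2 ^ n + 1)) := by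
      rw [hz1, map_div₀, map_mul, map_mul, map_mul, hze, one_mul, map_pow (v.valuation K) 5, h5K,
        one_pow, div_one]
      refine mul_le_of_le_one_right' ?_
      rw [map_pow]
      exact mul_le_one' (pow_le_one' h2K 2) (Quad.val_int_le_one w)
    obtain ⟨rz, az, xz, hrz, hrz0, hxz⟩ := vv_ex hK hv hlam L hz0
    have hdz := v_cont hK hv hlam L hrz hrz0 n hzv hxz
    obtain ⟨rp, ap, xp, hrp, hrp0, hxp⟩ := vv_ex (z := (5 : K) ^ m * z) hK hv hlam L
      (mul_ne_zero (pow_ne_zero _ hK0) hz0)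
    have h1 : HasV lam inv ap ((m : ℤ) * c' + (1 : ℤ) * xz) :=
      hasV_zpow hK hv hlam L h₅ hrz hrp (m := (m : ℤ)) (n := 1) (by
        rw [hrp0, h50, hrz0, zpow_natCast, zpow_one, map_mul, map_pow, map_ofNat]) hc' hxz
    have h2 : HasV lam inv a ((m : ℤ) * c' + (1 : ℤ) * xz) := by
      rcases he with rfl | rfl
      · refine hasV_uniqK hK hv hlam L hrp h ?_ h1
        rw [h0, hrp0, ← map_natCast (algebraMap K (AlgebraicClosure K))]
        congr 1
        rw [hz]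
        push_cast
        field_simp
      · obtain ⟨rn, an, xn, hrn, hrn0, hxn⟩ := vv_ex (z := (-1 : K)) hK hv hlam L
          (neg_ne_zero.2 one_ne_zero)
        have h3 := hasV_negOne hK hv hlam L hrn (by rw [hrn0, map_neg, map_one])
        have h4 := hasV_zpow hK hv hlam L hrn hrp h (m := 1) (n := 1) (by
          rw [h0, hrn0, hrp0, zpow_one, zpow_one, ← map_mul,
            ← map_natCast (algebraMap K (AlgebraicClosure K))]
          congr 1
          rw [hz]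
          push_cast
          field_simp) h3 h1
        have h5 : (((1 : ℤ) : ℤ_[2]) * 0 + ((1 : ℤ) : ℤ_[2]) *
            (((m : ℤ) : ℤ_[2]) * c' + ((1 : ℤ) : ℤ_[2]) * xz)) =
            ((m : ℤ) : ℤ_[2]) * c' + ((1 : ℤ) : ℤ_[2]) * xz := by
          push_cast
          ring
        rwa [h5] at h4
    have h3 := hasV_uniq hx h2
    have h4 : x - lam (l : ℤ_[2]) * c' = -(lam l - m) * c' + xz := by
      rw [h3]
      push_cast
      ring
    rw [h4]
    exact dvd_add ((((pow_dvd_pow 2 hnM).trans hm).neg_right).mul_right _) hdz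
  rcases vv_near hlam hl hm with h1 | h1
  · exact key 1 (Or.inl rfl) (by rwa [one_mul])
  · exact key (-1) (Or.inr rfl) (by rwa [neg_one_mul, sub_neg_eq_add])

/-- approximation by integers -/
private theorem vv_approx (hres : ∀ x : 𝓞 K, x ∈ v.asIdeal ∨ x - 1 ∈ v.asIdeal)
    (h2 : v.valuation K (2 : K) = WithZero.exp (-1)) {u : K} (hu : v.valuation K u = 1) (M : ℕ) :
    ∃ j : ℤ, v.valuation K (u - j) ≤ v.valuation K ((2 : K) ^ M) := by
  induction M with
  | zero => exact ⟨0, by rw [Int.cast_zero, sub_zero, pow_zero, map_one, hu]⟩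
  | succ M ih =>
    obtain ⟨j, hj⟩ := ih
    have h20 : v.valuation K ((2 : K) ^ M) ≠ 0 := by
      rw [ne_eq, map_eq_zero]
      exact pow_ne_zero _ two_ne_zero
    have hstep : ∀ y : K, v.valuation K y < 1 →
        v.valuation K (2 ^ M * y) ≤ v.valuation K ((2 : K) ^ (M + 1)) := by
      intro y hy
      rw [pow_succ, map_mul, map_mul (v.valuation K) (2 ^ M) 2, h2]
      refine mul_le_mul' le_rfl ?_
      have h3 := le_exp_of_lt (n := 0) (by rwa [WithZero.exp_zero])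
      simpa using h3
    set y : K := (u - j) / 2 ^ M with hy
    have hy1 : v.valuation K y ≤ 1 := by
      rw [hy, map_div₀]
      exact div_le_one_of_le₀ hj zero_le
    have h2M : (2 : K) ^ M ≠ 0 := pow_ne_zero _ two_ne_zero
    rcases lt_or_eq_of_le hy1 with h | h
    · refine ⟨j, ?_⟩
      have h3 := hstep y h
      rwa [hy, mul_div_cancel₀ _ h2M] at h3
    · refine ⟨j + 2 ^ M, ?_⟩
      have h3 := hstep (y - 1) (Quad.sub_one_lt hres h)
      have h4 : (2 : K) ^ M * (y - 1) = u - ((j + 2 ^ M : ℤ) : K) := by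
        rw [mul_sub, hy, mul_div_cancel₀ _ h2M]
        push_cast
        ring
      rwa [h4] at h3

theorem exists_c (hK : IsBase K q s) (hv : (2 : 𝓞 K) ∈ v.asIdeal) (hlam : IsLam lam)
    {c : AlgebraicClosure K ≃+* AlgebraicClosure K} (hc : PA.IsConj s c)
    {κ : AbsGal K → AbsGal K}
    (hκ : ∀ (σ : AbsGal K) (x : AlgebraicClosure K), κ σ x = c (σ (c x)))
    (L : LocH (sysD K T (decomp ι)) (fun d => cyc (d : AbsGal K)) inv)
    {r₀ : ℕ → AlgebraicClosure K} {a₀ : AbsGal K → ℤ_[2]} (h₀ : IsKum r₀ a₀)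
    (h1 : HasV lam inv a₀ 1) :
    ∃ c' : ℤ_[2], IsUnit c' ∧ ∀ l : ℕ, Odd l → ∀ (r : ℕ → AlgebraicClosure K)
      (a : AbsGal K → ℤ_[2]), IsKum r a → r 0 = (l : AlgebraicClosure K) →
        HasV lam inv a (lam (l : ℤ_[2]) * c') := by
  obtain ⟨r₅, a₅, c', h₅, h50, hc'⟩ := vv_ex (z := (5 : K)) hK hv hlam L (by norm_num)
  rw [map_ofNat] at h50
  have hint := fun {l : ℕ} (hl : Odd l) {r : ℕ → AlgebraicClosure K} {a : AbsGal K → ℤ_[2]}
    (h : IsKum r a) (h0 : r 0 = (l : AlgebraicClosure K)) =>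
      vv_int hK hv hlam L h₅ h50 hc' hl h h0
  refine ⟨c', ?_, fun l hl r a h h0 => hint hl h h0⟩
  obtain ⟨hdeg, hs, hq, hq16⟩ := id hK
  obtain ⟨hres, h2⟩ := Quad.dyadic hdeg hs hq (by omega) hv
  -- the element of `K`
  have hfix : ∀ g : AbsGal K, g (r₀ 0) = r₀ 0 := by
    intro g
    rw [h₀.act, zp_eq_one.2 (by rw [pow_zero]; exact one_dvd _), one_mul]
  obtain ⟨x₀, hx₀⟩ := (InfiniteGalois.mem_range_algebraMap_iff_fixed (r₀ 0)).2 hfix
  have hx00 : x₀ ≠ 0 := by
    rintro rfl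
    rw [map_zero] at hx₀
    exact h₀.ne hx₀.symm
  have h20 : (2 : K) ≠ 0 := two_ne_zero
  obtain ⟨k, u, hu1, hxu⟩ : ∃ (k : ℤ) (u : K), v.valuation K u = 1 ∧ x₀ = 2 ^ k * u := by
    have hne : v.valuation K x₀ ≠ 0 := (v.valuation K).ne_zero_iff.2 hx00
    obtain ⟨k, hk⟩ : ∃ k : ℤ, v.valuation K x₀ = WithZero.exp k :=
      ⟨_, (WithZero.exp_log hne).symm⟩
    refine ⟨-k, x₀ / 2 ^ (-k), ?_, ?_⟩
    · rw [map_div₀, map_zpow₀, hk, h2, ← WithZero.exp_zsmul]
      simp
    · rw [mul_div_cancel₀ _ (zpow_ne_zero _ h20)]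
  have hu0 : u ≠ 0 := by
    rintro rfl
    rw [map_zero] at hu1
    exact zero_ne_one hu1
  obtain ⟨r2, a2, x2, hr2, hr20, -⟩ := vv_ex (z := (2 : K)) hK hv hlam L h20
  rw [map_ofNat] at hr20
  have hV2 := hasV_two hK hv hlam hc hκ L hr2 hr20
  obtain ⟨ru, au, xu, hru, hru0, hxu'⟩ := vv_ex hK hv hlam L hu0
  have h3 := hasV_zpow hK hv hlam L hr2 hru h₀ (m := k) (n := 1) (by
    rw [← hx₀, hxu, hr20, hru0, zpow_one, map_mul, map_zpow₀, map_ofNat]) hV2 hxu'
  have hxu1 : xu = 1 := by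
    have h4 := hasV_uniq h3 h1
    push_cast at h4
    rw [mul_zero, zero_add, one_mul] at h4
    exact h4
  obtain ⟨j, hj⟩ := vv_approx hres h2 hu1 3
  -- an odd natural number congruent to `u` modulo 8
  set l := (j % 8).toNat with hl
  have hlj : (l : ℤ) = j % 8 := Int.toNat_of_nonneg (Int.emod_nonneg _ (by norm_num))
  have hjl : v.valuation K (u - (l : K)) ≤ v.valuation K ((2 : K) ^ 3) := by
    have h4 : u - (l : K) = (u - j) + 2 ^ 3 * ((j / 8 : ℤ) : K) := by
      have h5 : (j : K) = ((8 * (j / 8) + j % 8 : ℤ) : K) := by rw [Int.mul_ediv_add_emod]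
      have h6 : (l : K) = ((j % 8 : ℤ) : K) := by rw [← hlj, Int.cast_natCast]
      rw [h6, h5]
      push_cast
      ring
    rw [h4]
    refine (Valuation.map_add _ _ _).trans (max_le hj ?_)
    rw [map_mul]
    exact mul_le_of_le_one_right' (Quad.val_int_le_one _)
  have h23 : v.valuation K ((2 : K) ^ 3) < 1 := by
    rw [map_pow, h2, ← WithZero.exp_nsmul, ← WithZero.exp_zero, WithZero.exp_lt_exp]
    norm_num
  have hlodd : Odd l := by
    by_contra hev
    rw [Nat.not_odd_iff_even] at hev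
    have h4 : v.valuation K (((l : ℤ)) : K) < 1 :=
      Quad.val_int_lt_one (l := 2) (by exact_mod_cast hv) (by exact_mod_cast hev.two_dvd)
    rw [Int.cast_natCast] at h4
    have h5 : v.valuation K u < 1 := by
      have h6 : u = (u - l) + l := by ring
      rw [h6]
      exact lt_of_le_of_lt (Valuation.map_add _ _ _) (max_lt (lt_of_le_of_lt hjl h23) h4)
    exact absurd hu1 h5.ne
  have hl1 : v.valuation K (l : K) = 1 := by
    have h4 := vv_val (K := K) hv (n := (l : ℤ)) (by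
      intro hd
      have : 2 ∣ l := by exact_mod_cast hd
      exact absurd (even_iff_two_dvd.2 this) (Nat.not_even_iff_odd.2 hlodd))
    rwa [Int.cast_natCast] at h4
  have hl0 : (l : K) ≠ 0 := by
    intro h
    rw [h, map_zero] at hl1
    exact zero_ne_one hl1
  obtain ⟨rl, al, xl, hrl, hrl0, hxl⟩ := vv_ex hK hv hlam L hl0
  have hVl := hint hlodd hrl (by rw [hrl0, map_natCast])
  obtain ⟨rz, az, xz, hrz, hrz0, hxz⟩ := vv_ex (z := u / l) hK hv hlam L (div_ne_zero hu0 hl0)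
  have hdz := v_cont hK hv hlam L hrz hrz0 1 (by
    have h4 : u / l - 1 = (u - l) / l := div_sub_one hl0
    rw [h4, map_div₀, hl1, div_one]
    exact hjl) hxz
  have h4 := hasV_zpow hK hv hlam L hrl hrz hru (m := 1) (n := 1) (by
    rw [hrl0, hrz0, hru0, zpow_one, zpow_one, ← map_mul]
    congr 1
    field_simp) hVl hxz
  have h5 := hasV_uniq hxu' h4
  rw [hxu1] at h5
  by_contra hcu
  have h6 : c' ∈ IsLocalRing.maximalIdeal ℤ_[2] := hcu
  rw [PadicInt.maximalIdeal_eq_span_p, Ideal.mem_span_singleton] at h6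
  push_cast at h6
  have h7 : (2 : ℤ_[2]) ∣ 1 := by
    rw [h5]
    push_cast
    rw [one_mul, one_mul]
    refine dvd_add (h6.mul_left _) ?_
    rwa [pow_one] at hdz
  have h8 : IsUnit (2 : ℤ_[2]) := isUnit_of_dvd_one h7
  have h9 : ¬ IsUnit (2 : ℤ_[2]) := by
    have := PadicInt.prime_p (p := 2)
    exact_mod_cast this.not_isUnit
  exact h9 h8

end Pool.Agent.Work.MP_787500_nt.GP
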