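import Mathlib
import Pool.Agent.Work.MP_787500_nt.GP.ADefs
import Pool.Agent.Work.MP_787500_nt.PA.SelCount

/-!
# Module N4_ODDAT (size M): elements of odd valuation at one prime

`F` is in the 2-tower. Let `h` be the class number: `v ^ h` is principal, so there is `x ∈ F` with
`v.valuation x = exp (-n)`, `n ≥ 1`, and `w.valuation x = 1` for all other `w` (`exists_gen` in
`PA/SunitRank.lean` is the same argument). Strong induction on `n` among the elements `x ≠ 0` with
`w.valuation x = 1` for all `w ≠ v` not above 2: if `n` is odd, done (`isSquare_exp_iff`). If `n` is even then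
`EvenOff2 x`, so by `sel_count` there is `T` with `x * ∏ i ∈ T, a i = y ^ 2`, `SU (a i)`; by `su_iff` the
`a i` have valuation 1 at all places not above 2, so `v.valuation y = exp (-n / 2)` and
`w.valuation y = 1` for the others; apply the induction hypothesis to `y`.
-/

set_option autoImplicit false
set_option linter.unusedSectionVars false

namespace Pool.Agent.Work.MP_787500_nt.GP

open IsDedekindDomain NumberField
open Pool.Agent.Work.MP_787500_nt.PA (TwoSys Sm1 Sm2 homs Coc Cob IsChar goodSys core cyc Opn SU)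
open Pool.Agent.Work.MP_787500_nt.Gn (GoodG)

private theorem N4_OddAt_gen {F : Type*} [Field F] [NumberField F] (w : HeightOneSpectrum (𝓞 F)) :
    ∃ g : F, g ≠ 0 ∧ w.valuation F g < 1 ∧
      ∀ w' : HeightOneSpectrum (𝓞 F), w' ≠ w → w'.valuation F g = 1 := by
  classical
  let I : nonZeroDivisors (Ideal (𝓞 F)) := ⟨w.asIdeal, mem_nonZeroDivisors_of_ne_zero w.ne_bot⟩
  set h := Nat.card (ClassGroup (𝓞 F)) with hh
  have hpos : 0 < h := Nat.card_pos
  have h1 : ClassGroup.mk0 (I ^ h) = 1 := by
    rw [map_pow]; exact pow_card_eq_one'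
  have h2 : (w.asIdeal ^ h).IsPrincipal := by
    have := (ClassGroup.mk0_eq_one_iff (I ^ h).2).1 h1
    simpa [I] using this
  obtain ⟨g, hg⟩ := h2.principal
  have hg' : w.asIdeal ^ h = Ideal.span {g} := hg
  have hg0 : g ≠ 0 := by
    rintro rfl
    rw [Ideal.span_singleton_zero] at hg'
    exact pow_ne_zero h w.ne_bot hg'
  have hgF : algebraMap (𝓞 F) F g ≠ 0 := by
    intro h0
    exact hg0 ((FaithfulSMul.algebraMap_injective (𝓞 F) F) (by rw [h0, map_zero]))
  have hgw : g ∈ w.asIdeal := by
    have : g ∈ w.asIdeal ^ h := by rw [hg']; exact Ideal.mem_span_singleton_self g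
    exact Ideal.pow_le_self hpos.ne' this
  refine ⟨algebraMap (𝓞 F) F g, hgF, (HeightOneSpectrum.valuation_lt_one_iff_mem _ _).2 hgw, ?_⟩
  intro w' hne
  refine le_antisymm (w'.valuation_le_one g) (not_lt.1 fun hlt => hne ?_)
  rw [HeightOneSpectrum.valuation_lt_one_iff_mem] at hlt
  have hle : w.asIdeal ≤ w'.asIdeal := by
    have : w.asIdeal ^ h ≤ w'.asIdeal := by
      rw [hg', Ideal.span_singleton_le_iff_mem]; exact hlt
    exact w'.isPrime.le_of_pow_le this
  have := w.isMaximal.eq_of_le w'.isPrime.ne_top hle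
  exact HeightOneSpectrum.ext this.symm


universe u

theorem exists_oddAt {K F : Type u} [Field K] [NumberField K] [Field F] [NumberField F]
    [Algebra K F] {q : ℕ} {s : K} (hK : IsBase K q s) (hF : InTwoTower K F)
    {v : HeightOneSpectrum (𝓞 F)} (hv : (2 : 𝓞 F) ∉ v.asIdeal) : ∃ y : F, OddAt v y := by
  have key : ∀ n : ℕ, 1 ≤ n → ∀ x : F, x ≠ 0 → v.valuation F x = WithZero.exp (-(n : ℤ)) →
      (∀ w : HeightOneSpectrum (𝓞 F), w ≠ v → (2 : 𝓞 F) ∉ w.asIdeal → w.valuation F x = 1) →
      ∃ y : F, OddAt v y := by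
    intro n
    induction n using Nat.strong_induction_on with
    | _ n ih =>
      intro hn x hx0 hxv hx
      rcases Nat.even_or_odd n with he | ho
      · obtain ⟨k, hk⟩ := he
        obtain ⟨a, ha, -, -, hsel⟩ := PA.sel_count hK hF rfl
        have hev : EvenOff2 x := by
          intro Q hQ
          by_cases hQv : Q = v
          · rw [hQv, hxv, isSquare_exp_iff, even_neg, Int.even_coe_nat]
            exact ⟨k, hk⟩
          · rw [hx Q hQv hQ]
            exact ⟨1, (one_mul 1).symm⟩
        obtain ⟨T, y, hy⟩ := hsel x hx0 hev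
        have hprod : ∀ w : HeightOneSpectrum (𝓞 F), (2 : 𝓞 F) ∉ w.asIdeal →
            w.valuation F (∏ i ∈ T, a i) = 1 := by
          intro w hw
          rw [map_prod]
          exact Finset.prod_eq_one (fun i _ => (PA.su_iff.1 (ha i)).2 w hw)
        have hprod0 : ∏ i ∈ T, a i ≠ 0 := Finset.prod_ne_zero_iff.2 (fun i _ => (ha i).1)
        have hy0 : y ≠ 0 := by
          rintro rfl
          rw [mul_zero] at hy
          exact (mul_ne_zero hx0 hprod0) hy
        have hyv : ∀ w : HeightOneSpectrum (𝓞 F), (2 : 𝓞 F) ∉ w.asIdeal →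
            w.valuation F y ^ 2 = w.valuation F x := by
          intro w hw
          have h1 := congrArg (w.valuation F) hy
          rw [map_mul, map_mul, hprod w hw, mul_one] at h1
          rw [sq, h1]
        refine ih k (by omega) (by omega) y hy0 ?_ ?_
        · have h1 := hyv v hv
          have h2 : v.valuation F y ≠ 0 := (Valuation.ne_zero_iff _).2 hy0
          rw [hxv] at h1
          rw [← WithZero.exp_log h2, ← WithZero.exp_nsmul] at h1
          have h3 := WithZero.exp_injective h1
          rw [← WithZero.exp_log h2]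
          congr 1
          rw [hk] at h3
          push_cast at h3
          rw [nsmul_eq_mul] at h3
          push_cast at h3
          linarith
        · intro w hwv hw
          have h1 := hyv w hw
          rw [hx w hwv hw] at h1
          exact (pow_eq_one_iff_of_nonneg zero_le (by norm_num)).1 h1
      · refine ⟨x, hx0, ?_, hx⟩
        rw [hxv, isSquare_exp_iff, even_neg, Int.even_coe_nat, Nat.not_even_iff_odd]
        exact ho
  obtain ⟨g, hg0, hgv, hg⟩ := N4_OddAt_gen v
  have h2 : v.valuation F g ≠ 0 := (Valuation.ne_zero_iff _).2 hg0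
  obtain ⟨n, hn⟩ : ∃ n : ℤ, v.valuation F g = WithZero.exp n := ⟨_, (WithZero.exp_log h2).symm⟩
  rw [hn, ← WithZero.exp_zero, WithZero.exp_lt_exp] at hgv
  refine key n.natAbs (by omega) g hg0 ?_ (fun w hwv _ => hg w hwv)
  rw [hn]
  congr 1
  omega

end Pool.Agent.Work.MP_787500_nt.GP
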