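import Mathlib
import Pool.Agent.Work.MP_787500_nt.GP.BDefs
import Pool.Agent.Work.MP_787500_nt.GP.K2_KumZ
import Pool.Agent.Work.MP_787500_nt.GP.LT3_Gen
import Pool.Agent.Work.MP_787500_nt.GP.N4_OddAt
import Pool.Agent.Work.MP_787500_nt.PA.KappaP

/-!
# Module B3_ALPHA (size M-L): elements of odd valuation at one prime above `l`

`p = P ∩ 𝓞 K` (a place of `K` that contains `l`), `α ∈ K` with `OddAt p α` (`exists_oddAt` with `F = K`),
`p.valuation α = exp (-h)`, `h` odd (`isSquare_exp_iff`). `r 0 = α`, `a` its Kummer cocycle. `σ` = the automorphism of `K`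
with `σ s = -s` (`Quad.exists_conj`); `c (algebraMap x) = algebraMap (σ x)` (`K = ℚ (s)`). `p' = conjPrime σ p ≠ p`: one of
`A + s`, `A - s` is in `p`, not both (else `2 s`, `s ^ 2 = -q`, `l` would give `1 ∈ p`).
* `UT T (r 0)`: a prime `Q` that contains neither 2 nor an element of `T` (`l ∈ T`) lies over a place `w ≠ p`, so
  `w.valuation α = 1` and `UnitAt Q α` (`unitAt_val`; if `Q ∩ 𝓞 K = 0` then `Q = 0`: every element is a unit
  there).
* norm: `α * c α = N > 0` rational (`PA.conj_norm`). `N / l ^ h` has valuation 1 at all places not above 2: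
  at `p`: `α` has `exp (-h)`, `c α = σ α` has `p.valuation (σ α) = (conjPrime σ p).valuation α = 1`, `l` has
  `exp (-1)` (`split_val`); the same at `p'`; at other places all three have valuation 1 (`l ∉ w`: the only places
  above `l` are `p`, `p'`: `w ∋ l` contains `A + s` or `A - s`, and is equal to `p` or `p'`; or use that `l * unit`...: `(l) = p p'`).
  So `SU (N / l ^ h)` (`su_iff`), a positive rational number: it is `2 ^ j` (`kp_pow` in `PA/KappaP.lean`, private: copy it).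
* on `P.inertia`: `b` = Kummer cocycle of `l` (sequence `rl`). `r * rl ^ (-h)` is a coherent sequence starting at `α / l ^ h`,
  a unit at `P`, with cocycle `a - h b` (`IsKum.mul`, `IsKum.inv`); `IsKum.inertia` gives `a n = h * b n`.
* `a (κ n) = 0` for `n ∈ P.inertia`: `κ n` is in the inertia group of `c P = {x | c x ∈ P}`, which lies over `p'`, where
  `α` is a unit. For `l' ≠ l` and `P' ∋ l'`: `P'` and `c P'` do not contain `l`, so they lie over places different
  from `p`, and `α` is a unit there; `IsKum.inertia`.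
-/

set_option autoImplicit false
set_option linter.unusedSectionVars false

namespace Pool.Agent.Work.MP_787500_nt.GP

open IsDedekindDomain NumberField
open Pool.Agent.Work.MP_787500_nt.PA (TwoSys Sm1 Sm2 homs Coc Cob IsChar goodSys core cyc Opn SU)
open Pool.Agent.Work.MP_787500_nt.Gn (GoodG)

universe u

variable {K : Type u} [Field K] [NumberField K]


private theorem al_charZero : CharZero (AlgebraicClosure K) :=
  charZero_of_injective_algebraMap (algebraMap K (AlgebraicClosure K)).injective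

private theorem al_tower : InTwoTower K K := by
  refine ⟨K, inferInstance, inferInstance, Algebra.id K, Algebra.id K, inferInstance,
    inferInstance, ⟨0, ?_⟩, ?_⟩
  · rw [Module.finrank_self, pow_zero]
  · intro Q _
    have h2 : Algebra.FormallyUnramified (𝓞 K) (Localization.AtPrime Q.asIdeal) :=
      Algebra.FormallyUnramified.of_isLocalization Q.asIdeal.primeCompl
    exact h2

/-- a positive rational number which is a unit away from 2 is a power of 2 -/
private theorem al_pow {N : ℚ} (hN : 0 < N) (h : SU (N : AlgebraicClosure K)) :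
    ∃ j : ℤ, N = 2 ^ j := by
  have hz := al_charZero (K := K)
  have hint : ∀ x : ℚ, IsIntegral ℤ (x : AlgebraicClosure K) → ∃ n : ℤ, (n : ℚ) = x := by
    intro x hx
    have h1 : (x : AlgebraicClosure K) = algebraMap ℚ (AlgebraicClosure K) x := by
      rw [eq_ratCast]
    rw [h1] at hx
    have h2 : IsIntegral ℤ x :=
      (isIntegral_algebraMap_iff (algebraMap ℚ (AlgebraicClosure K)).injective).1 hx
    obtain ⟨n, hn⟩ := IsIntegrallyClosed.isIntegral_iff.1 h2
    exact ⟨n, by rw [← hn]; simp⟩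
  obtain ⟨-, ⟨A, hA⟩, ⟨B, hB⟩⟩ := h
  have hA' : (2 : AlgebraicClosure K) ^ A * (N : AlgebraicClosure K) =
      ((2 ^ A * N : ℚ) : AlgebraicClosure K) := by push_cast; ring
  have hB' : (2 : AlgebraicClosure K) ^ B * (N : AlgebraicClosure K)⁻¹ =
      ((2 ^ B * N⁻¹ : ℚ) : AlgebraicClosure K) := by push_cast; ring
  rw [hA'] at hA
  rw [hB'] at hB
  obtain ⟨n, hn⟩ := hint _ hA
  obtain ⟨m, hm⟩ := hint _ hB
  have hnm : n * m = 2 ^ (A + B) := by
    have : (n : ℚ) * m = 2 ^ (A + B) := by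
      rw [hn, hm]
      field_simp
      ring
    exact_mod_cast this
  have hn0 : 0 < n := by
    have : (0 : ℚ) < n := by rw [hn]; positivity
    exact_mod_cast this
  obtain ⟨n', rfl⟩ := Int.eq_ofNat_of_zero_le hn0.le
  have hdvd : n' ∣ 2 ^ (A + B) := by
    have : (n' : ℤ) ∣ ((2 ^ (A + B) : ℕ) : ℤ) := ⟨m, by rw [hnm]; push_cast; rfl⟩
    exact_mod_cast this
  obtain ⟨i, -, hi⟩ := (Nat.dvd_prime_pow Nat.prime_two).1 hdvd
  refine ⟨(i : ℤ) - (A : ℤ), ?_⟩
  rw [zpow_sub₀ (by norm_num), zpow_natCast, zpow_natCast, eq_div_iff (by positivity)]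
  rw [hi] at hn
  push_cast at hn
  rw [hn]
  ring

private theorem al_two {l : ℕ} (hl : l.Prime) (hl2 : l ≠ 2)
    {P : Ideal (𝓞 (AlgebraicClosure K))} (hP : P.IsPrime)
    (hlP : (l : 𝓞 (AlgebraicClosure K)) ∈ P) : (2 : 𝓞 (AlgebraicClosure K)) ∉ P := by
  intro h
  obtain ⟨k, hk⟩ := hl.odd_of_ne_two hl2
  apply hP.ne_top
  rw [Ideal.eq_top_iff_one]
  have : (1 : 𝓞 (AlgebraicClosure K)) = l - 2 * k := by rw [hk]; push_cast; ring
  rw [this]
  exact P.sub_mem hlP (P.mul_mem_right _ h)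

private theorem al_place {l : ℕ} (hl : l.Prime) {P : Ideal (𝓞 (AlgebraicClosure K))}
    (hP : P.IsPrime) (hlP : (l : 𝓞 (AlgebraicClosure K)) ∈ P) :
    ∃ v : HeightOneSpectrum (𝓞 K), P.comap (algebraMap (𝓞 K) (𝓞 (AlgebraicClosure K))) = v.asIdeal ∧
      (l : 𝓞 K) ∈ v.asIdeal := by
  have hmem : (l : 𝓞 K) ∈ P.comap (algebraMap (𝓞 K) (𝓞 (AlgebraicClosure K))) := by
    rw [Ideal.mem_comap, map_natCast]
    exact hlP
  have hne : P.comap (algebraMap (𝓞 K) (𝓞 (AlgebraicClosure K))) ≠ ⊥ := by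
    intro h
    rw [h, Ideal.mem_bot] at hmem
    exact hl.ne_zero (by exact_mod_cast hmem)
  exact ⟨⟨_, Ideal.comap_isPrime _ _, hne⟩, rfl, hmem⟩

/-- the action on `K` -/
private theorem al_conj {q : ℕ} {s : K} (hK : IsBase K q s)
    {c : AlgebraicClosure K ≃+* AlgebraicClosure K} (hc : PA.IsConj s c) :
    ∃ σ : K ≃+* K, σ s = -s ∧ (∀ x, σ (σ x) = x) ∧
      ∀ x, c (algebraMap K (AlgebraicClosure K) x) = algebraMap K (AlgebraicClosure K) (σ x) := by
  obtain ⟨σ, hσ⟩ := Quad.exists_conj hK.1 hK.2.1 hK.2.2.1.pos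
  refine ⟨σ, hσ, fun x => ?_, fun x => ?_⟩
  · obtain ⟨a, b, rfl⟩ := Quad.exists_coords hK.1 hK.2.1 hK.2.2.1.pos x
    rw [map_add, map_mul, map_ratCast, map_ratCast, hσ, map_add, map_mul, map_ratCast,
      map_ratCast, map_neg, hσ, neg_neg]
  · obtain ⟨a, b, rfl⟩ := Quad.exists_coords hK.1 hK.2.1 hK.2.2.1.pos x
    have e : ∀ r : ℚ, c (algebraMap K (AlgebraicClosure K) (r : K)) =
        algebraMap K (AlgebraicClosure K) (σ (r : K)) := by
      intro r
      have hz := al_charZero (K := K)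
      rw [map_ratCast, map_ratCast, map_ratCast, map_ratCast]
    rw [map_add, map_mul, map_add, map_mul, e, e, hc.neg, map_add, map_mul, hσ, map_add, map_mul,
      map_neg]

/-- two places which contain `l` and `A + ε s` are equal -/
private theorem al_eq {q : ℕ} {s : K} (hK : IsBase K q s) {l : ℕ} (hl : l.Prime) (hl2 : l ≠ 2)
    {t : 𝓞 K} (ht : algebraMap (𝓞 K) K t = s) {A ε : ℤ} (hε : ε * ε = 1)
    {p w : HeightOneSpectrum (𝓞 K)} (hp : (l : 𝓞 K) ∈ p.asIdeal) (hw : (l : 𝓞 K) ∈ w.asIdeal)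
    (hp1 : (A : 𝓞 K) + ε * t ∈ p.asIdeal) (hw1 : (A : 𝓞 K) + ε * t ∈ w.asIdeal) : w = p := by
  have hle : w.asIdeal ≤ p.asIdeal := by
    intro x hx
    obtain ⟨a, b, hab, -⟩ := Quad.exists_int_coords hK.1 hK.2.1 hK.2.2.1
      (by have := hK.2.2.2; omega) (RingOfIntegers.isIntegral_coe x)
    have h2 : 2 * x = (a : 𝓞 K) + b * t := by
      apply RingOfIntegers.ext
      have e1 : algebraMap (𝓞 K) K (2 * x) = 2 * algebraMap (𝓞 K) K x := by
        rw [map_mul, map_ofNat]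
      have e2 : algebraMap (𝓞 K) K ((a : 𝓞 K) + b * t) = (a : K) + b * s := by
        rw [map_add, map_mul, map_intCast, map_intCast, ht]
      exact e1.trans (hab.trans e2.symm)
    have hε' : (ε : 𝓞 K) * ε = 1 := by exact_mod_cast congrArg (fun z : ℤ => (z : 𝓞 K)) hε
    have h3 : 2 * x = ((a - b * ε * A : ℤ) : 𝓞 K) + b * ε * ((A : 𝓞 K) + ε * t) := by
      rw [h2]
      push_cast
      linear_combination (-(b : 𝓞 K) * t) * hε'
    have h4 : ((a - b * ε * A : ℤ) : 𝓞 K) ∈ w.asIdeal := by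
      have h5 : ((a - b * ε * A : ℤ) : 𝓞 K) = 2 * x - b * ε * ((A : 𝓞 K) + ε * t) := by
        rw [h3]
        ring
      rw [h5]
      exact w.asIdeal.sub_mem (w.asIdeal.mul_mem_left _ hx) (w.asIdeal.mul_mem_left _ hw1)
    have h5 : ((a - b * ε * A : ℤ) : 𝓞 K) ∈ p.asIdeal :=
      Quad.mem_of_dvd hp (Quad.dvd_of_mem hl hw h4)
    have h6 : 2 * x ∈ p.asIdeal := by
      rw [h3]
      exact p.asIdeal.add_mem h5 (p.asIdeal.mul_mem_left _ hp1)
    exact (p.isPrime.mem_or_mem h6).resolve_left (Quad.two_notMem hl hl2 hp)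
  exact HeightOneSpectrum.ext (w.isMaximal.eq_of_le p.isPrime.ne_top hle)

/-- the places above `l` -/
private theorem al_places {q : ℕ} {s : K} (hK : IsBase K q s) {l : ℕ} (hl : SplitPr q l)
    {σ : K ≃+* K} (hσ : σ s = -s) {p : HeightOneSpectrum (𝓞 K)} (hp : (l : 𝓞 K) ∈ p.asIdeal) :
    conjPrime σ p ≠ p ∧ ∀ w : HeightOneSpectrum (𝓞 K), (l : 𝓞 K) ∈ w.asIdeal →
      w = p ∨ w = conjPrime σ p := by
  obtain ⟨hlp, hl2, hlq, A, hA⟩ := hl
  obtain ⟨t, ht, ht2⟩ := Quad.exists_int_s hK.2.1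
  have hqp := hK.2.2.1
  have hlA : ¬ (l : ℤ) ∣ A := by
    intro h
    have h1 : (l : ℤ) ∣ q := (Int.dvd_add_right (dvd_pow h two_ne_zero)).1 hA
    have h2 : l ∣ q := by exact_mod_cast h1
    exact hlq ((Nat.prime_dvd_prime_iff_eq hlp hqp).1 h2)
  have hl2A : ¬ (l : ℤ) ∣ 2 * A := by
    intro h
    rcases Int.Prime.dvd_mul' hlp h with h | h
    · have h3 : l ∣ 2 := by exact_mod_cast h
      exact hl2 ((Nat.prime_dvd_prime_iff_eq hlp Nat.prime_two).1 h3)
    · exact hlA h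
  have hcase : ∀ w : HeightOneSpectrum (𝓞 K), (l : 𝓞 K) ∈ w.asIdeal →
      (A : 𝓞 K) + (1 : ℤ) * t ∈ w.asIdeal ∨ (A : 𝓞 K) + (-1 : ℤ) * t ∈ w.asIdeal := by
    intro w hw
    apply w.isPrime.mem_or_mem
    have h1 : ((A : 𝓞 K) + (1 : ℤ) * t) * ((A : 𝓞 K) + (-1 : ℤ) * t) = ((A ^ 2 + q : ℤ) : 𝓞 K) := by
      push_cast
      linear_combination -ht2
    rw [h1]
    exact Quad.mem_of_dvd hw hA
  have hboth : ∀ w : HeightOneSpectrum (𝓞 K), (l : 𝓞 K) ∈ w.asIdeal →
      ¬ ((A : 𝓞 K) + (1 : ℤ) * t ∈ w.asIdeal ∧ (A : 𝓞 K) + (-1 : ℤ) * t ∈ w.asIdeal) := by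
    rintro w hw ⟨h1, h2⟩
    have h3 : ((2 * A : ℤ) : 𝓞 K) ∈ w.asIdeal := by
      have h4 : ((2 * A : ℤ) : 𝓞 K) = ((A : 𝓞 K) + (1 : ℤ) * t) + ((A : 𝓞 K) + (-1 : ℤ) * t) := by
        push_cast
        ring
      rw [h4]
      exact w.asIdeal.add_mem h1 h2
    exact hl2A (Quad.dvd_of_mem hlp hw h3)
  have hσt : RingOfIntegers.mapRingEquiv σ t = -t := by
    apply RingOfIntegers.ext
    show σ (algebraMap (𝓞 K) K t) = -(algebraMap (𝓞 K) K t)
    rw [ht, hσ]
  have hconj : ∀ w : HeightOneSpectrum (𝓞 K), ∀ ε : ℤ, (A : 𝓞 K) + ε * t ∈ (conjPrime σ w).asIdeal ↔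
      (A : 𝓞 K) + (-ε : ℤ) * t ∈ w.asIdeal := by
    intro w ε
    rw [mem_conjPrime, map_add, map_mul, map_intCast, map_intCast, hσt]
    have : (A : 𝓞 K) + ε * -t = (A : 𝓞 K) + (-ε : ℤ) * t := by
      push_cast
      ring
    rw [this]
  have hlc : (l : 𝓞 K) ∈ (conjPrime σ p).asIdeal := by
    rw [mem_conjPrime, map_natCast]
    exact hp
  refine ⟨fun h => ?_, fun w hw => ?_⟩
  · rcases hcase p hp with h1 | h1
    · have h2 := (hconj p (-1)).2 (by rw [neg_neg]; exact h1)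
      rw [h] at h2
      exact hboth p hp ⟨h1, h2⟩
    · have h2 := (hconj p 1).2 h1
      rw [h] at h2
      exact hboth p hp ⟨h2, h1⟩
  · rcases hcase p hp with h1 | h1
    · rcases hcase w hw with h2 | h2
      · exact Or.inl (al_eq hK hlp hl2 ht (by norm_num) hp hw h1 h2)
      · refine Or.inr (al_eq hK hlp hl2 ht (ε := -1) (by norm_num) hlc hw ?_ h2)
        exact (hconj p (-1)).2 (by rw [neg_neg]; exact h1)
    · rcases hcase w hw with h2 | h2
      · refine Or.inr (al_eq hK hlp hl2 ht (ε := 1) (by norm_num) hlc hw ?_ h2)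
        exact (hconj p 1).2 h1
      · exact Or.inl (al_eq hK hlp hl2 ht (ε := -1) (by norm_num) hp hw h1 h2)

private theorem al_kum_pow {r : ℕ → AlgebraicClosure K} {b : AbsGal K → ℤ_[2]} (h : IsKum r b)
    (m : ℕ) : IsKum (fun k => r k ^ m) (fun g => (m : ℤ_[2]) * b g) := by
  induction m with
  | zero =>
    refine ⟨?_, fun k => ?_, fun g k => ?_⟩
    · simp
    · simp
    · have h1 : zp K k ((0 : ℕ) * b g) = 1 := by
        rw [Nat.cast_zero, zero_mul]
        exact zp_eq_one.2 (dvd_zero _)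
      simp only [pow_zero, map_one, mul_one]
      exact h1.symm
  | succ m ih =>
    have h1 := ih.mul h
    have e1 : (fun k => r k ^ m * r k) = fun k => r k ^ (m + 1) := by
      funext k
      rw [pow_succ]
    have e2 : (fun g => (m : ℤ_[2]) * b g + b g) = fun g => ((m + 1 : ℕ) : ℤ_[2]) * b g := by
      funext g
      push_cast
      ring
    rw [e1, e2] at h1
    exact h1

private theorem al_kum_zpow {r : ℕ → AlgebraicClosure K} {b : AbsGal K → ℤ_[2]} (h : IsKum r b)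
    (m : ℤ) : IsKum (fun k => r k ^ m) (fun g => (m : ℤ_[2]) * b g) := by
  obtain ⟨n, rfl | rfl⟩ := m.eq_nat_or_neg
  · have h1 := al_kum_pow h n
    have e1 : (fun k => r k ^ n) = fun k => r k ^ (n : ℤ) := by
      funext k
      rw [zpow_natCast]
    have e2 : (fun g => (n : ℤ_[2]) * b g) = fun g => ((n : ℤ) : ℤ_[2]) * b g := by
      funext g
      push_cast
      ring
    rw [e1, e2] at h1
    exact h1
  · have h1 := (al_kum_pow h n).inv
    have e1 : (fun k => (r k ^ n)⁻¹) = fun k => r k ^ (-(n : ℤ)) := by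
      funext k
      rw [zpow_neg, zpow_natCast]
    have e2 : (fun g => -((n : ℤ_[2]) * b g)) = fun g => ((-(n : ℤ) : ℤ) : ℤ_[2]) * b g := by
      funext g
      push_cast
      ring
    rw [e1, e2] at h1
    exact h1

/-- the conjugate of an inertia element -/
private theorem al_inertia {c : AlgebraicClosure K ≃+* AlgebraicClosure K} (h2 : ∀ x, c (c x) = x)
    {κ : AbsGal K → AbsGal K}
    (hκ : ∀ (σ : AbsGal K) (x : AlgebraicClosure K), κ σ x = c (σ (c x)))
    {Q : Ideal (𝓞 (AlgebraicClosure K))} {n : AbsGal K} (hn : n ∈ Q.inertia (AbsGal K)) :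
    κ n ∈ (Q.comap ((RingOfIntegers.mapRingEquiv c : 𝓞 (AlgebraicClosure K) ≃+*
      𝓞 (AlgebraicClosure K)) : 𝓞 (AlgebraicClosure K) →+* 𝓞 (AlgebraicClosure K))).inertia
      (AbsGal K) := by
  let C : 𝓞 (AlgebraicClosure K) ≃+* 𝓞 (AlgebraicClosure K) := RingOfIntegers.mapRingEquiv c
  intro x
  show (C : 𝓞 (AlgebraicClosure K) →+* 𝓞 (AlgebraicClosure K)) (κ n • x - x) ∈ Q
  have h3 : (C : 𝓞 (AlgebraicClosure K) →+* 𝓞 (AlgebraicClosure K)) (κ n • x - x) =
      n • C x - C x := by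
    rw [map_sub]
    congr 1
    apply RingOfIntegers.ext
    show c (κ n (x : AlgebraicClosure K)) = n (c (x : AlgebraicClosure K))
    rw [hκ, h2]
  rw [h3]
  exact hn (C x)

theorem exists_alpha {q : ℕ} {s : K} (hK : IsBase K q s) {l : ℕ} (hl : SplitPr q l)
    {T : Finset ℕ} (hlT : l ∈ T) {c : AlgebraicClosure K ≃+* AlgebraicClosure K}
    (hc : PA.IsConj s c) {κ : AbsGal K → AbsGal K}
    (hκ : ∀ (σ : AbsGal K) (x : AlgebraicClosure K), κ σ x = c (σ (c x)))
    {P : Ideal (𝓞 (AlgebraicClosure K))} (hP : P.IsPrime)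
    (hlP : (l : 𝓞 (AlgebraicClosure K)) ∈ P) :
    ∃ (r : ℕ → AlgebraicClosure K) (a : AbsGal K → ℤ_[2]) (h j : ℤ), Odd h ∧ IsKum r a ∧
      UT T (r 0) ∧ r 0 * c (r 0) = (l : AlgebraicClosure K) ^ h * 2 ^ j ∧
      (∀ (rl : ℕ → AlgebraicClosure K) (b : AbsGal K → ℤ_[2]), IsKum rl b →
        rl 0 = (l : AlgebraicClosure K) → ∀ n ∈ P.inertia (AbsGal K), a n = h * b n) ∧
      (∀ n ∈ P.inertia (AbsGal K), a (κ n) = 0) ∧
      ∀ (l' : ℕ), l'.Prime → l' ≠ 2 → l' ≠ l → ∀ P' : Ideal (𝓞 (AlgebraicClosure K)),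
        P'.IsPrime → (l' : 𝓞 (AlgebraicClosure K)) ∈ P' → ∀ n ∈ P'.inertia (AbsGal K),
          a n = 0 ∧ a (κ n) = 0 := by

  classical
  have hz := al_charZero (K := K)
  have hl' := hl
  obtain ⟨hlp, hl2, hlq, -⟩ := hl'
  obtain ⟨σ, hσs, hσσ, hcσ⟩ := al_conj hK hc
  obtain ⟨p, hpP, hlp'⟩ := al_place hlp hP hlP
  have h2p : (2 : 𝓞 K) ∉ p.asIdeal := Quad.two_notMem hlp hl2 hlp'
  obtain ⟨α, hα0, hαp, hαw⟩ := exists_oddAt hK al_tower h2p
  obtain ⟨hne, hpl⟩ := al_places hK hl hσs hlp'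
  -- the exponent
  obtain ⟨h, hh⟩ : ∃ h : ℤ, p.valuation K α = WithZero.exp (-h) := by
    refine ⟨-WithZero.log (p.valuation K α), ?_⟩
    rw [neg_neg]
    exact (WithZero.exp_log ((p.valuation K).ne_zero_iff.2 hα0)).symm
  have hodd : Odd h := by
    by_contra hev
    rw [Int.not_odd_iff_even] at hev
    obtain ⟨m, hm⟩ := hev
    apply hαp
    rw [hh, hm]
    refine ⟨WithZero.exp (-m), ?_⟩
    rw [← WithZero.exp_add]
    congr 1
    ring
  have hl0 : (l : K) ≠ 0 := by exact_mod_cast hlp.ne_zero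
  -- unit at the other places
  have hunit : ∀ (Q : Ideal (𝓞 (AlgebraicClosure K))), Q.IsPrime →
      (2 : 𝓞 (AlgebraicClosure K)) ∉ Q →
      Q.comap (algebraMap (𝓞 K) (𝓞 (AlgebraicClosure K))) ≠ p.asIdeal →
      UnitAt Q (algebraMap K (AlgebraicClosure K) α) := by
    intro Q hQ hQ2 hQp
    by_cases hb : Q.comap (algebraMap (𝓞 K) (𝓞 (AlgebraicClosure K))) = ⊥
    · obtain ⟨a, b, hb0, hab⟩ := IsFractionRing.div_surjective (A := 𝓞 K) α
      have hb1 : b ≠ 0 := nonZeroDivisors.ne_zero hb0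
      have ha1 : a ≠ 0 := by
        rintro rfl
        rw [map_zero, zero_div] at hab
        exact hα0 hab.symm
      have hQn : ∀ x : 𝓞 K, x ≠ 0 → algebraMap (𝓞 K) (𝓞 (AlgebraicClosure K)) x ∉ Q := by
        intro x hx h1
        apply hx
        have h2 : x ∈ Q.comap (algebraMap (𝓞 K) (𝓞 (AlgebraicClosure K))) := h1
        rw [hb, Ideal.mem_bot] at h2
        exact h2
      refine ⟨_, _, hQn a ha1, hQn b hb1, ?_⟩
      show algebraMap K (AlgebraicClosure K) α * algebraMap K (AlgebraicClosure K)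
        (algebraMap (𝓞 K) K b) = algebraMap K (AlgebraicClosure K) (algebraMap (𝓞 K) K a)
      rw [← map_mul, ← hab, div_mul_cancel₀]
      intro h1
      exact hb1 ((map_eq_zero_iff _ (RingOfIntegers.coe_injective)).1 h1)
    · have hw := unitAt_val hQ (v := ⟨_, Ideal.comap_isPrime _ Q, hb⟩) rfl (x := α)
      refine hw.2 (hαw _ ?_ ?_)
      · intro h1
        apply hQp
        rw [← h1]
      · intro h1
        apply hQ2
        have h3 : algebraMap (𝓞 K) (𝓞 (AlgebraicClosure K)) 2 ∈ Q := h1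
        rwa [map_ofNat] at h3
  obtain ⟨r, hr0, hrr⟩ := exists_roots (K := K) (algebraMap K (AlgebraicClosure K) α)
  have hr0' : r 0 ≠ 0 := by
    rw [hr0]
    exact (map_ne_zero _).2 hα0
  obtain ⟨a, ha⟩ := exists_isKum hr0' (fun g => by rw [hr0, AlgEquiv.commutes]) hrr
  -- elements of inertia groups at other primes
  have hzero : ∀ (l' : ℕ), l'.Prime → l' ≠ 2 → l' ≠ l → ∀ Q : Ideal (𝓞 (AlgebraicClosure K)),
      Q.IsPrime → (l' : 𝓞 (AlgebraicClosure K)) ∈ Q → ∀ n ∈ Q.inertia (AbsGal K), a n = 0 := by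
    intro l' hl'p hl'2 hl'l Q hQ hlQ n hn
    have h2Q := al_two hl'p hl'2 hQ hlQ
    refine ha.inertia hQ h2Q ?_ hn
    rw [hr0]
    refine hunit Q hQ h2Q fun h1 => hl'l ?_
    have h3 : (l' : 𝓞 K) ∈ p.asIdeal := by
      rw [← h1, Ideal.mem_comap, map_natCast]
      exact hlQ
    have h4 : (l : ℤ) ∣ (l' : ℤ) := Quad.dvd_of_mem hlp hlp' (by exact_mod_cast h3)
    have h5 : l ∣ l' := by exact_mod_cast h4
    exact ((Nat.prime_dvd_prime_iff_eq hlp hl'p).1 h5).symm
  let C : 𝓞 (AlgebraicClosure K) ≃+* 𝓞 (AlgebraicClosure K) := RingOfIntegers.mapRingEquiv c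
  have hCm : ∀ (Q : Ideal (𝓞 (AlgebraicClosure K))) (m : ℕ),
      (m : 𝓞 (AlgebraicClosure K)) ∈ Q.comap
        (C : 𝓞 (AlgebraicClosure K) →+* 𝓞 (AlgebraicClosure K)) ↔
        (m : 𝓞 (AlgebraicClosure K)) ∈ Q := by
    intro Q m
    rw [Ideal.mem_comap, map_natCast]
  have h2c : (2 : 𝓞 K) ∉ (conjPrime σ p).asIdeal := by
    rw [two_mem_conjPrime]
    exact h2p
  have hcc : ∀ x, (conjPrime σ (conjPrime σ p)).valuation K x = p.valuation K x := by
    intro x
    rw [valuation_conjPrime, valuation_conjPrime, hσσ]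
  -- the norm
  have hSU : SU (α * σ α / (l : K) ^ h) := by
    have hσα : σ α ≠ 0 := by
      intro h1
      apply hα0
      rw [← hσσ α, h1, map_zero]
    rw [PA.su_iff]
    refine ⟨div_ne_zero (mul_ne_zero hα0 hσα) (zpow_ne_zero _ hl0), fun v hv => ?_⟩
    have hv2 : (2 : 𝓞 K) ∉ (conjPrime σ v).asIdeal := by
      rw [two_mem_conjPrime]
      exact hv
    rw [map_div₀, map_mul, map_zpow₀, ← valuation_conjPrime]
    by_cases hlv : (l : 𝓞 K) ∈ v.asIdeal
    · rw [split_val hK hl hlv]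
      have e : (WithZero.exp (-1 : ℤ)) ^ h = WithZero.exp (-h) := by
        rw [← WithZero.exp_zsmul, smul_eq_mul]
        congr 1
        ring
      rw [e]
      rcases hpl v hlv with rfl | rfl
      · rw [hh, hαw _ hne h2c, mul_one, div_self WithZero.exp_ne_zero]
      · rw [hcc, hh, hαw _ hne h2c, one_mul, div_self WithZero.exp_ne_zero]
    · have h1 : v ≠ p := by
        rintro rfl
        exact hlv hlp'
      have h3 : conjPrime σ v ≠ p := by
        intro h4
        apply hlv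
        have h5 : (l : 𝓞 K) ∈ (conjPrime σ v).asIdeal := by
          rw [h4]
          exact hlp'
        rw [mem_conjPrime, map_natCast] at h5
        exact h5
      have h6 : v.valuation K (l : K) = 1 := by
        have := (HeightOneSpectrum.valuation_eq_one_iff_notMem (K := K) v).2 hlv
        rwa [map_natCast] at this
      rw [hαw v h1 hv, hαw _ h3 hv2, h6, one_zpow, mul_one, div_one]
  obtain ⟨N, hN0, hN⟩ := PA.conj_norm hK hc hα0
  have hNK : algebraMap K (AlgebraicClosure K) (α * σ α) = (N : AlgebraicClosure K) := by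
    rw [map_mul, ← hcσ, hN]
  have hlQ : (0 : ℚ) < (l : ℚ) := by exact_mod_cast hlp.pos
  obtain ⟨j, hj⟩ : ∃ j : ℤ, N / (l : ℚ) ^ h = 2 ^ j := by
    refine al_pow (K := K) (div_pos hN0 (zpow_pos hlQ _)) ?_
    have h1 := hSU.map (algebraMap K (AlgebraicClosure K))
    rw [map_div₀, hNK, map_zpow₀, map_natCast] at h1
    have h3 : ((N / (l : ℚ) ^ h : ℚ) : AlgebraicClosure K) =
        (N : AlgebraicClosure K) / (l : AlgebraicClosure K) ^ h := by
      push_cast
      rfl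
    rw [h3]
    exact h1
  refine ⟨r, a, h, j, hodd, ha, ⟨hr0', fun Q hQ hQ2 hQT => ?_⟩, ?_, ?_, ?_, ?_⟩
  · rw [hr0]
    refine hunit Q hQ hQ2 fun h1 => hQT l hlT ?_
    have h3 : (l : 𝓞 K) ∈ Q.comap (algebraMap (𝓞 K) (𝓞 (AlgebraicClosure K))) := by
      rw [h1]
      exact hlp'
    rwa [Ideal.mem_comap, map_natCast] at h3
  · rw [hr0, hN]
    have h1 : N = (l : ℚ) ^ h * 2 ^ j := by
      rw [← hj]
      field_simp
    have h3 : (N : AlgebraicClosure K) = (((l : ℚ) ^ h * 2 ^ j : ℚ) : AlgebraicClosure K) := by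
      rw [← h1]
    rw [h3]
    push_cast
    rfl
  · intro rl b hb hb0 n hn
    have h1 := ha.mul (al_kum_zpow hb (-h))
    have h3 : UnitAt P ((fun k => r k * rl k ^ (-h)) 0) := by
      show UnitAt P (r 0 * rl 0 ^ (-h))
      have e1 : r 0 * rl 0 ^ (-h) = algebraMap K (AlgebraicClosure K) (α * (l : K) ^ (-h)) := by
        rw [hr0, hb0, map_mul, map_zpow₀, map_natCast]
      rw [e1, unitAt_val hP hpP, map_mul, map_zpow₀, split_val hK hl hlp', hh,
        ← WithZero.exp_zsmul, ← WithZero.exp_add, ← WithZero.exp_zero]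
      congr 1
      rw [smul_eq_mul]
      ring
    have h4 := h1.inertia hP (al_two hlp hl2 hP hlP) h3 hn
    have h5 : a n + ((-h : ℤ) : ℤ_[2]) * b n = 0 := h4
    push_cast at h5
    linear_combination h5
  · intro n hn
    have h1 := al_inertia hc.sq hκ hn
    have hprime : (P.comap (C : 𝓞 (AlgebraicClosure K) →+* 𝓞 (AlgebraicClosure K))).IsPrime :=
      Ideal.comap_isPrime _ _
    have hlc : (l : 𝓞 (AlgebraicClosure K)) ∈ P.comap
        (C : 𝓞 (AlgebraicClosure K) →+* 𝓞 (AlgebraicClosure K)) := (hCm P l).2 hlP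
    have h2c' := al_two hlp hl2 hprime hlc
    refine ha.inertia hprime h2c' ?_ h1
    rw [hr0]
    refine hunit _ hprime h2c' fun h3 => hne ?_
    apply HeightOneSpectrum.ext
    rw [← h3]
    ext x
    rw [mem_conjPrime, Ideal.mem_comap, Ideal.mem_comap, ← hpP, Ideal.mem_comap]
    have e1 : algebraMap (𝓞 K) (𝓞 (AlgebraicClosure K)) (RingOfIntegers.mapRingEquiv σ x) =
        (C : 𝓞 (AlgebraicClosure K) →+* 𝓞 (AlgebraicClosure K))
          (algebraMap (𝓞 K) (𝓞 (AlgebraicClosure K)) x) := by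
      apply RingOfIntegers.ext
      show algebraMap K (AlgebraicClosure K) (σ (algebraMap (𝓞 K) K x)) =
        c (algebraMap K (AlgebraicClosure K) (algebraMap (𝓞 K) K x))
      rw [hcσ]
    rw [e1]
  · intro l' hl'p hl'2 hl'l P' hP' hlP' n hn
    refine ⟨hzero l' hl'p hl'2 hl'l P' hP' hlP' n hn, ?_⟩
    have h1 := al_inertia hc.sq hκ hn
    exact hzero l' hl'p hl'2 hl'l _ (Ideal.comap_isPrime _ _) ((hCm P' l').2 hlP') _ h1

end Pool.Agent.Work.MP_787500_nt.GP
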