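import Mathlib
import Pool.Agent.Work.MP_787500_nt.GP.B0_Smul

/-!
# Module B0_INJ (size M, generic): from `ZMod 2` to `A0`

`f` takes finitely many values (`Sm2`, finite index), so `2 ^ n • f = 0` for some `n` (`a0_killed`); induction on `n`.
`n = 0`: `f = 0 = d1 0`. Step `n + 1`: `2 ^ n • f` is killed by 2, so `2 ^ n • f a b = hf (f₁ a b)` (`eq_hf`), `f₁` is smooth, and
`Coc S ⊤ f₁`: `d2 (tw χ) (2 ^ n • f) = 0` gives `hf` of the cocycle relation (`smul_hf` and `IsChar.odd`, `hf_add`, `hf_inj`).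
For every `i` `inv i (hf f₁|) = 2 ^ n • inv i (f|) = 0` (`LocH.nsmul_map`), so `f₁|` is `Cob` by `LocH.one`; by `sha`
`f₁ g h = z₁ g + z₁ h + z₁ (g h)`. Let `t` with `2 ^ n • t = half` (`a0_div_pow`), `z g = t` if `z₁ g ≠ 0`, and 0 otherwise, so
`2 ^ n • z = hf z₁`. `f' = f - d1 (tw χ) z` is killed by `2 ^ n`, and its invariants are `0 - 0` (`LocH.sub_map`, `cob`). By
induction `f' = d1 x`, `f = d1 (x + z)`.
`LocH.inj`: the case `G = D`, one index, `j = id`.
-/

set_option linter.unusedSectionVars false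

namespace Pool.Agent.Work.MP_787500_nt.GP

open Pool.Agent.Work.MP_787500_nt.PA (TwoSys Sm1 Sm2 homs Coc Cob IsChar)

private theorem sm2_killed {G : Type*} [Group G] {S : TwoSys G} {f : G → G → A0} (h : Sm2 S f) :
    ∃ n : ℕ, ∀ a b, (2 ^ n) • f a b = 0 := by
  obtain ⟨W, hW, h1⟩ := h
  obtain ⟨k, hk⟩ := S.index hW
  have : W.FiniteIndex := ⟨by rw [hk]; positivity⟩
  have : Finite (G ⧸ W) := Subgroup.finite_quotient_of_finiteIndex
  obtain ⟨n, hn, -⟩ := a0_killed (fun x : (G ⧸ W) × (G ⧸ W) => f x.1.out x.2.out)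
  refine ⟨n, fun a b => ?_⟩
  have e : ∀ a : G, ∃ w ∈ W, a = (QuotientGroup.mk a : G ⧸ W).out * w := by
    intro a
    refine ⟨(QuotientGroup.mk a : G ⧸ W).out⁻¹ * a, ?_, by group⟩
    rw [← QuotientGroup.eq]
    exact Quotient.out_eq _
  obtain ⟨w, hw, ha⟩ := e a
  obtain ⟨w', hw', hb⟩ := e b
  have h2 : f a b = f (QuotientGroup.mk a : G ⧸ W).out (QuotientGroup.mk b : G ⧸ W).out := by
    conv_lhs => rw [ha, hb]
    exact h1 _ _ w hw w' hw'
  rw [h2]
  exact hn (QuotientGroup.mk a, QuotientGroup.mk b)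

private theorem glob_inj_aux {G : Type*} [Group G] {S : TwoSys G} {χ : G → ℤ_[2]}
    (hχ : IsChar S χ)
    {J : Type*} {D : J → Type*} [∀ i, Group (D i)] {SD : ∀ i, TwoSys (D i)} {j : ∀ i, D i →* G}
    {inv : ∀ i, (D i → D i → A0) → A0}
    (jsm : ∀ i W, S.mem W → ∃ W', (SD i).mem W' ∧ ∀ w ∈ W', j i w ∈ W)
    (loc : ∀ i, LocH (SD i) (fun d => χ (j i d)) (inv i))
    (sha : ∀ f, Coc S ⊤ f → (∀ i, Cob (SD i) ⊤ (fun a b => f (j i a) (j i b))) → Cob S ⊤ f)
    (n : ℕ) : ∀ f : G → G → A0, Z2 S (tw χ) f → (∀ a b, (2 ^ n) • f a b = 0) →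
    (∀ i, inv i (fun a b => f (j i a) (j i b)) = 0) → B2 S (tw χ) f := by
  classical
  induction n with
  | zero =>
    intro f hfz hk _
    obtain ⟨W, hW⟩ := S.ex
    refine ⟨fun _ => 0, ⟨W, hW, fun _ _ _ => rfl⟩, ?_⟩
    funext a b
    have := hk a b
    rw [pow_zero, one_smul] at this
    rw [this]
    simp [d1, tw]
  | succ n ih =>
    intro f hfz hk h0
    have hact : IsAct (tw χ) := isAct_tw hχ
    have h1 : ∀ a b, ∃ c : ZMod 2, (2 ^ n) • f a b = hf c := by
      intro a b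
      refine eq_hf ?_
      rw [← two_nsmul, ← mul_smul, mul_comm, ← pow_succ]
      exact hk a b
    choose f₁ hf₁ using h1
    have hcyc : ∀ g h k, f₁ g h + f₁ (g * h) k = f₁ h k + f₁ g (h * k) := by
      intro g h k
      apply hf_inj
      rw [hf_add, hf_add, ← hf₁, ← hf₁, ← hf₁, ← hf₁]
      have h2 := hfz.2 g h k
      simp only [d2, tw] at h2
      have h3 := congrArg (fun t : A0 => (2 ^ n) • t) h2
      simp only [smul_sub, smul_add, smul_zero] at h3
      rw [smul_comm, hf₁ h k, smul_hf (hχ.odd g), ← hf₁ h k] at h3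
      have gen : ∀ a b c d : A0, c - b + d - a = 0 → a + b = c + d := by
        intro a b c d h
        have h5 : a + b - (c + d) = -(c - b + d - a) := by abel
        rw [h, neg_zero] at h5
        exact sub_eq_zero.1 h5
      exact gen _ _ _ _ h3
    have hsm : Sm2 S f₁ := by
      obtain ⟨W, hW, h2⟩ := hfz.1
      refine ⟨W, hW, fun g h w hw w' hw' => ?_⟩
      apply hf_inj
      rw [← hf₁, ← hf₁, h2 g h w hw w' hw']
    have hcoc : Coc S ⊤ f₁ := ⟨hsm, fun g _ h _ k _ => hcyc g h k⟩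
    have hloc : ∀ i, Cob (SD i) ⊤ (fun a b => f₁ (j i a) (j i b)) := by
      intro i
      refine (loc i).one _ ⟨Sm2.comp (jsm i) hsm, fun g _ h _ k _ => ?_⟩ ?_
      · simp only [map_mul]
        exact hcyc _ _ _
      · have e : (fun a b : D i => hf (f₁ (j i a) (j i b))) =
            fun a b => (2 ^ n) • f (j i a) (j i b) := by
          funext a b
          rw [hf₁]
        rw [e, (loc i).nsmul_map (hfz.comp (jsm i)) (2 ^ n), h0 i, smul_zero]
    obtain ⟨z₁, hz₁, hz⟩ := sha f₁ hcoc hloc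
    obtain ⟨t, ht⟩ := a0_div_pow n half
    set z : G → A0 := fun g => if z₁ g = 0 then 0 else t with hzdef
    have hzn : ∀ g, (2 ^ n) • z g = hf (z₁ g) := by
      intro g
      by_cases h2 : z₁ g = 0
      · simp only [hzdef, if_pos h2, smul_zero, h2, hf_zero]
      · simp only [hzdef, if_neg h2, ht, hf]
    have hzsm : Sm1 S z := by
      obtain ⟨W, hW, h2⟩ := hz₁
      refine ⟨W, hW, fun g w hw => ?_⟩
      simp only [hzdef, h2 g w hw]
    have hd : Z2 S (tw χ) (d1 (tw χ) z) := d1_tw_Z2 hχ hzsm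
    have hf' : Z2 S (tw χ) (fun a b => f a b + -d1 (tw χ) z a b) := Z2.add hact hfz (Z2.neg hact hd)
    obtain ⟨x, hx, hx2⟩ := ih (fun a b => f a b + -d1 (tw χ) z a b) hf' (by
      intro a b
      have e1 : f₁ a b = z₁ a + z₁ b + z₁ (a * b) := hz a trivial b trivial
      simp only [d1, tw, smul_add, smul_neg, smul_sub]
      rw [smul_comm, hzn, hzn, hzn, hf₁, e1, hf_add, hf_add, smul_hf (hχ.odd a)]
      have h3 := hf_two (z₁ (a * b))
      have h4 : hf (z₁ a) + hf (z₁ b) + hf (z₁ (a * b)) +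
          -(hf (z₁ a) + hf (z₁ b) - hf (z₁ (a * b))) = hf (z₁ (a * b)) + hf (z₁ (a * b)) := by
        abel
      rw [h4, h3]) (by
      intro i
      have e : (fun a b : D i => f (j i a) (j i b) + -d1 (tw χ) z (j i a) (j i b)) =
          fun a b => f (j i a) (j i b) - d1 (tw fun d => χ (j i d)) (fun d => z (j i d)) a b := by
        funext a b
        simp only [d1, tw, map_mul]
        abel
      rw [e]
      have hzi : Sm1 (SD i) (fun d => z (j i d)) := Sm1.comp (jsm i) hzsm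
      rw [(loc i).sub_map (hfz.comp (jsm i)) (d1_tw_Z2 (loc i).char hzi), h0 i,
        (loc i).cob _ hzi, sub_zero])
    refine ⟨fun g => x g + z g, ?_, ?_⟩
    · obtain ⟨W, hW, h2⟩ := hx
      obtain ⟨W', hW', h3⟩ := hzsm
      refine ⟨W ⊓ W', S.inf hW hW', fun g w hw => ?_⟩
      show x (g * w) + z (g * w) = x g + z g
      rw [h2 g w hw.1, h3 g w hw.2]
    · funext a b
      have h2 := congrFun (congrFun hx2 a) b
      simp only [d1, tw, smul_add] at h2 ⊢
      have h3 : f a b = (f a b + -(z a + χ a • z b - z (a * b))) +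
          (z a + χ a • z b - z (a * b)) := by abel
      rw [h3, h2]
      abel

theorem glob_inj {G : Type*} [Group G] {S : TwoSys G} {χ : G → ℤ_[2]} (hχ : IsChar S χ)
    {J : Type*} {D : J → Type*} [∀ i, Group (D i)] {SD : ∀ i, TwoSys (D i)} {j : ∀ i, D i →* G}
    {inv : ∀ i, (D i → D i → A0) → A0}
    (jsm : ∀ i W, S.mem W → ∃ W', (SD i).mem W' ∧ ∀ w ∈ W', j i w ∈ W)
    (loc : ∀ i, LocH (SD i) (fun d => χ (j i d)) (inv i))
    (sha : ∀ f, Coc S ⊤ f → (∀ i, Cob (SD i) ⊤ (fun a b => f (j i a) (j i b))) → Cob S ⊤ f)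
    {f : G → G → A0} (hf : Z2 S (tw χ) f)
    (h0 : ∀ i, inv i (fun a b => f (j i a) (j i b)) = 0) : B2 S (tw χ) f := by
  obtain ⟨n, hn⟩ := sm2_killed hf.1
  exact glob_inj_aux hχ jsm loc sha n f hf hn h0

theorem LocH.inj {D : Type*} [Group D] {SD : TwoSys D} {χ : D → ℤ_[2]}
    {inv : (D → D → A0) → A0} (L : LocH SD χ inv) {f : D → D → A0} (hf : Z2 SD (tw χ) f)
    (h0 : inv f = 0) : B2 SD (tw χ) f := by
  refine glob_inj (J := Unit) (D := fun _ => D) (SD := fun _ => SD) (j := fun _ => MonoidHom.id D)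
    (inv := fun _ => inv) L.char (fun _ W hW => ⟨W, hW, fun w hw => hw⟩) (fun _ => L)
    (fun f _ h => h ()) hf (fun _ => h0)

end Pool.Agent.Work.MP_787500_nt.GP
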