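import Mathlib
import Pool.Agent.Work.MP_787500_nt.GP.ADefs

/-!
# Module C1_QUAD (size M, Mathlib only): the property `PQ` passes to quadratic extensions

For a subfield `M` and `a, b ∈ M` nonzero write `S a b` for: `b = x ^ 2 - a y ^ 2` with `x, y ∈ M`.
* `symb_mul`: `(x ^ 2 - a y ^ 2) (x' ^ 2 - a y' ^ 2) = (x x' + a y y') ^ 2 - a (x y' + x' y) ^ 2`; inverse: divide
  by `b ^ 2`. * `symb_sq`: `b = c ^ 2 - a 0`.
* `symb_symm`: if `b = x ^ 2 - a y ^ 2`, `y ≠ 0`, then `a = (x / y) ^ 2 - b (1 / y) ^ 2`; if `y = 0`, `b = x ^ 2` and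
  `a = X ^ 2 - b Y ^ 2 = (X - x Y) (X + x Y)` has a solution (`X - x Y = 1`, `X + x Y = a`, `2 x ≠ 0`).
* `pq_quad`: `M = L (t)`, `d = t ^ 2 ∈ L`. If `t ∈ L` then `M = L`. Let `t ∉ L`, and let `σ` be the conjugation
  `a + b t ↦ a - b t` on `M` (work with explicit coordinates).
  (i) `S c e` for `c ∈ L`, `e ∈ M` nonzero. If `c` is a square in `M` then every `e` is represented (as above).
  Otherwise let `e σ e = x ^ 2 - c y ^ 2`, `x, y ∈ L` (`hL`), `λ = e + σ e + 2 x ∈ L`. Then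
  `(e + x) ^ 2 - c y ^ 2 = e λ`. If `λ ≠ 0`: `S c (e λ)` and `S c λ` (`hL`), so `S c e`. If `λ = 0` use `-x` instead
  of `x`; if this is zero as well then `x = 0`, `e + σ e = 0`, so `e = b t`, `-b ^ 2 d = -c y ^ 2`, and
  `c = (b t / y) ^ 2` is a square in `M` (`y ≠ 0`), excluded.
  (ii) `S e f` for `e, f ∈ M` nonzero: there is a relation `x + y e + z f = 0` with `x, y, z ∈ L` not all zero. If
  all are nonzero: `a' = -y e / x`, `b' = -z f / x`, `a' + b' = 1`, so `S a' b'` (`b' = 1 ^ 2 - a' 1 ^ 2`). With (i),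
  `symb_mul` and `symb_symm`: `S a' f`, `S f a'`, `S f e`, `S e f`. If `x = 0`: `f = c e`, `c ∈ L`: `S e c` by (i),
  `S e (-e)` (`0 ^ 2 - e 1 ^ 2`), `S e (-1)` by (i), so `S e e` and `S e f`. If `y = 0` then `f ∈ L`, if `z = 0`
  then `e ∈ L`: (i).
-/

set_option autoImplicit false
set_option linter.unusedSectionVars false

namespace Pool.Agent.Work.MP_787500_nt.GP

open IsDedekindDomain NumberField
open Pool.Agent.Work.MP_787500_nt.PA (TwoSys Sm1 Sm2 homs Coc Cob IsChar goodSys core cyc Opn SU)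
open Pool.Agent.Work.MP_787500_nt.Gn (GoodG)

variable {Ω : Type*} [Field Ω]

/-- `b` is represented by `x ^ 2 - a y ^ 2` over `M` -/
def Sy (M : Subfield Ω) (a b : Ω) : Prop := ∃ x ∈ M, ∃ y ∈ M, x ^ 2 - a * y ^ 2 = b

theorem symb_mul {M : Subfield Ω} {a b b' : Ω} (ha : a ∈ M) (h : Sy M a b) (h' : Sy M a b') :
    Sy M a (b * b') := by
  obtain ⟨x, hx, y, hy, rfl⟩ := h
  obtain ⟨x', hx', y', hy', rfl⟩ := h'
  exact ⟨x * x' + a * y * y', M.add_mem (M.mul_mem hx hx') (M.mul_mem (M.mul_mem ha hy) hy'),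
    x * y' + x' * y, M.add_mem (M.mul_mem hx hy') (M.mul_mem hx' hy), by ring⟩

theorem symb_inv {M : Subfield Ω} {a b : Ω} (hb : b ∈ M) (hb0 : b ≠ 0) (h : Sy M a b) :
    Sy M a b⁻¹ := by
  obtain ⟨x, hx, y, hy, h⟩ := h
  refine ⟨x / b, M.div_mem hx hb, y / b, M.div_mem hy hb, ?_⟩
  field_simp
  exact h

theorem symb_sq {M : Subfield Ω} (a : Ω) {c : Ω} (hc : c ∈ M) : Sy M a (c ^ 2) :=
  ⟨c, hc, 0, M.zero_mem, by ring⟩

private theorem C1_Quad_univ (h2 : (2 : Ω) ≠ 0) {M : Subfield Ω} {a x : Ω} (ha : a ∈ M)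
    (hx : x ∈ M) (hx0 : x ≠ 0) : Sy M (x ^ 2) a := by
  have h2M : (2 : Ω) ∈ M := by
    rw [← one_add_one_eq_two]
    exact M.add_mem M.one_mem M.one_mem
  refine ⟨(1 + a) / 2, M.div_mem (M.add_mem M.one_mem ha) h2M, (a - 1) / (2 * x),
    M.div_mem (M.sub_mem ha M.one_mem) (M.mul_mem h2M hx), ?_⟩
  field_simp
  ring

theorem symb_symm (h2 : (2 : Ω) ≠ 0) {M : Subfield Ω} {a b : Ω} (ha : a ∈ M) (hb : b ∈ M)
    (hb0 : b ≠ 0) (h : Sy M a b) : Sy M b a := by
  obtain ⟨x, hx, y, hy, h⟩ := h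
  by_cases hy0 : y = 0
  · rw [hy0] at h
    have h3 : b = x ^ 2 := by rw [← h]; ring
    have hx0 : x ≠ 0 := by
      rintro rfl
      exact hb0 (by rw [h3]; ring)
    rw [h3]
    exact C1_Quad_univ h2 ha hx hx0
  · refine ⟨x / y, M.div_mem hx hy, 1 / y, M.div_mem M.one_mem hy, ?_⟩
    field_simp
    linear_combination h

theorem pq_quad (h2 : (2 : Ω) ≠ 0) {L M : Subfield Ω} (hL : PQ L) {t : Ω} (ht : t ^ 2 ∈ L)
    (hM : ∀ x, x ∈ M ↔ ∃ a ∈ L, ∃ b ∈ L, x = a + b * t) : PQ M := by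
  have hLM : ∀ x ∈ L, x ∈ M := fun x hx => (hM x).2 ⟨x, hx, 0, L.zero_mem, by ring⟩
  by_cases htL : t ∈ L
  · have hML : ∀ x ∈ M, x ∈ L := by
      intro x hx
      obtain ⟨a, ha, b, hb, rfl⟩ := (hM x).1 hx
      exact L.add_mem ha (L.mul_mem hb htL)
    intro a ha b hb ha0 hb0
    obtain ⟨x, hx, y, hy, h⟩ := hL a (hML a ha) b (hML b hb) ha0 hb0
    exact ⟨x, hLM x hx, y, hLM y hy, h⟩
  have htM : t ∈ M := (hM t).2 ⟨0, L.zero_mem, 1, L.one_mem, by ring⟩
  have ht0 : t ≠ 0 := fun h => htL (h ▸ L.zero_mem)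
  have h2L : (2 : Ω) ∈ L := by
    rw [← one_add_one_eq_two]
    exact L.add_mem L.one_mem L.one_mem
  have hL' : ∀ a ∈ L, ∀ b ∈ L, a ≠ 0 → b ≠ 0 → Sy M a b := by
    intro a ha b hb ha0 hb0
    obtain ⟨x, hx, y, hy, h⟩ := hL a ha b hb ha0 hb0
    exact ⟨x, hLM x hx, y, hLM y hy, h⟩
  -- step (i)
  have h1 : ∀ c ∈ L, ∀ e ∈ M, c ≠ 0 → e ≠ 0 → Sy M c e := by
    intro c hc e he hc0 he0
    by_cases hsq : ∃ r ∈ M, c = r ^ 2
    · obtain ⟨r, hr, rfl⟩ := hsq
      have hr0 : r ≠ 0 := fun h => hc0 (by rw [h]; ring)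
      exact C1_Quad_univ h2 he hr hr0
    obtain ⟨a, ha, b, hb, hab⟩ := (hM e).1 he
    have hn0 : a ^ 2 - b ^ 2 * t ^ 2 ≠ 0 := by
      have h3 : a ^ 2 - b ^ 2 * t ^ 2 = e * (a - b * t) := by rw [hab]; ring
      rw [h3]
      refine mul_ne_zero he0 (fun h4 => ?_)
      by_cases hb0 : b = 0
      · apply he0
        rw [hab]
        rw [hb0] at h4 ⊢
        linear_combination h4
      · apply htL
        have h5 : t = a / b := by
          field_simp
          linear_combination -h4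
        rw [h5]
        exact L.div_mem ha hb
    obtain ⟨x, hx, y, hy, hxy⟩ := hL c hc (a ^ 2 - b ^ 2 * t ^ 2)
      (L.sub_mem (L.pow_mem ha 2) (L.mul_mem (L.pow_mem hb 2) ht)) hc0 hn0
    have hgen : ∀ x ∈ L, x ^ 2 - c * y ^ 2 = a ^ 2 - b ^ 2 * t ^ 2 → 2 * a + 2 * x ≠ 0 →
        Sy M c e := by
      intro x hx hxy hlam
      have hlL : 2 * a + 2 * x ∈ L := L.add_mem (L.mul_mem h2L ha) (L.mul_mem h2L hx)
      have e1 : Sy M c (e * (2 * a + 2 * x)) := by
        refine ⟨e + x, M.add_mem he (hLM x hx), y, hLM y hy, ?_⟩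
        rw [hab]
        linear_combination hxy
      have e2 : Sy M c (2 * a + 2 * x)⁻¹ :=
        symb_inv (hLM _ hlL) hlam (hL' c hc _ hlL hc0 hlam)
      have e3 := symb_mul (hLM c hc) e1 e2
      rwa [mul_assoc, mul_inv_cancel₀ hlam, mul_one] at e3
    by_cases hl : 2 * a + 2 * x = 0
    · by_cases hl' : 2 * a + 2 * (-x) = 0
      · exfalso
        have ha0 : a = 0 := by
          have : 2 * (2 * a) = 0 := by linear_combination hl + hl'
          have := (mul_eq_zero.1 this).resolve_left h2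
          exact (mul_eq_zero.1 this).resolve_left h2
        have hx0 : x = 0 := by
          rw [ha0] at hl
          have : 2 * x = 0 := by linear_combination hl
          exact (mul_eq_zero.1 this).resolve_left h2
        rw [ha0, hx0] at hxy
        have hb0 : b ≠ 0 := by
          rintro rfl
          exact he0 (by rw [hab, ha0]; ring)
        have hy0 : y ≠ 0 := by
          rintro rfl
          have : b ^ 2 * t ^ 2 = 0 := by linear_combination hxy
          exact (mul_ne_zero (pow_ne_zero 2 hb0) (pow_ne_zero 2 ht0)) this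
        refine hsq ⟨b * t / y, M.div_mem (M.mul_mem (hLM b hb) htM) (hLM y hy), ?_⟩
        field_simp
        linear_combination -hxy
      · exact hgen (-x) (L.neg_mem hx) (by linear_combination hxy) hl'
    · exact hgen x hx hxy hl
  -- step (ii)
  intro e he f hf he0 hf0
  show Sy M e f
  obtain ⟨e1, he1, e2, he2, hee⟩ := (hM e).1 he
  obtain ⟨f1, hf1, f2, hf2, hff⟩ := (hM f).1 hf
  by_cases he20 : e2 = 0
  · have heL : e ∈ L := by
      rw [hee, he20, zero_mul, add_zero]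
      exact he1
    exact h1 e heL f hf he0 hf0
  by_cases hf20 : f2 = 0
  · have hfL : f ∈ L := by
      rw [hff, hf20, zero_mul, add_zero]
      exact hf1
    exact symb_symm h2 hf he he0 (h1 f hfL e he hf0 he0)
  by_cases hw : f2 * e1 - e2 * f1 = 0
  · have hc : f = (f2 / e2) * e := by
      rw [hee, hff]
      field_simp
      linear_combination -hw
    have hcL : f2 / e2 ∈ L := L.div_mem hf2 he2
    have hc0 : f2 / e2 ≠ 0 := div_ne_zero hf20 he20
    have e3 : Sy M e (-e) := ⟨0, M.zero_mem, 1, M.one_mem, by ring⟩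
    have hm1 : (-1 : Ω) ∈ L := L.neg_mem L.one_mem
    have e4 : Sy M e (-1) :=
      symb_symm h2 (hLM _ hm1) he he0 (h1 (-1) hm1 e he (neg_ne_zero.2 one_ne_zero) he0)
    have e5 : Sy M e (f2 / e2) := symb_symm h2 (hLM _ hcL) he he0 (h1 _ hcL e he hc0 he0)
    have e6 := symb_mul he (symb_mul he e3 e4) e5
    have e7 : -e * -1 * (f2 / e2) = f := by rw [hc]; ring
    rwa [e7] at e6
  · obtain ⟨w, hwd⟩ : ∃ w, w = f2 * e1 - e2 * f1 := ⟨_, rfl⟩
    rw [← hwd] at hw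
    have hwL : w ∈ L := by
      rw [hwd]
      exact L.sub_mem (L.mul_mem hf2 he1) (L.mul_mem he2 hf1)
    have hrel : f2 * e - e2 * f = w := by
      rw [hwd, hee, hff]
      ring
    have hcL : f2 / w ∈ L := L.div_mem hf2 hwL
    have hcL' : -e2 / w ∈ L := L.div_mem (L.neg_mem he2) hwL
    have hc0 : f2 / w ≠ 0 := div_ne_zero hf20 hw
    have hc0' : -e2 / w ≠ 0 := div_ne_zero (neg_ne_zero.2 he20) hw
    have haM : (f2 / w) * e ∈ M := M.mul_mem (hLM _ hcL) he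
    have ha0 : (f2 / w) * e ≠ 0 := mul_ne_zero hc0 he0
    have e3 : Sy M ((f2 / w) * e) ((-e2 / w) * f) := by
      refine ⟨1, M.one_mem, 1, M.one_mem, ?_⟩
      field_simp
      linear_combination -hrel
    have e4 : Sy M ((f2 / w) * e) (-e2 / w) :=
      symb_symm h2 (hLM _ hcL') haM ha0 (h1 _ hcL' _ haM hc0' ha0)
    have e5 := symb_mul haM e3 (symb_inv (hLM _ hcL') hc0' e4)
    have e6 : (-e2 / w) * f * (-e2 / w)⁻¹ = f := by
      field_simp
    rw [e6] at e5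
    have e7 := symb_symm h2 haM hf hf0 e5
    have e8 : Sy M f (f2 / w) := symb_symm h2 (hLM _ hcL) hf hf0 (h1 _ hcL f hf hc0 hf0)
    have e9 := symb_mul hf e7 (symb_inv (hLM _ hcL) hc0 e8)
    have e10 : (f2 / w) * e * (f2 / w)⁻¹ = e := by
      field_simp
    rw [e10] at e9
    exact symb_symm h2 hf he he0 e9

end Pool.Agent.Work.MP_787500_nt.GP
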