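import Mathlib
import Pool.Agent.Work.MP_787500_nt.GP.C1_Quad
import Pool.Agent.Work.MP_787500_nt.GP.C2_Kum
import Pool.Agent.Work.MP_787500_nt.PA.SymbKer

/-!
# Module C3_SYMB0 (size M): cup products vanish over a field with the property `PQ`

`S = subSys C`. `U ≤ C` contains a member of `S`, `U' = U.map C.subtype` is a closed subgroup of `AbsGal K`
(open in the closed subgroup `C`). `L = Fx U'`, `PQ L`.
If `χ = 0` the cup product is 0. Otherwise let `V ≤ U` be the kernel of `χ`, of index 2 in `U`, `χ = chi V U`,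
`Opn S V` (`χ` is smooth), and `s ∈ U`, `s ∉ V`. By `cup_chi_iff` (`PA/SymbKer.lean`) it suffices to find
`ψ ∈ homs S V` with `cor V U s ψ = ω`. By `exists_kum` there are `t`, `r` with `g t = ± t`, `g r = ± r` for
`g ∈ U'` and `χ g = 0 ↔ g t = t`, `ω g = 0 ↔ g r = r`. `a = t ^ 2`, `b = r ^ 2 ∈ L`: `b = x ^ 2 - a y ^ 2` with
`x, y ∈ L`. Let `β = x + y t`, `w ^ 2 = β` in the algebraic closure, `w ≠ 0`. For `g ∈ V`: `g β = β`, so
`g w = ± w`; let `ψ g = 0` if `g w = w`, and 1 otherwise (0 outside `V`): `ψ ∈ homs S V` (the stabilizer of `w`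
is open; smoothness for `subSys`: the kernel `V₁` of `ψ` in `V` contains an open
subgroup of `C`, and the intersection of the conjugates of `V₁` under `C` has 2-power index and is
normal). `cor V U s ψ = ω`: let `w' = s w`, `w' ^ 2 = s β = x - y t`, `(w w') ^ 2 = b`, so `r = ± w w'`. For
`g ∈ V`: `ψ (s g s⁻¹) = 0 ↔ g (s⁻¹ w) = s⁻¹ w`, and `s⁻¹ w` is `± s w` times a sign (`s ^ 2 ∈ V`...); so
`ψ g + ψ (s g s⁻¹) = 0 ↔ g (w w') = w w'`. For `g ∈ U`, `g ∉ V`: `ψ (g g) = 0 ↔ g (g w) = w`; `g w = ± w'`,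
and `g (w g w) = g w · g (g w) = w (g w)` if and only if `g g w = w`; `w (g w) = ± r`.
-/

set_option autoImplicit false
set_option linter.unusedSectionVars false

namespace Pool.Agent.Work.MP_787500_nt.GP

open IsDedekindDomain NumberField
open Pool.Agent.Work.MP_787500_nt.PA (TwoSys Sm1 Sm2 homs Coc Cob IsChar goodSys core cyc Opn SU)
open Pool.Agent.Work.MP_787500_nt.Gn (GoodG)

universe u

variable {K : Type u} [Field K] [NumberField K]

/-- the extension by zero of a function on `C` -/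
private noncomputable def ext0 {C : Subgroup (AbsGal K)} (χ : C → ZMod 2) (g : AbsGal K) : ZMod 2 :=
  open scoped Classical in if h : g ∈ C then χ ⟨g, h⟩ else 0

private theorem ext0_coe {C : Subgroup (AbsGal K)} (χ : C → ZMod 2) (g : C) :
    ext0 χ (g : AbsGal K) = χ g := by
  unfold ext0
  rw [dif_pos g.2]

/-- Kummer theory for an element of `homs` -/
private theorem kum_sub {C : Subgroup (AbsGal K)} (hC : IsClosed (C : Set (AbsGal K)))
    {U : Subgroup C} (hU : Opn (subSys C) U) {χ : C → ZMod 2} (hχ : χ ∈ homs (subSys C) U) :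
    ∃ t : AlgebraicClosure K, t ≠ 0 ∧
      (∀ g ∈ U, (g : AbsGal K) t = t ∨ (g : AbsGal K) t = -t) ∧
      ∀ g ∈ U, (χ g = 0 ↔ (g : AbsGal K) t = t) := by
  have hcl : IsClosed ((U.map C.subtype : Subgroup (AbsGal K)) : Set (AbsGal K)) := by
    obtain ⟨W, ⟨⟨O, hO, hOW⟩, -, -⟩, hWU⟩ := hU
    have h1 : IsOpen ((O.subgroupOf C : Subgroup C) : Set C) := hO.preimage continuous_subtype_val
    have h2 : IsOpen (U : Set C) := Subgroup.isOpen_mono (hOW.trans hWU) h1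
    have h3 : IsClosed (U : Set C) := Subgroup.isClosed_of_isOpen U h2
    rw [Subgroup.coe_map]
    exact hC.isClosedEmbedding_subtypeVal.isClosedMap _ h3
  obtain ⟨⟨W, ⟨⟨O, hO, hOW⟩, -, -⟩, hsm⟩, -, hmul⟩ := hχ
  obtain ⟨t, ht0, ht1, ht2⟩ := exists_kum hcl (ext0 χ)
    (by
      rintro _ ⟨g, hg, rfl⟩ _ ⟨h, hh, rfl⟩
      have e := ext0_coe χ (g * h)
      rw [show C.subtype g * C.subtype h = ((g * h : C) : AbsGal K) from rfl, e,
        show C.subtype g = (g : AbsGal K) from rfl, show C.subtype h = (h : AbsGal K) from rfl,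
        ext0_coe, ext0_coe]
      exact hmul g hg h hh)
    ⟨O, hO, by
      rintro _ ⟨⟨g, hg, rfl⟩, hgO⟩
      rw [show C.subtype g = (g : AbsGal K) from rfl, ext0_coe]
      have h1 := hsm 1 g (hOW hgO)
      rw [one_mul] at h1
      rw [h1]
      exact PA.I2.hom_one hmul⟩
  refine ⟨t, ht0, fun g hg => ht1 _ ⟨g, hg, rfl⟩, fun g hg => ?_⟩
  have h1 := ht2 _ ⟨g, hg, rfl⟩
  rwa [show C.subtype g = (g : AbsGal K) from rfl, ext0_coe] at h1

/-- smoothness of a homomorphism on `V` that vanishes on an open subgroup -/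
private theorem sm_sub {G : Type*} [Group G] [TopologicalSpace G] [IsTopologicalGroup G]
    [CompactSpace G] {C : Subgroup G} {V : Subgroup C} (hV : Opn (subSys C) V) {ψ : C → ZMod 2}
    (h0 : ∀ g ∉ V, ψ g = 0) (hmul : ∀ g ∈ V, ∀ h ∈ V, ψ (g * h) = ψ g + ψ h)
    (hO : ∃ O : Subgroup G, IsOpen (O : Set G) ∧ ∀ g ∈ V, (g : G) ∈ O → ψ g = 0) :
    Sm1 (subSys C) ψ := by
  obtain ⟨W, ⟨⟨O₁, hO₁, hOW⟩, hWn, k, hk⟩, hWV⟩ := hV
  obtain ⟨O₂, hO₂, hz⟩ := hO
  -- the subgroup of `W` where `ψ` vanishes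
  let W₁ : Subgroup C :=
    { carrier := {g | g ∈ W ∧ ψ g = 0}
      mul_mem' := by
        rintro a b ⟨ha, ha'⟩ ⟨hb, hb'⟩
        refine ⟨mul_mem ha hb, ?_⟩
        rw [hmul a (hWV ha) b (hWV hb), ha', hb', add_zero]
      one_mem' := ⟨one_mem _, PA.I2.hom_one hmul⟩
      inv_mem' := by
        rintro a ⟨ha, ha'⟩
        refine ⟨inv_mem ha, ?_⟩
        rw [PA.I2.hom_inv hmul (hWV ha), ha'] }
  have hW₁ : ∀ g, g ∈ W₁ ↔ g ∈ W ∧ ψ g = 0 := fun g => Iff.rfl
  have hfin : (O₁ ⊓ O₂).FiniteIndex := by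
    have : Finite (G ⧸ (O₁ ⊓ O₂)) := Subgroup.quotient_finite_of_isOpen _ (hO₁.inter hO₂)
    exact Subgroup.finiteIndex_of_finite_quotient
  have hNo : IsOpen ((O₁ ⊓ O₂).normalCore : Set G) :=
    Subgroup.isOpen_of_isClosed_of_finiteIndex _
      ((O₁ ⊓ O₂).normalCore_isClosed (Subgroup.isClosed_of_isOpen _ (hO₁.inter hO₂)))
  have hle : (O₁ ⊓ O₂).normalCore.subgroupOf C ≤ W₁.normalCore := by
    intro h hh g
    have h1 : (g : G) * h * (g : G)⁻¹ ∈ O₁ ⊓ O₂ := by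
      have h2 : (g : G) * h * (g : G)⁻¹ ∈ (O₁ ⊓ O₂).normalCore :=
        Subgroup.Normal.conj_mem inferInstance _ hh _
      exact Subgroup.normalCore_le _ h2
    rw [hW₁]
    have h3 : g * h * g⁻¹ ∈ W := hOW h1.1
    exact ⟨h3, hz _ (hWV h3) h1.2⟩
  have hpow : ∀ g : C, ∃ m : ℕ, g ^ 2 ^ m ∈ W₁.normalCore := by
    intro g
    have h1 : g ^ 2 ^ k ∈ W := by
      rw [← hk]
      exact W.pow_index_mem g
    refine ⟨k + 1, fun x => ?_⟩
    have h2 : x * g ^ 2 ^ k * x⁻¹ ∈ W := hWn.conj_mem _ h1 x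
    have e : x * g ^ 2 ^ (k + 1) * x⁻¹ = (x * g ^ 2 ^ k * x⁻¹) * (x * g ^ 2 ^ k * x⁻¹) := by
      rw [pow_succ, pow_mul, pow_two]
      group
    rw [e, hW₁]
    refine ⟨mul_mem h2 h2, ?_⟩
    rw [hmul _ (hWV h2) _ (hWV h2)]
    exact PA.I2.add_self _
  have hidx : ∃ m : ℕ, W₁.normalCore.index = 2 ^ m := by
    have hf : (((O₁ ⊓ O₂).normalCore).subgroupOf C).FiniteIndex := by
      have : ((O₁ ⊓ O₂).normalCore).FiniteIndex := inferInstance
      infer_instance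
    have hf' : W₁.normalCore.FiniteIndex := Subgroup.finiteIndex_of_le hle
    have : Fact (Nat.Prime 2) := ⟨Nat.prime_two⟩
    have hfq : Finite (C ⧸ W₁.normalCore) := Subgroup.finite_quotient_of_finiteIndex
    have hp : IsPGroup 2 (C ⧸ W₁.normalCore) := by
      intro x
      obtain ⟨g, rfl⟩ := QuotientGroup.mk_surjective x
      obtain ⟨m, hm⟩ := hpow g
      exact ⟨m, by rw [← QuotientGroup.mk_pow, QuotientGroup.eq_one_iff]; exact hm⟩
    obtain ⟨m, hm⟩ := (IsPGroup.iff_card (p := 2)).1 hp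
    exact ⟨m, hm⟩
  refine ⟨W₁.normalCore, ⟨⟨_, hNo, hle⟩, inferInstance, hidx⟩, fun g w hw => ?_⟩
  have hw' := Subgroup.normalCore_le _ hw
  rw [hW₁] at hw'
  by_cases hg : g ∈ V
  · rw [hmul g hg w (hWV hw'.1), hw'.2, add_zero]
  · rw [h0 g hg, h0 _ fun h => hg ((V.mul_mem_cancel_right (hWV hw'.1)).1 h)]

private theorem zm_cases (a : ZMod 2) : a = 0 ∨ a = 1 := by
  revert a
  decide

theorem symb0 {C : Subgroup (AbsGal K)} (hC : IsClosed (C : Set (AbsGal K))) {U : Subgroup C}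
    (hU : Opn (subSys C) U) (hPQ : PQ (Fx (U.map C.subtype)).toSubfield) {χ ω : C → ZMod 2}
    (hχ : χ ∈ homs (subSys C) U) (hω : ω ∈ homs (subSys C) U) :
    Cob (subSys C) U (PA.cup χ ω) := by
  classical
  by_cases hχ0 : ∀ g ∈ U, χ g = 0
  · obtain ⟨W₀, hW₀⟩ := (subSys C).ex
    refine ⟨fun _ => 0, ⟨W₀, hW₀, fun _ _ _ => rfl⟩, fun g hg h _ => ?_⟩
    unfold PA.cup
    rw [hχ0 g hg, zero_mul]
    rfl
  push Not at hχ0
  obtain ⟨s, hs, hs1⟩ := hχ0
  have hs1' : χ s = 1 := (zm_cases _).resolve_left hs1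
  -- the kernel of `χ`
  have hmul := hχ.2.2
  let V : Subgroup C :=
    { carrier := {g | g ∈ U ∧ χ g = 0}
      mul_mem' := by
        rintro a b ⟨ha, ha'⟩ ⟨hb, hb'⟩
        exact ⟨mul_mem ha hb, by rw [hmul a ha b hb, ha', hb', add_zero]⟩
      one_mem' := ⟨one_mem _, PA.I2.hom_one hmul⟩
      inv_mem' := by
        rintro a ⟨ha, ha'⟩
        exact ⟨inv_mem ha, by rw [PA.I2.hom_inv hmul ha, ha']⟩ }
  have hVm : ∀ g, g ∈ V ↔ g ∈ U ∧ χ g = 0 := fun g => Iff.rfl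
  have hVU : V ≤ U := fun g hg => hg.1
  have hsV : s ∉ V := fun h => hs1 h.2
  have h2 : V.relIndex U = 2 := by
    rw [Subgroup.relIndex, Subgroup.index_eq_two_iff]
    refine ⟨⟨s, hs⟩, fun b => ?_⟩
    rw [Subgroup.mem_subgroupOf, Subgroup.mem_subgroupOf]
    have h3 := hmul b.1 b.2 s hs
    have e : ((b * ⟨s, hs⟩ : U) : C) = (b : C) * s := rfl
    rw [e, hVm, hVm, h3, hs1']
    have h4 : (b : C) * s ∈ U := mul_mem b.2 hs
    have h5 : (b : C) ∈ U := b.2
    rcases zm_cases (χ (b : C)) with h6 | h6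
    · rw [h6]
      right
      exact ⟨⟨h5, rfl⟩, fun h => absurd h.2 (by decide)⟩
    · rw [h6]
      left
      exact ⟨⟨h4, by decide⟩, fun h => absurd h.2 (by decide)⟩
  have hchi : PA.chi V U = χ := by
    funext g
    by_cases hg : g ∈ U
    · by_cases hg' : g ∈ V
      · rw [PA.chi_of_mem U hg', hg'.2]
      · rw [PA.chi_of_not hg hg']
        rcases zm_cases (χ g) with h | h
        · exact absurd ⟨hg, h⟩ hg'
        · exact h.symm
    · rw [hχ.2.1 g hg]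
      unfold PA.chi
      exact if_neg fun h => hg h.1
  have hV : Opn (subSys C) V := by
    obtain ⟨W₁, hW₁, hsm⟩ := hχ.1
    obtain ⟨W₂, hW₂, hle⟩ := hU
    refine ⟨W₁ ⊓ W₂, (subSys C).inf hW₁ hW₂, fun w hw => ⟨hle hw.2, ?_⟩⟩
    have h3 := hsm 1 w hw.1
    rw [one_mul] at h3
    rw [h3]
    exact PA.I2.hom_one hmul
  rw [← hchi, PA.cup_chi_iff hVU hV h2 hs hsV hω]
  -- the radicals
  obtain ⟨t, ht0, ht1, ht2⟩ := kum_sub hC hU hχ
  obtain ⟨r, hr0, hr1, hr2⟩ := kum_sub hC hU hω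
  have hm : ∀ {y : AlgebraicClosure K}, y ∈ (Fx (U.map C.subtype)).toSubfield ↔
      ∀ u ∈ U, (u : AbsGal K) y = y := by
    intro y
    rw [IntermediateField.mem_toSubfield, mem_Fx]
    constructor
    · intro h u hu
      exact h _ ⟨u, hu, rfl⟩
    · rintro h _ ⟨u, hu, rfl⟩
      exact h u hu
  have hsq : ∀ {y : AlgebraicClosure K},
      (∀ g ∈ U, (g : AbsGal K) y = y ∨ (g : AbsGal K) y = -y) →
      y ^ 2 ∈ (Fx (U.map C.subtype)).toSubfield := by
    intro y hy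
    rw [hm]
    intro u hu
    rw [map_pow]
    rcases hy u hu with h | h
    · rw [h]
    · rw [h, neg_sq]
  obtain ⟨x, hx, y, hy, hxy⟩ := hPQ (t ^ 2) (hsq ht1) (r ^ 2) (hsq hr1) (pow_ne_zero 2 ht0)
    (pow_ne_zero 2 hr0)
  rw [hm] at hx hy
  obtain ⟨w, hw⟩ := IsAlgClosed.exists_pow_nat_eq (x + y * t) (n := 2) (by norm_num)
  have hprod : (x + y * t) * (x - y * t) = r ^ 2 := by
    rw [← hxy]
    ring
  have hβ : x + y * t ≠ 0 := by
    intro h
    rw [h, zero_mul] at hprod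
    exact pow_ne_zero 2 hr0 hprod.symm
  have hw0 : w ≠ 0 := by
    rintro rfl
    apply hβ
    rw [← hw]
    ring
  have ms : ∀ (g h : C) (y : AlgebraicClosure K),
      ((g * h : C) : AbsGal K) y = (g : AbsGal K) ((h : AbsGal K) y) := fun g h y => rfl
  have htV : ∀ g ∈ V, (g : AbsGal K) t = t := fun g hg => (ht2 g hg.1).1 hg.2
  have htN : ∀ g ∈ U, g ∉ V → (g : AbsGal K) t = -t := by
    intro g hg hg'
    rcases ht1 g hg with h | h
    · exact absurd ⟨hg, (ht2 g hg).2 h⟩ hg'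
    · exact h
  have hwV : ∀ g ∈ V, (g : AbsGal K) w = w ∨ (g : AbsGal K) w = -w := by
    intro g hg
    have h3 : ((g : AbsGal K) w) ^ 2 = w ^ 2 := by
      rw [← map_pow, hw, map_add, map_mul, hx g (hVU hg), hy g (hVU hg), htV g hg]
    exact sq_eq_sq_iff_eq_or_eq_neg.1 h3
  have hne : ∀ {z : AlgebraicClosure K}, z ≠ 0 → -z ≠ z := by
    intro z hz h
    apply hz
    have h3 : (2 : AlgebraicClosure K) * z = 0 := by linear_combination -h
    exact (mul_eq_zero.1 h3).resolve_left two_ne_zero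
  -- the homomorphism
  let ψ : C → ZMod 2 := fun g => if g ∈ V ∧ (g : AbsGal K) w ≠ w then 1 else 0
  have p0 : ∀ {g}, g ∉ V → ψ g = 0 := fun hg => if_neg fun h => hg h.1
  have p1 : ∀ {g : C}, (g : AbsGal K) w = w → ψ g = 0 := fun hg => if_neg fun h => h.2 hg
  have p2 : ∀ {g : C}, g ∈ V → (g : AbsGal K) w = -w → ψ g = 1 := fun hg h =>
    if_pos ⟨hg, fun h' => hne hw0 (h.symm.trans h')⟩
  have hψmul : ∀ g ∈ V, ∀ h ∈ V, ψ (g * h) = ψ g + ψ h := by
    intro g hg h hh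
    rcases hwV g hg with h3 | h3 <;> rcases hwV h hh with h4 | h4
    · rw [p1 h3, p1 h4, p1 (by rw [ms, h4, h3]), add_zero]
    · rw [p1 h3, p2 hh h4, p2 (mul_mem hg hh) (by rw [ms, h4, map_neg, h3]), zero_add]
    · rw [p2 hg h3, p1 h4, p2 (mul_mem hg hh) (by rw [ms, h4, h3]), add_zero]
    · rw [p2 hg h3, p2 hh h4, p1 (by rw [ms, h4, map_neg, h3, neg_neg])]
      decide
  have hψ : ψ ∈ homs (subSys C) V := by
    refine ⟨sm_sub hV (fun g hg => p0 hg) hψmul ⟨MulAction.stabilizer (AbsGal K) w, ?_, ?_⟩,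
      fun g hg => p0 hg, hψmul⟩
    · exact stabilizer_isOpen_of_isIntegral _
    · intro g _ hg
      exact p1 hg
  refine ⟨ψ, hψ, ?_⟩
  -- the sign of `g r` is that of `g (w * s w)`
  have hrr : ∀ {v : AlgebraicClosure K}, v ^ 2 = r ^ 2 → ∀ g : C,
      ((g : AbsGal K) r = r ↔ (g : AbsGal K) v = v) := by
    intro v hv g
    rcases sq_eq_sq_iff_eq_or_eq_neg.1 hv with h | h
    · rw [h]
    · rw [h, map_neg, neg_inj]
  have hω1 : ∀ {g : C}, g ∈ U → (g : AbsGal K) r ≠ r → ω g = 1 := fun hg h =>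
    (zm_cases _).resolve_left fun h' => h ((hr2 _ hg).1 h')
  have hgw2 : ∀ g ∈ U, g ∉ V → ((g : AbsGal K) w) ^ 2 = x - y * t := by
    intro g hg hg'
    rw [← map_pow, hw, map_add, map_mul, hx g hg, hy g hg, htN g hg hg']
    ring
  funext g
  show (if g ∈ V then ψ g + ψ (s * g * s⁻¹) else if g ∈ U then ψ (g * g) else 0) = ω g
  by_cases hg : g ∈ V
  · rw [if_pos hg]
    have hgc : s⁻¹ * g * s ∈ V := PA.I2.cj' hVU h2 hs hg
    have e1 : ψ (s * g * s⁻¹) = ψ (s⁻¹ * g * s) := by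
      have hss : s * s ∈ V := PA.I2.sq h2 hs
      have h3 := PA.I2.hom_conj hψmul hss hgc
      rw [← h3]
      congr 1
      group
    rw [e1]
    have hv2 : (w * (s : AbsGal K) w) ^ 2 = r ^ 2 := by
      rw [mul_pow, hw, hgw2 s hs hsV, hprod]
    have hvs := hrr hv2 g
    have hgs : ∀ {ε : AlgebraicClosure K}, ((s⁻¹ * g * s : C) : AbsGal K) w = ε →
        (g : AbsGal K) ((s : AbsGal K) w) = (s : AbsGal K) ε := by
      intro ε hε
      rw [← hε, ← ms, ← ms]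
      congr 2
      group
    have hv0 : w * (s : AbsGal K) w ≠ 0 := by
      refine mul_ne_zero hw0 ?_
      rw [Ne, EmbeddingLike.map_eq_zero_iff]
      exact hw0
    rcases hwV g hg with h3 | h3 <;> rcases hwV _ hgc with h4 | h4
    · rw [p1 h3, p1 h4, add_zero]
      symm
      rw [hr2 g (hVU hg), hvs, map_mul, h3, hgs h4]
    · rw [p1 h3, p2 hgc h4, zero_add]
      symm
      apply hω1 (hVU hg)
      rw [Ne, hvs, map_mul, h3, hgs h4, map_neg, mul_neg]
      exact hne hv0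
    · rw [p2 hg h3, p1 h4, add_zero]
      symm
      apply hω1 (hVU hg)
      rw [Ne, hvs, map_mul, h3, hgs h4, neg_mul]
      exact hne hv0
    · rw [p2 hg h3, p2 hgc h4]
      have h5 : ω g = 0 := by
        rw [hr2 g (hVU hg), hvs, map_mul, h3, hgs h4, map_neg, neg_mul_neg]
      rw [h5]
      decide
  · rw [if_neg hg]
    by_cases hgU : g ∈ U
    · rw [if_pos hgU]
      have hgg : g * g ∈ V := PA.I2.sq h2 hgU
      have hv2 : (w * (g : AbsGal K) w) ^ 2 = r ^ 2 := by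
        rw [mul_pow, hw, hgw2 g hgU hg, hprod]
      have hvs := hrr hv2 g
      have hv0 : w * (g : AbsGal K) w ≠ 0 := by
        refine mul_ne_zero hw0 ?_
        rw [Ne, EmbeddingLike.map_eq_zero_iff]
        exact hw0
      rcases hwV _ hgg with h4 | h4
      · rw [p1 h4]
        symm
        rw [hr2 g hgU, hvs, map_mul, ← ms, h4, mul_comm]
      · rw [p2 hgg h4]
        symm
        apply hω1 hgU
        rw [Ne, hvs, map_mul, ← ms, h4, mul_neg, mul_comm]
        exact hne hv0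
    · rw [if_neg hgU, hω.2.1 g hgU]

end Pool.Agent.Work.MP_787500_nt.GP
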