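import Mathlib
import Pool.Agent.Work.MP_787500_nt.GP.C3_Symb0
import Pool.Agent.Work.MP_787500_nt.PA.ResKer
import Pool.Agent.Work.MP_787500_nt.PA.Chain

/-!
# Module C4_H2 (size M): the second cohomology of `C` vanishes

`S = subSys C`, `f` with `Coc S ⊤ f`. By `PA.exists_cob` there is a member `W` with `Cob S W f`.
* For all `U ≥ W`: `PQ (Fx (U.map C.subtype))`. Induction on the index of `U`: if `U = ⊤` this is the
  hypothesis. Otherwise there is `U' ≥ U` with `U.relIndex U' = 2` (`C / W` is a 2-group and `U / W` a proper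
  subgroup, so its normalizer is larger; take a subgroup of order 2 of the quotient; compare with
  `exists_between` in `PA/Chain.lean`). By induction `PQ` holds for `L = Fx (U'.map)`, and `M = Fx (U.map)` is
  `L (t)` with `t ^ 2 ∈ L`: choose `x ∈ M`, `x ∉ L` (the groups are closed and different), `s ∈ U'`, `s ∉ U`,
  `t = x - s x` for a suitable `x` with `s x ≠ x`; `s t = -t`, and for `y ∈ M`,
  `y = (y + s y) / 2 + ((y - s y) / (2 t)) t`. Apply `pq_quad`.
* For all `U ≥ W`: `Cob S U f`. Induction on `W.relIndex U`: `U = W` is known; otherwise `exists_between` gives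
  `W ≤ V ≤ U` with `V.relIndex U = 2`, by induction `Cob S V f`, by `res_cob` (`PA/ResKer.lean`) there is
  `ψ ∈ homs S U` with `Cob S U (f + cup (chi V U) ψ)`, and the cup product is `Cob` by `symb0`
  (`chi V U ∈ homs S U`, `chi_mem`).
-/

set_option autoImplicit false
set_option linter.unusedSectionVars false

namespace Pool.Agent.Work.MP_787500_nt.GP

open IsDedekindDomain NumberField
open Pool.Agent.Work.MP_787500_nt.PA (TwoSys Sm1 Sm2 homs Coc Cob IsChar goodSys core cyc Opn SU)
open Pool.Agent.Work.MP_787500_nt.Gn (GoodG)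

universe u

variable {K : Type u} [Field K] [NumberField K]

/-- an open subgroup of a closed subgroup has closed image -/
theorem h2_closed {G : Type*} [Group G] [TopologicalSpace G] [IsTopologicalGroup G]
    {C : Subgroup G} (hC : IsClosed (C : Set G)) {U : Subgroup C} (hU : Opn (subSys C) U) :
    IsClosed ((U.map C.subtype : Subgroup G) : Set G) := by
  obtain ⟨W, ⟨⟨O, hO, hOW⟩, -, -⟩, hWU⟩ := hU
  have h1 : IsOpen ((O.subgroupOf C : Subgroup C) : Set C) := hO.preimage continuous_subtype_val
  have h2 : IsOpen (U : Set C) := Subgroup.isOpen_mono (hOW.trans hWU) h1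
  have h3 : IsClosed (U : Set C) := Subgroup.isClosed_of_isOpen U h2
  rw [Subgroup.coe_map]
  exact hC.isClosedEmbedding_subtypeVal.isClosedMap _ h3

/-- a proper subgroup of a group of 2-power order has index two in a larger one -/
theorem h2_up {G : Type*} [Group G] {W U : Subgroup G} (hn : W.Normal) {k : ℕ}
    (hk : W.index = 2 ^ k) (hWU : W ≤ U) (hU : U ≠ ⊤) :
    ∃ U' : Subgroup G, U ≤ U' ∧ U.relIndex U' = 2 ∧ U'.index < U.index := by
  have : Fact (Nat.Prime 2) := ⟨Nat.prime_two⟩
  have hcard : Nat.card (G ⧸ W) = 2 ^ k := hk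
  have hfin : Finite (G ⧸ W) := Nat.finite_of_card_ne_zero (by rw [hcard]; positivity)
  let D := U.map (QuotientGroup.mk' W)
  have hDU : D.comap (QuotientGroup.mk' W) = U := by
    refine Subgroup.comap_map_eq_self ?_
    rw [QuotientGroup.ker_mk']
    exact hWU
  have hD : D ≠ ⊤ := by
    intro h
    apply hU
    rw [← hDU, h, Subgroup.comap_top]
  obtain ⟨n, hnm, hn'⟩ := (Nat.dvd_prime_pow Nat.prime_two).1
    (hcard ▸ Subgroup.card_subgroup_dvd_card D)
  have hlt : n < k := by
    rcases lt_or_eq_of_le hnm with h | h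
    · exact h
    · exfalso
      apply hD
      rw [← Subgroup.card_eq_iff_eq_top, hn', hcard, h]
  obtain ⟨E, hE, hDE⟩ := Sylow.exists_subgroup_card_pow_succ (p := 2) (n := n)
    (by rw [hcard]; exact pow_dvd_pow 2 hlt) hn'
  have i1 : (E.comap (QuotientGroup.mk' W)).index = E.index :=
    Subgroup.index_comap_of_surjective E (QuotientGroup.mk'_surjective _)
  have i2 : U.index = D.index := by
    rw [← hDU]
    exact Subgroup.index_comap_of_surjective D (QuotientGroup.mk'_surjective _)
  have hle : U ≤ E.comap (QuotientGroup.mk' W) := by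
    rw [← hDU]
    exact Subgroup.comap_mono hDE
  have e1 := E.card_mul_index
  have e2 := D.card_mul_index
  rw [hE, hcard] at e1
  rw [hn', hcard] at e2
  have hEpos : 0 < E.index := Nat.pos_of_ne_zero fun h => by
    rw [h, mul_zero] at e1
    exact absurd e1.symm (by positivity)
  have e3 : D.index = 2 * E.index := by
    have h5 : 2 ^ n * D.index = 2 ^ n * (2 * E.index) := by
      rw [e2, ← e1]
      ring
    exact Nat.eq_of_mul_eq_mul_left (by positivity) h5
  refine ⟨E.comap (QuotientGroup.mk' W), hle, ?_, ?_⟩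
  · have h6 := Subgroup.relIndex_mul_index hle
    rw [i1, i2, e3] at h6
    exact Nat.eq_of_mul_eq_mul_right hEpos h6
  · rw [i1, i2, e3]
    omega

/-- the property `PQ` for the subgroups of index two -/
theorem h2_pq {C : Subgroup (AbsGal K)} (hC : IsClosed (C : Set (AbsGal K))) {U U' : Subgroup C}
    (hU : Opn (subSys C) U) (hUU : U ≤ U') (h2 : U.relIndex U' = 2)
    (hPQ : PQ (Fx (U'.map C.subtype)).toSubfield) : PQ (Fx (U.map C.subtype)).toSubfield := by
  have hU' : Opn (subSys C) U' := by
    obtain ⟨W, hW, hWU⟩ := hU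
    exact ⟨W, hW, hWU.trans hUU⟩
  have hcl := h2_closed hC hU
  have hcl' := h2_closed hC hU'
  have f1 : (Fx (U.map C.subtype)).fixingSubgroup = U.map C.subtype :=
    InfiniteGalois.fixingSubgroup_fixedField (k := K) (K := AlgebraicClosure K)
      ⟨U.map C.subtype, hcl⟩
  have f2 : (Fx (U'.map C.subtype)).fixingSubgroup = U'.map C.subtype :=
    InfiniteGalois.fixingSubgroup_fixedField (k := K) (K := AlgebraicClosure K)
      ⟨U'.map C.subtype, hcl'⟩
  have hnot : ¬ Fx (U.map C.subtype) ≤ Fx (U'.map C.subtype) := by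
    intro h
    have h3 := IntermediateField.fixingSubgroup_le h
    rw [f1, f2] at h3
    have h4 : U' ≤ U := by
      intro u hu
      obtain ⟨v, hv, hvu⟩ := h3 ⟨u, hu, rfl⟩
      rwa [← C.subtype_injective hvu]
    have h5 := Subgroup.relIndex_eq_one.2 h4
    omega
  obtain ⟨x, hx, hx'⟩ := SetLike.not_le_iff_exists.1 hnot
  have hm : ∀ {y : AlgebraicClosure K}, y ∈ (Fx (U.map C.subtype)).toSubfield ↔
      ∀ u ∈ U, (u : AbsGal K) y = y := by
    intro y
    rw [IntermediateField.mem_toSubfield, mem_Fx]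
    constructor
    · intro h u hu
      exact h _ ⟨u, hu, rfl⟩
    · rintro h _ ⟨u, hu, rfl⟩
      exact h u hu
  have hm' : ∀ {y : AlgebraicClosure K}, y ∈ (Fx (U'.map C.subtype)).toSubfield ↔
      ∀ u ∈ U', (u : AbsGal K) y = y := by
    intro y
    rw [IntermediateField.mem_toSubfield, mem_Fx]
    constructor
    · intro h u hu
      exact h _ ⟨u, hu, rfl⟩
    · rintro h _ ⟨u, hu, rfl⟩
      exact h u hu
  have hx1 : ∀ u ∈ U, (u : AbsGal K) x = x := hm.1 hx
  obtain ⟨s, hs, hsx⟩ : ∃ s ∈ U', (s : AbsGal K) x ≠ x := by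
    by_contra hcon
    push Not at hcon
    exact hx' (hm'.2 hcon)
  have hsU : s ∉ U := fun h => hsx (hx1 s h)
  have ms : ∀ (g h : C) (y : AlgebraicClosure K),
      ((g * h : C) : AbsGal K) y = (g : AbsGal K) ((h : AbsGal K) y) := fun g h y => rfl
  -- facts on an element `y` fixed by `U`
  have hss : ∀ {y : AlgebraicClosure K}, (∀ u ∈ U, (u : AbsGal K) y = y) →
      (s : AbsGal K) ((s : AbsGal K) y) = y := by
    intro y hy
    rw [← ms]
    exact hy _ (PA.I2.sq h2 hs)
  have hsu : ∀ {y : AlgebraicClosure K}, (∀ u ∈ U, (u : AbsGal K) y = y) → ∀ u ∈ U,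
      (u : AbsGal K) ((s : AbsGal K) y) = (s : AbsGal K) y := by
    intro y hy u hu
    have h3 := hy _ (PA.I2.cj' hUU h2 hs hu)
    have h4 := congrArg (fun z => (s : AbsGal K) z) h3
    simp only [← ms] at h4
    rw [show s * (s⁻¹ * u * s) = u * s by group, ms] at h4
    exact h4
  have hgs : ∀ {y : AlgebraicClosure K}, (∀ u ∈ U, (u : AbsGal K) y = y) → ∀ g ∈ U', g ∉ U →
      (g : AbsGal K) y = (s : AbsGal K) y := by
    intro y hy g hg hg'
    have h3 : s⁻¹ * g ∈ U := PA.I2.mem_of_not h2 (inv_mem hs) hg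
      (fun h => hsU (U.inv_mem_iff.1 h)) hg'
    have h4 := hy _ h3
    have h5 := congrArg (fun z => (s : AbsGal K) z) h4
    simp only [← ms] at h5
    rwa [mul_inv_cancel_left] at h5
  have htwo : (2 : AlgebraicClosure K) ≠ 0 := two_ne_zero
  set t := x - (s : AbsGal K) x with ht
  have ht0 : t ≠ 0 := fun h => hsx (sub_eq_zero.1 h).symm
  have hst : (s : AbsGal K) t = -t := by
    rw [ht, map_sub, hss hx1]
    ring
  have htU : ∀ u ∈ U, (u : AbsGal K) t = t := by
    intro u hu
    rw [ht, map_sub, hx1 u hu, hsu hx1 u hu]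
  have htU' : ∀ g ∈ U', g ∉ U → (g : AbsGal K) t = -t := by
    intro g hg hg'
    rw [hgs htU g hg hg', hst]
  refine pq_quad htwo hPQ (t := t) ?_ ?_
  · rw [hm']
    intro u hu
    by_cases h : u ∈ U
    · rw [map_pow, htU u h]
    · rw [map_pow, htU' u hu h]
      ring
  · intro y
    constructor
    · intro hy
      rw [hm] at hy
      refine ⟨(y + (s : AbsGal K) y) / 2, ?_, (y - (s : AbsGal K) y) / (2 * t), ?_, ?_⟩
      · rw [hm']
        intro g hg
        by_cases h : g ∈ U
        · rw [map_div₀, map_add, hy g h, hsu hy g h, map_ofNat]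
        · rw [map_div₀, map_add, hgs hy g hg h, hgs (hsu hy) g hg h, hss hy, map_ofNat, add_comm]
      · rw [hm']
        intro g hg
        by_cases h : g ∈ U
        · rw [map_div₀, map_sub, hy g h, hsu hy g h, map_mul, map_ofNat, htU g h]
        · rw [map_div₀, map_sub, hgs hy g hg h, hgs (hsu hy) g hg h, hss hy, map_mul, map_ofNat,
            htU' g hg h]
          rw [← neg_sub y, mul_neg, neg_div_neg_eq]
      · field_simp
        ring
    · rintro ⟨a, ha, b, hb, rfl⟩
      rw [hm'] at ha hb
      rw [hm]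
      intro u hu
      rw [map_add, map_mul, ha u (hUU hu), hb u (hUU hu), htU u hu]

theorem h2_zero {C : Subgroup (AbsGal K)} (hC : IsClosed (C : Set (AbsGal K)))
    (hPQ : PQ (Fx C).toSubfield) {f : C → C → ZMod 2} (hf : Coc (subSys C) ⊤ f) :
    Cob (subSys C) ⊤ f := by
  obtain ⟨W₁, hW₁⟩ := (subSys C).ex
  obtain ⟨W, hW, -, hc⟩ := PA.exists_cob (S := subSys C) (U := ⊤) ⟨W₁, hW₁, le_top⟩ hf
  have hopn : ∀ U : Subgroup C, W ≤ U → Opn (subSys C) U := fun U hU => ⟨W, hW, hU⟩
  obtain ⟨k, hk⟩ := (subSys C).index hW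
  -- the property `PQ` for all subgroups containing `W`
  have hA : ∀ n : ℕ, ∀ U : Subgroup C, W ≤ U → U.index = n →
      PQ (Fx (U.map C.subtype)).toSubfield := by
    intro n
    induction n using Nat.strong_induction_on with
    | _ n ih =>
      intro U hWU hn
      by_cases hU : U = ⊤
      · have h1 : U.map C.subtype = C := by
          rw [hU, ← MonoidHom.range_eq_map, Subgroup.range_subtype]
        rw [h1]
        exact hPQ
      · obtain ⟨U', hle, h2, hlt⟩ := h2_up ((subSys C).normal hW) hk hWU hU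
        exact h2_pq hC (hopn U hWU) hle h2 (ih _ (hn ▸ hlt) U' (hWU.trans hle) rfl)
  have hB : ∀ n : ℕ, ∀ U : Subgroup C, W ≤ U → W.relIndex U = n → Cob (subSys C) U f := by
    intro n
    induction n using Nat.strong_induction_on with
    | _ n ih =>
      intro U hWU hn
      by_cases hU : W = U
      · rw [← hU]
        exact hc
      · obtain ⟨V, hWV, hVU, h2, hlt⟩ := PA.exists_between hW hWU hU
        have h3 := ih _ (hn ▸ hlt) V hWV rfl
        have hfU : Coc (subSys C) U f :=
          ⟨hf.1, fun g _ h _ k _ => hf.2 g trivial h trivial k trivial⟩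
        obtain ⟨ψ, hψ, z, hz, h4⟩ := PA.res_cob hVU (hopn V hWV) h2 hfU h3
        obtain ⟨y, hy, h5⟩ := symb0 hC (hopn U hWU) (hA _ U hWU rfl)
          (PA.chi_mem hVU (hopn V hWV) h2) hψ
        refine ⟨fun g => z g + y g, ?_, fun g hg h hh => ?_⟩
        · obtain ⟨W₂, hW₂, e2⟩ := hz
          obtain ⟨W₃, hW₃, e3⟩ := hy
          exact ⟨W₂ ⊓ W₃, (subSys C).inf hW₂ hW₃, fun g w hw => by
            simp only
            rw [e2 g w hw.1, e3 g w hw.2]⟩
        · have h6 := h4 g hg h hh
          have h7 := h5 g hg h hh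
          simp only at h6 ⊢
          rw [h7] at h6
          generalize f g h = a at h6 ⊢
          generalize z g = b at h6 ⊢
          generalize z h = c at h6 ⊢
          generalize z (g * h) = d at h6 ⊢
          generalize y g = b' at h6 ⊢
          generalize y h = c' at h6 ⊢
          generalize y (g * h) = d' at h6 ⊢
          revert a b c d b' c' d'
          decide
  exact hB _ ⊤ le_top rfl

end Pool.Agent.Work.MP_787500_nt.GP
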