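import Mathlib
import Pool.Agent.Work.MP_787500_nt.GP.C5_CoreHom
import Pool.Agent.Work.MP_787500_nt.GP.C6_In
import Pool.Agent.Work.MP_787500_nt.GP.C2_Kum
import Pool.Agent.Work.MP_787500_nt.GP.N4_OddAt

/-!
# Module C7_ADJ (size L): adjusting the ramification

`C = core K`. `z : C → ZMod 2` is smooth, with `f g h = z g + z h + z (g h)` on `C`, where `f : AbsGal K → AbsGal K → ZMod 2`
satisfies `f (g w) (h w') = f g h` for `w, w' ∈ W₀`, `GoodT K T W₀`, and `f 1 1 = 0`; so `f g n = f n g = 0` for `n ∈ W₀`,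
`g ∈ C` (on `C` this follows from `f = δ z`: `f g 1 = z 1`, `f 1 1 = z 1`). Let `N = coreT K T ≤ W₀ ⊓ C`.
(1) `z` is additive on `N`; `z (g n g⁻¹) = z n` for `g ∈ C`, `n ∈ N`: `z (g n) = z g + z n`,
`z (g n g⁻¹) = z (g n) + z g⁻¹ + f (g n) g⁻¹ = z g + z n + z g⁻¹ + f g g⁻¹` (`f (g n) g⁻¹ = f g g⁻¹`, as
`n ∈ W₀`) `= z n` (`z 1 = 0 = z g + z g⁻¹ + f g g⁻¹`).
(2) Let `U'` be an open normal subgroup of `AbsGal K` with `z (g w) = z g` for `w ∈ U' ⊓ C`. `U = U' C` is open,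
normal, contains `C`, so it contains a `Good` subgroup (compactness as in `core_basis`) and is
`Good` itself; `F = Fx U` is a number field in the tower (`fixedF`).
(3) For a prime `Q` not containing 2 nor an element of `T`, `I_Q = Q.inertia ≤ N`. Let `e Q` be the proposition
`∃ n ∈ I_Q, z n ≠ 0`. If `u ∈ U` then `e (u • Q) ↔ e Q`: `u = g u'`, `g ∈ C`, `u' ∈ U'`; `I_{uQ} = u I_Q u⁻¹`;
`z (u n u⁻¹) = z (u' n u'⁻¹)` by (1) `= z (n (n⁻¹ u' n u'⁻¹)) = z n`, as `n⁻¹ u' n u'⁻¹ ∈ U' ⊓ C`.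
(4) The set `R` of the primes `v` of `F` (not above 2, not above an element of `T`) such that `e Q` for the
primes `Q` above `v` is finite: `e Q` implies that `I_Q` is not contained in `U'`, so some `n ∈ I_Q` moves an
element `x` of a fixed finite set of generators of the finite extension `Fx U' / K` consisting of integers;
`n x - x ∈ Q` is one of finitely many nonzero integers (finitely many conjugates), and each is contained
in primes above only finitely many primes of `F`.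
(5) Let `b = ∏ v ∈ R, y_v ∈ F`, `OddAt v y_v` (`exists_oddAt`), `t ^ 2 = b`. For `Q` as in (3), above `v`:
`I_Q` moves `t` iff `b` has odd valuation at `v` (`ram_iff`) iff `v ∈ R` iff `z` is not zero on `I_Q`. By
`exists_kum` for the closed subgroup `I_Q` and `z` there is `t₁` with `n t₁ = ± t₁`, `z n = 0 ↔ n t₁ = t₁` for
`n ∈ I_Q` (`I_Q` is closed); `inertia_uniq`: `z n = 0 ↔ n t = t` on `I_Q`.
-/

set_option autoImplicit false
set_option linter.unusedSectionVars false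

namespace Pool.Agent.Work.MP_787500_nt.GP

open IsDedekindDomain NumberField
open Pool.Agent.Work.MP_787500_nt.PA (TwoSys Sm1 Sm2 homs Coc Cob IsChar goodSys core cyc Opn SU)
open Pool.Agent.Work.MP_787500_nt.Gn (GoodG)

universe u

variable {K : Type u} [Field K] [NumberField K]

private theorem good_iff {W : Subgroup (AbsGal K)} : PA.Good W ↔ GoodT K ∅ W := by
  constructor
  · intro h
    refine ⟨h.normal, h.isOpen, le_top, fun g _ => h.pow g, ?_⟩
    rintro σ ⟨Q, hQ, h2, -, hσ⟩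
    exact h.inertia Q hQ h2 hσ
  · intro h
    refine ⟨h.normal, h.isOpen, fun g => h.pow g trivial, ?_⟩
    intro Q hQ h2 σ hσ
    exact h.inertia σ ⟨Q, hQ, h2, by simp, hσ⟩

private theorem goodT_of_good {T : Finset ℕ} {W : Subgroup (AbsGal K)} (h : PA.Good W) :
    GoodT K T W := by
  refine ⟨h.normal, h.isOpen, le_top, fun g _ => h.pow g, ?_⟩
  rintro σ ⟨Q, hQ, h2, -, hσ⟩
  exact h.inertia Q hQ h2 hσ

private theorem coreT_le_core (T : Finset ℕ) : coreT K T ≤ core K := by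
  intro g hg
  rw [core, Subgroup.mem_sInf]
  intro W hW
  exact (Subgroup.mem_sInf.1 hg) W (goodT_of_good hW)

private theorem opn_of_core_le {U : Subgroup (AbsGal K)} (hU : IsOpen (U : Set (AbsGal K)))
    (h : core K ≤ U) : Opn (goodSys K) U := by
  have h1 : (Gn.core 2 ⊤ (inT K ∅) : Set (AbsGal K)) ⊆ (U : Set (AbsGal K)) := by
    intro g hg
    apply h
    rw [core, Subgroup.mem_sInf]
    intro W hW
    exact (Subgroup.mem_sInf.1 hg) W (good_iff.1 hW)
  obtain ⟨W, hW, hle⟩ := core_basis (baseT K ∅) hU h1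
  exact ⟨W, good_iff.2 hW, hle⟩

private theorem two0 : (2 : ZMod 2) = 0 := by decide

private theorem z_facts {C N : Subgroup (AbsGal K)} (hNC : N ≤ C)
    {f : AbsGal K → AbsGal K → ZMod 2} {z : AbsGal K → ZMod 2}
    (hf : ∀ g h, ∀ w ∈ N, ∀ w' ∈ N, f (g * w) (h * w') = f g h) (h1 : f 1 1 = 0)
    (hfz : ∀ g ∈ C, ∀ h ∈ C, f g h = z g + z h + z (g * h)) :
    z 1 = 0 ∧ (∀ g ∈ C, ∀ n ∈ N, z (g * n) = z g + z n) ∧
      ∀ g ∈ C, ∀ n ∈ N, z (g * n * g⁻¹) = z n := by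
  have hz1 : z 1 = 0 := by
    have h := hfz 1 C.one_mem 1 C.one_mem
    rw [h1, mul_one] at h
    linear_combination -h - z 1 * two0
  have hmul : ∀ g ∈ C, ∀ n ∈ N, z (g * n) = z g + z n := by
    intro g hg n hn
    have e1 := hfz g hg n (hNC hn)
    have e2 := hf g 1 1 N.one_mem n hn
    rw [mul_one, one_mul] at e2
    have e3 := hfz g hg 1 C.one_mem
    rw [mul_one, hz1] at e3
    linear_combination -e1 + e2 + e3 - z n * two0
  refine ⟨hz1, hmul, ?_⟩
  intro g hg n hn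
  have e1 := hfz (g * n) (C.mul_mem hg (hNC hn)) g⁻¹ (C.inv_mem hg)
  have e2 := hf g g⁻¹ n hn 1 N.one_mem
  rw [mul_one] at e2
  have e3 := hfz g hg g⁻¹ (C.inv_mem hg)
  rw [mul_inv_cancel, hz1] at e3
  have e4 := hmul g hg n hn
  linear_combination -e1 + e2 + e3 - e4 - z n * two0

private theorem z_conj {C N V : Subgroup (AbsGal K)} (hCn : C.Normal) (hNn : N.Normal)
    (hVn : V.Normal) (hNC : N ≤ C) {z : AbsGal K → ZMod 2}
    (hconj : ∀ g ∈ C, ∀ n ∈ N, z (g * n * g⁻¹) = z n)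
    (hV : ∀ g ∈ C, ∀ w ∈ C ⊓ V, z (g * w) = z g) {u : AbsGal K} (hu : u ∈ C ⊔ V)
    {n : AbsGal K} (hn : n ∈ N) : z (u * n * u⁻¹) = z n := by
  obtain ⟨g, hg, v, hv, rfl⟩ := Subgroup.mem_sup_of_normal_right.1 hu
  have e1 : g * v * n * (g * v)⁻¹ = g * (v * n * v⁻¹) * g⁻¹ := by group
  rw [e1, hconj g hg _ (hNn.conj_mem n hn v)]
  have e2 : v * n * v⁻¹ = n * (n⁻¹ * (v * n * v⁻¹)) := by group
  rw [e2]
  refine hV n (hNC hn) _ ⟨?_, ?_⟩
  · exact C.mul_mem (C.inv_mem (hNC hn)) (hCn.conj_mem n (hNC hn) v)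
  · have h1 : n⁻¹ * v * n⁻¹⁻¹ ∈ V := hVn.conj_mem v hv n⁻¹
    have h2 := V.mul_mem h1 (V.inv_mem hv)
    have e3 : n⁻¹ * (v * n * v⁻¹) = n⁻¹ * v * n⁻¹⁻¹ * v⁻¹ := by group
    rw [e3]
    exact h2

/-- the primes whose inertia group moves an integer -/
private theorem int_move (x : 𝓞 (AlgebraicClosure K)) :
    ∃ m : ℤ, m ≠ 0 ∧ ∀ (Q : Ideal (𝓞 (AlgebraicClosure K))) (n : AbsGal K),
      n ∈ Q.inertia (AbsGal K) → n • x ≠ x → (m : 𝓞 (AlgebraicClosure K)) ∈ Q := by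
  classical
  set S : Set (𝓞 (AlgebraicClosure K)) := {d | d ≠ 0 ∧ ∃ n : AbsGal K, d = n • x - x} with hS
  have hfin : S.Finite := by
    have hx : IsIntegral K (x : AlgebraicClosure K) := Algebra.IsIntegral.isIntegral _
    have h1 : ((minpoly K (x : AlgebraicClosure K)).rootSet (AlgebraicClosure K)).Finite :=
      Polynomial.rootSet_finite _ _
    refine Set.Finite.subset (Set.Finite.preimage (f := fun d : 𝓞 (AlgebraicClosure K) =>
      (d : AlgebraicClosure K) + x) ?_ h1) ?_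
    · intro a _ b _ hab
      apply RingOfIntegers.ext
      exact add_right_cancel hab
    · rintro d ⟨-, n, rfl⟩
      show ((n • x - x : 𝓞 (AlgebraicClosure K)) : AlgebraicClosure K) + x ∈
        (minpoly K (x : AlgebraicClosure K)).rootSet (AlgebraicClosure K)
      have e : ((n • x - x : 𝓞 (AlgebraicClosure K)) : AlgebraicClosure K) + x =
          n (x : AlgebraicClosure K) := by
        have : ((n • x - x : 𝓞 (AlgebraicClosure K)) : AlgebraicClosure K) =
          n (x : AlgebraicClosure K) - x := rfl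
        rw [this]; ring
      rw [e, Polynomial.mem_rootSet_of_ne (minpoly.ne_zero hx)]
      have h2 := minpoly.aeval K (x : AlgebraicClosure K)
      have h3 := congrArg n h2
      rw [map_zero] at h3
      rw [← h3]
      exact Polynomial.aeval_algHom_apply n.toAlgHom (x : AlgebraicClosure K) _
  have hex : ∀ d : 𝓞 (AlgebraicClosure K), ∃ r : ℤ, r ≠ 0 ∧
      (d ≠ 0 → d ∣ (r : 𝓞 (AlgebraicClosure K))) := by
    intro d
    by_cases hd : d = 0
    · exact ⟨1, one_ne_zero, fun h => absurd hd h⟩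
    · have hint : IsIntegral ℤ d := by
        have h1 : IsIntegral ℤ (algebraMap (𝓞 (AlgebraicClosure K)) (AlgebraicClosure K) d) :=
          RingOfIntegers.isIntegral_coe d
        exact (isIntegral_algebraMap_iff RingOfIntegers.coe_injective).1 h1
      obtain ⟨r, hr, hdvd⟩ := hint.isAlgebraic.exists_nonzero_dvd
        (mem_nonZeroDivisors_of_ne_zero hd)
      exact ⟨r, hr, fun _ => by simpa using hdvd⟩
  choose r hr0 hr using hex
  refine ⟨∏ d ∈ hfin.toFinset, r d, Finset.prod_ne_zero_iff.2 fun d _ => hr0 d, ?_⟩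
  intro Q n hn hne
  have hd0 : n • x - x ≠ 0 := sub_ne_zero.2 hne
  have hmem : n • x - x ∈ hfin.toFinset := by
    rw [Set.Finite.mem_toFinset]
    exact ⟨hd0, n, rfl⟩
  have h1 : n • x - x ∈ Q := hn x
  have h2 : ((r (n • x - x) : ℤ) : 𝓞 (AlgebraicClosure K)) ∈ Q :=
    Q.mem_of_dvd (hr _ hd0) h1
  rw [← Finset.mul_prod_erase _ _ hmem, Int.cast_mul]
  exact Q.mul_mem_right _ h2

private theorem exists_bad_int {V : Subgroup (AbsGal K)} (hV : IsOpen (V : Set (AbsGal K))) :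
    ∃ m : ℤ, m ≠ 0 ∧ ∀ (Q : Ideal (𝓞 (AlgebraicClosure K))) (n : AbsGal K),
      n ∈ Q.inertia (AbsGal K) → n ∉ V → (m : 𝓞 (AlgebraicClosure K)) ∈ Q := by
  classical
  let E : IntermediateField K (AlgebraicClosure K) :=
    IntermediateField.fixedField (F := K) (E := AlgebraicClosure K) V
  have hcl : E.fixingSubgroup = V :=
    InfiniteGalois.fixingSubgroup_fixedField (k := K) (K := AlgebraicClosure K)
      ⟨V, Subgroup.isClosed_of_isOpen V hV⟩
  have hfd : FiniteDimensional K E := by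
    rw [← InfiniteGalois.isOpen_iff_finite, hcl]
    exact hV
  let b := Module.finBasis K E
  have hint : ∀ i, ∃ (k : ℤ) (x : 𝓞 (AlgebraicClosure K)), k ≠ 0 ∧
      (x : AlgebraicClosure K) = (k : AlgebraicClosure K) * (b i : AlgebraicClosure K) := by
    intro i
    have hx : IsAlgebraic ℤ (b i : AlgebraicClosure K) := by
      have h4 : IsAlgebraic ℚ (b i : AlgebraicClosure K) := by
        have : Algebra.IsAlgebraic ℚ (AlgebraicClosure K) := Algebra.IsAlgebraic.trans ℚ K _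
        exact Algebra.IsAlgebraic.isAlgebraic _
      exact (IsFractionRing.isAlgebraic_iff ℤ ℚ (AlgebraicClosure K)).2 h4
    obtain ⟨m, hm, hint⟩ := hx.exists_integral_multiple
    exact ⟨m, ⟨m • (b i : AlgebraicClosure K), hint⟩, hm, zsmul_eq_mul _ _⟩
  choose k x hk hx using hint
  have hm := fun i => int_move (x i)
  choose m hm0 hm using hm
  refine ⟨∏ i, m i, Finset.prod_ne_zero_iff.2 fun i _ => hm0 i, ?_⟩
  intro Q n hn hnV
  have hex : ∃ i, n • x i ≠ x i := by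
    by_contra hno
    push Not at hno
    apply hnV
    rw [← hcl, IntermediateField.mem_fixingSubgroup_iff]
    intro e he
    have hb : ∀ i, n (b i : AlgebraicClosure K) = b i := by
      intro i
      have h1 : n ((x i : 𝓞 (AlgebraicClosure K)) : AlgebraicClosure K) = x i :=
        congrArg (fun y : 𝓞 (AlgebraicClosure K) => (y : AlgebraicClosure K)) (hno i)
      rw [hx i, map_mul, map_intCast] at h1
      exact mul_left_cancel₀ (by exact_mod_cast hk i) h1
    have hlin : (n.toLinearMap.comp E.val.toLinearMap) = E.val.toLinearMap := by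
      refine b.ext fun i => ?_
      exact hb i
    exact LinearMap.congr_fun hlin ⟨e, he⟩
  obtain ⟨i, hi⟩ := hex
  have h1 := hm i Q n hn hi
  rw [← Finset.mul_prod_erase _ _ (Finset.mem_univ i), Int.cast_mul]
  exact Q.mul_mem_right _ h1

theorem adjust {q : ℕ} {s : K} (hK : IsBase K q s) (T : Finset ℕ) {f : AbsGal K → AbsGal K → ZMod 2}
    (hf : ∃ W, GoodT K T W ∧ ∀ g h, ∀ w ∈ W, ∀ w' ∈ W, f (g * w) (h * w') = f g h)
    (h1 : f 1 1 = 0) {z : AbsGal K → ZMod 2}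
    (hz : ∃ U' : Subgroup (AbsGal K), IsOpen (U' : Set (AbsGal K)) ∧
      ∀ g ∈ core K, ∀ w ∈ core K ⊓ U', z (g * w) = z g)
    (hfz : ∀ g ∈ core K, ∀ h ∈ core K, f g h = z g + z h + z (g * h)) :
    ∃ t : AlgebraicClosure K, t ≠ 0 ∧ (∀ g ∈ core K, g t = t ∨ g t = -t) ∧
      ∀ Q : Ideal (𝓞 (AlgebraicClosure K)), Q.IsPrime → (2 : 𝓞 (AlgebraicClosure K)) ∉ Q →
        (∀ l ∈ T, (l : 𝓞 (AlgebraicClosure K)) ∉ Q) →
        ∀ n ∈ Q.inertia (AbsGal K), (z n = 0 ↔ n t = t) := by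
  classical
  obtain ⟨W₀, hW₀, hfW⟩ := hf
  obtain ⟨U', hU', hzU⟩ := hz
  have hcomp : CompactSpace (AbsGal K) := inferInstance
  have hfq : Finite (AbsGal K ⧸ U') := Subgroup.quotient_finite_of_isOpen U' hU'
  have hfi : U'.FiniteIndex := Subgroup.finiteIndex_of_finite_quotient
  obtain ⟨V, hVdef⟩ : ∃ V, V = U'.normalCore := ⟨_, rfl⟩
  have hVo : IsOpen (V : Set (AbsGal K)) := by
    rw [hVdef]
    exact Subgroup.isOpen_of_isClosed_of_finiteIndex _
      (U'.normalCore_isClosed (Subgroup.isClosed_of_isOpen U' hU'))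
  have hVle : V ≤ U' := by rw [hVdef]; exact U'.normalCore_le
  have hVn : V.Normal := by rw [hVdef]; exact U'.normalCore_normal
  have hCn : (core K).Normal := PA.core_normal
  have hNn : (coreT K T).Normal := Gn.core_normal
  have hNC : coreT K T ≤ core K := coreT_le_core T
  have hNW : coreT K T ≤ W₀ := Gn.core_le hW₀
  obtain ⟨hz1, hzmul, hzconj⟩ := z_facts (C := core K) (N := coreT K T) hNC
    (fun g h w hw w' hw' => hfW g h w (hNW hw) w' (hNW hw')) h1 hfz
  have hzV : ∀ g ∈ core K, ∀ w ∈ core K ⊓ V, z (g * w) = z g :=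
    fun g hg w hw => hzU g hg w ⟨hw.1, hVle hw.2⟩
  have hzV0 : ∀ w ∈ core K ⊓ V, z w = 0 := by
    intro w hw
    have := hzV 1 (core K).one_mem w hw
    rwa [one_mul, hz1] at this
  -- the field
  obtain ⟨U, hUdef⟩ : ∃ U, U = core K ⊔ V := ⟨_, rfl⟩
  have hCU : core K ≤ U := by rw [hUdef]; exact le_sup_left
  have hUo : IsOpen (U : Set (AbsGal K)) :=
    Subgroup.isOpen_mono (by rw [hUdef]; exact le_sup_right) hVo
  have hUopn := opn_of_core_le hUo hCU
  obtain ⟨-, -, hfix', hNF', htow'⟩ := PA.fixedF hUopn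
  have hfix : (Fx U).fixingSubgroup = U := hfix'
  have hNF : NumberField (Fx U) := hNF'
  have htow : InTwoTower K (Fx U) := htow'
  have hzU2 : ∀ u ∈ U, ∀ n ∈ coreT K T, z (u * n * u⁻¹) = z n := by
    intro u hu n hn
    rw [hUdef] at hu
    exact z_conj hCn hNn hVn hNC hzconj hzV hu hn
  -- the auxiliary element for all inertia groups
  obtain ⟨t₁, ht₁0, ht₁s, ht₁⟩ := exists_kum (C := coreT K T) Gn.core_closed z
    (fun g hg h hh => hzmul g (hNC hg) h hh)
    ⟨V, hVo, fun g hg => hzV0 g ⟨hNC hg.1, hg.2⟩⟩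
  -- inertia groups
  have hin : ∀ Q : Ideal (𝓞 (AlgebraicClosure K)), Q.IsPrime →
      (2 : 𝓞 (AlgebraicClosure K)) ∉ Q → (∀ l ∈ T, (l : 𝓞 (AlgebraicClosure K)) ∉ Q) →
      Q.inertia (AbsGal K) ≤ coreT K T := by
    intro Q hQ h2 hT σ hσ
    exact Gn.inertia_le_core ⟨Q, hQ, h2, hT, hσ⟩
  obtain ⟨m, hm0, hm⟩ := exists_bad_int hVo
  -- the ramified places
  let e : Ideal (𝓞 (AlgebraicClosure K)) → Prop := fun Q => ∃ n ∈ Q.inertia (AbsGal K), z n ≠ 0
  let R : Set (HeightOneSpectrum (𝓞 (Fx U))) := {v | ∃ Q : Ideal (𝓞 (AlgebraicClosure K)),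
    Q.IsPrime ∧ (2 : 𝓞 (AlgebraicClosure K)) ∉ Q ∧ (∀ l ∈ T, (l : 𝓞 (AlgebraicClosure K)) ∉ Q) ∧
    Q.comap (algebraMap (𝓞 (Fx U)) (𝓞 (AlgebraicClosure K))) = v.asIdeal ∧ e Q}
  have hem : ∀ Q : Ideal (𝓞 (AlgebraicClosure K)), Q.IsPrime →
      (2 : 𝓞 (AlgebraicClosure K)) ∉ Q → (∀ l ∈ T, (l : 𝓞 (AlgebraicClosure K)) ∉ Q) → e Q →
      (m : 𝓞 (AlgebraicClosure K)) ∈ Q := by
    rintro Q hQ h2 hT ⟨n, hn, hzn⟩
    refine hm Q n hn fun hnV => hzn (hzV0 n ⟨hNC (hin Q hQ h2 hT hn), hnV⟩)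
  have hRfin : R.Finite := by
    have hne : (Ideal.span {(m : 𝓞 (Fx U))}) ≠ 0 := by
      rw [Ne, Ideal.zero_eq_bot, Ideal.span_singleton_eq_bot]
      exact_mod_cast hm0
    refine Set.Finite.subset (Ideal.finite_factors hne) ?_
    rintro v ⟨Q, hQ, h2, hT, hv, heQ⟩
    have h3 := hem Q hQ h2 hT heQ
    rw [Set.mem_ofPred_eq, Ideal.dvd_iff_le, Ideal.span_singleton_le_iff_mem, ← hv, Ideal.mem_comap,
      map_intCast]
    exact h3
  have hR2 : ∀ v ∈ R, (2 : 𝓞 (Fx U)) ∉ v.asIdeal := by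
    rintro v ⟨Q, hQ, h2, hT, hv, heQ⟩ h3
    rw [← hv, Ideal.mem_comap, map_ofNat] at h3
    exact h2 h3
  have hy : ∀ v : HeightOneSpectrum (𝓞 (Fx U)), ∃ y : Fx U, (2 : 𝓞 (Fx U)) ∉ v.asIdeal →
      OddAt v y := by
    intro v
    by_cases h : (2 : 𝓞 (Fx U)) ∈ v.asIdeal
    · exact ⟨0, fun h' => absurd h h'⟩
    · obtain ⟨y, hy⟩ := exists_oddAt hK htow h
      exact ⟨y, fun _ => hy⟩
  choose y hy using hy
  let b : Fx U := ∏ v ∈ hRfin.toFinset, y v
  have hb0 : b ≠ 0 := by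
    refine Finset.prod_ne_zero_iff.2 fun v hv => ?_
    exact (hy v (hR2 v ((Set.Finite.mem_toFinset _).1 hv))).1
  have hbval : ∀ w : HeightOneSpectrum (𝓞 (Fx U)), (2 : 𝓞 (Fx U)) ∉ w.asIdeal →
      (IsSquare (w.valuation (Fx U) b) ↔ w ∉ R) := by
    intro w hw
    have hb : w.valuation (Fx U) b = ∏ v ∈ hRfin.toFinset, w.valuation (Fx U) (y v) :=
      map_prod _ _ _
    have hone : ∀ v ∈ R, v ≠ w → w.valuation (Fx U) (y v) = 1 := by
      intro v hv hne
      exact (hy v (hR2 v hv)).2.2 w (Ne.symm hne) hw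
    constructor
    · intro hsq hwR
      have hmem : w ∈ hRfin.toFinset := (Set.Finite.mem_toFinset _).2 hwR
      rw [hb, ← Finset.mul_prod_erase _ _ hmem, Finset.prod_eq_one, mul_one] at hsq
      · exact (hy w hw).2.1 hsq
      · intro v hv
        obtain ⟨h3, h4⟩ := Finset.mem_erase.1 hv
        exact hone v ((Set.Finite.mem_toFinset _).1 h4) h3
    · intro hwR
      rw [hb, Finset.prod_eq_one]
      · exact ⟨1, by rw [mul_one]⟩
      · intro v hv
        have hv' := (Set.Finite.mem_toFinset _).1 hv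
        exact hone v hv' fun h => hwR (h ▸ hv')
  obtain ⟨t, ht⟩ : ∃ t : AlgebraicClosure K, t ^ 2 = (b : AlgebraicClosure K) :=
    IsAlgClosed.exists_pow_nat_eq _ two_pos
  have hb0' : (b : AlgebraicClosure K) ≠ 0 := fun h => hb0 (ZeroMemClass.coe_eq_zero.1 h)
  have ht0 : t ≠ 0 := by
    rintro rfl
    rw [zero_pow two_ne_zero] at ht
    exact hb0' ht.symm
  have htsgn : ∀ g ∈ core K, g t = t ∨ g t = -t := by
    intro g hg
    apply sq_eq_sq_iff_eq_or_eq_neg.1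
    rw [← map_pow, ht]
    exact mem_Fx.1 b.2 g (hCU hg)
  refine ⟨t, ht0, htsgn, ?_⟩
  intro Q hQ h2 hT n hn
  by_cases hQb : Q = ⊥
  · rw [hQb] at hn
    rw [eq_one_of_inertia_bot (F := K) hn, hz1]
    exact ⟨fun _ => rfl, fun _ => rfl⟩
  have hprime : (Q.comap (algebraMap (𝓞 (Fx U)) (𝓞 (AlgebraicClosure K)))).IsPrime :=
    Ideal.comap_isPrime _ _
  have hbot : Q.comap (algebraMap (𝓞 (Fx U)) (𝓞 (AlgebraicClosure K))) ≠ ⊥ :=
    fun hb => hQb (Ideal.eq_bot_of_comap_eq_bot hb)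
  let v : HeightOneSpectrum (𝓞 (Fx U)) := ⟨_, hprime, hbot⟩
  have hv : Q.comap (algebraMap (𝓞 (Fx U)) (𝓞 (AlgebraicClosure K))) = v.asIdeal := rfl
  have hv2 : (2 : 𝓞 (Fx U)) ∉ v.asIdeal := by
    intro h3
    rw [← hv, Ideal.mem_comap, map_ofNat] at h3
    exact h2 h3
  have hinQ := hin Q hQ h2 hT
  have hram := ram_iff hfix hQ h2 hv (hinQ.trans (hNC.trans hCU)) hb0 ht
  rw [hbval v hv2] at hram
  have heR : e Q ↔ v ∈ R := by
    constructor
    · intro h
      exact ⟨Q, hQ, h2, hT, hv, h⟩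
    · rintro ⟨Q', hQ', h2', hT', hv', n', hn', hzn'⟩
      obtain ⟨g, hg⟩ := exists_smul_eq (F := Fx U) Q' Q (hv'.trans hv.symm)
      let u : AbsGal K := g.restrictScalars K
      have hu : u ∈ U := by
        rw [← hfix, IntermediateField.mem_fixingSubgroup_iff]
        intro x hx
        exact g.commutes ⟨x, hx⟩
      refine ⟨u * n' * u⁻¹, ?_, ?_⟩
      · intro x
        show (u * n' * u⁻¹) • x - x ∈ Q
        rw [hg, Ideal.mem_pointwise_smul_iff_inv_smul_mem]
        have e1 : g⁻¹ • ((u * n' * u⁻¹) • x - x) = n' • (u⁻¹ • x) - u⁻¹ • x := by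
          apply RingOfIntegers.ext
          show g.symm (u (n' (u.symm (x : AlgebraicClosure K))) - (x : AlgebraicClosure K)) =
            n' (u.symm (x : AlgebraicClosure K)) - u.symm (x : AlgebraicClosure K)
          rw [map_sub]
          congr 1
          exact g.symm_apply_apply _
        rw [e1]
        exact hn' _
      · rw [hzU2 u hu n' (hin Q' hQ' h2' hT' hn')]
        exact hzn'
  by_cases heQ : e Q
  · have hmv : ∃ n ∈ Q.inertia (AbsGal K), n t ≠ t := by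
      by_contra hno
      push Not at hno
      exact (hram.1 hno) (heR.1 heQ)
    have hmv₁ : ∃ n ∈ Q.inertia (AbsGal K), n t₁ ≠ t₁ := by
      obtain ⟨n', hn', hzn'⟩ := heQ
      exact ⟨n', hn', fun h => hzn' ((ht₁ n' (hinQ hn')).2 h)⟩
    rw [ht₁ n (hinQ hn)]
    exact inertia_uniq hQ h2 ht₁0 ht0 (fun n hn => ht₁s n (hinQ hn))
      (fun n hn => htsgn n (hNC (hinQ hn))) hmv₁ hmv hn
  · have h3 : ∀ n ∈ Q.inertia (AbsGal K), n t = t := hram.2 fun h => heQ (heR.2 h)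
    have h4 : z n = 0 := by
      by_contra h
      exact heQ ⟨n, hn, h⟩
    exact ⟨fun _ => h3 n hn, fun _ => h4⟩

end Pool.Agent.Work.MP_787500_nt.GP
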