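import Mathlib
import Pool.Agent.Work.MP_787500_nt.GP.N2_Rank
import Pool.Agent.Work.MP_787500_nt.PA.SelCount

/-!
# Module N5B_DYAD (size M): there are at most two places above 2

`A` = a finite set of places above 2. WLOG `A` is the set of all places above 2 (finite).
`2 (rank (sUnit A) + 1) = [F : ℚ] + 2 A.card` (`sUnit_rank`, `totallyComplex`), and `[F : ℚ] = 2 m` with
`m = [F : K]`. The torsion of `sUnit A` is finite cyclic (a subgroup of the roots of unity of `F`) of even
order, so `sUnit A` modulo squares has `2 ^ (rank + 1) = 2 ^ (m + A.card)` elements. Every `x` in `sUnit A`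
has valuation 1 at the places not above 2, so by `sel_count` it is a product of a subset of the `a i`,
`i : Fin (m + 2)`, times a square of an element `z` of `F`; `z` is in `sUnit A` (`SU (a i)` and `su_iff`: valuation 1
at all places not above 2). So there are at most `2 ^ (m + 2)` classes.
-/

set_option autoImplicit false
set_option linter.unusedSectionVars false

namespace Pool.Agent.Work.MP_787500_nt.GP

open IsDedekindDomain NumberField
open Pool.Agent.Work.MP_787500_nt.PA (TwoSys Sm1 Sm2 homs Coc Cob IsChar goodSys core cyc Opn SU)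
open Pool.Agent.Work.MP_787500_nt.Gn (GoodG)

private theorem N5b_Dyad_sq {B : Type*} [CommGroup B] [Group.FG B] (ε : B) (hε : ε ≠ 1)
    (h : ε ^ 2 = 1) (h2 : ∀ x : B, x ^ 2 = 1 → x = 1 ∨ x = ε) :
    (powMonoidHom 2 : B →* B).range.index = 2 ^ (Module.finrank ℤ (Additive B) + 1) := by
  have hfg : AddGroup.FG (Additive B) := GroupFG.iff_add_fg.1 inferInstance
  have e1 : (powMonoidHom 2 : B →* B).range.index = (dbl (Additive B)).range.index := rfl
  rw [e1, index_dbl_eq, pow_succ]
  congr 1
  rw [Nat.card_eq_two_iff]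
  refine ⟨0, ⟨Additive.ofMul ε, ?_⟩, ?_, ?_⟩
  · exact congrArg Additive.ofMul h
  · intro h3
    exact hε (congrArg (fun x => (x : Additive B).toMul) (congrArg Subtype.val h3)).symm
  · ext ⟨x, hx⟩
    simp only [Set.mem_insert_iff, Set.mem_singleton_iff, Set.mem_univ, iff_true]
    rcases h2 x.toMul (congrArg Additive.toMul hx) with h4 | h4
    · left
      exact Subtype.ext (congrArg Additive.ofMul h4)
    · right
      exact Subtype.ext (congrArg Additive.ofMul h4)


universe u

theorem dyad_le {K F : Type u} [Field K] [NumberField K] [Field F] [NumberField F]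
    [Algebra K F] {q : ℕ} {s : K} (hK : IsBase K q s) (hF : InTwoTower K F)
    (A : Finset (HeightOneSpectrum (𝓞 F))) (hA : ∀ v ∈ A, (2 : 𝓞 F) ∈ v.asIdeal) : A.card ≤ 2 := by
  classical
  have htc : IsTotallyComplex F := PA.totallyComplex hK
  obtain ⟨m, hm⟩ : ∃ m, Module.finrank K F = m := ⟨_, rfl⟩
  have hdeg : Module.finrank ℚ F = 2 * m := by
    rw [← Module.finrank_mul_finrank ℚ K F, hK.1, hm]
  have hrank := sUnit_rank A
  rw [hdeg] at hrank
  have hfg := sUnit_fg A
  obtain ⟨a, ha, -, -, hsel⟩ := PA.sel_count hK hF hm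
  -- the index of the squares
  have hneg : (-1 : Fˣ) ∈ sUnit A := by
    intro v _
    rw [Units.val_neg, Units.val_one, Valuation.map_neg, map_one]
  have hidx : (powMonoidHom 2 : sUnit A →* sUnit A).range.index = 2 ^ (m + A.card) := by
    rw [N5b_Dyad_sq (⟨-1, hneg⟩ : sUnit A)]
    · congr 1
      omega
    · intro h
      have h1 : (-1 : F) = 1 := by
        have := congrArg (fun x : sUnit A => ((x : Fˣ) : F)) h
        simpa using this
      have : (2 : F) = 0 := by linear_combination (-1 : F) * h1
      exact two_ne_zero this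
    · apply Subtype.ext
      show (-1 : Fˣ) ^ 2 = 1
      simp
    · intro x hx
      have h1 : ((x : Fˣ) : F) ^ 2 = 1 := by
        have := congrArg (fun x : sUnit A => ((x : Fˣ) : F)) hx
        simpa using this
      have h3 : (((x : Fˣ) : F) - 1) * (((x : Fˣ) : F) + 1) = 0 := by
        linear_combination h1
      rcases mul_eq_zero.1 h3 with h | h
      · left
        apply Subtype.ext
        apply Units.ext
        exact sub_eq_zero.1 h
      · right
        apply Subtype.ext
        apply Units.ext
        show ((x : Fˣ) : F) = ((-1 : Fˣ) : F)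
        rw [Units.val_neg, Units.val_one]
        exact eq_neg_of_add_eq_zero_left h
  have hsel' : ∀ x : sUnit A, ∃ T : Finset (Fin (m + 2)), IsSquare (((x : Fˣ) : F) * ∏ i ∈ T, a i) := by
    intro x
    refine hsel _ (Units.ne_zero _) (fun Q hQ => ?_)
    rw [x.2 Q (fun h => hQ (hA Q h))]
    exact ⟨1, (one_mul 1).symm⟩
  choose T hT using hsel'
  have hinj : Function.Injective
      (fun q : (sUnit A) ⧸ (powMonoidHom 2 : sUnit A →* sUnit A).range => T q.out) := by
    intro q q' hqq
    simp only at hqq
    obtain ⟨y, hy⟩ := hT q.out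
    obtain ⟨y', hy'⟩ := hT q'.out
    rw [← hqq] at hy'
    have hp0 : ∏ i ∈ T q.out, a i ≠ 0 := Finset.prod_ne_zero_iff.2 (fun i _ => (ha i).1)
    have hx0 : ((q'.out : Fˣ) : F) ≠ 0 := Units.ne_zero _
    have hy0' : y' ≠ 0 := by
      rintro rfl
      rw [mul_zero] at hy'
      exact (mul_ne_zero hx0 hp0) hy'
    have hy0 : y ≠ 0 := by
      rintro rfl
      rw [mul_zero] at hy
      exact (mul_ne_zero (Units.ne_zero _) hp0) hy
    obtain ⟨w, hw⟩ : ∃ w : Fˣ, (w : F) = y / y' := ⟨Units.mk0 _ (div_ne_zero hy0 hy0'), rfl⟩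
    have hw2 : w ^ 2 = (q.out : Fˣ) / (q'.out : Fˣ) := by
      apply Units.ext
      rw [Units.val_pow_eq_pow_val, hw, Units.val_div_eq_div_val]
      have hy0s := pow_ne_zero 2 hy0'
      field_simp
      apply mul_right_cancel₀ hp0
      linear_combination ((∏ i ∈ T q.out, a i) * ((q.out : Fˣ) : F)) * hy' -
        ((∏ i ∈ T q.out, a i) * ((q'.out : Fˣ) : F)) * hy
    have hwA : w ∈ sUnit A := by
      intro v hv
      have h1 := congrArg (fun z : Fˣ => v.valuation F (z : F)) hw2
      simp only [Units.val_pow_eq_pow_val, Units.val_div_eq_div_val, map_pow, map_div₀,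
        q.out.2 v hv, q'.out.2 v hv, div_one] at h1
      exact (pow_eq_one_iff_of_nonneg zero_le (by norm_num)).1 h1
    have h5 : (q'.out)⁻¹ * q.out ∈ (powMonoidHom 2 : sUnit A →* sUnit A).range := by
      refine ⟨⟨w, hwA⟩, ?_⟩
      apply Subtype.ext
      show w ^ 2 = _
      rw [hw2, div_eq_mul_inv, mul_comm]
      rfl
    have h6 : (QuotientGroup.mk q'.out : (sUnit A) ⧸ (powMonoidHom 2 : sUnit A →* sUnit A).range) =
        QuotientGroup.mk q.out := QuotientGroup.eq.2 h5
    rw [QuotientGroup.out_eq', QuotientGroup.out_eq'] at h6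
    exact h6.symm
  have hcard : Nat.card ((sUnit A) ⧸ (powMonoidHom 2 : sUnit A →* sUnit A).range) ≤ 2 ^ (m + 2) := by
    have h1 := Nat.card_le_card_of_injective _ hinj
    rwa [Nat.card_eq_fintype_card (α := Finset (Fin (m + 2))), Fintype.card_finset,
      Fintype.card_fin] at h1
  have h7 : 2 ^ (m + A.card) ≤ 2 ^ (m + 2) := by
    rw [← hidx]
    exact hcard
  have h8 := (Nat.pow_le_pow_iff_right (by norm_num)).1 h7
  omega

end Pool.Agent.Work.MP_787500_nt.GP
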