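import Mathlib
import Pool.Agent.Work.MP_787500_nt.GP.ADefs

/-!
# Module N1_NORMALG (size M-L, Mathlib only): norm index of a group with an involution

Write `X` additively: `A = ker (1 + σ) = (1 - σ) X` (`h90`). `rk` is the rank over the integers.
* `1 → Y → X → A → 1` (map `x ↦ x / σ x`, kernel `Y`), so `rk X = rk Y + rk A`.
* For a finitely generated abelian group `B` with exactly two elements `b` with `b ^ 2 = 1`, the index of
  the squares in `B` is `2 ^ (rk B + 1)`: the torsion subgroup is finite with exactly one element of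
  order 2, so its index of squares (= number of elements with `b ^ 2 = 1`) is 2, and `B ≃ torsion × Z ^ rk`.
* This applies to `Y` and to `A` (`ε ∈ Y` because `σ ε` has order 2; `ε * σ ε = ε ^ 2 = 1` so `ε ∈ A`).
* `Y² ≤ N X ≤ Y`, where `N x = x * σ x` (`N y = y ^ 2` for `y ∈ Y`). The map `N : X → Y / Y²` has
  kernel `Y * A` (if `N x = c ^ 2`, `c ∈ Y`, then `N (x / c) = 1`). Under `X / Y ≃ A` (map `x ↦ x / σ x`) the
  subgroup `Y A / Y` corresponds to `A²` (`a / σ a = a ^ 2` for `a ∈ A`). So
  `(N X : Y²) = (X : Y A) = (A : A²) = 2 ^ (rk A + 1) = 2 ^ (rk X - rk Y + 1)`, and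
  `(Y : N X) = 2 ^ (rk Y + 1) / 2 ^ (rk X - rk Y + 1) = 2 ^ (2 rk Y - rk X) ≤ 2` by `hrk`.
* In a quotient group of order at most 2 with a nontrivial class `u₀`, the class of `u` is trivial or
  equal to the class of `u₀`; in the second case `u₀ * u` is in `N X` (`u₀ ^ 2 ∈ Y² ≤ N X`).
-/

set_option autoImplicit false
set_option linter.unusedSectionVars false

namespace Pool.Agent.Work.MP_787500_nt.GP

open IsDedekindDomain NumberField
open Pool.Agent.Work.MP_787500_nt.PA (TwoSys Sm1 Sm2 homs Coc Cob IsChar goodSys core cyc Opn SU)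
open Pool.Agent.Work.MP_787500_nt.Gn (GoodG)

private theorem N1_NormAlg_sq {B : Type*} [CommGroup B] [Group.FG B] (ε : B) (hε : ε ≠ 1)
    (h : ε ^ 2 = 1) (h2 : ∀ x : B, x ^ 2 = 1 → x = 1 ∨ x = ε) :
    (powMonoidHom 2 : B →* B).range.index = 2 ^ (Module.finrank ℤ (Additive B) + 1) := by
  have hfg : AddGroup.FG (Additive B) := GroupFG.iff_add_fg.1 inferInstance
  have e1 : (powMonoidHom 2 : B →* B).range.index = (dbl (Additive B)).range.index := rfl
  rw [e1, index_dbl_eq, pow_succ]
  congr 1
  rw [Nat.card_eq_two_iff]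
  refine ⟨0, ⟨Additive.ofMul ε, ?_⟩, ?_, ?_⟩
  · exact congrArg Additive.ofMul h
  · intro h3
    exact hε (congrArg (fun x => (x : Additive B).toMul) (congrArg Subtype.val h3)).symm
  · ext ⟨x, hx⟩
    simp only [Set.mem_insert_iff, Set.mem_singleton_iff, Set.mem_univ, iff_true]
    rcases h2 x.toMul (congrArg Additive.toMul hx) with h4 | h4
    · left
      exact Subtype.ext (congrArg Additive.ofMul h4)
    · right
      exact Subtype.ext (congrArg Additive.ofMul h4)

private theorem N1_NormAlg_fg {X : Type*} [CommGroup X] [Group.FG X] (B : Subgroup X) :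
    Group.FG B := by
  have hfin : Module.Finite ℤ (Additive X) :=
    Module.Finite.iff_addGroup_fg.2 (GroupFG.iff_add_fg.1 inferInstance)
  have h1 : Module.Finite ℤ (Additive B) :=
    Module.Finite.of_injective (B.subtype.toAdditive.toIntLinearMap) (fun x y h => by
      have : (x.toMul : X) = y.toMul := congrArg Additive.toMul h
      exact Additive.toMul.injective (Subtype.ext this))
  exact GroupFG.iff_add_fg.2 (Module.Finite.iff_addGroup_fg.1 h1)

private theorem N1_NormAlg_sub {X : Type*} [CommGroup X] [Group.FG X] (ε : X) (hε : ε ≠ 1)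
    (hε2 : ε ^ 2 = 1) (h2 : ∀ x : X, x ^ 2 = 1 → x = 1 ∨ x = ε) (B : Subgroup X) (hB : ε ∈ B) :
    (B.map (powMonoidHom 2)).relIndex B = 2 ^ (Module.finrank ℤ (Additive B) + 1) := by
  have hfg := N1_NormAlg_fg B
  rw [← N1_NormAlg_sq (⟨ε, hB⟩ : B) (fun h => hε (congrArg Subtype.val h))
    (Subtype.ext hε2) (fun x hx => by
      rcases h2 x (congrArg Subtype.val hx) with h | h
      · left
        exact Subtype.ext h
      · right
        exact Subtype.ext h)]
  show ((B.map (powMonoidHom 2)).subgroupOf B).index = _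
  congr 1
  ext x
  rw [Subgroup.mem_subgroupOf]
  constructor
  · rintro ⟨y, hy, h⟩
    exact ⟨⟨y, hy⟩, Subtype.ext h⟩
  · rintro ⟨y, rfl⟩
    exact ⟨y, y.2, rfl⟩

private theorem N1_NormAlg_rank {X : Type*} [CommGroup X] (B : Subgroup X) :
    Module.finrank ℤ (Additive B) =
      Module.finrank ℤ (LinearMap.range (B.subtype.toAdditive.toIntLinearMap)) := by
  refine (LinearMap.finrank_range_of_inj (fun x y h => ?_)).symm
  have : (x.toMul : X) = y.toMul := congrArg Additive.toMul h
  exact Additive.toMul.injective (Subtype.ext this)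


theorem norm_alg {X : Type*} [CommGroup X] [Group.FG X] (σ : X →* X) (hσ : ∀ x, σ (σ x) = x)
    (ε : X) (hε : ε ≠ 1) (hε2 : ε ^ 2 = 1) (h2 : ∀ x : X, x ^ 2 = 1 → x = 1 ∨ x = ε)
    (h90 : ∀ x : X, x * σ x = 1 → ∃ y, x = y / σ y) (Y : Subgroup X) (hY : ∀ x, x ∈ Y ↔ σ x = x)
    (hrk : 2 * Module.finrank ℤ (Additive Y) ≤ Module.finrank ℤ (Additive X) + 1)
    {u₀ : X} (hu₀ : u₀ ∈ Y) (hn : ¬ ∃ x, u₀ = x * σ x) {u : X} (hu : u ∈ Y) :
    ∃ x, u = x * σ x ∨ u₀ * u = x * σ x := by
  have hfin : Module.Finite ℤ (Additive X) :=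
    Module.Finite.iff_addGroup_fg.2 (GroupFG.iff_add_fg.1 inferInstance)
  let N : X →* X :=
    { toFun := fun x => x * σ x
      map_one' := by simp
      map_mul' := fun x y => by
        rw [map_mul]
        exact mul_mul_mul_comm _ _ _ _ }
  let D : X →* X :=
    { toFun := fun x => x / σ x
      map_one' := by simp
      map_mul' := fun x y => by
        rw [map_mul]
        exact mul_div_mul_comm _ _ _ _ }
  have hN : ∀ x, N x = x * σ x := fun _ => rfl
  have hD : ∀ x, D x = x / σ x := fun _ => rfl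
  obtain ⟨A, hA⟩ : ∃ A : Subgroup X, ∀ x, x ∈ A ↔ x * σ x = 1 := ⟨N.ker, fun x => Iff.rfl⟩
  have hDker : D.ker = Y := by
    ext x
    rw [MonoidHom.mem_ker, hD, hY, div_eq_one]
    exact eq_comm
  have hDrange : D.range = A := by
    ext x
    rw [MonoidHom.mem_range, hA]
    constructor
    · rintro ⟨y, rfl⟩
      rw [hD, map_div, hσ]
      simp
    · intro h
      obtain ⟨y, hy⟩ := h90 x h
      exact ⟨y, hy.symm⟩
  have hNY : N.range ≤ Y := by
    rintro _ ⟨x, rfl⟩
    rw [hY, hN, map_mul, hσ]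
    exact mul_comm _ _
  have hYN : Y.map (powMonoidHom 2) ≤ N.range := by
    rintro _ ⟨x, hx, rfl⟩
    refine ⟨x, ?_⟩
    rw [hN, (hY x).1 hx]
    exact (sq x).symm
  have hεY : ε ∈ Y := by
    rw [hY]
    rcases h2 (σ ε) (by rw [← map_pow, hε2, map_one]) with h | h
    · exfalso
      apply hε
      rw [← hσ ε, h, map_one]
    · exact h
  have hεA : ε ∈ A := by
    rw [hA, (hY ε).1 hεY, ← sq]
    exact hε2
  have hsq : ∀ B : Subgroup X, ε ∈ B →
      (B.map (powMonoidHom 2)).relIndex B = 2 ^ (Module.finrank ℤ (Additive B) + 1) :=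
    fun B hB => N1_NormAlg_sub ε hε hε2 h2 B hB
  have hrk' : Module.finrank ℤ (Additive A) + Module.finrank ℤ (Additive Y) =
      Module.finrank ℤ (Additive X) := by
    have r1 : LinearMap.range (A.subtype.toAdditive.toIntLinearMap) =
        LinearMap.range D.toAdditive.toIntLinearMap := by
      ext x
      constructor
      · rintro ⟨y, rfl⟩
        have h3 : (y.toMul : X) ∈ D.range := by
          rw [hDrange]
          exact y.toMul.2
        obtain ⟨z, hz⟩ := h3
        exact ⟨Additive.ofMul z, congrArg Additive.ofMul hz⟩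
      · rintro ⟨y, rfl⟩
        have h3 : D y.toMul ∈ A := by
          rw [← hDrange]
          exact ⟨_, rfl⟩
        exact ⟨Additive.ofMul ⟨_, h3⟩, rfl⟩
    have r2 : LinearMap.range (Y.subtype.toAdditive.toIntLinearMap) =
        LinearMap.ker D.toAdditive.toIntLinearMap := by
      ext x
      constructor
      · rintro ⟨y, rfl⟩
        have h3 : (y.toMul : X) ∈ D.ker := by
          rw [hDker]
          exact y.toMul.2
        exact congrArg Additive.ofMul h3
      · intro hx
        have h3 : D x.toMul = 1 := congrArg Additive.toMul hx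
        have h4 : x.toMul ∈ Y := by
          rw [← hDker]
          exact h3
        exact ⟨Additive.ofMul ⟨_, h4⟩, rfl⟩
    rw [N1_NormAlg_rank A, N1_NormAlg_rank Y, r1, r2]
    have e1 := (LinearMap.ker D.toAdditive.toIntLinearMap).finrank_quotient_add_finrank
    rw [D.toAdditive.toIntLinearMap.quotKerEquivRange.finrank_eq] at e1
    exact e1
  -- the index chain
  have i1 : (Y.map (powMonoidHom 2)).relIndex N.range * N.range.relIndex Y =
      2 ^ (Module.finrank ℤ (Additive Y) + 1) := by
    rw [Subgroup.relIndex_mul_relIndex _ _ _ hYN hNY, hsq Y hεY]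
  have i2 : (Y.map (powMonoidHom 2)).relIndex N.range = 2 ^ (Module.finrank ℤ (Additive A) + 1) := by
    rw [← hsq A hεA, ← Subgroup.index_comap, ← hDrange]
    rw [← Subgroup.index_comap, hDrange]
    congr 1
    ext x
    rw [Subgroup.mem_comap, Subgroup.mem_comap]
    constructor
    · rintro ⟨c, hc, hcx⟩
      have hc1 := (hY c).1 hc
      have hcx' : c ^ 2 = x * σ x := hcx
      refine ⟨x / c, ?_, ?_⟩
      · show x / c ∈ A
        rw [hA, map_div, hc1, div_mul_div_comm, ← hcx', sq]
        exact div_self' _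
      · show (x / c) ^ 2 = x / σ x
        rw [div_pow, hcx', sq, mul_div_mul_left_eq_div]
    · rintro ⟨c, hc, hcx⟩
      have hc1 := (hA c).1 hc
      have hcx' : c ^ 2 = x / σ x := hcx
      have hc2 : σ c = c⁻¹ := (inv_eq_of_mul_eq_one_right hc1).symm
      have hxc : x / c ∈ Y := by
        rw [hY, map_div, hc2]
        rw [div_inv_eq_mul, div_eq_mul_inv, eq_comm]
        rw [mul_inv_eq_iff_eq_mul, mul_assoc, ← sq, hcx', mul_div_cancel]
      refine ⟨x / c, hxc, ?_⟩
      show (x / c) ^ 2 = x * σ x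
      rw [div_pow, hcx', sq, div_div_eq_mul_div]
      rw [mul_assoc, mul_div_assoc, mul_div_cancel_left]
  rw [i2] at i1
  have hidx : N.range.relIndex Y ≤ 2 := by
    by_contra hgt
    push Not at hgt
    have h3 : Module.finrank ℤ (Additive Y) ≤ Module.finrank ℤ (Additive A) + 1 := by omega
    have h4 : 2 ^ (Module.finrank ℤ (Additive A) + 1) * 3 ≤
        2 ^ (Module.finrank ℤ (Additive Y) + 1) := by
      rw [← i1]
      exact Nat.mul_le_mul_left _ hgt
    have h5 : 2 ^ (Module.finrank ℤ (Additive Y) + 1) ≤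
        2 ^ (Module.finrank ℤ (Additive A) + 1) * 2 := by
      rw [← pow_succ]
      exact Nat.pow_le_pow_right (by norm_num) (by omega)
    have h6 : 0 < 2 ^ (Module.finrank ℤ (Additive A) + 1) := by positivity
    omega
  by_cases hu1 : u ∈ N.range
  · obtain ⟨x, hx⟩ := hu1
    exact ⟨x, Or.inl hx.symm⟩
  have hu01 : u₀ ∉ N.range := by
    rintro ⟨x, hx⟩
    exact hn ⟨x, hx.symm⟩
  have hne0 : N.range.relIndex Y ≠ 0 := by
    intro h
    rw [h, mul_zero] at i1
    have : 0 < 2 ^ (Module.finrank ℤ (Additive Y) + 1) := by positivity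
    omega
  have hne1 : N.range.relIndex Y ≠ 1 := by
    intro h
    rw [Subgroup.relIndex_eq_one] at h
    exact hu01 (h hu₀)
  have htwo : (N.range.subgroupOf Y).index = 2 := by
    have : (N.range.subgroupOf Y).index = N.range.relIndex Y := rfl
    omega
  have h7 := (Subgroup.mul_mem_iff_of_index_two htwo (a := ⟨u₀, hu₀⟩) (b := ⟨u, hu⟩)).2
    (iff_of_false (fun h => hu01 h) (fun h => hu1 h))
  obtain ⟨x, hx⟩ := h7
  exact ⟨x, Or.inr hx.symm⟩

end Pool.Agent.Work.MP_787500_nt.GP
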