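import Mathlib
import Pool.Agent.Work.MP_787500_nt.GP.N1_NormAlg
import Pool.Agent.Work.MP_787500_nt.GP.N2_Rank
import Pool.Agent.Work.MP_787500_nt.GP.N3_Quad

/-!
# Module N5_NORMIDX (size M-L): the norm index for groups of S-units

`X = sUnit B`, `B` the set of the places of `E` above `A`, `σ` acts on `X` (`valuation_conjPrime`; `B` is
stable), `Y` = the elements fixed by `σ` ≃ `sUnit A` (an element of `E` fixed by `σ` is in `F`; the places
outside `A` are unramified, `hunr`). `norm_alg` with `ε = -1`. `hrk`: by `sUnit_rank` for `F` and `E`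
(`finrank ℚ E = 2 finrank ℚ F`; `E` is totally complex because `F` is):
`2 rk Y = [F : ℚ] + 2 |A| - 2` and `2 rk X = 2 [F : ℚ] + 2 |B| - 2`, so `2 rk Y ≤ rk X + 1` follows from
`2 |A| ≤ |B| + 2` (`hcount`).
`h90`: let `u ∈ X`, `u σ u = 1`. There is `e ∈ E`, `e ≠ 0`, with `u = e / σ e` (`e = 1 + u` if `u ≠ -1`,
`e = t` if `u = -1`). For a place `Q` of `E` not in `B`, `Q.valuation e = Q.valuation (σ e)`; so
`Q.valuation e` depends only on `v = below F Q` (the places above `v` are `Q` and `conjPrime σ Q`), say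
`exp (-n_v)`, zero for almost all `v`. For these `v` (not above 2, `hdy`) let `y_v` be as in `hodd`,
`v.valuation y_v = exp (-h_v)`, `h_v` odd. Let `H = ∏ h_v` (odd), `c = ∏ y_v ^ (n_v H / h_v) ∈ F`. Then
`η = e ^ H / c` is a unit outside `B` (`hunr`; the `y_v` are units at the other places that are not above
2, and all places above 2 are in `B`), so `η ∈ X` and `η / σ η = u ^ H`. Since
`u ^ 2 = u / σ u` and `H = 2 k + 1`, `u = u ^ H / (u ^ 2) ^ k = η' / σ η'` with `η' = η u ^ (-k)`.
-/

set_option autoImplicit false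
set_option linter.unusedSectionVars false

namespace Pool.Agent.Work.MP_787500_nt.GP

open IsDedekindDomain NumberField
open Pool.Agent.Work.MP_787500_nt.PA (TwoSys Sm1 Sm2 homs Coc Cob IsChar goodSys core cyc Opn SU)
open Pool.Agent.Work.MP_787500_nt.Gn (GoodG)

private theorem N5_NormIdx_supp {F : Type*} [Field F] [NumberField F] {x : F} (hx : x ≠ 0) :
    {v : HeightOneSpectrum (𝓞 F) | v.valuation F x ≠ 1}.Finite := by
  refine ((HeightOneSpectrum.Support.finite (𝓞 F) x).union
    (HeightOneSpectrum.Support.finite (𝓞 F) x⁻¹)).subset ?_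
  intro v hv
  rcases lt_or_gt_of_ne (show v.valuation F x ≠ 1 from hv) with h | h
  · right
    show 1 < v.valuation F x⁻¹
    rw [map_inv₀]
    exact (one_lt_inv₀ (zero_lt_iff.2 ((Valuation.ne_zero_iff _).2 hx))).2 h
  · left
    exact h

open Classical in
private theorem N5_NormIdx_odd {F : Type*} [Field F] [NumberField F]
    (hodd : ∀ v : HeightOneSpectrum (𝓞 F), (2 : 𝓞 F) ∉ v.asIdeal → ∃ y, OddAt v y)
    (A : Finset (HeightOneSpectrum (𝓞 F)))
    (hdy : ∀ v : HeightOneSpectrum (𝓞 F), (2 : 𝓞 F) ∈ v.asIdeal → v ∈ A)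
    (n : HeightOneSpectrum (𝓞 F) → ℤ) (S : Finset (HeightOneSpectrum (𝓞 F)))
    (hS : ∀ v ∈ S, v ∉ A) :
    ∃ H : ℤ, Odd H ∧ ∃ c : F, c ≠ 0 ∧ ∀ v, v ∉ A →
      v.valuation F c = WithZero.exp (if v ∈ S then H * n v else 0) := by
  classical
  induction S using Finset.induction_on with
  | empty =>
    exact ⟨1, odd_one, 1, one_ne_zero, fun v _ => by simp⟩
  | insert v₀ S hv₀ ih =>
    obtain ⟨H, hH, c, hc0, hc⟩ := ih (fun v hv => hS v (Finset.mem_insert_of_mem hv))
    have hv₀A := hS v₀ (Finset.mem_insert_self _ _)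
    obtain ⟨y, hy0, hy1, hy2⟩ := hodd v₀ (fun h => hv₀A (hdy v₀ h))
    have hyv : v₀.valuation F y ≠ 0 := (Valuation.ne_zero_iff _).2 hy0
    obtain ⟨h₀, hh₀⟩ : ∃ h₀ : ℤ, v₀.valuation F y = WithZero.exp h₀ :=
      ⟨_, (WithZero.exp_log hyv).symm⟩
    have hh₀odd : Odd h₀ := by
      rw [hh₀, isSquare_exp_iff, Int.not_even_iff_odd] at hy1
      exact hy1
    refine ⟨H * h₀, hH.mul hh₀odd, c ^ h₀ * y ^ (H * n v₀),
      mul_ne_zero (zpow_ne_zero _ hc0) (zpow_ne_zero _ hy0), fun v hv => ?_⟩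
    rw [map_mul, map_zpow₀, map_zpow₀, hc v hv]
    by_cases hvv : v = v₀
    · subst hvv
      rw [if_neg hv₀, if_pos (Finset.mem_insert_self _ _), hh₀, WithZero.exp_zero, one_zpow, one_mul,
        ← WithZero.exp_zsmul]
      congr 1
      rw [smul_eq_mul]
      ring
    · rw [hy2 v hvv (fun h => hv (hdy v h)), one_zpow, mul_one, ← WithZero.exp_zsmul]
      congr 1
      by_cases hvS : v ∈ S
      · rw [if_pos hvS, if_pos (Finset.mem_insert_of_mem hvS), smul_eq_mul]
        ring
      · rw [if_neg hvS, if_neg (fun h => (Finset.mem_insert.1 h).elim hvv hvS), smul_zero]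

private theorem N5_NormIdx_below {F E : Type*} [Field F] [NumberField F] [Field E] [NumberField E]
    [Algebra F E] (g : E ≃ₐ[F] E) (Q : HeightOneSpectrum (𝓞 E)) :
    below F (conjPrime (g : E ≃+* E) Q) = below F Q := by
  apply HeightOneSpectrum.ext
  ext x
  show RingOfIntegers.mapRingEquiv (g : E ≃+* E) (algebraMap (𝓞 F) (𝓞 E) x) ∈ Q.asIdeal ↔
    algebraMap (𝓞 F) (𝓞 E) x ∈ Q.asIdeal
  have : RingOfIntegers.mapRingEquiv (g : E ≃+* E) (algebraMap (𝓞 F) (𝓞 E) x) =
      algebraMap (𝓞 F) (𝓞 E) x := by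
    apply RingOfIntegers.ext
    show g (algebraMap F E (algebraMap (𝓞 F) F x)) = algebraMap F E (algebraMap (𝓞 F) F x)
    exact g.commutes _
  rw [this]

variable {F E : Type*} [Field F] [NumberField F] [Field E] [NumberField E] [Algebra F E]

theorem norm_index [IsTotallyComplex F] {t : E} {d : F} (ht : t ^ 2 = algebraMap F E d) (hd : d ≠ 0)
    (hE : ∀ x : E, ∃ a b : F, x = algebraMap F E a + algebraMap F E b * t) (σ : E ≃ₐ[F] E)
    (hσ : σ t = -t) (hodd : ∀ v : HeightOneSpectrum (𝓞 F), (2 : 𝓞 F) ∉ v.asIdeal → ∃ y, OddAt v y)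
    (A : Finset (HeightOneSpectrum (𝓞 F))) (B : Finset (HeightOneSpectrum (𝓞 E)))
    (hB : ∀ Q, Q ∈ B ↔ below F Q ∈ A)
    (hdy : ∀ v : HeightOneSpectrum (𝓞 F), (2 : 𝓞 F) ∈ v.asIdeal → v ∈ A)
    (hunr : ∀ Q : HeightOneSpectrum (𝓞 E), below F Q ∉ A →
      ∀ x : F, Q.valuation E (algebraMap F E x) = (below F Q).valuation F x)
    (hcount : 2 * A.card ≤ B.card + 2) {u₀ : F} (hu₀ : u₀ ≠ 0)
    (hu₀A : ∀ v : HeightOneSpectrum (𝓞 F), v ∉ A → v.valuation F u₀ = 1)
    (hn : ¬ ∃ a b : F, a ^ 2 - d * b ^ 2 = u₀) {u : F} (hu : u ≠ 0)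
    (huA : ∀ v : HeightOneSpectrum (𝓞 F), v ∉ A → v.valuation F u = 1) :
    ∃ a b : F, a ^ 2 - d * b ^ 2 = u ∨ a ^ 2 - d * b ^ 2 = u₀ * u := by
  classical
  have hEc : IsTotallyComplex E := isTotallyComplex_of_algebra F E
  have hinjF : Function.Injective (algebraMap F E) := (algebraMap F E).injective
  have ht0 : t ≠ 0 := by
    rintro rfl
    rw [zero_pow (by norm_num)] at ht
    exact hd (hinjF (by rw [← ht, map_zero]))
  -- the automorphism
  have hσe : ∀ a b : F, σ (algebraMap F E a + algebraMap F E b * t) =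
      algebraMap F E a - algebraMap F E b * t := by
    intro a b
    rw [map_add, map_mul, hσ, AlgEquiv.commutes, AlgEquiv.commutes]
    ring
  have hσσ : ∀ x, σ (σ x) = x := by
    intro x
    obtain ⟨a, b, rfl⟩ := hE x
    have h1 : algebraMap F E a - algebraMap F E b * t =
        algebraMap F E a + algebraMap F E (-b) * t := by
      rw [map_neg]; ring
    rw [hσe, h1, hσe, map_neg]
    ring
  have hnorm : ∀ a b : F, (algebraMap F E a + algebraMap F E b * t) *
      σ (algebraMap F E a + algebraMap F E b * t) = algebraMap F E (a ^ 2 - d * b ^ 2) := by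
    intro a b
    rw [hσe, map_sub, map_mul, map_pow, map_pow, ← ht]
    ring
  have hfixed : ∀ x, σ x = x → ∃ a : F, x = algebraMap F E a := by
    intro x hx
    obtain ⟨a, b, rfl⟩ := hE x
    refine ⟨a, ?_⟩
    rw [hσe] at hx
    have h1 : 2 * (algebraMap F E b * t) = 0 := by linear_combination -hx
    have h2 := (mul_eq_zero.1 h1).resolve_left two_ne_zero
    rw [h2, add_zero]
  have hvσ : ∀ (Q : HeightOneSpectrum (𝓞 E)) (x : E),
      Q.valuation E (σ x) = (conjPrime (σ : E ≃+* E) Q).valuation E x :=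
    fun Q x => (valuation_conjPrime (σ : E ≃+* E) Q x).symm
  have hBc : ∀ Q : HeightOneSpectrum (𝓞 E), Q ∉ B → conjPrime (σ : E ≃+* E) Q ∉ B := by
    intro Q hQ h
    rw [hB, N5_NormIdx_below] at h
    exact hQ ((hB Q).2 h)
  have hBA : ∀ Q : HeightOneSpectrum (𝓞 E), Q ∉ B → below F Q ∉ A := fun Q hQ h => hQ ((hB Q).2 h)
  -- the group
  have hfg := sUnit_fg B
  let s : sUnit B →* sUnit B :=
    { toFun := fun x => ⟨Units.map (σ : E →* E) x, fun Q hQ => by
        show Q.valuation E (σ ((x : Eˣ) : E)) = 1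
        rw [hvσ]
        exact x.2 _ (hBc Q hQ)⟩
      map_one' := by
        apply Subtype.ext
        exact map_one (Units.map (σ : E →* E))
      map_mul' := by
        intro x y
        apply Subtype.ext
        exact map_mul (Units.map (σ : E →* E)) _ _ }
  have hs : ∀ x : sUnit B, (((s x : sUnit B) : Eˣ) : E) = σ ((x : Eˣ) : E) := fun x => rfl
  have hext : ∀ x y : sUnit B, ((x : Eˣ) : E) = ((y : Eˣ) : E) → x = y :=
    fun x y h => Subtype.ext (Units.ext h)
  have hss : ∀ x, s (s x) = x := fun x => hext _ _ (by rw [hs, hs, hσσ])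
  have hneg : (-1 : Eˣ) ∈ sUnit B := by
    intro v _
    rw [Units.val_neg, Units.val_one, Valuation.map_neg, map_one]
  have hε1 : (⟨-1, hneg⟩ : sUnit B) ≠ 1 := by
    intro h
    have h1 : (-1 : E) = 1 := by
      have := congrArg (fun x : sUnit B => ((x : Eˣ) : E)) h
      simpa using this
    have : (2 : E) = 0 := by linear_combination (-1 : E) * h1
    exact two_ne_zero this
  have hε2 : (⟨-1, hneg⟩ : sUnit B) ^ 2 = 1 := by
    apply Subtype.ext
    show (-1 : Eˣ) ^ 2 = 1
    simp
  have htwo : ∀ x : sUnit B, x ^ 2 = 1 → x = 1 ∨ x = ⟨-1, hneg⟩ := by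
    intro x hx
    have h1 : ((x : Eˣ) : E) ^ 2 = 1 := by
      have := congrArg (fun x : sUnit B => ((x : Eˣ) : E)) hx
      simpa using this
    have h3 : (((x : Eˣ) : E) - 1) * (((x : Eˣ) : E) + 1) = 0 := by
      linear_combination h1
    rcases mul_eq_zero.1 h3 with h | h
    · left
      exact hext _ _ (sub_eq_zero.1 h)
    · right
      apply hext
      show ((x : Eˣ) : E) = ((-1 : Eˣ) : E)
      rw [Units.val_neg, Units.val_one]
      exact eq_neg_of_add_eq_zero_left h
  -- Hilbert 90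
  have h90 : ∀ x : sUnit B, x * s x = 1 → ∃ y, x = y / s y := by
    intro x hx
    obtain ⟨w, hw⟩ : ∃ w : E, w = ((x : Eˣ) : E) := ⟨_, rfl⟩
    have hw0 : w ≠ 0 := by
      rw [hw]
      exact Units.ne_zero _
    have hwσ : w * σ w = 1 := by
      rw [hw, ← hs]
      have := congrArg (fun x : sUnit B => ((x : Eˣ) : E)) hx
      simpa using this
    obtain ⟨e, he0, he⟩ : ∃ e : E, e ≠ 0 ∧ w * σ e = e := by
      by_cases h1 : w = -1
      · refine ⟨t, ht0, ?_⟩
        rw [h1, hσ]
        ring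
      · refine ⟨1 + w, fun h => h1 (by linear_combination h), ?_⟩
        rw [map_add, map_one, mul_add, hwσ]
        ring
    have hσe0 : σ e ≠ 0 := (map_ne_zero_iff _ σ.injective).2 he0
    have hwv : ∀ Q : HeightOneSpectrum (𝓞 E), Q ∉ B → Q.valuation E w = 1 := by
      intro Q hQ
      rw [hw]
      exact x.2 Q hQ
    have hev : ∀ Q : HeightOneSpectrum (𝓞 E), Q ∉ B → Q.valuation E (σ e) = Q.valuation E e := by
      intro Q hQ
      have h1 := congrArg (Q.valuation E) he
      rw [map_mul, hwv Q hQ, one_mul] at h1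
      exact h1
    -- the norm of `e`
    obtain ⟨N, hN⟩ : ∃ N : F, algebraMap F E N = e * σ e := by
      obtain ⟨a, b, hab⟩ := hE e
      exact ⟨a ^ 2 - d * b ^ 2, by rw [hab, hnorm]⟩
    have hN0 : N ≠ 0 := by
      rintro rfl
      rw [map_zero] at hN
      exact (mul_ne_zero he0 hσe0) hN.symm
    have hNv : ∀ Q : HeightOneSpectrum (𝓞 E), Q ∉ B →
        (below F Q).valuation F N = Q.valuation E e ^ 2 := by
      intro Q hQ
      rw [← hunr Q (hBA Q hQ), hN, map_mul, hev Q hQ, sq]
    have hfin := N5_NormIdx_supp hN0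
    obtain ⟨H, hHodd, c, hc0, hc⟩ := N5_NormIdx_odd hodd A hdy
      (fun v => WithZero.log (v.valuation F N) / 2)
      (hfin.toFinset.filter (fun v => v ∉ A)) (fun v hv => (Finset.mem_filter.1 hv).2)
    have hcQ : ∀ Q : HeightOneSpectrum (𝓞 E), Q ∉ B →
        Q.valuation E (algebraMap F E c) = Q.valuation E e ^ H := by
      intro Q hQ
      have hQe : Q.valuation E e ≠ 0 := (Valuation.ne_zero_iff _).2 he0
      obtain ⟨k, hk⟩ : ∃ k : ℤ, Q.valuation E e = WithZero.exp k := ⟨_, (WithZero.exp_log hQe).symm⟩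
      rw [hunr Q (hBA Q hQ), hc _ (hBA Q hQ), hk, ← WithZero.exp_zsmul, smul_eq_mul]
      congr 1
      have h1 := hNv Q hQ
      rw [hk, ← WithZero.exp_nsmul] at h1
      by_cases hmem : below F Q ∈ hfin.toFinset.filter (fun v => v ∉ A)
      · rw [if_pos hmem, h1, WithZero.log_exp, nsmul_eq_mul]
        push_cast
        rw [Int.mul_ediv_cancel_left _ (by norm_num)]
      · rw [if_neg hmem]
        have h2 : (below F Q).valuation F N = 1 := by
          by_contra h3
          exact hmem (Finset.mem_filter.2 ⟨hfin.mem_toFinset.2 h3, hBA Q hQ⟩)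
        rw [h2, ← WithZero.exp_zero] at h1
        have h3 := WithZero.exp_injective h1
        rw [nsmul_eq_mul] at h3
        push_cast at h3
        have h4 : k = 0 := by omega
        rw [h4, mul_zero]
    have hcE0 : algebraMap F E c ≠ 0 := (map_ne_zero _).2 hc0
    obtain ⟨k, hk⟩ := hHodd
    obtain ⟨η, hη⟩ : ∃ η : E, η = e ^ H / algebraMap F E c * w ^ (-k) := ⟨_, rfl⟩
    have hη0 : η ≠ 0 := by
      rw [hη]
      exact mul_ne_zero (div_ne_zero (zpow_ne_zero _ he0) hcE0) (zpow_ne_zero _ hw0)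
    have hηB : Units.mk0 η hη0 ∈ sUnit B := by
      intro Q hQ
      show Q.valuation E η = 1
      have hQe : Q.valuation E e ≠ 0 := (Valuation.ne_zero_iff _).2 he0
      rw [hη, map_mul, map_div₀, map_zpow₀, map_zpow₀, hcQ Q hQ, hwv Q hQ, one_zpow, mul_one,
        div_self (zpow_ne_zero _ hQe)]
    refine ⟨⟨_, hηB⟩, ?_⟩
    rw [eq_div_iff_mul_eq']
    apply hext
    show ((x : Eˣ) : E) * σ η = η
    rw [← hw, hη, map_mul, map_div₀, map_zpow₀, map_zpow₀, AlgEquiv.commutes]
    have hσw : σ w = w⁻¹ := eq_inv_of_mul_eq_one_right hwσ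
    have hσe1 : σ e = e / w := by
      rw [eq_div_iff hw0, mul_comm]
      exact he
    rw [hσw, hσe1, div_zpow, inv_zpow', neg_neg]
    have h5 : w * w ^ k = w ^ H * w ^ (-k) := by
      rw [← zpow_add₀ hw0, ← zpow_one_add₀ hw0]
      congr 1
      omega
    have hwH : w ^ H ≠ 0 := zpow_ne_zero _ hw0
    calc w * (e ^ H / w ^ H / algebraMap F E c * w ^ k)
        = e ^ H / algebraMap F E c * ((w * w ^ k) / w ^ H) := by
          field_simp
      _ = e ^ H / algebraMap F E c * w ^ (-k) := by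
          rw [h5, mul_comm (w ^ H), mul_div_assoc, div_self hwH, mul_one]
  -- the fixed elements
  obtain ⟨Y, hY⟩ : ∃ Y : Subgroup (sUnit B), ∀ x, x ∈ Y ↔ s x = x := by
    refine ⟨{ carrier := {x | s x = x}, mul_mem' := ?_, one_mem' := map_one s, inv_mem' := ?_ },
      fun x => Iff.rfl⟩
    · intro x y hx hy
      show s (x * y) = x * y
      rw [map_mul, show s x = x from hx, show s y = y from hy]
    · intro x hx
      show s x⁻¹ = x⁻¹
      rw [map_inv, show s x = x from hx]
  have hmemY : ∀ z : F, z ≠ 0 → (∀ v : HeightOneSpectrum (𝓞 F), v ∉ A → v.valuation F z = 1) →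
      ∃ y : sUnit B, y ∈ Y ∧ ((y : Eˣ) : E) = algebraMap F E z := by
    intro z hz0 hz
    have hzE : algebraMap F E z ≠ 0 := (map_ne_zero _).2 hz0
    refine ⟨⟨Units.mk0 _ hzE, ?_⟩, ?_, rfl⟩
    · intro Q hQ
      show Q.valuation E (algebraMap F E z) = 1
      rw [hunr Q (hBA Q hQ)]
      exact hz _ (hBA Q hQ)
    · rw [hY]
      apply hext
      show σ (algebraMap F E z) = algebraMap F E z
      exact AlgEquiv.commutes σ z
  have hrk : 2 * Module.finrank ℤ (Additive Y) ≤ Module.finrank ℤ (Additive (sUnit B)) + 1 := by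
    -- rank of `Y`
    have hfA := sUnit_fg A
    have hfinA : Module.Finite ℤ (Additive (sUnit A)) :=
      Module.Finite.iff_addGroup_fg.2 (GroupFG.iff_add_fg.1 hfA)
    let g : sUnit A →* Y :=
      { toFun := fun z => ⟨⟨Units.map (algebraMap F E : F →* E) z, fun Q hQ => by
            show Q.valuation E (algebraMap F E ((z : Fˣ) : F)) = 1
            rw [hunr Q (hBA Q hQ)]
            exact z.2 _ (hBA Q hQ)⟩, by
            rw [hY]
            apply hext
            show σ (algebraMap F E ((z : Fˣ) : F)) = algebraMap F E ((z : Fˣ) : F)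
            exact AlgEquiv.commutes σ _⟩
        map_one' := by
          apply Subtype.ext
          apply Subtype.ext
          exact map_one (Units.map (algebraMap F E : F →* E))
        map_mul' := by
          intro x y
          apply Subtype.ext
          apply Subtype.ext
          exact map_mul (Units.map (algebraMap F E : F →* E)) _ _ }
    have hgsurj : Function.Surjective g := by
      rintro ⟨y, hy⟩
      obtain ⟨a, ha⟩ := hfixed ((y : Eˣ) : E) (by
        rw [← hs, (hY y).1 hy])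
      have ha0 : a ≠ 0 := by
        rintro rfl
        rw [map_zero] at ha
        exact Units.ne_zero _ ha
      refine ⟨⟨Units.mk0 a ha0, ?_⟩, ?_⟩
      · intro v hv
        obtain ⟨Q, rfl⟩ := exists_above (K := F) (L := E) v
        show (below F Q).valuation F a = 1
        rw [← hunr Q hv, ← ha]
        exact y.2 Q (fun h => hv ((hB Q).1 h))
      · apply Subtype.ext
        apply hext
        exact ha.symm
    have h1 : Module.finrank ℤ (Additive Y) ≤ Module.finrank ℤ (Additive (sUnit A)) := by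
      have h2 := LinearMap.finrank_range_le (g.toAdditive.toIntLinearMap)
      have h3 : LinearMap.range (g.toAdditive.toIntLinearMap) = ⊤ := by
        rw [LinearMap.range_eq_top]
        intro y
        obtain ⟨z, hz⟩ := hgsurj y.toMul
        exact ⟨Additive.ofMul z, congrArg Additive.ofMul hz⟩
      rw [h3, finrank_top] at h2
      exact h2
    have h2 := sUnit_rank A
    have h3 := sUnit_rank B
    have h4 : 2 * Module.finrank ℚ F ≤ Module.finrank ℚ E := by
      rw [← Module.finrank_mul_finrank ℚ F E]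
      have hfinE : Module.Finite F E := Module.Finite.of_restrictScalars_finite ℚ F E
      have h5 : 2 ≤ Module.finrank F E := by
        by_contra hlt
        have h6 : 0 < Module.finrank F E := Module.finrank_pos
        have h7 : Module.finrank F E = 1 := by omega
        have h8 : (⊥ : Subalgebra F E) = ⊤ := Subalgebra.bot_eq_top_of_finrank_eq_one h7
        have h9 : t ∈ (⊥ : Subalgebra F E) := by
          rw [h8]
          exact Algebra.mem_top
        obtain ⟨c, hc⟩ := Algebra.mem_bot.1 h9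
        have h10 : σ t = t := by
          rw [← hc]
          exact AlgEquiv.commutes σ c
        rw [hσ] at h10
        have h11 : 2 * t = 0 := by linear_combination -h10
        exact (mul_ne_zero two_ne_zero ht0) h11
      rw [mul_comm]
      exact Nat.mul_le_mul_left _ h5
    omega
  -- conclusion
  obtain ⟨y₀, hy₀Y, hy₀⟩ := hmemY u₀ hu₀ hu₀A
  obtain ⟨y, hyY, hy⟩ := hmemY u hu huA
  have hfin' : ∀ x : sUnit B, ∃ a b : F, ((x : Eˣ) : E) * σ ((x : Eˣ) : E) =
      algebraMap F E (a ^ 2 - d * b ^ 2) := by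
    intro x
    obtain ⟨a, b, hab⟩ := hE ((x : Eˣ) : E)
    exact ⟨a, b, by rw [hab, hnorm]⟩
  obtain ⟨x, hx⟩ := norm_alg s hss ⟨-1, hneg⟩ hε1 hε2 htwo h90 Y hY hrk hy₀Y (u := y) (by
    rintro ⟨x, hx⟩
    obtain ⟨a, b, hab⟩ := hfin' x
    refine hn ⟨a, b, hinjF ?_⟩
    rw [← hab, ← hy₀, hx]
    rfl) hyY
  obtain ⟨a, b, hab⟩ := hfin' x
  refine ⟨a, b, ?_⟩
  rcases hx with hx | hx
  · left
    apply hinjF
    rw [← hab, ← hy, hx]
    rfl
  · right
    apply hinjF
    rw [← hab, map_mul, ← hy, ← hy₀]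
    exact (congrArg (fun z : sUnit B => ((z : Eˣ) : E)) hx).symm

end Pool.Agent.Work.MP_787500_nt.GP
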