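import Mathlib
import Pool.Agent.Work.MP_787500_nt.GP.N4_OddAt
import Pool.Agent.Work.MP_787500_nt.GP.N5_NormIdx
import Pool.Agent.Work.MP_787500_nt.GP.N5b_Dyad
import Pool.Agent.Work.MP_787500_nt.PA.TwoPlaces
import Pool.Agent.Work.MP_787500_nt.H10_Main

/-!
# Module N6_SYMB (size L): one symbol

`F ⊂ F₁` are in the 2-tower of `K`, `[F₁ : F] = 2`; `p`, `r` are different primes of `F`, not above 2, with exactly
one prime `p₁`, `r₁` of `F₁` above them; `u ∈ F₁` is a unit away from 2 which is not a square modulo `p₁`.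
`y`, `z` in `F` with `OddAt p y`, `OddAt r z`. Claim: there are `a ∈ F`, `c ∈ F₁`, units away from 2, such that
`c z` is represented by `x ^ 2 - a y w ^ 2` over `F₁`.
Let `v` be a place of `F` above 2. By `sel_count` there is a product `a` of elements `a i` with `SU (a i)`
such that `LocSq (v.valuation F) (y * a)`. Let `d = a y`. It is not a square in `F₁`: the valuation of `d` at
`p₁` is that of `d` at `p` to the power `e`, where `e = 1` (`F₁ / F` is unramified outside 2: `F₁ = F (t₁)`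
with `t₁ ^ 2 = d₁ ∈ F`, `EvenOff2 d₁` (see below) and `quad_unram`), so it is not a square.
Let `E = F₁ (t)`, `t ^ 2 = d` (for example a subfield of an algebraic closure of `F₁`, or
`AdjoinRoot (X ^ 2 - C d)`). Apply `norm_index` to `E / F₁`: `A = {w, w', p₁, r₁}`, where `w`, `w'` are the
two places of `F₁` above 2 (`exists_two_places`, and there are no others: by `PropP` or by
`card_mul_card_le`, or simply: let `A` be the set of all places above 2 together with `p₁`, `r₁`; if there are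
`m ≥ 2` places above 2 ... in fact there are exactly two, see `sel_count` and its proof). `F₁` is totally
complex (`totallyComplex`), `hodd` by `exists_oddAt`.
Places of `E` above `A`: two above one dyadic place `w` above `v` (`quad_split`: `LocSq` over `F` gives
approximations of `d` by squares at `w`), at least one above `w'` and above `p₁`, two above `r₁`: the
residue field of `r₁` has degree 2 over that of `r` (`e = 1` and `r₁` is the only prime above `r`), so the unit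
`d` of `F` at `r` is a square modulo `r₁`: every element of the residue field of `r` is a square in its
quadratic extension; `quad_split` (`4 d` is a unit at `r₁`). So `B.card ≥ 6 = 2 A.card - 2`.
`hunr`: `quad_unram`: `d` has even valuation outside `A` (`OddAt p y`, `SU a`).
`u₀ = u` is not of the form `a' ^ 2 - d b ^ 2`: `quad_ram` at `p₁` (`d` has odd valuation at `p₁`) would make
it a square modulo `p₁`.
So `z` or `u z` is of the form `a' ^ 2 - d b ^ 2`: take `c = 1` or `c = u`.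
`EvenOff2 d₁`: `F₁ / F` is unramified outside 2: this is in the hypothesis `hunr₁`.
-/

set_option autoImplicit false
set_option linter.unusedSectionVars false

namespace Pool.Agent.Work.MP_787500_nt.GP

open IsDedekindDomain NumberField WithZero
open Pool.Agent.Work.MP_787500_nt.PA (TwoSys Sm1 Sm2 homs Coc Cob IsChar goodSys core cyc Opn SU)
open Pool.Agent.Work.MP_787500_nt.Gn (GoodG)

universe u

/-- a quadratic extension given by a nonsquare -/
private theorem n6_quadExt {F : Type u} [Field F] [NumberField F] {d : F} (hd : ¬ IsSquare d) :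
    ∃ (E : Type u) (_ : Field E) (_ : NumberField E) (_ : Algebra F E) (t : E) (σ : E ≃ₐ[F] E),
      t ^ 2 = algebraMap F E d ∧ (∀ x : E, ∃ a b : F, x = algebraMap F E a + algebraMap F E b * t) ∧
      σ t = -t := by
  have hfact : Fact (∀ r : F, r ^ 2 ≠ d + 0 * r) := ⟨fun r h => hd ⟨r, by rw [← sq, h]; ring⟩⟩
  have hnf : NumberField (QuadraticAlgebra F d 0) := NumberField.of_module_finite F _
  let t : QuadraticAlgebra F d 0 := ⟨0, 1⟩
  have ht : t ^ 2 = algebraMap F (QuadraticAlgebra F d 0) d := by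
    rw [sq]
    ext <;> simp [t]
  let s : QuadraticAlgebra F d 0 →ₐ[F] QuadraticAlgebra F d 0 :=
    { toFun := fun x => ⟨x.re, -x.im⟩
      map_one' := by
        ext
        · rfl
        · show -(0 : F) = 0
          simp
      map_mul' := fun x y => by ext <;> (simp; try ring)
      map_zero' := by ext <;> simp
      map_add' := fun x y => by ext <;> (simp; try ring)
      commutes' := fun x => by ext <;> simp }
  have hss : ∀ x, s (s x) = x := fun x => by
    ext <;> simp [s]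
  let σ : QuadraticAlgebra F d 0 ≃ₐ[F] QuadraticAlgebra F d 0 :=
    AlgEquiv.ofAlgHom s s (AlgHom.ext hss) (AlgHom.ext hss)
  refine ⟨QuadraticAlgebra F d 0, inferInstance, hnf, inferInstance, t, σ, ht, fun x => ⟨x.re, x.im, ?_⟩, ?_⟩
  · ext <;> simp [t]
  · show s t = -t
    ext <;> simp [s, t]

/-- the places above a finite set -/
private theorem n6_fin {F E : Type u} [Field F] [NumberField F] [Field E] [NumberField E] [Algebra F E]
    (A : Finset (HeightOneSpectrum (𝓞 F))) :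
    ∃ B : Finset (HeightOneSpectrum (𝓞 E)), ∀ Q, Q ∈ B ↔ below F Q ∈ A := by
  have h1 : ∀ v : HeightOneSpectrum (𝓞 F), {Q : HeightOneSpectrum (𝓞 E) | below F Q = v}.Finite := by
    intro v
    have := v.isMaximal
    have h2 : (v.asIdeal.primesOver (𝓞 E)).Finite := IsDedekindDomain.primesOver_finite v.asIdeal _
    refine Set.Finite.of_finite_image (f := HeightOneSpectrum.asIdeal) (h2.subset ?_) ?_
    · rintro _ ⟨Q, hQ, rfl⟩
      refine ⟨Q.isPrime, ⟨?_⟩⟩
      rw [← hQ]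
      rfl
    · intro Q _ Q' _ h
      exact HeightOneSpectrum.ext h
  have h2 : {Q : HeightOneSpectrum (𝓞 E) | below F Q ∈ A}.Finite := by
    have h3 : {Q : HeightOneSpectrum (𝓞 E) | below F Q ∈ A} =
        ⋃ v ∈ A, {Q : HeightOneSpectrum (𝓞 E) | below F Q = v} := by
      ext Q
      simp
    rw [h3]
    exact Set.Finite.biUnion A.finite_toSet (fun v _ => h1 v)
  exact ⟨h2.toFinset, fun Q => by simp⟩

private theorem n6_card {F F₁ : Type u} [Field F] [NumberField F] [Field F₁] [NumberField F₁]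
    [Algebra F F₁] (h2 : Module.finrank F F₁ = 2) {r : HeightOneSpectrum (𝓞 F)}
    {r₁ : HeightOneSpectrum (𝓞 F₁)} (hr₁ : below F r₁ = r)
    (hunr : ∀ x : F, r₁.valuation F₁ (algebraMap F F₁ x) = r.valuation F x)
    (hr₁' : ∀ Q : HeightOneSpectrum (𝓞 F₁), below F Q = r → Q = r₁) :
    Nat.card (𝓞 F₁ ⧸ r₁.asIdeal) = Nat.card (𝓞 F ⧸ r.asIdeal) ^ 2 := by
  subst hr₁
  have : r₁.asIdeal.LiesOver (below F r₁).asIdeal := ⟨rfl⟩
  have hm := (below F r₁).isMaximal
  have h3 := HeightOneSpectrum.valuation_liesOver (K := F) F₁ (below F r₁) r₁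
  obtain ⟨x, hx⟩ := (below F r₁).valuation_exists_uniformizer F
  have h4 : (below F r₁).asIdeal.ramificationIdx' r₁.asIdeal = 1 := by
    have h5 := h3 x
    rw [hunr x, hx, ← exp_nsmul] at h5
    have h6 := exp_injective h5
    simp at h6
    exact_mod_cast h6
  have h5 := Ideal.sum_ramification_inertia (𝓞 F₁) F F₁ (p := (below F r₁).asIdeal) (below F r₁).ne_bot
  have h6 : IsDedekindDomain.primesOverFinset (below F r₁).asIdeal (𝓞 F₁) = {r₁.asIdeal} := by
    ext P
    rw [IsDedekindDomain.mem_primesOverFinset_iff (below F r₁).ne_bot, Finset.mem_singleton]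
    constructor
    · rintro ⟨hP, hP2⟩
      have hne : P ≠ ⊥ := Ideal.ne_bot_of_liesOver_of_ne_bot (below F r₁).ne_bot P
      have := hr₁' ⟨P, hP, hne⟩ (HeightOneSpectrum.ext hP2.over.symm)
      rw [← this]
    · rintro rfl
      exact ⟨r₁.isPrime, ⟨rfl⟩⟩
  rw [h6, Finset.sum_singleton, h4, one_mul, h2, Ideal.inertiaDeg'_algebraMap] at h5
  let _ : Field (𝓞 F ⧸ (below F r₁).asIdeal) := Ideal.Quotient.field _
  rw [← h5]
  exact Module.natCard_eq_pow_finrank

private theorem n6_resSq {F F₁ : Type u} [Field F] [NumberField F] [Field F₁] [NumberField F₁]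
    [Algebra F F₁] (h2 : Module.finrank F F₁ = 2) {r : HeightOneSpectrum (𝓞 F)}
    {r₁ : HeightOneSpectrum (𝓞 F₁)} (hr₁ : below F r₁ = r) (hr : (2 : 𝓞 F) ∉ r.asIdeal)
    (hunr : ∀ x : F, r₁.valuation F₁ (algebraMap F F₁ x) = r.valuation F x)
    (hr₁' : ∀ Q : HeightOneSpectrum (𝓞 F₁), below F Q = r → Q = r₁)
    {d : F} (hd : r.valuation F d = 1) :
    ∃ y : F₁, r₁.valuation F₁ (algebraMap F F₁ d - y ^ 2) < 1 := by
  have hcard := n6_card h2 hr₁ hunr hr₁'
  have := r.isMaximal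
  have := r₁.isMaximal
  let k := 𝓞 F ⧸ r.asIdeal
  let k₁ := 𝓞 F₁ ⧸ r₁.asIdeal
  let _ : Field k := Ideal.Quotient.field _
  let _ : Field k₁ := Ideal.Quotient.field _
  have hfk : Finite k := Ideal.finiteQuotientOfFreeOfNeBot _ r.ne_bot
  have hfk₁ : Finite k₁ := Ideal.finiteQuotientOfFreeOfNeBot _ r₁.ne_bot
  let _ : Fintype k := Fintype.ofFinite k
  let _ : Fintype k₁ := Fintype.ofFinite k₁
  -- an integral approximation
  obtain ⟨x, hx⟩ := r.exists_valuation_sub_lt_of_integer hd.le 1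
  rw [Units.val_one] at hx
  have hx1 : r.valuation F (algebraMap (𝓞 F) F x) = 1 := by
    have h3 : algebraMap (𝓞 F) F x = d + (algebraMap (𝓞 F) F x - d) := by ring
    rw [h3, Valuation.map_add_eq_of_lt_left, hd]
    rwa [hd]
  have hxr : x ∉ r.asIdeal := by
    intro h
    have h3 := (HeightOneSpectrum.valuation_lt_one_iff_mem r (K := F) x).2 h
    rw [hx1] at h3
    exact lt_irrefl _ h3
  -- the square root modulo `r₁`
  have hr1 : (2 : 𝓞 F₁) ∉ r₁.asIdeal := fun h => hr (by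
    rw [← hr₁]
    exact (two_mem_below r₁).2 h)
  have hck : ringChar k ≠ 2 := by
    intro h
    apply hr
    rw [← Ideal.Quotient.eq_zero_iff_mem]
    have h3 : ((2 : ℕ) : k) = 0 := (ringChar.spec k 2).2 (by rw [h])
    have h4 : (Ideal.Quotient.mk r.asIdeal (2 : 𝓞 F) : k) = ((2 : ℕ) : k) := by
      rw [← map_natCast (Ideal.Quotient.mk r.asIdeal)]
      norm_num
    rw [h4]
    exact h3
  have hck₁ : ringChar k₁ ≠ 2 := by
    intro h
    apply hr1
    rw [← Ideal.Quotient.eq_zero_iff_mem]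
    have h3 : ((2 : ℕ) : k₁) = 0 := (ringChar.spec k₁ 2).2 (by rw [h])
    have h4 : (Ideal.Quotient.mk r₁.asIdeal (2 : 𝓞 F₁) : k₁) = ((2 : ℕ) : k₁) := by
      rw [← map_natCast (Ideal.Quotient.mk r₁.asIdeal)]
      norm_num
    rw [h4]
    exact h3
  have hodd := FiniteField.odd_card_of_char_ne_two hck
  have hmem : algebraMap (𝓞 F) (𝓞 F₁) (x ^ (Fintype.card k - 1) - 1) ∈ r₁.asIdeal := by
    have h3 : x ^ (Fintype.card k - 1) - 1 ∈ r.asIdeal := by
      rw [← Ideal.Quotient.eq_zero_iff_mem, map_sub, map_pow, map_one, sub_eq_zero]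
      exact FiniteField.pow_card_sub_one_eq_one (K := k) _
        (fun h => hxr (Ideal.Quotient.eq_zero_iff_mem.1 h))
    rw [← hr₁] at h3
    exact h3
  have hxr₁ : algebraMap (𝓞 F) (𝓞 F₁) x ∉ r₁.asIdeal := by
    intro h
    apply hxr
    rw [← hr₁]
    exact h
  have hsq : IsSquare (Ideal.Quotient.mk r₁.asIdeal (algebraMap (𝓞 F) (𝓞 F₁) x) : k₁) := by
    rw [FiniteField.isSquare_iff hck₁ (fun h => hxr₁ (Ideal.Quotient.eq_zero_iff_mem.1 h))]
    have h3 : (Ideal.Quotient.mk r₁.asIdeal (algebraMap (𝓞 F) (𝓞 F₁) x) : k₁) ^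
        (Fintype.card k - 1) = 1 := by
      rw [← Ideal.Quotient.eq_zero_iff_mem, map_sub, map_sub, map_pow, map_pow, map_one, map_one,
        sub_eq_zero] at hmem
      exact hmem
    have h4 : Fintype.card k₁ / 2 = (Fintype.card k - 1) * ((Fintype.card k + 1) / 2) := by
      have h5 : Fintype.card k₁ = Fintype.card k ^ 2 := by
        rw [← Nat.card_eq_fintype_card, ← Nat.card_eq_fintype_card]
        exact hcard
      obtain ⟨n, hn⟩ : ∃ n, Fintype.card k = 2 * n + 1 := ⟨Fintype.card k / 2, by omega⟩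
      rw [h5, hn]
      have h6 : (2 * n + 1) ^ 2 = 2 * (2 * n * (n + 1)) + 1 := by ring
      have h7 : (2 * n + 1 + 1) / 2 = n + 1 := by omega
      rw [h6, h7]
      have h8 : 2 * n + 1 - 1 = 2 * n := by omega
      rw [h8]
      omega
    rw [h4, pow_mul, h3, one_pow]
  obtain ⟨y, hy⟩ := hsq
  obtain ⟨y, rfl⟩ := Ideal.Quotient.mk_surjective y
  refine ⟨algebraMap (𝓞 F₁) F₁ y, ?_⟩
  have h3 : algebraMap (𝓞 F) (𝓞 F₁) x - y ^ 2 ∈ r₁.asIdeal := by
    rw [← Ideal.Quotient.eq_zero_iff_mem, map_sub, map_pow, sq, sub_eq_zero]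
    exact hy
  have h4 := (HeightOneSpectrum.valuation_lt_one_iff_mem r₁ (K := F₁) _).2 h3
  have h5 : r₁.valuation F₁ (algebraMap F F₁ (algebraMap (𝓞 F) F x - d)) < 1 := by
    rw [hunr]
    exact hx
  have h6 : algebraMap F F₁ d - algebraMap (𝓞 F₁) F₁ y ^ 2 =
      algebraMap (𝓞 F₁) F₁ (algebraMap (𝓞 F) (𝓞 F₁) x - y ^ 2) -
        algebraMap F F₁ (algebraMap (𝓞 F) F x - d) := by
    have h7 : algebraMap (𝓞 F₁) F₁ (algebraMap (𝓞 F) (𝓞 F₁) x) =
        algebraMap F F₁ (algebraMap (𝓞 F) F x) := by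
      rw [← IsScalarTower.algebraMap_apply, ← IsScalarTower.algebraMap_apply]
    rw [map_sub, map_sub, map_pow, h7]
    ring
  rw [h6]
  exact lt_of_le_of_lt (Valuation.map_sub _ _ _) (max_lt h4 h5)

private theorem n6_card6 {F E : Type u} [Field F] [NumberField F] [Field E] [NumberField E]
    [Algebra F E] {w w' p₁ r₁ : HeightOneSpectrum (𝓞 F)} (h1 : w ≠ w') (h2 : w ≠ p₁) (h3 : w ≠ r₁)
    (h4 : w' ≠ p₁) (h5 : w' ≠ r₁) (h6 : p₁ ≠ r₁)
    (hw : ∃ Q Q' : HeightOneSpectrum (𝓞 E), Q ≠ Q' ∧ below F Q = w ∧ below F Q' = w)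
    (hr : ∃ Q Q' : HeightOneSpectrum (𝓞 E), Q ≠ Q' ∧ below F Q = r₁ ∧ below F Q' = r₁)
    (B : Finset (HeightOneSpectrum (𝓞 E)))
    (hB : ∀ Q : HeightOneSpectrum (𝓞 E), below F Q = w ∨ below F Q = w' ∨ below F Q = p₁ ∨
      below F Q = r₁ → Q ∈ B) : 6 ≤ B.card := by
  classical
  obtain ⟨Q1, Q2, h12, hQ1, hQ2⟩ := hw
  obtain ⟨Q5, Q6, h56, hQ5, hQ6⟩ := hr
  obtain ⟨Q3, hQ3⟩ := exists_above (L := E) w'
  obtain ⟨Q4, hQ4⟩ := exists_above (L := E) p₁
  have hne : ∀ {Q Q' : HeightOneSpectrum (𝓞 E)} {v v' : HeightOneSpectrum (𝓞 F)},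
      below F Q = v → below F Q' = v' → v ≠ v' → Q ≠ Q' := by
    rintro Q Q' v v' rfl rfl h rfl
    exact h rfl
  have hsub : ({Q1, Q2, Q3, Q4, Q5, Q6} : Finset (HeightOneSpectrum (𝓞 E))) ⊆ B := by
    intro Q hQ
    simp only [Finset.mem_insert, Finset.mem_singleton] at hQ
    apply hB
    rcases hQ with rfl | rfl | rfl | rfl | rfl | rfl
    · exact Or.inl hQ1
    · exact Or.inl hQ2
    · exact Or.inr (Or.inl hQ3)
    · exact Or.inr (Or.inr (Or.inl hQ4))
    · exact Or.inr (Or.inr (Or.inr hQ5))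
    · exact Or.inr (Or.inr (Or.inr hQ6))
  refine le_trans (le_of_eq ?_) (Finset.card_le_card hsub)
  rw [Finset.card_insert_of_notMem, Finset.card_insert_of_notMem, Finset.card_insert_of_notMem,
    Finset.card_insert_of_notMem, Finset.card_insert_of_notMem, Finset.card_singleton]
  · simp only [Finset.mem_singleton]
    exact h56
  · simp only [Finset.mem_insert, Finset.mem_singleton, not_or]
    exact ⟨hne hQ4 hQ5 h6, hne hQ4 hQ6 h6⟩
  · simp only [Finset.mem_insert, Finset.mem_singleton, not_or]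
    exact ⟨hne hQ3 hQ4 h4, hne hQ3 hQ5 h5, hne hQ3 hQ6 h5⟩
  · simp only [Finset.mem_insert, Finset.mem_singleton, not_or]
    exact ⟨hne hQ2 hQ3 h1, hne hQ2 hQ4 h2, hne hQ2 hQ5 h3, hne hQ2 hQ6 h3⟩
  · simp only [Finset.mem_insert, Finset.mem_singleton, not_or]
    exact ⟨h12, hne hQ1 hQ3 h1, hne hQ1 hQ4 h2, hne hQ1 hQ5 h3, hne hQ1 hQ6 h3⟩

/-- approximations by squares go up -/
private theorem n6_up {F F₁ : Type u} [Field F] [NumberField F] [Field F₁] [NumberField F₁]
    [Algebra F F₁] {w : HeightOneSpectrum (𝓞 F₁)} {d : F} (hd : d ≠ 0)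
    (h : LocSq ((below F w).valuation F) d) :
    ∃ y : F₁, w.valuation F₁ (algebraMap F F₁ d - y ^ 2) <
      w.valuation F₁ (4 * algebraMap F F₁ d) := by
  obtain ⟨e, he, hval⟩ := exists_valuation_below (K := F) w
  have h4 : (4 * d : F) ≠ 0 := mul_ne_zero (by norm_num) hd
  obtain ⟨y, hy⟩ := h ((below F w).valuation F (4 * d)) ((Valuation.ne_zero_iff _).2 h4)
  refine ⟨algebraMap F F₁ y, ?_⟩
  have h5 : (4 * algebraMap F F₁ d : F₁) = algebraMap F F₁ (4 * d) := by
    rw [map_mul, map_ofNat]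
  rw [h5, ← map_pow, ← map_sub, ← hval, ← hval]
  exact pow_lt_pow_left₀ hy zero_le he

theorem symb_core {K F F₁ : Type u} [Field K] [NumberField K] [Field F] [NumberField F]
    [Field F₁] [NumberField F₁] [Algebra K F] [Algebra K F₁] [Algebra F F₁] [IsScalarTower K F F₁]
    {q : ℕ} {s : K} (hK : IsBase K q s) (hF : InTwoTower K F) (hF₁ : InTwoTower K F₁)
    (h2 : Module.finrank F F₁ = 2)
    (hunr₁ : ∀ Q : HeightOneSpectrum (𝓞 F₁), (2 : 𝓞 F₁) ∉ Q.asIdeal →
      ∀ x : F, Q.valuation F₁ (algebraMap F F₁ x) = (below F Q).valuation F x)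
    {p r : HeightOneSpectrum (𝓞 F)} (hp : (2 : 𝓞 F) ∉ p.asIdeal) (hr : (2 : 𝓞 F) ∉ r.asIdeal)
    (hpr : p ≠ r) {p₁ r₁ : HeightOneSpectrum (𝓞 F₁)} (hp₁ : below F p₁ = p)
    (hp₁' : ∀ Q : HeightOneSpectrum (𝓞 F₁), below F Q = p → Q = p₁) (hr₁ : below F r₁ = r)
    (hr₁' : ∀ Q : HeightOneSpectrum (𝓞 F₁), below F Q = r → Q = r₁)
    {u : F₁} (hu : SU u) (hun : ¬ ∃ x : F₁, p₁.valuation F₁ (u - x ^ 2) < 1)
    {y z : F} (hy : OddAt p y) (hz : OddAt r z) :
    ∃ (a : F) (c x w : F₁), SU a ∧ SU c ∧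
      x ^ 2 - algebraMap F F₁ (a * y) * w ^ 2 = c * algebraMap F F₁ z := by
  classical
  have hFc := hF
  have htc : IsTotallyComplex F₁ := PA.totallyComplex (F := F₁) hK
  have hyu := hy.2.1
  -- the class of `y` at a dyadic place
  obtain ⟨w, w', hw2, hw'2, hww⟩ := PA.exists_two_places (F := F₁) hK
  have hv2 : (2 : 𝓞 F) ∈ (below F w).asIdeal := (two_mem_below w).2 hw2
  obtain ⟨α, hα, -, hαl, -⟩ := PA.sel_count hK hF rfl
  obtain ⟨T, hT⟩ := hαl (below F w) hv2 y hy.1
  have ha : SU (∏ i ∈ T, α i) := PA.SU.prod T α (fun i _ => hα i)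
  obtain ⟨ha0, haval⟩ := PA.su_iff.1 ha
  generalize (∏ i ∈ T, α i) = a at hT ha ha0 haval
  have hd0 : a * y ≠ 0 := mul_ne_zero ha0 hy.1
  have hd : LocSq ((below F w).valuation F) (a * y) := by
    rw [mul_comm]
    exact hT
  set d : F := a * y with hdd
  set d₁ : F₁ := algebraMap F F₁ d with hd₁
  have hd₁0 : d₁ ≠ 0 := by
    rw [hd₁]
    exact (map_ne_zero _).2 hd0
  -- nondyadic places
  have hp2 : (2 : 𝓞 F₁) ∉ p₁.asIdeal := fun h => hp (by
    rw [← hp₁]
    exact (two_mem_below p₁).2 h)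
  have hr2 : (2 : 𝓞 F₁) ∉ r₁.asIdeal := fun h => hr (by
    rw [← hr₁]
    exact (two_mem_below r₁).2 h)
  have hdv : ∀ v : HeightOneSpectrum (𝓞 F), (2 : 𝓞 F) ∉ v.asIdeal → v ≠ p → v.valuation F d = 1 := by
    intro v hv hvp
    rw [hdd, map_mul, haval v hv, hy.2.2 v hvp hv, one_mul]
  have hdQ : ∀ Q : HeightOneSpectrum (𝓞 F₁), (2 : 𝓞 F₁) ∉ Q.asIdeal → Q ≠ p₁ →
      Q.valuation F₁ d₁ = 1 := by
    intro Q hQ hQp
    rw [hd₁, hunr₁ Q hQ]
    exact hdv _ (fun h => hQ ((two_mem_below Q).1 h)) (fun h => hQp (hp₁' Q h))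
  have hdp : ¬ IsSquare (p₁.valuation F₁ d₁) := by
    rw [hd₁, hunr₁ p₁ hp2, hp₁, hdd, map_mul, haval p hp, one_mul]
    exact hyu
  have hnsq : ¬ IsSquare d₁ := by
    rintro ⟨e, he⟩
    apply hdp
    rw [he, map_mul]
    exact ⟨_, rfl⟩
  -- the quadratic extension
  obtain ⟨E, iE, iNE, iA, t, σ, ht, hE, hσ⟩ := n6_quadExt hnsq
  let A : Finset (HeightOneSpectrum (𝓞 F₁)) := {w, w', p₁, r₁}
  have hA : ∀ v, v ∈ A ↔ v = w ∨ v = w' ∨ v = p₁ ∨ v = r₁ := fun v => by
    simp only [A, Finset.mem_insert, Finset.mem_singleton]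
  obtain ⟨B, hB⟩ := n6_fin (E := E) A
  have hdy : ∀ v : HeightOneSpectrum (𝓞 F₁), (2 : 𝓞 F₁) ∈ v.asIdeal → v ∈ A := by
    intro v hv
    rw [hA]
    by_contra hcon
    push Not at hcon
    have h3 := dyad_le hK hF₁ ({w, w', v} : Finset (HeightOneSpectrum (𝓞 F₁))) (by
      intro x hx
      simp only [Finset.mem_insert, Finset.mem_singleton] at hx
      rcases hx with rfl | rfl | rfl
      · exact hw2
      · exact hw'2
      · exact hv)
    rw [Finset.card_insert_of_notMem, Finset.card_insert_of_notMem, Finset.card_singleton] at h3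
    · omega
    · simp only [Finset.mem_singleton]
      exact fun h => hcon.2.1 h.symm
    · simp only [Finset.mem_insert, Finset.mem_singleton, not_or]
      exact ⟨hww, fun h => hcon.1 h.symm⟩
  have hnA : ∀ v : HeightOneSpectrum (𝓞 F₁), v ∉ A → (2 : 𝓞 F₁) ∉ v.asIdeal ∧ v ≠ p₁ ∧ v ≠ r₁ := by
    intro v hv
    refine ⟨fun h => hv (hdy v h), fun h => hv ((hA v).2 ?_), fun h => hv ((hA v).2 ?_)⟩
    · exact Or.inr (Or.inr (Or.inl h))
    · exact Or.inr (Or.inr (Or.inr h))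
  have hunr : ∀ Q : HeightOneSpectrum (𝓞 E), below F₁ Q ∉ A →
      ∀ x : F₁, Q.valuation E (algebraMap F₁ E x) = (below F₁ Q).valuation F₁ x := by
    intro Q hQ x
    obtain ⟨h3, h4, -⟩ := hnA _ hQ
    refine quad_unram ht hd₁0 hE σ hσ h3 ?_ rfl x
    rw [hdQ _ h3 h4]
    exact ⟨1, by simp⟩
  obtain ⟨hu0, huv⟩ := PA.su_iff.1 hu
  have hprne : p₁ ≠ r₁ := by
    rintro rfl
    exact hpr (hp₁.symm.trans hr₁)
  have hcount : 2 * A.card ≤ B.card + 2 := by
    have h3 : A.card ≤ 4 := Finset.card_le_four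
    have h4 : 6 ≤ B.card := by
      refine n6_card6 (w := w) (w' := w') (p₁ := p₁) (r₁ := r₁) hww ?_ ?_ ?_ ?_ hprne ?_ ?_ B ?_
      · rintro rfl
        exact hp2 hw2
      · rintro rfl
        exact hr2 hw2
      · rintro rfl
        exact hp2 hw'2
      · rintro rfl
        exact hr2 hw'2
      · exact quad_split ht hd₁0 hE σ hσ (n6_up hd0 hd)
      · refine quad_split ht hd₁0 hE σ hσ ?_
        obtain ⟨y', hy'⟩ := n6_resSq h2 hr₁ hr (fun x => by rw [hunr₁ r₁ hr2, hr₁]) hr₁'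
          (hdv r hr (Ne.symm hpr))
        refine ⟨y', ?_⟩
        rw [map_mul, hdQ r₁ hr2 (Ne.symm hprne), mul_one]
        have h5 : r₁.valuation F₁ (4 : F₁) = 1 := by
          have h6 : (4 : F₁) = 2 * 2 := by norm_num
          rw [h6, map_mul, PA.SUlem_val_two hr2, one_mul]
        rw [h5]
        exact hy'
      · intro Q hQ
        rw [hB, hA]
        exact hQ
    omega
  have hz0 : algebraMap F F₁ z ≠ 0 := (map_ne_zero _).2 hz.1
  obtain ⟨x, b, hxb⟩ := norm_index ht hd₁0 hE σ hσ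
    (fun v hv => exists_oddAt hK hF₁ hv) A B hB hdy hunr hcount hu0
    (fun v hv => huv v (hnA v hv).1)
    (by
      rintro ⟨x, b, hxb⟩
      exact hun ⟨x, quad_ram hdp hxb (huv p₁ hp2)⟩)
    hz0 (fun v hv => by
      obtain ⟨h3, h4, h5⟩ := hnA v hv
      rw [hunr₁ v h3]
      exact hz.2.2 _ (fun h => h5 (hr₁' v h)) (fun h => h3 ((two_mem_below v).1 h)))
  rcases hxb with hxb | hxb
  · exact ⟨a, 1, x, b, ha, PA.SUlem_one, by rw [one_mul]; exact hxb⟩
  · exact ⟨a, u, x, b, ha, hu, hxb⟩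

end Pool.Agent.Work.MP_787500_nt.GP
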