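import Mathlib
import Pool.Agent.Work.MP_787500_nt.GP.N6_Symb
import Pool.Agent.Work.MP_787500_nt.GP.N7_Inert
import Pool.Agent.Work.MP_787500_nt.GP.N5b_Dyad
import Pool.Agent.Work.MP_787500_nt.GP.C1_Quad
import Pool.Agent.Work.MP_787500_nt.PA.CountsK

/-!
# Module N8_PQCORE (size L): all binary forms over the maximal 2-extension unramified outside 2 are universal

`M = Fx (core K)`. For `a, b ∈ M` nonzero write `S a b` if `b = x ^ 2 - a y ^ 2` with `x, y ∈ M`. `symb_mul`,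
`symb_symm` (module C1): for fixed `a` the `b` with `S a b` form a group that contains the squares, and
`S a b ↔ S b a`. Units away from 2 in `M` are squares in `M`: if `u ∈ M`, `SU u`, `u ∈ Fx U` (`U` in the system),
then by `sel_count` (for `F = Fx U`, `fixedF`)... more directly: `t ^ 2 = u`; `t` is fixed by a good subgroup (the extension
`F (t) / F` is unramified outside 2: see how `InM` is proved for the `t i` in `PA/CountsK.lean`).
Let `a, b ∈ M`. There is `U₀` with `Opn (goodSys K) U₀` and `a, b ∈ Fx U₀` (the stabilizers of `a` and `b`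
are open and contain `core K`, so contain a good subgroup by compactness). Let `F₀ = Fx U₀`, a number
field in the tower (`fixedF`).
Let `n` be larger than all `m` of `exists_chi` for `U₀` and the primes `Q` of `𝓞 Kbar` above the finitely many
primes of `F₀` not above 2 at which `a` or `b` has valuation different from 1 (one `Q` for each; the
conclusion of `exists_chi` for `Q` implies it for all `h • Q`, `h ∈ U₀`: conjugate `g`), and `n ≥ 2`.
Let `U = U₀ ⊓ {g | 2 ^ n ∣ cyc g - 1}`, `U₁ = U₀ ⊓ {g | 2 ^ (n + 1) ∣ cyc g - 1}`, `F = Fx U`, `F₁ = Fx U₁`. Both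
are in the tower (the roots of unity of 2-power order are in `M`); `[F₁ : F] = 2` (by `exists_chi` and
`cyc g ≡ 1 mod 2 ^ n` implies that `cyc (g ^ 2)` is 1 modulo `2 ^ (n + 1)`). If there is no such prime `Q`
then `EvenOff2 a`, and `a` is a unit away from 2 times a square (`sel_count`), so `S a b`.
By `sel_count` and `exists_oddAt`: `a` is a product of `y_p` (`OddAt p y_p`) over the primes `p` of `F` not above 2
where `a` has odd valuation, times a unit away from 2, times a square in `F`: the quotient is `EvenOff2`.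
The same for `b`. So by bilinearity it suffices to show `S y_p y_r` for two such primes `p`, `r` of `F`; they lie
above primes of `F₀` as above (if the valuation at the prime below is a square then so is the valuation
at `p`, `exists_valuation_below`).
* `p = r`: `y_p y_r` has even valuations, so it is a unit away from 2 times a square, so
  `S y_p y_r` follows from `S y_p (- y_p)` (`0 ^ 2 - y (1) ^ 2 = -y`) and `S y_p (-1)` (`-1` is a unit).
* `p ≠ r`: choose `Q` above `p`, by `exists_chi` (for `n`) there is `g ∈ stabD Q`, `g ∈ U`, `g ∉ U₁`. So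
  the primes of `Kbar` above `p`, `U Q` (`exists_smul_eq`), form one orbit under `U₁` (`U = U₁ ∪ g U₁`, `U₁` normal
  in `U`), so there is only one prime `p₁` of `F₁` above `p`; the same for `r`. Let `ζ` be a
  primitive root of unity of order `2 ^ (n + 1)`, `ζ ∈ F₁`; `u = ζ` is not a square modulo `p₁`: by `exists_chi` for
  `n + 1` there is `g' ∈ stabD Q ⊓ U₁` with `g' w = -w`, `w ^ 2 = ζ`; if `ζ - x ^ 2 ∈ Q`, `x ∈ F₁` integral at
  `p₁`, then `w = ± x` modulo `Q`, and applying `g'`: `-w = ± x` modulo `Q`, so `2 w ∈ Q`, contradiction.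
  `hunr₁`: `F₁ / F` is unramified outside 2: `F₁ = F (ζ)`, `ζ ^ 2 ∈ F` is a unit, `quad_unram`. `symb_core` gives
  `a' y_p` and `c y_r` with `S (a' y_p) (c y_r)`, and `a'`, `c` are squares in `M`.
-/

set_option autoImplicit false
set_option linter.unusedSectionVars false

namespace Pool.Agent.Work.MP_787500_nt.GP

open IsDedekindDomain NumberField
open Pool.Agent.Work.MP_787500_nt.PA (TwoSys Sm1 Sm2 homs Coc Cob IsChar goodSys core cyc Opn SU)
open Pool.Agent.Work.MP_787500_nt.Gn (GoodG)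

universe u

section levels

variable {K : Type u} [Field K] [NumberField K]

private theorem pq_spec (g : AbsGal K) {n : ℕ} {ζ : AlgebraicClosure K} (h : ζ ^ 2 ^ n = 1) :
    g ζ = ζ ^ (PadicInt.toZModPow n (cyc g)).val :=
  cyclotomicCharacter.spec 2 (g : AlgebraicClosure K ≃+* AlgebraicClosure K) ζ h

private theorem pq_fix {g : AbsGal K} {n : ℕ} {ζ : AlgebraicClosure K}
    (hζ : IsPrimitiveRoot ζ (2 ^ n)) : g ζ = ζ ↔ (2 : ℤ_[2]) ^ n ∣ cyc g - 1 := by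
  have : NeZero (2 ^ n) := ⟨by positivity⟩
  have h1 : ζ = ζ ^ (PadicInt.toZModPow n (cyc (1 : AbsGal K))).val := pq_spec 1 hζ.pow_eq_one
  rw [PA.isChar_cyc.one] at h1
  have h2 : (2 : ℤ_[2]) ^ n ∣ cyc g - 1 ↔ PadicInt.toZModPow n (cyc g) = PadicInt.toZModPow n 1 := by
    rw [← sub_eq_zero, ← map_sub, ← RingHom.mem_ker, PadicInt.ker_toZModPow,
      Ideal.mem_span_singleton]
    exact Iff.rfl
  rw [h2, pq_spec g hζ.pow_eq_one]
  constructor
  · intro h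
    have h3 : ζ ^ (PadicInt.toZModPow n (cyc g)).val = ζ ^ (PadicInt.toZModPow n (1 : ℤ_[2])).val :=
      h.trans h1
    exact ZMod.val_injective _ (hζ.pow_inj (ZMod.val_lt _) (ZMod.val_lt _) h3)
  · intro h
    rw [h, ← h1]

/-- the elements of `U` with `cyc` congruent to 1 modulo `2 ^ n` -/
private noncomputable def lev (U : Subgroup (AbsGal K)) (n : ℕ) : Subgroup (AbsGal K) where
  carrier := {g | g ∈ U ∧ (2 : ℤ_[2]) ^ n ∣ cyc g - 1}
  mul_mem' := by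
    rintro g h ⟨hg, hg'⟩ ⟨hh, hh'⟩
    refine ⟨U.mul_mem hg hh, ?_⟩
    have : cyc (g * h) - 1 = (cyc g - 1) * cyc h + (cyc h - 1) := by
      rw [PA.isChar_cyc.mul]; ring
    rw [this]
    exact dvd_add (Dvd.dvd.mul_right hg' _) hh'
  one_mem' := ⟨U.one_mem, by rw [PA.isChar_cyc.one, sub_self]; exact dvd_zero _⟩
  inv_mem' := by
    rintro g ⟨hg, hg'⟩
    refine ⟨U.inv_mem hg, ?_⟩
    have h1 : cyc g⁻¹ * cyc g = 1 := by
      rw [← PA.isChar_cyc.mul, inv_mul_cancel, PA.isChar_cyc.one]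
    have : cyc g⁻¹ - 1 = - cyc g⁻¹ * (cyc g - 1) := by
      linear_combination h1
    rw [this]
    exact Dvd.dvd.mul_left hg' _

private theorem mem_lev {U : Subgroup (AbsGal K)} {n : ℕ} {g : AbsGal K} :
    g ∈ lev U n ↔ g ∈ U ∧ (2 : ℤ_[2]) ^ n ∣ cyc g - 1 := Iff.rfl

private theorem lev_opn {U : Subgroup (AbsGal K)} (hU : Opn (goodSys K) U) (n : ℕ) :
    Opn (goodSys K) (lev U n) := by
  obtain ⟨W, hW, hle⟩ := hU
  obtain ⟨W', hW', h⟩ := (PA.isChar_cyc (K := K)).cont n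
  refine ⟨W ⊓ W', (goodSys K).inf hW hW', fun w hw => ⟨hle hw.1, ?_⟩⟩
  have := h 1 w hw.2
  rw [one_mul, PA.isChar_cyc.one] at this
  exact_mod_cast this

private theorem lev_le {U : Subgroup (AbsGal K)} (n : ℕ) : lev U (n + 1) ≤ lev U n := by
  rintro g ⟨hg, hg'⟩
  exact ⟨hg, (pow_dvd_pow 2 (Nat.le_succ n)).trans hg'⟩

private theorem core_le_opn {U : Subgroup (AbsGal K)} (hU : Opn (goodSys K) U) : core K ≤ U := by
  obtain ⟨W, hW, hle⟩ := hU
  exact (PA.core_le hW).trans hle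

/-- an element fixed by the core is fixed by an open subgroup of the system -/
private theorem exists_opn_fix {x : AlgebraicClosure K} (hx : x ∈ Fx (core K)) :
    ∃ W : Subgroup (AbsGal K), PA.Good W ∧ ∀ w ∈ W, w x = x := by
  by_contra hcon
  push Not at hcon
  have hopen : IsOpen (MulAction.stabilizer (AbsGal K) x : Set (AbsGal K)) :=
    stabilizer_isOpen_of_isIntegral x
  let t : {W : Subgroup (AbsGal K) // PA.Good W} → Set (AbsGal K) := fun W =>
    (MulAction.stabilizer (AbsGal K) x : Set (AbsGal K))ᶜ ∩ W.1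
  have hcl : ∀ W, IsClosed (t W) := fun W =>
    hopen.isClosed_compl.inter (Subgroup.isClosed_of_isOpen W.1 W.2.isOpen)
  have hne : Nonempty {W : Subgroup (AbsGal K) // PA.Good W} := ⟨⟨⊤, PA.Good.top⟩⟩
  have hh := IsCompact.nonempty_iInter_of_directed_nonempty_isCompact_isClosed t
    (fun W W' => ⟨⟨W.1 ⊓ W'.1, W.2.inf W'.2⟩, fun d hd => ⟨hd.1, hd.2.1⟩,
      fun d hd => ⟨hd.1, hd.2.2⟩⟩)
    (fun W => by
      obtain ⟨d, hd, hd'⟩ := hcon W.1 W.2
      exact ⟨d, hd', hd⟩)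
    (fun W => (hcl W).isCompact) hcl
  obtain ⟨d, hd⟩ := hh
  rw [Set.mem_iInter] at hd
  have h1 : d ∉ (MulAction.stabilizer (AbsGal K) x : Set (AbsGal K)) := (hd ⟨⊤, PA.Good.top⟩).1
  apply h1
  have h2 : d ∈ core K := by
    rw [core, Subgroup.mem_sInf]
    intro W hW
    exact (hd ⟨W, hW⟩).2
  exact mem_Fx.1 hx d h2

private theorem pq_sqrt {x : AlgebraicClosure K} (hx : x ∈ Fx (core K)) (hu : SU x) :
    ∃ y ∈ Fx (core K), y ≠ 0 ∧ y ^ 2 = x := by
  obtain ⟨W, hW, h⟩ := exists_opn_fix hx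
  obtain ⟨y, hy⟩ : ∃ y : AlgebraicClosure K, y ^ 2 = x := IsAlgClosed.exists_pow_nat_eq _ (by norm_num)
  obtain ⟨W', hW', h'⟩ := PA.InM.sqrt ⟨W, hW, h⟩ hu hy
  refine ⟨y, ?_, ?_, hy⟩
  · rw [mem_Fx]
    exact fun w hw => h' w (PA.core_le hW' hw)
  · rintro rfl
    exact hu.1 (by rw [← hy]; ring)

private theorem pq_fixed {U : Subgroup (AbsGal K)} (hU : Opn (goodSys K) U) :
    FiniteDimensional K (Fx U) ∧ Module.finrank K (Fx U) = U.index ∧ (Fx U).fixingSubgroup = U ∧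
      ∃ _ : NumberField (Fx U), InTwoTower K (Fx U) := PA.fixedF hU

private theorem Fx_anti {U V : Subgroup (AbsGal K)} (h : U ≤ V) : Fx V ≤ Fx U := by
  intro x hx
  rw [mem_Fx] at hx ⊢
  exact fun u hu => hx u (h hu)

end levels

section primes

open scoped Pointwise

variable {K : Type u} [Field K] [NumberField K]

/-- the prime of `F` below `Q` -/
private noncomputable def resP (F : IntermediateField K (AlgebraicClosure K)) [NumberField F]
    (Q : Ideal (𝓞 (AlgebraicClosure K))) (hQ : Q.IsPrime) (hb : Q ≠ ⊥) :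
    HeightOneSpectrum (𝓞 F) :=
  ⟨Q.comap (algebraMap (𝓞 F) (𝓞 (AlgebraicClosure K))), Ideal.comap_isPrime _ _, fun h =>
    hb (Ideal.eq_bot_of_comap_eq_bot (R := 𝓞 F) h)⟩

private theorem mem_resP {F : IntermediateField K (AlgebraicClosure K)} [NumberField F]
    {Q : Ideal (𝓞 (AlgebraicClosure K))} {hQ : Q.IsPrime} {hb : Q ≠ ⊥} {x : 𝓞 F} :
    x ∈ (resP F Q hQ hb).asIdeal ↔ algebraMap (𝓞 F) (𝓞 (AlgebraicClosure K)) x ∈ Q := Iff.rfl

private theorem exists_resP {F : IntermediateField K (AlgebraicClosure K)} [NumberField F]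
    (v : HeightOneSpectrum (𝓞 F)) :
    ∃ (Q : Ideal (𝓞 (AlgebraicClosure K))) (hQ : Q.IsPrime) (hb : Q ≠ ⊥), resP F Q hQ hb = v := by
  have hmax : v.asIdeal.IsMaximal := v.isMaximal
  obtain ⟨Q, hQm, hQv⟩ := Ideal.exists_maximal_ideal_liesOver_of_isIntegral
    (S := 𝓞 (AlgebraicClosure K)) v.asIdeal
  have hQ : Q.IsPrime := hQm.isPrime
  have hb : Q ≠ ⊥ := by
    rintro rfl
    have h1 := hQv.over
    apply v.ne_bot
    rw [h1]
    ext x
    rw [Ideal.under_def, Ideal.mem_comap, Ideal.mem_bot, Ideal.mem_bot]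
    constructor
    · intro h
      exact (FaithfulSMul.algebraMap_injective (𝓞 F) (𝓞 (AlgebraicClosure K))) (by rw [h, map_zero])
    · rintro rfl
      exact map_zero _
  exact ⟨Q, hQ, hb, HeightOneSpectrum.ext hQv.over.symm⟩

private theorem two_mem_resP {F : IntermediateField K (AlgebraicClosure K)} [NumberField F]
    {Q : Ideal (𝓞 (AlgebraicClosure K))} {hQ : Q.IsPrime} {hb : Q ≠ ⊥} :
    (2 : 𝓞 F) ∈ (resP F Q hQ hb).asIdeal ↔ (2 : 𝓞 (AlgebraicClosure K)) ∈ Q := by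
  rw [mem_resP, map_ofNat]

private theorem resP_below {F F₁ : IntermediateField K (AlgebraicClosure K)} [NumberField F]
    [NumberField F₁] [Algebra F F₁]
    (hal : ∀ x : F, ((algebraMap F F₁ x : F₁) : AlgebraicClosure K) = x)
    {Q : Ideal (𝓞 (AlgebraicClosure K))} {hQ : Q.IsPrime} {hb : Q ≠ ⊥} :
    below F (resP F₁ Q hQ hb) = resP F Q hQ hb := by
  apply HeightOneSpectrum.ext
  ext x
  show algebraMap (𝓞 F₁) (𝓞 (AlgebraicClosure K)) (algebraMap (𝓞 F) (𝓞 F₁) x) ∈ Q ↔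
    algebraMap (𝓞 F) (𝓞 (AlgebraicClosure K)) x ∈ Q
  have : algebraMap (𝓞 F₁) (𝓞 (AlgebraicClosure K)) (algebraMap (𝓞 F) (𝓞 F₁) x) =
      algebraMap (𝓞 F) (𝓞 (AlgebraicClosure K)) x := by
    apply RingOfIntegers.ext
    exact hal _
  rw [this]

private theorem resP_conj {U : Subgroup (AbsGal K)} [NumberField (Fx U)]
    {Q Q' : Ideal (𝓞 (AlgebraicClosure K))} {hQ : Q.IsPrime} {hb : Q ≠ ⊥} {hQ' : Q'.IsPrime}
    {hb' : Q' ≠ ⊥} {u : AbsGal K} (hu : u ∈ U) (h : ∀ x, x ∈ Q ↔ u • x ∈ Q') :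
    resP (Fx U) Q hQ hb = resP (Fx U) Q' hQ' hb' := by
  apply HeightOneSpectrum.ext
  ext x
  rw [mem_resP, mem_resP, h]
  have : u • algebraMap (𝓞 (Fx U)) (𝓞 (AlgebraicClosure K)) x =
      algebraMap (𝓞 (Fx U)) (𝓞 (AlgebraicClosure K)) x := by
    apply RingOfIntegers.ext
    exact mem_Fx.1 (algebraMap (𝓞 (Fx U)) (Fx U) x).2 u hu
  rw [this]

private theorem exists_conj {U : Subgroup (AbsGal K)} (hU : (Fx U).fixingSubgroup = U)
    [NumberField (Fx U)] {Q Q' : Ideal (𝓞 (AlgebraicClosure K))} {hQ : Q.IsPrime} {hb : Q ≠ ⊥}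
    {hQ' : Q'.IsPrime} {hb' : Q' ≠ ⊥} (h : resP (Fx U) Q hQ hb = resP (Fx U) Q' hQ' hb') :
    ∃ u ∈ U, ∀ x, x ∈ Q ↔ u • x ∈ Q' := by
  obtain ⟨g, hg⟩ := exists_smul_eq (F := Fx U) (Ω := AlgebraicClosure K) Q Q'
    (congrArg HeightOneSpectrum.asIdeal h)
  refine ⟨g.restrictScalars K, ?_, ?_⟩
  · have h1 : g.restrictScalars K ∈ (Fx U).fixingSubgroup := by
      rw [IntermediateField.mem_fixingSubgroup_iff]
      intro x hx
      exact g.commutes ⟨x, hx⟩
    exact hU.le h1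
  · intro x
    rw [hg]
    exact Ideal.smul_mem_pointwise_smul_iff.symm

end primes

section pair

variable {K : Type u} [Field K] [NumberField K] {U₀ : Subgroup (AbsGal K)} {n : ℕ}

private theorem pq_neg_ne {x : AlgebraicClosure K} (hx : x ≠ 0) : -x ≠ x := by
  intro h
  have h2 : (2 : AlgebraicClosure K) * x = 0 := by linear_combination -h
  exact mul_ne_zero two_ne_zero hx h2

private theorem pq_sign {ζ : AlgebraicClosure K} (hζ : IsPrimitiveRoot ζ (2 ^ (n + 1)))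
    {u : AbsGal K} (hu : u ∈ lev U₀ n) : u ζ = ζ ∨ u ζ = -ζ := by
  have h2 : IsPrimitiveRoot (ζ ^ 2) (2 ^ n) := hζ.pow (by positivity) (by rw [pow_succ'])
  have h3 : u (ζ ^ 2) = ζ ^ 2 := (pq_fix h2).2 hu.2
  rw [map_pow] at h3
  exact sq_eq_sq_iff_eq_or_eq_neg.1 h3

private theorem pq_mem {ζ : AlgebraicClosure K} (hζ : IsPrimitiveRoot ζ (2 ^ (n + 1)))
    {u : AbsGal K} (hu : u ∈ lev U₀ n) : u ∈ lev U₀ (n + 1) ↔ u ζ = ζ := by
  rw [pq_fix hζ, mem_lev]
  exact ⟨fun h => h.2, fun h => ⟨hu.1, h⟩⟩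

private theorem pq_parity {ζ : AlgebraicClosure K} (hζ : IsPrimitiveRoot ζ (2 ^ (n + 1)))
    {u v : AbsGal K} (hu : u ∈ lev U₀ n) (hv : v ∈ lev U₀ n) :
    u * v ∈ lev U₀ (n + 1) ↔ (u ∈ lev U₀ (n + 1) ↔ v ∈ lev U₀ (n + 1)) := by
  have hz : ζ ≠ 0 := hζ.ne_zero (by positivity)
  have hne := pq_neg_ne hz
  rw [pq_mem hζ hu, pq_mem hζ hv, pq_mem hζ ((lev U₀ n).mul_mem hu hv)]
  have h1 : (u * v) ζ = u (v ζ) := rfl
  rw [h1]
  rcases pq_sign hζ hu with h2 | h2 <;> rcases pq_sign hζ hv with h3 | h3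
  · rw [h3, h2]
    exact ⟨fun _ => Iff.rfl, fun _ => rfl⟩
  · rw [h3, map_neg, h2]
    exact ⟨fun h => absurd h hne, fun h => absurd (h.1 rfl) hne⟩
  · rw [h3, h2]
    exact ⟨fun h => absurd h hne, fun h => absurd (h.2 rfl) hne⟩
  · rw [h3, map_neg, h2, neg_neg]
    exact ⟨fun _ => Iff.rfl, fun _ => rfl⟩

private theorem pq_index {ζ : AlgebraicClosure K} (hζ : IsPrimitiveRoot ζ (2 ^ (n + 1)))
    {g : AbsGal K} (hg : g ∈ lev U₀ n) (hg' : g ∉ lev U₀ (n + 1)) :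
    (lev U₀ (n + 1)).index = (lev U₀ n).index * 2 := by
  have h1 : (lev U₀ (n + 1)).relIndex (lev U₀ n) = 2 := by
    show ((lev U₀ (n + 1)).subgroupOf (lev U₀ n)).index = 2
    rw [Subgroup.index_eq_two_iff]
    refine ⟨⟨g, hg⟩, fun b => ?_⟩
    rw [Subgroup.mem_subgroupOf, Subgroup.mem_subgroupOf]
    have h2 := pq_parity hζ b.2 hg
    show Xor ((b : AbsGal K) * g ∈ lev U₀ (n + 1)) ((b : AbsGal K) ∈ lev U₀ (n + 1))
    rw [h2, xor_iff_not_iff]
    tauto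
  rw [← Subgroup.relIndex_mul_index (lev_le n), h1, mul_comm]

private theorem pq_act {ζ : AlgebraicClosure K} (hζ : IsPrimitiveRoot ζ (2 ^ (n + 1)))
    {g u : AbsGal K} (hg : g ∈ lev U₀ n) (hg' : g ∉ lev U₀ (n + 1)) (hu : u ∈ lev U₀ n)
    (hu' : u ∉ lev U₀ (n + 1)) {x : AlgebraicClosure K} (hx : x ∈ Fx (lev U₀ (n + 1))) :
    u x = g x := by
  have h1 : g⁻¹ * u ∈ lev U₀ (n + 1) := by
    rw [pq_parity hζ ((lev U₀ n).inv_mem hg) hu, (lev U₀ (n + 1)).inv_mem_iff]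
    exact ⟨fun h => absurd h hg', fun h => absurd h hu'⟩
  have h2 := congrArg g (mem_Fx.1 hx _ h1)
  rw [← h2]
  show u x = (g * (g⁻¹ * u)) x
  rw [mul_inv_cancel_left]

end pair

section nonsq

variable {K : Type u} [Field K] [NumberField K]

private theorem pq_nonsq {U₁ : Subgroup (AbsGal K)} [NumberField (Fx U₁)]
    {Q : Ideal (𝓞 (AlgebraicClosure K))} {hQ : Q.IsPrime} {hb : Q ≠ ⊥}
    (h2 : (2 : 𝓞 (AlgebraicClosure K)) ∉ Q) {g : AbsGal K} (hg : g ∈ stabD Q) (hgU : g ∈ U₁)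
    {w : AlgebraicClosure K} {m : ℕ} (hm : m ≠ 0) (hwm : w ^ m = 1) (hgw : g w = -w)
    (t : Fx U₁) (ht : (t : AlgebraicClosure K) = w ^ 2) :
    ¬ ∃ x : Fx U₁, (resP (Fx U₁) Q hQ hb).valuation (Fx U₁) (t - x ^ 2) < 1 := by
  rintro ⟨x, hx⟩
  set v := resP (Fx U₁) Q hQ hb with hv
  have hwi : IsIntegral ℤ w := IsIntegral.of_pow (Nat.pos_of_ne_zero hm) (by rw [hwm]; exact isIntegral_one)
  have hti : IsIntegral ℤ t := by
    have h1 : IsIntegral ℤ (algebraMap (Fx U₁) (AlgebraicClosure K) t) := by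
      show IsIntegral ℤ (t : AlgebraicClosure K)
      rw [ht]
      exact hwi.pow 2
    exact (isIntegral_algebraMap_iff (algebraMap (Fx U₁) (AlgebraicClosure K)).injective).1 h1
  let T : 𝓞 (Fx U₁) := ⟨t, hti⟩
  have hT : algebraMap (𝓞 (Fx U₁)) (Fx U₁) T = t := rfl
  have ht1 : v.valuation (Fx U₁) t ≤ 1 := by
    rw [← hT]
    exact HeightOneSpectrum.valuation_le_one v T
  have hx1 : v.valuation (Fx U₁) x ≤ 1 := by
    have h1 : v.valuation (Fx U₁) (x ^ 2) ≤ 1 := by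
      have h3 : x ^ 2 = t - (t - x ^ 2) := by ring
      rw [h3]
      exact (Valuation.map_sub _ _ _).trans (max_le ht1 hx.le)
    rw [map_pow] at h1
    by_contra hcon
    rw [not_le] at hcon
    exact absurd (one_lt_pow₀ hcon two_ne_zero) (not_lt.2 h1)
  obtain ⟨α, hα⟩ := HeightOneSpectrum.exists_valuation_sub_lt_of_integer v hx1 1
  rw [Units.val_one] at hα
  have hα1 : v.valuation (Fx U₁) (algebraMap (𝓞 (Fx U₁)) (Fx U₁) α) ≤ 1 :=
    HeightOneSpectrum.valuation_le_one v α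
  have h3 : T - α ^ 2 ∈ v.asIdeal := by
    rw [← HeightOneSpectrum.valuation_lt_one_iff_mem (K := Fx U₁)]
    show v.valuation (Fx U₁) (algebraMap (𝓞 (Fx U₁)) (Fx U₁) (T - α ^ 2)) < 1
    rw [map_sub (algebraMap (𝓞 (Fx U₁)) (Fx U₁)), map_pow, hT]
    have h4 : t - algebraMap (𝓞 (Fx U₁)) (Fx U₁) α ^ 2 = (t - x ^ 2) -
        (algebraMap (𝓞 (Fx U₁)) (Fx U₁) α - x) * (algebraMap (𝓞 (Fx U₁)) (Fx U₁) α + x) := by ring
    rw [h4]
    refine (Valuation.map_sub _ _ _).trans_lt (max_lt hx ?_)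
    rw [map_mul]
    calc _ ≤ v.valuation (Fx U₁) (algebraMap (𝓞 (Fx U₁)) (Fx U₁) α - x) * 1 :=
          mul_le_mul' le_rfl ((Valuation.map_add _ _ _).trans (max_le hα1 hx1))
      _ < 1 := by rw [mul_one]; exact hα
  rw [hv, mem_resP, map_sub, map_pow] at h3
  let W : 𝓞 (AlgebraicClosure K) := ⟨w, hwi⟩
  have hW2 : algebraMap (𝓞 (Fx U₁)) (𝓞 (AlgebraicClosure K)) T = W ^ 2 := by
    apply RingOfIntegers.ext
    show ((t : Fx U₁) : AlgebraicClosure K) = w ^ 2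
    exact ht
  have hWm : W ^ m = 1 := by
    apply RingOfIntegers.ext
    exact hwm
  have hgW : g • W = -W := by
    apply RingOfIntegers.ext
    show g w = -w
    exact hgw
  set A := algebraMap (𝓞 (Fx U₁)) (𝓞 (AlgebraicClosure K)) α with hA
  have hgA : g • A = A := by
    apply RingOfIntegers.ext
    exact mem_Fx.1 (algebraMap (𝓞 (Fx U₁)) (Fx U₁) α).2 g hgU
  rw [hW2] at h3
  have h5 : (W - A) * (W + A) ∈ Q := by
    have : (W - A) * (W + A) = W ^ 2 - A ^ 2 := by ring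
    rw [this]
    exact h3
  have h2W : 2 * W ∈ Q := by
    rcases hQ.mem_or_mem h5 with h6 | h6
    · have h7 := (mem_stabD.1 hg _).1 h6
      rw [smul_sub, hgW, hgA] at h7
      have : 2 * W = (W - A) - (-W - A) := by ring
      rw [this]
      exact Q.sub_mem h6 h7
    · have h7 := (mem_stabD.1 hg _).1 h6
      rw [smul_add, hgW, hgA] at h7
      have : 2 * W = (W + A) - (-W + A) := by ring
      rw [this]
      exact Q.sub_mem h6 h7
  have hWQ := (hQ.mem_or_mem h2W).resolve_left h2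
  have h8 : (1 : 𝓞 (AlgebraicClosure K)) ∈ Q := by
    rw [← hWm]
    exact Ideal.pow_mem_of_mem Q hWQ m (Nat.pos_of_ne_zero hm)
  exact hQ.ne_top ((Ideal.eq_top_iff_one Q).2 h8)

end nonsq

section ne

variable {K : Type u} [Field K] [NumberField K]

private theorem pq_ne {q : ℕ} {s : K} (hK : IsBase K q s) {U₀ : Subgroup (AbsGal K)}
    (hU₀ : Opn (goodSys K) U₀) {n : ℕ} [NumberField (Fx (lev U₀ n))]
    {p r : HeightOneSpectrum (𝓞 (Fx (lev U₀ n)))} (hp : (2 : 𝓞 (Fx (lev U₀ n))) ∉ p.asIdeal)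
    (hr : (2 : 𝓞 (Fx (lev U₀ n))) ∉ r.asIdeal) (hpr : p ≠ r)
    (hpg : ∀ (Q : Ideal (𝓞 (AlgebraicClosure K))) (hQ : Q.IsPrime) (hb : Q ≠ ⊥),
      resP (Fx (lev U₀ n)) Q hQ hb = p → ∀ k, n ≤ k → ∃ g ∈ stabD Q ⊓ U₀,
        (2 : ℤ_[2]) ^ k ∣ cyc g - 1 ∧ ¬ (2 : ℤ_[2]) ^ (k + 1) ∣ cyc g - 1)
    (hrg : ∀ (Q : Ideal (𝓞 (AlgebraicClosure K))) (hQ : Q.IsPrime) (hb : Q ≠ ⊥),
      resP (Fx (lev U₀ n)) Q hQ hb = r → ∀ k, n ≤ k → ∃ g ∈ stabD Q ⊓ U₀,
        (2 : ℤ_[2]) ^ k ∣ cyc g - 1 ∧ ¬ (2 : ℤ_[2]) ^ (k + 1) ∣ cyc g - 1)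
    {y z : Fx (lev U₀ n)} (hy : OddAt p y) (hz : OddAt r z) :
    Sy (Fx (core K)).toSubfield (y : AlgebraicClosure K) (z : AlgebraicClosure K) := by
  classical
  have hU := lev_opn hU₀ n
  have hU₁ := lev_opn hU₀ (n + 1)
  obtain ⟨hfin, hrank, hfix, hNF', hT⟩ := pq_fixed hU
  obtain ⟨hfin1, hrank1, hfix1, hNF1, hT1⟩ := pq_fixed hU₁
  have hle : Fx (lev U₀ n) ≤ Fx (lev U₀ (n + 1)) := Fx_anti (lev_le n)
  let _ : Algebra (Fx (lev U₀ n)) (Fx (lev U₀ (n + 1))) :=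
    (IntermediateField.inclusion hle).toRingHom.toAlgebra
  have hal : ∀ x : Fx (lev U₀ n), ((algebraMap (Fx (lev U₀ n)) (Fx (lev U₀ (n + 1))) x :
    Fx (lev U₀ (n + 1))) : AlgebraicClosure K) = x := fun x => rfl
  have htow : IsScalarTower K (Fx (lev U₀ n)) (Fx (lev U₀ (n + 1))) :=
    IsScalarTower.of_algebraMap_eq (fun x => rfl)
  -- primes of the ring of all algebraic integers
  obtain ⟨Qp, hQp, hbp, hresp⟩ := exists_resP p
  obtain ⟨Qr, hQr, hbr, hresr⟩ := exists_resP r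
  have h2p : (2 : 𝓞 (AlgebraicClosure K)) ∉ Qp := by
    rw [← hresp, two_mem_resP] at hp
    exact hp
  obtain ⟨g, ⟨hgp, hgU₀⟩, hgn, hgn'⟩ := hpg Qp hQp hbp hresp n le_rfl
  obtain ⟨gr, ⟨hgrr, hgrU₀⟩, hgrn, hgrn'⟩ := hrg Qr hQr hbr hresr n le_rfl
  obtain ⟨g', ⟨hgp', hgU₀'⟩, hgn1, hgn1'⟩ := hpg Qp hQp hbp hresp (n + 1) (Nat.le_succ n)
  have hg : g ∈ lev U₀ n := ⟨hgU₀, hgn⟩
  have hg1 : g ∉ lev U₀ (n + 1) := fun h => hgn' h.2
  have hgr : gr ∈ lev U₀ n := ⟨hgrU₀, hgrn⟩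
  have hgr1 : gr ∉ lev U₀ (n + 1) := fun h => hgrn' h.2
  have hg'1 : g' ∈ lev U₀ (n + 1) := ⟨hgU₀', hgn1⟩
  -- roots of unity
  obtain ⟨w, hw⟩ : ∃ w : AlgebraicClosure K, IsPrimitiveRoot w (2 ^ (n + 1 + 1)) :=
    HasEnoughRootsOfUnity.exists_primitiveRoot _ _
  have hζ : IsPrimitiveRoot (w ^ 2) (2 ^ (n + 1)) := hw.pow (by positivity) (by rw [pow_succ' 2 (n + 1)])
  have hw0 : w ≠ 0 := hw.ne_zero (by positivity)
  have hgw : g' w = -w := by
    rcases pq_sign hw hg'1 with h | h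
    · exact absurd ((pq_fix hw).1 h) hgn1'
    · exact h
  set ζ := w ^ 2 with hζw
  have hζ0 : ζ ≠ 0 := pow_ne_zero 2 hw0
  have hζF : ζ ∈ Fx (lev U₀ (n + 1)) := mem_Fx.2 fun u hu => (pq_fix hζ).2 hu.2
  have hζ2F : ζ ^ 2 ∈ Fx (lev U₀ n) := by
    rw [mem_Fx]
    intro u hu
    rw [map_pow]
    rcases pq_sign hζ hu with h | h <;> rw [h]
    rw [neg_sq]
  let t : Fx (lev U₀ (n + 1)) := ⟨ζ, hζF⟩
  let d : Fx (lev U₀ n) := ⟨ζ ^ 2, hζ2F⟩
  have ht : t ^ 2 = algebraMap (Fx (lev U₀ n)) (Fx (lev U₀ (n + 1))) d := Subtype.ext rfl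
  have hd0 : d ≠ 0 := by
    intro h
    have := congrArg (fun x : Fx (lev U₀ n) => (x : AlgebraicClosure K)) h
    exact pow_ne_zero 2 hζ0 this
  have hSUt : SU t := by
    apply SU.of_root (n := 2 ^ (n + 1)) (by positivity)
    exact Subtype.ext hζ.pow_eq_one
  have hSUd : SU d := by
    apply SU.of_root (n := 2 ^ (n + 1)) (by positivity)
    apply Subtype.ext
    show (ζ ^ 2) ^ 2 ^ (n + 1) = 1
    rw [← pow_mul, mul_comm, pow_mul, hζ.pow_eq_one, one_pow]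
  -- the action of `g`
  have hmem : ∀ h ∈ lev U₀ n, ∀ x ∈ Fx (lev U₀ (n + 1)), h x ∈ Fx (lev U₀ (n + 1)) := by
    intro h hh x hx
    rw [mem_Fx]
    intro u hu
    have hu' := lev_le n hu
    have h1 : h⁻¹ * u * h ∈ lev U₀ (n + 1) := by
      rw [pq_parity hζ ((lev U₀ n).mul_mem ((lev U₀ n).inv_mem hh) hu') hh,
        pq_parity hζ ((lev U₀ n).inv_mem hh) hu', (lev U₀ (n + 1)).inv_mem_iff]
      exact ⟨fun h3 => h3.2 hu, fun h3 => ⟨fun _ => hu, fun _ => h3⟩⟩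
    have h2 := congrArg h (mem_Fx.1 hx _ h1)
    rw [← h2]
    show u ((h * (h⁻¹ * u * h)) x) = (h * (h⁻¹ * u * h)) x
    have e1 : h * (h⁻¹ * u * h) = u * h := by group
    rw [e1]
    show u (u (h x)) = u (h x)
    have h3 : h x = u (h x) := by
      conv_lhs => rw [← h2]
      show (h * (h⁻¹ * u * h)) x = u (h x)
      rw [e1]
      rfl
    rw [← h3]
    exact h3.symm
  let σ : Fx (lev U₀ (n + 1)) ≃ₐ[Fx (lev U₀ n)] Fx (lev U₀ (n + 1)) :=
    { toFun := fun x => ⟨g x, hmem g hg x x.2⟩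
      invFun := fun x => ⟨g⁻¹ x, hmem g⁻¹ ((lev U₀ n).inv_mem hg) x x.2⟩
      left_inv := fun x => Subtype.ext (by
        show g⁻¹ (g x) = x
        rw [← AlgEquiv.mul_apply, inv_mul_cancel]
        rfl)
      right_inv := fun x => Subtype.ext (by
        show g (g⁻¹ x) = x
        rw [← AlgEquiv.mul_apply, mul_inv_cancel]
        rfl)
      map_mul' := fun x y => Subtype.ext (map_mul g _ _)
      map_add' := fun x y => Subtype.ext (map_add g _ _)
      commutes' := fun x => Subtype.ext (mem_Fx.1 x.2 g hg) }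
  have hgζ : g ζ = -ζ := by
    rcases pq_sign hζ hg with h | h
    · exact absurd ((pq_mem hζ hg).2 h) hg1
    · exact h
  have hσ : σ t = -t := Subtype.ext hgζ
  have hE : ∀ x : Fx (lev U₀ (n + 1)), ∃ a b : Fx (lev U₀ n),
      x = algebraMap (Fx (lev U₀ n)) (Fx (lev U₀ (n + 1))) a +
        algebraMap (Fx (lev U₀ n)) (Fx (lev U₀ (n + 1))) b * t := by
    intro x
    have hcase : ∀ u ∈ lev U₀ n, (u x = x ∧ u (g x) = g x ∧ u ζ = ζ) ∨
        (u x = g x ∧ u (g x) = x ∧ u ζ = -ζ) := by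
      intro u hu
      have e1 : u (g x) = (u * g) x := rfl
      by_cases hu1 : u ∈ lev U₀ (n + 1)
      · left
        refine ⟨mem_Fx.1 x.2 u hu1, mem_Fx.1 (hmem g hg x x.2) u hu1, (pq_mem hζ hu).1 hu1⟩
      · right
        refine ⟨pq_act hζ hg hg1 hu hu1 x.2, ?_, ?_⟩
        · rw [e1]
          apply mem_Fx.1 x.2
          rw [pq_parity hζ hu hg]
          exact ⟨fun h => absurd h hu1, fun h => absurd h hg1⟩
        · rcases pq_sign hζ hu with h | h
          · exact absurd ((pq_mem hζ hu).2 h) hu1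
          · exact h
    have h20 : (2 : AlgebraicClosure K) ≠ 0 := two_ne_zero
    refine ⟨⟨((x : AlgebraicClosure K) + g x) / 2, ?_⟩, ⟨((x : AlgebraicClosure K) - g x) / (2 * ζ), ?_⟩, ?_⟩
    · rw [mem_Fx]
      intro u hu
      rw [map_div₀, map_add, map_ofNat]
      rcases hcase u hu with ⟨h1, h2, -⟩ | ⟨h1, h2, -⟩
      · rw [h1, h2]
      · rw [h1, h2, add_comm]
    · rw [mem_Fx]
      intro u hu
      rw [map_div₀, map_sub, map_mul, map_ofNat]
      rcases hcase u hu with ⟨h1, h2, h3⟩ | ⟨h1, h2, h3⟩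
      · rw [h1, h2, h3]
      · rw [h1, h2, h3]
        field_simp
        ring
    · apply Subtype.ext
      show (x : AlgebraicClosure K) = (x + g x) / 2 + (x - g x) / (2 * ζ) * ζ
      field_simp
      ring
  have hunr₁ : ∀ Q : HeightOneSpectrum (𝓞 (Fx (lev U₀ (n + 1)))),
      (2 : 𝓞 (Fx (lev U₀ (n + 1)))) ∉ Q.asIdeal → ∀ x : Fx (lev U₀ n),
        Q.valuation (Fx (lev U₀ (n + 1))) (algebraMap (Fx (lev U₀ n)) (Fx (lev U₀ (n + 1))) x) =
          (below (Fx (lev U₀ n)) Q).valuation (Fx (lev U₀ n)) x := by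
    intro Q hQ2 x
    have h2b : (2 : 𝓞 (Fx (lev U₀ n))) ∉ (below (Fx (lev U₀ n)) Q).asIdeal := fun h =>
      hQ2 ((two_mem_below Q).1 h)
    exact quad_unram ht hd0 hE σ hσ h2b (hSUd.evenOff2 _ h2b) rfl x
  have hdeg : Module.finrank (Fx (lev U₀ n)) (Fx (lev U₀ (n + 1))) = 2 := by
    have h3 := Module.finrank_mul_finrank K (Fx (lev U₀ n)) (Fx (lev U₀ (n + 1)))
    rw [hrank, hrank1, pq_index hζ hg hg1] at h3
    have h4 : 0 < (lev U₀ n).index := by
      rw [← hrank]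
      exact Module.finrank_pos
    exact Nat.eq_of_mul_eq_mul_left h4 h3
  have huniq : ∀ (Q : Ideal (𝓞 (AlgebraicClosure K))) (hQ : Q.IsPrime) (hb : Q ≠ ⊥) (h : AbsGal K),
      h ∈ stabD Q → h ∈ lev U₀ n → h ∉ lev U₀ (n + 1) →
      ∀ P : HeightOneSpectrum (𝓞 (Fx (lev U₀ (n + 1)))),
        below (Fx (lev U₀ n)) P = resP (Fx (lev U₀ n)) Q hQ hb →
        P = resP (Fx (lev U₀ (n + 1))) Q hQ hb := by
    intro Q hQ hb h hhQ hh hh1 P hP
    obtain ⟨Q', hQ', hb', rfl⟩ := exists_resP P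
    rw [resP_below hal] at hP
    obtain ⟨u, hu, hux⟩ := exists_conj hfix hP
    by_cases hu1 : u ∈ lev U₀ (n + 1)
    · exact resP_conj hu1 hux
    · refine resP_conj (u := h * u) ?_ fun x => ?_
      · rw [pq_parity hζ hh hu]
        exact ⟨fun h3 => absurd h3 hh1, fun h3 => absurd h3 hu1⟩
      · rw [hux, mul_smul]
        exact mem_stabD.1 hhQ _
  have hun : ¬ ∃ x : Fx (lev U₀ (n + 1)),
      (resP (Fx (lev U₀ (n + 1))) Qp hQp hbp).valuation (Fx (lev U₀ (n + 1))) (t - x ^ 2) < 1 :=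
    pq_nonsq h2p hgp' hg'1 (m := 2 ^ (n + 1 + 1)) (by positivity) hw.pow_eq_one hgw t rfl
  obtain ⟨a, c, x, v, hSa, hSc, hx⟩ := symb_core (F := Fx (lev U₀ n)) (F₁ := Fx (lev U₀ (n + 1)))
    hK hT hT1 hdeg hunr₁ hp hr hpr (p₁ := resP (Fx (lev U₀ (n + 1))) Qp hQp hbp)
    (r₁ := resP (Fx (lev U₀ (n + 1))) Qr hQr hbr)
    (by rw [resP_below hal, hresp])
    (fun P hP => huniq Qp hQp hbp g hgp hg hg1 P (by rw [hP, hresp]))
    (by rw [resP_below hal, hresr])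
    (fun P hP => huniq Qr hQr hbr gr hgrr hgr hgr1 P (by rw [hP, hresr]))
    hSUt hun hy hz
  -- square roots of the units
  have hcore : core K ≤ lev U₀ n := core_le_opn hU
  have hcore1 : core K ≤ lev U₀ (n + 1) := core_le_opn hU₁
  have hxe : (x : AlgebraicClosure K) ^ 2 - (a : AlgebraicClosure K) * y * v ^ 2 = c * z :=
    congrArg (fun x : Fx (lev U₀ (n + 1)) => (x : AlgebraicClosure K)) hx
  obtain ⟨α, hα, hα0, hαa⟩ := pq_sqrt (Fx_anti hcore a.2)
    (hSa.map (algebraMap (Fx (lev U₀ n)) (AlgebraicClosure K)))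
  obtain ⟨γ, hγ, hγ0, hγc⟩ := pq_sqrt (Fx_anti hcore1 c.2)
    (hSc.map (algebraMap (Fx (lev U₀ (n + 1))) (AlgebraicClosure K)))
  have hαa' : α ^ 2 = (a : AlgebraicClosure K) := hαa
  have hγc' : γ ^ 2 = (c : AlgebraicClosure K) := hγc
  have hxM : (x : AlgebraicClosure K) ∈ Fx (core K) := Fx_anti hcore1 x.2
  have hvM : (v : AlgebraicClosure K) ∈ Fx (core K) := Fx_anti hcore1 v.2
  refine ⟨x / γ, (Fx (core K)).div_mem hxM hγ, α * v / γ,
    (Fx (core K)).div_mem ((Fx (core K)).mul_mem hα hvM) hγ, ?_⟩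
  rw [← hαa', ← hγc'] at hxe
  field_simp
  linear_combination hxe

end ne

section ind

private theorem pq_sq_mul {x y : WithZero (Multiplicative ℤ)} (hx : ¬ IsSquare x) (hy : ¬ IsSquare y) :
    IsSquare (x * y) := by
  have hx0 : x ≠ 0 := by
    rintro rfl
    exact hx ⟨0, by rw [mul_zero]⟩
  have hy0 : y ≠ 0 := by
    rintro rfl
    exact hy ⟨0, by rw [mul_zero]⟩
  obtain ⟨a, rfl⟩ : ∃ m : ℤ, x = WithZero.exp m := ⟨_, (WithZero.exp_log hx0).symm⟩
  obtain ⟨b, rfl⟩ : ∃ m : ℤ, y = WithZero.exp m := ⟨_, (WithZero.exp_log hy0).symm⟩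
  rw [isSquare_exp_iff, Int.not_even_iff_odd] at hx hy
  rw [← WithZero.exp_add, isSquare_exp_iff]
  exact hx.add_odd hy

private theorem pq_ind {K F : Type u} [Field K] [NumberField K] [Field F] [NumberField F]
    [Algebra K F] {q : ℕ} {s : K} (hK : IsBase K q s) (hF : InTwoTower K F) (P : F → Prop)
    (hmul : ∀ x y, P x → P y → P (x * y)) (hsq : ∀ x, P (x ^ 2)) (hsu : ∀ x, SU x → P x)
    (B : HeightOneSpectrum (𝓞 F) → Prop)
    (hodd : ∀ r, (2 : 𝓞 F) ∉ r.asIdeal → B r → ∀ z, OddAt r z → P z) :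
    ∀ (k : ℕ) (a : F), a ≠ 0 →
      (∀ r : HeightOneSpectrum (𝓞 F), (2 : 𝓞 F) ∉ r.asIdeal → ¬ IsSquare (r.valuation F a) → B r) →
      {r : HeightOneSpectrum (𝓞 F) | (2 : 𝓞 F) ∉ r.asIdeal ∧ ¬ IsSquare (r.valuation F a)}.ncard ≤ k →
      P a := by
  have hfinite : ∀ a : F, a ≠ 0 →
      {r : HeightOneSpectrum (𝓞 F) | (2 : 𝓞 F) ∉ r.asIdeal ∧ ¬ IsSquare (r.valuation F a)}.Finite := by
    intro a ha
    refine (val_ne_one_finite ha).subset ?_
    rintro r ⟨-, hr⟩ h1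
    exact hr ⟨1, by rw [h1, one_mul]⟩
  have heven : ∀ a : F, a ≠ 0 → EvenOff2 a → P a := by
    intro a ha he
    obtain ⟨c, hc, -, -, hspan⟩ := PA.sel_count hK hF rfl
    obtain ⟨T, y, hy⟩ := hspan a ha he
    have hS : SU (∏ i ∈ T, c i) := SU.prod T c fun i _ => hc i
    have h1 : a = y ^ 2 * (∏ i ∈ T, c i)⁻¹ := by
      rw [eq_mul_inv_iff_mul_eq₀ hS.1, hy, pow_two]
    rw [h1]
    exact hmul _ _ (hsq y) (hsu _ hS.inv)
  intro k
  induction k with
  | zero =>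
    intro a ha _ hk
    apply heven a ha
    intro r hr
    by_contra hcon
    have h1 := (Set.ncard_eq_zero (hfinite a ha)).1 (Nat.le_zero.1 hk)
    have h2 : r ∈ {r : HeightOneSpectrum (𝓞 F) | (2 : 𝓞 F) ∉ r.asIdeal ∧
      ¬ IsSquare (r.valuation F a)} := ⟨hr, hcon⟩
    rw [h1] at h2
    exact h2
  | succ k ih =>
    intro a ha hB hk
    by_cases he : EvenOff2 a
    · exact heven a ha he
    unfold EvenOff2 at he
    push Not at he
    obtain ⟨r, hr2, hr⟩ := he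
    obtain ⟨z, hz⟩ := exists_oddAt hK hF hr2
    have hz0 : z ≠ 0 := hz.1
    have hPz : P z := hodd r hr2 (hB r hr2 hr) z hz
    have hval : ∀ w : HeightOneSpectrum (𝓞 F), (2 : 𝓞 F) ∉ w.asIdeal →
        ¬ IsSquare (w.valuation F (a * z)) → w ≠ r ∧ ¬ IsSquare (w.valuation F a) := by
      intro w hw h
      by_cases hwr : w = r
      · exfalso
        apply h
        rw [hwr, map_mul]
        exact pq_sq_mul hr hz.2.1
      · refine ⟨hwr, ?_⟩
        rwa [map_mul, hz.2.2 w hwr hw, mul_one] at h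
    have hsub : {w : HeightOneSpectrum (𝓞 F) | (2 : 𝓞 F) ∉ w.asIdeal ∧
        ¬ IsSquare (w.valuation F (a * z))} ⊂ {r : HeightOneSpectrum (𝓞 F) | (2 : 𝓞 F) ∉ r.asIdeal ∧
        ¬ IsSquare (r.valuation F a)} := by
      refine ⟨fun w hw => ⟨hw.1, (hval w hw.1 hw.2).2⟩, fun h => ?_⟩
      exact (hval r hr2 (h ⟨hr2, hr⟩).2).1 rfl
    have hlt := Set.ncard_lt_ncard hsub (hfinite a ha)
    have hPaz : P (a * z) := ih (a * z) (mul_ne_zero ha hz0)
      (fun w hw h => hB w hw (hval w hw h).2) (by omega)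
    have h1 : a = (a * z) * (z * (z⁻¹) ^ 2) := by field_simp
    rw [h1]
    exact hmul _ _ hPaz (hmul _ _ hPz (hsq _))

end ind

section final

variable {K : Type u} [Field K] [NumberField K]

private theorem pq_su {U : Subgroup (AbsGal K)} (hU : Opn (goodSys K) U) (a : AlgebraicClosure K)
    {x : Fx U} (hx : SU x) : Sy (Fx (core K)).toSubfield a (x : AlgebraicClosure K) := by
  obtain ⟨α, hα, -, hαa⟩ := pq_sqrt (Fx_anti (core_le_opn hU) x.2)
    (hx.map (algebraMap (Fx U) (AlgebraicClosure K)))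
  have h : α ^ 2 = (x : AlgebraicClosure K) := hαa
  rw [← h]
  exact symb_sq a hα

private theorem pq_eq {q : ℕ} {s : K} (hK : IsBase K q s) {U : Subgroup (AbsGal K)}
    (hU : Opn (goodSys K) U) [NumberField (Fx U)] (hT : InTwoTower K (Fx U))
    {p : HeightOneSpectrum (𝓞 (Fx U))} {y z : Fx U} (hy : OddAt p y) (hz : OddAt p z) :
    Sy (Fx (core K)).toSubfield (y : AlgebraicClosure K) (z : AlgebraicClosure K) := by
  have hcore := core_le_opn hU
  have hyM : (y : AlgebraicClosure K) ∈ (Fx (core K)).toSubfield := Fx_anti hcore y.2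
  have hy0 : y ≠ 0 := hy.1
  have hy0' : (y : AlgebraicClosure K) ≠ 0 := fun h => hy0 (Subtype.ext h)
  have h1 : Sy (Fx (core K)).toSubfield (y : AlgebraicClosure K) ((y * z : Fx U) : AlgebraicClosure K) := by
    refine pq_ind hK hT (fun x => Sy (Fx (core K)).toSubfield (y : AlgebraicClosure K)
      (x : AlgebraicClosure K)) (fun x x' h h' => symb_mul hyM h h')
      (fun x => symb_sq _ (Fx_anti hcore x.2)) (fun x hx => pq_su hU _ hx) (fun _ => False)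
      (fun _ _ h => h.elim) _ (y * z) (mul_ne_zero hy0 hz.1) ?_ le_rfl
    intro r hr h
    apply h
    rw [map_mul]
    by_cases hrp : r = p
    · rw [hrp]
      exact pq_sq_mul hy.2.1 hz.2.1
    · rw [hy.2.2 r hrp hr, hz.2.2 r hrp hr]
      exact ⟨1, rfl⟩
  have h2 : Sy (Fx (core K)).toSubfield (y : AlgebraicClosure K) (-y : AlgebraicClosure K) :=
    ⟨0, Subfield.zero_mem _, 1, Subfield.one_mem _, by ring⟩
  have h3 : Sy (Fx (core K)).toSubfield (y : AlgebraicClosure K) (-1 : AlgebraicClosure K) := by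
    have hs : SU (-1 : Fx U) := SU.of_root (n := 2) two_ne_zero (by ring)
    have := pq_su hU (y : AlgebraicClosure K) hs
    have e : ((-1 : Fx U) : AlgebraicClosure K) = -1 := rfl
    rwa [e] at this
  have h4 : Sy (Fx (core K)).toSubfield (y : AlgebraicClosure K) ((y : AlgebraicClosure K)⁻¹ ^ 2) :=
    symb_sq _ (Subfield.inv_mem _ hyM)
  have h5 := symb_mul hyM (symb_mul hyM (symb_mul hyM h1 h2) h3) h4
  have e : ((y * z : Fx U) : AlgebraicClosure K) * -y * -1 * (y : AlgebraicClosure K)⁻¹ ^ 2 = z := by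
    show (y : AlgebraicClosure K) * z * -y * -1 * (y : AlgebraicClosure K)⁻¹ ^ 2 = z
    field_simp
  rwa [e] at h5

end final

theorem pq_core {K : Type u} [Field K] [NumberField K] {q : ℕ} {s : K} (hK : IsBase K q s) :
    PQ (Fx (core K)).toSubfield := by
  classical
  intro a ha b hb ha0 hb0
  show Sy (Fx (core K)).toSubfield a b
  -- an open subgroup fixing both
  obtain ⟨W, hW, hWa⟩ := exists_opn_fix ha
  obtain ⟨W', hW', hWb⟩ := exists_opn_fix hb
  set U₀ := W ⊓ W' with hU₀'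
  have hU₀ : Opn (goodSys K) U₀ := ⟨U₀, hW.inf hW', le_rfl⟩
  obtain ⟨hfin0, hrank0, hfix0, hNF0, hT0⟩ := pq_fixed hU₀
  have haF : a ∈ Fx U₀ := mem_Fx.2 fun u hu => hWa u hu.1
  have hbF : b ∈ Fx U₀ := mem_Fx.2 fun u hu => hWb u hu.2
  let a₀ : Fx U₀ := ⟨a, haF⟩
  let b₀ : Fx U₀ := ⟨b, hbF⟩
  have ha₀ : a₀ ≠ 0 := fun h => ha0 (congrArg (fun x : Fx U₀ => (x : AlgebraicClosure K)) h)
  have hb₀ : b₀ ≠ 0 := fun h => hb0 (congrArg (fun x : Fx U₀ => (x : AlgebraicClosure K)) h)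
  -- the bad primes
  let S : Set (HeightOneSpectrum (𝓞 (Fx U₀))) :=
    {v | v.valuation (Fx U₀) a₀ ≠ 1} ∪ {v | v.valuation (Fx U₀) b₀ ≠ 1}
  have hS : S.Finite := (val_ne_one_finite ha₀).union (val_ne_one_finite hb₀)
  have hm : ∀ v : HeightOneSpectrum (𝓞 (Fx U₀)), ∃ m : ℕ, (2 : 𝓞 (Fx U₀)) ∉ v.asIdeal →
      ∀ (Q : Ideal (𝓞 (AlgebraicClosure K))) (hQ : Q.IsPrime) (hb : Q ≠ ⊥), resP (Fx U₀) Q hQ hb = v →
        ∀ k, m ≤ k → ∃ g ∈ stabD Q ⊓ U₀, (2 : ℤ_[2]) ^ k ∣ cyc g - 1 ∧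
          ¬ (2 : ℤ_[2]) ^ (k + 1) ∣ cyc g - 1 := by
    intro v
    by_cases hv : (2 : 𝓞 (Fx U₀)) ∈ v.asIdeal
    · exact ⟨0, fun h => absurd hv h⟩
    obtain ⟨Q₁, hQ₁, hb₁, hres₁⟩ := exists_resP v
    have h21 : (2 : 𝓞 (AlgebraicClosure K)) ∉ Q₁ := by
      rw [← hres₁, two_mem_resP] at hv
      exact hv
    obtain ⟨m, hm⟩ := exists_chi hU₀.isOpen hQ₁ hb₁ h21
    refine ⟨m, fun _ Q hQ hb hres k hk => ?_⟩
    obtain ⟨g, ⟨hg, hgU⟩, h1, h2⟩ := hm k hk
    obtain ⟨u, hu, hux⟩ := exists_conj (hQ := hQ₁) (hb := hb₁) (hQ' := hQ) (hb' := hb) hfix0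
      (by rw [hres, hres₁])
    have hcyc : cyc (u * g * u⁻¹) = cyc g := by
      have h3 : cyc u * cyc u⁻¹ = 1 := by
        rw [← PA.isChar_cyc.mul, mul_inv_cancel, PA.isChar_cyc.one]
      rw [PA.isChar_cyc.mul, PA.isChar_cyc.mul]
      linear_combination cyc g * h3
    refine ⟨u * g * u⁻¹, ⟨?_, U₀.mul_mem (U₀.mul_mem hu hgU) (U₀.inv_mem hu)⟩, ?_⟩
    · refine mem_stabD.2 fun x => ?_
      have h3 := hux (u⁻¹ • x)
      rw [smul_inv_smul] at h3
      rw [← h3, mem_stabD.1 hg, hux, ← mul_smul, ← mul_smul]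
    · rw [hcyc]
      exact ⟨h1, h2⟩
  choose m hm using hm
  set n := hS.toFinset.sup m with hn
  have hU := lev_opn hU₀ n
  obtain ⟨hfin, hrank, hfix, hNF, hT⟩ := pq_fixed hU
  have hle0 : Fx U₀ ≤ Fx (lev U₀ n) := Fx_anti fun g hg => hg.1
  let _ : Algebra (Fx U₀) (Fx (lev U₀ n)) := (IntermediateField.inclusion hle0).toRingHom.toAlgebra
  have hal : ∀ x : Fx U₀, ((algebraMap (Fx U₀) (Fx (lev U₀ n)) x : Fx (lev U₀ n)) :
    AlgebraicClosure K) = x := fun x => rfl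
  let a' : Fx (lev U₀ n) := algebraMap (Fx U₀) (Fx (lev U₀ n)) a₀
  let b' : Fx (lev U₀ n) := algebraMap (Fx U₀) (Fx (lev U₀ n)) b₀
  have ha' : a' ≠ 0 := (map_ne_zero _).2 ha₀
  have hb' : b' ≠ 0 := (map_ne_zero _).2 hb₀
  let B : HeightOneSpectrum (𝓞 (Fx (lev U₀ n))) → Prop := fun p => below (Fx U₀) p ∈ S
  have hBg : ∀ p : HeightOneSpectrum (𝓞 (Fx (lev U₀ n))), (2 : 𝓞 (Fx (lev U₀ n))) ∉ p.asIdeal → B p →
      ∀ (Q : Ideal (𝓞 (AlgebraicClosure K))) (hQ : Q.IsPrime) (hb : Q ≠ ⊥),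
      resP (Fx (lev U₀ n)) Q hQ hb = p → ∀ k, n ≤ k → ∃ g ∈ stabD Q ⊓ U₀,
        (2 : ℤ_[2]) ^ k ∣ cyc g - 1 ∧ ¬ (2 : ℤ_[2]) ^ (k + 1) ∣ cyc g - 1 := by
    intro p hp hBp Q hQ hbQ hres k hk
    have h1 : resP (Fx U₀) Q hQ hbQ = below (Fx U₀) p := by
      rw [← hres, resP_below hal]
    refine hm (below (Fx U₀) p) (fun h => hp ((two_mem_below p).1 h)) Q hQ hbQ h1 k (le_trans ?_ hk)
    exact Finset.le_sup (f := m) (by rw [Set.Finite.mem_toFinset]; exact hBp)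
  have hpair : ∀ p r : HeightOneSpectrum (𝓞 (Fx (lev U₀ n))), (2 : 𝓞 (Fx (lev U₀ n))) ∉ p.asIdeal →
      (2 : 𝓞 (Fx (lev U₀ n))) ∉ r.asIdeal → B p → B r → ∀ y z : Fx (lev U₀ n), OddAt p y →
      OddAt r z → Sy (Fx (core K)).toSubfield (y : AlgebraicClosure K) (z : AlgebraicClosure K) := by
    intro p r hp hr hBp hBr y z hy hz
    by_cases hpr : p = r
    · subst hpr
      exact pq_eq hK hU hT hy hz
    · exact pq_ne hK hU₀ hp hr hpr (hBg p hp hBp) (hBg r hr hBr) hy hz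
  have hcore := core_le_opn hU
  have hM : ∀ x : Fx (lev U₀ n), (x : AlgebraicClosure K) ∈ (Fx (core K)).toSubfield := fun x =>
    Fx_anti hcore x.2
  have hBa : ∀ r : HeightOneSpectrum (𝓞 (Fx (lev U₀ n))), (2 : 𝓞 (Fx (lev U₀ n))) ∉ r.asIdeal →
      ¬ IsSquare (r.valuation (Fx (lev U₀ n)) a') → B r := by
    intro r _ h
    left
    intro h1
    apply h
    obtain ⟨e, -, he⟩ := exists_valuation_below (K := Fx U₀) r
    have h2 := he a₀
    rw [h1, one_pow] at h2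
    rw [← h2]
    exact ⟨1, by rw [one_mul]⟩
  have hBb : ∀ r : HeightOneSpectrum (𝓞 (Fx (lev U₀ n))), (2 : 𝓞 (Fx (lev U₀ n))) ∉ r.asIdeal →
      ¬ IsSquare (r.valuation (Fx (lev U₀ n)) b') → B r := by
    intro r _ h
    right
    intro h1
    apply h
    obtain ⟨e, -, he⟩ := exists_valuation_below (K := Fx U₀) r
    have h2 := he b₀
    rw [h1, one_pow] at h2
    rw [← h2]
    exact ⟨1, by rw [one_mul]⟩
  -- `S y b` for all `y` of odd valuation at a bad prime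
  have hyb : ∀ p : HeightOneSpectrum (𝓞 (Fx (lev U₀ n))), (2 : 𝓞 (Fx (lev U₀ n))) ∉ p.asIdeal →
      B p → ∀ y : Fx (lev U₀ n), OddAt p y →
      Sy (Fx (core K)).toSubfield (b : AlgebraicClosure K) (y : AlgebraicClosure K) := by
    intro p hp hBp y hy
    have hy0 : (y : AlgebraicClosure K) ≠ 0 := fun h => hy.1 (Subtype.ext h)
    apply symb_symm two_ne_zero (hM y) hb hb0
    exact pq_ind hK hT (fun x => Sy (Fx (core K)).toSubfield (y : AlgebraicClosure K)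
      (x : AlgebraicClosure K)) (fun x x' h h' => symb_mul (hM y) h h')
      (fun x => symb_sq _ (hM x)) (fun x hx => pq_su hU _ hx) B
      (fun r hr hBr z hz => hpair p r hp hr hBp hBr y z hy hz) _ b' hb' hBb le_rfl
  have hfinal : Sy (Fx (core K)).toSubfield (b : AlgebraicClosure K) (a : AlgebraicClosure K) :=
    pq_ind hK hT (fun x => Sy (Fx (core K)).toSubfield (b : AlgebraicClosure K)
      (x : AlgebraicClosure K)) (fun x x' h h' => symb_mul hb h h')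
      (fun x => symb_sq _ (hM x)) (fun x hx => pq_su hU _ hx) B
      (fun p hp hBp y hy => hyb p hp hBp y hy) _ a' ha' hBa le_rfl
  exact symb_symm two_ne_zero hb ha ha0 hfinal

end Pool.Agent.Work.MP_787500_nt.GP
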