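import Mathlib
import Pool.Agent.Work.MP_787500_nt.GP.C4_H2
import Pool.Agent.Work.MP_787500_nt.GP.C7_Adj
import Pool.Agent.Work.MP_787500_nt.GP.N8_PqCore

/-!
# Module C8_FINLEV (size M): a 2-cocycle of the T-system is trivial on a good subgroup

Subtract the constant `f 1 1` (the coboundary of a constant): let `f 1 1 = 0`. `f` restricted to `C = core K` is a
cocycle for `subSys C` (a `GoodT` subgroup is open, normal of 2-power index; `subgroupOf C`). By `h2_zero` and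
`pq_core`: `f = δ z` on `C`, `z` smooth for `subSys C` (extend `z` by 0 to `AbsGal K`). By `adjust` there is `t`; let
`z' g = z g` if `g t = t`, and `z g + 1` otherwise (`g ∈ C`). Then also `f = δ z'` on `C` (`g ↦ (g t ≠ t)` is a
homomorphism on `C`), `z'` is smooth (the stabilizer of `t` is open), and `z'` vanishes on the inertia
groups of all primes not containing 2 or an element of `T`. `N = coreT K T ≤ C`; on `N`, `f = f 1 1 = 0`
(`N ≤ W₀`), so `z'` is a homomorphism on `N` and zero by `core_hom` (with `I = inT K T`). For `g ∈ C`, `n ∈ N`: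
`z' (g n) = z' g + z' n + f g n = z' g`. Let `U'` be open normal with `z' (g w) = z' g` for `w ∈ U' ⊓ C`. By
`core_basis` there is `W₁` with `GoodT K T W₁`, `W₁ ⊆ U' N`; may suppose `W₁ ≤ W₀`. For `w ∈ W₁ ⊓ C`: `w = u n`,
`u ∈ U' ⊓ C`, so `z' (g w) = z' g`. Let `U = W₁ C` (a subgroup, `Good`: open, normal, contains `C` hence all
inertia groups at primes not containing 2, and `g ^ (2 ^ k) ∈ W₁`). Define `z'' (w c) = z' c` for `w ∈ W₁`,
`c ∈ C` (well defined: `w c = w₂ c₂` gives `c = (w⁻¹ w₂) c₂ = c₂ (c₂⁻¹ w⁻¹ w₂ c₂)`, and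
`c₂⁻¹ w⁻¹ w₂ c₂ ∈ W₁ ⊓ C`), and 0 outside `U`. It is invariant under `W₁` (normal), so `Sm1 (sysT K T)`, and
`f (w c) (w₂ c₂) = f c c₂ = z' c + z' c₂ + z' (c c₂)`, `w c w₂ c₂ = w (c w₂ c⁻¹) c c₂`. So `Cob (sysT K T) U f`.
-/

set_option autoImplicit false
set_option linter.unusedSectionVars false

namespace Pool.Agent.Work.MP_787500_nt.GP

open IsDedekindDomain NumberField
open Pool.Agent.Work.MP_787500_nt.PA (TwoSys Sm1 Sm2 homs Coc Cob IsChar goodSys core cyc Opn SU)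
open Pool.Agent.Work.MP_787500_nt.Gn (GoodG)

universe u

variable {K : Type u} [Field K] [NumberField K]

private theorem goodT_of_good8 {T : Finset ℕ} {W : Subgroup (AbsGal K)} (h : PA.Good W) :
    GoodT K T W := by
  refine ⟨h.normal, h.isOpen, le_top, fun g _ => h.pow g, ?_⟩
  rintro σ ⟨Q, hQ, h2, -, hσ⟩
  exact h.inertia Q hQ h2 hσ

private theorem coreT_le_core8 (T : Finset ℕ) : coreT K T ≤ core K := by
  intro g hg
  rw [core, Subgroup.mem_sInf]
  intro W hW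
  exact (Subgroup.mem_sInf.1 hg) W (goodT_of_good8 hW)

private theorem two08 : (2 : ZMod 2) = 0 := by decide

private theorem z_facts8 {C N : Subgroup (AbsGal K)} (hNC : N ≤ C)
    {f : AbsGal K → AbsGal K → ZMod 2} {z : AbsGal K → ZMod 2}
    (hf : ∀ g h, ∀ w ∈ N, ∀ w' ∈ N, f (g * w) (h * w') = f g h) (h1 : f 1 1 = 0)
    (hfz : ∀ g ∈ C, ∀ h ∈ C, f g h = z g + z h + z (g * h)) :
    z 1 = 0 ∧ (∀ g ∈ C, ∀ n ∈ N, z (g * n) = z g + z n) := by
  have hz1 : z 1 = 0 := by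
    have h := hfz 1 C.one_mem 1 C.one_mem
    rw [h1, mul_one] at h
    linear_combination -h - z 1 * two08
  refine ⟨hz1, ?_⟩
  intro g hg n hn
  have e1 := hfz g hg n (hNC hn)
  have e2 := hf g 1 1 N.one_mem n hn
  rw [mul_one, one_mul] at e2
  have e3 := hfz g hg 1 C.one_mem
  rw [mul_one, hz1] at e3
  linear_combination -e1 + e2 + e3 - z n * two08

/-- the normalised form -/
private theorem fin_level_norm {q : ℕ} {s : K} (hK : IsBase K q s) (T : Finset ℕ)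
    {f : AbsGal K → AbsGal K → ZMod 2} (hf : Coc (sysT K T) ⊤ f) (h11 : f 1 1 = 0) :
    ∃ U : Subgroup (AbsGal K), PA.Good U ∧ Cob (sysT K T) U f := by
  classical
  obtain ⟨⟨W₀, hW₀', hfW⟩, hcoc⟩ := hf
  have hW₀ : GoodT K T W₀ := hW₀'
  have hW₀n := hW₀.normal
  have hCn : (core K).Normal := PA.core_normal
  have hNn : (coreT K T).Normal := Gn.core_normal
  have hNC : coreT K T ≤ core K := coreT_le_core8 T
  have hNW : coreT K T ≤ W₀ := Gn.core_le hW₀
  -- restriction to the core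
  have hcocC : Coc (subSys (core K)) ⊤ (fun g h : core K => f g h) := by
    refine ⟨⟨W₀.subgroupOf (core K), ⟨⟨W₀, hW₀.isOpen, le_rfl⟩, inferInstance, ?_⟩, ?_⟩, ?_⟩
    · obtain ⟨k, hk⟩ := goodG_index hW₀
      have h4 : (W₀.subgroupOf (core K)).index ∣ W₀.index :=
        Subgroup.relIndex_dvd_index_of_normal W₀ (core K)
      rw [hk] at h4
      obtain ⟨m, _, hm⟩ := (Nat.dvd_prime_pow Nat.prime_two).1 h4
      exact ⟨m, hm⟩
    · intro g h w hw w' hw'
      exact hfW g h w (Subgroup.mem_subgroupOf.1 hw) w' (Subgroup.mem_subgroupOf.1 hw')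
    · intro g _ h _ k _
      exact hcoc g trivial h trivial k trivial
  obtain ⟨zC, ⟨W, ⟨⟨U₁, hU₁, hU₁W⟩, -, -⟩, hzW⟩, hfz⟩ :=
    h2_zero PA.core_closed (pq_core hK) hcocC
  obtain ⟨z, hzdef⟩ : ∃ z : AbsGal K → ZMod 2, ∀ g : core K, z g = zC g :=
    ⟨fun g => if h : g ∈ core K then zC ⟨g, h⟩ else 0, fun g => dif_pos g.2⟩
  have hzC : ∀ (g : AbsGal K) (hg : g ∈ core K), z g = zC ⟨g, hg⟩ := fun g hg => hzdef ⟨g, hg⟩
  have hfz' : ∀ g ∈ core K, ∀ h ∈ core K, f g h = z g + z h + z (g * h) := by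
    intro g hg h hh
    rw [hzC g hg, hzC h hh, hzC (g * h) ((core K).mul_mem hg hh)]
    exact hfz ⟨g, hg⟩ trivial ⟨h, hh⟩ trivial
  have hzs : ∀ g ∈ core K, ∀ w ∈ core K ⊓ U₁, z (g * w) = z g := by
    intro g hg w hw
    rw [hzC g hg, hzC (g * w) ((core K).mul_mem hg hw.1)]
    exact hzW ⟨g, hg⟩ ⟨w, hw.1⟩ (hU₁W (Subgroup.mem_subgroupOf.2 hw.2))
  obtain ⟨t, ht0, hts, ht⟩ := adjust hK T ⟨W₀, hW₀, hfW⟩ h11 ⟨U₁, hU₁, hzs⟩ hfz'
  have hneg : -t ≠ t := by
    intro h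
    have : (2 : AlgebraicClosure K) * t = 0 := by linear_combination -h
    exact mul_ne_zero two_ne_zero ht0 this
  obtain ⟨lam, hlam⟩ : ∃ lam : AbsGal K → ZMod 2, ∀ g, lam g = if g t = t then 0 else 1 :=
    ⟨fun g => if g t = t then 0 else 1, fun g => rfl⟩
  have hlam_mul : ∀ g ∈ core K, ∀ h ∈ core K, lam (g * h) = lam g + lam h := by
    intro g hg h hh
    rw [hlam, hlam, hlam, AlgEquiv.mul_apply]
    rcases hts g hg with h1 | h1 <;> rcases hts h hh with h2 | h2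
    · rw [h2, h1, if_pos rfl]; simp
    · rw [h2, map_neg, h1, if_neg hneg, if_pos rfl]; simp
    · rw [h2, h1, if_neg hneg, if_pos rfl]; simp
    · rw [h2, map_neg, h1, neg_neg, if_pos rfl, if_neg hneg]; decide
  have hmulapp : ∀ g h : AbsGal K, (g * h) t = g (h t) := fun g h => rfl
  -- the adjusted cochain
  obtain ⟨z', hz'def⟩ : ∃ z' : AbsGal K → ZMod 2, ∀ g, z' g = z g + lam g :=
    ⟨fun g => z g + lam g, fun g => rfl⟩
  have hfz2 : ∀ g ∈ core K, ∀ h ∈ core K, f g h = z' g + z' h + z' (g * h) := by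
    intro g hg h hh
    rw [hz'def, hz'def, hz'def, hlam_mul g hg h hh, hfz' g hg h hh]
    linear_combination -(lam g + lam h) * two08
  obtain ⟨hz'1, hz'mul⟩ := z_facts8 (C := core K) (N := coreT K T) hNC
    (fun g h w hw w' hw' => hfW g h w (hNW hw) w' (hNW hw')) h11 hfz2
  -- an open normal subgroup
  have hstab : IsOpen (MulAction.stabilizer (AbsGal K) t : Set (AbsGal K)) :=
    stabilizer_isOpen_of_isIntegral t
  obtain ⟨U', hU'def⟩ : ∃ U', U' = U₁ ⊓ MulAction.stabilizer (AbsGal K) t := ⟨_, rfl⟩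
  have hU' : IsOpen (U' : Set (AbsGal K)) := by rw [hU'def]; exact hU₁.inter hstab
  have hfq : Finite (AbsGal K ⧸ U') := Subgroup.quotient_finite_of_isOpen U' hU'
  have hfi : U'.FiniteIndex := Subgroup.finiteIndex_of_finite_quotient
  obtain ⟨V, hVdef⟩ : ∃ V, V = U'.normalCore := ⟨_, rfl⟩
  have hVo : IsOpen (V : Set (AbsGal K)) := by
    rw [hVdef]
    exact Subgroup.isOpen_of_isClosed_of_finiteIndex _
      (U'.normalCore_isClosed (Subgroup.isClosed_of_isOpen U' hU'))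
  have hVle : V ≤ U' := by rw [hVdef]; exact U'.normalCore_le
  have hVn : V.Normal := by rw [hVdef]; exact U'.normalCore_normal
  have hz'V : ∀ g ∈ core K, ∀ w ∈ core K ⊓ V, z' (g * w) = z' g := by
    intro g hg w hw
    have hwU := hVle hw.2
    rw [hU'def] at hwU
    have hwt : w t = t := hwU.2
    have hlw : lam w = 0 := by rw [hlam, if_pos hwt]
    rw [hz'def, hz'def, hzs g hg w ⟨hw.1, hwU.1⟩, hlam_mul g hg w hw.1, hlw, add_zero]
  have hz'V0 : ∀ w ∈ core K ⊓ V, z' w = 0 := by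
    intro w hw
    have := hz'V 1 (core K).one_mem w hw
    rwa [one_mul, hz'1] at this
  -- z' vanishes on the small core
  have hz'N : ∀ n ∈ coreT K T, z' n = 0 := by
    intro n hn
    refine core_hom (baseT K T) z' (fun g hg h hh => hz'mul g (hNC hg) h hh)
      ⟨V, hVo, fun g hg => hz'V0 g ⟨hNC hg.1, hg.2⟩⟩ ?_ hn
    rintro σ ⟨Q, hQ, h2, hT, hσ⟩
    have h3 := ht Q hQ h2 hT σ hσ
    rw [hz'def, hlam]
    by_cases h4 : σ t = t
    · rw [if_pos h4, h3.2 h4, add_zero]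
    · rw [if_neg h4]
      have h5 : z σ ≠ 0 := fun h => h4 (h3.1 h)
      have h6 : z σ = 1 := by
        revert h5
        generalize z σ = a
        revert a
        decide
      rw [h6]
      decide
  have hz'gn : ∀ g ∈ core K, ∀ n ∈ coreT K T, z' (g * n) = z' g := by
    intro g hg n hn
    rw [hz'mul g hg n hn, hz'N n hn, add_zero]
  -- a member of the T-system
  obtain ⟨W₂, hW₂, hW₂le⟩ := core_basis (baseT K T)
    (O := ((V ⊔ coreT K T : Subgroup (AbsGal K)) : Set (AbsGal K)))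
    (Subgroup.isOpen_mono le_sup_left hVo) (by
      intro g hg
      exact (le_sup_right : coreT K T ≤ V ⊔ coreT K T) hg)
  obtain ⟨W₁, hW₁def⟩ : ∃ W₁, W₁ = W₂ ⊓ W₀ := ⟨_, rfl⟩
  have hW₁ : GoodT K T W₁ := by rw [hW₁def]; exact hW₂.inf hW₀
  have hW₁n := hW₁.normal
  have hW₁W₀ : W₁ ≤ W₀ := by rw [hW₁def]; exact inf_le_right
  have hW₁V : W₁ ≤ V ⊔ coreT K T := by
    rw [hW₁def]
    exact inf_le_left.trans hW₂le
  have hz'W : ∀ g ∈ core K, ∀ w ∈ core K ⊓ W₁, z' (g * w) = z' g := by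
    intro g hg w hw
    obtain ⟨v, hv, n, hn, hvn⟩ := Subgroup.mem_sup_of_normal_right.1 (hW₁V hw.2)
    have hvC : v ∈ core K := by
      have e : v = w * n⁻¹ := by rw [← hvn]; group
      rw [e]
      exact (core K).mul_mem hw.1 ((core K).inv_mem (hNC hn))
    rw [← hvn, ← mul_assoc, hz'gn _ ((core K).mul_mem hg hvC) n hn]
    exact hz'V g hg v ⟨hvC, hv⟩
  -- the good subgroup
  obtain ⟨U, hUdef⟩ : ∃ U, U = W₁ ⊔ core K := ⟨_, rfl⟩
  have hW₁U : W₁ ≤ U := by rw [hUdef]; exact le_sup_left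
  have hCU : core K ≤ U := by rw [hUdef]; exact le_sup_right
  have hUmem : ∀ u, u ∈ U ↔ ∃ w ∈ W₁, ∃ c ∈ core K, w * c = u := by
    intro u
    rw [hUdef]
    exact Subgroup.mem_sup_of_normal_right
  have hUn : U.Normal := by
    rw [hUdef]
    infer_instance
  have hUgood : PA.Good U := by
    refine ⟨hUn, Subgroup.isOpen_mono hW₁U hW₁.isOpen, ?_, ?_⟩
    · intro g
      obtain ⟨k, hk⟩ := hW₁.pow g trivial
      exact ⟨k, hW₁U hk⟩
    · intro Q hQ h2
      exact (PA.inertia_le_core hQ h2).trans hCU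
  refine ⟨U, hUgood, ?_⟩
  -- the extended cochain
  have hex : ∀ u : AbsGal K, ∃ a : ZMod 2, (u ∉ U → a = 0) ∧
      ∀ w ∈ W₁, ∀ c ∈ core K, w * c = u → a = z' c := by
    intro u
    by_cases hu : u ∈ U
    · obtain ⟨w, hw, c, hc, hwc⟩ := (hUmem u).1 hu
      refine ⟨z' c, fun h => absurd hu h, ?_⟩
      intro w₂ hw₂ c₂ hc₂ hwc₂
      have e1 : c = c₂ * (c₂⁻¹ * (w⁻¹ * w₂) * c₂) := by
        have : w * c = w₂ * c₂ := by rw [hwc, hwc₂]
        have e : c = w⁻¹ * (w * c) := by group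
        rw [e, this]
        group
      rw [e1]
      refine hz'W c₂ hc₂ _ ⟨?_, ?_⟩
      · have e2 : c₂⁻¹ * (w⁻¹ * w₂) * c₂ = c₂⁻¹ * c := by
          rw [e1]; group
        rw [e2]
        exact (core K).mul_mem ((core K).inv_mem hc₂) hc
      · have h3 := hW₁n.conj_mem (w⁻¹ * w₂) (W₁.mul_mem (W₁.inv_mem hw) hw₂) c₂⁻¹
        rwa [inv_inv] at h3
    · refine ⟨0, fun _ => rfl, ?_⟩
      intro w hw c hc hwc
      exact absurd ((hUmem u).2 ⟨w, hw, c, hc, hwc⟩) hu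
  choose z'' hz''0 hz'' using hex
  have hzwc : ∀ w ∈ W₁, ∀ c ∈ core K, z'' (w * c) = z' c := fun w hw c hc =>
    hz'' _ w hw c hc rfl
  refine ⟨z'', ⟨W₁, hW₁, ?_⟩, ?_⟩
  · intro g w hw
    by_cases hg : g ∈ U
    · obtain ⟨w', hw', c, hc, rfl⟩ := (hUmem g).1 hg
      have e1 : w' * c * w = (w' * (c * w * c⁻¹)) * c := by group
      rw [e1, hzwc _ (W₁.mul_mem hw' (hW₁n.conj_mem w hw c)) c hc, hzwc w' hw' c hc]
    · have hgw : g * w ∉ U := by
        intro h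
        apply hg
        have := U.mul_mem h (U.inv_mem (hW₁U hw))
        rwa [mul_inv_cancel_right] at this
      rw [hz''0 _ hg, hz''0 _ hgw]
  · intro g hg h hh
    obtain ⟨w, hw, c, hc, rfl⟩ := (hUmem g).1 hg
    obtain ⟨w₂, hw₂, c₂, hc₂, rfl⟩ := (hUmem h).1 hh
    have e1 : w * c = c * (c⁻¹ * w * c⁻¹⁻¹) := by group
    have e2 : w₂ * c₂ = c₂ * (c₂⁻¹ * w₂ * c₂⁻¹⁻¹) := by group
    have hf1 : f (w * c) (w₂ * c₂) = f c c₂ := by
      rw [e1, e2]
      exact hfW c c₂ _ (hW₁W₀ (hW₁n.conj_mem w hw c⁻¹)) _ (hW₁W₀ (hW₁n.conj_mem w₂ hw₂ c₂⁻¹))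
    have e3 : w * c * (w₂ * c₂) = (w * (c * w₂ * c⁻¹)) * (c * c₂) := by group
    rw [hf1, e3, hzwc _ (W₁.mul_mem hw (hW₁n.conj_mem w₂ hw₂ c)) _ ((core K).mul_mem hc hc₂),
      hzwc w hw c hc, hzwc w₂ hw₂ c₂ hc₂]
    exact hfz2 c hc c₂ hc₂

theorem fin_level {q : ℕ} {s : K} (hK : IsBase K q s) (T : Finset ℕ)
    {f : AbsGal K → AbsGal K → ZMod 2} (hf : Coc (sysT K T) ⊤ f) :
    ∃ U : Subgroup (AbsGal K), PA.Good U ∧ Cob (sysT K T) U f := by
  obtain ⟨⟨W₀, hW₀, hfW⟩, hcoc⟩ := hf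
  obtain ⟨U, hU, z, hz, hfz⟩ := fin_level_norm hK T (f := fun g h => f g h + f 1 1)
    ⟨⟨W₀, hW₀, fun g h w hw w' hw' => by simp only [hfW g h w hw w' hw']⟩, by
      intro g hg h hh k hk
      have := hcoc g hg h hh k hk
      simp only
      linear_combination this⟩ (by
      linear_combination (f 1 1) * two08)
  refine ⟨U, hU, fun g => z g + f 1 1, ?_, ?_⟩
  · obtain ⟨W, hW, h⟩ := hz
    exact ⟨W, hW, fun g w hw => by simp only [h g w hw]⟩
  · intro g hg h hh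
    have h1 := hfz g hg h hh
    simp only at h1 ⊢
    linear_combination h1 - 2 * f 1 1 * two08

end Pool.Agent.Work.MP_787500_nt.GP
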