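import Mathlib
import Pool.Agent.Work.MP_787500_nt.GP.S0_KumT
import Pool.Agent.Work.MP_787500_nt.GP.N4_OddAt
import Pool.Agent.Work.MP_787500_nt.PA.SymbKer
import Pool.Agent.Work.MP_787500_nt.PA.SelCount

/-!
# Module S1_NORMT (size L): norms with prescribed ramification

`F = Fx U`, `E = Fx V`, number fields in the tower (`fixedF`), `E / F` quadratic, `s ∈ U`, `s ∉ V`. `ψ = act2 U t`
(`exists_act2T`), `b = t ^ 2 ∈ F`. `R` = the set of the places `v` of `F`, not above 2, where `b` has odd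
valuation: finite. For `v ∈ R` and `Q` above `v`: `ψ` is not zero on `Q.inertia` (`ram_iff`); so `Q` contains
an element of `T` (otherwise `Q.inertia` is in all `GoodT` subgroups and fixes `t`), and `h` says
`stabD Q ⊓ U ≤ V`. So `Q` and `s Q` are not above the same place of `E`: otherwise `s Q = g Q` with
`g ∈ V` (`exists_smul_eq`), `g⁻¹ s ∈ stabD Q ⊓ U ≤ V`. Let `w` be the place of `E` below `Q`, `y_v ∈ E` with
`OddAt w y_v` (`exists_oddAt` for `E`), and `y = ∏ v ∈ R, y_v`. `s` acts on `E`; `N x = x * s x ∈ F`. For a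
place `w'` of `E` not above 2: `w'.valuation (N y_v) = w'.valuation y_v * (conjPrime) w'.valuation y_v`, which is odd for
`w' = w` and `w' = s w`, and 1 for the other `w'` not above 2. As a valuation on `E` restricted to `F` is a
power of that of `F` (`exists_valuation_below`), `v.valuation (N y_v)` is not a square and it is 1 at
the other places (the power of an element of `ℤᵐ⁰` is 1 only for 1). So `b * N y` is `EvenOff2` in `F`.
`t' ^ 2 = y`: `t'` is in `InMT T`: `InMT.sqrt` (`y` is fixed by `V`; `UT T y`: `y` is a unit at all places of `E` not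
above 2 or elements of `T`; apply the analogue of `unitAt_val` for `E`). `ψ' = act2 V t' ∈ homs (sysT K T) V`.
`cor V U s ψ' = act2 U (t' * s t')` (this computation is in the header of `C3_Symb0.lean`; `(t' * s t') ^ 2 = N y`).
`ω = act2 U (t * (t' * s t'))`; `(t t' s t') ^ 2 = b N y` is `EvenOff2`, so `t t' s t'` is fixed by a good subgroup
(`sel_count`, as in `PA/CountsK.lean`: `b N y` is a product of elements `a i` with `SU (a i)` times a square;
`InM.sqrt`), `ω ∈ homs (goodSys K) U` (`act2_mem`), `ψ = cor V U s ψ' + ω` (`act2_mul`).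
-/

set_option autoImplicit false
set_option linter.unusedSectionVars false

namespace Pool.Agent.Work.MP_787500_nt.GP

open IsDedekindDomain NumberField
open Pool.Agent.Work.MP_787500_nt.PA (TwoSys Sm1 Sm2 homs Coc Cob IsChar goodSys core cyc Opn SU)
open Pool.Agent.Work.MP_787500_nt.Gn (GoodG)

universe u

variable {K : Type u} [Field K] [NumberField K]

/-- the conjugate of a prime -/
private noncomputable def S1_NormT_cj (u : AbsGal K) (Q : Ideal (𝓞 (AlgebraicClosure K))) :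
    Ideal (𝓞 (AlgebraicClosure K)) :=
  Q.comap ((MulSemiringAction.toRingEquiv (AbsGal K) (𝓞 (AlgebraicClosure K)) u⁻¹ :
    𝓞 (AlgebraicClosure K) ≃+* 𝓞 (AlgebraicClosure K)) :
      𝓞 (AlgebraicClosure K) →+* 𝓞 (AlgebraicClosure K))

private theorem S1_NormT_mem {u : AbsGal K} {Q : Ideal (𝓞 (AlgebraicClosure K))}
    {x : 𝓞 (AlgebraicClosure K)} : x ∈ S1_NormT_cj u Q ↔ u⁻¹ • x ∈ Q := Iff.rfl

private theorem S1_NormT_prime (u : AbsGal K) {Q : Ideal (𝓞 (AlgebraicClosure K))} (hQ : Q.IsPrime) :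
    (S1_NormT_cj u Q).IsPrime := Ideal.comap_isPrime _ _

private theorem S1_NormT_nat (u : AbsGal K) (Q : Ideal (𝓞 (AlgebraicClosure K))) (m : ℕ) :
    (m : 𝓞 (AlgebraicClosure K)) ∈ S1_NormT_cj u Q ↔ (m : 𝓞 (AlgebraicClosure K)) ∈ Q := by
  have h1 : u⁻¹ • (m : 𝓞 (AlgebraicClosure K)) = m := by
    apply RingOfIntegers.ext
    show u⁻¹ (algebraMap (𝓞 (AlgebraicClosure K)) (AlgebraicClosure K) m) =
      algebraMap (𝓞 (AlgebraicClosure K)) (AlgebraicClosure K) m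
    rw [map_natCast, map_natCast]
  rw [S1_NormT_mem, h1]

private theorem S1_NormT_two (u : AbsGal K) (Q : Ideal (𝓞 (AlgebraicClosure K))) :
    (2 : 𝓞 (AlgebraicClosure K)) ∈ S1_NormT_cj u Q ↔ (2 : 𝓞 (AlgebraicClosure K)) ∈ Q := by
  have := S1_NormT_nat u Q 2
  rwa [Nat.cast_ofNat] at this

private theorem S1_NormT_mul (u w : AbsGal K) (Q : Ideal (𝓞 (AlgebraicClosure K))) :
    S1_NormT_cj u (S1_NormT_cj w Q) = S1_NormT_cj (u * w) Q := by
  ext x
  rw [S1_NormT_mem, S1_NormT_mem, S1_NormT_mem, mul_inv_rev, mul_smul]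

private theorem S1_NormT_one (Q : Ideal (𝓞 (AlgebraicClosure K))) : S1_NormT_cj 1 Q = Q := by
  ext x
  rw [S1_NormT_mem, inv_one, one_smul]

private theorem S1_NormT_bot (u : AbsGal K) {Q : Ideal (𝓞 (AlgebraicClosure K))} (hQ : Q ≠ ⊥) :
    S1_NormT_cj u Q ≠ ⊥ := by
  intro h
  apply hQ
  rw [eq_bot_iff]
  intro x hx
  have h1 : u • x ∈ S1_NormT_cj u Q := by
    rw [S1_NormT_mem, inv_smul_smul]
    exact hx
  rw [h, Ideal.mem_bot] at h1
  rw [Ideal.mem_bot, ← inv_smul_smul u x, h1, smul_zero]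

private theorem S1_NormT_inertia {u n : AbsGal K} {Q : Ideal (𝓞 (AlgebraicClosure K))}
    (hn : n ∈ Q.inertia (AbsGal K)) : u * n * u⁻¹ ∈ (S1_NormT_cj u Q).inertia (AbsGal K) := by
  intro x
  show (u * n * u⁻¹) • x - x ∈ S1_NormT_cj u Q
  rw [S1_NormT_mem, smul_sub, smul_smul]
  have h1 : u⁻¹ * (u * n * u⁻¹) = n * u⁻¹ := by group
  rw [h1, mul_smul]
  exact hn _

private theorem S1_NormT_stab {g : AbsGal K} {Q : Ideal (𝓞 (AlgebraicClosure K))} (h : S1_NormT_cj g Q = Q) :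
    g ∈ stabD Q := by
  rw [mem_stabD]
  intro x
  have h1 : g • x ∈ S1_NormT_cj g Q ↔ x ∈ Q := by rw [S1_NormT_mem, inv_smul_smul]
  rw [h] at h1
  exact h1.symm

private theorem S1_NormT_trans {W : Subgroup (AbsGal K)} [NumberField (Fx W)]
    (hfix : (Fx W).fixingSubgroup = W) {P Q : Ideal (𝓞 (AlgebraicClosure K))} (hP : P.IsPrime)
    (hQ : Q.IsPrime) (h : P.comap (algebraMap (𝓞 (Fx W)) (𝓞 (AlgebraicClosure K))) =
      Q.comap (algebraMap (𝓞 (Fx W)) (𝓞 (AlgebraicClosure K)))) : ∃ u ∈ W, Q = S1_NormT_cj u P := by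
  obtain ⟨g, hg⟩ := exists_smul_eq (F := Fx W) P Q h
  refine ⟨g.restrictScalars K, ?_, ?_⟩
  · have h1 : g.restrictScalars K ∈ (Fx W).fixingSubgroup := by
      rw [IntermediateField.mem_fixingSubgroup_iff]
      intro x hx
      exact g.commutes ⟨x, hx⟩
    exact (SetLike.ext_iff.1 hfix _).1 h1
  · rw [hg]
    ext x
    rw [Ideal.mem_pointwise_smul_iff_inv_smul_mem]
    rfl

private theorem S1_NormT_comap {W : Subgroup (AbsGal K)} {u : AbsGal K} (hu : u ∈ W)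
    (Q : Ideal (𝓞 (AlgebraicClosure K))) :
    (S1_NormT_cj u Q).comap (algebraMap (𝓞 (Fx W)) (𝓞 (AlgebraicClosure K))) =
      Q.comap (algebraMap (𝓞 (Fx W)) (𝓞 (AlgebraicClosure K))) := by
  ext x
  rw [Ideal.mem_comap, Ideal.mem_comap, S1_NormT_mem]
  have h1 : u⁻¹ • (algebraMap (𝓞 (Fx W)) (𝓞 (AlgebraicClosure K)) x) =
      algebraMap (𝓞 (Fx W)) (𝓞 (AlgebraicClosure K)) x := by
    apply RingOfIntegers.ext
    exact mem_Fx.1 (algebraMap (𝓞 (Fx W)) (Fx W) x).2 u⁻¹ (W.inv_mem hu)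
  rw [h1]

/-- the place below a prime -/
private noncomputable def S1_NormT_pl (W : Subgroup (AbsGal K)) [NumberField (Fx W)]
    (Q : Ideal (𝓞 (AlgebraicClosure K))) (hQ : Q.IsPrime) (hb : Q ≠ ⊥) :
    HeightOneSpectrum (𝓞 (Fx W)) :=
  ⟨Q.comap (algebraMap (𝓞 (Fx W)) (𝓞 (AlgebraicClosure K))), Ideal.comap_isPrime _ _,
    fun h => hb (Ideal.eq_bot_of_comap_eq_bot h)⟩

private theorem S1_NormT_above {W : Subgroup (AbsGal K)} [NumberField (Fx W)]
    (v : HeightOneSpectrum (𝓞 (Fx W))) : ∃ P : Ideal (𝓞 (AlgebraicClosure K)), P.IsPrime ∧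
      P ≠ ⊥ ∧ P.comap (algebraMap (𝓞 (Fx W)) (𝓞 (AlgebraicClosure K))) = v.asIdeal := by
  have : v.asIdeal.IsMaximal := v.isMaximal
  obtain ⟨P, hP, hPv⟩ := Ideal.exists_maximal_ideal_liesOver_of_isIntegral
    (S := 𝓞 (AlgebraicClosure K)) v.asIdeal
  refine ⟨P, hP.isPrime, ?_, hPv.over.symm⟩
  rintro rfl
  have h1 := hPv.over
  rw [Ideal.under_bot] at h1
  exact v.ne_bot h1

private theorem S1_NormT_unitAt {F : IntermediateField K (AlgebraicClosure K)} [NumberField F]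
    {Q : Ideal (𝓞 (AlgebraicClosure K))} {v : HeightOneSpectrum (𝓞 F)}
    (hv : Q.comap (algebraMap (𝓞 F) (𝓞 (AlgebraicClosure K))) = v.asIdeal) {w : F}
    (hw : v.valuation F w = 1) : UnitAt Q (w : AlgebraicClosure K) := by
  obtain ⟨n, d, hnd⟩ := v.exists_primeCompl_mul_eq_of_integer w hw.le
  have hd : (d : 𝓞 F) ∉ v.asIdeal := d.2
  have hvd : v.valuation F (algebraMap (𝓞 F) F d) = 1 :=
    (HeightOneSpectrum.valuation_eq_one_iff_notMem (K := F) v).2 hd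
  have hvn : v.valuation F (algebraMap (𝓞 F) F n) = 1 := by
    rw [← hnd, map_mul, hw, hvd, one_mul]
  have hn : n ∉ v.asIdeal := (HeightOneSpectrum.valuation_eq_one_iff_notMem (K := F) v).1 hvn
  refine ⟨algebraMap (𝓞 F) (𝓞 (AlgebraicClosure K)) n,
    algebraMap (𝓞 F) (𝓞 (AlgebraicClosure K)) d, ?_, ?_, ?_⟩
  · exact fun h => hn (hv.le h)
  · exact fun h => hd (hv.le h)
  · exact congrArg (fun z : F => (z : AlgebraicClosure K)) hnd

private theorem S1_NormT_unitAt_bot {F : IntermediateField K (AlgebraicClosure K)} [NumberField F]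
    {w : F} (hw : w ≠ 0) : UnitAt (⊥ : Ideal (𝓞 (AlgebraicClosure K))) (w : AlgebraicClosure K) := by
  obtain ⟨n, d, hd, hnd⟩ := IsFractionRing.div_surjective (A := 𝓞 F) w
  have hd0 : d ≠ 0 := nonZeroDivisors.ne_zero hd
  have hdF : algebraMap (𝓞 F) F d ≠ 0 := fun h => hd0 (RingOfIntegers.coe_eq_zero_iff.1 h)
  have hn0 : n ≠ 0 := by
    rintro rfl
    rw [map_zero, zero_div] at hnd
    exact hw hnd.symm
  have hinj : Function.Injective (algebraMap (𝓞 F) (𝓞 (AlgebraicClosure K))) :=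
    FaithfulSMul.algebraMap_injective _ _
  refine ⟨algebraMap (𝓞 F) (𝓞 (AlgebraicClosure K)) n,
    algebraMap (𝓞 F) (𝓞 (AlgebraicClosure K)) d, ?_, ?_, ?_⟩
  · rw [Ideal.mem_bot]
    exact fun h => hn0 (hinj (by rw [h, map_zero]))
  · rw [Ideal.mem_bot]
    exact fun h => hd0 (hinj (by rw [h, map_zero]))
  · have h1 : w * algebraMap (𝓞 F) F d = algebraMap (𝓞 F) F n := by
      rw [← hnd, div_mul_cancel₀ _ hdF]
    exact congrArg (fun z : F => (z : AlgebraicClosure K)) h1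

private theorem S1_NormT_act {U : Subgroup (AbsGal K)} {t : AlgebraicClosure K} {n : AbsGal K}
    (hn : n ∈ U) : (PA.act2 U t n = 0 ↔ n t = t) ∧ (PA.act2 U t n = 1 ↔ n t ≠ t) := by
  classical
  unfold PA.act2
  by_cases h : n t = t
  · rw [if_neg (fun h' => h'.2 h)]
    exact ⟨⟨fun _ => h, fun _ => rfl⟩, ⟨fun h' => absurd h' zero_ne_one, fun h' => absurd h h'⟩⟩
  · rw [if_pos ⟨hn, h⟩]
    exact ⟨⟨fun h' => absurd h' one_ne_zero, fun h' => absurd h' h⟩, ⟨fun _ => h, fun _ => rfl⟩⟩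

theorem norm_T {q : ℕ} {s₀ : K} (hK : IsBase K q s₀) {T : Finset ℕ} {V U : Subgroup (AbsGal K)}
    (hVU : V ≤ U) (hV : Opn (goodSys K) V) (h2 : V.relIndex U = 2) {s : AbsGal K} (hs : s ∈ U)
    (hs' : s ∉ V) {ψ : AbsGal K → ZMod 2} (hψ : ψ ∈ homs (sysT K T) U)
    (h : ∀ Q : Ideal (𝓞 (AlgebraicClosure K)), Q.IsPrime → (2 : 𝓞 (AlgebraicClosure K)) ∉ Q →
      (∃ l ∈ T, (l : 𝓞 (AlgebraicClosure K)) ∈ Q) → (∃ n ∈ Q.inertia (AbsGal K), ψ n ≠ 0) →
      stabD Q ⊓ U ≤ V) :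
    ∃ ψ' ∈ homs (sysT K T) V, ∃ ω ∈ homs (goodSys K) U, ψ = PA.cor V U s ψ' + ω := by
  classical
  obtain ⟨WV, hWV, hWVV⟩ := id hV
  have hWV' : PA.Good WV := hWV
  have hVT : Opn (sysT K T) V := ⟨WV, Good.goodT hWV' T, hWVV⟩
  have hUT : Opn (sysT K T) U := ⟨WV, Good.goodT hWV' T, hWVV.trans hVU⟩
  have hU : Opn (goodSys K) U := ⟨WV, hWV, hWVV.trans hVU⟩
  obtain ⟨-, -, hfixU', hNU', -⟩ := PA.fixedF hU
  have hfixU : (Fx U).fixingSubgroup = U := hfixU'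
  have hNU : NumberField (Fx U) := hNU'
  obtain ⟨-, -, hfixV', hNV', htowV'⟩ := PA.fixedF hV
  have hfixV : (Fx V).fixingSubgroup = V := hfixV'
  have hNV : NumberField (Fx V) := hNV'
  have htowV : InTwoTower K (Fx V) := htowV'
  have hinV : ∀ Q : Ideal (𝓞 (AlgebraicClosure K)), Q.IsPrime →
      (2 : 𝓞 (AlgebraicClosure K)) ∉ Q → Q.inertia (AbsGal K) ≤ V :=
    fun Q hQ hQ2 => (hWV'.inertia Q hQ hQ2).trans hWVV
  have hUV : ∀ Q Q' : Ideal (𝓞 (AlgebraicClosure K)),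
      Q.comap (algebraMap (𝓞 (Fx V)) (𝓞 (AlgebraicClosure K))) =
        Q'.comap (algebraMap (𝓞 (Fx V)) (𝓞 (AlgebraicClosure K))) →
      Q.comap (algebraMap (𝓞 (Fx U)) (𝓞 (AlgebraicClosure K))) =
        Q'.comap (algebraMap (𝓞 (Fx U)) (𝓞 (AlgebraicClosure K))) := by
    intro Q Q' hQQ
    ext x
    have hx : ((algebraMap (𝓞 (Fx U)) (Fx U) x : Fx U) : AlgebraicClosure K) ∈ Fx V :=
      mem_Fx.2 (fun g hg => mem_Fx.1 (algebraMap (𝓞 (Fx U)) (Fx U) x).2 g (hVU hg))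
    obtain ⟨z, hz⟩ : ∃ z : 𝓞 (Fx V), algebraMap (𝓞 (Fx V)) (𝓞 (AlgebraicClosure K)) z =
        algebraMap (𝓞 (Fx U)) (𝓞 (AlgebraicClosure K)) x := by
      have hint : IsIntegral ℤ (⟨_, hx⟩ : Fx V) := by
        have h1 : IsIntegral ℤ (algebraMap (Fx V) (AlgebraicClosure K) ⟨_, hx⟩) :=
          RingOfIntegers.isIntegral_coe (algebraMap (𝓞 (Fx U)) (𝓞 (AlgebraicClosure K)) x)
        exact (isIntegral_algebraMap_iff (algebraMap (Fx V) (AlgebraicClosure K)).injective).1 h1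
      exact ⟨⟨_, hint⟩, rfl⟩
    rw [Ideal.mem_comap, Ideal.mem_comap, ← hz, ← Ideal.mem_comap, hQQ, Ideal.mem_comap]
  -- the square root for `ψ`
  obtain ⟨t, ht0, htM, htfix, hψt⟩ := exists_act2T hUT hψ
  obtain ⟨b, hb⟩ : ∃ b : Fx U, t ^ 2 = (b : AlgebraicClosure K) := ⟨⟨t ^ 2, mem_Fx.2 htfix⟩, rfl⟩
  have hb0 : b ≠ 0 := by
    rintro rfl
    exact (pow_ne_zero 2 ht0) hb
  have hUsgn : ∀ g ∈ U, g t = t ∨ g t = -t := by
    intro g hg
    apply sq_eq_sq_iff_eq_or_eq_neg.1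
    rw [← map_pow, htfix g hg]
  let R : Set (HeightOneSpectrum (𝓞 (Fx U))) :=
    {v | (2 : 𝓞 (Fx U)) ∉ v.asIdeal ∧ ¬ IsSquare (v.valuation (Fx U) b)}
  have hRfin : R.Finite := by
    refine ((HeightOneSpectrum.Support.finite (𝓞 (Fx U)) b).union
      (HeightOneSpectrum.Support.finite (𝓞 (Fx U)) b⁻¹)).subset ?_
    rintro v ⟨-, hv⟩
    have hv1 : v.valuation (Fx U) b ≠ 1 := fun h => hv (by rw [h]; exact ⟨1, (one_mul 1).symm⟩)
    rcases lt_or_gt_of_ne hv1 with h | h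
    · right
      show 1 < v.valuation (Fx U) b⁻¹
      rw [map_inv₀]
      exact (one_lt_inv₀ (zero_lt_iff.2 ((Valuation.ne_zero_iff _).2 hb0))).2 h
    · left
      exact h
  -- a prime above `v` and the place of `Fx V` below it
  choose P hP hPb hPv using fun v : HeightOneSpectrum (𝓞 (Fx U)) => S1_NormT_above v
  let w : HeightOneSpectrum (𝓞 (Fx U)) → HeightOneSpectrum (𝓞 (Fx V)) :=
    fun v => S1_NormT_pl V (P v) (hP v) (hPb v)
  have hy : ∀ v : HeightOneSpectrum (𝓞 (Fx U)), ∃ y : Fx V, (2 : 𝓞 (Fx V)) ∉ (w v).asIdeal →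
      OddAt (w v) y := by
    intro v
    by_cases h : (2 : 𝓞 (Fx V)) ∈ (w v).asIdeal
    · exact ⟨0, fun h' => absurd h h'⟩
    · obtain ⟨y, hy⟩ := exists_oddAt hK htowV h
      exact ⟨y, fun _ => hy⟩
  choose y hy using hy
  have htwoU : ∀ (Q : Ideal (𝓞 (AlgebraicClosure K))) (hQ : Q.IsPrime) (hb : Q ≠ ⊥),
      (2 : 𝓞 (Fx U)) ∈ (S1_NormT_pl U Q hQ hb).asIdeal ↔ (2 : 𝓞 (AlgebraicClosure K)) ∈ Q := by
    intro Q hQ hb
    show (2 : 𝓞 (Fx U)) ∈ Q.comap (algebraMap (𝓞 (Fx U)) (𝓞 (AlgebraicClosure K))) ↔ _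
    rw [Ideal.mem_comap, map_ofNat]
  have htwoV : ∀ (Q : Ideal (𝓞 (AlgebraicClosure K))) (hQ : Q.IsPrime) (hb : Q ≠ ⊥),
      (2 : 𝓞 (Fx V)) ∈ (S1_NormT_pl V Q hQ hb).asIdeal ↔ (2 : 𝓞 (AlgebraicClosure K)) ∈ Q := by
    intro Q hQ hb
    show (2 : 𝓞 (Fx V)) ∈ Q.comap (algebraMap (𝓞 (Fx V)) (𝓞 (AlgebraicClosure K))) ↔ _
    rw [Ideal.mem_comap, map_ofNat]
  have hP2 : ∀ v ∈ R, (2 : 𝓞 (AlgebraicClosure K)) ∉ P v := by
    rintro v ⟨hv, -⟩ h2
    apply hv
    rw [← hPv v, Ideal.mem_comap, map_ofNat]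
    exact h2
  have hw2 : ∀ v ∈ R, (2 : 𝓞 (Fx V)) ∉ (w v).asIdeal := fun v hv h =>
    hP2 v hv ((htwoV _ _ _).1 h)
  -- places of `Fx V` determine those of `Fx U`
  have hplUV : ∀ (v : HeightOneSpectrum (𝓞 (Fx U))) (Q : Ideal (𝓞 (AlgebraicClosure K)))
      (hQ : Q.IsPrime) (hb : Q ≠ ⊥), w v = S1_NormT_pl V Q hQ hb → v = S1_NormT_pl U Q hQ hb := by
    intro v Q hQ hb hh
    have h1 : (P v).comap (algebraMap (𝓞 (Fx V)) (𝓞 (AlgebraicClosure K))) =
        Q.comap (algebraMap (𝓞 (Fx V)) (𝓞 (AlgebraicClosure K))) :=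
      congrArg HeightOneSpectrum.asIdeal hh
    apply HeightOneSpectrum.ext
    rw [← hPv v]
    exact hUV _ _ h1
  obtain ⟨yy, hyyd⟩ : ∃ yy : Fx V, yy = ∏ v ∈ hRfin.toFinset, y v := ⟨_, rfl⟩
  have hyy0 : yy ≠ 0 := by
    rw [hyyd]
    exact Finset.prod_ne_zero_iff.2 fun v hv =>
      (hy v (hw2 v ((Set.Finite.mem_toFinset _).1 hv))).1
  have hval : ∀ w' : HeightOneSpectrum (𝓞 (Fx V)), (2 : 𝓞 (Fx V)) ∉ w'.asIdeal →
      ((∀ v ∈ R, w v ≠ w') → w'.valuation (Fx V) yy = 1) ∧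
      (∀ v ∈ R, w v = w' → ¬ IsSquare (w'.valuation (Fx V) yy)) := by
    intro w' hw'
    have hprod : w'.valuation (Fx V) yy = ∏ v ∈ hRfin.toFinset, w'.valuation (Fx V) (y v) := by
      rw [hyyd, map_prod]
    have hone : ∀ v ∈ R, w v ≠ w' → w'.valuation (Fx V) (y v) = 1 := by
      intro v hv hne
      exact (hy v (hw2 v hv)).2.2 w' (Ne.symm hne) hw'
    constructor
    · intro h3
      rw [hprod]
      exact Finset.prod_eq_one (fun v hv => hone v ((Set.Finite.mem_toFinset _).1 hv)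
        (h3 v ((Set.Finite.mem_toFinset _).1 hv)))
    · intro v hv hvw hsq
      have hmem : v ∈ hRfin.toFinset := (Set.Finite.mem_toFinset _).2 hv
      rw [hprod, ← Finset.mul_prod_erase _ _ hmem, Finset.prod_eq_one, mul_one] at hsq
      · have h3 := (hy v (hw2 v hv)).2.1
        rw [hvw] at h3
        exact h3 hsq
      · intro v' hv'
        obtain ⟨h3, h4⟩ := Finset.mem_erase.1 hv'
        refine hone v' ((Set.Finite.mem_toFinset _).1 h4) (fun h5 => h3 ?_)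
        have h6 := hplUV v' (P v) (hP v) (hPb v) (h5.trans hvw.symm)
        have h7 := hplUV v (P v) (hP v) (hPb v) rfl
        rw [h6, ← h7]
  -- primes above `R` contain an element of `T`
  have hRT : ∀ v ∈ R, ∃ l ∈ T, (l : 𝓞 (Fx U)) ∈ v.asIdeal := by
    intro v hv
    by_contra hcon
    push Not at hcon
    have hT' : ∀ l ∈ T, (l : 𝓞 (AlgebraicClosure K)) ∉ P v := by
      intro l hl h3
      apply hcon l hl
      rw [← hPv v, Ideal.mem_comap, map_natCast]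
      exact h3
    obtain ⟨Wt, hWt, hWtt⟩ := htM
    apply hv.2
    refine (ram_iff hfixU (hP v) (hP2 v hv) (hPv v) ((hinV _ (hP v) (hP2 v hv)).trans hVU) hb0 hb).1
      (fun n hn => hWtt n ?_)
    exact Gn.GoodG.inertia hWt n ⟨P v, hP v, hP2 v hv, hT', hn⟩
  -- the square root of `yy`
  obtain ⟨t', ht'⟩ : ∃ t' : AlgebraicClosure K, t' ^ 2 = (yy : AlgebraicClosure K) :=
    IsAlgClosed.exists_pow_nat_eq _ two_pos
  have hyy0' : (yy : AlgebraicClosure K) ≠ 0 := fun h => hyy0 (ZeroMemClass.coe_eq_zero.1 h)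
  have ht'0 : t' ≠ 0 := by
    rintro rfl
    rw [zero_pow two_ne_zero] at ht'
    exact hyy0' ht'.symm
  have hyyfix : ∀ g ∈ V, g (yy : AlgebraicClosure K) = yy := fun g hg => mem_Fx.1 yy.2 g hg
  have hVsgn : ∀ g ∈ V, g t' = t' ∨ g t' = -t' := by
    intro g hg
    apply sq_eq_sq_iff_eq_or_eq_neg.1
    rw [← map_pow, ht', hyyfix g hg]
  have hyyM : InMT T (yy : AlgebraicClosure K) :=
    ⟨WV, Good.goodT hWV' T, fun g hg => hyyfix g (hWVV hg)⟩
  have hyyU : UT T (yy : AlgebraicClosure K) := by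
    refine ⟨hyy0', fun Q hQ hQ2 hQT => ?_⟩
    by_cases hQb : Q = ⊥
    · rw [hQb]
      exact S1_NormT_unitAt_bot hyy0
    · have hv : Q.comap (algebraMap (𝓞 (Fx V)) (𝓞 (AlgebraicClosure K))) =
        (S1_NormT_pl V Q hQ hQb).asIdeal := rfl
      refine S1_NormT_unitAt hv ((hval _ (fun h3 => hQ2 ((htwoV _ _ _).1 h3))).1 ?_)
      intro v hv' h3
      obtain ⟨l, hlT, hl⟩ := hRT v hv'
      rw [hplUV v Q hQ hQb h3] at hl
      apply hQT l hlT
      have h4 : (l : 𝓞 (Fx U)) ∈ Q.comap (algebraMap (𝓞 (Fx U)) (𝓞 (AlgebraicClosure K))) := hl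
      rwa [Ideal.mem_comap, map_natCast] at h4
  have hψ' : PA.act2 V t' ∈ homs (sysT K T) V :=
    act2_memT hVT ht'0 (InMT.sqrt hyyM hyyU ht') (fun g hg => by rw [ht', hyyfix g hg])
  have hcor := PA.cor_mem hVU hVT h2 hs hs' hψ'
  have hωT : ψ - PA.cor V U s (PA.act2 V t') ∈ homs (sysT K T) U :=
    (homs (sysT K T) U).sub_mem hψ hcor
  refine ⟨PA.act2 V t', hψ', ψ - PA.cor V U s (PA.act2 V t'), homs_of_T hU hωT ?_, by abel⟩
  intro Q hQ hQ2 n hn
  by_cases hQb : Q = ⊥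
  · rw [hQb] at hn
    rw [eq_one_of_inertia_bot (F := K) hn]
    have h3 := hωT.2.2 1 U.one_mem 1 U.one_mem
    rw [mul_one] at h3
    simpa using h3
  have hnV := hinV Q hQ hQ2 hn
  have hnU := hVU hnV
  rw [Pi.sub_apply, PA.cor_apply_mem V U s _ hnV, sub_eq_zero]
  -- the conjugate prime
  have hQ' := S1_NormT_prime s hQ
  have hQ2' : (2 : 𝓞 (AlgebraicClosure K)) ∉ S1_NormT_cj s Q :=
    fun h3 => hQ2 ((S1_NormT_two s Q).1 h3)
  have hQb' := S1_NormT_bot s hQb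
  have hn' : s * n * s⁻¹ ∈ (S1_NormT_cj s Q).inertia (AbsGal K) := S1_NormT_inertia hn
  have hnV' := hinV _ hQ' hQ2' hn'
  have hnU' := hVU hnV'
  have hψconj : ψ (s * n * s⁻¹) = ψ n := by
    have h3 := hψ.2.2 (s * n) (U.mul_mem hs hnU) s⁻¹ (U.inv_mem hs)
    have h4 := hψ.2.2 s hs n hnU
    have h5 := hψ.2.2 s hs s⁻¹ (U.inv_mem hs)
    have h6 := hψ.2.2 1 U.one_mem 1 U.one_mem
    rw [mul_one] at h6
    rw [mul_inv_cancel] at h5
    rw [h3, h4]
    generalize ψ s = x1 at *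
    generalize ψ s⁻¹ = x2 at *
    generalize ψ n = x3 at *
    generalize ψ 1 = x4 at *
    clear h3 h4
    revert x1 x2 x3 x4
    decide
  have hram := ram_iff hfixU hQ hQ2 (v := S1_NormT_pl U Q hQ hQb) rfl
    ((hinV _ hQ hQ2).trans hVU) hb0 hb
  have hram1 := ram_iff hfixV hQ hQ2 (v := S1_NormT_pl V Q hQ hQb) rfl (hinV _ hQ hQ2) hyy0 ht'
  have hram2 := ram_iff hfixV hQ' hQ2' (v := S1_NormT_pl V _ hQ' hQb') rfl (hinV _ hQ' hQ2')
    hyy0 ht'
  have hval1 := hval (S1_NormT_pl V Q hQ hQb) (fun h3 => hQ2 ((htwoV _ _ _).1 h3))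
  have hval2 := hval (S1_NormT_pl V _ hQ' hQb') (fun h3 => hQ2' ((htwoV _ _ _).1 h3))
  have hplQ : S1_NormT_pl U _ hQ' hQb' = S1_NormT_pl U Q hQ hQb :=
    HeightOneSpectrum.ext (S1_NormT_comap hs Q)
  have hone : IsSquare (1 : WithZero (Multiplicative ℤ)) := ⟨1, (one_mul 1).symm⟩
  by_cases hvR : S1_NormT_pl U Q hQ hQb ∈ R
  · -- the two primes of `Fx V` are different
    have hdiff : S1_NormT_pl V Q hQ hQb ≠ S1_NormT_pl V _ hQ' hQb' := by
      intro h3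
      have h4 : Q.comap (algebraMap (𝓞 (Fx V)) (𝓞 (AlgebraicClosure K))) =
          (S1_NormT_cj s Q).comap (algebraMap (𝓞 (Fx V)) (𝓞 (AlgebraicClosure K))) :=
        congrArg HeightOneSpectrum.asIdeal h3
      obtain ⟨g, hg, hgQ⟩ := S1_NormT_trans hfixV hQ hQ' h4
      have h5 : S1_NormT_cj (g⁻¹ * s) Q = Q := by
        rw [← S1_NormT_mul, hgQ, S1_NormT_mul, inv_mul_cancel, S1_NormT_one]
      have h6 : g⁻¹ * s ∈ V := by
        refine h Q hQ hQ2 ?_ ?_ ⟨S1_NormT_stab h5, U.mul_mem (U.inv_mem (hVU hg)) hs⟩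
        · obtain ⟨l, hlT, hl⟩ := hRT _ hvR
          have h7 : (l : 𝓞 (Fx U)) ∈ Q.comap (algebraMap (𝓞 (Fx U)) (𝓞 (AlgebraicClosure K))) := hl
          rw [Ideal.mem_comap, map_natCast] at h7
          exact ⟨l, hlT, h7⟩
        · by_contra hcon
          push Not at hcon
          apply hvR.2
          refine hram.1 (fun m hm => ?_)
          have h7 := hcon m hm
          rw [hψt] at h7
          exact ((S1_NormT_act (hVU (hinV _ hQ hQ2 hm))).1).1 h7
      apply hs'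
      have h7 := V.mul_mem hg h6
      rwa [mul_inv_cancel_left] at h7
    have hmv : ∀ (Q₁ : Ideal (𝓞 (AlgebraicClosure K))) (hQ₁ : Q₁.IsPrime) (hQ₁b : Q₁ ≠ ⊥),
        (2 : 𝓞 (AlgebraicClosure K)) ∉ Q₁ → S1_NormT_pl U Q₁ hQ₁ hQ₁b ∈ R →
        ∃ m ∈ Q₁.inertia (AbsGal K), m t ≠ t := by
      intro Q₁ hQ₁ hQ₁b hQ₁2 h3
      by_contra hcon
      push Not at hcon
      exact h3.2 ((ram_iff hfixU hQ₁ hQ₁2 (v := S1_NormT_pl U Q₁ hQ₁ hQ₁b) rfl
        ((hinV _ hQ₁ hQ₁2).trans hVU) hb0 hb).1 hcon)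
    obtain ⟨u, hu, huP⟩ := S1_NormT_trans hfixU hQ (hP (S1_NormT_pl U Q hQ hQb))
      (hPv (S1_NormT_pl U Q hQ hQb)).symm
    by_cases huV : u ∈ V
    · have hw1 : w (S1_NormT_pl U Q hQ hQb) = S1_NormT_pl V Q hQ hQb := by
        apply HeightOneSpectrum.ext
        show (P (S1_NormT_pl U Q hQ hQb)).comap _ = Q.comap _
        rw [huP]
        exact S1_NormT_comap huV Q
      have hfix2 : ∀ m ∈ (S1_NormT_cj s Q).inertia (AbsGal K), m t' = t' := by
        apply hram2.2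
        rw [hval2.1]
        · exact hone
        · intro v hv h3
          have h4 := hplUV v _ hQ' hQb' h3
          rw [hplQ] at h4
          rw [h4, hw1] at h3
          exact hdiff h3
      have hmv' : ∃ m ∈ Q.inertia (AbsGal K), m t' ≠ t' := by
        by_contra hcon
        push Not at hcon
        exact hval1.2 _ hvR hw1 (hram1.1 hcon)
      have huniq := inertia_uniq hQ hQ2 ht0 ht'0 (fun m hm => hUsgn m (hVU (hinV _ hQ hQ2 hm)))
        (fun m hm => hVsgn m (hinV _ hQ hQ2 hm)) (hmv Q hQ hQb hQ2 hvR) hmv' hn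
      have e1 : PA.act2 V t' (s * n * s⁻¹) = 0 := ((S1_NormT_act hnV').1).2 (hfix2 _ hn')
      rw [e1, add_zero, hψt]
      by_cases h3 : n t = t
      · rw [((S1_NormT_act hnU).1).2 h3, ((S1_NormT_act hnV).1).2 (huniq.1 h3)]
      · rw [((S1_NormT_act hnU).2).2 h3, ((S1_NormT_act hnV).2).2 (fun h4 => h3 (huniq.2 h4))]
    · have hus : u * s⁻¹ ∈ V := PA.I2.div_mem h2 hu hs huV hs'
      have hw2' : w (S1_NormT_pl U Q hQ hQb) = S1_NormT_pl V _ hQ' hQb' := by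
        apply HeightOneSpectrum.ext
        show (P (S1_NormT_pl U Q hQ hQb)).comap _ = (S1_NormT_cj s Q).comap _
        have h3 : S1_NormT_cj u Q = S1_NormT_cj (u * s⁻¹) (S1_NormT_cj s Q) := by
          rw [S1_NormT_mul, inv_mul_cancel_right]
        rw [huP, h3]
        exact S1_NormT_comap hus _
      have hfix1 : ∀ m ∈ Q.inertia (AbsGal K), m t' = t' := by
        apply hram1.2
        rw [hval1.1]
        · exact hone
        · intro v hv h3
          have h4 := hplUV v _ hQ hQb h3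
          rw [h4, hw2'] at h3
          exact hdiff h3.symm
      have hmv' : ∃ m ∈ (S1_NormT_cj s Q).inertia (AbsGal K), m t' ≠ t' := by
        by_contra hcon
        push Not at hcon
        exact hval2.2 _ hvR hw2' (hram2.1 hcon)
      have huniq := inertia_uniq hQ' hQ2' ht0 ht'0 (fun m hm => hUsgn m (hVU (hinV _ hQ' hQ2' hm)))
        (fun m hm => hVsgn m (hinV _ hQ' hQ2' hm))
        (hmv _ hQ' hQb' hQ2' (by rw [hplQ]; exact hvR)) hmv' hn'
      have e1 : PA.act2 V t' n = 0 := ((S1_NormT_act hnV).1).2 (hfix1 _ hn)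
      rw [e1, zero_add, ← hψconj, hψt]
      by_cases h3 : (s * n * s⁻¹) t = t
      · rw [((S1_NormT_act hnU').1).2 h3, ((S1_NormT_act hnV').1).2 (huniq.1 h3)]
      · rw [((S1_NormT_act hnU').2).2 h3, ((S1_NormT_act hnV').2).2 (fun h4 => h3 (huniq.2 h4))]
  · have hsq : IsSquare ((S1_NormT_pl U Q hQ hQb).valuation (Fx U) b) := by
      by_contra h3
      exact hvR ⟨fun h4 => hQ2 ((htwoU _ _ _).1 h4), h3⟩
    have e0 : ψ n = 0 := by
      rw [hψt]
      exact ((S1_NormT_act hnU).1).2 (hram.2 hsq n hn)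
    have e1 : PA.act2 V t' n = 0 := by
      refine ((S1_NormT_act hnV).1).2 (hram1.2 ?_ n hn)
      rw [hval1.1]
      · exact hone
      · intro v hv h3
        rw [hplUV v _ hQ hQb h3] at hv
        exact hvR hv
    have e2 : PA.act2 V t' (s * n * s⁻¹) = 0 := by
      refine ((S1_NormT_act hnV').1).2 (hram2.2 ?_ _ hn')
      rw [hval2.1]
      · exact hone
      · intro v hv h3
        rw [hplUV v _ hQ' hQb' h3, hplQ] at hv
        exact hvR hv
    rw [e0, e1, e2, add_zero]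

end Pool.Agent.Work.MP_787500_nt.GP
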