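import Mathlib
import Pool.Agent.Work.MP_787500_nt.GP.LT3_Gen
import Pool.Agent.Work.MP_787500_nt.GP.G1_Iota
import Pool.Agent.Work.MP_787500_nt.PA.Symb

/-!
# Module S2_LOCSYMB (size M): the local symbol at a prime in `T`

Suppose `g ∈ stabD Q ⊓ U`, `g ∉ V`, and let `τ ∈ Q.inertia` with `ψ τ ≠ 0`, so `ψ τ = 1`. `Q.inertia ≤ V` (`V` contains a
`Good` subgroup, `2 ∉ Q`), `Q.inertia ≤ stabD Q`. Let `z` be smooth with `chi V U x * ψ y = z x + z y + z (x y)` on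
`stabD Q ⊓ U`, `W ≤ V` a member of the system of `T` under which `z` and `ψ` are invariant. Choose `r`, `a` with
`IsKum r a`, `r 0 = l` (`exists_roots`, `exists_isKum`) and `n` for `W` as in `tame_sep`. Let `N` be an odd natural number
with `2 ^ (n + 1) ∣ cyc g - N`. Then `g τ g⁻¹ τ ^ (-N) ∈ W`: `cyc` of it is 1 (`cyc_inertia`), and `a (g τ g⁻¹) = cyc g a τ`,
`a (τ ^ N) = N a τ` (`IsKum.coc`). So `z (g τ) = z (τ ^ N g)` (`g τ = (g τ g⁻¹ τ ^ (-N)) τ ^ N g`, `W` normal).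
Evaluate `F x y = chi V U x * ψ y` in
`F g τ + F (τ ^ N) g + ∑ (i from 1 to N - 1) F (τ ^ i) τ`: with `F = δ z` this is
`(z g + z τ + z (g τ)) + (z (τ ^ N) + z g + z (τ ^ N g)) + ∑ (z (τ ^ i) + z τ + z (τ ^ (i + 1))) = (N + 1) z τ = 0`
in `ZMod 2` (`N` odd); on the other hand it is `1 * 1 + 0 + 0 = 1` (`chi V U (τ ^ i) = 0`). Contradiction.
-/

set_option autoImplicit false
set_option linter.unusedSectionVars false

namespace Pool.Agent.Work.MP_787500_nt.GP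

open IsDedekindDomain NumberField
open Pool.Agent.Work.MP_787500_nt.PA (TwoSys Sm1 Sm2 homs Coc Cob IsChar goodSys core cyc Opn SU)
open Pool.Agent.Work.MP_787500_nt.Gn (GoodG)

universe u

variable {K : Type u} [Field K] [NumberField K]

theorem loc_symb {T : Finset ℕ} {V U : Subgroup (AbsGal K)} (hVU : V ≤ U)
    (hV : Opn (goodSys K) V) (h2 : V.relIndex U = 2) {ψ : AbsGal K → ZMod 2}
    (hψ : ψ ∈ homs (sysT K T) U) {Q : Ideal (𝓞 (AlgebraicClosure K))} (hQ : Q.IsPrime)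
    (hQ2 : (2 : 𝓞 (AlgebraicClosure K)) ∉ Q) {l : ℕ} (hl : l.Prime) (hlT : l ∈ T)
    (hlQ : (l : 𝓞 (AlgebraicClosure K)) ∈ Q) (hn : ∃ n ∈ Q.inertia (AbsGal K), ψ n ≠ 0)
    (hc : Cob (sysT K T) (stabD Q ⊓ U) (PA.cup (PA.chi V U) ψ)) : stabD Q ⊓ U ≤ V := by
  classical
  intro g hg
  by_contra hgV
  obtain ⟨WV, hWV, hWVV⟩ := hV
  have hWV' : PA.Good WV := hWV
  obtain ⟨τ, hτ, hψτ⟩ := hn
  have hψτ1 : ψ τ = 1 := by
    have : ∀ a : ZMod 2, a ≠ 0 → a = 1 := by decide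
    exact this _ hψτ
  have hτV : τ ∈ V := hWVV (hWV'.inertia Q hQ hQ2 hτ)
  have hτD : τ ∈ stabD Q := by
    rw [mem_stabD]
    intro x
    have h1 : τ • x - x ∈ Q := hτ x
    constructor
    · intro hx
      have := Q.add_mem h1 hx
      rwa [sub_add_cancel] at this
    · intro hx
      have := Q.sub_mem hx h1
      rwa [sub_sub_cancel] at this
  obtain ⟨z, ⟨W, hW, hzW⟩, hz⟩ := hc
  have hWT : GoodT K T W := hW
  have hWn : W.Normal := Gn.GoodG.normal hWT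
  -- the Kummer cocycle of `l`
  obtain ⟨r, hr0, hr⟩ := exists_roots (l : AlgebraicClosure K)
  have hl0 : (l : AlgebraicClosure K) ≠ 0 := Nat.cast_ne_zero.2 hl.ne_zero
  obtain ⟨a, ha⟩ := exists_isKum (K := K) (r := r) (by rw [hr0]; exact hl0)
    (fun g => by rw [hr0, map_natCast]) hr
  obtain ⟨n, hn⟩ := tame_sep hQ hl hlQ hQ2 ha hr0 (Gn.GoodG.isOpen hWT) hWn
    (fun x => Gn.GoodG.pow hWT x trivial)
  have hcm : ∀ x y : AbsGal K, cyc (x * y) = cyc x * cyc y := PA.isChar_cyc.mul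
  have hc1 : cyc (1 : AbsGal K) = 1 := PA.isChar_cyc.one
  have ha1 : a 1 = 0 := by
    have := ha.coc 1 1
    rw [mul_one, hc1, one_mul] at this
    exact left_eq_add.1 this
  have hcτ : cyc τ = 1 := cyc_inertia hQ hQ2 hτ
  have hcτN : ∀ i : ℕ, cyc (τ ^ i) = 1 ∧ a (τ ^ i) = i * a τ := by
    intro i
    induction i with
    | zero =>
      rw [pow_zero]
      exact ⟨hc1, by rw [ha1]; simp⟩
    | succ i ih =>
      rw [pow_succ]
      refine ⟨by rw [hcm, ih.1, hcτ, one_mul], ?_⟩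
      rw [ha.coc, ih.1, ih.2]
      push_cast
      ring
  -- an odd number close to `cyc g`
  have hcu : cyc g * cyc g⁻¹ = 1 := by rw [← hcm, mul_inv_cancel, hc1]
  obtain ⟨N, hN⟩ : ∃ N : ℕ, (2 : ℤ_[2]) ^ (n + 1) ∣ cyc g - N := by
    refine ⟨(cyc g).appr (n + 1), ?_⟩
    have := PadicInt.appr_spec (n + 1) (cyc g)
    rw [Ideal.mem_span_singleton] at this
    exact_mod_cast this
  have h2nu : ¬ IsUnit (2 : ℤ_[2]) := by
    have := (PadicInt.prime_p (p := 2)).not_unit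
    exact_mod_cast this
  have hNodd : Odd N := by
    rw [← Nat.not_even_iff_odd]
    rintro ⟨k, hk⟩
    apply h2nu
    have h3 : (2 : ℤ_[2]) ∣ cyc g := by
      have h4 : (2 : ℤ_[2]) ∣ cyc g - N := (dvd_pow_self _ (Nat.succ_ne_zero n)).trans hN
      have h5 : (2 : ℤ_[2]) ∣ (N : ℤ_[2]) := ⟨k, by rw [hk]; push_cast; ring⟩
      have := dvd_add h4 h5
      rwa [sub_add_cancel] at this
    exact isUnit_of_dvd_unit h3 (IsUnit.of_mul_eq_one _ hcu)
  have hw : g * τ * g⁻¹ * (τ ^ N)⁻¹ ∈ W := by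
    have hD : g * τ * g⁻¹ * (τ ^ N)⁻¹ ∈ stabD Q :=
      (stabD Q).mul_mem ((stabD Q).mul_mem ((stabD Q).mul_mem hg.1 hτD) ((stabD Q).inv_mem hg.1))
        ((stabD Q).inv_mem ((stabD Q).pow_mem hτD N))
    have hcyi : cyc (τ ^ N)⁻¹ = 1 := by
      have := hcm (τ ^ N) (τ ^ N)⁻¹
      rw [mul_inv_cancel, hc1, (hcτN N).1, one_mul] at this
      exact this.symm
    have hcc : cyc (g * τ * g⁻¹) = 1 := by
      rw [hcm, hcm, hcτ, mul_one, hcu]
    have haa : a (g * τ * g⁻¹) = cyc g * a τ := by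
      have h3 : a g + cyc g * a g⁻¹ = 0 := by
        rw [← ha.coc, mul_inv_cancel, ha1]
      rw [ha.coc, ha.coc, hcm, hcτ, mul_one]
      linear_combination h3
    have hai : a (τ ^ N)⁻¹ = -(N * a τ) := by
      have h3 := ha.coc (τ ^ N) (τ ^ N)⁻¹
      rw [mul_inv_cancel, ha1, (hcτN N).1, (hcτN N).2, one_mul] at h3
      linear_combination -h3
    apply hn _ hD
    · rw [hcm, hcc, hcyi, one_mul, sub_self]
      exact dvd_zero _
    · rw [ha.coc, hcc, haa, hai]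
      have h3 : cyc g * a τ + 1 * -(N * a τ) = (cyc g - N) * a τ := by ring
      rw [h3]
      exact Dvd.dvd.mul_right ((pow_dvd_pow _ (Nat.le_succ n)).trans hN) _
  have hzeq : z (g * τ) = z (τ ^ N * g) := by
    have h3 : (τ ^ N * g)⁻¹ * (g * τ * g⁻¹ * (τ ^ N)⁻¹) * (τ ^ N * g) ∈ W := by
      have := hWn.conj_mem _ hw (τ ^ N * g)⁻¹
      rwa [inv_inv] at this
    have h4 := hzW (τ ^ N * g) _ h3
    rw [← h4]
    congr 1
    group
  -- the values of the cup product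
  have hτU : τ ∈ stabD Q ⊓ U := ⟨hτD, hVU hτV⟩
  have hchi0 : ∀ x ∈ V, PA.chi V U x = 0 := by
    intro x hx
    unfold PA.chi
    rw [if_neg (fun h => h.2 hx)]
  have hchi1 : PA.chi V U g = 1 := by
    unfold PA.chi
    rw [if_pos ⟨hg.2, hgV⟩]
  have e1 : (1 : ZMod 2) = z g + z τ + z (g * τ) := by
    rw [← hz g hg τ hτU]
    unfold PA.cup
    rw [hchi1, hψτ1, one_mul]
  have e0 : ∀ i : ℕ, ∀ y ∈ stabD Q ⊓ U, z (τ ^ i) + z y + z (τ ^ i * y) = 0 := by
    intro i y hy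
    rw [← hz (τ ^ i) ((stabD Q ⊓ U).pow_mem hτU i) y hy]
    unfold PA.cup
    rw [hchi0 _ (V.pow_mem hτV i), zero_mul]
  have hadd : ∀ x : ZMod 2, x + x = 0 := by decide
  have e2 : ∀ i : ℕ, z (τ ^ i) = i * z τ := by
    intro i
    induction i with
    | zero =>
      have h3 := e0 0 τ hτU
      rw [pow_zero, one_mul, add_assoc, hadd, add_zero] at h3
      rw [pow_zero, h3]
      simp
    | succ i ih =>
      have h3 := e0 i τ hτU
      rw [← pow_succ, ih] at h3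
      have h4 : ∀ x y w : ZMod 2, x * y + y + w = 0 → w = (x + 1) * y := by decide
      rw [h4 _ _ _ h3]
      push_cast
      ring
  have hN1 : ((N : ℕ) : ZMod 2) = 1 := by
    obtain ⟨k, hk⟩ := hNodd
    rw [hk]
    push_cast
    have : (2 : ZMod 2) = 0 := by decide
    rw [this]
    simp
  have e3 := e0 N g hg
  rw [e2 N, hN1, one_mul, ← hzeq] at e3
  have h5 : ∀ x y w : ZMod 2, 1 = x + y + w → y + x + w = 0 → False := by decide
  exact h5 _ _ _ e1 e3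

end Pool.Agent.Work.MP_787500_nt.GP
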