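import Mathlib
import Pool.Agent.Work.MP_787500_nt.GP.S1_NormT
import Pool.Agent.Work.MP_787500_nt.GP.S2_LocSymb
import Pool.Agent.Work.MP_787500_nt.GP.S3_VLoc
import Pool.Agent.Work.MP_787500_nt.PA.ResKer

/-!
# Module S4_STEP (size M): one step of the climb

`V ≤ U` of index 2 in the tower, `f` is `Cob` on `V`. By `res_cob` (`PA/ResKer.lean`, for the system of `T`) there is
`ψ ∈ homs (sysT K T) U` with `Cob U (f + cup (chi V U) ψ)`. For `Q` containing `l ∈ T`: `f` is `Cob` on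
`stabD Q ⊓ U`, so `cup (chi V U) ψ` is; by `loc_symb`, if `ψ` is not zero on `Q.inertia` then `stabD Q ⊓ U ≤ V`. By
`norm_T` `ψ = cor V U s ψ' + ω`. `cup (chi V U) (cor V U s ψ')` is `Cob` on `U` (`cup_chi_iff` for the system of
`T`). So `Cob U (f + cup (chi V U) ω)`, `ω ∈ homs (goodSys K) U`. On `decomp ι ⊓ U` `f` is `Cob`, so
`α = cup (chi V U) ω`, which is a cocycle for `goodSys K` on `U`, is `Cob` there, and by `v_cob` it is `Cob (goodSys K) U`, so
`Cob (sysT K T) U` (`Good.goodT`). So `f` is.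
-/

set_option autoImplicit false
set_option linter.unusedSectionVars false

namespace Pool.Agent.Work.MP_787500_nt.GP

open IsDedekindDomain NumberField
open Pool.Agent.Work.MP_787500_nt.PA (TwoSys Sm1 Sm2 homs Coc Cob IsChar goodSys core cyc Opn SU)
open Pool.Agent.Work.MP_787500_nt.Gn (GoodG)

universe u

variable {K : Type u} [Field K] [NumberField K]

private theorem S4_Step_mono {G : Type*} [Group G] {S : TwoSys G} {C C' : Subgroup G}
    (h : C' ≤ C) {f : G → G → ZMod 2} (hf : Cob S C f) : Cob S C' f := by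
  obtain ⟨z, hz, h1⟩ := hf
  exact ⟨z, hz, fun g hg k hk => h1 g (h hg) k (h hk)⟩

private theorem S4_Step_congr {G : Type*} [Group G] {S : TwoSys G} {C : Subgroup G}
    {f f' : G → G → ZMod 2} (h : ∀ g k, f' g k = f g k) (hf : Cob S C f) : Cob S C f' := by
  obtain ⟨z, hz, h1⟩ := hf
  exact ⟨z, hz, fun g hg k hk => by rw [h, h1 g hg k hk]⟩

theorem sha_step {q : ℕ} {s : K} (hK : IsBase K q s) {v : HeightOneSpectrum (𝓞 K)}
    (hv : (2 : 𝓞 K) ∈ v.asIdeal)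
    (ι : AlgebraicClosure K →ₐ[K] AlgebraicClosure (v.adicCompletion K)) {T : Finset ℕ}
    (hT : ∀ l ∈ T, SplitPr q l) {f : AbsGal K → AbsGal K → ZMod 2} (hf : Coc (sysT K T) ⊤ f)
    (h1 : Cob (sysT K T) (decomp ι) f)
    (h2 : ∀ Q : Ideal (𝓞 (AlgebraicClosure K)), Q.IsPrime →
      (∃ l ∈ T, (l : 𝓞 (AlgebraicClosure K)) ∈ Q) → Cob (sysT K T) (stabD Q) f)
    {V U : Subgroup (AbsGal K)} (hVU : V ≤ U) (hV : Opn (goodSys K) V) (hi : V.relIndex U = 2)
    (hc : Cob (sysT K T) V f) : Cob (sysT K T) U f := by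
  obtain ⟨WV, hWV, hWVV⟩ := id hV
  have hVT : Opn (sysT K T) V := ⟨WV, Good.goodT hWV T, hWVV⟩
  have hU : Opn (goodSys K) U := ⟨WV, hWV, hWVV.trans hVU⟩
  have hadd : ∀ x : ZMod 2, x + x = 0 := by decide
  obtain ⟨ψ, hψ, hcψ⟩ := PA.res_cob hVU hVT hi
    (⟨hf.1, fun g _ h _ k _ => hf.2 g trivial h trivial k trivial⟩ : Coc (sysT K T) U f) hc
  obtain ⟨s', hs, hs'⟩ : ∃ s' ∈ U, s' ∉ V := by
    by_contra hcon
    push Not at hcon
    have h3 : V.relIndex U = 1 := Subgroup.relIndex_eq_one.2 hcon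
    omega
  obtain ⟨ψ', hψ', ω, hω, hdec⟩ := norm_T hK hVU hV hi hs hs' hψ (by
    rintro Q hQ hQ2 ⟨l, hlT, hlQ⟩ hn
    refine loc_symb hVU hV hi hψ hQ hQ2 (hT l hlT).1 hlT hlQ hn ?_
    have e1 := S4_Step_mono (inf_le_right : stabD Q ⊓ U ≤ U) hcψ
    have e2 := S4_Step_mono (inf_le_left : stabD Q ⊓ U ≤ stabD Q) (h2 Q hQ ⟨l, hlT, hlQ⟩)
    refine S4_Step_congr (fun g k => ?_) (PA.Cob.add' e1 e2)
    have : ∀ x y : ZMod 2, y = x + y + x := by decide
    exact this _ _)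
  have hωT : ω ∈ homs (sysT K T) U := homs_mono hω
  have hcor : PA.cor V U s' ψ' ∈ homs (sysT K T) U := by
    have h3 : PA.cor V U s' ψ' = ψ - ω := by
      rw [hdec, add_sub_cancel_right]
    rw [h3]
    exact (homs (sysT K T) U).sub_mem hψ hωT
  have e3 : Cob (sysT K T) U (PA.cup (PA.chi V U) (PA.cor V U s' ψ')) :=
    (PA.cup_chi_iff hVU hVT hi hs hs' hcor).2 ⟨ψ', hψ', rfl⟩
  have e4 : Cob (sysT K T) U (fun g k => f g k + PA.cup (PA.chi V U) ω g k) := by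
    refine S4_Step_congr (fun g k => ?_) (PA.Cob.add' hcψ e3)
    have h3 : ψ k = PA.cor V U s' ψ' k + ω k := congrFun hdec k
    unfold PA.cup
    rw [h3]
    have : ∀ x y w z : ZMod 2, x + y * w = x + y * (z + w) + y * z := by decide
    exact this _ _ _ _
  have hcoc : Coc (goodSys K) U (PA.cup (PA.chi V U) ω) := by
    obtain ⟨⟨W, hW, h3⟩, -, h4⟩ := PA.chi_mem hVU hV hi
    obtain ⟨⟨W', hW', h3'⟩, -, h4'⟩ := hω
    refine ⟨⟨W ⊓ W', (goodSys K).inf hW hW', fun g h w hw w' hw' => ?_⟩,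
      fun g hg h hh k hk => ?_⟩
    · unfold PA.cup
      rw [h3 g w hw.1, h3' h w' hw'.2]
    · unfold PA.cup
      rw [h4 g hg h hh, h4' h hh k hk]
      ring
  have e5 : Cob (sysT K T) (decomp ι ⊓ U) (PA.cup (PA.chi V U) ω) := by
    refine S4_Step_congr (fun g k => ?_) (PA.Cob.add' (S4_Step_mono
      (inf_le_right : decomp ι ⊓ U ≤ U) e4) (S4_Step_mono
      (inf_le_left : decomp ι ⊓ U ≤ decomp ι) h1))
    have : ∀ x y : ZMod 2, y = x + y + x := by decide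
    exact this _ _
  have e6 : Cob (sysT K T) U (PA.cup (PA.chi V U) ω) := by
    obtain ⟨z, ⟨W, hW, hz⟩, h3⟩ := v_cob hK hv ι hU hcoc e5
    exact ⟨z, ⟨W, Good.goodT hW T, hz⟩, h3⟩
  refine S4_Step_congr (fun g k => ?_) (PA.Cob.add' e4 e6)
  have : ∀ x y : ZMod 2, x = x + y + y := by decide
  exact this _ _

end Pool.Agent.Work.MP_787500_nt.GP
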