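import Mathlib
import Pool.Agent.Work.MP_787500_nt.GP.S4_Step
import Pool.Agent.Work.MP_787500_nt.GP.C8_FinLev
import Pool.Agent.Work.MP_787500_nt.PA.Chain

/-!
# Module S5_SHA (size M): locally trivial 2-cocycles are trivial

* `sha_T`: by `fin_level` there is a `Good` subgroup `W` with `Cob (sysT K T) W f`. For all `U ≥ W`:
  `Cob (sysT K T) U f`, by induction on `W.relIndex U`: `exists_between` for `goodSys K` and `sha_step`.
* `cob_conj`: `f` a cocycle on the whole group, `f = δ z` on `C`. For `x, y ∈ g C g⁻¹`: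
  `f (g⁻¹ x g) (g⁻¹ y g) = f x y + w x + w y + w (x y)` with `w x = f g⁻¹ x + f (g⁻¹ x g) g⁻¹` up to constants (check: the
  standard homotopy for conjugation); `w` is smooth. So `f = δ (z (g⁻¹ · g) + w)` there.
* `above_l`: the prime `l` has two primes `p`, `p'` in `K` (`LT3_Gen.lean`, (1)), exchanged by `c`; `P ∩ 𝓞 K = p`
  say, and `c P` lies over `p'`. `Q` lies over `p` or `p'`, so it is conjugate to `P` or to `c P` under `AbsGal K`
  (`exists_smul_eq`), and `stabD (c P) = κ (stabD P)` (`κ = c · c`, so `κ x ∈ stabD P` iff `x ∈ stabD (c P)`).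
-/

set_option autoImplicit false
set_option linter.unusedSectionVars false

namespace Pool.Agent.Work.MP_787500_nt.GP

open IsDedekindDomain NumberField
open Pool.Agent.Work.MP_787500_nt.PA (TwoSys Sm1 Sm2 homs Coc Cob IsChar goodSys core cyc Opn SU)
open Pool.Agent.Work.MP_787500_nt.Gn (GoodG)

universe u

variable {K : Type u} [Field K] [NumberField K]

theorem sha_T {q : ℕ} {s : K} (hK : IsBase K q s) {v : HeightOneSpectrum (𝓞 K)}
    (hv : (2 : 𝓞 K) ∈ v.asIdeal)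
    (ι : AlgebraicClosure K →ₐ[K] AlgebraicClosure (v.adicCompletion K)) {T : Finset ℕ}
    (hT : ∀ l ∈ T, SplitPr q l) {f : AbsGal K → AbsGal K → ZMod 2} (hf : Coc (sysT K T) ⊤ f)
    (h1 : Cob (sysT K T) (decomp ι) f)
    (h2 : ∀ Q : Ideal (𝓞 (AlgebraicClosure K)), Q.IsPrime →
      (∃ l ∈ T, (l : 𝓞 (AlgebraicClosure K)) ∈ Q) → Cob (sysT K T) (stabD Q) f) :
    Cob (sysT K T) ⊤ f := by
  obtain ⟨W, hW, hcW⟩ := fin_level hK T hf
  have key : ∀ n : ℕ, ∀ U : Subgroup (AbsGal K), W ≤ U → W.relIndex U = n →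
      Cob (sysT K T) U f := by
    intro n
    induction n using Nat.strong_induction_on with
    | _ n ih =>
      intro U hWU hn
      by_cases hne : W = U
      · rw [← hne]
        exact hcW
      · obtain ⟨V, hWV, hVU, hi, hlt⟩ := PA.exists_between (S := goodSys K) hW hWU hne
        exact sha_step hK hv ι hT hf h1 h2 hVU ⟨W, hW, hWV⟩ hi (ih _ (hn ▸ hlt) V hWV rfl)
  exact key _ ⊤ le_top rfl

private theorem S5_Sha_aux {P Q : Ideal (𝓞 (AlgebraicClosure K))}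
    (ρ : 𝓞 (AlgebraicClosure K) → 𝓞 (AlgebraicClosure K)) (hsub : ∀ y z, ρ (y - z) = ρ y - ρ z)
    (hsurj : Function.Surjective ρ) (hρ : ∀ y, y ∈ Q ↔ ρ y ∈ P) (x x' : AbsGal K)
    (hx : ∀ y, ρ (x • y) = x' • ρ y) :
    (x ∈ stabD Q ↔ x' ∈ stabD P) ∧
      (x ∈ Q.inertia (AbsGal K) ↔ x' ∈ P.inertia (AbsGal K)) := by
  refine ⟨?_, ?_⟩
  · rw [mem_stabD, mem_stabD]
    constructor
    · intro h y
      obtain ⟨y, rfl⟩ := hsurj y
      rw [← hρ, ← hx, ← hρ]
      exact h y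
    · intro h y
      rw [hρ, hρ (x • y), hx]
      exact h _
  · constructor
    · intro h y
      obtain ⟨y, rfl⟩ := hsurj y
      show x' • ρ y - ρ y ∈ P
      rw [← hx, ← hsub, ← hρ]
      exact h y
    · intro h y
      show x • y - y ∈ Q
      rw [hρ, hsub, hx]
      exact h _

private theorem S5_Sha_int {l : ℕ} (hl : l.Prime) {P : Ideal (𝓞 (AlgebraicClosure K))}
    (hP : P.IsPrime) (hlP : (l : 𝓞 (AlgebraicClosure K)) ∈ P) (m : ℤ) :
    (m : 𝓞 (AlgebraicClosure K)) ∈ P ↔ (l : ℤ) ∣ m := by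
  constructor
  · intro hm
    by_contra hnd
    have hp : Prime (l : ℤ) := Nat.prime_iff_prime_int.1 hl
    obtain ⟨a, b, hab⟩ := (hp.coprime_iff_not_dvd).2 hnd
    apply hP.ne_top
    rw [Ideal.eq_top_iff_one]
    have h1 : (1 : 𝓞 (AlgebraicClosure K)) = (a : 𝓞 (AlgebraicClosure K)) * l + b * m := by
      have := congrArg (Int.cast : ℤ → 𝓞 (AlgebraicClosure K)) hab
      push_cast at this
      exact this.symm
    rw [h1]
    exact P.add_mem (P.mul_mem_left _ hlP) (P.mul_mem_left _ hm)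
  · rintro ⟨k, rfl⟩
    push_cast
    exact P.mul_mem_right _ hlP

theorem cob_conj {G : Type*} [Group G] {S : TwoSys G} {f : G → G → ZMod 2} (hf : Coc S ⊤ f)
    {C C' : Subgroup G} (g : G) (hC : ∀ x, x ∈ C' → g⁻¹ * x * g ∈ C) (h : Cob S C f) :
    Cob S C' f := by
  obtain ⟨⟨W, hW, hfW⟩, hcoc⟩ := hf
  obtain ⟨z, ⟨W', hW', hzW⟩, hz⟩ := h
  have hn : (W ⊓ W').Normal := S.normal (S.inf hW hW')
  refine ⟨fun x => z (g⁻¹ * x * g) + (f x g + f g (g⁻¹ * x * g)), ⟨W ⊓ W', S.inf hW hW',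
    fun x w hw => ?_⟩, fun x hx y hy => ?_⟩
  · have h1 : g⁻¹ * w * g ∈ W ⊓ W' := by
      have := hn.conj_mem w hw g⁻¹
      rwa [inv_inv] at this
    have h2 : g⁻¹ * (x * w) * g = g⁻¹ * x * g * (g⁻¹ * w * g) := by group
    simp only [h2]
    rw [hzW _ _ h1.2]
    have h3 := hfW x g w hw.1 1 W.one_mem
    rw [mul_one] at h3
    have h4 := hfW g (g⁻¹ * x * g) 1 W.one_mem _ h1.1
    rw [mul_one] at h4
    rw [h3, h4]
  · have hx' := hC x hx
    have hy' := hC y hy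
    have h0 := hz _ hx' _ hy'
    have hxy : g⁻¹ * x * g * (g⁻¹ * y * g) = g⁻¹ * (x * y) * g := by group
    rw [hxy] at h0
    have e1 := hcoc x trivial y trivial g trivial
    have e2 := hcoc x trivial g trivial (g⁻¹ * y * g) trivial
    have e3 := hcoc g trivial (g⁻¹ * x * g) trivial (g⁻¹ * y * g) trivial
    have h5 : g * (g⁻¹ * y * g) = y * g := by group
    have h6 : g * (g⁻¹ * x * g) = x * g := by group
    rw [h5] at e2
    rw [h6, hxy] at e3
    simp only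
    generalize f x y = a1 at *
    generalize f (x * y) g = a2 at *
    generalize f y g = a3 at *
    generalize f x (y * g) = a4 at *
    generalize f x g = a5 at *
    generalize f (x * g) (g⁻¹ * y * g) = a6 at *
    generalize f g (g⁻¹ * y * g) = a7 at *
    generalize f g (g⁻¹ * x * g) = a8 at *
    generalize f (g⁻¹ * x * g) (g⁻¹ * y * g) = a9 at *
    generalize f g (g⁻¹ * (x * y) * g) = a10 at *
    rw [h0] at e3
    generalize z (g⁻¹ * x * g) = b1 at *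
    generalize z (g⁻¹ * y * g) = b2 at *
    generalize z (g⁻¹ * (x * y) * g) = b3 at *
    have hadd : ∀ x : ZMod 2, x + x = 0 := by decide
    have hneg : ∀ x y : ZMod 2, x = y ↔ x + y = 0 := by decide
    rw [hneg] at e1 e2 e3 ⊢
    have : a1 + (b1 + (a5 + a8) + (b2 + (a3 + a7)) + (b3 + (a2 + a10))) =
        (a1 + a2 + (a3 + a4)) + (a5 + a6 + (a7 + a4)) + (a8 + a6 + (b1 + b2 + b3 + a10)) := by
      have h4 := hadd a4
      have h6 := hadd a6
      linear_combination -h4 - h6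
    rw [this, e1, e2, e3]
    simp

theorem above_l {q : ℕ} {s : K} (hK : IsBase K q s) {l : ℕ} (hl : SplitPr q l)
    {c : AlgebraicClosure K ≃+* AlgebraicClosure K} (hc : PA.IsConj s c) {κ : AbsGal K → AbsGal K}
    (hκ : ∀ (σ : AbsGal K) (x : AlgebraicClosure K), κ σ x = c (σ (c x)))
    {P Q : Ideal (𝓞 (AlgebraicClosure K))} (hP : P.IsPrime)
    (hlP : (l : 𝓞 (AlgebraicClosure K)) ∈ P) (hQ : Q.IsPrime)
    (hlQ : (l : 𝓞 (AlgebraicClosure K)) ∈ Q) :
    ∃ g : AbsGal K, (∀ x, x ∈ stabD Q ↔ g⁻¹ * x * g ∈ stabD P) ∧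
        (∀ x, x ∈ Q.inertia (AbsGal K) ↔ g⁻¹ * x * g ∈ P.inertia (AbsGal K)) ∨
      (∀ x, x ∈ stabD Q ↔ κ (g⁻¹ * x * g) ∈ stabD P) ∧
        (∀ x, x ∈ Q.inertia (AbsGal K) ↔ κ (g⁻¹ * x * g) ∈ P.inertia (AbsGal K)) := by
  have halg : Algebra.IsAlgebraic ℚ (AlgebraicClosure K) := Algebra.IsAlgebraic.trans ℚ K _
  have hcl : IsAlgClosure ℚ (AlgebraicClosure K) := ⟨inferInstance, halg⟩
  have hgal : IsGalois ℚ (AlgebraicClosure K) := IsAlgClosure.isGalois ℚ (AlgebraicClosure K)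
  have hcomap : P.comap (algebraMap (𝓞 ℚ) (𝓞 (AlgebraicClosure K))) =
      Q.comap (algebraMap (𝓞 ℚ) (𝓞 (AlgebraicClosure K))) := by
    ext x
    obtain ⟨m, rfl⟩ : ∃ m : ℤ, x = (m : 𝓞 ℚ) := by
      refine ⟨Rat.ringOfIntegersEquiv x, ?_⟩
      have h3 := Rat.ringOfIntegersEquiv.symm_apply_apply x
      rw [← h3]
      simp
    rw [Ideal.mem_comap, Ideal.mem_comap, map_intCast, S5_Sha_int hl.1 hP hlP,
      S5_Sha_int hl.1 hQ hlQ]
  obtain ⟨σ, hσ⟩ := exists_smul_eq (F := ℚ) P Q hcomap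
  have hsurj : Function.Surjective
      (fun y : 𝓞 (AlgebraicClosure K) => σ⁻¹ • y) := fun y => ⟨σ • y, inv_smul_smul σ y⟩
  have hρ : ∀ y : 𝓞 (AlgebraicClosure K), y ∈ Q ↔ σ⁻¹ • y ∈ P := by
    intro y
    rw [hσ, Ideal.mem_pointwise_smul_iff_inv_smul_mem]
  have hsub : ∀ y z : 𝓞 (AlgebraicClosure K), σ⁻¹ • (y - z) = σ⁻¹ • y - σ⁻¹ • z :=
    fun y z => smul_sub _ _ _
  have hqσ : ∀ x : ℚ, σ (algebraMap ℚ (AlgebraicClosure K) x) = algebraMap ℚ _ x :=
    fun x => σ.commutes x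
  have hK' := hK
  obtain ⟨hK1, hK2, hK3, hK4⟩ := hK
  have hs2 : (algebraMap K (AlgebraicClosure K) s) ^ 2 = -(q : AlgebraicClosure K) := by
    rw [← map_pow, hK2, map_neg, map_natCast]
  have hsσ : σ (algebraMap K (AlgebraicClosure K) s) = algebraMap K (AlgebraicClosure K) s ∨
      σ (algebraMap K (AlgebraicClosure K) s) = -algebraMap K (AlgebraicClosure K) s := by
    apply sq_eq_sq_iff_eq_or_eq_neg.1
    rw [← map_pow, hs2, map_neg, map_natCast]
  -- a ring automorphism fixing the image of `s` is in the group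
  have hmk : ∀ f : AlgebraicClosure K ≃+* AlgebraicClosure K,
      f (algebraMap K (AlgebraicClosure K) s) = algebraMap K (AlgebraicClosure K) s →
      ∃ g : AbsGal K, ∀ x, g x = f x := by
    intro f hf
    refine ⟨AlgEquiv.ofRingEquiv (f := f) (fun x => ?_), fun x => rfl⟩
    obtain ⟨a, b, rfl⟩ := Quad.exists_coords hK1 hK2 hK3.pos x
    rw [map_add, map_mul, map_ratCast, map_ratCast, map_add, map_mul, map_ratCast, map_ratCast, hf]
  rcases hsσ with h | h
  · obtain ⟨g, hg⟩ := hmk (σ : AlgebraicClosure K ≃+* AlgebraicClosure K) h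
    have hg' : ∀ x, g x = σ x := hg
    have hgi : ∀ x, g⁻¹ x = σ⁻¹ x := by
      intro x
      apply g.injective
      have h1 : g (g⁻¹ x) = x := by
        rw [← AlgEquiv.mul_apply, mul_inv_cancel]
        rfl
      have h2 : σ (σ⁻¹ x) = x := by
        rw [← AlgEquiv.mul_apply, mul_inv_cancel]
        rfl
      rw [h1, hg', h2]
    refine ⟨g, Or.inl ?_⟩
    have h3 : ∀ (x : AbsGal K) (y : 𝓞 (AlgebraicClosure K)),
        σ⁻¹ • (x • y) = (g⁻¹ * x * g) • (σ⁻¹ • y) := by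
      intro x y
      apply RingOfIntegers.ext
      show σ⁻¹ (x (algebraMap (𝓞 (AlgebraicClosure K)) (AlgebraicClosure K) y)) =
        g⁻¹ (x (g (σ⁻¹ (algebraMap (𝓞 (AlgebraicClosure K)) (AlgebraicClosure K) y))))
      rw [← hgi, ← hgi]
      congr 2
      rw [← AlgEquiv.mul_apply, mul_inv_cancel]
      rfl
    exact ⟨fun x => (S5_Sha_aux _ hsub hsurj hρ x _ (h3 x)).1,
      fun x => (S5_Sha_aux _ hsub hsurj hρ x _ (h3 x)).2⟩
  · obtain ⟨g, hg⟩ := hmk (c.trans (σ : AlgebraicClosure K ≃+* AlgebraicClosure K)) (by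
      show σ (c (algebraMap K (AlgebraicClosure K) s)) = _
      rw [hc.neg, map_neg, h, neg_neg])
    have hg' : ∀ x, g x = σ (c x) := hg
    have hgi : ∀ x, g⁻¹ x = c (σ⁻¹ x) := by
      intro x
      apply g.injective
      have h1 : g (g⁻¹ x) = x := by
        rw [← AlgEquiv.mul_apply, mul_inv_cancel]
        rfl
      have h2 : σ (σ⁻¹ x) = x := by
        rw [← AlgEquiv.mul_apply, mul_inv_cancel]
        rfl
      rw [h1, hg', hc.sq, h2]
    refine ⟨g, Or.inr ?_⟩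
    have h3 : ∀ (x : AbsGal K) (y : 𝓞 (AlgebraicClosure K)),
        σ⁻¹ • (x • y) = (κ (g⁻¹ * x * g)) • (σ⁻¹ • y) := by
      intro x y
      apply RingOfIntegers.ext
      show σ⁻¹ (x (algebraMap (𝓞 (AlgebraicClosure K)) (AlgebraicClosure K) y)) =
        κ (g⁻¹ * x * g) (σ⁻¹ (algebraMap (𝓞 (AlgebraicClosure K)) (AlgebraicClosure K) y))
      rw [hκ]
      show _ = c (g⁻¹ (x (g (c (σ⁻¹ (algebraMap (𝓞 (AlgebraicClosure K)) (AlgebraicClosure K) y))))))
      rw [hg', hc.sq, hgi, hc.sq]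
      congr 2
      rw [← AlgEquiv.mul_apply, mul_inv_cancel]
      rfl
    exact ⟨fun x => (S5_Sha_aux _ hsub hsurj hρ x _ (h3 x)).1,
      fun x => (S5_Sha_aux _ hsub hsurj hρ x _ (h3 x)).2⟩

end Pool.Agent.Work.MP_787500_nt.GP
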