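import Mathlib
import Pool.Agent.Work.MP_787500_nt.GP.B0_Inj
import Pool.Agent.Work.MP_787500_nt.GP.S5_Sha
import Pool.Agent.Work.MP_787500_nt.GP.S3_VLoc
import Pool.Agent.Work.MP_787500_nt.PA.KapK
import Pool.Agent.Work.MP_787500_nt.PA.CycK

/-!
# Module B3_INJ (size M): injectivity at all places except one

* `cob_sub`: `z : D → ZMod 2` invariant under `W.subgroupOf D` with `f d e = z d + z e + z (d e)` on `D`; let `z' g = z d` if
  `g = d w` with `d ∈ D`, `w ∈ W` (well defined: `d w = d' w'` gives `d⁻¹ d' ∈ W`), 0 if there is no such `d`. `z'` is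
  invariant under `W`.
* `sha_J`: `f₁` with `Coc (sysT K T) ⊤ f₁`, `Cob` on `decomp ι`, on all `stabD (P l)`, and `f₁ ∘ κ` is `Cob` on all `stabD (P l)`. The
  hypotheses of `sha_T`: for a prime `Q` containing `l ∈ T` use `above_l` for `P l`: `stabD Q` is contained in
  `{x | g⁻¹ x g ∈ stabD (P l)}` or in `{x | κ (g⁻¹ x g) ∈ stabD (P l)}`; `cob_conj`, and for the second case first:
  `f₁ (κ x) (κ y) = z x + z y + z (x y)` on `stabD (P l)` gives `f₁ x y = z (κ x) + z (κ y) + z (κ (x y))` on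
  `κ⁻¹ stabD (P l)` (`κ (κ x) = x`; `z ∘ κ` is smooth because `κ` preserves the system, `kapT`).
* `kapT`: `W` is `GoodT`: so is `{x | κ x ∈ W}`: open (`PA.kappa_continuous`), normal, 2-power quotient; the inertia group
  of `Q` is mapped by `κ` to the inertia group of `c Q = {x | c x ∈ Q}`, a prime that contains neither 2 nor an
  element of `T`.
* `inj_places`: `glob_inj` with `J = Option T ⊕ T`, `D (inl w) = DD ι P w` with the inclusion, `D (inr l) = stabD (P l)` with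
  `κ` after the inclusion (`κ` as a monoid homomorphism), `sha` from `sha_J` and `cob_sub`.
-/

set_option autoImplicit false
set_option linter.unusedSectionVars false

namespace Pool.Agent.Work.MP_787500_nt.GP

open IsDedekindDomain NumberField
open Pool.Agent.Work.MP_787500_nt.PA (TwoSys Sm1 Sm2 homs Coc Cob IsChar goodSys core cyc Opn SU)
open Pool.Agent.Work.MP_787500_nt.Gn (GoodG)

universe u

variable {K : Type u} [Field K] [NumberField K]


private theorem bi_mul {c : AlgebraicClosure K ≃+* AlgebraicClosure K} (h2 : ∀ x, c (c x) = x)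
    {κ : AbsGal K → AbsGal K}
    (hκ : ∀ (σ : AbsGal K) (x : AlgebraicClosure K), κ σ x = c (σ (c x))) (g h : AbsGal K) :
    κ (g * h) = κ g * κ h := by
  ext x
  show κ (g * h) x = κ g (κ h x)
  rw [hκ, hκ, hκ, h2]
  rfl

private theorem bi_inv {c : AlgebraicClosure K ≃+* AlgebraicClosure K} (h2 : ∀ x, c (c x) = x)
    {κ : AbsGal K → AbsGal K}
    (hκ : ∀ (σ : AbsGal K) (x : AlgebraicClosure K), κ σ x = c (σ (c x))) (g : AbsGal K) :
    κ (κ g) = g := by
  ext x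
  rw [hκ, hκ, h2, h2]

theorem kapT {s : K} {c : AlgebraicClosure K ≃+* AlgebraicClosure K} (hc : PA.IsConj s c)
    {κ : AbsGal K → AbsGal K}
    (hκ : ∀ (σ : AbsGal K) (x : AlgebraicClosure K), κ σ x = c (σ (c x)))
    (T : Finset ℕ) {W : Subgroup (AbsGal K)} (hW : GoodT K T W) :
    ∃ W', GoodT K T W' ∧ ∀ g, g ∈ W' ↔ κ g ∈ W := by

  have hn := hW.normal
  let k : AbsGal K →* AbsGal K := MonoidHom.mk' κ (bi_mul hc.sq hκ)
  refine ⟨W.comap k, ?_, fun g => Iff.rfl⟩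
  refine (⟨inferInstance, hW.isOpen.preimage (PA.kappa_continuous hc.sq hκ), fun _ _ => trivial,
    ?_, ?_⟩ : GoodG 2 ⊤ (inT K T) (W.comap k))
  · intro g _
    obtain ⟨m, hm⟩ := hW.pow (κ g) trivial
    refine ⟨m, ?_⟩
    rw [Subgroup.mem_comap, map_pow]
    exact hm
  · rintro g ⟨Q, hQ, hQ2, hQT, hg⟩
    let C : 𝓞 (AlgebraicClosure K) ≃+* 𝓞 (AlgebraicClosure K) :=
      RingOfIntegers.mapRingEquiv c
    have hmem : κ g ∈ (Q.comap (C : 𝓞 (AlgebraicClosure K) →+* 𝓞 (AlgebraicClosure K))).inertia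
        (AbsGal K) := by
      intro x
      show (C : 𝓞 (AlgebraicClosure K) →+* 𝓞 (AlgebraicClosure K)) (κ g • x - x) ∈ Q
      have h3 : (C : 𝓞 (AlgebraicClosure K) →+* 𝓞 (AlgebraicClosure K)) (κ g • x - x) =
          g • C x - C x := by
        rw [map_sub]
        congr 1
        apply RingOfIntegers.ext
        show c (κ g (x : AlgebraicClosure K)) = g (c (x : AlgebraicClosure K))
        rw [hκ, hc.sq]
      rw [h3]
      exact hg (C x)
    refine hW.inertia (κ g) ⟨_, Ideal.comap_isPrime _ _, ?_, ?_, hmem⟩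
    · intro h4
      apply hQ2
      have h5 : (C : 𝓞 (AlgebraicClosure K) →+* 𝓞 (AlgebraicClosure K)) 2 ∈ Q := h4
      rwa [map_ofNat] at h5
    · intro l hl h4
      apply hQT l hl
      have h5 : (C : 𝓞 (AlgebraicClosure K) →+* 𝓞 (AlgebraicClosure K)) l ∈ Q := h4
      rwa [map_natCast] at h5

theorem cob_sub {T : Finset ℕ} {D : Subgroup (AbsGal K)} {f : AbsGal K → AbsGal K → ZMod 2}
    (h : Cob (sysD K T D) ⊤ (fun d e => f (d : AbsGal K) e)) : Cob (sysT K T) D f := by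

  classical
  obtain ⟨z, ⟨W', ⟨W, hW, rfl⟩, hzW⟩, hz⟩ := h
  have key : ∀ d e : D, (e : AbsGal K)⁻¹ * d ∈ W → z d = z e := by
    intro d e h1
    have h2 := hzW e (e⁻¹ * d) (by rw [Subgroup.mem_subgroupOf]; exact h1)
    rwa [mul_inv_cancel_left] at h2
  let z' : AbsGal K → ZMod 2 := fun g =>
    if h : ∃ d : D, (d : AbsGal K)⁻¹ * g ∈ W then z h.choose else 0
  have hz' : ∀ (g : AbsGal K) (d : D), (d : AbsGal K)⁻¹ * g ∈ W → z' g = z d := by
    intro g d h1
    have h : ∃ d : D, (d : AbsGal K)⁻¹ * g ∈ W := ⟨d, h1⟩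
    have h2 : z' g = z h.choose := dif_pos h
    rw [h2]
    apply key
    have h3 := W.mul_mem h1 (W.inv_mem h.choose_spec)
    have h4 : (d : AbsGal K)⁻¹ * g * ((h.choose : AbsGal K)⁻¹ * g)⁻¹ =
        (d : AbsGal K)⁻¹ * h.choose := by group
    rwa [h4] at h3
  refine ⟨z', ⟨W, hW, fun g w hw => ?_⟩, fun g hg h hh => ?_⟩
  · by_cases h1 : ∃ d : D, (d : AbsGal K)⁻¹ * g ∈ W
    · obtain ⟨d, hd⟩ := h1
      rw [hz' g d hd, hz' (g * w) d (by rw [← mul_assoc]; exact W.mul_mem hd hw)]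
    · have h2 : ¬ ∃ d : D, (d : AbsGal K)⁻¹ * (g * w) ∈ W := by
        rintro ⟨d, hd⟩
        apply h1
        refine ⟨d, ?_⟩
        have h3 := W.mul_mem hd (W.inv_mem hw)
        rwa [← mul_assoc, mul_inv_cancel_right] at h3
      have e1 : z' g = 0 := dif_neg h1
      have e2 : z' (g * w) = 0 := dif_neg h2
      rw [e1, e2]
  · have h1 := hz ⟨g, hg⟩ trivial ⟨h, hh⟩ trivial
    rw [hz' g ⟨g, hg⟩ (by rw [inv_mul_cancel]; exact W.one_mem),
      hz' h ⟨h, hh⟩ (by rw [inv_mul_cancel]; exact W.one_mem),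
      hz' (g * h) (⟨g, hg⟩ * ⟨h, hh⟩) (by
        show ((g * h)⁻¹ * (g * h) : AbsGal K) ∈ W
        rw [inv_mul_cancel]
        exact W.one_mem)]
    exact h1

theorem sha_J {q : ℕ} {s : K} (hK : IsBase K q s) {v : HeightOneSpectrum (𝓞 K)}
    (hv : (2 : 𝓞 K) ∈ v.asIdeal)
    (ι : AlgebraicClosure K →ₐ[K] AlgebraicClosure (v.adicCompletion K)) {T : Finset ℕ}
    (hT : ∀ l ∈ T, SplitPr q l) {c : AlgebraicClosure K ≃+* AlgebraicClosure K}
    (hc : PA.IsConj s c) {κ : AbsGal K → AbsGal K}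
    (hκ : ∀ (σ : AbsGal K) (x : AlgebraicClosure K), κ σ x = c (σ (c x)))
    {P : ℕ → Ideal (𝓞 (AlgebraicClosure K))}
    (hP : ∀ l ∈ T, (P l).IsPrime ∧ (l : 𝓞 (AlgebraicClosure K)) ∈ P l)
    {f : AbsGal K → AbsGal K → ZMod 2} (hf : Coc (sysT K T) ⊤ f)
    (h1 : Cob (sysT K T) (decomp ι) f) (h2 : ∀ l ∈ T, Cob (sysT K T) (stabD (P l)) f)
    (h3 : ∀ l ∈ T, Cob (sysT K T) (stabD (P l)) (fun g h => f (κ g) (κ h))) :
    Cob (sysT K T) ⊤ f := by

  refine sha_T hK hv ι hT hf h1 fun Q hQ hlQ => ?_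
  obtain ⟨l, hl, hlQ⟩ := hlQ
  obtain ⟨g, ⟨hg, -⟩ | ⟨hg, -⟩⟩ := above_l hK (hT l hl) hc hκ (hP l hl).1 (hP l hl).2 hQ hlQ
  · exact cob_conj hf g (fun x hx => (hg x).1 hx) (h2 l hl)
  · let k : AbsGal K →* AbsGal K := MonoidHom.mk' κ (bi_mul hc.sq hκ)
    refine cob_conj hf (C := (stabD (P l)).comap k) g (fun x hx => (hg x).1 hx) ?_
    obtain ⟨z, ⟨W, hW, hzW⟩, hz⟩ := h3 l hl
    obtain ⟨W', hW', hWW⟩ := kapT hc hκ T hW
    refine ⟨fun x => z (κ x), ⟨W', hW', fun x w hw => ?_⟩, fun x hx y hy => ?_⟩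
    · show z (κ (x * w)) = z (κ x)
      rw [bi_mul hc.sq hκ]
      exact hzW _ _ ((hWW w).1 hw)
    · have h4 : f (κ (κ x)) (κ (κ y)) = z (κ x) + z (κ y) + z (κ x * κ y) :=
        hz (κ x) hx (κ y) hy
      show f x y = z (κ x) + z (κ y) + z (κ (x * y))
      rw [bi_mul hc.sq hκ, ← h4, bi_inv hc.sq hκ, bi_inv hc.sq hκ]


private theorem bi_char (T : Finset ℕ) : IsChar (sysT K T) (cyc (K := K)) := by
  have h := PA.isChar_cyc (K := K)
  refine ⟨h.one, h.mul, fun n => ?_, h.odd⟩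
  obtain ⟨W, hW, h1⟩ := h.cont n
  exact ⟨W, Good.goodT hW T, h1⟩

/-- the local groups of all places -/
private noncomputable def biD {v : HeightOneSpectrum (𝓞 K)}
    (ι : AlgebraicClosure K →ₐ[K] AlgebraicClosure (v.adicCompletion K)) {T : Finset ℕ}
    (P : ℕ → Ideal (𝓞 (AlgebraicClosure K))) : Option T ⊕ T → Subgroup (AbsGal K)
  | Sum.inl w => DD ι P w
  | Sum.inr l => stabD (P l)

/-- their maps to the group -/
private noncomputable def biJ {v : HeightOneSpectrum (𝓞 K)}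
    (ι : AlgebraicClosure K →ₐ[K] AlgebraicClosure (v.adicCompletion K)) {T : Finset ℕ}
    (P : ℕ → Ideal (𝓞 (AlgebraicClosure K))) (κ : AbsGal K →* AbsGal K) :
    ∀ i : Option T ⊕ T, biD ι P i →* AbsGal K
  | Sum.inl w => (DD ι P w).subtype
  | Sum.inr l => κ.comp (stabD (P l)).subtype

/-- their invariants -/
private noncomputable def biInv {v : HeightOneSpectrum (𝓞 K)}
    (ι : AlgebraicClosure K →ₐ[K] AlgebraicClosure (v.adicCompletion K)) {T : Finset ℕ}
    (P : ℕ → Ideal (𝓞 (AlgebraicClosure K)))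
    (inv : ∀ w : Option T, (DD ι P w → DD ι P w → A0) → A0) :
    ∀ i : Option T ⊕ T, (biD ι P i → biD ι P i → A0) → A0
  | Sum.inl w => inv w
  | Sum.inr l => inv (some l)

theorem inj_places {q : ℕ} {s : K} (hK : IsBase K q s) {v : HeightOneSpectrum (𝓞 K)}
    (hv : (2 : 𝓞 K) ∈ v.asIdeal)
    (ι : AlgebraicClosure K →ₐ[K] AlgebraicClosure (v.adicCompletion K)) {T : Finset ℕ}
    (hT : ∀ l ∈ T, SplitPr q l) {c : AlgebraicClosure K ≃+* AlgebraicClosure K}
    (hc : PA.IsConj s c) {κ : AbsGal K →* AbsGal K}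
    (hκ : ∀ (σ : AbsGal K) (x : AlgebraicClosure K), κ σ x = c (σ (c x)))
    {P : ℕ → Ideal (𝓞 (AlgebraicClosure K))}
    (hP : ∀ l ∈ T, (P l).IsPrime ∧ (l : 𝓞 (AlgebraicClosure K)) ∈ P l)
    {inv : ∀ w : Option T, (DD ι P w → DD ι P w → A0) → A0}
    (loc : ∀ w, LocH (sysD K T (DD ι P w)) (fun d => cyc (d : AbsGal K)) (inv w))
    {f : AbsGal K → AbsGal K → A0} (hf : Z2 (sysT K T) (tw cyc) f)
    (h1 : ∀ w, inv w (fun a b => f a b) = 0)
    (h2 : ∀ l : T, inv (some l) (fun a b => f (κ a) (κ b)) = 0) : B2 (sysT K T) (tw cyc) f := by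

  have hinv := PA.isInvol hc.sq hκ
  refine glob_inj (S := sysT K T) (bi_char T) (J := Option T ⊕ T) (D := fun i => biD ι P i)
    (SD := fun i => sysD K T (biD ι P i)) (j := biJ ι P κ) (inv := biInv ι P inv)
    ?_ ?_ ?_ hf ?_
  · rintro (w | l) W hW
    · exact ⟨W.subgroupOf _, ⟨W, hW, rfl⟩, fun x hx => hx⟩
    · obtain ⟨W', hW', hWW⟩ := kapT hc hκ T hW
      exact ⟨W'.subgroupOf _, ⟨W', hW', rfl⟩, fun x hx => (hWW _).1 hx⟩
  · rintro (w | l)
    · exact loc w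
    · have h3 := loc (some l)
      have h4 : (fun d : DD ι P (some l) => cyc (κ (d : AbsGal K))) =
          fun d : DD ι P (some l) => cyc (d : AbsGal K) := by
        funext d
        exact hinv.chi _
      rw [← h4] at h3
      exact h3
  · intro f' hf' hcob
    refine sha_J hK hv ι hT hc hκ hP hf' ?_ ?_ ?_
    · exact cob_sub (hcob (Sum.inl none))
    · intro l hl
      exact cob_sub (hcob (Sum.inl (some ⟨l, hl⟩)))
    · intro l hl
      exact cob_sub (f := fun g h => f' (κ g) (κ h)) (hcob (Sum.inr ⟨l, hl⟩))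
  · rintro (w | l)
    · exact h1 w
    · exact h2 l

end Pool.Agent.Work.MP_787500_nt.GP
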