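import Mathlib
import Pool.Agent.Work.MP_787500_nt.GP.BDefs
import Pool.Agent.Work.MP_787500_nt.GP.LT3_Gen
import Pool.Agent.Work.MP_787500_nt.GP.G4_TameLoc
import Pool.Agent.Work.MP_787500_nt.GP.B0_Psi

/-!
# Module B3_TAMED (size M): the decomposition groups at the primes of `T` are tame

`D = stabD P`. `r`, `b`: roots and Kummer cocycle of `l`.
* `tameD`: `exists_tau` (value 1), `exists_sigma`. `char`: `isChar_cyc`, restricted (a `Good` subgroup is `GoodT`).
  `c1`: `IsKum.c1` (`UT T l`: a prime that contains no element of `T` does not contain `l`: `x = l`, `y = 1` in `UnitAt`).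
  `coc`: `IsKum.coc`. `dens`: `stab_dens`. `sep`: a member is `W.subgroupOf D`; `tame_sep` for `U = W`. `2 ∉ P` since `l` is odd.
  `odd`, `lt`: `l` is an odd prime number.
* `iota_cup`: generic: `a'` with `a' (g h) = a' g + χ g * a' h`, `χ τ = 1`, `ψ τ = 0`, `ψ` additive: `a' (τ ^ i) = i * a' τ`, so
  `iota = a' σ * ψ τ - a' (τ ^ l) * ψ σ - ∑ a' (τ ^ i) * ψ τ = -(l * a' τ * ψ σ)`.
* `hom_tau`: `ω ∈ homs (sysT K T) ⊤`, `n ∈ P.inertia`: let `W` be a member under which `ω` is invariant, `N` as in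
  `tame_sep` for `W`, `k : ℕ` with `2 ^ N ∣ b n - k`, `k` may be taken congruent to `b n` modulo 2. `g = n (τ ^ k)⁻¹ ∈ stabD P` has
  `cyc g = 1` (`cyc_inertia`), `b g = b n - k`, so `g ∈ W` and `ω n = k ω τ`.
-/

set_option autoImplicit false
set_option linter.unusedSectionVars false

namespace Pool.Agent.Work.MP_787500_nt.GP

open IsDedekindDomain NumberField
open Pool.Agent.Work.MP_787500_nt.PA (TwoSys Sm1 Sm2 homs Coc Cob IsChar goodSys core cyc Opn SU)
open Pool.Agent.Work.MP_787500_nt.Gn (GoodG)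

universe u

variable {K : Type u} [Field K] [NumberField K]

private theorem b3t_stab {P : Ideal (𝓞 (AlgebraicClosure K))} {n : AbsGal K}
    (hn : n ∈ P.inertia (AbsGal K)) : n ∈ stabD P := by
  rw [mem_stabD]
  intro x
  have h1 : n • x - x ∈ P := hn x
  constructor
  · intro h
    have := P.add_mem h1 h
    rwa [sub_add_cancel] at this
  · intro h
    have := P.sub_mem h h1
    rwa [sub_sub_cancel] at this

private theorem b3t_two {P : Ideal (𝓞 (AlgebraicClosure K))} (hP : P.IsPrime) {l : ℕ}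
    (hl : l.Prime) (hl2 : l ≠ 2) (hlP : (l : 𝓞 (AlgebraicClosure K)) ∈ P) :
    (2 : 𝓞 (AlgebraicClosure K)) ∉ P := by
  intro h
  apply hP.ne_top
  rw [Ideal.eq_top_iff_one]
  obtain ⟨m, hm⟩ := hl.odd_of_ne_two hl2
  have h1 : (1 : 𝓞 (AlgebraicClosure K)) = l - m * 2 := by
    rw [hm]
    push_cast
    ring
  rw [h1]
  exact P.sub_mem hlP (P.mul_mem_left _ h)

private theorem b3t_ut {l : ℕ} (hl : l.Prime) {T : Finset ℕ} (hlT : l ∈ T) :
    UT (K := K) T (l : AlgebraicClosure K) := by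
  have hz : CharZero (AlgebraicClosure K) :=
    charZero_of_injective_algebraMap (algebraMap K (AlgebraicClosure K)).injective
  refine ⟨by exact_mod_cast hl.ne_zero, ?_⟩
  intro Q hQ _ hT
  refine ⟨(l : 𝓞 (AlgebraicClosure K)), 1, hT l hlT, fun h => hQ.ne_top ((Ideal.eq_top_iff_one Q).2 h),
    ?_⟩
  have e1 : ((1 : 𝓞 (AlgebraicClosure K)) : AlgebraicClosure K) = 1 := rfl
  have e2 : ((l : 𝓞 (AlgebraicClosure K)) : AlgebraicClosure K) = l :=
    map_natCast (algebraMap (𝓞 (AlgebraicClosure K)) (AlgebraicClosure K)) l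
  rw [e1, e2, mul_one]

private theorem b3t_char (T : Finset ℕ) (D : Subgroup (AbsGal K)) :
    IsChar (sysD K T D) (fun d => cyc (d : AbsGal K)) := by
  have h := PA.isChar_cyc (K := K)
  refine ⟨h.one, fun g k => h.mul g k, fun n => ?_, fun g => h.odd g⟩
  obtain ⟨W, hW, h1⟩ := h.cont n
  exact ⟨W.subgroupOf D, ⟨W, Good.goodT hW T, rfl⟩, fun g w hw => h1 g w hw⟩

theorem tameD {q : ℕ} {s : K} (hK : IsBase K q s) {l : ℕ} (hl : SplitPr q l) {T : Finset ℕ}
    (hlT : l ∈ T) {P : Ideal (𝓞 (AlgebraicClosure K))} (hP : P.IsPrime)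
    (hlP : (l : 𝓞 (AlgebraicClosure K)) ∈ P) {r : ℕ → AlgebraicClosure K} {b : AbsGal K → ℤ_[2]}
    (hr : IsKum r b) (h0 : r 0 = (l : AlgebraicClosure K)) :
    ∃ σ τ : stabD P, (τ : AbsGal K) ∈ P.inertia (AbsGal K) ∧
      TameD (sysD K T (stabD P)) (fun d => cyc (d : AbsGal K)) (fun d => b (d : AbsGal K)) σ τ l := by

  have hlp := hl.1
  have h2 := b3t_two hP hlp hl.2.1 hlP
  obtain ⟨τ, hτ1, hτ2, hτ3, hτ4⟩ := exists_tau hK hl hP hlP hr h0 1
  obtain ⟨σ, hσ1, hσ2, hσ3⟩ := exists_sigma hK hl hP hlP hr h0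
  have hodd : Odd l := hlp.odd_of_ne_two hl.2.1
  refine ⟨⟨σ, hσ1⟩, ⟨τ, hτ2⟩, hτ1, ?_⟩
  refine ⟨b3t_char T _, fun n => ?_, fun g h => hr.coc g h, hodd, ?_, hσ2, hσ3, hτ3, hτ4,
    fun g n => stab_dens hK hl hP hlP g.2 n, ?_⟩
  · obtain ⟨W, hW, h1⟩ := hr.c1 (T := T) (by rw [h0]; exact b3t_ut hlp hlT) n
    exact ⟨W.subgroupOf _, ⟨W, hW, rfl⟩, fun g w hw => h1 g w hw⟩
  · exact lt_of_le_of_ne hlp.two_le (Ne.symm hl.2.1)
  · rintro _ ⟨W, hW, rfl⟩
    obtain ⟨n, hn⟩ := tame_sep hP hlp hlP h2 hr h0 hW.isOpen hW.normal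
      (fun x => hW.pow x trivial)
    exact ⟨n, fun g h3 h4 => hn g g.2 h3 h4⟩

theorem iota_cup {D : Type*} [Group D] {χ a ψ : D → ℤ_[2]} {σ τ : D} {l : ℕ}
    (hc : ∀ g h, a (g * h) = a g + χ g * a h) (hm : ∀ g h, ψ (g * h) = ψ g + ψ h)
    (hτ : χ τ = 1) (h0 : ψ τ = 0) :
    iota σ τ l (fun g h => a g * ψ h) = -((l : ℤ_[2]) * a τ * ψ σ) := by

  have ha1 : a 1 = 0 := by
    have := hc τ 1
    rw [mul_one, hτ, one_mul] at this
    exact (left_eq_add.1 this)
  have hpow : ∀ i : ℕ, a (τ ^ i) = i * a τ := by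
    intro i
    induction i with
    | zero => rw [pow_zero, ha1, Nat.cast_zero, zero_mul]
    | succ i ih =>
      rw [pow_succ', hc, hτ, one_mul, ih]
      push_cast
      ring
  unfold iota
  show a σ * ψ τ - a (τ ^ l) * ψ σ - ∑ i ∈ Finset.Ico 1 l, a (τ ^ i) * ψ τ = _
  rw [h0, mul_zero, hpow]
  have : ∑ i ∈ Finset.Ico 1 l, a (τ ^ i) * ψ τ = 0 := by
    refine Finset.sum_eq_zero fun i _ => ?_
    rw [h0, mul_zero]
  have h3 : ∑ i ∈ Finset.Ico 1 l, a (τ ^ i) * 0 = 0 := by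
    refine Finset.sum_eq_zero fun i _ => ?_
    rw [mul_zero]
  rw [h3]
  ring

theorem hom_tau {q : ℕ} {s : K} (hK : IsBase K q s) {l : ℕ} (hl : SplitPr q l) {T : Finset ℕ}
    (hlT : l ∈ T) {P : Ideal (𝓞 (AlgebraicClosure K))} (hP : P.IsPrime)
    (hlP : (l : 𝓞 (AlgebraicClosure K)) ∈ P) {r : ℕ → AlgebraicClosure K} {b : AbsGal K → ℤ_[2]}
    (hr : IsKum r b) (h0 : r 0 = (l : AlgebraicClosure K)) {τ : AbsGal K}
    (hτ : τ ∈ P.inertia (AbsGal K)) (hb : b τ = 1) {ω : AbsGal K → ZMod 2}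
    (hω : ω ∈ homs (sysT K T) ⊤) {n : AbsGal K} (hn : n ∈ P.inertia (AbsGal K)) :
    ω n = PadicInt.toZMod (b n) * ω τ := by

  have hlp := hl.1
  have h2 := b3t_two hP hlp hl.2.1 hlP
  have hχ := PA.isChar_cyc (K := K)
  obtain ⟨⟨W, hW, hW1⟩, -, hadd⟩ := hω
  have hadd' : ∀ g h : AbsGal K, ω (g * h) = ω g + ω h := fun g h => hadd g trivial h trivial
  have hω1 : ω 1 = 0 := by
    have := hadd' 1 1
    rw [mul_one] at this
    exact left_eq_add.1 this
  have hpow : ∀ i : ℕ, ω (τ ^ i) = i * ω τ := by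
    intro i
    induction i with
    | zero => rw [pow_zero, hω1, Nat.cast_zero, zero_mul]
    | succ i ih =>
      rw [pow_succ, hadd', ih]
      push_cast
      ring
  have hWn : GoodT K T W := hW
  obtain ⟨N, hN⟩ := tame_sep hP hlp hlP h2 hr h0 hWn.isOpen hWn.normal
      (fun x => hWn.pow x trivial)
  have hcn : cyc n = 1 := cyc_inertia hP h2 hn
  have hcτ : cyc τ = 1 := cyc_inertia hP h2 hτ
  obtain ⟨k, hk⟩ : ∃ k : ℕ, (2 : ℤ_[2]) ^ (N + 1) ∣ b n - k := by
    refine ⟨(b n).appr (N + 1), ?_⟩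
    have h3 := PadicInt.appr_spec (N + 1) (b n)
    rw [Ideal.mem_span_singleton] at h3
    exact_mod_cast h3
  have hb1 : b 1 = 0 := by
    have := hr.coc 1 1
    rw [mul_one, hχ.one, one_mul] at this
    exact left_eq_add.1 this
  have hbpow : ∀ i : ℕ, b (τ ^ i) = i ∧ cyc (τ ^ i) = 1 := by
    intro i
    induction i with
    | zero => exact ⟨by rw [pow_zero, hb1, Nat.cast_zero], by rw [pow_zero]; exact hχ.one⟩
    | succ i ih =>
      refine ⟨?_, ?_⟩
      · rw [pow_succ', hr.coc, hcτ, one_mul, ih.1, hb]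
        push_cast
        ring
      · rw [pow_succ', hχ.mul, hcτ, ih.2, one_mul]
  set g := n * (τ ^ k)⁻¹ with hg
  have hng : g * τ ^ k = n := by rw [hg, inv_mul_cancel_right]
  have hgs : g ∈ stabD P :=
    (stabD P).mul_mem (b3t_stab hn) ((stabD P).inv_mem ((stabD P).pow_mem (b3t_stab hτ) k))
  have hcg : cyc g = 1 := by
    have := hχ.mul g (τ ^ k)
    rw [hng, hcn, (hbpow k).2, mul_one] at this
    exact this.symm
  have hbg : b g = b n - k := by
    have := hr.coc g (τ ^ k)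
    rw [hng, hcg, one_mul, (hbpow k).1] at this
    rw [this, add_sub_cancel_right]
  have hgW : g ∈ W := by
    refine hN g hgs (by rw [hcg, sub_self]; exact dvd_zero _) ?_
    rw [hbg]
    exact (pow_dvd_pow 2 (Nat.le_succ N)).trans hk
  have h3 : ω g = 0 := by
    have := hW1 1 g hgW
    rw [one_mul, hω1] at this
    exact this
  have h4 : ω n = k * ω τ := by
    rw [← hng, hadd', h3, zero_add, hpow]
  have h5 : PadicInt.toZMod (b n) = (k : ZMod 2) := by
    obtain ⟨c, hc⟩ := hk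
    have h6 : b n = k + 2 * (2 ^ N * c) := by
      rw [pow_succ] at hc
      linear_combination hc
    rw [h6, map_add, map_mul, map_natCast, map_ofNat]
    have h7 : (2 : ZMod 2) = 0 := rfl
    rw [show (OfNat.ofNat 2 : ZMod 2) = 0 from h7, zero_mul, add_zero]
  rw [h4, h5]

end Pool.Agent.Work.MP_787500_nt.GP
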