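import Mathlib
import Pool.Agent.Work.MP_787500_nt.GP.B2_VVal
import Pool.Agent.Work.MP_787500_nt.GP.B1_InvV
import Pool.Agent.Work.MP_787500_nt.GP.B3_Alpha
import Pool.Agent.Work.MP_787500_nt.GP.B3_TameD
import Pool.Agent.Work.MP_787500_nt.GP.B3_Inj
import Pool.Agent.Work.MP_787500_nt.GP.G2_TameHoms

/-!
# Module B3_REC (size M-L): the explicit classes

`lam` from `exists_lam`, `ψ = lam ∘ cyc`, `D w = DD ι P w`. `exists_invV` gives `r₀`, `a₀`, `inv none`. `exists_c` gives the unit `c'`.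
For `l ∈ T`: roots and Kummer cocycle `b l` of `l` (`exists_roots`, `exists_isKum`), `σ l`, `τ l` (`tameD`), `α l` with cocycle
`a l`, `h l`, `j l` (`exists_alpha`). `inv (some l) f = (c' / l) • iota (σ l) (τ l) l f` (`c' / l`: a unit, `l` is odd):
`LocH` by `tame_locH`. `N none g h = a₀ g * ψ h`, `N (some l) g h = a l g * ψ h`. `e l = -(c' * h l * lam l)`.
* `char`: `isChar_cyc` (a `Good` subgroup is `GoodT`). `jsm`: `W.subgroupOf D`. `kk`: `c (c x) = x`. `ksys`: `kapT`. `kchi`: `PA.isInvol`.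
* `inj`: `inj_places`. `z2`: `z2_cup`, `IsKum.c1`, `IsKum.coc` (for `a₀`: `SU.ut`). `norm`: `a 1 = 0`, `ψ 1 = 0`.
* `ne`: `h l` is odd, `lam l ≠ 0` (`IsLam.ne_zero`), `c'` a unit. `valn`: `HasV lam inv a₀ 1`, `one_smul`.
* `vals`: `iota_smul`, `iota_cup` with `ψ (τ l) = lam (cyc τ) = lam 1 = 0`, `a l (τ l) = h l * b l (τ l) = h l`,
  `ψ (σ l) = lam l`: `(c' / l) * (-(l * h l * lam l)) = e l`.
* `off`, `offk`: `iota_cup` with `a' = a w` or `a' = a w ∘ κ` (`cyc ∘ κ = cyc`, so `ψ ∘ κ = ψ`, and `a w ∘ κ` satisfies the same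
  cocycle relation); `a' (τ l) = 0`: `exists_alpha`, and for `w = none` `IsKum.inertia` (`SU x₀`: `UnitAt` at all primes not
  containing 2, `SU.ut` with `T = ∅`; `κ (τ l)` is in the inertia group of `c (P l)`).
* `sum`: the terms `w' = some l'` are `e l • t` for `w' = w = some l`, and 0 otherwise. `w' = none`, `w = none`: 0 by `inv_sym`.
  `w' = none`, `w = some l`: `-(a l ∘ κ)` is the Kummer cocycle of `c α` (`IsKum.kap`), so the term is
  `(V α + V (c α)) • t = V (α c α) • t = V (l ^ h 2 ^ j) • t = h V l • t = h lam l c' • t` (`hasV_add`, `hasV_zpow`, `hasV_two`,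
  `exists_c`, `hasV_uniqK`). The total is 0.
* dimensions: 3 from `exists_invV`, 2 from `tame_homs`.
-/

set_option autoImplicit false
set_option linter.unusedSectionVars false

namespace Pool.Agent.Work.MP_787500_nt.GP

open IsDedekindDomain NumberField
open Pool.Agent.Work.MP_787500_nt.PA (TwoSys Sm1 Sm2 homs Coc Cob IsChar goodSys core cyc Opn SU)
open Pool.Agent.Work.MP_787500_nt.Gn (GoodG)

universe u

variable {K : Type u} [Field K] [NumberField K]

private theorem b3r_two {q : ℕ} {l : ℕ} (hl : SplitPr q l) {P : Ideal (𝓞 (AlgebraicClosure K))}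
    (hP : P.IsPrime) (hlP : (l : 𝓞 (AlgebraicClosure K)) ∈ P) :
    (2 : 𝓞 (AlgebraicClosure K)) ∉ P := by
  intro h4
  obtain ⟨k, hk⟩ := hl.1.odd_of_ne_two hl.2.1
  apply hP.ne_top
  rw [Ideal.eq_top_iff_one]
  have h5 : (1 : 𝓞 (AlgebraicClosure K)) = (l : 𝓞 (AlgebraicClosure K)) - 2 * k := by
    rw [hk]
    push_cast
    ring
  rw [h5]
  exact P.sub_mem hlP (P.mul_mem_right _ h4)

private theorem b3r_nat (l : ℕ) (hl : l ≠ 0) :
    ∃ (r : ℕ → AlgebraicClosure K) (b : AbsGal K → ℤ_[2]), IsKum r b ∧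
      r 0 = (l : AlgebraicClosure K) := by
  obtain ⟨r, h0, hr⟩ := exists_roots (l : AlgebraicClosure K)
  have hch : CharZero (AlgebraicClosure K) :=
    charZero_of_injective_algebraMap (algebraMap K (AlgebraicClosure K)).injective
  obtain ⟨b, hb⟩ := exists_isKum (r := r) (by rw [h0]; exact Nat.cast_ne_zero.2 hl)
    (fun g => by rw [h0, map_natCast]) hr
  exact ⟨r, b, hb, h0⟩

private theorem b3r_unit {l : ℕ} (hl : Odd l) : ∃ x : ℤ_[2], (l : ℤ_[2]) * x = 1 := by
  have h1 : IsUnit ((l : ℕ) : ℤ_[2]) := by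
    rw [PadicInt.isUnit_iff]
    have h2 := (PadicInt.norm_le_one ((l : ℕ) : ℤ_[2])).lt_or_eq
    rcases h2 with h2 | h2
    · have h3 : ‖((l : ℤ) : ℤ_[2])‖ < 1 := by push_cast; exact h2
      rw [PadicInt.norm_intCast_lt_one_iff] at h3
      obtain ⟨k, hk⟩ := hl
      omega
    · exact h2
  obtain ⟨x, hx⟩ := h1.exists_right_inv
  exact ⟨x, hx⟩

theorem exists_recH {q : ℕ} {s : K} (hK : IsBase K q s) {v : HeightOneSpectrum (𝓞 K)}
    (hv : (2 : 𝓞 K) ∈ v.asIdeal)
    (ι : AlgebraicClosure K →ₐ[K] AlgebraicClosure (v.adicCompletion K)) {T : Finset ℕ}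
    (hT : ∀ l ∈ T, SplitPr q l) {c : AlgebraicClosure K ≃+* AlgebraicClosure K}
    (hc : PA.IsConj s c) {κ : AbsGal K →* AbsGal K}
    (hκ : ∀ (σ : AbsGal K) (x : AlgebraicClosure K), κ σ x = c (σ (c x)))
    {P : ℕ → Ideal (𝓞 (AlgebraicClosure K))}
    (hP : ∀ l ∈ T, (P l).IsPrime ∧ (l : 𝓞 (AlgebraicClosure K)) ∈ P l) :
    ∃ (inv : ∀ w : Option T, (DD ι P w → DD ι P w → A0) → A0)
      (N : Option T → AbsGal K → AbsGal K → ℤ_[2]) (e : T → ℤ_[2]),
      RecH (sysT K T) (fun w => sysD K T (DD ι P w)) (fun w => (DD ι P w).subtype) cyc inv κ N e ∧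
      Module.finrank (ZMod 2) (homs (sysD K T (DD ι P (T := T) none)) ⊤) = 3 ∧
      (∀ l : T, Module.finrank (ZMod 2) (homs (sysD K T (DD ι P (some l))) ⊤) = 2) ∧
      (∀ l : T, ∀ f : stabD (P l) → stabD (P l) → A0, ∃ (u : ℤ_[2]) (σ τ : stabD (P l)),
        (τ : AbsGal K) ∈ (P l).inertia (AbsGal K) ∧ inv (some l) f = u • iota σ τ l f) := by
  classical
  obtain ⟨lam, hlam⟩ := exists_lam
  obtain ⟨r₀, a₀, inv₀, hr₀, hsu₀, L₀, hV₀, hrank⟩ := exists_invV hK hv ι T hlam
  obtain ⟨c', hc', hval⟩ := exists_c hK hv hlam hc (κ := κ) hκ L₀ hr₀ hV₀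
  have hi := PA.isInvol hc.sq hκ
  have hch := PA.isChar_cyc (K := K)
  have hchT : IsChar (sysT K T) (cyc (K := K)) := ⟨hch.one, hch.mul, fun n => by
    obtain ⟨W, hW, h1⟩ := hch.cont n
    exact ⟨W, Good.goodT hW T, h1⟩, hch.odd⟩
  have hpsT : PA.C1 (sysT K T) (fun g => lam (cyc g)) := fun n => by
    obtain ⟨W, hW, h1⟩ := psi_c1 (K := K) hlam n
    exact ⟨W, Good.goodT hW T, h1⟩
  have hps : ∀ g h : AbsGal K, lam (cyc (g * h)) = lam (cyc g) + lam (cyc h) := psi_mul hlam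
  have hlam1 : lam 1 = 0 := hlam.one
  -- data at the primes of `T`
  have hdat : ∀ l : T, ∃ (rl : ℕ → AlgebraicClosure K) (bl : AbsGal K → ℤ_[2])
      (σ τ : stabD (P l)) (rα : ℕ → AlgebraicClosure K) (a : AbsGal K → ℤ_[2]) (h j : ℤ),
      IsKum rl bl ∧ rl 0 = ((l : ℕ) : AlgebraicClosure K) ∧
      (τ : AbsGal K) ∈ (P l).inertia (AbsGal K) ∧
      TameD (sysD K T (stabD (P l))) (fun d => cyc (d : AbsGal K))
        (fun d => bl (d : AbsGal K)) σ τ l ∧ Odd h ∧ IsKum rα a ∧ UT T (rα 0) ∧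
      rα 0 * c (rα 0) = ((l : ℕ) : AlgebraicClosure K) ^ h * 2 ^ j ∧
      (∀ n ∈ (P l).inertia (AbsGal K), a n = h * bl n) ∧
      (∀ n ∈ (P l).inertia (AbsGal K), a (κ n) = 0) ∧
      ∀ l' : T, l' ≠ l → ∀ n ∈ (P l').inertia (AbsGal K), a n = 0 ∧ a (κ n) = 0 := by
    intro l
    have hl := hT l l.2
    obtain ⟨rl, bl, hb, hb0⟩ := b3r_nat (K := K) (l : ℕ) hl.1.ne_zero
    obtain ⟨σ, τ, hτ, hD⟩ := tameD hK hl l.2 (hP l l.2).1 (hP l l.2).2 hb hb0
    obtain ⟨rα, a, h, j, hodd, ha, hut, hn, h1, h2, h3⟩ :=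
      exists_alpha hK hl l.2 hc (κ := κ) hκ (hP l l.2).1 (hP l l.2).2
    refine ⟨rl, bl, σ, τ, rα, a, h, j, hb, hb0, hτ, hD, hodd, ha, hut, hn,
      h1 rl bl hb hb0, h2, fun l' hne n hn' => ?_⟩
    have hl' := hT l' l'.2
    exact h3 l' hl'.1 hl'.2.1 (fun h => hne (Subtype.ext h)) (P l') (hP l' l'.2).1
      (hP l' l'.2).2 n hn'
  choose rl bl σ τ rα a h j hb hb0 hτ hD hodd ha hut hnorm hin hink hoff using hdat
  have hli : ∀ l : T, ∃ x : ℤ_[2], ((l : ℕ) : ℤ_[2]) * x = 1 := fun l =>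
    b3r_unit ((hT l l.2).1.odd_of_ne_two (hT l l.2).2.1)
  choose li hli using hli
  have h2P : ∀ l : T, (2 : 𝓞 (AlgebraicClosure K)) ∉ P l := fun l =>
    b3r_two (hT l l.2) (hP l l.2).1 (hP l l.2).2
  have hcτ : ∀ l : T, cyc ((τ l : stabD (P l)) : AbsGal K) = 1 := fun l =>
    cyc_inertia (hP l l.2).1 (h2P l) (hτ l)
  have hbτ : ∀ l : T, bl l ((τ l : stabD (P l)) : AbsGal K) = 1 := fun l => (hD l).τa
  -- the cocycles
  let A : Option T → AbsGal K → ℤ_[2] := fun w => Option.rec a₀ (fun l => a l) w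
  have hAn : A none = a₀ := rfl
  have hAs : ∀ l, A (some l) = a l := fun l => rfl
  have hAk : ∀ w, ∃ r, IsKum r (A w) ∧ UT T (r 0) := by
    rintro (_ | l)
    · exact ⟨r₀, hr₀, SU.ut hsu₀ T⟩
    · exact ⟨rα l, ha l, hut l⟩
  have hAc : ∀ w, PA.C1 (sysT K T) (A w) := fun w => by
    obtain ⟨r, h1, h2⟩ := hAk w
    exact h1.c1 h2
  have hAm : ∀ w g k, A w (g * k) = A w g + cyc g * A w k := fun w => by
    obtain ⟨r, h1, h2⟩ := hAk w
    exact h1.coc
  have hA1 : ∀ w, A w 1 = 0 := fun w => by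
    have h1 := hAm w 1 1
    rw [mul_one, hch.one, one_mul] at h1
    exact left_eq_add.1 h1
  have hsuU : ∀ l : T, ∀ x : AlgebraicClosure K, SU x → UnitAt (P l) x := fun l x hx =>
    (SU.ut hx ∅).2 (P l) (hP l l.2).1 (h2P l) (fun l' hl' => absurd hl' (Finset.notMem_empty l'))
  have hAκ : ∀ (l : T) (w : Option T), A w (κ ((τ l : stabD (P l)) : AbsGal K)) = 0 := by
    rintro l (_ | l')
    · have h1 := (hr₀.kap hK hc (κ := κ) hκ).inertia (hP l l.2).1 (h2P l)
        (hsuU l _ (SU.map (c : AlgebraicClosure K →+* AlgebraicClosure K) hsu₀)) (hτ l)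
      exact neg_eq_zero.1 h1
    · by_cases hne : l = l'
      · subst hne
        exact hink l _ (hτ l)
      · exact (hoff l' l hne _ (hτ l)).2
  have hAoff : ∀ (l : T) (w : Option T), w ≠ some l → A w ((τ l : stabD (P l)) : AbsGal K) = 0 := by
    rintro l (_ | l') hw
    · exact hr₀.inertia (hP l l.2).1 (h2P l) (hsuU l _ hsu₀) (hτ l)
    · have hne : l ≠ l' := fun h => hw (by rw [h])
      exact (hoff l' l hne _ (hτ l)).1
  let N : Option T → AbsGal K → AbsGal K → ℤ_[2] := fun w g k => A w g * lam (cyc k)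
  let inv : ∀ w : Option T, (DD ι P w → DD ι P w → A0) → A0 := fun w =>
    Option.rec (motive := fun w => (DD ι P w → DD ι P w → A0) → A0) inv₀
      (fun l f => (c' * li l) • iota (σ l) (τ l) l f) w
  have hinvn : inv none = inv₀ := rfl
  have hinvs : ∀ l f, inv (some l) f = (c' * li l) • iota (σ l) (τ l) l f := fun l f => rfl
  have hloc : ∀ w, LocH (sysD K T (DD ι P w)) (fun d => cyc (d : AbsGal K)) (inv w) := by
    rintro (_ | l)
    · exact L₀
    · exact tame_locH (hD l) (hc'.mul (IsUnit.of_mul_eq_one_right _ (hli l)))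
  -- values of `iota`
  have hiota : ∀ (l : T) (A' ψ : AbsGal K → ℤ_[2]),
      (∀ g k, A' (g * k) = A' g + cyc g * A' k) → (∀ g k, ψ (g * k) = ψ g + ψ k) →
      ψ ((τ l : stabD (P l)) : AbsGal K) = 0 → ∀ t : A0,
      inv (some l) (fun x y => (A' ((x : stabD (P l)) : AbsGal K) * ψ (y : AbsGal K)) • t) =
        (-(c' * (A' ((τ l : stabD (P l)) : AbsGal K) *
          ψ ((σ l : stabD (P l)) : AbsGal K)))) • t := by
    intro l A' ψ h1 h2 h3 t
    have e1 := iota_smul (σ := σ l) (τ := τ l) (l := (l : ℕ))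
      (f := fun x y : stabD (P l) => A' (x : AbsGal K) * ψ (y : AbsGal K)) t
    have e2 := iota_cup (D := stabD (P l)) (σ := σ l) (τ := τ l) (l := (l : ℕ))
      (χ := fun d => cyc (d : AbsGal K))
      (a := fun d => A' (d : AbsGal K)) (ψ := fun d => ψ (d : AbsGal K))
      (fun g k => h1 _ _) (fun g k => h2 _ _) (hcτ l) h3
    rw [e2] at e1
    rw [hinvs]
    refine (congrArg ((c' * li l) • ·) e1).trans ?_
    show (c' * li l) • ((-(((l : ℕ) : ℤ_[2]) * A' ((τ l : stabD (P l)) : AbsGal K) *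
      ψ ((σ l : stabD (P l)) : AbsGal K))) • t) = _
    rw [smul_smul]
    congr 1
    have := hli l
    linear_combination (-(c' * A' ((τ l : stabD (P l)) : AbsGal K) *
      ψ ((σ l : stabD (P l)) : AbsGal K))) * this
  have hψσ : ∀ l : T, lam (cyc ((σ l : stabD (P l)) : AbsGal K)) = lam ((l : ℕ) : ℤ_[2]) := fun l => by
    rw [(hD l).σχ]
  have hψτ : ∀ l : T, lam (cyc ((τ l : stabD (P l)) : AbsGal K)) = 0 := fun l => by
    rw [hcτ, hlam1]
  have hmul : ∀ (l : T) (w : Option T) (t : A0), inv (some l) (fun x y => N w ((DD ι P (some l)).subtype x)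
      ((DD ι P (some l)).subtype y) • t) =
        (-(c' * (A w ((τ l : stabD (P l)) : AbsGal K) * lam ((l : ℕ) : ℤ_[2])))) • t := by
    intro l w t
    rw [← hψσ l]
    exact hiota l (A w) (fun g => lam (cyc g)) (hAm w) hps (hψτ l) t
  have hmulk : ∀ (l : T) (w : Option T) (t : A0), inv (some l) (fun x y => N w (κ ((DD ι P (some l)).subtype x))
      (κ ((DD ι P (some l)).subtype y)) • t) = 0 := by
    intro l w t
    have h1 := hiota l (fun g => A w (κ g)) (fun g => lam (cyc (κ g)))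
      (fun g k => by rw [map_mul, hAm, hi.chi]) (fun g k => by rw [map_mul, hps])
      (by rw [hi.chi]; exact hψτ l) t
    rw [hAκ l w, zero_mul, mul_zero, neg_zero, zero_smul] at h1
    exact h1
  have hvs : ∀ (l : T) (t : A0), inv (some l) (fun x y => N (some l) ((DD ι P (some l)).subtype x)
      ((DD ι P (some l)).subtype y) • t) = (-(c' * (h l * lam ((l : ℕ) : ℤ_[2])))) • t := by
    intro l t
    rw [hmul l (some l) t, hAs, hin l _ (hτ l), hbτ, mul_one]
  have hvo : ∀ (l : T) (w : Option T), w ≠ some l → ∀ t : A0, inv (some l)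
      (fun x y => N w ((DD ι P (some l)).subtype x) ((DD ι P (some l)).subtype y) • t) = 0 := by
    intro l w hw t
    rw [hmul l w t, hAoff l w hw, zero_mul, mul_zero, neg_zero, zero_smul]
  refine ⟨inv, N, fun l => -(c' * (h l * lam ((l : ℕ) : ℤ_[2]))), ?_, hrank,
    fun l => (tame_homs (hD l)).2, fun l f => ⟨_, σ l, τ l, hτ l, rfl⟩⟩
  refine ⟨hchT, hloc, ?_, hi.inv, ?_, hi.chi, ?_, ?_, ?_, ?_, ?_, hvs, hvo, hmulk, ?_⟩
  · exact fun w W hW => ⟨_, ⟨W, hW, rfl⟩, fun v hv => hv⟩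
  · intro W hW
    obtain ⟨W', hW', h1⟩ := kapT hc (κ := κ) hκ T hW
    exact ⟨W', hW', fun v hv => (h1 v).1 hv⟩
  · exact fun f hf h1 h2 => inj_places hK hv ι hT hc hκ hP hloc hf h1 h2
  · exact fun w => z2_cup hchT (hAc w) (hAm w) hpsT hps
  · intro w g
    refine ⟨?_, ?_⟩
    · show A w g * lam (cyc 1) = 0
      rw [hch.one, hlam1, mul_zero]
    · show A w 1 * lam (cyc g) = 0
      rw [hA1, zero_mul]
  · intro l h1
    have h2 : c' ≠ 0 := hc'.ne_zero
    have h3 : ((h l : ℤ) : ℤ_[2]) ≠ 0 := by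
      intro h4
      have h5 : h l = 0 := by exact_mod_cast h4
      have := hodd l
      rw [h5] at this
      exact absurd this (by decide)
    have hl := hT l l.2
    have h4 := hlam.ne_zero (hl.1.odd_of_ne_two hl.2.1) hl.1.ne_one
    exact (mul_ne_zero h2 (mul_ne_zero h3 h4)) (neg_eq_zero.1 h1)
  · intro t
    have h1 := hV₀ t
    rw [one_smul] at h1
    exact h1
  · rintro (_ | l) t
    · rw [Fintype.sum_option]
      have h1 : inv none (fun x y => N none ((DD ι P none).subtype x)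
          ((DD ι P none).subtype y) • t) - inv none (fun x y => N none (κ ((DD ι P none).subtype x))
          (κ ((DD ι P none).subtype y)) • t) = 0 := by
        rw [sub_eq_zero]
        exact (inv_sym hK hc (κ := κ) hκ L₀ (F := N none)
          (z2_cup hch (kum_c1_good hr₀ hsu₀) hr₀.coc (psi_c1 hlam) hps) t).symm
      rw [h1, zero_add]
      refine Finset.sum_eq_zero fun l _ => ?_
      rw [hvo l none (by simp) t, hmulk l none t, sub_zero]
    · rw [Fintype.sum_option]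
      -- the place over 2
      have hk := (ha l).kap hK hc (κ := κ) hκ
      obtain ⟨x, hx⟩ := hasV_ex hK hv hlam L₀ (ha l)
      obtain ⟨y, hy⟩ := hasV_ex hK hv hlam L₀ hk
      have hy' := hasV_neg hK hv hlam L₀ hk hy
      obtain ⟨r2, b2, hb2, hb20⟩ := b3r_nat (K := K) 2 two_ne_zero
      have hb20' : r2 0 = 2 := by rw [hb20]; norm_num
      have hV2 := hasV_two hK hv hlam hc (κ := κ) hκ L₀ hb2 hb20'
      have hVl := hval l ((hT l l.2).1.odd_of_ne_two (hT l l.2).2.1) (rl l) (bl l) (hb l) (hb0 l)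
      have hp := (ha l).mul hk
      have hxy : x + y = h l * (lam ((l : ℕ) : ℤ_[2]) * c') + j l * 0 :=
        hasV_uniq (hasV_add hK hv hlam L₀ (ha l) hk hx hy)
          (hasV_zpow hK hv hlam L₀ (hb l) hb2 hp (m := h l) (n := j l)
            (by rw [hb0, hb20']; exact hnorm l) hVl hV2)
      have h1 : inv none (fun x y => N (some l) ((DD ι P none).subtype x)
          ((DD ι P none).subtype y) • t) = x • t := hx t
      have h2 : inv none (fun x y => N (some l) (κ ((DD ι P none).subtype x))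
          (κ ((DD ι P none).subtype y)) • t) = (-y) • t := by
        rw [← hy' t]
        show inv₀ _ = inv₀ _
        congr 1
        funext d e
        show (a l (κ (d : AbsGal K)) * lam (cyc (κ (e : AbsGal K)))) • t =
          (-(-a l (κ (d : AbsGal K))) * lam (cyc (e : AbsGal K))) • t
        rw [hi.chi, neg_neg]
      rw [h1, h2, Finset.sum_eq_single l]
      · rw [hvs l t, hmulk l (some l) t, sub_zero, ← sub_smul, ← add_smul]
        have h3 : x - -y + -(c' * (h l * lam ((l : ℕ) : ℤ_[2]))) = 0 := by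
          linear_combination hxy
        rw [h3, zero_smul]
      · intro l' _ hne
        rw [hvo l' (some l) (fun h => hne (Option.some.inj h).symm) t, hmulk l' (some l) t,
          sub_zero]
      · intro h3
        exact absurd (Finset.mem_univ l) h3

end Pool.Agent.Work.MP_787500_nt.GP
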