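import Mathlib
import Pool.Agent.Work.MP_787500_nt.GP.B0_Smul

/-!
# Module B4_RECIP (size M, generic): reciprocity

Write `R f = ∑ w, (inv w (f ∘ j w) - inv w (f ∘ κ ∘ j w))` for `f ∈ Z2 S (tw χ)`. It is additive (`LocH.add`) and zero on `B2`
(the restrictions of a coboundary are coboundaries; `κ`: `ksys`, `kchi`), and `R (f ∘ κ) = -R f` (`kk`).
Choose `t l`, `t' l` with `e l • t l = inv (some l) (f ∘ j)`, `e l • t' l = inv (some l) (f ∘ κ ∘ j)` (`a0_dvd`), and
`f' = f - ∑ l, (N (some l) • t l + (N (some l) ∘ κ) • t' l)`. By `vals`, `off`, `offk` (and `kk`) `inv (some l)` of `f'` and of `f' ∘ κ` is 0.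
`t₀ = inv none (f' ∘ j)`, `f'' = f' - N none • t₀`: `inv none f'' = 0` (`valn`), and the others are still 0 (`off`, `offk`). By `inj`
`f'' ∈ B2`. So `R f = ∑ (R (N (some l) • t l) - R (N (some l) • t' l)) + R (N none • t₀) + 0 = 0` by `sum`.
-/

set_option autoImplicit false
set_option linter.unusedSectionVars false

namespace Pool.Agent.Work.MP_787500_nt.GP

open Pool.Agent.Work.MP_787500_nt.PA (TwoSys Sm1 Sm2 homs Coc Cob IsChar)

variable {G : Type*} [Group G] {S : TwoSys G} {Λ : Type*} [Fintype Λ]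
  {D : Option Λ → Type*} [∀ w, Group (D w)] {SD : ∀ w, TwoSys (D w)} {j : ∀ w, D w →* G}
  {χ : G → ℤ_[2]} {inv : ∀ w, (D w → D w → A0) → A0} {κ : G →* G}
  {N : Option Λ → G → G → ℤ_[2]} {e : Λ → ℤ_[2]}

theorem RecH.b4_kap (H : RecH S SD j χ inv κ N e) {f : G → G → A0} (hf : Z2 S (tw χ) f) :
    Z2 S (tw χ) (fun a b => f (κ a) (κ b)) := by
  have h := Z2.comp (SD := S) (j := κ) H.ksys hf
  have e : (fun d => tw χ (κ d)) = tw χ := by
    funext d t
    show χ (κ d) • t = χ d • t
    rw [H.kchi]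
  rwa [e] at h

theorem RecH.b4_loc (H : RecH S SD j χ inv κ N e) {f : G → G → A0} (hf : Z2 S (tw χ) f)
    (w : Option Λ) : Z2 (SD w) (tw fun d => χ (j w d)) (fun a b => f (j w a) (j w b)) :=
  Z2.comp (H.jsm w) hf

theorem RecH.b4_add (H : RecH S SD j χ inv κ N e) {f g : G → G → A0} (hf : Z2 S (tw χ) f)
    (hg : Z2 S (tw χ) g) (w : Option Λ) :
    inv w (fun a b => f (j w a) (j w b) + g (j w a) (j w b)) =
      inv w (fun a b => f (j w a) (j w b)) + inv w (fun a b => g (j w a) (j w b)) :=
  (H.loc w).add _ _ (H.b4_loc hf w) (H.b4_loc hg w)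

theorem RecH.b4_sub (H : RecH S SD j χ inv κ N e) {f g : G → G → A0} (hf : Z2 S (tw χ) f)
    (hg : Z2 S (tw χ) g) (w : Option Λ) :
    inv w (fun a b => f (j w a) (j w b) - g (j w a) (j w b)) =
      inv w (fun a b => f (j w a) (j w b)) - inv w (fun a b => g (j w a) (j w b)) :=
  (H.loc w).sub_map (H.b4_loc hf w) (H.b4_loc hg w)

theorem RecH.b4_sum (H : RecH S SD j χ inv κ N e) {f : Λ → G → G → A0}
    (hf : ∀ l, Z2 S (tw χ) (f l)) (w : Option Λ) :
    inv w (fun a b => ∑ l, f l (j w a) (j w b)) =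
      ∑ l, inv w (fun a b => f l (j w a) (j w b)) :=
  (H.loc w).sum_map Finset.univ (f := fun l a b => f l (j w a) (j w b)) fun l => H.b4_loc (hf l) w

theorem RecH.b4_b2 (H : RecH S SD j χ inv κ N e) {f : G → G → A0} (hf : B2 S (tw χ) f)
    (w : Option Λ) : inv w (fun a b => f (j w a) (j w b)) = 0 := by
  obtain ⟨x, hx, rfl⟩ := hf
  have h := (H.loc w).cob (fun d => x (j w d)) (Sm1.comp (H.jsm w) hx)
  rw [← h]
  congr 1
  funext a b
  show x (j w a) + χ (j w a) • x (j w b) - x (j w a * j w b) =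
    x (j w a) + χ (j w a) • x (j w b) - x (j w (a * b))
  rw [map_mul]

theorem RecH.b4_kb2 (H : RecH S SD j χ inv κ N e) {f : G → G → A0} (hf : B2 S (tw χ) f) :
    B2 S (tw χ) (fun a b => f (κ a) (κ b)) := by
  obtain ⟨x, hx, rfl⟩ := hf
  refine ⟨fun g => x (κ g), Sm1.comp (SD := S) (j := κ) H.ksys hx, ?_⟩
  funext a b
  show x (κ a) + χ (κ a) • x (κ b) - x (κ a * κ b) = x (κ a) + χ a • x (κ b) - x (κ (a * b))
  rw [map_mul, H.kchi]

theorem RecH.b4_z2sum (H : RecH S SD j χ inv κ N e) {f : Λ → G → G → A0}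
    (hf : ∀ l, Z2 S (tw χ) (f l)) : Z2 S (tw χ) (fun a b => ∑ l, f l a b) := by
  classical
  have hact := isAct_tw H.char
  have key : ∀ s : Finset Λ, Z2 S (tw χ) (fun a b => ∑ l ∈ s, f l a b) := by
    intro s
    induction s using Finset.induction_on with
    | empty =>
      simp only [Finset.sum_empty]
      obtain ⟨W, hW⟩ := S.ex
      refine ⟨⟨W, hW, fun _ _ _ _ _ _ => rfl⟩, fun a b c => ?_⟩
      show χ a • (0 : A0) - 0 + 0 - 0 = 0
      rw [smul_zero, sub_zero, add_zero, sub_zero]
    | insert i s hi ih =>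
      have e : (fun a b : G => ∑ l ∈ insert i s, f l a b) =
          fun a b => f i a b + ∑ l ∈ s, f l a b := by
        funext a b
        rw [Finset.sum_insert hi]
      rw [e]
      exact (hf i).add hact ih
  exact key Finset.univ

theorem RecH.b4_z2sub (H : RecH S SD j χ inv κ N e) {f g : G → G → A0} (hf : Z2 S (tw χ) f)
    (hg : Z2 S (tw χ) g) : Z2 S (tw χ) (fun a b => f a b - g a b) := by
  have hact := isAct_tw H.char
  have h := hf.add hact (hg.neg hact)
  have e : (fun a b : G => f a b - g a b) = fun a b => f a b + -g a b := by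
    funext a b
    rw [sub_eq_add_neg]
  rw [e]
  exact h

theorem RecH.recip (H : RecH S SD j χ inv κ N e) {f : G → G → A0} (hf : Z2 S (tw χ) f) :
    ∑ w, (inv w (fun a b => f (j w a) (j w b)) -
      inv w (fun a b => f (κ (j w a)) (κ (j w b)))) = 0 := by
  classical
  have hact := isAct_tw H.char
  -- the elements
  choose t ht using fun l => a0_dvd (H.ne l) (inv (some l) (fun a b => f (j _ a) (j _ b)))
  choose t' ht' using fun l => a0_dvd (H.ne l) (inv (some l) (fun a b => f (κ (j _ a)) (κ (j _ b))))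
  set F1 : G → G → A0 := fun a b => ∑ l, N (some l) a b • t l with hF1
  set F2 : G → G → A0 := fun a b => ∑ l, N (some l) (κ a) (κ b) • t' l with hF2
  have hN : ∀ w (s : A0), Z2 S (tw χ) (fun a b => N w a b • s) := fun w s => z2_smul (H.z2 w) s
  have hNk : ∀ w (s : A0), Z2 S (tw χ) (fun a b => N w (κ a) (κ b) • s) :=
    fun w s => H.b4_kap (hN w s)
  have z1 : Z2 S (tw χ) F1 := H.b4_z2sum fun l => hN (some l) (t l)
  have z2 : Z2 S (tw χ) F2 := H.b4_z2sum fun l => hNk (some l) (t' l)
  set g : G → G → A0 := fun a b => f a b - (F1 a b + F2 a b) with hg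
  have zg : Z2 S (tw χ) g := H.b4_z2sub hf (z1.add hact z2)
  set t₀ : A0 := inv none (fun a b => g (j _ a) (j _ b)) with ht₀
  set F : G → G → A0 := fun a b => g a b - N none a b • t₀ with hF
  have zF : Z2 S (tw χ) F := H.b4_z2sub zg (hN none t₀)
  -- invariants of g
  have k1 : ∀ w, inv w (fun a b => g (j w a) (j w b)) =
      inv w (fun a b => f (j w a) (j w b)) -
        (∑ l, inv w (fun a b => N (some l) (j w a) (j w b) • t l) +
          ∑ l, inv w (fun a b => N (some l) (κ (j w a)) (κ (j w b)) • t' l)) := by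
    intro w
    have h1 := H.b4_sub hf (z1.add hact z2) w
    have h2 := H.b4_add z1 z2 w
    have h3 := H.b4_sum (fun l => hN (some l) (t l)) w
    have h4 := H.b4_sum (fun l => hNk (some l) (t' l)) w
    rw [← h3, ← h4, ← h2]
    exact h1
  have k2 : ∀ w, inv w (fun a b => g (κ (j w a)) (κ (j w b))) =
      inv w (fun a b => f (κ (j w a)) (κ (j w b))) -
        (∑ l, inv w (fun a b => N (some l) (κ (j w a)) (κ (j w b)) • t l) +
          ∑ l, inv w (fun a b => N (some l) (j w a) (j w b) • t' l)) := by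
    intro w
    have h1 := H.b4_sub (H.b4_kap hf) (H.b4_kap (z1.add hact z2)) w
    have h2 := H.b4_add (H.b4_kap z1) (H.b4_kap z2) w
    have h3 := H.b4_sum (fun l => hNk (some l) (t l)) w
    have h4 := H.b4_sum (fun l => H.b4_kap (hNk (some l) (t' l))) w
    simp only [H.kk] at h4
    have h5 : inv w (fun a b => F2 (κ (j w a)) (κ (j w b))) =
        inv w (fun a b => ∑ l, N (some l) (j w a) (j w b) • t' l) := by
      simp only [hF2, H.kk]
    rw [← h3, ← h4, ← h5, ← h2]
    exact h1
  -- invariants of F at the places of Λ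
  have k3 : ∀ l, inv (some l) (fun a b => g (j _ a) (j _ b)) = 0 := by
    intro l
    rw [k1, Finset.sum_eq_single l, H.vals, ht, Finset.sum_eq_zero, add_zero, sub_self]
    · intro l' _
      exact H.offk l (some l') (t' l')
    · intro l' _ hl
      exact H.off l (some l') (fun h => hl (Option.some_injective _ h)) (t l')
    · intro h
      exact absurd (Finset.mem_univ l) h
  have k4 : ∀ l, inv (some l) (fun a b => g (κ (j _ a)) (κ (j _ b))) = 0 := by
    intro l
    rw [k2, Finset.sum_eq_zero, Finset.sum_eq_single l, H.vals, ht', zero_add, sub_self]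
    · intro l' _ hl
      exact H.off l (some l') (fun h => hl (Option.some_injective _ h)) (t' l')
    · intro h
      exact absurd (Finset.mem_univ l) h
    · intro l' _
      exact H.offk l (some l') (t l')
  have k5 : ∀ w, inv w (fun a b => F (j w a) (j w b)) = 0 := by
    intro w
    have h1 := H.b4_sub zg (hN none t₀) w
    have h2 : inv w (fun a b => F (j w a) (j w b)) = inv w (fun a b => g (j w a) (j w b)) -
        inv w (fun a b => N none (j w a) (j w b) • t₀) := h1
    rw [h2]
    rcases w with _ | l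
    · rw [H.valn, ← ht₀, sub_self]
    · rw [k3, H.off l none (by simp) t₀, sub_zero]
  have k6 : ∀ l, inv (some l) (fun a b => F (κ (j _ a)) (κ (j _ b))) = 0 := by
    intro l
    have h1 := H.b4_sub (H.b4_kap zg) (hNk none t₀) (some l)
    have h2 : inv (some l) (fun a b => F (κ (j _ a)) (κ (j _ b))) =
        inv (some l) (fun a b => g (κ (j _ a)) (κ (j _ b))) -
        inv (some l) (fun a b => N none (κ (j _ a)) (κ (j _ b)) • t₀) := h1
    rw [h2, k4, H.offk l none t₀, sub_zero]
  have hB := H.inj F zF k5 k6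
  have k7 : ∀ w, inv w (fun a b => F (κ (j w a)) (κ (j w b))) = 0 :=
    fun w => H.b4_b2 (H.b4_kb2 hB) w
  -- invariants of f
  have m1 : ∀ w, inv w (fun a b => f (j w a) (j w b)) =
      (∑ l, inv w (fun a b => N (some l) (j w a) (j w b) • t l) +
          ∑ l, inv w (fun a b => N (some l) (κ (j w a)) (κ (j w b)) • t' l)) +
        inv w (fun a b => N none (j w a) (j w b) • t₀) := by
    intro w
    have h1 := H.b4_sub zg (hN none t₀) w
    have h2 : inv w (fun a b => F (j w a) (j w b)) = inv w (fun a b => g (j w a) (j w b)) -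
        inv w (fun a b => N none (j w a) (j w b) • t₀) := h1
    rw [k5, k1] at h2
    rw [eq_comm, sub_eq_zero] at h2
    rw [← h2]
    abel
  have m2 : ∀ w, inv w (fun a b => f (κ (j w a)) (κ (j w b))) =
      (∑ l, inv w (fun a b => N (some l) (κ (j w a)) (κ (j w b)) • t l) +
          ∑ l, inv w (fun a b => N (some l) (j w a) (j w b) • t' l)) +
        inv w (fun a b => N none (κ (j w a)) (κ (j w b)) • t₀) := by
    intro w
    have h1 := H.b4_sub (H.b4_kap zg) (hNk none t₀) w
    have h2 : inv w (fun a b => F (κ (j w a)) (κ (j w b))) =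
        inv w (fun a b => g (κ (j w a)) (κ (j w b))) -
        inv w (fun a b => N none (κ (j w a)) (κ (j w b)) • t₀) := h1
    rw [k7, k2] at h2
    rw [eq_comm, sub_eq_zero] at h2
    rw [← h2]
    abel
  have m3 : ∀ w, inv w (fun a b => f (j w a) (j w b)) -
      inv w (fun a b => f (κ (j w a)) (κ (j w b))) =
      ∑ l, (inv w (fun a b => N (some l) (j w a) (j w b) • t l) -
          inv w (fun a b => N (some l) (κ (j w a)) (κ (j w b)) • t l)) -
      ∑ l, (inv w (fun a b => N (some l) (j w a) (j w b) • t' l) -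
          inv w (fun a b => N (some l) (κ (j w a)) (κ (j w b)) • t' l)) +
      (inv w (fun a b => N none (j w a) (j w b) • t₀) -
        inv w (fun a b => N none (κ (j w a)) (κ (j w b)) • t₀)) := by
    intro w
    rw [m1, m2, Finset.sum_sub_distrib, Finset.sum_sub_distrib]
    abel
  rw [Finset.sum_congr rfl fun w _ => m3 w, Finset.sum_add_distrib, Finset.sum_sub_distrib,
    H.sum none t₀, add_zero, Finset.sum_comm, Finset.sum_eq_zero fun l _ => H.sum (some l) (t l),
    Finset.sum_comm, Finset.sum_eq_zero fun l _ => H.sum (some l) (t' l), sub_zero]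

end Pool.Agent.Work.MP_787500_nt.GP
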