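import Mathlib
import Pool.Agent.Work.MP_787500_nt.GP.T03_Coch

/-!
# Module T18_COUNT (size M): the clause `mid` from a count of dimensions

`V = homs S ⊤`, `U = ∏ i, homs (SD i) ⊤` (finite dimensional over `ZMod 2`). For `ψ, φ ∈ U` let
`β (ψ, φ) : ZMod 2` be the element with `hf (β (ψ, φ)) = ∑ i, inv i (hf (ψ i a * φ i b))` (`eq_hf`: twice
the right hand side is 0, as `inv i` is additive on cocycles and `inv i 0 = 0`; `hf (ψ ∪ φ)` is a cocycle
for `tw χ`: `smul_hf`, `IsChar.odd`). `β` is bilinear and nondegenerate on the left (`LocH.nondeg`,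
with `φ` supported at one index). The restriction `res : V → U` is injective (`hinj`) and its image is
isotropic: `hf (ω ∪ ω') ∈ Z2 S (tw χ)`, `hrec`. By `hcount` `dim (res V) = dim U / 2`. The left
annihilator `{ψ | β (ψ, res ω) = 0 for all ω}` has dimension `dim U - dim (res V) = dim (res V)`
(`β` nondegenerate on the left and `U` finite dimensional: the map `U → Dual U` is an isomorphism) and
contains `res V`, so it is `res V`.
-/

set_option autoImplicit false
set_option linter.unusedSectionVars false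

namespace Pool.Agent.Work.MP_787500_nt.GP

open Pool.Agent.Work.MP_787500_nt.PA (TwoSys Sm1 Sm2 homs Coc Cob IsChar)

section one

variable {D : Type*} [Group D] {SD : TwoSys D} {χ : D → ℤ_[2]} {inv : (D → D → A0) → A0}

private theorem t18_hf_sub (a b : ZMod 2) : hf (a - b) = hf a - hf b := by
  rw [sub_eq_add_neg, ZMod.neg_eq_self_mod_two, hf_add, sub_eq_add_neg, hf_neg]

private theorem t18_cup_Z2 (hχ : IsChar SD χ) {ψ ω : D → ZMod 2} (hψ : ψ ∈ homs SD ⊤)
    (hω : ω ∈ homs SD ⊤) : Z2 SD (tw χ) (fun a b => hf (ψ a * ω b)) := by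
  obtain ⟨h1, -, h3⟩ := hψ
  obtain ⟨k1, -, k3⟩ := hω
  refine ⟨sm2_pair h1 k1 (fun x y => hf (x * y)), fun a b c => ?_⟩
  show χ a • hf (ψ b * ω c) - hf (ψ (a * b) * ω c) + hf (ψ a * ω (b * c)) - hf (ψ a * ω b) = 0
  rw [smul_hf (hχ.odd a), ← t18_hf_sub, ← hf_add, ← t18_hf_sub,
    h3 a (Subgroup.mem_top a) b (Subgroup.mem_top b),
    k3 b (Subgroup.mem_top b) c (Subgroup.mem_top c)]
  have : ψ b * ω c - (ψ a + ψ b) * ω c + ψ a * (ω b + ω c) - ψ a * ω b = 0 := by ring
  rw [this, hf_zero]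

private theorem t18_inv0 (L : LocH SD χ inv) : inv (fun _ _ => 0) = 0 := by
  have := L.cob (fun _ => 0) (by
    obtain ⟨W, hW⟩ := SD.ex
    exact ⟨W, hW, fun _ _ _ => rfl⟩)
  convert this using 2
  funext a b
  simp [d1, tw]

private theorem t18_add_left (L : LocH SD χ inv) {ψ ψ' ω : D → ZMod 2} (hψ : ψ ∈ homs SD ⊤)
    (hψ' : ψ' ∈ homs SD ⊤) (hω : ω ∈ homs SD ⊤) :
    inv (fun a b => hf ((ψ + ψ') a * ω b)) =
      inv (fun a b => hf (ψ a * ω b)) + inv (fun a b => hf (ψ' a * ω b)) := by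
  rw [← L.add _ _ (t18_cup_Z2 L.char hψ hω) (t18_cup_Z2 L.char hψ' hω)]
  congr 1
  funext a b
  rw [Pi.add_apply, add_mul, hf_add]

private theorem t18_add_right (L : LocH SD χ inv) {ψ ω ω' : D → ZMod 2} (hψ : ψ ∈ homs SD ⊤)
    (hω : ω ∈ homs SD ⊤) (hω' : ω' ∈ homs SD ⊤) :
    inv (fun a b => hf (ψ a * (ω + ω') b)) =
      inv (fun a b => hf (ψ a * ω b)) + inv (fun a b => hf (ψ a * ω' b)) := by
  rw [← L.add _ _ (t18_cup_Z2 L.char hψ hω) (t18_cup_Z2 L.char hψ hω')]
  congr 1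
  funext a b
  rw [Pi.add_apply, mul_add, hf_add]

/-- the local pairing -/
private theorem t18_pair (L : LocH SD χ inv) : ∃ β : homs SD ⊤ →+ homs SD ⊤ →+ ZMod 2,
    ∀ ψ φ : homs SD ⊤, hf (β ψ φ) = inv (fun a b => hf (ψ.1 a * φ.1 b)) := by
  have h2 : ∀ ψ φ : homs SD ⊤, ∃ c : ZMod 2, inv (fun a b => hf (ψ.1 a * φ.1 b)) = hf c := by
    intro ψ φ
    refine eq_hf ?_
    rw [← t18_add_left L ψ.2 ψ.2 φ.2]
    have : (fun a b => hf ((ψ.1 + ψ.1) a * φ.1 b)) = fun (_ : D) (_ : D) => (0 : A0) := by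
      funext a b
      rw [Pi.add_apply, CharTwo.add_self_eq_zero, zero_mul, hf_zero]
    rw [this, t18_inv0 L]
  choose c hc using h2
  refine ⟨AddMonoidHom.mk' (fun ψ => AddMonoidHom.mk' (fun φ => c ψ φ) ?_) ?_, ?_⟩
  · intro φ φ'
    apply hf_inj
    rw [hf_add, ← hc, ← hc, ← hc, ← t18_add_right L ψ.2 φ.2 φ'.2]
    rfl
  · intro ψ ψ'
    ext φ
    show c (ψ + ψ') φ = c ψ φ + c ψ' φ
    apply hf_inj
    rw [hf_add, ← hc, ← hc, ← hc, ← t18_add_left L ψ.2 ψ'.2 φ.2]
    rfl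
  · intro ψ φ
    exact (hc ψ φ).symm

end one

variable {G : Type*} [Group G] {S : TwoSys G} {I : Type*} [Fintype I] {D : I → Type*}
  [∀ i, Group (D i)] {SD : ∀ i, TwoSys (D i)} {j : ∀ i, D i →* G} {χ : G → ℤ_[2]}
  {inv : ∀ i, (D i → D i → A0) → A0}

private theorem t18_hf_sum {ι : Type*} (s : Finset ι) (f : ι → ZMod 2) :
    hf (∑ i ∈ s, f i) = ∑ i ∈ s, hf (f i) := by
  classical
  induction s using Finset.induction_on with
  | empty => simp [hf_zero]
  | insert a s ha ih => rw [Finset.sum_insert ha, Finset.sum_insert ha, hf_add, ih]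

/-- linear algebra: a subspace of half the dimension, isotropic for a left nondegenerate form -/
private theorem t18_lin {U V : Type*} [AddCommGroup U] [AddCommGroup V] [Module (ZMod 2) U]
    [Module (ZMod 2) V] [FiniteDimensional (ZMod 2) U] [FiniteDimensional (ZMod 2) V]
    (β : U →ₗ[ZMod 2] U →ₗ[ZMod 2] ZMod 2) (hβ : ∀ u, (∀ v, β u v = 0) → u = 0)
    (r : V →ₗ[ZMod 2] U) (hr : Function.Injective r) (hiso : ∀ v w, β (r v) (r w) = 0)
    (hdim : 2 * Module.finrank (ZMod 2) V = Module.finrank (ZMod 2) U) (u : U)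
    (hu : ∀ v, β u (r v) = 0) : ∃ v, r v = u := by
  -- the map `U → Dual V`, `u ↦ β u ∘ r`
  let T : U →ₗ[ZMod 2] Module.Dual (ZMod 2) V := (LinearMap.lcomp (ZMod 2) (ZMod 2) r).comp β
  have hT : ∀ u v, T u v = β u (r v) := fun _ _ => rfl
  have hsurjβ : Function.Surjective β := by
    have hinj : Function.Injective β := by
      rw [← LinearMap.ker_eq_bot, LinearMap.ker_eq_bot']
      intro m hm
      exact hβ m fun v => by rw [hm, LinearMap.zero_apply]
    have e : Module.finrank (ZMod 2) U = Module.finrank (ZMod 2) (Module.Dual (ZMod 2) U) :=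
      Subspace.dual_finrank_eq.symm
    exact (LinearMap.injective_iff_surjective_of_finrank_eq_finrank e).1 hinj
  have hsurjr : Function.Surjective (LinearMap.lcomp (ZMod 2) (ZMod 2) r) := by
    have := LinearMap.dualMap_surjective_of_injective hr
    exact this
  have hTs : Function.Surjective T := hsurjr.comp hsurjβ
  have h1 := LinearMap.finrank_range_add_finrank_ker T
  rw [LinearMap.range_eq_top.2 hTs, finrank_top, Subspace.dual_finrank_eq] at h1
  have h2 : LinearMap.range r ≤ LinearMap.ker T := by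
    rintro _ ⟨v, rfl⟩
    rw [LinearMap.mem_ker]
    ext w
    rw [hT, hiso, LinearMap.zero_apply]
  have h3 : Module.finrank (ZMod 2) (LinearMap.range r) = Module.finrank (ZMod 2) V :=
    LinearMap.finrank_range_of_inj hr
  have h4 : LinearMap.range r = LinearMap.ker T := by
    apply Submodule.eq_of_le_of_finrank_eq h2
    omega
  have h5 : u ∈ LinearMap.ker T := by
    rw [LinearMap.mem_ker]
    ext w
    rw [hT, hu, LinearMap.zero_apply]
  rw [← h4] at h5
  exact h5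

theorem mid_of_count (hχ : IsChar S χ)
    (jsm : ∀ i W, S.mem W → ∃ W', (SD i).mem W' ∧ ∀ w ∈ W', j i w ∈ W)
    (loc : ∀ i, LocH (SD i) (fun d => χ (j i d)) (inv i))
    (hfin : FiniteDimensional (ZMod 2) (homs S ⊤))
    (hinj : ∀ ω ∈ homs S ⊤, (∀ i d, ω (j i d) = 0) → ω = 0)
    (hrec : ∀ f, Z2 S (tw χ) f → ∑ i, inv i (fun a b => f (j i a) (j i b)) = 0)
    (hcount : 2 * Module.finrank (ZMod 2) (homs S ⊤) =
      ∑ i, Module.finrank (ZMod 2) (homs (SD i) ⊤))
    (ψ : ∀ i, D i → ZMod 2) (hψ : ∀ i, ψ i ∈ homs (SD i) ⊤)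
    (h0 : ∀ ω ∈ homs S ⊤, ∑ i, inv i (fun a b => hf (ψ i a * ω (j i b))) = 0) :
    ∃ ω ∈ homs S ⊤, ∀ i d, ω (j i d) = ψ i d := by
  classical
  choose β hβ using fun i => t18_pair (loc i)
  have : ∀ i, FiniteDimensional (ZMod 2) (homs (SD i) ⊤) := fun i => (loc i).fin
  have hres : ∀ ω ∈ homs S ⊤, ∀ i, (fun d => ω (j i d)) ∈ homs (SD i) ⊤ := by
    rintro ω ⟨h1, -, h3⟩ i
    refine ⟨Sm1.comp (jsm i) h1, fun g hg => absurd (Subgroup.mem_top g) hg, fun g _ k _ => ?_⟩
    show ω (j i (g * k)) = _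
    rw [map_mul, h3 _ (Subgroup.mem_top _) _ (Subgroup.mem_top _)]
  let r : homs S ⊤ →ₗ[ZMod 2] (∀ i, homs (SD i) ⊤) :=
    { toFun := fun ω i => ⟨fun d => ω.1 (j i d), hres ω.1 ω.2 i⟩
      map_add' := fun _ _ => rfl
      map_smul' := fun _ _ => rfl }
  let γ : (∀ i, homs (SD i) ⊤) →+ (∀ i, homs (SD i) ⊤) →+ ZMod 2 :=
    AddMonoidHom.mk' (fun u => AddMonoidHom.mk' (fun v => ∑ i, β i (u i) (v i)) (by
      intro v w
      rw [← Finset.sum_add_distrib]
      exact Finset.sum_congr rfl fun i _ => map_add _ _ _)) (by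
      intro v w
      refine AddMonoidHom.ext fun x => ?_
      show ∑ i, β i ((v + w) i) (x i) = ∑ i, β i (v i) (x i) + ∑ i, β i (w i) (x i)
      rw [← Finset.sum_add_distrib]
      exact Finset.sum_congr rfl fun i _ => by rw [Pi.add_apply, map_add, AddMonoidHom.add_apply])
  have hγ : ∀ u v, γ u v = ∑ i, β i (u i) (v i) := fun _ _ => rfl
  let δ : (∀ i, homs (SD i) ⊤) →ₗ[ZMod 2] (∀ i, homs (SD i) ⊤) →ₗ[ZMod 2] ZMod 2 :=
    LinearMap.mk₂ (ZMod 2) (fun u v => γ u v) (fun a b c => by rw [map_add, AddMonoidHom.add_apply])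
      (fun c a b => by
        have := ((γ.flip b).toZModLinearMap 2).map_smul c a
        exact this)
      (fun a b c => map_add _ _ _)
      (fun c a b => by
        have := ((γ a).toZModLinearMap 2).map_smul c b
        exact this)
  have hδ : ∀ u v, δ u v = ∑ i, β i (u i) (v i) := fun _ _ => rfl
  obtain ⟨ω, hω⟩ := t18_lin δ (by
    intro u hu
    funext i
    have : (u i).1 = 0 := by
      refine (loc i).nondeg _ (u i).2 fun φ hφ => ?_
      have h1 := hu (Pi.single i ⟨φ, hφ⟩)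
      rw [hδ, Finset.sum_eq_single i, Pi.single_eq_same] at h1
      · rw [← hβ i (u i) ⟨φ, hφ⟩, h1, hf_zero]
      · intro k _ hk
        rw [Pi.single_eq_of_ne hk, map_zero]
      · intro hi
        exact absurd (Finset.mem_univ i) hi
    exact Subtype.ext this) r (by
    rw [← LinearMap.ker_eq_bot, LinearMap.ker_eq_bot']
    intro ω hω
    refine Subtype.ext (hinj ω.1 ω.2 fun i d => ?_)
    exact congrFun (congrArg Subtype.val (congrFun hω i)) d) (by
    intro v w
    rw [hδ]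
    apply hf_inj
    rw [t18_hf_sum, hf_zero]
    rw [← hrec _ (t18_cup_Z2 hχ v.2 w.2)]
    exact Finset.sum_congr rfl fun i _ => hβ i _ _) (by
    rw [hcount, Module.finrank_pi_fintype]) (fun i => ⟨ψ i, hψ i⟩) (by
    intro v
    rw [hδ]
    apply hf_inj
    rw [t18_hf_sum, hf_zero, ← h0 v.1 v.2]
    exact Finset.sum_congr rfl fun i _ => hβ i _ _)
  refine ⟨ω.1, ω.2, fun i d => ?_⟩
  exact congrFun (congrArg Subtype.val (congrFun hω i)) d

end Pool.Agent.Work.MP_787500_nt.GP
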