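import Mathlib
import Pool.Agent.Work.MP_787500_nt.GP.B4_Recip
import Pool.Agent.Work.MP_787500_nt.GP.T18_Count

/-!
# Module B5_GLOB (size M, generic): the global hypotheses

`GlobH` for the index type `Option Λ × Bool`. `char`. `jsm`: `H.jsm`, and for the second half `ksys` and `jsm`. `loc`: `H.loc` and
`LocH.negInv` (`χ (κ (j d)) = χ (j d)`: `funext`). `fin`, `inj`, `sha`: hypotheses. `recip`: `H.recip` (the sum over `Option Λ × Bool` is the
sum over `w` of the two terms, `Fintype.sum_prod_type`, `Fintype.sum_bool`). `mid`: `mid_of_count` with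
`2 * finrank = ∑ w, 2 * finrank (homs (SD w) ⊤)`.
-/

set_option autoImplicit false
set_option linter.unusedSectionVars false

namespace Pool.Agent.Work.MP_787500_nt.GP

open Pool.Agent.Work.MP_787500_nt.PA (TwoSys Sm1 Sm2 homs Coc Cob IsChar)

variable {G : Type*} [Group G] {S : TwoSys G} {Λ : Type*} [Fintype Λ]
  {D : Option Λ → Type*} [∀ w, Group (D w)] {SD : ∀ w, TwoSys (D w)} {j : ∀ w, D w →* G}
  {χ : G → ℤ_[2]} {inv : ∀ w, (D w → D w → A0) → A0} {κ : G →* G}
  {N : Option Λ → G → G → ℤ_[2]} {e : Λ → ℤ_[2]}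

theorem RecH.glob (H : RecH S SD j χ inv κ N e) (hfin : FiniteDimensional (ZMod 2) (homs S ⊤))
    (hinj : ∀ ω ∈ homs S ⊤, (∀ w d, ω (j w d) = 0) → (∀ w d, ω (κ (j w d)) = 0) → ω = 0)
    (hsha : ∀ f, Coc S ⊤ f → (∀ w, Cob (SD w) ⊤ (fun a b => f (j w a) (j w b))) →
      (∀ w, Cob (SD w) ⊤ (fun a b => f (κ (j w a)) (κ (j w b)))) → Cob S ⊤ f)
    (hcount : Module.finrank (ZMod 2) (homs S ⊤) = ∑ w, Module.finrank (ZMod 2) (homs (SD w) ⊤)) :
    GlobH S (fun i : Option Λ × Bool => SD i.1)
      (fun i => if i.2 then κ.comp (j i.1) else j i.1) χ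
      (fun i f => if i.2 then -inv i.1 f else inv i.1 f) := by
  have jsm : ∀ (i : Option Λ × Bool) W, S.mem W → ∃ W', (SD i.1).mem W' ∧
      ∀ w ∈ W', (if i.2 then κ.comp (j i.1) else j i.1) w ∈ W := by
    rintro ⟨w, b⟩ W hW
    cases b with
    | false =>
      simp only [Bool.false_eq_true, if_false]
      exact H.jsm w W hW
    | true =>
      obtain ⟨W1, hW1, h1⟩ := H.ksys W hW
      obtain ⟨W2, hW2, h2⟩ := H.jsm w W1 hW1
      simp only [if_true]
      exact ⟨W2, hW2, fun v hv => h1 _ (h2 v hv)⟩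
  have loc : ∀ i : Option Λ × Bool, LocH (SD i.1)
      (fun d => χ ((if i.2 then κ.comp (j i.1) else j i.1) d))
      (fun f => if i.2 then -inv i.1 f else inv i.1 f) := by
    rintro ⟨w, b⟩
    cases b with
    | false =>
      simp only [Bool.false_eq_true, if_false]
      exact H.loc w
    | true =>
      simp only [if_true]
      have e : (fun d => χ ((κ.comp (j w)) d)) = fun d => χ (j w d) := by
        funext d
        exact H.kchi _
      rw [e]
      exact (H.loc w).negInv
  have inj : ∀ ω ∈ homs S ⊤,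
      (∀ (i : Option Λ × Bool) (d : D i.1), ω ((if i.2 then κ.comp (j i.1) else j i.1) d) = 0) →
      ω = 0 := by
    intro ω hω h
    refine hinj ω hω (fun w d => ?_) (fun w d => ?_)
    · have := h (w, false) d
      simpa using this
    · have := h (w, true) d
      simpa using this
  have rec0 : ∀ f, Z2 S (tw χ) f → ∑ i : Option Λ × Bool,
      (if i.2 then
        -inv i.1 (fun a b => f ((if i.2 then κ.comp (j i.1) else j i.1) a)
          ((if i.2 then κ.comp (j i.1) else j i.1) b))
        else inv i.1 (fun a b => f ((if i.2 then κ.comp (j i.1) else j i.1) a)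
          ((if i.2 then κ.comp (j i.1) else j i.1) b))) = 0 := by
    intro f hf
    rw [Fintype.sum_prod_type]
    rw [← H.recip hf]
    refine Finset.sum_congr rfl fun w _ => ?_
    rw [Fintype.sum_bool]
    simp only [if_true, Bool.false_eq_true, if_false]
    rw [sub_eq_neg_add]
    rfl
  refine ⟨H.char, jsm, loc, hfin, inj, ?_, rec0, ?_⟩
  · intro f hf h
    refine hsha f hf (fun w => ?_) (fun w => ?_)
    · have := h (w, false)
      simpa using this
    · have := h (w, true)
      simpa using this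
  · refine mid_of_count H.char jsm loc hfin inj rec0 ?_
    rw [hcount, Fintype.sum_prod_type, Finset.mul_sum]
    refine Finset.sum_congr rfl fun w _ => ?_
    rw [Fintype.sum_bool]
    exact two_mul _

end Pool.Agent.Work.MP_787500_nt.GP
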