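import Mathlib
import Pool.Agent.Work.MP_787500_nt.GP.B1_Lift
import Pool.Agent.Work.MP_787500_nt.GP.B0_Psi
import Pool.Agent.Work.MP_787500_nt.PA.CountsK
import Pool.Agent.Work.MP_787500_nt.PA.SelCount
import Pool.Agent.Work.MP_787500_nt.PA.KapK
import Pool.Agent.Work.MP_787500_nt.PA.Four
import Pool.Agent.Work.MP_787500_nt.H10_Quad
import Pool.Agent.Work.MP_787500_nt.PA.ActHom
import Pool.Agent.Work.MP_787500_nt.PA.ConjA
import Pool.Agent.Work.MP_787500_nt.GP.E1_Theta
import Pool.Agent.Work.MP_787500_nt.GP.K3_Lam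

/-!
# Module E3_KAPGOOD (size M-L): homomorphisms invariant under `κ`, good system

`a g` = 0 if `g` fixes a square root of `-1`, otherwise 1 (`4 ∣ cyc g - 1` or not); see the statement: `a` is given by
`ha : a g = 0 ↔ 4 ∣ cyc g - 1`.
(1) There is `y ∈ K` with `SU y` and `y * σ y = 2 * t ^ 2`, `t ∈ ℚ`, `t ≠ 0`, `σ` the conjugation of `K`. By `sel_count` for `F = K`
(`m = 1`) there are `a i`, `i : Fin 3`, `SU`, independent modulo squares. Each of them is (`exists_norm_form`)
`ε b (x + y s) t ^ 2`, `ε = ± 1`, `b ∈ {1, 2}`, with `x ^ 2 + q y ^ 2 = c ^ 2` or `2 c ^ 2`. If the second case occurs for some `i`: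
`a i * σ (a i) = b ^ 2 (x ^ 2 + q y ^ 2) (t σ t) ^ 2 = 2 (b c t σ t) ^ 2`, done. Suppose the first case for all `i`. Let
`z = x + y s`, `z σ z = c ^ 2`, `z + σ z = 2 x`, so `(z + c) ^ 2 = z (z + σ z + 2 c) = 2 (x + c) z`. If `x + c ≠ 0` (and then
`z + c ≠ 0`) `z` is `2 (x + c)` times a square, if `x + c = 0` then `y = 0` and `z = x`. So `a i` is an integer `M` times a square,
`EvenOff2 M`, and by `int_cls` `a i` is `± 1` or `± 2` times a square. Three elements of a group with 4 elements of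
exponent 2 are dependent: contradiction.
(2) `t₁ ^ 2 = y`, `Ψ₁ = act2 ⊤ t₁ ∈ homs (goodSys K) ⊤` (`act2_mem` in `PA/ActHom.lean`). `Ψ₁ (κ g)` is 0 iff `κ g` fixes `t₁` iff `g`
fixes `c t₁` (`κ g x = c (g (c x))`), so `Ψ₁ g + Ψ₁ (κ g)` is 0 iff `g` fixes `t₁ * c t₁`, whose square is `y * c y = 2 t ^ 2`. So
`Ψ₁ + Ψ₁ ∘ κ = ψ₂`, `ψ₂ g = 0` iff `g` fixes a square root of 2.
(3) `δ ψ = ψ + ψ ∘ κ` is a linear map of `homs (goodSys K) ⊤`, of dimension 3 (`countsK`), with `ψ₂ ≠ 0` in its image. So the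
kernel has dimension at most 2; it contains `a` and `ψ₂` (`κ` does not change `cyc`), which are linearly
independent: 2, -1 and -2 are not squares in `K` (`not_rat`, `exists_coords`; `psi2_ne` for 2; there is `g` with
`cyc g = -1` modulo 8 and one with `cyc g = ± 3`...: it is enough that `-1`, `2`, `-2` are not squares in `K = ℚ (s)`,
`s ^ 2 = -q`). So every `ψ ∈ homs (goodSys K) ⊤` with `ψ ∘ κ = ψ` is `ε a + e ψ₂ = ε a + e Ψ₁ + e Ψ₁ ∘ κ`. Lift `e Ψ₁` by
`lift_good`.
-/

set_option autoImplicit false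
set_option linter.unusedSectionVars false

namespace Pool.Agent.Work.MP_787500_nt.GP

open IsDedekindDomain NumberField
open Pool.Agent.Work.MP_787500_nt.PA (TwoSys Sm1 Sm2 homs Coc Cob IsChar goodSys core cyc Opn SU)
open Pool.Agent.Work.MP_787500_nt.Gn (GoodG)

universe u

variable {K : Type u} [Field K] [NumberField K]


private theorem e3_charZero : CharZero (AlgebraicClosure K) :=
  charZero_of_injective_algebraMap (algebraMap K (AlgebraicClosure K)).injective

private theorem e3_tower : InTwoTower K K := by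
  refine ⟨K, inferInstance, inferInstance, Algebra.id K, Algebra.id K, inferInstance,
    inferInstance, ⟨0, ?_⟩, ?_⟩
  · rw [Module.finrank_self, pow_zero]
  · intro Q _
    have h2 : Algebra.FormallyUnramified (𝓞 K) (Localization.AtPrime Q.asIdeal) :=
      Algebra.FormallyUnramified.of_isLocalization Q.asIdeal.primeCompl
    exact h2

/-- the action on `K` -/
private theorem e3_conj {q : ℕ} {s : K} (hK : IsBase K q s)
    {c : AlgebraicClosure K ≃+* AlgebraicClosure K} (hc : PA.IsConj s c) :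
    ∃ σ : K ≃+* K, σ s = -s ∧ (∀ x, σ (σ x) = x) ∧
      ∀ x, c (algebraMap K (AlgebraicClosure K) x) = algebraMap K (AlgebraicClosure K) (σ x) := by
  obtain ⟨σ, hσ⟩ := Quad.exists_conj hK.1 hK.2.1 hK.2.2.1.pos
  refine ⟨σ, hσ, fun x => ?_, fun x => ?_⟩
  · obtain ⟨a, b, rfl⟩ := Quad.exists_coords hK.1 hK.2.1 hK.2.2.1.pos x
    rw [map_add, map_mul, map_ratCast, map_ratCast, hσ, map_add, map_mul, map_ratCast,
      map_ratCast, map_neg, hσ, neg_neg]
  · obtain ⟨a, b, rfl⟩ := Quad.exists_coords hK.1 hK.2.1 hK.2.2.1.pos x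
    have e : ∀ r : ℚ, c (algebraMap K (AlgebraicClosure K) (r : K)) =
        algebraMap K (AlgebraicClosure K) (σ (r : K)) := by
      intro r
      have hz := e3_charZero (K := K)
      rw [map_ratCast, map_ratCast, map_ratCast, map_ratCast]
    rw [map_add, map_mul, map_add, map_mul, e, e, hc.neg, map_add, map_mul, hσ, map_add, map_mul,
      map_neg]

private theorem e3_dep : ∀ f : Fin 3 → Bool × Bool, ∃ T : Finset (Fin 3), T ≠ ∅ ∧
    Even (T.filter (fun i => (f i).1 = true)).card ∧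
    Even (T.filter (fun i => (f i).2 = true)).card := by
  decide

/-- the four classes -/
private def e3_chi (K : Type u) [Field K] (f : Bool × Bool) : K :=
  (if f.1 = true then -1 else 1) * (if f.2 = true then 2 else 1)

private theorem e3_y {q : ℕ} {s : K} (hK : IsBase K q s) {σ : K ≃+* K} (hσ : σ s = -s) :
    ∃ y w : K, SU y ∧ w ≠ 0 ∧ y * σ y = 2 * w ^ 2 := by
  classical
  obtain ⟨a, ha, hind, -, -⟩ := PA.sel_count hK (F := K) e3_tower (m := 1) (Module.finrank_self K)
  by_contra hno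
  push Not at hno
  have hq4 : q % 4 = 3 := by
    have := hK.2.2.2
    omega
  have hs2 := hK.2.1
  have hcls : ∀ i, ∃ f : Bool × Bool, IsSquare (a i * e3_chi K f) := by
    intro i
    obtain ⟨ε, b, x, y, t, hε, hb, ht, -, hz, c, hc0, hc⟩ :=
      Quad.exists_norm_form hK.1 hK.2.1 hK.2.2.1 hq4 (ha i).1 (ha i).evenOff2
    have hεσ : σ ε = ε := by
      rcases hε with rfl | rfl
      · rw [map_one]
      · rw [map_neg, map_one]
    have hεε : ε * ε = 1 := by
      rcases hε with rfl | rfl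
      · ring
      · ring
    have hb0 : (b : K) ≠ 0 := by
      rcases hb with rfl | rfl <;> norm_num
    have hcK : (c : K) ≠ 0 := by exact_mod_cast hc0
    rcases hc with hc | hc
    · -- the first case
      have hcK' : (x : K) ^ 2 + q * (y : K) ^ 2 = (c : K) ^ 2 := by
        exact_mod_cast congrArg (fun z : ℤ => (z : K)) hc
      obtain ⟨M, hM, r, hr⟩ : ∃ M : ℤ, M ≠ 0 ∧ IsSquare (((x : K) + y * s) * M) := by
        by_cases hxc : x + c = 0
        · have hx : x = -c := by omega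
          have hx0 : x ≠ 0 := by
            rw [hx, neg_ne_zero]
            exact_mod_cast hc0
          have hq0 : (q : ℤ) ≠ 0 := by exact_mod_cast hK.2.2.1.ne_zero
          have hy : y = 0 := by
            have h1 : (q : ℤ) * y ^ 2 = 0 := by
              rw [hx] at hc
              linear_combination hc
            rcases mul_eq_zero.1 h1 with h2 | h2
            · exact absurd h2 hq0
            · exact pow_eq_zero_iff two_ne_zero |>.1 h2
          refine ⟨x, hx0, (x : K), ?_⟩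
          rw [hy, Int.cast_zero, zero_mul, add_zero]
        · refine ⟨2 * (x + c), mul_ne_zero two_ne_zero hxc, (x : K) + y * s + c, ?_⟩
          push_cast
          linear_combination hcK' - (y : K) ^ 2 * hs2
      obtain ⟨e, he⟩ : ∃ e : ℤ, ε = (e : K) ∧ e ≠ 0 := by
        rcases hε with rfl | rfl
        · exact ⟨1, by norm_num, by norm_num⟩
        · exact ⟨-1, by norm_num, by norm_num⟩
      have hbZ : (b : ℤ) ≠ 0 := by
        rcases hb with rfl | rfl <;> norm_num
      have hN0 : e * b * M ≠ 0 := mul_ne_zero (mul_ne_zero he.2 hbZ) hM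
      have haN : a i * ((e * b * M : ℤ) : K) = (b * t * r) * (b * t * r) := by
        push_cast
        rw [hz, ← he.1]
        have h1 : ε * b * ((x : K) + y * s) * t ^ 2 * (ε * b * M) =
            (ε * ε) * (b * t) ^ 2 * (((x : K) + y * s) * M) := by ring
        rw [h1, hεε, hr]
        ring
      have hev : EvenOff2 ((e * b * M : ℤ) : K) := by
        intro Q hQ
        refine Quad.IsSquare.of_mul' ((Q.valuation K).ne_zero_iff.2 (ha i).1) ?_
          ((ha i).evenOff2 Q hQ)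
        rw [← map_mul, mul_comm, haN, map_mul]
        exact ⟨_, rfl⟩
      obtain ⟨ε', b', t', hε', hb', ht', hN⟩ := Quad.int_cls hK.1 hK.2.1 hK.2.2.1 hq4 hN0 hev
      have h5 : a i * (ε' * b') = (b * t * r / t') * (b * t * r / t') := by
        rw [hN] at haN
        field_simp
        linear_combination haN
      rcases hε' with rfl | rfl <;> rcases hb' with rfl | rfl
      · refine ⟨(false, false), b * t * r / t', ?_⟩
        rw [← h5]
        simp [e3_chi]
      · refine ⟨(false, true), b * t * r / t', ?_⟩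
        rw [← h5]
        simp [e3_chi]
      · refine ⟨(true, false), b * t * r / t', ?_⟩
        rw [← h5]
        simp [e3_chi]
      · refine ⟨(true, true), b * t * r / t', ?_⟩
        rw [← h5]
        simp [e3_chi]
    · -- the second case
      exfalso
      have hcK' : (x : K) ^ 2 + q * (y : K) ^ 2 = 2 * (c : K) ^ 2 := by
        exact_mod_cast congrArg (fun z : ℤ => (z : K)) hc
      have hσt : σ t ≠ 0 := (map_ne_zero σ).2 ht
      refine hno (a i) (b * c * (t * σ t)) (ha i)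
        (mul_ne_zero (mul_ne_zero hb0 hcK) (mul_ne_zero ht hσt)) ?_
      have h1 : σ (a i) = ε * b * ((x : K) - y * s) * (σ t) ^ 2 := by
        rw [hz, map_mul, map_mul, map_mul, map_add, map_mul, map_pow, map_intCast, map_intCast,
          map_natCast, hσ, hεσ]
        ring
      have h3 : a i * σ (a i) = (ε * ε) * b ^ 2 * ((x : K) ^ 2 - (y : K) ^ 2 * s ^ 2) *
          (t * σ t) ^ 2 := by
        rw [h1]
        nth_rewrite 1 [hz]
        ring
      rw [h3, hs2, hεε]
      linear_combination (b : K) ^ 2 * (t * σ t) ^ 2 * hcK'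
  choose f hf using hcls
  obtain ⟨T, hT, h1, h2⟩ := e3_dep f
  apply hT
  apply hind T
  have h3 : IsSquare (∏ i ∈ T, (a i * e3_chi K (f i))) := by
    choose g hg using hf
    refine ⟨∏ i ∈ T, g i, ?_⟩
    rw [← Finset.prod_mul_distrib]
    exact Finset.prod_congr rfl fun i _ => hg i
  have h4 : ∏ i ∈ T, e3_chi K (f i) = (-1) ^ (T.filter (fun i => (f i).1 = true)).card *
      2 ^ (T.filter (fun i => (f i).2 = true)).card := by
    unfold e3_chi
    rw [Finset.prod_mul_distrib, Finset.prod_ite, Finset.prod_ite]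
    simp only [Finset.prod_const, one_pow, mul_one]
  rw [Finset.prod_mul_distrib, h4] at h3
  obtain ⟨m, hm⟩ := h1
  obtain ⟨n, hn⟩ := h2
  rw [hm, hn, pow_add, pow_add] at h3
  obtain ⟨r, hr⟩ := h3
  have h5 : ((-1 : K) ^ m) * (-1) ^ m = 1 := by
    rw [← mul_pow]
    norm_num
  have h6 : (2 : K) ^ n ≠ 0 := pow_ne_zero _ two_ne_zero
  refine ⟨r / 2 ^ n, ?_⟩
  rw [h5, one_mul] at hr
  field_simp
  linear_combination hr

private theorem e3_zmod {x y : ZMod 2} (h : x = 0 ↔ y = 0) : x = y := by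
  revert x y
  decide

private theorem e3_four {x : ℤ_[2]} (h : (2 : ℤ_[2]) ∣ x - 1) (h4 : ¬ (4 : ℤ_[2]) ∣ x - 1) :
    (4 : ℤ_[2]) ∣ x + 1 := by
  obtain ⟨y, hy⟩ := h
  have h2 : ¬ (2 : ℤ_[2]) ∣ y := by
    rintro ⟨z, hz⟩
    apply h4
    refine ⟨z, ?_⟩
    rw [hy, hz]
    ring
  have h3 : (2 : ℤ_[2]) ∣ y - 1 := by
    have h5 := PadicInt.toZMod_spec y
    rw [PadicInt.maximalIdeal_eq_span_p, Ideal.mem_span_singleton] at h5
    have h6 : PadicInt.toZMod y ≠ 0 := by
      intro h7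
      apply h2
      rw [h7] at h5
      have h8 : y - ZMod.cast (0 : ZMod 2) = y := by
        rw [ZMod.cast_zero, sub_zero]
      rw [h8] at h5
      exact_mod_cast h5
    have h7 : PadicInt.toZMod y = 1 := by
      revert h6
      generalize PadicInt.toZMod y = z
      revert z
      decide
    rw [h7] at h5
    have h8 : ((1 : ZMod 2).cast : ℤ_[2]) = 1 := by
      show (((1 : ZMod 2).val : ℕ) : ℤ_[2]) = 1
      have : (1 : ZMod 2).val = 1 := rfl
      rw [this, Nat.cast_one]
    rw [h8] at h5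
    exact_mod_cast h5
  obtain ⟨z, hz⟩ := h3
  refine ⟨1 + z, ?_⟩
  have h5 : x = 1 + 2 * y := by linear_combination hy
  have h6 : y = 1 + 2 * z := by linear_combination hz
  rw [h5, h6]
  ring

private theorem e3_mem {a : AbsGal K → ZMod 2} (ha : ∀ g, a g = 0 ↔ (4 : ℤ_[2]) ∣ cyc g - 1) :
    a ∈ homs (goodSys K) ⊤ := by
  have hχ := PA.isChar_cyc (K := K)
  refine ⟨?_, fun g hg => absurd trivial hg, fun g _ h _ => ?_⟩
  · obtain ⟨W, hW, h1⟩ := hχ.cont 2
    refine ⟨W, hW, fun g w hw => e3_zmod ?_⟩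
    have h2 := h1 g w hw
    have h3 : (4 : ℤ_[2]) ∣ cyc (g * w) - cyc g := by
      have : (2 : ℤ_[2]) ^ 2 = 4 := by norm_num
      rwa [this] at h2
    rw [ha, ha]
    constructor
    · intro h4
      have h5 := dvd_sub h4 h3
      have h6 : cyc (g * w) - 1 - (cyc (g * w) - cyc g) = cyc g - 1 := by ring
      rwa [h6] at h5
    · intro h4
      have h5 := dvd_add h3 h4
      have h6 : cyc (g * w) - cyc g + (cyc g - 1) = cyc (g * w) - 1 := by ring
      rwa [h6] at h5
  · have hm := hχ.mul g h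
    have hone : ∀ x : ZMod 2, x ≠ 0 → x = 1 := by decide
    by_cases h1 : (4 : ℤ_[2]) ∣ cyc g - 1
    · by_cases h2 : (4 : ℤ_[2]) ∣ cyc h - 1
      · rw [(ha g).2 h1, (ha h).2 h2, add_zero, ha]
        rw [hm]
        have h3 := dvd_add (Dvd.dvd.mul_left h2 (cyc g)) h1
        have h4 : cyc g * (cyc h - 1) + (cyc g - 1) = cyc g * cyc h - 1 := by ring
        rwa [h4] at h3
      · rw [(ha g).2 h1, zero_add, hone _ (fun h3 => h2 ((ha h).1 h3))]
        apply hone
        rw [Ne, ha, hm]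
        intro h3
        apply h2
        have h4 := dvd_sub h3 (Dvd.dvd.mul_right h1 (cyc h))
        have h5 : cyc g * cyc h - 1 - (cyc g - 1) * cyc h = cyc h - 1 := by ring
        rwa [h5] at h4
    · by_cases h2 : (4 : ℤ_[2]) ∣ cyc h - 1
      · rw [(ha h).2 h2, add_zero, hone _ (fun h3 => h1 ((ha g).1 h3))]
        apply hone
        rw [Ne, ha, hm]
        intro h3
        apply h1
        have h4 := dvd_sub h3 (Dvd.dvd.mul_left h2 (cyc g))
        have h5 : cyc g * cyc h - 1 - cyc g * (cyc h - 1) = cyc g - 1 := by ring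
        rwa [h5] at h4
      · rw [hone _ (fun h3 => h1 ((ha g).1 h3)), hone _ (fun h3 => h2 ((ha h).1 h3))]
        have h5 : (1 : ZMod 2) + 1 = 0 := by decide
        rw [h5, ha, hm]
        have h6 := e3_four (hχ.odd g) h1
        have h7 := e3_four (hχ.odd h) h2
        have h8 := dvd_sub (Dvd.dvd.mul_right h6 (cyc h)) h7
        have h9 : (cyc g + 1) * cyc h - (cyc h + 1) = cyc g * cyc h - 1 := by ring
        rwa [h9] at h8

theorem kap_good {q : ℕ} {s : K} (hK : IsBase K q s)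
    {c : AlgebraicClosure K ≃+* AlgebraicClosure K} (hc : PA.IsConj s c)
    {κ : AbsGal K → AbsGal K}
    (hκ : ∀ (σ : AbsGal K) (x : AlgebraicClosure K), κ σ x = c (σ (c x)))
    {a : AbsGal K → ZMod 2} (ha : ∀ g, a g = 0 ↔ (4 : ℤ_[2]) ∣ cyc g - 1)
    {ψ : AbsGal K → ZMod 2} (hψ : ψ ∈ homs (goodSys K) ⊤) (hk : ∀ g, ψ (κ g) = ψ g) :
    ∃ (ε : ZMod 2) (r : ℕ → AlgebraicClosure K) (b : AbsGal K → ℤ_[2]), IsKum r b ∧ SU (r 0) ∧
      ∀ g, ψ g = ε * a g + PadicInt.toZMod (b g) + PadicInt.toZMod (b (κ g)) := by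

  classical
  have hz := e3_charZero (K := K)
  obtain ⟨lam, hlam⟩ := exists_lam
  obtain ⟨σ, hσs, hσσ, hcσ⟩ := e3_conj hK hc
  obtain ⟨y, w, hy, hw, hyw⟩ := e3_y hK hσs
  have hinv := PA.isInvol hc.sq hκ
  obtain ⟨t, ht⟩ := IsAlgClosed.exists_pow_nat_eq (algebraMap K (AlgebraicClosure K) y)
    (n := 2) (by norm_num)
  have hT : Opn (goodSys K) (⊤ : Subgroup (AbsGal K)) := ⟨⊤, PA.Good.top, le_rfl⟩
  have ht0 : t ≠ 0 := by
    rintro rfl
    rw [zero_pow two_ne_zero] at ht
    exact hy.1 ((map_eq_zero _).1 ht.symm)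
  have hct0 : c t ≠ 0 := (map_ne_zero c).2 ht0
  have hw0 : algebraMap K (AlgebraicClosure K) w ≠ 0 := (map_ne_zero _).2 hw
  have hMt : PA.InM t := PA.InM.sqrt (PA.InM.base y) (hy.map _) ht
  have hfix : ∀ g ∈ (⊤ : Subgroup (AbsGal K)), g (t ^ 2) = t ^ 2 := by
    intro g _
    rw [ht, AlgEquiv.commutes]
  have hct : (c t) ^ 2 = algebraMap K (AlgebraicClosure K) (σ y) := by
    rw [← map_pow, ht, hcσ]
  have hfix' : ∀ g ∈ (⊤ : Subgroup (AbsGal K)), g ((c t) ^ 2) = (c t) ^ 2 := by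
    intro g _
    rw [hct, AlgEquiv.commutes]
  have hΨ := PA.act2_mem hT ht0 hMt hfix
  have hval : ∀ (u : AlgebraicClosure K) (g : AbsGal K), PA.act2 ⊤ u g = 0 ↔ g u = u := by
    intro u g
    unfold PA.act2
    by_cases h : g u = u
    · rw [if_neg (fun h1 => h1.2 h)]
      simp [h]
    · rw [if_pos ⟨trivial, h⟩]
      simp [h]
  have hΨκ : ∀ g, PA.act2 ⊤ t (κ g) = PA.act2 ⊤ (c t) g := by
    intro g
    apply e3_zmod
    rw [hval, hval, hκ]
    constructor
    · intro h
      rw [← hc.sq (g (c t)), h]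
    · intro h
      rw [h, hc.sq]
  have hmul := PA.act2_mul ht0 hct0 hfix hfix'
  obtain ⟨r2, hr2⟩ : ∃ r2, r2 = t * c t / algebraMap K (AlgebraicClosure K) w := ⟨_, rfl⟩
  have h2 : r2 ^ 2 = 2 := by
    have h3 : (t * c t) ^ 2 = 2 * algebraMap K (AlgebraicClosure K) w ^ 2 := by
      rw [mul_pow, ht, hct, ← map_mul, hyw, map_mul, map_pow, map_ofNat]
    rw [hr2, div_pow, h3]
    field_simp
  have hψ2 : ∀ g, PA.act2 ⊤ t g + PA.act2 ⊤ t (κ g) = (PadicInt.toZMod (lam (cyc g)) : ZMod 2) := by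
    intro g
    rw [hΨκ]
    have h3 : PA.act2 ⊤ t g + PA.act2 ⊤ (c t) g = PA.act2 ⊤ (t * c t) g := by
      rw [hmul]
      rfl
    rw [h3]
    apply e3_zmod
    rw [hval, psi2_iff hlam h2]
    have h4 : t * c t = r2 * algebraMap K (AlgebraicClosure K) w := by
      rw [hr2]
      field_simp
    rw [h4, map_mul, AlgEquiv.commutes]
    constructor
    · intro h5
      exact mul_right_cancel₀ hw0 h5
    · intro h5
      rw [h5]
  have haM := e3_mem ha
  have haκ : ∀ g, a (κ g) = a g := by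
    intro g
    apply e3_zmod
    rw [ha, ha, hinv.chi]
  obtain ⟨θ, -, -, -, hθ, -⟩ := exists_theta_phi hK hc hκ (T := ∅) (fun l hl => absurd hl (Finset.notMem_empty l))
  obtain ⟨g', hg'⟩ := psi2_ne hK hlam
  have hψ2κ : ∀ g, (PadicInt.toZMod (lam (cyc (κ g))) : ZMod 2) = PadicInt.toZMod (lam (cyc g)) := by
    intro g
    rw [hinv.chi]
  have haθ : a θ ≠ 0 := by
    rw [Ne, ha, hθ]
    intro h4
    have h5 : (4 : ℤ_[2]) ∣ -2 := by
      have : (-1 - 1 : ℤ_[2]) = -2 := by norm_num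
      rwa [this] at h4
    have h6 : (4 : ℤ_[2]) ∣ 2 := (dvd_neg.1 h5)
    obtain ⟨z, hz'⟩ := h6
    have h7 : (2 : ℤ_[2]) * (2 * z - 1) = 0 := by linear_combination -hz'
    rcases mul_eq_zero.1 h7 with h8 | h8
    · exact two_ne_zero h8
    · have h9 : (PadicInt.toZMod (2 * z - 1) : ZMod 2) = 0 := by rw [h8, map_zero]
      rw [map_sub, map_mul, map_one, map_ofNat] at h9
      have h10 : (OfNat.ofNat 2 : ZMod 2) = 0 := rfl
      rw [h10, zero_mul, zero_sub] at h9
      exact absurd h9 (by decide)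
  have hψθ : (PadicInt.toZMod (lam (cyc θ)) : ZMod 2) = 0 := by
    rw [hθ, hlam.neg, map_zero]
  obtain ⟨hfd, hfr⟩ := PA.countsK hK ⊤ hT
  rw [Subgroup.index_top] at hfr
  let v : Fin 3 → homs (goodSys K) (⊤ : Subgroup (AbsGal K)) :=
    ![⟨a, haM⟩, ⟨_, psi2_mem hlam⟩, ⟨_, hΨ⟩]
  have hsum : ∀ (x : Fin 3 → ZMod 2) (g : AbsGal K),
      ((∑ i, x i • v i : homs (goodSys K) (⊤ : Subgroup (AbsGal K))) : AbsGal K → ZMod 2) g =
        x 0 * a g + x 1 * PadicInt.toZMod (lam (cyc g)) + x 2 * PA.act2 ⊤ t g := by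
    intro x g
    rw [Fin.sum_univ_three]
    rfl
  have hind : LinearIndependent (ZMod 2) v := by
    rw [Fintype.linearIndependent_iff]
    intro x hx
    have h3 : ∀ g, x 0 * a g + x 1 * PadicInt.toZMod (lam (cyc g)) + x 2 * PA.act2 ⊤ t g = 0 := by
      intro g
      rw [← hsum x g, hx]
      rfl
    have h5 : x 2 = 0 := by
      have h6 := h3 g'
      have h7 := h3 (κ g')
      rw [haκ, hψ2κ] at h7
      have h8 : x 2 * (PadicInt.toZMod (lam (cyc g')) : ZMod 2) = 0 := by
        rw [← hψ2 g']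
        have h9 : ∀ z : ZMod 2, z + z = 0 := by decide
        linear_combination h6 + h7 - h9 (x 0 * a g' + x 1 * PadicInt.toZMod (lam (cyc g')))
      rcases mul_eq_zero.1 h8 with h9 | h9
      · exact h9
      · exact absurd h9 hg'
    have h6 : x 0 = 0 := by
      have h7 := h3 θ
      rw [h5, hψθ, mul_zero, zero_mul, add_zero, add_zero] at h7
      rcases mul_eq_zero.1 h7 with h9 | h9
      · exact h9
      · exact absurd h9 haθ
    have h7 : x 1 = 0 := by
      have h8 := h3 g'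
      rw [h5, h6, zero_mul, zero_mul, zero_add, add_zero] at h8
      rcases mul_eq_zero.1 h8 with h9 | h9
      · exact h9
      · exact absurd h9 hg'
    intro i
    fin_cases i
    · exact h6
    · exact h7
    · exact h5
  have hspan := hind.span_eq_top_of_card_eq_finrank (by rw [hfr, Fintype.card_fin])
  have hmem : (⟨ψ, hψ⟩ : homs (goodSys K) (⊤ : Subgroup (AbsGal K))) ∈
      Submodule.span (ZMod 2) (Set.range v) := by
    rw [hspan]
    trivial
  obtain ⟨x, hx⟩ := (Submodule.mem_span_range_iff_exists_fun _).1 hmem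
  have h3 : ∀ g, ψ g = x 0 * a g + x 1 * PadicInt.toZMod (lam (cyc g)) + x 2 * PA.act2 ⊤ t g := by
    intro g
    rw [← hsum x g, hx]
  have h5 : x 2 = 0 := by
    have h6 := h3 g'
    have h7 := h3 (κ g')
    rw [haκ, hψ2κ, hk] at h7
    have h8 : x 2 * (PadicInt.toZMod (lam (cyc g')) : ZMod 2) = 0 := by
      rw [← hψ2 g']
      have h9 : ∀ z : ZMod 2, z + z = 0 := by decide
      linear_combination -h6 - h7 + h9 (ψ g') -
        h9 (x 0 * a g' + x 1 * PadicInt.toZMod (lam (cyc g')))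
    rcases mul_eq_zero.1 h8 with h9 | h9
    · exact h9
    · exact absurd h9 hg'
  obtain ⟨r, b, hrb, hSU, -, hb⟩ := lift_good hK
    ((homs (goodSys K) (⊤ : Subgroup (AbsGal K))).smul_mem (x 1) hΨ)
  have hb' : ∀ g, x 1 * PA.act2 ⊤ t g = PadicInt.toZMod (b g) := hb
  refine ⟨x 0, r, b, hrb, hSU, fun g => ?_⟩
  rw [← hb', ← hb', h3 g, h5, ← hψ2 g]
  ring

end Pool.Agent.Work.MP_787500_nt.GP
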