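import Mathlib
import Pool.Agent.Work.MP_787500_nt.GP.E3_KapGood
import Pool.Agent.Work.MP_787500_nt.GP.B3_Alpha
import Pool.Agent.Work.MP_787500_nt.GP.B3_TameD
import Pool.Agent.Work.MP_787500_nt.GP.S5_Sha
import Pool.Agent.Work.MP_787500_nt.GP.B3_Inj

/-!
# Module E4_KAPT (size M): homomorphisms invariant under `κ`, system of `T`

For `l ∈ T`: Kummer cocycle `b l` of `l`, `τ l ∈ (P l).inertia` with `b l (τ l) = 1` (`exists_tau`), `a l` the cocycle of
`exists_alpha`, `C1` for the system of `T` (`IsKum.c1`); `ā l` its reduction modulo 2, in `homs (sysT K T) ⊤`. For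
`n ∈ (P l).inertia`: `ā l n = b l n` modulo 2 (`h` is odd), `ā l (κ n) = 0`, and for `l' ≠ l` in `T` `ā l' n = ā l' (κ n) = 0`.
Let `ψ' = ψ + ∑ l, ψ (τ l) (ā l + ā l ∘ κ)`. For `n ∈ (P l).inertia` `ψ n = b l n * ψ (τ l)` (`hom_tau`), so `ψ' n = 0`, and
`ψ' (κ n) = ψ (κ n) + ψ (τ l) b l n = ψ n + ψ n = 0`. So `ψ'` vanishes on the inertia groups at all primes not
containing 2 (those containing no element of `T`: they are in every `GoodT` subgroup; the others: `above_l`, and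
`ψ' (g⁻¹ x g) = ψ' x`). By `homs_of_T` (`S0_KumT.lean`) `ψ' ∈ homs (goodSys K) ⊤`, and `kap_good` applies to `ψ'`:
`ψ' = ε a + b₀ + b₀ ∘ κ`. `b = b₀ + ∑ l, (a l if ψ (τ l) = 1)` (a sum of Kummer cocycles, `C1`).
-/

set_option autoImplicit false
set_option linter.unusedSectionVars false

namespace Pool.Agent.Work.MP_787500_nt.GP

open IsDedekindDomain NumberField
open Pool.Agent.Work.MP_787500_nt.PA (TwoSys Sm1 Sm2 homs Coc Cob IsChar goodSys core cyc Opn SU)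
open Pool.Agent.Work.MP_787500_nt.Gn (GoodG)

universe u

variable {K : Type u} [Field K] [NumberField K]

private theorem e4_roots (x : AlgebraicClosure K) :
    ∃ r : ℕ → AlgebraicClosure K, r 0 = x ∧ ∀ k, r (k + 1) ^ 2 = r k :=
  ⟨fun k => Nat.rec x (fun _ y => rt y) k, rfl, fun _ => rt_sq _⟩

private theorem e4_two : (2 : ZMod 2) = 0 := rfl

private theorem e4_add (x : ZMod 2) : x + x = 0 := by
  revert x
  decide

private theorem e4_even {a : ℤ_[2]} (h : (2 : ℤ_[2]) ∣ a) : PadicInt.toZMod a = 0 := by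
  obtain ⟨b, rfl⟩ := h
  rw [map_mul, map_ofNat, e4_two, zero_mul]

private theorem e4_odd {a : ℤ_[2]} (h : (2 : ℤ_[2]) ∣ a - 1) : PadicInt.toZMod a = 1 := by
  have h1 := e4_even h
  rw [map_sub, map_one] at h1
  exact sub_eq_zero.1 h1

private theorem e4_red {S : TwoSys (AbsGal K)} {A : AbsGal K → ℤ_[2]} (hA : PA.C1 S A)
    (hc : ∀ g h, A (g * h) = A g + cyc g * A h) :
    (fun g => PadicInt.toZMod (A g)) ∈ homs S ⊤ := by
  obtain ⟨W, hW, h1⟩ := hA 1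
  refine ⟨⟨W, hW, fun g w hw => ?_⟩, fun g hg => absurd trivial hg, fun g _ h _ => ?_⟩
  · have h2 := h1 g w hw
    rw [pow_one] at h2
    have h3 := e4_even h2
    rw [map_sub] at h3
    exact sub_eq_zero.1 h3
  · show PadicInt.toZMod (A (g * h)) = PadicInt.toZMod (A g) + PadicInt.toZMod (A h)
    rw [hc, map_add, map_mul, e4_odd (PA.isChar_cyc.odd g), one_mul]

private theorem e4_data {q : ℕ} {s : K} (hK : IsBase K q s) {T : Finset ℕ} {l : ℕ}
    (hl : SplitPr q l) (hlT : l ∈ T) {c : AlgebraicClosure K ≃+* AlgebraicClosure K}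
    (hc : PA.IsConj s c) {κ : AbsGal K → AbsGal K}
    (hκ : ∀ (σ : AbsGal K) (x : AlgebraicClosure K), κ σ x = c (σ (c x)))
    {P : Ideal (𝓞 (AlgebraicClosure K))} (hP : P.IsPrime)
    (hlP : (l : 𝓞 (AlgebraicClosure K)) ∈ P) :
    ∃ (A : AbsGal K → ℤ_[2]) (τ : AbsGal K), PA.C1 (sysT K T) A ∧
      (∀ g h, A (g * h) = A g + cyc g * A h) ∧
      (∀ ω ∈ homs (sysT K T) ⊤, ∀ n ∈ P.inertia (AbsGal K),
        ω n = PadicInt.toZMod (A n) * ω τ) ∧
      (∀ n ∈ P.inertia (AbsGal K), A (κ n) = 0) ∧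
      ∀ l' : ℕ, SplitPr q l' → l' ≠ l → ∀ P' : Ideal (𝓞 (AlgebraicClosure K)),
        P'.IsPrime → (l' : 𝓞 (AlgebraicClosure K)) ∈ P' → ∀ n ∈ P'.inertia (AbsGal K),
          A n = 0 ∧ A (κ n) = 0 := by
  obtain ⟨rl, hrl0, hrl⟩ := e4_roots (l : AlgebraicClosure K)
  have hl0 : (l : AlgebraicClosure K) ≠ 0 := Nat.cast_ne_zero.2 hl.1.ne_zero
  obtain ⟨b, hb⟩ := exists_isKum (by rw [hrl0]; exact hl0)
    (fun g => by rw [hrl0, map_natCast]) hrl
  obtain ⟨τ, hτ, -, -, hbτ⟩ := exists_tau hK hl hP hlP hb hrl0 1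
  obtain ⟨r, A, h, j, hodd, hr, hut, -, h1, h2, h3⟩ := exists_alpha hK hl hlT hc hκ hP hlP
  refine ⟨A, τ, hr.c1 hut, hr.coc, fun ω hω n hn => ?_, h2, fun l' hl' hne P' hP' hlP' n hn =>
    h3 l' hl'.1 hl'.2.1 hne P' hP' hlP' n hn⟩
  rw [hom_tau hK hl hlT hP hlP hb hrl0 hτ hbτ hω hn, h1 rl b hb hrl0 n hn, map_mul]
  have h4 : PadicInt.toZMod (h : ℤ_[2]) = 1 := by
    obtain ⟨k, rfl⟩ := hodd
    refine e4_odd ⟨(k : ℤ_[2]), ?_⟩
    push_cast
    ring
  rw [h4, one_mul]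

theorem kap_T {q : ℕ} {s : K} (hK : IsBase K q s) {T : Finset ℕ}
    (hT : ∀ l ∈ T, SplitPr q l) {c : AlgebraicClosure K ≃+* AlgebraicClosure K}
    (hc : PA.IsConj s c) {κ : AbsGal K → AbsGal K}
    (hκ : ∀ (σ : AbsGal K) (x : AlgebraicClosure K), κ σ x = c (σ (c x)))
    {P : ℕ → Ideal (𝓞 (AlgebraicClosure K))}
    (hP : ∀ l ∈ T, (P l).IsPrime ∧ (l : 𝓞 (AlgebraicClosure K)) ∈ P l)
    {a : AbsGal K → ZMod 2} (ha : ∀ g, a g = 0 ↔ (4 : ℤ_[2]) ∣ cyc g - 1)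
    {ψ : AbsGal K → ZMod 2} (hψ : ψ ∈ homs (sysT K T) ⊤) (hk : ∀ g, ψ (κ g) = ψ g) :
    ∃ (ε : ZMod 2) (b : AbsGal K → ℤ_[2]), PA.C1 (sysT K T) b ∧
      (∀ g h, b (g * h) = b g + cyc g * b h) ∧
      ∀ g, ψ g = ε * a g + PadicInt.toZMod (b g) + PadicInt.toZMod (b (κ g)) := by
  classical
  have hinv := PA.isInvol hc.sq hκ
  have hdata := fun l (hl : l ∈ T) => e4_data hK (hT l hl) hl hc hκ (hP l hl).1 (hP l hl).2
  choose! A τ hA using hdata
  -- the homomorphisms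
  set B : ℕ → AbsGal K → ZMod 2 := fun l g => PadicInt.toZMod (A l g) with hB
  set Bk : ℕ → AbsGal K → ZMod 2 := fun l g => PadicInt.toZMod (A l (κ g)) with hBk
  have hBm : ∀ l ∈ T, B l ∈ homs (sysT K T) ⊤ := fun l hl => e4_red (hA l hl).1 (hA l hl).2.1
  have hBkm : ∀ l ∈ T, Bk l ∈ homs (sysT K T) ⊤ := by
    intro l hl
    obtain ⟨⟨W, hW, h1⟩, -, h2⟩ := hBm l hl
    obtain ⟨W', hW', h3⟩ := kapT hc hκ T hW
    refine ⟨⟨W', hW', fun g w hw => ?_⟩, fun g hg => absurd trivial hg, fun g _ h _ => ?_⟩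
    · show B l (κ (g * w)) = B l (κ g)
      rw [hinv.mul]
      exact h1 _ _ ((h3 w).1 hw)
    · show B l (κ (g * h)) = B l (κ g) + B l (κ h)
      rw [hinv.mul]
      exact h2 _ trivial _ trivial
  set ψ' : AbsGal K → ZMod 2 := ψ + ∑ l ∈ T, ψ (τ l) • (B l + Bk l) with hψ'
  have hψ'm : ψ' ∈ homs (sysT K T) ⊤ :=
    (homs (sysT K T) ⊤).add_mem hψ ((homs (sysT K T) ⊤).sum_mem fun l hl =>
      (homs (sysT K T) ⊤).smul_mem _ ((homs (sysT K T) ⊤).add_mem (hBm l hl) (hBkm l hl)))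
  have hval : ∀ g, ψ' g = ψ g + ∑ l ∈ T, ψ (τ l) * (B l g + B l (κ g)) := by
    intro g
    rw [hψ', Pi.add_apply, Finset.sum_apply]
    rfl
  have hψ'k : ∀ g, ψ' (κ g) = ψ' g := by
    intro g
    rw [hval, hval, hk, hinv.inv]
    congr 1
    refine Finset.sum_congr rfl fun l _ => ?_
    rw [add_comm (B l (κ g))]
  have hψ'1 : ψ' 1 = 0 := by
    have := hψ'm.2.2 1 trivial 1 trivial
    rw [mul_one] at this
    exact left_eq_add.1 this
  have hψ'c : ∀ g x : AbsGal K, ψ' (g⁻¹ * x * g) = ψ' x := by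
    intro g x
    have h1 := hψ'm.2.2 (g⁻¹ * x) trivial g trivial
    have h2 := hψ'm.2.2 g⁻¹ trivial x trivial
    have h3 := hψ'm.2.2 g⁻¹ trivial g trivial
    rw [inv_mul_cancel, hψ'1] at h3
    rw [h1, h2]
    linear_combination -h3
  -- on the inertia groups
  have hP0 : ∀ l ∈ T, ∀ n ∈ (P l).inertia (AbsGal K), ψ' n = 0 := by
    intro l hl n hn
    rw [hval, Finset.sum_eq_single l]
    · rw [(hA l hl).2.2.1 ψ hψ n hn]
      have h1 : B l (κ n) = 0 := by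
        show PadicInt.toZMod (A l (κ n)) = 0
        rw [(hA l hl).2.2.2.1 n hn, map_zero]
      rw [h1, add_zero, mul_comm (ψ (τ l))]
      exact e4_add _
    · intro l' hl' hne
      obtain ⟨h1, h2⟩ := (hA l' hl').2.2.2.2 l (hT l hl) hne.symm (P l) (hP l hl).1 (hP l hl).2 n hn
      show ψ (τ l') * (PadicInt.toZMod (A l' n) + PadicInt.toZMod (A l' (κ n))) = 0
      rw [h1, h2, map_zero, add_zero, mul_zero]
    · intro h
      exact absurd hl h
  have hgood : ψ' ∈ homs (goodSys K) ⊤ := by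
    refine homs_of_T ?_ hψ'm fun Q hQ h2 n hn => ?_
    · obtain ⟨W, hW⟩ := (goodSys K).ex
      exact ⟨W, hW, le_top⟩
    · by_cases hQT : ∃ l ∈ T, (l : 𝓞 (AlgebraicClosure K)) ∈ Q
      · obtain ⟨l, hl, hlQ⟩ := hQT
        obtain ⟨g, ⟨-, h3⟩ | ⟨-, h3⟩⟩ := above_l hK (hT l hl) hc hκ (hP l hl).1 (hP l hl).2 hQ hlQ
        · have h4 := hP0 l hl _ ((h3 n).1 hn)
          rwa [hψ'c] at h4
        · have h4 := hP0 l hl _ ((h3 n).1 hn)
          rwa [hψ'k, hψ'c] at h4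
      · push Not at hQT
        obtain ⟨⟨W, hW, h3⟩, -, -⟩ := hψ'm
        have h4 : n ∈ W := Gn.GoodG.inertia hW n ⟨Q, hQ, h2, hQT, hn⟩
        have h5 := h3 1 n h4
        rwa [one_mul, hψ'1] at h5
  obtain ⟨ε, r, b₀, hr, hsu, hb₀⟩ := kap_good hK hc hκ ha hgood hψ'k
  -- the cocycle
  set cc : ℕ → ℤ_[2] := fun l => if ψ (τ l) = 1 then 1 else 0 with hcc
  have hccv : ∀ l, PadicInt.toZMod (cc l) = ψ (τ l) := by
    intro l
    simp only [hcc]
    split_ifs with h1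
    · rw [map_one, h1]
    · rw [map_zero]
      generalize ψ (τ l) = x at h1
      revert h1
      revert x
      decide
  refine ⟨ε, fun g => b₀ g + ∑ l ∈ T, cc l * A l g, ?_, fun g h => ?_, fun g => ?_⟩
  · have h1 : PA.C1 (sysT K T) b₀ := hr.c1 (SU.ut hsu T)
    have h2 : ∀ U : Finset ℕ, U ⊆ T → PA.C1 (sysT K T) (fun g => b₀ g + ∑ l ∈ U, cc l * A l g) := by
      intro U
      induction U using Finset.induction_on with
      | empty =>
        intro _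
        simpa using h1
      | insert i U hi ih =>
        intro hU n
        obtain ⟨W, hW, h3⟩ := ih (fun x hx => hU (Finset.mem_insert_of_mem hx)) n
        obtain ⟨W', hW', h4⟩ := (hA i (hU (Finset.mem_insert_self i U))).1 n
        refine ⟨W ⊓ W', (sysT K T).inf hW hW', fun g w hw => ?_⟩
        have h5 := h3 g w hw.1
        have h6 := h4 g w hw.2
        simp only [Finset.sum_insert hi]
        have e : b₀ (g * w) + (cc i * A i (g * w) + ∑ l ∈ U, cc l * A l (g * w)) -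
            (b₀ g + (cc i * A i g + ∑ l ∈ U, cc l * A l g)) =
            (b₀ (g * w) + ∑ l ∈ U, cc l * A l (g * w) - (b₀ g + ∑ l ∈ U, cc l * A l g)) +
              cc i * (A i (g * w) - A i g) := by ring
        rw [e]
        exact dvd_add h5 (Dvd.dvd.mul_left h6 _)
    exact h2 T (Finset.Subset.refl T)
  · show b₀ (g * h) + ∑ l ∈ T, cc l * A l (g * h) =
      b₀ g + ∑ l ∈ T, cc l * A l g + cyc g * (b₀ h + ∑ l ∈ T, cc l * A l h)
    have h1 : ∑ l ∈ T, cc l * A l (g * h) =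
        ∑ l ∈ T, cc l * A l g + cyc g * ∑ l ∈ T, cc l * A l h := by
      rw [Finset.mul_sum, ← Finset.sum_add_distrib]
      refine Finset.sum_congr rfl fun l hl => ?_
      rw [(hA l hl).2.1]
      ring
    rw [h1, hr.coc]
    ring
  · have h1 := hb₀ g
    rw [hval] at h1
    have h2 : ∀ x, PadicInt.toZMod (b₀ x + ∑ l ∈ T, cc l * A l x) =
        PadicInt.toZMod (b₀ x) + ∑ l ∈ T, ψ (τ l) * B l x := by
      intro x
      rw [map_add, map_sum]
      congr 1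
      refine Finset.sum_congr rfl fun l _ => ?_
      rw [map_mul, hccv]
    show ψ g = ε * a g + PadicInt.toZMod (b₀ g + ∑ l ∈ T, cc l * A l g) +
      PadicInt.toZMod (b₀ (κ g) + ∑ l ∈ T, cc l * A l (κ g))
    rw [h2, h2]
    have h3 : ∑ l ∈ T, ψ (τ l) * (B l g + B l (κ g)) =
        ∑ l ∈ T, ψ (τ l) * B l g + ∑ l ∈ T, ψ (τ l) * B l (κ g) := by
      rw [← Finset.sum_add_distrib]
      exact Finset.sum_congr rfl fun l _ => by ring
    rw [h3] at h1
    have h4 := e4_add (∑ l ∈ T, ψ (τ l) * B l g)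
    have h5 := e4_add (∑ l ∈ T, ψ (τ l) * B l (κ g))
    linear_combination h1 - h4 - h5

end Pool.Agent.Work.MP_787500_nt.GP
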