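import Mathlib
import Pool.Agent.Work.MP_787500_nt.GP.B0_Smul

/-!
# Module E5_KAPCOC (size M, generic): cocycles invariant under `κ`

`w` has finitely many values (`sm1_fin`), so `2 ^ n • w = 0` for some `n` (`a0_killed`); induction on `n`. `n = 0`: `w = 0`. Step
`n + 1`: `2 ^ n • w g = hf (ψ g)` (`eq_hf`), `ψ ∈ homs S ⊤` (`smul_hf`, `hf_inj`), `ψ (κ g) = ψ g`. Let `ε`, `b` as in `hH`;
`s` with `2 ^ (n + 1) • s = half`, `q₄` with `q₄ + q₄ = half`: then `χ g • q₄ - q₄ = hf (a g)` (`χ g - 1` is divisible by 2;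
if it is divisible by 4 both sides are 0, otherwise it is 2 times a unit, and `unit • half = half`); `m₁` with
`2 ^ n • m₁ = q₄` if `ε = 1`, `m₁ = 0` otherwise. `w' g = w g - 2 (b g • s + b (κ g) • s) - (χ g • m₁ - m₁)`. Then
`2 ^ n • w' g = hf (ψ g) - (b g + b (κ g)) • half - hf (ε a g) = 0` (`smul_half`). `w'` is a cocycle (`z1_smul`), invariant
under `κ` (`kk`, `kchi`). By induction `w' = 2 (W' + W' ∘ κ) + d0 m'`; `W = W' + b • s`, `m = m' + m₁`.
-/

set_option autoImplicit false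
set_option linter.unusedSectionVars false

namespace Pool.Agent.Work.MP_787500_nt.GP

open Pool.Agent.Work.MP_787500_nt.PA (TwoSys Sm1 Sm2 homs Coc Cob IsChar)

variable {G : Type*} [Group G] {S : TwoSys G} {χ : G → ℤ_[2]} {κ : G →* G}

private theorem e5_two (a : ℤ_[2]) : ∃ b : ℤ_[2], a = 2 * b ∨ a = 2 * b + 1 := by
  obtain ⟨n, hn, hm⟩ := PadicInt.exists_mem_range (p := 2) a
  rw [PadicInt.maximalIdeal_eq_span_p, Ideal.mem_span_singleton] at hm
  obtain ⟨b, hb⟩ := hm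
  refine ⟨b, ?_⟩
  have e2 : ((2 : ℕ) : ℤ_[2]) = 2 := by norm_num
  rw [e2] at hb
  have h01 : n = 0 ∨ n = 1 := by omega
  rcases h01 with rfl | rfl
  · left
    rw [Nat.cast_zero, sub_zero] at hb
    exact hb
  · right
    rw [Nat.cast_one, sub_eq_iff_eq_add] at hb
    exact hb

private theorem e5_zmod (a : ZMod 2) : a = 0 ∨ a = 1 := by
  revert a
  decide

private theorem e5_not_dvd : ¬ (2 : ℤ_[2]) ∣ 1 := by
  intro h
  have h1 : IsUnit (2 : ℤ_[2]) := isUnit_of_dvd_one h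
  have h2 : (PadicInt.toZMod (2 : ℤ_[2]) : ZMod 2) = 0 := by
    rw [map_ofNat]
    rfl
  have h3 := h1.map (PadicInt.toZMod (p := 2))
  rw [h2] at h3
  exact not_isUnit_zero h3

/-- `χ g • q₄ - q₄` for an element `q₄` with `q₄ + q₄ = half` -/
private theorem e5_quarter (hχ : IsChar S χ) {a : G → ZMod 2}
    (ha : ∀ g, a g = 0 ↔ (4 : ℤ_[2]) ∣ χ g - 1) {q : A0} (hq : q + q = half) (g : G) :
    χ g • q - q = hf (a g) := by
  obtain ⟨c, hc⟩ := hχ.odd g
  have e1 : χ g = 1 + 2 * c := by linear_combination hc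
  have e2 : χ g • q - q = c • half := by
    rw [e1, add_smul, one_smul, add_sub_cancel_left, mul_comm, mul_smul, two_smul, hq]
  rw [e2, smul_half]
  congr 1
  obtain ⟨b, rfl | rfl⟩ := e5_two c
  · have h0 : a g = 0 := (ha g).2 ⟨b, by rw [e1]; ring⟩
    rw [h0, map_mul, map_ofNat]
    show (2 : ZMod 2) * _ = 0
    have : (2 : ZMod 2) = 0 := rfl
    rw [this, zero_mul]
  · have h0 : a g ≠ 0 := by
      intro h
      obtain ⟨d, hd⟩ := (ha g).1 h
      apply e5_not_dvd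
      refine ⟨d - b, ?_⟩
      have e3 : (2 : ℤ_[2]) * (2 * b + 1) = 2 * (2 * d) := by
        rw [e1] at hd
        linear_combination hd
      have e4 := mul_left_cancel₀ (by norm_num : (2 : ℤ_[2]) ≠ 0) e3
      linear_combination e4
    have h1 : a g = 1 := by
      generalize a g = r at h0
      revert h0
      revert r
      decide
    rw [h1, map_add, map_mul, map_ofNat, map_one]
    have : (2 : ZMod 2) = 0 := rfl
    show (2 : ZMod 2) * _ + 1 = 1
    rw [this, zero_mul, zero_add]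

private theorem e5_main (hχ : IsChar S χ) (kk : ∀ g, κ (κ g) = g)
    (ksys : ∀ W, S.mem W → ∃ W', S.mem W' ∧ ∀ v ∈ W', κ v ∈ W) (kchi : ∀ g, χ (κ g) = χ g)
    {a : G → ZMod 2} (ha : ∀ g, a g = 0 ↔ (4 : ℤ_[2]) ∣ χ g - 1)
    (hH : ∀ ψ ∈ homs S ⊤, (∀ g, ψ (κ g) = ψ g) → ∃ (ε : ZMod 2) (b : G → ℤ_[2]), PA.C1 S b ∧
      (∀ g h, b (g * h) = b g + χ g * b h) ∧
      ∀ g, ψ g = ε * a g + PadicInt.toZMod (b g) + PadicInt.toZMod (b (κ g))) (n : ℕ) :
    ∀ {w : G → A0}, Z1 S (tw χ) w → (∀ g, w (κ g) = w g) → (∀ g, (2 ^ n) • w g = 0) →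
    ∃ (W : G → A0) (m : A0), Z1 S (tw χ) W ∧
      ∀ g, w g = (W g + W (κ g)) + (W g + W (κ g)) + (χ g • m - m) := by
  induction n with
  | zero =>
    intro w hw hk h0
    obtain ⟨V, hV⟩ := S.ex
    refine ⟨fun _ => 0, 0, ⟨⟨V, hV, fun _ _ _ => rfl⟩, fun g h => ?_⟩, fun g => ?_⟩
    · show (0 : A0) = 0 + χ g • 0
      rw [smul_zero, add_zero]
    · have := h0 g
      rw [pow_zero, one_smul] at this
      rw [this]
      simp
  | succ n ih =>
    intro w hw hk h0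
    -- the homomorphism
    have h1 : ∀ g, ∃ c : ZMod 2, (2 ^ n) • w g = hf c := by
      intro g
      refine eq_hf ?_
      rw [← two_smul ℕ, smul_smul, ← pow_succ']
      exact h0 g
    choose ψ hψ using h1
    have hψm : ∀ g h, ψ (g * h) = ψ g + ψ h := by
      intro g h
      apply hf_inj
      rw [← hψ, hf_add, ← hψ, hw.2, smul_add]
      congr 1
      show (2 ^ n) • (χ g • w h) = hf (ψ h)
      rw [smul_comm, hψ, smul_hf (hχ.odd g)]
    obtain ⟨⟨V, hV, hwc⟩, hwm⟩ := hw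
    have hψS : ψ ∈ homs S ⊤ := by
      refine ⟨⟨V, hV, fun g v hv => ?_⟩, fun g hg => absurd trivial hg, fun g _ h _ => hψm g h⟩
      apply hf_inj
      rw [← hψ, ← hψ, hwc g v hv]
    have hψk : ∀ g, ψ (κ g) = ψ g := by
      intro g
      apply hf_inj
      rw [← hψ, ← hψ, hk]
    obtain ⟨ε, b, hb, hbm, hbψ⟩ := hH ψ hψS hψk
    obtain ⟨s, hs⟩ := a0_div_pow (n + 1) half
    obtain ⟨q, hq⟩ := a0_div half
    obtain ⟨m₁, hm₁⟩ : ∃ m₁ : A0, ∀ g, (2 ^ n) • (χ g • m₁ - m₁) = hf (ε * a g) := by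
      have hε : ε = 0 ∨ ε = 1 := e5_zmod ε
      rcases hε with rfl | rfl
      · refine ⟨0, fun g => ?_⟩
        rw [smul_zero, sub_zero, smul_zero, zero_mul, hf_zero]
      · obtain ⟨m₁, hm⟩ := a0_div_pow n q
        refine ⟨m₁, fun g => ?_⟩
        rw [smul_sub, smul_comm, hm, one_mul]
        exact e5_quarter hχ ha hq g
    have hWs : Z1 S (tw χ) (fun g => b g • s) := z1_smul hb hbm s
    have hkc : ∀ W, S.mem W → ∃ W', S.mem W' ∧ ∀ w ∈ W', κ w ∈ W := ksys
    have hWk : Z1 S (tw χ) (fun g => b (κ g) • s) := by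
      have h2 := Z1.comp (SD := S) (j := κ) hkc hWs
      refine ⟨h2.1, fun g h => ?_⟩
      have h3 := h2.2 g h
      simp only [tw, kchi] at h3 ⊢
      exact h3
    have hact := isAct_tw hχ
    have hm1 : Z1 S (tw χ) (fun g => χ g • m₁ - m₁) := by
      refine ⟨?_, fun g h => ?_⟩
      · obtain ⟨W, hW, h2⟩ := sm1_smul hχ.cont m₁
        refine ⟨W, hW, fun g v hv => ?_⟩
        show χ (g * v) • m₁ - m₁ = χ g • m₁ - m₁
        have h3 : χ (g * v) • m₁ = χ g • m₁ := h2 g v hv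
        rw [h3]
      · show χ (g * h) • m₁ - m₁ = χ g • m₁ - m₁ + χ g • (χ h • m₁ - m₁)
        rw [hχ.mul, mul_smul, smul_sub]
        abel
    -- the new cocycle
    set u : G → A0 := fun g => (b g • s + b (κ g) • s) + (b g • s + b (κ g) • s) +
      (χ g • m₁ - m₁) with hu
    have huZ : Z1 S (tw χ) u := Z1.add hact (Z1.add hact (Z1.add hact hWs hWk)
      (Z1.add hact hWs hWk)) hm1
    have hw' : Z1 S (tw χ) (fun g => w g + -u g) :=
      Z1.add hact ⟨⟨V, hV, hwc⟩, hwm⟩ (Z1.neg hact huZ)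
    have huk : ∀ g, u (κ g) = u g := by
      intro g
      simp only [hu, kk, kchi]
      abel
    have hw0 : ∀ g, (2 ^ n) • (w g + -u g) = 0 := by
      intro g
      have h2 : (2 ^ n) • u g = hf (ψ g) := by
        have h3 : ∀ c : ℤ_[2], (2 ^ n) • (c • s + c • s) = hf (PadicInt.toZMod c) := by
          intro c
          rw [← smul_add, smul_comm, ← two_smul ℕ s, smul_smul, ← pow_succ, hs, smul_half]
        have h4 : u g = (b g • s + b g • s) + (b (κ g) • s + b (κ g) • s) +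
            (χ g • m₁ - m₁) := by
          simp only [hu]
          abel
        rw [h4, smul_add, smul_add, h3, h3, hm₁, hbψ g, hf_add, hf_add]
        abel
      rw [smul_add, smul_neg, h2, hψ, add_neg_cancel]
    obtain ⟨W', m', hW', hm'⟩ := ih hw' (fun g => by rw [hk, huk]) hw0
    refine ⟨fun g => W' g + b g • s, m' + m₁, Z1.add hact hW' hWs, fun g => ?_⟩
    have h5 := hm' g
    have h6 : w g = (w g + -u g) + u g := by abel
    rw [h6, h5]
    simp only [hu, smul_add]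
    abel

theorem kap_coc (hχ : IsChar S χ) (kk : ∀ g, κ (κ g) = g)
    (ksys : ∀ W, S.mem W → ∃ W', S.mem W' ∧ ∀ v ∈ W', κ v ∈ W) (kchi : ∀ g, χ (κ g) = χ g)
    {a : G → ZMod 2} (ha : ∀ g, a g = 0 ↔ (4 : ℤ_[2]) ∣ χ g - 1)
    (hH : ∀ ψ ∈ homs S ⊤, (∀ g, ψ (κ g) = ψ g) → ∃ (ε : ZMod 2) (b : G → ℤ_[2]), PA.C1 S b ∧
      (∀ g h, b (g * h) = b g + χ g * b h) ∧
      ∀ g, ψ g = ε * a g + PadicInt.toZMod (b g) + PadicInt.toZMod (b (κ g)))
    {w : G → A0} (hw : Z1 S (tw χ) w) (hk : ∀ g, w (κ g) = w g) :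
    ∃ (W : G → A0) (m : A0), Z1 S (tw χ) W ∧
      ∀ g, w g = (W g + W (κ g)) + (W g + W (κ g)) + (χ g • m - m) := by
  have hfin := sm1_fin hw.1
  have : Finite (Set.range w) := hfin
  obtain ⟨n, hn, -⟩ := a0_killed (fun t : Set.range w => (t : A0))
  exact e5_main hχ kk ksys kchi ha hH n hw hk fun g => hn ⟨w g, g, rfl⟩

end Pool.Agent.Work.MP_787500_nt.GP
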