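import Mathlib
import Pool.Agent.Work.MP_787500_nt.GP.BDefs
import Pool.Agent.Work.MP_787500_nt.GP.S3_VLoc
import Pool.Agent.Work.MP_787500_nt.GP.S0_KumT
import Pool.Agent.Work.MP_787500_nt.GP.T01_A0
import Pool.Agent.Work.MP_787500_nt.PA.SymbKer
import Pool.Agent.Work.MP_787500_nt.PA.CountsK
import Pool.Agent.Work.MP_787500_nt.PA.CycK
import Pool.Agent.Work.MP_787500_nt.PA.Four
import Pool.Agent.Work.MP_787500_nt.H10_Quad
import Pool.Agent.Work.MP_787500_nt.GP.B3_Inj

/-!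
# Module E6_YZERO (size M-L): the class `a ∪ a` at the place above 2

`a g = 0` iff `4 ∣ cyc g - 1` iff `g` fixes a square root `i` of `-1`; `a ∈ homs (goodSys K) ⊤`.
(1) If `inv (hf (a ∪ a)) = 0` then `a ∪ a` is `Cob` on `decomp ι` (`LocH.one`; extend the function by `cob_sub` of
`B3_Inj.lean`, or directly), so `Cob (goodSys K) ⊤ (a ∪ a)` by `v_cob` with `U = ⊤`. If not, the invariant is an element
killed by 2 (`hf a + hf a = 0` and `LocH.add`), different from 0, so it is `half` (`eq_hf`). So it is enough to show: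
(2) `¬ Cob (goodSys K) ⊤ (cup a a)`. Suppose it is `Cob`. `V = {g | a g = 0}` (index 2, as `-1` is not a square in `K`),
`a = chi V ⊤`, `s₀ ∉ V`. By `cup_chi_iff` there is `ψ ∈ homs (goodSys K) V` with `cor V ⊤ s₀ ψ = a`. `ψ = act2 V t`
(`PA.exists_su`), `t ^ 2` is fixed by `V`, so `t ^ 2 = x + y i` with `x, y ∈ K`, and `a = cor ψ = act2 ⊤ (t * s₀ t)` (for `g ∈ V`:
`ψ g + ψ (s₀ g s₀⁻¹)`; for `g ∉ V`: `ψ (g g)`; see the header of `C3_Symb0.lean` or `PA/SymbKer.lean`), so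
`(t * s₀ t) ^ 2 = (x + y i) (x - y i) = x ^ 2 + y ^ 2` is `-1` times the square of an element `z ≠ 0` of `K`
(`act2 ⊤ (t * s₀ t) = act2 ⊤ i`, so `(t * s₀ t) / i ∈ K`).
(3) `x ^ 2 + y ^ 2 + z ^ 2 = 0` with `x, y, z ∈ K` not all 0 is impossible: multiply by a power of 2 so that the
largest of the `v.valuation`s is 1 (`v.valuation 2 = exp (-1)`, `dyadic`); an element of valuation 1 has
`v.valuation (x ^ 2 - 1) ≤ exp (-3)` (`sq_sub_one_le`), an element of smaller valuation has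
`v.valuation (x ^ 2) ≤ exp (-2)`; the number `m` of elements of valuation 1 is 1, 2 or 3, and
`v.valuation m ≤ exp (-2)` is false (`v.valuation 2 = exp (-1)`, 1 and 3 are units).
-/

set_option autoImplicit false
set_option linter.unusedSectionVars false

namespace Pool.Agent.Work.MP_787500_nt.GP

open IsDedekindDomain NumberField
open Pool.Agent.Work.MP_787500_nt.PA (TwoSys Sm1 Sm2 homs Coc Cob IsChar goodSys core cyc Opn SU)
open Pool.Agent.Work.MP_787500_nt.Gn (GoodG)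

universe u

variable {K : Type u} [Field K] [NumberField K]

open WithZero in
private theorem e6_key {q : ℕ} {s : K} (hK : IsBase K q s) {v : HeightOneSpectrum (𝓞 K)}
    (hv : (2 : 𝓞 K) ∈ v.asIdeal) (x y : K) (hx : v.valuation K x ≤ 1) (hy : v.valuation K y ≤ 1) :
    1 + x ^ 2 + y ^ 2 ≠ 0 := by
  obtain ⟨hres, h2⟩ := Quad.dyadic hK.1 hK.2.1 hK.2.2.1 (by have := hK.2.2.2; omega) hv
  intro h
  have hunit : ∀ z : K, v.valuation K z = 1 → v.valuation K (z ^ 2 - 1) ≤ exp (-2) := fun z hz =>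
    (Quad.sq_sub_one_le hres h2 hz).trans (by rw [exp_le_exp]; norm_num)
  have hnon : ∀ z : K, v.valuation K z < 1 → v.valuation K (z ^ 2) ≤ exp (-2) := by
    intro z hz
    have h3 : v.valuation K z ≤ exp (-1) := by
      by_cases h0 : v.valuation K z = 0
      · rw [h0]
        exact zero_le'
      · obtain ⟨k, hk⟩ := WithZero.ne_zero_iff_exists.1 h0
        have h4 : v.valuation K z = exp (Multiplicative.toAdd k) := hk.symm
        rw [h4, ← exp_zero, exp_lt_exp] at hz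
        rw [h4, exp_le_exp]
        omega
    rw [map_pow]
    calc v.valuation K z ^ 2 ≤ exp (-1) ^ 2 := pow_le_pow_left' h3 2
      _ = exp (-2) := by rw [← exp_nsmul]; norm_num
  have hno : ∀ m : ℕ, m = 1 ∨ m = 2 ∨ m = 3 → ¬ v.valuation K (m : K) ≤ exp (-2) := by
    rintro m (rfl | rfl | rfl) h3
    · rw [Nat.cast_one, map_one, ← exp_zero, exp_le_exp] at h3
      norm_num at h3
    · rw [Nat.cast_ofNat, h2, exp_le_exp] at h3
      norm_num at h3
    · have h4 := Quad.val_int_eq_one (K := K) (v := v) Nat.prime_two (by exact_mod_cast hv)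
        (n := 3) (by norm_num)
      push_cast at h4 h3
      rw [h4, ← exp_zero, exp_le_exp] at h3
      norm_num at h3
  rcases hx.lt_or_eq with hx1 | hx1 <;> rcases hy.lt_or_eq with hy1 | hy1
  · refine hno 1 (Or.inl rfl) ?_
    have h3 : ((1 : ℕ) : K) = -(x ^ 2 + y ^ 2) := by push_cast; linear_combination h
    rw [h3, Valuation.map_neg]
    exact Valuation.map_add_le _ (hnon x hx1) (hnon y hy1)
  · refine hno 2 (Or.inr (Or.inl rfl)) ?_
    have h3 : ((2 : ℕ) : K) = -(x ^ 2 + (y ^ 2 - 1)) := by push_cast; linear_combination h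
    rw [h3, Valuation.map_neg]
    exact Valuation.map_add_le _ (hnon x hx1) (hunit y hy1)
  · refine hno 2 (Or.inr (Or.inl rfl)) ?_
    have h3 : ((2 : ℕ) : K) = -((x ^ 2 - 1) + y ^ 2) := by push_cast; linear_combination h
    rw [h3, Valuation.map_neg]
    exact Valuation.map_add_le _ (hunit x hx1) (hnon y hy1)
  · refine hno 3 (Or.inr (Or.inr rfl)) ?_
    have h3 : ((3 : ℕ) : K) = -((x ^ 2 - 1) + (y ^ 2 - 1)) := by push_cast; linear_combination h
    rw [h3, Valuation.map_neg]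
    exact Valuation.map_add_le _ (hunit x hx1) (hunit y hy1)

private theorem e6_sum {q : ℕ} {s : K} (hK : IsBase K q s) {v : HeightOneSpectrum (𝓞 K)}
    (hv : (2 : 𝓞 K) ∈ v.asIdeal) (x y z : K) (h : x ^ 2 + y ^ 2 + z ^ 2 = 0) : z = 0 := by
  have key : ∀ a b c : K, a ^ 2 + b ^ 2 + c ^ 2 = 0 → v.valuation K a ≤ v.valuation K c →
      v.valuation K b ≤ v.valuation K c → c = 0 := by
    intro a b c h hac hbc
    by_contra hc
    have hc' : v.valuation K c ≠ 0 := (Valuation.ne_zero_iff _).2 hc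
    refine e6_key hK hv (a / c) (b / c) ?_ ?_ ?_
    · rw [map_div₀]
      exact (div_le_one₀ (zero_lt_iff.2 hc')).2 hac
    · rw [map_div₀]
      exact (div_le_one₀ (zero_lt_iff.2 hc')).2 hbc
    · field_simp
      linear_combination h
  rcases le_total (v.valuation K x) (v.valuation K z) with h1 | h1
  · rcases le_total (v.valuation K y) (v.valuation K z) with h2 | h2
    · exact key x y z h h1 h2
    · have h3 := key x z y (by linear_combination h) (h1.trans h2) h2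
      rw [h3, map_zero, le_zero_iff] at h2
      exact (Valuation.zero_iff _).1 h2
  · rcases le_total (v.valuation K y) (v.valuation K x) with h2 | h2
    · have h3 := key y z x (by linear_combination h) h2 h1
      rw [h3, map_zero, le_zero_iff] at h1
      exact (Valuation.zero_iff _).1 h1
    · have h3 := key x z y (by linear_combination h) h2 (h1.trans h2)
      rw [h3, map_zero, le_zero_iff] at h2
      rw [h2, le_zero_iff] at h1
      exact (Valuation.zero_iff _).1 h1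

private theorem e6_charZero : CharZero (AlgebraicClosure K) :=
  charZero_of_injective_algebraMap (algebraMap K (AlgebraicClosure K)).injective

private theorem e6_ne : PA.imI K ≠ 0 := by
  intro h
  have h1 := PA.imI_sq K
  rw [h, zero_pow two_ne_zero] at h1
  exact one_ne_zero (neg_eq_zero.1 h1.symm)

private theorem e6_fix {a : AbsGal K → ZMod 2} (ha : ∀ g, a g = 0 ↔ (4 : ℤ_[2]) ∣ cyc g - 1)
    (g : AbsGal K) : a g = 0 ↔ g (PA.imI K) = PA.imI K := by
  have h1 : PA.ip K 1 = PA.imI K := by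
    show PA.imI K ^ (1 : ZMod 4).val = _
    rw [show (1 : ZMod 4).val = 1 from rfl, pow_one]
  have h2 := PA.gal_ip g (1 : ZMod 4)
  rw [ha, ← h1, h2, mul_one]
  have h3 : (4 : ℤ_[2]) = 2 ^ 2 := by norm_num
  rw [h3, ← PA.red4_eq_zero_iff, map_sub, map_one, sub_eq_zero]
  constructor
  · intro h
    show PA.ip K (PA.red4 (cyc g)) = _
    rw [h]
  · intro h
    exact PA.ip_injective (K := K) h

private theorem e6_act {a : AbsGal K → ZMod 2} (ha : ∀ g, a g = 0 ↔ (4 : ℤ_[2]) ∣ cyc g - 1) :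
    a = PA.act2 ⊤ (PA.imI K) := by
  classical
  funext g
  unfold PA.act2
  by_cases h : g (PA.imI K) = PA.imI K
  · rw [if_neg (fun h' => h'.2 h)]
    exact (e6_fix ha g).2 h
  · rw [if_pos ⟨trivial, h⟩]
    have h1 : a g ≠ 0 := fun h' => h ((e6_fix ha g).1 h')
    revert h1
    generalize a g = x
    revert x
    decide

theorem a_mem {a : AbsGal K → ZMod 2} (ha : ∀ g, a g = 0 ↔ (4 : ℤ_[2]) ∣ cyc g - 1) :
    a ∈ homs (goodSys K) ⊤ := by
  rw [e6_act ha]
  obtain ⟨W, hW⟩ := (goodSys K).ex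
  refine PA.act2_mem ⟨W, hW, le_top⟩ e6_ne ?_ fun g _ => ?_
  · refine PA.InM.sqrt (y := -1) ?_ ?_ (PA.imI_sq K)
    · have h1 := PA.InM.base (K := K) (-1)
      rwa [map_neg, map_one] at h1
    · refine ⟨neg_ne_zero.2 one_ne_zero, ⟨0, ?_⟩, 0, ?_⟩
      · rw [pow_zero, one_mul]
        exact isIntegral_one.neg
      · rw [pow_zero, one_mul, inv_neg, inv_one]
        exact isIntegral_one.neg
  · rw [PA.imI_sq, map_neg, map_one]

private theorem e6_cob {q : ℕ} {s : K} (hK : IsBase K q s) {v : HeightOneSpectrum (𝓞 K)}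
    (hv : (2 : 𝓞 K) ∈ v.asIdeal)
    {a : AbsGal K → ZMod 2} (ha : ∀ g, a g = 0 ↔ (4 : ℤ_[2]) ∣ cyc g - 1) :
    ¬ Cob (goodSys K) ⊤ (PA.cup a a) := by
  classical
  intro hc
  have hz := e6_charZero (K := K)
  have hne := e6_ne (K := K)
  let V : Subgroup (AbsGal K) := MulAction.stabilizer (AbsGal K) (PA.imI K)
  have hV : ∀ g, g ∈ V ↔ g (PA.imI K) = PA.imI K := fun g => Iff.rfl
  have hsgn : ∀ g : AbsGal K, g ∉ V → g (PA.imI K) = -PA.imI K := by
    intro g hg
    have h1 : g (PA.imI K) ^ 2 = PA.imI K ^ 2 := by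
      rw [← map_pow, PA.imI_sq, map_neg, map_one]
    exact (sq_eq_sq_iff_eq_or_eq_neg.1 h1).resolve_left hg
  have haV : a = PA.chi V ⊤ := by
    funext g
    unfold PA.chi
    by_cases h : g ∈ V
    · rw [if_neg (fun h' => h'.2 h)]
      exact (e6_fix ha g).2 h
    · rw [if_pos ⟨trivial, h⟩]
      have h1 : a g ≠ 0 := fun h' => h ((e6_fix ha g).1 h')
      revert h1
      generalize a g = x
      revert x
      decide
  have hmem := a_mem ha
  have hOV : Opn (goodSys K) V := by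
    obtain ⟨W, hW, h1⟩ := hmem.1
    refine ⟨W, hW, fun w hw => ?_⟩
    rw [hV, ← e6_fix ha]
    have h2 := h1 1 w hw
    rw [one_mul] at h2
    rw [h2, e6_fix ha]
    rfl
  obtain ⟨s₀, hs₀⟩ : ∃ s₀ : AbsGal K, s₀ ∉ V := by
    by_contra hcon
    push Not at hcon
    obtain ⟨x, hx⟩ := mem_base_of_fixed (F := K) (x := PA.imI K) (fun g => (hV g).1 (hcon g))
    have h1 : x ^ 2 = -1 := by
      apply (algebraMap K (AlgebraicClosure K)).injective
      rw [map_pow, hx, PA.imI_sq, map_neg, map_one]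
    have h2 := e6_sum hK hv x 0 1 (by rw [h1]; ring)
    exact one_ne_zero h2
  have hrel : V.relIndex ⊤ = 2 := by
    rw [Subgroup.relIndex_top_right, Subgroup.index_eq_two_iff]
    refine ⟨s₀, fun g => ?_⟩
    by_cases h : g ∈ V
    · right
      refine ⟨h, fun h1 => hs₀ ((Subgroup.mul_mem_cancel_left _ h).1 h1)⟩
    · left
      refine ⟨?_, h⟩
      rw [hV]
      show g (s₀ (PA.imI K)) = _
      rw [hsgn s₀ hs₀, map_neg, hsgn g h, neg_neg]
  rw [haV] at hc
  obtain ⟨ψ, hψ, hcor⟩ := (PA.cup_chi_iff le_top hOV hrel (Subgroup.mem_top s₀) hs₀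
    (by rw [← haV]; exact hmem)).1 hc
  obtain ⟨t, ht0, -, hfix, rfl⟩ := PA.exists_act2 hOV hψ
  have hact : ∀ g ∈ V, PA.act2 V t g = 0 ↔ g t = t := by
    intro g hg
    unfold PA.act2
    by_cases h : g t = t
    · rw [if_neg (fun h' => h'.2 h)]
      exact ⟨fun _ => h, fun _ => rfl⟩
    · rw [if_pos ⟨hg, h⟩]
      exact ⟨fun h' => absurd h' one_ne_zero, fun h' => absurd h' h⟩
  have hneg : ∀ g ∈ V, g t ≠ t → g t = -t := by
    intro g hg h
    have h1 : g t ^ 2 = t ^ 2 := by rw [← map_pow]; exact hfix g hg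
    exact (sq_eq_sq_iff_eq_or_eq_neg.1 h1).resolve_left h
  have hnorm : ∀ g ∈ V, s₀⁻¹ * g * s₀ ∈ V := by
    intro g hg
    rw [hV]
    show s₀⁻¹ (g (s₀ (PA.imI K))) = _
    rw [hsgn s₀ hs₀, map_neg, (hV g).1 hg, map_neg]
    have h1 : s₀⁻¹ ∉ V := fun h => hs₀ (V.inv_mem_iff.1 h)
    rw [hsgn _ h1, neg_neg]
  have hss : s₀ * s₀ ∈ V := by
    rw [hV]
    show s₀ (s₀ (PA.imI K)) = _
    rw [hsgn s₀ hs₀, map_neg, hsgn s₀ hs₀, neg_neg]
  -- `s₀ s₀ t = -t`
  have hst : s₀ (s₀ t) = -t := by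
    have h1 := congrFun hcor s₀
    rw [PA.cor_apply_not V ⊤ s₀ _ (Subgroup.mem_top s₀) hs₀,
      PA.chi_of_not (Subgroup.mem_top s₀) hs₀] at h1
    have h2 : (s₀ * s₀ : AbsGal K) t ≠ t := by
      intro h
      rw [(hact _ hss).2 h] at h1
      exact zero_ne_one h1
    exact hneg _ hss h2
  -- elements of `V` fix `t * s₀ t`
  have hVt : ∀ g ∈ V, g (t * s₀ t) = t * s₀ t := by
    intro g hg
    have h1 := congrFun hcor (s₀⁻¹ * g * s₀)
    rw [PA.cor_apply_mem V ⊤ s₀ _ (hnorm g hg), PA.chi_of_mem ⊤ (hnorm g hg)] at h1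
    have h2 : s₀ * (s₀⁻¹ * g * s₀) * s₀⁻¹ = g := by group
    rw [h2] at h1
    have h3 : g (s₀ t) = s₀ ((s₀⁻¹ * g * s₀ : AbsGal K) t) := by
      show _ = s₀ (s₀⁻¹ (g (s₀ t)))
      exact (AlgEquiv.apply_symm_apply s₀ _).symm
    rw [map_mul, h3]
    by_cases h4 : g t = t
    · have h5 : (s₀⁻¹ * g * s₀ : AbsGal K) t = t := by
        rw [← hact _ (hnorm g hg)]
        rwa [(hact g hg).2 h4, add_zero] at h1
      rw [h4, h5]
    · have h5 : (s₀⁻¹ * g * s₀ : AbsGal K) t ≠ t := by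
        intro h5
        rw [(hact _ (hnorm g hg)).2 h5, zero_add] at h1
        exact h4 ((hact g hg).1 h1)
      rw [hneg g hg h4, hneg _ (hnorm g hg) h5, map_neg, neg_mul_neg]
  have hmul : ∀ g : AbsGal K, g ∉ V → ∃ w ∈ V, g = w * s₀ := by
    intro g hg
    refine ⟨g * s₀⁻¹, ?_, by group⟩
    rw [hV]
    show g (s₀⁻¹ (PA.imI K)) = _
    have h1 : s₀⁻¹ ∉ V := fun h => hs₀ (V.inv_mem_iff.1 h)
    rw [hsgn _ h1, map_neg, hsgn g hg, neg_neg]
  -- `z`
  obtain ⟨z, hz1⟩ := mem_base_of_fixed (F := K) (x := t * s₀ t / PA.imI K) (fun g => by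
    rw [map_div₀]
    by_cases hg : g ∈ V
    · rw [hVt g hg, (hV g).1 hg]
    · obtain ⟨w, hw, rfl⟩ := hmul g hg
      rw [hsgn _ hg]
      show w (s₀ (t * s₀ t)) / _ = _
      have h1 : s₀ (t * s₀ t) = -(t * s₀ t) := by
        rw [map_mul, hst]
        ring
      rw [h1, map_neg, hVt w hw, neg_div_neg_eq])
  have hfix' : ∀ g ∈ V, g (s₀ (t ^ 2)) = s₀ (t ^ 2) := by
    intro g hg
    have h3 : g (s₀ (t ^ 2)) = s₀ ((s₀⁻¹ * g * s₀ : AbsGal K) (t ^ 2)) := by
      show _ = s₀ (s₀⁻¹ (g (s₀ (t ^ 2))))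
      exact (AlgEquiv.apply_symm_apply s₀ _).symm
    rw [h3, hfix _ (hnorm g hg)]
  have hswap : s₀ (s₀ (t ^ 2)) = t ^ 2 := hfix _ hss
  obtain ⟨x, hx1⟩ := mem_base_of_fixed (F := K) (x := (t ^ 2 + s₀ (t ^ 2)) / 2) (fun g => by
    rw [map_div₀, map_ofNat, map_add]
    by_cases hg : g ∈ V
    · rw [hfix g hg, hfix' g hg]
    · obtain ⟨w, hw, rfl⟩ := hmul g hg
      show (w (s₀ (t ^ 2)) + w (s₀ (s₀ (t ^ 2)))) / 2 = _
      rw [hswap, hfix w hw, hfix' w hw, add_comm])
  obtain ⟨y, hy1⟩ := mem_base_of_fixed (F := K) (x := (t ^ 2 - s₀ (t ^ 2)) / (2 * PA.imI K))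
    (fun g => by
    rw [map_div₀, map_mul, map_ofNat, map_sub]
    by_cases hg : g ∈ V
    · rw [hfix g hg, hfix' g hg, (hV g).1 hg]
    · rw [hsgn g hg]
      obtain ⟨w, hw, rfl⟩ := hmul g hg
      show (w (s₀ (t ^ 2)) - w (s₀ (s₀ (t ^ 2)))) / _ = _
      rw [hswap, hfix w hw, hfix' w hw, mul_neg, div_neg, ← neg_div, neg_sub])
  have hfin : x ^ 2 + y ^ 2 + z ^ 2 = 0 := by
    apply (algebraMap K (AlgebraicClosure K)).injective
    rw [map_add, map_add, map_pow, map_pow, map_pow, hx1, hy1, hz1, map_zero, map_pow]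
    have h1 := PA.imI_sq K
    field_simp
    generalize PA.imI K = i at h1
    generalize s₀ t = u
    linear_combination ((t ^ 2 + u ^ 2) ^ 2 / 1) * h1
  have hz0 := e6_sum hK hv x y z hfin
  rw [hz0, map_zero, eq_comm, div_eq_zero_iff] at hz1
  rcases hz1 with h1 | h1
  · rcases mul_eq_zero.1 h1 with h2 | h2
    · exact ht0 h2
    · exact ht0 ((map_eq_zero _).1 h2)
  · exact hne h1

theorem inv_aa {q : ℕ} {s : K} (hK : IsBase K q s) {v : HeightOneSpectrum (𝓞 K)}
    (hv : (2 : 𝓞 K) ∈ v.asIdeal)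
    (ι : AlgebraicClosure K →ₐ[K] AlgebraicClosure (v.adicCompletion K)) {T : Finset ℕ}
    {inv : (decomp ι → decomp ι → A0) → A0}
    (L : LocH (sysD K T (decomp ι)) (fun d => cyc (d : AbsGal K)) inv)
    {a : AbsGal K → ZMod 2} (ha : ∀ g, a g = 0 ↔ (4 : ℤ_[2]) ∣ cyc g - 1) :
    inv (fun d e => hf (a (d : AbsGal K) * a (e : AbsGal K))) = half := by
  have hmem := a_mem ha
  obtain ⟨⟨W, hW, hsm⟩, -, hadd⟩ := hmem
  have hW' : PA.Good W := hW
  have hadd' : ∀ g h : AbsGal K, a (g * h) = a g + a h := fun g h => hadd g trivial h trivial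
  have hCoc : ∀ k : AbsGal K → AbsGal K → ZMod 2, k = (fun g h => a g * a h) →
      ∀ x y z, k x y + k (x * y) z = k y z + k x (y * z) := by
    rintro k rfl x y z
    simp only [hadd']
    ring
  have hsm2 : ∀ g h w w', w ∈ W → w' ∈ W → a (g * w) * a (h * w') = a g * a h := by
    intro g h w w' hw hw'
    rw [hsm g w hw, hsm h w' hw']
  have hSm : Sm2 (sysD K T (decomp ι)) (fun d e : decomp ι => a (d : AbsGal K) * a (e : AbsGal K)) :=
    ⟨W.subgroupOf _, ⟨W, Good.goodT hW' T, rfl⟩, fun g h w hw w' hw' =>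
      hsm2 g h w w' (Subgroup.mem_subgroupOf.1 hw) (Subgroup.mem_subgroupOf.1 hw')⟩
  have hZ : Z2 (sysD K T (decomp ι)) (tw fun d => cyc (d : AbsGal K))
      (fun d e : decomp ι => hf (a (d : AbsGal K) * a (e : AbsGal K))) := by
    obtain ⟨W1, hW1, h1⟩ := hSm
    refine ⟨⟨W1, hW1, fun g h w hw w' hw' => congrArg hf (h1 g h w hw w' hw')⟩, fun x y z => ?_⟩
    have h2 := hCoc _ rfl (x : AbsGal K) y z
    have h3 : ∀ e : ZMod 2, (cyc (x : AbsGal K)) • hf e = hf e := fun e =>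
      smul_hf (PA.isChar_cyc.odd _) e
    show cyc (x : AbsGal K) • hf (a y * a z) - hf (a (x * y : AbsGal K) * a z) +
      hf (a x * a (y * z : AbsGal K)) - hf (a x * a y) = 0
    rw [h3, ← hf_neg (a (x * y : AbsGal K) * a z), sub_neg_eq_add, ← hf_neg (a x * a y : ZMod 2),
      sub_neg_eq_add, ← hf_add, ← hf_add, ← hf_add]
    have h4 : (a y * a z : ZMod 2) + a (x * y : AbsGal K) * a z + a x * a (y * z : AbsGal K) +
      a x * a y = 0 := by
      have h5 : ∀ p q r t : ZMod 2, p + q = r + t → r + q + t + p = 0 := by decide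
      exact h5 _ _ _ _ h2
    rw [h4, hf_zero]
  have hne : inv (fun d e => hf (a (d : AbsGal K) * a (e : AbsGal K))) ≠ 0 := by
    intro h
    have h1 := L.one (fun d e => a (d : AbsGal K) * a (e : AbsGal K))
      ⟨hSm, fun g _ h _ k _ => hCoc _ rfl (g : AbsGal K) h k⟩ h
    have h2 : Cob (sysT K T) (decomp ι) (PA.cup a a) := cob_sub (f := PA.cup a a) h1
    obtain ⟨W0, hW0⟩ := (goodSys K).ex
    refine e6_cob hK hv ha (v_cob hK hv ι (T := T) ⟨W0, hW0, le_top⟩ ?_ (by rwa [inf_top_eq]))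
    exact ⟨⟨W, hW, fun g h w hw w' hw' => hsm2 g h w w' hw hw'⟩,
      fun g _ h _ k _ => hCoc _ rfl g h k⟩
  have htwo : inv (fun d e => hf (a (d : AbsGal K) * a (e : AbsGal K))) +
      inv (fun d e => hf (a (d : AbsGal K) * a (e : AbsGal K))) = 0 := by
    rw [← L.add _ _ hZ hZ]
    have h1 : (fun d e : decomp ι => hf (a (d : AbsGal K) * a (e : AbsGal K)) +
        hf (a (d : AbsGal K) * a (e : AbsGal K))) =
        d1 (tw fun d : decomp ι => cyc (d : AbsGal K)) (fun _ => 0) := by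
      funext d e
      rw [hf_two]
      show (0 : A0) = 0 + cyc (d : AbsGal K) • (0 : A0) - 0
      rw [smul_zero, add_zero, sub_zero]
    rw [h1]
    obtain ⟨W1, hW1, -⟩ := hSm
    exact L.cob _ ⟨W1, hW1, fun _ _ _ => rfl⟩
  obtain ⟨e, he⟩ := eq_hf htwo
  rw [he] at hne ⊢
  have h1 : e = 1 := by
    have h2 : e ≠ 0 := by
      rintro rfl
      exact hne hf_zero
    clear he hne
    revert h2
    revert e
    decide
  rw [h1, hf_one]

end Pool.Agent.Work.MP_787500_nt.GP
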