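import Mathlib
import Pool.Agent.Work.MP_787500_nt.GP.BDefs
import Pool.Agent.Work.MP_787500_nt.GP.B0_Smul

/-!
# Module E2_DELTA (size M, generic, cocycle identities): the invariant of pairs

`Dta κ θ φ m z u = m (u θ - z θ (κ θ)) - u φ + z θ (κ φ) - z φ θ`, `2 m = 1 - q`, `χ θ = -1`, `χ φ = q`; `χ a • t` is written
`a t`; `-1 • t = -t`, `(q : ℤ_[2]) • t = q • t`.
* `dta_add`: clear.
* `dta_d1`: `z = d1 x`, `u = -(x + x ∘ κ)`: `u θ - z θ (κ θ) = -x θ - x (κ θ) - (x θ - x (κ θ) - x (θ κ θ)) = -2 x θ + x 1 = -2 x θ`;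
  `-u φ + z θ (κ φ) - z φ θ = x φ + x (κ φ) + (x θ - x (κ φ) - x (θ κ φ)) - (x φ + q x θ - x (φ θ)) = (1 - q) x θ`. The total
  is `(-2 m + 1 - q) x θ = 0`. (`x (θ κ θ) = x 1 = 0`, `x (θ κ φ) = x (φ θ)` by `tk`, `fk` and smoothness.)
* `dta_kap`: `y ∈ Z2`, normalized (`y g 1 = y 1 g = 0`), `z a b = y a b - y (κ a) (κ b)`, `u = 0`. `y` is constant on cosets, so
  we may replace `κ θ` by `θ' = θ⁻¹` and `κ φ` by `φ' = θ⁻¹ φ θ` (then `θ φ' = φ θ`, `φ' θ⁻¹ = θ⁻¹ φ`), and `κ (κ θ) = θ`.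
  `u θ - z θ (κ θ) = -(y θ θ' - y θ' θ)`. The cocycle relation for `(θ, θ', θ)`: `y θ θ' = -y θ' θ`. So this is `2 y θ' θ`.
  `z θ (κ φ) - z φ θ = y θ φ' - y θ' φ - y φ θ + y φ' θ'`. Relations: `(θ', θ, φ')`: `y θ φ' = y θ' (φ θ) - y θ' θ`;
  `(θ', φ, θ)`: `-y φ θ - y (θ' φ) θ + y θ' (φ θ) - y θ' φ = 0`; `(φ', θ', θ)`:
  `y φ' θ' = q y θ' θ - y (φ' θ') θ = q y θ' θ - y (θ' φ) θ`. The sum is `(q - 1) y θ' θ`. Total: `2 m + q - 1 = 0`.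
* `dta_hf`: `a` a homomorphism with `a ∘ κ = a`, `a θ = 1`, `m` odd: `-m half + hf (a θ a φ) - hf (a φ a θ) = half`.
* `dta_w`: `w g = 2 (W g + W (κ g)) + χ g m' - m'`, `W ∈ Z1`. With `w'' = W + W ∘ κ`: `w'' (θ κ φ) = w'' (φ θ)` and
  `w'' (κ φ) = w'' φ` give `w'' θ - w'' φ = w'' φ + q w'' θ`, so `(1 - q) w'' θ = 2 w'' φ`;
  `m w θ - w φ = 2 m w'' θ - 2 w'' φ + (-2 m - (q - 1)) m' = 0`.
-/

set_option autoImplicit false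
set_option linter.unusedSectionVars false

namespace Pool.Agent.Work.MP_787500_nt.GP

open Pool.Agent.Work.MP_787500_nt.PA (TwoSys Sm1 Sm2 homs Coc Cob IsChar)

variable {G : Type*} [Group G] {S : TwoSys G} {χ : G → ℤ_[2]} {κ : G →* G} {θ φ : G} {q : ℕ}
  {m : ℤ}

theorem dta_add (z z' : G → G → A0) (u u' : G → A0) :
    Dta κ θ φ m (fun a b => z a b + z' a b) (fun a => u a + u' a) =
      Dta κ θ φ m z u + Dta κ θ φ m z' u' := by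
  simp only [Dta, smul_sub, smul_add]
  abel

private theorem e2_cos {A : Type*} {W : Subgroup G} {x : G → A} (hx : ∀ g, ∀ w ∈ W, x (g * w) = x g)
    {a b : G} (h : a⁻¹ * b ∈ W) : x b = x a := by
  have := hx a _ h
  rwa [mul_inv_cancel_left] at this

private theorem e2_neg (t : A0) (h : χ θ = -1) : χ θ • t = -t := by
  rw [h, neg_smul, one_smul]

private theorem e2_q (t : A0) (h : χ φ = q) : χ φ • t = (q : ℤ) • t := by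
  rw [h, Nat.cast_smul_eq_nsmul, natCast_zsmul]

theorem dta_d1 (hm : 2 * m = 1 - q) (hθ : χ θ = -1) (hφ : χ φ = q)
    (tk : ∀ W, S.mem W → θ * κ θ ∈ W) (fk : ∀ W, S.mem W → (θ * κ φ)⁻¹ * (φ * θ) ∈ W)
    {x : G → A0} (hx : Sm1 S x) (h1 : x 1 = 0) :
    Dta κ θ φ m (d1 (tw χ) x) (fun g => -(x g + x (κ g))) = 0 := by
  obtain ⟨W, hW, hx⟩ := hx
  have e1 : x (θ * κ θ) = 0 := by
    rw [← h1]
    exact e2_cos hx (by rw [inv_one, one_mul]; exact tk W hW)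
  have e2 : x (φ * θ) = x (θ * κ φ) := e2_cos hx (fk W hW)
  unfold Dta d1 tw
  simp only [e2_neg _ hθ, e2_q _ hφ, e1, e2]
  linear_combination (norm := module) (-hm) • x θ

theorem dta_kap (hm : 2 * m = 1 - q) (hχ : IsChar S χ) (kk : ∀ g, κ (κ g) = g)
    (ksys : ∀ W, S.mem W → ∃ W', S.mem W' ∧ ∀ v ∈ W', κ v ∈ W) (kchi : ∀ g, χ (κ g) = χ g)
    (hθ : χ θ = -1) (hφ : χ φ = q) (tk : ∀ W, S.mem W → θ * κ θ ∈ W)
    (fk : ∀ W, S.mem W → (θ * κ φ)⁻¹ * (φ * θ) ∈ W) {y : G → G → A0} (hy : Z2 S (tw χ) y)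
    (h1 : ∀ g, y g 1 = 0) (h2 : ∀ g, y 1 g = 0) :
    Dta κ θ φ m (fun a b => y a b - y (κ a) (κ b)) (fun _ => 0) = 0 := by
  obtain ⟨⟨W, hW, hc⟩, hd⟩ := hy
  have hcos : ∀ a b a' b' : G, a⁻¹ * b ∈ W → a'⁻¹ * b' ∈ W → y b b' = y a a' := by
    intro a b a' b' h h'
    have := hc a a' _ h _ h'
    rwa [mul_inv_cancel_left, mul_inv_cancel_left] at this
  have hone : ∀ g : G, g⁻¹ * g ∈ W := fun g => by rw [inv_mul_cancel]; exact W.one_mem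
  have w1 : (θ⁻¹)⁻¹ * κ θ ∈ W := by rw [inv_inv]; exact tk W hW
  have w2 : (θ⁻¹ * φ * θ)⁻¹ * κ φ ∈ W := by
    have h3 := W.inv_mem (fk W hW)
    have e : ((θ * κ φ)⁻¹ * (φ * θ))⁻¹ = (θ⁻¹ * φ * θ)⁻¹ * κ φ := by group
    rwa [e] at h3
  have hχi : χ θ⁻¹ = -1 := by
    have h3 := hχ.mul θ θ⁻¹
    rw [mul_inv_cancel, hχ.one, hθ] at h3
    linear_combination h3
  have hχφ : χ (θ⁻¹ * φ * θ) = q := by
    rw [hχ.mul, hχ.mul, hχi, hφ, hθ]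
    ring
  -- the values
  have v1 : y θ (κ θ) = y θ θ⁻¹ := hcos _ _ _ _ (hone θ) w1
  have v2 : y (κ θ) θ = y θ⁻¹ θ := hcos _ _ _ _ w1 (hone θ)
  have v3 : y θ (κ φ) = y θ (θ⁻¹ * φ * θ) := hcos _ _ _ _ (hone θ) w2
  have v4 : y (κ θ) φ = y θ⁻¹ φ := hcos _ _ _ _ w1 (hone φ)
  have v5 : y (κ φ) (κ θ) = y (θ⁻¹ * φ * θ) θ⁻¹ := hcos _ _ _ _ w2 w1
  -- the relations
  have r1 := hd θ θ⁻¹ θ
  have r2 := hd θ⁻¹ θ (θ⁻¹ * φ * θ)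
  have r3 := hd θ⁻¹ φ θ
  have r4 := hd (θ⁻¹ * φ * θ) θ⁻¹ θ
  unfold d2 tw at r1 r2 r3 r4
  have g1 : θ * (θ⁻¹ * φ * θ) = φ * θ := by group
  have g2 : θ⁻¹ * φ * θ * θ⁻¹ = θ⁻¹ * φ := by group
  rw [mul_inv_cancel, inv_mul_cancel, h1, h2, e2_neg _ hθ] at r1
  rw [inv_mul_cancel, h2, e2_neg _ hχi, g1] at r2
  rw [e2_neg _ hχi] at r3
  rw [g2, inv_mul_cancel, h1, e2_q _ hχφ] at r4
  unfold Dta
  simp only [kk, v1, v2, v3, v4, v5]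
  linear_combination (norm := module) (hm) • y θ⁻¹ θ + m • r1 - r2 + r3 - r4

theorem dta_hf (hm : Odd m) {a : G → ZMod 2} (ha : ∀ g, a (κ g) = a g) (h1 : a θ = 1) :
    Dta κ θ φ m (fun g h => hf (a g * a h)) (fun _ => 0) = half := by
  obtain ⟨k, rfl⟩ := hm
  unfold Dta
  simp only [ha, h1, one_mul, mul_one, hf_one]
  have h2 := two_half
  have h3 : k • (half + half) = 0 := by rw [h2, smul_zero]
  linear_combination (norm := module) -h3 - h2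

theorem dta_w (hm : 2 * m = 1 - q) (hχ : IsChar S χ) (kk : ∀ g, κ (κ g) = g)
    (kchi : ∀ g, χ (κ g) = χ g) (hθ : χ θ = -1) (hφ : χ φ = q)
    (fk : ∀ W, S.mem W → (θ * κ φ)⁻¹ * (φ * θ) ∈ W) {W : G → A0} (hW : Z1 S (tw χ) W)
    (ksys : ∀ W, S.mem W → ∃ W', S.mem W' ∧ ∀ v ∈ W', κ v ∈ W) (m' : A0) :
    Dta κ θ φ m (fun _ _ => 0)
      (fun g => (W g + W (κ g)) + (W g + W (κ g)) + (χ g • m' - m')) = 0 := by
  obtain ⟨⟨V, hV, hc⟩, hcoc⟩ := hW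
  obtain ⟨V', hV', hk⟩ := ksys V hV
  have e1 : W (φ * θ) = W (θ * κ φ) := e2_cos hc (fk V hV)
  have e2 : W (κ (φ * θ)) = W (κ (θ * κ φ)) := by
    refine e2_cos hc ?_
    have h3 := hk _ (fk V' hV')
    rwa [map_mul, map_inv] at h3
  rw [map_mul, map_mul, kk, hcoc, hcoc] at e2
  rw [hcoc, hcoc] at e1
  unfold tw at e1 e2
  rw [kchi, kchi, e2_neg _ hθ, e2_q _ hφ] at e2
  rw [e2_neg _ hθ, e2_q _ hφ] at e1
  unfold Dta
  simp only [e2_neg _ hθ, e2_q _ hφ]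
  linear_combination (norm := module) (hm) • (W θ + W (κ θ) - m') - e1 - e2

end Pool.Agent.Work.MP_787500_nt.GP
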