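import Mathlib
import Pool.Agent.Work.MP_787500_nt.GP.B4_Recip
import Pool.Agent.Work.MP_787500_nt.GP.E2_Delta

/-!
# Module E7_ALT (size M, generic): the alternation property

Let `z`, `u` be as in the statement. The restriction of `z ∘ κ` to `D w` has invariant `-inv w z` (`z ∘ κ + z = -d1 u`).
(1) `c l` with `e l • c l = inv (some l) z` (`a0_dvd`), `y = ∑ l, N (some l) • c l` (normalized: `norm`),
`z' = z - (y - y ∘ κ)`. `inv (some l) z' = inv z - e l • c l + 0 = 0`, `inv (some l) (z' ∘ κ) = -inv z - 0 + e l • c l = 0` (`vals`,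
`off`, `offk`, `kk`). `RecH.recip` for `z'`: `inv none z' = inv none (z' ∘ κ)`, and `z' ∘ κ = -z' - d1 u`, so
`2 • inv none z' = 0`, `inv none z' = hf ε` (`eq_hf`).
(2) `z'' = z' - hf (ε * (a ∪ a))`: `inv none z'' = 0` (`haa`), `inv (some l)` of `z''` and of `z'' ∘ κ` are 0 (`haal`, `a ∘ κ = a`). By
`H.inj` `z'' = d1 x`, `x` smooth; `x 1 = 0` (all is normalized, `d1 x 1 1 = x 1`).
(3) `w = u + x + x ∘ κ` is in `Z1`: smooth, and `d1 w = d1 u + d1 x + (d1 x) ∘ κ = -(z ∘ κ + z) + z'' + z'' ∘ κ = 0`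
(`y - y ∘ κ` cancels with its `κ`-translate, and `2 hf = 0`); `w ∘ κ = w`. By `hw` it is as in `dta_w`.
(4) `(z, u) = (y - y ∘ κ, 0) + (hf (ε a ∪ a), 0) + (d1 x, -(x + x ∘ κ)) + (0, w)`. `Dta` of the left side is 0 by the two
last hypotheses on `u`; of the terms on the right: 0 (`dta_kap`), `hf ε` (`dta_hf`), 0 (`dta_d1`), 0 (`dta_w`). So `ε = 0`.
(5) `∑ w, inv w z = ∑ w, (inv w y - inv w (y ∘ κ)) + 0 = 0` by `recip` for `y` (or `sum`).
-/

set_option autoImplicit false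
set_option linter.unusedSectionVars false

namespace Pool.Agent.Work.MP_787500_nt.GP

open Pool.Agent.Work.MP_787500_nt.PA (TwoSys Sm1 Sm2 homs Coc Cob IsChar)

variable {G : Type*} [Group G] {S : TwoSys G} {Λ : Type*} [Fintype Λ]
  {D : Option Λ → Type*} [∀ w, Group (D w)] {SD : ∀ w, TwoSys (D w)} {j : ∀ w, D w →* G}
  {χ : G → ℤ_[2]} {inv : ∀ w, (D w → D w → A0) → A0} {κ : G →* G}
  {N : Option Λ → G → G → ℤ_[2]} {e : Λ → ℤ_[2]} {θ φ : G} {q : ℕ} {m : ℤ}

private theorem e7_zmod (a : ZMod 2) : a = 0 ∨ a = 1 := by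
  revert a
  decide

private theorem e7_hf (hχ : IsChar S χ) {a : G → ZMod 2} (ha : a ∈ homs S ⊤) :
    Z2 S (tw χ) (fun g h => hf (a g * a h)) := by
  obtain ⟨h1, -, h2⟩ := ha
  refine ⟨sm2_pair h1 h1 (fun s t => hf (s * t)), fun g h k => ?_⟩
  have e1 : a (g * h) = a g + a h := h2 g trivial h trivial
  have e2 : a (h * k) = a h + a k := h2 h trivial k trivial
  show χ g • hf (a h * a k) - hf (a (g * h) * a k) + hf (a g * a (h * k)) - hf (a g * a h) = 0
  rw [smul_hf (hχ.odd g), e1, e2, add_mul, mul_add, hf_add, hf_add]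
  abel

private theorem e7_eq {M : Type*} [AddCommGroup M] {t s : M} (h : t = s) (h' : s = -t) : t + t = 0 := by
  have h2 : t = -t := h.trans h'
  calc t + t = t + -t := by rw [← h2]
    _ = 0 := add_neg_cancel t

/-- step (1) -/
private theorem e7_one (H : RecH S SD j χ inv κ N e) {z : G → G → A0} {u : G → A0}
    (hz : Z2 S (tw χ) z) (h1 : ∀ g, z g 1 = 0) (h2 : ∀ g, z 1 g = 0) (hu : Sm1 S u)
    (h3 : ∀ a b, z (κ a) (κ b) + z a b = -d1 (tw χ) u a b) :
    ∃ y : G → G → A0, Z2 S (tw χ) y ∧ (∀ g, y g 1 = 0) ∧ (∀ g, y 1 g = 0) ∧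
      (∀ l : Λ, inv (some l) (fun a b => z (j _ a) (j _ b) -
        (y (j _ a) (j _ b) - y (κ (j _ a)) (κ (j _ b)))) = 0) ∧
      (∀ l : Λ, inv (some l) (fun a b => z (κ (j _ a)) (κ (j _ b)) -
        (y (κ (j _ a)) (κ (j _ b)) - y (j _ a) (j _ b))) = 0) ∧
      ∃ ε : ZMod 2, inv none (fun a b => z (j _ a) (j _ b) -
        (y (j _ a) (j _ b) - y (κ (j _ a)) (κ (j _ b)))) = hf ε := by
  classical
  have hact := isAct_tw H.char
  choose c hc using fun l => a0_dvd (H.ne l) (inv (some l) (fun a b => z (j _ a) (j _ b)))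
  have hN : ∀ w (s : A0), Z2 S (tw χ) (fun a b => N w a b • s) := fun w s => z2_smul (H.z2 w) s
  set y : G → G → A0 := fun a b => ∑ l, N (some l) a b • c l with hy
  have zy : Z2 S (tw χ) y := H.b4_z2sum fun l => hN (some l) (c l)
  have zyk := H.b4_kap zy
  have zd := H.b4_z2sub zy zyk
  have zdk := H.b4_kap zd
  have hk1 : κ 1 = 1 := map_one κ
  -- the invariant of z ∘ κ
  have hzk : ∀ w, inv w (fun a b => z (κ (j w a)) (κ (j w b))) =
      -inv w (fun a b => z (j w a) (j w b)) := by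
    intro w
    have e1 := H.b4_add (H.b4_kap hz) hz w
    have e2 : B2 S (tw χ) (fun a b => z (κ a) (κ b) + z a b) := by
      refine ⟨fun g => -u g, ?_, ?_⟩
      · obtain ⟨W, hW, h5⟩ := hu
        exact ⟨W, hW, fun g v hv => congrArg Neg.neg (h5 g v hv)⟩
      · funext a b
        rw [h3]
        show -(u a + χ a • u b - u (a * b)) = -u a + χ a • (-u b) - -u (a * b)
        rw [smul_neg]
        abel
    have e3 := H.b4_b2 e2 w
    rw [e1] at e3
    exact eq_neg_of_add_eq_zero_left e3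
  have k1 : ∀ w, inv w (fun a b => y (j w a) (j w b)) =
      ∑ l, inv w (fun a b => N (some l) (j w a) (j w b) • c l) :=
    fun w => H.b4_sum (fun l => hN (some l) (c l)) w
  have k2 : ∀ w, inv w (fun a b => y (κ (j w a)) (κ (j w b))) =
      ∑ l, inv w (fun a b => N (some l) (κ (j w a)) (κ (j w b)) • c l) :=
    fun w => H.b4_sum (fun l => H.b4_kap (hN (some l) (c l))) w
  have k3 : ∀ l, inv (some l) (fun a b => y (j _ a) (j _ b)) =
      inv (some l) (fun a b => z (j _ a) (j _ b)) := by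
    intro l
    rw [k1, Finset.sum_eq_single l, H.vals, hc]
    · intro l' _ hl
      exact H.off l (some l') (fun h => hl (Option.some_injective _ h)) (c l')
    · intro h
      exact absurd (Finset.mem_univ l) h
  have k4 : ∀ l, inv (some l) (fun a b => y (κ (j _ a)) (κ (j _ b))) = 0 := by
    intro l
    rw [k2]
    exact Finset.sum_eq_zero fun l' _ => H.offk l (some l') (c l')
  -- z' and its translate
  have m1 : ∀ w, inv w (fun a b => z (j w a) (j w b) -
      (y (j w a) (j w b) - y (κ (j w a)) (κ (j w b)))) = inv w (fun a b => z (j w a) (j w b)) -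
      (inv w (fun a b => y (j w a) (j w b)) - inv w (fun a b => y (κ (j w a)) (κ (j w b)))) := by
    intro w
    rw [← H.b4_sub zy zyk w]
    exact H.b4_sub hz zd w
  have m2 : ∀ w, inv w (fun a b => z (κ (j w a)) (κ (j w b)) -
      (y (κ (j w a)) (κ (j w b)) - y (j w a) (j w b))) =
      inv w (fun a b => z (κ (j w a)) (κ (j w b))) -
      (inv w (fun a b => y (κ (j w a)) (κ (j w b))) - inv w (fun a b => y (j w a) (j w b))) := by
    intro w
    rw [← H.b4_sub zyk zy w]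
    exact H.b4_sub (H.b4_kap hz) (H.b4_z2sub zyk zy) w
  have m3 : ∀ l : Λ, inv (some l) (fun a b => z (j _ a) (j _ b) -
      (y (j _ a) (j _ b) - y (κ (j _ a)) (κ (j _ b)))) = 0 := by
    intro l
    rw [m1, k3, k4, sub_zero, sub_self]
  have m4 : ∀ l : Λ, inv (some l) (fun a b => z (κ (j _ a)) (κ (j _ b)) -
      (y (κ (j _ a)) (κ (j _ b)) - y (j _ a) (j _ b))) = 0 := by
    intro l
    rw [m2, k3, k4, hzk, zero_sub, sub_self]
  refine ⟨y, zy, fun g => ?_, fun g => ?_, m3, m4, eq_hf ?_⟩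
  · show ∑ l, N (some l) g 1 • c l = 0
    exact Finset.sum_eq_zero fun l _ => by rw [(H.norm (some l) g).1, zero_smul]
  · show ∑ l, N (some l) 1 g • c l = 0
    exact Finset.sum_eq_zero fun l _ => by rw [(H.norm (some l) g).2, zero_smul]
  · -- reciprocity for z'
    have hr := H.recip (H.b4_z2sub hz zd)
    simp only [H.kk] at hr
    rw [Fintype.sum_option, Finset.sum_eq_zero, add_zero, sub_eq_zero] at hr
    · refine e7_eq hr ?_
      rw [m1, m2, hzk]
      abel
    · intro l _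
      have := m3 l
      have h5 := m4 l
      rw [this, h5, sub_zero]

/-- steps (2) to (4) -/
private theorem e7_two (H : RecH S SD j χ inv κ N e) (hm : 2 * m = 1 - q) (hodd : Odd m)
    (hθ : χ θ = -1) (hφ : χ φ = q) (tk : ∀ W, S.mem W → θ * κ θ ∈ W)
    (fk : ∀ W, S.mem W → (θ * κ φ)⁻¹ * (φ * θ) ∈ W) {a : G → ZMod 2} (ha : a ∈ homs S ⊤)
    (hak : ∀ g, a (κ g) = a g) (haθ : a θ = 1)
    (haa : inv none (fun d b => hf (a (j _ d) * a (j _ b))) = half)
    (haal : ∀ l : Λ, inv (some l) (fun d b => hf (a (j _ d) * a (j _ b))) = 0)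
    (hw : ∀ w : G → A0, Z1 S (tw χ) w → (∀ g, w (κ g) = w g) →
      ∃ (W : G → A0) (m : A0), Z1 S (tw χ) W ∧
        ∀ g, w g = (W g + W (κ g)) + (W g + W (κ g)) + (χ g • m - m))
    (z : G → G → A0) (u : G → A0) (hz : Z2 S (tw χ) z) (h1 : ∀ g, z g 1 = 0)
    (hu : Sm1 S u)
    (h3 : ∀ a b, z (κ a) (κ b) + z a b = -d1 (tw χ) u a b) (h4 : ∀ g, u (κ g) = u g)
    (h5 : u θ = z θ (κ θ)) (h6 : u φ + z φ θ = z θ (κ φ))
    {y : G → G → A0} (zy : Z2 S (tw χ) y) (y1 : ∀ g, y g 1 = 0) (y2 : ∀ g, y 1 g = 0)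
    (m3 : ∀ l : Λ, inv (some l) (fun a b => z (j _ a) (j _ b) -
        (y (j _ a) (j _ b) - y (κ (j _ a)) (κ (j _ b)))) = 0)
    (m4 : ∀ l : Λ, inv (some l) (fun a b => z (κ (j _ a)) (κ (j _ b)) -
        (y (κ (j _ a)) (κ (j _ b)) - y (j _ a) (j _ b))) = 0)
    (m5 : inv none (fun a b => z (j _ a) (j _ b) -
        (y (j _ a) (j _ b) - y (κ (j _ a)) (κ (j _ b)))) = half) : False := by
  classical
  have hact := isAct_tw H.char
  have zA := e7_hf H.char ha
  have zyk := H.b4_kap zy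
  have zd := H.b4_z2sub zy zyk
  have zz' := H.b4_z2sub hz zd
  have zz'' := H.b4_z2sub zz' zA
  have ha1 : a 1 = 0 := by
    have := ha.2.2 1 trivial 1 trivial
    rw [mul_one] at this
    exact left_eq_add.1 this
  -- z'' is a coboundary
  have hB := H.inj _ zz'' (by
    intro w
    have e1 := H.b4_sub zz' zA w
    refine e1.trans ?_
    rcases w with _ | l
    · show inv none (fun a b => z (j _ a) (j _ b) -
        (y (j _ a) (j _ b) - y (κ (j _ a)) (κ (j _ b)))) - _ = 0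
      rw [m5, haa, sub_self]
    · show inv (some l) (fun a b => z (j _ a) (j _ b) -
        (y (j _ a) (j _ b) - y (κ (j _ a)) (κ (j _ b)))) - _ = 0
      rw [m3, haal, sub_zero]) (by
    intro l
    have e1 := H.b4_sub (H.b4_kap zz') (H.b4_kap zA) (some l)
    refine e1.trans ?_
    simp only [H.kk, hak]
    have e2 := m4 l
    rw [e2, haal, sub_zero])
  obtain ⟨x, hx, hxe⟩ := hB
  have hxe' : ∀ a' b', z a' b' - (y a' b' - y (κ a') (κ b')) - hf (a a' * a b') =
      d1 (tw χ) x a' b' := fun a' b' => congrFun (congrFun hxe a') b'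
  have hx1 : x 1 = 0 := by
    have e1 := hxe' 1 1
    rw [h1, map_one, y1, ha1, mul_zero, hf_zero, sub_zero, sub_zero, sub_zero] at e1
    have e2 : d1 (tw χ) x 1 1 = x 1 := by
      show x 1 + χ 1 • x 1 - x (1 * 1) = x 1
      rw [H.char.one, one_smul, mul_one, add_sub_cancel_right]
    rw [← e2, ← e1]
  -- the cocycle w
  have hxk : Sm1 S (fun g => x (κ g)) := Sm1.comp (SD := S) (j := κ) H.ksys hx
  set w : G → A0 := fun g => u g + (x g + x (κ g)) with hwd
  have hwS : Sm1 S w := by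
    obtain ⟨W, hW, e1⟩ := hu
    obtain ⟨W', hW', e2⟩ := hx
    obtain ⟨W'', hW'', e3⟩ := hxk
    refine ⟨W ⊓ (W' ⊓ W''), S.inf hW (S.inf hW' hW''), fun g v hv => ?_⟩
    show u (g * v) + (x (g * v) + x (κ (g * v))) = u g + (x g + x (κ g))
    rw [e1 g v hv.1, e2 g v hv.2.1]
    have e4 : x (κ (g * v)) = x (κ g) := e3 g v hv.2.2
    rw [e4]
  have hwZ : Z1 S (tw χ) w := by
    refine ⟨hwS, fun g h => ?_⟩
    have e1 := hxe' g h
    have e2 := hxe' (κ g) (κ h)
    have e3 := h3 g h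
    rw [H.kk, H.kk, hak, hak] at e2
    have e4 : d1 (tw χ) x (κ g) (κ h) = x (κ g) + χ g • x (κ h) - x (κ (g * h)) := by
      show x (κ g) + χ (κ g) • x (κ h) - x (κ g * κ h) = _
      rw [H.kchi, map_mul]
    have e5 : d1 (tw χ) x g h = x g + χ g • x h - x (g * h) := rfl
    have e6 : d1 (tw χ) u g h = u g + χ g • u h - u (g * h) := rfl
    rw [e4] at e2
    rw [e5] at e1
    rw [e6] at e3
    have e7 := hf_two (a g * a h)
    show u (g * h) + (x (g * h) + x (κ (g * h))) =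
      u g + (x g + x (κ g)) + χ g • (u h + (x h + x (κ h)))
    rw [smul_add, smul_add]
    linear_combination (norm := module) e1 + e2 - e3 + e7
  have hwk : ∀ g, w (κ g) = w g := by
    intro g
    show u (κ g) + (x (κ g) + x (κ (κ g))) = u g + (x g + x (κ g))
    rw [H.kk, h4]
    abel
  obtain ⟨W, m', hW, hWe⟩ := hw w hwZ hwk
  -- the invariant of pairs
  have d1' := dta_d1 (S := S) hm hθ hφ tk fk hx hx1
  have d2' := dta_kap hm H.char H.kk H.ksys H.kchi hθ hφ tk fk zy y1 y2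
  have d3' := dta_hf (θ := θ) (φ := φ) hodd hak haθ
  have d4' := dta_w (m := m) hm H.char H.kk H.kchi hθ hφ fk hW H.ksys m'
  have e1 : Dta κ θ φ m z u = 0 := by
    unfold Dta
    rw [h5, sub_self, smul_zero, ← h6]
    abel
  have e2 : Dta κ θ φ m z u = Dta κ θ φ m (fun g h => (y g h - y (κ g) (κ h)) +
      (hf (a g * a h) + (d1 (tw χ) x g h + 0))) (fun g => 0 + (0 + (-(x g + x (κ g)) +
        ((W g + W (κ g)) + (W g + W (κ g)) + (χ g • m' - m'))))) := by
    congr 1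
    · funext g h
      rw [← hxe' g h]
      abel
    · funext g
      rw [← hWe g]
      show u g = 0 + (0 + (-(x g + x (κ g)) + (u g + (x g + x (κ g)))))
      abel
  rw [dta_add, dta_add, dta_add, d1', d2', d3', d4', e1, zero_add, add_zero, add_zero] at e2
  exact half_ne e2.symm

theorem RecH.alt (H : RecH S SD j χ inv κ N e) (hm : 2 * m = 1 - q) (hodd : Odd m)
    (hθ : χ θ = -1) (hφ : χ φ = q) (tk : ∀ W, S.mem W → θ * κ θ ∈ W)
    (fk : ∀ W, S.mem W → (θ * κ φ)⁻¹ * (φ * θ) ∈ W) {a : G → ZMod 2} (ha : a ∈ homs S ⊤)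
    (hak : ∀ g, a (κ g) = a g) (haθ : a θ = 1)
    (haa : inv none (fun d b => hf (a (j _ d) * a (j _ b))) = half)
    (haal : ∀ l : Λ, inv (some l) (fun d b => hf (a (j _ d) * a (j _ b))) = 0)
    (hw : ∀ w : G → A0, Z1 S (tw χ) w → (∀ g, w (κ g) = w g) →
      ∃ (W : G → A0) (m : A0), Z1 S (tw χ) W ∧
        ∀ g, w g = (W g + W (κ g)) + (W g + W (κ g)) + (χ g • m - m))
    (z : G → G → A0) (u : G → A0) (hz : Z2 S (tw χ) z) (h1 : ∀ g, z g 1 = 0)
    (h2 : ∀ g, z 1 g = 0) (hu : Sm1 S u)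
    (h3 : ∀ a b, z (κ a) (κ b) + z a b = -d1 (tw χ) u a b) (h4 : ∀ g, u (κ g) = u g)
    (h5 : u θ = z θ (κ θ)) (h6 : u φ + z φ θ = z θ (κ φ)) :
    ∑ w, inv w (fun a b => z (j w a) (j w b)) = 0 := by
  classical
  obtain ⟨y, zy, y1, y2, m3, m4, ε, m5⟩ := e7_one H hz h1 h2 hu h3
  have m6 : inv none (fun a b => z (j _ a) (j _ b) -
        (y (j _ a) (j _ b) - y (κ (j _ a)) (κ (j _ b)))) = 0 := by
    rcases e7_zmod ε with rfl | rfl
    · rw [m5, hf_zero]
    · rw [hf_one] at m5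
      exact (e7_two H hm hodd hθ hφ tk fk ha hak haθ haa haal hw z u hz h1 hu h3 h4 h5 h6 zy y1
        y2 m3 m4 m5).elim
  have zyk := H.b4_kap zy
  have zd := H.b4_z2sub zy zyk
  have m1 : ∀ w, inv w (fun a b => z (j w a) (j w b)) = inv w (fun a b => z (j w a) (j w b) -
      (y (j w a) (j w b) - y (κ (j w a)) (κ (j w b)))) +
      (inv w (fun a b => y (j w a) (j w b)) - inv w (fun a b => y (κ (j w a)) (κ (j w b)))) := by
    intro w
    rw [← H.b4_sub zy zyk w]
    have := H.b4_sub hz zd w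
    rw [this, sub_add_cancel]
  rw [Finset.sum_congr rfl fun w _ => m1 w, Finset.sum_add_distrib, H.recip zy, add_zero,
    Fintype.sum_option, m6, zero_add]
  exact Finset.sum_eq_zero fun l _ => m3 l

end Pool.Agent.Work.MP_787500_nt.GP
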