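import Mathlib
import Pool.Agent.Work.MP_787500_nt.GP.S0_KumT
import Pool.Agent.Work.MP_787500_nt.GP.S5_Sha
import Pool.Agent.Work.MP_787500_nt.PA.CountsK
import Pool.Agent.Work.MP_787500_nt.PA.KapK

/-!
# Module S6_COUNTT (size M-L): homomorphisms of the whole group

* `inj_T`: `ω` vanishes on the inertia groups at all primes not containing 2: for those not containing an element
  of `T` this is smoothness (they are in `coreT K T`), for the others use `above_l` (`ω (g⁻¹ x g) = ω x`) and the hypotheses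
  on `P l` (`P l` is one chosen prime above `l`) for `ω` and `ω ∘ κ`. So `ω ∈ homs (goodSys K) ⊤` (`homs_of_T`). It
  vanishes on `decomp ι` and on a `Good` subgroup `W`; `AbsGal K = decomp ι · W` (`PA.decomp_mul_good`), so `ω = 0`.
* `count_T`: the map `homs (sysT K T) ⊤ → (T × Bool → ZMod 2)`, `ω ↦ (ω (τ l), ω (κ (τ l)))`, where `τ l ∈ (P l).inertia` is
  an element as in `exists_tau` with value 1, has kernel `homs (goodSys K) ⊤`: on `(P l).inertia` every smooth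
  homomorphism is a multiple of `a l mod 2` (`inertia_uniq` and `exists_act2T`, or `tame_gen`), so `ω` vanishes on
  `(P l).inertia` iff `ω (τ l) = 0`. The kernel has dimension 3 (`countsK` for `U = ⊤`). Surjective: let `p` be the
  place of `K` below `P l`, `α ∈ K` with `OddAt p α` (`exists_oddAt` for `F = K`), `t ^ 2 = α`: `act2 ⊤ t` is in
  `homs (sysT K T) ⊤` (`act2_memT`, `InMT.sqrt`, `unitAt_val`); it is not zero at `τ l` (`ram_iff` with `U = ⊤`), and it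
  vanishes on the inertia groups at all other primes, in particular at `κ (τ l)` (which is in the inertia
  group of `c (P l)`) and at the `P l'`, `l' ≠ l`. Conjugate by `κ` for the other coordinate.
-/

set_option autoImplicit false
set_option linter.unusedSectionVars false

namespace Pool.Agent.Work.MP_787500_nt.GP

open IsDedekindDomain NumberField
open Pool.Agent.Work.MP_787500_nt.PA (TwoSys Sm1 Sm2 homs Coc Cob IsChar goodSys core cyc Opn SU)
open Pool.Agent.Work.MP_787500_nt.Gn (GoodG)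

universe u

variable {K : Type u} [Field K] [NumberField K]

/-- the place below a prime -/
private noncomputable def S6_CountT_pl (W : Subgroup (AbsGal K)) [NumberField (Fx W)]
    (Q : Ideal (𝓞 (AlgebraicClosure K))) (hQ : Q.IsPrime) (hb : Q ≠ ⊥) :
    HeightOneSpectrum (𝓞 (Fx W)) :=
  ⟨Q.comap (algebraMap (𝓞 (Fx W)) (𝓞 (AlgebraicClosure K))), Ideal.comap_isPrime _ _,
    fun h => hb (Ideal.eq_bot_of_comap_eq_bot h)⟩

private theorem S6_CountT_above {W : Subgroup (AbsGal K)} [NumberField (Fx W)]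
    (v : HeightOneSpectrum (𝓞 (Fx W))) : ∃ P : Ideal (𝓞 (AlgebraicClosure K)), P.IsPrime ∧
      P ≠ ⊥ ∧ P.comap (algebraMap (𝓞 (Fx W)) (𝓞 (AlgebraicClosure K))) = v.asIdeal := by
  have : v.asIdeal.IsMaximal := v.isMaximal
  obtain ⟨P, hP, hPv⟩ := Ideal.exists_maximal_ideal_liesOver_of_isIntegral
    (S := 𝓞 (AlgebraicClosure K)) v.asIdeal
  refine ⟨P, hP.isPrime, ?_, hPv.over.symm⟩
  rintro rfl
  have h1 := hPv.over
  rw [Ideal.under_bot] at h1
  exact v.ne_bot h1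

private theorem S6_CountT_unitAt {F : IntermediateField K (AlgebraicClosure K)} [NumberField F]
    {Q : Ideal (𝓞 (AlgebraicClosure K))} {v : HeightOneSpectrum (𝓞 F)}
    (hv : Q.comap (algebraMap (𝓞 F) (𝓞 (AlgebraicClosure K))) = v.asIdeal) {w : F}
    (hw : v.valuation F w = 1) : UnitAt Q (w : AlgebraicClosure K) := by
  obtain ⟨n, d, hnd⟩ := v.exists_primeCompl_mul_eq_of_integer w hw.le
  have hd : (d : 𝓞 F) ∉ v.asIdeal := d.2
  have hvd : v.valuation F (algebraMap (𝓞 F) F d) = 1 :=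
    (HeightOneSpectrum.valuation_eq_one_iff_notMem (K := F) v).2 hd
  have hvn : v.valuation F (algebraMap (𝓞 F) F n) = 1 := by
    rw [← hnd, map_mul, hw, hvd, one_mul]
  have hn : n ∉ v.asIdeal := (HeightOneSpectrum.valuation_eq_one_iff_notMem (K := F) v).1 hvn
  refine ⟨algebraMap (𝓞 F) (𝓞 (AlgebraicClosure K)) n,
    algebraMap (𝓞 F) (𝓞 (AlgebraicClosure K)) d, ?_, ?_, ?_⟩
  · exact fun h => hn (hv.le h)
  · exact fun h => hd (hv.le h)
  · exact congrArg (fun z : F => (z : AlgebraicClosure K)) hnd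

private theorem S6_CountT_unitAt_bot {F : IntermediateField K (AlgebraicClosure K)} [NumberField F]
    {w : F} (hw : w ≠ 0) : UnitAt (⊥ : Ideal (𝓞 (AlgebraicClosure K))) (w : AlgebraicClosure K) := by
  obtain ⟨n, d, hd, hnd⟩ := IsFractionRing.div_surjective (A := 𝓞 F) w
  have hd0 : d ≠ 0 := nonZeroDivisors.ne_zero hd
  have hdF : algebraMap (𝓞 F) F d ≠ 0 := fun h => hd0 (RingOfIntegers.coe_eq_zero_iff.1 h)
  have hn0 : n ≠ 0 := by
    rintro rfl
    rw [map_zero, zero_div] at hnd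
    exact hw hnd.symm
  have hinj : Function.Injective (algebraMap (𝓞 F) (𝓞 (AlgebraicClosure K))) :=
    FaithfulSMul.algebraMap_injective _ _
  refine ⟨algebraMap (𝓞 F) (𝓞 (AlgebraicClosure K)) n,
    algebraMap (𝓞 F) (𝓞 (AlgebraicClosure K)) d, ?_, ?_, ?_⟩
  · rw [Ideal.mem_bot]
    exact fun h => hn0 (hinj (by rw [h, map_zero]))
  · rw [Ideal.mem_bot]
    exact fun h => hd0 (hinj (by rw [h, map_zero]))
  · have h1 : w * algebraMap (𝓞 F) F d = algebraMap (𝓞 F) F n := by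
      rw [← hnd, div_mul_cancel₀ _ hdF]
    exact congrArg (fun z : F => (z : AlgebraicClosure K)) h1

private theorem S6_CountT_act {U : Subgroup (AbsGal K)} {t : AlgebraicClosure K} {n : AbsGal K}
    (hn : n ∈ U) : (PA.act2 U t n = 0 ↔ n t = t) ∧ (PA.act2 U t n = 1 ↔ n t ≠ t) := by
  classical
  unfold PA.act2
  by_cases h : n t = t
  · rw [if_neg (fun h' => h'.2 h)]
    exact ⟨⟨fun _ => h, fun _ => rfl⟩, ⟨fun h' => absurd h' zero_ne_one, fun h' => absurd h h'⟩⟩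
  · rw [if_pos ⟨hn, h⟩]
    exact ⟨⟨fun h' => absurd h' one_ne_zero, fun h' => absurd h' h⟩, ⟨fun _ => h, fun _ => rfl⟩⟩

private theorem S6_CountT_int {R : Type*} [CommRing R] {l : ℕ} (hl : l.Prime) {P : Ideal R}
    (hP : P.IsPrime) (hlP : (l : R) ∈ P) {m : ℤ} (hm : (m : R) ∈ P) : (l : ℤ) ∣ m := by
  by_contra hnd
  have hp : Prime (l : ℤ) := Nat.prime_iff_prime_int.1 hl
  obtain ⟨a, b, hab⟩ := (hp.coprime_iff_not_dvd).2 hnd
  apply hP.ne_top
  rw [Ideal.eq_top_iff_one]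
  have h1 : (1 : R) = (a : R) * l + b * m := by
    have := congrArg (Int.cast : ℤ → R) hab
    push_cast at this
    exact this.symm
  rw [h1]
  exact P.add_mem (P.mul_mem_left _ hlP) (P.mul_mem_left _ hm)

private theorem S6_CountT_two {q l : ℕ} (hl : SplitPr q l) {P : Ideal (𝓞 (AlgebraicClosure K))}
    (hP : P.IsPrime) (hlP : (l : 𝓞 (AlgebraicClosure K)) ∈ P) :
    (2 : 𝓞 (AlgebraicClosure K)) ∉ P := by
  intro h
  have h1 : (l : ℤ) ∣ 2 := S6_CountT_int hl.1 hP hlP (by exact_mod_cast h)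
  have h2 : l ∣ 2 := by exact_mod_cast h1
  exact hl.2.1 ((Nat.prime_dvd_prime_iff_eq hl.1 Nat.prime_two).1 h2)

private theorem S6_CountT_ne {l : ℕ} (hl : l ≠ 0) {P : Ideal (𝓞 (AlgebraicClosure K))}
    (hlP : (l : 𝓞 (AlgebraicClosure K)) ∈ P) : P ≠ ⊥ := by
  rintro rfl
  rw [Ideal.mem_bot] at hlP
  exact hl (by exact_mod_cast hlP)

/-- the conjugate of a prime under `c` -/
private noncomputable def S6_CountT_cq (c : AlgebraicClosure K ≃+* AlgebraicClosure K)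
    (Q : Ideal (𝓞 (AlgebraicClosure K))) : Ideal (𝓞 (AlgebraicClosure K)) :=
  Q.comap ((RingOfIntegers.mapRingEquiv c :
    𝓞 (AlgebraicClosure K) ≃+* 𝓞 (AlgebraicClosure K)) :
      𝓞 (AlgebraicClosure K) →+* 𝓞 (AlgebraicClosure K))

private theorem S6_CountT_cq_nat (c : AlgebraicClosure K ≃+* AlgebraicClosure K)
    (Q : Ideal (𝓞 (AlgebraicClosure K))) (m : ℕ) :
    (m : 𝓞 (AlgebraicClosure K)) ∈ S6_CountT_cq c Q ↔ (m : 𝓞 (AlgebraicClosure K)) ∈ Q := by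
  unfold S6_CountT_cq
  rw [Ideal.mem_comap, map_natCast]

private theorem S6_CountT_cq_prime (c : AlgebraicClosure K ≃+* AlgebraicClosure K)
    {Q : Ideal (𝓞 (AlgebraicClosure K))} (hQ : Q.IsPrime) : (S6_CountT_cq c Q).IsPrime :=
  Ideal.comap_isPrime _ _

private theorem S6_CountT_cq_inertia {c : AlgebraicClosure K ≃+* AlgebraicClosure K}
    (h2 : ∀ x, c (c x) = x) {κ : AbsGal K → AbsGal K}
    (hκ : ∀ (σ : AbsGal K) (x : AlgebraicClosure K), κ σ x = c (σ (c x)))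
    {Q : Ideal (𝓞 (AlgebraicClosure K))} {g : AbsGal K} (hg : g ∈ Q.inertia (AbsGal K)) :
    κ g ∈ (S6_CountT_cq c Q).inertia (AbsGal K) := by
  let C : 𝓞 (AlgebraicClosure K) ≃+* 𝓞 (AlgebraicClosure K) :=
    RingOfIntegers.mapRingEquiv c
  have hC : ∀ x : 𝓞 (AlgebraicClosure K), ((C x : 𝓞 (AlgebraicClosure K)) :
      AlgebraicClosure K) = c x := fun x => rfl
  intro x
  show (C : 𝓞 (AlgebraicClosure K) →+* 𝓞 (AlgebraicClosure K)) (κ g • x - x) ∈ Q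
  have h3 : (C : 𝓞 (AlgebraicClosure K) →+* 𝓞 (AlgebraicClosure K)) (κ g • x - x) =
      g • C x - C x := by
    rw [map_sub]
    congr 1
    apply RingOfIntegers.ext
    show c (κ g (x : AlgebraicClosure K)) = g (c (x : AlgebraicClosure K))
    rw [hκ, h2]
  rw [h3]
  exact hg (C x)

private theorem S6_CountT_conj {q : ℕ} {s : K} (hK : IsBase K q s) {l : ℕ} (hl : SplitPr q l)
    {c : AlgebraicClosure K ≃+* AlgebraicClosure K} (hc : PA.IsConj s c)
    {P : Ideal (𝓞 (AlgebraicClosure K))} (hP : P.IsPrime)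
    (hlP : (l : 𝓞 (AlgebraicClosure K)) ∈ P)
    (h : (S6_CountT_cq c P).comap (algebraMap (𝓞 (Fx (⊤ : Subgroup (AbsGal K))))
        (𝓞 (AlgebraicClosure K))) =
      P.comap (algebraMap (𝓞 (Fx (⊤ : Subgroup (AbsGal K)))) (𝓞 (AlgebraicClosure K)))) :
    False := by
  obtain ⟨hK1, hK2, hK3, hK4⟩ := hK
  obtain ⟨hl1, hl2, hl3, A, hA⟩ := hl
  have hs2 : (algebraMap K (AlgebraicClosure K) s) ^ 2 = -(q : AlgebraicClosure K) := by
    rw [← map_pow, hK2, map_neg, map_natCast]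
  have hsF : algebraMap K (AlgebraicClosure K) s ∈ Fx (⊤ : Subgroup (AbsGal K)) :=
    mem_Fx.2 (fun g _ => g.commutes s)
  have hint : IsIntegral ℤ (⟨algebraMap K (AlgebraicClosure K) s, hsF⟩ :
      Fx (⊤ : Subgroup (AbsGal K))) := by
    apply IsIntegral.of_pow (n := 2) (by norm_num)
    have h1 : (⟨algebraMap K (AlgebraicClosure K) s, hsF⟩ :
        Fx (⊤ : Subgroup (AbsGal K))) ^ 2 = -(q : Fx (⊤ : Subgroup (AbsGal K))) :=
      Subtype.ext hs2
    rw [h1]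
    exact (isIntegral_natCast q).neg
  let z : 𝓞 (Fx (⊤ : Subgroup (AbsGal K))) := ⟨_, hint⟩
  let C : 𝓞 (AlgebraicClosure K) →+* 𝓞 (AlgebraicClosure K) :=
    ((RingOfIntegers.mapRingEquiv c : 𝓞 (AlgebraicClosure K) ≃+* 𝓞 (AlgebraicClosure K)) :
      𝓞 (AlgebraicClosure K) →+* 𝓞 (AlgebraicClosure K))
  obtain ⟨Z, hZ⟩ : ∃ Z, Z = algebraMap (𝓞 (Fx (⊤ : Subgroup (AbsGal K))))
    (𝓞 (AlgebraicClosure K)) z := ⟨_, rfl⟩
  have hZc : algebraMap (𝓞 (AlgebraicClosure K)) (AlgebraicClosure K) Z =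
      algebraMap K (AlgebraicClosure K) s := by rw [hZ]; rfl
  have hZ2 : Z ^ 2 = -(q : 𝓞 (AlgebraicClosure K)) := by
    apply RingOfIntegers.ext
    show algebraMap (𝓞 (AlgebraicClosure K)) (AlgebraicClosure K) (Z ^ 2) =
      algebraMap (𝓞 (AlgebraicClosure K)) (AlgebraicClosure K) (-(q : 𝓞 (AlgebraicClosure K)))
    rw [map_pow, hZc, hs2, map_neg, map_natCast]
  have hCZ : C Z = -Z := by
    apply RingOfIntegers.ext
    show c (algebraMap (𝓞 (AlgebraicClosure K)) (AlgebraicClosure K) Z) =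
      algebraMap (𝓞 (AlgebraicClosure K)) (AlgebraicClosure K) (-Z)
    rw [map_neg, hZc]
    exact hc.neg
  have hint' : ∀ B : ℤ, algebraMap (𝓞 (Fx (⊤ : Subgroup (AbsGal K))))
      (𝓞 (AlgebraicClosure K)) (z - B) = Z - B := by
    intro B
    rw [map_sub, hZ, map_intCast]
  have hkey : ∀ B : ℤ, Z - B ∈ P → C (Z - B) ∈ P := by
    intro B hB
    have h1 := SetLike.ext_iff.1 h (z - B)
    rw [Ideal.mem_comap, Ideal.mem_comap, hint'] at h1
    exact h1.2 hB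
  obtain ⟨B, hB, hZB⟩ : ∃ B : ℤ, (l : ℤ) ∣ B ^ 2 + q ∧ Z - B ∈ P := by
    have h1 : (Z - A) * (Z + A) ∈ P := by
      obtain ⟨k, hk⟩ := hA
      have h2 : (Z - A) * (Z + A) = (l : 𝓞 (AlgebraicClosure K)) * (-k) := by
        have h3 := congrArg (Int.cast : ℤ → 𝓞 (AlgebraicClosure K)) hk
        push_cast at h3
        linear_combination hZ2 - h3
      rw [h2]
      exact P.mul_mem_right _ hlP
    rcases hP.mem_or_mem h1 with h2 | h2
    · exact ⟨A, hA, h2⟩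
    · refine ⟨-A, by rwa [neg_sq], ?_⟩
      rw [Int.cast_neg, sub_neg_eq_add]
      exact h2
  have h3 := hkey B hZB
  rw [map_sub, hCZ, map_intCast] at h3
  have h4 : ((-(2 * B) : ℤ) : 𝓞 (AlgebraicClosure K)) ∈ P := by
    have h5 := P.add_mem hZB h3
    have h6 : Z - B + (-Z - B) = ((-(2 * B) : ℤ) : 𝓞 (AlgebraicClosure K)) := by
      push_cast
      ring
    rwa [h6] at h5
  have h5 : (l : ℤ) ∣ 2 * B := (dvd_neg).1 (S6_CountT_int hl1 hP hlP h4)
  have hp : Prime (l : ℤ) := Nat.prime_iff_prime_int.1 hl1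
  have h6 : (l : ℤ) ∣ B := by
    rcases hp.dvd_or_dvd h5 with h7 | h7
    · exfalso
      have h8 : l ∣ 2 := by exact_mod_cast h7
      exact hl2 ((Nat.prime_dvd_prime_iff_eq hl1 Nat.prime_two).1 h8)
    · exact h7
  have h7 : (l : ℤ) ∣ q := by
    have h8 : (l : ℤ) ∣ B ^ 2 := dvd_pow h6 two_ne_zero
    exact (dvd_add_right h8).1 hB
  have h8 : l ∣ q := by exact_mod_cast h7
  exact hl3 ((Nat.prime_dvd_prime_iff_eq hl1 hK3).1 h8)

private theorem S6_CountT_h1 {T : Finset ℕ} {ω : AbsGal K → ZMod 2}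
    (hω : ω ∈ homs (sysT K T) ⊤) : ω 1 = 0 := by
  have := hω.2.2 1 trivial 1 trivial
  rw [mul_one] at this
  simpa using this

private theorem S6_CountT_hc {T : Finset ℕ} {ω : AbsGal K → ZMod 2}
    (hω : ω ∈ homs (sysT K T) ⊤) (g n : AbsGal K) : ω (g⁻¹ * n * g) = ω n := by
  have h1 : ω (g⁻¹ * g) = ω g⁻¹ + ω g := hω.2.2 _ trivial _ trivial
  rw [inv_mul_cancel, S6_CountT_h1 hω] at h1
  rw [hω.2.2 _ trivial _ trivial, hω.2.2 _ trivial _ trivial]
  linear_combination -h1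

private theorem S6_CountT_opn (T : Finset ℕ) : Opn (sysT K T) ⊤ :=
  ⟨⊤, Good.goodT PA.Good.top T, le_rfl⟩

private theorem S6_CountT_kap {T : Finset ℕ}
    {c : AlgebraicClosure K ≃+* AlgebraicClosure K} (h2 : ∀ x, c (c x) = x)
    {κ : AbsGal K → AbsGal K}
    (hκ : ∀ (σ : AbsGal K) (x : AlgebraicClosure K), κ σ x = c (σ (c x)))
    {ω : AbsGal K → ZMod 2} (hω : ω ∈ homs (sysT K T) ⊤) :
    (fun g => ω (κ g)) ∈ homs (sysT K T) ⊤ := by
  have hi := PA.isInvol h2 hκ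
  obtain ⟨⟨W, hW, h3⟩, -, h5⟩ := hω
  have hW' : GoodT K T W := hW
  have hn := hW'.normal
  refine ⟨⟨W.comap (MonoidHom.mk' κ hi.mul), ?_, ?_⟩, fun g hg => absurd trivial hg, ?_⟩
  · refine (⟨inferInstance, hW'.isOpen.preimage (PA.kappa_continuous h2 hκ), le_top, ?_, ?_⟩ :
      GoodT K T (W.comap (MonoidHom.mk' κ hi.mul)))
    · intro g _
      obtain ⟨k, hk⟩ := hW'.pow (κ g) trivial
      refine ⟨k, ?_⟩
      rw [Subgroup.mem_comap, map_pow]
      exact hk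
    · rintro g ⟨Q, hQ, hQ2, hQl, hg⟩
      apply hW'.inertia
      refine ⟨S6_CountT_cq c Q, S6_CountT_cq_prime c hQ, ?_, ?_, S6_CountT_cq_inertia h2 hκ hg⟩
      · have := S6_CountT_cq_nat c Q 2
        rw [Nat.cast_ofNat] at this
        rwa [this]
      · intro l hl
        rw [S6_CountT_cq_nat]
        exact hQl l hl
  · intro g w hw
    show ω (κ (g * w)) = ω (κ g)
    rw [hi.mul]
    exact h3 _ _ hw
  · intro g _ h _
    show ω (κ (g * h)) = ω (κ g) + ω (κ h)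
    rw [hi.mul]
    exact h5 _ trivial _ trivial

private theorem S6_CountT_r1 {r : ℕ → AlgebraicClosure K} {a : AbsGal K → ℤ_[2]}
    (hr : IsKum r a) : r 1 ≠ 0 ∧ ∀ g : AbsGal K, g (r 1) = r 1 ∨ g (r 1) = -r 1 := by
  have h0 := hr.sq 0
  rw [zero_add] at h0
  constructor
  · intro h
    rw [h, zero_pow two_ne_zero] at h0
    exact hr.ne h0.symm
  · intro g
    apply sq_eq_sq_iff_eq_or_eq_neg.1
    rw [← map_pow, h0, hr.act g 0, zp_eq_one.2 (by rw [pow_zero]; exact one_dvd _), one_mul]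

private theorem S6_CountT_odd {r : ℕ → AlgebraicClosure K} {a : AbsGal K → ℤ_[2]}
    (hr : IsKum r a) {τ : AbsGal K} (haτ : a τ = 1) : τ (r 1) ≠ r 1 := by
  intro h
  have h1 := (hr.even τ).2 h
  rw [haτ] at h1
  have h2 : IsUnit (2 : ℤ_[2]) := isUnit_of_dvd_one h1
  have h3 : Prime (2 : ℤ_[2]) := by
    have := PadicInt.prime_p (p := 2)
    exact_mod_cast this
  exact h3.not_unit h2

private theorem S6_CountT_van {T : Finset ℕ} {ω : AbsGal K → ZMod 2}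
    (hω : ω ∈ homs (sysT K T) ⊤) {Q : Ideal (𝓞 (AlgebraicClosure K))} (hQ : Q.IsPrime)
    (hQ2 : (2 : 𝓞 (AlgebraicClosure K)) ∉ Q) {r : ℕ → AlgebraicClosure K} {a : AbsGal K → ℤ_[2]}
    (hr : IsKum r a) {τ : AbsGal K} (hτ : τ ∈ Q.inertia (AbsGal K)) (haτ : a τ = 1)
    (h0 : ω τ = 0) : ∀ n ∈ Q.inertia (AbsGal K), ω n = 0 := by
  obtain ⟨t, ht0, -, htfix, rfl⟩ := exists_act2T (S6_CountT_opn T) hω
  have hsgn : ∀ g : AbsGal K, g t = t ∨ g t = -t := by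
    intro g
    apply sq_eq_sq_iff_eq_or_eq_neg.1
    rw [← map_pow, htfix g trivial]
  by_contra hcon
  push Not at hcon
  obtain ⟨n, hn, hn0⟩ := hcon
  have hnt : n t ≠ t := fun h => hn0 ((S6_CountT_act (U := ⊤) trivial).1.2 h)
  have hτt : τ t = t := (S6_CountT_act (U := ⊤) trivial).1.1 h0
  obtain ⟨hr0, hrs⟩ := S6_CountT_r1 hr
  have h1 := inertia_uniq hQ hQ2 ht0 hr0 (fun n _ => hsgn n) (fun n _ => hrs n) ⟨n, hn, hnt⟩
    ⟨τ, hτ, S6_CountT_odd hr haτ⟩ hτ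
  exact S6_CountT_odd hr haτ (h1.1 hτt)

private theorem S6_CountT_all {q : ℕ} {s : K} (hK : IsBase K q s) {T : Finset ℕ}
    (hT : ∀ l ∈ T, SplitPr q l) {c : AlgebraicClosure K ≃+* AlgebraicClosure K}
    (hc : PA.IsConj s c) {κ : AbsGal K → AbsGal K}
    (hκ : ∀ (σ : AbsGal K) (x : AlgebraicClosure K), κ σ x = c (σ (c x)))
    {P : ℕ → Ideal (𝓞 (AlgebraicClosure K))}
    (hP : ∀ l ∈ T, (P l).IsPrime ∧ (l : 𝓞 (AlgebraicClosure K)) ∈ P l)
    {ω : AbsGal K → ZMod 2} (hω : ω ∈ homs (sysT K T) ⊤)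
    (h2 : ∀ l ∈ T, ∀ n ∈ (P l).inertia (AbsGal K), ω n = 0 ∧ ω (κ n) = 0)
    (Q : Ideal (𝓞 (AlgebraicClosure K))) (hQ : Q.IsPrime)
    (hQ2 : (2 : 𝓞 (AlgebraicClosure K)) ∉ Q) (n : AbsGal K) (hn : n ∈ Q.inertia (AbsGal K)) :
    ω n = 0 := by
  have hi := PA.isInvol hc.sq hκ
  by_cases hQT : ∃ l ∈ T, (l : 𝓞 (AlgebraicClosure K)) ∈ Q
  · obtain ⟨l, hl, hlQ⟩ := hQT
    obtain ⟨g, h⟩ := above_l hK (hT l hl) hc hκ (hP l hl).1 (hP l hl).2 hQ hlQ
    rcases h with ⟨-, h⟩ | ⟨-, h⟩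
    · rw [← S6_CountT_hc hω g n]
      exact (h2 l hl _ ((h n).1 hn)).1
    · rw [← S6_CountT_hc hω g n, ← hi.inv (g⁻¹ * n * g)]
      exact (h2 l hl _ ((h n).1 hn)).2
  · push Not at hQT
    obtain ⟨W, hW, h3⟩ := hω.1
    have hW' : GoodT K T W := hW
    have h4 := h3 1 n (hW'.inertia n ⟨Q, hQ, hQ2, hQT, hn⟩)
    rw [one_mul, S6_CountT_h1 hω] at h4
    exact h4

private theorem S6_CountT_ex {q : ℕ} {s : K} (hK : IsBase K q s) {T : Finset ℕ}
    (hT : ∀ l ∈ T, SplitPr q l) {c : AlgebraicClosure K ≃+* AlgebraicClosure K}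
    (hc : PA.IsConj s c) {κ : AbsGal K → AbsGal K}
    (hκ : ∀ (σ : AbsGal K) (x : AlgebraicClosure K), κ σ x = c (σ (c x)))
    {P : ℕ → Ideal (𝓞 (AlgebraicClosure K))}
    (hP : ∀ l ∈ T, (P l).IsPrime ∧ (l : 𝓞 (AlgebraicClosure K)) ∈ P l) {l : ℕ} (hl : l ∈ T)
    {r : ℕ → AlgebraicClosure K} {a : AbsGal K → ℤ_[2]} (hr : IsKum r a) {τ : AbsGal K}
    (hτ : τ ∈ (P l).inertia (AbsGal K)) (haτ : a τ = 1) :
    ∃ ω ∈ homs (sysT K T) ⊤, ω τ = 1 ∧
      (∀ l' ∈ T, l' ≠ l → ∀ n ∈ (P l').inertia (AbsGal K), ω n = 0) ∧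
      ∀ l' ∈ T, ∀ n ∈ (P l').inertia (AbsGal K), ω (κ n) = 0 := by
  classical
  obtain ⟨-, -, hfix', hN', htow'⟩ := PA.fixedF (K := K) (U := ⊤) ⟨⊤, PA.Good.top, le_rfl⟩
  have hfix : (Fx (⊤ : Subgroup (AbsGal K))).fixingSubgroup = ⊤ := hfix'
  have hN : NumberField (Fx (⊤ : Subgroup (AbsGal K))) := hN'
  have htow : InTwoTower K (Fx (⊤ : Subgroup (AbsGal K))) := htow'
  have hb : ∀ l ∈ T, P l ≠ ⊥ := fun l hl => S6_CountT_ne (hT l hl).1.ne_zero (hP l hl).2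
  have h2P : ∀ l ∈ T, (2 : 𝓞 (AlgebraicClosure K)) ∉ P l :=
    fun l hl => S6_CountT_two (hT l hl) (hP l hl).1 (hP l hl).2
  have htwo : ∀ (Q : Ideal (𝓞 (AlgebraicClosure K))) (hQ : Q.IsPrime) (hQb : Q ≠ ⊥),
      (2 : 𝓞 (Fx (⊤ : Subgroup (AbsGal K)))) ∈ (S6_CountT_pl ⊤ Q hQ hQb).asIdeal ↔
        (2 : 𝓞 (AlgebraicClosure K)) ∈ Q := by
    intro Q hQ hQb
    show (2 : 𝓞 (Fx (⊤ : Subgroup (AbsGal K)))) ∈ Q.comap _ ↔ _
    rw [Ideal.mem_comap, map_ofNat]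
  have hnat : ∀ (Q : Ideal (𝓞 (AlgebraicClosure K))) (hQ : Q.IsPrime) (hQb : Q ≠ ⊥) (m : ℕ),
      (m : 𝓞 (Fx (⊤ : Subgroup (AbsGal K)))) ∈ (S6_CountT_pl ⊤ Q hQ hQb).asIdeal ↔
        (m : 𝓞 (AlgebraicClosure K)) ∈ Q := by
    intro Q hQ hQb m
    show (m : 𝓞 (Fx (⊤ : Subgroup (AbsGal K)))) ∈ Q.comap _ ↔ _
    rw [Ideal.mem_comap, map_natCast]
  obtain ⟨y, hy0, hysq, hyv⟩ := exists_oddAt hK htow
    (v := S6_CountT_pl ⊤ (P l) (hP l hl).1 (hb l hl))
    (fun h => h2P l hl ((htwo _ _ _).1 h))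
  obtain ⟨t, ht⟩ := IsAlgClosed.exists_pow_nat_eq (y : AlgebraicClosure K) (n := 2) (by norm_num)
  have hyc : (y : AlgebraicClosure K) ≠ 0 := fun h => hy0 (Subtype.ext h)
  have ht0 : t ≠ 0 := by
    rintro rfl
    rw [zero_pow two_ne_zero] at ht
    exact hyc ht.symm
  have hyfix : ∀ g : AbsGal K, g (y : AlgebraicClosure K) = y := fun g =>
    mem_Fx.1 y.2 g trivial
  have hyM : InMT T (y : AlgebraicClosure K) :=
    ⟨⊤, Good.goodT PA.Good.top T, fun g _ => hyfix g⟩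
  have hyU : UT T (y : AlgebraicClosure K) := by
    refine ⟨hyc, fun Q hQ hQ2 hQT => ?_⟩
    by_cases hQb : Q = ⊥
    · rw [hQb]
      exact S6_CountT_unitAt_bot hy0
    · refine S6_CountT_unitAt (v := S6_CountT_pl ⊤ Q hQ hQb) rfl (hyv _ ?_ ?_)
      · intro h
        apply hQT l hl
        rw [← hnat Q hQ hQb, h, hnat]
        exact (hP l hl).2
      · exact fun h => hQ2 ((htwo _ _ _).1 h)
  have htM : InMT T t := InMT.sqrt hyM hyU ht
  have htfix : ∀ g ∈ (⊤ : Subgroup (AbsGal K)), g (t ^ 2) = t ^ 2 := by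
    intro g _
    rw [ht, hyfix]
  have htsgn : ∀ g : AbsGal K, g t = t ∨ g t = -t := by
    intro g
    apply sq_eq_sq_iff_eq_or_eq_neg.1
    rw [← map_pow, htfix g trivial]
  have hvan : ∀ (Q : Ideal (𝓞 (AlgebraicClosure K))) (hQ : Q.IsPrime) (hQb : Q ≠ ⊥),
      (2 : 𝓞 (AlgebraicClosure K)) ∉ Q →
      S6_CountT_pl ⊤ Q hQ hQb ≠ S6_CountT_pl ⊤ (P l) (hP l hl).1 (hb l hl) →
      ∀ n ∈ Q.inertia (AbsGal K), PA.act2 ⊤ t n = 0 := by
    intro Q hQ hQb hQ2 hne n hn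
    have h1 := hyv _ hne (fun h => hQ2 ((htwo _ _ _).1 h))
    have h2 := (ram_iff hfix hQ hQ2 (v := S6_CountT_pl ⊤ Q hQ hQb) rfl le_top hy0 ht).2
      (by rw [h1]; exact ⟨1, (one_mul 1).symm⟩)
    exact (S6_CountT_act (U := ⊤) trivial).1.2 (h2 n hn)
  refine ⟨PA.act2 ⊤ t, act2_memT (S6_CountT_opn T) ht0 htM htfix, ?_, ?_, ?_⟩
  · rw [(S6_CountT_act (U := ⊤) trivial).2]
    intro hτt
    apply hysq
    rw [← ram_iff hfix (hP l hl).1 (h2P l hl)
      (v := S6_CountT_pl ⊤ (P l) (hP l hl).1 (hb l hl)) rfl le_top hy0 ht]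
    by_contra hcon
    push Not at hcon
    obtain ⟨hr0, hrs⟩ := S6_CountT_r1 hr
    have h1 := inertia_uniq (hP l hl).1 (h2P l hl) ht0 hr0 (fun n _ => htsgn n)
      (fun n _ => hrs n) hcon ⟨τ, hτ, S6_CountT_odd hr haτ⟩ hτ
    exact S6_CountT_odd hr haτ (h1.1 hτt)
  · intro l' hl' hne
    refine hvan (P l') (hP l' hl').1 (hb l' hl') (h2P l' hl') ?_
    intro h
    have h1 : (l' : 𝓞 (AlgebraicClosure K)) ∈ P l := by
      rw [← hnat (P l) (hP l hl).1 (hb l hl), ← h, hnat]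
      exact (hP l' hl').2
    have h2 : (l : ℤ) ∣ l' := S6_CountT_int (hT l hl).1 (hP l hl).1 (hP l hl).2
      (by rw [Int.cast_natCast]; exact h1)
    have h3 : l ∣ l' := by exact_mod_cast h2
    exact hne ((Nat.prime_dvd_prime_iff_eq (hT l hl).1 (hT l' hl').1).1 h3).symm
  · intro l' hl' n hn
    have hn' := S6_CountT_cq_inertia hc.sq hκ hn
    have hl'Q : (l' : 𝓞 (AlgebraicClosure K)) ∈ S6_CountT_cq c (P l') :=
      (S6_CountT_cq_nat c (P l') l').2 (hP l' hl').2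
    refine hvan (S6_CountT_cq c (P l')) (S6_CountT_cq_prime c (hP l' hl').1)
      (S6_CountT_ne (hT l' hl').1.ne_zero hl'Q)
      (S6_CountT_two (hT l' hl') (S6_CountT_cq_prime c (hP l' hl').1) hl'Q) ?_ _ hn'
    intro h
    by_cases hll : l' = l
    · subst hll
      exact S6_CountT_conj hK (hT l' hl') hc (hP l' hl').1 (hP l' hl').2
        (congrArg HeightOneSpectrum.asIdeal h)
    · have h1 : (l' : 𝓞 (AlgebraicClosure K)) ∈ P l := by
        rw [← hnat (P l) (hP l hl).1 (hb l hl), ← h, hnat]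
        exact hl'Q
      have h2 : (l : ℤ) ∣ l' := S6_CountT_int (hT l hl).1 (hP l hl).1 (hP l hl).2
        (by rw [Int.cast_natCast]; exact h1)
      have h3 : l ∣ l' := by exact_mod_cast h2
      exact hll ((Nat.prime_dvd_prime_iff_eq (hT l hl).1 (hT l' hl').1).1 h3).symm

theorem inj_T {q : ℕ} {s : K} (hK : IsBase K q s) {v : HeightOneSpectrum (𝓞 K)}
    (hv : (2 : 𝓞 K) ∈ v.asIdeal)
    (ι : AlgebraicClosure K →ₐ[K] AlgebraicClosure (v.adicCompletion K)) {T : Finset ℕ}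
    (hT : ∀ l ∈ T, SplitPr q l) {c : AlgebraicClosure K ≃+* AlgebraicClosure K}
    (hc : PA.IsConj s c) {κ : AbsGal K → AbsGal K}
    (hκ : ∀ (σ : AbsGal K) (x : AlgebraicClosure K), κ σ x = c (σ (c x)))
    {P : ℕ → Ideal (𝓞 (AlgebraicClosure K))}
    (hP : ∀ l ∈ T, (P l).IsPrime ∧ (l : 𝓞 (AlgebraicClosure K)) ∈ P l)
    {ω : AbsGal K → ZMod 2} (hω : ω ∈ homs (sysT K T) ⊤) (h1 : ∀ d ∈ decomp ι, ω d = 0)
    (h2 : ∀ l ∈ T, ∀ n ∈ (P l).inertia (AbsGal K), ω n = 0 ∧ ω (κ n) = 0) : ω = 0 := by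
  have h3 : ω ∈ homs (goodSys K) ⊤ :=
    homs_of_T ⟨⊤, PA.Good.top, le_rfl⟩ hω (S6_CountT_all hK hT hc hκ hP hω h2)
  obtain ⟨⟨W, hW, h4⟩, -, h5⟩ := h3
  funext g
  obtain ⟨d, hd, hdg⟩ := PA.decomp_mul_good hK hv ι hW g
  have h6 := h4 d _ hdg
  rw [mul_inv_cancel_left] at h6
  rw [h6, h1 d hd]
  rfl

theorem count_T {q : ℕ} {s : K} (hK : IsBase K q s) {T : Finset ℕ}
    (hT : ∀ l ∈ T, SplitPr q l) {c : AlgebraicClosure K ≃+* AlgebraicClosure K}
    (hc : PA.IsConj s c) {κ : AbsGal K → AbsGal K}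
    (hκ : ∀ (σ : AbsGal K) (x : AlgebraicClosure K), κ σ x = c (σ (c x)))
    {P : ℕ → Ideal (𝓞 (AlgebraicClosure K))}
    (hP : ∀ l ∈ T, (P l).IsPrime ∧ (l : 𝓞 (AlgebraicClosure K)) ∈ P l) :
    FiniteDimensional (ZMod 2) (homs (sysT K T) ⊤) ∧
      Module.finrank (ZMod 2) (homs (sysT K T) ⊤) = 3 + 2 * T.card := by
  classical
  have hi := PA.isInvol hc.sq hκ
  have hτ : ∀ l : T, ∃ (r : ℕ → AlgebraicClosure K) (a : AbsGal K → ℤ_[2]) (τ : AbsGal K),
      IsKum r a ∧ τ ∈ (P l).inertia (AbsGal K) ∧ a τ = 1 := by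
    rintro ⟨l, hl⟩
    obtain ⟨r, hr0, hr⟩ := exists_roots (K := K) (l : AlgebraicClosure K)
    have hl0 : (l : AlgebraicClosure K) ≠ 0 := Nat.cast_ne_zero.2 (hT l hl).1.ne_zero
    obtain ⟨a, ha⟩ := exists_isKum (K := K) (r := r) (by rw [hr0]; exact hl0)
      (fun g => by rw [hr0, map_natCast]) hr
    obtain ⟨τ, h1, -, -, h4⟩ := exists_tau hK (hT l hl) (hP l hl).1 (hP l hl).2 ha hr0 1
    exact ⟨r, a, τ, ha, h1, h4⟩
  choose r a τ hr hτ haτ using hτ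
  have h2P : ∀ l ∈ T, (2 : 𝓞 (AlgebraicClosure K)) ∉ P l :=
    fun l hl => S6_CountT_two (hT l hl) (hP l hl).1 (hP l hl).2
  let el : T × Bool → AbsGal K := fun i => if i.2 then τ i.1 else κ (τ i.1)
  let ev : homs (sysT K T) ⊤ →ₗ[ZMod 2] (T × Bool → ZMod 2) :=
    { toFun := fun ω i => ω.1 (el i)
      map_add' := fun _ _ => rfl
      map_smul' := fun _ _ => rfl }
  have hle : homs (goodSys K) (⊤ : Subgroup (AbsGal K)) ≤ homs (sysT K T) ⊤ :=
    fun ω hω => homs_mono hω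
  have hker : LinearMap.ker ev =
      (homs (goodSys K) (⊤ : Subgroup (AbsGal K))).comap (homs (sysT K T) ⊤).subtype := by
    ext ω
    rw [LinearMap.mem_ker, Submodule.mem_comap]
    constructor
    · intro h
      refine homs_of_T ⟨⊤, PA.Good.top, le_rfl⟩ ω.2 (S6_CountT_all hK hT hc hκ hP ω.2 ?_)
      intro l hl
      have h1 : ω.1 (τ ⟨l, hl⟩) = 0 := congrFun h (⟨l, hl⟩, true)
      have h2 : ω.1 (κ (τ ⟨l, hl⟩)) = 0 := congrFun h (⟨l, hl⟩, false)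
      intro n hn
      exact ⟨S6_CountT_van ω.2 (hP l hl).1 (h2P l hl) (hr ⟨l, hl⟩) (hτ ⟨l, hl⟩) (haτ ⟨l, hl⟩)
          h1 n hn,
        S6_CountT_van (S6_CountT_kap hc.sq hκ ω.2) (hP l hl).1 (h2P l hl) (hr ⟨l, hl⟩)
          (hτ ⟨l, hl⟩) (haτ ⟨l, hl⟩) h2 n hn⟩
    · intro h
      obtain ⟨⟨W, hW, h4⟩, -, h5⟩ := h
      have hW' : PA.Good W := hW
      have hz : ∀ (Q : Ideal (𝓞 (AlgebraicClosure K))), Q.IsPrime →
          (2 : 𝓞 (AlgebraicClosure K)) ∉ Q → ∀ n ∈ Q.inertia (AbsGal K), ω.1 n = 0 := by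
        intro Q hQ hQ2 n hn
        have h6 := h4 1 n (hW'.inertia Q hQ hQ2 hn)
        rw [one_mul] at h6
        exact h6.trans (S6_CountT_h1 ω.2)
      funext i
      obtain ⟨⟨l, hl⟩, b⟩ := i
      cases b
      · have hl'Q : (l : 𝓞 (AlgebraicClosure K)) ∈ S6_CountT_cq c (P l) :=
          (S6_CountT_cq_nat c (P l) l).2 (hP l hl).2
        exact hz _ (S6_CountT_cq_prime c (hP l hl).1)
          (S6_CountT_two (hT l hl) (S6_CountT_cq_prime c (hP l hl).1) hl'Q) _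
          (S6_CountT_cq_inertia hc.sq hκ (hτ ⟨l, hl⟩))
      · exact hz _ (hP l hl).1 (h2P l hl) _ (hτ ⟨l, hl⟩)
  have hsingle : ∀ i : T × Bool, ∃ ω : homs (sysT K T) ⊤, ev ω = Pi.single i 1 := by
    have hmain : ∀ l : T, ∃ ω ∈ homs (sysT K T) ⊤, ω (τ l) = 1 ∧
        (∀ l' : T, l' ≠ l → ω (τ l') = 0) ∧ ∀ l' : T, ω (κ (τ l')) = 0 := by
      rintro ⟨l, hl⟩
      obtain ⟨ω, hω, h1, h2, h3⟩ := S6_CountT_ex hK hT hc hκ hP hl (hr ⟨l, hl⟩) (hτ ⟨l, hl⟩)
        (haτ ⟨l, hl⟩)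
      refine ⟨ω, hω, h1, fun l' hne => ?_, fun l' => h3 l'.1 l'.2 _ (hτ l')⟩
      exact h2 l'.1 l'.2 (fun h => hne (Subtype.ext h)) _ (hτ l')
    rintro ⟨l, b⟩
    obtain ⟨ω, hω, h1, h2, h3⟩ := hmain l
    cases b
    · refine ⟨⟨_, S6_CountT_kap hc.sq hκ hω⟩, ?_⟩
      funext i
      obtain ⟨l', b'⟩ := i
      cases b'
      · show ω (κ (κ (τ l'))) = _
        rw [hi.inv]
        by_cases hll : l' = l
        · subst hll
          rw [Pi.single_eq_same]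
          exact h1
        · rw [Pi.single_eq_of_ne (by simp [hll])]
          exact h2 l' hll
      · show ω (κ (τ l')) = _
        rw [Pi.single_eq_of_ne (by simp)]
        exact h3 l'
    · refine ⟨⟨ω, hω⟩, ?_⟩
      funext i
      obtain ⟨l', b'⟩ := i
      cases b'
      · show ω (κ (τ l')) = _
        rw [Pi.single_eq_of_ne (by simp)]
        exact h3 l'
      · show ω (τ l') = _
        by_cases hll : l' = l
        · subst hll
          rw [Pi.single_eq_same]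
          exact h1
        · rw [Pi.single_eq_of_ne (by simp [hll])]
          exact h2 l' hll
  have hsurj : Function.Surjective ev := by
    choose e he using hsingle
    intro f
    refine ⟨∑ i, f i • e i, ?_⟩
    rw [map_sum]
    funext j
    rw [Finset.sum_apply, Finset.sum_eq_single j]
    · rw [map_smul, he, Pi.smul_apply, Pi.single_eq_same, smul_eq_mul, mul_one]
    · intro i _ hij
      rw [map_smul, he, Pi.smul_apply, Pi.single_eq_of_ne (Ne.symm hij), smul_zero]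
    · intro h
      exact absurd (Finset.mem_univ j) h
  obtain ⟨hfd, hfr⟩ := PA.countsK hK ⊤ ⟨⊤, PA.Good.top, le_rfl⟩
  have e1 : LinearMap.ker ev ≃ₗ[ZMod 2] homs (goodSys K) (⊤ : Subgroup (AbsGal K)) :=
    (LinearEquiv.ofEq _ _ hker).trans (Submodule.comapSubtypeEquivOfLe hle)
  have hkfd : FiniteDimensional (ZMod 2) (LinearMap.ker ev) := LinearEquiv.finiteDimensional e1.symm
  have hqfd : FiniteDimensional (ZMod 2) ((homs (sysT K T) ⊤) ⧸ LinearMap.ker ev) :=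
    LinearEquiv.finiteDimensional (ev.quotKerEquivOfSurjective hsurj).symm
  have hfin : FiniteDimensional (ZMod 2) (homs (sysT K T) ⊤) :=
    Module.Finite.of_submodule_quotient (LinearMap.ker ev)
  refine ⟨hfin, ?_⟩
  have h1 := LinearMap.finrank_range_add_finrank_ker ev
  rw [LinearMap.range_eq_top.2 hsurj, finrank_top, e1.finrank_eq, hfr, Subgroup.index_top,
    Module.finrank_fintype_fun_eq_card, Fintype.card_prod, Fintype.card_bool,
    Fintype.card_coe] at h1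
  omega

end Pool.Agent.Work.MP_787500_nt.GP
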