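import Mathlib
import Pool.Agent.Work.MP_787500_nt.GP.B3_Rec
import Pool.Agent.Work.MP_787500_nt.GP.B5_Glob
import Pool.Agent.Work.MP_787500_nt.GP.E1_Theta
import Pool.Agent.Work.MP_787500_nt.GP.E4_KapT
import Pool.Agent.Work.MP_787500_nt.GP.E5_KapCoc
import Pool.Agent.Work.MP_787500_nt.GP.E6_YZero
import Pool.Agent.Work.MP_787500_nt.GP.E7_Alt
import Pool.Agent.Work.MP_787500_nt.GP.S6_CountT

/-!
# Module A1_PARH (size M): assembly of the hypotheses `ParH`

`exists_recH` gives `inv`, `N`, `e`; `exists_theta_phi` gives `θ`, `φ`. `a g = 0` if `4 ∣ cyc g - 1`, and 1 otherwise.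
* `glob`: `RecH.glob`, `hfin`: `count_T`; `hinj`: `inj_T` (`(P l).inertia ≤ stabD (P l)`); `hsha`: `sha_J`, `cob_sub` (for `κ`: apply
  `cob_sub` to `f ∘ κ`); `hcount`: `count_T` and the dimensions (`3 + ∑ l : T, 2`).
* `loc`, `jsm`, `kk`, `ksys`, `kchi`: fields of `RecH`. `count`: as `hcount`. `tk`, `fk`: `exists_theta_phi`.
* `alt`: `RecH.alt` with `m = (1 - q) / 2`, odd as `q = 7` modulo 16; `a ∈ homs`: `a_mem`, `homs_mono`; `a (κ g) = a g`: `kchi`;
  `a θ = 1`: `cyc θ = -1`, 4 does not divide `-2`; `haa`: `inv_aa`; `haal`: `inv (some l) f = u • iota σ τ l f`, `iota_hf`, and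
  `a τ = 0` (`cyc τ = 1`, `cyc_inertia`), `a (τ ^ i) = 0`, so every term of `iota` of `a ∪ a` is 0; `hw`: `kap_coc` with `kap_T`.
-/

set_option autoImplicit false
set_option linter.unusedSectionVars false

namespace Pool.Agent.Work.MP_787500_nt.GP

open IsDedekindDomain NumberField
open Pool.Agent.Work.MP_787500_nt.PA (TwoSys Sm1 Sm2 homs Coc Cob IsChar goodSys core cyc Opn SU)
open Pool.Agent.Work.MP_787500_nt.Gn (GoodG)

universe u

variable {K : Type u} [Field K] [NumberField K]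

theorem exists_parH {q : ℕ} {s : K} (hK : IsBase K q s) {v : HeightOneSpectrum (𝓞 K)}
    (hv : (2 : 𝓞 K) ∈ v.asIdeal)
    (ι : AlgebraicClosure K →ₐ[K] AlgebraicClosure (v.adicCompletion K)) {T : Finset ℕ}
    (hT : ∀ l ∈ T, SplitPr q l) {c : AlgebraicClosure K ≃+* AlgebraicClosure K}
    (hc : PA.IsConj s c) {κ : AbsGal K →* AbsGal K}
    (hκ : ∀ (σ : AbsGal K) (x : AlgebraicClosure K), κ σ x = c (σ (c x)))
    {P : ℕ → Ideal (𝓞 (AlgebraicClosure K))}
    (hP : ∀ l ∈ T, (P l).IsPrime ∧ (l : 𝓞 (AlgebraicClosure K)) ∈ P l) :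
    ∃ (inv : ∀ w : Option T, (DD ι P w → DD ι P w → A0) → A0) (θ φ : AbsGal K),
      ParH (sysT K T) (fun w => sysD K T (DD ι P w)) (fun w => (DD ι P w).subtype) cyc inv κ θ φ ∧
      cyc θ = -1 := by
  classical
  obtain ⟨inv, N, e, H, h3, h2, hi⟩ := exists_recH hK hv ι hT hc hκ hP
  obtain ⟨θ, φ, tk, fk, hθ, hφ⟩ := exists_theta_phi hK hc (κ := κ) hκ hT
  obtain ⟨hfin, hcnt⟩ := count_T hK hT hc (κ := κ) hκ hP
  have hcount : Module.finrank (ZMod 2) (homs (sysT K T) ⊤) =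
      ∑ w : Option T, Module.finrank (ZMod 2) (homs (sysD K T (DD ι P w)) ⊤) := by
    rw [Fintype.sum_option, h3, Finset.sum_congr rfl (fun l _ => h2 l), hcnt, Finset.sum_const,
      Finset.card_univ, Fintype.card_coe, smul_eq_mul, mul_comm]
  have hin : ∀ Q : Ideal (𝓞 (AlgebraicClosure K)), Q.inertia (AbsGal K) ≤ stabD Q := by
    intro Q τ hτ x
    have h1 : τ • x - x ∈ Q := hτ x
    constructor
    · intro hx
      have h2 := Q.add_mem h1 hx
      rwa [sub_add_cancel] at h2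
    · intro hx
      have h2 := Q.sub_mem hx h1
      rwa [sub_sub_cancel] at h2
  have h2P : ∀ l ∈ T, (2 : 𝓞 (AlgebraicClosure K)) ∉ P l := by
    intro l hl h4
    have h3 := hT l hl
    obtain ⟨k, hk⟩ := h3.1.odd_of_ne_two h3.2.1
    apply (hP l hl).1.ne_top
    rw [Ideal.eq_top_iff_one]
    have h5 : (1 : 𝓞 (AlgebraicClosure K)) = (l : 𝓞 (AlgebraicClosure K)) - 2 * k := by
      rw [hk]
      push_cast
      ring
    rw [h5]
    exact (P l).sub_mem (hP l hl).2 ((P l).mul_mem_right _ h4)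
  have hglob := H.glob hfin
    (fun ω hω h4 h5 => inj_T hK hv ι hT hc hκ hP hω (fun d hd => h4 none ⟨d, hd⟩)
      (fun l hl n hn => ⟨h4 (some ⟨l, hl⟩) ⟨n, hin _ hn⟩, h5 (some ⟨l, hl⟩) ⟨n, hin _ hn⟩⟩))
    (fun f hf h4 h5 => sha_J hK hv ι hT hc hκ hP hf (cob_sub (h4 none))
      (fun l hl => cob_sub (h4 (some ⟨l, hl⟩))) (fun l hl => cob_sub (h5 (some ⟨l, hl⟩))))
    hcount
  let a : AbsGal K → ZMod 2 := fun g => if (4 : ℤ_[2]) ∣ cyc g - 1 then 0 else 1
  have ha : ∀ g, a g = 0 ↔ (4 : ℤ_[2]) ∣ cyc g - 1 := by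
    intro g
    by_cases h : (4 : ℤ_[2]) ∣ cyc g - 1
    · simp [a, h]
    · simp [a, h]
  have haθ : a θ = 1 := by
    have h4 : ¬ (4 : ℤ_[2]) ∣ cyc θ - 1 := by
      rw [hθ]
      rintro ⟨x, hx⟩
      have h5 : (2 : ℤ_[2]) * (2 * x + 1) = 0 := by linear_combination -hx
      have h6 : (2 : ℤ_[2]) * x + 1 = 0 := (mul_eq_zero.1 h5).resolve_left two_ne_zero
      have h7 := congrArg (PadicInt.toZMod (p := 2)) h6
      rw [map_add, map_mul, map_ofNat, map_one, map_zero] at h7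
      have h8 : (2 : ZMod 2) = 0 := by decide
      rw [h8, zero_mul, zero_add] at h7
      exact one_ne_zero h7
    simp [a, h4]
  obtain ⟨k, hk⟩ : ∃ k : ℕ, q = 16 * k + 7 := ⟨q / 16, by
    have := hK.2.2.2
    omega⟩
  refine ⟨inv, θ, φ, ⟨hglob, H.loc, H.jsm, H.kk, H.ksys, H.kchi, hcount, tk, fk, ?_⟩, hθ⟩
  refine H.alt (m := -8 * k - 3) (q := q) ?_ ?_ hθ hφ tk fk (homs_mono (a_mem ha)) ?_ haθ
    (inv_aa hK hv ι (H.loc none) ha) ?_ ?_
  · rw [hk]
    push_cast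
    ring
  · exact ⟨-4 * k - 2, by ring⟩
  · intro g
    simp only [a, H.kchi]
  · intro l
    obtain ⟨u, σ, τ, hτ, he⟩ := hi l
      (fun d b => hf (a (d : AbsGal K) * a (b : AbsGal K)))
    refine he.trans ?_
    have hτi : ∀ i : ℕ, a ((τ ^ i : stabD (P l)) : AbsGal K) = 0 := by
      intro i
      rw [ha, Subgroup.coe_pow, cyc_inertia (hP l l.2).1 (h2P l l.2) (pow_mem hτ i), sub_self]
      exact dvd_zero _
    have h4 : iota σ τ l (fun d b : stabD (P l) => a (d : AbsGal K) * a (b : AbsGal K)) = 0 := by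
      have h5 := hτi 1
      rw [pow_one] at h5
      simp only [iota, h5, hτi, mul_zero, zero_mul, Finset.sum_const_zero, sub_zero]
    rw [iota_hf, h4, hf_zero, smul_zero]
  · exact fun w hw hwk => kap_coc H.char H.kk H.ksys H.kchi ha
      (fun ψ hψ hψk => kap_T hK hT hc hκ hP ha hψ hψk) hw hwk

end Pool.Agent.Work.MP_787500_nt.GP
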