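import Mathlib
import Pool.Agent.Work.MP_787500_nt.GP.L06_LatMax
import Pool.Agent.Work.MP_787500_nt.GP.F03_Pow

/-!
# Module L07_LATDUAL (size M-L): the maximal lattice is self-dual

`hd`: `bil b (ρ g x) (ρ (κ g) y) = χ g * bil b x y`; `θ` with `χ θ = -1` and `ρ θ * ρ (κ θ) = 1`.
* `alt_V`: `bil b (ρ θ x) y = -bil b x (ρ θ y)` (put `y = ρ (κ θ) y'`, `y' = ρ θ y`: from `hd`, using also
  `ρ (κ θ) * ρ θ = 1`, the inverse matrix), so by symmetry `bil b x (ρ θ x) = 0`.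
* Let `T` be as in `exists_latMax` and `T' = {x | ‖bil b x y‖ ≤ 1 for all y ∈ T} ≥ T`, stable under all
  `ρ g`: `bil b (ρ g x) y = χ g * bil b x (ρ (κ g)⁻¹ y)` and `‖χ g‖ = 1`, `T` is stable under `ρ (κ g⁻¹)`.
  Suppose `T' ≠ T`. `M = T' ⧸ T` is a nonzero finite module over `OE E` (bounded/open), with an
  action of `G` (`IsAct`, linear), smooth: for `x` in the bounded set `T'`, `‖ρ w x - x‖ ≤ ε ‖x‖` is small, so
  `ρ w x - x ∈ T` for `w` in a member of the system. By `exists_fixed` (F03; `isLocal`, `res_finite`,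
  `two_mem`) there is `e ∈ T'`, `e ∉ T`, with `a e ∈ T` for `‖a‖ < 1` and `ρ g e - e ∈ T` for all `g`.
  `T'' = T + O e` is stable; integral: `‖bil b (x + a e) (y + c e)‖`: `‖bil b e y‖ ≤ 1` for `y ∈ T`, and
  `bil b e e = bil b e (ρ θ e) - bil b e (ρ θ e - e) = -bil b e (ρ θ e - e)` has norm `≤ 1`. By maximality
  `T'' = T`, a contradiction.
-/

set_option autoImplicit false
set_option linter.unusedSectionVars false

namespace Pool.Agent.Work.MP_787500_nt.GP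

open Matrix
open Pool.Agent.Work.MP_787500_nt.PA (TwoSys Sm1 Sm2 homs Coc Cob IsChar toE)

variable {E : Type*} [NormedField E] [NormedAlgebra ℚ_[2] E] [FiniteDimensional ℚ_[2] E] {n : ℕ}
variable {G : Type*} [Group G] {S : TwoSys G} {χ : G → ℤ_[2]}

omit [FiniteDimensional ℚ_[2] E] in
private theorem l07_toE_norm (a : ℤ_[2]) : ‖toE E a‖ ≤ 1 := by
  rw [toE, norm_algebraMap']
  exact a.2

theorem alt_V {ρ : G → Matrix (Fin n) (Fin n) E} {b : Matrix (Fin n) (Fin n) E} (hbs : bᵀ = b)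
    {κ : G → G} (hd : ∀ g x y, bil b (ρ g *ᵥ x) (ρ (κ g) *ᵥ y) = toE E (χ g) * bil b x y)
    {θ : G} (hθ : χ θ = -1) (hθ' : ρ θ * ρ (κ θ) = 1) (x : Fin n → E) :
    bil b x (ρ θ *ᵥ x) = 0 := by
  have h1 : ρ (κ θ) * ρ θ = 1 := mul_eq_one_comm.1 hθ'
  have h2 := hd θ x (ρ θ *ᵥ x)
  rw [mulVec_mulVec, h1, one_mulVec, hθ, bil_symm hbs] at h2
  have h3 : toE E (-1) = -1 := by
    rw [toE]
    simp
  rw [h3, neg_one_mul] at h2
  have h4 : (2 : E) * bil b x (ρ θ *ᵥ x) = 0 := by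
    rw [two_mul]
    nth_rewrite 1 [h2]
    rw [neg_add_cancel]
  have h5 : (2 : E) ≠ 0 := by
    have h6 := Gn.norm_p 2 E
    intro h7
    push_cast at h6
    rw [h7, norm_zero] at h6
    norm_num at h6
  exact (mul_eq_zero.1 h4).resolve_left h5

theorem exists_lattice {ρ : G → Matrix (Fin n) (Fin n) E} (hρ : SmallRep S ρ)
    {b : Matrix (Fin n) (Fin n) E} (hb : b.det ≠ 0) (hbs : bᵀ = b) (hχ : IsChar S χ)
    {κ : G →* G} (kk : ∀ g, κ (κ g) = g)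
    (hd : ∀ g x y, bil b (ρ g *ᵥ x) (ρ (κ g) *ᵥ y) = toE E (χ g) * bil b x y)
    {θ : G} (hθ : χ θ = -1) (hθ' : ρ θ * ρ (κ θ) = 1) :
    ∃ T : Submodule (OE E) (Fin n → E), (∀ g, ∀ x ∈ T, ρ g *ᵥ x ∈ T) ∧
      (∀ x, x ∈ T ↔ ∀ y ∈ T, ‖bil b x y‖ ≤ 1) ∧ (∃ R : ℝ, ∀ x ∈ T, ‖x‖ ≤ R) ∧
      ∃ r : ℝ, 0 < r ∧ ∀ x : Fin n → E, ‖x‖ < r → x ∈ T := by
  have hu := Gn.ultra 2 E
  have hpr : ProperSpace E := FiniteDimensional.proper ℚ_[2] E
  obtain ⟨T, hst, hint, hbdd, ⟨r, hr, hopn⟩, ⟨R, hR⟩, hmax⟩ := exists_latMax hρ hb hbs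
  refine ⟨T, hst, fun x => ⟨fun hx y hy => hint x hx y hy, ?_⟩, hbdd, r, hr, hopn⟩
  let T' : Submodule (OE E) (Fin n → E) :=
    { carrier := {x | ∀ y ∈ T, ‖bil b x y‖ ≤ 1}
      add_mem' := fun {x x'} hx hx' y hy => by
        rw [bil_add_left]
        exact (IsUltrametricDist.norm_add_le_max _ _).trans (max_le (hx y hy) (hx' y hy))
      zero_mem' := fun y _ => by
        rw [bil, zero_dotProduct, norm_zero]
        exact zero_le_one
      smul_mem' := fun a x hx y hy => by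
        have h1 : a • x = (a : E) • x := rfl
        rw [h1, bil_smul_left, norm_mul]
        exact mul_le_one₀ a.2 (norm_nonneg _) (hx y hy) }
  have hT' : ∀ x, x ∈ T' ↔ ∀ y ∈ T, ‖bil b x y‖ ≤ 1 := fun x => Iff.rfl
  have hTT' : T ≤ T' := fun x hx y hy => hint x hx y hy
  have hst' : ∀ g, ∀ x ∈ T', ρ g *ᵥ x ∈ T' := by
    intro g x hx y hy
    have h1 : y = ρ (κ g) *ᵥ (ρ (κ g)⁻¹ *ᵥ y) := by
      rw [mulVec_mulVec, ← hρ.mul, mul_inv_cancel, hρ.one, one_mulVec]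
    rw [h1, hd, norm_mul]
    exact mul_le_one₀ (l07_toE_norm _) (norm_nonneg _) (hx _ (hst _ _ hy))
  suffices hle : T' ≤ T from fun hx => hle hx
  by_contra hnle
  obtain ⟨z, hzT', hzT⟩ := SetLike.not_le_iff_exists.1 hnle
  have hloc := isLocal E
  have hres := res_finite (E := E)
  set M : Submodule (OE E) (Wq T) := Submodule.map T.mkQ T' with hM
  have hmemM : ∀ q : Wq T, q ∈ M ↔ ∃ x ∈ T', mq T x = q := fun q => Submodule.mem_map
  have hfin : Finite M := by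
    have hc : IsCompact (Metric.closedBall (0 : Fin n → E) R) := isCompact_closedBall _ _
    obtain ⟨t, -, htf, ht⟩ := hc.finite_cover_balls hr
    have h1 : (M : Set (Wq T)) ⊆ (mq T) '' t := by
      intro q hq
      obtain ⟨x, hx, rfl⟩ := (hmemM q).1 hq
      have h2 : x ∈ Metric.closedBall (0 : Fin n → E) R := mem_closedBall_zero_iff.2 (hR x hx)
      obtain ⟨y, hy, hxy⟩ := Set.mem_iUnion₂.1 (ht h2)
      refine ⟨y, hy, ?_⟩
      rw [mq_eq]
      refine hopn _ ?_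
      rw [norm_sub_rev, ← dist_eq_norm]
      exact hxy
    exact (htf.image _).subset h1
  have hnt : Nontrivial M := by
    refine ⟨⟨⟨mq T z, (hmemM _).2 ⟨z, hzT', rfl⟩⟩, 0, fun h => hzT ?_⟩⟩
    exact mq_eq_zero.1 (congrArg Subtype.val h)
  let σ : G → M → M := fun g m => ⟨actQ T (ρ g) m, by
    obtain ⟨x, hx, hxm⟩ := (hmemM m).1 m.2
    rw [← hxm, actQ_mq (hst g)]
    exact (hmemM _).2 ⟨_, hst' g x hx, rfl⟩⟩
  have hσ : ∀ g (m : M) x, mq T x = m → ((σ g m : M) : Wq T) = mq T (ρ g *ᵥ x) := by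
    intro g m x hx
    show actQ T (ρ g) m = _
    rw [← hx, actQ_mq (hst g)]
  have hact : IsAct σ := by
    refine ⟨fun m => ?_, fun g h m => ?_, fun g m m' => ?_⟩
    · obtain ⟨x, hx, hxm⟩ := (hmemM m).1 m.2
      apply Subtype.ext
      rw [hσ 1 m x hxm, hρ.one, one_mulVec, hxm]
    · obtain ⟨x, hx, hxm⟩ := (hmemM m).1 m.2
      apply Subtype.ext
      rw [hσ (g * h) m x hxm, hσ g (σ h m) (ρ h *ᵥ x) (hσ h m x hxm).symm, mulVec_mulVec, hρ.mul]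
    · obtain ⟨x, hx, hxm⟩ := (hmemM m).1 m.2
      obtain ⟨x', hx', hxm'⟩ := (hmemM m').1 m'.2
      apply Subtype.ext
      rw [hσ g (m + m') (x + x') (by rw [mq_add, hxm, hxm']; rfl), mulVec_add, mq_add,
        ← hσ g m x hxm, ← hσ g m' x' hxm']
      rfl
  have hlin : ∀ g (a : OE E) m, σ g (a • m) = a • σ g m := by
    intro g a m
    obtain ⟨x, hx, hxm⟩ := (hmemM m).1 m.2
    apply Subtype.ext
    rw [hσ g (a • m) ((a : E) • x) (by rw [mq_smul, hxm]; rfl), mulVec_smul, mq_smul,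
      ← hσ g m x hxm]
    rfl
  have hsmooth : Smooth S σ := by
    have hR0 : 0 ≤ R := (norm_nonneg z).trans (hR z hzT')
    obtain ⟨W, hW, hsm⟩ := hρ.sm (r / (R + 1)) (by positivity)
    refine ⟨W, hW, fun w hw m => ?_⟩
    obtain ⟨x, hx, hxm⟩ := (hmemM m).1 m.2
    apply Subtype.ext
    rw [hσ w m x hxm, ← hxm, mq_eq]
    refine hopn _ ((hsm w hw x).trans_lt ?_)
    have h1 : ‖x‖ < R + 1 := (hR x hx).trans_lt (lt_add_one R)
    calc r / (R + 1) * ‖x‖ < r / (R + 1) * (R + 1) :=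
          mul_lt_mul_of_pos_left h1 (by positivity)
      _ = r := div_mul_cancel₀ _ (by positivity)
  obtain ⟨e, he0, hem, hefix⟩ := exists_fixed hact hlin hsmooth (two_mem (E := E))
  obtain ⟨x₀, hx₀, hx₀e⟩ := (hmemM e).1 e.2
  have hx₀T : x₀ ∉ T := by
    intro h
    apply he0
    apply Subtype.ext
    rw [← hx₀e]
    exact mq_eq_zero.2 h
  have hfixT : ∀ g, ρ g *ᵥ x₀ - x₀ ∈ T := by
    intro g
    rw [← mq_eq, ← hσ g e x₀ hx₀e, hefix, hx₀e]
  have h00 : ‖bil b x₀ x₀‖ ≤ 1 := by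
    have h1 := alt_V hbs hd hθ hθ' x₀
    have h2 : bil b x₀ x₀ = bil b x₀ (ρ θ *ᵥ x₀) - bil b x₀ (ρ θ *ᵥ x₀ - x₀) := by
      rw [bil_sub_right, sub_sub_cancel]
    rw [h2, h1, zero_sub, norm_neg]
    exact hx₀ _ (hfixT θ)
  have hT'' : T ⊔ Submodule.span (OE E) {x₀} = T := by
    refine hmax _ le_sup_left (fun g x hx => ?_) (fun x hx y hy => ?_)
    · obtain ⟨u, hu', v, hv, rfl⟩ := Submodule.mem_sup.1 hx
      obtain ⟨a, rfl⟩ := Submodule.mem_span_singleton.1 hv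
      have h1 : ρ g *ᵥ (u + a • x₀) = (ρ g *ᵥ u + a • (ρ g *ᵥ x₀ - x₀)) + a • x₀ := by
        have h2 : a • x₀ = (a : E) • x₀ := rfl
        rw [mulVec_add, h2, mulVec_smul, smul_sub, h2]
        have h3 : a • (ρ g *ᵥ x₀) = (a : E) • (ρ g *ᵥ x₀) := rfl
        rw [h3]
        abel
      rw [h1]
      refine Submodule.add_mem_sup (T.add_mem (hst g u hu') (T.smul_mem a (hfixT g))) ?_
      exact Submodule.smul_mem _ _ (Submodule.mem_span_singleton_self _)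
    · obtain ⟨u, hu', v, hv, rfl⟩ := Submodule.mem_sup.1 hx
      obtain ⟨a, rfl⟩ := Submodule.mem_span_singleton.1 hv
      obtain ⟨u₁, hu₁, v₁, hv₁, rfl⟩ := Submodule.mem_sup.1 hy
      obtain ⟨a₁, rfl⟩ := Submodule.mem_span_singleton.1 hv₁
      have h2 : ∀ c : OE E, c • x₀ = (c : E) • x₀ := fun c => rfl
      have h3 : bil b (u + a • x₀) (u₁ + a₁ • x₀) = (bil b u u₁ + (a₁ : E) * bil b x₀ u) +
          ((a : E) * bil b x₀ u₁ + (a : E) * ((a₁ : E) * bil b x₀ x₀)) := by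
        rw [h2, h2, bil_add_left, bil_add_right, bil_add_right, bil_smul_right, bil_smul_left,
          bil_smul_left, bil_smul_right, bil_symm hbs u x₀]
      rw [h3]
      have ha : ‖(a : E)‖ ≤ 1 := a.2
      have ha₁ : ‖(a₁ : E)‖ ≤ 1 := a₁.2
      have h4 : ∀ (s t : E), ‖s‖ ≤ 1 → ‖t‖ ≤ 1 → ‖s * t‖ ≤ 1 := by
        intro s t hs ht
        rw [norm_mul]
        exact mul_le_one₀ hs (norm_nonneg _) ht
      have h5 : ∀ (s t : E), ‖s‖ ≤ 1 → ‖t‖ ≤ 1 → ‖s + t‖ ≤ 1 := by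
        intro s t hs ht
        exact (IsUltrametricDist.norm_add_le_max _ _).trans (max_le hs ht)
      exact h5 _ _ (h5 _ _ (hint u hu' u₁ hu₁) (h4 _ _ ha₁ (hx₀ u hu')))
        (h5 _ _ (h4 _ _ ha (hx₀ u₁ hu₁)) (h4 _ _ ha (h4 _ _ ha₁ h00)))
  apply hx₀T
  rw [← hT'']
  exact (le_sup_right : Submodule.span (OE E) {x₀} ≤ _) (Submodule.mem_span_singleton_self _)

end Pool.Agent.Work.MP_787500_nt.GP
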