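import Mathlib
import Pool.Agent.Work.MP_787500_nt.GP.L10_Div
import Pool.Agent.Work.MP_787500_nt.GP.L11_Seq

/-!
# Module L12_PERPIFF (size M): the annihilator at finite level

`⇐` is `perpV_level` (and `zv_level'`). `⇒`: by `rn_div`, iterated (dependent choice), there is a sequence
`y k : D → MN T l (N + k)` with `y 0 = y`, `RN (N + k) (y k)`, `l y (k + 1) = y k` (to avoid casts:
construct a sequence of sigma types, or of functions `D → Wq T` with the property
there is `y' : D → MN T l (N + k)` with `RN .. y'` and `y' d = ..`). By `seq_lim` there is `Y ∈ ZV SD ρ'` with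
`mq (l ^ (-k) Y d) = y k d`. `PerpV`: let `X ∈ L`; `cupE ρ' b X Y ∈ ZE` (`cupE_ZE`), and by `be_E` and `trep`
it suffices that `inv (pr0 (t (a * cupE ρ' b X Y))) = 0` for all `a : E`. `X' = (a l ^ (-N)) X ∈ L`, bounded
(`zv_bdd`), so `l ^ (N + k) X'` has values in `T` for some `k` (`opn`). So
`x = mq ∘ X' ∈ lamN T l (N + k) L`, and `RN` says `inv (cup11 .. x (y k)) = 0`; by `cup_level` with the lifts
`X'` and `l ^ (-k) Y` the cup product is `pr0 (t (l ^ (N + k) cupE X' (l ^ (-k) Y))) =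
pr0 (t (l ^ N cupE X' Y)) = pr0 (t (a cupE X Y))`.
-/

set_option autoImplicit false
set_option linter.unusedSectionVars false

namespace Pool.Agent.Work.MP_787500_nt.GP

open Matrix
open Pool.Agent.Work.MP_787500_nt.PA (TwoSys Sm1 Sm2 homs Coc Cob IsChar toE)

variable {E : Type*} [NormedField E] [NormedAlgebra ℚ_[2] E] [FiniteDimensional ℚ_[2] E] {n : ℕ}
  {b : Matrix (Fin n) (Fin n) E} {l : OE E} {t : E →ₗ[ℚ_[2]] ℚ_[2]}
  {T : Submodule (OE E) (Fin n → E)}

variable {D : Type*} [Group D] {SD : TwoSys D} {χ : D → ℤ_[2]} {inv : (D → D → A0) → A0}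
  {ρ ρ' : D → Matrix (Fin n) (Fin n) E}

theorem perp_iff (H : LocH SD χ inv) (h : Lat b l t T) (hr : LocRep SD χ T b ρ ρ')
    {L : Submodule E (D → Fin n → E)} (hL : ∀ X ∈ L, ZV SD ρ X)
    (hL0 : ∀ v, (fun d => ρ d *ᵥ v - v) ∈ L) {N : ℕ} (y : D → MN T l N) :
    RN inv h hr L N y ↔ ∃ Y, PerpV SD χ b ρ' L Y ∧ ∀ d, (y d : Wq T) = mq T (Y d) := by
  constructor
  · intro hy
    let P : ℕ → (D → Wq T) → Prop := fun k z =>
      ∃ y' : D → MN T l (N + k), RN inv h hr L (N + k) y' ∧ ∀ d, (y' d : Wq T) = z d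
    have hstep : ∀ k z, P k z → ∃ z', P (k + 1) z' ∧ ∀ d, l • z' d = z d := by
      rintro k z ⟨y', h1, h2⟩
      obtain ⟨y'', h3, h4⟩ := rn_div H h hr hL hL0 h1
      exact ⟨fun d => y'' d, ⟨y'', h3, fun d => rfl⟩, fun d => (h4 d).trans (h2 d)⟩
    choose! F hF1 hF2 using hstep
    let z : ℕ → D → Wq T := fun k => Nat.rec (fun d => (y d : Wq T)) (fun k z => F k z) k
    have hz : ∀ k, P k (z k) := by
      intro k
      induction k with
      | zero => exact ⟨y, hy, fun d => rfl⟩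
      | succ k ih => exact hF1 k _ ih
    have hzl : ∀ k d, l • z (k + 1) d = z k d := fun k d => hF2 k _ (hz k) d
    have hz1 : ∀ k, Z1 SD (fun d => actQ T (ρ' d)) (z k) := by
      intro k
      obtain ⟨y', ⟨⟨⟨W, hW, h1⟩, h2⟩, -⟩, h4⟩ := hz k
      refine ⟨⟨W, hW, fun g w hw => ?_⟩, fun s u => ?_⟩
      · rw [← h4, ← h4, h1 g w hw]
      · rw [← h4, ← h4, ← h4, h2 s u]
        rfl
    obtain ⟨Y, hY, hYm⟩ := seq_lim h hr.st' z hz1 hzl
    have hlk : ∀ k : ℕ, (l : E) ^ k ≠ 0 := fun k => pow_ne_zero _ h.lne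
    refine ⟨Y, ⟨hY, fun X hX => ?_⟩, fun d => ?_⟩
    · refine be_E H (cupE_ZE hr (hL X hX) hY) fun φ => ?_
      obtain ⟨a, ha⟩ := h.trep φ
      have hX' : (a * ((l : E) ^ N)⁻¹) • X ∈ L := L.smul_mem _ hX
      obtain ⟨C, hC⟩ := zv_bdd (hL _ hX')
      obtain ⟨r, hr0, hT⟩ := h.opn
      have h3 : Filter.Tendsto (fun k : ℕ => ‖(l : E)‖ ^ k * |C|) Filter.atTop (nhds 0) := by
        have := (tendsto_pow_atTop_nhds_zero_of_lt_one (norm_nonneg _) h.llt).mul_const |C|
        rwa [zero_mul] at this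
      obtain ⟨k, hk⟩ := (h3.eventually_lt_const hr0).exists
      have hkill : ∀ d, l ^ (N + k) • mq T ((a * ((l : E) ^ N)⁻¹) • X d) = 0 := by
        intro d
        rw [← mq_smul, mq_eq_zero]
        refine hT _ ?_
        rw [norm_smul]
        have e1 : ‖((l ^ (N + k) : OE E) : E)‖ ≤ ‖(l : E)‖ ^ k := by
          rw [show ((l ^ (N + k) : OE E) : E) = (l : E) ^ (N + k) from rfl, norm_pow]
          exact pow_le_pow_of_le_one (norm_nonneg _) h.llt.le (by omega)
        exact (mul_le_mul e1 ((hC d).trans (le_abs_self C)) (norm_nonneg _)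
          (by positivity)).trans_lt hk
      obtain ⟨y', hy', hyc⟩ := hz k
      let x : D → MN T l (N + k) := fun d => ⟨mq T ((a * ((l : E) ^ N)⁻¹) • X d), by
        rw [Submodule.mem_torsionBy_iff]
        exact hkill d⟩
      have hx : ∀ d, (x d : Wq T) = mq T (((a * ((l : E) ^ N)⁻¹) • X) d) := fun d => rfl
      have h5 := hy'.2 x ⟨_, hX', hx⟩
      have h6 : ∀ d, (y' d : Wq T) = mq T ((((l : E) ^ k)⁻¹ • Y) d) := by
        intro d
        rw [hyc, ← hYm]
        rfl
      rw [← h5]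
      congr 1
      funext s u
      rw [cup_level h hr (N + k) hx h6, ha]
      congr 2
      simp only [cupE, Pi.smul_apply, mulVec_smul, bil_smul_left, bil_smul_right, pow_add]
      have h7 := hlk N
      have h8 := hlk k
      field_simp
    · have h1 := hYm 0 d
      rw [pow_zero, inv_one, one_smul] at h1
      exact h1.symm
  · rintro ⟨Y, hY, hy⟩
    exact ⟨zv_level' h hr N hY.1 hy, fun x hx => perpV_level H h hr hY N hy hx⟩

end Pool.Agent.Work.MP_787500_nt.GP
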