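import Mathlib
import Pool.Agent.Work.MP_787500_nt.GP.LDefs2
import Pool.Agent.Work.MP_787500_nt.GP.L12_PerpIff

/-!
# Module L16_SELN (size M): the Selmer groups at finite level are the torsion of `selInf`

* `locRep_of`: compose with `j w` (smallness: `ParH.jsm`, `ParH.ksys`; `dual` from `hr.dual` and
  `ParH.kk`: `ρ' (j w d) = ρ (κ (j w d))`). For the second one also use `kchi`.
* `betw_lamN`: coboundaries: `d0 (actN ..) m = mq ∘ (ρ v - v)`, `v = lft m` (`actQ_mq`), in `lamN` by `hL0`;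
  cocycles: `zv_level`.
* `sel_level`: `x ↦ (fun g => (x g : Wq T))` is a bijection from `selM` at level `N` onto the elements of
  `selInf` killed by `l ^ N` (inverse: `x g` is killed by `l ^ N`). `Z1` for `actN` is `Z1` for `actQ` of
  the coerced function (`coe_actN`, the coercion is injective and additive). The first local condition is
  by definition `lamN`. The second: an element of `perpM` is a `y` with `RN inv h hr L N y` (members of
  `lamN` are automatically cocycles, `zv_level`), and by `perp_iff` this means `y = mq ∘ Y` with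
  `Y ∈ perpW`.
-/

set_option autoImplicit false
set_option linter.unusedSectionVars false

namespace Pool.Agent.Work.MP_787500_nt.GP

open Matrix
open Pool.Agent.Work.MP_787500_nt.PA (TwoSys Sm1 Sm2 homs Coc Cob IsChar toE)

variable {E : Type*} [NormedField E] [NormedAlgebra ℚ_[2] E] [FiniteDimensional ℚ_[2] E] {n : ℕ}
  {b : Matrix (Fin n) (Fin n) E} {l : OE E} {t : E →ₗ[ℚ_[2]] ℚ_[2]}
  {T : Submodule (OE E) (Fin n → E)}

variable {G : Type*} [Group G] {S : TwoSys G} {Φ : Type*} [Fintype Φ] {D : Φ → Type*}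
  [∀ w, Group (D w)] {SD : ∀ w, TwoSys (D w)} {j : ∀ w, D w →* G} {χ : G → ℤ_[2]}
  {inv : ∀ w, (D w → D w → A0) → A0} {κ : G →* G} {θ φ : G}
  {ρ : G → Matrix (Fin n) (Fin n) E} {L : ∀ w, Submodule E (D w → Fin n → E)}


theorem locRep_of (H : ParH S SD j χ inv κ θ φ) (hr : LocRep S χ T b ρ (fun g => ρ (κ g))) (w : Φ) :
    LocRep (SD w) (fun d => χ (j w d)) T b (fun d => ρ (j w d)) (fun d => ρ (κ (j w d))) where
  one := by
    rw [map_one]
    exact hr.one
  mul s u := by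
    rw [map_mul]
    exact hr.mul _ _
  one' := by
    have h1 := hr.one'
    rw [map_one]
    exact h1
  mul' s u := by
    have h1 := hr.mul' (j w s) (j w u)
    rw [map_mul]
    exact h1
  st d := hr.st _
  st' d := hr.st' _
  sm ε hε := by
    obtain ⟨W, hW, h1⟩ := hr.sm ε hε
    obtain ⟨W', hW', h2⟩ := H.jsm w W hW
    exact ⟨W', hW', fun v hv x => h1 _ (h2 v hv) x⟩
  sm' ε hε := by
    obtain ⟨W, hW, h1⟩ := hr.sm' ε hε
    obtain ⟨W', hW', h2⟩ := H.jsm w W hW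
    exact ⟨W', hW', fun v hv x => h1 _ (h2 v hv) x⟩
  dual d x y := hr.dual _ x y

theorem betw_lamN (H : ParH S SD j χ inv κ θ φ) (h : Lat b l t T)
    (hr : LocRep S χ T b ρ (fun g => ρ (κ g)))
    (hL : ∀ w, ∀ X ∈ L w, ZV (SD w) (fun d => ρ (j w d)) X)
    (hL0 : ∀ w v, (fun d => ρ (j w d) *ᵥ v - v) ∈ L w) (N : ℕ) (w : Φ) :
    Betw (SD w) (fun d => actN l N ρ hr.st (j w d)) (lamN T l N (L w)) where
  cob m := by
    refine ⟨_, hL0 w (lft (m : Wq T)), fun d => ?_⟩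
    show ((actN l N ρ hr.st (j w d) m - m : MN T l N) : Wq T) = _
    rw [Submodule.coe_sub, coe_actN, actQ, mq_sub, mq_lft]
  coc x := by
    rintro ⟨X, hX, h1⟩
    exact zv_level h (locRep_of H hr w) N (hL w X hX) h1

private theorem l16_perp (H : ParH S SD j χ inv κ θ φ) (h : Lat b l t T)
    (hr : LocRep S χ T b ρ (fun g => ρ (κ g)))
    (hal : ∀ x : Fin n → E, bil b x (ρ θ *ᵥ x) = 0)
    (hL : ∀ w, ∀ X ∈ L w, ZV (SD w) (fun d => ρ (j w d)) X)
    (hL0 : ∀ w v, (fun d => ρ (j w d) *ᵥ v - v) ∈ L w) (N : ℕ) (w : Φ) (y : D w → MN T l N) :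
    y ∈ perpM H (sdual_MN h hr hal N) w (lamN T l N (L w)) ↔
      ∃ Y ∈ perpW SD j χ κ b ρ L w, ∀ d, (y d : Wq T) = mq T (Y d) := by
  have h1 := perp_iff (H.loc w) h (locRep_of H hr w) (hL w) (hL0 w) y
  constructor
  · rintro ⟨h2, h3⟩
    exact h1.1 ⟨h2, fun x hx => h3 x hx ((betw_lamN H h hr hL hL0 N w).coc x hx)⟩
  · rintro ⟨Y, hY, h2⟩
    obtain ⟨h3, h4⟩ := h1.2 ⟨Y, hY, h2⟩
    exact ⟨h3, fun x hx _ => h4 x hx⟩

private theorem l16_mem (H : ParH S SD j χ inv κ θ φ) (h : Lat b l t T)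
    (hr : LocRep S χ T b ρ (fun g => ρ (κ g)))
    (hal : ∀ x : Fin n → E, bil b x (ρ θ *ᵥ x) = 0)
    (hL : ∀ w, ∀ X ∈ L w, ZV (SD w) (fun d => ρ (j w d)) X)
    (hL0 : ∀ w v, (fun d => ρ (j w d) *ᵥ v - v) ∈ L w) (N : ℕ) (x : G → MN T l N) :
    x ∈ selM (sdual_MN h hr hal N) j (fun w => lamN T l N (L w))
      (fun w => perpM H (sdual_MN h hr hal N) w (lamN T l N (L w))) ↔
    (fun g => (x g : Wq T)) ∈ selInf S SD j χ κ b ρ L hr.st := by
  have hZ : Z1 S (actN l N ρ hr.st) x ↔ Z1 S (fun g => actQ T (ρ g)) (fun g => (x g : Wq T)) := by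
    constructor
    · rintro ⟨⟨W, hW, h1⟩, h2⟩
      refine ⟨⟨W, hW, fun g w hw => ?_⟩, fun a c => ?_⟩
      · show (x (g * w) : Wq T) = x g
        rw [h1 g w hw]
      · have h3 := congrArg (fun m : MN T l N => (m : Wq T)) (h2 a c)
        exact h3
    · rintro ⟨⟨W, hW, h1⟩, h2⟩
      refine ⟨⟨W, hW, fun g w hw => ?_⟩, fun a c => ?_⟩
      · exact Subtype.ext (h1 g w hw)
      · exact Subtype.ext (h2 a c)
  constructor
  · rintro ⟨h1, h2, h3⟩
    exact ⟨hZ.1 h1, fun w => h2 w, fun w => (l16_perp H h hr hal hL hL0 N w _).1 (h3 w)⟩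
  · rintro ⟨h1, h2, h3⟩
    exact ⟨hZ.2 h1, fun w => h2 w, fun w => (l16_perp H h hr hal hL hL0 N w _).2 (h3 w)⟩

theorem sel_level (H : ParH S SD j χ inv κ θ φ) (h : Lat b l t T)
    (hr : LocRep S χ T b ρ (fun g => ρ (κ g)))
    (hal : ∀ x : Fin n → E, bil b x (ρ θ *ᵥ x) = 0)
    (hL : ∀ w, ∀ X ∈ L w, ZV (SD w) (fun d => ρ (j w d)) X)
    (hL0 : ∀ w v, (fun d => ρ (j w d) *ᵥ v - v) ∈ L w) (N : ℕ) :
    Nat.card (selM (sdual_MN h hr hal N) j (fun w => lamN T l N (L w))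
      (fun w => perpM H (sdual_MN h hr hal N) w (lamN T l N (L w)))) =
    Nat.card (Submodule.torsionBy (OE E) (selInf S SD j χ κ b ρ L hr.st) (l ^ N)) := by
  let f : selM (sdual_MN h hr hal N) j (fun w => lamN T l N (L w))
      (fun w => perpM H (sdual_MN h hr hal N) w (lamN T l N (L w))) →
      Submodule.torsionBy (OE E) (selInf S SD j χ κ b ρ L hr.st) (l ^ N) := fun x =>
    ⟨⟨fun g => ((x : G → MN T l N) g : Wq T), (l16_mem H h hr hal hL hL0 N x).1 x.2⟩, by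
      rw [Submodule.mem_torsionBy_iff]
      apply Subtype.ext
      funext g
      exact ((x : G → MN T l N) g).mem⟩
  refine Nat.card_eq_of_bijective f ⟨fun x y hxy => ?_, fun c => ?_⟩
  · apply Subtype.ext
    funext g
    apply Subtype.ext
    exact congrFun (congrArg Subtype.val (congrArg Subtype.val hxy)) g
  · obtain ⟨⟨x, hx⟩, hc⟩ := c
    have hc' : ∀ g, x g ∈ Submodule.torsionBy (OE E) (Wq T) (l ^ N) := by
      intro g
      rw [Submodule.mem_torsionBy_iff] at hc ⊢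
      exact congrFun (congrArg Subtype.val hc) g
    exact ⟨⟨fun g => ⟨x g, hc' g⟩, (l16_mem H h hr hal hL hL0 N _).2 hx⟩, rfl⟩

end Pool.Agent.Work.MP_787500_nt.GP
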