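import Mathlib
import Pool.Agent.Work.MP_787500_nt.GP.F03_Pow

/-!
# Module L14_GROW (size M): growth of torsion, coherent sequences

`A` an `O`-module with `A[l ^ N]` finite for all `N`.
* `growth`: `C_N = {c | l • c = 0, ∃ a, l ^ N • a = c}` is a decreasing sequence of subgroups of the finite
  group `A[l]`, so constant for `N ≥ n₀`, equal to `C = {c | l • c = 0, ∀ N, ∃ a, l ^ N • a = c}`. The map
  `a ↦ l ^ N • a` from `A[l ^ (N + 1)]` has image `C_N` and kernel `A[l ^ N]`, so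
  `card A[l ^ (n₀ + 1)] = card A[l ^ n₀] * card C`.
* `coherent`: for `c ∈ C` the sets `X_k = {a | l ^ k • a = c}`; `a ∈ X_k` is killed by `l ^ (k + 1)`, so `X_k` is
  finite, nonempty, and multiplication by `l` maps `X_(k + 1)` to `X_k`: an inverse system of nonempty
  finite sets has a nonempty limit (`nonempty_sections_of_finite_inverse_system`, or a direct argument: call
  `a ∈ X_k` good if it has preimages in all `X_m`, `m ≥ k`; each good element has a good preimage).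
-/

set_option autoImplicit false
set_option linter.unusedSectionVars false

namespace Pool.Agent.Work.MP_787500_nt.GP

open Matrix
open Pool.Agent.Work.MP_787500_nt.PA (TwoSys Sm1 Sm2 homs Coc Cob IsChar toE)

private theorem grow_inter {α : Type*} (S : ℕ → Set α) (hfin : ∀ N, (S N).Finite)
    (hanti : ∀ N M, N ≤ M → S M ⊆ S N) : ∃ n₀, ∀ N, S n₀ ⊆ S N := by
  classical
  have hex : ∃ k, ∃ N, (S N).ncard = k := ⟨_, 0, rfl⟩
  obtain ⟨n₀, h0⟩ := Nat.find_spec hex
  refine ⟨n₀, fun N => ?_⟩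
  rcases le_total N n₀ with h | h
  · exact hanti _ _ h
  · have h1 : (S n₀).ncard ≤ (S N).ncard := by
      rw [h0]
      exact Nat.find_min' hex ⟨N, rfl⟩
    exact (Set.eq_of_subset_of_ncard_le (hanti _ _ h) h1 (hfin n₀)).symm.subset

theorem growth {O : Type*} [CommRing O] {A : Type*} [AddCommGroup A] [Module O A] (l : O)
    (hfin : ∀ N : ℕ, Finite (Submodule.torsionBy O A (l ^ N))) :
    ∃ n₀ : ℕ, Nat.card (Submodule.torsionBy O A (l ^ (n₀ + 1))) =
      Nat.card (Submodule.torsionBy O A (l ^ n₀)) *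
        Nat.card {c : A // l • c = 0 ∧ ∀ N : ℕ, ∃ a : A, l ^ N • a = c} := by
  have hfin1 : (Submodule.torsionBy O A (l ^ 1) : Set A).Finite := Set.toFinite _
  obtain ⟨n₀, hn₀⟩ := grow_inter (fun N => {c : A | l • c = 0 ∧ ∃ a : A, l ^ N • a = c})
    (fun N => hfin1.subset fun c hc => by
      rw [SetLike.mem_coe, Submodule.mem_torsionBy_iff, pow_one]
      exact hc.1)
    (fun N M hNM c hc => by
      obtain ⟨h1, a, ha⟩ := hc
      refine ⟨h1, l ^ (M - N) • a, ?_⟩
      rw [smul_smul, ← pow_add, Nat.add_sub_cancel' hNM, ha])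
  refine ⟨n₀, ?_⟩
  have hF := hfin (n₀ + 1)
  set T := Submodule.torsionBy O A (l ^ (n₀ + 1)) with hT
  let f : T →ₗ[O] A := (l ^ n₀) • T.subtype
  have hf : ∀ x : T, f x = l ^ n₀ • (x : A) := fun x => rfl
  have h1 := Submodule.card_eq_card_quotient_mul_card (LinearMap.ker f)
  rw [h1]
  rw [Nat.card_congr (LinearMap.quotKerEquivRange f).toEquiv]
  congr 1
  · refine Nat.card_congr ⟨fun x => ⟨(x : T), ?_⟩, fun x => ⟨⟨x, ?_⟩, ?_⟩, fun x => ?_, fun x => ?_⟩
    · have h2 : f x = 0 := x.2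
      rw [hf] at h2
      exact (Submodule.mem_torsionBy_iff _ _).2 h2
    · rw [hT, Submodule.mem_torsionBy_iff, pow_succ', mul_smul]
      rw [(Submodule.mem_torsionBy_iff _ _).1 x.2, smul_zero]
    · rw [LinearMap.mem_ker, hf]
      exact (Submodule.mem_torsionBy_iff _ _).1 x.2
    · rfl
    · rfl
  · refine Nat.card_congr (Equiv.subtypeEquivRight (p := fun c => c ∈ LinearMap.range f)
      fun c => ?_)
    rw [LinearMap.mem_range]
    constructor
    · rintro ⟨x, rfl⟩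
      have h3 : l • f x = 0 := by
        rw [hf, smul_smul, ← pow_succ']
        exact (Submodule.mem_torsionBy_iff _ _).1 x.2
      exact ⟨h3, fun N => (hn₀ N ⟨h3, x, rfl⟩).2⟩
    · rintro ⟨h3, h4⟩
      obtain ⟨a, ha⟩ := h4 n₀
      refine ⟨⟨a, ?_⟩, ha⟩
      rw [hT, Submodule.mem_torsionBy_iff, pow_succ', mul_smul, ha, h3]

theorem coherent {O : Type*} [CommRing O] {A : Type*} [AddCommGroup A] [Module O A] (l : O)
    (hfin : ∀ N : ℕ, Finite (Submodule.torsionBy O A (l ^ N))) {c : A} (hc : l • c = 0)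
    (h : ∀ N : ℕ, ∃ a : A, l ^ N • a = c) :
    ∃ a : ℕ → A, a 0 = c ∧ ∀ k, l • a (k + 1) = a k := by
  have key : ∀ a : {a : A // (∃ k : ℕ, l ^ k • a = 0) ∧ ∀ m : ℕ, ∃ a' : A, l ^ m • a' = a},
      ∃ b : {a : A // (∃ k : ℕ, l ^ k • a = 0) ∧ ∀ m : ℕ, ∃ a' : A, l ^ m • a' = a},
        l • (b : A) = a := by
    rintro ⟨a, ⟨k, hk⟩, ha⟩
    have hfk : (Submodule.torsionBy O A (l ^ (k + 1)) : Set A).Finite := by
      have := hfin (k + 1)
      exact Set.toFinite _
    obtain ⟨n₀, hn₀⟩ := grow_inter (fun m => {b : A | l • b = a ∧ ∃ a' : A, l ^ m • a' = b})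
      (fun m => hfk.subset fun b hb => by
        rw [SetLike.mem_coe, Submodule.mem_torsionBy_iff, pow_succ, mul_smul, hb.1, hk])
      (fun N M hNM b hb => by
        obtain ⟨h1, a', ha'⟩ := hb
        refine ⟨h1, l ^ (M - N) • a', ?_⟩
        rw [smul_smul, ← pow_add, Nat.add_sub_cancel' hNM, ha'])
    obtain ⟨a', ha'⟩ := ha (n₀ + 1)
    have hb : l • (l ^ n₀ • a') = a := by
      rw [smul_smul, ← pow_succ', ha']
    refine ⟨⟨l ^ n₀ • a', ⟨k + 1, ?_⟩, fun m => (hn₀ m ⟨hb, a', rfl⟩).2⟩, hb⟩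
    rw [pow_succ, mul_smul, hb, hk]
  choose f hf using key
  let c' : {a : A // (∃ k : ℕ, l ^ k • a = 0) ∧ ∀ m : ℕ, ∃ a' : A, l ^ m • a' = a} :=
    ⟨c, ⟨1, by rw [pow_one, hc]⟩, h⟩
  refine ⟨fun k => (f^[k] c' : _), rfl, fun k => ?_⟩
  show l • ((f^[k + 1] c' : _) : A) = _
  rw [Function.iterate_succ_apply', hf]

end Pool.Agent.Work.MP_787500_nt.GP
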