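import Mathlib
import Pool.Agent.Work.MP_787500_nt.GP.LDefs2
import Pool.Agent.Work.MP_787500_nt.GP.L13_CardN
import Pool.Agent.Work.MP_787500_nt.GP.L14_Grow
import Pool.Agent.Work.MP_787500_nt.GP.L15_FinV
import Pool.Agent.Work.MP_787500_nt.GP.L11_Seq
import Pool.Agent.Work.MP_787500_nt.GP.L09_CupV

/-!
# Module L17_SELDIV (size M): the divisible part of `selInf`

`C = {c ∈ selInf | l • c = 0, infinitely divisible by l in selInf}`.
* `mq_selV`: for `X ∈ selV` and `k`, `mq ∘ (l ^ (-k) X) ∈ selInf` (`selV` is stable under scalars; `Sm1`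
  from `N1` and `opn`).
* `lift_selV`: for `c ∈ C`: `coherent` gives `a k ∈ selInf`, `a 0 = c`, `l • a (k + 1) = a k`; `seq_lim`
  gives `X ∈ ZV S ρ` with `mq (l ^ (-k) X g) = a k g`. Fix `w`: `a k ∘ j w = mq ∘ X_k` with `X_k ∈ L w`, so
  `l ^ (-k) X (j w d) - X_k d ∈ T`; by `fd_closed` `X ∘ j w ∈ L w`; in the same way
  `X ∘ κ ∘ j w ∈ perpW` (finite dimensional: contained in `zV`, `zV_fd`).
* `card_div`: so `c ↦ (g ↦ c g ∈ MN T l 1)` is a bijection from `C` onto `lamN T l 1 (selV ..)`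
  (`k = 0` for `c = mq ∘ X`; conversely `c = mq ∘ X`, `l • c = 0`, `l ^ N • mq ∘ (l ^ (-N) X) = c`).
  Conclude by `card_lamN` with `N = 1` (`D = G`, members of `selV` are bounded by `zv_bdd`).
-/

set_option autoImplicit false
set_option linter.unusedSectionVars false

namespace Pool.Agent.Work.MP_787500_nt.GP

open Matrix
open Pool.Agent.Work.MP_787500_nt.PA (TwoSys Sm1 Sm2 homs Coc Cob IsChar toE)

variable {E : Type*} [NormedField E] [NormedAlgebra ℚ_[2] E] [FiniteDimensional ℚ_[2] E] {n : ℕ}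
  {b : Matrix (Fin n) (Fin n) E} {l : OE E} {t : E →ₗ[ℚ_[2]] ℚ_[2]}
  {T : Submodule (OE E) (Fin n → E)}

variable {G : Type*} [Group G] {S : TwoSys G} {Φ : Type*} [Fintype Φ] {D : Φ → Type*}
  [∀ w, Group (D w)] {SD : ∀ w, TwoSys (D w)} {j : ∀ w, D w →* G} {χ : G → ℤ_[2]}
  {inv : ∀ w, (D w → D w → A0) → A0} {κ : G →* G} {θ φ : G}
  {ρ : G → Matrix (Fin n) (Fin n) E} {L : ∀ w, Submodule E (D w → Fin n → E)}

theorem selV_fd (H : ParH S SD j χ inv κ θ φ) (hr : LocRep S χ T b ρ (fun g => ρ (κ g))) :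
    FiniteDimensional E (selV S SD j χ κ b ρ L) := by
  have h1 : FiniteDimensional E (zV S ρ) := zV_fd H.glob.fin hr.one hr.mul
  have h2 : selV S SD j χ κ b ρ L ≤ zV S ρ := fun X hX => hX.1
  exact Submodule.finiteDimensional_of_le h2

private theorem l17_mq (h : Lat b l t T) (hst : ∀ g, ∀ x ∈ T, ρ g *ᵥ x ∈ T) {X : G → Fin n → E}
    (hX : X ∈ selV S SD j χ κ b ρ L) :
    (fun g => mq T (X g)) ∈ selInf S SD j χ κ b ρ L hst := by
  obtain ⟨⟨h1, h2⟩, h3, h4⟩ := hX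
  refine ⟨⟨?_, fun g k => ?_⟩, fun w => ⟨_, h3 w, fun d => rfl⟩, fun w => ⟨_, h4 w, fun d => rfl⟩⟩
  · obtain ⟨r, hr, hopn⟩ := h.opn
    obtain ⟨W, hW, h5⟩ := h1 r hr
    exact ⟨W, hW, fun g w hw => mq_eq.2 (hopn _ (h5 g w hw))⟩
  · show mq T (X (g * k)) = mq T (X g) + actQ T (ρ g) (mq T (X k))
    rw [actQ_mq (hst g), ← mq_add, h2]

private theorem l17_closed (h : Lat b l t T) {Y : Type*} (V : Submodule E (Y → Fin n → E))
    [FiniteDimensional E V] (X : Y → Fin n → E) (a : ℕ → Y → Wq T)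
    (ha : ∀ k d, mq T (((l : E) ^ k)⁻¹ • X d) = a k d)
    (hV : ∀ k, ∃ Z ∈ V, ∀ d, a k d = mq T (Z d)) : X ∈ V := by
  refine fd_closed h V X fun k => ?_
  obtain ⟨Z, hZ, h1⟩ := hV k
  have hl : (l : E) ^ k ≠ 0 := pow_ne_zero _ h.lne
  refine ⟨Z, hZ, fun d => ⟨((l : E) ^ k)⁻¹ • X d - Z d, ?_, ?_⟩⟩
  · rw [← mq_eq, ha, h1]
  · rw [smul_sub, smul_smul, mul_inv_cancel₀ hl, one_smul]

private theorem l17_lift (H : ParH S SD j χ inv κ θ φ) (h : Lat b l t T)
    (hr : LocRep S χ T b ρ (fun g => ρ (κ g)))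
    (hL : ∀ w, ∀ X ∈ L w, ZV (SD w) (fun d => ρ (j w d)) X)
    (a : ℕ → selInf S SD j χ κ b ρ L hr.st) (ha : ∀ k, l • a (k + 1) = a k) :
    ∃ X ∈ selV S SD j χ κ b ρ L, ∀ g, mq T (X g) = (a 0 : G → Wq T) g := by
  obtain ⟨X, hX, h1⟩ := seq_lim h hr.st (fun k => (a k : G → Wq T)) (fun k => (a k).2.1)
    (fun k g => by
      have := congrArg (fun x : selInf S SD j χ κ b ρ L hr.st => (x : G → Wq T) g) (ha k)
      exact this)
  refine ⟨X, ⟨hX, fun w => ?_, fun w => ?_⟩, fun g => ?_⟩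
  · have f1 : FiniteDimensional E (zV (SD w) (fun d => ρ (j w d))) :=
      zV_fd (H.loc w).fin (by rw [map_one, hr.one]) (fun s u => by rw [map_mul, hr.mul])
    have f2 : L w ≤ zV (SD w) (fun d => ρ (j w d)) := fun X hX => hL w X hX
    have f3 : FiniteDimensional E (L w) := Submodule.finiteDimensional_of_le f2
    exact l17_closed h (L w) _ (fun k d => (a k : G → Wq T) (j w d)) (fun k d => h1 k (j w d))
      (fun k => (a k).2.2.1 w)
  · have f1 : FiniteDimensional E (zV (SD w) (fun d => ρ (κ (j w d)))) :=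
      zV_fd (H.loc w).fin (by rw [map_one, map_one, hr.one])
        (fun s u => by rw [map_mul, map_mul, hr.mul])
    have f2 : perpW SD j χ κ b ρ L w ≤ zV (SD w) (fun d => ρ (κ (j w d))) := fun X hX => hX.1
    have f3 : FiniteDimensional E (perpW SD j χ κ b ρ L w) := Submodule.finiteDimensional_of_le f2
    exact l17_closed h (perpW SD j χ κ b ρ L w) _ (fun k d => (a k : G → Wq T) (κ (j w d)))
      (fun k d => h1 k (κ (j w d))) (fun k => (a k).2.2.2 w)
  · have := h1 0 g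
    simpa using this

theorem card_div [IsLocalRing (OE E)] (H : ParH S SD j χ inv κ θ φ) (h : Lat b l t T)
    (hr : LocRep S χ T b ρ (fun g => ρ (κ g)))
    (hL : ∀ w, ∀ X ∈ L w, ZV (SD w) (fun d => ρ (j w d)) X)
    (hfin : ∀ N : ℕ, Finite (Submodule.torsionBy (OE E) (selInf S SD j χ κ b ρ L hr.st) (l ^ N))) :
    Nat.card {c : selInf S SD j χ κ b ρ L hr.st //
      l • c = 0 ∧ ∀ N : ℕ, ∃ a : selInf S SD j χ κ b ρ L hr.st, l ^ N • a = c} =
    Nat.card (IsLocalRing.ResidueField (OE E)) ^ Module.finrank E (selV S SD j χ κ b ρ L) := by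
  have hfd : FiniteDimensional E (selV S SD j χ κ b ρ L) := selV_fd H hr
  have h1 := card_lamN h 1 (selV S SD j χ κ b ρ L) (fun X hX => zv_bdd hX.1)
  rw [one_mul] at h1
  rw [← h1]
  have key : ∀ x : lamN T l 1 (selV S SD j χ κ b ρ L),
      (fun g => ((x : G → MN T l 1) g : Wq T)) ∈ selInf S SD j χ κ b ρ L hr.st := by
    intro x
    obtain ⟨X, hX, h2⟩ := x.2
    have h3 : (fun g => ((x : G → MN T l 1) g : Wq T)) = fun g => mq T (X g) := funext h2
    rw [h3]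
    exact l17_mq h hr.st hX
  let F : lamN T l 1 (selV S SD j χ κ b ρ L) → {c : selInf S SD j χ κ b ρ L hr.st //
      l • c = 0 ∧ ∀ N : ℕ, ∃ a : selInf S SD j χ κ b ρ L hr.st, l ^ N • a = c} := fun x =>
    ⟨⟨fun g => ((x : G → MN T l 1) g : Wq T), key x⟩, by
      apply Subtype.ext
      funext g
      have h5 := ((x : G → MN T l 1) g).mem
      have h6 : l • ((x : G → MN T l 1) g : Wq T) = l ^ 1 • ((x : G → MN T l 1) g : Wq T) := by
        congr 1
        exact (pow_one l).symm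
      exact h6.trans h5, by
      intro N
      obtain ⟨X, hX, h2⟩ := x.2
      refine ⟨⟨fun g => mq T (((l : E) ^ N)⁻¹ • X g),
        l17_mq h hr.st ((selV S SD j χ κ b ρ L).smul_mem (((l : E) ^ N)⁻¹) hX)⟩, ?_⟩
      apply Subtype.ext
      funext g
      show l ^ N • mq T (((l : E) ^ N)⁻¹ • X g) = ((x : G → MN T l 1) g : Wq T)
      rw [h2, ← mq_smul]
      push_cast
      rw [smul_smul, mul_inv_cancel₀ (pow_ne_zero _ h.lne), one_smul]⟩
  refine (Nat.card_congr (Equiv.ofBijective F ⟨fun x y hxy => ?_, fun c => ?_⟩)).symm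
  · apply Subtype.ext
    funext g
    apply Subtype.ext
    have h2 := congrArg (fun c : {c : selInf S SD j χ κ b ρ L hr.st //
      l • c = 0 ∧ ∀ N : ℕ, ∃ a : selInf S SD j χ κ b ρ L hr.st, l ^ N • a = c} =>
        (c.1 : G → Wq T) g) hxy
    exact h2
  · obtain ⟨c, hc, hd⟩ := c
    obtain ⟨a, ha0, ha⟩ := coherent l hfin hc hd
    obtain ⟨X, hX, h2⟩ := l17_lift H h hr hL a ha
    rw [ha0] at h2
    have h3 : ∀ g, (c : G → Wq T) g ∈ Submodule.torsionBy (OE E) (Wq T) (l ^ 1) := by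
      intro g
      rw [Submodule.mem_torsionBy_iff, pow_one]
      have := congrArg (fun x : selInf S SD j χ κ b ρ L hr.st => (x : G → Wq T) g) hc
      exact this
    refine ⟨⟨fun g => ⟨(c : G → Wq T) g, h3 g⟩, X, hX, fun g => (h2 g).symm⟩, ?_⟩
    apply Subtype.ext
    apply Subtype.ext
    rfl

end Pool.Agent.Work.MP_787500_nt.GP
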