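import Mathlib
import Pool.Agent.Work.MP_787500_nt.GP.FinDefs
import Pool.Agent.Work.MP_787500_nt.GP.LDefs
import Pool.Agent.Work.MP_787500_nt.Gn.Stab
import Pool.Agent.Work.MP_787500_nt.Gn.RhoB

/-!
# Module L20B_LOC: continuous cochains of a local group are uniformly continuous for the system
-/

set_option autoImplicit false
set_option linter.unusedSectionVars false

namespace Pool.Agent.Work.MP_787500_nt.GP

open Matrix
open Pool.Agent.Work.MP_787500_nt.PA (TwoSys Sm1 Sm2 homs Coc Cob IsChar toE)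
open Pool.Agent.Work.MP_787500_nt.Gn (GoodG)

variable {G : Type*} [Group G] [TopologicalSpace G] [IsTopologicalGroup G] [CompactSpace G]
  {I : Set G} {D : Subgroup G} {SD : TwoSys D}

/-- hypotheses at one place -/
structure LocS (I : Set G) (D : Subgroup G) (SD : TwoSys D) : Prop where
  base : Gn.Base (⊤ : Subgroup G) I
  basis : ∀ O ∈ nhds (1 : G), ∃ U : Subgroup G, IsOpen (U : Set G) ∧ (U : Set G) ⊆ O
  closed : IsClosed (D : Set G)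
  mem : ∀ W' : Subgroup D, SD.mem W' ↔ ∃ W, GoodG 2 ⊤ I W ∧ W' = W.subgroupOf D
  nohom : ∀ μ : G → ZMod 2,
    (∀ g ∈ D ⊓ Gn.core 2 ⊤ I, ∀ h ∈ D ⊓ Gn.core 2 ⊤ I, μ (g * h) = μ g + μ h) →
    (∃ U' : Subgroup G, IsOpen (U' : Set G) ∧ ∀ g ∈ D ⊓ Gn.core 2 ⊤ I ⊓ U', μ g = 0) →
    ∀ g ∈ D ⊓ Gn.core 2 ⊤ I, μ g = 0

private theorem l20_homE (hS : LocS I D SD)
    {E : Type*} [NormedField E] [NormedAlgebra ℚ_[2] E] [FiniteDimensional ℚ_[2] E]
    (μ : G → E)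
    (hmul : ∀ g ∈ D ⊓ Gn.core 2 ⊤ I, ∀ h ∈ D ⊓ Gn.core 2 ⊤ I, μ (g * h) = μ g + μ h)
    (hcont : ContinuousOn μ ((D ⊓ Gn.core 2 ⊤ I : Subgroup G) : Set G))
    {g : G} (hg : g ∈ D ⊓ Gn.core 2 ⊤ I) : μ g = 0 := by
  classical
  by_contra hne
  obtain ⟨φ, hφ⟩ : ∃ φ : Module.Dual ℚ_[2] E, φ (μ g) ≠ 0 := by
    by_contra hcon
    push Not at hcon
    exact hne ((Module.forall_dual_apply_eq_zero_iff ℚ_[2] (μ g)).1 hcon)
  have hφc : Continuous φ := LinearMap.continuous_of_finiteDimensional φ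
  have hPc : IsClosed ((D ⊓ Gn.core 2 ⊤ I : Subgroup G) : Set G) := by
    rw [Subgroup.coe_inf]
    exact hS.closed.inter Gn.core_closed
  have hPk : IsCompact ((D ⊓ Gn.core 2 ⊤ I : Subgroup G) : Set G) := hPc.isCompact
  have hfc : ContinuousOn (fun g => φ (μ g))
      ((D ⊓ Gn.core 2 ⊤ I : Subgroup G) : Set G) := hφc.comp_continuousOn hcont
  obtain ⟨g₁, hg₁, hmax⟩ := hPk.exists_isMaxOn ⟨g, hg⟩ hfc.norm
  have hmax' : ∀ h ∈ D ⊓ Gn.core 2 ⊤ I, ‖φ (μ h)‖ ≤ ‖φ (μ g₁)‖ := fun h hh => hmax hh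
  have hne1 : φ (μ g₁) ≠ 0 := by
    intro h
    have h1 := hmax' g hg
    rw [h, norm_zero] at h1
    exact hφ (norm_le_zero_iff.1 h1)
  let x : G → ℚ_[2] := fun h => φ (μ h) / φ (μ g₁)
  have hx1 : ∀ h ∈ D ⊓ Gn.core 2 ⊤ I, ‖x h‖ ≤ 1 := by
    intro h hh
    show ‖φ (μ h) / φ (μ g₁)‖ ≤ 1
    rw [norm_div, div_le_one (norm_pos_iff.2 hne1)]
    exact hmax' h hh
  have hxadd : ∀ a ∈ D ⊓ Gn.core 2 ⊤ I, ∀ b ∈ D ⊓ Gn.core 2 ⊤ I, x (a * b) = x a + x b := by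
    intro a ha b hb
    show φ (μ (a * b)) / φ (μ g₁) = φ (μ a) / φ (μ g₁) + φ (μ b) / φ (μ g₁)
    rw [hmul a ha b hb, map_add, add_div]
  have hy : ∀ h ∈ D ⊓ Gn.core 2 ⊤ I, ∃ y : ℤ_[2], (y : ℚ_[2]) = x h :=
    fun h hh => ⟨⟨x h, hx1 h hh⟩, rfl⟩
  choose! y hy using hy
  let μ' : G → ZMod 2 := fun h => PadicInt.toZMod (y h)
  have hadd : ∀ a ∈ D ⊓ Gn.core 2 ⊤ I, ∀ b ∈ D ⊓ Gn.core 2 ⊤ I, μ' (a * b) = μ' a + μ' b := by
    intro a ha b hb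
    show PadicInt.toZMod (y (a * b)) = PadicInt.toZMod (y a) + PadicInt.toZMod (y b)
    rw [← map_add]
    congr 1
    apply Subtype.ext
    rw [PadicInt.coe_add, hy a ha, hy b hb]
    exact (hy _ ((D ⊓ Gn.core 2 ⊤ I).mul_mem ha hb)).trans (hxadd a ha b hb)
  have hx0 : x 1 = 0 := by
    have h1 := hxadd 1 (Subgroup.one_mem _) 1 (Subgroup.one_mem _)
    rw [mul_one] at h1
    have : x 1 + 0 = x 1 + x 1 := by rw [add_zero]; exact h1
    exact (add_left_cancel this).symm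
  have hcont' : ∃ U' : Subgroup G, IsOpen (U' : Set G) ∧
      ∀ g ∈ D ⊓ Gn.core 2 ⊤ I ⊓ U', μ' g = 0 := by
    have hxc : ContinuousWithinAt (fun h => ‖x h‖)
        ((D ⊓ Gn.core 2 ⊤ I : Subgroup G) : Set G) 1 :=
      ((hfc.div_const _).norm) 1 (Subgroup.one_mem _)
    have h1 : {h | ‖x h‖ < 1} ∈ nhdsWithin (1 : G)
        ((D ⊓ Gn.core 2 ⊤ I : Subgroup G) : Set G) := by
      refine hxc (Iio_mem_nhds ?_)
      show ‖x 1‖ < 1
      rw [hx0, norm_zero]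
      exact one_pos
    rw [mem_nhdsWithin_iff_exists_mem_nhds_inter] at h1
    obtain ⟨O, hO, hO'⟩ := h1
    obtain ⟨F, hF1, hF2⟩ := hS.basis _ hO
    refine ⟨F, hF1, ?_⟩
    rintro h ⟨hh, hh'⟩
    have h2 : ‖x h‖ < 1 := hO' ⟨hF2 hh', hh⟩
    have h3 : y h ∈ RingHom.ker (PadicInt.toZMod (p := 2)) := by
      rw [PadicInt.ker_toZMod]
      rw [IsLocalRing.mem_maximalIdeal, PadicInt.mem_nonunits, PadicInt.norm_def, hy h hh]
      exact h2
    exact h3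
  have h1 := hS.nohom μ' hadd hcont' g₁ hg₁
  have h2 : y g₁ = 1 := by
    apply Subtype.ext
    rw [PadicInt.coe_one]
    exact (hy g₁ hg₁).trans (div_self hne1)
  have h3 : PadicInt.toZMod (y g₁) = 0 := h1
  rw [h2, map_one] at h3
  exact one_ne_zero h3

variable {E : Type*} [NormedField E] [NormedAlgebra ℚ_[2] E] [FiniteDimensional ℚ_[2] E] {n : ℕ}

/-- a continuous function on `D` that is additive on the core vanishes on the core -/
theorem LocS.zero (hS : LocS I D SD) {z : D → E} (hz : Continuous z)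
    (hmul : ∀ s t : D, (s : G) ∈ Gn.core 2 ⊤ I → (t : G) ∈ Gn.core 2 ⊤ I →
      z (s * t) = z s + z t) (k : D) (hk : (k : G) ∈ Gn.core 2 ⊤ I) : z k = 0 := by
  classical
  set μ : G → E := fun g => if h : g ∈ D then z ⟨g, h⟩ else 0 with hμ
  have hμ1 : ∀ (g : G) (h : g ∈ D), μ g = z ⟨g, h⟩ := fun g h => dif_pos h
  have h1 : μ k = 0 := by
    refine l20_homE hS μ ?_ ?_ ⟨k.2, hk⟩
    · intro g hg h hh
      have h2 : (⟨g * h, mul_mem hg.1 hh.1⟩ : D) = ⟨g, hg.1⟩ * ⟨h, hh.1⟩ := rfl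
      rw [hμ1 g hg.1, hμ1 h hh.1, hμ1 _ (mul_mem hg.1 hh.1), h2]
      exact hmul _ _ hg.2 hh.2
    · rw [continuousOn_iff_continuous_domRestrict]
      have h3 : ((D ⊓ Gn.core 2 ⊤ I : Subgroup G) : Set G).domRestrict μ =
          fun a => z ⟨a.1, a.2.1⟩ := by
        funext a
        exact hμ1 _ a.2.1
      rw [h3]
      exact hz.comp (Continuous.subtype_mk continuous_subtype_val _)
  rw [hμ1 k k.2] at h1
  exact h1

theorem LocS.stab (hS : LocS I D SD) {U' : Subgroup G} (hU' : IsOpen (U' : Set G)) :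
    ∃ W : Subgroup G, GoodG 2 ⊤ I W ∧
      ∀ d ∈ D ⊓ W, ∃ d₀ ∈ D ⊓ Gn.core 2 ⊤ I, d₀⁻¹ * d ∈ U' := by
  by_contra hcon
  push Not at hcon
  let C : Set G := {d | d ∈ D ∧ ∀ d₀ ∈ D ⊓ Gn.core 2 ⊤ I, d₀⁻¹ * d ∉ U'}
  have hC : IsClosed C := by
    have h1 : C = (D : Set G) ∩
        ⋂ d₀ : ↥(D ⊓ Gn.core 2 ⊤ I), {d : G | (d₀ : G)⁻¹ * d ∈ U'}ᶜ := by
      ext d
      simp only [C, Set.mem_ofPred_eq, Set.mem_inter_iff, Set.mem_iInter, Set.mem_compl_iff,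
        SetLike.mem_coe, Subtype.forall]
    rw [h1]
    refine hS.closed.inter (isClosed_iInter fun d₀ => ?_)
    exact (hU'.preimage (continuous_const.mul continuous_id)).isClosed_compl
  let t : {W : Subgroup G // GoodG 2 ⊤ I W} → Set G := fun W => C ∩ W.1
  have hcl : ∀ W, IsClosed (t W) := fun W =>
    hC.inter (Subgroup.isClosed_of_isOpen W.1 W.2.isOpen)
  have hne : Nonempty {W : Subgroup G // GoodG 2 ⊤ I W} := ⟨⟨⊤, GoodG.top hS.base⟩⟩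
  have h := IsCompact.nonempty_iInter_of_directed_nonempty_isCompact_isClosed t
    (fun W W' => ⟨⟨W.1 ⊓ W'.1, W.2.inf W'.2⟩, fun d hd => ⟨hd.1, hd.2.1⟩,
      fun d hd => ⟨hd.1, hd.2.2⟩⟩)
    (fun W => by
      obtain ⟨d, hd, hd'⟩ := hcon W.1 W.2
      exact ⟨d, ⟨hd.1, hd'⟩, hd.2⟩)
    (fun W => (hcl W).isCompact) hcl
  obtain ⟨d, hd⟩ := h
  rw [Set.mem_iInter] at hd
  have h1 : d ∈ C := (hd ⟨⊤, GoodG.top hS.base⟩).1
  have h2 : d ∈ Gn.core 2 ⊤ I := by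
    rw [Gn.core, Subgroup.mem_sInf]
    intro W hW
    exact (hd ⟨W, hW⟩).2
  refine h1.2 d ⟨h1.1, h2⟩ ?_
  rw [inv_mul_cancel]
  exact U'.one_mem

theorem LocS.n1 (hS : LocS I D SD) {A : Type*} [NormedAddCommGroup A] {z : D → A}
    (hz : Continuous z) (hk : ∀ d k : D, (k : G) ∈ Gn.core 2 ⊤ I → z (d * k) = z d) :
    PA.N1 SD z := by
  intro ε hε
  obtain ⟨U', hU', hu⟩ := Gn.stab_unif hS.basis hS.closed z hz hε
  obtain ⟨W, hW, hst⟩ := hS.stab hU'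
  refine ⟨W.subgroupOf D, (hS.mem _).2 ⟨W, hW, rfl⟩, fun d w hw => ?_⟩
  obtain ⟨d₀, hd₀, hd₀'⟩ := hst w ⟨w.2, Subgroup.mem_subgroupOf.1 hw⟩
  have h1 := hu (d * ⟨d₀, hd₀.1⟩) (⟨d₀, hd₀.1⟩⁻¹ * w) hd₀'
  rw [hk d ⟨d₀, hd₀.1⟩ hd₀.2] at h1
  have h2 : d * ⟨d₀, hd₀.1⟩ * (⟨d₀, hd₀.1⟩⁻¹ * w) = d * w := by group
  rwa [h2] at h1

theorem LocS.cont (hS : LocS I D SD) {A : Type*} [NormedAddCommGroup A] {z : D → A}
    (hz : PA.N1 SD z) : Continuous z := by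
  rw [continuous_iff_continuousAt]
  intro g
  rw [Metric.continuousAt_iff']
  intro ε hε
  obtain ⟨W', hW', hsm⟩ := hz ε hε
  obtain ⟨W, hW, rfl⟩ := (hS.mem _).1 hW'
  have h1 : {x : D | (g : G)⁻¹ * x ∈ W} ∈ nhds g := by
    have h2 : IsOpen {x : D | (g : G)⁻¹ * x ∈ W} :=
      hW.isOpen.preimage (continuous_const.mul continuous_subtype_val)
    refine h2.mem_nhds ?_
    change (g : G)⁻¹ * g ∈ W
    rw [inv_mul_cancel]
    exact W.one_mem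
  filter_upwards [h1] with x hx
  have h3 := hsm g (g⁻¹ * x) (Subgroup.mem_subgroupOf.2 hx)
  rw [mul_inv_cancel_left] at h3
  rwa [dist_eq_norm]

theorem LocS.n1_core (hS : LocS I D SD) {A : Type*} [NormedAddCommGroup A] {z : D → A}
    (hz : PA.N1 SD z) (d k : D) (hk : (k : G) ∈ Gn.core 2 ⊤ I) : z (d * k) = z d := by
  rw [← sub_eq_zero, ← norm_le_zero_iff]
  refine le_of_forall_pos_le_add fun ε hε => ?_
  obtain ⟨W', hW', hsm⟩ := hz ε hε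
  obtain ⟨W, hW, rfl⟩ := (hS.mem _).1 hW'
  rw [zero_add]
  exact (hsm d k (Subgroup.mem_subgroupOf.2 (Gn.core_le hW hk))).le

/-- continuous cocycles are uniformly continuous for the system -/
theorem LocS.coc (hS : LocS I D SD) {A : D → Matrix (Fin n) (Fin n) E}
    (hA : ∀ k : D, (k : G) ∈ Gn.core 2 ⊤ I → A k = 1) {x : D → Fin n → E} :
    Parity.IsCocycle A x ↔ ZV SD A x := by
  constructor
  · rintro ⟨hc, hx⟩
    have hzero : ∀ k : D, (k : G) ∈ Gn.core 2 ⊤ I → x k = 0 := by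
      intro k hk
      funext i
      refine hS.zero (z := fun d => x d i) ((continuous_apply i).comp hc) (fun s t hs _ => ?_) k hk
      show x (s * t) i = _
      rw [hx, hA s hs, one_mulVec]
      rfl
    exact ⟨hS.n1 hc fun d k hk => by rw [hx, hzero k hk, mulVec_zero, add_zero], hx⟩
  · rintro ⟨h1, hx⟩
    exact ⟨hS.cont h1, hx⟩

theorem zv_one {A : D → Matrix (Fin n) (Fin n) E} (hA : A 1 = 1) {x : D → Fin n → E}
    (hx : ZV SD A x) : x 1 = 0 := by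
  have h := hx.2 1 1
  rw [mul_one, hA, one_mulVec] at h
  exact left_eq_add.1 h

theorem LocS.zv_core (hS : LocS I D SD) {A : D → Matrix (Fin n) (Fin n) E} (hA : A 1 = 1)
    {x : D → Fin n → E} (hx : ZV SD A x) (k : D) (hk : (k : G) ∈ Gn.core 2 ⊤ I) : x k = 0 := by
  have h := hS.n1_core hx.1 1 k hk
  rwa [one_mul, zv_one hA hx] at h

/-- coboundaries of continuous functions -/
theorem LocS.cob (hS : LocS I D SD) {χ : D → ℤ_[2]}
    (hχ : ∀ k : D, (k : G) ∈ Gn.core 2 ⊤ I → χ k = 1) {A B : D → Matrix (Fin n) (Fin n) E}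
    (hA : A 1 = 1) (hB : B 1 = 1) {b : Matrix (Fin n) (Fin n) E} {x y : D → Fin n → E}
    (hx : ZV SD A x) (hy : ZV SD B y) :
    (∃ z : D → E, Continuous z ∧
      ∀ σ τ, x σ ⬝ᵥ (b *ᵥ (B σ *ᵥ y τ)) = z σ + toE E (χ σ) * z τ - z (σ * τ)) ↔
      PA.BE SD χ (cupE B b x y) := by
  constructor
  · rintro ⟨z, hz, h⟩
    have hzero : ∀ k : D, (k : G) ∈ Gn.core 2 ⊤ I → z k = 0 := by
      refine hS.zero hz fun s t hs _ => ?_
      have h1 := h s t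
      rw [hS.zv_core hA hx s hs, zero_dotProduct, hχ s hs] at h1
      have h2 : toE E (1 : ℤ_[2]) = 1 := by simp [toE]
      rw [h2, one_mul] at h1
      linear_combination h1
    refine ⟨z, hS.n1 hz fun d k hk => ?_, ?_⟩
    · have h1 := h d k
      rw [hS.zv_core hB hy k hk, mulVec_zero, mulVec_zero, dotProduct_zero, hzero k hk] at h1
      linear_combination h1
    · funext s t
      exact h s t
  · rintro ⟨z, hz, h⟩
    exact ⟨z, hS.cont hz, fun s t => congrFun (congrFun h s) t⟩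

theorem LocS.perp (hS : LocS I D SD) {χ : D → ℤ_[2]}
    (hχ : ∀ k : D, (k : G) ∈ Gn.core 2 ⊤ I → χ k = 1) {A B : D → Matrix (Fin n) (Fin n) E}
    (hA : ∀ k : D, (k : G) ∈ Gn.core 2 ⊤ I → A k = 1)
    (hB : ∀ k : D, (k : G) ∈ Gn.core 2 ⊤ I → B k = 1) {b : Matrix (Fin n) (Fin n) E}
    {L : Submodule E (D → Fin n → E)} (hL : ∀ x ∈ L, Parity.IsCocycle A x)
    {y : D → Fin n → E} :
    Parity.IsPerp (fun σ => toE E (χ σ)) B b (L : Set (D → Fin n → E)) y ↔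
      PerpV SD χ b B L y := by
  have h1 : ((1 : D) : G) ∈ Gn.core 2 ⊤ I := Subgroup.one_mem _
  constructor
  · rintro ⟨h2, h3⟩
    have h2' := (hS.coc hB).1 h2
    exact ⟨h2', fun x hx => (hS.cob hχ (hA 1 h1) (hB 1 h1) ((hS.coc hA).1 (hL x hx)) h2').1
      (h3 x hx)⟩
  · rintro ⟨h2, h3⟩
    exact ⟨(hS.coc hB).2 h2, fun x hx =>
      (hS.cob hχ (hA 1 h1) (hB 1 h1) ((hS.coc hA).1 (hL x hx)) h2).2 (h3 x hx)⟩

end Pool.Agent.Work.MP_787500_nt.GP
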