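import Mathlib
import Pool.Agent.Work.MP_787500_nt.GP.FinDefs
import Pool.Agent.Work.MP_787500_nt.GP.ADefs
import Pool.Agent.Work.MP_787500_nt.GP.L18_ParV
import Pool.Agent.Work.MP_787500_nt.GP.L07_LatDual
import Pool.Agent.Work.MP_787500_nt.Gn.Final
import Pool.Agent.Work.MP_787500_nt.GP.L04_Func
import Pool.Agent.Work.MP_787500_nt.GP.L20a_Dim
import Pool.Agent.Work.MP_787500_nt.GP.L20b_Loc

/-!
# Module L20_FINAL (size XL): from the hypotheses of the arithmetic part to the parity formula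

Given: `G` compact, `S` the system of the subgroups `W` with `GoodG 2 ⊤ I W`, closed subgroups `D w` with the
systems `SD w` of the subgroups `W.subgroupOf (D w)`, the hypotheses `ParH` for the inclusions
`D w → G`, `χ θ = -1`, and `hnh`: no nonzero continuous homomorphisms from `D w ⊓ core` to `ZMod 2`.
`ρ` satisfies `ConjDual 2 ⊤ I` (`Gn/Defs.lean`) and `b.det ≠ 0`.

1. Smallness: `Gn.small_rho`, `Gn.rho_N1`, `Gn.rho_bound` give `SmallRep S ρ` (`L05_Lat0.lean`), and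
`LocRep S χ T b ρ (fun g => ρ (κ g))` for a lattice stable under all `ρ g` (`sm'` from `ParH.ksys`;
`dual`: `bil b (ρ g x) (ρ (κ g) y) = χ g bil b x y` from `hρ.dual`).
2. `exists_unif`, `isLocal`, `exists_func` (`L03`, `L04`), `exists_lattice` (`L07`, with `hχθ`, and
`ρ θ * ρ (κ θ) = 1` from `ParH.tk`: `θ * κ θ ∈ core`, `Gn.rho_core`) give `Lat b l t T`; `hal` by `alt_V`.
3. The restriction to `D w`: a continuous cocycle `X : D w → E ^ n` is `N1` for `SD w`: the restriction of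
`X` to `D w ⊓ core` is a continuous homomorphism to `E ^ n` (`ρ = 1` on the core), hence 0: same proof
as `Gn.no_homE` (`Gn/NoHom.lean`) with `hnh` in place of the hypothesis `Setup.loc`; so
`X (d k) = X d` for `k ∈ core`. Then, by compactness, for every `ε` there is `W` with
`‖X (d w) - X d‖ < ε` for `w ∈ D w ⊓ W`: `Gn.stab_unif`, and `Gn.stab` (whose proof only uses that `D` is closed
and compactness: for every open `U'` there is `W` such that every element of `D ⊓ W` is in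
`(D ⊓ core) U'`). The same for continuous functions `z : D w → E` with
`x s ⬝ᵥ b (ρ (κ s) y t) = z s + χ s z t - z (s t)` for `N1` cocycles `x`, `y`: such `z` is additive on
`D w ⊓ core`, hence 0 there, and invariant under `D w ⊓ core`; this gives
`IsPerp χ (ρ ∘ κ) b L y ↔ PerpV (SD w) χ b (ρ ∘ κ) L y` for `L` between coboundaries and cocycles (conversely
`N1` functions on `D w` are continuous: `W.subgroupOf (D w)` is open).
So `Between (coboundaries) (L w) (cocycles)` gives `hL`, `hL0` of `parV`; and, with `Gn.small_x` (a continuous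
cocycle of `G` that vanishes on `I` is `N1`) and its converse (`N1` cocycles are continuous and vanish on
`core ⊇ I`), `selmerF I χ κ ρ b D L = selV S SD j χ κ b ρ L` (as submodules; `j w` the inclusion).
4. `parV`: `Even (finrank selV + ∑ w, finrank (L w))`.
5. `dimModulo M B + finrank B = finrank M` for `B ≤ M` finite dimensional
(`Submodule.finrank_quotient_add_finrank`, `B.submoduleOf M ≃ B`), and
`finrank (coboundaries A) + finrank (fixedBy A) = n` (rank-nullity for `v ↦ (σ ↦ A σ v - v)`). So the number in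
the claim is congruent to `finrank selV - n + ∑ w (finrank (L w) - n)` plus twice the dimensions of the
fixed spaces, modulo 2; and `n` is even: the form `(x, y) ↦ bil b x (ρ θ y)` is alternating (`alt_V`) and
nondegenerate (`b.det ≠ 0`, `ρ θ` invertible), so `n` is even (for example `Matrix.det` of a
skew-symmetric matrix of odd size in characteristic 0 is 0: `det Aᵀ = det (-A) = (-1) ^ n det A`).
Finite dimension: `selV_fd`, `zV_fd`. `coboundaries ρ ≤ selmerF`: `cob_perpV`, `hL`.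
-/

set_option autoImplicit false
set_option linter.unusedSectionVars false

namespace Pool.Agent.Work.MP_787500_nt.GP

open IsDedekindDomain NumberField
open Pool.Agent.Work.MP_787500_nt.PA (TwoSys Sm1 Sm2 homs Coc Cob IsChar goodSys core cyc Opn SU)
open Pool.Agent.Work.MP_787500_nt.Gn (GoodG)

open Matrix
open Pool.Agent.Work.MP_787500_nt.PA (toE)

theorem final_gn {G : Type*} [Group G] [TopologicalSpace G] [IsTopologicalGroup G] [CompactSpace G]
    {I : Set G} (hB : Gn.Base (⊤ : Subgroup G) I)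
    (hbasis : ∀ O ∈ nhds (1 : G), ∃ U : Subgroup G, IsOpen (U : Set G) ∧ (U : Set G) ⊆ O)
    {S : TwoSys G} (hS : ∀ W, S.mem W ↔ GoodG 2 ⊤ I W) {Φ : Type*} [Fintype Φ]
    {D : Φ → Subgroup G} (hD : ∀ w, IsClosed (D w : Set G)) {SD : ∀ w, TwoSys (D w)}
    (hSD : ∀ w (W' : Subgroup (D w)), (SD w).mem W' ↔
      ∃ W, GoodG 2 ⊤ I W ∧ W' = W.subgroupOf (D w))
    {χ : G → ℤ_[2]} {κ : G →* G} (hκ : Continuous κ) {θ φ : G}
    {inv : ∀ w, (D w → D w → A0) → A0}
    (H : ParH S SD (fun w => (D w).subtype) χ inv κ θ φ) (hχθ : χ θ = -1)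
    (hnh : ∀ w (μ : G → ZMod 2),
      (∀ g ∈ D w ⊓ Gn.core 2 ⊤ I, ∀ h ∈ D w ⊓ Gn.core 2 ⊤ I, μ (g * h) = μ g + μ h) →
      (∃ U' : Subgroup G, IsOpen (U' : Set G) ∧ ∀ g ∈ D w ⊓ Gn.core 2 ⊤ I ⊓ U', μ g = 0) →
      ∀ g ∈ D w ⊓ Gn.core 2 ⊤ I, μ g = 0)
    {E : Type*} [NormedField E] [NormedAlgebra ℚ_[2] E] [FiniteDimensional ℚ_[2] E] {n : ℕ}
    {ρ : G →* Matrix (Fin n) (Fin n) E} {b : Matrix (Fin n) (Fin n) E} (hb : b.det ≠ 0)
    (hρ : Gn.ConjDual 2 (⊤ : Subgroup G) I (fun g => toE E (χ g)) κ ρ b) :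
    Parity.ParityFormula I (fun g => toE E (χ g)) κ ρ b D := by
  have hcoreχ : ∀ k ∈ Gn.core 2 ⊤ I, χ k = 1 := by
    intro k hk
    have hC := H.glob.char
    refine PadicInt.ext_of_toZModPow.mp fun m => ?_
    rw [← sub_eq_zero, ← map_sub, ← RingHom.mem_ker, PadicInt.ker_toZModPow,
      Ideal.mem_span_singleton]
    obtain ⟨W, hW, h1⟩ := hC.cont m
    have h2 := h1 1 k (Gn.core_le ((hS W).1 hW) hk)
    rw [one_mul, hC.one] at h2
    exact_mod_cast h2
  have hloc : ∀ w, LocS I (D w) (SD w) := fun w => ⟨hB, hbasis, hD w, hSD w, hnh w⟩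
  have hρc : ∀ k ∈ Gn.core 2 ⊤ I, ρ k = 1 := fun k hk => Gn.rho_core hB hρ hk
  have hκc : ∀ k ∈ Gn.core 2 ⊤ I, κ k ∈ Gn.core 2 ⊤ I := by
    intro k hk
    rw [Gn.core, Subgroup.mem_sInf]
    intro W hW
    obtain ⟨W', hW', h⟩ := H.ksys W ((hS W).2 hW)
    exact h k (Gn.core_le ((hS W').1 hW') hk)
  have hsm : ∀ ε : ℝ, 0 < ε → ∃ W, S.mem W ∧ ∀ w ∈ W, ∀ x : Fin n → E,
      ‖ρ w *ᵥ x - x‖ ≤ ε * ‖x‖ := by
    intro ε hε
    obtain ⟨W, hW, h⟩ := Gn.rho_N1 hB hρ hε
    refine ⟨W, (hS W).2 hW, fun w hw x => ?_⟩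
    have h1 := h 1 w hw x
    rwa [one_mul, map_one, one_mulVec] at h1
  have hsm' : ∀ ε : ℝ, 0 < ε → ∃ W, S.mem W ∧ ∀ w ∈ W, ∀ x : Fin n → E,
      ‖ρ (κ w) *ᵥ x - x‖ ≤ ε * ‖x‖ := by
    intro ε hε
    obtain ⟨W, hW, h⟩ := hsm ε hε
    obtain ⟨W', hW', h'⟩ := H.ksys W hW
    exact ⟨W', hW', fun w hw x => h _ (h' w hw) x⟩
  have hd : ∀ (g : G) (x y : Fin n → E),
      bil b (ρ g *ᵥ x) (ρ (κ g) *ᵥ y) = toE E (χ g) * bil b x y := by
    intro g x y
    unfold bil
    rw [← vecMul_transpose, ← dotProduct_mulVec, mulVec_mulVec, mulVec_mulVec,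
      hρ.dual, smul_mulVec, dotProduct_smul, smul_eq_mul]
  have hθc : θ * κ θ ∈ Gn.core 2 ⊤ I := by
    rw [Gn.core, Subgroup.mem_sInf]
    intro W hW
    exact H.tk W ((hS W).2 hW)
  have hθ' : ρ θ * ρ (κ θ) = 1 := by
    rw [← map_mul]
    exact hρc _ hθc
  have hal : ∀ x : Fin n → E, bil b x (ρ θ *ᵥ x) = 0 := fun x =>
    alt_V hρ.symm (κ := κ) hd hχθ hθ' x
  obtain ⟨T, hst, hdual, hbdd, hopn⟩ := exists_lattice (S := S) (ρ := fun g => ρ g)
    ⟨map_one ρ, map_mul ρ, hsm⟩ hb hρ.symm H.glob.char H.kk hd hχθ hθ'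
  obtain ⟨l, hl0, hl1, hlm⟩ := exists_unif E
  obtain ⟨t, ht1, ht2, ht3⟩ := exists_func E
  have hlat : Lat b l t T := ⟨hl0, hl1, hlm, ht1, ht2, ht3, hρ.symm, hdual, hbdd, hopn⟩
  have hrep : LocRep S χ T b (fun g => ρ g) (fun g => ρ (κ g)) :=
    { one := map_one ρ
      mul := map_mul ρ
      one' := by rw [map_one, map_one]
      mul' := fun s u => by rw [map_mul, map_mul]
      st := hst
      st' := fun g => hst (κ g)
      sm := hsm
      sm' := hsm'
      dual := hd }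
  intro L hL
  have hLZ : ∀ w, ∀ X ∈ L w, ZV (SD w) (fun d => ρ ((D w).subtype d)) X := fun w X hX =>
    ((hloc w).coc (A := fun d : D w => ρ d) (fun k hk => hρc _ hk)).1 ((hL w).2 hX)
  have hL0 : ∀ w v, (fun d => ρ ((D w).subtype d) *ᵥ v - v) ∈ L w := fun w v =>
    (hL w).1 ⟨v, fun σ => rfl⟩
  have hev := parV (ρ := fun g => ρ g) H hlat hrep hal hLZ hL0
  have hsel : Parity.selmerF I (fun g => toE E (χ g)) κ ρ b D L =
      selV S SD (fun w => (D w).subtype) χ κ b (fun g => ρ g) L := by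
    have hzz : ∀ X : G → Fin n → E, (Parity.IsCocycle ρ X ∧ ∀ σ ∈ I, X σ = 0) ↔
        ZV S (fun g => ρ g) X := by
      intro X
      constructor
      · rintro ⟨⟨h1, h2⟩, h3⟩
        obtain ⟨h4, h5⟩ := Gn.small_x hB hρ h1 h2 h3
        refine ⟨fun ε hε => ?_, h5⟩
        obtain ⟨W, hW, h6⟩ := h4 ε hε
        exact ⟨W, (hS W).2 hW, h6⟩
      · rintro ⟨h4, h5⟩
        have h6 : X ∈ Gn.Zgd hB 2 ρ := by
          refine ⟨fun ε hε => ?_, h5⟩
          obtain ⟨W, hW, h6⟩ := h4 ε hε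
          exact ⟨W, (hS W).1 hW, h6⟩
        exact ⟨⟨Gn.zg_continuous h6, h5⟩, fun σ hσ => Gn.zg_inertia h6 hσ⟩
    have hpp : ∀ w (y : D w → Fin n → E),
        Parity.IsPerp (fun σ : D w => toE E (χ σ)) (fun σ : D w => ρ (κ σ)) b (L w) y ↔
        PerpV (SD w) (fun d => χ ((D w).subtype d)) b (fun d => ρ (κ ((D w).subtype d))) (L w) y :=
      fun w y => (hloc w).perp (χ := fun d : D w => χ d) (A := fun d : D w => ρ d)
        (B := fun d : D w => ρ (κ d)) (fun k hk => hcoreχ _ hk) (fun k hk => hρc _ hk)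
        (fun k hk => hρc _ (hκc _ hk)) (fun x hx => (hL w).2 hx)
    ext X
    constructor
    · rintro ⟨h1, h2, h3⟩
      exact ⟨(hzz X).1 ⟨h1, h2⟩, fun w => (h3 w).1, fun w => (hpp w _).1 (h3 w).2⟩
    · rintro ⟨h1, h2, h3⟩
      obtain ⟨h4, h5⟩ := (hzz X).2 h1
      exact ⟨h4, h5, fun w => ⟨h2 w, (hpp w _).2 (h3 w)⟩⟩
  have hfd : ∀ w, FiniteDimensional E (L w) := by
    intro w
    have h1 : FiniteDimensional E (zV (SD w) (fun d : D w => ρ d)) :=
      zV_fd (H.loc w).fin (map_one ρ) (fun s u => map_mul ρ _ _)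
    have h2 : L w ≤ zV (SD w) (fun d : D w => ρ d) := fun X hX => hLZ w X hX
    exact Submodule.finiteDimensional_of_le h2
  have hfs : FiniteDimensional E
      (selV S SD (fun w => (D w).subtype) χ κ b (fun g => ρ g) L) := selV_fd H hrep
  have hcs : Parity.coboundaries ρ ≤ Parity.selmerF I (fun g => toE E (χ g)) κ ρ b D L := by
    rintro X ⟨v, hv⟩
    rw [hsel]
    obtain rfl : X = fun g => ρ g *ᵥ v - v := funext hv
    have h1 : (fun g => ρ g *ᵥ v - v) ∈ Gn.Zgd hB 2 ρ := Gn.cob_mem hB hρ ⟨v, fun _ => rfl⟩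
    refine ⟨⟨fun ε hε => ?_, h1.2⟩, fun w => hL0 w v, fun w => ?_⟩
    · obtain ⟨W, hW, h6⟩ := h1.1 ε hε
      exact ⟨W, (hS W).2 hW, h6⟩
    · exact cob_perpV (locRep_of H hrep w) (hLZ w) v
  have hchar : CharZero E := charZero_of_injective_algebraMap (algebraMap ℚ_[2] E).injective
  have hn : Even n := even_n hb (A := ρ θ) (by
    intro h
    have h1 := congrArg Matrix.det hθ'
    rw [det_mul, h, zero_mul, det_one] at h1
    exact zero_ne_one h1) hal
  refine ⟨hfd, ?_, hcs, ?_⟩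
  · rw [hsel]
    exact hfs
  · rw [hsel] at hcs ⊢
    exact even_count hn (fun g => ρ g) (fun w (σ : D w) => ρ σ) hfs hfd hcs (fun w => (hL w).1) hev

end Pool.Agent.Work.MP_787500_nt.GP
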