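import Mathlib
import Pool.Agent.Work.MP_787500_nt.GP.A1_ParH
import Pool.Agent.Work.MP_787500_nt.GP.L20_Final

/-!
The parity formula for representations ramified at a finite set of split primes (assembly).
-/

set_option autoImplicit false
set_option linter.unusedSectionVars false

namespace Pool.Agent.Work.MP_787500_nt.GP

open IsDedekindDomain NumberField
open Pool.Agent.Work.MP_787500_nt.PA (TwoSys Sm1 Sm2 homs Coc Cob IsChar goodSys core cyc Opn SU toE)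
open Pool.Agent.Work.MP_787500_nt.Gn (GoodG)

universe u w

theorem main (K : Type u) [Field K] [NumberField K] (q : ℕ) (s : K) (hK : IsBase K q s)
    (v : HeightOneSpectrum (𝓞 K)) (hv : (2 : 𝓞 K) ∈ v.asIdeal)
    (ι : AlgebraicClosure K →ₐ[K] AlgebraicClosure (v.adicCompletion K))
    (c : AlgebraicClosure K ≃+* AlgebraicClosure K) (hc : ∀ x, c (c x) = x)
    (hcs : c (algebraMap K (AlgebraicClosure K) s) = -algebraMap K (AlgebraicClosure K) s)
    (κ : AbsGal K → AbsGal K)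
    (hκ : ∀ (σ : AbsGal K) (x : AlgebraicClosure K), κ σ x = c (σ (c x)))
    (T : Finset ℕ) (hT : ∀ l ∈ T, SplitPr q l) (P : ℕ → Ideal (𝓞 (AlgebraicClosure K)))
    (hP : ∀ l ∈ T, (P l).IsPrime ∧ (l : 𝓞 (AlgebraicClosure K)) ∈ P l)
    (E : Type w) [NormedField E] [NormedAlgebra ℚ_[2] E] [FiniteDimensional ℚ_[2] E] (n : ℕ)
    (ρ : AbsGal K →* Matrix (Fin n) (Fin n) E) (b : Matrix (Fin n) (Fin n) E) (hb : b.det ≠ 0)
    (hρ : Parity.IsConjDual (inT K T) (Parity.cyclo E) κ ρ b) :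
    Parity.ParityFormula (inT K T) (Parity.cyclo E) κ ρ b (DD ι (T := T) P) := by
  let κ' : AbsGal K →* AbsGal K := MonoidHom.mk' κ fun g h => by
    ext x
    rw [hκ, AlgEquiv.mul_apply, AlgEquiv.mul_apply, hκ, hκ, hc]
  have hcyc : (Parity.cyclo E : AbsGal K → E) = fun g => toE E (cyc g) := rfl
  obtain ⟨inv, θ, φ, H, hθ⟩ := exists_parH hK hv ι hT ⟨hc, hcs⟩ (κ := κ') hκ hP
  have hD : ∀ w : Option T, IsClosed (DD ι P w : Set (AbsGal K)) := by
    rintro (_ | l)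
    · exact PA.decomp_closed ι
    · exact stabD_closed (P l)
  have hbasis : ∀ O ∈ nhds (1 : AbsGal K), ∃ U : Subgroup (AbsGal K),
      IsOpen (U : Set (AbsGal K)) ∧ (U : Set (AbsGal K)) ⊆ O := by
    intro O hO
    obtain ⟨V, hV, hVO⟩ := (krullTopology_mem_nhds_one_iff K (AlgebraicClosure K) O).1 hO
    exact ⟨V.fixingSubgroup, V.fixingSubgroup_isOpen, hVO⟩
  have hnh : ∀ (w : Option T) (μ : AbsGal K → ZMod 2),
      (∀ g ∈ DD ι P w ⊓ Gn.core 2 ⊤ (inT K T), ∀ h ∈ DD ι P w ⊓ Gn.core 2 ⊤ (inT K T),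
        μ (g * h) = μ g + μ h) →
      (∃ U' : Subgroup (AbsGal K), IsOpen (U' : Set (AbsGal K)) ∧
        ∀ g ∈ DD ι P w ⊓ Gn.core 2 ⊤ (inT K T) ⊓ U', μ g = 0) →
      ∀ g ∈ DD ι P w ⊓ Gn.core 2 ⊤ (inT K T), μ g = 0 := by
    rintro (_ | l) μ h1 h2 g hg
    · exact v_nohom hK hv ι μ h1 h2 hg
    · have hl := hT l l.2
      obtain ⟨hPp, hlP⟩ := hP l l.2
      have h3 : (2 : 𝓞 (AlgebraicClosure K)) ∉ P l := by
        intro h4
        obtain ⟨k, hk⟩ := hl.1.odd_of_ne_two hl.2.1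
        apply hPp.ne_top
        rw [Ideal.eq_top_iff_one]
        have h5 : (1 : 𝓞 (AlgebraicClosure K)) = (l : 𝓞 (AlgebraicClosure K)) - 2 * k := by
          rw [hk]
          push_cast
          ring
        rw [h5]
        exact (P l).sub_mem hlP ((P l).mul_mem_right _ h4)
      exact tame_nohom hPp hl.1 hlP h3 l.2 μ h1 h2 hg
  have hρ' : Gn.ConjDual 2 (⊤ : Subgroup (AbsGal K)) (inT K T) (fun g => toE E (cyc g)) κ' ρ b :=
    ⟨hρ.cont, fun σ _ => hρ.proTwo σ, hρ.unram, hρ.symm, hρ.dual⟩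
  rw [hcyc]
  exact final_gn (baseT K T) hbasis (S := sysT K T) (fun W => Iff.rfl) hD
    (SD := fun w => sysD K T (DD ι P w)) (fun w W' => Iff.rfl)
    (PA.kappa_continuous hc hκ) H hθ hnh hb hρ'

/-- the dimension is even -/
theorem even_dim (K : Type u) [Field K] [NumberField K] (q : ℕ) (s : K) (hK : IsBase K q s)
    (v : HeightOneSpectrum (𝓞 K)) (hv : (2 : 𝓞 K) ∈ v.asIdeal)
    (ι : AlgebraicClosure K →ₐ[K] AlgebraicClosure (v.adicCompletion K))
    (c : AlgebraicClosure K ≃+* AlgebraicClosure K) (hc : ∀ x, c (c x) = x)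
    (hcs : c (algebraMap K (AlgebraicClosure K) s) = -algebraMap K (AlgebraicClosure K) s)
    (κ : AbsGal K → AbsGal K)
    (hκ : ∀ (σ : AbsGal K) (x : AlgebraicClosure K), κ σ x = c (σ (c x)))
    (T : Finset ℕ) (hT : ∀ l ∈ T, SplitPr q l) (P : ℕ → Ideal (𝓞 (AlgebraicClosure K)))
    (hP : ∀ l ∈ T, (P l).IsPrime ∧ (l : 𝓞 (AlgebraicClosure K)) ∈ P l)
    (E : Type w) [NormedField E] [NormedAlgebra ℚ_[2] E] [FiniteDimensional ℚ_[2] E] (n : ℕ)
    (ρ : AbsGal K →* Matrix (Fin n) (Fin n) E) (b : Matrix (Fin n) (Fin n) E) (hb : b.det ≠ 0)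
    (hρ : Parity.IsConjDual (inT K T) (Parity.cyclo E) κ ρ b) : Even n := by
  let κ' : AbsGal K →* AbsGal K := MonoidHom.mk' κ fun g h => by
    ext x
    rw [hκ, AlgEquiv.mul_apply, AlgEquiv.mul_apply, hκ, hκ, hc]
  obtain ⟨inv, θ, φ, H, hθ⟩ := exists_parH hK hv ι hT ⟨hc, hcs⟩ (κ := κ') hκ hP
  have hρ' : Gn.ConjDual 2 (⊤ : Subgroup (AbsGal K)) (inT K T) (fun g => toE E (cyc g)) κ' ρ b :=
    ⟨hρ.cont, fun σ _ => hρ.proTwo σ, hρ.unram, hρ.symm, hρ.dual⟩
  have h1 : θ * κ' θ ∈ Gn.core 2 ⊤ (inT K T) := by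
    rw [Gn.core, Subgroup.mem_sInf]
    exact fun W hW => H.tk W hW
  have h2 := Gn.rho_core (baseT K T) hρ' h1
  have h3 := congrArg Matrix.det (hρ.dual θ)
  have h4 := congrArg Matrix.det h2
  have hneg : (Parity.cyclo E θ : E) = -1 := by
    show toE E (cyc θ) = -1
    rw [hθ, toE]
    push_cast
    simp
  rw [map_mul, Matrix.det_mul, Matrix.det_one] at h4
  rw [Matrix.det_mul, Matrix.det_mul, Matrix.det_transpose, Matrix.det_smul, hneg,
    Fintype.card_fin] at h3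
  have h5 : (ρ θ).det * b.det * (ρ (κ θ)).det = b.det := by
    have h6 : (ρ θ).det * (ρ (κ θ)).det = 1 := h4
    calc (ρ θ).det * b.det * (ρ (κ θ)).det = ((ρ θ).det * (ρ (κ θ)).det) * b.det := by ring
      _ = b.det := by rw [h6, one_mul]
  rw [h5] at h3
  by_contra hn
  rw [Nat.not_even_iff_odd] at hn
  rw [hn.neg_one_pow] at h3
  apply hb
  have h7 : (2 : E) * b.det = 0 := by linear_combination h3
  have h8 : CharZero E := charZero_of_injective_algebraMap (algebraMap ℚ_[2] E).injective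
  exact (mul_eq_zero.1 h7).resolve_left two_ne_zero

end Pool.Agent.Work.MP_787500_nt.GP
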