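import Mathlib
import Pool.Agent.Work.MP_787500_nt.GP.FinDefs

/-!
The final statement: parity formula and upper bound, for a Selmer group with local conditions at a
family of subgroups.
-/

set_option autoImplicit false

namespace Pool.Agent.Work.MP_787500_nt.Parity

variable {G : Type*} [Group G] [TopologicalSpace G]
variable {E : Type*} [NormedField E]
variable {n : ℕ}

/-- For every family of subspaces `L w` between the coboundaries and the cocycles of `D w`: the spaces
are finite dimensional; the dimension of the Selmer group (Selmer cocycles modulo coboundaries)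
plus the dimension of the fixed vectors of `G` has the same parity as the sum over `w` of the
dimensions of `L w` modulo coboundaries and of the fixed vectors of `D w`; and if `A` holds, the
dimension of the Selmer group is at most the dimension of `L w0` modulo coboundaries, and of the same
parity. -/
def ParityAndBound (I : Set G) (χ : G → E) (κ : G → G) (ρ : G →* Matrix (Fin n) (Fin n) E)
    (b : Matrix (Fin n) (Fin n) E) {Φ : Type*} [Fintype Φ] (D : Φ → Subgroup G) (w0 : Φ)
    (A : Prop) : Prop :=
  ∀ L : ∀ w, Submodule E (D w → Fin n → E),
    (∀ w, Between (coboundaries (fun σ : D w => ρ σ)) (L w) (cocycles (fun σ : D w => ρ σ))) →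
    (∀ w, FiniteDimensional E (L w)) ∧ FiniteDimensional E (selmerF I χ κ ρ b D L) ∧
    coboundaries ρ ≤ selmerF I χ κ ρ b D L ∧
    Even (dimModulo (selmerF I χ κ ρ b D L) (coboundaries ρ) +
      Module.finrank E (fixedBy (fun σ : G => ρ σ)) +
      ∑ w, (dimModulo (L w) (coboundaries (fun σ : D w => ρ σ)) +
        Module.finrank E (fixedBy (fun σ : D w => ρ σ)))) ∧
    (A → ∃ k : ℕ, dimModulo (L w0) (coboundaries (fun σ : D w0 => ρ σ)) =
      dimModulo (selmerF I χ κ ρ b D L) (coboundaries ρ) + 2 * k)

end Pool.Agent.Work.MP_787500_nt.Parity
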