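import Mathlib
import Pool.Agent.Work.MP_787500_nt.Gn.SmallX

/-!
# Module U_BOUND: cocycles that vanish on a decomposition group

`G` is a compact group, `ρ` a continuous representation of `G` on `E ^ n` with pro-`p` image, trivial on `I`
(`n ≠ 1`, unless there are no subgroups `N j`). `D` is a subgroup that maps onto all finite quotients of `G` of `p`-power order in which `I` and all
subgroups `N j` have trivial image (`hgen`). Every element of `N j` acts by a scalar, some element acts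
nontrivially, `C j` normalizes `N j` and there is `g ∈ C j` such that `det (ρ g - 1)` is a uniformizer of `E`.
Then a continuous cocycle that vanishes on `I` and on `D`, and is a coboundary on every `N j`, is zero.

This file: linear algebra over the ring of integers, and the theorem for integral representations.
-/

set_option autoImplicit false
set_option linter.unusedSectionVars false

namespace Pool.Agent.Work.MP_787500_nt.GP.Bd

open Matrix

section ultra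

variable {E : Type*} [NormedField E] [IsUltrametricDist E] {n : ℕ}

theorem dot_le (u v : Fin n → E) : ‖u ⬝ᵥ v‖ ≤ ‖u‖ * ‖v‖ := by
  refine IsUltrametricDist.norm_sum_le_of_forall_le_of_nonneg (by positivity) fun i _ => ?_
  rw [norm_mul]
  exact mul_le_mul (norm_le_pi_norm u i) (norm_le_pi_norm v i) (norm_nonneg _) (norm_nonneg _)

theorem mv_le {A : Matrix (Fin n) (Fin n) E} (hA : ∀ i j, ‖A i j‖ ≤ 1) (v : Fin n → E) :
    ‖A *ᵥ v‖ ≤ ‖v‖ := by
  refine (pi_norm_le_iff_of_nonneg (norm_nonneg _)).2 fun i => ?_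
  show ‖∑ j, A i j * v j‖ ≤ ‖v‖
  refine IsUltrametricDist.norm_sum_le_of_forall_le_of_nonneg (norm_nonneg _) fun j _ => ?_
  rw [norm_mul]
  calc ‖A i j‖ * ‖v j‖ ≤ 1 * ‖v j‖ := mul_le_mul_of_nonneg_right (hA i j) (norm_nonneg _)
    _ ≤ ‖v‖ := by rw [one_mul]; exact norm_le_pi_norm v j

theorem mv_lt {A : Matrix (Fin n) (Fin n) E} (hA : ∀ i j, ‖A i j‖ < 1) {v : Fin n → E}
    (hv : ‖v‖ ≤ 1) : ‖A *ᵥ v‖ < 1 := by
  refine (pi_norm_lt_iff one_pos).2 fun i => ?_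
  show ‖∑ j, A i j * v j‖ < 1
  refine Gn.sr_sum _ _ one_pos fun j _ => ?_
  rw [norm_mul]
  calc ‖A i j‖ * ‖v j‖ ≤ ‖A i j‖ * 1 :=
        mul_le_mul_of_nonneg_left ((norm_le_pi_norm v j).trans hv) (norm_nonneg _)
    _ < 1 := by rw [mul_one]; exact hA i j

theorem add_lt {A : Type*} [SeminormedAddCommGroup A] [IsUltrametricDist A] {a b : A} {r : ℝ}
    (ha : ‖a‖ < r) (hb : ‖b‖ < r) : ‖a + b‖ < r :=
  (IsUltrametricDist.norm_add_le_max a b).trans_lt (max_lt ha hb)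

theorem sub_lt {A : Type*} [SeminormedAddCommGroup A] [IsUltrametricDist A] {a b : A} {r : ℝ}
    (ha : ‖a‖ < r) (hb : ‖b‖ < r) : ‖a - b‖ < r := by
  rw [sub_eq_add_neg]
  exact add_lt ha (by rwa [norm_neg])

theorem add_le' {A : Type*} [SeminormedAddCommGroup A] [IsUltrametricDist A] {a b : A} {r : ℝ}
    (ha : ‖a‖ ≤ r) (hb : ‖b‖ ≤ r) : ‖a + b‖ ≤ r :=
  (IsUltrametricDist.norm_add_le_max a b).trans (max_le ha hb)

theorem sub_le' {A : Type*} [SeminormedAddCommGroup A] [IsUltrametricDist A] {a b : A} {r : ℝ}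
    (ha : ‖a‖ ≤ r) (hb : ‖b‖ ≤ r) : ‖a - b‖ ≤ r := by
  rw [sub_eq_add_neg]
  exact add_le' ha (by rwa [norm_neg])

theorem det_le {A : Matrix (Fin n) (Fin n) E} (hA : ∀ i j, ‖A i j‖ ≤ 1) : ‖A.det‖ ≤ 1 := by
  rw [Matrix.det_apply]
  refine IsUltrametricDist.norm_sum_le_of_forall_le_of_nonneg zero_le_one fun σ _ => ?_
  have h1 : ‖Equiv.Perm.sign σ • ∏ i, A (σ i) i‖ = ‖∏ i, A (σ i) i‖ := by
    rcases Int.units_eq_one_or (Equiv.Perm.sign σ) with h | h <;> rw [h] <;> simp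
  rw [h1, norm_prod]
  exact Finset.prod_le_one (fun i _ => norm_nonneg _) fun i _ => hA _ _

theorem adj_le {A : Matrix (Fin n) (Fin n) E} (hA : ∀ i j, ‖A i j‖ ≤ 1) (i j : Fin n) :
    ‖A.adjugate i j‖ ≤ 1 := by
  rw [Matrix.adjugate_apply]
  refine det_le fun a b => ?_
  rw [Matrix.updateRow_apply]
  split_ifs with h
  · by_cases hib : b = i
    · subst hib
      simp
    · rw [Pi.single_eq_of_ne hib]
      simp
  · exact hA a b

/-- a pair of vector and matrix: the vector is fixed modulo the maximal ideal -/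
structure Fx0 (Λ : Fin n → E) (i0 : Fin n) : Prop where
  le : ‖Λ‖ ≤ 1
  one : Λ i0 = 1

theorem dot_le_one {Λ : Fin n → E} {i0 : Fin n} (hΛ : Fx0 Λ i0) (v : Fin n → E) :
    ‖Λ ⬝ᵥ v‖ ≤ ‖v‖ := by
  refine (dot_le Λ v).trans ?_
  exact mul_le_of_le_one_left (norm_nonneg _) hΛ.le

variable {M : Matrix (Fin n) (Fin n) E} {Λ : Fin n → E} {i0 : Fin n}

theorem claimA (hM : ∀ i j, ‖M i j‖ ≤ 1) (hΛ : Fx0 Λ i0) (hΛM : ∀ j, ‖(Λ ᵥ* M) j‖ < 1)
    (hd0 : M.det ≠ 0) (hd2 : ∀ a : E, ‖a‖ < 1 → ‖a‖ ≤ ‖M.det‖) {z : Fin n → E}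
    (hz : ‖z‖ ≤ 1) (hz1 : ‖Λ ⬝ᵥ z‖ < 1) : ∃ w : Fin n → E, ‖w‖ ≤ 1 ∧ M *ᵥ w = z := by
  classical
  set l := M.det with hl
  have hl0 : 0 < ‖l‖ := norm_pos_iff.2 hd0
  have hdiv : ∀ a : E, ‖a‖ < 1 → ‖l⁻¹ * a‖ ≤ 1 := by
    intro a ha
    rw [norm_mul, norm_inv, inv_mul_le_iff₀ hl0, mul_one]
    exact hd2 a ha
  set N : Matrix (Fin n) (Fin n) E := M.updateRow i0 (l⁻¹ • (Λ ᵥ* M)) with hN
  have hNdet : N.det = 1 := by
    rw [hN, Matrix.det_updateRow_smul, Matrix.vecMul_eq_sum, Matrix.det_updateRow_sum, hΛ.one,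
      one_smul, ← hl, inv_mul_cancel₀ hd0]
  have hNi : ∀ i j, ‖N i j‖ ≤ 1 := by
    intro i j
    rw [hN, Matrix.updateRow_apply]
    split_ifs with h
    · rw [Pi.smul_apply, smul_eq_mul]
      exact hdiv _ (hΛM j)
    · exact hM i j
  set z' : Fin n → E := Function.update z i0 (l⁻¹ * (Λ ⬝ᵥ z)) with hz'
  have hz'1 : ‖z'‖ ≤ 1 := by
    refine (pi_norm_le_iff_of_nonneg zero_le_one).2 fun i => ?_
    rw [hz', Function.update_apply]
    split_ifs with h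
    · exact hdiv _ hz1
    · exact (norm_le_pi_norm z i).trans hz
  refine ⟨N.adjugate *ᵥ z', (mv_le (adj_le hNi) z').trans hz'1, ?_⟩
  set w := N.adjugate *ᵥ z' with hw
  have hNw : N *ᵥ w = z' := by
    rw [hw, mulVec_mulVec, Matrix.mul_adjugate, hNdet, one_smul, one_mulVec]
  have h1 : ∀ i, i ≠ i0 → (M *ᵥ w) i = z i := by
    intro i hi
    have h2 := congrFun hNw i
    rw [hz', Function.update_of_ne hi] at h2
    rw [← h2]
    show M i ⬝ᵥ w = N i ⬝ᵥ w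
    rw [hN, Matrix.updateRow_ne hi]
  have h3 : Λ ⬝ᵥ (M *ᵥ w) = Λ ⬝ᵥ z := by
    have h2 := congrFun hNw i0
    rw [hz', Function.update_self] at h2
    have h4 : (N *ᵥ w) i0 = l⁻¹ * (Λ ⬝ᵥ (M *ᵥ w)) := by
      have h5 : (N *ᵥ w) i0 = N i0 ⬝ᵥ w := rfl
      rw [h5, hN, Matrix.updateRow_self, smul_dotProduct, smul_eq_mul,
        Matrix.dotProduct_mulVec Λ M w]
    rw [h4] at h2
    exact mul_left_cancel₀ (inv_ne_zero hd0) h2
  have h5 : (M *ᵥ w) i0 = z i0 := by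
    have h6 : Λ ⬝ᵥ (M *ᵥ w - z) = 0 := by
      rw [dotProduct_sub, h3, sub_self]
    have h7 : Λ ⬝ᵥ (M *ᵥ w - z) = Λ i0 * (M *ᵥ w - z) i0 := by
      refine Finset.sum_eq_single i0 (fun i _ hi => ?_) (fun h => absurd (Finset.mem_univ _) h)
      rw [Pi.sub_apply, h1 i hi, sub_self, mul_zero]
    rw [h7, hΛ.one, one_mul, Pi.sub_apply, sub_eq_zero] at h6
    exact h6
  ext i
  by_cases hi : i = i0
  · rw [hi]; exact h5
  · exact h1 i hi

theorem mv_inj (hd0 : M.det ≠ 0) {w w' : Fin n → E} (h : M *ᵥ w = M *ᵥ w') : w = w' := by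
  have h1 : ∀ v : Fin n → E, M.adjugate *ᵥ (M *ᵥ v) = M.det • v := by
    intro v
    rw [mulVec_mulVec, Matrix.adjugate_mul, smul_mulVec, one_mulVec]
  have h2 := h1 w
  rw [h, h1 w'] at h2
  have h3 := congrArg (fun v => M.det⁻¹ • v) h2
  simp only [smul_smul, inv_mul_cancel₀ hd0, one_smul] at h3
  exact h3.symm

theorem claimB (hM : ∀ i j, ‖M i j‖ ≤ 1) (hΛ : Fx0 Λ i0) (hΛM : ∀ j, ‖(Λ ᵥ* M) j‖ < 1)
    (hd0 : M.det ≠ 0) (hd2 : ∀ a : E, ‖a‖ < 1 → ‖a‖ ≤ ‖M.det‖) {w : Fin n → E}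
    (hw : ‖M *ᵥ w‖ ≤ 1) (hw1 : ‖Λ ⬝ᵥ (M *ᵥ w)‖ < 1) : ‖w‖ ≤ 1 := by
  obtain ⟨w', hw', h⟩ := claimA hM hΛ hΛM hd0 hd2 hw hw1
  rw [← mv_inj hd0 h]
  exact hw'

theorem claimC (hM : ∀ i j, ‖M i j‖ ≤ 1) {w : Fin n → E}
    (hw : ‖M *ᵥ w‖ ≤ 1) : ‖M.det • w‖ ≤ 1 := by
  have h1 : M.adjugate *ᵥ (M *ᵥ w) = M.det • w := by
    rw [mulVec_mulVec, Matrix.adjugate_mul, smul_mulVec, one_mulVec]
  rw [← h1]
  exact (mv_le (adj_le hM) _).trans hw

theorem claimD (hn : 2 ≤ n) (hM : ∀ i j, ‖M i j‖ ≤ 1) (hΛ : Fx0 Λ i0)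
    (hΛM : ∀ j, ‖(Λ ᵥ* M) j‖ < 1) (hd0 : M.det ≠ 0)
    (hd2 : ∀ a : E, ‖a‖ < 1 → ‖a‖ ≤ ‖M.det‖) {N : ℕ} (hnil : ∀ i j, ‖(M ^ N) i j‖ < 1)
    {w : Fin n → E} (hw : ‖M *ᵥ w‖ ≤ 1) {c : E} (hc : ‖c‖ < 1) : ‖Λ ⬝ᵥ (c • w)‖ < 1 := by
  classical
  have hl0 : 0 < ‖M.det‖ := norm_pos_iff.2 hd0
  by_contra hcon
  set u := c • w with hu
  have hu1 : ‖u‖ ≤ 1 := by
    have h1 : u = (M.det⁻¹ * c) • (M.det • w) := by
      rw [smul_smul, hu]
      congr 1
      field_simp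
    rw [h1, norm_smul]
    refine mul_le_one₀ ?_ (norm_nonneg _) (claimC hM hw)
    rw [norm_mul, norm_inv, inv_mul_le_iff₀ hl0, mul_one]
    exact hd2 c hc
  have hLu : ‖Λ ⬝ᵥ u‖ = 1 :=
    le_antisymm ((dot_le_one hΛ u).trans hu1) (not_lt.1 hcon)
  have hLu0 : Λ ⬝ᵥ u ≠ 0 := by
    intro h
    rw [h, norm_zero] at hLu
    exact zero_ne_one hLu
  have hMu : ‖M *ᵥ u‖ < 1 := by
    rw [hu, mulVec_smul, norm_smul]
    calc ‖c‖ * ‖M *ᵥ w‖ ≤ ‖c‖ * 1 := mul_le_mul_of_nonneg_left hw (norm_nonneg _)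
      _ < 1 := by rw [mul_one]; exact hc
  have hstep : ∀ h : Fin n → E, ‖h‖ ≤ 1 → ‖Λ ⬝ᵥ h‖ < 1 →
      ∃ w' : Fin n → E, ‖w'‖ ≤ 1 ∧ ‖Λ ⬝ᵥ w'‖ < 1 ∧ ‖M *ᵥ w' - h‖ < 1 := by
    intro h hh hh1
    obtain ⟨w0, hw0, hw0'⟩ := claimA hM hΛ hΛM hd0 hd2 hh hh1
    set a := (Λ ⬝ᵥ w0) / (Λ ⬝ᵥ u) with ha
    have ha1 : ‖a‖ ≤ 1 := by
      rw [ha, norm_div, hLu, div_one]
      exact (dot_le_one hΛ w0).trans hw0
    refine ⟨w0 - a • u, ?_, ?_, ?_⟩
    · refine sub_le' hw0 ?_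
      rw [norm_smul]
      exact mul_le_one₀ ha1 (norm_nonneg _) hu1
    · have h1 : Λ ⬝ᵥ (w0 - a • u) = 0 := by
        rw [dotProduct_sub, dotProduct_smul, smul_eq_mul, ha, div_mul_cancel₀ _ hLu0, sub_self]
      rw [h1, norm_zero]
      exact one_pos
    · have h1 : M *ᵥ (w0 - a • u) - h = -(a • (M *ᵥ u)) := by
        rw [mulVec_sub, hw0', mulVec_smul]
        abel
      rw [h1, norm_neg, norm_smul]
      calc ‖a‖ * ‖M *ᵥ u‖ ≤ 1 * ‖M *ᵥ u‖ := mul_le_mul_of_nonneg_right ha1 (norm_nonneg _)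
        _ < 1 := by rw [one_mul]; exact hMu
  have hMk : ∀ k i j, ‖(M ^ k) i j‖ ≤ 1 := by
    intro k
    induction k with
    | zero =>
      intro i j
      rw [pow_zero, Matrix.one_apply]
      split_ifs <;> simp
    | succ k ih =>
      intro i j
      rw [pow_succ, Matrix.mul_apply]
      refine IsUltrametricDist.norm_sum_le_of_forall_le_of_nonneg zero_le_one fun a _ => ?_
      rw [norm_mul]
      exact mul_le_one₀ (ih i a) (norm_nonneg _) (hM a j)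
  have hiter : ∀ k : ℕ, ∀ h : Fin n → E, ‖h‖ ≤ 1 → ‖Λ ⬝ᵥ h‖ < 1 →
      ∃ w' : Fin n → E, ‖w'‖ ≤ 1 ∧ ‖Λ ⬝ᵥ w'‖ < 1 ∧ ‖(M ^ k) *ᵥ w' - h‖ < 1 := by
    intro k
    induction k with
    | zero =>
      intro h hh hh1
      refine ⟨h, hh, hh1, ?_⟩
      rw [pow_zero, one_mulVec, sub_self, norm_zero]
      exact one_pos
    | succ k ih =>
      intro h hh hh1
      obtain ⟨w1, h1, h2, h3⟩ := ih h hh hh1
      obtain ⟨w2, h4, h5, h6⟩ := hstep w1 h1 h2
      refine ⟨w2, h4, h5, ?_⟩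
      have h7 : (M ^ (k + 1)) *ᵥ w2 - h =
          (M ^ k) *ᵥ (M *ᵥ w2 - w1) + ((M ^ k) *ᵥ w1 - h) := by
        rw [pow_succ, ← mulVec_mulVec, mulVec_sub]
        abel
      rw [h7]
      exact add_lt ((mv_le (hMk k) _).trans_lt h6) h3
  -- the test vector
  have : Nontrivial (Fin n) := Fin.nontrivial_iff_two_le.2 hn
  obtain ⟨i1, hi1⟩ := exists_ne i0
  set h : Fin n → E := Pi.single i1 1 - Λ i1 • Pi.single i0 1 with hh
  have hh1 : ‖h‖ ≤ 1 := by
    refine (pi_norm_le_iff_of_nonneg zero_le_one).2 fun i => ?_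
    rw [hh, Pi.sub_apply, Pi.smul_apply, smul_eq_mul]
    refine sub_le' ?_ ?_
    · rw [Pi.single_apply]
      split_ifs <;> simp
    · rw [norm_mul]
      refine mul_le_one₀ ((norm_le_pi_norm Λ i1).trans hΛ.le) (norm_nonneg _) ?_
      rw [Pi.single_apply]
      split_ifs <;> simp
  have hh2 : Λ ⬝ᵥ h = 0 := by
    rw [hh, dotProduct_sub, dotProduct_smul, dotProduct_single, dotProduct_single, mul_one,
      mul_one, smul_eq_mul, hΛ.one, mul_one, sub_self]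
  obtain ⟨w', h1, h2, h3⟩ := hiter N h hh1 (by rw [hh2, norm_zero]; exact one_pos)
  have h4 : ‖h‖ < 1 := by
    have h5 : h = (M ^ N) *ᵥ w' - ((M ^ N) *ᵥ w' - h) := by abel
    rw [h5]
    exact sub_lt (mv_lt hnil h1) h3
  have h6 : h i1 = 1 := by
    rw [hh, Pi.sub_apply, Pi.smul_apply, Pi.single_eq_same, Pi.single_eq_of_ne hi1, smul_zero,
      sub_zero]
  have h7 := norm_le_pi_norm h i1
  rw [h6, norm_one] at h7
  exact absurd h4 (not_lt.2 h7)

end ultra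

section residue

/-- the ring of integers -/
def Og (E : Type*) [NormedField E] [IsUltrametricDist E] : Subring E where
  carrier := {x | ‖x‖ ≤ 1}
  mul_mem' := fun {x y} hx hy => by
    show ‖x * y‖ ≤ 1
    rw [norm_mul]
    exact mul_le_one₀ hx (norm_nonneg _) hy
  one_mem' := by simp
  add_mem' := fun {x y} hx hy => add_le' hx hy
  zero_mem' := by simp
  neg_mem' := fun {x} hx => by
    show ‖-x‖ ≤ 1
    rw [norm_neg]
    exact hx

/-- the maximal ideal -/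
def mg (E : Type*) [NormedField E] [IsUltrametricDist E] : Ideal (Og E) where
  carrier := {x | ‖(x : E)‖ < 1}
  add_mem' := fun {x y} hx hy => add_lt hx hy
  zero_mem' := by simp
  smul_mem' := fun c x hx => by
    show ‖((c * x : Og E) : E)‖ < 1
    rw [Subring.coe_mul, norm_mul]
    calc ‖(c : E)‖ * ‖(x : E)‖ ≤ 1 * ‖(x : E)‖ := mul_le_mul_of_nonneg_right c.2 (norm_nonneg _)
      _ < 1 := by rw [one_mul]; exact hx

variable {E : Type*} [NormedField E] [IsUltrametricDist E] {n : ℕ}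

/-- the residue ring -/
abbrev Rk (E : Type*) [NormedField E] [IsUltrametricDist E] := Og E ⧸ mg E

theorem rk_zero {x : Og E} : (Ideal.Quotient.mk (mg E) x = 0) ↔ ‖(x : E)‖ < 1 :=
  Ideal.Quotient.eq_zero_iff_mem

theorem rk_nontrivial : Nontrivial (Rk E) := by
  refine ⟨⟨0, 1, fun h => ?_⟩⟩
  have h1 : Ideal.Quotient.mk (mg E) 1 = 0 := by rw [map_one]; exact h.symm
  rw [rk_zero, Subring.coe_one, norm_one] at h1
  exact lt_irrefl _ h1

theorem rk_char (p : ℕ) [hp : Fact p.Prime] [NormedAlgebra ℚ_[p] E] : CharP (Rk E) p := by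
  have := rk_nontrivial (E := E)
  rw [CharP.charP_iff_prime_eq_zero hp.out]
  have h1 : ((p : Og E) : E) = (p : E) := by simp
  have h2 : Ideal.Quotient.mk (mg E) (p : Og E) = 0 := by
    rw [rk_zero, h1, Gn.norm_p p E]
    exact inv_lt_one_of_one_lt₀ (by exact_mod_cast hp.out.one_lt)
  rwa [map_natCast] at h2

theorem rk_finite [ProperSpace E] : Finite (Rk E) := by
  have hc : IsCompact (Metric.closedBall (0 : E) 1) := isCompact_closedBall _ _
  obtain ⟨t, hts, htf, ht⟩ := hc.finite_cover_balls one_pos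
  have hf : Finite t := htf
  let f : t → Rk E := fun x => Ideal.Quotient.mk (mg E) ⟨x, by
      have := hts x.2
      rw [mem_closedBall_zero_iff] at this
      exact this⟩
  refine Finite.of_surjective f fun r => ?_
  obtain ⟨a, rfl⟩ := Ideal.Quotient.mk_surjective r
  have ha : (a : E) ∈ Metric.closedBall (0 : E) 1 := mem_closedBall_zero_iff.2 a.2
  obtain ⟨x, hx, hax⟩ := Set.mem_iUnion₂.1 (ht ha)
  refine ⟨⟨x, hx⟩, ?_⟩
  rw [← sub_eq_zero, ← map_sub, rk_zero]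
  show ‖x - (a : E)‖ < 1
  rw [norm_sub_rev, ← dist_eq_norm]
  exact hax

/-- lift of an integral matrix -/
def lm {A : Matrix (Fin n) (Fin n) E} (hA : ∀ i j, ‖A i j‖ ≤ 1) : Matrix (Fin n) (Fin n) (Og E) :=
  Matrix.of fun i j => ⟨A i j, hA i j⟩

theorem lm_map {A : Matrix (Fin n) (Fin n) E} (hA : ∀ i j, ‖A i j‖ ≤ 1) :
    (Og E).subtype.mapMatrix (lm hA) = A := by
  ext i j
  rfl

/-- reduction of integral matrices -/
noncomputable def rd (E : Type*) [NormedField E] [IsUltrametricDist E] (n : ℕ) :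
    Matrix (Fin n) (Fin n) (Og E) →+* Matrix (Fin n) (Fin n) (Rk E) :=
  (Ideal.Quotient.mk (mg E)).mapMatrix

theorem inj_map : Function.Injective
    ((Og E).subtype.mapMatrix : Matrix (Fin n) (Fin n) (Og E) →+* Matrix (Fin n) (Fin n) E) := by
  intro A B h
  ext i j
  have := congrFun (congrFun h i) j
  exact this

theorem nil_of (p : ℕ) [hp : Fact p.Prime] [NormedAlgebra ℚ_[p] E] (hn : 0 < n)
    {A : Matrix (Fin n) (Fin n) E}
    (hA : ∀ i j, ‖A i j‖ ≤ 1) {k : ℕ} (hk : ∀ i j, ‖(A ^ p ^ k - 1) i j‖ < 1) (i j : Fin n) :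
    ‖((A - 1) ^ p ^ k) i j‖ < 1 := by
  have hch := rk_char (E := E) p
  have : Nonempty (Fin n) := ⟨⟨0, hn⟩⟩
  have h1 : rd E n (lm hA ^ p ^ k - 1) = 0 := by
    ext a b
    show Ideal.Quotient.mk (mg E) ((lm hA ^ p ^ k - 1) a b) = 0
    rw [rk_zero]
    have h2 : (((lm hA ^ p ^ k - 1) a b : Og E) : E) =
        ((Og E).subtype.mapMatrix (lm hA ^ p ^ k - 1)) a b := rfl
    rw [h2, map_sub, map_pow, map_one, lm_map]
    exact hk a b
  have h3 : rd E n ((lm hA - 1) ^ p ^ k) = 0 := by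
    rw [map_pow, map_sub, map_one, sub_pow_char_pow_of_commute _ _ (Commute.one_right _), one_pow]
    rw [map_sub, map_pow, map_one] at h1
    exact h1
  have h4 := congrFun (congrFun h3 i) j
  have h5 : Ideal.Quotient.mk (mg E) (((lm hA - 1) ^ p ^ k) i j) = 0 := h4
  rw [rk_zero] at h5
  have h6 : ((((lm hA - 1) ^ p ^ k) i j : Og E) : E) =
      ((Og E).subtype.mapMatrix ((lm hA - 1) ^ p ^ k)) i j := rfl
  rw [h6, map_pow, map_sub, map_one, lm_map] at h5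
  exact h5

theorem exists_fix (p : ℕ) [hp : Fact p.Prime] [NormedAlgebra ℚ_[p] E] [ProperSpace E]
    {G : Type*} [Group G] (hn : 0 < n)
    {ρ : G →* Matrix (Fin n) (Fin n) E} (hρ : ∀ g i j, ‖ρ g i j‖ ≤ 1)
    (hsm : ∀ g, ∃ k : ℕ, ∀ i j, ‖(ρ (g ^ p ^ k) - 1) i j‖ < 1) :
    ∃ (Λ : Fin n → E) (i0 : Fin n), Fx0 Λ i0 ∧ ∀ g j, ‖(Λ ᵥ* (ρ g - 1)) j‖ < 1 := by
  have hch := rk_char (E := E) p
  have hfin := rk_finite (E := E)
  have hnt := rk_nontrivial (E := E)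
  let ρO : G →* Matrix (Fin n) (Fin n) (Og E) :=
    { toFun := fun g => lm (hρ g)
      map_one' := inj_map (by rw [lm_map, map_one, map_one])
      map_mul' := fun g h => inj_map (by
        rw [map_mul (Og E).subtype.mapMatrix, lm_map, lm_map, lm_map, map_mul]) }
  have hρO : ∀ g, (Og E).subtype.mapMatrix (ρO g) = ρ g := fun g => lm_map (hρ g)
  let ρk : G →* Matrix (Fin n) (Fin n) (Rk E) := (rd E n).toMonoidHom.comp ρO
  have hρk : ∀ g, ρk g = rd E n (ρO g) := fun g => rfl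
  let F : G →* Function.End (Fin n → Rk E) :=
    { toFun := fun g v => v ᵥ* ρk g⁻¹
      map_one' := by
        funext v
        show v ᵥ* ρk 1⁻¹ = v
        rw [inv_one, map_one, vecMul_one]
      map_mul' := fun g h => by
        funext v
        show v ᵥ* ρk (g * h)⁻¹ = (v ᵥ* ρk h⁻¹) ᵥ* ρk g⁻¹
        rw [vecMul_vecMul, _root_.mul_inv_rev, map_mul] }
  let P : G →* Equiv.Perm (Fin n → Rk E) := F.toHomPerm
  have hP : ∀ g v, P g v = v ᵥ* ρk g⁻¹ := fun g v => rfl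
  have hpg : IsPGroup p P.range := by
    rintro ⟨y, g, rfl⟩
    obtain ⟨k, hk⟩ := hsm g⁻¹
    refine ⟨k, ?_⟩
    apply Subtype.ext
    show (P g) ^ p ^ k = 1
    rw [← map_pow]
    ext v : 1
    rw [hP, ← inv_pow, Equiv.Perm.one_apply]
    have h1 : ρk (g⁻¹ ^ p ^ k) = 1 := by
      rw [← sub_eq_zero, hρk, ← map_one (rd E n), ← map_sub]
      ext a b
      show Ideal.Quotient.mk (mg E) ((ρO (g⁻¹ ^ p ^ k) - 1) a b) = 0
      rw [rk_zero]
      have h2 : (((ρO (g⁻¹ ^ p ^ k) - 1) a b : Og E) : E) =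
          ((Og E).subtype.mapMatrix (ρO (g⁻¹ ^ p ^ k) - 1)) a b := rfl
      rw [h2, map_sub, map_one, hρO]
      exact hk a b
    rw [h1, vecMul_one]
  have hcard : p ∣ Nat.card (Fin n → Rk E) := by
    rw [Nat.card_fun, Nat.card_fin]
    refine dvd_pow ?_ hn.ne'
    rw [← CharP.cast_eq_zero_iff (Rk E) p]
    have := Fintype.ofFinite (Rk E)
    rw [Nat.card_eq_fintype_card]
    exact Nat.cast_card_eq_zero (Rk E)
  have hz : (0 : Fin n → Rk E) ∈ MulAction.fixedPoints P.range (Fin n → Rk E) := by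
    rintro ⟨y, g, rfl⟩
    show P g 0 = 0
    rw [hP, zero_vecMul]
  obtain ⟨b, hb, hb0⟩ := hpg.exists_fixed_point_of_prime_dvd_card_of_fixed_point _ hcard hz
  have hb1 : ∀ g, b ᵥ* ρk g = b := by
    intro g
    have h1 := hb ⟨P g⁻¹, g⁻¹, rfl⟩
    have h2 : P g⁻¹ b = b := h1
    rw [hP, inv_inv] at h2
    exact h2
  obtain ⟨i0, hi0⟩ : ∃ i, b i ≠ 0 := by
    by_contra hcon
    push Not at hcon
    apply hb0
    funext i
    exact (hcon i).symm
  choose L hL using fun i => Ideal.Quotient.mk_surjective (b i)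
  have hLi : ‖(L i0 : E)‖ = 1 := by
    refine le_antisymm (L i0).2 (not_lt.1 fun h => hi0 ?_)
    rw [← hL i0, rk_zero]
    exact h
  have hLn : (L i0 : E) ≠ 0 := by
    intro h
    rw [h, norm_zero] at hLi
    exact zero_ne_one hLi
  refine ⟨fun i => (L i0 : E)⁻¹ * L i, i0, ⟨?_, ?_⟩, fun g j => ?_⟩
  · refine (pi_norm_le_iff_of_nonneg zero_le_one).2 fun i => ?_
    rw [norm_mul, norm_inv, hLi, inv_one, one_mul]
    exact (L i).2
  · exact inv_mul_cancel₀ hLn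
  · have h1 : ((fun i => (L i0 : E)⁻¹ * L i) ᵥ* (ρ g - 1)) =
        (L i0 : E)⁻¹ • ((fun i => (L i : E)) ᵥ* (ρ g - 1)) := by
      rw [← smul_vecMul]
      rfl
    rw [h1, Pi.smul_apply, smul_eq_mul, norm_mul, norm_inv, hLi, inv_one, one_mul]
    have h2 : ((fun i => (L i : E)) ᵥ* (ρ g - 1)) j = (((L ᵥ* (ρO g - 1)) j : Og E) : E) := by
      have h3 : ρ g - 1 = (Og E).subtype.mapMatrix (ρO g - 1) := by
        rw [map_sub, map_one, hρO]
      rw [h3]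
      show ∑ i, (L i : E) * ((ρO g - 1) i j : Og E) = ((∑ i, L i * (ρO g - 1) i j : Og E) : E)
      push_cast
      rfl
    rw [h2, ← rk_zero]
    have h4 : Ideal.Quotient.mk (mg E) ((L ᵥ* (ρO g - 1)) j) = (b ᵥ* (ρk g - 1)) j := by
      show Ideal.Quotient.mk (mg E) (∑ i, L i * (ρO g - 1) i j) = ∑ i, b i * (ρk g - 1) i j
      rw [map_sum]
      refine Finset.sum_congr rfl fun i _ => ?_
      rw [map_mul, hL]
      congr 1
      rw [hρk, ← map_one (rd E n), ← map_sub]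
      rfl
    rw [h4, vecMul_sub, vecMul_one, hb1, sub_self]
    rfl

end residue

section core

variable {G : Type*} [Group G] [TopologicalSpace G] [IsTopologicalGroup G] [CompactSpace G]
variable {p : ℕ} [hp : Fact p.Prime]
variable {E : Type*} [NormedField E] [NormedAlgebra ℚ_[p] E] [FiniteDimensional ℚ_[p] E]
variable {n : ℕ} {I : Set G} {D : Subgroup G} {J : Type*} {N C : J → Subgroup G}

/-- `D` maps onto every finite quotient of `G` of `p`-power order in which `I` and all `N j` have trivial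
image -/
def Gen (p : ℕ) (I : Set G) (D : Subgroup G) (N : J → Subgroup G) : Prop :=
  ∀ W : Subgroup G, W.Normal → IsOpen (W : Set G) → (∀ g, ∃ k : ℕ, g ^ p ^ k ∈ W) →
    (∀ σ ∈ I, σ ∈ W) → (∀ j, ∀ σ ∈ N j, σ ∈ W) → ∀ g, ∃ d ∈ D, d⁻¹ * g ∈ W

theorem core_int (hgen : Gen p I D N) {ρ : G →* Matrix (Fin n) (Fin n) E} (hcont : Continuous ρ)
    (hρi : ∀ g i j, ‖ρ g i j‖ ≤ 1) (hpro : ∀ g, Filter.Tendsto (fun k : ℕ => ρ (g ^ p ^ k))
      Filter.atTop (nhds 1)) (hI : ∀ σ ∈ I, ρ σ = 1) (hn0 : 0 < n) (hn : ∀ _ : J, 2 ≤ n)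
    {x : G → Fin n → E} (hx : Continuous x) (hmul : ∀ g h, x (g * h) = x g + ρ g *ᵥ x h)
    (hxI : ∀ σ ∈ I, x σ = 0) (hxD : ∀ d ∈ D, x d = 0) (hx1 : ∀ g, ‖x g‖ ≤ 1)
    (hj : ∀ j, ∃ (g : G) (w : Fin n → E), (∀ τ ∈ N j, ∃ c : E, ρ τ = c • 1 ∧
      x τ = ρ τ *ᵥ w - w) ∧ x g = ρ g *ᵥ w - w ∧ (ρ g - 1).det ≠ 0 ∧
      ∀ a : E, ‖a‖ < 1 → ‖a‖ ≤ ‖(ρ g - 1).det‖) (g : G) : ‖x g‖ < 1 := by
  have hu := Gn.ultra p E
  have hpr : ProperSpace E := FiniteDimensional.proper ℚ_[p] E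
  have : Nonempty (Fin n) := ⟨⟨0, hn0⟩⟩
  have hsm : ∀ g, ∃ k : ℕ, ∀ i j, ‖(ρ (g ^ p ^ k) - 1) i j‖ < 1 := by
    intro g
    have h1 : ∀ᶠ k : ℕ in Filter.atTop, ∀ i j, ‖(ρ (g ^ p ^ k) - 1) i j‖ < 1 := by
      refine Filter.eventually_all.2 fun i => Filter.eventually_all.2 fun j => ?_
      have h3 : Filter.Tendsto (fun k : ℕ => (ρ (g ^ p ^ k)) i j) Filter.atTop
          (nhds ((1 : Matrix (Fin n) (Fin n) E) i j)) :=
        (tendsto_pi_nhds.1 ((tendsto_pi_nhds.1 (hpro g)) i)) j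
      have h4 := (h3.sub_const ((1 : Matrix (Fin n) (Fin n) E) i j)).norm
      rw [sub_self, norm_zero] at h4
      exact h4.eventually_lt_const one_pos
    exact h1.exists
  have hnil : ∀ g, ∃ k : ℕ, ∀ i j, ‖((ρ g - 1) ^ k) i j‖ < 1 := by
    intro g
    obtain ⟨k, hk⟩ := hsm g
    rw [map_pow] at hk
    exact ⟨p ^ k, nil_of p hn0 (hρi g) hk⟩
  obtain ⟨Λ, i0, hΛ, hΛρ⟩ := exists_fix p hn0 hρi hsm
  have hρ1 : ∀ g i j, ‖(ρ g - 1) i j‖ ≤ 1 := by
    intro g i j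
    rw [Matrix.sub_apply]
    refine sub_le' (hρi g i j) ?_
    rw [Matrix.one_apply]
    split_ifs <;> simp
  have hx0 : x 1 = 0 := by
    have h1 := hmul 1 1
    rw [mul_one, map_one, one_mulVec] at h1
    have h2 : x 1 + 0 = x 1 + x 1 := by rw [add_zero]; exact h1
    exact (add_left_cancel h2).symm
  -- the homomorphism modulo the maximal ideal
  set φ : G → E := fun g => Λ ⬝ᵥ x g with hφ
  have hφ0 : φ 1 = 0 := by rw [hφ]; simp [hx0]
  have hφc : Continuous φ := by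
    rw [hφ]
    simp only [dotProduct]
    exact continuous_finsetSum _ fun i _ => continuous_const.mul ((continuous_apply i).comp hx)
  have hφm : ∀ g h, ‖φ (g * h) - (φ g + φ h)‖ < 1 := by
    intro g h
    have h1 : φ (g * h) - (φ g + φ h) = (Λ ᵥ* (ρ g - 1)) ⬝ᵥ x h := by
      simp only [hφ]
      rw [hmul, dotProduct_add, ← Matrix.dotProduct_mulVec, sub_mulVec, one_mulVec,
        dotProduct_sub]
      ring
    rw [h1]
    refine Gn.sr_sum _ _ one_pos fun i _ => ?_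
    rw [norm_mul]
    calc ‖(Λ ᵥ* (ρ g - 1)) i‖ * ‖x h i‖ ≤ ‖(Λ ᵥ* (ρ g - 1)) i‖ * 1 :=
          mul_le_mul_of_nonneg_left ((norm_le_pi_norm (x h) i).trans (hx1 h)) (norm_nonneg _)
      _ < 1 := by rw [mul_one]; exact hΛρ g i
  have hφinv : ∀ g, ‖φ g + φ g⁻¹‖ < 1 := by
    intro g
    have h1 := hφm g g⁻¹
    rwa [mul_inv_cancel, hφ0, zero_sub, norm_neg] at h1
  let W' : Subgroup G :=
    { carrier := {g | ‖φ g‖ < 1}
      mul_mem' := by
        intro g h hg hh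
        show ‖φ (g * h)‖ < 1
        have h1 : φ (g * h) = (φ (g * h) - (φ g + φ h)) + (φ g + φ h) := by ring
        rw [h1]
        exact add_lt (hφm g h) (add_lt hg hh)
      one_mem' := by
        show ‖φ 1‖ < 1
        rw [hφ0, norm_zero]
        exact one_pos
      inv_mem' := by
        intro g hg
        show ‖φ g⁻¹‖ < 1
        have h1 : φ g⁻¹ = (φ g + φ g⁻¹) - φ g := by ring
        rw [h1]
        exact sub_lt (hφinv g) hg }
  have hW'n : W'.Normal := by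
    constructor
    intro h hh g
    show ‖φ (g * h * g⁻¹)‖ < 1
    have h1 : φ (g * h * g⁻¹) = (φ (g * h * g⁻¹) - (φ (g * h) + φ g⁻¹)) +
        ((φ (g * h) - (φ g + φ h)) + ((φ g + φ g⁻¹) + φ h)) := by ring
    rw [h1]
    exact add_lt (hφm _ _) (add_lt (hφm _ _) (add_lt (hφinv g) hh))
  have hW'o : IsOpen (W' : Set G) := isOpen_lt hφc.norm continuous_const
  have hW'p : ∀ g, ∃ k : ℕ, g ^ p ^ k ∈ W' := by
    intro g
    have h1 : ∀ m : ℕ, ‖φ (g ^ m) - m * φ g‖ < 1 := by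
      intro m
      induction m with
      | zero =>
        rw [pow_zero, hφ0]
        simp
      | succ m ih =>
        have h2 : φ (g ^ (m + 1)) - ((m + 1 : ℕ) : E) * φ g =
            (φ (g ^ m * g) - (φ (g ^ m) + φ g)) + (φ (g ^ m) - m * φ g) := by
          rw [pow_succ]
          push_cast
          ring
        rw [h2]
        exact add_lt (hφm _ _) ih
    refine ⟨1, ?_⟩
    show ‖φ (g ^ p ^ 1)‖ < 1
    rw [pow_one]
    have h2 : φ (g ^ p) = (φ (g ^ p) - p * φ g) + p * φ g := by ring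
    rw [h2]
    refine add_lt (h1 p) ?_
    rw [norm_mul, Gn.norm_p p E]
    have h3 : ‖φ g‖ ≤ 1 := (dot_le_one hΛ _).trans (hx1 g)
    have h4 : (p : ℝ)⁻¹ < 1 := inv_lt_one_of_one_lt₀ (by exact_mod_cast hp.out.one_lt)
    calc (p : ℝ)⁻¹ * ‖φ g‖ ≤ (p : ℝ)⁻¹ * 1 := mul_le_mul_of_nonneg_left h3 (by positivity)
      _ < 1 := by rw [mul_one]; exact h4
  -- scalars are congruent to 1
  have hsc : ∀ τ (c : E), ρ τ = c • 1 → ‖c - 1‖ < 1 := by
    intro τ c hc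
    obtain ⟨k, hk⟩ := hnil τ
    have h1 : ρ τ - 1 = (c - 1) • (1 : Matrix (Fin n) (Fin n) E) := by
      rw [hc, sub_smul, one_smul]
    have h2 := hk ⟨0, hn0⟩ ⟨0, hn0⟩
    rw [h1, smul_pow, one_pow, Matrix.smul_apply, Matrix.one_apply_eq, smul_eq_mul, mul_one,
      norm_pow] at h2
    by_contra hcon
    exact absurd h2 (not_lt.2 (one_le_pow₀ (not_lt.1 hcon)))
  have hloc : ∀ j, ∃ (g : G) (w : Fin n → E), (∀ τ ∈ N j, ∃ c : E, ‖c‖ < 1 ∧ x τ = c • w) ∧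
      x g = (ρ g - 1) *ᵥ w ∧ (ρ g - 1).det ≠ 0 ∧
      ∀ a : E, ‖a‖ < 1 → ‖a‖ ≤ ‖(ρ g - 1).det‖ := by
    intro j
    obtain ⟨g, w, h1, h2, h3, h4⟩ := hj j
    refine ⟨g, w, fun τ hτ => ?_, ?_, h3, h4⟩
    · obtain ⟨c, hc, hc'⟩ := h1 τ hτ
      refine ⟨c - 1, hsc τ c hc, ?_⟩
      rw [hc', hc, smul_mulVec, one_mulVec, sub_smul, one_smul]
    · rw [sub_mulVec, one_mulVec]
      exact h2
  have hstep1 : ∀ g, ‖φ g‖ < 1 := by
    intro g
    obtain ⟨d, hd, hd'⟩ := hgen W' hW'n hW'o hW'p (fun σ hσ => by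
      show ‖φ σ‖ < 1
      have h1 : φ σ = 0 := by simp only [hφ]; rw [hxI σ hσ, dotProduct_zero]
      rw [h1, norm_zero]
      exact one_pos) (fun j τ hτ => by
      show ‖φ τ‖ < 1
      obtain ⟨g, w, h1, h2, h3, h4⟩ := hloc j
      obtain ⟨c, hc, hc'⟩ := h1 τ hτ
      obtain ⟨k, hk⟩ := hnil g
      simp only [hφ]
      rw [hc']
      refine claimD (hn j) (hρ1 g) hΛ (hΛρ g) h3 h4 hk ?_ hc
      rw [← h2]
      exact hx1 g) g
    have h1 : ‖φ (d⁻¹ * g)‖ < 1 := hd'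
    have h2 : φ d = 0 := by simp only [hφ]; rw [hxD d hd, dotProduct_zero]
    have h3 := hφm d (d⁻¹ * g)
    rw [mul_inv_cancel_left, h2, zero_add] at h3
    have h4 : φ g = (φ g - φ (d⁻¹ * g)) + φ (d⁻¹ * g) := by ring
    rw [h4]
    exact add_lt h3 h1
  -- second step
  let W : Subgroup G :=
    { carrier := {g | ‖x g‖ < 1 ∧ ∀ i j, ‖(ρ g - 1) i j‖ < 1}
      mul_mem' := by
        rintro g h ⟨hg, hg'⟩ ⟨hh, hh'⟩
        refine ⟨?_, fun i j => ?_⟩
        · rw [hmul]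
          exact add_lt hg ((mv_le (hρi g) _).trans_lt hh)
        · have h1 : ρ (g * h) - 1 = (ρ g - 1) + ρ g * (ρ h - 1) := by
            rw [map_mul, mul_sub, mul_one]
            abel
          rw [h1, Matrix.add_apply, Matrix.mul_apply]
          refine add_lt (hg' i j) (Gn.sr_sum _ _ one_pos fun a _ => ?_)
          rw [norm_mul]
          calc ‖ρ g i a‖ * ‖(ρ h - 1) a j‖ ≤ 1 * ‖(ρ h - 1) a j‖ :=
                mul_le_mul_of_nonneg_right (hρi g i a) (norm_nonneg _)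
            _ < 1 := by rw [one_mul]; exact hh' a j
      one_mem' := by
        refine ⟨?_, fun i j => ?_⟩
        · rw [hx0, norm_zero]
          exact one_pos
        · rw [map_one, sub_self, Matrix.zero_apply, norm_zero]
          exact one_pos
      inv_mem' := by
        rintro g ⟨hg, hg'⟩
        refine ⟨?_, fun i j => ?_⟩
        · have h1 : x g⁻¹ = -(ρ g⁻¹ *ᵥ x g) := by
            have h2 := hmul g⁻¹ g
            rw [inv_mul_cancel, hx0] at h2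
            exact (neg_eq_of_add_eq_zero_left h2.symm).symm
          rw [h1, norm_neg]
          exact (mv_le (hρi _) _).trans_lt hg
        · have h1 : ρ g⁻¹ - 1 = -(ρ g⁻¹ * (ρ g - 1)) := by
            rw [mul_sub, mul_one, ← map_mul, inv_mul_cancel, map_one]
            abel
          rw [h1, Matrix.neg_apply, norm_neg, Matrix.mul_apply]
          refine Gn.sr_sum _ _ one_pos fun a _ => ?_
          rw [norm_mul]
          calc ‖ρ g⁻¹ i a‖ * ‖(ρ g - 1) a j‖ ≤ 1 * ‖(ρ g - 1) a j‖ :=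
                mul_le_mul_of_nonneg_right (hρi _ i a) (norm_nonneg _)
            _ < 1 := by rw [one_mul]; exact hg' a j }
  have hWn : W.Normal := by
    constructor
    rintro h ⟨hh, hh'⟩ g
    have hρc : ∀ i j, ‖(ρ (g * h * g⁻¹) - 1) i j‖ < 1 := by
      intro i j
      have h1 : ρ (g * h * g⁻¹) - 1 = ρ g * (ρ h - 1) * ρ g⁻¹ := by
        rw [mul_sub, sub_mul, mul_one, ← map_mul, ← map_mul, ← map_mul, mul_inv_cancel, map_one]
      rw [h1, Matrix.mul_apply]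
      refine Gn.sr_sum _ _ one_pos fun a _ => ?_
      rw [norm_mul, Matrix.mul_apply]
      have h2 : ‖∑ b, ρ g i b * (ρ h - 1) b a‖ < 1 := by
        refine Gn.sr_sum _ _ one_pos fun b _ => ?_
        rw [norm_mul]
        calc ‖ρ g i b‖ * ‖(ρ h - 1) b a‖ ≤ 1 * ‖(ρ h - 1) b a‖ :=
              mul_le_mul_of_nonneg_right (hρi _ i b) (norm_nonneg _)
          _ < 1 := by rw [one_mul]; exact hh' b a
      calc ‖∑ b, ρ g i b * (ρ h - 1) b a‖ * ‖ρ g⁻¹ a j‖ ≤ ‖∑ b, ρ g i b * (ρ h - 1) b a‖ * 1 :=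
            mul_le_mul_of_nonneg_left (hρi _ a j) (norm_nonneg _)
        _ < 1 := by rw [mul_one]; exact h2
    refine ⟨?_, hρc⟩
    have h1 : x (g * h * g⁻¹) = ρ g *ᵥ x h - (ρ (g * h * g⁻¹) - 1) *ᵥ x g := by
      have h2 : x g⁻¹ = -(ρ g⁻¹ *ᵥ x g) := by
        have h3 := hmul g⁻¹ g
        rw [inv_mul_cancel, hx0] at h3
        exact (neg_eq_of_add_eq_zero_left h3.symm).symm
      rw [hmul, hmul, h2, mulVec_neg, mulVec_mulVec, ← map_mul, sub_mulVec, one_mulVec]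
      abel
    rw [h1]
    exact sub_lt ((mv_le (hρi g) _).trans_lt hh) (mv_lt hρc (hx1 g))
  have hWo : IsOpen (W : Set G) := by
    have h1 : IsOpen {g : G | ‖x g‖ < 1} := isOpen_lt hx.norm continuous_const
    have h2 : ∀ i j, IsOpen {g : G | ‖(ρ g - 1) i j‖ < 1} := by
      intro i j
      refine isOpen_lt (Continuous.norm ?_) continuous_const
      have h3 : Continuous fun g => (ρ g) i j := (hcont.matrix_elem i j)
      exact h3.sub continuous_const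
    have h3 : (W : Set G) = {g : G | ‖x g‖ < 1} ∩ ⋂ i, ⋂ j, {g : G | ‖(ρ g - 1) i j‖ < 1} := by
      ext g
      simp only [Set.mem_inter_iff, Set.mem_iInter, Set.mem_ofPred_eq]
      rfl
    rw [h3]
    exact h1.inter (isOpen_iInter_of_finite fun i => isOpen_iInter_of_finite fun j => h2 i j)
  have hWp : ∀ g, ∃ k : ℕ, g ^ p ^ k ∈ W := by
    intro g
    have h1 : ∀ᶠ k : ℕ in Filter.atTop, ∀ i j, ‖(ρ (g ^ p ^ k) - 1) i j‖ < 1 := by
      refine Filter.eventually_all.2 fun i => Filter.eventually_all.2 fun j => ?_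
      have h3 : Filter.Tendsto (fun k : ℕ => (ρ (g ^ p ^ k)) i j) Filter.atTop
          (nhds ((1 : Matrix (Fin n) (Fin n) E) i j)) :=
        (tendsto_pi_nhds.1 ((tendsto_pi_nhds.1 (hpro g)) i)) j
      have h4 := (h3.sub_const ((1 : Matrix (Fin n) (Fin n) E) i j)).norm
      rw [sub_self, norm_zero] at h4
      exact h4.eventually_lt_const one_pos
    have h2 : ∀ᶠ k : ℕ in Filter.atTop, ‖x (g ^ p ^ k)‖ < 1 := by
      have h3 := (Gn.sx_tendsto (hpro g) hmul).norm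
      rw [norm_zero] at h3
      exact h3.eventually_lt_const one_pos
    obtain ⟨k, hk, hk'⟩ := (h2.and h1).exists
    exact ⟨k, hk, hk'⟩
  obtain ⟨d, hd, hd'⟩ := hgen W hWn hWo hWp (fun σ hσ => by
    refine ⟨?_, fun i j => ?_⟩
    · rw [hxI σ hσ, norm_zero]
      exact one_pos
    · rw [hI σ hσ, sub_self, Matrix.zero_apply, norm_zero]
      exact one_pos) (fun j τ hτ => by
    obtain ⟨g, w, h1, h2, h3, h4⟩ := hloc j
    obtain ⟨c, hc, hc'⟩ := h1 τ hτ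
    have h5 : ‖w‖ ≤ 1 := by
      refine claimB (hρ1 g) hΛ (hΛρ g) h3 h4 ?_ ?_
      · rw [← h2]
        exact hx1 g
      · rw [← h2]
        exact hstep1 g
    refine ⟨?_, fun a b => ?_⟩
    · rw [hc', norm_smul]
      calc ‖c‖ * ‖w‖ ≤ ‖c‖ * 1 := mul_le_mul_of_nonneg_left h5 (norm_nonneg _)
        _ < 1 := by rw [mul_one]; exact hc
    · obtain ⟨g', w', h6, -⟩ := hj j
      obtain ⟨c', hc1, -⟩ := h6 τ hτ
      have h7 : ρ τ - 1 = (c' - 1) • (1 : Matrix (Fin n) (Fin n) E) := by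
        rw [hc1, sub_smul, one_smul]
      rw [h7, Matrix.smul_apply, smul_eq_mul, norm_mul]
      have h8 : ‖(1 : Matrix (Fin n) (Fin n) E) a b‖ ≤ 1 := by
        rw [Matrix.one_apply]
        split_ifs <;> simp
      calc ‖c' - 1‖ * ‖(1 : Matrix (Fin n) (Fin n) E) a b‖ ≤ ‖c' - 1‖ * 1 :=
            mul_le_mul_of_nonneg_left h8 (norm_nonneg _)
        _ < 1 := by rw [mul_one]; exact hsc τ c' hc1) g
  have h1 : ‖x (d⁻¹ * g)‖ < 1 := hd'.1
  have h2 := hmul d (d⁻¹ * g)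
  rw [mul_inv_cancel_left, hxD d hd, zero_add] at h2
  rw [h2]
  exact (mv_le (hρi d) _).trans_lt h1

end core

section basis

variable {G : Type*} [Group G] [TopologicalSpace G] [IsTopologicalGroup G] [CompactSpace G]
variable {p : ℕ} [hp : Fact p.Prime]
variable {E : Type*} [NormedField E] [NormedAlgebra ℚ_[p] E] [FiniteDimensional ℚ_[p] E]
variable {n : ℕ}

/-- a basis in which the representation is integral -/
theorem exists_basis (p : ℕ) [hp : Fact p.Prime] [NormedAlgebra ℚ_[p] E]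
    [FiniteDimensional ℚ_[p] E] {ρ : G →* Matrix (Fin n) (Fin n) E} (hcont : Continuous ρ) :
    ∃ B : Matrix (Fin n) (Fin n) E, B.det ≠ 0 ∧ ∀ g i j, ‖(B⁻¹ * ρ g * B) i j‖ ≤ 1 := by
  classical
  have hu := Gn.ultra p E
  have hpr : ProperSpace E := FiniteDimensional.proper ℚ_[p] E
  -- the representation is bounded
  obtain ⟨R, hR0, hR⟩ : ∃ R : ℝ, 0 < R ∧ ∀ g i j, ‖ρ g i j‖ ≤ R := by
    have h1 : ∀ i j, ∃ R : ℝ, ∀ g, ‖ρ g i j‖ ≤ R := by
      intro i j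
      have h2 : Continuous fun g => ρ g i j := hcont.matrix_elem i j
      obtain ⟨R, hR⟩ := isCompact_univ.exists_bound_of_continuousOn h2.continuousOn
      exact ⟨R, fun g => hR g (Set.mem_univ g)⟩
    choose R hR using h1
    refine ⟨1 + ∑ i, ∑ j, |R i j|, by positivity, fun g i j => ?_⟩
    have h3 : |R i j| ≤ ∑ j, |R i j| :=
      Finset.single_le_sum (f := fun j => |R i j|) (fun _ _ => abs_nonneg _) (Finset.mem_univ j)
    have h4 : ∑ j, |R i j| ≤ ∑ i, ∑ j, |R i j| :=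
      Finset.single_le_sum (f := fun i => ∑ j, |R i j|)
        (fun _ _ => Finset.sum_nonneg fun _ _ => abs_nonneg _) (Finset.mem_univ i)
    linarith [hR i j g, le_abs_self (R i j)]
  let TT : Set (Fin n → Fin n → E) := {A | ∀ g i, ‖ρ g *ᵥ A i‖ ≤ 1}
  have hTc : IsClosed TT := by
    have h1 : TT = ⋂ g, ⋂ i, {A : Fin n → Fin n → E | ‖ρ g *ᵥ A i‖ ≤ 1} := by
      ext A
      simp only [Set.mem_iInter]
      rfl
    rw [h1]
    refine isClosed_iInter fun g => isClosed_iInter fun i => ?_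
    refine isClosed_le (Continuous.norm ?_) continuous_const
    exact Continuous.matrix_mulVec continuous_const (continuous_apply i)
  have hTb : TT ⊆ Metric.closedBall 0 1 := by
    intro A hA
    rw [mem_closedBall_zero_iff]
    refine (pi_norm_le_iff_of_nonneg zero_le_one).2 fun i => ?_
    have h1 := hA 1 i
    rwa [map_one, one_mulVec] at h1
  have hTk : IsCompact TT := (isCompact_closedBall _ _).of_isClosed_subset hTc hTb
  obtain ⟨c, hc0, hc⟩ : ∃ c : E, c ≠ 0 ∧ ‖c‖ * R ≤ 1 := by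
    have h1 : (p : ℝ)⁻¹ < 1 := inv_lt_one_of_one_lt₀ (by exact_mod_cast hp.out.one_lt)
    obtain ⟨m, hm⟩ := exists_pow_lt_of_lt_one (inv_pos.2 hR0) h1
    have hp0 : (p : E) ≠ 0 := by
      intro h
      have h2 := Gn.norm_p p E
      rw [h, norm_zero] at h2
      have h3 : (0 : ℝ) < (p : ℝ)⁻¹ := inv_pos.2 (by exact_mod_cast hp.out.pos)
      rw [← h2] at h3
      exact lt_irrefl _ h3
    refine ⟨(p : E) ^ m, pow_ne_zero _ hp0, ?_⟩
    rw [norm_pow, Gn.norm_p p E]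
    calc ((p : ℝ)⁻¹) ^ m * R ≤ R⁻¹ * R := mul_le_mul_of_nonneg_right hm.le hR0.le
      _ = 1 := inv_mul_cancel₀ hR0.ne'
  have hTne : (fun i => Pi.single i c : Fin n → Fin n → E) ∈ TT := by
    intro g i
    refine (pi_norm_le_iff_of_nonneg zero_le_one).2 fun a => ?_
    rw [mulVec_single]
    show ‖ρ g a i * c‖ ≤ 1
    rw [norm_mul, mul_comm]
    exact (mul_le_mul_of_nonneg_left (hR g a i) (norm_nonneg _)).trans hc
  have hcd : Continuous fun A : Fin n → Fin n → E => ‖(Matrix.of A).det‖ :=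
    (Continuous.matrix_det continuous_id).norm
  obtain ⟨A, hA, hmax⟩ := hTk.exists_isMaxOn ⟨_, hTne⟩ hcd.continuousOn
  have hdet0 : (Matrix.of A).det ≠ 0 := by
    intro h
    have h1 := hmax hTne
    simp only [Set.mem_ofPred_eq, h, norm_zero] at h1
    have h2 : (Matrix.of fun i => Pi.single i c : Matrix (Fin n) (Fin n) E) =
        Matrix.diagonal fun _ => c := by
      ext i j
      rw [Matrix.of_apply, Matrix.diagonal_apply, Pi.single_apply]
      congr 1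
      exact propext eq_comm
    have h3 : (Matrix.of fun i => Pi.single i c : Matrix (Fin n) (Fin n) E).det ≠ 0 := by
      rw [h2, Matrix.det_diagonal]
      exact Finset.prod_ne_zero_iff.2 fun _ _ => hc0
    exact h3 (norm_le_zero_iff.1 h1)
  have hA0 : 0 < ‖(Matrix.of A).det‖ := norm_pos_iff.2 hdet0
  refine ⟨(Matrix.of A)ᵀ, by rwa [Matrix.det_transpose], fun g i j => ?_⟩
  have h1 : ((Matrix.of A)ᵀ⁻¹ * ρ g * (Matrix.of A)ᵀ) i j =
      ((Matrix.of A)ᵀ⁻¹ *ᵥ (ρ g *ᵥ A j)) i := by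
    rw [Matrix.mul_assoc, mulVec_mulVec, Matrix.mul_apply, ← mulVec_mulVec]
    rfl
  rw [h1, Matrix.inv_def, smul_mulVec, Pi.smul_apply, smul_eq_mul, Ring.inverse_eq_inv',
    ← Matrix.cramer_eq_adjugate_mulVec, Matrix.cramer_transpose_apply, Matrix.det_transpose,
    norm_mul, norm_inv, inv_mul_le_iff₀ hA0, mul_one]
  have h2 : (Function.update A i (ρ g *ᵥ A j)) ∈ TT := by
    intro h a
    rw [Function.update_apply]
    split_ifs with hai
    · rw [mulVec_mulVec, ← map_mul]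
      exact hA (h * g) j
    · exact hA h a
  exact hmax h2

end basis

section main

variable {G : Type*} [Group G] [TopologicalSpace G] [IsTopologicalGroup G] [CompactSpace G]
variable {p : ℕ} [hp : Fact p.Prime]
variable {E : Type*} [NormedField E] [NormedAlgebra ℚ_[p] E] [FiniteDimensional ℚ_[p] E]
variable {n : ℕ} {I : Set G} {D : Subgroup G} {J : Type*} {N C : J → Subgroup G}

/-- a cocycle that is a coboundary on a normal subgroup that acts by scalars, not all 1, is a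
coboundary, with the same vector -/
theorem cob_extend {ρ : G →* Matrix (Fin n) (Fin n) E} {x : G → Fin n → E}
    (hmul : ∀ g h, x (g * h) = x g + ρ g *ᵥ x h) {N C : Subgroup G}
    (hN : ∀ g ∈ C, ∀ τ ∈ N, g * τ * g⁻¹ ∈ N) (hsc : ∀ τ ∈ N, ∃ c : E, ρ τ = c • 1)
    (hne : ∃ τ ∈ N, ρ τ ≠ 1) {w : Fin n → E} (hw : ∀ τ ∈ N, x τ = ρ τ *ᵥ w - w) {g : G}
    (hg : g ∈ C) : x g = ρ g *ᵥ w - w := by
  obtain ⟨τ, hτ, hτ1⟩ := hne
  obtain ⟨c, hc⟩ := hsc τ hτ
  have hc1 : 1 - c ≠ 0 := by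
    intro h
    apply hτ1
    rw [hc, ← sub_eq_zero.1 h, one_smul]
  have h1 : ρ (g * τ * g⁻¹) = c • 1 := by
    rw [map_mul, map_mul, hc, mul_smul_comm, mul_one, smul_mul_assoc, ← map_mul, mul_inv_cancel,
      map_one]
  have h2 := hmul (g * τ * g⁻¹) g
  rw [inv_mul_cancel_right, hw _ (hN g hg τ hτ), h1, hmul g τ, hw τ hτ, hc] at h2
  simp only [smul_mulVec, one_mulVec, mulVec_sub, mulVec_smul] at h2
  have h3 : (1 - c) • x g = (1 - c) • (ρ g *ᵥ w - w) := by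
    ext i
    have h4 := congrFun h2 i
    simp only [Pi.add_apply, Pi.sub_apply, Pi.smul_apply, smul_eq_mul] at h4 ⊢
    linear_combination h4
  have h5 := congrArg (fun v => (1 - c)⁻¹ • v) h3
  simpa only [smul_smul, inv_mul_cancel₀ hc1, one_smul] using h5

theorem zero_of_decomp (hgen : Gen p I D N) (hN : ∀ j, ∀ g ∈ C j, ∀ τ ∈ N j, g * τ * g⁻¹ ∈ N j)
    {ρ : G →* Matrix (Fin n) (Fin n) E} (hcont : Continuous ρ)
    (hpro : ∀ g, Filter.Tendsto (fun k : ℕ => ρ (g ^ p ^ k)) Filter.atTop (nhds 1))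
    (hI : ∀ σ ∈ I, ρ σ = 1) (hn : ∀ _ : J, n ≠ 1)
    (hsc : ∀ j, ∀ τ ∈ N j, ∃ c : E, ρ τ = c • 1) (hne : ∀ j, ∃ τ ∈ N j, ρ τ ≠ 1)
    (hdet : ∀ j, ∃ g ∈ C j, (1 - ρ g).det ≠ 0 ∧ ∀ a : E, ‖a‖ < 1 → ‖a‖ ≤ ‖(1 - ρ g).det‖)
    {x : G → Fin n → E} (hx : Parity.IsCocycle ρ x) (hxI : ∀ σ ∈ I, x σ = 0)
    (hxN : ∀ j, ∃ w : Fin n → E, ∀ τ ∈ N j, x τ = ρ τ *ᵥ w - w) (hxD : ∀ d ∈ D, x d = 0) :
    x = 0 := by
  classical
  have hu := Gn.ultra p E
  rcases Nat.eq_zero_or_pos n with hn0 | hn0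
  · subst hn0
    exact funext fun g => Subsingleton.elim _ _
  obtain ⟨hxc, hmul⟩ := hx
  obtain ⟨B, hB, hBi⟩ := exists_basis (G := G) p hcont
  have hBu : IsUnit B.det := isUnit_iff_ne_zero.2 hB
  have hBB : B⁻¹ * B = 1 := Matrix.nonsing_inv_mul B hBu
  have hBB' : B * B⁻¹ = 1 := Matrix.mul_nonsing_inv B hBu
  -- the new representation
  let ρ' : G →* Matrix (Fin n) (Fin n) E :=
    { toFun := fun g => B⁻¹ * ρ g * B
      map_one' := by rw [map_one, Matrix.mul_one, hBB]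
      map_mul' := fun g h => by
        rw [map_mul]
        calc B⁻¹ * (ρ g * ρ h) * B = B⁻¹ * ρ g * 1 * ρ h * B := by
              rw [Matrix.mul_one]; simp only [Matrix.mul_assoc]
          _ = B⁻¹ * ρ g * (B * B⁻¹) * ρ h * B := by rw [hBB']
          _ = B⁻¹ * ρ g * B * (B⁻¹ * ρ h * B) := by simp only [Matrix.mul_assoc] }
  have hρ' : ∀ g, ρ' g = B⁻¹ * ρ g * B := fun g => rfl
  have hρ'v : ∀ g (v : Fin n → E), ρ' g *ᵥ (B⁻¹ *ᵥ v) = B⁻¹ *ᵥ (ρ g *ᵥ v) := by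
    intro g v
    rw [hρ', mulVec_mulVec, mulVec_mulVec, Matrix.mul_assoc, Matrix.mul_assoc, hBB',
      Matrix.mul_one]
  have hcont' : Continuous ρ' := by
    show Continuous fun g => B⁻¹ * ρ g * B
    exact (continuous_const.matrix_mul hcont).matrix_mul continuous_const
  have hpro' : ∀ g, Filter.Tendsto (fun k : ℕ => ρ' (g ^ p ^ k)) Filter.atTop (nhds 1) := by
    intro g
    have h1 : Filter.Tendsto (fun k : ℕ => B⁻¹ * ρ (g ^ p ^ k) * B) Filter.atTop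
        (nhds (B⁻¹ * 1 * B)) := by
      have h2 : Continuous fun A : Matrix (Fin n) (Fin n) E => B⁻¹ * A * B :=
        (continuous_const.matrix_mul continuous_id).matrix_mul continuous_const
      exact (h2.tendsto 1).comp (hpro g)
    rwa [Matrix.mul_one, hBB] at h1
  have hdet' : ∀ g, (ρ' g - 1).det = (-1) ^ n * (1 - ρ g).det := by
    intro g
    have h1 : ρ' g - 1 = B⁻¹ * (-(1 - ρ g)) * B := by
      rw [hρ', neg_sub, Matrix.mul_sub, Matrix.sub_mul, Matrix.mul_one, hBB]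
    rw [h1, Matrix.det_mul, Matrix.det_mul, Matrix.det_neg, Fintype.card_fin,
      Matrix.det_nonsing_inv, mul_comm (Ring.inverse B.det), mul_assoc,
      Ring.inverse_mul_cancel _ hBu, mul_one]
  by_contra hx0
  -- scaling
  set y : G → Fin n → E := fun g => B⁻¹ *ᵥ x g with hy
  have hyc : Continuous y := Continuous.matrix_mulVec continuous_const hxc
  obtain ⟨g0, hg0⟩ : ∃ g0, ∀ g, ‖y g‖ ≤ ‖y g0‖ := by
    obtain ⟨g0, -, h⟩ := isCompact_univ.exists_isMaxOn ⟨1, Set.mem_univ _⟩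
      (f := fun g => ‖y g‖) hyc.norm.continuousOn
    exact ⟨g0, fun g => h (Set.mem_univ g)⟩
  have hy0 : y g0 ≠ 0 := by
    intro h
    apply hx0
    funext g
    have h1 : y g = 0 := by
      have h2 := hg0 g
      rw [h, norm_zero] at h2
      exact norm_le_zero_iff.1 h2
    have h2 : B *ᵥ y g = x g := by
      rw [hy]
      show B *ᵥ (B⁻¹ *ᵥ x g) = x g
      rw [mulVec_mulVec, hBB', one_mulVec]
    rw [← h2, h1, mulVec_zero]
    rfl
  obtain ⟨i, hi⟩ : ∃ i, ‖y g0 i‖ = ‖y g0‖ := by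
    have hne : (Finset.univ : Finset (Fin n)).Nonempty := ⟨⟨0, hn0⟩, Finset.mem_univ _⟩
    obtain ⟨i, -, hi⟩ := Finset.exists_max_image Finset.univ (fun i => ‖y g0 i‖) hne
    refine ⟨i, le_antisymm (norm_le_pi_norm _ i) ?_⟩
    exact (pi_norm_le_iff_of_nonneg (norm_nonneg _)).2 fun a => hi a (Finset.mem_univ a)
  have hyp : 0 < ‖y g0‖ := norm_pos_iff.2 hy0
  set c : E := (y g0 i)⁻¹ with hc
  have hcn : ‖c‖ = ‖y g0‖⁻¹ := by rw [hc, norm_inv, hi]
  have hlt := core_int (p := p) hgen (ρ := ρ') hcont' hBi hpro' (fun σ hσ => by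
      rw [hρ', hI σ hσ, Matrix.mul_one, hBB]) hn0 (fun j => by have := hn j; omega)
    (x := fun g => c • y g)
    (hyc.const_smul c) (fun g h => by
      show c • (B⁻¹ *ᵥ x (g * h)) = c • (B⁻¹ *ᵥ x g) + ρ' g *ᵥ (c • (B⁻¹ *ᵥ x h))
      rw [hmul, mulVec_add, smul_add, mulVec_smul, hρ'v]) (fun σ hσ => by
      show c • (B⁻¹ *ᵥ x σ) = 0
      rw [hxI σ hσ, mulVec_zero, smul_zero]) (fun d hd => by
      show c • (B⁻¹ *ᵥ x d) = 0
      rw [hxD d hd, mulVec_zero, smul_zero]) (fun g => by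
      rw [norm_smul, hcn, inv_mul_le_iff₀ hyp, mul_one]
      exact hg0 g) (fun j => by
      obtain ⟨w, hw⟩ := hxN j
      obtain ⟨g, hg, hd0, hd2⟩ := hdet j
      have hd3 : ‖(ρ' g - 1).det‖ = ‖(1 - ρ g).det‖ := by
        rw [hdet', norm_mul, norm_pow, norm_neg, norm_one, one_pow, one_mul]
      refine ⟨g, c • (B⁻¹ *ᵥ w), fun τ hτ => ?_, ?_, ?_, ?_⟩
      · obtain ⟨a, ha⟩ := hsc j τ hτ
        refine ⟨a, ?_, ?_⟩
        · rw [hρ', ha, Matrix.mul_smul, Matrix.mul_one, Matrix.smul_mul, hBB]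
        · show c • (B⁻¹ *ᵥ x τ) = _
          rw [hw τ hτ, mulVec_sub, smul_sub, mulVec_smul, hρ'v]
      · show c • (B⁻¹ *ᵥ x g) = _
        rw [cob_extend hmul (hN j) (hsc j) (hne j) hw hg, mulVec_sub, smul_sub, mulVec_smul,
          hρ'v]
      · rw [← norm_ne_zero_iff, hd3, norm_ne_zero_iff]
        exact hd0
      · rw [hd3]
        exact hd2) g0
  rw [norm_smul, hcn, inv_mul_cancel₀ hyp.ne'] at hlt
  exact lt_irrefl _ hlt

/-- the same for a cocycle that is a coboundary on `D` -/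
theorem cob_of_decomp (hgen : Gen p I D N)
    (hN : ∀ j, ∀ g ∈ C j, ∀ τ ∈ N j, g * τ * g⁻¹ ∈ N j)
    {ρ : G →* Matrix (Fin n) (Fin n) E} (hcont : Continuous ρ)
    (hpro : ∀ g, Filter.Tendsto (fun k : ℕ => ρ (g ^ p ^ k)) Filter.atTop (nhds 1))
    (hI : ∀ σ ∈ I, ρ σ = 1) (hn : ∀ _ : J, n ≠ 1)
    (hsc : ∀ j, ∀ τ ∈ N j, ∃ c : E, ρ τ = c • 1) (hne : ∀ j, ∃ τ ∈ N j, ρ τ ≠ 1)
    (hdet : ∀ j, ∃ g ∈ C j, (1 - ρ g).det ≠ 0 ∧ ∀ a : E, ‖a‖ < 1 → ‖a‖ ≤ ‖(1 - ρ g).det‖)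
    {x : G → Fin n → E} (hx : Parity.IsCocycle ρ x) (hxI : ∀ σ ∈ I, x σ = 0)
    (hxN : ∀ j, ∃ w : Fin n → E, ∀ τ ∈ N j, x τ = ρ τ *ᵥ w - w) {v : Fin n → E}
    (hxD : ∀ d ∈ D, x d = ρ d *ᵥ v - v) (g : G) : x g = ρ g *ᵥ v - v := by
  have h1 : (fun g => x g - (ρ g *ᵥ v - v)) = 0 := by
    refine zero_of_decomp (p := p) hgen hN hcont hpro hI hn hsc hne hdet ⟨?_, ?_⟩ ?_ ?_ ?_
    · exact hx.1.sub ((Continuous.matrix_mulVec hcont continuous_const).sub continuous_const)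
    · intro g h
      simp only [hx.2 g h, map_mul, mulVec_sub, ← mulVec_mulVec]
      abel
    · intro σ hσ
      simp only [hxI σ hσ, hI σ hσ, one_mulVec, sub_self]
    · intro j
      obtain ⟨w, hw⟩ := hxN j
      refine ⟨w - v, fun τ hτ => ?_⟩
      simp only [hw τ hτ, mulVec_sub]
      abel
    · intro d hd
      simp only [hxD d hd, sub_self]
  have h2 := congrFun h1 g
  exact sub_eq_zero.1 h2

/-- the vectors fixed by `D` are fixed by `G` -/
theorem fixed_of_decomp (hgen : Gen p I D N)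
    (hN : ∀ j, ∀ g ∈ C j, ∀ τ ∈ N j, g * τ * g⁻¹ ∈ N j)
    {ρ : G →* Matrix (Fin n) (Fin n) E} (hcont : Continuous ρ)
    (hpro : ∀ g, Filter.Tendsto (fun k : ℕ => ρ (g ^ p ^ k)) Filter.atTop (nhds 1))
    (hI : ∀ σ ∈ I, ρ σ = 1) (hn : ∀ _ : J, n ≠ 1)
    (hsc : ∀ j, ∀ τ ∈ N j, ∃ c : E, ρ τ = c • 1) (hne : ∀ j, ∃ τ ∈ N j, ρ τ ≠ 1)
    (hdet : ∀ j, ∃ g ∈ C j, (1 - ρ g).det ≠ 0 ∧ ∀ a : E, ‖a‖ < 1 → ‖a‖ ≤ ‖(1 - ρ g).det‖)
    {v : Fin n → E} (hv : ∀ d ∈ D, ρ d *ᵥ v = v) (g : G) : ρ g *ᵥ v = v := by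
  have h1 := cob_of_decomp (p := p) hgen hN hcont hpro hI hn hsc hne hdet (x := 0) (v := v)
    ⟨continuous_zero, fun g h => by simp⟩ (fun _ _ => rfl) (fun j => ⟨0, fun τ _ => by simp⟩)
    (fun d hd => by rw [hv d hd, sub_self]; rfl) g
  exact (sub_eq_zero.1 h1.symm)

end main

end Pool.Agent.Work.MP_787500_nt.GP.Bd
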