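import Mathlib
import Pool.Agent.Work.MP_787500_nt.GP.FinDefs

/-!
# Module U_PAR: from the parity formula to parity and upper bound

If the parity formula holds for a family `D w`, every global cocycle is a coboundary on `D w` and there are no
fixed vectors for `w ≠ w0`, and every global cocycle that is a coboundary on `D w0` is a coboundary (with the
same vector), then `ParityBound` holds for `D w0`.
-/

set_option autoImplicit false
set_option linter.unusedSectionVars false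

namespace Pool.Agent.Work.MP_787500_nt.GP

open Matrix
open Pool.Agent.Work.MP_787500_nt.Parity

section

variable {G : Type*} [Group G] [TopologicalSpace G]
variable {E : Type*} [NormedField E] {n : ℕ}

theorem dimModulo_self {A : Type*} [AddCommGroup A] [Module E A] (M : Submodule E A) :
    dimModulo M M = 0 := by
  rw [dimModulo, Submodule.submoduleOf_self]
  have : Subsingleton (M ⧸ (⊤ : Submodule E M)) := Submodule.Quotient.subsingleton_iff.2 rfl
  exact Module.finrank_zero_of_subsingleton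

theorem isPerp_cob {H : Type*} [Group H] [TopologicalSpace H] {χ : H → E}
    {A B : H → Matrix (Fin n) (Fin n) E} {b : Matrix (Fin n) (Fin n) E}
    (hdual : ∀ σ, (A σ)ᵀ * b * B σ = χ σ • b) {y : H → Fin n → E} (hy : Parity.IsCocycle B y) :
    IsPerp χ B b (coboundaries A : Submodule E (H → Fin n → E)) y := by
  refine ⟨hy, ?_⟩
  rintro x ⟨v, hv⟩
  refine ⟨fun σ => v ⬝ᵥ (b *ᵥ y σ), ?_, fun σ τ => ?_⟩
  · exact Continuous.dotProduct continuous_const
      (Continuous.matrix_mulVec continuous_const hy.1)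
  · have h1 : (A σ *ᵥ v) ⬝ᵥ (b *ᵥ (B σ *ᵥ y τ)) = χ σ * (v ⬝ᵥ (b *ᵥ y τ)) := by
      have h2 : (A σ *ᵥ v) ⬝ᵥ (b *ᵥ (B σ *ᵥ y τ)) = v ⬝ᵥ (((A σ)ᵀ * b * B σ) *ᵥ y τ) := by
        rw [← mulVec_mulVec, ← mulVec_mulVec, Matrix.dotProduct_mulVec v (A σ)ᵀ,
          Matrix.vecMul_transpose]
      rw [h2, hdual, smul_mulVec, dotProduct_smul, smul_eq_mul]
    have h3 : B σ *ᵥ y τ = y (σ * τ) - y σ := by
      rw [hy.2]
      abel
    rw [hv, sub_dotProduct, h1, h3, mulVec_sub, dotProduct_sub]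
    ring

theorem finrank_inj {A A' : Type*} [AddCommGroup A] [Module E A] [AddCommGroup A'] [Module E A']
    {M C : Submodule E A} {L B : Submodule E A'} (r : A →ₗ[E] A') (hML : ∀ x ∈ M, r x ∈ L)
    (hinj : ∀ x ∈ M, r x ∈ B → x ∈ C) (hCB : ∀ x ∈ C, r x ∈ B)
    [FiniteDimensional E (L ⧸ B.submoduleOf L)] : dimModulo M C ≤ dimModulo L B := by
  let φ : M →ₗ[E] (L ⧸ B.submoduleOf L) :=
    (Submodule.mkQ (B.submoduleOf L)).comp ((r.domRestrict M).codRestrict L fun x => hML x x.2)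
  have hφ : ∀ x : M, φ x = 0 ↔ r x ∈ B := by
    intro x
    show Submodule.Quotient.mk _ = (0 : L ⧸ B.submoduleOf L) ↔ _
    rw [Submodule.Quotient.mk_eq_zero]
    rfl
  have hker : LinearMap.ker φ = C.submoduleOf M := by
    ext x
    rw [LinearMap.mem_ker, hφ]
    exact ⟨fun h => hinj x x.2 h, fun h => hCB x h⟩
  let ψ : (M ⧸ C.submoduleOf M) →ₗ[E] (L ⧸ B.submoduleOf L) :=
    Submodule.liftQ (C.submoduleOf M) φ hker.ge
  have hψ : LinearMap.ker ψ = ⊥ := Submodule.ker_liftQ_eq_bot _ _ _ hker.le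
  exact LinearMap.finrank_le_finrank_of_injective (LinearMap.ker_eq_bot.1 hψ)

theorem parityBound_of_formula {I : Set G} {χ : G → E} {κ : G → G}
    {ρ : G →* Matrix (Fin n) (Fin n) E} {b : Matrix (Fin n) (Fin n) E} {Φ : Type*} [Fintype Φ]
    {D : Φ → Subgroup G} (w0 : Φ) (H : ParityFormula I χ κ ρ b D) (hcont : Continuous ρ)
    (hκc : Continuous κ) (hκm : ∀ g h, κ (g * h) = κ g * κ h)
    (hdual : ∀ σ, (ρ σ)ᵀ * b * ρ (κ σ) = χ σ • b)
    (hcob : ∀ x, Parity.IsCocycle ρ x → (∀ σ ∈ I, x σ = 0) → ∀ w, w ≠ w0 →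
      ∃ v : Fin n → E, ∀ d ∈ D w, x d = ρ d *ᵥ v - v)
    (hfix : ∀ w, w ≠ w0 → ∀ v : Fin n → E, (∀ d ∈ D w, ρ d *ᵥ v = v) → v = 0)
    (hU : ∀ (x : G → Fin n → E) (v : Fin n → E), Parity.IsCocycle ρ x → (∀ σ ∈ I, x σ = 0) →
      (∀ d ∈ D w0, x d = ρ d *ᵥ v - v) → ∀ g, x g = ρ g *ᵥ v - v) :
    ParityBound I χ κ ρ b (D w0) := by
  classical
  intro L hL
  set L' : ∀ w, Submodule E (D w → Fin n → E) :=
    Function.update (fun w => coboundaries (fun σ : D w => ρ σ)) w0 L with hL'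
  have hL0 : L' w0 = L := Function.update_self _ _ _
  have hL1 : ∀ w, w ≠ w0 → L' w = coboundaries (fun σ : D w => ρ σ) := fun w hw =>
    Function.update_of_ne hw _ _
  have hcc : ∀ w, coboundaries (fun σ : D w => ρ σ) ≤ Parity.cocycles (fun σ : D w => ρ σ) := by
    rintro w x ⟨v, hv⟩
    refine ⟨?_, fun σ τ => ?_⟩
    · have h1 : x = fun σ : D w => ρ σ *ᵥ v - v := funext hv
      rw [h1]
      exact (Continuous.matrix_mulVec (hcont.comp continuous_subtype_val)
        continuous_const).sub continuous_const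
    · have h2 : ∀ σ : D w, x σ = ρ σ *ᵥ v - v := hv
      show x (σ * τ) = x σ + ρ σ *ᵥ x τ
      rw [h2, h2, h2, Subgroup.coe_mul, map_mul, mulVec_sub, mulVec_mulVec]
      abel
  obtain ⟨h1, h2, h3, h4⟩ := H L' (fun w => by
    by_cases hw : w = w0
    · subst hw
      rw [hL0]
      exact hL
    · rw [hL1 w hw]
      exact ⟨le_rfl, hcc w⟩)
  have hsel : selmerF I χ κ ρ b D L' = Parity.selmer I χ κ ρ b (D w0) L := by
    ext x
    constructor
    · rintro ⟨h5, h6, h7⟩
      have h8 := h7 w0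
      beta_reduce at h8
      rw [hL0] at h8
      exact ⟨h5, h6, h8.1, h8.2⟩
    · rintro ⟨h5, h6, h7, h8⟩
      refine ⟨h5, h6, fun w => ?_⟩
      beta_reduce
      by_cases hw : w = w0
      · subst hw
        rw [hL0]
        exact ⟨h7, h8⟩
      · rw [hL1 w hw]
        obtain ⟨v, hv⟩ := hcob x h5 h6 w hw
        refine ⟨⟨v, fun σ => hv σ σ.2⟩, isPerp_cob (H := D w) (χ := fun σ => χ σ)
          (A := fun σ => ρ σ) (B := fun σ => ρ (κ σ)) (fun σ => hdual σ) ⟨?_, fun σ τ => ?_⟩⟩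
        · exact h5.1.comp (hκc.comp continuous_subtype_val)
        · show x (κ (σ * τ)) = x (κ σ) + ρ (κ σ) *ᵥ x (κ τ)
          rw [hκm, h5.2]
  rw [hsel] at h2 h3 h4
  have h1' : FiniteDimensional E L := by
    have h5 := h1 w0
    rwa [hL0] at h5
  have hsum : ∑ w, (dimModulo (L' w) (coboundaries (fun σ : D w => ρ σ)) +
      Module.finrank E (fixedBy (fun σ : D w => ρ σ))) =
      dimModulo L (coboundaries (fun σ : D w0 => ρ σ)) +
      Module.finrank E (fixedBy (fun σ : D w0 => ρ σ)) := by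
    rw [Finset.sum_eq_single w0]
    · rw [hL0]
    · intro w _ hw
      rw [hL1 w hw, dimModulo_self, zero_add]
      have h5 : fixedBy (fun σ : D w => ρ σ) = ⊥ := by
        rw [eq_bot_iff]
        intro v hv
        exact hfix w hw v fun d hd => hv ⟨d, hd⟩
      rw [h5]
      exact finrank_bot E _
    · intro h
      exact absurd (Finset.mem_univ _) h
  have hfixed : fixedBy (fun σ : D w0 => ρ σ) = fixedBy (fun σ : G => ρ σ) := by
    ext v
    constructor
    · intro hv g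
      have h5 := hU 0 v (Parity.IsCocycle.zero _) (fun _ _ => rfl) (fun d hd => by
        have h6 : ρ d *ᵥ v = v := hv ⟨d, hd⟩
        rw [h6, sub_self]
        rfl) g
      exact sub_eq_zero.1 h5.symm
    · intro hv σ
      exact hv σ
  rw [hsum, hfixed] at h4
  let r : (G → Fin n → E) →ₗ[E] (D w0 → Fin n → E) :=
    { toFun := fun x σ => x σ
      map_add' := fun _ _ => rfl
      map_smul' := fun _ _ => rfl }
  have hle : dimModulo (Parity.selmer I χ κ ρ b (D w0) L) (coboundaries (fun σ : G => ρ σ)) ≤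
      dimModulo L (coboundaries (fun σ : D w0 => ρ σ)) := by
    refine finrank_inj r (fun x hx => hx.2.2.1) ?_ ?_
    · rintro x ⟨h5, h6, -⟩ ⟨v, hv⟩
      exact ⟨v, hU x v h5 h6 fun d hd => hv ⟨d, hd⟩⟩
    · rintro x ⟨v, hv⟩
      exact ⟨v, fun σ => hv σ⟩
  refine ⟨inferInstance, inferInstance, h3, ?_⟩
  obtain ⟨m, hm⟩ := h4
  set a := dimModulo (Parity.selmer I χ κ ρ b (D w0) L) (coboundaries (fun σ : G => ρ σ)) with ha
  refine ⟨(dimModulo L (coboundaries (fun σ : D w0 => ρ σ)) - a) / 2, ?_⟩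
  omega

end

end Pool.Agent.Work.MP_787500_nt.GP
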