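import Mathlib
import Pool.Agent.Work.MP_787500_nt.GP.U_Bound
import Pool.Agent.Work.MP_787500_nt.GP.FinDefs
import Pool.Agent.Work.MP_787500_nt.GP.U_Par
import Pool.Agent.Work.MP_787500_nt.GP.LT2_Sep
import Pool.Agent.Work.MP_787500_nt.Gn.SmallX
import Pool.Agent.Work.MP_787500_nt.PA.DecCl

/-!
# Module U_GLOB: Selmer classes are determined by their restriction to the decomposition group at 2

`K` as in `IsBase K q s`, `T` a finite set of odd primes, `ρ` unramified outside 2 and `T`, `TwistAt ρ Q` for every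
prime `Q` that contains an element of `T` (and not 2).

* `cob_inertia`: the commutators of the inertia group `Q.inertia` are in `coreT K T` (`tame_mem`), so
  `x (σ τ) = x (τ σ)` for `σ`, `τ` in it, and `x` is a coboundary on `Q.inertia`.
* `cob_of_decomp_K`: `Bd.cob_of_decomp`.
* `parityBound_of_formula`: if the parity formula holds for a family `D w`, all cocycles of `D w`, `w ≠ w0`, are
  coboundaries and have no fixed vectors, and every Selmer cocycle that is a coboundary on `D w0` is a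
  coboundary, then `ParityBound` for `D w0`.
-/

set_option autoImplicit false
set_option linter.unusedSectionVars false

namespace Pool.Agent.Work.MP_787500_nt.GP

open IsDedekindDomain NumberField Matrix
open Pool.Agent.Work.MP_787500_nt.PA (TwoSys Sm1 Sm2 homs Coc Cob IsChar goodSys core cyc Opn SU)
open Pool.Agent.Work.MP_787500_nt.Gn (GoodG)

universe u

section arith

variable {K : Type u} [Field K]
variable {E : Type*} [NormedField E] {n : ℕ}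

theorem inertia_le_stabD (Q : Ideal (𝓞 (AlgebraicClosure K))) :
    Q.inertia (AbsGal K) ≤ stabD Q := by
  intro τ hτ x
  have h1 : τ • x - x ∈ Q := hτ x
  constructor
  · intro hx
    have h2 := Q.add_mem h1 hx
    rwa [sub_add_cancel] at h2
  · intro hx
    have h2 := Q.sub_mem hx h1
    rwa [sub_sub_cancel] at h2

theorem inertia_conj {Q : Ideal (𝓞 (AlgebraicClosure K))} {g τ : AbsGal K} (hg : g ∈ stabD Q)
    (hτ : τ ∈ Q.inertia (AbsGal K)) : g * τ * g⁻¹ ∈ Q.inertia (AbsGal K) := by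
  intro x
  show (g * τ * g⁻¹) • x - x ∈ Q
  have h1 : τ • (g⁻¹ • x) - g⁻¹ • x ∈ Q := hτ _
  have h2 := (hg _).1 h1
  rwa [smul_sub, smul_smul, smul_inv_smul, smul_smul] at h2

/-- primes that contain an element of `T` and not 2 -/
abbrev PrT (K : Type u) [Field K] (T : Finset ℕ) : Type u :=
  {Q : Ideal (𝓞 (AlgebraicClosure K)) // Q.IsPrime ∧ (2 : 𝓞 (AlgebraicClosure K)) ∉ Q ∧
    ∃ l ∈ T, (l : 𝓞 (AlgebraicClosure K)) ∈ Q}

theorem gen_K [NumberField K] {q : ℕ} {s : K} (hK : IsBase K q s) {v : HeightOneSpectrum (𝓞 K)}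
    (hv : (2 : 𝓞 K) ∈ v.asIdeal)
    (ι : AlgebraicClosure K →ₐ[K] AlgebraicClosure (v.adicCompletion K)) (T : Finset ℕ) :
    Bd.Gen 2 (inT K T) (decomp ι) (fun Q : PrT K T => Q.1.inertia (AbsGal K)) := by
  intro W hWn hWo hWp hI hJ g
  refine PA.decomp_mul_good hK hv ι (W := W) ⟨hWn, hWo, hWp, fun Q hQ h2 σ hσ => ?_⟩ g
  by_cases h : ∃ l ∈ T, (l : 𝓞 (AlgebraicClosure K)) ∈ Q
  · exact hJ ⟨Q, hQ, h2, h⟩ σ hσ
  · push Not at h
    exact hI σ ⟨Q, hQ, h2, h, hσ⟩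

end arith

section inertia

variable {K : Type u} [Field K] [NumberField K]
variable {E : Type*} [NormedField E] [NormedAlgebra ℚ_[2] E] {n : ℕ}

theorem cob_inertia {T : Finset ℕ} (hT : ∀ l ∈ T, l.Prime)
    {ρ : AbsGal K →* Matrix (Fin n) (Fin n) E} (hcont : Continuous ρ)
    (hpro : ∀ g, Filter.Tendsto (fun k : ℕ => ρ (g ^ 2 ^ k)) Filter.atTop (nhds 1))
    (hI : ∀ σ ∈ inT K T, ρ σ = 1) {Q : Ideal (𝓞 (AlgebraicClosure K))} (hQ : Q.IsPrime)
    (h2 : (2 : 𝓞 (AlgebraicClosure K)) ∉ Q) (hl : ∃ l ∈ T, (l : 𝓞 (AlgebraicClosure K)) ∈ Q)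
    (hsc : ∀ τ ∈ Q.inertia (AbsGal K), ∃ c : E, ρ τ = c • 1)
    (hne : ∃ τ ∈ Q.inertia (AbsGal K), ρ τ ≠ 1) {x : AbsGal K → Fin n → E}
    (hx : Parity.IsCocycle ρ x) (hxI : ∀ σ ∈ inT K T, x σ = 0) :
    ∃ w : Fin n → E, ∀ τ ∈ Q.inertia (AbsGal K), x τ = ρ τ *ᵥ w - w := by
  obtain ⟨l, hlT, hlQ⟩ := hl
  have hlp := hT l hlT
  have hl0 : (l : AlgebraicClosure K) ≠ 0 := by
    exact_mod_cast hlp.ne_zero
  obtain ⟨r, hr0, hr⟩ := exists_roots (K := K) (l : AlgebraicClosure K)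
  obtain ⟨a, ha⟩ := exists_isKum (K := K) (r := r) (by rw [hr0]; exact hl0)
    (fun g => by rw [hr0, map_natCast]) hr
  have hρ0 : Gn.ConjDual 2 (⊤ : Subgroup (AbsGal K)) (inT K T) (fun _ => (0 : E)) id ρ 0 :=
    ⟨hcont, fun σ _ => hpro σ, hI, transpose_zero, fun σ => by simp⟩
  have hX := Gn.small_x (baseT K T) hρ0 hx.1 hx.2 hxI
  have hcyc : ∀ τ ∈ Q.inertia (AbsGal K), cyc τ = 1 := fun τ hτ => cyc_inertia hQ h2 hτ
  have hadd : ∀ σ ∈ Q.inertia (AbsGal K), ∀ τ, a (σ * τ) = a σ + a τ := by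
    intro σ hσ τ
    rw [ha.coc, hcyc σ hσ, one_mul]
  have ha1 : a 1 = 0 := by
    have h1 := hadd 1 (Subgroup.one_mem _) 1
    rw [mul_one] at h1
    have h3 : a 1 + 0 = a 1 + a 1 := by rw [add_zero]; exact h1
    exact (add_left_cancel h3).symm
  have hinv : ∀ σ ∈ Q.inertia (AbsGal K), a σ⁻¹ = -a σ := by
    intro σ hσ
    have h1 := hadd σ hσ σ⁻¹
    rw [mul_inv_cancel, ha1] at h1
    exact (neg_eq_of_add_eq_zero_right h1.symm).symm
  -- commutators are in the core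
  have hcore : ∀ σ ∈ Q.inertia (AbsGal K), ∀ τ ∈ Q.inertia (AbsGal K),
      (τ * σ)⁻¹ * (σ * τ) ∈ coreT K T := by
    intro σ hσ τ hτ
    set k := (τ * σ)⁻¹ * (σ * τ) with hk
    have hkI : k ∈ Q.inertia (AbsGal K) := by
      rw [hk]
      exact Subgroup.mul_mem _ (Subgroup.inv_mem _ (Subgroup.mul_mem _ hτ hσ))
        (Subgroup.mul_mem _ hσ hτ)
    have hak : a k = 0 := by
      rw [hk, hadd _ (Subgroup.inv_mem _ (Subgroup.mul_mem _ hτ hσ)),
        hinv _ (Subgroup.mul_mem _ hτ hσ), hadd τ hτ, hadd σ hσ]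
      ring
    show k ∈ sInf {W | GoodG 2 ⊤ (inT K T) W}
    rw [Subgroup.mem_sInf]
    intro W hW
    exact tame_mem hQ hlp hlQ h2 ha hr0 (inertia_le_stabD Q hkI) (hcyc k hkI) hak hW.isOpen
      hW.normal (fun y => hW.pow y trivial)
  have hcomm : ∀ σ ∈ Q.inertia (AbsGal K), ∀ τ ∈ Q.inertia (AbsGal K),
      x (σ * τ) = x (τ * σ) := by
    intro σ hσ τ hτ
    have h1 := (Gn.zg_core hX (hcore σ hσ τ hτ)).2 (τ * σ)
    rwa [mul_inv_cancel_left] at h1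
  obtain ⟨τ, hτ, hτ1⟩ := hne
  obtain ⟨c, hc⟩ := hsc τ hτ
  have hc1 : c - 1 ≠ 0 := by
    intro h
    apply hτ1
    rw [hc, sub_eq_zero.1 h, one_smul]
  refine ⟨(c - 1)⁻¹ • x τ, fun σ hσ => ?_⟩
  obtain ⟨d, hd⟩ := hsc σ hσ
  have h1 := hcomm σ hσ τ hτ
  rw [hx.2, hx.2, hc, hd] at h1
  simp only [smul_mulVec, one_mulVec] at h1
  rw [hd, smul_mulVec, one_mulVec]
  ext i
  have h3 := congrFun h1 i
  simp only [Pi.add_apply, Pi.sub_apply, Pi.smul_apply, smul_eq_mul] at h3 ⊢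
  field_simp
  linear_combination -h3

variable [FiniteDimensional ℚ_[2] E]

theorem cob_of_decomp_K {q : ℕ} {s : K} (hK : IsBase K q s) {v : HeightOneSpectrum (𝓞 K)}
    (hv : (2 : 𝓞 K) ∈ v.asIdeal)
    (ι : AlgebraicClosure K →ₐ[K] AlgebraicClosure (v.adicCompletion K)) {T : Finset ℕ}
    (hT : ∀ l ∈ T, l.Prime) {ρ : AbsGal K →* Matrix (Fin n) (Fin n) E} (hcont : Continuous ρ)
    (hpro : ∀ g, Filter.Tendsto (fun k : ℕ => ρ (g ^ 2 ^ k)) Filter.atTop (nhds 1))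
    (hI : ∀ σ ∈ inT K T, ρ σ = 1) (hn : ∀ _ : PrT K T, n ≠ 1)
    (htw : ∀ Q : PrT K T, TwistAt ρ Q.1)
    {x : AbsGal K → Fin n → E} (hx : Parity.IsCocycle ρ x) (hxI : ∀ σ ∈ inT K T, x σ = 0)
    {y : Fin n → E} (hxD : ∀ d ∈ decomp ι, x d = ρ d *ᵥ y - y) (g : AbsGal K) :
    x g = ρ g *ᵥ y - y :=
  Bd.cob_of_decomp (p := 2) (C := fun Q : PrT K T => stabD Q.1) (gen_K hK hv ι T)
    (fun _ _ hg _ hτ => inertia_conj hg hτ) hcont hpro hI hn (fun Q => (htw Q).scal)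
    (fun Q => (htw Q).ram) (fun Q => (htw Q).unif) hx hxI
    (fun Q => cob_inertia hT hcont hpro hI Q.2.1 Q.2.2.1 Q.2.2.2 (htw Q).scal (htw Q).ram hx hxI)
    hxD g

theorem cob_of_stabD {T : Finset ℕ}
    (hT : ∀ l ∈ T, l.Prime) {ρ : AbsGal K →* Matrix (Fin n) (Fin n) E} (hcont : Continuous ρ)
    (hpro : ∀ g, Filter.Tendsto (fun k : ℕ => ρ (g ^ 2 ^ k)) Filter.atTop (nhds 1))
    (hI : ∀ σ ∈ inT K T, ρ σ = 1) (Q : PrT K T) (htw : TwistAt ρ Q.1)
    {x : AbsGal K → Fin n → E} (hx : Parity.IsCocycle ρ x) (hxI : ∀ σ ∈ inT K T, x σ = 0) :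
    ∃ w : Fin n → E, ∀ g ∈ stabD Q.1, x g = ρ g *ᵥ w - w := by
  obtain ⟨w, hw⟩ := cob_inertia hT hcont hpro hI Q.2.1 Q.2.2.1 Q.2.2.2 htw.scal htw.ram hx hxI
  exact ⟨w, fun g hg => Bd.cob_extend hx.2 (fun _ hg _ hτ => inertia_conj hg hτ) htw.scal htw.ram
    hw hg⟩

/-- parity and upper bound, from the parity formula for the family of the decomposition group at 2 and
decomposition groups at primes that contain an element of `T` -/
theorem parityBound_K {q : ℕ} {s : K} (hK : IsBase K q s) {v : HeightOneSpectrum (𝓞 K)}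
    (hv : (2 : 𝓞 K) ∈ v.asIdeal)
    (ι : AlgebraicClosure K →ₐ[K] AlgebraicClosure (v.adicCompletion K)) {T : Finset ℕ}
    (hT : ∀ l ∈ T, l.Prime) {χ : AbsGal K → E} {κ : AbsGal K → AbsGal K}
    {ρ : AbsGal K →* Matrix (Fin n) (Fin n) E} {b : Matrix (Fin n) (Fin n) E}
    (hρ : Parity.IsConjDual (inT K T) χ κ ρ b) (hκc : Continuous κ)
    (hκm : ∀ g h, κ (g * h) = κ g * κ h) (hn : ∀ _ : PrT K T, n ≠ 1)
    (htw : ∀ Q : PrT K T, TwistAt ρ Q.1)
    {Φ : Type*} [Fintype Φ] {D : Φ → Subgroup (AbsGal K)} (w0 : Φ) (hD0 : D w0 = decomp ι)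
    (hD : ∀ w, w ≠ w0 → ∃ Q : PrT K T, D w = stabD Q.1)
    (H : Parity.ParityFormula (inT K T) χ κ ρ b D) :
    Parity.ParityBound (inT K T) χ κ ρ b (decomp ι) := by
  rw [← hD0]
  refine parityBound_of_formula w0 H hρ.cont hκc hκm hρ.dual ?_ ?_ ?_
  · intro x hx hxI w hw
    obtain ⟨Q, hQ⟩ := hD w hw
    rw [hQ]
    exact cob_of_stabD hT hρ.cont hρ.proTwo hρ.unram Q (htw Q) hx hxI
  · intro w hw y hy
    obtain ⟨Q, hQ⟩ := hD w hw
    obtain ⟨τ, hτ, hτ1⟩ := (htw Q).ram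
    obtain ⟨c, hc⟩ := (htw Q).scal τ hτ
    have h1 := hy τ (by rw [hQ]; exact inertia_le_stabD _ hτ)
    rw [hc, smul_mulVec, one_mulVec] at h1
    have hc1 : c - 1 ≠ 0 := by
      intro h
      apply hτ1
      rw [hc, sub_eq_zero.1 h, one_smul]
    have h2 : (c - 1) • y = 0 := by rw [sub_smul, one_smul, h1, sub_self]
    exact (smul_eq_zero.1 h2).resolve_left hc1
  · intro x y hx hxI hxD
    rw [hD0] at hxD
    exact cob_of_decomp_K hK hv ι hT hρ.cont hρ.proTwo hρ.unram hn htw hx hxI hxD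

end inertia

end Pool.Agent.Work.MP_787500_nt.GP
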