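import Mathlib
import Pool.Agent.Work.MP_787500_nt.GP.A2_Main
import Pool.Agent.Work.MP_787500_nt.GP.U_Glob
import Pool.Agent.Work.MP_787500_nt.GP.L20a_Dim
import Pool.Agent.Work.MP_787500_nt.GP.FinDefs2
import Pool.Agent.Work.MP_787500_nt.PA.Final

/-!
The parity formula and the upper bound in one statement.
-/

set_option autoImplicit false
set_option linter.unusedSectionVars false

namespace Pool.Agent.Work.MP_787500_nt.GP

open IsDedekindDomain NumberField Matrix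
open Pool.Agent.Work.MP_787500_nt.PA (TwoSys Sm1 Sm2 homs Coc Cob IsChar goodSys core cyc Opn SU toE)
open Pool.Agent.Work.MP_787500_nt.Gn (GoodG)
open Pool.Agent.Work.MP_787500_nt.Parity

universe u w

/-- a coboundary is orthogonal to every space of cocycles -/
private theorem a3_perp {H : Type*} [Group H] [TopologicalSpace H] {E : Type*} [NormedField E]
    {n : ℕ} {χ : H → E} {A B : H → Matrix (Fin n) (Fin n) E} {b : Matrix (Fin n) (Fin n) E}
    (hdual : ∀ σ, (A σ)ᵀ * b * B σ = χ σ • b) (hB : Continuous B)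
    (hBm : ∀ σ τ, B (σ * τ) = B σ * B τ) {L : Submodule E (H → Fin n → E)}
    (hL : ∀ x ∈ L, Parity.IsCocycle A x) {y : H → Fin n → E} {v : Fin n → E}
    (hy : ∀ σ, y σ = B σ *ᵥ v - v) : IsPerp χ B b (L : Set (H → Fin n → E)) y := by
  have hyc : y = fun σ => B σ *ᵥ v - v := funext hy
  refine ⟨⟨?_, fun σ τ => ?_⟩, fun x hx => ?_⟩
  · rw [hyc]
    exact (Continuous.matrix_mulVec hB continuous_const).sub continuous_const
  · rw [hy, hy, hy, hBm, mulVec_sub, mulVec_mulVec]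
    abel
  · obtain ⟨hxc, hxm⟩ := hL x hx
    refine ⟨fun σ => -(x σ ⬝ᵥ (b *ᵥ (B σ *ᵥ v))), ?_, fun σ τ => ?_⟩
    · exact (Continuous.dotProduct hxc (Continuous.matrix_mulVec continuous_const
        (Continuous.matrix_mulVec hB continuous_const))).neg
    · have h1 : (A σ *ᵥ x τ) ⬝ᵥ (b *ᵥ (B σ *ᵥ (B τ *ᵥ v))) =
          χ σ * (x τ ⬝ᵥ (b *ᵥ (B τ *ᵥ v))) := by
        have h2 : (A σ *ᵥ x τ) ⬝ᵥ (b *ᵥ (B σ *ᵥ (B τ *ᵥ v))) =
            x τ ⬝ᵥ (((A σ)ᵀ * b * B σ) *ᵥ (B τ *ᵥ v)) := by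
          rw [← mulVec_mulVec, ← mulVec_mulVec, Matrix.dotProduct_mulVec (x τ) (A σ)ᵀ,
            Matrix.vecMul_transpose]
        rw [h2, hdual, smul_mulVec, dotProduct_smul, smul_eq_mul]
      have h3 : x (σ * τ) ⬝ᵥ (b *ᵥ (B (σ * τ) *ᵥ v)) =
          x σ ⬝ᵥ (b *ᵥ (B σ *ᵥ (B τ *ᵥ v))) + χ σ * (x τ ⬝ᵥ (b *ᵥ (B τ *ᵥ v))) := by
        rw [hxm, hBm, ← mulVec_mulVec, add_dotProduct, h1]
      show x σ ⬝ᵥ (b *ᵥ (B σ *ᵥ y τ)) = -(x σ ⬝ᵥ (b *ᵥ (B σ *ᵥ v))) +
        χ σ * -(x τ ⬝ᵥ (b *ᵥ (B τ *ᵥ v))) - -(x (σ * τ) ⬝ᵥ (b *ᵥ (B (σ * τ) *ᵥ v)))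
      rw [h3, hy τ, mulVec_sub, mulVec_sub, dotProduct_sub]
      ring

section

variable {K : Type u} [Field K] [NumberField K]

/-- the prime conjugate to `Q` -/
private noncomputable def a3_cj (c : AlgebraicClosure K ≃+* AlgebraicClosure K)
    (Q : Ideal (𝓞 (AlgebraicClosure K))) : Ideal (𝓞 (AlgebraicClosure K)) :=
  Q.comap (RingOfIntegers.mapRingEquiv c : 𝓞 (AlgebraicClosure K) →+* 𝓞 (AlgebraicClosure K))

private theorem a3_stab {c : AlgebraicClosure K ≃+* AlgebraicClosure K} (hc : ∀ x, c (c x) = x)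
    {κ : AbsGal K → AbsGal K}
    (hκ : ∀ (σ : AbsGal K) (x : AlgebraicClosure K), κ σ x = c (σ (c x)))
    {Q : Ideal (𝓞 (AlgebraicClosure K))} {d : AbsGal K} (hd : d ∈ stabD Q) :
    κ d ∈ stabD (a3_cj c Q) := by
  rw [mem_stabD]
  intro x
  let C : 𝓞 (AlgebraicClosure K) ≃+* 𝓞 (AlgebraicClosure K) := RingOfIntegers.mapRingEquiv c
  have h1 : C (κ d • x) = d • C x := by
    apply RingOfIntegers.ext
    show c (κ d _) = d (c _)
    rw [hκ, hc]
    rfl
  show C x ∈ Q ↔ C (κ d • x) ∈ Q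
  rw [h1]
  exact mem_stabD.1 hd _

variable {E : Type*} [NormedField E] [NormedAlgebra ℚ_[2] E] [FiniteDimensional ℚ_[2] E] {n : ℕ}

private theorem a3_two {q : ℕ} {T : Finset ℕ} (hT : ∀ l ∈ T, SplitPr q l)
    {Q : Ideal (𝓞 (AlgebraicClosure K))} (hQ : Q.IsPrime)
    (h : ∃ l ∈ T, (l : 𝓞 (AlgebraicClosure K)) ∈ Q) : (2 : 𝓞 (AlgebraicClosure K)) ∉ Q := by
  obtain ⟨l, hl, hlQ⟩ := h
  intro h4
  have h3 := hT l hl
  obtain ⟨k, hk⟩ := h3.1.odd_of_ne_two h3.2.1
  apply hQ.ne_top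
  rw [Ideal.eq_top_iff_one]
  have h5 : (1 : 𝓞 (AlgebraicClosure K)) = (l : 𝓞 (AlgebraicClosure K)) - 2 * k := by
    rw [hk]
    push_cast
    ring
  rw [h5]
  exact Q.sub_mem hlQ (Q.mul_mem_right _ h4)

/-- in the twist case the conditions at `T` are empty -/
private theorem a3_sel {q : ℕ} {v : HeightOneSpectrum (𝓞 K)}
    (ι : AlgebraicClosure K →ₐ[K] AlgebraicClosure (v.adicCompletion K))
    {c : AlgebraicClosure K ≃+* AlgebraicClosure K} (hc : ∀ x, c (c x) = x)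
    {κ : AbsGal K → AbsGal K}
    (hκ : ∀ (σ : AbsGal K) (x : AlgebraicClosure K), κ σ x = c (σ (c x)))
    {T : Finset ℕ} (hT : ∀ l ∈ T, SplitPr q l) {P : ℕ → Ideal (𝓞 (AlgebraicClosure K))}
    (hP : ∀ l ∈ T, (P l).IsPrime ∧ (l : 𝓞 (AlgebraicClosure K)) ∈ P l)
    {χ : AbsGal K → E} {ρ : AbsGal K →* Matrix (Fin n) (Fin n) E} {b : Matrix (Fin n) (Fin n) E}
    (hρ : IsConjDual (inT K T) χ κ ρ b)
    (htw : ∀ Q : Ideal (𝓞 (AlgebraicClosure K)), Q.IsPrime →
      (∃ l ∈ T, (l : 𝓞 (AlgebraicClosure K)) ∈ Q) → TwistAt ρ Q)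
    (L : ∀ w : Option T, Submodule E (DD ι (T := T) P w → Fin n → E))
    (hL : ∀ w, Between (coboundaries (fun σ : DD ι (T := T) P w => ρ σ)) (L w)
      (Parity.cocycles (fun σ : DD ι (T := T) P w => ρ σ))) :
    selmerF (inT K T) χ κ ρ b (DD ι (T := T) P) L =
      Parity.selmer (inT K T) χ κ ρ b (decomp ι) (L none) := by
  have hκm : ∀ g h, κ (g * h) = κ g * κ h := fun g h => by
    ext x
    rw [hκ, AlgEquiv.mul_apply, AlgEquiv.mul_apply, hκ, hκ, hc]
  have hκc := PA.kappa_continuous hc hκ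
  ext x
  constructor
  · rintro ⟨h5, h6, h7⟩
    exact ⟨h5, h6, (h7 none).1, (h7 none).2⟩
  · rintro ⟨h5, h6, h7, h8⟩
    refine ⟨h5, h6, fun w => ?_⟩
    match w with
    | none => exact ⟨h7, h8⟩
    | some l =>
      have hl := hP l l.2
      have h2 := a3_two hT hl.1 ⟨l, l.2, hl.2⟩
      obtain ⟨y, hy⟩ := cob_of_stabD (fun l hl => (hT l hl).1) hρ.cont hρ.proTwo hρ.unram
        ⟨P l, hl.1, h2, l, l.2, hl.2⟩ (htw _ hl.1 ⟨l, l.2, hl.2⟩) h5 h6
      have hlp : (P l).IsPrime := hl.1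
      have hl' : (a3_cj c (P l)).IsPrime := Ideal.comap_isPrime _ _
      have hlc : ((l : ℕ) : 𝓞 (AlgebraicClosure K)) ∈ a3_cj c (P l) := by
        show (RingOfIntegers.mapRingEquiv c : 𝓞 (AlgebraicClosure K) →+*
          𝓞 (AlgebraicClosure K)) ((l : ℕ) : 𝓞 (AlgebraicClosure K)) ∈ P l
        rw [map_natCast]
        exact hl.2
      have h2' := a3_two hT hl' ⟨l, l.2, hlc⟩
      obtain ⟨y', hy'⟩ := cob_of_stabD (fun l hl => (hT l hl).1) hρ.cont hρ.proTwo hρ.unram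
        ⟨a3_cj c (P l), hl', h2', l, l.2, hlc⟩ (htw _ hl' ⟨l, l.2, hlc⟩) h5 h6
      refine ⟨(hL (some l)).1 ⟨y, fun σ => hy σ σ.2⟩, ?_⟩
      exact a3_perp (H := DD ι (T := T) P (some l)) (χ := fun σ => χ σ) (A := fun σ => ρ σ)
        (B := fun σ => ρ (κ σ)) (fun σ => hρ.dual σ)
        (hρ.cont.comp (hκc.comp continuous_subtype_val))
        (fun σ τ => by rw [Subgroup.coe_mul, hκm, map_mul]) (fun x hx => (hL (some l)).2 hx)
        (v := y') (fun σ => hy' _ (a3_stab hc hκ σ.2))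

end

theorem both (K : Type u) [Field K] [NumberField K] (q : ℕ) (s : K) (hK : IsBase K q s)
    (v : HeightOneSpectrum (𝓞 K)) (hv : (2 : 𝓞 K) ∈ v.asIdeal)
    (ι : AlgebraicClosure K →ₐ[K] AlgebraicClosure (v.adicCompletion K))
    (c : AlgebraicClosure K ≃+* AlgebraicClosure K) (hc : ∀ x, c (c x) = x)
    (hcs : c (algebraMap K (AlgebraicClosure K) s) = -algebraMap K (AlgebraicClosure K) s)
    (κ : AbsGal K → AbsGal K)
    (hκ : ∀ (σ : AbsGal K) (x : AlgebraicClosure K), κ σ x = c (σ (c x)))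
    (T : Finset ℕ) (hT : ∀ l ∈ T, SplitPr q l) (P : ℕ → Ideal (𝓞 (AlgebraicClosure K)))
    (hP : ∀ l ∈ T, (P l).IsPrime ∧ (l : 𝓞 (AlgebraicClosure K)) ∈ P l)
    (E : Type w) [NormedField E] [NormedAlgebra ℚ_[2] E] [FiniteDimensional ℚ_[2] E] (n : ℕ)
    (ρ : AbsGal K →* Matrix (Fin n) (Fin n) E) (b : Matrix (Fin n) (Fin n) E)
    (hb : T = ∅ ∨ b.det ≠ 0) (hρ : IsConjDual (inT K T) (cyclo E) κ ρ b) :
    ParityAndBound (inT K T) (cyclo E) κ ρ b (DD ι (T := T) P) none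
      (∀ Q : Ideal (𝓞 (AlgebraicClosure K)), Q.IsPrime →
        (∃ l ∈ T, (l : 𝓞 (AlgebraicClosure K)) ∈ Q) → TwistAt ρ Q) := by
  -- the case `T = ∅`
  have hempty : T = ∅ → ParityBound (inT K T) (cyclo E) κ ρ b (decomp ι) := by
    rintro rfl
    have hI : ∀ Q : Ideal (𝓞 (AlgebraicClosure K)), Q.IsPrime →
        (2 : 𝓞 (AlgebraicClosure K)) ∉ Q → ∀ σ ∈ Q.inertia (AbsGal K), σ ∈ inT K ∅ :=
      fun Q hQ hQ2 σ hσ => ⟨Q, hQ, hQ2, fun l hl => absurd hl (Finset.notMem_empty l), hσ⟩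
    have hρ' : PA.IsConjDual κ ρ b :=
      ⟨hρ.cont, hρ.proTwo, fun Q hQ hQ2 σ hσ => hρ.unram σ (hI Q hQ hQ2 σ hσ), hρ.symm, hρ.dual⟩
    have h := PA.parity hK hv ι ⟨hc, hcs⟩ hκ hρ'
    have hsel : ∀ L, PA.selmerPerp κ ρ b (decomp ι) L =
        Parity.selmer (inT K ∅) (cyclo E) κ ρ b (decomp ι) L := by
      intro L
      ext x
      constructor
      · rintro ⟨h1, h2, h3, h4, h5⟩
        exact ⟨⟨h1, h2⟩, fun σ ⟨Q, hQ, hQ2, _, hσ⟩ => h3 Q hQ hQ2 σ hσ, h4, h5⟩
      · rintro ⟨⟨h1, h2⟩, h3, h4, h5⟩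
        exact ⟨h1, h2, fun Q hQ hQ2 σ hσ => h3 σ (hI Q hQ hQ2 σ hσ), h4, h5⟩
    rintro L ⟨hL1, hL2⟩
    rw [← hsel L]
    exact h L hL1 hL2
  have hform : ParityFormula (inT K T) (cyclo E) κ ρ b (DD ι (T := T) P) := by
    rcases hb with hT0 | hb
    · have hPB := hempty hT0
      subst hT0
      have htw : ∀ Q : Ideal (𝓞 (AlgebraicClosure K)), Q.IsPrime →
          (∃ l ∈ (∅ : Finset ℕ), (l : 𝓞 (AlgebraicClosure K)) ∈ Q) → TwistAt ρ Q := by
        rintro Q _ ⟨l, hl, _⟩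
        exact absurd hl (Finset.notMem_empty l)
      intro L hL
      obtain ⟨h1, h2, h3, k, hk⟩ := hPB (L none) (hL none)
      have hsel := a3_sel ι hc hκ hT hP hρ htw L hL
      rw [hsel]
      have hcf : FiniteDimensional E (coboundaries ρ) := cob_fd (fun g => ρ g)
      have hcL : FiniteDimensional E (coboundaries (fun σ : DD ι (T := ∅) P none => ρ σ)) :=
        cob_fd (fun σ : DD ι (T := ∅) P none => ρ σ)
      have hfM : FiniteDimensional E (Parity.selmer (inT K ∅) (cyclo E) κ ρ b (decomp ι) (L none)) := by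
        have h4 : FiniteDimensional E ((coboundaries ρ).submoduleOf
            (Parity.selmer (inT K ∅) (cyclo E) κ ρ b (decomp ι) (L none))) :=
          LinearEquiv.finiteDimensional (Submodule.submoduleOfEquivOfLe h3).symm
        exact Module.Finite.of_submodule_quotient ((coboundaries ρ).submoduleOf
            (Parity.selmer (inT K ∅) (cyclo E) κ ρ b (decomp ι) (L none)))
      have hfL : FiniteDimensional E (L none) := by
        have h4 : FiniteDimensional E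
            ((coboundaries (fun σ : DD ι (T := ∅) P none => ρ σ)).submoduleOf (L none)) :=
          LinearEquiv.finiteDimensional (Submodule.submoduleOfEquivOfLe (hL none).1).symm
        have h5 : FiniteDimensional E
            (L none ⧸ (coboundaries (fun σ : DD ι (T := ∅) P none => ρ σ)).submoduleOf (L none)) := h1
        exact Module.Finite.of_submodule_quotient
          ((coboundaries (fun σ : DD ι (T := ∅) P none => ρ σ)).submoduleOf (L none))
      have hfix : fixedBy (fun σ : decomp ι => ρ σ) = fixedBy (fun σ : AbsGal K => ρ σ) := by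
        ext y
        constructor
        · intro hy g
          have h5 := cob_of_decomp_K hK hv ι (T := ∅) (fun l hl => absurd hl (Finset.notMem_empty l))
            hρ.cont hρ.proTwo hρ.unram
            (fun Q => absurd Q.2.2.2.choose_spec.1 (Finset.notMem_empty _))
            (fun Q => absurd Q.2.2.2.choose_spec.1 (Finset.notMem_empty _))
            (x := 0) (Parity.IsCocycle.zero _) (fun _ _ => rfl) (y := y) (fun d hd => by
              have h6 : ρ d *ᵥ y = y := hy ⟨d, hd⟩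
              rw [h6, sub_self]
              rfl) g
          exact sub_eq_zero.1 h5.symm
        · intro hy σ
          exact hy σ
      refine ⟨?_, hfM, h3, ?_⟩
      · rintro (_ | l)
        · exact hfL
        · exact absurd l.2 (Finset.notMem_empty _)
      · rw [Fintype.sum_option]
        have h6 : ∑ l : (∅ : Finset ℕ),
            (dimModulo (L (some l)) (coboundaries (fun σ : DD ι (T := ∅) P (some l) => ρ σ)) +
            Module.finrank E (fixedBy (fun σ : DD ι (T := ∅) P (some l) => ρ σ))) = 0 :=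
          Finset.sum_eq_zero fun l _ => absurd l.2 (Finset.notMem_empty _)
        rw [h6, add_zero]
        change Even (_ + _ + (dimModulo (L none) (coboundaries (fun σ : decomp ι => ρ σ)) +
          Module.finrank E (fixedBy (fun σ : decomp ι => ρ σ))))
        have hk' : dimModulo (L none) (coboundaries (fun σ : decomp ι => ρ σ)) =
            dimModulo (Parity.selmer (inT K ∅) (cyclo E) κ ρ b (decomp ι) (L none))
              (coboundaries ρ) + 2 * k := hk
        rw [hfix, hk']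
        exact ⟨dimModulo (Parity.selmer (inT K ∅) (cyclo E) κ ρ b (decomp ι) (L none)) (coboundaries ρ) +
          Module.finrank E (fixedBy (fun σ : AbsGal K => ρ σ)) + k, by ring⟩
    · exact main K q s hK v hv ι c hc hcs κ hκ T hT P hP E n ρ b hb hρ
  intro L hL
  obtain ⟨h1, h2, h3, h4⟩ := hform L hL
  refine ⟨h1, h2, h3, h4, fun htw => ?_⟩
  rw [a3_sel ι hc hκ hT hP hρ htw L hL]
  have hPB : ParityBound (inT K T) (cyclo E) κ ρ b (decomp ι) := by
    rcases hb with hT0 | hb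
    · exact hempty hT0
    · exact parityBound_K hK hv ι (fun l hl => (hT l hl).1) hρ (PA.kappa_continuous hc hκ)
        (fun g h => by ext x; rw [hκ, AlgEquiv.mul_apply, AlgEquiv.mul_apply, hκ, hκ, hc])
        (fun _ h1 => by
          have h3 := even_dim K q s hK v hv ι c hc hcs κ hκ T hT P hP E n ρ b hb hρ
          rw [h1] at h3
          exact absurd h3 (by decide))
        (fun Q => htw Q.1 Q.2.1 Q.2.2.2)
        (none : Option T) rfl (by
          rintro (_ | l) hw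
          · exact absurd rfl hw
          · exact ⟨⟨P l, (hP l l.2).1, a3_two hT (hP l l.2).1 ⟨l, l.2, (hP l l.2).2⟩, l, l.2,
              (hP l l.2).2⟩, rfl⟩) hform
  obtain ⟨-, -, -, k, hk⟩ := hPB (L none) (hL none)
  exact ⟨k, hk⟩

end Pool.Agent.Work.MP_787500_nt.GP
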